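import Pool.Agent.Lib.MP_696deb_nt.B3.Kro
import Pool.Agent.Lib.MP_696deb_nt.B2.GZd

/-! The series of the newform twisted by a primitive quadratic character. -/

set_option autoImplicit false

open Finset NumberTheorySymbols

namespace Pool.Agent.Lib.MP_696deb_nt.B3

section

variable {N : ℕ} [NeZero N] {χ : ℤ → ℤ}

/-- The Gauss sums. -/
noncomputable def gsC (χ : ℤ → ℤ) (m : ZMod N) : ℂ :=
  ∑ k : ZMod N, (χ k.val : ℂ) * ZMod.stdAddChar (k * m)

theorem PChr.val (h : PChr N χ) (m : ℤ) : χ (m : ZMod N).val = χ m :=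
  h.per _ _ ((ZMod.intCast_eq_intCast_iff_dvd_sub _ _ _).1 (by simp))

theorem PChr.gs_unit (h : PChr N χ) {u : ℤ} (hu : IsCoprime u N) (m : ZMod N) :
    χ u * gsC χ ((u : ZMod N) * m) = gsC χ m := by
  have h1 : IsUnit (u : ZMod N) := (ZMod.coe_int_isUnit_iff_isCoprime u N).mpr hu.symm
  rw [gsC, gsC, mul_sum, ← (IsUnit.isUnit_iff_mulLeft_bijective.mp h1).sum_comp
    fun k => (χ k.val : ℂ) * ZMod.stdAddChar (k * m)]
  refine sum_congr rfl fun k _ => ?_
  obtain ⟨k, rfl⟩ := ZMod.intCast_surjective k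
  rw [mul_left_comm (k : ZMod N), ← mul_assoc (u : ZMod N), ← Int.cast_mul u, h.val, h.val, h.mul,
    Int.cast_mul (χ u), mul_assoc]

theorem PChr.gs_eq (h : PChr N χ) (m : ℤ) : gsC χ (m : ZMod N) = χ m * gsC χ (1 : ZMod N) := by
  by_cases hm : IsCoprime m N
  · have h1 := h.gs_unit hm 1
    have h2 := congr_arg (Int.cast : ℤ → ℂ) (h.sq hm)
    rw [mul_one] at h1
    push_cast at h2
    linear_combination (χ m : ℂ) * h1 - gsC χ (m : ZMod N) * h2
  rw [h.zero m hm, Int.cast_zero, zero_mul]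
  obtain ⟨p, hp, hpd⟩ := Nat.exists_prime_and_dvd (mt Int.isCoprime_iff_gcd_eq_one.2 hm)
  obtain ⟨m, rfl⟩ : (p : ℤ) ∣ m := (Int.natCast_dvd_natCast.mpr hpd).trans (Int.gcd_dvd_left _ _)
  obtain ⟨N', hN'⟩ : p ∣ N := Int.natCast_dvd_natCast.mp
    ((Int.natCast_dvd_natCast.mpr hpd).trans (Int.gcd_dvd_right _ _))
  obtain ⟨u, ⟨v, h0⟩, h1⟩ := h.prim p N' hp hN'
  have h2 := h.gs_unit (u := u) (h.cop (by omega)) ((p * m : ℤ) : ZMod N)
  have h3 : ((u : ZMod N) * ((p * m : ℤ) : ZMod N)) = (p * m : ℤ) := by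
    rw [← Int.cast_mul, ZMod.intCast_eq_intCast_iff_dvd_sub]
    exact ⟨-v * m, by rw [hN']; push_cast; linear_combination -(p * m) * h0⟩
  rw [h1, h3] at h2
  push_cast at h2 ⊢
  linear_combination (-1 / 2) * h2

theorem PChr.gs_ne (h : PChr N χ) : gsC χ (1 : ZMod N) ≠ 0 := by
  intro h0
  have h1 : ∀ m : ZMod N, gsC χ m = 0 := fun m => by
    obtain ⟨m, rfl⟩ := ZMod.intCast_surjective m
    rw [h.gs_eq, h0, mul_zero]
  have h2 : ∑ m : ZMod N, gsC χ m * ZMod.stdAddChar (-m) = N := by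
    simp only [gsC, sum_mul]
    rw [sum_comm]
    have h3 : ∀ k m : ZMod N, (χ k.val : ℂ) * ZMod.stdAddChar (k * m) * ZMod.stdAddChar (-m) =
        (χ k.val : ℂ) * ZMod.stdAddChar (m * (k - 1)) := fun k m => by
      rw [mul_assoc, ← AddChar.map_add_eq_mul]
      congr 2
      ring
    simp only [h3, ← mul_sum, AddChar.sum_mulShift _ (ZMod.isPrimitive_stdAddChar N), sub_eq_zero]
    rw [sum_eq_single 1 (fun k _ hk => by simp [hk]) (by simp)]
    have h4 := h.val 1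
    rw [Int.cast_one, h.one] at h4
    rw [h4]
    simp
  simp [h1] at h2
  exact NeZero.ne N (by exact_mod_cast h2.symm)

end

variable {N : ℕ} {χ : ℤ → ℤ}

theorem PChr.sum_Ladd (h : PChr N χ) : ∃ τ : ℂ, τ ≠ 0 ∧
    ∀ s : ℂ, (3 : ℝ) / 2 < s.re → τ * ∑ k ∈ range N, (χ k : ℂ) * Ladd k N s =
      LSeries (fun n => (χ n : ℂ) * a15 n) s := by
  have : NeZero N := ⟨h.ne⟩
  have h0 := h.gs_ne
  have hξ : ∀ n : ℕ, (χ n : ℂ) = ∑ k ∈ range N,
      (gsC χ (1 : ZMod N))⁻¹ * (χ k : ℂ) * q1 ((k : ℤ) / (N : ℤ)) ^ n := fun n => by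
    have h4 := h.gs_eq n
    simp only [mul_assoc, ← mul_sum]
    rw [eq_inv_mul_iff_mul_eq₀ h0, mul_comm, ← h4, gsC]
    refine sum_nbij' (fun j : ZMod N => j.val) (fun j : ℕ => (j : ZMod N)) (by
      simp [ZMod.val_lt]) (by simp) (by simp)
      (fun j hj => ZMod.val_cast_of_lt (by simpa using hj)) fun k _ => ?_
    have := q1_div_pow N (k.val : ℤ) n
    simp only [Int.cast_natCast, ZMod.natCast_zmod_val] at this ⊢
    rw [this]
  refine ⟨_, inv_ne_zero h0, fun s hs => (LSeriesHasSum.LSeries_eq ?_).symm⟩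
  have := hasSum_sum (s := range N) fun k _ =>
    (hasSum_Ladd k N hs).mul_left ((gsC χ (1 : ZMod N))⁻¹ * (χ k : ℂ))
  unfold LSeriesHasSum
  convert! this using 2 with n
  · rcases eq_or_ne n 0 with rfl | hn
    · simp
    rw [LSeries.term_of_ne_zero hn, hξ, sum_mul, sum_div]
    exact sum_congr rfl fun k _ => by rw [LSeries.term_of_ne_zero hn]; ring
  · simp only [mul_sum, mul_assoc]

theorem PChr.per_zero (h : PChr N χ) {Q : ℤ} (hQ : IsCoprime Q N)
    (hms : ∀ k j b : ℤ, Q * k * j + 1 = N * b → ms j N = -χ (-Q) * ms k N) :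
    ∑ k ∈ range N, (χ k : ℂ) * ms k N = 0 := by
  classical
  have h0 : (0 : ℤ) < N := mod_cast h.ne.bot_lt
  have ex : ∀ k : ℤ, IsCoprime k N → ∃ j ∈ Ico (0 : ℤ) N, (N : ℤ) ∣ Q * k * j + 1 := fun k hk => by
    obtain ⟨u, v, e⟩ := hQ.mul_left hk
    refine ⟨-u % N, mem_Ico.mpr ⟨Int.emod_nonneg _ h0.ne', Int.emod_lt_of_pos _ h0⟩,
      v - Q * k * (-u / N), ?_⟩
    rw [Int.emod_def]; linear_combination -e
  choose! g g1 g2 using ex
  have c : ∀ {k j : ℤ}, (N : ℤ) ∣ Q * k * j + 1 → IsCoprime j N := fun {k j} ⟨b, hb⟩ =>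
    ⟨-Q * k, b, by linear_combination -hb⟩
  have key : ∀ k : ℤ, IsCoprime k N → (χ k : ℂ) * ms k N + χ (g k) * ms (g k) N = 0 := by
    intro k hk
    obtain ⟨b, hb⟩ := g2 k hk
    have h2 : χ (-Q) * (χ k * χ (g k)) = 1 := by
      rw [← h.mul, ← h.mul, ← h.one]
      exact h.per _ _ ⟨-b, by linear_combination -hb⟩
    have h3 : χ k = χ (-Q) * χ (g k) := by
      linear_combination -χ k * h2 + χ (-Q) * χ (g k) * h.sq hk
    rw [hms k _ b hb, h3]
    push_cast
    ring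
  rw [← sum_Ico_zero N fun k => (χ k : ℂ) * ms k N, ← sum_filter_of_ne
    (p := fun k : ℤ => IsCoprime k N) fun k _ hk => by_contra fun h1 => hk (by
      rw [h.zero k h1, Int.cast_zero, zero_mul])]
  refine sum_involution (fun k _ => g k) (fun k hk => key k (mem_filter.mp hk).2)
    (fun k hk h1 h2 => h1 ?_) (fun k hk => mem_filter.mpr ⟨g1 k (mem_filter.mp hk).2,
      c (g2 k (mem_filter.mp hk).2)⟩) fun k hk => ?_
  · have := key k (mem_filter.mp hk).2
    rwa [h2, add_self_eq_zero] at this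
  · obtain ⟨h1, h2⟩ := mem_filter.mp hk
    have h3 := c (g2 k h2)
    have h4 := (hQ.mul_left h3).symm.dvd_of_dvd_mul_left (z := g (g k) - k) (by
      convert dvd_sub (g2 _ h3) (g2 k h2) using 1; ring)
    have h5 := g1 _ h3
    rw [mem_Ico] at h1 h5
    exact sub_eq_zero.mp (Int.eq_zero_of_abs_lt_dvd h4 (abs_lt.mpr ⟨by omega, by omega⟩))

/-- The twisted period. -/
noncomputable def perD (d : ℤ) : ℂ := ∑ k ∈ range (cond d), (kro d k : ℂ) * ms k (cond d)

/-- The twisted series, up to a Gauss sum. -/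
noncomputable def LD (d : ℤ) (s : ℂ) : ℂ :=
  ∑ k ∈ range (cond d), (kro d k : ℂ) * Ladd k (cond d) s

variable {d : ℤ}

theorem LD_one (hd : Squarefree d) : LD d 1 = perD d := by
  simp only [LD, perD, Ladd_one _ (Int.natCast_ne_zero.2 (pchr_kro hd).ne)]

theorem LD_diff (hd : Squarefree d) : Differentiable ℂ (LD d) :=
  Differentiable.fun_sum fun k _ =>
    (Ladd_differentiable k (Int.natCast_ne_zero.2 (pchr_kro hd).ne)).const_mul _

theorem kro_neg (hd : Squarefree d) {p : ℕ} (hp : Odd p) : kro d (-p) = d.sign * J(d | p) := by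
  rw [neg_eq_neg_one_mul, (pchr_kro hd).mul, kro_neg_one hd, kro_odd hd hp]

theorem perD_eq_zero (hd : Squarefree d) (h : rootNo d = -1) : perD d = 0 := by
  have hc := pchr_kro hd
  have h0 : (cond d : ℤ) ≠ 0 := Int.natCast_ne_zero.2 hc.ne
  have c3 := odd_dvd_cond hd (p := 3) (by decide)
  have c5 := odd_dvd_cond hd (p := 5) (by decide)
  have k3 : ¬ 3 ∣ d → IsCoprime (3 : ℤ) (cond d) := fun k => Nat.isCoprime_iff_coprime.2
    (Nat.prime_three.coprime_iff_not_dvd.2 (mt c3.1 k))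
  have k5 : ¬ 5 ∣ d → IsCoprime (5 : ℤ) (cond d) := fun k => Nat.isCoprime_iff_coprime.2
    (Nat.prime_five.coprime_iff_not_dvd.2 (mt c5.1 k))
  rw [rootNo, rt0] at h
  split_ifs at h with h3 h5 h5
  · obtain ⟨c, e⟩ : (15 : ℤ) ∣ cond d := by have := c3.2 h3; have := c5.2 h5; omega
    refine hc.per_zero isCoprime_one_left fun k j b hb => ?_
    have h1 := ms_Gamma0 (a := j) (b := -b) (c := c) (d := -k) (x := k) (y := cond d)
      (by rw [← e]; linear_combination -hb) (.inr h0)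
    rw [← e, show (cond d : ℤ) * k + -k * cond d = 0 by ring, ms_zero] at h1
    rw [kro_neg_one hd, show d.sign = 1 by omega]
    push_cast
    linear_combination -h1
  · obtain ⟨c, e⟩ : (3 : ℤ) ∣ cond d := mod_cast c3.2 h3
    refine hc.per_zero (k5 h5) fun k j b hb => ?_
    have h1 := ms_AL5 (a := j) (b := -b) (c := c) (d := -k) (x := k) (y := cond d)
      (by rw [e] at hb; linear_combination -hb) (.inr h0)
    rw [← e, show 15 * c * k + 5 * -k * cond d = 0 by rw [e]; ring, ms_zero] at h1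
    rw [show kro d (-5) = -1 from (kro_neg hd (p := 5) (by decide)).trans (by rwa [one_mul] at h)]
    push_cast
    linear_combination -h1
  · obtain ⟨c, e⟩ : (5 : ℤ) ∣ cond d := mod_cast c5.2 h5
    refine hc.per_zero (k3 h3) fun k j b hb => ?_
    have h1 := ms_AL3 (a := j) (b := -b) (c := c) (d := -k) (x := k) (y := cond d)
      (by rw [e] at hb; linear_combination -hb) (.inr h0)
    rw [← e, show 15 * c * k + 3 * -k * cond d = 0 by rw [e]; ring, ms_zero] at h1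
    rw [show kro d (-3) = 1 from (kro_neg hd (p := 3) (by decide)).trans (by linarith)]
    push_cast
    linear_combination -h1
  · refine hc.per_zero ((k3 h3).mul_left (k5 h5)) fun k j b hb => ?_
    have h1 := ms_AL15 (a := j) (b := -b) (c := cond d) (d := -k) (x := k) (y := cond d)
      (by linear_combination -hb) (.inr h0)
    rw [show 15 * (cond d : ℤ) * k + 15 * -k * cond d = 0 by ring, ms_zero] at h1
    rw [show kro d (-(3 * 5)) = -1 from (kro_neg hd (p := 3 * 5) (by decide)).trans (by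
      rwa [jacobiSym.mul_right])]
    push_cast
    linear_combination -h1

theorem lf_trace (hd : Squarefree d) {p : ℕ} (hp : p.Prime) (h30 : ¬ p ∣ 30) (hN : ¬ (p : ℤ) ∣ d) :
    (kro d p : ℂ) * a15 p = (p : ℂ) - (Nat.card {q : ZMod p × ZMod p //
      q.2 ^ 2 = q.1 ^ 3 + ((-12987 * d ^ 2 : ℤ) : ZMod p) * q.1 +
        ((-263466 * d ^ 3 : ℤ) : ZMod p)} : ℂ) := by
  have := Fact.mk hp
  have h2 : p ≠ 2 := fun h => h30 (h ▸ by norm_num)
  have h3 : (3 : ZMod p) ≠ 0 := fun h =>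
    h30 (((ZMod.natCast_eq_zero_iff 3 p).mp (by exact_mod_cast h)).trans (by norm_num))
  have hN' : (d : ZMod p) ≠ 0 := fun h => hN ((ZMod.intCast_zmod_eq_zero_iff_dvd d p).mp h)
  have hα : (9 * d : ZMod p) ≠ 0 := by
    rw [show (9 * d : ZMod p) = 3 * 3 * d by ring]
    exact mul_ne_zero (mul_ne_zero h3 h3) hN'
  have key := sub_card_short p h2 ((-12987 * d ^ 2 : ℤ) : ZMod p) ((-263466 * d ^ 3 : ℤ) : ZMod p)
    (9 * d) (-21 * d) ((27 * d) ^ 2 * d) hα (fun x => x * (x + 9) * (x - 16))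
    (fun x => by push_cast; ring)
  have h27 : (27 * d : ZMod p) ≠ 0 := by
    rw [show (27 * d : ZMod p) = 3 * 3 * 3 * d by ring]
    exact mul_ne_zero (mul_ne_zero (mul_ne_zero h3 h3) h3) hN'
  rw [map_mul, quadraticChar_sq_one' h27, one_mul, ← a15_eq_tr p h30] at key
  rw [kro_odd hd (hp.odd_of_ne_two h2), ← jacobiSym.legendreSym.to_jacobiSym, legendreSym]
  exact_mod_cast key.symm

theorem lf_loc (hd : Squarefree d) {p : ℕ} (hp : p.Prime) (h : p ∣ 30 ∨ (p : ℤ) ∣ d) :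
    loc (fun n => (kro d n : ℂ)) a15 (fun p => if p ∣ 15 then 0 else p) p 1 ≠ 0 := by
  refine loc_one_ne_zero _ _ _ hp.ne_zero ?_
  rcases h with h3 | h
  · have h4 : (kro d p : ℂ) = 0 ∨ (kro d p : ℂ) = 1 ∨ (kro d p : ℂ) = -1 := by
      exact_mod_cast (pchr_kro hd).cases p
    refine h4.imp_right fun h => ⟨h, ?_⟩
    rcases (Nat.Prime.dvd_mul hp (m := 2 * 3) (n := 5)).mp h3 with h | h
    · rcases (Nat.Prime.dvd_mul hp).mp h with h | h
      · obtain rfl := (Nat.prime_dvd_prime_iff_eq hp Nat.prime_two).mp h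
        norm_num [a15_two]
      · obtain rfl := (Nat.prime_dvd_prime_iff_eq hp Nat.prime_three).mp h
        norm_num [a15_three]
    · obtain rfl := (Nat.prime_dvd_prime_iff_eq hp Nat.prime_five).mp h
      norm_num [a15_five]
  · refine .inl (Int.cast_eq_zero.2 ((pchr_kro hd).zero _ fun k => hp.not_dvd_one ?_))
    exact_mod_cast isUnit_iff_dvd_one.1 (k.isUnit_of_dvd' dvd_rfl (h.trans (dvd_cond hd)))

/-- The order of vanishing of the twisted series and the rank give the statement. -/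
theorem bsd_of_order (hd : Squarefree d) {r : ℕ} (h1 : analyticOrderAt (LD d) 1 = r)
    (hf : Module.Finite ℤ (twist15 d).toAffine.Point)
    (hr : Module.finrank ℤ (twist15 d).toAffine.Point = r) :
    BSD (-12987 * d ^ 2) (-263466 * d ^ 3) r := by
  have hc := pchr_kro hd
  have hM : 2 * (-4 * (-12987 * d ^ 2) ^ 3 - 27 * (-263466 * d ^ 3) ^ 2) =
      2 * (81 * 225 * 144) ^ 2 * d ^ 6 := by ring
  have bad : ∀ p : ℕ, p.Prime → ((p : ℤ) ∣ 2 * (81 * 225 * 144) ^ 2 * d ^ 6 ↔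
      p ∣ 30 ∨ (p : ℤ) ∣ d) := fun p hp => by
    have hP := Nat.prime_iff_prime_int.mp hp
    refine ⟨fun k => (hP.dvd_or_dvd k).imp (fun h => ?_) hP.dvd_of_dvd_pow, fun k => k.elim
      (fun h => ((Int.natCast_dvd_natCast.2 h).trans (by norm_num)).mul_right _)
      fun h => (h.trans (dvd_pow_self _ (by norm_num))).mul_left _⟩
    exact_mod_cast hP.dvd_of_dvd_pow (h.trans (by norm_num : _ ∣ (30 : ℤ) ^ 16))
  have h0 := hd.ne_zero
  obtain ⟨τ, hτ, hL⟩ := hc.sum_Ladd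
  have dH := LD_diff hd
  set P := fun s => ∏ p ∈ (2 * (-4 * (-12987 * d ^ 2) ^ 3 -
    27 * (-263466 * d ^ 3) ^ 2)).natAbs.primeFactors,
    loc (fun n => (kro d n : ℂ)) a15 (fun p => if p ∣ 15 then 0 else p) p s with hP
  have dP : Differentiable ℂ P := Differentiable.fun_finsetProd fun p hp =>
    loc_differentiable _ _ _ (Nat.mem_primeFactors.mp hp).1.ne_zero
  have P1 : P 1 ≠ 0 := prod_ne_zero_iff.mpr fun p hp =>
    lf_loc hd (Nat.mem_primeFactors.mp hp).1 ((bad p (Nat.mem_primeFactors.mp hp).1).1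
      (hM ▸ Int.natCast_dvd.mpr (Nat.mem_primeFactors.mp hp).2.1))
  have dQ : Differentiable ℂ fun s => P s * τ := dP.mul_const τ
  have key : analyticOrderAt ((fun s => P s * τ) * LD d) 1 = r := by
    rw [analyticOrderAt_mul (dQ.analyticAt 1) (dH.analyticAt 1), h1,
      (dQ.analyticAt 1).analyticOrderAt_eq_zero.2 (mul_ne_zero P1 hτ), zero_add]
  refine ⟨_, dQ.mul dH, fun s hs' => ?_, key.trans (by exact_mod_cast hr.symm), hf, key⟩
  rw [Pi.mul_apply, mul_assoc, LD, hL s hs']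
  refine hasProd_frozen hecke15 (ξ := fun n => (kro d n : ℂ)) (by simp [hc.one])
    (fun m n => by simp [hc.mul]) (summable_twist (fun n => by
      rcases hc.cases n with h | h | h <;> simp [h]) (a15_summable hs'))
    (by rw [hM]; positivity) _ fun p hp hd' => ?_
  rw [hM, bad p hp, not_or] at hd'
  have h15 : ¬ p ∣ 15 := fun h => hd'.1 (h.trans (by norm_num))
  refine ⟨lf_trace hd hp hd'.1 hd'.2, ?_, by simp [h15]⟩
  have h2 : p ≠ 2 := fun h => hd'.1 (h ▸ by norm_num)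
  exact_mod_cast hc.sq (Nat.isCoprime_iff_coprime.2 (hp.coprime_iff_not_dvd.2
    (mt (odd_dvd_cond hd (hp.odd_of_ne_two h2)).1 hd'.2)))

theorem bsd_zero (hd : Squarefree d) (h1 : perD d ≠ 0) (hf : Finite (twist15 d).toAffine.Point) :
    BSD (-12987 * d ^ 2) (-263466 * d ^ 3) 0 :=
  bsd_of_order (r := 0) hd (((LD_diff hd).analyticAt 1).analyticOrderAt_eq_zero.2
    (LD_one hd ▸ h1)) Module.Finite.of_finite finrank_eq_zero_of_finite

theorem bsd_one (hd : Squarefree d) (h0 : rootNo d = -1) (h1 : deriv (LD d) 1 ≠ 0)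
    (hf : Module.Finite ℤ (twist15 d).toAffine.Point)
    (hr : Module.finrank ℤ (twist15 d).toAffine.Point = 1) :
    BSD (-12987 * d ^ 2) (-263466 * d ^ 3) 1 :=
  bsd_of_order (r := 1) hd (((LD_diff hd).analyticAt 1).analyticOrderAt_eq_one_of_zero_deriv_ne_zero
    ((LD_one hd).trans (perD_eq_zero hd h0)) h1) hf hr

end Pool.Agent.Lib.MP_696deb_nt.B3
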