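import Pool.Agent.Lib.MP_696deb_nt.B2.D1b

/-! Heegner points whose conductor shares primes with thirty. -/

set_option autoImplicit false

open scoped Classical
open Finset

namespace Pool.Agent.Lib.MP_696deb_nt.B3

open B2

/-- Fundamental discriminants supported on two, three and five. -/
def Eok (e : ℤ) : Prop := ∃ a b c : ℤ, (a = 1 ∨ a = -4 ∨ a = 8 ∨ a = -8) ∧ (b = 1 ∨ b = -3) ∧
  (c = 1 ∨ c = 5) ∧ e = a * b * c

/-- The discriminants that are used, with two inert or split. -/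
structure Nk (n : ℕ) : Prop where
  good : Good n
  root : ∃ r : ℤ, 60 ∣ r ^ 2 + n
  condB : CondB n

/-- The trace from the two-part of the conductor. -/
noncomputable def op2 (n : ℕ) (e : ℤ) (φ : Gam) (P : EE) : EE :=
  if 8 ∣ e then (if n % 8 = 3 then 4 • P else 2 • P + φ • P + φ⁻¹ • P)
  else if 4 ∣ e then (if n % 8 = 3 then -(2 • P) else φ • P + φ⁻¹ • P) else P

/-- The trace from conductor three. -/
noncomputable def op3 (e : ℤ) (φ : Gam) (P : EE) : EE := if 3 ∣ e then -P - φ • P else P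

/-- The trace from conductor five. -/
noncomputable def op5 (e : ℤ) (φ : Gam) (P : EE) : EE := if 5 ∣ e then P - φ • P else P

/-- The traces of the points of conductor `c |e|` to the composite of the two-primary ring class
field of conductor `c` with the quadratic field of discriminant `e`. -/
structure HT {n : ℕ} (S : HS n) (e : ℤ) where
  Y : ∀ c, ℤˣ → S.C c → EE
  φ : ℕ → Gam
  frob : ∀ p : ℕ, p = 2 ∧ n % 8 = 7 ∨ p = 3 ∨ p = 5 →
    φ p ∈ GK n ∧ ∃ w : Plc, w.p = p ∧ IsFrob w p (φ p)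
  gal : ∀ c, Adm n c → ∀ g ∈ GK n, ∀ ε a, g • Y c ε a = Y c (chi e g * ε) (S.ψ c g * a)
  conj : ∀ c, Adm n c → ∃ (b : S.C c) (η : ℤˣ) (t : EE), 4 • t = 0 ∧
    ∀ ε a, cc • Y c ε a = t + (if 5 ∣ e then 1 else -1 : ℤ) • Y c (η * ε) (b * a⁻¹)
  trace : ∀ c l, l.Prime → Adm n (c * l) → ∀ ε a,
    ∑ a' with S.pr c (c * l) a' = a, Y (c * l) ε a' = a15 l • Y c ε a
  kron : ∀ c (w : Plc) (φ : Gam), Adm n (c * w.p) → IsFrob w w.p φ → ∀ ε a',
    Y (c * w.p) ε a' - ordCompl[2] (w.p + 1) • φ • Y c ε (S.pr c (c * w.p) a') ∈ K1 w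
  sum : ∀ c, Adm n c → ∀ a,
    Y c 1 a + Y c (-1) a = op5 e (φ 5) (op3 e (φ 3) (op2 n e (φ 2) (S.y c a)))

/-- The Heegner point of the character attached to `e e'`. -/
noncomputable def HT.ychi {n : ℕ} {S : HS n} {e : ℤ} (H : HT S e) (e' : ℤ) : EE :=
  ∑ a, (S.gen e' a : ℤ) • (H.Y 1 1 a - H.Y 1 (-1) a)

/-- The character at two of the discriminant `e`. -/
def k2 (e v : ℤ) : ℤ :=
  if 8 ∣ e then (if e / 8 % 4 = 1 then ZMod.χ₈ v else ZMod.χ₈' v)
  else if 4 ∣ e then ZMod.χ₄ v else 1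

/-- The genus character at two on forms with even middle coefficient. -/
def g2 (e : ℤ) (Q : Fm) : ℤ := k2 e (if 2 ∣ Q.1 then Q.2.2 else Q.1)

/-- The genus character of `e e'` on forms of discriminant `-n e ^ 2`; it vanishes on forms that
are not primitive. -/
def gw (e e' : ℤ) (Q : Fm) : ℤ := g2 e Q * gch (e.natAbs.gcd 15 * e'.natAbs) Q

/-- The Heegner point of a character of conductor `|e|` in the complex theory. -/
noncomputable def hW (e e' : ℤ) (T : Finset Fm) : ℂ := ∑ Q ∈ T, (gw e e' Q : ℂ) * Fi (froot Q)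

/-- The Heegner points of the system are those of the complex theory. -/
def HT.Link {n : ℕ} {S : HS n} {e : ℤ} (H : HT S e) (r : ℤ) : Prop :=
  ∀ (T : Finset Fm) (e' : ℤ), FReps (-(n * e ^ 2)) (-(r * e.natAbs)) T → e' ∣ n → e' % 4 = 1 →
    e ≠ 1 → pmap jC (H.ychi e') = -Unif.u15 (hW e e' T)

end Pool.Agent.Lib.MP_696deb_nt.B3
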