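import Pool.Agent.Lib.MP_696deb_nt.B3.CMj
import Pool.Agent.Lib.MP_696deb_nt.B3.HT

/-! The twisted Heegner points are those of the complex theory. -/

set_option autoImplicit false

open scoped Classical NumberTheorySymbols

namespace Pool.Agent.Lib.MP_696deb_nt.B3

/-- The fundamental discriminant of the twist. -/
def dsc (δ m : ℤ) : ℤ := if δ = 1 then m else 4 * δ * m

namespace CM

open B2 B2.CM

variable {n c d p : ℕ} {r δ m e E A B C : ℤ} {κ : ℤ → ℤ} {I : Lt} {Q Q' : Fm}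

theorem natAbs_dsc (δ m : ℤ) : (dsc δ m).natAbs = m2 δ * m.natAbs := by
  unfold dsc m2
  split_ifs <;> simp [Int.natAbs_mul]

theorem k2_dsc (hs : Spt δ m) (v : ℤ) : k2 (dsc δ m) v = k2' δ v := by
  have := hs.m4
  rcases dvd_two hs.d2 with rfl | rfl | rfl | rfl
  · rw [dsc, if_pos rfl, k2, if_neg (by omega), if_neg (by omega)]
    rfl
  · rw [dsc, if_neg (by decide), k2, if_neg (by omega), if_pos (by omega)]
    rfl
  · rw [dsc, if_neg (by decide), k2, if_pos (by omega), if_pos (by omega)]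
    rfl
  · rw [dsc, if_neg (by decide), k2, if_pos (by omega), if_neg (by omega)]
    rfl

theorem gcd_dsc (hs : Spt δ m) : (dsc δ m).natAbs.gcd 15 = m.natAbs := by
  rw [natAbs_dsc, Nat.Coprime.gcd_mul_left_cancel _
    (Nat.Coprime.coprime_dvd_left (m2_dvd hs.d2) (by decide))]
  exact Nat.gcd_eq_left (Int.natAbs_dvd_natAbs.2 hs.d15)

theorem Hd.feq (ok : OkS n c r) (h : Hd n c r I Q) (e : FEq Q Q') : Hd n c r I Q' := by
  obtain ⟨h, t, ht, rfl⟩ := h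
  have h' := h.of_feq ok.neg e
  obtain ⟨a, b, c', d, e, rfl⟩ := e
  have h1 := den_ne (a := a) (b := b) (c := 15 * c') (d := d) (by omega) (h'.im_pos ok.neg)
  refine Hd.sc ⟨h', _, inv_ne_zero h1, ?_⟩ ht
  rw [← mob_froot e (h.disc ▸ ok.neg) h.pos, ← cmc_basis (u := a) (v := b) (s := 15 * c') (t := d)
    e (froot (fmap Q a b (15 * c') d)) 1, sc_sp2, mob]
  congr 1
  · rw [mul_one, div_eq_inv_mul]
  · rw [mul_one, inv_mul_cancel₀ h1]

/-- The value of a genus character on the class of a primitive form. -/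
theorem Kc.th_form (h : Kc n c E κ) (ok : Ok n c) {θ : Pc n c →* ℤˣ}
    (hθ : ∀ g ∈ GK n, θ (rho n c g) = chi E g) (e : B ^ 2 + n * c ^ 2 = 4 * A * C) (hA : 0 < A)
    (hp : ∃ x y z : ℤ, x * A + y * B + z * C = 1) (hp' : p.Prime) (hd : (p : ℤ) ∣ n * c)
    (hE : ∀ v, ¬ (p : ℤ) ∣ v → IsCoprime v E) :
    (θ (cl _ (idl n c A (-B))) : ℤ) = κ (if (p : ℤ) ∣ A then C else A) := by
  obtain ⟨x, y, z, hp⟩ := hp
  have hP := Nat.prime_iff_prime_int.1 hp'
  split_ifs with k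
  · have hC : 0 < C := by
      have h1 : (0 : ℤ) < n := by have := ok.gt; omega
      have h2 : (c : ℤ) ≠ 0 := by exact_mod_cast ok.ne
      have : 0 < 4 * A * C := e ▸ by positivity
      exact (pos_iff_pos_of_mul_pos this).1 (by omega)
    have hB : (p : ℤ) ∣ B := hP.dvd_of_dvd_pow (n := 2) (by
      rw [show B ^ 2 = A * (4 * C) - n * c * c by linear_combination e]
      exact dvd_sub (k.mul_right _) (hd.mul_right _))
    rw [cmb_swap ok.m4 (m := C) (by rw [e]; ring) hC.ne' hA.ne' ⟨z, y, x, by linear_combination hp⟩]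
    exact h.th_idl ok hθ (k := A) (by rw [e]; ring) hC ⟨z, y, x, by linear_combination hp⟩
      (hE _ fun k' => hP.not_dvd_one
        (hp ▸ dvd_add (dvd_add (k.mul_left _) (hB.mul_left _)) (k'.mul_left _)))
  · exact h.th_idl ok hθ (k := C) (by rw [neg_sq, e]) hA ⟨x, -y, z, by linear_combination hp⟩
      (hE _ k)

theorem pst_spec (hp : p.Prime) (h2 : p ≠ 2) : pst p % 4 = 1 ∧ (pst p).natAbs = p := by
  have := hp.eq_two_or_odd
  unfold pst
  split_ifs <;> omega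

theorem gch_th (ok : Ok n c) {o : ℤ} (hs : Squarefree o) (h4 : o % 4 = 1) (ho : o ∣ n * c)
    (e : B ^ 2 + n * c ^ 2 = 4 * A * C) (hA : 0 < A)
    (hp : ∃ x y z : ℤ, x * A + y * B + z * C = 1) :
    (th n c o (cl _ (idl n c A (-B))) : ℤ) = gch o.natAbs (A, B, C) := by
  have k : ∀ p ∈ o.natAbs.primeFactors, p.Prime ∧ p ≠ 2 ∧ (p : ℤ) ∣ n * c := fun p h => by
    have h1 := Int.natCast_dvd.2 (Nat.dvd_of_mem_primeFactors h)
    exact ⟨Nat.prime_of_mem_primeFactors h, by rintro rfl; omega, h1.trans ho⟩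
  have k' : ∀ p ∈ o.natAbs.primeFactors, Kc n c (pst p) fun v => J(v | (pst p).natAbs) :=
    fun p h => kc_odd ok.m4 (pst_spec (k p h).1 (k p h).2.1).1 (Int.natAbs_dvd.1 (by
      rw [(pst_spec (k p h).1 (k p h).2.1).2]; exact (k p h).2.2))
  obtain ⟨g, hg, e1⟩ := rho_surj ok (cl _ (idl n c A (-B)))
  rw [← e1, Gd.th ((kc_odd ok.m4 h4 ho).exists_th ok) hg, chi_eq_prod hs h4, Units.coe_prod, gch]
  refine Finset.prod_congr rfl fun p h => ?_
  obtain ⟨h1, h2, h3⟩ := k p h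
  have h5 : Gd n c (pst p) := (k' p h).exists_th ok
  rw [← h5.th hg, e1, (k' p h).th_form ok (fun _ => h5.th) e hA hp h1 h3 (fun v hv =>
    ((Nat.prime_iff_prime_int.1 h1).coprime_iff_not_dvd.2 hv).symm.of_isCoprime_of_dvd_right
      (Int.natAbs_dvd.1 (by rw [(pst_spec h1 h2).2]))), (pst_spec h1 h2).2]
  split_ifs <;> rfl

theorem g2_th (ok : Ok n c) (hs : Spt δ m) (hc : m2 δ ∣ c) (e : B ^ 2 + n * c ^ 2 = 4 * A * C)
    (hA : 0 < A) (hp : ∃ x y z : ℤ, x * A + y * B + z * C = 1) :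
    (th n c δ (cl _ (idl n c A (-B))) : ℤ) = g2 (dsc δ m) (A, B, C) := by
  rw [g2, k2_dsc hs]
  rcases eq_or_ne δ 1 with rfl | h1
  · rw [th_one ok]
    rfl
  have h2 : 2 ∣ c := by
    rcases m2_cases hs.d2 h1 with k | k <;> rw [k.1] at hc <;> omega
  exact (kc_two hs.d2 h1 hc).th_form ok (fun g hg => by
    rw [(gd_two ok hs.d2 hc).th hg, chi_four (Spt.ne hs).1]) e hA hp Nat.prime_two
    ((Int.natCast_dvd_natCast.2 h2).mul_left _) fun v hv =>
      ((Int.prime_two.coprime_iff_not_dvd.2 hv).symm.pow_right (n := 3)).of_isCoprime_of_dvd_right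
        (mul_dvd_mul_left 4 hs.d2)

/-- The weight vanishes on forms that are not primitive. -/
theorem gw_imprim (hn : Squarefree n) (hs : Spt δ m) (he : e ≠ 0)
    (hd : B ^ 2 + n * (m2 δ * m.natAbs : ℕ) ^ 2 = 4 * A * C)
    (h : ¬ ∃ x y z : ℤ, x * A + y * B + z * C = 1) : gw (dsc δ m) e (A, B, C) = 0 := by
  obtain ⟨g, x, y, z, a, b, c, e0, rfl, rfl, rfl⟩ := cmb_gcd A B C
  obtain ⟨p, hp, hg⟩ := Int.exists_prime_and_dvd (n := g) fun k => h (by
    rcases Int.natAbs_eq_iff.1 k with k | k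
    · exact ⟨x, y, z, e0.trans k⟩
    · exact ⟨-x, -y, -z, by rw [k] at e0 ⊢; push_cast at e0 ⊢; linear_combination -e0⟩)
  obtain ⟨g, rfl⟩ := hg
  have h1 : p ∣ (m2 δ * m.natAbs : ℕ) := by
    by_contra k
    have k1 : p * p ∣ n * (m2 δ * m.natAbs : ℕ) ^ 2 :=
      ⟨g ^ 2 * (4 * a * c - b ^ 2), by linear_combination hd⟩
    exact hp.not_isUnit (Int.squarefree_natCast.2 hn p
      (((hp.coprime_iff_not_dvd.2 k).mul_left (hp.coprime_iff_not_dvd.2 k)).pow_right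
        |>.dvd_of_dvd_mul_right k1))
  have hq := Int.prime_iff_natAbs_prime.1 hp
  have h2 : ∀ t, (p.natAbs : ℤ) ∣ p * g * t := fun t =>
    Int.natAbs_dvd.2 ((dvd_mul_right _ _).mul_right _)
  rw [gw, gcd_dsc hs]
  rcases hq.dvd_mul.1 (Int.natAbs_dvd_natAbs.2 h1) with k | k
  · have k1 : p.natAbs = 2 := (Nat.prime_dvd_prime_iff_eq hq Nat.prime_two).1
      (hq.dvd_of_dvd_pow (k.trans (m2_dvd hs.d2) : _ ∣ 2 ^ 3))
    rw [k1] at h2 k
    obtain ⟨t, ht⟩ := h2 c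
    rw [g2, k2_dsc hs, if_pos (show 2 ∣ p * g * a from h2 a), mul_eq_zero]
    left
    change k2' δ (p * g * c) = 0
    rw [ht]
    rcases dvd_two hs.d2 with rfl | rfl | rfl | rfl
    · exact absurd k (by decide)
    · exact (ZMod.χ₄_int_eq_if_mod_four _).trans (if_pos (by omega))
    · exact (ZMod.χ₈_int_eq_if_mod_eight _).trans (if_pos (by omega))
    · exact (ZMod.χ₈'_int_eq_if_mod_eight _).trans (if_pos (by omega))
  · rw [gch, Finset.prod_eq_zero (i := p.natAbs) (Nat.mem_primeFactors.2 ⟨hq, k.mul_right _,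
      mul_ne_zero (Spt.ne hs).2.2.2 (Int.natAbs_ne_zero.2 he)⟩), mul_zero]
    rw [if_pos (h2 a), jacobiSym.mod_left' (a₂ := 0) (Int.modEq_zero_iff_dvd.2 (h2 c)),
      jacobiSym.zero_left hq.one_lt]

/-- The classes correspond to the primitive forms. -/
theorem exists_inj (ok : OkS n c r) {T : Finset Fm} (hT : HReps (-(n * c ^ 2)) (-(r * c)) T) :
    ∃ β : Pc n c → Fm, Function.Injective β ∧ (∀ z, β z ∈ T ∧
      yP n c r z = pmap jC P4 - pt (froot (β z)) ∧ z = cl _ (idl n c (β z).1 (-(β z).2.1)) ∧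
      ∃ x y t : ℤ, x * (β z).1 + y * (β z).2.1 + t * (β z).2.2 = 1) ∧
      ∀ Q ∈ T, (∃ x y t : ℤ, x * Q.1 + y * Q.2.1 + t * Q.2.2 = 1) → ∃ z, β z = Q := by
  have h1 : ∀ x : Pc n c, ∃ Q ∈ T, ∃ I, IsIv (Oc n c) I ∧ cl _ I = x ∧ Hd n c r I Q := fun x => by
    obtain ⟨I, hI, e⟩ := cl_surj x
    obtain ⟨Q, hQ⟩ := ok.exists_hd hI
    obtain ⟨Q', h2, h3⟩ := hT.ex Q hQ.1
    exact ⟨Q', h2, I, hI, e, hQ.feq ok h3.symm⟩
  choose β hβ I hI hx hQ using h1
  have k : ∀ Q ∈ T, Q.2.1 ^ 2 + n * c ^ 2 = 4 * Q.1 * Q.2.2 ∧ 0 < Q.1 ∧ 0 < (froot Q).im ∧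
      Q.1 * froot Q ^ 2 + Q.2.1 * froot Q + Q.2.2 = 0 := fun Q h => by
    have h := hT.mem Q h
    have h2 := h.disc
    rw [fdisc] at h2
    exact ⟨by linear_combination h2, h.pos, h.im_pos ok.neg, froot_root (h.disc ▸ ok.neg) h.pos⟩
  have hy : ∀ x, yP n c r x = pmap jC P4 - pt (froot (β x)) := fun x => by
    rw [← ok.yP_hd (hI x) (hQ x), hx]
  have hz : ∀ z, z = cl _ (idl n c (β z).1 (-(β z).2.1)) := fun z => by
    obtain ⟨k1, k2, k3, k4⟩ := k _ (hβ z)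
    obtain ⟨-, a, ha, e⟩ := hQ z
    have h2 := (hI z).sc (inv_ne_zero ha)
    rw [← sc_root (by have := ok.gt; omega) ok.ne k1 k2 k3 k4, ← sc_inv_sc ha (sp2 _ 1), ← e,
      cl_sc h2 (by exact_mod_cast k2.ne'), cl_sc (hI z) (inv_ne_zero ha), hx]
  refine ⟨β, fun x y h => by rw [hz x, h, ← hz y], fun z => ⟨hβ z, hy z, hz z, ?_⟩, fun Q h hp => ?_⟩
  · obtain ⟨k1, k2, k3, k4⟩ := k _ (hβ z)
    obtain ⟨-, a, ha, e⟩ := hQ z
    exact prim_root ok.toOk k1 k2 k3 k4 ha (e ▸ hI z)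
  · obtain ⟨k1, k2, k3, k4⟩ := k _ h
    have h3 := ok.yP_hd (isIv_root ok.toOk k1 k2 k3 k4 hp)
      ⟨hT.mem Q h, 1, one_ne_zero, (sc_one _).symm⟩
    exact ⟨_, hT.uniq _ (hβ _) _ h ((Gal.feq_iff_pt ok.neg (hQ _).1 (hT.mem Q h)).2
      (sub_right_injective ((hy _).symm.trans h3)))⟩

theorem exists_ne (hn : Nok n) (hs : Spt δ m) (h : δ * m ≠ 1) (he : e ∣ n) (h4 : e % 4 = 1) :
    ∃ g ∈ GK n, chi e g = 1 ∧ chi δ g * chi m g = -1 := by
  have h8 := hn.m8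
  rcases eq_or_ne δ 1 with rfl | h1
  · obtain ⟨p, t, hp, h15, rfl, ht⟩ : ∃ (p : ℕ) (t : ℤ), p.Prime ∧ p ∣ 15 ∧ m = p * t ∧
        ¬ (p : ℤ) ∣ 2 * t := by
      have h2 := natAbs_eq hs.d15
      have h3 := hs.m4
      by_cases k : ((3 : ℕ) : ℤ) ∣ m
      · refine ⟨3, m / 3, Nat.prime_three, by decide, by omega, ?_⟩
        split_ifs at h2 <;> omega
      · refine ⟨5, 1, Nat.prime_five, by decide, ?_, by decide⟩
        split_ifs at h2 <;> omega
    obtain ⟨w, rfl⟩ := exists_plc hp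
    have h2 : w.p ≠ 2 := by rcases dvd15 hp h15 with k | k <;> omega
    obtain ⟨τ, k1, k2⟩ := exists_gen h2
    have k3 : ∀ a : ℤ, a ∣ n → chi a τ = 1 := fun a ha => chi_ine (fun k =>
      ((Nat.prime_iff_prime_int.1 hp).dvd_mul.1 k).elim (fun k => h2 ((Nat.prime_dvd_prime_iff_eq hp
        Nat.prime_two).1 (by exact_mod_cast k))) fun k => hp.ne_one
          (Nat.eq_one_of_dvd_coprimes hn.good.cop (by exact_mod_cast k.trans ha) h15)) k1
    refine ⟨τ, B4c_mem.2 (k3 _ (neg_dvd.2 dvd_rfl)), k3 e he, ?_⟩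
    rw [k3 1 (one_dvd _), one_mul, chi_mul (by exact_mod_cast hp.ne_zero) (by rintro rfl; simp at ht),
      k2, chi_ine ht k1, mul_one]
  · obtain ⟨w, hw⟩ := exists_plc Nat.prime_two
    obtain ⟨σ, h2, h3⟩ := exists_ine hw hs.d2 h1
    exact ⟨σ, B4c_mem.2 (chi_ine_two hw (by omega) h2), chi_ine_two hw h4 h2,
      by rw [h3, chi_ine_two hw hs.m4 h2, mul_one]⟩

variable [∀ c, Fintype (Pc n c)]

theorem nsmul_uY (ok : OkS n c r) (h8 : n % 8 = 3) (hc : ¬ 2 ∣ c) (hs : Spt δ m) (x : Pc n c) :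
    (if δ = 1 then 1 else 2 : ℕ) • uY r δ m c x =
      wt r (fun a b => a * b) δ m c (c * (m2 δ * m.natAbs)) x := by
  obtain ⟨-, -, n3, n4⟩ := Spt.ne hs
  rcases eq_or_ne δ 1 with rfl | h1
  · rw [if_pos rfl, one_smul, uY, ka, if_pos rfl, zero_smul, add_zero]
    exact fs_congr fun z _ => by
      simp only [th_one (ok.of_ne (mul_ne_zero ok.ne (mul_ne_zero n3 n4))).toOk z]
      rfl
  · have k1 := uY_flip ok h8 hc hs (ε := -1) (fun k => absurd k h1) 1 x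
    have k2 : wt r (fun a b => a * b) δ m c (c * (m2 δ * m.natAbs)) x =
        wt r (fun a b => ind a * b) δ m c (c * (m2 δ * m.natAbs)) x + (-1 : ℤ) •
          wt r (fun a b => ind (-1 * a) * (1 * b : ℤˣ)) δ m c (c * (m2 δ * m.natAbs)) x := by
      rw [← wt_smul, ← wt_add]
      refine congrArg (wt r · δ m c _ x) ?_
      ext a b
      rw [neg_one_mul a, one_mul, ind_neg]
      linear_combination -(b : ℤ) * two_ind a
    simp only [one_mul] at k1 k2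
    rw [if_neg h1, k2, eq_sub_of_add_eq k1, uY, mul_one, Units.val_neg, Units.val_one]
    module

theorem link_wt (hn : Nok n) (hr : 60 ∣ r ^ 2 + n) (hs : Spt δ m) (hd : d = m2 δ * m.natAbs)
    {T : Finset Fm} (hT : FReps (-(n * dsc δ m ^ 2)) (-(r * (dsc δ m).natAbs)) T) (he : e ∣ n)
    (h4 : e % 4 = 1) : ∃ N : ℤ, (δ * m ≠ 1 → N = 0) ∧ pmap jC (∑ x, (th n 1 e x : ℤ) •
      wt r (fun a b => a * b) δ m 1 d x) = N • pmap jC P4 - Unif.u15 (hW (dsc δ m) e T) := by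
  obtain ⟨n1, n2, n3, n4⟩ := Spt.ne hs
  have ok := okS_of hn hr (hd ▸ mul_ne_zero n3 n4 : d ≠ 0)
  rw [← Int.natAbs_sq, natAbs_dsc, ← hd] at hT
  have hR : HReps (-(n * d ^ 2)) (-(r * d)) T :=
    ⟨fun Q h => ⟨(hT.fam Q h).2.1, hT.pos Q h, (hT.fam Q h).1, (hT.fam Q h).2.2⟩,
      fun Q h => hT.ex Q ⟨h.lev, h.disc, h.res⟩ h.pos, hT.uniq⟩
  obtain ⟨β, b1, b2, b3⟩ := exists_inj ok hR
  have k : ∀ Q ∈ T, Q.2.1 ^ 2 + n * d ^ 2 = 4 * Q.1 * Q.2.2 := fun Q h => by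
    have h2 := (hR.mem Q h).disc
    rw [fdisc] at h2
    linear_combination h2
  have g1 : Gd n 1 e := (kc_odd ok.m4 h4 (by simpa using he)).exists_th (cmz_ok hn cmz_one)
  have g2 := gd_odd ok.toOk hs.m4 (hd ▸ dvd_mul_left _ _)
  have m4 : m * e % 4 = 1 := by rw [Int.mul_emod, hs.m4, h4]; rfl
  have md : m * e ∣ n * d := by
    rw [mul_comm, hd, Nat.cast_mul]
    exact mul_dvd_mul he ((Int.dvd_natAbs.2 dvd_rfl).mul_left _)
  have sq : Squarefree (m * e) := squarefree_mul_iff.2 ⟨(((Nat.isCoprime_iff_coprime.2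
    hn.good.cop).of_isCoprime_of_dvd_left he).of_isCoprime_of_dvd_right hs.d15).symm.isRelPrime,
    (Int.squarefree_natCast.2 (by decide +kernel : Squarefree 15)).squarefree_of_dvd hs.d15,
    (Int.squarefree_natCast.2 hn.good.sqf).squarefree_of_dvd he⟩
  have key : ∀ z, (th n 1 e (pj n 1 d z) : ℤ) * (th n d δ z * th n d m z) =
      gw (dsc δ m) e (β z) := fun z => by
    obtain ⟨h1, -, h2, h3⟩ := b2 z
    have h5 := (hR.mem _ h1).pos
    rw [gw, gcd_dsc hs, ← Int.natAbs_mul, ← gch_th ok.toOk sq m4 md (k _ h1) h5 h3,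
      ← g2_th ok.toOk hs (hd ▸ dvd_mul_right _ _) (k _ h1) h5 h3, ← h2,
      ← g1.th_pj ok.toOk (one_dvd d)]
    obtain ⟨g, hg, rfl⟩ := rho_surj ok.toOk z
    rw [g2.th hg, (g1.of_dvd ok.toOk (one_dvd d)).th hg,
      Gd.th ((kc_odd ok.m4 m4 md).exists_th ok.toOk) hg, chi_mul n2 (by omega), Units.val_mul]
    ring
  have e1 : ∑ x, (th n 1 e x : ℤ) • wt r (fun a b => a * b) δ m 1 d x =
      ∑ z, gw (dsc δ m) e (β z) • yQ n d r z := by
    refine Eq.trans (Finset.sum_congr rfl fun a _ => ?_)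
      (Finset.sum_fiberwise Finset.univ (pj n 1 d) _)
    rw [wt, fs, Finset.smul_sum]
    exact Finset.sum_congr rfl fun z hz => by rw [← (Finset.mem_filter.1 hz).2, smul_smul, key]
  refine ⟨∑ z, gw (dsc δ m) e (β z), fun h => ?_, ?_⟩
  · obtain ⟨g, hg, k1, k2⟩ := exists_ne hn hs h he h4
    have k3 := Equiv.sum_comp (Equiv.mulLeft (rho n d g)) fun z => gw (dsc δ m) e (β z)
    have k4 : ∀ z, gw (dsc δ m) e (β (Equiv.mulLeft (rho n d g) z)) = -gw (dsc δ m) e (β z) :=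
      fun z => by
        simp only [← key, Equiv.coe_mulLeft, map_mul, pj_rho ok.toOk (one_dvd d), g1.th hg,
          g2.th hg, (gd_two ok.toOk hs.d2 (hd ▸ dvd_mul_right _ _)).th hg, k1, one_mul]
        rw [← Units.val_mul, mul_mul_mul_comm, k2, neg_one_mul, Units.val_neg, mul_neg,
          Units.val_mul]
    simp only [k4, Finset.sum_neg_distrib] at k3
    omega
  rw [e1, hW, map_sum, map_sum, Finset.sum_smul, ← Finset.sum_of_injOn β (s := Finset.univ)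
    (f := fun z => gw (dsc δ m) e (β z) • pt (froot (β z))) b1.injOn (fun z _ => (b2 z).1)
    (fun Q hQ h => ?_) fun z _ => ?_, ← Finset.sum_sub_distrib]
  · exact Finset.sum_congr rfl fun z _ => by rw [map_zsmul, ok.jC_yQ, (b2 z).2.1, smul_sub]
  · rw [gw_imprim hn.good.sqf hs (by omega) (hd ▸ k Q hQ) fun t => h (by simpa using b3 Q hQ t),
      Int.cast_zero, zero_mul, map_zero]
  · rw [← zsmul_eq_mul, map_zsmul, Unif.pt_eq_u15 ((hR.mem _ (b2 z).1).im_pos ok.neg)]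

variable [∀ c, Fintype (Tw (Pc n c))] (F : CFT) (hk : KronStmt) (hn : Nok n) (hr : 60 ∣ r ^ 2 + n)

theorem esY_link (hs : Spt δ m) {T : Finset Fm}
    (hT : FReps (-(n * dsc δ m ^ 2)) (-(r * (dsc δ m).natAbs)) T) (he : e ∣ n) (h4 : e % 4 = 1) :
    ∃ N : ℤ, (δ * m ≠ 1 → N = 0) ∧
      pmap jC ((if δ = 1 then 1 else 2 : ℕ) • (esY F hk hn hr hs).ychi e) =
        N • pmap jC P4 - Unif.u15 (hW (dsc δ m) e T) := by
  have ok := okS_of hn hr one_ne_zero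
  obtain ⟨N, h1, h2⟩ := link_wt hn hr hs (one_mul _) hT he h4
  have g1 : Gd n 1 e := (kc_odd ok.m4 h4 (by simpa using he)).exists_th ok.toOk
  have h3 : ∀ θ : Tw (Pc n 1) →* ℤˣ, (∀ g ∈ GK n, θ (psi n 1 g) = chi e g) →
      ∑ a, (θ a : ℤ) • tr (uY r δ m 1) a = ∑ x, (th n 1 e x : ℤ) • uY r δ m 1 x := fun θ hθ => by
    refine Eq.trans (Finset.sum_congr rfl fun a _ => ?_) (Finset.sum_fiberwise Finset.univ (tq _) _)
    rw [tr, Finset.smul_sum]
    refine Finset.sum_congr rfl fun x hx => ?_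
    obtain ⟨g, hg, rfl⟩ := rho_surj ok.toOk x
    rw [← (Finset.mem_filter.1 hx).2, g1.th hg, ← hθ g hg, psi]
  have h5 : (esY F hk hn hr hs).ychi e = _ := h3 _ ((hsOf F hk hn hr).gen_ψ e he h4)
  simp only [← nsmul_uY ok hn.m8 (by decide) hs, smul_comm _ (if δ = 1 then 1 else 2 : ℕ),
    ← Finset.smul_sum, ← h5] at h2
  exact ⟨N, h1, h2⟩

end CM

end Pool.Agent.Lib.MP_696deb_nt.B3
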