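import Pool.Agent.Lib.MP_696deb_nt.B3.CMa
import Pool.Agent.Lib.MP_696deb_nt.B2.CH2

/-! Genus characters of ring class groups of arbitrary conductor. -/

set_option autoImplicit false

open scoped Classical NumberTheorySymbols

namespace Pool.Agent.Lib.MP_696deb_nt.B3.CM

open B2 B2.CM

variable {n c p : ℕ} {E E' A A' b b' k k' : ℤ} {κ κ' : ℤ → ℤ} {g : Gam}

/-- Equivalent ideals have norms that differ by a norm. -/
theorem norm_rel (ok : Ok n c) (e : b ^ 2 + n * c ^ 2 = 4 * A * k) (hA : 0 < A)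
    (hp : ∃ x y z : ℤ, x * A + y * b + z * k = 1) (e' : b' ^ 2 + n * c ^ 2 = 4 * A' * k')
    (hA' : 0 < A') (hp' : ∃ x y z : ℤ, x * A' + y * b' + z * k' = 1)
    (h : cl (Oc n c) (idl n c A b) = cl _ (idl n c A' b')) :
    ∃ x y : ℤ, (c : ℤ) ∣ y ∧ nrm n x y = A * A' := by
  obtain ⟨a, ha, h1⟩ := (cl_eq_iff (isIv_idl ok.m4 e hA.ne' hp) (isIv_idl ok.m4 e' hA'.ne' hp')).1 h
  have h2 : (starRingAut : ℂ ≃+* ℂ) (dl n) = -dl n := conj_dl n
  have h3 := congrArg (CM.mp starRingAut) h1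
  rw [mp_sc, idl, idl, mp_sp2, mp_sp2, map_intCast, map_intCast, cmb_be_neg h2, cmb_be_neg h2,
    cmb_sp2_neg, cmb_sp2_neg] at h3
  have h4 := idl_mul_neg ok.m4 e' hp'
  have A0 : (A' : ℂ) ≠ 0 := by exact_mod_cast hA'.ne'
  rw [h1, idl, idl, h3, sc_mul, mul_sc, ← idl, ← idl, idl_mul_neg ok.m4 e hp, sc_sc, sc_sc] at h4
  have h5 := unit_Oc ok (a := (A' : ℂ)⁻¹ * (a * starRingAut a * A)) (by rw [← sc_sc, h4, sc_inv_sc A0])
  have h6 : a * starRingEnd ℂ a * A = A' := by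
    rcases h5 with h5 | h5
    · exact (inv_mul_eq_one₀ A0).1 h5 |>.symm
    · have h7 : a * starRingEnd ℂ a * A = -A' := by
        rw [inv_mul_eq_iff_eq_mul₀ A0] at h5
        simpa using h5
      rw [Complex.mul_conj] at h7
      have h8 : Complex.normSq a * (A : ℝ) = -A' := by exact_mod_cast h7
      have h9 : (0 : ℝ) < A := by exact_mod_cast hA
      have h10 : (0 : ℝ) < A' := by exact_mod_cast hA'
      nlinarith [Complex.normSq_nonneg a]
  obtain ⟨x, y, hy, h7⟩ := (mem_Oc ok.m4).1 (idl_le ok.m4 e'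
    (h1 ▸ (mul_mem_sc ha).2 (left_mem_sp2 _ _) : a * A ∈ idl n c A' b'))
  refine ⟨x, y, hy, Int.cast_injective (α := ℂ) ?_⟩
  have h8 : starRingEnd ℂ (a * A) = el n (x + y) (-y) := by
    rw [h7]
    simp only [el, be, map_add, map_mul, map_div₀, map_intCast, map_natCast, map_ofNat, conj_dl]
    push_cast
    ring
  rw [← el_mul_el ok.m4, ← h7, ← h8, map_mul, map_intCast]
  push_cast
  linear_combination A * h6

/-- `κ` is the character of the discriminant `E`, and it is trivial on norms from the order. -/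
structure Kc (n c : ℕ) (E : ℤ) (κ : ℤ → ℤ) : Prop where
  ne : E ≠ 0
  one : κ 1 = 1
  mul : ∀ u v, κ (u * v) = κ u * κ v
  frob : ∀ (w : Plc) (φ : Gam), ¬ (w.p : ℤ) ∣ 2 * E → IsFrob w w.p φ → (chi E φ : ℤ) = κ w.p
  nrm : ∀ x y : ℤ, (c : ℤ) ∣ y → IsCoprime (nrm n x y) E → κ (nrm n x y) = 1

theorem kc_one (n c : ℕ) : Kc n c 1 fun _ => 1 :=
  ⟨one_ne_zero, rfl, fun _ _ => rfl, fun _ φ _ _ => by
    rw [show chi 1 φ = 1 by simpa using chi_sq 1 φ, Units.val_one], fun _ _ _ _ => rfl⟩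

theorem Kc.prod (h : Kc n c E κ) (h' : Kc n c E' κ') : Kc n c (E * E') fun v => κ v * κ' v :=
  ⟨mul_ne_zero h.ne h'.ne, by rw [h.one, h'.one, mul_one], fun u v => by
    rw [h.mul, h'.mul]; ring, fun w φ hw hφ => by
    rw [chi_mul h.ne h'.ne, Units.val_mul, h.frob w φ (fun k => hw (by
      rw [← mul_assoc]; exact k.mul_right _)) hφ, h'.frob w φ (fun k => hw (by
      rw [mul_left_comm]; exact k.mul_left _)) hφ], fun x y hy k => by
    rw [h.nrm x y hy k.of_mul_right_left, h'.nrm x y hy k.of_mul_right_right, mul_one]⟩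

theorem Kc.of_dvd {d : ℕ} (h : Kc n c E κ) (hd : c ∣ d) : Kc n d E κ :=
  ⟨h.ne, h.one, h.mul, h.frob, fun x y hy => h.nrm x y ((Int.natCast_dvd_natCast.2 hd).trans hy)⟩

theorem cme_odd {w : Plc} (hw : ¬ (w.p : ℤ) ∣ 2 * E) : Odd w.p :=
  w.prime.odd_of_ne_two fun e => hw (by rw [e]; exact dvd_mul_right _ _)

theorem kc_odd (hn : n % 4 = 3) {o : ℤ} (h4 : o % 4 = 1) (h : o ∣ n * c) :
    Kc n c o fun v => J(v | o.natAbs) := by
  have h1 : Odd o.natAbs := Nat.odd_iff.2 (by omega)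
  refine ⟨by omega, jacobiSym.one_left _, fun _ _ => jacobiSym.mul_left _ _ _,
    fun w φ hw hφ => ?_, ?_⟩
  · rw [chi_frob hw hφ]
    have ho := cme_odd hw
    rcases le_or_gt 0 o with h0 | h0
    · rw [← jacobiSym.quadratic_reciprocity_one_mod_four (by omega) ho, Int.natAbs_of_nonneg h0]
    · rw [← Tern.jacobi_neg_swap (by omega) ho, Int.ofNat_natAbs_of_nonpos h0.le, neg_neg]
  · rintro x _ ⟨y, rfl⟩ k
    have h2 := jacobiSym.mod_left' (b := o.natAbs) (a₁ := 4 * nrm n x (c * y))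
      (a₂ := (2 * x + c * y) ^ 2) (Int.modEq_iff_dvd.2 (Int.natAbs_dvd.2 (by
        rw [four_nrm hn]
        exact (h.mul_right (-(c * y ^ 2))).trans ⟨1, by ring⟩)))
    rw [jacobiSym.mul_left, jacobiSym.at_four h1, one_mul, jacobiSym.pow_left] at h2
    rcases jacobiSym.eq_one_or_neg_one (b := o.natAbs) (a := nrm n x (c * y))
      (Int.isCoprime_iff_gcd_eq_one.1 (k.of_isCoprime_of_dvd_right (Int.natAbs_dvd.2 dvd_rfl)))
      with h3 | h3
    · exact h3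
    · nlinarith [sq_nonneg J(2 * x + c * y | o.natAbs)]

theorem cme_nrm {m x y : ℤ} (hy : m ∣ y) : ∃ t, nrm n x y = x ^ 2 + m * t := by
  obtain ⟨y, rfl⟩ := hy
  exact ⟨x * y + m * y ^ 2 * ((n + 1) / 4), by rw [nrm]; ring⟩

theorem cme_sq {x t m : ℤ} (h : IsCoprime (x ^ 2 + 2 * m * t) (2 * E)) :
    ∃ u, x ^ 2 = 1 + 8 * u := by
  rcases Int.even_or_odd' x with ⟨v, rfl | rfl⟩
  · exact absurd (h.isUnit_of_dvd' (x := 2) ⟨2 * v ^ 2 + m * t, by ring⟩ (dvd_mul_right _ _))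
      (by decide)
  · obtain ⟨u, hu⟩ := Int.even_mul_succ_self v
    exact ⟨u, by linear_combination 4 * hu⟩

theorem kc_four (h : 4 ∣ c) : Kc n c (-4) fun v => ZMod.χ₄ v := by
  refine ⟨by decide, by simp, fun _ _ => by rw [Int.cast_mul, map_mul], fun w φ hw hφ => ?_,
    fun x y hy k => ?_⟩
  · have ho := cme_odd hw
    rw [chi_frob hw hφ, jacobiSym.neg _ ho, jacobiSym.at_four ho, mul_one, Int.cast_natCast]
  · obtain ⟨t, ht⟩ := cme_nrm (n := n) (x := x) (m := 2 * 2)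
      ((Int.natCast_dvd_natCast.2 h).trans hy)
    rw [ht] at k ⊢
    obtain ⟨u, hu⟩ := cme_sq (E := -2) k
    exact ZMod.χ₄_int_one_mod_four (by omega)

theorem cme_eight (h : 8 ∣ c) {x y : ℤ} (hy : (c : ℤ) ∣ y) (k : IsCoprime (nrm n x y) (2 * E)) :
    ((nrm n x y : ℤ) : ZMod 8) = 1 := by
  obtain ⟨t, ht⟩ := cme_nrm (n := n) (x := x) (m := 2 * 4) ((Int.natCast_dvd_natCast.2 h).trans hy)
  rw [ht] at k ⊢
  obtain ⟨u, hu⟩ := cme_sq k
  exact (ZMod.intCast_eq_intCast_iff_dvd_sub _ 1 8).2 ⟨-(u + t), by rw [hu]; push_cast; ring⟩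

theorem kc_eight (h : 8 ∣ c) : Kc n c 8 fun v => ZMod.χ₈ v := by
  refine ⟨by decide, by simp, fun _ _ => by rw [Int.cast_mul, map_mul], fun w φ hw hφ => ?_,
    fun x y hy k => by rw [cme_eight (E := 4) h hy k, map_one]⟩
  have ho := cme_odd hw
  rw [chi_frob hw hφ, show (8 : ℤ) = 4 * 2 from rfl, jacobiSym.mul_left, jacobiSym.at_four ho,
    one_mul, jacobiSym.at_two ho, Int.cast_natCast]

theorem kc_eight' (h : 8 ∣ c) : Kc n c (-8) fun v => ZMod.χ₈' v := by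
  refine ⟨by decide, by simp, fun _ _ => by rw [Int.cast_mul, map_mul], fun w φ hw hφ => ?_,
    fun x y hy k => by rw [cme_eight (E := -4) h hy k, map_one]⟩
  have ho := cme_odd hw
  rw [chi_frob hw hφ, show (-8 : ℤ) = 4 * -2 from rfl, jacobiSym.mul_left, jacobiSym.at_four ho,
    one_mul, jacobiSym.at_neg_two ho, Int.cast_natCast]

/-- Split primes and their Frobenius elements. -/
theorem exists_frob_idl (ok : Ok n c) (hp : p.Prime) (h2 : p ≠ 2)
    (e : b ^ 2 + n * c ^ 2 = 4 * p * k) (hb : ¬ (p : ℤ) ∣ b) {w : Plc} (hw : w.p = p) {φ : Gam}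
    (hφ : IsFrob w w.p φ) : φ ∈ GK n ∧
      (rho n c φ = cl _ (idl n c p b) ∨ rho n c φ = (cl _ (idl n c p b))⁻¹) := by
  subst hw
  refine ⟨dec_le_split h2 (jac_of_root hp e hb) hφ.1, ?_⟩
  rcases V_beQ_or ok.m4 e with h4 | h4
  · exact .inr (rho_frob_split ok e hb h4 hφ)
  · rw [rho_frob_split ok (k := k) (by rw [neg_sq, e]) (by rwa [dvd_neg]) h4 hφ,
      cl_idl_neg ok.m4 e (by exact_mod_cast hp.ne_zero) (cmf_prim hp hb k), inv_inv]
    exact .inl rfl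

/-- The kernel of the action on the class group. -/
noncomputable def kerR (ok : Ok n c) : Subgroup Gam where
  carrier := {g | g ∈ GK n ∧ rho n c g = 1}
  one_mem' := ⟨one_mem _, rho_one ok⟩
  mul_mem' h h' := ⟨mul_mem h.1 h'.1, by rw [rho_mul ok h.1, h.2, h'.2, one_mul]⟩
  inv_mem' h := ⟨inv_mem h.1, by rw [rho_inv ok h.1, h.2, inv_one]⟩

theorem op_kerR (ok : Ok n c) : Op (kerR ok) := by
  obtain ⟨U, u1, -, u3⟩ := sm_rho ⊤ n c
  exact Subgroup.isOpen_mono (H₁ := GK n ⊓ U) (fun g hg => ⟨hg.1, by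
    rw [← u3 1 trivial g trivial (by simpa using hg.2), rho_one ok]⟩) ((op_GK n).inf u1)

theorem Kc.chi_of_rho (h : Kc n c E κ) (ok : Ok n c) (hg : g ∈ GK n) (h1 : rho n c g = 1) :
    chi E g = 1 := by
  by_contra k
  have n0 : (2 * E * (n * c)).natAbs ≠ 0 := Int.natAbs_ne_zero.2 (mul_ne_zero
    (mul_ne_zero two_ne_zero h.ne) (by have := ok.gt; have := ok.ne; positivity))
  obtain ⟨w, φ, h2, hφ, h3, h4⟩ := exists_frob_neg (op_kerR ok) (r := rt E)
    (fun g _ => by rw [rt_sq, map_intCast]) (fun e => k (chi_eq_one.2 (e g ⟨hg, h1⟩)))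
    (2 * E * (n * c)).natAbs.primeFactors
  have h5 : ¬ (w.p : ℤ) ∣ 2 * E * (n * c) := fun e =>
    h2 (Nat.mem_primeFactors.2 ⟨w.prime, Int.natCast_dvd.1 e, n0⟩)
  have h6 : ¬ (w.p : ℤ) ∣ 2 * E := fun e => h5 (e.mul_right _)
  have h7 : w.p ≠ 2 := fun e => h6 (by rw [e]; exact dvd_mul_right _ _)
  have h8 := chi_frob (a := -n) (fun e => h5 (e.trans ⟨-(E * c), by ring⟩)) hφ
  rw [B4c_mem.1 h3.1] at h8
  obtain ⟨b, k, e, hb⟩ := exists_root_split ok.m4 w.prime h7 h8.symm (c := c) fun e =>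
    h5 ((Int.natCast_dvd_natCast.2 e).trans ⟨2 * E * n, by ring⟩)
  have h9 : cl (Oc n c) (idl n c w.p b) = 1 := by
    rcases (exists_frob_idl ok w.prime h7 e hb rfl hφ).2 with e1 | e1
    · rw [← e1, h3.2]
    · rw [← inv_eq_one, ← e1, h3.2]
  obtain ⟨q, hq⟩ : ∃ q : ℤ, (n : ℤ) + 1 = 4 * q := ⟨(n + 1) / 4, by have := ok.m4; omega⟩
  obtain ⟨x, y, hy, h10⟩ := norm_rel ok e (by exact_mod_cast w.prime.pos) (cmf_prim w.prime hb k)
    (A' := 1) (b' := c) (k' := c ^ 2 * q) (by linear_combination c ^ 2 * hq) one_pos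
    ⟨1, 0, 0, by ring⟩ (by rw [h9, idl, Int.cast_one, ← cmd_ot ok.m4, cl_one])
  rw [mul_one] at h10
  have h11 := h.nrm x y hy (by
    rw [h10]
    exact (Nat.prime_iff_prime_int.1 w.prime).coprime_iff_not_dvd.2 fun e => h6 (e.mul_left _))
  rw [h10, ← h.frob w φ h6 hφ, Units.val_eq_one] at h11
  exact h4 (chi_eq_one.1 h11)

theorem Kc.exists_th (h : Kc n c E κ) (ok : Ok n c) :
    ∃ θ : Pc n c →* ℤˣ, ∀ g ∈ GK n, θ (rho n c g) = chi E g :=
  exists_lift (GK n) (rho n c) (chi E) (fun _ hg k _ => rho_mul ok hg k) (rho_surj ok)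
    fun _ => h.chi_of_rho ok

/-- The value of a genus character on the class of an ideal. -/
theorem Kc.th_idl (h : Kc n c E κ) (ok : Ok n c) {θ : Pc n c →* ℤˣ}
    (hθ : ∀ g ∈ GK n, θ (rho n c g) = chi E g) (e : b ^ 2 + n * c ^ 2 = 4 * A * k) (hA : 0 < A)
    (hp : ∃ x y z : ℤ, x * A + y * b + z * k = 1) (hE : IsCoprime A E) :
    (θ (cl _ (idl n c A b)) : ℤ) = κ A := by
  obtain ⟨m, b', k', m0, e', c1, c2, h1⟩ := exists_idl_coprime ok (cl _ (idl n c A b))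
    (M := 2 * E) (mul_ne_zero two_ne_zero h.ne)
  have h2 : (θ (cl _ (idl n c m b')) : ℤ) = κ m := by
    let κ' : ℤ →* ℤ := ⟨⟨κ, h.one⟩, h.mul⟩
    rw [cl_idl_prod ok.m4 m0 e' c2, map_prod, Units.coe_prod]
    conv_rhs => rw [← Nat.prod_factorization_pow_eq_self m0, Finsupp.prod, Nat.cast_prod]
    refine Eq.trans (Finset.prod_congr rfl fun p hp => ?_) (map_prod κ' _ _).symm
    have h3 := Nat.prime_of_mem_primeFactors hp
    have h4 := Int.natCast_dvd_natCast.2 (Nat.dvd_of_mem_primeFactors hp)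
    have nd : ∀ {x : ℤ}, IsCoprime (m : ℤ) x → ¬ (p : ℤ) ∣ x := fun k1 k2 =>
      (Nat.prime_iff_prime_int.1 h3).not_isUnit (k1.isUnit_of_dvd' h4 k2)
    obtain ⟨w, rfl⟩ := exists_plc h3
    obtain ⟨φ, hφ⟩ := B2.exists_frob w
    obtain ⟨j, hj⟩ := h4
    obtain ⟨h5, h6⟩ := exists_frob_idl ok h3 (fun e => nd c1 (by rw [e]; exact dvd_mul_right _ _))
      (b := b') (k := j * k') (by rw [e', hj]; ring) (nd c2) rfl hφ
    have h7 : θ (cl _ (idl n c w.p b')) = chi E φ := by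
      rw [← hθ φ h5]
      rcases h6 with h6 | h6 <;> simp [h6]
    rw [map_pow, h7, Units.val_pow_eq_pow_val, h.frob w φ (nd c1) hφ, Nat.cast_pow, map_pow]
    rfl
  obtain ⟨u, v, c3⟩ := id c2
  obtain ⟨x, y, hy, h3⟩ := norm_rel ok e hA hp e' (by exact_mod_cast Nat.pos_of_ne_zero m0)
    ⟨u, v, 0, by linear_combination c3⟩ h1
  have h4 := h.nrm x y hy (h3 ▸ hE.mul_left c1.of_mul_right_right)
  rw [h3, h.mul, ← h2, ← h1] at h4
  rcases Int.units_eq_one_or (θ (cl _ (idl n c A b))) with h5 | h5 <;> rw [h5] at h4 ⊢ <;>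
    simp only [Units.val_one, Units.val_neg] at h4 ⊢ <;> omega

end Pool.Agent.Lib.MP_696deb_nt.B3.CM
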