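import Pool.Agent.Lib.MP_696deb_nt.B3.CMd
import Pool.Agent.Lib.MP_696deb_nt.B3.CMe
import Pool.Agent.Lib.MP_696deb_nt.B2.CMz

/-! Weighted traces of Heegner points of composite conductor. -/

set_option autoImplicit false

open scoped Classical NumberTheorySymbols

namespace Pool.Agent.Lib.MP_696deb_nt.B3.CM

open B2 B2.CM

variable {n c c' d d' e l : ℕ} {r E E' : ℤ} {I : Lt} {g : Gam}

theorem sc_neg_one (I : Lt) : sc (-1) I = I := Submodule.ext fun z => by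
  rw [← neg_mem_iff, ← neg_one_mul z, mul_mem_sc (by norm_num)]

theorem eq_ot (ok : Ok n e) (hd : d ∣ e) (hd' : d' ∣ e)
    (h : ∀ y : ℤ, (d : ℤ) ∣ y → (d' : ℤ) ∣ y → (e : ℤ) ∣ y) (hI : IsIv (Oc n e) I)
    (h1 : I * ot (Oc n d) = ot (Oc n d)) (h2 : I * ot (Oc n d') = ot (Oc n d')) :
    I = ot (Oc n e) := by
  have key : ∀ J : Lt, J * ot (Oc n d) = ot (Oc n d) → J * ot (Oc n d') = ot (Oc n d') →
      J ≤ ot (Oc n e) := fun J k1 k2 z hz => by
    obtain ⟨x, y, hy, e1⟩ := (mem_Oc ok.m4).1 (k1.le (cmd_le_mul J _ hz))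
    obtain ⟨x', y', hy', e2⟩ := (mem_Oc ok.m4).1 (k2.le (cmd_le_mul J _ hz))
    obtain ⟨-, rfl⟩ := el_inj (by have := ok.gt; omega) (e1.symm.trans e2)
    exact (mem_Oc ok.m4).2 ⟨x, y, h y hy hy', e1⟩
  obtain ⟨J, -, e1⟩ := hI.exists_inv
  have k : ∀ {b : ℕ}, b ∣ e → I * ot (Oc n b) = ot (Oc n b) → J * ot (Oc n b) = ot (Oc n b) :=
    fun hb k => by
      conv_lhs => rw [← k, ← mul_assoc, mul_comm J, e1, ot_mul_ot (Oc_le n hb)]
  refine le_antisymm (key I h1 h2) ?_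
  exact (e1.ge.trans (mul_le_mul_right (key J (k hd h1) (k hd' h2)) I)).trans hI.1.le

/-- A class that is trivial for two larger orders with the right intersection is trivial. -/
theorem pj_inj2 (ok : Ok n e) (hd : d ∣ e) (hd' : d' ∣ e)
    (h : ∀ y : ℤ, (d : ℤ) ∣ y → (d' : ℤ) ∣ y → (e : ℤ) ∣ y) {x : Pc n e}
    (h1 : pj n d e x = 1) (h2 : pj n d' e x = 1) : x = 1 := by
  obtain ⟨I, hI, rfl⟩ := cl_surj x
  rw [pj_cl hd hI, ← cl_one, cl_eq_iff (hI.ext (Oc_le n hd)) (isIv_one _)] at h1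
  rw [pj_cl hd' hI, ← cl_one, cl_eq_iff (hI.ext (Oc_le n hd')) (isIv_one _)] at h2
  obtain ⟨a, ha, h1⟩ := h1
  obtain ⟨b, hb, h2⟩ := h2
  have k : ∀ {b : ℕ} {u : ℂ}, ot (Oc n b) = sc u (I * ot (Oc n b)) →
      ot (Oc n 1) = sc u (I * ot (Oc n 1)) := fun {b u} k => by
    conv_lhs => rw [← ot_mul_ot (Oc_le n (one_dvd b)), k, sc_mul, mul_assoc,
      ot_mul_ot (Oc_le n (one_dvd b))]
  have h3 := unit_Oc (c := 1) ⟨ok.m4, ok.gt, one_ne_zero⟩ (a := a * b⁻¹) (by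
    conv_lhs => rw [k h2, ← sc_sc, sc_inv_sc hb, ← k h1])
  have h4 : ot (Oc n d') = sc a (I * ot (Oc n d')) := by
    rw [← inv_mul_cancel_right₀ hb a, ← sc_sc, ← h2]
    rcases h3 with h3 | h3 <;> rw [h3]
    exacts [(sc_one _).symm, (sc_neg_one _).symm]
  rw [← cl_sc hI ha, eq_ot ok hd hd' h (hI.sc ha) (by rw [sc_mul, ← h1]) (by rw [sc_mul, ← h4]),
    cl_one]

variable [∀ c, Fintype (Pc n c)]

/-- The fibres of the projections for an inert prime form a cartesian square. -/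
theorem fs_cart {M : Type} [AddCommMonoid M] (ok : Ok n d) (hl : l.Prime) (h2 : l ≠ 2)
    (hJ : J(-n | l) = -1) (hld : ¬ l ∣ d) (hc : c ∣ d) (hc' : c' = c * l) (he : e = d * l)
    (F : Pc n d → M) (x : Pc n c') :
    fs c' e (fun z => F (pj n d e z)) x = fs c d F (pj n c c' x) := by
  subst hc' he
  have okc : Ok n c := ⟨ok.m4, ok.gt, ne_zero_of_dvd_ne_zero ok.ne hc⟩
  have k1 : d ∣ d * l := dvd_mul_right d l
  have k2 : c * l ∣ d * l := mul_dvd_mul_right hc l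
  have k3 : c ∣ c * l := dvd_mul_right c l
  have inj : ∀ z, pj n d (d * l) z = 1 → pj n (c * l) (d * l) z = 1 → z = 1 := fun z =>
    pj_inj2 (cmd_ok ok hl) k1 k2 fun y h1 h3 => by
      push_cast at h3 ⊢
      exact ((Nat.prime_iff_prime_int.1 hl).coprime_iff_not_dvd.2
        (by exact_mod_cast hld)).symm.mul_dvd h1 ((dvd_mul_left _ _).trans h3)
  let φ : (pj n d (d * l)).ker → (pj n c (c * l)).ker := fun z => ⟨pj n (c * l) (d * l) z, by
    rw [MonoidHom.mem_ker, pj_pj k3 k2, ← pj_pj hc k1, z.2, map_one]⟩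
  have hφ : Function.Bijective φ := Function.Injective.bijective_of_nat_card_le
    (fun z z' h => Subtype.ext (eq_of_div_eq_one (inj _ (by rw [map_div, z.2, z'.2, div_one])
      (by rw [map_div, div_eq_one]; exact congrArg Subtype.val h))))
    (by rw [card_ker_pj ok hl h2 hJ hld, card_ker_pj okc hl h2 hJ fun h => hld (h.trans hc)])
  refine Finset.sum_bij (fun z _ => pj n d (d * l) z) (fun z hz => ?_) (fun z hz z' hz' h => ?_)
    (fun z hz => ?_) fun _ _ => rfl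
  · rw [Finset.mem_filter] at hz ⊢
    exact ⟨Finset.mem_univ _, by rw [← hz.2, pj_pj k3 k2, pj_pj hc k1]⟩
  · exact eq_of_div_eq_one (inj _ (by rw [map_div, div_eq_one]; exact h)
      (by rw [map_div, (Finset.mem_filter.1 hz).2, (Finset.mem_filter.1 hz').2, div_self']))
  · obtain ⟨y, rfl⟩ := pj_surj ok hl h2 hJ hld z
    obtain ⟨u, hu⟩ := hφ.2 ⟨x / pj n (c * l) (d * l) y, by
      rw [MonoidHom.mem_ker, map_div, pj_pj k3 k2, ← pj_pj hc k1, (Finset.mem_filter.1 hz).2,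
        div_self']⟩
    refine ⟨u * y, Finset.mem_filter.2 ⟨Finset.mem_univ _, ?_⟩, by rw [map_mul, u.2, one_mul]⟩
    rw [map_mul, show pj n (c * l) (d * l) u = _ from congrArg Subtype.val hu, div_mul_cancel]

theorem fs_mul {M : Type} [AddCommMonoid M] (F : Pc n d → M) (k : Pc n d) (x : Pc n c) :
    fs c d (fun z => F (k * z)) x = fs c d F (pj n c d k * x) := by
  refine Finset.sum_bij (fun z _ => k * z) (fun z hz => ?_) (fun z _ z' _ h => mul_left_cancel h)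
    (fun z hz => ⟨k⁻¹ * z, ?_, by simp⟩) fun _ _ => rfl
  · rw [Finset.mem_filter] at hz ⊢
    exact ⟨Finset.mem_univ _, by rw [map_mul, hz.2]⟩
  · rw [Finset.mem_filter] at hz ⊢
    exact ⟨Finset.mem_univ _, by rw [map_mul, hz.2, map_inv, inv_mul_cancel_left]⟩

theorem fs_inv {M : Type} [AddCommMonoid M] (F : Pc n d → M) (x : Pc n c) :
    fs c d (fun z => F z⁻¹) x = fs c d F x⁻¹ := by
  refine Finset.sum_bij (fun z _ => z⁻¹) (fun z hz => ?_) (fun z _ z' _ h => inv_injective h)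
    (fun z hz => ⟨z⁻¹, ?_, by simp⟩) fun _ _ => rfl
  · rw [Finset.mem_filter] at hz ⊢
    exact ⟨Finset.mem_univ _, by rw [map_inv, hz.2]⟩
  · rw [Finset.mem_filter] at hz ⊢
    exact ⟨Finset.mem_univ _, by rw [map_inv, hz.2, inv_inv]⟩

theorem smul_fs (g : Gam) (F : Pc n d → EE) (x : Pc n c) :
    g • fs c d F x = fs c d (fun z => g • F z) x := Finset.smul_sum

/-- The character of `E` factors through the ring class group of conductor `d`. -/
def Gd (n d : ℕ) (E : ℤ) : Prop := ∃ θ : Pc n d →* ℤˣ, ∀ g ∈ GK n, θ (rho n d g) = chi E g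

/-- The genus character of a discriminant. -/
noncomputable def th (n d : ℕ) (E : ℤ) : Pc n d →* ℤˣ := if h : Gd n d E then h.choose else 1

omit [∀ c, Fintype (Pc n c)] in
theorem Gd.th (h : Gd n d E) (hg : g ∈ GK n) : th n d E (rho n d g) = chi E g := by
  rw [CM.th, dif_pos h]
  exact h.choose_spec g hg

omit [∀ c, Fintype (Pc n c)] in
theorem Gd.of_dvd (h : Gd n d E) (ok : Ok n e) (hd : d ∣ e) : Gd n e E :=
  ⟨(CM.th n d E).comp (pj n d e), fun g hg => by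
    rw [MonoidHom.comp_apply, pj_rho ok hd, h.th hg]⟩

omit [∀ c, Fintype (Pc n c)] in
theorem Gd.th_pj (h : Gd n d E) (ok : Ok n e) (hd : d ∣ e) (z : Pc n e) :
    CM.th n e E z = CM.th n d E (pj n d e z) := by
  obtain ⟨g, hg, rfl⟩ := rho_surj ok z
  rw [(h.of_dvd ok hd).th hg, pj_rho ok hd, h.th hg]

omit [∀ c, Fintype (Pc n c)] in
theorem gd_one (n d : ℕ) : Gd n d 1 := ⟨1, fun g _ => by simpa using (chi_sq 1 g).symm⟩

/-- Weighted traces of Heegner points. -/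
noncomputable def wt (r : ℤ) (W : ℤˣ → ℤˣ → ℤ) (E E' : ℤ) (c d : ℕ) (x : Pc n c) : EE :=
  fs c d (fun z => W (th n d E z) (th n d E' z) • yQ n d r z) x

variable {W : ℤˣ → ℤˣ → ℤ}

theorem smul_wt (ok : OkS n d r) (hc : c ∣ d) (h : Gd n d E) (h' : Gd n d E') (hg : g ∈ GK n)
    (x : Pc n c) : g • wt r W E E' c d x =
      wt r (fun a b => W (chi E g * a) (chi E' g * b)) E E' c d (rho n c g * x) := by
  rw [wt, wt, smul_fs, ← pj_rho ok.toOk hc, ← fs_mul]
  refine fs_congr fun z _ => ?_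
  rw [smul_comm, ok.smul_yQ hg, map_mul, map_mul, h.th hg, h'.th hg, ← mul_assoc, ← mul_assoc,
    Int.units_mul_self, Int.units_mul_self, one_mul, one_mul]

theorem wt_down (ok : Ok n e) (hc : c ∣ d) (hd : d ∣ e) (h : Gd n d E) (h' : Gd n d E')
    (T : EE →+ EE) (hT : ∀ z, fs d e (yQ n e r) z = T (yQ n d r z)) (x : Pc n c) :
    wt r W E E' c e x = T (wt r W E E' c d x) := by
  rw [wt, wt, map_fs, ← fs_fs hc hd]
  refine fs_congr fun z _ => ?_
  rw [map_zsmul, ← hT, fs, fs, Finset.smul_sum]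
  refine Finset.sum_congr rfl fun y hy => ?_
  rw [h.th_pj ok hd, h'.th_pj ok hd, (Finset.mem_filter.1 hy).2]

theorem wt_trace (ok : OkS n d r) (hl : l.Prime) (h15 : ¬ l ∣ 15) (hi : Inert n l) (hld : ¬ l ∣ d)
    (hc : c ∣ d) (he : e = d * l) (h : Gd n d E) (h' : Gd n d E') (x : Pc n c) :
    fs c (c * l) (wt r W E E' (c * l) e) x = a15 l • wt r W E E' c d x := by
  subst he
  exact (fs_fs (dvd_mul_right c l) (mul_dvd_mul_right hc l) _ x).trans
    (wt_down (cmd_ok ok.toOk hl) hc (dvd_mul_right d l) h h' (zsmulAddGroupHom (a15 l))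
      (ok.trace_inert hl rfl h15 hi hld) x)

theorem wt_kron (hK : KronStmt) {w : Plc} {φ : Gam} (ok : OkS n d r) (h30 : ¬ w.p ∣ 30)
    (hJ : J(-n | w.p) = -1) (hld : ¬ w.p ∣ d) (hc : c ∣ d) (he : e = d * w.p)
    (h : Gd n d E) (h' : Gd n d E') (hφ : IsFrob w w.p φ) (x : Pc n (c * w.p)) :
    wt r W E E' (c * w.p) e x - φ • wt r W E E' c d (pj n c (c * w.p) x) ∈ K1 w := by
  rw [wt, wt, smul_fs, ← fs_cart ok.toOk w.prime (fun k => h30 (k ▸ by norm_num)) hJ hld hc rfl he,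
    fs, fs, ← Finset.sum_sub_distrib]
  subst he
  refine sum_mem fun z _ => ?_
  rw [h.th_pj (cmd_ok ok.toOk w.prime) (dvd_mul_right _ _),
    h'.th_pj (cmd_ok ok.toOk w.prime) (dvd_mul_right _ _), smul_comm φ, ← smul_sub]
  exact zsmul_mem (ok.kron hK rfl h30 hJ hld hφ z) _

theorem wt_add (W W' : ℤˣ → ℤˣ → ℤ) (x : Pc n c) :
    wt r (fun a b => W a b + W' a b) E E' c d x = wt r W E E' c d x + wt r W' E E' c d x := by
  simp only [wt, fs, add_smul, Finset.sum_add_distrib]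

theorem wt_smul (k : ℤ) (W : ℤˣ → ℤˣ → ℤ) (x : Pc n c) :
    wt r (fun a b => k * W a b) E E' c d x = k • wt r W E E' c d x := by
  simp only [wt, fs, mul_smul, Finset.smul_sum]

theorem wt_self (hd : d = c) (x : Pc n c) : wt r (fun _ _ => 1) E E' c d x = yQ n c r x := by
  subst hd
  rw [wt, fs_self, one_smul]

end Pool.Agent.Lib.MP_696deb_nt.B3.CM
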