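import Pool.Agent.Lib.MP_696deb_nt.B3.CMa

/-! The fibres of the projection between ring class groups, for an arbitrary prime. -/

set_option autoImplicit false

open scoped Classical

namespace Pool.Agent.Lib.MP_696deb_nt.B3.CM

open B2 B2.CM

variable {n c l : ℕ} {s b k : ℤ} {τ a : ℂ} {I J : Lt}

/-- Groups that are stable under the order of conductor `c`. -/
def St (n c : ℕ) (I : Lt) : Prop := ∀ z ∈ I, be n c c * z ∈ I

theorem St.mul_mem (hn : n % 4 = 3) (h : St n c I) {u z : ℂ} (hu : u ∈ Oc n c) (hz : z ∈ I) :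
    u * z ∈ I := by
  rw [← mem_ot, cmd_ot hn] at hu
  obtain ⟨p, q, rfl⟩ := mem_sp2.1 hu
  rw [add_mul, mul_one, mul_assoc]
  exact add_mem (int_mul_mem hz p) (int_mul_mem (h z hz) q)

theorem st_of_isIv (hn : n % 4 = 3) (h : IsIv (Oc n c) I) : St n c I :=
  fun _ hz => h.mul_mem (be_mem hn (by simp)) hz

theorem st_sc (ha : a ≠ 0) : St n c (sc a I) ↔ St n c I := by
  refine ⟨fun h z hz => ?_, fun h z hz => ?_⟩
  · have := h _ ((mul_mem_sc ha).2 hz)
    rwa [mul_left_comm, mul_mem_sc ha] at this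
  · obtain ⟨y, hy, rfl⟩ := mem_sc.1 hz
    rw [mul_left_comm, mul_mem_sc ha]
    exact h y hy

/-- An intermediate group that is not stable is invertible for the smaller order. -/
theorem isIv_of_not_st (h : Ok n c) (hl : l.Prime) (hI : IsIv (Oc n c) J) (h1 : sc l J < I)
    (h3 : I < J) (hw : ¬ St n c I) : IsIv (Oc n (c * l)) I ∧ I * ot (Oc n c) = J := by
  have hl0 : (l : ℂ) ≠ 0 := Nat.cast_ne_zero.2 hl.ne_zero
  have hm : be n c c ∈ Oc n c := be_mem h.m4 (by simp)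
  have e : I * ot (Oc n c) = J := by
    refine ((mul_le_mul_left h3.le _).trans hI.1.le).eq_or_lt.resolve_right fun hlt => hw ?_
    intro z hz
    refine (mid_eq hl (hI.isLat h) h1 (cmd_le_mul I _) hlt).ge ?_
    rw [mul_comm (be n c c)]
    exact Submodule.mul_mem_mul hz hm
  have t : ∀ z ∈ I, l * (be n c c * z) ∈ I := fun z hz =>
    h1.le ((mul_mem_sc hl0).2 (hI.mul_mem hm (h3.le hz)))
  refine ⟨isIv_of_mult (cmd_ok h hl) (((hI.isLat h).sc hl0).mid (hI.isLat h) h1.le h3.le)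
    fun a => ⟨fun ha => ?_, fun ha z hz => ?_⟩, e⟩
  · have h4 : a ∈ ot (Oc n c) := hI.mem_of_mul fun z hz => by
      rw [← e] at hz ⊢
      refine Submodule.mul_induction_on hz (fun x hx y hy => ?_) fun x y hx hy => ?_
      · rw [← mul_assoc]
        exact Submodule.mul_mem_mul (ha x hx) hy
      · rw [mul_add]
        exact add_mem hx hy
    rw [cmd_ot h.m4] at h4
    obtain ⟨p, q, rfl⟩ := mem_sp2.1 h4
    by_cases hq : (l : ℤ) ∣ q
    · obtain ⟨q, rfl⟩ := hq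
      rw [← mem_ot, cmd_ot' h.m4]
      exact mem_sp2.2 ⟨p, q, by push_cast; ring⟩
    · refine absurd (fun z hz => cmd_bez hl hq (t z hz) ?_) hw
      have := I.sub_mem (ha z hz) (int_mul_mem hz p)
      rwa [show ((p : ℂ) * 1 + q * be n c c) * z - p * z = q * (be n c c * z) by ring] at this
  · rw [← mem_ot, cmd_ot' h.m4] at ha
    obtain ⟨p, q, rfl⟩ := mem_sp2.1 ha
    have := I.add_mem (int_mul_mem hz p) (int_mul_mem (t z hz) q)
    rwa [show (p : ℂ) * z + q * (l * (be n c c * z)) = (p * 1 + q * (l * be n c c)) * z by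
      ring] at this

theorem not_st_of_isIv (h : Ok n c) (hl : l.Prime) (hI : IsIv (Oc n (c * l)) I) : ¬ St n c I :=
  fun hw => by
    have h1 := hI.mem_of_mul hw
    rw [← mem_ot, cmd_ot' h.m4] at h1
    obtain ⟨p, q, e⟩ := mem_sp2.1 h1
    have := be_indep (n := n) (b := c) (by have := h.gt; omega) h.ne (x := p) (y := q * l - 1)
      (by push_cast; linear_combination -e)
    exact cmd_one hl ⟨q, by linear_combination -this.2⟩

theorem nb_mid_sc (hl : l.Prime) (hτ : τ.im ≠ 0) (ha : a ≠ 0) (i : Option (Fin l)) :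
    sc l (sc a (sp2 τ 1)) < sc a (CM.nb l s τ i) ∧ sc a (CM.nb l s τ i) < sc a (sp2 τ 1) :=
  ⟨by rw [cmd_sc_comm, cmd_sc_lt ha]; exact (nb_mid hl hτ i).1,
    (cmd_sc_lt ha).2 (nb_mid hl hτ i).2⟩

theorem nb_isIv_of (h : Ok n c) (hl : l.Prime) (hτ : τ.im ≠ 0) (ha : a ≠ 0)
    (hI : IsIv (Oc n c) (sc a (sp2 τ 1))) {i : Option (Fin l)} (hw : ¬ St n c (CM.nb l s τ i)) :
    IsIv (Oc n (c * l)) (sc a (CM.nb l s τ i)) ∧
      sc a (CM.nb l s τ i) * ot (Oc n c) = sc a (sp2 τ 1) :=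
  isIv_of_not_st h hl hI (nb_mid_sc hl hτ ha i).1 (nb_mid_sc hl hτ ha i).2 (mt (st_sc ha).1 hw)

/-- The fibre of the projection is the set of the neighbours that are not stable. -/
theorem sum_nb [Fintype (Pc n (c * l))] (h : Ok n c) (hl : l.Prime) (hs : ¬ (l : ℤ) ∣ s)
    (hτ : τ.im ≠ 0) (ha : a ≠ 0) (hI : IsIv (Oc n c) (sc a (sp2 τ 1))) {M : Type}
    [AddCommMonoid M] (F : Pc n (c * l) → M) :
    ∑ x with pj n c (c * l) x = cl _ (sc a (sp2 τ 1)), F x =
      ∑ i with ¬ St n c (CM.nb l s τ i), F (cl _ (sc a (CM.nb l s τ i))) := by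
  refine (Finset.sum_bij (fun i _ => cl _ (sc a (CM.nb l s τ i))) (fun i hi => ?_)
    (fun i hi j hj e => ?_) (fun x hx => ?_) fun _ _ => rfl).symm
  · obtain ⟨h1, h2⟩ := nb_isIv_of h hl hτ ha hI (Finset.mem_filter.1 hi).2
    rw [Finset.mem_filter, pj_cl (dvd_mul_right c l) h1, h2]
    exact ⟨Finset.mem_univ _, rfl⟩
  · have hi := nb_isIv_of h hl hτ ha hI (Finset.mem_filter.1 hi).2
    have hj := nb_isIv_of h hl hτ ha hI (Finset.mem_filter.1 hj).2
    obtain ⟨t, -, e⟩ := (cl_eq_iff hi.1 hj.1).1 e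
    have e2 := hj.2
    rw [e, sc_mul, hi.2] at e2
    refine (cmd_nb_eq hl hs hτ ((cmd_sc_le ha).1 (e.le.trans fun z hz => ?_))).symm
    obtain ⟨y, hy, rfl⟩ := mem_sc.1 hz
    rcases hI.unit h e2 with rfl | rfl
    · rwa [one_mul]
    · rw [neg_one_mul]
      exact neg_mem hy
  · obtain ⟨I, h0, rfl, h1, h3⟩ := cmd_lift h hl hI (Finset.mem_filter.1 hx).2
    obtain ⟨I, rfl⟩ := cmd_sc_surj ha I
    rw [cmd_sc_comm, cmd_sc_lt ha] at h1
    obtain ⟨i, rfl⟩ := cmd_mid hl hs hτ h1 ((cmd_sc_lt ha).1 h3)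
    exact ⟨i, Finset.mem_filter.2 ⟨Finset.mem_univ _,
      mt (st_sc ha).2 (not_st_of_isIv h hl h0)⟩, rfl⟩

/-- A stable intermediate group gives a root of the minimal polynomial. -/
theorem St.exists_root (h : Ok n c) (hl : l.Prime) (hI : IsIv (Oc n c) J) (h1 : sc l J < I)
    (h3 : I < J) (hw : St n c I) {N : ℤ} (e : b ^ 2 + n * c ^ 2 = 4 * N) :
    ∃ t : ℤ, (l : ℤ) ∣ t ^ 2 - t * b + N ∧ ∀ z ∈ I, (be n c b - t) * z ∈ sc l J := by
  have hl0 : (l : ℂ) ≠ 0 := Nat.cast_ne_zero.2 hl.ne_zero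
  have hm : be n c b ∈ Oc n c := be_mem h.m4 (two_dvd_sub h.m4 e)
  obtain ⟨x, hx, hx', e1⟩ := cmd_span hl (hI.isLat h) h1 h3
  obtain ⟨t, ht⟩ := cmd_mem_sup (e1 ▸ hw.mul_mem h.m4 hm hx)
  have hs := be_sq e
  have h4 := (hI.sc hl0).mul_mem (sub_mem (sub_mem (intCast_mem _ b) hm) (intCast_mem _ t)) ht
  rw [show ((b : ℂ) - be n c b - t) * (be n c b * x - t * x) =
    ((t ^ 2 - t * b + N : ℤ) : ℂ) * x by push_cast; linear_combination -x * hs] at h4
  refine ⟨t, by_contra fun hd => hx' (cmd_bez hl hd ((mul_mem_sc hl0).2 (h3.le hx)) h4),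
    fun z hz => ?_⟩
  obtain ⟨u, hu⟩ := cmd_mem_sup (e1 ▸ hz)
  have := add_mem ((hI.sc hl0).mul_mem (sub_mem hm (intCast_mem _ t)) hu) (int_mul_mem ht u)
  rwa [show (be n c b - t) * (z - u * x) + u * (be n c b * x - t * x) = (be n c b - t) * z by
    ring] at this

/-- Inert primes. -/
def Inert (n l : ℕ) : Prop := ∀ t : ℤ, ¬ (l : ℤ) ∣ nrm n t 1

theorem not_st_inert (h : Ok n c) (hl : l.Prime) (hi : Inert n l) (hc : ¬ l ∣ c)
    (hI : IsIv (Oc n c) J) (h1 : sc l J < I) (h3 : I < J) : ¬ St n c I := fun hw => by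
  obtain ⟨q, hq⟩ : ∃ q : ℤ, (n : ℤ) + 1 = 4 * q := ⟨(n + 1) / 4, by have := h.m4; omega⟩
  obtain ⟨t, ht, -⟩ := hw.exists_root h hl hI h1 h3 (b := c) (N := c ^ 2 * q)
    (by linear_combination c ^ 2 * hq)
  obtain ⟨u, v, e⟩ := cmd_cop hl (x := c) (by exact_mod_cast hc)
  refine hi (-(t * v)) ?_
  have e2 : ((n : ℤ) + 1) / 4 = q := by omega
  rw [nrm, e2, show (-(t * v)) ^ 2 + -(t * v) * 1 + 1 ^ 2 * q = v ^ 2 * (t ^ 2 - t * c + c ^ 2 * q) +
    l * (u * (q * (1 + v * c) - t * v)) by linear_combination (t * v - q * (1 + v * c)) * e]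
  exact dvd_add (ht.mul_left _) (dvd_mul_right _ _)

theorem inert_two (hn : n % 8 = 3) : Inert n 2 := fun t => by
  obtain ⟨q, hq⟩ : ∃ q : ℤ, ((n : ℤ) + 1) / 4 = 2 * q + 1 := ⟨n / 8, by omega⟩
  obtain ⟨u, hu⟩ := Int.even_mul_succ_self t
  rw [nrm, hq, show t ^ 2 + t * 1 + 1 ^ 2 * (2 * q + 1) = 2 * (u + q) + 1 by linear_combination hu]
  omega

/-- The stable intermediate group when the prime divides the conductor. -/
theorem mid_up (h : Ok n c) (hl : l.Prime) (hI : IsIv (Oc n (c * l)) J) :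
    sc l J < sc l (J * ot (Oc n c)) ∧ sc l (J * ot (Oc n c)) < J :=
  ⟨(cmd_sc_lt (Nat.cast_ne_zero.2 hl.ne_zero)).2 (mid_of_isIv h hl hI).2, (mid_of_isIv h hl hI).1⟩

theorem st_iff_up (h : Ok n c) (hl : l.Prime) (hI : IsIv (Oc n (c * l)) J) (h1 : sc l J < I)
    (h3 : I < J) : St n (c * l) I ↔ I = sc l (J * ot (Oc n c)) := by
  have hl0 : (l : ℂ) ≠ 0 := Nat.cast_ne_zero.2 hl.ne_zero
  have ok := cmd_ok h hl
  have hO := (hI.ext (Oc_le n (dvd_mul_right c l))).sc hl0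
  have hM : St n (c * l) (sc l (J * ot (Oc n c))) := fun z hz =>
    hO.mul_mem (Oc_le n (dvd_mul_right c l) (be_mem h.m4 (by simp))) hz
  refine ⟨fun hw => ?_, fun e => e ▸ hM⟩
  have eb : be n (c * l) (c * l : ℕ) = l * be n c c := by rw [← be_mul, Nat.cast_mul]
  let K : Lt := J ⊓ J.comap (LinearMap.mulLeft ℤ (be n c c))
  have hK : K < J := lt_of_le_of_ne inf_le_left fun e =>
    not_st_of_isIv h hl hI fun z hz => (e.ge hz).2
  have key : ∀ I', sc l J < I' → I' < J → St n (c * l) I' → I' = K := fun I' k1 k3 kw => by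
    obtain ⟨q, hq⟩ : ∃ q : ℤ, (n : ℤ) + 1 = 4 * q := ⟨(n + 1) / 4, by have := h.m4; omega⟩
    obtain ⟨t, ht, h5⟩ := kw.exists_root ok hl hI k1 k3 (b := (c * l : ℕ)) (N := (c * l) ^ 2 * q)
      (by push_cast; linear_combination (c * l) ^ 2 * hq)
    obtain ⟨t, rfl⟩ : (l : ℤ) ∣ t := (Nat.prime_iff_prime_int.1 hl).dvd_of_dvd_pow (n := 2) (by
      rw [show t ^ 2 = t ^ 2 - t * (c * l : ℕ) + (c * l) ^ 2 * q + l * (t * c - c ^ 2 * l * q) by
        push_cast; ring]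
      exact dvd_add ht (dvd_mul_right _ _))
    refine mid_eq hl (hI.isLat ok) k1 (fun z hz => ⟨k3.le hz, ?_⟩) hK
    have h6 := h5 z hz
    rw [eb, show (l * be n c c - (l * t : ℤ)) * z = l * (be n c c * z - t * z) by push_cast; ring,
      mul_mem_sc hl0] at h6
    simpa using add_mem h6 (int_mul_mem (k3.le hz) t)
  rw [key _ h1 h3 hw, key _ (mid_up h hl hI).1 (mid_up h hl hI).2 hM]

/-- The product with a prime ideal of degree one. -/
theorem mid_idl (h : Ok n c) (hl : l.Prime) (e : b ^ 2 + n * c ^ 2 = 4 * l * k)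
    (hI : IsIv (Oc n c) J) :
    sc l J < idl n c l b * J ∧ idl n c l b * J < J := by
  have hl0 : (l : ℂ) ≠ 0 := Nat.cast_ne_zero.2 hl.ne_zero
  have e' : b ^ 2 + n * c ^ 2 = 4 * (l * k) := by rw [e, mul_assoc]
  have hm : be n c b ∈ Oc n c := be_mem h.m4 (two_dvd_sub h.m4 e')
  have hs := be_sq e'
  have h1 : sc l J ≤ idl n c l b * J := fun z hz => by
    obtain ⟨y, hy, rfl⟩ := mem_sc.1 hz
    exact_mod_cast Submodule.mul_mem_mul (left_mem_sp2 ((l : ℤ) : ℂ) (be n c b)) hy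
  have h2 : idl n c l b * J ≤ J := by
    conv_rhs => rw [← hI.1, mul_comm]
    exact mul_le_mul_left (idl_le h.m4 e) J
  have key : ∀ u ∈ Oc n c, ∀ v ∈ Oc n c, u + v = b → (∀ z ∈ J, u * z ∈ sc l J) →
      u * v = l * k → u ∈ sc l (ot (Oc n c)) := fun u _ v _ _ h3 _ => by
    have : (l : ℂ)⁻¹ * u ∈ Oc n c := hI.mem_of_mul fun z hz => by
      rw [← mul_mem_sc hl0, mul_assoc, mul_inv_cancel_left₀ hl0]
      exact h3 z hz
    exact mem_sc.2 ⟨_, this, mul_inv_cancel_left₀ hl0 u⟩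
  have h7 : ∀ ε : ℤ, ε = 1 ∨ ε = -1 → ∀ j : ℤ, (j : ℂ) + ε * be n c b ∉ sc l (ot (Oc n c)) :=
    fun ε hε j h3 => by
      rw [ot_Oc h.m4 (two_dvd_sub h.m4 e'), sc_sp2] at h3
      obtain ⟨p, q, h3⟩ := mem_sp2.1 h3
      have := (be_indep (n := n) (b := b) (by have := h.gt; omega) h.ne (x := j - p * l)
        (y := ε - q * l) (by push_cast; linear_combination h3)).2
      rcases hε with rfl | rfl
      · exact cmd_one hl ⟨q, by linear_combination this⟩
      · exact cmd_one hl ⟨-q, by linear_combination -this⟩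
  have hm' : (b : ℂ) - be n c b ∈ Oc n c := sub_mem (intCast_mem _ b) hm
  refine ⟨lt_of_le_of_ne h1 fun e1 => h7 1 (.inl rfl) 0 ?_,
    lt_of_le_of_ne h2 fun e1 => h7 (-1) (.inr rfl) b ?_⟩
  · simpa using key _ hm _ hm' (by ring) (fun z hz => by
      rw [e1]
      exact Submodule.mul_mem_mul (right_mem_sp2 _ _) hz) (by
        push_cast at hs; linear_combination -hs)
  · have := key _ hm' _ hm (by ring) (fun z hz => by
      rw [← e1] at hz
      refine Submodule.mul_induction_on hz (fun x hx y hy => ?_) fun x y hx hy => ?_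
      · obtain ⟨p, q, rfl⟩ := mem_sp2.1 hx
        rw [show ((b : ℂ) - be n c b) * ((p * (l : ℤ) + q * be n c b) * y) =
          l * (p * ((b - be n c b) * y) + (q * k : ℤ) * y) by
            push_cast at hs ⊢; linear_combination -q * y * hs, mul_mem_sc hl0]
        exact add_mem (int_mul_mem (hI.mul_mem hm' hy) p) (int_mul_mem hy _)
      · rw [mul_add]
        exact add_mem hx hy) (by push_cast at hs; linear_combination -hs)
    simpa [sub_eq_add_neg] using this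

theorem st_idl (h : Ok n c) (hl : l.Prime) (e : b ^ 2 + n * c ^ 2 = 4 * l * k)
    (hb : ¬ (l : ℤ) ∣ b) (hI : IsIv (Oc n c) J) : IsIv (Oc n c) (idl n c l b * J) :=
  (isIv_idl h.m4 e (by exact_mod_cast hl.ne_zero) (cmf_prim hl hb k)).mul hI

/-- The stable intermediate groups for a split prime. -/
theorem St.eq_idl (h : Ok n c) (hl : l.Prime) (e : b ^ 2 + n * c ^ 2 = 4 * l * k)
    (hb : ¬ (l : ℤ) ∣ b) (hI : IsIv (Oc n c) J) (h1 : sc l J < I) (h3 : I < J) (hw : St n c I) :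
    I = idl n c l b * J ∨ I = idl n c l (-b) * J := by
  have hl0 : (l : ℂ) ≠ 0 := Nat.cast_ne_zero.2 hl.ne_zero
  have e2 : (-b) ^ 2 + n * c ^ 2 = 4 * l * k := by rw [neg_sq, e]
  have m1 := mid_idl h hl e hI
  have m2 := mid_idl h hl e2 hI
  obtain ⟨t, ht, h5⟩ := hw.exists_root h hl hI h1 h3 (b := b) (N := l * k) (by rw [e, mul_assoc])
  have hs := be_sub n c b
  have h6 : (l : ℤ) ∣ t * (t - b) := by
    rw [show t * (t - b) = t ^ 2 - t * b + l * k - l * k by ring]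
    exact dvd_sub ht (dvd_mul_right _ _)
  rcases (Nat.prime_iff_prime_int.1 hl).dvd_or_dvd h6 with ⟨u, rfl⟩ | ⟨u, hu⟩
  · refine .inr (mid_eq hl (hI.isLat h) h1 (fun z hz => cmd_bez hl hb
      (m2.1.le ((mul_mem_sc hl0).2 (h3.le hz))) ?_) m2.2)
    have k1 := m2.1.le (h5 z hz)
    have k2 := m2.1.le ((mul_mem_sc hl0).2 (int_mul_mem (h3.le hz) u))
    have k3 := Submodule.mul_mem_mul (right_mem_sp2 ((l : ℤ) : ℂ) (be n c (-b))) (h3.le hz)
    have k4 := sub_mem (add_mem k1 k2) k3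
    rwa [show (be n c b - (l * u : ℤ)) * z + l * (u * z) - be n c (-b) * z = b * z by
      push_cast; linear_combination z * hs] at k4
  · refine .inl (mid_eq hl (hI.isLat h) h1 (fun z hz => cmd_bez hl hb
      (m1.1.le ((mul_mem_sc hl0).2 (h3.le hz))) ?_) m1.2)
    have k1 := m1.1.le (h5 z hz)
    have k2 := m1.1.le ((mul_mem_sc hl0).2 (int_mul_mem (h3.le hz) u))
    have k3 := Submodule.mul_mem_mul (right_mem_sp2 ((l : ℤ) : ℂ) (be n c b)) (h3.le hz)
    have hu' : (t : ℂ) - b = l * u := by exact_mod_cast hu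
    have k4 := sub_mem (sub_mem k3 k1) k2
    rwa [show be n c b * z - (be n c b - t) * z - l * (u * z) = b * z by
      linear_combination z * hu'] at k4

end Pool.Agent.Lib.MP_696deb_nt.B3.CM
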