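import Pool.Agent.Lib.MP_696deb_nt.B3.CMg

/-! The Euler systems of the twists by divisors of thirty. -/

set_option autoImplicit false

open scoped Classical NumberTheorySymbols

namespace Pool.Agent.Lib.MP_696deb_nt.B3.CM

open B2 B2.CM

variable {n c d e l : ℕ} {r δ m : ℤ} {g : Gam}

/-- The two-part of the conductor. -/
def m2 (δ : ℤ) : ℕ := if δ = 1 then 1 else 4 * δ.natAbs

/-- The coefficient of the point of lower level in the half point. -/
def ka (δ : ℤ) : ℤ := if δ = 1 then 0 else if δ = -1 then 1 else -2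

/-- The indicator function of the trivial sign. -/
def ind (a : ℤˣ) : ℤ := if a = 1 then 1 else 0

theorem ind_neg (a : ℤˣ) : ind (-a) = 1 - ind a := by
  rcases Int.units_eq_one_or a with rfl | rfl <;> decide

theorem two_ind (a : ℤˣ) : 2 * ind a = 1 + a := by
  rcases Int.units_eq_one_or a with rfl | rfl <;> decide

theorem dvd_two (h : δ ∣ 2) : δ = 1 ∨ δ = -1 ∨ δ = 2 ∨ δ = -2 := by
  have h1 := Int.natAbs_dvd_natAbs.2 h
  have h2 := (Nat.dvd_prime Nat.prime_two).1 h1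
  omega

theorem m2_cases (h : δ ∣ 2) (h1 : δ ≠ 1) : m2 δ = 4 ∧ ka δ = 1 ∨ m2 δ = 8 ∧ ka δ = -2 := by
  rcases dvd_two h with rfl | rfl | rfl | rfl <;> simp [m2, ka] at h1 ⊢

theorem m2_dvd (h : δ ∣ 2) : m2 δ ∣ 8 := by
  rcases dvd_two h with rfl | rfl | rfl | rfl <;> decide

theorem chi_four (h : δ ≠ 0) (g : Gam) : chi (4 * δ) g = chi δ g := by
  rw [chi_mul (by decide) h, show chi 4 g = 1 from chi_sq 2 g, one_mul]

/-- The character at two. -/
def k2' (δ v : ℤ) : ℤ :=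
  if δ = 1 then 1 else if δ = -1 then ZMod.χ₄ v else if δ = 2 then ZMod.χ₈ v else ZMod.χ₈' v

theorem kc_two (h : δ ∣ 2) (h1 : δ ≠ 1) (hc : m2 δ ∣ c) : Kc n c (4 * δ) (k2' δ) := by
  rcases dvd_two h with rfl | rfl | rfl | rfl
  exacts [absurd rfl h1, kc_four hc, kc_eight hc, kc_eight' hc]

theorem gd_two (ok : Ok n c) (h : δ ∣ 2) (hc : m2 δ ∣ c) : Gd n c δ := by
  rcases eq_or_ne δ 1 with rfl | h1
  · exact gd_one n c
  · obtain ⟨θ, hθ⟩ := (kc_two h h1 hc).exists_th ok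
    exact ⟨θ, fun g hg => by rw [hθ g hg, chi_four (by rintro rfl; simp at h)]⟩

theorem gd_odd (ok : Ok n c) (h : m % 4 = 1) (hc : m.natAbs ∣ c) : Gd n c m :=
  (kc_odd ok.m4 h ((Int.natAbs_dvd.1 (Int.natCast_dvd_natCast.2 hc)).mul_left _)).exists_th ok

theorem th_one (ok : Ok n c) (z : Pc n c) : th n c 1 z = 1 := by
  obtain ⟨g, hg, rfl⟩ := rho_surj ok z
  rw [(gd_one n c).th hg]
  simpa using chi_sq 1 g

theorem adm_not (hc : Adm n c) (hl : l.Prime) (h : l ∣ 30) : ¬ l ∣ c := fun k => (hc.2 l hl k).1 h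

theorem okS_of (hn : Nok n) (hr : 60 ∣ r ^ 2 + n) (hc : c ≠ 0) : OkS n c r :=
  ⟨⟨hn.good.mod4, cmz_gt hn, hc⟩, hr, hn.good.cop⟩

variable [∀ c, Fintype (Pc n c)]

theorem fs_sub {M : Type} [AddCommGroup M] (F G : Pc n d → M) (x : Pc n c) :
    fs c d (fun z => F z - G z) x = fs c d F x - fs c d G x := Finset.sum_sub_distrib _ _

/-- The traces from conductors four and eight. -/
theorem two_steps {M : Type} [AddCommGroup M] {d₁ d₂ d₃ : ℕ} (ok : Ok n d) (h8 : n % 8 = 3)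
    (hd : ¬ 2 ∣ d) (h1 : d₁ = d * 2) (h2 : d₂ = d₁ * 2) (h3 : d₃ = d₂ * 2) {z : Pc n d}
    {y₀ A B : M} {y₁ : Pc n d₁ → M} {y₂ : Pc n d₂ → M} {y₃ : Pc n d₃ → M}
    (e1 : fs d d₁ y₁ z = A - y₀)
    (e2 : ∀ x, pj n d d₁ x = z → fs d₁ d₂ y₂ x = B - y₁ x - y₀)
    (e3 : ∀ x, pj n d d₂ x = z → fs d₂ d₃ y₃ x = B - y₂ x - y₁ (pj n d₁ d₂ x)) :
    fs d d₂ y₂ z = 3 • B - A - 2 • y₀ ∧ fs d d₃ y₃ z = 3 • B - A + 4 • y₀ := by
  have k1 : d ∣ d₁ := h1 ▸ dvd_mul_right _ _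
  have k2 : d₁ ∣ d₂ := h2 ▸ dvd_mul_right _ _
  have k3 : d₂ ∣ d₃ := h3 ▸ dvd_mul_right _ _
  have c1 := fun v : M => fs_const_inert ok Nat.prime_two h1 (inert_two h8) hd z v
  have c2 := fun (x : Pc n d₁) (v : M) => fs_const_up ok Nat.prime_two h1 h2 x v
  have s2 : fs d d₂ y₂ z = 3 • B - A - 2 • y₀ := by
    rw [← fs_fs k1 k2, fs_congr e2, fs_sub, fs_sub, c1, c1, e1]
    abel
  refine ⟨s2, ?_⟩
  have s3 : fs d d₂ (fun x => y₁ (pj n d₁ d₂ x)) z = 2 • (A - y₀) := by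
    rw [← fs_fs k1 k2, ← e1, fs, fs, Finset.smul_sum]
    exact Finset.sum_congr rfl fun x _ => (fs_congr fun u hu => by rw [hu]).trans (c2 x _)
  rw [← fs_fs (k1.trans k2) k3, fs_congr e3, fs_sub, fs_sub, s2, s3, ← fs_fs k1 k2,
    fs_congr fun x _ => c2 x B, c1]
  abel

theorem OkS.two_rel (ok : OkS n d r) (h8 : n % 8 = 3) (hd : ¬ 2 ∣ d) (h : δ ∣ 2) (h1 : δ ≠ 1)
    (he : e = d * m2 δ) (z : Pc n d) : fs d e (yQ n e r) z = (-2 * ka δ) • yQ n d r z := by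
  have ok1 := ok.of_ne (mul_ne_zero ok.ne two_ne_zero)
  have := two_steps ok.toOk h8 hd rfl rfl rfl (z := z) (A := 0) (B := 0) (y₀ := yQ n d r z)
    (y₁ := yQ n _ r) (y₂ := yQ n _ r) (y₃ := yQ n _ r)
    (by rw [ok.trace_inert Nat.prime_two rfl (by decide) (inert_two h8) hd, a15_two]; simp)
    (fun x hx => by rw [ok.trace_up Nat.prime_two rfl rfl (by decide), a15_two, hx]; simp)
    (fun x _ => by rw [ok1.trace_up Nat.prime_two rfl rfl (by decide), a15_two]; simp)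
  rcases m2_cases h h1 with ⟨k, k'⟩ | ⟨k, k'⟩ <;> rw [k'] <;> rw [k] at he
  · obtain rfl : e = d * 2 * 2 := by omega
    rw [this.1]
    module
  · obtain rfl : e = d * 2 * 2 * 2 := by omega
    rw [this.2]
    module

/-- The points of the twisted system. -/
noncomputable def uY (r δ m : ℤ) (c : ℕ) (x : Pc n c) : EE :=
  wt r (fun a b => ind a * b) δ m c (c * (m2 δ * m.natAbs)) x +
    ka δ • wt r (fun _ b => b) 1 m c (c * m.natAbs) x

theorem Spt.ne {δ m : ℤ} (hs : Spt δ m) : δ ≠ 0 ∧ m ≠ 0 ∧ m2 δ ≠ 0 ∧ m.natAbs ≠ 0 := by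
  have h1 := hs.m4
  have h2 := m2_dvd hs.d2
  refine ⟨fun h => by simpa [h] using hs.d2, by omega, fun h => by simp [h] at h2, by omega⟩

theorem uY_flip (ok : OkS n c r) (h8 : n % 8 = 3) (hc : ¬ 2 ∣ c) (hs : Spt δ m) {ε : ℤˣ}
    (hε : δ = 1 → ε = 1) (η : ℤˣ) (x : Pc n c) :
    wt r (fun a b => ind (ε * a) * (η * b : ℤˣ)) δ m c (c * (m2 δ * m.natAbs)) x +
      ka δ • wt r (fun _ b => (η * b : ℤˣ)) 1 m c (c * m.natAbs) x =
      ((ε * η : ℤˣ) : ℤ) • uY r δ m c x := by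
  obtain ⟨-, -, n3, n4⟩ := Spt.ne hs
  have k1 : wt r (fun _ b => (η * b : ℤˣ)) 1 m c (c * m.natAbs) x =
      (η : ℤ) • wt r (fun _ b => b) 1 m c (c * m.natAbs) x := wt_smul _ _ x
  rw [k1, uY]
  rcases Int.units_eq_one_or ε with rfl | rfl
  · rw [one_mul, smul_add, smul_comm, ← wt_smul η fun a b => ind a * b]
    simp only [one_mul, Units.val_mul, mul_left_comm]
  · have ok1 := ok.of_ne (mul_ne_zero ok.ne n4)
    have k2 := wt_down (r := r) (W := fun _ b => b)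
      (ok.of_ne (mul_ne_zero ok.ne (mul_ne_zero n3 n4))).toOk
      (dvd_mul_right c _) (mul_dvd_mul_left c (dvd_mul_left _ _)) (gd_one n _)
      (gd_odd ok1.toOk hs.m4 (dvd_mul_left _ _)) (zsmulAddGroupHom (-2 * ka δ))
      (ok1.two_rel h8 (fun k => (Nat.prime_two.dvd_mul.1 k).elim hc (by have := hs.m4; omega))
        hs.d2 (fun k => absurd (hε k) (by decide)) (by ring)) x
    have k3 : wt r (fun a b => ind (-1 * a) * (η * b : ℤˣ)) δ m c (c * (m2 δ * m.natAbs)) x =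
        (η : ℤ) • wt r (fun _ b => b) 1 m c (c * (m2 δ * m.natAbs)) x +
          (-η : ℤ) • wt r (fun a b => ind a * b) δ m c (c * (m2 δ * m.natAbs)) x := by
      rw [← wt_smul, ← wt_smul]
      refine Eq.trans (congrArg (wt r · δ m c _ x) ?_) (wt_add (E := δ) (fun _ b => η * b) _ x)
      ext a b
      rw [neg_one_mul, ind_neg, Units.val_mul]
      ring
    rw [k3, k2, zsmulAddGroupHom_apply, neg_one_mul, Units.val_neg]
    module

theorem smul_uY (ok : OkS n c r) (h8 : n % 8 = 3) (hc : ¬ 2 ∣ c) (hs : Spt δ m) (hg : g ∈ GK n)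
    (x : Pc n c) : g • uY r δ m c x = (chi (δ * m) g : ℤ) • uY r δ m c (rho n c g * x) := by
  obtain ⟨n1, n2, n3, n4⟩ := Spt.ne hs
  have ok1 := ok.of_ne (mul_ne_zero ok.ne n4)
  have ok2 := ok.of_ne (mul_ne_zero ok.ne (mul_ne_zero n3 n4))
  rw [chi_mul n1 n2, ← uY_flip ok h8 hc hs (by rintro rfl; simpa using chi_sq 1 g), uY, smul_add,
    smul_comm g, smul_wt ok2 (dvd_mul_right _ _)
      (gd_two ok2.toOk hs.d2 ((dvd_mul_right _ _).mul_left _))
      (gd_odd ok2.toOk hs.m4 ((dvd_mul_left _ _).mul_left _)) hg,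
    smul_wt ok1 (dvd_mul_right _ _) (gd_one n _) (gd_odd ok1.toOk hs.m4 (dvd_mul_left _ _)) hg]

theorem Spt.not_dvd {δ m : ℤ} (hs : Spt δ m) (hl : l.Prime) (h : ¬ l ∣ 30) :
    ¬ l ∣ m2 δ * m.natAbs := fun k => (hl.dvd_mul.1 k).elim
  (fun k => h ((hl.dvd_of_dvd_pow (k.trans (m2_dvd hs.d2) : l ∣ 2 ^ 3)).trans (by norm_num)))
  fun k => h ((k.trans (Int.natAbs_dvd_natAbs.2 hs.d15)).trans (by norm_num))

/-- The twisted system. -/
noncomputable def rawY (hk : KronStmt) (hn : Nok n) (hr : 60 ∣ r ^ 2 + n) (hs : Spt δ m) :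
    Raw n (δ * m) where
  u := uY r δ m
  gal c h g hg x := by
    rw [tw, smul_uY (okS_of hn hr h.1.ne_zero) hn.m8 (adm_not h Nat.prime_two (by norm_num)) hs hg,
      smul_smul, ← Units.val_mul, Int.units_mul_self, Units.val_one, one_smul]
  trace c l hl h x := by
    obtain ⟨n1, n2, n3, n4⟩ := Spt.ne hs
    obtain ⟨h2, hJ, hc⟩ := cmz_mul h hl
    have h30 := (h.2 l hl (dvd_mul_left _ _)).1
    have h4 := Spt.not_dvd hs hl h30
    have c0 := left_ne_zero_of_mul h.1.ne_zero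
    have ok1 := okS_of hn hr (mul_ne_zero c0 n4)
    have ok2 := okS_of hn hr (mul_ne_zero c0 (mul_ne_zero n3 n4))
    have h15 : ¬ l ∣ 15 := fun k => h30 (k.trans (by norm_num))
    have hi := inert_of_jac ok1.m4 hl hJ
    rw [uY, smul_add, smul_comm, ← wt_trace ok2 hl h15 hi
      (fun k => (hl.dvd_mul.1 k).elim hc h4) (dvd_mul_right _ _) (mul_right_comm c l _)
      (gd_two ok2.toOk hs.d2 ((dvd_mul_right _ _).mul_left _))
      (gd_odd ok2.toOk hs.m4 ((dvd_mul_left _ _).mul_left _)), ← wt_trace ok1 hl h15 hi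
      (fun k => (hl.dvd_mul.1 k).elim hc fun k => h4 (k.mul_left _)) (dvd_mul_right _ _)
      (mul_right_comm c l _) (gd_one n _) (gd_odd ok1.toOk hs.m4 (dvd_mul_left _ _))]
    simp only [fs, uY, Finset.sum_add_distrib, Finset.smul_sum]
  kron c w φ h hφ x := by
    obtain ⟨n1, n2, n3, n4⟩ := Spt.ne hs
    have hl := w.prime
    obtain ⟨h2, hJ, hc⟩ := cmz_mul h hl
    have h30 := (h.2 _ hl (dvd_mul_left _ _)).1
    have h4 := Spt.not_dvd hs hl h30
    have c0 := left_ne_zero_of_mul h.1.ne_zero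
    have ok1 := okS_of hn hr (mul_ne_zero c0 n4)
    have ok2 := okS_of hn hr (mul_ne_zero c0 (mul_ne_zero n3 n4))
    rw [uY, uY, smul_add, smul_comm φ, add_sub_add_comm, ← smul_sub]
    exact add_mem (wt_kron hk ok2 h30 hJ (fun k => (hl.dvd_mul.1 k).elim hc h4)
      (dvd_mul_right _ _) (mul_right_comm c _ _)
      (gd_two ok2.toOk hs.d2 ((dvd_mul_right _ _).mul_left _))
      (gd_odd ok2.toOk hs.m4 ((dvd_mul_left _ _).mul_left _)) hφ x)
      (zsmul_mem (wt_kron hk ok1 h30 hJ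
        (fun k => (hl.dvd_mul.1 k).elim hc fun k => h4 (k.mul_left _)) (dvd_mul_right _ _)
        (mul_right_comm c _ _) (gd_one n _) (gd_odd ok1.toOk hs.m4 (dvd_mul_left _ _)) hφ x) _)

end Pool.Agent.Lib.MP_696deb_nt.B3.CM
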