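import Pool.Agent.Lib.MP_696deb_nt.B3.CMc

/-! The norm relation at three and five, and the congruence relation. -/

set_option autoImplicit false

open scoped Classical NumberTheorySymbols

namespace Pool.Agent.Lib.MP_696deb_nt.B3.CM

open B2 B2.CM

variable {n c d l : ℕ} {r : ℤ} {I : Lt} {Q : Fm}

theorem four_P4 : 4 • P4 = 0 := by
  have h := two_eq_zero.2 (.inr (.inr (.inr (rfl : T3 = T3))))
  rw [show 4 = 2 * 2 from rfl, mul_smul, two_P4, h]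

theorem dvd15 (hl : l.Prime) (h15 : l ∣ 15) : l = 3 ∨ l = 5 :=
  (hl.dvd_mul.1 (show l ∣ 3 * 5 from h15)).imp (Nat.prime_dvd_prime_iff_eq hl Nat.prime_three).1
    (Nat.prime_dvd_prime_iff_eq hl Nat.prime_five).1

theorem OkS.root_bad (ok : OkS n c r) (hl : l.Prime) (h15 : l ∣ 15) (hc : ¬ l ∣ c) :
    (∃ k : ℤ, (r * c) ^ 2 + n * c ^ 2 = 4 * l * k) ∧ ¬ (l : ℤ) ∣ r * c := by
  obtain ⟨k, hk⟩ := ok.root
  obtain ⟨u, hu⟩ : (l : ℤ) ∣ 15 := by exact_mod_cast h15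
  refine ⟨⟨u * k * c ^ 2, by linear_combination c ^ 2 * hk + 4 * k * c ^ 2 * hu⟩, fun h => ?_⟩
  rcases (Nat.prime_iff_prime_int.1 hl).dvd_or_dvd h with h | h
  · exact (Nat.prime_iff_prime_int.1 hl).not_isUnit (ok.cop_r.isUnit_of_dvd' h ⟨u, hu⟩)
  · exact hc (by exact_mod_cast h)

/-- The two stable neighbours at three and five. -/
theorem OkS.exists_bad (ok : OkS n c r) (hl : l.Prime) (h15 : l ∣ 15) (hc : ¬ l ∣ c) {a : ℂ}
    (ha : a ≠ 0) (h : IsHg (-(n * c ^ 2)) (-(r * c)) Q)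
    (hI : IsIv (Oc n c) (sc a (sp2 (froot Q) 1))) :
    ∃ j : Fin l, Hd n c r (idl n c l (r * c) * sc a (sp2 (froot Q) 1)) (Q.1 * l,
        Q.2.1 - 2 * Q.1 * (j : ℕ), (Q.1 * (j : ℕ) ^ 2 - Q.2.1 * (j : ℕ) + Q.2.2) / l) ∧
      froot (Q.1 * l, Q.2.1 - 2 * Q.1 * (j : ℕ),
        (Q.1 * (j : ℕ) ^ 2 - Q.2.1 * (j : ℕ) + Q.2.2) / l) = hk l (froot Q) (some j) ∧
      ∀ i, ¬ St n c (CM.nb l 1 (froot Q) i) ↔ i ≠ none ∧ i ≠ some j := by
  have l2 : (l : ℂ) ≠ 0 := by exact_mod_cast hl.ne_zero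
  have l0 : (0 : ℤ) < l := by exact_mod_cast hl.pos
  obtain ⟨⟨k, e⟩, hb⟩ := ok.root_bad hl h15 hc
  have e2 : (-(r * c)) ^ 2 + n * c ^ 2 = 4 * l * k := by rw [neg_sq, e]
  have ht := h.im_pos ok.neg
  have hJ : IsIv (Oc n c) (sp2 (froot Q) 1) := by
    simpa only [sc_inv_sc ha] using hI.sc (inv_ne_zero ha)
  have m1 := mid_idl ok.toOk hl e hJ
  have m2 := mid_idl ok.toOk hl e2 hJ
  obtain ⟨u, hu⟩ : (l : ℤ) ∣ 15 := by exact_mod_cast h15
  have hu' : (15 : ℂ) = l * u := by exact_mod_cast hu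
  obtain ⟨A, q, a1, a2, a3, a4⟩ := h.alp ok.neg
  rw [alp_eq] at a3 a4
  have n1 : idl n c l (-(r * c)) * sp2 (froot Q) 1 = CM.nb l 1 (froot Q) none := by
    refine mid_eq hl (isLat_sp2 ht.ne') m2.1 (sp2_mul_le.2 ⟨mem_sp2.2 ⟨1, 0, by simp⟩,
      mem_sp2.2 ⟨0, l, by simp⟩, mem_sp2.2 ⟨-q * u, -Q.2.2, ?_⟩,
      mem_sp2.2 ⟨A * u, -(r * c) + 15 * q, ?_⟩⟩) (nb_mid hl ht.ne' none).2
    · push_cast at a4 ⊢
      linear_combination a4 - q * froot Q * hu'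
    · push_cast at a3 ⊢
      linear_combination a3 + A * froot Q * hu'
  obtain ⟨i, n2⟩ := cmd_mid hl (cmd_one hl) ht.ne' m1.1 m1.2
  have hne : i ≠ none := by
    rintro rfl
    refine m1.2.not_ge fun z hz => cmd_bez hl hb (m1.1.le ((mul_mem_sc l2).2 hz)) ?_
    have k1 := Submodule.mul_mem_mul (right_mem_sp2 ((l : ℤ) : ℂ) (be n c (r * c))) hz
    have k2 : be n c (-(r * c)) * z ∈ idl n c l (r * c) * sp2 (froot Q) 1 := by
      rw [n2, ← n1]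
      exact Submodule.mul_mem_mul (right_mem_sp2 _ _) hz
    have k3 := sub_mem k1 k2
    rwa [← sub_mul, be_sub] at k3
  obtain ⟨j, rfl⟩ := Option.ne_none_iff_exists'.1 hne
  have s1 := st_of_isIv ok.m4 (st_idl ok.toOk hl e hb hJ)
  have s2 := st_of_isIv ok.m4 (st_idl ok.toOk hl e2 (by rwa [dvd_neg]) hJ)
  have hr := froot_root (h.disc ▸ ok.neg) h.pos
  have hd : (l : ℤ) ∣ Q.1 * (j : ℕ) ^ 2 - Q.2.1 * (j : ℕ) + Q.2.2 := by
    have k1 := s1.mul_mem ok.m4 (be_mem ok.m4 (two_dvd_sub ok.m4 (N := l * k)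
      (by rw [e2, mul_assoc]))) (n2.ge (left_mem_sp2 _ _))
    rw [n2, show be n c (-(r * c)) * (froot Q + (1 : ℤ) * (j : ℕ)) =
      ((15 * (A * (j : ℕ) - q) : ℤ) : ℂ) * froot Q + (-Q.2.2 + (j : ℕ) * (-(r * c) + 15 * q) : ℤ) by
        push_cast at a3 a4 ⊢; linear_combination a4 + ((j : ℕ) : ℂ) * a3, cmd_mem_some ht.ne'] at k1
    rwa [← dvd_neg, show -(Q.1 * (j : ℕ) ^ 2 - Q.2.1 * (j : ℕ) + Q.2.2) = -Q.2.2 + (j : ℕ) *
      (-(r * c) + 15 * q) - 15 * (A * (j : ℕ) - q) * (1 * (j : ℕ)) by rw [a1, a2]; ring]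
  obtain ⟨C, hC⟩ := hd
  have hd := h.disc
  rw [fdisc] at hd
  have k1 : IsHg (-(n * c ^ 2)) (-(r * c)) (Q.1 * l, Q.2.1 - 2 * Q.1 * (j : ℕ), C) :=
    ⟨by rw [fdisc]; linear_combination hd + 4 * Q.1 * hC, mul_pos h.pos l0, h.lev.mul_right _,
      q - A * (j : ℕ), by rw [a1, a2]; ring⟩
  have hC' := congrArg (Int.cast : ℤ → ℂ) hC
  have k2 : froot (Q.1 * l, Q.2.1 - 2 * Q.1 * (j : ℕ), C) = hk l (froot Q) (some j) :=
    (eq_froot (k1.disc ▸ ok.neg) k1.pos (hk_im hl.pos ht _) (by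
      simp only [hk]; push_cast at hC' ⊢; field_simp; linear_combination hr - hC')).symm
  obtain ⟨v, hv, e3⟩ := nb_hk hl.pos 1 (froot Q) (some j)
  simp only [Int.cast_one, one_mul] at e3
  refine ⟨j, ?_, ?_, fun i => ⟨fun k => ⟨?_, ?_⟩, fun k hw => ?_⟩⟩
  · rw [hC, Int.mul_ediv_cancel_left _ l0.ne', mul_sc, n2]
    exact Hd.sc ⟨k1, v, hv, by rw [k2, e3]⟩ ha
  · rw [hC, Int.mul_ediv_cancel_left _ l0.ne', k2]
  · rintro rfl
    exact k (n1 ▸ s2)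
  · rintro rfl
    exact k (n2 ▸ s1)
  · rcases hw.eq_idl ok.toOk hl e hb hJ (nb_mid hl ht.ne' i).1 (nb_mid hl ht.ne' i).2 with k3 | k3
    · exact k.2 (nb_inj hl (cmd_one hl) ht.ne' (k3.trans n2))
    · exact k.1 (nb_inj hl (cmd_one hl) ht.ne' (k3.trans n1))

theorem sum_bad {M : Type} [AddCommMonoid M] (j : Fin l) (P : Option (Fin l) → Prop)
    [DecidablePred P] (h : ∀ i, P i ↔ i ≠ none ∧ i ≠ some j) (F : Option (Fin l) → M) :
    ∑ i with P i, F i + F (some j) = ∑ i, F (some i) := by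
  rw [← Finset.sum_erase_add _ _ (Finset.mem_univ j)]
  congr 1
  refine (Finset.sum_bij (fun i _ => some i) (fun i hi => ?_) (fun _ _ _ _ e => Option.some.inj e)
    (fun i hi => ?_) fun _ _ => rfl).symm
  · simpa [h] using hi
  · obtain ⟨h1, h2⟩ := (h i).1 (Finset.mem_filter.1 hi).2
    obtain ⟨i, rfl⟩ := Option.ne_none_iff_exists'.1 h1
    exact ⟨i, by simpa using h2, rfl⟩

/-- A Frobenius element at the prime above three or five that is singled out by `r`. -/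
theorem OkS.exists_frob (ok : OkS n c r) (hl : l.Prime) (h15 : l ∣ 15) :
    ∃ φ ∈ GK n, (∃ w : Plc, w.p = l ∧ IsFrob w l φ) ∧
      ∀ d, d ≠ 0 → ¬ l ∣ d → rho n d φ = cl _ (idl n d l (r * d)) := by
  have ok1 := ok.of_ne one_ne_zero
  obtain ⟨⟨k, e⟩, hb⟩ := ok1.root_bad hl h15 hl.not_dvd_one
  have hw : ∃ w : Plc, w.p = l ∧ w.V (beQ n 1 (-(r * (1 : ℕ)))) < 1 := by
    obtain ⟨w, rfl⟩ := exists_plc hl
    rcases V_beQ_or ok.m4 e with h | h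
    · refine ⟨cc⁻¹ • w, rfl, ?_⟩
      rw [smul_V, inv_inv, show cc (beQ n 1 (-(r * (1 : ℕ)))) = -beQ n 1 (r * (1 : ℕ)) by
        simp only [beQ, map_div₀, map_add, map_mul, map_intCast, map_natCast, map_ofNat,
          smul_dq' (cc_notMem (q := n) (by have := ok.gt; omega))]
        push_cast; ring, Valuation.map_neg]
      exact h
    · exact ⟨w, rfl, h⟩
  obtain ⟨w, rfl, hw⟩ := hw
  obtain ⟨φ, hφ⟩ := B2.exists_frob w
  refine ⟨φ, dec_le_split (by rcases dvd15 hl h15 with h | h <;> omega) (jac_of_root hl e hb) hφ.1,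
    ⟨w, rfl, hφ⟩, fun d hd h => ?_⟩
  obtain ⟨⟨k, e⟩, hb⟩ := (ok.of_ne hd).root_bad hl h15 h
  rw [rho_frob_split (ok.of_ne hd).toOk (b := -(r * d)) (k := k) (by rw [neg_sq, e])
    (by rwa [dvd_neg]) ?_ hφ, cl_idl_neg ok.m4 e (by exact_mod_cast hl.ne_zero) (cmf_prim hl hb k),
    inv_inv]
  rw [show beQ n d (-(r * d)) = (d : ℤ) * beQ n 1 (-(r * (1 : ℕ))) by
    simp only [beQ]; push_cast; ring, map_mul]
  exact mul_lt_one_of_nonneg_of_lt_one_right (w.V_int_le d) zero_le hw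

variable [∀ c, Fintype (Pc n c)]

theorem fs_const_bad {M : Type} [AddCommGroup M] (ok : OkS n c r) (hl : l.Prime) (hd : d = c * l)
    (h15 : l ∣ 15) (hc : ¬ l ∣ c) (z : Pc n c) (v : M) :
    fs c d (fun _ => v) z = (l - 1) • v := by
  subst hd
  obtain ⟨I, hI, rfl⟩ := cl_surj z
  obtain ⟨Q, h, a, ha, rfl⟩ := ok.exists_hd hI
  obtain ⟨j, -, -, h3⟩ := ok.exists_bad hl h15 hc ha h hI
  have := sum_bad j _ h3 fun _ => 1
  simp only [Finset.sum_const, smul_eq_mul, mul_one, Finset.card_univ, Fintype.card_fin] at this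
  rw [fs_const ok.toOk hl (h.im_pos ok.neg).ne' ha hI, Nat.eq_sub_of_add_eq this]

theorem OkS.trace_bad (ok : OkS n c r) (hl : l.Prime) (hd : d = c * l) (h15 : l ∣ 15)
    (hc : ¬ l ∣ c) (z : Pc n c) :
    fs c d (yQ n d r) z = a15 l • yQ n c r z - yQ n c r (cl _ (idl n c l (r * c)) * z) := by
  subst hd
  have ok' := ok.of_ne (mul_ne_zero ok.ne hl.ne_zero)
  obtain ⟨I, hI, rfl⟩ := cl_surj z
  obtain ⟨Q, hQ⟩ := ok.exists_hd hI
  have e0 := ok.yP_hd hI hQ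
  obtain ⟨h, a, ha, rfl⟩ := hQ
  have ht := h.im_pos ok.neg
  obtain ⟨j, h1, h2, h3⟩ := ok.exists_bad hl h15 hc ha h hI
  obtain ⟨⟨k, e⟩, hb⟩ := ok.root_bad hl h15 hc
  have e1 := ok.yP_hd (st_idl ok.toOk hl e hb hI) h1
  rw [cl_mul (isIv_idl ok.m4 e (by exact_mod_cast hl.ne_zero) (cmf_prim hl hb k)) hI, h2] at e1
  have e2 := sum_bad j _ h3 fun i => pmap jC P4 - pt (hk l (froot Q) i)
  refine pmap_injective jC ?_
  rw [map_sub, map_zsmul, ok.jC_yQ, ok.jC_yQ, e0, e1, eq_sub_iff_add_eq, fs,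
    sum_nb (s := 1) ok.toOk hl (cmd_one hl) ht.ne' ha hI, map_sum, Finset.sum_congr rfl
      (g := fun i => pmap jC P4 - pt (hk l (froot Q) i)) fun i hi => ?_, e2,
    Finset.sum_sub_distrib, sum_hk_bad hl h15 ht, smul_sub, Finset.sum_const, Finset.card_univ,
    Fintype.card_fin, sub_left_inj, ← map_nsmul, ← map_zsmul]
  · have := four_P4
    congr 1
    rcases dvd15 hl h15 with rfl | rfl
    · rw [a15_three, neg_one_zsmul, eq_neg_iff_add_eq_zero, ← succ_nsmul, this]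
    · rw [a15_five, one_zsmul, succ_nsmul, this, zero_add]
  · obtain ⟨Q', k1, k2⟩ := ok.hd_nb hl.pos h i
    rw [ok'.jC_yQ, ok'.yP_hd (nb_isIv_of ok.toOk hl ht.ne' ha hI (Finset.mem_filter.1 hi).2).1
      (k1.sc ha), k2]

omit [∀ c, Fintype (Pc n c)] in
theorem inert_of_jac (hn : n % 4 = 3) (hl : l.Prime) (hJ : J(-n | l) = -1) : Inert n l :=
  fun t ht => by
    have := Fact.mk hl
    have h1 := (ZMod.intCast_zmod_eq_zero_iff_dvd _ l).2 (ht.mul_left 4)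
    rw [four_nrm hn] at h1
    refine ZMod.nonsquare_of_jacobiSym_eq_neg_one hJ ⟨2 * t + 1, ?_⟩
    push_cast at h1 ⊢
    linear_combination -h1

omit [∀ c, Fintype (Pc n c)] in
theorem OkS.kron (hK : KronStmt) {w : Plc} {φ : Gam} (ok : OkS n c r) (hd : d = c * w.p)
    (h30 : ¬ w.p ∣ 30) (hJ : J(-n | w.p) = -1) (hc : ¬ w.p ∣ c) (hφ : IsFrob w w.p φ) (x : Pc n d) :
    yQ n d r x - φ • yQ n c r (pj n c d x) ∈ K1 w := by
  subst hd
  have hl := w.prime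
  have ok' := ok.of_ne (mul_ne_zero ok.ne hl.ne_zero)
  have h2 : w.p ≠ 2 := fun h => h30 (h ▸ by norm_num)
  have hs : ¬ (w.p : ℤ) ∣ 15 := fun h => h30 ((Int.natCast_dvd_natCast.1 h).trans (by norm_num))
  obtain ⟨I, hI, e⟩ := cl_surj (pj n c (c * w.p) x)
  obtain ⟨Q, hQ⟩ := ok.exists_hg hI
  have e0 := ok.yP_cl hI hQ
  obtain ⟨h, a, ha, rfl⟩ := hQ
  have ht := h.im_pos ok.neg
  have hτ : (15 * froot Q).im ≠ 0 := by simpa using ht.ne'
  obtain ⟨j, rfl⟩ := nb_cl_surj ok.toOk hl hs hτ ha hI e.symm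
  obtain ⟨N, hN, i, k1, k2⟩ := hK w φ _ _ h30 hφ ht ((ok.jC_yQ _).trans e0)
  obtain ⟨Q', h1, h3⟩ := ok.hg_nb hl.pos h j
  have e3 : yQ n (c * w.p) r (cl _ (sc a (CM.nb w.p 15 (15 * froot Q) j))) = N j :=
    pmap_injective jC (by
      rw [ok'.jC_yQ, ok'.yP_cl (nb_isIv ok.toOk hl h2 hJ hc hτ ha hI j).1 (h1.sc ha), h3, hN]
      cases j <;> rfl)
  rw [← e, e3]
  by_cases hj : j = i
  · exact hj ▸ k1
  have hg : φ ∉ GK n := fun h => by
    have k := chi_frob (B4c_not_dvd h2 (by rw [hJ]; decide)) hφ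
    rw [hJ, MonoidHom.mem_ker.1 h] at k
    norm_num at k
  have hg2 : φ * φ ∈ GK n := MonoidHom.mem_ker.2 (by rw [map_mul, Int.units_mul_self])
  refine (K1_smul hφ.1).1 ?_
  rw [smul_sub, smul_smul, ok.smul_yQ hg2, rho_sq ok.toOk hg, one_mul]
  exact k2 j hj

end Pool.Agent.Lib.MP_696deb_nt.B3.CM
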