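import Pool.Agent.Lib.MP_696deb_nt.B3.GWt
import Pool.Agent.Lib.MP_696deb_nt.B3.LF

/-! Families of forms whose conductor shares primes with thirty. -/

set_option autoImplicit false

open scoped Classical
open Finset NumberTheorySymbols

namespace Pool.Agent.Lib.MP_696deb_nt.B3

open B2

/-- The number `e` is the discriminant of the quadratic field attached to `δ m`. -/
structure Dsc (δ m e : ℤ) : Prop where
  spt : Spt δ m
  eq : e = if δ = 1 then m else 4 * δ * m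
  ne : δ * m ≠ 1

/-- The genus character after the Fricke involution. -/
def uw (e a : ℤ) (R : Fm) : ℤ := gw e a (fV R)

/-- The character `gw` as a weight on a family. -/
def wD (e a D β : ℤ) (R : Fm) : ℤ := if Fam D β R then gw e a R else 0

/-- The character `uw` as a weight on a family. -/
def wU (e a D β : ℤ) (R : Fm) : ℤ := if Fam D β R then uw e a R else 0

/-- The conductor of the second family. -/
def lv (e : ℤ) : ℤ := if 2 ∣ e then 2 * e.natAbs else e.natAbs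

/-- The conductor of the character attached to `e a`. -/
def cn (e a : ℤ) : ℕ := (e * a).natAbs

/-- The split family attached to the character of discriminant `e a`. -/
def wV3 (e a : ℤ) : Fm → ℤ := wU e a (cn e a ^ 2) (11 * cn e a)

/-- The family of geodesics attached to the pair `e a`, `e x`. -/
def wX (e a x β : ℤ) : Fm → ℤ := wU e a (a * x * lv e ^ 2) (β * lv e)

/-- The integer that measures the class of a family with a character of the sign of `s`. -/
noncomputable def thS (s : ℤ) (w : Fm → ℤ) : ℤ := if 0 < s then thw w 4 15 else thw w 7 15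

/-- The image in `ℂ` of the divisor with the weight `uw`. -/
noncomputable def hU (e a : ℤ) (T : Finset Fm) : ℂ := ∑ Q ∈ T, (uw e a Q : ℂ) * Fi (froot Q)

/-- The symmetrization of a point. -/
noncomputable def sy (e a : ℤ) (z : ℂ) : ℂ := z + kap e a (-1) * (starRingEnd ℂ) z

/-- Three discriminants, with a square root of `a b = -n` modulo sixty. -/
structure Tri (a b x : ℤ) (n : ℕ) (ρ : ℤ) : Prop where
  good : Good n
  mul : a * b = -n
  a4 : a % 4 = 1
  cx : Cls0 x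
  pos : 0 < a * x
  root : 60 ∣ ρ ^ 2 + n

variable {δ m e a b x D β ρ : ℤ} {n : ℕ} {Q R : Fm}

theorem lv_pos (h : e ≠ 0) : 0 < lv e := by
  unfold lv
  split_ifs <;> omega

theorem dvd_lv (e : ℤ) : e ∣ lv e := by
  unfold lv
  split_ifs
  exacts [(Int.dvd_natAbs.2 dvd_rfl).mul_left _, Int.dvd_natAbs.2 dvd_rfl]

theorem Dsc.ne_zero (h : Dsc δ m e) : e ≠ 0 := (h.spt.dsc h.eq).1

theorem Dsc.kap (h : Dsc δ m e) (h4 : a % 4 = 1) : kap e a = kro (δ * m * a) :=
  funext (kap_eq h.spt h.eq h4)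

theorem Dsc.sqf (h : Dsc δ m e) (ha : Cls0 a) : Squarefree (δ * m * a) :=
  h.spt.sqf ha.sqf ha.m4 (Nat.Coprime.mul_right (m := 3) (n := 5)
    ((Nat.coprime_comm.1 ((Nat.Prime.coprime_iff_not_dvd Nat.prime_three).2 fun k =>
      ha.m3 (Int.natCast_dvd.2 k))))
    (Nat.coprime_comm.1 ((Nat.Prime.coprime_iff_not_dvd Nat.prime_five).2 fun k =>
      ha.m5 (Int.natCast_dvd.2 k))))

theorem Dsc.cn (h : Dsc δ m e) (ha : Cls0 a) : cn e a = cond (δ * m * a) := by
  have h4 := ha.m4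
  have h5 : δ * m * a % 4 = δ * m % 4 := by
    rw [Int.mul_emod (δ * m), h4, mul_one, Int.emod_emod]
  rw [cond_eq (h.sqf ha), B3.cn, (h.spt.dsc h.eq).2.2.2.2.2, h5]
  split_ifs
  · rfl
  · rw [mul_assoc 4, Int.natAbs_mul 4]; rfl

theorem Dsc.pchr (h : Dsc δ m e) (ha : Cls0 a) : PChr (B3.cn e a) (B3.kap e a) := by
  rw [h.cn ha, h.kap ha.m4]
  exact pchr_kro (h.sqf ha)

theorem Dsc.kap_neg (h : Dsc δ m e) (ha : Cls0 a) : B3.kap e a (-1) = (δ * m * a).sign := by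
  rw [h.kap ha.m4, kro_neg_one (h.sqf ha)]

/-- The character `gw e a` is a genus character on the multiples of `a e ^ 2`. -/
theorem Dsc.gOk (h : Dsc δ m e) (ha : Cls0 a) (hd : a * e ^ 2 ∣ D) : GOk e a D := by
  have h5 : m * a % 4 = 1 := by rw [Int.mul_emod, h.spt.m4, ha.m4]; rfl
  refine ⟨?_, ?_, (dvd_mul_left _ _).trans hd, ?_⟩ <;> rw [oc_eq h.spt h.eq]
  · exact Int.squarefree_natAbs.2 (Squarefree.of_mul_right (mul_assoc δ m a ▸ h.sqf ha))
  · exact Nat.odd_iff.2 (by omega)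
  · rw [Int.natAbs_dvd, mul_comm m]
    exact (mul_dvd_mul_left a (dvd_pow ((dvd_mul_left m δ).trans (h.spt.dsc h.eq).2.2.2.1)
      two_ne_zero)).trans hd

theorem Tri.cls (t : Tri a b x n ρ) : Cls0 a ∧ Cls0 b ∧ b * x < 0 ∧ a.natAbs * b.natAbs = n := by
  have h1 := t.good.mod4
  have h2 := t.mul
  have h3 := t.a4
  have h4 : a.natAbs * b.natAbs = n := by rw [← Int.natAbs_mul, h2]; simp
  have h5 : ∀ {p : ℕ} {c : ℤ}, p ∣ 15 → 1 < p → c.natAbs ∣ n → ¬ (p : ℤ) ∣ c := fun k l j i =>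
    l.ne' (Nat.eq_one_of_dvd_coprimes t.good.cop ((Int.natCast_dvd.1 i).trans j) k)
  have ha : a.natAbs ∣ n := ⟨_, h4.symm⟩
  have hb : b.natAbs ∣ n := ⟨_, h4.symm.trans (mul_comm _ _)⟩
  refine ⟨⟨Int.squarefree_natAbs.1 (t.good.sqf.squarefree_of_dvd ha), h3,
    h5 (p := 3) (by norm_num) (by norm_num) ha, h5 (p := 5) (by norm_num) (by norm_num) ha⟩,
    ⟨Int.squarefree_natAbs.1 (t.good.sqf.squarefree_of_dvd hb), ?_,
    h5 (p := 3) (by norm_num) (by norm_num) hb, h5 (p := 5) (by norm_num) (by norm_num) hb⟩,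
    ?_, h4⟩
  · have : a * b % 4 = 1 := by omega
    rwa [Int.mul_emod, h3, one_mul, Int.emod_emod] at this
  · have h6 := t.pos
    have h7 : a * b < 0 := by omega
    nlinarith [mul_neg_of_pos_of_neg h6 h7, sq_nonneg a]

theorem fV_fV (h : 15 ∣ R.1) : fV (fV R) = R := by
  obtain ⟨_, b, c⟩ := R
  obtain ⟨a, rfl⟩ := h
  simp [fV]

theorem fam_fV (h : Fam D β R) : Fam D (-β) (fV R) := by
  have h1 := (scl_fV h.1).disc
  refine ⟨dvd_mul_right _ _, h1.trans h.2.1, ?_⟩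
  simpa [fV, ← sub_eq_neg_add] using dvd_sub_comm.mp h.2.2

theorem feq_fV (h : 15 ∣ Q.1) (k : FEq Q R) : FEq (fV Q) (fV R) := by
  obtain ⟨_, b, c⟩ := Q
  obtain ⟨a, rfl⟩ := h
  obtain ⟨x, y, z, u, h, rfl⟩ := k
  refine ⟨u, -z, -y, x, by linear_combination h, ?_⟩
  simp only [fV, fmap, fval, Prod.mk.injEq, ne_eq, OfNat.ofNat_ne_zero,
    not_false_eq_true, mul_div_cancel_left₀]
  refine ⟨by ring, by ring, ?_⟩
  rw [Int.ediv_eq_iff_eq_mul_right (by norm_num) ⟨a * x ^ 2 + b * x * z + 15 * c * z ^ 2, by ring⟩]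
  ring

theorem abs_gw_le (e a : ℤ) (R : Fm) : |gw e a R| ≤ 1 := by
  have h1 : ∀ v, |k2 e v| ≤ 1 := fun v => by
    have k : ∀ u : ZMod 8, |ZMod.χ₈ u| ≤ 1 ∧ |ZMod.χ₈' u| ≤ 1 := by decide
    have l : ∀ u : ZMod 4, |ZMod.χ₄ u| ≤ 1 := by decide
    unfold k2
    split_ifs
    exacts [(k _).1, (k _).2, l _, le_rfl]
  rw [gw, abs_mul]
  exact mul_le_one₀ (h1 _) (abs_nonneg _) (abs_gch_le _ _)

theorem fam_of_wD (h : wD e a D β R ≠ 0) : Fam D β R := by_contra fun k => h (if_neg k)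

theorem fam_of_wU (h : wU e a D β R ≠ 0) : Fam D β R := by_contra fun k => h (if_neg k)

theorem wt_wD (ok : GOk e a D) (β : ℤ) : Wt (wD e a D β) D where
  disc _ h := (fam_of_wD h).2.1
  inv Q R h := if_ctx_congr ⟨h.symm.fam, h.fam⟩
    (fun k => gw_feq (k.2.1 ▸ ok) h) fun _ => rfl
  bdd := ⟨1, fun R => by unfold wD; split_ifs; exacts [abs_gw_le _ _ _, by simp]⟩

theorem uw_feq (ok : GOk e a (fdisc Q)) (h15 : 15 ∣ Q.1) (h : FEq Q R) : uw e a R = uw e a Q :=
  gw_feq ((scl_fV h15).disc ▸ ok) (feq_fV h15 h)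

theorem wt_wU (ok : GOk e a D) (β : ℤ) : Wt (wU e a D β) D where
  disc _ h := (fam_of_wU h).2.1
  inv Q R h := if_ctx_congr ⟨h.symm.fam, h.fam⟩
    (fun k => uw_feq (k.2.1 ▸ ok) k.1 h) fun _ => rfl
  bdd := ⟨1, fun R => by unfold wU; split_ifs; exacts [abs_gw_le _ _ _, by simp]⟩

theorem uw_cj (e a : ℤ) (Q : Fm) : uw e a (cj Q) = uw e a Q := rfl

end Pool.Agent.Lib.MP_696deb_nt.B3
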