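import Pool.Agent.Lib.MP_696deb_nt.AnLine

/-! Vertical lines against geodesics, for denominators that share primes with the level. -/

set_option autoImplicit false

open Filter Topology Set MeasureTheory UpperHalfPlane Metric CongruenceSubgroup
open scoped Real MatrixGroups ENNReal NNReal

namespace Pool.Agent.Lib.MP_696deb_nt.B3

theorem exists_col {k A : ℤ} (hk : IsCoprime k A) : ∃ b d : ℤ, k * d - b * A = 1 ∧ 15 ∣ A * d := by
  have key : ∀ p : ℤ, Prime p → ∃ h, IsCoprime h A ∧ p ∣ A * h := fun p hp => by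
    by_cases h : p ∣ A
    · exact ⟨1, isCoprime_one_left, h.mul_right _⟩
    · exact ⟨p, hp.coprime_iff_not_dvd.2 h, dvd_mul_left _ _⟩
  obtain ⟨x, x1, x2⟩ := key 3 Int.prime_three
  obtain ⟨y, y1, y2⟩ := key 5 (Int.prime_iff_natAbs_prime.2 (by norm_num))
  obtain ⟨u, v, h⟩ := hk.mul_left (x1.mul_left y1)
  refine ⟨-v, u * (x * y), by linear_combination h, ?_⟩
  have h3 := x2.mul_right (u * y)
  have h5 := y2.mul_right (u * x)
  rw [show A * x * (u * y) = A * (u * (x * y)) by ring] at h3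
  rw [show A * y * (u * x) = A * (u * (x * y)) by ring] at h5
  omega

theorem line_small3 {A : ℤ} (hA : 0 < A) : ∃ g : SL(2, ℤ), ∀ k : ℤ, IsCoprime k A →
    ∃ x : ℝ, ∃ γ ∈ Gamma0 15, ∀ y : ℝ, 0 < y →
      vpt (k / A) y = γ • g • vpt x ((A : ℝ) ^ 2 * y)⁻¹ := by
  obtain ⟨b', d', h', e'⟩ := exists_col (isCoprime_one_left (x := A))
  let g : SL(2, ℤ) := ⟨!![1, b'; A, d'], by rw [Matrix.det_fin_two_of]; exact h'⟩
  refine ⟨g, fun k hk => ?_⟩
  obtain ⟨b, d, h, e⟩ := exists_col hk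
  let g' : SL(2, ℤ) := ⟨!![k, b; A, d], by rw [Matrix.det_fin_two_of]; exact h⟩
  refine ⟨-d / A, g' * g⁻¹, ?_, fun y hy => ?_⟩
  · rw [Gamma0_mem, ZMod.intCast_zmod_eq_zero_iff_dvd, Matrix.SpecialLinearGroup.coe_mul,
      Matrix.SpecialLinearGroup.coe_inv, Matrix.adjugate_fin_two]
    simpa [g, g', Matrix.mul_apply, Fin.sum_univ_two, mul_comm d, ← sub_eq_add_neg] using
      dvd_sub e' e
  · ext1
    rw [smul_smul, inv_mul_cancel_right, coe_smul_eq_mob, coe_vpt _ hy, coe_vpt _ (by positivity),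
      cast_div, ← mob_pth h hA.ne' hy.ne']
    simp [g', pth]

variable {w : Fm → ℤ} {e : ℤ} {κ : ℂ}

theorem cusp_val3 (hw : Geo w e κ) {A k k' : ℤ} (hA : 0 < A) (hk : IsCoprime k A)
    (hk' : IsCoprime k' A) (h0 : ∀ R, w R ≠ 0 → fval R k' A ≠ 0) :
    2 * (κ * ms k A).re - thw w k A = 2 * (κ * ms k' A).re - thw w k' A := by
  obtain ⟨b, d, h, e1⟩ := exists_col hk
  obtain ⟨b', d', h', e2⟩ := exists_col hk'
  obtain ⟨c, hc⟩ := dvd_sub e2 e1
  have h2 : (k * d' - b * A) * (d * k' - A * b') - (b * k' - k * b') * (15 * c) = 1 := by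
    linear_combination (k' * d' - b' * A) * h + h' + (b * k' - k * b') * hc
  have h5 := thw_add hw.toWt hw.ne h2 h0
  have h6 := ms_Gamma0 h2 (x := k') (y := A) (.inr hA.ne')
  have h7 := hw.cls _ _ _ _ h2
  rw [show (k * d' - b * A) * k' + (b * k' - k * b') * A = k by linear_combination k * h',
    show 15 * c * k' + (d * k' - A * b') * A = A by linear_combination A * h' - k' * hc] at h5 h6
  rw [per] at h7
  rw [h5, h6, mul_add, Complex.add_re]
  push_cast at h7 ⊢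
  linarith

theorem cusp_const (hw : Geo w e κ) {A : ℤ} (hA : 0 < A) {S : Finset ℤ} {χ : ℤ → ℤ}
    (hcop : ∀ k ∈ S, χ k ≠ 0 → IsCoprime k A) (hS : ∀ k ∈ S, ∀ R, w R ≠ 0 → fval R k A ≠ 0) :
    ∃ C : ℝ, ∀ k ∈ S, χ k * (2 * (κ * ms k A).re - thw w k A) = χ k * C := by
  by_cases h : ∃ k ∈ S, χ k ≠ 0
  · obtain ⟨k', h1, h2⟩ := h
    refine ⟨2 * (κ * ms k' A).re - thw w k' A, fun k hk => ?_⟩
    by_cases h3 : χ k = 0
    · simp [h3]
    rw [cusp_val3 hw hA (hcop k hk h3) (hcop k' h1 h2) (hS k' h1)]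
  · push Not at h
    exact ⟨0, fun k hk => by simp [h k hk]⟩

theorem tendsto_line3 {u : ℍ → ℝ} (hu : Tame (Gamma0 15) u) {A : ℤ} (hA : 0 < A)
    {S : Finset ℤ} {χ : ℤ → ℤ} (hχ : ∑ k ∈ S, χ k = 0)
    (hcop : ∀ k ∈ S, χ k ≠ 0 → IsCoprime k A) :
    Tendsto (fun ε => ∫ y in Ioi (0 : ℝ), (∑ k ∈ S, χ k * avg ε u (vpt (k / A) y)) / y)
      (𝓝[>] 0) (𝓝 0) := by
  obtain ⟨C, hC0, hC⟩ := hu.lip'
  obtain ⟨g, hg⟩ := line_small3 hA
  have hχ' : ∑ k ∈ S, (χ k : ℝ) = 0 := by exact_mod_cast hχ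
  have h1 : ∀ k ∈ S, ∃ B : ℝ, ∀ ε ∈ Ioc (0 : ℝ) 1, ∀ y : ℝ, 0 < y →
      |χ k * (avg ε u (vpt (k / A) y) - avg ε u (if y ≤ 1 then
        g • vpt 0 ((A : ℝ) ^ 2 * y)⁻¹ else vpt 0 y)) / y| ≤ B * (1 + y ^ 2)⁻¹ := by
    intro k hk
    by_cases h0 : χ k = 0
    · exact ⟨0, by simp [h0]⟩
    obtain ⟨x, γ, hγ, h⟩ := hg k (hcop k hk h0)
    refine ⟨|(χ k : ℝ)| * (2 * C * (|x| * A ^ 2 + |(k / A : ℝ)|)), fun ε hε y hy => ?_⟩
    rw [mul_div_assoc, abs_mul, mul_assoc, abs_div, abs_of_pos hy]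
    refine mul_le_mul_of_nonneg_left ?_ (abs_nonneg _)
    rw [← div_eq_mul_inv, div_le_div_iff₀ hy (by positivity)]
    have h2 := abs_nonneg (k / A : ℝ)
    have h3 : 0 ≤ |x| * (A : ℝ) ^ 2 := by positivity
    split_ifs with h4
    · have h5 := hC ε hε (g • vpt x ((A : ℝ) ^ 2 * y)⁻¹)
        (g • vpt 0 ((A : ℝ) ^ 2 * y)⁻¹)
      have h6 := mul_le_mul_of_nonneg_left
        (dist_vpt x (y := ((A : ℝ) ^ 2 * y)⁻¹) (by positivity)) hC0
      rw [div_inv_eq_mul, ← mul_assoc |x|] at h6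
      rw [dist_smul_int] at h5
      rw [h y hy, avg_inv hu.inv _ hγ]
      refine (mul_le_mul (h5.trans h6) (show 1 + y ^ 2 ≤ 2 by nlinarith) (by positivity)
        (by positivity)).trans ?_
      nlinarith [mul_nonneg (mul_nonneg hC0 h2) hy.le]
    · have h5 := (hC ε hε _ _).trans (mul_le_mul_of_nonneg_left (dist_vpt (k / A) hy) hC0)
      refine (mul_le_mul h5 (show 1 + y ^ 2 ≤ 2 * y * y by nlinarith) (by positivity)
        (by positivity)).trans ?_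
      rw [show C * (|(k / A : ℝ)| / y) * (2 * y * y) = 2 * C * |(k / A : ℝ)| * y by field_simp]
      nlinarith [mul_nonneg (mul_nonneg hC0 h3) hy.le]
  choose! B hB using h1
  have h2 := tendsto_integral_filter_of_dominated_convergence (μ := volume.restrict (Ioi (0 : ℝ)))
    (l := 𝓝[>] (0 : ℝ)) (F := fun ε y => (∑ k ∈ S, χ k * avg ε u (vpt (k / A) y)) / y)
    (f := fun _ => 0) (fun y => (∑ k ∈ S, B k) * (1 + y ^ 2)⁻¹) (by
      filter_upwards [self_mem_nhdsWithin] with ε hε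
      exact ((Finset.measurable_fun_sum _ fun k _ => ((hu.continuous_avg hε).measurable.comp
        (measurable_vpt _)).const_mul _).div measurable_id).aestronglyMeasurable) (by
      filter_upwards [Ioc_mem_nhdsGT one_pos] with ε hε
      refine ae_restrict_of_forall_mem measurableSet_Ioi fun y hy => ?_
      rw [Finset.sum_mul]
      refine le_trans (le_of_eq ?_) ((Finset.abs_sum_le_sum_abs _ _).trans
        (Finset.sum_le_sum fun k hk => hB k hk ε hε y hy))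
      simp only [mul_sub, ← Finset.sum_div, Finset.sum_sub_distrib, ← Finset.sum_mul, hχ',
        zero_mul, sub_zero, Real.norm_eq_abs])
    (integrable_inv_one_add_sq.const_mul _).integrableOn (.of_forall fun y => by
      simpa using (hu.tendsto_sum S (fun k => (χ k : ℝ)) (fun k => vpt (k / A) y) hχ').div_const y)
  simpa using h2

theorem integral_psi3 (hw : Geo w e κ) {A : ℤ} (hA : 0 < A)
    {S : Finset ℤ} {χ : ℤ → ℤ} (hχ : ∑ k ∈ S, χ k = 0) (hcop : ∀ k ∈ S, χ k ≠ 0 → IsCoprime k A)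
    (hS : ∀ k ∈ S, ∀ R, w R ≠ 0 → fval R k A ≠ 0) (hL : ∑ k ∈ S, χ k * ms k A = 0) :
    IntegrableOn (fun y : ℝ => (∑ k ∈ S, χ k * psiG w κ (vpt (k / A) y)) / y) (Ioi 0) ∧
    ∫ y in Ioi (0 : ℝ), (∑ k ∈ S, χ k * psiG w κ (vpt (k / A) y)) / y =
      (κ * deriv (fun s => ∑ k ∈ S, χ k * Ladd k A s) 1).re -
        ∑ k ∈ S, χ k * ∑ᶠ R : Fm, if R.1 * fval R k A < 0 then
          (w R * R.1.sign : ℝ) * (Real.log |(fval R k A : ℝ)| - Real.log |(R.1 : ℝ)|) / 2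
          else 0 := by
  have hA' : (0 : ℝ) < A := by exact_mod_cast hA
  choose! s hs hI using fun k (hk : k ∈ S) => hw.Iw_line hA k (hS k hk)
  obtain ⟨C, hC⟩ := cusp_const hw hA hcop hS
  have h0 : ∑ i ∈ S.sigma s, (χ i.1 * (w i.2 * i.2.1.sign) : ℝ) = 0 := by
    have h1 : ∀ k ∈ S, (thw w k A : ℝ) = 2 * ∑ R ∈ s k, (w R * R.1.sign : ℝ) := fun k hk => by
      rw [thw, finsum_eq_sum_of_support_subset (s := s k) _ fun R hR =>
        (hs k hk R).mpr (thw_support hw.ne (hS k hk) hR), Int.cast_sum, Finset.mul_sum]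
      refine Finset.sum_congr rfl fun R hR => ?_
      rw [isign_of_mul_neg ((hs k hk R).mp hR).2]
      push_cast
      ring
    have h2 : ∑ k ∈ S, (χ k : ℝ) * (κ * ms k A).re = 0 := by
      have := congrArg (fun z => (κ * z).re) hL
      simpa only [Finset.mul_sum, Complex.re_sum, mul_left_comm κ, ← Complex.ofReal_intCast,
        Complex.re_ofReal_mul, mul_zero, Complex.zero_re] using this
    have h3 : ∑ k ∈ S, (χ k : ℝ) = 0 := by exact_mod_cast hχ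
    rw [Finset.sum_sigma, Finset.sum_congr rfl (g := fun k => (χ k : ℝ) * (κ * ms k A).re -
      χ k * (C / 2)) fun k hk => ?_, Finset.sum_sub_distrib, h2,
      ← Finset.sum_mul, h3, zero_mul, sub_zero]
    have h4 := hC k hk
    rw [h1 k hk] at h4
    simp only [← Finset.mul_sum]
    linear_combination (-1 / 2) * h4
  have hp : ∀ i ∈ S.sigma s, (fval i.2 i.1 A : ℝ) ≠ 0 ∧ (i.2.1 : ℝ) ≠ 0 := fun i hi => by
    obtain ⟨h1, h2⟩ := Finset.mem_sigma.mp hi
    have h3 := ((hs _ h1 _).mp h2).2.ne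
    exact ⟨by exact_mod_cast right_ne_zero_of_mul h3, by exact_mod_cast left_ne_zero_of_mul h3⟩
  obtain ⟨h1, h2⟩ := integral_steps (S.sigma s) (fun i => (χ i.1 * (w i.2 * i.2.1.sign) : ℝ))
    (fun i => |(fval i.2 i.1 A : ℝ)| / (|(i.2.1 : ℝ)| * A ^ 2)) (fun i hi => by
      have := abs_pos.mpr (hp i hi).1
      have := abs_pos.mpr (hp i hi).2
      positivity) h0
  obtain ⟨h3, h4⟩ := integral_Fi_line hA.ne' hL
  have h5 := (h3.const_mul κ).re
  have h6 : EqOn (fun y : ℝ => (∑ k ∈ S, χ k * psiG w κ (vpt (k / A) y)) / y)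
      (fun y : ℝ => RCLike.re (κ * ((∑ k ∈ S, χ k * Fi (k / A + y * Complex.I)) / y)) -
        (∑ i ∈ S.sigma s, (χ i.1 * (w i.2 * i.2.1.sign) : ℝ) * (1 - Real.sign (y ^ 2 -
          |(fval i.2 i.1 A : ℝ)| / (|(i.2.1 : ℝ)| * A ^ 2))) / 2) / y) (Ioi 0) := fun y hy => by
    simp only [RCLike.re_to_complex]
    rw [← mul_div_assoc, Complex.div_ofReal_re, ← sub_div, Finset.sum_sigma, Finset.mul_sum,
      Complex.re_sum, ← Finset.sum_sub_distrib]
    congr 1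
    refine Finset.sum_congr rfl fun k hk => ?_
    rw [coe_vpt _ hy, cast_div, psiG, hI k hk y hy, mul_left_comm κ, ← Complex.ofReal_intCast (χ k),
      Complex.re_ofReal_mul, mul_sub, Finset.mul_sum]
    congr 1
    exact Finset.sum_congr rfl fun R _ => by ring
  refine ⟨(integrableOn_congr_fun h6 measurableSet_Ioi).mpr (h5.sub h1), ?_⟩
  rw [setIntegral_congr_fun measurableSet_Ioi h6, integral_sub h5 h1, h2,
    integral_re (h3.const_mul κ), integral_const_mul, h4, RCLike.re_to_complex,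
    Finset.sum_congr rfl (g := fun i => (χ i.1 * (w i.2 * i.2.1.sign) : ℝ) *
      (Real.log |(fval i.2 i.1 A : ℝ)| - Real.log |(i.2.1 : ℝ)|) / 2 -
      (χ i.1 * (w i.2 * i.2.1.sign) : ℝ) * (Real.log (A ^ 2) / 2)) fun i hi => ?_,
    Finset.sum_sub_distrib, ← Finset.sum_mul, h0, zero_mul, sub_zero, Finset.sum_sigma]
  · congr 1
    refine Finset.sum_congr rfl fun k hk => ?_
    rw [finsum_eq_sum_of_support_subset (s := s k) _ fun R hR => ?_, Finset.mul_sum]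
    · refine Finset.sum_congr rfl fun R hR => ?_
      rw [if_pos ((hs k hk R).mp hR).2]
      ring
    · rw [Function.mem_support, ne_eq, ite_eq_right_iff, Classical.not_imp] at hR
      exact (hs k hk R).mpr ⟨fun h => hR.2 (by simp [h]), hR.1⟩
  · have h7 := abs_ne_zero.mpr (hp i hi).1
    have h8 := abs_ne_zero.mpr (hp i hi).2
    rw [Real.log_div h7 (by positivity), Real.log_mul h8 (by positivity)]
    ring

theorem geo_line3' (hw : Geo w e κ) {A : ℤ} (hA : 0 < A)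
    {S : Finset ℤ} {χ : ℤ → ℤ} (hχ : ∑ k ∈ S, χ k = 0)
    (hcop : ∀ k ∈ S, χ k ≠ 0 → IsCoprime k A)
    (hS : ∀ k ∈ S, ∀ R, w R ≠ 0 → fval R k A ≠ 0) (hL : ∑ k ∈ S, χ k * ms k A = 0) :
    (∀ ε : ℝ, 0 < ε → Summable fun t : ℕ =>
      ((cntL A S χ w t + cntL A S χ w (-t) : ℤ) : ℝ) * kerK ε (t / (A * √(e : ℝ)))) ∧
    Tendsto (fun ε : ℝ => ∑' t : ℕ,
      ((cntL A S χ w t + cntL A S χ w (-t) : ℤ) : ℝ) * kerK ε (t / (A * √(e : ℝ)))) (𝓝[>] 0)
      (𝓝 ((κ * deriv (fun s => ∑ k ∈ S, χ k * Ladd k A s) 1).re -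
        ∑ k ∈ S, χ k * ∑ᶠ R : Fm, if R.1 * fval R k A < 0 then
          (w R * R.1.sign : ℝ) * (Real.log |(fval R k A : ℝ)| - Real.log |(R.1 : ℝ)|) / 2
          else 0)) := by
  obtain ⟨h1, h2⟩ := integral_psi3 hw hA hχ hcop hS hL
  have key : ∀ ε : ℝ, 0 < ε → HasSum (fun t : ℕ =>
      ((cntL A S χ w t + cntL A S χ w (-t) : ℤ) : ℝ) * kerK ε (t / (A * √(e : ℝ))))
      ((∫ y in Ioi (0 : ℝ), (∑ k ∈ S, χ k * psiG w κ (vpt (k / A) y)) / y) - ∫ y in Ioi (0 : ℝ),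
        (∑ k ∈ S, χ k * avg ε (fun v => psiG w κ v) (vpt (k / A) y)) / y) := fun ε hε => by
    have h3 := fun k (hk : k ∈ S) => hw.hasSum_line hA (hS k hk) hε
    have h4 := (hasSum_sum fun k hk => (h3 k hk).2.mul_left (χ k : ℝ)).nat_add_neg
    have h5 := integrable_finsetSum S fun k hk => (h3 k hk).1.const_mul (χ k : ℝ)
    have h6 : ∀ y : ℝ, (∑ k ∈ S, χ k * avg ε (fun v => psiG w κ v) (vpt (k / A) y)) / y =
        (∑ k ∈ S, χ k * psiG w κ (vpt (k / A) y)) / y - ∑ k ∈ S, χ k * ((psiG w κ (vpt (k / A) y) -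
          avg ε (fun v => psiG w κ v) (vpt (k / A) y)) / y) := fun y => by
      simp only [← mul_div_assoc, ← Finset.sum_div, ← sub_div, ← Finset.sum_sub_distrib]
      congr 1
      exact Finset.sum_congr rfl fun k _ => by ring
    simp only [h6]
    rw [integral_sub h1 h5, sub_sub_cancel, integral_finsetSum S fun k hk =>
      (h3 k hk).1.const_mul (χ k : ℝ)]
    convert! h4 using 1
    · funext t
      simp only [cntL, Int.cast_add, Int.cast_sum, Int.cast_mul, add_mul, Finset.sum_mul, mul_assoc,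
        Int.cast_neg, Int.cast_natCast, abs_neg, Nat.abs_cast]
    · simp [integral_const_mul, kerK]
  refine ⟨fun ε hε => (key ε hε).summable, ?_⟩
  have h3 := (tendsto_line3 hw.tame hA hχ hcop).const_sub
    (∫ y in Ioi (0 : ℝ), (∑ k ∈ S, χ k * psiG w κ (vpt (k / A) y)) / y)
  rw [sub_zero] at h3
  rw [← h2]
  refine h3.congr' ?_
  filter_upwards [self_mem_nhdsWithin] with ε hε
  rw [(key ε hε).tsum_eq]

theorem geo_cross3' (hw : Geo w e κ) {A : ℤ} (hA : 0 < A)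
    {S : Finset ℤ} {χ : ℤ → ℤ} (hχ : ∑ k ∈ S, χ k = 0) (hcop : ∀ k ∈ S, χ k ≠ 0 → IsCoprime k A)
    (hS : ∀ k ∈ S, ∀ R, w R ≠ 0 → fval R k A ≠ 0) :
    (κ * ∑ k ∈ S, χ k * ms k A).re =
      ∑ᶠ t : ℤ, if t ^ 2 < A ^ 2 * e then (cntL A S χ w t : ℝ) else 0 := by
  classical
  obtain ⟨C, hC⟩ := cusp_const hw hA hcop hS
  set T : Finset ℤ := (Finset.Icc (-(A ^ 2 * e)) (A ^ 2 * e)).filter fun t => t ^ 2 < A ^ 2 * e
    with hT
  have hTm : ∀ t, t ∈ T ↔ t ^ 2 < A ^ 2 * e := fun t => by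
    rw [hT, Finset.mem_filter, Finset.mem_Icc, and_iff_right_iff_imp, ← abs_le]
    intro h
    have := Int.le_self_sq |t|
    rw [sq_abs] at this
    linarith
  have h1 : ∀ k ∈ S, 2 * ∑ t ∈ T, ∑ᶠ R : Fm,
      (if fbil (0, A, -k) R = t then w R * R.1.sign else 0) = thw w k A := by
    intro k hk
    have hf := finite_cross (x := k) (y := A) hw.toWt
    have h2 : ∀ R, w R ≠ 0 → (fbil (0, A, -k) R ∈ T ↔ R.1 * fval R k A < 0) := fun R hR => by
      have := fbil_line A k R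
      rw [hw.disc R hR] at this
      rw [hTm]
      constructor <;> intro h <;> linarith
    rw [thw, finsum_eq_sum_of_support_subset (s := hf.toFinset) _
      (by rw [hf.coe_toFinset]; exact thw_support hw.ne (hS k hk)),
      Finset.sum_congr rfl (g := fun t => ∑ R ∈ hf.toFinset,
        if fbil (0, A, -k) R = t then w R * R.1.sign else 0) fun t ht => ?_, Finset.sum_comm,
      Finset.mul_sum]
    · refine Finset.sum_congr rfl fun R hR => ?_
      obtain ⟨h3, h4⟩ := hf.mem_toFinset.1 hR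
      rw [Finset.sum_ite_eq, if_pos ((h2 R h3).2 h4), isign_of_mul_neg h4]
      ring
    · refine finsum_eq_sum_of_support_subset _ fun R hR => ?_
      have h3 : fbil (0, A, -k) R = t := by by_contra h'; exact hR (if_neg h')
      have h4 : w R ≠ 0 := by
        intro h'
        apply hR
        simp [h']
      exact hf.mem_toFinset.2 ⟨h4, (h2 R h4).1 (h3 ▸ ht)⟩
  rw [finsum_eq_sum_of_support_subset (s := T) _ fun t ht => by
    rw [Finset.mem_coe, hTm]; by_contra h'; exact ht (if_neg h'),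
    Finset.sum_congr rfl (g := fun t => (cntL A S χ w t : ℝ)) fun t ht => if_pos ((hTm t).1 ht)]
  have h3 : 2 * ∑ t ∈ T, cntL A S χ w t = ∑ k ∈ S, χ k * thw w k A := by
    simp only [cntL]
    rw [Finset.sum_comm, Finset.mul_sum]
    refine Finset.sum_congr rfl fun k hk => ?_
    rw [← Finset.mul_sum, ← h1 k hk]
    ring
  have h4 : (2 : ℝ) * ∑ t ∈ T, (cntL A S χ w t : ℝ) = ∑ k ∈ S, (χ k : ℝ) * thw w k A := by
    exact_mod_cast h3
  have h5 : (∑ k ∈ S, (χ k : ℝ)) = 0 := by exact_mod_cast hχ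
  apply mul_left_cancel₀ (two_ne_zero (α := ℝ))
  rw [h4, Finset.mul_sum, Complex.re_sum, Finset.mul_sum, ← sub_eq_zero, ← Finset.sum_sub_distrib,
    Finset.sum_congr rfl (g := fun k => (χ k : ℝ) * C)
      fun k hk => ?_, ← Finset.sum_mul, h5, zero_mul]
  rw [← hC k hk, mul_left_comm κ]
  simp only [Complex.mul_re, Complex.intCast_re, Complex.intCast_im, zero_mul, sub_zero]
  ring

theorem sum_supp {M : Type} [AddCommMonoid M] (S : Finset ℤ) (χ : ℤ → ℤ) {f : ℤ → M}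
    (h : ∀ k, χ k = 0 → f k = 0) : ∑ k ∈ S with χ k ≠ 0, f k = ∑ k ∈ S, f k :=
  Finset.sum_filter_of_ne fun k _ hk h0 => hk (h k h0)

theorem cntL_supp (A : ℤ) (S : Finset ℤ) (χ : ℤ → ℤ) (w : Fm → ℤ) (t : ℤ) :
    cntL A (S.filter fun k => χ k ≠ 0) χ w t = cntL A S χ w t :=
  sum_supp S χ fun k h => by rw [h, zero_mul]

/-- Vertical lines against geodesics. -/
theorem geo_line3 (hw : Geo w e κ) {A : ℤ} (hA : 0 < A) {S : Finset ℤ} {χ : ℤ → ℤ}
    (hχ : ∑ k ∈ S, χ k = 0) (hcop : ∀ k ∈ S, χ k ≠ 0 → IsCoprime k A)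
    (hS : ∀ k ∈ S, χ k ≠ 0 → ∀ R, w R ≠ 0 → fval R k A ≠ 0) (hL : ∑ k ∈ S, χ k * ms k A = 0) :
    (∀ ε : ℝ, 0 < ε → Summable fun t : ℕ =>
      ((cntL A S χ w t + cntL A S χ w (-t) : ℤ) : ℝ) * kerK ε (t / (A * √(e : ℝ)))) ∧
    Tendsto (fun ε : ℝ => ∑' t : ℕ,
      ((cntL A S χ w t + cntL A S χ w (-t) : ℤ) : ℝ) * kerK ε (t / (A * √(e : ℝ)))) (𝓝[>] 0)
      (𝓝 ((κ * deriv (fun s => ∑ k ∈ S, χ k * Ladd k A s) 1).re -
        ∑ k ∈ S, χ k * ∑ᶠ R : Fm, if R.1 * fval R k A < 0 then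
          (w R * R.1.sign : ℝ) * (Real.log |(fval R k A : ℝ)| - Real.log |(R.1 : ℝ)|) / 2
          else 0)) := by
  have h := geo_line3' hw hA (S := S.filter fun k => χ k ≠ 0) (χ := χ)
    (by rw [sum_supp S χ fun _ h => h, hχ]) (fun k hk => hcop k (Finset.mem_filter.1 hk).1)
    (fun k hk => hS k (Finset.mem_filter.1 hk).1 (Finset.mem_filter.1 hk).2)
    (by rw [sum_supp S χ fun _ h => by simp [h], hL])
  have h1 : ∀ s, ∑ k ∈ S with χ k ≠ 0, (χ k : ℂ) * Ladd k A s = ∑ k ∈ S, χ k * Ladd k A s :=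
    fun s => sum_supp S χ fun _ h => by simp [h]
  simp only [cntL_supp, h1] at h
  rwa [sum_supp S χ fun _ h => by simp [h]] at h

/-- The class is read off from crossing numbers. -/
theorem geo_cross3 (hw : Geo w e κ) {A : ℤ} (hA : 0 < A) {S : Finset ℤ} {χ : ℤ → ℤ}
    (hχ : ∑ k ∈ S, χ k = 0) (hcop : ∀ k ∈ S, χ k ≠ 0 → IsCoprime k A)
    (hS : ∀ k ∈ S, χ k ≠ 0 → ∀ R, w R ≠ 0 → fval R k A ≠ 0) :
    (κ * ∑ k ∈ S, χ k * ms k A).re =
      ∑ᶠ t : ℤ, if t ^ 2 < A ^ 2 * e then (cntL A S χ w t : ℝ) else 0 := by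
  have h := geo_cross3' hw hA (S := S.filter fun k => χ k ≠ 0) (χ := χ)
    (by rw [sum_supp S χ fun _ h => h, hχ]) (fun k hk => hcop k (Finset.mem_filter.1 hk).1)
    (fun k hk => hS k (Finset.mem_filter.1 hk).1 (Finset.mem_filter.1 hk).2)
  simp only [cntL_supp] at h
  rwa [sum_supp S χ fun _ h => by simp [h]] at h

end Pool.Agent.Lib.MP_696deb_nt.B3
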