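import Pool.Agent.Lib.MP_696deb_nt.B2.GF

/-! The sign of the functional equation is equidistributed among all squarefree twists. -/

set_option autoImplicit false

open scoped Classical
open Finset Filter Topology NumberTheorySymbols

namespace Pool.Agent.Lib.MP_696deb_nt.B3

/-- The finite part of the root number. -/
def rt0 (d : ℤ) : ℤ := (if 3 ∣ d then 1 else J(d | 3)) * (if 5 ∣ d then -1 else J(d | 5))

/-- The root number of the twist by a squarefree integer. -/
def rootNo (d : ℤ) : ℤ := d.sign * rt0 d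

theorem rt0_emod (d : ℤ) : rt0 d = rt0 (d % 15) := by
  unfold rt0
  have h3 : J(d | 3) = J(d % 15 | 3) := jacobiSym.mod_left' (by push_cast; omega)
  have h5 : J(d | 5) = J(d % 15 | 5) := jacobiSym.mod_left' (by push_cast; omega)
  rw [h3, h5]
  congr 1 <;> exact if_congr (by omega) rfl rfl

theorem rt0_cases (d : ℤ) : rt0 d = 1 ∨ rt0 d = -1 := by
  rw [rt0_emod]
  have h1 : 0 ≤ d % 15 := by omega
  have h2 : d % 15 < 15 := by omega
  generalize d % 15 = x at h1 h2
  interval_cases x <;> simp only [rt0] <;> norm_num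

theorem rootNo_cases {d : ℤ} (h : d ≠ 0) : rootNo d = 1 ∨ rootNo d = -1 := by
  unfold rootNo
  rcases lt_or_gt_of_ne h with k | k
  · rw [Int.sign_eq_neg_one_of_neg k]
    rcases rt0_cases d with e | e <;> simp [e]
  · rw [Int.sign_eq_one_of_pos k, one_mul]
    exact rt0_cases d

/-- Half the sum of the root numbers of `N` and `-N`. -/
noncomputable def psi (N : ℤ) : ℝ := ((rt0 N : ℝ) - rt0 (-N)) / 2

theorem psi_abs (N : ℤ) : |psi N| ≤ 1 := by
  unfold psi
  rcases rt0_cases N with h | h <;> rcases rt0_cases (-N) with k | k <;> rw [h, k] <;> norm_num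

theorem psi_neg (N : ℤ) : psi (-N) = -psi N := by
  unfold psi
  rw [neg_neg]
  ring

theorem psi_add (N k : ℤ) : psi (N + 15 * k) = psi N := by
  unfold psi
  rw [rt0_emod (N + _), rt0_emod (-(N + _)), rt0_emod N, rt0_emod (-N)]
  congr 3 <;> congr 1 <;> omega

/-- The sieved function. -/
noncomputable def cG (K : ℕ) (N : ℤ) : ℝ :=
  if ∀ p ≤ K, p.Prime → ¬ ((p * p : ℕ) : ℤ) ∣ N then psi N else 0

theorem cG_neg (K : ℕ) (N : ℤ) : cG K (-N) = -cG K N := by
  unfold cG
  simp only [dvd_neg, psi_neg]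
  split_ifs <;> simp

theorem cG_add (K : ℕ) (N : ℤ) : cG K (N + (15 * (K.factorial * K.factorial) : ℕ)) = cG K N := by
  unfold cG
  rw [Nat.cast_mul 15, Nat.cast_ofNat, psi_add]
  refine if_congr (forall_congr' fun p => forall_congr' fun h => forall_congr' fun hp => ?_) rfl rfl
  have := Nat.dvd_factorial hp.pos h
  rw [dvd_add_left (Dvd.dvd.mul_left (Int.natCast_dvd_natCast.2 (Nat.mul_dvd_mul this this)) _)]

theorem cG_sum (K : ℕ) : ∃ C : ℝ, ∀ X, |∑ N ∈ range X, cG K ((N : ℕ) : ℤ)| ≤ C := by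
  have hA := cG_add K
  have M0 : 0 < 15 * (K.factorial * K.factorial) := by positivity
  generalize 15 * (K.factorial * K.factorial) = M at hA M0
  refine ⟨M, B2.gf_per (f := fun N : ℕ => cG K N) M0 (fun N => by rw [Nat.cast_add, hA]) ?_
    fun N => ?_⟩
  · have h1 : ∑ N ∈ range (M + 1), cG K ((N : ℕ) : ℤ) =
        -∑ N ∈ range (M + 1), cG K ((N : ℕ) : ℤ) := by
      conv_lhs => rw [← sum_range_reflect]
      rw [← sum_neg_distrib]
      refine sum_congr rfl fun N hN => ?_
      rw [mem_range] at hN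
      rw [← cG_neg, ← hA (-N)]
      congr 1
      omega
    have h2 : cG K (M : ℕ) = 0 := by
      have h3 := cG_neg K 0
      have h4 := hA 0
      rw [neg_zero] at h3
      rw [zero_add] at h4
      linarith
    rw [sum_range_succ, h2] at h1
    linarith
  · unfold cG
    split_ifs
    exacts [psi_abs _, by simp]

/-- Squarefree natural numbers up to a bound. -/
noncomputable def cS (X : ℕ) : Finset ℕ := (range (X + 1)).filter Squarefree

theorem c_small {δ : ℝ} (hδ : 0 < δ) :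
    ∀ᶠ X : ℕ in atTop, |∑ N ∈ cS X, psi (N : ℕ)| ≤ δ * X := by
  obtain ⟨K, hK⟩ := exists_nat_gt (2 / δ)
  have K0 : (0 : ℝ) < K := (by positivity : 0 < 2 / δ).trans hK
  obtain ⟨C, hC⟩ := cG_sum K
  filter_upwards [(tendsto_natCast_atTop_atTop (R := ℝ)).eventually_ge_atTop (2 * C / δ)] with X hX
  have h1 := B2.gf_bad (K := K) (by rintro rfl; simp at K0) X
  have h2 : ∀ N : ℕ, |(if Squarefree N then psi N else 0) - cG K N| ≤
      if N ≠ 0 ∧ ∃ k, K < k ∧ k * k ∣ N then 1 else 0 := fun N => by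
    by_cases h4 : Squarefree N
    · rw [if_pos h4, cG, if_pos fun p _ hp k => Nat.squarefree_iff_prime_squarefree.1 h4 p hp
        (Int.natCast_dvd_natCast.1 k), sub_self, abs_zero]
      split_ifs <;> norm_num
    rw [if_neg h4, zero_sub, abs_neg, cG]
    by_cases h5 : ∀ p ≤ K, p.Prime → ¬ ((p * p : ℕ) : ℤ) ∣ (N : ℤ)
    · rw [if_pos h5]
      rcases eq_or_ne N 0 with rfl | h0
      · have := psi_neg 0
        rw [neg_zero] at this
        rw [Nat.cast_zero, show psi 0 = 0 by linarith, abs_zero]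
        split_ifs <;> norm_num
      rw [if_pos]
      · exact psi_abs N
      rw [Nat.squarefree_iff_prime_squarefree] at h4
      push Not at h4
      obtain ⟨p, hp, h6⟩ := h4
      exact ⟨h0, p, not_le.1 fun k => h5 p k hp (Int.natCast_dvd_natCast.2 h6), h6⟩
    · rw [if_neg h5, abs_zero]
      split_ifs <;> norm_num
  have h3 := (abs_sum_le_sum_abs _ (range (X + 1))).trans (sum_le_sum fun N _ => h2 N)
  rw [sum_sub_distrib, sum_boole, ← sum_filter] at h3
  have h4 := hC (X + 1)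
  have h5 : (X : ℝ) / K ≤ δ / 2 * X := by
    rw [div_le_iff₀ K0]
    rw [div_lt_iff₀ hδ] at hK
    have : (0 : ℝ) ≤ X := Nat.cast_nonneg _
    nlinarith
  rw [div_le_iff₀ hδ] at hX
  unfold cS
  rw [abs_le] at h3 h4 ⊢
  constructor <;> linarith [h3.1, h3.2, h4.1, h4.2]

/-- Squarefree integers up to a bound. -/
noncomputable def cF (X : ℕ) : Finset ℤ := (Icc (-(X : ℤ)) X).filter Squarefree

theorem c_sum (X : ℕ) (f : ℤ → ℝ) :
    ∑ d ∈ cF X, f d = ∑ N ∈ cS X, (f (N : ℕ) + f (-(N : ℕ))) := by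
  have e : cF X = (cS X).image (fun N : ℕ => (N : ℤ)) ∪ (cS X).image fun N : ℕ => -(N : ℤ) := by
    ext d
    simp only [cF, cS, mem_filter, mem_Icc, mem_union, mem_image, mem_range]
    constructor
    · rintro ⟨h1, h2⟩
      have h3 := Int.squarefree_natAbs.2 h2
      rcases le_total 0 d with h | h
      · exact .inl ⟨d.natAbs, ⟨by omega, h3⟩, by omega⟩
      · exact .inr ⟨d.natAbs, ⟨by omega, h3⟩, by omega⟩
    · rintro (⟨N, ⟨h1, h2⟩, rfl⟩ | ⟨N, ⟨h1, h2⟩, rfl⟩) <;>
        exact ⟨by omega, Int.squarefree_natAbs.1 (by simpa using h2)⟩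
  rw [e, sum_union, sum_image fun a _ b _ h => by simpa using h,
    sum_image fun a _ b _ h => by simpa using h, sum_add_distrib]
  simp only [disjoint_left, mem_image, cS, mem_filter]
  rintro _ ⟨N, ⟨-, h⟩, rfl⟩ ⟨M, -, k⟩
  have := h.ne_zero
  omega

/-- Half of the squarefree integers have root number one. -/
theorem half_all {P : ℕ → ℤ → Prop} (hd : ∀ d, P 0 d → ¬ P 1 d)
    (h : ∀ ε : ℝ, 0 < ε → ∃ X0 : ℕ, ∀ X ≥ X0, (((Icc (-(X : ℤ)) X).filter fun d =>
      Squarefree d ∧ ¬ P (if rootNo d = 1 then 0 else 1) d).card : ℝ) ≤ ε * X)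
    {r : ℕ} (hr : r ≤ 1) :
    Tendsto (fun X : ℕ => (Set.ncard {d : ℤ | |d| ≤ X ∧ Squarefree d ∧ P r d} : ℝ) /
      (Set.ncard {d : ℤ | |d| ≤ X ∧ Squarefree d} : ℝ)) atTop (𝓝 (1 / 2)) := by
  rw [Metric.tendsto_nhds]
  intro ε hε
  obtain ⟨X0, h0⟩ := h (ε / 100) (by positivity)
  filter_upwards [eventually_ge_atTop X0, c_small (δ := ε / 200) (by positivity),
    (tendsto_natCast_atTop_atTop (R := ℝ)).eventually_ge_atTop 600] with X h1 h2 h3
  have e1 : {d : ℤ | |d| ≤ X ∧ Squarefree d ∧ P r d} = ↑((cF X).filter (P r)) := by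
    ext d
    simp [cF, abs_le, and_assoc]
  have e2 : {d : ℤ | |d| ≤ X ∧ Squarefree d} = ↑(cF X) := by
    ext d
    simp [cF, abs_le, and_assoc]
  rw [e1, e2, Set.ncard_coe_finset, Set.ncard_coe_finset, Real.dist_eq]
  have b := h0 X h1
  rw [← filter_filter, ← cF, ← sum_boole] at b
  have c : ((B2.gfS X).card : ℝ) ≤ (cF X).card := by
    refine Nat.cast_le.2 (card_le_card_of_injOn (fun N : ℕ => (N : ℤ)) (fun N hN => ?_)
      fun a _ b _ h => by simpa using h)
    simp only [B2.gfS, cF, coe_filter, mem_range, mem_Icc, Set.mem_ofPred_eq] at hN ⊢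
    exact ⟨by omega, Int.squarefree_natCast.2 hN.2.1⟩
  have g := (B2.gf_big X).trans c
  have s : ∑ d ∈ cF X, (rootNo d : ℝ) = 2 * ∑ N ∈ cS X, psi (N : ℕ) := by
    rw [c_sum, mul_sum]
    refine sum_congr rfl fun N hN => ?_
    have := (mem_filter.1 hN).2.ne_zero
    rw [rootNo, rootNo, Int.sign_eq_one_of_pos (by omega), Int.sign_eq_neg_one_of_neg (by omega),
      psi]
    push_cast
    ring
  rw [abs_le] at h2
  have k : ∀ d ∈ cF X, |(if P r d then (1 : ℝ) else 0) - 1 / 2 - (1 / 2 - r) * rootNo d| ≤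
      if ¬ P (if rootNo d = 1 then 0 else 1) d then 1 else 0 := fun d hd' => by
    have j := rootNo_cases (mem_filter.1 hd').2.ne_zero
    have := hd d
    interval_cases r <;> rcases j with j | j <;> by_cases p0 : P 0 d <;> by_cases p1 : P 1 d <;>
      simp only [j, p0, p1, forall_const, not_true_eq_false] at this ⊢ <;> norm_num [p0, p1]
  have k2 := ((abs_sum_le_sum_abs _ _).trans (sum_le_sum k)).trans b
  rw [sum_sub_distrib, sum_sub_distrib, sum_boole, ← mul_sum, sum_const, nsmul_eq_mul,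
    abs_le, s] at k2
  have a0 : (0 : ℝ) < (cF X).card := by linarith
  have r2 : |(1 / 2 - (r : ℝ)) * (2 * ∑ N ∈ cS X, psi (N : ℕ))| ≤ ε / 100 * X := by
    interval_cases r <;> rw [abs_le] <;> push_cast <;> constructor <;> nlinarith [h2.1, h2.2]
  rw [abs_le] at r2
  have a1 : ε * X ≤ ε * (20 * (cF X).card) := mul_le_mul_of_nonneg_left (by linarith) hε.le
  have a2 := mul_pos hε a0
  rw [abs_lt, lt_sub_iff_add_lt, sub_lt_iff_lt_add, lt_div_iff₀ a0, div_lt_iff₀ a0]
  constructor <;> nlinarith [k2.1, k2.2, r2.1, r2.2]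

end Pool.Agent.Lib.MP_696deb_nt.B3
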