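import Pool.Agent.Lib.MP_696deb_nt.B2.Ctx

/-! Twisted Tate modules and Euler systems of Heegner points for characters that ramify above
two, three and five. -/

set_option autoImplicit false

open scoped NNReal Classical
open Finset Matrix NumberTheorySymbols

namespace Pool.Agent.Lib.MP_696deb_nt.B3

open B2

/-- What is used of the Tate module twisted by the character of a divisor `f` of thirty. -/
structure Twf (T : B2.Tate) (f : ℤ) : Prop where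
  dvd : f ∣ 30
  ker8 : ∀ (x : ℤ) (g : Gam), x ∣ 30 → mred 3 (T.ρ g) = 1 → chi x g = 1
  fix : ∀ (m : ℕ) (P : EE), 2 ^ m • P = 0 → (∀ g ∈ I30, tw f g P = P) → 4 • P = 0
  iso : ∀ (n m : ℕ) (w : Plc) (x y : Gam → Fin 2 → ZMod (2 ^ m)) (S S' : EE), n % 8 = 3 →
    w.p = 2 → (∀ g ∈ GK n ⊓ Dec w, T.emb m (x g) = tw f g S - S) →
    (∀ g ∈ GK n ⊓ Dec w, T.emb m (y g) = tw f g S' - S') →
    Spl m (GK n ⊓ Dec w) fun g h => det2 (x g) ((chi f g : ℤ) • (mred m (T.ρ g) *ᵥ y h))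
  kumc : ∀ (n : ℕ) (w : Plc), n % 8 = 3 → w.p = 2 → (16 : ℕ∞) ≤
    Set.encard {c : Gam → Fin 2 → ZMod (2 ^ 1) | (∀ g ∉ GK n ⊓ Dec w, c g = 0) ∧
      ∃ S : EE, ∀ g ∈ GK n ⊓ Dec w, T.emb 1 (c g) = tw f g S - S}
  kum2 : ∀ (n : ℕ) (w : Plc) (α β : Gam → ZMod (2 ^ 1)) (S : EE), n % 8 = 3 → w.p = 2 →
    f % 4 ≠ 1 → (∀ g ∈ GK n ⊓ Dec w, tw f g S - S = (α g).val • T2 + (β g).val • T1) →
    (∃ s : ZMod (2 ^ 1), ∀ g ∈ GK n ⊓ Dec w, α g = s * xi f g) ∧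
      Spl 1 (GK n ⊓ Dec w) fun g h => xi f g * β h
  kumr : ∀ (n : ℕ) (w : Plc) (c : ℤ), n % 8 = 3 → w.p = 2 → f % 4 ≠ 1 → c ≠ 0 →
    ∃ S : EE, ∀ g ∈ GK n ⊓ Dec w, tw f g S - S = (xi c g).val • T1

/-- The Tate module together with a twist. -/
structure Tate extends B2.Tate where
  f : ℤ
  ok : Twf toTate f

attribute [coe] Tate.toTate

instance : CoeOut Tate B2.Tate := ⟨Tate.toTate⟩

/-- Euler systems of points for the twist by `f`, indexed by the class groups of `S`. -/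
structure ES {n : ℕ} (S : HS n) (f : ℤ) where
  y : ∀ c, S.C c → EE
  gal : ∀ c, Adm n c → ∀ g ∈ GK n, ∀ a, tw f g (y c a) = y c (S.ψ c g * a)
  trace : ∀ c l, l.Prime → Adm n (c * l) → ∀ a,
    ∑ a' with S.pr c (c * l) a' = a, y (c * l) a' = a15 l • y c a
  kron : ∀ c (w : Plc) (φ : Gam), Adm n (c * w.p) → IsFrob w w.p φ → ∀ a',
    y (c * w.p) a' - ordCompl[2] (w.p + 1) • φ • y c (S.pr c (c * w.p) a') ∈ K1 w

section

variable {n : ℕ} {S : HS n} {f δ : ℤ}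

/-- The point of the branch `f e`. -/
noncomputable def ES.ychi (Y : ES S f) (e : ℤ) : EE := ∑ a, (S.gen e a : ℤ) • Y.y 1 a

/-- The Euler factor modulo two at the prime `p` if it divides `f`. -/
noncomputable def shf (S : HS n) (f : ℤ) (l p : ℕ) (φ : Gam) (y : S.C l → EE) (a : S.C l) : EE :=
  if (p : ℤ) ∣ f then y a + y (S.ψ l φ * a) else y a

/-- The congruence between the system of the target and the system of the reference. -/
def ES.Cong (Y : ES S f) (Z : ES S δ) : Prop := ∃ φ₃ φ₅ : Gam,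
  (∃ w : Plc, w.p = 3 ∧ IsFrob w 3 φ₃) ∧ (∃ w : Plc, w.p = 5 ∧ IsFrob w 5 φ₅) ∧
  ∀ l, Adm n l → ∀ a, ∃ u : EE,
    (∀ g ∈ GK n, S.ψ l g = 1 → (∀ x : ℤ, x ∣ 30 → chi x g = 1) → g • u = u) ∧
    Y.y l a = shf S f l 3 φ₃ (shf S f l 5 φ₅ (Z.y l)) a + 2 • u

/-- The action of complex conjugation on the points of conductor one. -/
def ES.Conj (Z : ES S δ) : Prop := ∃ (b : S.C 1) (t : EE), 4 • t = 0 ∧
  ∀ a, tw δ cc (Z.y 1 a) = t - Z.y 1 (b * a⁻¹)

/-- What the covering of degree four says about the point over the genus field. -/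
def ES.Bir (Z : ES S δ) : Prop := ∃ R M : EE, 4 • R = Z.y 1 1 ∧ 2 • M = T1 ∧
  (∃ g ∈ GK n, S.ψ 1 g = 1 ∧ tw δ g (2 • R) ≠ 2 • R) ∧
  ∀ w : Plc, w.p = 3 ∨ w.p = 5 → ∀ σ ∈ Ine w, ∃ j : ℤ, σ • R - R = j • M

/-- The genus characters separate the classes of conductor one. -/
def Sep (S : HS n) : Prop :=
  ∀ a : S.C 1, (∀ e : ℤ, e ∣ n → e % 4 = 1 → S.gen e a = 1) → a = 1

/-- The bound for the divisibility by two on some branch. -/
def ES.RefDiv (Z : ES S δ) : Prop := ∃ e : ℤ, e ∣ n ∧ e % 4 = 1 ∧ ∀ P : EE,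
  (∀ g ∈ GK n, tw (δ * e) g P = P) → ¬ IsOfFinAddOrder (Z.ychi e -
    2 ^ (n.primeFactors.card + if J(δ * e | 3) = 1 ∧ J(δ * e | 5) = -1 then 0 else 1) • P)

/-- The system of the reference. -/
def ES.Ref (Z : ES S δ) : Prop :=
  if δ = 1 then Z.y = S.y ∧ S.RefDiv else Z.Conj ∧ Z.RefDiv

end

/-- The product of the four Euler factors above fifteen on the branch `D`. -/
def cq (D : ℤ) : ℤ := ((-J(D | 3) - 3) * (J(D | 5) - 5)) ^ 2

/-- The decomposition of a divisor of thirty into a part at two and a part at fifteen. -/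
structure Spt (δ m : ℤ) : Prop where
  d2 : δ ∣ 2
  d15 : m ∣ 15
  m4 : m % 4 = 1

/-- The additional condition on the auxiliary field if the twist is ramified at two. -/
def MuX (δ a b : ℤ) : Prop := δ ≠ 1 → a % 8 = 5 ∧ ∀ c : ℤ, c ∣ a → c % 4 = 1 → 0 < δ * c →
  ∃ q : ℕ, q.Prime ∧ (q : ℤ) ∣ b ∧ J(δ * c | q) = -1

end Pool.Agent.Lib.MP_696deb_nt.B3
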