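import Pool.Agent.Lib.MP_696deb_nt.B3.Cnt

/-! The primitive quadratic character attached to a squarefree integer. -/

set_option autoImplicit false

open Finset NumberTheorySymbols

namespace Pool.Agent.Lib.MP_696deb_nt.B3

/-- Primitive quadratic characters of conductor `M`, as functions on the integers. -/
structure PChr (M : ℕ) (χ : ℤ → ℤ) : Prop where
  ne : M ≠ 0
  one : χ 1 = 1
  mul : ∀ a b, χ (a * b) = χ a * χ b
  per : ∀ a b, (M : ℤ) ∣ a - b → χ a = χ b
  zero : ∀ a : ℤ, ¬ IsCoprime a M → χ a = 0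
  prim : ∀ p N : ℕ, p.Prime → M = p * N → ∃ u : ℤ, (N : ℤ) ∣ u - 1 ∧ χ u = -1

theorem PChr.unit {M : ℕ} {χ : ℤ → ℤ} (h : PChr M χ) {a : ℤ} (ha : IsCoprime a M) :
    χ a = 1 ∨ χ a = -1 := by
  obtain ⟨u, v, e⟩ := ha
  refine Int.eq_one_or_neg_one_of_mul_eq_one (v := χ u) ?_
  rw [← h.mul, ← h.one]
  exact h.per _ _ ⟨-v, by linear_combination e⟩

theorem PChr.sq {M : ℕ} {χ : ℤ → ℤ} (h : PChr M χ) {a : ℤ} (ha : IsCoprime a M) : χ a ^ 2 = 1 := by
  rcases h.unit ha with e | e <;> simp [e]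

theorem PChr.cases {M : ℕ} {χ : ℤ → ℤ} (h : PChr M χ) (a : ℤ) : χ a = 0 ∨ χ a = 1 ∨ χ a = -1 := by
  by_cases ha : IsCoprime a M
  exacts [.inr (h.unit ha), .inl (h.zero a ha)]

theorem PChr.cop {M : ℕ} {χ : ℤ → ℤ} (h : PChr M χ) {a : ℤ} (ha : χ a ≠ 0) : IsCoprime a M :=
  by_contra fun k => ha (h.zero a k)

theorem PChr.prod {M N : ℕ} {χ ψ : ℤ → ℤ} (h : PChr M χ) (k : PChr N ψ) (hc : M.Coprime N) :
    PChr (M * N) fun a => χ a * ψ a where
  ne := mul_ne_zero h.ne k.ne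
  one := by rw [h.one, k.one, mul_one]
  mul a b := by rw [h.mul, k.mul]; ring
  per a b e := by
    rw [Nat.cast_mul] at e
    rw [h.per a b ((dvd_mul_right _ _).trans e), k.per a b ((dvd_mul_left _ _).trans e)]
  zero a e := by
    rw [Nat.cast_mul, IsCoprime.mul_right_iff, not_and_or] at e
    rcases e with e | e
    · rw [h.zero a e, zero_mul]
    · rw [k.zero a e, mul_zero]
  prim p L hp e := by
    obtain ⟨x, y, hxy⟩ := Nat.isCoprime_iff_coprime.2 hc
    rcases hp.dvd_mul.1 (Dvd.intro _ e.symm) with ⟨M', rfl⟩ | ⟨N', rfl⟩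
    · obtain rfl : L = M' * N := Nat.eq_of_mul_eq_mul_left hp.pos (by rw [← e, mul_assoc])
      obtain ⟨u, ⟨v, h1⟩, h2⟩ := h.prim p M' hp rfl
      refine ⟨1 + (u - 1) * y * N, ⟨v * y, by push_cast; rw [h1]; ring⟩, ?_⟩
      rw [h.per _ u ⟨(1 - u) * x, by linear_combination (u - 1) * hxy⟩,
        k.per _ 1 ⟨(u - 1) * y, by ring⟩, h2, k.one, mul_one]
    · obtain rfl : L = M * N' :=
        Nat.eq_of_mul_eq_mul_left hp.pos (by rw [← e, mul_left_comm])
      obtain ⟨u, ⟨v, h1⟩, h2⟩ := k.prim p N' hp rfl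
      refine ⟨1 + (u - 1) * x * M, ⟨v * x, by push_cast; rw [h1]; ring⟩, ?_⟩
      rw [k.per _ u ⟨(1 - u) * y, by linear_combination (u - 1) * hxy⟩,
        h.per _ 1 ⟨(u - 1) * x, by ring⟩, h2, h.one, one_mul]

theorem pchr_jac {N : ℕ} (hN : Odd N) (hs : Squarefree N) : PChr N fun a => J(a | N) where
  ne := hs.ne_zero
  one := jacobiSym.one_left N
  mul a b := jacobiSym.mul_left a b N
  per a b e := jacobiSym.mod_left' (Int.modEq_iff_dvd.2 e).symm
  zero a e := by
    have : NeZero N := ⟨hs.ne_zero⟩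
    exact jacobiSym.eq_zero_iff_not_coprime.2 (mt Int.isCoprime_iff_gcd_eq_one.2 e)
  prim p N' hp e := by
    subst e
    have : Fact p.Prime := ⟨hp⟩
    have hp2 : p ≠ 2 := by
      rintro rfl
      exact Nat.not_even_iff_odd.2 hN (even_two_mul _)
    have hN0 : N' ≠ 0 := right_ne_zero_of_mul hs.ne_zero
    obtain ⟨α, β, hαβ⟩ := Nat.isCoprime_iff_coprime.2 (Nat.coprime_of_squarefree_mul hs)
    obtain ⟨r, hr⟩ := FiniteField.exists_nonsquare (F := ZMod p) (by rwa [ZMod.ringChar_zmod_n])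
    obtain ⟨r, rfl⟩ := ZMod.intCast_surjective r
    have e1 : α * p + r * β * N' ≡ r [ZMOD p] :=
      Int.modEq_iff_dvd.2 ⟨(r - 1) * α, by linear_combination -r * hαβ⟩
    have e2 : α * p + r * β * N' ≡ 1 [ZMOD N'] :=
      Int.modEq_iff_dvd.2 ⟨(1 - r) * β, by linear_combination -hαβ⟩
    refine ⟨α * p + r * β * N', e2.symm.dvd, ?_⟩
    rw [jacobiSym.mul_right' _ hp.ne_zero hN0, jacobiSym.mod_left' e1, jacobiSym.mod_left' e2,
      jacobiSym.one_left, mul_one, ZMod.nonsquare_iff_jacobiSym_eq_neg_one.2 hr]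

theorem pchr_two {M : ℕ} [NeZero M] (χ : MulChar (ZMod M) ℤ) {k : ℕ} (hM : M = 2 ^ (k + 1))
    {u : ℤ} (h1 : (2 : ℤ) ^ k ∣ u - 1) (h2 : χ u = -1) : PChr M fun a => χ a where
  ne := NeZero.ne M
  one := by simp
  mul a b := by simp
  per a b e := by rw [(ZMod.intCast_eq_intCast_iff_dvd_sub b a M).2 e]
  zero a e := χ.map_nonunit fun k => e ((ZMod.coe_int_isUnit_iff_isCoprime a M).1 k).symm
  prim p N hp e := by
    obtain rfl : p = 2 := (Nat.prime_dvd_prime_iff_eq hp Nat.prime_two).1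
      (hp.dvd_of_dvd_pow (hM ▸ Dvd.intro _ e.symm))
    obtain rfl : N = 2 ^ k := by rw [hM, pow_succ] at e; omega
    exact ⟨u, by exact_mod_cast h1, h2⟩

/-- The component at two of the quadratic character. -/
def chi2 (d k : ℤ) : ℤ :=
  if d % 4 = 1 then 1 else if d % 4 = 3 then ZMod.χ₄ k else if d % 8 = 2 then ZMod.χ₈ k
    else ZMod.χ₈' k

/-- The conductor of the component at two. -/
def cond2 (d : ℤ) : ℕ := if d % 4 = 1 then 1 else if d % 4 = 3 then 4 else 8

/-- The odd part of the absolute value of a squarefree integer. -/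
def odp (d : ℤ) : ℕ := if d % 2 = 1 then d.natAbs else d.natAbs / 2

/-- The conductor of the quadratic character. -/
def cond (d : ℤ) : ℕ := cond2 d * odp d

/-- The quadratic character of the field generated by a square root of `d`. -/
def kro (d k : ℤ) : ℤ := chi2 d k * J(k | odp d)

theorem pchr_chi2 (d : ℤ) : PChr (cond2 d) (chi2 d) := by
  unfold cond2 chi2
  split_ifs
  · exact ⟨one_ne_zero, rfl, fun _ _ => rfl, fun _ _ _ => rfl,
      fun a h => absurd isCoprime_one_right h,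
      fun p N hp e => absurd (Dvd.intro _ e.symm) hp.not_dvd_one⟩
  · exact pchr_two ZMod.χ₄ (k := 1) rfl (u := 3) (by norm_num) (by decide)
  · exact pchr_two ZMod.χ₈ (k := 2) rfl (u := 5) (by norm_num) (by decide)
  · exact pchr_two ZMod.χ₈' (k := 2) rfl (u := 5) (by norm_num) (by decide)

theorem mod4_ne {d : ℤ} (hd : Squarefree d) : d % 4 ≠ 0 := fun h =>
  absurd (hd 2 (by omega)) (by decide)

theorem odp_odd {d : ℤ} (hd : Squarefree d) : Odd (odp d) := by
  have := mod4_ne hd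
  unfold odp
  split_ifs <;> exact Nat.odd_iff.2 (by omega)

theorem odp_dvd (d : ℤ) : odp d ∣ d.natAbs := by
  unfold odp
  split_ifs
  exacts [dvd_rfl, Nat.div_dvd_of_dvd (by omega)]

theorem odp_sqf {d : ℤ} (hd : Squarefree d) : Squarefree (odp d) :=
  (Int.squarefree_natAbs.2 hd).squarefree_of_dvd (odp_dvd d)

theorem cond_eq {d : ℤ} (hd : Squarefree d) :
    cond d = if d % 4 = 1 then d.natAbs else 4 * d.natAbs := by
  have := mod4_ne hd
  unfold cond cond2 odp
  split_ifs <;> omega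

theorem pchr_kro {d : ℤ} (hd : Squarefree d) : PChr (cond d) (kro d) :=
  (pchr_chi2 d).prod (pchr_jac (odp_odd hd) (odp_sqf hd)) (by
    have h := Nat.coprime_two_left.2 (odp_odd hd)
    unfold cond2
    split_ifs
    exacts [Nat.coprime_one_left _, h.pow_left 2, h.pow_left 3])

theorem jac_star {e : ℤ} (h4 : e % 4 = 1) {p : ℕ} (hp : Odd p) : J(p | e.natAbs) = J(e | p) := by
  obtain ⟨N, rfl | rfl⟩ := Int.eq_nat_or_neg e
  · exact (jacobiSym.quadratic_reciprocity_one_mod_four (by omega) hp).symm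
  · rw [Int.natAbs_neg, Int.natAbs_natCast, jacobiSym.neg _ hp]
    rcases Nat.odd_mod_four_iff.1 (Nat.odd_iff.1 hp) with h | h
    · rw [ZMod.χ₄_nat_one_mod_four h, one_mul,
        jacobiSym.quadratic_reciprocity_one_mod_four h (Nat.odd_iff.2 (by omega))]
    · rw [ZMod.χ₄_nat_three_mod_four h,
        jacobiSym.quadratic_reciprocity_three_mod_four h (by omega), neg_one_mul]

theorem kro_odd {d : ℤ} (hd : Squarefree d) {p : ℕ} (hp : Odd p) : kro d p = J(d | p) := by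
  have := mod4_ne hd
  unfold kro chi2 odp
  split_ifs with h1 h2 h3 h4 h5 h6 h7 <;> try omega
  · rw [one_mul, jac_star h1 hp]
  · rw [← Int.natAbs_neg, jac_star (by omega) hp, Int.cast_natCast, ← jacobiSym.neg _ hp, neg_neg]
  · obtain ⟨e, rfl⟩ : 2 ∣ d := by omega
    rw [show (2 * e).natAbs / 2 = e.natAbs by omega, jac_star (by omega) hp, Int.cast_natCast,
      ← jacobiSym.at_two hp, jacobiSym.mul_left]
  · obtain ⟨e, rfl⟩ : -2 ∣ d := Int.neg_dvd.2 (by omega)
    rw [show (-2 * e).natAbs / 2 = e.natAbs by omega, jac_star (by omega) hp, Int.cast_natCast,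
      ← jacobiSym.at_neg_two hp, jacobiSym.mul_left]

theorem kro_neg_one {d : ℤ} (hd : Squarefree d) : kro d (-1) = d.sign := by
  have h0 := mod4_ne hd
  have ho := odp_odd hd
  have h4 := Nat.odd_mod_four_iff.1 (Nat.odd_iff.1 ho)
  rw [kro, jacobiSym.at_neg_one ho]
  have c4 : ZMod.χ₄ ((-1 : ℤ) : ZMod 4) = -1 := by decide
  have c8 : ZMod.χ₈ ((-1 : ℤ) : ZMod 8) = 1 := by decide
  have c9 : ZMod.χ₈' ((-1 : ℤ) : ZMod 8) = -1 := by decide
  rw [chi2, c4, c8, c9]
  rcases h4 with h | h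
  · rw [ZMod.χ₄_nat_one_mod_four h]
    unfold odp at h
    rcases lt_or_gt_of_ne hd.ne_zero with k | k
    · rw [Int.sign_eq_neg_one_of_neg k]
      split_ifs at h ⊢ <;> omega
    · rw [Int.sign_eq_one_of_pos k]
      split_ifs at h ⊢ <;> omega
  · rw [ZMod.χ₄_nat_three_mod_four h]
    unfold odp at h
    rcases lt_or_gt_of_ne hd.ne_zero with k | k
    · rw [Int.sign_eq_neg_one_of_neg k]
      split_ifs at h ⊢ <;> omega
    · rw [Int.sign_eq_one_of_pos k]
      split_ifs at h ⊢ <;> omega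

theorem dvd_cond {d : ℤ} (hd : Squarefree d) : d ∣ cond d := by
  rw [cond_eq hd]
  split_ifs
  · exact Int.dvd_natCast.2 dvd_rfl
  · exact Int.dvd_natCast.2 (dvd_mul_left _ _)

theorem odd_dvd_cond {d : ℤ} (hd : Squarefree d) {p : ℕ} (hp : Odd p) :
    p ∣ cond d ↔ (p : ℤ) ∣ d := by
  rw [cond_eq hd, Int.natCast_dvd]
  split_ifs
  · rfl
  · exact Nat.Coprime.dvd_mul_left ((Nat.coprime_two_right.2 hp).pow_right 2)

end Pool.Agent.Lib.MP_696deb_nt.B3
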