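import Pool.Agent.Lib.MP_696deb_nt.B3.HT
import Pool.Agent.Lib.MP_696deb_nt.B3.E1
import Pool.Agent.Lib.MP_696deb_nt.B3.Cnt
import Pool.Agent.Lib.MP_696deb_nt.B3.Kro
import Pool.Agent.Lib.MP_696deb_nt.CntLines

/-! Genus characters of orders whose conductor divides a power of thirty, and the action of complex
conjugation on the twisted Heegner points. -/

set_option autoImplicit false

open scoped Classical ComplexConjugate
open Finset NumberTheorySymbols

namespace Pool.Agent.Lib.MP_696deb_nt.B3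

variable {e e' k a b c d u v D ρ : ℤ} {Q R : Fm} {T : Finset Fm}

theorem k2_mul (e u v : ℤ) : k2 e (u * v) = k2 e u * k2 e v := by
  unfold k2
  split_ifs <;> simp only [Int.cast_mul, map_mul, mul_one]

theorem k2_one (e : ℤ) : k2 e 1 = 1 := by
  unfold k2
  split_ifs <;> simp only [Int.cast_one, map_one]

theorem k2_of_not (h : ¬ 4 ∣ e) (v : ℤ) : k2 e v = 1 := by
  rw [k2, if_neg fun k => h (Dvd.dvd.trans (by norm_num) k), if_neg h]

theorem k2_even (h : 4 ∣ e) (hv : 2 ∣ v) : k2 e v = 0 := by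
  unfold k2
  split_ifs
  · rw [ZMod.χ₈_int_eq_if_mod_eight, if_pos (by omega)]
  · rw [ZMod.χ₈'_int_eq_if_mod_eight, if_pos (by omega)]
  · rw [ZMod.χ₄_int_eq_if_mod_four, if_pos (by omega)]

theorem k2_eq {l : ℤ} (hu : ¬ 2 ∣ u) (hv : ¬ 2 ∣ v) (h : e ^ 2 ∣ 4 * (u * v) - l ^ 2) :
    k2 e u = k2 e v := by
  have sq : ∀ x : ℤ, ¬ 2 ∣ x → ∃ j, x ^ 2 = 8 * j + 1 := fun x hx => by
    obtain ⟨y, rfl⟩ : ∃ y, x = 2 * y + 1 := ⟨x / 2, by omega⟩
    obtain ⟨j, hj⟩ := Int.even_mul_succ_self y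
    exact ⟨j, by linear_combination 4 * hj⟩
  have key : ∀ N : ℤ, N = 1 ∨ N = 2 → 4 * N ∣ e → 4 * N ∣ u - v := fun N hN hd => by
    obtain ⟨s, rfl⟩ := hd
    obtain ⟨t, ht⟩ := h
    have h1 : 2 ∣ l := Int.prime_two.dvd_of_dvd_pow (n := 2)
      ⟨2 * (u * v) - 8 * N ^ 2 * s ^ 2 * t, by linear_combination -ht⟩
    obtain ⟨l, rfl⟩ := h1
    have h2 : u * v = l ^ 2 + 4 * (N ^ 2 * (s ^ 2 * t)) := by linarith
    have h3 : ¬ 2 ∣ l := fun k => (Int.prime_two.dvd_or_dvd (a := u) (b := v)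
      (h2 ▸ dvd_add (dvd_pow k two_ne_zero) (Dvd.dvd.mul_right (by norm_num) _))).elim hu hv
    obtain ⟨i, hi⟩ := sq l h3
    obtain ⟨j, hj⟩ := sq v hv
    rcases hN with rfl | rfl
    · exact ⟨2 * (v * i - u * j) + v * (s ^ 2 * t), by
        linear_combination v * h2 + v * hi - u * hj⟩
    · exact ⟨v * i - u * j + 2 * v * (s ^ 2 * t), by linear_combination v * h2 + v * hi - u * hj⟩
  unfold k2
  split_ifs with h8 _ h4
  · rw [(ZMod.intCast_eq_intCast_iff_dvd_sub v u 8).2 (key 2 (.inr rfl) h8)]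
  · rw [(ZMod.intCast_eq_intCast_iff_dvd_sub v u 8).2 (key 2 (.inr rfl) h8)]
  · rw [(ZMod.intCast_eq_intCast_iff_dvd_sub v u 4).2 (key 1 (.inl rfl) h4)]
  · rfl

theorem g2_fval (hd : e ^ 2 ∣ fdisc R) {x y : ℤ} (h : ¬ 2 ∣ fval R x y) :
    g2 e R = k2 e (fval R x y) := by
  by_cases h4 : 4 ∣ e
  swap
  · rw [g2, k2_of_not h4, k2_of_not h4]
  unfold g2
  split_ifs with h1
  · have hb : 2 ∣ R.2.1 := Int.prime_two.dvd_of_dvd_pow (n := 2) (by
      have := ((dvd_pow (Dvd.dvd.trans (by norm_num) h4 : 2 ∣ e) two_ne_zero).trans hd).add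
        ((h1.mul_left 4).mul_right R.2.2)
      simpa [fdisc] using this)
    have hc : ¬ 2 ∣ R.2.2 := fun hc =>
      h (((h1.mul_right _).add ((hb.mul_right _).mul_right _)).add (hc.mul_right _))
    refine k2_eq hc h (l := 2 * R.2.2 * y + R.2.1 * x) ?_
    exact hd.trans ⟨-x ^ 2, by simp only [fdisc, fval]; ring⟩
  · refine k2_eq h1 h (l := 2 * R.1 * x + R.2.1 * y) ?_
    exact hd.trans ⟨-y ^ 2, by simp only [fdisc, fval]; ring⟩

theorem g2_zero (h4 : 4 ∣ e) (h : ∀ x y, 2 ∣ fval R x y) : g2 e R = 0 := by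
  rw [g2, if_pos (by simpa [fval] using h 1 0), k2_even h4 (by simpa [fval] using h 0 1)]

/-- The form `R` is the transform of `Q` by a matrix of determinant `k`, divided by `k`. -/
structure Scl (k a b c d : ℤ) (Q R : Fm) : Prop where
  det : a * d - b * c = k
  pos : 0 < k
  val : ∀ x y, k * fval R x y = fval Q (a * x + b * y) (c * x + d * y)

theorem Scl.inv (h : Scl k a b c d Q R) (x y : ℤ) :
    fval R (d * x - b * y) (a * y - c * x) = k * fval Q x y := by
  refine mul_left_cancel₀ h.pos.ne' ?_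
  rw [h.val, show a * (d * x - b * y) + b * (a * y - c * x) = k * x by
    linear_combination x * h.det, show c * (d * x - b * y) + d * (a * y - c * x) = k * y by
    linear_combination y * h.det]
  simp only [fval]
  ring

theorem Scl.coef (h : Scl k a b c d Q R) : k * R.1 = (fmap Q a b c d).1 ∧
    k * R.2.1 = (fmap Q a b c d).2.1 ∧ k * R.2.2 = (fmap Q a b c d).2.2 := by
  have h1 := h.val 1 0
  have h2 := h.val 0 1
  have h3 := h.val 1 1
  simp only [fval, fmap] at h1 h2 h3 ⊢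
  exact ⟨by linear_combination h1, by linear_combination h3 - h1 - h2, by linear_combination h2⟩

theorem Scl.disc (h : Scl k a b c d Q R) : fdisc R = fdisc Q := by
  obtain ⟨h1, h2, h3⟩ := h.coef
  refine mul_left_cancel₀ (pow_ne_zero 2 h.pos.ne') ?_
  have : k ^ 2 * fdisc R = (k * R.2.1) ^ 2 - 4 * (k * R.1) * (k * R.2.2) := by
    simp only [fdisc]
    ring
  rw [this, h1, h2, h3, ← h.det]
  simp only [fdisc, fmap, fval]
  ring

theorem Scl.froot (h : Scl k a b c d Q R) (hD : fdisc Q < 0) (hQ : 0 < Q.1) (hR : 0 < R.1) :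
    mob a b c d (froot R) = froot Q := by
  have hD' : fdisc R < 0 := by rwa [h.disc]
  have hz := im_froot_pos hD' hR
  have h1 := froot_root hD' hR
  have hk : 0 < a * d - b * c := h.det ▸ h.pos
  obtain ⟨e1, e2, e3⟩ := h.coef
  generalize MP_696deb_nt.froot R = z at hz h1
  refine eq_froot hD hQ (im_mob_pos hk hz) ?_
  have h0 := den_ne (a := a) (b := b) (c := c) (d := d) hk.ne' hz
  have h2 : ((k * R.1 : ℤ) : ℂ) * z ^ 2 + (k * R.2.1 : ℤ) * z + (k * R.2.2 : ℤ) = 0 := by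
    push_cast
    linear_combination k * h1
  rw [e1, e2, e3] at h2
  simp only [fmap, fval] at h2
  push_cast at h2
  rw [mob]
  obtain ⟨u, hu⟩ : ∃ u, u = (c : ℂ) * z + d := ⟨_, rfl⟩
  rw [← hu] at h0 ⊢
  field_simp
  rw [hu]
  linear_combination h2

theorem Scl.g2 (h : Scl k a b c d Q R) (hd : e ^ 2 ∣ fdisc Q) (hk : ¬ 2 ∣ k) :
    g2 e R = k2 e k * g2 e Q := by
  by_cases h4 : 4 ∣ e
  swap
  · simp only [B3.g2, k2_of_not h4, mul_one]
  by_cases h1 : ∀ x y, 2 ∣ fval Q x y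
  · rw [g2_zero h4 h1, g2_zero h4 fun x y =>
      (Int.prime_two.dvd_or_dvd (h.val x y ▸ h1 _ _)).resolve_left hk, mul_zero]
  push Not at h1
  obtain ⟨x, y, h1⟩ := h1
  rw [g2_fval hd h1, g2_fval (h.disc ▸ hd) (x := d * x - b * y) (y := a * y - c * x) fun k =>
    (Int.prime_two.dvd_or_dvd (h.inv x y ▸ k)).elim hk h1, h.inv, k2_mul]

theorem Scl.gch (h : Scl k a b c d Q R) {A : ℕ} (hA : Squarefree A) (ho : Odd A)
    (hd : (A : ℤ) ∣ fdisc Q) (hk : IsCoprime k A) : gch A R = J(k | A) * gch A Q := by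
  rw [gch_eq, gch_eq, jac_eq_prod _ hA, ← prod_mul_distrib]
  refine prod_congr rfl fun p hp => ?_
  have h1 := Nat.prime_of_mem_primeFactors hp
  have h2 := Nat.prime_iff_prime_int.mp h1
  have h3 : ¬ (p : ℤ) ∣ k := fun j => h2.not_isUnit (hk.isUnit_of_dvd' j (dvd_of_mem dvd_rfl hp))
  exact gl_of_vals h1 (prime_ne_two ho hp) (dvd_of_mem hd hp) (h.disc ▸ dvd_of_mem hd hp) h3
    (fun x y => ⟨_, _, 0, by rw [h.inv, sub_self, mul_zero]⟩) fun h0 x y =>
      (h2.dvd_or_dvd (h.val x y ▸ h0 _ _)).resolve_left h3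

/-- The odd part of the conductor of the genus character. -/
def oc (e e' : ℤ) : ℕ := e.natAbs.gcd 15 * e'.natAbs

/-- The genus character as a function of the represented number. -/
def kap (e e' k : ℤ) : ℤ := k2 e k * J(k | oc e e')

/-- The conditions under which `gw e e'` is a genus character on forms of discriminant `D`. -/
structure GOk (e e' D : ℤ) : Prop where
  sqf : Squarefree (oc e e')
  odd : Odd (oc e e')
  sq : e ^ 2 ∣ D
  dvd : (oc e e' : ℤ) ∣ D

theorem Scl.gw (h : Scl k a b c d Q R) (ok : GOk e e' (fdisc Q)) (hk : ¬ 2 ∣ k)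
    (hc : IsCoprime k (oc e e')) : gw e e' R = kap e e' k * gw e e' Q := by
  have := h.gch ok.sqf ok.odd ok.dvd hc
  rw [oc] at this
  rw [B3.gw, B3.gw, h.g2 ok.sq hk, this, kap, oc]
  ring

theorem scl_fmap (h : a * d - b * c = 1) (Q : Fm) : Scl 1 a b c d Q (fmap Q a b c d) :=
  ⟨h, one_pos, fun x y => by rw [one_mul, fval_fmap]⟩

theorem scl_fW (h : 15 ∣ Q.1) : Scl 3 6 1 15 3 Q (fW Q) :=
  ⟨rfl, by norm_num, fun x y => by rw [fval_fW h, one_mul]⟩

theorem scl_fV (h : 15 ∣ Q.1) : Scl 15 0 (-1) 15 0 Q (fV Q) := ⟨rfl, by norm_num, fun x y => by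
  obtain ⟨_, b, c⟩ := Q
  obtain ⟨a, rfl⟩ := h
  simp [fV, fval]
  ring⟩

theorem scl_fVW (h : 15 ∣ Q.1) : Scl 5 5 (-2) 15 (-5) Q (fV (fW Q)) :=
  ⟨rfl, by norm_num, fun x y => by
    obtain ⟨_, b, c⟩ := Q
    obtain ⟨a, rfl⟩ := h
    rw [fW_eq]
    simp [fV, fval]
    ring⟩

theorem gw_fmap (ok : GOk e e' (fdisc Q)) (h : a * d - b * c = 1) :
    gw e e' (fmap Q a b c d) = gw e e' Q := by
  rw [(scl_fmap h Q).gw ok (by norm_num) isCoprime_one_left, kap, k2_one, jacobiSym.one_left,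
    one_mul, one_mul]

theorem gw_feq (ok : GOk e e' (fdisc Q)) (h : FEq Q R) : gw e e' R = gw e e' Q := by
  obtain ⟨a, b, c, d, h, rfl⟩ := h
  exact gw_fmap ok h

theorem gw_cj (e e' : ℤ) (Q : Fm) : gw e e' (cj Q) = gw e e' Q := rfl

theorem tq_hW (e e' : ℤ) (T : Finset Fm) :
    tq (hW e e' T) = ∑ Q ∈ T, gw e e' Q • tq (Fi (froot Q)) := by
  simp only [hW, map_sum, tq_mul]

theorem Scl.tq (i : Fin 4) (h : Scl k (Unif.alM i).1 (Unif.alM i).2.1 (Unif.alM i).2.2.1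
    (Unif.alM i).2.2.2 Q R) (hD : fdisc Q < 0) (hQ : 0 < Q.1) (hR : 0 < R.1) :
    tq (Fi (MP_696deb_nt.froot R)) = Unif.alS i • tq (Fi (MP_696deb_nt.froot Q)) := by
  rw [← h.froot hD hQ hR, ← Unif.al, Unif.Fi_al i (im_froot_pos (h.disc ▸ hD) hR), map_add,
    Unif.alC, tq_ms, add_zero, tq_mul, smul_smul,
    show Unif.alS i * Unif.alS i = 1 by fin_cases i <;> rfl, one_smul]

theorem FReps.congr3 {ρ' : ℤ} (h : FReps D ρ T) (k : 30 ∣ ρ - ρ') : FReps D ρ' T :=
  have key : ∀ Q, Fam D ρ Q ↔ Fam D ρ' Q := fun Q => by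
    simp only [Fam]
    exact and_congr_right fun _ => and_congr_right fun _ => by omega
  ⟨fun Q hQ => (key Q).1 (h.fam Q hQ), h.pos, fun Q hQ => h.ex Q ((key Q).2 hQ), h.uniq⟩

theorem conj_hW_of (h : FReps D ρ T) (hD : D < 0) (ok : GOk e e' D) (i : Fin 4) (φ : Fm → Fm)
    (h1 : FReps D (-ρ) (T.image φ)) (hk : ¬ 2 ∣ k) (hc : IsCoprime k (oc e e'))
    (h2 : ∀ Q, 15 ∣ Q.1 → Scl k (Unif.alM i).1 (Unif.alM i).2.1 (Unif.alM i).2.2.1
      (Unif.alM i).2.2.2 Q (φ Q)) :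
    tq (conj (hW e e' T)) = (Unif.alS i * kap e e' k) • tq (hW e e' T) := by
  have e1 : conj (hW e e' T) = hW e e' (T.image cj) := by
    rw [hW, hW, h.cj.2, map_sum]
    exact sum_congr rfl fun Q hQ => by
      rw [map_mul, map_intCast, gw_cj, Fi_froot_cj ((h.fam Q hQ).2.1 ▸ hD) (h.pos Q hQ)]
  rw [e1, tq_hW, h.cj.1.sum_eq h1 _ fun Q R k1 k2 k3 => by
    rw [gw_feq (k1.2.1 ▸ ok) k3, FReps.tq_froot hD k1.2.1 k2 k3], tq_hW, smul_sum,
    sum_image fun Q hQ R hR e => ?_]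
  · refine sum_congr rfl fun Q hQ => ?_
    have k1 := h.fam Q hQ
    rw [(h2 Q k1.1).gw (k1.2.1 ▸ ok) hk hc, (h2 Q k1.1).tq i (k1.2.1 ▸ hD) (h.pos Q hQ)
      (h1.pos _ (mem_image_of_mem _ hQ)), smul_smul, smul_smul]
    congr 1
    ring
  · have k1 := h2 Q (h.fam Q hQ).1
    have k2 := h2 R (h.fam R hR).1
    have k3 : ∀ x y, fval Q x y = fval R x y := fun x y =>
      mul_left_cancel₀ k1.pos.ne' (by rw [← k1.inv, ← k2.inv, e])
    have j1 := k3 1 0
    have j2 := k3 0 1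
    have j3 := k3 1 1
    simp only [fval] at j1 j2 j3
    exact Prod.ext (by linarith) (Prod.ext (by linarith) (by linarith))

section

variable {δ m : ℤ} {n : ℕ} {r : ℤ}

theorem Spt.cases (h : Spt δ m) :
    (δ = 1 ∨ δ = -1 ∨ δ = 2 ∨ δ = -2) ∧ (m = 1 ∨ m = -3 ∨ m = 5 ∨ m = -15) := by
  have h1 := Int.le_of_dvd two_pos h.d2
  have h2 := Int.le_of_dvd two_pos (neg_dvd.2 h.d2)
  have h3 := Int.le_of_dvd (by norm_num) h.d15
  have h4 := Int.le_of_dvd (by norm_num) (neg_dvd.2 h.d15)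
  obtain ⟨k1, k2, k3⟩ := h
  have h5 : δ ≠ 0 := ne_zero_of_dvd_ne_zero two_ne_zero k1
  have h6 : -15 ≤ m := by omega
  refine ⟨by omega, ?_⟩
  interval_cases m <;> first | omega | exact absurd k2 (by decide)

theorem oc_eq (h : Spt δ m) (he : e = if δ = 1 then m else 4 * δ * m) (e' : ℤ) :
    oc e e' = (m * e').natAbs := by
  rw [oc, Int.natAbs_mul]
  obtain ⟨h1, h2⟩ := h.cases
  rcases h1 with rfl | rfl | rfl | rfl <;> rcases h2 with rfl | rfl | rfl | rfl <;> subst he <;> rfl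

theorem kap_eq (h : Spt δ m) (he : e = if δ = 1 then m else 4 * δ * m) (h4 : e' % 4 = 1) (k : ℤ) :
    kap e e' k = kro (δ * m * e') k := by
  have h5 : m * e' % 4 = 1 := by rw [Int.mul_emod, h.m4, h4]; rfl
  have h6 := h.m4
  rw [kap, oc_eq h he, kro, mul_assoc]
  generalize m * e' = x at h5
  unfold k2 chi2 odp
  rcases h.cases.1 with rfl | rfl | rfl | rfl <;> simp only [reduceIte, Int.reduceNeg,
    Int.reduceEq] at he <;> subst he
  · rw [if_neg (by omega), if_neg (by omega), if_pos (by omega), if_pos (by omega), one_mul x]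
  · rw [if_neg (by omega), if_pos (by omega), if_neg (by omega), if_pos (by omega),
      if_pos (by omega), neg_one_mul, Int.natAbs_neg]
  · rw [if_pos (by omega), if_pos (by omega), if_neg (by omega), if_neg (by omega),
      if_pos (by omega), if_neg (by omega), show (2 * x).natAbs / 2 = x.natAbs by omega]
  · rw [if_pos (by omega), if_neg (by omega), if_neg (by omega), if_neg (by omega),
      if_neg (by omega), if_neg (by omega), show (-2 * x).natAbs / 2 = x.natAbs by omega]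

theorem Spt.sqf (h : Spt δ m) (hs : Squarefree e') (h4 : e' % 4 = 1) (hc : e'.natAbs.Coprime 15) :
    Squarefree (δ * m * e') := by
  rw [← Int.squarefree_natAbs, Int.natAbs_mul]
  have h1 : (δ * m).natAbs ∣ 2 * 15 := Int.natAbs_dvd_natAbs.2 (mul_dvd_mul h.d2 h.d15)
  refine (Nat.squarefree_mul (Nat.Coprime.coprime_dvd_left h1 (Nat.Coprime.mul_left
    ((Nat.coprime_two_left).2 (Nat.odd_iff.2 (by omega))) hc.symm))).2
    ⟨Squarefree.squarefree_of_dvd h1 (by decide +kernel), Int.squarefree_natAbs.2 hs⟩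

theorem gOk_of (h : Spt δ m) (he : e = if δ = 1 then m else 4 * δ * m) (hn : Good n)
    (hd : e' ∣ n) (h4 : e' % 4 = 1) : GOk e e' (-(n * e ^ 2)) := by
  have h5 : m * e' % 4 = 1 := by rw [Int.mul_emod, h.m4, h4]; rfl
  have h6 : e'.natAbs ∣ n := Int.natAbs_dvd_natAbs.2 hd
  have h7 := h.sqf (Int.squarefree_natAbs.1 (hn.sqf.squarefree_of_dvd h6)) h4
    (hn.cop.coprime_dvd_left h6)
  refine ⟨?_, ?_, (dvd_mul_left _ _).neg_right, ?_⟩ <;> rw [oc_eq h he]
  · exact Int.squarefree_natAbs.2 (Squarefree.of_mul_right (mul_assoc δ m e' ▸ h7))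
  · exact Nat.odd_iff.2 (by omega)
  · rw [Int.natAbs_dvd, dvd_neg, mul_comm m]
    refine mul_dvd_mul hd (dvd_pow ?_ two_ne_zero)
    rw [he]
    split_ifs
    exacts [dvd_rfl, dvd_mul_left _ _]

/-- The action of complex conjugation on the twisted Heegner point. -/
theorem conj_hW (h : Spt δ m) (he : e = if δ = 1 then m else 4 * δ * m) (hn : Good n)
    (hd : e' ∣ n) (h4 : e' % 4 = 1) (hT : FReps (-(n * e ^ 2)) (-(r * e.natAbs)) T) :
    tq (conj (hW e e' T)) = -rt0 (δ * m * e') • tq (hW e e' T) := by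
  have ok := gOk_of h he hn hd h4
  have h6 : e'.natAbs ∣ n := Int.natAbs_dvd_natAbs.2 hd
  have h8 := hn.cop.coprime_dvd_left h6
  have h7 := h.sqf (Int.squarefree_natAbs.1 (hn.sqf.squarefree_of_dvd h6)) h4 h8
  have e0 : e ≠ 0 := by
    obtain ⟨h1, h2⟩ := h.cases
    rcases h1 with rfl | rfl | rfl | rfl <;> rcases h2 with rfl | rfl | rfl | rfl <;> subst he <;>
      decide
  have hD : -((n : ℤ) * e ^ 2) < 0 := by
    have := hn.mod4
    have : 0 < n := by omega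
    rw [neg_lt_zero]
    positivity
  obtain ⟨j, hj⟩ : (m.natAbs : ℤ) ∣ e.natAbs := by
    rw [Int.natCast_dvd_natCast, Int.natAbs_dvd_natAbs, he]
    split_ifs
    exacts [dvd_rfl, dvd_mul_left _ _]
  have nd : ∀ p : ℤ, Prime p → p ∣ 15 → ¬ p ∣ δ ∧ ¬ p ∣ e' := fun p hp k =>
    ⟨fun l => hp.not_isUnit ((show IsCoprime (2 : ℤ) 15 by norm_num).isUnit_of_dvd'
      (l.trans h.d2) k), fun l => hp.not_isUnit ((show IsCoprime e' 15 by
        rwa [Int.isCoprime_iff_gcd_eq_one]).isUnit_of_dvd' l k)⟩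
  have p3 : Prime (3 : ℤ) := Int.prime_three
  have p5 : Prime (5 : ℤ) := Nat.prime_iff_prime_int.1 Nat.prime_five
  have dv : ∀ p : ℤ, Prime p → p ∣ 15 → (p ∣ δ * m * e' ↔ p ∣ m) := fun p hp k => by
    rw [hp.dvd_mul, hp.dvd_mul, or_iff_left (nd p hp k).2, or_iff_right (nd p hp k).1]
  have co : ∀ p : ℤ, Prime p → p ∣ 15 → ¬ p ∣ m → IsCoprime p (oc e e') := fun p hp k l => by
    rw [oc_eq h he, hp.coprime_iff_not_dvd, Int.dvd_natAbs, hp.dvd_mul]
    exact not_or.2 ⟨l, (nd p hp k).2⟩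
  have kp : ∀ p : ℕ, Odd p → kap e e' p = J(δ * m * e' | p) := fun p hp => by
    rw [kap_eq h he h4, kro_odd h7 hp]
  rw [rt0]
  simp only [dv 3 p3 (by norm_num), dv 5 p5 (by norm_num)]
  rcases h.cases.2 with k | k | k | k
  · rw [conj_hW_of hT hD ok 3 fV (FReps.fV hD hT).1 (k := 15) (by norm_num)
      ((co 3 p3 (by norm_num) (by omega)).mul_left (co 5 p5 (by norm_num) (by omega)))
      fun _ => scl_fV, if_neg (by omega), if_neg (by omega), ← jacobiSym.mul_right,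
      ← kp _ (by decide)]
    exact congrArg (· • _) (neg_one_mul _)
  · rw [conj_hW_of hT hD ok 2 (fun Q => fV (fW Q)) (k := 5) ?_ (by norm_num)
      (co 5 p5 (by norm_num) (by omega)) fun _ => scl_fVW, if_pos (by omega), if_neg (by omega),
      one_mul, ← kp _ (by decide)]
    · exact congrArg (· • _) (neg_one_mul _)
    · have := (FReps.fV hD (fW_freps hD hT)).1
      rw [image_image] at this
      refine FReps.congr3 this ⟨r * j, ?_⟩
      rw [hj, k]
      norm_num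
      ring
  · rw [conj_hW_of hT hD ok 1 fW (k := 3) ?_ (by norm_num)
      (co 3 p3 (by norm_num) (by omega)) fun _ => scl_fW, if_neg (by omega), if_pos (by omega),
      ← kp _ (by decide)]
    · exact congrArg (· • _) (by rw [mul_neg_one, neg_neg]; exact one_mul _)
    · refine FReps.congr3 (fW_freps hD hT) ⟨-2 * r * j, ?_⟩
      rw [hj, k]
      norm_num
      ring
  · rw [conj_hW_of hT hD ok 0 id (k := 1) ?_ (by norm_num) isCoprime_one_left
      fun Q _ => ⟨rfl, one_pos, fun x y => by simp [Unif.alM]⟩, if_pos (by omega),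
      if_pos (by omega), kap, k2_one, jacobiSym.one_left]
    · rfl
    · rw [image_id]
      refine FReps.congr3 hT ⟨-r * j, ?_⟩
      rw [hj, k]
      norm_num
      ring

end

end Pool.Agent.Lib.MP_696deb_nt.B3
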