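import Pool.Agent.Lib.MP_696deb_nt.B3.LF
import Pool.Agent.Lib.MP_696deb_nt.B3.GWs

/-! Evaluation of modular symbols by continued fractions, and explicit twists whose central value
does not vanish. -/

set_option autoImplicit false

open Finset NumberTheorySymbols

namespace Pool.Agent.Lib.MP_696deb_nt.B3

open B2

/-- The period with given coordinates, divided by four. -/
noncomputable def pv (u : ℤ × ℤ) : ℂ := (u.1 * wp + u.2 * wm * Complex.I) / 4

/-- The symbols of the fractions with denominator at most five. -/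
def sv0 (x y : ℤ) : ℤ × ℤ :=
  if y = 0 then (0, 0) else if x = 0 then (-1, 0) else if 2 * x = y then (3, 0)
  else if y = 3 then (1, 4 * x - 6) else if y = 4 then (-1, 4 * x - 8)
  else (if x = 1 ∨ x = 4 then -2 else 2, if x < 3 then -2 else 2)

/-- The same for arbitrary signs. -/
def sv (x y : ℤ) : ℤ × ℤ := if y < 0 then sv0 (-x % -y) (-y) else sv0 (x % y) y

theorem sd_small : ms 0 1 = pv (-1, 0) ∧ ms 1 2 = pv (3, 0) ∧ ms 1 3 = pv (1, -2) ∧
    ms 2 3 = pv (1, 2) ∧ ms 1 4 = pv (-1, -4) ∧ ms 3 4 = pv (-1, 4) ∧ ms 1 5 = pv (-2, -2) ∧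
    ms 2 5 = pv (2, -2) ∧ ms 3 5 = pv (2, 2) ∧ ms 4 5 = pv (-2, 2) := by
  have cj : ∀ {x z y u v w : ℤ}, ms x y = pv (u, v) → z = -x + 1 * y → w = -v →
      ms z y = pv (u, w) := by
    rintro x _ y u v _ h rfl rfl
    rw [ms_add_mul, ms_conj, h]
    simp [pv, map_ofNat]
  have g := fun a b c d h x y k => @ms_Gamma0 a b c d h x y k
  have w := fun a b c d h x y k => @ms_AL3 a b c d h x y k
  have h01 : ms 0 1 = pv (-1, 0) := by
    have := ms_seven
    rw [ms_gp] at this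
    simp only [pv]
    push_cast
    linear_combination this / 4
  have h12 : ms 1 2 = pv (3, 0) := by
    have h1 := ms_hecke_two 0 1
    have h2 := ms_scale (g := 2) (by norm_num) 0 1
    simp only [pv] at h01 ⊢
    norm_num at h1 h2 h01 ⊢
    linear_combination h1 - h2 - 3 * h01
  have h34 : ms 3 4 = pv (-1, 4) := by
    have h1 := g 11 (-3) 1 (-4) (by norm_num) 0 1 (by norm_num)
    have h2 := ms_neg_neg 3 4
    simp only [pv] at h01 ⊢
    norm_num at h1 h2 h01 ⊢
    linear_combination h1 - h2 + h01 + ms_gm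
  have h14 : ms 1 4 = pv (-1, -4) := cj h34 rfl rfl
  have h58 : ms 5 8 = pv (3, 4) := by
    have h1 := ms_hecke_two 1 4
    have h2 := ms_scale (g := 2) (by norm_num) 1 2
    have h3 := g 2 1 1 8 (by norm_num) 0 1 (by norm_num)
    have h4 := g 7 (-1) 1 (-2) (by norm_num) 2 15 (by norm_num)
    simp only [pv] at h01 h12 h14 ⊢
    norm_num [ms_zero] at h1 h2 h3 h4 h01 h12 h14 ⊢
    linear_combination h1 - h2 - h3 - h14 - h12 - h01 + h4 + ms_gp
  have h38 : ms 3 8 = pv (3, -4) := cj h58 rfl rfl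
  have h25 : ms 2 5 = pv (2, -2) := by
    have h1 := w 2 1 1 1 (by norm_num) 2 5 (by norm_num)
    have h2 := g 17 3 3 8 (by norm_num) 0 1 (by norm_num)
    simp only [pv] at h01 h38 ⊢
    norm_num at h1 h2 h01 h38 ⊢
    linear_combination (-h1 - h2 + h38 - h01) / 2
  have h13 : ms 1 3 = pv (1, -2) := by
    have h1 := w 2 1 1 1 (by norm_num) 0 1 (by norm_num)
    simp only [pv] at h01 h25 ⊢
    norm_num at h1 h01 h25 ⊢
    linear_combination h1 + h01 + h25
  have h23 : ms 2 3 = pv (1, 2) := cj h13 rfl rfl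
  have h15 : ms 1 5 = pv (-2, -2) := by
    have h1 := w 1 1 1 2 (by norm_num) 0 1 (by norm_num)
    have h2 := ms_hecke_two 1 3
    have h3 := ms_scale (g := 2) (by norm_num) 2 3
    simp only [pv] at h01 h13 h23 ⊢
    norm_num at h1 h2 h3 h01 h13 h23 ⊢
    linear_combination -h1 + h2 - h3 - h01 - h13 - 2 * h23
  exact ⟨h01, h12, h13, h23, h14, h34, h15, h25, cj h25 rfl rfl, cj h15 rfl rfl⟩

theorem ms_sv0 {x y : ℤ} (h0 : 0 ≤ x) (h1 : x < y) (h5 : y ≤ 5) : ms x y = pv (sv0 x y) := by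
  obtain ⟨a, b, c, d, e, f, g, h, i, j⟩ := sd_small
  have z : ms 0 y = pv (-1, 0) := by
    rw [← a, ← ms_scale (g := y) (by omega) 0 1, zero_mul, one_mul]
  have k : ms 2 4 = pv (3, 0) := (ms_scale (g := 2) (by norm_num) 1 2).trans b
  have : 0 < y := by omega
  interval_cases y <;> interval_cases x <;> assumption

theorem ms_sv {x y : ℤ} (h : |y| ≤ 5) : ms x y = pv (sv x y) := by
  have key : ∀ x y : ℤ, 0 ≤ y → y ≤ 5 → ms x y = pv (sv0 (x % y) y) := fun x y h0 h5 => by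
    rcases h0.eq_or_lt with rfl | k
    · simp [ms_zero, sv0, pv]
    · rw [← ms_sv0 (Int.emod_nonneg _ k.ne') (Int.emod_lt_of_pos _ k) h5,
        ← ms_add_mul (x % y) y (x / y), Int.emod_add_ediv_mul]
  rw [abs_le] at h
  unfold sv
  split_ifs with k
  · rw [← ms_neg_neg, key _ _ (by omega) (by omega)]
  · exact key _ _ (by omega) h.2

/-- The number `4 z` is a period, and the sum of its coordinates is `n` modulo a prime. -/
def Rel (z : ℂ) (n : ℕ) : Prop :=
  ∃ u : ℤ × ℤ, z = pv u ∧ ((u.1 + u.2 : ℤ) : ZMod 257) = n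

theorem Rel.zero : Rel 0 0 := ⟨(0, 0), by simp [pv], by simp⟩

theorem Rel.add {z w : ℂ} {m n : ℕ} (h : Rel z m) (k : Rel w n) : Rel (z + w) (m + n) := by
  obtain ⟨u, rfl, h⟩ := h
  obtain ⟨v, rfl, k⟩ := k
  refine ⟨u + v, by simp only [pv, Prod.fst_add, Prod.snd_add]; push_cast; ring, ?_⟩
  rw [Nat.cast_add, ← h, ← k]
  simp only [Prod.fst_add, Prod.snd_add]
  push_cast
  ring

theorem Rel.mul {z : ℂ} {n m : ℕ} {c : ℤ} (h : Rel z n) (k : (c : ZMod 257) = m) :
    Rel (c * z) (m * n) := by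
  obtain ⟨u, rfl, h⟩ := h
  refine ⟨(c * u.1, c * u.2), by simp only [pv]; push_cast; ring, ?_⟩
  rw [Nat.cast_mul, ← h, ← k]
  push_cast
  ring

theorem Rel.ne {z : ℂ} {n : ℕ} (h : Rel z n) (k : n % 257 ≠ 0) : z ≠ 0 := by
  obtain ⟨u, rfl, h⟩ := h
  intro e
  have h1 := congrArg Complex.re e
  have h2 := congrArg Complex.im e
  simp [pv, wp_neg.ne, wm_ne] at h1 h2
  rw [h1, h2, add_zero, Int.cast_zero, eq_comm, ZMod.natCast_eq_zero_iff] at h
  omega

/-- The table of the Manin symbols. -/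
def tab : ℕ :=
  58899329021445835183301443659570339891773119036475062136529057818240980125089879930688461831661151311841460131322988029356808775375801073974891721627325846754836940843223815570350348885977598648111852063897556126149083563674558729651842151057877903331379929664555714018968965191176290703572714097743265604362476656506744225705769257965229439837200189924868769170325835815066281402249565275998873998314050814341510286554100979939618981026423562178773561031089885801923093469336315587422932218113660199057423153247521613855391432264284271359914355959864156008586382048722482139111620944798583205500364652800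

/-- An entry of the table. -/
def tb (c d : ℕ) : ℕ := (tab >>> (9 * (15 * c + d))) % 512

theorem tb_spec : ∀ c d : ZMod 15, |(rep c d).2.2.1| ≤ 5 ∧ |(rep c d).2.2.2| ≤ 5 ∧
    (((sv (rep c d).2.1 (rep c d).2.2.2 - sv (rep c d).1 (rep c d).2.2.1).1 +
      (sv (rep c d).2.1 (rep c d).2.2.2 - sv (rep c d).1 (rep c d).2.2.1).2 : ℤ) : ZMod 257) =
      tb c.val d.val := by
  decide +kernel

theorem rel_tb {a b c d : ℤ} (h : a * d - b * c = 1) {x y : ℕ} (hx : x < 15) (hy : y < 15)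
    (e1 : (c : ZMod 15) = x) (e2 : (d : ZMod 15) = y) : Rel (ms b d - ms a c) (tb x y) := by
  obtain ⟨h1, h2, -⟩ := rep_spec a b c d (by exact_mod_cast congrArg (Int.cast : ℤ → ZMod 15) h)
  obtain ⟨k1, k2, k3⟩ := tb_spec c d
  have e3 : (c : ZMod 15).val = x := by rw [e1, ZMod.val_natCast, Nat.mod_eq_of_lt hx]
  have e4 : (d : ZMod 15).val = y := by rw [e2, ZMod.val_natCast, Nat.mod_eq_of_lt hy]
  rw [e3, e4] at k3
  generalize rep c d = r at *
  obtain ⟨p, q, r, s⟩ := r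
  obtain ⟨t, ht⟩ : 15 ∣ c * s - d * r := (ZMod.intCast_zmod_eq_zero_iff_dvd _ 15).1 (by
    push_cast
    linear_combination h2)
  simp only at h1 k1 k2 k3
  have det : (a * s - b * r) * (d * p - c * q) - (b * p - a * q) * (15 * t) = 1 := by
    rw [← ht]
    linear_combination (p * s - q * r) * h + h1
  have g1 := ms_Gamma0 det (x := p) (y := r) (by
    by_contra! k
    simp [k.1, k.2] at h1)
  have g2 := ms_Gamma0 det (x := q) (y := s) (by
    by_contra! k
    simp [k.1, k.2] at h1)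
  rw [← ht, show (a * s - b * r) * p + (b * p - a * q) * r = a by linear_combination a * h1,
    show (c * s - d * r) * p + (d * p - c * q) * r = c by linear_combination c * h1] at g1
  rw [← ht, show (a * s - b * r) * q + (b * p - a * q) * s = b by linear_combination b * h1,
    show (c * s - d * r) * q + (d * p - c * q) * s = d by linear_combination d * h1] at g2
  refine ⟨_, ?_, k3⟩
  rw [g1, g2, ms_sv k1, ms_sv k2]
  simp only [pv, Prod.fst_sub, Prod.snd_sub]
  push_cast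
  ring

/-- Application of a function to an evaluated argument. -/
def fc (n : ℕ) (f : ℕ → ℕ) : ℕ := n.rec (f 0) fun k _ => f k.succ

theorem fc_eq (n : ℕ) (f : ℕ → ℕ) : fc n f = f n := by cases n <;> rfl

/-- The expansion of a modular symbol along a continued fraction. -/
def cf : ℕ → ℕ → ℕ → ℕ → ℕ → ℕ → ℕ
  | 0, _, _, _, _, _ => 0
  | k + 1, s, c, d, x, y => if y = 0 then 0 else fc ((c * (x / y) + d) % 15) fun u =>
      fc (x % y) fun v => fc (15 - s) fun t => tb c (s * u % 15) + cf k t u c y v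

theorem rel_cf (k : ℕ) : ∀ (s c d x y : ℕ) (A B C D ε : ℤ), A * D - B * C = ε →
    (ε = 1 ∧ s = 1 ∨ ε = -1 ∧ s = 14) → c < 15 → (C : ZMod 15) = c → (D : ZMod 15) = d → y < k →
    x ≠ 0 ∨ y ≠ 0 → Rel (ms (A * x + B * y) (C * x + D * y) - ms A C) (cf k s c d x y) := by
  induction k with
  | zero => intros; omega
  | succ k ih =>
    intro s c d x y A B C D ε h hs hc e1 e2 hy h0
    rw [cf, fc_eq, fc_eq, fc_eq]
    split_ifs with k0
    · subst k0
      simp only [Nat.cast_zero, mul_zero, add_zero]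
      rw [ms_scale (by omega), sub_self]
      exact Rel.zero
    have e3 : ((C * (x / y : ℕ) + D : ℤ) : ZMod 15) = ((c * (x / y) + d) % 15 : ℕ) := by
      rw [ZMod.natCast_mod, Int.cast_add, Int.cast_mul, e1, e2, Int.cast_natCast, Nat.cast_add,
        Nat.cast_mul]
    have h1 := ih (15 - s) ((c * (x / y) + d) % 15) c y (x % y) (A * (x / y : ℕ) + B) A
      (C * (x / y : ℕ) + D) C (-ε) (by linear_combination -h) (by omega)
      (Nat.mod_lt _ (by norm_num)) e3 e1 (by have := Nat.mod_lt x (Nat.pos_of_ne_zero k0); omega)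
      (.inl k0)
    have h2 := rel_tb (a := A) (b := ε * (A * (x / y : ℕ) + B)) (c := C)
      (d := ε * (C * (x / y : ℕ) + D)) (x := c) (y := s * ((c * (x / y) + d) % 15) % 15)
      (by rcases hs with ⟨rfl, -⟩ | ⟨rfl, -⟩ <;> linarith) hc (Nat.mod_lt _ (by norm_num)) e1 (by
        rw [ZMod.natCast_mod, Nat.cast_mul, Int.cast_mul, e3]
        rcases hs with ⟨rfl, rfl⟩ | ⟨rfl, rfl⟩ <;> rfl)
    have e4 : (x : ℤ) = (x / y : ℕ) * y + (x % y : ℕ) := by exact_mod_cast (Nat.div_add_mod' x y).symm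
    rw [mul_comm ε, mul_comm ε, ms_scale (by omega)] at h2
    convert h2.add h1 using 1
    rw [show A * x + B * y = (A * (x / y : ℕ) + B) * y + A * (x % y : ℕ) by
      linear_combination A * e4, show C * x + D * y = (C * (x / y : ℕ) + D) * y + C * (x % y : ℕ) by
      linear_combination C * e4]
    ring

theorem rel_ms (x : ℕ) {y : ℕ} (h : y ≠ 0) : Rel (ms x y) (cf (y + 1) 1 0 1 x y) := by
  simpa [ms_zero] using rel_cf (y + 1) 1 0 1 x y 1 0 0 1 1 rfl (.inl ⟨rfl, rfl⟩) (by norm_num) rfl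
    rfl y.lt_succ_self (.inr h)

/-- The Legendre symbol by the criterion of Euler. -/
def eu (p k : ℕ) : ℕ := if k ^ (p / 2) % p = 0 then 0 else if k ^ (p / 2) % p = 1 then 1 else 256

theorem eu_spec {p : ℕ} (hp : p.Prime) (h2 : p ≠ 2) (k : ℕ) :
    (J((k : ℤ) | p) : ZMod 257) = eu p k := by
  have := Fact.mk hp
  have h1 := legendreSym.eq_pow p k
  have h3 : 2 < p := lt_of_le_of_ne hp.two_le h2.symm
  have := Fact.mk h3
  rw [jacobiSym.legendreSym.to_jacobiSym, Int.cast_natCast, ← Nat.cast_pow] at h1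
  have h4 := congrArg ZMod.val h1
  rw [ZMod.val_natCast] at h4
  rw [eu, ← h4]
  rcases jacobiSym.trichotomy k p with e | e | e <;> rw [e]
  · simp
  · simp [ZMod.val_one]
  · rw [Int.cast_neg, Int.cast_neg, Int.cast_one, Int.cast_one, if_neg, if_neg]
    · rfl
    · exact fun j => ZMod.neg_one_ne_one ((ZMod.val_eq_one hp.one_lt _).1 j)
    · simp

/-- The character at two. -/
def c2 (t k : ℕ) : ℕ :=
  if t = 0 then 1 else if k % 2 = 0 then 0 else if k % 8 = 1 ∨ k % 8 = t then 1 else 256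

/-- The residue class that determines the character at two. -/
def ix (δ : ℤ) : ℕ := if δ = 1 then 0 else if δ = -1 then 5 else if δ = 2 then 7 else 3

/-- The quadratic character in computable form. -/
def kn (t g p k : ℕ) : ℕ :=
  c2 t k * ((if g % 3 = 0 then eu 3 k else 1) * (if g % 5 = 0 then eu 5 k else 1) * eu p k)

theorem kn_spec {δ m q : ℤ} (hs : Spt δ m) (hp : q.natAbs.Prime) (h4 : q % 4 = 1) (k : ℕ) :
    (kro (δ * m * q) k : ZMod 257) = kn (ix δ) m.natAbs q.natAbs k := by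
  have h2 : q.natAbs ≠ 2 := by omega
  rw [← kap_eq hs rfl h4, kap, oc_eq hs rfl, Int.natAbs_mul,
    jacobiSym.mul_right' _ (by have := hs.m4; omega) hp.ne_zero, kn, Int.cast_mul, Int.cast_mul,
    Nat.cast_mul, Nat.cast_mul, eu_spec hp h2]
  obtain ⟨h5, h6⟩ := hs.cases
  congr 1
  · have h7 := hs.m4
    have h8 : k % 8 < 8 := Nat.mod_lt _ (by norm_num)
    unfold k2 c2 ix
    rcases h5 with rfl | rfl | rfl | rfl <;>
      simp only [reduceIte, Int.reduceNeg, Int.reduceEq, OfNat.ofNat_ne_zero]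
    · rw [if_neg (by omega), if_neg (by omega)]
      rfl
    · rw [if_neg (by omega), if_pos (by omega), Int.cast_natCast, ZMod.χ₄_nat_eq_if_mod_four]
      split_ifs <;> first | rfl | omega
    · rw [if_pos (by omega), if_pos (by omega), Int.cast_natCast, ZMod.χ₈_nat_eq_if_mod_eight]
      split_ifs <;> rfl
    · rw [if_pos (by omega), if_neg (by omega), Int.cast_natCast, ZMod.χ₈'_nat_eq_if_mod_eight]
      split_ifs <;> rfl
  · have e3 := eu_spec Nat.prime_three (by norm_num) k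
    have e5 := eu_spec Nat.prime_five (by norm_num) k
    congr 1
    rcases h6 with rfl | rfl | rfl | rfl
    · simp
    · simpa using e3
    · simpa using e5
    · rw [show (-15 : ℤ).natAbs = 3 * 5 from rfl, jacobiSym.mul_right, Int.cast_mul, e3, e5]
      simp

/-- Sums over intervals whose length is a power of two. -/
def bs (N : ℕ) (f : ℕ → ℕ) : ℕ → ℕ → ℕ
  | 0, a => if a < N then f a else 0
  | k + 1, a => if a < N then bs N f k a + fc (a + 2 ^ k) (bs N f k) else 0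

theorem rel_bs {N : ℕ} {f : ℕ → ℕ} {F : ℕ → ℂ} (h : ∀ a, Rel (F a) (f a)) (k : ℕ) : ∀ a,
    Rel (∑ i ∈ range (2 ^ k), if a + i < N then F (a + i) else 0) (bs N f k a) := by
  induction k with
  | zero =>
    intro a
    rw [pow_zero, sum_range_one, bs, add_zero]
    split_ifs
    exacts [h a, Rel.zero]
  | succ k ih =>
    intro a
    rw [bs, fc_eq]
    split_ifs with j
    · rw [pow_succ, mul_two, sum_range_add]
      simpa only [add_assoc] using (ih a).add (ih (a + 2 ^ k))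
    · rw [sum_eq_zero fun i _ => if_neg (by omega)]
      exact Rel.zero

/-- The twisted period in computable form. -/
def pn (δ m : ℤ) (p N : ℕ) : ℕ :=
  fc N fun N => fc (ix δ) fun t => fc m.natAbs fun g => bs N (fun k => fc (kn t g p k) fun x =>
    if x = 0 then 0 else x * cf (N + 1) 1 0 1 k N) 14 0 % 257

theorem perD_ne {δ m q : ℤ} (hs : Spt δ m) (hp : q.natAbs.Prime) (h4 : q % 4 = 1)
    (h0 : cond (δ * m * q) ≠ 0) (h1 : cond (δ * m * q) ≤ 2 ^ 14)
    (h : pn δ m q.natAbs (cond (δ * m * q)) ≠ 0) : perD (δ * m * q) ≠ 0 := by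
  simp only [pn, fc_eq] at h
  refine Rel.ne ?_ h
  convert rel_bs (F := fun k : ℕ => (kro (δ * m * q) k : ℂ) * ms k (cond (δ * m * q)))
    (fun a => ?_) 14 0 using 1
  · simp only [zero_add]
    rw [← sum_filter, perD]
    exact sum_congr (by ext; simp; omega) fun _ _ => rfl
  · have := (rel_ms a h0).mul (kn_spec hs hp h4 a)
    split_ifs with j
    · rwa [j, zero_mul] at this
    · exact this

/-- For every twist at two, three and five and every class a prime with nonvanishing period. -/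
def seeds : List ((ℤ × ℤ × ℤ × ℤ × ℤ) × ℕ) :=
  [((1, 1, 1, 1, 1), 61), ((1, 1, 1, -1, -1), 17), ((1, 1, -1, 1, -1), 23),
  ((1, 1, -1, -1, 1), 19), ((1, -3, 1, 1, 1), 109), ((1, -3, 1, -1, 1), 29),
  ((1, -3, -1, 1, -1), 23), ((1, -3, -1, -1, -1), 7), ((1, 5, 1, 1, 1), 61),
  ((1, 5, 1, 1, -1), 13), ((1, 5, -1, -1, 1), 31), ((1, 5, -1, -1, -1), 7),
  ((1, -15, 1, 1, 1), 61), ((1, -15, 1, 1, -1), 13), ((1, -15, 1, -1, 1), 29),
  ((1, -15, 1, -1, -1), 17), ((-1, 1, 1, 1, 1), 61), ((-1, 1, 1, -1, -1), 53),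
  ((-1, 1, -1, 1, -1), 23), ((-1, 1, -1, -1, 1), 19), ((-1, -3, 1, 1, -1), 13),
  ((-1, -3, 1, -1, -1), 17), ((-1, -3, -1, 1, 1), 11), ((-1, -3, -1, -1, 1), 19),
  ((-1, 5, 1, 1, 1), 181), ((-1, 5, 1, 1, -1), 37), ((-1, 5, -1, -1, 1), 19),
  ((-1, 5, -1, -1, -1), 7), ((-1, -15, -1, 1, 1), 11), ((-1, -15, -1, 1, -1), 23),
  ((-1, -15, -1, -1, 1), 139), ((-1, -15, -1, -1, -1), 7), ((2, 1, 1, 1, 1), 61),
  ((2, 1, 1, -1, -1), 53), ((2, 1, -1, 1, -1), 23), ((2, 1, -1, -1, 1), 19),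
  ((2, -3, 1, 1, -1), 13), ((2, -3, 1, -1, -1), 17), ((2, -3, -1, 1, 1), 11),
  ((2, -3, -1, -1, 1), 19), ((2, 5, 1, -1, 1), 29), ((2, 5, 1, -1, -1), 17),
  ((2, 5, -1, 1, 1), 11), ((2, 5, -1, 1, -1), 23), ((2, -15, 1, 1, 1), 61),
  ((2, -15, 1, 1, -1), 13), ((2, -15, 1, -1, 1), 29), ((2, -15, 1, -1, -1), 17),
  ((-2, 1, 1, 1, 1), 61), ((-2, 1, 1, -1, -1), 17), ((-2, 1, -1, 1, -1), 23),
  ((-2, 1, -1, -1, 1), 31), ((-2, -3, 1, 1, 1), 61), ((-2, -3, 1, -1, 1), 41),
  ((-2, -3, -1, 1, -1), 107), ((-2, -3, -1, -1, -1), 7), ((-2, 5, 1, -1, 1), 29),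
  ((-2, 5, 1, -1, -1), 17), ((-2, 5, -1, 1, 1), 11), ((-2, 5, -1, 1, -1), 23),
  ((-2, -15, -1, 1, 1), 11), ((-2, -15, -1, 1, -1), 47), ((-2, -15, -1, -1, 1), 19),
  ((-2, -15, -1, -1, -1), 7)]

/-- The properties of an entry of the list. -/
abbrev SeedOk (x : (ℤ × ℤ × ℤ × ℤ × ℤ) × ℕ) : Prop := x.1.2.2.1 * x.2 % 4 = 1 ∧ 5 < x.2 ∧
  eu 3 (x.1.2.2.1 * x.2 % 3).natAbs = (x.1.2.2.2.1 % 257).natAbs ∧
  eu 5 (x.1.2.2.1 * x.2 % 5).natAbs = (x.1.2.2.2.2 % 257).natAbs ∧
  cond (x.1.1 * x.1.2.1 * (x.1.2.2.1 * x.2)) ≠ 0 ∧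
  cond (x.1.1 * x.1.2.1 * (x.1.2.2.1 * x.2)) ≤ 2 ^ 14 ∧
  pn x.1.1 x.1.2.1 x.2 (cond (x.1.1 * x.1.2.1 * (x.1.2.2.1 * x.2))) ≠ 0

theorem seeds_a : ∀ x ∈ seeds.take 30, SeedOk x := by decide +kernel

theorem seeds_b : ∀ x ∈ (seeds.drop 30).take 14, SeedOk x := by decide +kernel

theorem seeds_c : ∀ x ∈ ((seeds.drop 30).drop 14).take 6, SeedOk x := by decide +kernel

theorem seeds_d : ∀ x ∈ ((seeds.drop 30).drop 14).drop 6, SeedOk x := by decide +kernel

theorem seeds_spec (x : (ℤ × ℤ × ℤ × ℤ × ℤ) × ℕ) (h : x ∈ seeds) : SeedOk x := by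
  rw [← List.take_append_drop 30 seeds, ← List.take_append_drop 14 (seeds.drop 30),
    ← List.take_append_drop 6 ((seeds.drop 30).drop 14)] at h
  simp only [List.mem_append] at h
  rcases h with h | h | h | h
  exacts [seeds_a x h, seeds_b x h, seeds_c x h, seeds_d x h]

theorem seeds_prime : ∀ x ∈ seeds, x.2.Prime := by
  simp only [seeds, List.forall_mem_cons]
  norm_num

theorem seeds_all : ∀ δ ∈ [1, -1, 2, -2], ∀ m ∈ [1, -3, 5, -15], ∀ s ∈ [1, -1], ∀ a ∈ [1, -1],
    ∀ b ∈ [1, -1], (δ * m * s).sign * ((if 3 ∣ m then 1 else (if δ * m % 3 = 1 then a else -a)) *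
      if 5 ∣ m then -1 else (if δ * m % 5 = 1 ∨ δ * m % 5 = 4 then b else -b)) = 1 →
    ∃ x ∈ seeds, x.1 = (δ, m, s, a, b) := by
  decide +kernel

theorem eu_inj {p : ℕ} (hp : p.Prime) (h2 : p ≠ 2) {x a : ℤ} (ha : a = 1 ∨ a = -1)
    (h : eu p (x % p).natAbs = (a % 257).natAbs) : J(x | p) = a := by
  have h1 := eu_spec hp h2 (x % p).natAbs
  rw [h, Int.natAbs_of_nonneg (Int.emod_nonneg _ (by exact_mod_cast hp.ne_zero)),
    ← jacobiSym.mod_left] at h1
  rcases ha with rfl | rfl <;> rcases jacobiSym.trichotomy x p with e | e | e <;> rw [e] at h1 ⊢ <;>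
    exact absurd h1 (by decide)

theorem seed {δ m d : ℤ} (hs : Spt δ m) (h0 : Cls0 d) (h : rootNo (δ * m * d) = 1) :
    ∃ q : ℤ, Cls0 q ∧ q.natAbs.Prime ∧ 0 < q * d ∧ J(q | 3) = J(d | 3) ∧ J(q | 5) = J(d | 5) ∧
      perD (δ * m * q) ≠ 0 := by
  have d0 := h0.sqf.ne_zero
  have p5 : Prime (5 : ℤ) := Nat.prime_iff_prime_int.1 Nat.prime_five
  have j : ∀ p : ℕ, p.Prime → ¬ (p : ℤ) ∣ d → J(d | p) = 1 ∨ J(d | p) = -1 := fun p hp k =>
    Int.isUnit_iff.1 (IsUnit.of_mul_eq_one _ ((sq _).symm.trans (jac_sq hp k)))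
  have j3 := j 3 Nat.prime_three h0.m3
  have j5 := j 5 Nat.prime_five h0.m5
  have sg : d.sign = 1 ∨ d.sign = -1 := by
    rcases lt_or_gt_of_ne d0 with k | k
    exacts [.inr (Int.sign_eq_neg_one_of_neg k), .inl (Int.sign_eq_one_of_pos k)]
  obtain ⟨h5, h6⟩ := hs.cases
  obtain ⟨⟨_, p⟩, hx, rfl⟩ := seeds_all δ (by simpa using h5) m (by simpa using h6) d.sign
    (by simpa using sg) J(d | 3) (by simpa using j3) J(d | 5) (by simpa using j5) (by
      refine Eq.trans ?_ h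
      rw [rootNo, rt0, Int.sign_mul _ d, Int.sign_mul _ d.sign, Int.sign_sign,
        jacobiSym.mul_left _ d, jacobiSym.mul_left _ d]
      simp only [Int.prime_three.dvd_mul (a := δ * m), p5.dvd_mul (a := δ * m), h0.m3, h0.m5,
        or_false]
      rcases h5 with rfl | rfl | rfl | rfl <;> rcases h6 with rfl | rfl | rfl | rfl <;> norm_num)
  obtain ⟨k1, k2, k3, k4, k5, k6, k7⟩ := seeds_spec _ hx
  have hp : p.Prime := seeds_prime _ hx
  have e : (d.sign * p).natAbs = p := by rcases sg with k | k <;> simp [k]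
  have nd : ∀ l : ℕ, l.Prime → l ≤ 5 → ¬ (l : ℤ) ∣ d.sign * p := fun l hl k i => by
    have := (Nat.prime_dvd_prime_iff_eq hl hp).1 (e ▸ Int.natCast_dvd.1 i)
    omega
  refine ⟨d.sign * p, ⟨Int.squarefree_natAbs.1 (e.symm ▸ hp.squarefree), k1,
    nd 3 Nat.prime_three (by norm_num), nd 5 Nat.prime_five le_rfl⟩, e.symm ▸ hp, ?_,
    eu_inj Nat.prime_three (by norm_num) j3 k3, eu_inj Nat.prime_five (by norm_num) j5 k4,
    perD_ne hs (e.symm ▸ hp) k1 k5 k6 (e.symm ▸ k7)⟩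
  rw [mul_right_comm, Int.sign_mul_self_eq_natAbs]
  have := hp.pos
  positivity

end Pool.Agent.Lib.MP_696deb_nt.B3
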