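import Pool.Agent.Lib.MP_696deb_nt.B3.Cnt
import Pool.Agent.Lib.MP_696deb_nt.B2.Top3

/-! From the converse theorem for all squarefree twists to the two final statements. -/

set_option autoImplicit false

open scoped Classical
open Finset Filter Topology NumberTheorySymbols

namespace Pool.Agent.Lib.MP_696deb_nt.B3

/-- The converse theorem for one twist. -/
def Conv (d : ℤ) : Prop :=
  B2.Cork d → BSD (-12987 * d ^ 2) (-263466 * d ^ 3) (if rootNo d = 1 then 0 else 1)

theorem rootNo_cls0 {d : ℤ} (h : B2.Cls0 d) : rootNo d = J(-15 | d.natAbs) := by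
  have h4 := h.m4
  have ho : Odd d.natAbs := Nat.odd_iff.2 (by omega)
  rw [rootNo, rt0, if_neg h.m3, if_neg h.m5, jacobiSym.neg _ ho,
    show (15 : ℤ) = (3 : ℕ) * (5 : ℕ) by norm_num, jacobiSym.mul_left,
    jacobiSym.quadratic_reciprocity_one_mod_four (a := 5) (by norm_num) ho]
  obtain ⟨N, rfl | rfl⟩ := Int.eq_nat_or_neg d
  · rw [Int.natAbs_natCast] at ho ⊢
    rw [ZMod.χ₄_nat_one_mod_four (by omega), Int.sign_eq_one_of_pos (by omega),
      jacobiSym.quadratic_reciprocity_one_mod_four' (a := 3) (by decide) (by omega)]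
  · rw [Int.natAbs_neg, Int.natAbs_natCast] at ho ⊢
    rw [ZMod.χ₄_nat_three_mod_four (by omega), Int.sign_eq_neg_one_of_neg (by omega),
      jacobiSym.quadratic_reciprocity_three_mod_four (a := 3) (by norm_num) (by omega),
      jacobiSym.neg _ (by decide : Odd 3), jacobiSym.neg _ (by decide : Odd 5),
      ZMod.χ₄_nat_three_mod_four (by norm_num), ZMod.χ₄_nat_one_mod_four (by norm_num)]
    ring

theorem conv_cls0 {d : ℤ} (h : B2.Cls0 d) : Conv d := fun k => by
  rw [rootNo_cls0 h]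
  exact B2.bsd_all B2.smithStmt h k

theorem corank_of {d : ℤ} (hd : Squarefree d) (hc : Conv d)
    (h : B2.Stmt.CorankLE (twist15 d) 1) :
    BSD (-12987 * d ^ 2) (-263466 * d ^ 3) (if rootNo d = 1 then 0 else 1) :=
  hc (B2.m_cork hd.ne_zero h)

theorem goldfeld_of (hc : ∀ d, Squarefree d → Conv d) {r : ℕ} (hr : r ≤ 1) :
    Tendsto (fun X : ℕ =>
      (Set.ncard {d : ℤ | |d| ≤ X ∧ Squarefree d ∧
        ∀ a b : ℤ, a = -12987 * d ^ 2 → b = -263466 * d ^ 3 → BSD a b r} : ℝ) /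
        (Set.ncard {d : ℤ | |d| ≤ X ∧ Squarefree d} : ℝ)) atTop (𝓝 (1 / 2)) := by
  refine half_all
    (P := fun r d => ∀ a b : ℤ, a = -12987 * d ^ 2 → b = -263466 * d ^ 3 → BSD a b r)
    (fun d h0 h1 => ?_) (fun ε h => ?_) hr
  · obtain ⟨F, -, -, f1, -, f2⟩ := h0 _ _ rfl rfl
    obtain ⟨G, -, -, g1, -, g2⟩ := h1 _ _ rfl rfl
    exact absurd (f2.symm.trans (f1.trans (g1.symm.trans g2))) (by decide)
  · obtain ⟨X0, h1⟩ := Sm.smith h
    refine ⟨X0, fun X hX => le_trans (Nat.cast_le.2 (card_le_card fun d hd => ?_)) (h1 X hX)⟩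
    rw [mem_filter] at hd ⊢
    obtain ⟨h2, h3, h7⟩ := hd
    refine ⟨h2, h3, fun k => h7 ?_⟩
    rintro a b rfl rfl
    have := hc d h3 k
    split_ifs at this ⊢ <;> exact_mod_cast this

end Pool.Agent.Lib.MP_696deb_nt.B3
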