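import Pool.Agent.Lib.MP_696deb_nt.B3.Top2
import Pool.Agent.Lib.MP_696deb_nt.B3.LF
import Pool.Agent.Lib.MP_696deb_nt.B3.Fin

/-! The converse theorem for all squarefree twists from the two analytic statements. -/

set_option autoImplicit false

open scoped Classical
open Finset NumberTheorySymbols

namespace Pool.Agent.Lib.MP_696deb_nt.B3

open B2

/-- The central value does not vanish. -/
def An0 : Prop := ∀ δ m d : ℤ, Spt δ m → δ * m ≠ 1 → Cls0 d → Cork (δ * m * d) →
  rootNo (δ * m * d) = 1 → perD (δ * m * d) ≠ 0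

/-- The central derivative does not vanish. -/
def An1 : Prop := ∀ δ m d : ℤ, Spt δ m → δ * m ≠ 1 → Cls0 d → Cork (δ * m * d) →
  rootNo (δ * m * d) = -1 → deriv (LD (δ * m * d)) 1 ≠ 0

theorem conv_all (h0 : An0) (h1 : An1) (D : ℤ) (hD : Squarefree D) : Conv D := by
  obtain ⟨δ, m, d, hs, hd, rfl⟩ := exists_spt hD
  by_cases h : δ * m = 1
  · rw [h, one_mul]
    exact conv_cls0 hd
  intro hc
  obtain ⟨-, -, -, -, -, -, -, -, -, -, hf, hr⟩ := core3 hs rfl h hd hc one_ne_zero
  split_ifs at hr ⊢ with k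
  · exact bsd_zero hD (h0 δ m d hs h hd hc k) (finite_iff_finrank.2 hr)
  · have k' := (rootNo_cases hD.ne_zero).resolve_left k
    exact bsd_one hD k' (h1 δ m d hs h hd hc k') hf hr

end Pool.Agent.Lib.MP_696deb_nt.B3
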