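import Pool.Agent.Lib.MP_696deb_nt.B3.SGk
import Pool.Agent.Lib.MP_696deb_nt.B3.SD
import Pool.Agent.Lib.MP_696deb_nt.B3.Top3

/-! The central value does not vanish if the corank is small and the sign is one. -/

set_option autoImplicit false

open scoped Classical
open Finset NumberTheorySymbols

namespace Pool.Agent.Lib.MP_696deb_nt.B3

open B2

variable {δ m e q x b r : ℤ} {n : ℕ}

theorem an0_root (hq : Cls0 q) (hx : Cls0 x) (h3 : J(q | 3) = J(x | 3))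
    (h5 : J(q | 5) = J(x | 5)) : ∃ β γ : ℤ, 60 ∣ β ^ 2 - q * x ∧ 60 ∣ β * γ - 1 := by
  have k3 : J(q * x | 3) = 1 := by
    rw [jacobiSym.mul_left, h3, ← sq, jac_sq Nat.prime_three hx.m3]
  have k5 : J(q * x | 5) = 1 := by
    rw [jacobiSym.mul_left, h5, ← sq, jac_sq Nat.prime_five hx.m5]
  have k4 : q * x % 4 = 1 := by rw [Int.mul_emod, hq.m4, hx.m4]; rfl
  generalize q * x = y at *
  have j3 : y % 3 = 1 := by
    rw [jacobiSym.mod_left] at k3
    have : y % 3 = 0 ∨ y % 3 = 1 ∨ y % 3 = 2 := by omega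
    rcases this with h | h | h <;> simp only [Nat.cast_ofNat, h] at k3 ⊢ <;> norm_num at k3
  have j5 : y % 5 = 1 ∨ y % 5 = 4 := by
    rw [jacobiSym.mod_left] at k5
    have : y % 5 = 0 ∨ y % 5 = 1 ∨ y % 5 = 2 ∨ y % 5 = 3 ∨ y % 5 = 4 := by omega
    rcases this with h | h | h | h | h <;> rw [Nat.cast_ofNat, h] at k5 <;>
      first | omega | norm_num at k5
  rcases j5 with h | h
  exacts [⟨1, 1, by omega, by norm_num⟩, ⟨7, 43, by omega, by norm_num⟩]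

/-- A second field with the same partner. -/
theorem an0_tri (hq : Cls0 q) (hx : Cls0 x) (h0 : 0 < q * x) (hn : Good n) (hm : x * b = -n)
    (hr : 60 ∣ r ^ 2 + n) (hb : IsCoprime q b) {β γ : ℤ} (h1 : 60 ∣ β ^ 2 - q * x)
    (h2 : 60 ∣ β * γ - 1) : Tri q b x (q * b).natAbs (11 * q.natAbs * r * γ) ∧ Tri x b q n r ∧
      30 ∣ 11 * q.natAbs * r * γ * β - 11 * q.natAbs * r ∧
      30 ∣ r * β - 11 * x.natAbs * (11 * q.natAbs * r * γ) := by
  have t : Tri x b q n r := ⟨hn, hm, hx.m4, hq, mul_comm q x ▸ h0, hr⟩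
  obtain ⟨-, cb, k0, k1⟩ := t.cls
  have k2 : ((q * b).natAbs : ℤ) = -(q * b) := by rw [mul_comm] at k0; omega
  have k3 : q * b % 4 = 1 := by rw [Int.mul_emod, hq.m4, cb.m4]; rfl
  have k4 : (q.natAbs : ℤ) * x.natAbs = q * x := by rw [← Nat.cast_mul, ← Int.natAbs_mul]; omega
  have k5 : (q.natAbs : ℤ) ^ 2 = q ^ 2 := Int.natAbs_sq q
  obtain ⟨i, hi⟩ := h1
  obtain ⟨j, hj⟩ := h2
  obtain ⟨l, hl⟩ := hr
  refine ⟨⟨⟨Int.squarefree_natAbs.2 (squarefree_mul_iff.2 ⟨hb.isRelPrime, hq.sqf, cb.sqf⟩),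
    by omega, ?_⟩, by omega, hq.m4, hx, h0, ?_⟩, t, ⟨22 * q.natAbs * r * j, by
      linear_combination 11 * q.natAbs * r * hj⟩, ⟨2 * r * γ * i - 4 * q * x * r * γ - 2 * r * β * j,
      by linear_combination -121 * r * γ * k4 + r * γ * hi - r * β * hj⟩⟩
  · rw [Int.natAbs_mul]
    refine Nat.Coprime.mul_left (Nat.Coprime.mul_right (m := 3) (n := 5) ?_ ?_)
      (hn.cop.coprime_dvd_left ⟨_, k1.symm.trans (mul_comm _ _)⟩)
    exacts [(Nat.prime_three.coprime_iff_not_dvd.2 fun k => hq.m3 (Int.natCast_dvd.2 k)).symm,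
      (Nat.prime_five.coprime_iff_not_dvd.2 fun k => hq.m5 (Int.natCast_dvd.2 k)).symm]
  · rw [k2]
    exact ⟨121 * q ^ 2 * γ ^ 2 * l - 121 * q * b * γ ^ 2 * i + 2 * q * b +
      121 * q * b * (2 * j + 60 * j ^ 2), by
        linear_combination 121 * r ^ 2 * γ ^ 2 * k5 + 121 * q ^ 2 * γ ^ 2 * hl -
          121 * q ^ 2 * γ ^ 2 * hm - 121 * q * b * γ ^ 2 * hi +
          121 * q * b * (β * γ + 1 + 60 * j) * hj⟩

theorem an0_nsq (hq : Cls0 q) (hx : Cls0 x) (hc : IsCoprime q x) (h : q ≠ x) :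
    ¬ IsSquare (q * x) := by
  rintro ⟨y, hy⟩
  have h1 : IsUnit (q * x) := by
    have := (squarefree_mul_iff.2 ⟨hc.isRelPrime, hq.sqf, hx.sqf⟩) y (hy ▸ dvd_rfl)
    exact hy ▸ this.mul this
  have h2 := Int.isUnit_iff.1 (isUnit_of_mul_isUnit_left h1)
  have h3 := Int.isUnit_iff.1 (isUnit_of_mul_isUnit_right h1)
  have := hq.m4
  have := hx.m4
  omega

theorem an0_inv (hq : Cls0 q) (hx : Cls0 x) {β : ℤ} (h : 60 ∣ β ^ 2 - q * x) :
    60 ∣ β * β ^ 3 - 1 := by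
  have key : ∀ p : ℤ, Prime p → p ∣ 60 → ¬ p ∣ q → ¬ p ∣ x → ¬ p ∣ β := fun p hp k1 k2 k3 k4 =>
    (hp.dvd_or_dvd ((dvd_sub_right (dvd_pow k4 two_ne_zero)).1 (k1.trans h))).elim k2 k3
  have h2 := key 2 Int.prime_two (by norm_num) (by have := hq.m4; omega) (by have := hx.m4; omega)
  have h3 := key 3 Int.prime_three (by norm_num) hq.m3 hx.m3
  have h5 := key 5 (Nat.prime_iff_prime_int.1 Nat.prime_five) (by norm_num) hq.m5 hx.m5
  have h6 : ∀ u : Fin 60, ¬ 2 ∣ u.val → ¬ 3 ∣ u.val → ¬ 5 ∣ u.val → u.val ^ 4 % 60 = 1 := by decide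
  obtain ⟨u, hu⟩ : ∃ u : ℕ, β % 60 = u := ⟨(β % 60).toNat, by omega⟩
  have h7 := h6 ⟨u, by omega⟩ (by simp only; omega) (by simp only; omega) (by simp only; omega)
  have h8 : β ^ 4 ≡ (u : ℤ) ^ 4 [ZMOD 60] := Int.ModEq.pow 4 (by unfold Int.ModEq; omega)
  rw [show β * β ^ 3 = β ^ 4 by ring]
  have h9 : ((u : ℤ) ^ 4) % 60 = 1 := by exact_mod_cast h7
  unfold Int.ModEq at h8
  omega

/-- The nonvanishing passes from one discriminant to another of the same class. -/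
theorem th_ne (h : Dsc δ m e) (hq : Cls0 q) (hx : Cls0 x) (hc : IsCoprime q x) (h0 : 0 < q * x)
    (hne : q ≠ x) {β : ℤ} (k1 : 60 ∣ β ^ 2 - q * x) (hk : Cork (δ * m * x))
    (hr : rootNo (δ * m * x) = 1) (hp : perD (δ * m * q) ≠ 0) :
    thS (δ * m * q) (wX e q x β) ≠ 0 ∧ perD (δ * m * x) ≠ 0 := by
  have f0 : δ * m ≠ 0 := left_ne_zero_of_mul (h.sqf hx).ne_zero
  obtain ⟨b, n, r, _, _, ct, hr', cop, -, hT, -⟩ := core3 h.spt h.eq h.ne hx hk
    (Int.natAbs_ne_zero.2 hq.sqf.ne_zero)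
  have hn := ct.nok.good
  obtain ⟨t1, t2, k3, k4⟩ := an0_tri hq hx h0 hn ct.mul (r := -r) (by rwa [neg_sq])
    (Int.isCoprime_iff_gcd_eq_one.2 cop.symm) k1 (an0_inv hq hx k1)
  have hb : rootNo (δ * m * b) = -1 := by
    simpa [hr] using rootNo_swap f0 hn hr' ct.mul
  have e0 := h.ne_zero
  obtain ⟨T1, hT1⟩ := exists_freps (D := q * b * e ^ 2)
    (mul_neg_of_neg_of_pos (mul_comm b q ▸ t2.cls.2.2.1) (by positivity))
    (11 * q.natAbs * -r * β ^ 3 * e.natAbs)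
  obtain ⟨T2, hT2⟩ := exists_freps (D := x * b * e ^ 2)
    (mul_neg_of_neg_of_pos (mul_comm b x ▸ t1.cls.2.2.1) (by positivity)) (-r * e.natAbs)
  have hT1' := hT1
  have hT2' := hT2
  rw [t1.mul, neg_mul] at hT1'
  rw [t2.mul, neg_mul] at hT2'
  have hy := hT T2 (by rwa [← neg_mul r])
  rw [hW_swap h.spt h.eq hn ct.mul hT2', ← tq_eq_zero] at hy
  have ns := an0_nsq hq hx hc hne
  obtain ⟨c1, s1, e1⟩ := gkz3 h t1 hb ns k3 hT1' (mul_comm x b ▸ hT2)
  obtain ⟨c2, -, e2⟩ := gkz3 h t2 hb (mul_comm q x ▸ ns) k4 hT2' (mul_comm q b ▸ hT1)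
  have sg : ∀ w, thS (δ * m * x) w = thS (δ * m * q) w := fun w => by
    refine if_congr ?_ rfl rfl
    have : 0 < δ * m * x * (δ * m * q) := by
      rw [show δ * m * x * (δ * m * q) = (δ * m) ^ 2 * (q * x) by ring]
      positivity
    exact (pos_iff_pos_of_mul_pos this)
  rw [← wX_swap h hq hx hc h0, sg] at e2
  have k5 : thS (δ * m * q) (wX e q x β) ≠ 0 := fun j => by
    rw [j, zero_smul] at e1
    exact hy (tq_cancel (mul_ne_zero (by omega) ((th_V h hq).2 hp)) e1.symm)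
  refine ⟨k5, (th_V h hx).1 fun k => ?_⟩
  rw [k, mul_zero, zero_smul] at e2
  exact hy (tq_cancel k5 e2)

theorem an0_step (h : Dsc δ m e) (hq : Cls0 q) (hx : Cls0 x) (hc : IsCoprime q x) (h0 : 0 < q * x)
    (h3 : J(q | 3) = J(x | 3)) (h5 : J(q | 5) = J(x | 5)) (hk : Cork (δ * m * x))
    (hr : rootNo (δ * m * x) = 1) (hp : perD (δ * m * q) ≠ 0) : perD (δ * m * x) ≠ 0 := by
  rcases eq_or_ne q x with rfl | hne
  · exact hp
  obtain ⟨β, -, k, -⟩ := an0_root hq hx h3 h5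
  exact (th_ne h hq hx hc h0 hne k hk hr hp).2

/-- Discriminants of small corank in a class, prime to a given number. -/
theorem exists_cork (hs : Spt δ m) (hx : Cls0 x) {M : ℕ} (hM : M ≠ 0) :
    ∃ y : ℤ, Cls0 y ∧ 0 < y * x ∧ 60 ∣ y - x ∧ IsCoprime y M ∧ Cork (δ * m * y) := by
  have x0 := hx.sqf.ne_zero
  have x4 := hx.m4
  have f30 : δ * m ∣ 30 := mul_dvd_mul hs.d2 hs.d15
  have f0 : δ * m ≠ 0 := ne_zero_of_dvd_ne_zero (by norm_num) f30
  have c60 : x.natAbs.Coprime 60 := Nat.Coprime.mul_right (m := 2 ^ 2 * 3) (n := 5)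
    (Nat.Coprime.mul_right (Nat.Coprime.pow_right 2
      (Nat.coprime_two_right.2 (Nat.odd_iff.2 (by omega))))
      (Nat.prime_three.coprime_iff_not_dvd.2 fun k => hx.m3 (Int.natCast_dvd.2 k)).symm)
    (Nat.prime_five.coprime_iff_not_dvd.2 fun k => hx.m5 (Int.natCast_dvd.2 k)).symm
  obtain ⟨a, a1, a2, a3⟩ := Nat.forall_exists_prime_gt_and_modEq (60 * M) (q := 60)
    (a := x.natAbs) (by norm_num) c60
  have f1 : (δ * m).natAbs ∣ 30 := Int.natAbs_dvd_natAbs.2 f30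
  have sg : ∀ {u : ℤ}, u ≠ 0 → u.sign = 1 ∨ u.sign = -1 := fun k =>
    (lt_or_gt_of_ne k).elim (fun j => .inr (Int.sign_eq_neg_one_of_neg j))
      fun j => .inl (Int.sign_eq_one_of_pos j)
  have ca : a.Coprime (60 * M) := Nat.coprime_of_lt_prime (by positivity) a1 a2
  obtain ⟨y, y1, y2, y3⟩ := exists_in_class smithStmt (sg (mul_ne_zero f0 x0))
    (Squarefree.squarefree_of_dvd f1 (by decide +kernel)) (m := 60 * M) (by positivity)
    (Dvd.dvd.mul_right (by norm_num) _) ((f1.mul_left 2).mul_right _) ca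
  have y4 : y % 60 = x.natAbs % 60 := ((show y ≡ a [MOD 60 * M] from y1).of_mul_right _).trans a3
  have y5 : y.Coprime (60 * M) := by
    rw [Nat.Coprime, (show y ≡ a [MOD 60 * M] from y1).gcd_eq]
    exact ca
  have y6 : 60 ∣ x.sign * y - x := by
    conv_rhs => rw [← Int.sign_mul_natAbs x]
    rw [Int.sign_mul, Int.sign_sign, Int.sign_eq_one_of_pos (a := x.natAbs) (by omega), mul_one,
      ← mul_sub]
    exact Dvd.dvd.mul_left (by omega) _
  have y7 : (x.sign * y).natAbs = y := by rcases sg x0 with k | k <;> simp [k]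
  have m3 := hx.m3
  have m5 := hx.m5
  refine ⟨x.sign * y, ⟨Int.squarefree_natAbs.1 (y7.symm ▸ y2.of_mul_right), by omega, by omega,
    by omega⟩, ?_, y6, ?_, ?_⟩
  · rw [mul_right_comm, Int.sign_mul_self_eq_natAbs]
    have := y2.of_mul_right.ne_zero
    positivity
  · rw [Int.isCoprime_iff_gcd_eq_one, Int.gcd, y7]
    exact y5.coprime_mul_left_right
  · convert y3 using 1
    rw [Int.sign_mul, Nat.cast_mul]
    conv_lhs => rw [← Int.sign_mul_natAbs (δ * m)]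
    ring

theorem rootNo_congr {f y : ℤ} (h0 : 0 < y * x) (h : 60 ∣ y - x) :
    rootNo (f * y) = rootNo (f * x) := by
  have h1 : y.sign = x.sign := by
    rcases pos_and_pos_or_neg_and_neg_of_mul_pos h0 with k | k
    · rw [Int.sign_eq_one_of_pos k.1, Int.sign_eq_one_of_pos k.2]
    · rw [Int.sign_eq_neg_one_of_neg k.1, Int.sign_eq_neg_one_of_neg k.2]
  rw [rootNo, rootNo, Int.sign_mul, Int.sign_mul, h1, rt0_emod, rt0_emod (f * x),
    (Int.emod_emod_of_dvd _ dvd_rfl).symm.trans ((Int.emod_emod_of_dvd _ dvd_rfl).trans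
      (Int.ModEq.mul_left f (Int.modEq_iff_dvd.2 (dvd_sub_comm.1
        (Dvd.dvd.trans (by norm_num) h)) : y ≡ x [ZMOD 15])))]

theorem an0 : An0 := fun δ m d hs h1 hd hk hr => by
  have h : Dsc δ m _ := ⟨hs, rfl, h1⟩
  obtain ⟨q, q1, -, q2, q3, q5, q6⟩ := seed hs hd hr
  obtain ⟨y, y1, y2, y3, y4, y5⟩ := exists_cork hs hd (M := (q * d).natAbs) (by omega)
  rw [Int.isCoprime_iff_gcd_eq_one, Int.gcd, Int.natAbs_natCast, ← Int.gcd,
    ← Int.isCoprime_iff_gcd_eq_one] at y4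
  have j3 : J(y | 3) = J(d | 3) := jac_congr (Dvd.dvd.trans (by norm_num) y3)
  have j5 : J(y | 5) = J(d | 5) := jac_congr (Dvd.dvd.trans (by norm_num) y3)
  refine an0_step h y1 hd y4.of_mul_right_right y2 j3 j5 hk hr (an0_step h q1 y1
    y4.of_mul_right_left.symm ?_ (q3.trans j3.symm) (q5.trans j5.symm) y5
    ((rootNo_congr y2 y3).trans hr) q6)
  have := mul_pos q2 y2
  rw [show q * d * (y * d) = q * y * (d * d) by ring] at this
  exact (pos_iff_pos_of_mul_pos this).2 (mul_self_pos.2 hd.sqf.ne_zero)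

end Pool.Agent.Lib.MP_696deb_nt.B3
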