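import Pool.Agent.Lib.MP_696deb_nt.B3.A0
import Pool.Agent.Lib.MP_696deb_nt.B3.AL1

/-! Split families of geodesics that are translates of vertical lines. -/

set_option autoImplicit false

open scoped Classical
open Finset

namespace Pool.Agent.Lib.MP_696deb_nt.B3

variable {φ : Fm → Fm} {A B : ℕ} {u v w : Fm → ℤ} {κ μ : ℂ} {x y e : ℤ} {Q R : Fm}

/-- Involutions of Atkin and Lehner on forms. -/
structure AL (φ : Fm → Fm) : Prop where
  lev : ∀ R, 15 ∣ R.1 → 15 ∣ (φ R).1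
  inv : ∀ R, 15 ∣ R.1 → FEq R (φ (φ R))
  feq : ∀ Q R, 15 ∣ Q.1 → FEq Q R → FEq (φ Q) (φ R)
  disc : ∀ R, 15 ∣ R.1 → fdisc (φ R) = fdisc R
  cr : ∀ Q R, 15 ∣ Q.1 → 15 ∣ R.1 → fcr (φ Q) (φ R) = fcr Q R
  sum : ∀ f : Fm → ℤ, (∀ R, f R ≠ 0 → 15 ∣ R.1) →
    ∑ᶠ R : Fm, (if 15 ∣ R.1 then f (φ R) else 0) = ∑ᶠ R, f R
  inj : ∀ A i j : ℤ, φ (0, A, -i) = φ (0, A, -j) → i = j

theorem al_fW : AL fW := ⟨fun _ => fW_lev, fun _ => feq_fW_fW, fun _ _ h k => k.fW h,
  fun _ => fW_disc, fun _ _ => fcr_fW, fun _ h => (finsum_congr fun _ => by congr).trans (finsum_fW h),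
  fun _ _ _ h => by simp only [fW, Prod.mk.injEq] at h; omega⟩

theorem al_fV : AL fV := by
  refine ⟨fun _ _ => dvd_mul_right _ _, fun R h => by rw [fV_fV h]; exact FEq.refl R,
    fun _ _ => feq_fV, fun _ h => (scl_fV h).disc, ?_, fun f hf => ?_,
    fun _ _ _ h => by simp only [fV, Prod.mk.injEq] at h; omega⟩
  · intro Q R hQ hR
    have h1 : 15 * (fjac (fV Q) (fV R)).1 = fval (fjac Q R) 0 15 := by
      simp only [fV, fjac, fval]; ring
    have h2 : fbil (fV Q) (fV R) = fbil Q R := by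
      obtain ⟨_, b, c⟩ := Q
      obtain ⟨a, rfl⟩ := hQ
      obtain ⟨_, b', c'⟩ := R
      obtain ⟨a', rfl⟩ := hR
      simp [fV, fbil]
      ring
    rw [fcr, fcr, fdisc_fjac, h2, (scl_fV hQ).disc, (scl_fV hR).disc, ← fdisc_fjac]
    refine if_ctx_congr Iff.rfl (fun k => ?_) fun _ => rfl
    rw [← sign_fval k (x := 0) (y := 15) (by simp), ← h1, Int.sign_mul]
    exact (one_mul _).symm
  · have h : Set.BijOn fV {R | 15 ∣ R.1} {R | 15 ∣ R.1} :=
      Set.InvOn.bijOn ⟨fun _ => fV_fV, fun _ => fV_fV⟩ (fun _ _ => dvd_mul_right _ _)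
        fun _ _ => dvd_mul_right _ _
    have h1 := finsum_mem_eq_of_bijOn fV h (f := fun R => f (fV R)) (g := f) fun _ _ => rfl
    rw [finsum_mem_def, finsum_mem_def,
      (Set.indicator_eq_self (s := {R : Fm | 15 ∣ R.1})).mpr fun R hR => hf R hR] at h1
    rw [← h1]
    exact finsum_congr fun R => by simp [Set.indicator_apply]

theorem feq_lev (h : FEq Q R) (k : 15 ∣ Q.1) : 15 ∣ R.1 :=
  (h.fam (e := fdisc _) ⟨k, rfl, 0, sub_self _⟩).1

theorem AL.wt (al : AL φ) (hw : Wt w e) : Wt (fun R => if 15 ∣ R.1 then w (φ R) else 0) e where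
  disc R h := by
    have k : 15 ∣ R.1 := by_contra fun k => h (if_neg k)
    rw [← al.disc R k, hw.disc _ fun j => h ((if_pos k).trans j)]
  inv Q R h := if_ctx_congr ⟨feq_lev h.symm, feq_lev h⟩
    (fun k => hw.inv _ _ (al.feq _ _ k h)) fun _ => rfl
  bdd := by
    obtain ⟨C, hC⟩ := hw.bdd
    exact ⟨C, fun R => by split_ifs; exacts [hC _, (abs_nonneg _).trans (hC R)]⟩

theorem av_step {f : ℤ → ℤ} {z : ℤ} (hy : 0 < y) (hf : ∀ j, f (j + A) = f j)
    (h0 : ∑ k ∈ range A, f k = 0) (hne : ∀ c, f c ≠ 0 → z + c * y ≠ 0) : ∃ s : Finset ℤ,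
    (∀ c, f c * ((z + c * y).sign - (z + (c + A) * y).sign) ≠ 0 → c ∈ s) ∧
      ∑ c ∈ s, f c * ((z + c * y).sign - (z + (c + A) * y).sign) = 0 := by
  have h1 := Int.emod_add_mul_ediv z y
  have h2 := Int.emod_nonneg z hy.ne'
  have h3 := Int.emod_lt_of_pos z hy
  have neg : ∀ c, c < -(z / y) → z + c * y < 0 := fun c h => by nlinarith
  have pos : ∀ c, -(z / y) ≤ c → 0 ≤ z + c * y := fun c h => by nlinarith
  refine ⟨Ico (-(z / y) - A) (-(z / y) - A + A), fun c hc => mem_Ico.2 ?_, ?_⟩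
  · by_contra h
    rcases lt_or_ge c (-(z / y) - A) with k | k
    · rw [Int.sign_eq_neg_one_of_neg (neg _ (by omega)),
        Int.sign_eq_neg_one_of_neg (neg _ (by omega))] at hc
      simp at hc
    · have h4 := hne c (left_ne_zero_of_mul hc)
      have h5 := hne (c + A) (by rw [hf]; exact left_ne_zero_of_mul hc)
      rw [Int.sign_eq_one_of_pos ((pos c (by omega)).lt_of_ne' h4),
        Int.sign_eq_one_of_pos ((pos _ (by omega)).lt_of_ne' h5)] at hc
      simp at hc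
  · rw [← mul_zero (-2), ← h0, ← sum_Ico_periodic hf (-(z / y) - A), mul_sum]
    refine sum_congr rfl fun c hc => ?_
    rw [mem_Ico] at hc
    by_cases h : f c = 0
    · simp [h]
    rw [Int.sign_eq_neg_one_of_neg (neg _ (by omega)), Int.sign_eq_one_of_pos
      ((pos _ (by omega)).lt_of_ne' (hne (c + A) (by rwa [hf])))]
    ring

/-- The parabolic condition at infinity. -/
theorem thw_T (hu : Wt u (A ^ 2)) (hA : 0 < A) (hy : 0 < y) (hne : ∀ R, u R ≠ 0 → fval R x y ≠ 0)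
    (h1 : ∑ k ∈ range A, u (0, A, k) = 0) (h2 : ∑ k ∈ range A, u (0, -A, k) = 0) :
    ∑ᶠ R, u R * ((fval R x y).sign - (fval R (x + y) y).sign) = 0 := by
  have hP : (1 : ℤ) * 1 - 1 * (15 * 0) = 1 := rfl
  have hT : ∀ R, fval (fmap R 1 1 (15 * 0) 1) x y = fval R (x + y) y := fun R => by
    simp [fval_fmap]
  have hc : ∀ b c : ℤ, u (0, b, c + b) = u (0, b, c) := fun b c => by
    rw [← hu.fmap hP (0, b, c)]
    simp [fmap, fval, add_comm]
  let F : ℤ → Fm → ℤ := fun x R => if R.1 = 0 then 0 else u R * (R.1.sign - (fval R x y).sign)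
  have hF : ∀ x, (∀ R, u R ≠ 0 → fval R x y ≠ 0) → (Function.support (F x)).Finite := fun x h =>
    (finite_cross hu (x := x) (y := y)).subset fun R hR => by
      have h6 : R.1 ≠ 0 := fun h => hR (if_pos h)
      have h7 : u R * (R.1.sign - (fval R x y).sign) ≠ 0 := fun h => hR ((if_neg h6).trans h)
      refine ⟨left_ne_zero_of_mul h7, lt_of_le_of_ne (not_lt.1 fun h2 => ?_)
        (mul_ne_zero h6 (h R (left_ne_zero_of_mul h7)))⟩
      exact right_ne_zero_of_mul h7 (sub_eq_zero.2 (isign_eq_of_mul_pos h2))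
  have f1 := hF x hne
  have f2 := hF (x + y) fun R hR => by rw [← hT]; exact hne _ (by rwa [hu.fmap hP])
  have h6 : ∑ᶠ R, F x R = ∑ᶠ R, F (x + y) R := by
    rw [← finsum_comp_equiv (fequiv hP) (f := F x)]
    refine finsum_congr fun R => ?_
    change (if fval R _ _ = 0 then 0 else u (fmap R _ _ _ _) *
      ((fval R _ _).sign - (fval (fmap R _ _ _ _) x y).sign)) = _
    rw [hu.fmap hP, hT, show fval R 1 (15 * 0) = R.1 by simp [fval]]
  let G : Fm → ℤ := fun R =>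
    if R.1 = 0 then u R * ((fval R x y).sign - (fval R (x + y) y).sign) else 0
  have hs : ∀ t, (y * t).sign = t.sign := fun t => by
    rw [Int.sign_mul, Int.sign_eq_one_of_pos hy, one_mul]
  have hv : ∀ b c x, fval (0, b, c) x y = y * (b * x + c * y) := fun b c x => by
    simp only [fval]; ring
  obtain ⟨s, s1, s2⟩ := av_step (z := A * x) hy (hc A) h1 fun c h =>
    right_ne_zero_of_mul (hv _ _ _ ▸ hne _ h)
  obtain ⟨t, t1, t2⟩ := av_step (z := -A * x) (f := fun c => u (0, -A, c)) hy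
    (fun j => by rw [← hc (-A) (j + A), add_neg_cancel_right]) h2 fun c h =>
    right_ne_zero_of_mul (hv _ _ _ ▸ hne _ h)
  have g1 : ∀ c, G (0, A, c) = u (0, A, c) * ((A * x + c * y).sign - (A * x + (c + A) * y).sign) :=
    fun c => by
      simp only [G, if_true, hv, hs]
      congr 3
      ring
  have g2 : ∀ c, G (0, -A, c + A) =
      -(u (0, -A, c) * ((-A * x + c * y).sign - (-A * x + (c + A) * y).sign)) := fun c => by
    simp only [G, if_true, hv, hs]
    rw [← hc (-A) (c + A), add_neg_cancel_right, show -A * (x + y) + (c + A) * y = -A * x + c * y by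
      ring]
    ring
  have h8 : Function.support G ⊆ (s.image (fun c => ((0, A, c) : Fm)) ∪
      t.image fun c => ((0, -A, c + A) : Fm) : Finset Fm) := by
    rintro ⟨a, b, c⟩ hR
    obtain rfl : a = 0 := by_contra fun h => hR (if_neg h)
    have h9 := hu.disc _ (left_ne_zero_of_mul fun h => hR ((if_pos rfl).trans h))
    rw [mem_coe, mem_union]
    rcases sq_eq_sq_iff_eq_or_eq_neg.1 (show b ^ 2 = A ^ 2 by simpa [fdisc] using h9) with rfl | rfl
    · exact .inl (mem_image_of_mem _ (s1 c (g1 c ▸ hR)))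
    · obtain ⟨c, rfl⟩ : ∃ j, c = j + A := ⟨c - A, by ring⟩
      exact .inr (mem_image_of_mem _ (t1 c (neg_ne_zero.1 (g2 c ▸ hR))))
  have h9 : ∑ᶠ R, G R = 0 := by
    rw [finsum_eq_sum_of_support_subset _ h8, sum_union (by
      simp only [disjoint_left, mem_image, forall_exists_index, and_imp, not_exists]
      rintro _ _ - rfl _ ⟨-, k⟩
      simp only [Prod.mk.injEq] at k
      omega), sum_image fun i _ j _ h => by simpa using h,
      sum_image fun i _ j _ h => by simpa using h]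
    simp only [g1, g2, sum_neg_distrib, s2, t2, neg_zero, add_zero]
  refine Eq.trans ?_ (show ∑ᶠ R, G R + (∑ᶠ R, F (x + y) R - ∑ᶠ R, F x R) = 0 by omega)
  rw [← finsum_sub_distrib f2 f1, ← finsum_add_distrib ((finite_toSet _).subset h8)
    ((f2.union f1).subset (Function.support_sub _ _))]
  refine finsum_congr fun R => ?_
  simp only [F, G]
  split_ifs <;> ring

theorem AL.thw (al : AL φ) {k a b c d : ℤ} (hs : ∀ Q, 15 ∣ Q.1 → Scl k a b c d Q (φ Q))
    (hl : ∀ R, w R ≠ 0 → 15 ∣ R.1) (x y : ℤ) : thw w x y = ∑ᶠ Q : Fm,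
      (if 15 ∣ Q.1 then w (φ Q) else 0) *
        ((fval Q a c).sign - (fval Q (a * x + b * y) (c * x + d * y)).sign) := by
  rw [MP_696deb_nt.thw, ← al.sum _ fun R h => hl R (left_ne_zero_of_mul h)]
  refine finsum_congr fun Q => ?_
  split_ifs with h
  · have h1 := (hs Q h).val 1 0
    have h2 := Int.sign_eq_one_of_pos (hs Q h).pos
    simp only [mul_one, mul_zero, add_zero] at h1
    rw [← h1, ← (hs Q h).val, Int.sign_mul, Int.sign_mul, h2, one_mul, one_mul]
    simp [fval]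
  · rw [zero_mul]

/-- The existence of the class of a split family. -/
theorem exists_geo3 (hw : Wt w (A ^ 2)) (hA : 0 < A) (hl : ∀ R, w R ≠ 0 → 15 ∣ R.1)
    (hne : ∀ R, w R ≠ 0 → R.1 ≠ 0)
    (h : ∀ b : ℤ, b = A ∨ b = -A → ∑ k ∈ range A, w (fV (0, b, k)) = 0 ∧
      ∑ k ∈ range A, w (fW (0, b, k)) = 0) : ∃ κ, Geo w (A ^ 2) κ := by
  have key : ∀ {φ : Fm → Fm} {k a b c d x y : ℤ}, (∀ Q, 15 ∣ Q.1 → Scl k a b c d Q (φ Q)) →
      (∀ R, w R ≠ 0 → fval R x y ≠ 0) → ∀ R : Fm, (if 15 ∣ R.1 then w (φ R) else 0) ≠ 0 →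
      fval R (a * x + b * y) (c * x + d * y) ≠ 0 := fun hs h0 R hR => by
    have k : 15 ∣ R.1 := by_contra fun k => hR (if_neg k)
    rw [← (hs R k).val]
    exact mul_ne_zero (hs R k).pos.ne' (h0 _ fun j => hR ((if_pos k).trans j))
  refine exists_geo hw (by positivity) hne ?_ ?_
  · have h1 := thw_T (al_fV.wt hw) hA (x := -15) (y := 15) (by norm_num)
      (fun R hR => by
        simpa using key (fun _ => scl_fV) (col_ne hw hne (a := 1) (b := 0) (c := 1) (d := 1) rfl) R hR)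
      (by simpa using (h _ (.inl rfl)).1) (by simpa using (h _ (.inr rfl)).1)
    rw [al_fV.thw (fun _ => scl_fV) hl, ← neg_eq_zero, ← finsum_neg_distrib]
    exact (finsum_congr fun R => by rw [← mul_neg, neg_sub]; rfl).trans h1
  · have h1 := thw_T (al_fW.wt hw) hA (x := 6) (y := 15) (by norm_num)
      (key (x := 1) (y := 0) (fun _ => scl_fW) fun R hR => by simpa [fval] using hne R hR)
      (by simpa using (h _ (.inl rfl)).2) (by simpa using (h _ (.inr rfl)).2)
    have h2 : thw w 16 (-75) = 0 := (al_fW.thw (fun _ => scl_fW) hl _ _).trans h1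
    have h3 := thw_add hw hne (a := -11) (b := 2) (c := 4) (d := -11) rfl
      (col_ne hw hne (a := -14) (b := 3) (c := -5) (d := 16) rfl)
    have h4 := thw_add hw hne (a := 16) (b := 3) (c := -5) (d := -14) rfl
      (col_ne hw hne (a := -11) (b := 2) (c := 4) (d := -11) rfl)
    norm_num at h3 h4
    omega

theorem line_uniq {k k' : ℤ} (hA : 0 < A) (h : FEq (0, A, -k) (0, A, -k')) : (A : ℤ) ∣ k - k' := by
  have A0 : (0 : ℤ) < A := by exact_mod_cast hA
  obtain ⟨x, w, y, z, e, h⟩ := h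
  simp only [fmap, fval, Prod.mk.injEq] at h
  obtain ⟨h1, h2, h3⟩ := h
  obtain rfl : y = 0 := by
    by_contra hy
    have k1 : A * x = k * (15 * y) := mul_left_cancel₀ hy (by linarith)
    have k2 : A * w = k * z := mul_left_cancel₀ hy (by nlinarith)
    exact A0.ne' (by linear_combination -A * e + z * k1 - 15 * y * k2)
  have h4 : z ^ 2 = 1 := by
    rcases Int.eq_one_or_neg_one_of_mul_eq_one' (show x * z = 1 by simpa using e) with k | k <;>
      simp [k.2]
  exact ⟨w * z, by linear_combination h3 - k * h4⟩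

theorem sys_ln (hA : 0 < A) (hm : ∀ Q R, FEq Q R → u R = u Q)
    (hs : ∀ R, u R ≠ 0 → ∃ k, FEq (0, A, -k) R) :
    Sys ((Ico (0 : ℤ) A).image fun k => ((0, A, -k) : Fm)) u := by
  have A0 : (0 : ℤ) < A := by exact_mod_cast hA
  refine ⟨hm, fun R hR => ?_, ?_, ?_⟩
  · obtain ⟨k, h⟩ := hs R hR
    refine ⟨(0, A, -(k % A)), mem_image.mpr ⟨_, mem_Ico.mpr
      ⟨Int.emod_nonneg _ A0.ne', Int.emod_lt_of_pos _ A0⟩, rfl⟩,
      FEq.trans ⟨1, -(k / A), 0, 1, by simp, ?_⟩ h⟩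
    simp only [fmap, fval, Prod.mk.injEq, Int.emod_def]
    refine ⟨?_, ?_, ?_⟩ <;> ring
  · simp only [forall_mem_image, mem_Ico]
    intro k hk k' hk' h
    rw [sub_eq_zero.mp (Int.eq_zero_of_abs_lt_dvd (line_uniq hA h) (abs_lt.mpr ⟨by omega, by omega⟩))]
  · simp only [forall_mem_image]
    intro k _ _ a b c d e h
    have := free_of_sq A0.ne' (by simp [fdisc]) e h
    omega

/-- Translates of families of vertical lines. -/
structure Spl3 (φ : Fm → Fm) (A : ℕ) (w : Fm → ℤ) (κ : ℂ) : Prop where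
  pos : 0 < A
  geo : Geo w (A ^ 2) κ
  lev : ∀ R, w R ≠ 0 → 15 ∣ R.1
  ex : ∀ R, 15 ∣ R.1 → w (φ R) ≠ 0 → ∃ k, FEq (0, A, -k) R
  cop : ∀ k, w (φ (0, A, -k)) ≠ 0 → IsCoprime k A
  zero : ∑ k ∈ Ico (0 : ℤ) A, w (φ (0, A, -k)) = 0

/-- The period of a translate of a family of lines. -/
noncomputable def prd (φ : Fm → Fm) (A : ℕ) (w : Fm → ℤ) : ℂ :=
  ∑ k ∈ Ico (0 : ℤ) A, w (φ (0, A, -k)) * ms k A

/-- The family does not meet the cusps with denominator `B`. -/
def Avd (w : Fm → ℤ) (B : ℕ) : Prop := ∀ k : ℤ, IsCoprime k B → ∀ R, w R ≠ 0 → fval R k B ≠ 0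

theorem thw_fcr (hw : ∀ R, w R ≠ 0 → R.1 ≠ 0) (h0 : 0 < y) {c : ℤ}
    (h : c ≠ 0 → ∀ R, w R ≠ 0 → fval R x y ≠ 0) :
    c * thw w x y = -2 * ∑ᶠ R, (c * w R) • fcr (0, y, -x) R := by
  have h1 : ∀ R, c * (w R * (R.1.sign - (fval R x y).sign)) =
      -2 * (c * w R) • fcr (0, y, -x) R := fun R => by
    rcases eq_or_ne c 0 with j | j
    · simp [j]
    rcases eq_or_ne (w R) 0 with k | k
    · simp [k]
    rw [fcr_line h0, smul_eq_mul]
    split_ifs with k'
    · rw [isign_of_mul_neg k']; ring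
    · rw [isign_eq_of_mul_pos (lt_of_le_of_ne (not_lt.1 k') (mul_ne_zero (hw R k) (h j R k)).symm)]
      ring
  rw [thw, mul_finsum, mul_finsum, finsum_congr h1]

namespace Spl3

theorem sys (h : Spl3 φ A w κ) (al : AL φ) :
    Sys ((Ico (0 : ℤ) A).image fun k => ((0, A, -k) : Fm))
      fun R => if 15 ∣ R.1 then w (φ R) else 0 :=
  sys_ln h.pos (al.wt h.geo.toWt).inv fun R hR => by
    have k : 15 ∣ R.1 := by_contra fun k => hR (if_neg k)
    exact h.ex R k fun j => hR ((if_pos k).trans j)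

theorem sys' (h : Spl3 φ A w κ) (al : AL φ) :
    Sys (((Ico (0 : ℤ) A).image fun k => ((0, A, -k) : Fm)).image φ) w := by
  have h1 : ∀ Q ∈ (Ico (0 : ℤ) A).image fun k => ((0, A, -k) : Fm), 15 ∣ Q.1 :=
    forall_mem_image.mpr fun _ _ => dvd_zero _
  refine ⟨h.geo.inv, fun R hR => ?_, forall_mem_image.mpr fun Q hQ => forall_mem_image.mpr
    fun R hR e => ?_, fun Q _ hQ a b c d e k => ?_⟩
  · have h2 := h.lev R hR
    obtain ⟨Q, hQ, e⟩ := (h.sys al).ex (φ R) (by
      rwa [if_pos (al.lev _ h2), h.geo.inv _ _ (al.inv _ h2)])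
    exact ⟨_, mem_image_of_mem _ hQ, (al.feq _ _ (h1 Q hQ) e).trans (al.inv _ h2).symm⟩
  · rw [(h.sys al).uniq Q hQ R hR (((al.inv _ (h1 Q hQ)).trans
      (al.feq _ _ (al.lev _ (h1 Q hQ)) e)).trans (al.inv _ (h1 R hR)).symm)]
  · have := free_of_sq (A := A) (by exact_mod_cast h.pos.ne') (h.geo.disc Q hQ) e k
    omega

theorem thw_swap (al : AL φ) (h : Spl3 φ A w κ) (h' : Spl3 φ B v μ) (a : Avd w B) (a' : Avd v A) :
    ∑ k ∈ Ico (0 : ℤ) B, v (φ (0, B, -k)) * thw w k B =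
      -∑ k ∈ Ico (0 : ℤ) A, w (φ (0, A, -k)) * thw v k A := by
  have A0 : (0 : ℤ) < A := by exact_mod_cast h.pos
  have B0 : (0 : ℤ) < B := by exact_mod_cast h'.pos
  have h1 := cnt_swap (h'.sys al) (h.sys' al) fcr (fun Q R a b c d e => fcr_fmap Q R e)
    (forall_mem_image.mpr fun k _ _ => (finite_cross h.geo.toWt (x := k) (y := B)).subset
      fun R hR => ⟨hR.1, by_contra fun k => hR.2 (by rw [fcr_line B0, if_neg k])⟩)
  rw [image_image, sum_image fun i _ j _ e => by simpa using e,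
    sum_image fun i _ j _ e => by exact al.inj _ _ _ e] at h1
  simp only [fun k => thw_fcr h.geo.ne B0 fun j => a k (h'.cop k j),
    fun k => thw_fcr h'.geo.ne A0 fun j => a' k (h.cop k j), ← mul_sum]
  simp only [dvd_zero, if_true] at h1
  rw [h1, ← mul_neg, ← sum_neg_distrib]
  refine congrArg _ (sum_congr rfl fun k _ => ?_)
  rw [← finsum_neg_distrib, ← al.sum _ fun Q hQ => by_contra fun k => hQ (by simp [k])]
  refine finsum_congr fun Q => ?_
  split_ifs with h2 h3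
  · rw [Function.comp, al.cr _ _ h2 (dvd_zero _), fcr_swap, h'.geo.inv _ _ (al.inv _ h2)]
    simp only [smul_eq_mul]; ring
  · exact absurd (al.lev _ h2) h3
  · simp [show v Q = 0 from by_contra fun k => h2 (h'.lev Q k)]

theorem cross (h : Geo w e κ) (h' : Spl3 φ B v μ) (a : Avd w B) :
    2 * (κ * prd φ B v).re = (∑ k ∈ Ico (0 : ℤ) B, v (φ (0, B, -k)) * thw w k B : ℤ) := by
  have B0 : (0 : ℤ) < B := by exact_mod_cast h'.pos
  have h1 : ∑ k ∈ Ico (0 : ℤ) B, (v (φ (0, B, -k)) : ℝ) = 0 := by exact_mod_cast h'.zero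
  rw [prd, mul_sum, Complex.re_sum, mul_sum, ← sub_eq_zero, Int.cast_sum, ← sum_sub_distrib,
    ← zero_mul (2 * (κ * ms 1 B).re - thw w 1 B), ← h1, sum_mul]
  refine sum_congr rfl fun k _ => ?_
  by_cases h2 : v (φ (0, B, -k)) = 0
  · simp [h2]
  rw [← cusp_val3 h B0 (h'.cop k h2) isCoprime_one_left (a 1 isCoprime_one_left), mul_left_comm κ,
    ← Complex.ofReal_intCast, Complex.re_ofReal_mul]
  push_cast
  ring

theorem swap (al : AL φ) (h : Spl3 φ A w κ) (h' : Spl3 φ B v μ) (a : Avd w B) (a' : Avd v A) :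
    (κ * prd φ B v).re = -(μ * prd φ A w).re := by
  have h1 := cross h.geo h' a
  have h2 := cross h'.geo h a'
  rw [thw_swap al h h' a a', Int.cast_neg] at h1
  linarith

end Spl3

end Pool.Agent.Lib.MP_696deb_nt.B3
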