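import Pool.Agent.Lib.MP_696deb_nt.B3.AV1

/-! The class of a split family in terms of its period. -/

set_option autoImplicit false

open scoped Classical
open Finset

namespace Pool.Agent.Lib.MP_696deb_nt.B3

variable {φ : Fm → Fm} {A : ℕ} {w : Fm → ℤ} {χ : ℤ → ℤ} {κ : ℂ} {a k x y e : ℤ} {Q R : Fm}

/-- A weight on the classes of the vertical lines with denominator `A`. -/
noncomputable def lnw (A : ℕ) (χ : ℤ → ℤ) (R : Fm) : ℤ :=
  if h : ∃ k, FEq (0, A, -k) R then χ h.choose else 0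

theorem lnw_eq (hA : 0 < A) (hχ : ∀ a b, (A : ℤ) ∣ a - b → χ a = χ b) (h : FEq (0, A, -k) R) :
    lnw A χ R = χ k := by
  have h1 : ∃ k, FEq (0, A, -k) R := ⟨k, h⟩
  rw [lnw, dif_pos h1]
  exact hχ _ _ (line_uniq hA (h1.choose_spec.trans h.symm))

theorem lnw_ex (h : lnw A χ R ≠ 0) : ∃ k, FEq (0, A, -k) R ∧ χ k ≠ 0 := by
  have h1 : ∃ k, FEq (0, A, -k) R := by_contra fun k => h (dif_neg k)
  exact ⟨_, h1.choose_spec, fun k => h ((dif_pos h1).trans k)⟩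

theorem wt_lnw (hA : 0 < A) (hχ : ∀ a b, (A : ℤ) ∣ a - b → χ a = χ b) (hb : ∀ k, |χ k| ≤ 1) :
    Wt (lnw A χ) (A ^ 2) where
  disc R h := by
    obtain ⟨k, ⟨a, b, c, d, e, rfl⟩, -⟩ := lnw_ex h
    rw [fdisc_fmap e]
    simp [fdisc]
  inv Q R h := by
    by_cases j : ∃ k, FEq (0, A, -k) Q
    · obtain ⟨k, j⟩ := j
      rw [lnw_eq hA hχ j, lnw_eq hA hχ (j.trans h)]
    · rw [lnw, lnw, dif_neg j, dif_neg fun ⟨k, i⟩ => j ⟨k, i.trans h.symm⟩]
  bdd := ⟨1, fun R => by unfold lnw; split_ifs; exacts [hb _, by simp]⟩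

/-- The difference of two residue classes. -/
def dif (a k : ℤ) : ℤ := (if 15 ∣ k - a then 1 else 0) - if 15 ∣ k - 1 then 1 else 0

theorem dif_per (a : ℤ) (i j : ℤ) (h : ((15 : ℕ) : ℤ) ∣ i - j) : dif a i = dif a j := by
  unfold dif
  split_ifs <;> omega

theorem wt_dif (a : ℤ) : Wt (lnw 15 (dif a)) ((15 : ℕ) ^ 2) :=
  wt_lnw (by norm_num) (dif_per a) fun k => by unfold dif; split_ifs <;> simp

theorem dif_unit (ha : a = 7 ∨ a = 11) (h : dif a k ≠ 0) : ¬ 3 ∣ k ∧ ¬ 5 ∣ k := by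
  unfold dif at h
  split_ifs at h <;> omega

theorem dif_shape (ha : a = 7 ∨ a = 11) (h : lnw 15 (dif a) R ≠ 0) :
    225 ∣ R.1 ∧ 15 ∣ R.2.1 ∧ ¬ 3 ∣ R.2.2 ∧ ¬ 5 ∣ R.2.2 := by
  obtain ⟨k, ⟨x, b, c, d, e, rfl⟩, h1⟩ := lnw_ex h
  obtain ⟨h3, h5⟩ := dif_unit ha h1
  have key : ∀ p : ℤ, Prime p → p ∣ 15 → ¬ p ∣ k → ¬ p ∣ fval (0, (15 : ℕ), -k) b d :=
    fun p hp h15 hk j => by
      have h6 : p ∣ k * d ^ 2 := by
        have := dvd_sub (h15.mul_right (b * d)) j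
        simpa [fval, mul_assoc] using this
      have h7 := hp.dvd_of_dvd_pow ((hp.dvd_or_dvd h6).resolve_left hk)
      exact hp.not_dvd_one (e ▸ dvd_sub (h7.mul_left _) ((h15.mul_right _).mul_left _))
  refine ⟨⟨x * c - k * c ^ 2, ?_⟩, ⟨x * d + b * (15 * c) - 2 * k * c * d, ?_⟩,
    key 3 Int.prime_three (by norm_num) h3,
    key 5 (Int.prime_iff_natAbs_prime.2 (by norm_num)) (by norm_num) h5⟩ <;>
    simp only [fmap, fval] <;> push_cast <;> ring

theorem dif_root (ha : a = 7 ∨ a = 11) (h : lnw 15 (dif a) R ≠ 0) {g : ℤ} (hg : g ≠ 0)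
    (h0 : fval R (g * x) (g * y) = 0) : 15 ∣ y := by
  obtain ⟨⟨s, h1⟩, ⟨t, h2⟩, h3, h5⟩ := dif_shape ha h
  have h4 : R.2.2 * y ^ 2 = 15 * -(15 * s * x ^ 2 + t * x * y) :=
    mul_left_cancel₀ (pow_ne_zero 2 hg) (by
      rw [fval, h1, h2] at h0
      linear_combination h0)
  have key : ∀ p : ℤ, Prime p → p ∣ 15 → ¬ p ∣ R.2.2 → p ∣ y := fun p hp h15 hk =>
    hp.dvd_of_dvd_pow ((hp.dvd_or_dvd (h4 ▸ h15.mul_right _)).resolve_left hk)
  have k3 := key 3 Int.prime_three (by norm_num) h3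
  have k5 := key 5 (Int.prime_iff_natAbs_prime.2 (by norm_num)) (by norm_num) h5
  omega

theorem dif_sum (ha : a = 7 ∨ a = 11) {b : ℤ} (hb : b = (15 : ℕ) ∨ b = -(15 : ℕ)) :
    ∑ k ∈ range 15, lnw 15 (dif a) (0, b, k) = 0 := by
  rcases hb with rfl | rfl
  · rw [sum_congr rfl (g := fun k : ℕ => dif a (-k)) fun k _ => lnw_eq (by norm_num) (dif_per a)
      (by rw [neg_neg]; exact FEq.refl _)]
    rcases ha with rfl | rfl <;> decide
  have h1 : ∀ k ∈ range 15, 15 ∣ (k : ℤ) ^ 4 - 1 ∨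
      ((3 ∣ (k : ℤ) ∨ 5 ∣ (k : ℤ)) ∧ dif a (-k ^ 3) = 0) := by
    rcases ha with rfl | rfl <;> decide
  rw [sum_congr rfl (g := fun k : ℕ => dif a (-k ^ 3)) fun k hk => ?_]
  · rcases ha with rfl | rfl <;> decide
  rcases h1 k hk with ⟨b, h⟩ | ⟨h, j⟩
  · refine lnw_eq (by norm_num) (dif_per a) ⟨-k ^ 3, b, 1, -k, by linear_combination h, ?_⟩
    simp only [fmap, fval, Prod.mk.injEq]
    push_cast
    exact ⟨by ring, by linear_combination 15 * h, by linear_combination -k * h⟩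
  · rw [j]
    by_contra i
    have := (dif_shape ha i).2.2
    tauto

/-- The translates of two lines that join cusps of the same class. -/
noncomputable def vv (φ : Fm → Fm) (a : ℤ) (R : Fm) : ℤ :=
  if 15 ∣ R.1 then lnw 15 (dif a) (φ R) else 0

theorem vv_ne (h : vv φ a R ≠ 0) : 15 ∣ R.1 ∧ lnw 15 (dif a) (φ R) ≠ 0 := by
  have k : 15 ∣ R.1 := by_contra fun k => h (if_neg k)
  exact ⟨k, fun j => h ((if_pos k).trans j)⟩

theorem AL.vv (al : AL φ) (a : ℤ) (h : 15 ∣ R.1) : vv φ a (φ R) = lnw 15 (dif a) R := by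
  rw [B3.vv, if_pos (al.lev _ h), (wt_dif a).inv _ _ (al.inv _ h)]

theorem vv_rootW (ha : a = 7 ∨ a = 11) (h : vv fW a R ≠ 0) (hc : IsCoprime x y)
    (h0 : fval R x y = 0) : 5 ∣ y ∧ ¬ 3 ∣ y := by
  obtain ⟨h1, h2⟩ := vv_ne h
  have h3 := (scl_fW h1).inv x y
  rw [h0, mul_zero] at h3
  have h4 := dif_root ha h2 (x := 3 * x - 1 * y) (y := 6 * y - 15 * x) one_ne_zero
    (by simpa using h3)
  refine ⟨by omega, ?_⟩
  rintro ⟨y, rfl⟩
  have h5 := dif_root ha h2 (g := 3) (x := x - y) (y := 6 * y - 5 * x) (by norm_num)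
    (by rw [← h3]; congr 1 <;> ring)
  exact absurd (hc.isUnit_of_dvd' (by omega) (dvd_mul_right 3 y)) (by decide)

theorem vv_rootV (ha : a = 7 ∨ a = 11) (h : vv fV a R ≠ 0) (hc : IsCoprime x y)
    (h0 : fval R x y = 0) : ¬ 3 ∣ y ∧ ¬ 5 ∣ y := by
  obtain ⟨h1, h2⟩ := vv_ne h
  have h3 := (scl_fV h1).inv x y
  rw [h0, mul_zero] at h3
  constructor <;> rintro ⟨y, rfl⟩
  · have h5 := dif_root ha h2 (g := 3) (x := y) (y := -5 * x) (by norm_num)
      (by rw [← h3]; congr 1 <;> ring)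
    exact absurd (hc.isUnit_of_dvd' (by omega) (dvd_mul_right 3 y)) (by decide)
  · have h5 := dif_root ha h2 (g := 5) (x := y) (y := -3 * x) (by norm_num)
      (by rw [← h3]; congr 1 <;> ring)
    exact absurd (hc.isUnit_of_dvd' (by omega) (dvd_mul_right 5 y)) (by decide)

theorem spl_vv (al : AL φ) (ha : a = 7 ∨ a = 11) (h : Geo (vv φ a) ((15 : ℕ) ^ 2) κ) :
    Spl3 φ 15 (vv φ a) κ ∧ prd φ 15 (vv φ a) = ms a 15 := by
  have h1 : ∀ k, vv φ a (φ (0, (15 : ℕ), -k)) = dif a k := fun k => by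
    rw [al.vv a (dvd_zero _), lnw_eq (by norm_num) (dif_per a) (FEq.refl _)]
  refine ⟨⟨by norm_num, h, fun R k => (vv_ne k).1, fun R k j => ?_, fun k j => ?_, ?_⟩, ?_⟩
  · exact (lnw_ex (al.vv a k ▸ j)).imp fun _ i => i.1
  · obtain ⟨h3, h5⟩ := dif_unit ha (h1 k ▸ j)
    exact ((Int.prime_three.coprime_iff_not_dvd.2 h3).mul_left
      ((Int.prime_iff_natAbs_prime.2 (by norm_num)).coprime_iff_not_dvd.2 h5)).symm
  · simp only [h1]
    rcases ha with rfl | rfl <;> decide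
  · have h2 : ∀ c ∈ Ico (0 : ℤ) (15 : ℕ), ∑ k ∈ Ico (0 : ℤ) (15 : ℕ),
        ((if 15 ∣ k - c then 1 else 0 : ℤ) : ℂ) * ms k (15 : ℕ) = ms c 15 := fun c hc => by
      rw [sum_eq_single_of_mem c hc fun k hk j => by
        rw [mem_Ico] at hc hk
        rw [if_neg (by omega), Int.cast_zero, zero_mul]]
      simp
    simp only [prd, h1, dif, Int.cast_sub, sub_mul, sum_sub_distrib]
    rw [h2 a (by rcases ha with rfl | rfl <;> decide), h2 1 (by decide), ms_parab0, sub_zero]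

theorem geo_vvW (ha : a = 7 ∨ a = 11) : ∃ κ, Geo (vv fW a) ((15 : ℕ) ^ 2) κ :=
  exists_geo3 (al_fW.wt (wt_dif a)) (by norm_num) (fun R k => (vv_ne k).1)
    (fun R k j => (vv_rootW ha k isCoprime_one_left (by simpa [fval] using j)).2 (dvd_zero _))
    fun b hb => ⟨sum_eq_zero fun k _ => by_contra fun j => (dif_shape ha (vv_ne j).2).2.2.2 (by
      simp only [fW, fV]
      omega), (sum_congr rfl fun k _ => al_fW.vv a (dvd_zero _)).trans (dif_sum ha hb)⟩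

theorem geo_vvV (ha : a = 7 ∨ a = 11) : ∃ κ, Geo (vv fV a) ((15 : ℕ) ^ 2) κ :=
  exists_geo3 (al_fV.wt (wt_dif a)) (by norm_num) (fun R k => (vv_ne k).1)
    (fun R k j => (vv_rootV ha k isCoprime_one_left (by simpa [fval] using j)).2 (dvd_zero _))
    fun b hb => ⟨(sum_congr rfl fun k _ => al_fV.vv a (dvd_zero _)).trans (dif_sum ha hb),
      sum_eq_zero fun k _ => by_contra fun j => (dif_shape ha (vv_ne j).2).2.2.2 (by
        simp only [fW, fV]
        omega)⟩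

theorem Geo.avd (h : Geo w e κ) : Avd w 15 := fun k ⟨u, v, j⟩ => by
  simpa using col_ne h.toWt h.ne (a := k) (b := -v) (c := 1) (d := u) (by
    push_cast at j
    linear_combination j)

/-- The class of a split family is proportional to the conjugate of its period. -/
theorem Spl3.cls (al : AL φ) (hg : ∀ a, a = 7 ∨ a = 11 → ∃ κ, Geo (vv φ a) ((15 : ℕ) ^ 2) κ)
    (h : Spl3 φ A w κ) (hv : ∀ a, a = 7 ∨ a = 11 → Avd (vv φ a) A) :
    wm * thw w 7 15 = thw (vv φ 11) 7 15 * (prd φ A w).im ∧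
      wp * thw w 4 15 = thw (vv φ 11) 7 15 * (prd φ A w).re := by
  obtain ⟨μ, g⟩ := hg 7 (.inl rfl)
  obtain ⟨ν, g'⟩ := hg 11 (.inr rfl)
  obtain ⟨s, p⟩ := spl_vv al (.inl rfl) g
  obtain ⟨s', p'⟩ := spl_vv al (.inr rfl) g'
  have k1 := s.swap al s (Geo.avd g) (Geo.avd g)
  have k2 := s'.swap al s' (Geo.avd g') (Geo.avd g')
  have k3 := s.swap al s' (Geo.avd g) (Geo.avd g')
  have k4 := h.swap al s (Geo.avd h.geo) (hv _ (.inl rfl))
  have k5 := h.swap al s' (Geo.avd h.geo) (hv _ (.inr rfl))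
  have c7 : IsCoprime (7 : ℤ) 15 := ⟨-2, 1, by norm_num⟩
  have k6 := h.geo.cls' c7 dvd_rfl
  have k7 := h.geo.cls' (x := 11) ⟨-4, 3, by norm_num⟩ dvd_rfl
  have k8 := g'.cls' c7 dvd_rfl
  rw [h.geo.eleven, Int.cast_neg] at k7
  simp only [p, p', ms_gp, ms_gm, Complex.mul_re, Complex.mul_im, Complex.ofReal_re,
    Complex.ofReal_im, Complex.I_re, Complex.I_im] at k1 k2 k3 k4 k5 k6 k7 k8
  have k9 : μ.re = 0 := mul_right_cancel₀ wp_neg.ne (by linarith)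
  have k10 : ν.im = 0 := mul_right_cancel₀ wm_ne (by linarith)
  rw [k9] at k4
  rw [k10] at k5
  exact ⟨by linear_combination wm * k6 + 2 * wm * k4 - (prd φ A w).im * k8 - 2 * (prd φ A w).im * k3,
    by linear_combination -wp * k7 - 2 * wp * k5 - (prd φ A w).re * k8⟩

theorem avd_W (h : ¬ (5 : ℤ) ∣ A) (a : ℤ) (ha : a = 7 ∨ a = 11) : Avd (vv fW a) A :=
  fun _ k _ j i => h (vv_rootW ha j k i).1

theorem avd_V (h : (5 : ℤ) ∣ A) (a : ℤ) (ha : a = 7 ∨ a = 11) : Avd (vv fV a) A :=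
  fun _ k _ j i => (vv_rootV ha j k i).2 h

theorem tt_W : thw (vv fW 11) 7 15 ≠ 0 := by
  have p : Nat.Prime 19 := by norm_num
  obtain ⟨κ, h⟩ := spl_wV (A := 19) ⟨p.squarefree, by decide, by norm_num⟩ (by norm_num)
  have h1 : Spl3 fW 19 (wV 19) κ := ⟨h.pos, h.geo, fun R k => (h.fam R k).1, fun R k j => by
    obtain ⟨Q, h2, h3⟩ := h.sys.ex R (by rwa [if_pos k])
    obtain ⟨k, -, rfl⟩ := mem_image.1 h2
    exact ⟨k, h3⟩, fun k j => by
      refine ((Nat.prime_iff_prime_int.1 p).coprime_iff_not_dvd.2 fun i => j ?_).symm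
      rw [wV, wG, gch_prime p, gl, if_pos (c := _ ∣ _) (by simp only [fW]; omega),
        jac_zero_of_dvd p (by simp only [fW]; omega), ite_self], h.zero⟩
  obtain ⟨s, P, hs, hP, e⟩ := GkV.thA_wV (A := 19) p.squarefree (by decide) (by norm_num)
    (by norm_num) (by norm_num) rfl
  have h3 : P ≠ 0 := fun k => by simpa [k] using hP p (by norm_num)
  have h4 := (h1.cls al_fW (fun _ => geo_vvW) (avd_W (by norm_num))).1
  intro k
  rw [k, Int.cast_zero, zero_mul, mul_eq_zero, Int.cast_eq_zero] at h4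
  rw [thA, if_neg (by norm_num), h4.resolve_left wm_ne] at e
  rcases hs with rfl | rfl <;> simp [cT, h3] at e

theorem tt_V : thw (vv fV 11) 7 15 ≠ 0 := by
  obtain ⟨ν, g⟩ := geo_vvV (.inr rfl)
  obtain ⟨s, p⟩ := spl_vv al_fV (.inr rfl) g
  have k2 := s.swap al_fV s (Geo.avd g) (Geo.avd g)
  have k8 := g.cls' (x := 7) ⟨-2, 1, by norm_num⟩ dvd_rfl
  have k7 := g.cls' (x := -2) (y := -15) ⟨7, 1, by norm_num⟩ (by norm_num)
  have n1 : ∀ y : ℤ, 3 ∣ y → ∀ R, vv fV 11 R ≠ 0 → fval R 1 y ≠ 0 := fun y j R k i =>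
    (vv_rootV (.inr rfl) k isCoprime_one_left i).1 j
  have k6 := thw_add g.toWt g.ne (a := -2) (b := 1) (c := -1) (d := 7) rfl (n1 3 dvd_rfl)
  have k5 : thw (vv fW 11) 7 15 = thw (vv fV 11) 1 6 - thw (vv fV 11) 1 3 := by
    rw [thw, thw, thw, ← finsum_sub_distrib (thw_finite g.toWt g.ne (n1 6 (by norm_num)))
      (thw_finite g.toWt g.ne (n1 3 dvd_rfl))]
    refine Eq.trans ?_ (al_fV.sum _ fun R k => (vv_ne (φ := fV) (a := 11) fun j => k (by
      simp [j])).1)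
    refine Eq.trans (finsum_congr fun R => ?_)
      (al_fW.sum _ fun R k => by_contra fun j => k (if_neg j))
    by_cases k : 15 ∣ R.1
    · have h1 := (scl_fVW k).val
      have h2 : ∀ x y, (fval (fV (fW R)) x y).sign =
          (fval R (5 * x + -2 * y) (15 * x + -5 * y)).sign := fun x y => by
        rw [← h1, Int.sign_mul]
        exact (one_mul _).symm
      rw [if_pos k, if_pos (fW_lev k), al_fV.vv _ (fW_lev k), vv, if_pos k, h2, h2,
        show fval R (5 * 1 + -2 * 3) (15 * 1 + -5 * 3) = R.1 by simp [fval],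
        show fval R (5 * 1 + -2 * 6) (15 * 1 + -5 * 6) = fval R 7 15 by simp [fval]]
      ring
    · rw [if_neg k, vv, if_neg k, zero_mul]
  intro k
  simp only [k, p, ms_gp, ms_gm, Complex.mul_re, Complex.mul_im, Complex.ofReal_re,
    Complex.ofReal_im, Complex.I_re, Complex.I_im, Int.cast_zero] at k2 k8
  have k9 : ν.re = 0 := mul_right_cancel₀ wp_neg.ne (by linarith)
  have k10 : ν.im = 0 := mul_right_cancel₀ wm_ne (by linarith)
  rw [Complex.mul_re, k9, k10, zero_mul, zero_mul, sub_zero, mul_zero, Int.cast_eq_zero] at k7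
  norm_num at k6
  exact tt_W (by omega)

end Pool.Agent.Lib.MP_696deb_nt.B3
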