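import Pool.Agent.Lib.MP_696deb_nt.B3.AN0

/-! Auxiliary discriminants of small corank with a prescribed behaviour at one prime. -/

set_option autoImplicit false

open scoped Classical
open Finset NumberTheorySymbols

namespace Pool.Agent.Lib.MP_696deb_nt.B3

open B2

variable {δ m d b c u : ℤ} {l L : ℕ}

theorem Cls0.cop15 (h : Cls0 d) : IsCoprime d 15 :=
  IsCoprime.mul_right (y := 3) (z := 5) (Int.prime_three.coprime_iff_not_dvd.2 h.m3).symm
    ((Nat.prime_iff_prime_int.1 Nat.prime_five).coprime_iff_not_dvd.2 h.m5).symm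

theorem exists_cork2 (hs : Spt δ m) (hd : Cls0 d) (hc : Squarefree c) (h30 : IsCoprime c 30)
    (hL : L ≠ 0) (h15 : IsCoprime (L : ℤ) 15) (hcL : c ∣ L) (hu : IsCoprime u (4 * L))
    (h4 : 4 ∣ c * u - d) : ∃ y : ℤ, Cls0 (c * y) ∧ 0 < c * y * d ∧ 60 ∣ c * y - d ∧
      4 * (L : ℤ) ∣ y - u ∧ Cork (δ * m * (c * y)) := by
  have d0 := hd.sqf.ne_zero
  have c0 := hc.ne_zero
  have f30 : δ * m ∣ 30 := mul_dvd_mul hs.d2 hs.d15
  have f0 : δ * m ≠ 0 := ne_zero_of_dvd_ne_zero (by norm_num) f30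
  have sg : ∀ {v : ℤ}, v ≠ 0 → v.sign = 1 ∨ v.sign = -1 := fun k =>
    (lt_or_gt_of_ne k).elim (fun j => .inr (Int.sign_eq_neg_one_of_neg j))
      fun j => .inl (Int.sign_eq_one_of_pos j)
  obtain ⟨i, j, hij⟩ : IsCoprime (c * (4 * L)) 15 := (h30.of_isCoprime_of_dvd_right
    (by norm_num)).mul_left (IsCoprime.mul_left (by norm_num) h15)
  obtain ⟨w, hw⟩ : ∃ w, w = u + 4 * L * (i * (d - c * u)) := ⟨_, rfl⟩
  have w1 : 4 * (L : ℤ) ∣ w - u := ⟨_, by rw [hw, add_sub_cancel_left]⟩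
  have w2 : 15 ∣ c * w - d := ⟨j * (c * u - d), by rw [hw]; linear_combination (d - c * u) * hij⟩
  have w3 : IsCoprime w (4 * L * 15) := by
    refine IsCoprime.mul_right (by rw [hw]; exact hu.add_mul_left_left _) ?_
    obtain ⟨k, hk⟩ := w2
    have := (Cls0.cop15 hd).add_mul_left_left k
    rw [show d + 15 * k = c * w by linear_combination -hk] at this
    exact this.of_mul_left_right
  obtain ⟨σ, hσ, s1⟩ : ∃ σ : ℤ, (σ = 1 ∨ σ = -1) ∧ 0 < c * d * σ :=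
    ⟨_, sg (mul_ne_zero c0 d0), by rw [Int.mul_sign_self]; have := mul_ne_zero c0 d0; omega⟩
  have M0 : (0 : ℤ) < (4 * L * 15 : ℕ) := by positivity
  obtain ⟨a, ha⟩ := Int.eq_ofNat_of_zero_le (Int.emod_nonneg (σ * w) M0.ne')
  have a1 : ((4 * L * 15 : ℕ) : ℤ) ∣ σ * w - a := ha ▸ Int.dvd_self_sub_emod
  have a2 : a.Coprime (4 * L * 15) := by
    obtain ⟨k, hk⟩ := a1
    rw [← Nat.isCoprime_iff_coprime, show (a : ℤ) = σ * w + (4 * L * 15 : ℕ) * -k by
      linear_combination -hk]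
    refine IsCoprime.add_mul_left_left (IsCoprime.mul_left ?_ (by exact_mod_cast w3)) _
    rcases hσ with rfl | rfl
    exacts [isCoprime_one_left, isCoprime_one_left.neg_left]
  have q1 : Squarefree (δ * m * c) := squarefree_mul_iff.2
    ⟨(h30.symm.of_isCoprime_of_dvd_left f30).isRelPrime, Int.squarefree_natAbs.1
      (Squarefree.squarefree_of_dvd (Int.natAbs_dvd_natAbs.2 f30) (by decide +kernel)), hc⟩
  obtain ⟨x, x1, x2, x3⟩ := exists_in_class smithStmt (s := (δ * m * c).sign * σ)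
    (by rcases sg q1.ne_zero with k | k <;> rcases hσ with rfl | rfl <;> simp [k])
    (Int.squarefree_natAbs.2 q1) (m := 4 * L * 15) (by positivity) ⟨2 * L, by ring⟩
    (Int.natAbs_dvd_natAbs.2 ((mul_dvd_mul f30 hcL).trans ⟨2, by push_cast; ring⟩) :
      _ ∣ ((4 * L * 15 : ℕ) : ℤ).natAbs) a2
  have x4 : ((4 * L * 15 : ℕ) : ℤ) ∣ σ * x - w := by
    have k := (Nat.modEq_iff_dvd.1 (x1 : x ≡ a [MOD 4 * L * 15])).add a1
    rcases hσ with rfl | rfl
    exacts [by simpa using k.neg_right, by simpa [sub_eq_add_neg, add_comm] using k]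
  push_cast at x4
  have x5 : 4 * (L : ℤ) ∣ σ * x - u := by
    simpa using ((dvd_mul_right _ _).trans x4).add w1
  have x6 : 60 ∣ c * (σ * x) - d := by
    have k1 : 15 ∣ c * (σ * x) - d := by
      simpa [mul_sub] using (((dvd_mul_left _ _).trans x4).mul_left c).add w2
    have k2 : 4 ∣ c * (σ * x) - d := by
      simpa [mul_sub] using (((dvd_mul_right _ _).trans x5).mul_left c).add h4
    omega
  have x7 : (δ * m * (c * (σ * x))).natAbs = (δ * m * c).natAbs * x := by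
    rcases hσ with rfl | rfl <;> simp [Int.natAbs_mul, mul_assoc]
  have x8 := (Int.squarefree_natAbs.1 (x7 ▸ x2)).of_mul_right
  have m3 := hd.m3
  have m4 := hd.m4
  have m5 := hd.m5
  refine ⟨σ * x, ⟨x8, by omega, by omega, by omega⟩, ?_, x6, x5, ?_⟩
  · have : 0 < x := Nat.pos_of_ne_zero x2.of_mul_right.ne_zero
    rw [show c * (σ * x) * d = c * d * σ * x by ring]
    positivity
  · convert x3 using 1
    rw [Nat.cast_mul, ← mul_assoc (δ * m)]
    conv_lhs => rw [← Int.sign_mul_natAbs (δ * m * c)]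
    ring

theorem aux3 (hs : Spt δ m) (hd : Cls0 d) (hb : Cls0 b) (hl : l.Prime) (k : ℤ) :
    ∃ x, Cls0 x ∧ 0 < x * d ∧ 60 ∣ x - d ∧ Cork (δ * m * x) ∧
      (l ∣ 15 ∨ SplitAt l (b * x * k ^ 2)) ∧ (l ∣ 15 ∨ ((l : ℤ) ∣ b ∧ (l : ℤ) ∣ x) ∨
        (¬ (l : ℤ) ∣ b * x ∧ ∃ y : ℤ, 4 * (l : ℤ) ∣ y ^ 2 - b * x)) := by
  by_cases h15 : l ∣ 15
  · obtain ⟨x, h1, h2, h3, -, h4⟩ := exists_cork hs hd one_ne_zero
    exact ⟨x, h1, h2, h3, h4, .inl h15, .inl h15⟩
  have hp := Nat.prime_iff_prime_int.1 hl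
  have c15 : IsCoprime (l : ℤ) 15 := hp.coprime_iff_not_dvd.2 (by exact_mod_cast h15)
  have b4 := hb.m4
  have d4 := hd.m4
  have key : ∀ c v : ℤ, b = c * v → c ∣ l → ¬ (l : ℤ) ∣ v → ∃ y : ℤ, Cls0 (c * y) ∧
      0 < c * y * d ∧ 60 ∣ c * y - d ∧ Cork (δ * m * (c * y)) ∧ ¬ (l : ℤ) ∣ v * y ∧
      4 * (l : ℤ) ∣ 1 ^ 2 - v * y := by
    rintro c v rfl h1 h2
    have o2 : IsCoprime (c * v) 2 := (Int.prime_two.coprime_iff_not_dvd.2 (by omega)).symm
    obtain ⟨u, j, hu⟩ : IsCoprime v (4 * l) := IsCoprime.mul_right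
      (o2.of_mul_left_right.pow_right (n := 2)) (hp.coprime_iff_not_dvd.2 h2).symm
    obtain ⟨y, y1, y2, y3, ⟨i, hi⟩, y5⟩ := exists_cork2 hs hd hb.sqf.of_mul_left
      (o2.mul_right (Cls0.cop15 hb)).of_mul_left_left hl.ne_zero c15 h1
      (u := u) ⟨v, j, by linear_combination hu⟩ (by
        have t1 : c % 4 = 1 ∨ c % 4 = 3 := by
          have := mt (Dvd.dvd.mul_right · v) (show ¬ 2 ∣ c * v by omega)
          omega
        have t2 : u * v % 4 = 1 := by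
          rw [show u * v = 1 + 4 * -(j * l) by linear_combination hu]
          omega
        have t3 : c * u * (c * v) % 4 = 1 := by
          rw [mul_mul_mul_comm, Int.mul_emod, t2, Int.mul_emod c]
          rcases t1 with t | t <;> rw [t] <;> rfl
        rw [Int.mul_emod, b4, mul_one, Int.emod_emod] at t3
        omega)
    have y6 : 4 * (l : ℤ) ∣ 1 ^ 2 - v * y := ⟨j - v * i, by linear_combination -hu - v * hi⟩
    exact ⟨y, y1, y2, y3, y5, fun t => hp.not_dvd_one (by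
      simpa using ((dvd_mul_left _ _).trans y6).add t), y6⟩
  by_cases h : (l : ℤ) ∣ b
  · obtain ⟨v, hv⟩ := h
    obtain ⟨y, y1, y2, y3, y4, y5, y6⟩ := key l v hv dvd_rfl fun t =>
      hp.not_isUnit (hb.sqf l (hv ▸ mul_dvd_mul_left _ t))
    exact ⟨l * y, y1, y2, y3, y4, .inr ⟨l * k, v * y, 1, by rw [hv]; ring, y5, y6⟩,
      .inr (.inl ⟨⟨v, hv⟩, dvd_mul_right _ _⟩)⟩
  · obtain ⟨y, y1, y2, y3, y4, y5, y6⟩ := key 1 b (one_mul b).symm (one_dvd _) h
    rw [one_mul] at y1 y2 y3 y4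
    exact ⟨y, y1, y2, y3, y4, .inr ⟨k, b * y, 1, by ring, y5, y6⟩, .inr (.inr ⟨y5, 1, y6⟩)⟩

end Pool.Agent.Lib.MP_696deb_nt.B3
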