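import Pool.Agent.Lib.MP_696deb_nt.B2.AX0
import Pool.Agent.Lib.MP_696deb_nt.B3.E1

/-! The auxiliary twist with small Selmer group, with a factor that divides thirty: definitions. -/

set_option autoImplicit false

open scoped NNReal Classical
open Finset NumberTheorySymbols

namespace Pool.Agent.Lib.MP_696deb_nt.B3

open B2

/-- Exponent vectors for the four small generators. -/
abbrev V4 := Fin 4 → ZMod 2

/-- The divisor of thirty with given exponents. -/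
def sm (f : V4) : ℤ := (-1) ^ (f 0).val * 2 ^ (f 1).val * (-3) ^ (f 2).val * 5 ^ (f 3).val

/-- Its character. -/
noncomputable def xs (u : V4) (g : Gam) : ZMod 2 :=
  u 0 * xi (-1) g + u 1 * xi 2 g + u 2 * xi (-3) g + u 3 * xi 5 g

/-- Its symbol at a prime. -/
noncomputable def dt (p : ℕ) (u : V4) : ZMod 2 :=
  u 0 * aleg p (-1) + u 1 * aleg p 2 + u 2 * aleg p (-3) + u 3 * aleg p 5

section

variable {ι : Type} [Fintype ι] (l : ι → ℕ)

/-- The sign. -/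
noncomputable def Li (u : V4) (x : ι → ZMod 2) : ZMod 2 := u 0 + u 2 + ∑ i, aleg (l i) (-1) * x i

/-- The symbol at two. -/
noncomputable def L8 (u : V4) (x : ι → ZMod 2) : ZMod 2 := u 2 + u 3 + ∑ i, aleg (l i) 2 * x i

/-- The symbol at three. -/
noncomputable def L3 (u : V4) (x : ι → ZMod 2) : ZMod 2 :=
  u 0 + u 1 + u 3 + ∑ i, (aleg (l i) (-1) + aleg (l i) (-3)) * x i

/-- The symbol at five. -/
noncomputable def L5 (u : V4) (x : ι → ZMod 2) : ZMod 2 := u 1 + u 2 + ∑ i, aleg (l i) 5 * x i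

/-- The linear equations for the exponents of a Selmer class. -/
structure SelW (f : V4) (x y : ι → ZMod 2) (u v : V4) : Prop where
  e1 : ∀ i, dt (l i) u + x i * dt (l i) f + ∑ k, aleg (l i) (pstar (l k)) * (x k + x i) = 0
  e2 : ∀ i, dt (l i) v + y i * dt (l i) f + (x i + y i) * aleg (l i) (-1) +
    ∑ k, aleg (l i) (pstar (l k)) * (y k + y i) = 0
  ei : Li l u x + Li l f 1 * Li l v y = 0
  t1 : f 1 * u 0 + f 0 * u 1 + (1 + f 0) * (1 + f 1) * u 0 = 0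
  t2 : (1 + f 0) * (1 + f 1) * u 1 + (1 + (1 + f 0) * (1 + f 1)) *
    (L8 l u x + L8 l f 1 * (f 0 * u 0 + (1 + f 0) * u 1)) = 0
  t3 : (1 + f 0) * (1 + f 1) * v 1 = 0
  h1 : (1 + f 2) * (u 2 + v 2) + f 2 * (L3 l u x + L3 l f 1 * u 2) = 0
  h2 : (1 + f 2) * ((1 + L3 l f 1) * u 2 + L3 l f 1 * (L3 l u x + L3 l v y)) +
    f 2 * (L3 l v y + u 2 + (1 + L3 l f 1) * v 2) = 0
  g1 : (1 + f 3) * v 3 + f 3 * (L5 l u x + L5 l f 1 * u 3) = 0
  g2 : (1 + f 3) * ((1 + L5 l f 1) * L5 l v y + L5 l f 1 * u 3) +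
    f 3 * (L5 l v y + L5 l f 1 * v 3) = 0

end

/-- The primes of the auxiliary field, with prescribed classes and symbols. -/
structure Fam3 (d : ℤ) {R P : Type} [Fintype R] [Fintype P] (p q : R ⊕ P → ℕ) (c e : R → ℕ)
    (σ : R → R → ZMod 2) : Prop where
  pp : ∀ j, (p j).Prime ∧ ¬ p j ∣ 30
  qp : ∀ j, (q j).Prime ∧ ¬ q j ∣ 30
  inj : Function.Injective (Sum.elim p q)
  odd : Odd (Fintype.card (R ⊕ P))
  deq : d = ∏ j, pstar (p (.inr j))
  q4 : ∀ j, q j % 4 = 1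
  pq : ∀ i j, aleg (q j) (p i) = if i = j then 1 else 0
  qq : ∀ i j, i ≠ j → aleg (q j) (q i) = 1
  pc : ∀ k, p (.inl k) % 120 = c k
  qc : ∀ j, q j % 120 = Sum.elim e 1 j
  rr : ∀ i k, i ≠ k → aleg (p (.inl k)) (p (.inl i)) = σ i k
  pa : (∏ j, p j) % 120 = 19

/-- The symbols of `-1, 2, -3, 5` as functions of the class of a prime. -/
def b4 (c : ℕ) : ℕ := c / 2 % 2

def b8 (c : ℕ) : ℕ := c * c / 8 % 2

def b3 (c : ℕ) : ℕ := c % 3 / 2

def b5 (c : ℕ) : ℕ := c * c % 5 / 4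

/-- A choice of classes and symbols for three pairs of primes. -/
structure Pat where
  c0 : ℕ
  c1 : ℕ
  c2 : ℕ
  t : ℕ
  s01 : ℕ
  s02 : ℕ
  s12 : ℕ

/-- The classes of the primes that divide `a`. -/
def Pat.c (T : Pat) (E : Type) : Fin 3 ⊕ E → ℕ := Sum.elim ![T.c0, T.c1, T.c2] 1

/-- The classes of the primes that divide `b`. -/
def Pat.e (T : Pat) (E : Type) : Fin 3 ⊕ E → ℕ :=
  Sum.elim ![97 - 60 * T.t, 17 + 60 * T.t, 1] 1

/-- The symbols of the three special primes. -/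
def Pat.sN (T : Pat) : Fin 3 → Fin 3 → ℕ :=
  ![![0, T.s01, T.s02], ![T.s01 + b4 T.c0 * b4 T.c1, 0, T.s12],
    ![T.s02 + b4 T.c0 * b4 T.c2, T.s12 + b4 T.c1 * b4 T.c2, 0]]

/-- The symbols. -/
def Pat.s (T : Pat) (E : Type) : Fin 3 ⊕ E → Fin 3 ⊕ E → ZMod 2 :=
  Sum.elim (fun i => Sum.elim (fun k => (T.sN i k : ZMod 2)) 0) 0

/-- The pattern is admissible for the class `m` and has the property that is needed at two. -/
structure Pat.Ok (T : Pat) (f : V4) (m : ℕ) : Prop where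
  l0 : T.c0 < 120 ∧ T.c0.Coprime 120
  l1 : T.c1 < 120 ∧ T.c1.Coprime 120
  l2 : T.c2 < 120 ∧ T.c2.Coprime 120
  t1 : T.t ≤ 1
  pr : T.c0 * T.c1 * T.c2 % 120 = m
  mu : f 0 = 0 ∧ f 1 = 0 ∨ f 0 + f 1 * (T.t * (b4 T.c0 + b4 T.c1) : ℕ) = 1

/-- The set of solutions of the equations has at most eight elements. -/
def Small (T : Pat) (f : V4) : Prop := ∀ (d : ℤ) (E P : Type) [Fintype E] [Fintype P]
  (p q : (Fin 3 ⊕ E) ⊕ P → ℕ), Fam3 d p q (T.c E) (T.e E) (T.s E) →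
  (univ.filter fun v : ((Fin 3 ⊕ E) ⊕ ((Fin 3 ⊕ E) ⊕ P) → ZMod 2) ×
      ((Fin 3 ⊕ E) ⊕ ((Fin 3 ⊕ E) ⊕ P) → ZMod 2) × V4 × V4 =>
    SelW (famL p q) f v.1 v.2.1 v.2.2.1 v.2.2.2).card ≤ 8

end Pool.Agent.Lib.MP_696deb_nt.B3
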