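import Pool.Agent.Lib.MP_696deb_nt.B2.AXc

/-! Local conditions at two, three and five for twists that may ramify there. -/

set_option autoImplicit false

open scoped NNReal Classical
open Finset NumberTheorySymbols

namespace Pool.Agent.Lib.MP_696deb_nt.B3

open B2

variable {w : Plc} {D : ℤ} {α β : Gam → ZMod 2}

/-- A number fixed by the decomposition group whose square has the value of the prime. -/
theorem aya_odd {y : Qbar} (hy : Fx (Dec w) y) : w.V y ^ 2 ≠ (w.p : ℝ≥0)⁻¹ := fun h => by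
  have y0 : y ≠ 0 := fun e => by
    rw [e, map_zero, zero_pow two_ne_zero, eq_comm, inv_eq_zero] at h
    exact (one_pos.trans (b3a_p w)).ne' h
  obtain ⟨j, hj⟩ := b3a_dec hy y0
  rw [hj, inv_pow, inv_inj, ← zpow_natCast, ← zpow_mul] at h
  have := zpow_right_injective₀ (one_pos.trans (b3a_p w)) (b3a_p w).ne' (h.trans (zpow_one _).symm)
  omega

theorem aya_val {c : ℤ} (hc : ¬ (w.p : ℤ) ∣ c) : w.V ((w.p * c : ℤ) : Qbar) = (w.p : ℝ≥0)⁻¹ := by
  rw [Int.cast_mul, Int.cast_natCast, map_mul, w.hV, w.V_int_eq_one.2 hc, mul_one]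

theorem aya_sf (hD : Squarefree D) (h : (w.p : ℤ) ∣ D) : w.V D = (w.p : ℝ≥0)⁻¹ := by
  obtain ⟨c, rfl⟩ := h
  exact aya_val fun k =>
    (Nat.prime_iff_prime_int.1 w.prime).not_isUnit (hD _ (mul_dvd_mul_left _ k))

theorem aya_max {x c : Qbar} (h : w.V c ≤ w.V x) (k : ¬ w.V (x + c) < w.V c) :
    w.V (x + c) = w.V x := by
  rcases h.lt_or_eq with h | h
  · exact w.V.map_add_eq_of_lt_left h
  · exact (w.V.map_add_le le_rfl h.le).antisymm (h ▸ not_lt.1 k)

/-- The impossible case at a place dividing the twist once. -/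
theorem aya_no {X z y : Qbar} (hD : w.V D = (w.p : ℝ≥0)⁻¹) (hz : Fx (Dec w) z)
    (hy : Fx (Dec w) y) (y0 : y ≠ 0) (e : z ^ 2 = D * X * (4 * X + 9) * (X - 4))
    (h : w.V X * w.V (4 * X + 9) * w.V (X - 4) = w.V y ^ 2) : False := by
  refine aya_odd (hz.xdiv hy) ?_
  rw [map_div₀, div_pow, ← map_pow, e, map_mul, map_mul, map_mul, hD, mul_assoc, mul_assoc,
    ← mul_assoc (w.V X), h, mul_div_cancel_right₀ _ (pow_ne_zero _ (b3a_pos w y0).ne')]

theorem aya_le (n : ℕ) [n.AtLeastTwo] : w.V (OfNat.ofNat n) ≤ 1 := by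
  simpa using w.V_int_le (OfNat.ofNat n)

theorem aya_00 (v4 : w.V 4 = 1) {X z : Qbar} (hX : Fx (Dec w) X) (hz : Fx (Dec w) z) (z0 : z ≠ 0)
    (e : z ^ 2 = D * X * (4 * X + 9) * (X - 4)) (hA : Kum 1 (Dec w) (D * (4 * X + 9)) α)
    (hB : Kum 1 (Dec w) (D * X) β) (h1 : 1 < w.V X) : TorK (Dec w) D α β := by
  obtain ⟨D0, X0, A0, Y0⟩ := axb_ne' z0 e
  have f2 : Fx (Dec w) 2 := axb_ofNat 2
  have t1 := axb_div (w := w) (c := 9) (x := 4 * X)
    (by rw [map_mul, v4, one_mul]; exact (aya_le 9).trans_lt h1)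
  have t2 := axb_div (w := w) (c := -4) (x := X) (by rwa [Valuation.map_neg, v4])
  refine ⟨0, 0, fun g hg => ?_⟩
  rw [axb_near v4 hA (n := 1) (hz.xdiv hX) (axb_inv t2) (by
      rw [div_pow, e, show 1 + -4 / X = (X - 4) / X by field_simp; ring]
      push_cast
      field_simp) g hg,
    axb_near v4 hB (n := 1) (hz.xdiv (f2.xmul hX)) (axb_inv (axb_mul t1 t2)) (by
      rw [div_pow, e, show (1 + 9 / (4 * X)) * (1 + -4 / X) = (4 * X + 9) * (X - 4) / (4 * X ^ 2) by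
        field_simp; ring]
      push_cast
      field_simp
      norm_num) g hg, xi_one]
  simp

theorem aya_10 (v4 : w.V 4 = 1) {X z : Qbar} (hz : Fx (Dec w) z) (z0 : z ≠ 0)
    (e : z ^ 2 = D * X * (4 * X + 9) * (X - 4)) (hA : Kum 1 (Dec w) (D * (4 * X + 9)) α)
    (hB : Kum 1 (Dec w) (D * X) β) (h1 : w.V X < w.V 9) : TorK (Dec w) D α β := by
  obtain ⟨D0, X0, A0, Y0⟩ := axb_ne' z0 e
  have t1 := axb_div (w := w) (c := 4 * X) (x := 9) (by rwa [map_mul, v4, one_mul])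
  have t2 := axb_div (w := w) (c := -X) (x := 4)
    (by rw [Valuation.map_neg, v4]; exact h1.trans_le (aya_le 9))
  refine ⟨1, 0, fun g hg => ?_⟩
  rw [axb_near v4 hA (n := D) (axb_ofNat 3) t1 (by ring) g hg,
    axb_near v4 hB (n := -1) (hz.xdiv (axb_ofNat 6)) (axb_inv (axb_mul t1 t2)) (by
      rw [div_pow, e, show (1 + 4 * X / 9) * (1 + -X / 4) = -((4 * X + 9) * (X - 4) / 36) by ring]
      push_cast
      field_simp
      norm_num) g hg]
  simp

theorem aya_01 (v4 : w.V 4 = 1) {X z : Qbar} (hz : Fx (Dec w) z) (z0 : z ≠ 0)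
    (e : z ^ 2 = D * X * (4 * X + 9) * (X - 4)) (hA : Kum 1 (Dec w) (D * (4 * X + 9)) α)
    (hB : Kum 1 (Dec w) (D * X) β) (h1 : w.V (4 * X + 9) < w.V 9)
    (h2 : w.V (4 * X + 9) < w.V 25) : TorK (Dec w) D α β := by
  obtain ⟨D0, X0, A0, Y0⟩ := axb_ne' z0 e
  have f2 : Fx (Dec w) 2 := axb_ofNat 2
  have t1 := axb_div (w := w) (c := -(4 * X + 9)) (x := 9) (by rwa [Valuation.map_neg])
  have t2 := axb_div (w := w) (c := -(4 * X + 9)) (x := 25) (by rwa [Valuation.map_neg])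
  refine ⟨0, 1, fun g hg => ?_⟩
  rw [axb_near v4 hB (n := -D) ((axb_ofNat 3).xdiv f2) t1 (by push_cast; ring) g hg,
    axb_near v4 hA (n := 1) (((axb_ofNat 4).xmul hz).xdiv (axb_ofNat 15)) (axb_inv (axb_mul t1 t2))
      (by
        rw [div_pow, mul_pow, e, show (1 + -(4 * X + 9) / 9) * (1 + -(4 * X + 9) / 25) =
          16 * (X * (X - 4)) / 225 by ring]
        push_cast
        field_simp
        ring) g hg, xi_one]
  simp

theorem aya_11 (v4 : w.V 4 = 1) (D0 : D ≠ 0) {X : Qbar} (hA : Kum 1 (Dec w) (D * (4 * X + 9)) α)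
    (hB : Kum 1 (Dec w) (D * X) β) (h1 : w.V (X - 4) < w.V 25) : TorK (Dec w) D α β := by
  have f2 : Fx (Dec w) 2 := axb_ofNat 2
  have t1 := axb_div (w := w) (c := 4 * (X - 4)) (x := 25) (by rwa [map_mul, v4, one_mul])
  have t2 := axb_div (w := w) (c := X - 4) (x := 4) (by rw [v4]; exact h1.trans_le (aya_le 25))
  refine ⟨1, 1, fun g hg => ?_⟩
  rw [axb_near v4 hA (n := D) (axb_ofNat 5) t1 (by ring) g hg,
    axb_near v4 hB (n := D) f2 t2 (by ring) g hg, one_mul, one_mul, one_mul,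
    ← xi_mul (by norm_num) (neg_ne_zero.2 D0)]
  simp

theorem loc_two_ram (hw : w.p = 2) (h : D % 4 = 2 ∨ D % 4 = 3) (k : LocK (Dec w) D α β) :
    ∃ t : ZMod 2, ∀ g ∈ Dec w, α g = t * xi D g := by
  rcases k with ⟨u, v, k⟩ | ⟨X, z, hX, hz, z0, e, hA, hB⟩
  · exact ⟨u, fun g hg => (k g hg).1⟩
  obtain ⟨D0, X0, A0, Y0⟩ := axb_ne' z0 e
  have v2 := axc_two hw
  have v4 : w.V 4 = 4⁻¹ := by
    rw [show (4 : Qbar) = 2 * 2 by norm_num, map_mul, v2, ← mul_inv]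
    norm_num
  have l2 : w.V 2 < 1 := by rw [v2]; norm_num [← NNReal.coe_lt_coe]
  have l4 : w.V 4 < 1 := by rw [v4]; norm_num [← NNReal.coe_lt_coe]
  have odd : ∀ m : ℤ, m % 2 = 1 → w.V m = 1 := fun m hm =>
    w.V_int_eq_one.2 (by rw [hw]; omega)
  have two : ∀ m : ℤ, m % 4 = 2 → w.V m = (w.p : ℝ≥0)⁻¹ := fun m hm => by
    obtain ⟨c, rfl⟩ : ∃ c, m = (w.p : ℤ) * c := ⟨m / 2, by rw [hw]; omega⟩
    exact aya_val (by rw [hw] at hm ⊢; omega)
  have v9 : w.V 9 = 1 := by simpa using odd 9 rfl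
  rcases lt_trichotomy (w.V X) 1 with h1 | h1 | h1
  · refine ⟨1, fun g hg => ?_⟩
    rw [one_mul]
    refine kum_near le_rfl hA axb_fx1 (t := 4 * X + 9) ?_ (by ring) g hg
    rw [show 4 * X + 9 - 1 = 4 * (X + 2) by ring, map_mul]
    exact mul_lt_of_lt_one_right (b3a_pos w (by norm_num)) (w.V.map_add_lt h1 l2)
  · exfalso
    have hA1 : w.V (4 * X + 9) = 1 := by
      rw [w.V.map_add_eq_of_lt_right (by rwa [map_mul, h1, mul_one, v9]), v9]
    rcases h with h | h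
    · refine aya_no (two D h) hz axb_fx1 one_ne_zero e ?_
      rw [h1, hA1, w.V.map_sub_eq_of_lt_left (by rwa [h1]), h1]
      simp
    · refine axc_sq hw (hz.xdiv hX) ?_
      have e1 : w.V ((D - 1 : ℤ) : Qbar) = 2⁻¹ := by rw [two _ (by omega), hw, Nat.cast_ofNat]
      have e2 : w.V (4 * (D * (X + 2 - (4 * X + 9) / X))) < 2⁻¹ := by
        rw [map_mul, v4]
        refine (mul_le_of_le_one_right' (b2a_mul_le w (w.V_int_le _) (w.V.map_sub_le
          (w.V.map_add_le h1.le l2.le) ?_))).trans_lt (by norm_num [inv_lt_inv₀])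
        rw [map_div₀, hA1, h1, div_one]
      rw [show (z / X) ^ 2 - 1 = ((D - 1 : ℤ) : Qbar) + 4 * (D * (X + 2 - (4 * X + 9) / X)) by
        rw [div_pow, e]; push_cast; field_simp; ring,
        w.V.map_add_eq_of_lt_left (e1 ▸ e2), e1]
  · obtain ⟨r, h2, r0, h3⟩ := axc_root hX h1
    refine ⟨0, fun g hg => ?_⟩
    rw [b4b_kum (n := 1) hA (hz.xdiv (hX.xmul h2)) (by
      rw [div_pow, e, h3]
      push_cast
      field_simp) g hg, xi_one, zero_mul]

theorem aya_three (hw : w.p = 3) : w.V 4 = 1 ∧ w.V 9 < 1 ∧ w.V 25 = 1 :=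
  ⟨by simpa using (w.V_int_eq_one (a := 4)).2 (by rw [hw]; decide),
    by simpa using (b2c_lt (w := w) (a := 9)).2 (by rw [hw]; decide),
    by simpa using (w.V_int_eq_one (a := 25)).2 (by rw [hw]; decide)⟩

theorem aya_big (v4 : w.V 4 = 1) {X : Qbar} (hX : Fx (Dec w) X)
    (hA : Kum 1 (Dec w) (D * (4 * X + 9)) α) (hB : Kum 1 (Dec w) (D * X) β)
    (h : w.V 9 < w.V X) : ∀ g ∈ Dec w, α g + β g = 0 := fun g hg => by
  have X0 := axb_ne h
  have fD : Fx (Dec w) D := fun g _ => map_intCast g D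
  exact (axb_near v4 (hA.mul hB) (n := 1) ((axb_ofNat 2).xmul (fD.xmul hX))
    (axb_div (c := 9) (x := 4 * X) (by rwa [map_mul, v4, one_mul])) (by
      push_cast
      field_simp
      ring) g hg).trans (xi_one g)

theorem aya_small (v4 : w.V 4 = 1) {X z : Qbar} (hz : Fx (Dec w) z) (z0 : z ≠ 0)
    (e : z ^ 2 = D * X * (4 * X + 9) * (X - 4)) (hA : Kum 1 (Dec w) (D * (4 * X + 9)) α)
    (hB : Kum 1 (Dec w) (D * X) β) (h : w.V X < 1) : ∀ g ∈ Dec w, α g + β g = xi (-D) g := by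
  obtain ⟨D0, X0, A0, Y0⟩ := axb_ne' z0 e
  exact axb_near v4 (hA.mul hB) (n := -D) (hz.xdiv (axb_ofNat 2))
    (axb_inv (axb_div (c := -X) (x := 4) (by rwa [Valuation.map_neg, v4]))) (by
      rw [div_pow, e, show 1 + -X / 4 = -((X - 4) / 4) by ring]
      push_cast
      field_simp
      ring)

theorem loc_three_pos (hw : w.p = 3) (h : J(D | 3) = 1) (k : LocK (Dec w) D α β) :
    ∀ σ ∈ Ine w, α σ = 0 := by
  have h2 : w.p ≠ 2 := by omega
  have h3 : ¬ (w.p : ℤ) ∣ 2 * D := B4c_not_dvd h2 (by rw [hw, h]; decide)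
  rcases k with ⟨u, v, k⟩ | ⟨X, z, hX, hz, z0, e, hA, hB⟩
  · exact fun σ hσ => by rw [(k σ (Ine_le w hσ)).1, (axb_tor h3 hσ).2.1, mul_zero]
  obtain ⟨D0, X0, A0, Y0⟩ := axb_ne' z0 e
  obtain ⟨v4, v9, -⟩ := aya_three hw
  have vD : w.V D = 1 := axb_int h3 (Dvd.intro_left _ rfl)
  have m4 : ∀ x, w.V (4 * x) = w.V x := fun x => by rw [map_mul, v4, one_mul]
  have n9 : w.V 9 ≠ 0 := w.V.ne_zero_iff.2 (by norm_num)
  rcases lt_trichotomy (w.V X) 1 with h1 | h1 | h1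
  · rcases lt_trichotomy (w.V X) (w.V 9) with h4 | h4 | h4
    · refine kum_unit h2 hA (axb_ofNat 3) (u := D * ((4 * X + 9) / 9)) ?_ (by ring)
      rw [map_mul, vD, map_div₀, w.V.map_add_eq_of_lt_right (by rwa [m4]), div_self n9, one_mul]
    · refine kum_unit h2 hA (hz.xdiv (axb_ofNat 3)) (u := 9 / (X * (X - 4))) ?_
        (by rw [div_pow, e]; field_simp; ring)
      rw [map_div₀, map_mul, h4, w.V.map_sub_eq_of_lt_right (by rwa [v4]), v4, mul_one,
        div_self n9]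
    · have := jac_of_dec h2 (c := -D) (fun k => h3 ((dvd_neg.1 k).mul_left _)) fun g hg =>
        (aya_small v4 hz z0 e hA hB h1 g hg).symm.trans (aya_big v4 hX hA hB h4 g hg)
      rw [hw, jacobiSym.neg _ (by decide), h] at this
      exact absurd this (by decide)
  · exact kum_unit h2 hA axb_fx1 (u := D * (4 * X + 9))
      (by rw [map_mul, vD, w.V.map_add_eq_of_lt_left (by rwa [m4, h1]), m4, h1, one_mul])
      (by ring)
  · refine kum_unit h2 hA (hz.xdiv hX) (u := X / (X - 4)) ?_ (by rw [div_pow, e]; field_simp)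
    rw [map_div₀, w.V.map_sub_eq_of_lt_left (by rwa [v4]), div_self (one_pos.trans h1).ne']

theorem loc_three_neg (hw : w.p = 3) (h : J(D | 3) = -1) (k : LocK (Dec w) D α β) :
    ∀ g ∈ Dec w, α g + β g = 0 := by
  have h2 : w.p ≠ 2 := by omega
  have h3 : ¬ (w.p : ℤ) ∣ 2 * D := B4c_not_dvd h2 (by rw [hw, h]; decide)
  have D0 : D ≠ 0 := fun e => h3 (by simp [e])
  have hD : ∀ g ∈ Dec w, xi (-D) g = 0 := fun g hg =>
    xi_dec h2 (c := -D) (by rw [hw, jacobiSym.neg _ (by decide), h]; decide) hg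
  rcases k with ⟨u, v, k⟩ | ⟨X, z, hX, hz, z0, e, hA, hB⟩
  · intro g hg
    have h4 := hD g hg
    rw [(k g hg).1, (k g hg).2, h4, mul_zero, add_zero, ← mul_add, add_comm,
      ← xi_mul (by norm_num) D0, neg_one_mul, h4, mul_zero]
  obtain ⟨v4, v9, -⟩ := aya_three hw
  rcases lt_or_ge (w.V 9) (w.V X) with h1 | h1
  · exact aya_big v4 hX hA hB h1
  · exact fun g hg => (aya_small v4 hz z0 e hA hB (h1.trans_lt v9) g hg).trans (hD g hg)

theorem loc_bad3 (hw : w.p = 3) (hD : Squarefree D) (h : 3 ∣ D) (k : LocK (Dec w) D α β) :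
    TorK (Dec w) D α β := by
  refine k.elim id ?_
  rintro ⟨X, z, hX, hz, z0, e, hA, hB⟩
  obtain ⟨D0, X0, A0, Y0⟩ := axb_ne' z0 e
  obtain ⟨v4, v9, v25⟩ := aya_three hw
  have vD := aya_sf (w := w) hD (by rwa [hw])
  have m4 : ∀ x, w.V (4 * x) = w.V x := fun x => by rw [map_mul, v4, one_mul]
  rcases lt_trichotomy (w.V X) 1 with h1 | h1 | h1
  · by_cases h2 : w.V X < w.V 9
    · exact aya_10 v4 hz z0 e hA hB h2
    by_cases h3 : w.V (4 * X + 9) < w.V 9
    · exact aya_01 v4 hz z0 e hA hB h3 (v25 ▸ h3.trans v9)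
    refine (aya_no vD hz hX X0 e ?_).elim
    rw [aya_max (by rw [m4]; exact not_lt.1 h2) h3, m4, w.V.map_sub_eq_of_lt_right (by rwa [v4]),
      v4, mul_one, pow_two]
  · by_cases h2 : w.V (X - 4) < 1
    · exact aya_11 v4 hD.ne_zero hA hB (by rwa [v25])
    refine (aya_no vD hz hX X0 e ?_).elim
    rw [w.V.map_add_eq_of_lt_left (by rwa [m4, h1]), m4,
      (w.V.map_sub_le h1.le v4.le).antisymm (not_lt.1 h2), mul_one, pow_two]
  · exact aya_00 v4 hX hz z0 e hA hB h1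

theorem loc_bad5 (hw : w.p = 5) (hD : Squarefree D) (h : 5 ∣ D) (k : LocK (Dec w) D α β) :
    TorK (Dec w) D α β := by
  refine k.elim id ?_
  rintro ⟨X, z, hX, hz, z0, e, hA, hB⟩
  obtain ⟨D0, X0, A0, Y0⟩ := axb_ne' z0 e
  obtain ⟨v4, v25⟩ := axb_five hw
  have v9 : w.V 9 = 1 := by simpa using (w.V_int_eq_one (a := 9)).2 (by rw [hw]; decide)
  have vD := aya_sf (w := w) hD (by rwa [hw])
  have m4 : ∀ x, w.V (4 * x) = w.V x := fun x => by rw [map_mul, v4, one_mul]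
  have e1 : 4 * X + 9 = 4 * (X - 4) + 25 := by ring
  rcases lt_trichotomy (w.V X) 1 with h1 | h1 | h1
  · exact aya_10 v4 hz z0 e hA hB (by rwa [v9])
  · by_cases h2 : w.V (X - 4) < w.V 25
    · exact aya_11 v4 hD.ne_zero hA hB h2
    by_cases h3 : w.V (4 * X + 9) < w.V 25
    · exact aya_01 v4 hz z0 e hA hB (v9 ▸ h3.trans v25) h3
    refine (aya_no vD hz (hX.xsub (axb_ofNat 4)) Y0 e ?_).elim
    rw [e1] at h3
    rw [h1, e1, aya_max (by rw [m4]; exact not_lt.1 h2) h3, m4, one_mul, pow_two]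
  · exact aya_00 v4 hX hz z0 e hA hB h1

end Pool.Agent.Lib.MP_696deb_nt.B3
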