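import Pool.Agent.Lib.MP_696deb_nt.B2.AXd
import Pool.Agent.Lib.MP_696deb_nt.B3.AY0
import Pool.Agent.Lib.MP_696deb_nt.B3.AYa

/-! The exponents of a Selmer class. -/

set_option autoImplicit false

open scoped NNReal Classical
open Finset NumberTheorySymbols

namespace Pool.Agent.Lib.MP_696deb_nt.B3

open B2

variable {ι : Type} [Fintype ι] {l : ι → ℕ}

theorem ayb_pow {a : ℤ} (t : ZMod 2) (g : Gam) : xi (a ^ t.val) g = t * xi a g := by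
  rcases b4b_cases t with rfl | rfl
  · rw [zero_mul, ZMod.val_zero, pow_zero, xi_one]
  · rw [one_mul, show (1 : ZMod 2).val = 1 from rfl, pow_one]

theorem xi_sm (f : V4) (g : Gam) : xi (sm f) g = xs f g := by
  rw [sm, xs, xi_mul (by simp) (by simp), xi_mul (by simp) (by simp), xi_mul (by simp) (by simp),
    ayb_pow, ayb_pow, ayb_pow, ayb_pow]

theorem ayb_sm (f : V4) : sm f ∣ 30 ∧ (f 0 = 0 ∧ f 1 = 0 ∧ sm f % 4 = 1 ∨
      (1 + f 0) * (1 + f 1) = 0 ∧ (sm f % 4 = 2 ∨ sm f % 4 = 3)) ∧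
    (f 2 = 0 ∧ ¬ 3 ∣ sm f ∨ f 2 = 1 ∧ 3 ∣ sm f) ∧ (f 3 = 0 ∧ ¬ 5 ∣ sm f ∨ f 3 = 1 ∧ 5 ∣ sm f) := by
  unfold sm
  generalize f 0 = a, f 1 = b, f 2 = c, f 3 = d
  revert a b c d
  decide

theorem ayb_ne {p : ℕ} (h : ¬ p ∣ 30) : p ≠ 2 ∧ p ≠ 3 ∧ p ≠ 5 := by
  refine ⟨?_, ?_, ?_⟩ <;> exact fun e => h (by rw [e]; norm_num)

theorem ayb_small (w : Plc) (h : ¬ w.p ∣ 30) {m : ℤ} (hm : m ∣ 30) : ¬ (w.p : ℤ) ∣ m := fun k =>
  h (by exact_mod_cast k.trans hm)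

theorem ayb_i1 {w : Plc} {σ : Gam} (k : w.p ≠ 2) (hσ : σ ∈ Ine w) : xi (-1) σ = 0 :=
  xi_eq_zero.2 (chi_ine (mu0_ndvd k (not_dvd_of_natAbs_eq' w.prime)) hσ)

theorem ayb_i2 {w : Plc} {σ : Gam} (k : w.p ≠ 2) (hσ : σ ∈ Ine w) : xi 2 σ = 0 :=
  xi_eq_zero.2 (chi_ine (mu0_ndvd k (not_dvd_of_natAbs_eq w.prime Nat.prime_two k rfl)) hσ)

theorem ayb_i3 {w : Plc} {σ : Gam} (k : w.p ≠ 3) (hσ : σ ∈ Ine w) : xi (-3) σ = 0 :=
  axd_ine (p := 3) (by norm_num) k.symm hσ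

theorem ayb_i5 {w : Plc} {σ : Gam} (k : w.p ≠ 5) (hσ : σ ∈ Ine w) : xi 5 σ = 0 :=
  axd_ine (p := 5) (by norm_num) k.symm hσ

/-- Characters unramified outside thirty and a set of primes. -/
theorem ay_span (hl : ∀ i, (l i).Prime ∧ ¬ l i ∣ 30) (hi : Function.Injective l)
    {χ : Gam → ZMod 2} (h1 : Sm ⊤ χ) (h2 : IsHom ⊤ χ)
    (h3 : ∀ w : Plc, (∀ i, l i ≠ w.p) → ¬ w.p ∣ 30 → ∀ σ ∈ Ine w, χ σ = 0) :
    ∃ (x : ι → ZMod 2) (u : V4), ∀ g, χ g = xs u g + ∑ i, x i * xi (pstar (l i)) g := by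
  obtain ⟨c, hc, e⟩ := exists_xi h1 h2
  have c0 := hc.ne_zero
  obtain ⟨d, a, b, hd, k⟩ : ∃ (d : ℤ) (a b : ZMod 2), d % 4 = 1 ∧
      ∀ g, xi c g = xi d g + a * xi (-1) g + b * xi 2 g := by
    have c4 : ¬ (2 : ℤ) * 2 ∣ c := fun k => absurd (hc _ k) (by decide)
    have : c % 4 = 1 ∨ c % 4 = 3 ∨ c % 8 = 2 ∨ c % 8 = 6 := by omega
    rcases this with h | h | h | h
    · exact ⟨c, 0, 0, h, fun g => by simp⟩
    · refine ⟨-c, 1, 0, by omega, fun g => ?_⟩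
      rw [one_mul, zero_mul, add_zero, ← xi_mul (by omega) (by omega)]
      simp
    · refine ⟨c / 2, 0, 1, by omega, fun g => ?_⟩
      rw [one_mul, zero_mul, add_zero, ← xi_mul (by omega) (by omega)]
      congr 1
      omega
    · refine ⟨-(c / 2), 1, 1, by omega, fun g => ?_⟩
      rw [one_mul, one_mul, ← xi_mul (by omega) (by omega), ← xi_mul (by omega) (by omega)]
      congr 1
      omega
  obtain ⟨x, s, t, hx⟩ := axd_span hl hi (sm_xi d) (fun g _ k _ => xi_hom d g k)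
    fun w k1 k3 k5 σ hσ => by
      by_cases k2 : w.p = 2
      · exact xi_ine hd (by rw [k2]; omega) hσ
      have k4 : ¬ w.p ∣ 30 := fun k6 => by
        have k7 : w.p ∣ 2 * 3 * 5 := k6
        simp only [w.prime.dvd_mul, Nat.prime_dvd_prime_iff_eq w.prime, Nat.prime_two,
          Nat.prime_three, Nat.prime_five] at k7
        tauto
      simpa [← e, h3 w k1 k4 σ hσ, ayb_i1 k2 hσ, ayb_i2 k2 hσ] using (k σ).symm
  refine ⟨x, ![a, b, s, t], fun g => ?_⟩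
  rw [e, k, hx, xs]
  simp only [Matrix.cons_val]
  ring

/-- The character with given exponents. -/
noncomputable def aybEv (l : ι → ℕ) (u : V4) (x : ι → ZMod 2) (g : Gam) : ZMod 2 :=
  xs u g + ∑ i, x i * xi (pstar (l i)) g

section

variable (hl : ∀ i, (l i).Prime ∧ ¬ l i ∣ 30)
include hl

omit [Fintype ι] in
theorem ayb_l2 (i : ι) : (l i).Prime ∧ l i ≠ 2 := ⟨(hl i).1, (ayb_ne (hl i).2).1⟩

omit [Fintype ι] in
theorem ayb_p0 (i : ι) : pstar (l i) ≠ 0 :=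
  Int.natAbs_ne_zero.1 (by rw [natAbs_pstar]; exact (hl i).1.ne_zero)

theorem ayb_xD (f : V4) (g : Gam) : xi (sm f * ∏ i, pstar (l i)) g = aybEv l f 1 g := by
  rw [xi_mul (ne_zero_of_dvd_ne_zero (by norm_num) (ayb_sm f).1)
    (prod_ne_zero_iff.2 fun i _ => ayb_p0 hl i), xi_sm, axd_prod univ (ayb_p0 hl), aybEv]
  simp

theorem ayb_four : (∏ i, pstar (l i)) % 4 = 1 := prod_induction _ (· % 4 = 1)
  (fun a b ha hb => by rw [Int.mul_emod, ha, hb]; rfl) rfl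
  fun i _ => pstar_emod ((hl i).1.eq_two_or_odd.resolve_left (ayb_l2 hl i).2)

theorem ayb_nd {w : Plc} (h : ∀ i, l i ≠ w.p) {m n : ℤ} (hm : ¬ (w.p : ℤ) ∣ m)
    (hn : ¬ (w.p : ℤ) ∣ n) : ¬ (w.p : ℤ) ∣ m * (n * ∏ i, pstar (l i)) := fun k => by
  have hp := Nat.prime_iff_prime_int.1 w.prime
  obtain ⟨i, -, k⟩ := (Prime.dvd_finsetProd_iff hp _).1
    ((hp.dvd_or_dvd ((hp.dvd_or_dvd k).resolve_left hm)).resolve_left hn)
  exact not_dvd_of_natAbs_eq w.prime (hl i).1 (h i).symm (natAbs_pstar _) k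

theorem ayb_sqf (hi : Function.Injective l) (f : V4) : Squarefree (sm f * ∏ i, pstar (l i)) := by
  have h30 : (sm f).natAbs ∣ 30 := Int.natAbs_dvd_natAbs.2 (ayb_sm f).1
  rw [← Int.squarefree_natAbs, Int.natAbs_mul, ← Int.natAbsHom_apply (∏ _, _), map_prod]
  simp only [Int.natAbsHom_apply, natAbs_pstar]
  refine (Nat.squarefree_mul (Nat.Coprime.prod_right fun i _ => Nat.Coprime.coprime_dvd_left h30
    ((Nat.Prime.coprime_iff_not_dvd (hl i).1).2 (hl i).2).symm)).2 ⟨?_, ?_⟩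
  · refine Squarefree.squarefree_of_dvd h30 ?_
    rw [show 30 = 2 * (3 * 5) from rfl, Nat.squarefree_mul (by norm_num),
      Nat.squarefree_mul (by norm_num)]
    exact ⟨Nat.prime_two.squarefree, Nat.prime_three.squarefree, Nat.prime_five.squarefree⟩
  · exact Finset.squarefree_prod_of_pairwise_isCoprime (fun i _ j _ e =>
      Nat.coprime_iff_isRelPrime.1 ((Nat.coprime_primes (hl i).1 (hl j).1).2 fun k => e (hi k)))
      fun i _ => (hl i).1.squarefree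

theorem ayb_cc (u : V4) (x : ι → ZMod 2) : aybEv l u x cc = Li l u x := by
  simp only [aybEv, xs, Li, axd_cc (ayb_l2 hl _), xi_cc_neg (a := -1) (by norm_num),
    xi_cc_neg (a := -3) (by norm_num), xi_cc (a := 5) (by norm_num), xi_cc (a := 2) (by norm_num),
    mul_one, mul_zero, add_zero, mul_comm (aleg _ _)]

theorem ayb_ine {w : Plc} (hw : w.p ∣ 30) {σ : Gam} (hσ : σ ∈ Ine w) (u : V4) (x : ι → ZMod 2) :
    aybEv l u x σ = xs u σ := by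
  have k : ∀ i, xi (pstar (l i)) σ = 0 := fun i =>
    axd_ine (ayb_l2 hl i) (fun e => (hl i).2 (e ▸ hw)) hσ
  simp [aybEv, k]

theorem ayb_ine2 {w : Plc} (hw : w.p = 2) : ∃ σ ∈ Ine w, ∃ τ ∈ Ine w, xi (-1) τ = 0 ∧
    ∀ (u : V4) (x : ι → ZMod 2), aybEv l u x σ = u 0 ∧ aybEv l u x τ = u 1 := by
  obtain ⟨σ, hσ, s1, s2⟩ := exists_ine_two hw (-1) 1
  obtain ⟨τ, hτ, t1, t2⟩ := exists_ine_two hw 1 (-1)
  refine ⟨σ, hσ, τ, hτ, xi_eq_zero.2 t1, fun u x => ?_⟩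
  rw [ayb_ine hl (by rw [hw]; norm_num) hσ, ayb_ine hl (by rw [hw]; norm_num) hτ]
  simp [xs, xi_eq_one.2 s1, xi_eq_zero.2 s2, xi_eq_zero.2 t1, xi_eq_one.2 t2,
    ayb_i3 (w := w) (by omega) hσ, ayb_i3 (w := w) (by omega) hτ, ayb_i5 (w := w) (by omega) hσ,
    ayb_i5 (w := w) (by omega) hτ]

theorem ayb_fr2 {w : Plc} (hw : w.p = 2) : ∃ φ ∈ Dec w, ∃ a b : ZMod 2,
    ∀ (u : V4) (x : ι → ZMod 2), aybEv l u x φ = u 0 * a + u 1 * b + L8 l u x := by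
  obtain ⟨φ, hφ⟩ := exists_frob w
  have f5 : xi 5 φ = 1 := xi_eq_one.2 (chi_frob_two hw (hw ▸ hφ))
  have f8 : ∀ c : ℤ, c % 8 = 1 → xi c φ = 0 := fun c hc => xi_eq_zero.2 (chi_dec_two hw hc hφ.1)
  have f9 : ∀ c : ℤ, c % 8 = 5 → xi c φ = 1 := fun c hc => by
    have k := f8 (c * 5) (by omega)
    rw [xi_mul (by omega) (by norm_num), f5] at k
    exact CharTwo.add_eq_zero.1 k
  have fl : ∀ i, xi (pstar (l i)) φ = aleg (l i) 2 := fun i => by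
    have := Fact.mk (hl i).1
    have h1 := (hl i).1.eq_two_or_odd.resolve_left (ayb_l2 hl i).2
    have h2 : aleg (l i) 2 = 0 ↔ l i % 8 = 1 ∨ l i % 8 = 7 := by
      rw [aleg_eq_zero_iff]
      push_cast
      exact ZMod.exists_sq_eq_two_iff (ayb_l2 hl i).2
    by_cases h3 : l i % 8 = 1 ∨ l i % 8 = 7
    · rw [h2.2 h3, f8 _ (by unfold pstar; split_ifs <;> omega)]
    · rw [(b4b_cases _).resolve_left (mt h2.1 h3), f9 _ (by unfold pstar; split_ifs <;> omega)]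
  refine ⟨φ, hφ.1, xi (-1) φ, xi 2 φ, fun u x => ?_⟩
  simp only [aybEv, xs, L8, fl, f5, f9 (-3) (by norm_num), mul_comm (aleg _ _)]
  ring

omit [Fintype ι] in
theorem ayb_frl {w : Plc} (hw : w.p ∣ 30) (h2 : w.p ≠ 2) {φ : Gam} (hφ : IsFrob w w.p φ) (i : ι) :
    xi (pstar (l i)) φ = aleg (l i) w.p := by
  have k : w.p ≠ l i := fun e => (hl i).2 (e ▸ hw)
  rw [xi_frob (mu0_ndvd h2 (not_dvd_of_natAbs_eq w.prime (hl i).1 k (natAbs_pstar _))) hφ,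
    aleg_pstar w.prime (hl i).1 h2 (ayb_l2 hl i).2 k]

omit hl in
theorem ayb_neg {w : Plc} {φ : Gam} (h2 : w.p ≠ 2) (hφ : IsFrob w w.p φ) {a : ℤ}
    (h : J(a | w.p) = -1) : xi a φ = 1 :=
  xi_eq_one.2 (Units.ext (by rw [chi_frob (B4c_not_dvd h2 (by rw [h]; decide)) hφ, h]; rfl))

omit hl in
theorem ayb_jac {w : Plc} {φ : Gam} (hφ : IsFrob w w.p φ) {a : ℤ} (h : ¬ (w.p : ℤ) ∣ 2 * a) :
    xi a φ = 0 ∧ J(a | w.p) = 1 ∨ xi a φ = 1 ∧ J(a | w.p) = -1 := by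
  rw [← chi_frob h hφ]
  exact (b4b_cases _).imp (fun k => ⟨k, by rw [xi_eq_zero.1 k]; rfl⟩)
    fun k => ⟨k, by rw [xi_eq_one.1 k]; rfl⟩

theorem ayb_at3 {w : Plc} (hw : w.p = 3) : ∃ τ ∈ Ine w, ∃ φ, IsFrob w w.p φ ∧ xi (-1) τ = 0 ∧
    xi (-1) φ = 1 ∧ ∃ c : ZMod 2, ∀ (u : V4) (x : ι → ZMod 2),
      aybEv l u x τ = u 2 ∧ aybEv l u x φ = L3 l u x + u 2 * c := by
  have h2 : w.p ≠ 2 := by omega
  have h30 : w.p ∣ 30 := by rw [hw]; norm_num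
  obtain ⟨τ, hτ⟩ := exists_gen h2
  obtain ⟨φ, hφ⟩ := exists_frob w
  have g3 : xi (-3) τ = 1 := by simpa [hw, pstar] using axd_gen h2 hτ
  have f1 : xi (-1) φ = 1 := ayb_neg h2 hφ (by rw [hw]; norm_num)
  have f2 : xi 2 φ = 1 := ayb_neg h2 hφ (by rw [hw]; norm_num)
  have f5 : xi 5 φ = 1 := ayb_neg h2 hφ (by rw [hw]; norm_num)
  have fl : ∀ i, xi (pstar (l i)) φ = aleg (l i) (-1) + aleg (l i) (-3) := fun i => by
    rw [ayb_frl hl h30 h2 hφ, hw, ← aleg_mul (hl i).1 (not_dvd_of_natAbs_eq' (hl i).1)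
      (not_dvd_of_natAbs_eq (hl i).1 Nat.prime_three (ayb_ne (hl i).2).2.1 rfl)]
    rfl
  refine ⟨τ, hτ.1, φ, hφ, ayb_i1 h2 hτ.1, f1, xi (-3) φ, fun u x => ⟨?_, ?_⟩⟩
  · simp [ayb_ine hl h30 hτ.1, xs, ayb_i1 h2 hτ.1, ayb_i2 h2 hτ.1, g3,
      ayb_i5 (w := w) (by omega) hτ.1]
  · simp only [aybEv, xs, L3, fl, f1, f2, f5, mul_comm (x _)]
    ring

theorem ayb_at5 {w : Plc} (hw : w.p = 5) : ∃ τ ∈ Ine w, ∃ φ, IsFrob w w.p φ ∧ xi (-1) τ = 0 ∧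
    xi (-1) φ = 0 ∧ ∃ c : ZMod 2, ∀ (u : V4) (x : ι → ZMod 2),
      aybEv l u x τ = u 3 ∧ aybEv l u x φ = L5 l u x + u 3 * c := by
  have h2 : w.p ≠ 2 := by omega
  have h30 : w.p ∣ 30 := by rw [hw]; norm_num
  obtain ⟨τ, hτ⟩ := exists_gen h2
  obtain ⟨φ, hφ⟩ := exists_frob w
  have g5 : xi 5 τ = 1 := by simpa [hw, pstar] using axd_gen h2 hτ
  have f1 : xi (-1) φ = 0 := xi_dec h2 (by rw [hw]; norm_num) hφ.1
  have f2 : xi 2 φ = 1 := ayb_neg h2 hφ (by rw [hw]; norm_num)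
  have f3 : xi (-3) φ = 1 := ayb_neg h2 hφ (by rw [hw]; norm_num)
  have fl : ∀ i, xi (pstar (l i)) φ = aleg (l i) 5 := fun i => by
    rw [ayb_frl hl h30 h2 hφ, hw]
    rfl
  refine ⟨τ, hτ.1, φ, hφ, ayb_i1 h2 hτ.1, f1, xi 5 φ, fun u x => ⟨?_, ?_⟩⟩
  · simp [ayb_ine hl h30 hτ.1, xs, ayb_i1 h2 hτ.1, ayb_i2 h2 hτ.1, g5,
      ayb_i3 (w := w) (by omega) hτ.1]
  · simp only [aybEv, xs, L5, fl, f1, f2, f3, mul_comm (x _)]
    ring

theorem ayb_atl (hi : Function.Injective l) (f : V4) {w : Plc} {i : ι} (hw : w.p = l i) :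
    ∃ τ ∈ Ine w, ∃ φ ∈ Dec w, xi (-1) τ = 0 ∧ xi (-1) φ = aleg (l i) (-1) ∧
      ∀ (u : V4) (x : ι → ZMod 2), aybEv l u x τ = x i ∧
        dt (l i) u + x i * dt (l i) f + ∑ k, aleg (l i) (pstar (l k)) * (x k + x i) =
          aybEv l u x φ + x i * aybEv l f 1 φ := by
  have h30 : ¬ w.p ∣ 30 := hw ▸ (hl i).2
  obtain ⟨h2, h3, h5⟩ := ayb_ne h30
  obtain ⟨τ, hτ⟩ := exists_gen h2
  obtain ⟨φ, hφ⟩ := exists_frob w
  have k : ∀ m : ℤ, m ∣ 30 → xi m φ = aleg (l i) m := fun m hm =>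
    hw ▸ xi_frob (mu0_ndvd h2 (ayb_small w h30 hm)) hφ
  have kd : ∀ u, dt (l i) u = xs u φ := fun u => by
    rw [dt, xs, k (-1) (by norm_num), k 2 (by norm_num), k (-3) (by norm_num), k 5 (by norm_num)]
  refine ⟨τ, hτ.1, φ, hφ.1, ayb_i1 h2 hτ.1, k _ (by norm_num), fun u x => ⟨?_, ?_⟩⟩
  · simp [aybEv, axd_sum (ayb_l2 hl) hi hw hτ, xs, ayb_i1 h2 hτ.1, ayb_i2 h2 hτ.1,
      ayb_i3 h3 hτ.1, ayb_i5 h5 hτ.1]
  · have e : ∑ k, aleg (l i) (pstar (l k)) * (x k + x i) = ∑ k, x k * xi (pstar (l k)) φ +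
        x i * ∑ k, (1 : ι → ZMod 2) k * xi (pstar (l k)) φ := by
      rw [mul_sum, ← sum_add_distrib]
      refine sum_congr rfl fun j _ => ?_
      rw [Pi.one_apply, one_mul]
      by_cases e : j = i
      · rw [e, mu1_two, mu1_two, mul_zero]
      · rw [xi_frob (mu0_ndvd h2 (not_dvd_of_natAbs_eq w.prime (hl j).1
          (fun e' => e (hi (e'.symm.trans hw))) (natAbs_pstar _))) hφ, hw]
        ring
    rw [e, kd, kd, aybEv, aybEv]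
    ring

theorem ayb_tor (hi : Function.Injective l) {f : V4} {G : Subgroup Gam} {α β : Gam → ZMod 2}
    (h : TorK G (sm f * ∏ i, pstar (l i)) α β) : ∃ s t : ZMod 2, ∀ g ∈ G,
      α g = s * aybEv l f 1 g ∧ β g = s * xi (-1) g + t * (xi (-1) g + aybEv l f 1 g) := by
  obtain ⟨s, t, k⟩ := h
  refine ⟨s, t, fun g hg => ?_⟩
  rw [← ayb_xD hl, ← xi_mul (by norm_num) (ayb_sqf hl hi f).ne_zero, neg_one_mul]
  exact k g hg

end

theorem ay_expand (hl : ∀ i, (l i).Prime ∧ ¬ l i ∣ 30) (hi : Function.Injective l) (f : V4)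
    {α β : Gam → ZMod 2} (h : SelK (sm f * ∏ i, pstar (l i)) α β) :
    ∃ (x y : ι → ZMod 2) (u v : V4), SelW l f x y u v ∧ ∀ g,
      α g = xs u g + ∑ i, x i * xi (pstar (l i)) g ∧
      β g = xs v g + ∑ i, y i * xi (pstar (l i)) g := by
  have sD := ayb_sqf hl hi f
  have xD := ayb_xD hl f
  obtain ⟨m30, m2, m3, m5⟩ := ayb_sm f
  have nD : ∀ (w : Plc) (m : ℤ), (∀ i, l i ≠ w.p) → ¬ w.p ∣ 30 → m ∣ 30 →
      ¬ (w.p : ℤ) ∣ m * (sm f * ∏ i, pstar (l i)) := fun w m k1 k2 hm =>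
    ayb_nd hl k1 (ayb_small w k2 hm) (ayb_small w k2 m30)
  obtain ⟨x, u, ea⟩ := ay_span hl hi h.sa h.ha fun w k1 k2 σ hσ => by
    simpa [loc_beta (nD w 6 k1 k2 (by norm_num)) (h.loc w) σ hσ] using
      loc_sum (nD w 10 k1 k2 (by norm_num)) (h.loc w) σ hσ
  obtain ⟨y, v, eb⟩ := ay_span hl hi h.sb h.hb fun w k1 k2 =>
    loc_beta (nD w 6 k1 k2 (by norm_num)) (h.loc w)
  refine ⟨x, y, u, v, ?_, fun g => ⟨ea g, eb g⟩⟩
  replace ea : ∀ g, α g = aybEv l u x g := ea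
  replace eb : ∀ g, β g = aybEv l v y g := eb
  have hE : ∀ i, dt (l i) u + x i * dt (l i) f + ∑ k, aleg (l i) (pstar (l k)) * (x k + x i) = 0 ∧
      dt (l i) v + y i * dt (l i) f + (x i + y i) * aleg (l i) (-1) +
        ∑ k, aleg (l i) (pstar (l k)) * (y k + y i) = 0 := fun i => by
    obtain ⟨w, hw⟩ := exists_plc (hl i).1
    obtain ⟨τ, hτ, φ, hφ, a1, a2, k⟩ := ayb_atl hl hi f hw
    obtain ⟨s, t, e⟩ := ayb_tor hl hi (loc_bad (hw ▸ (hl i).2) sD (((Int.natCast_dvd.2 (by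
      rw [natAbs_pstar, hw])).trans (dvd_prod_of_mem _ (mem_univ i))).mul_left _) (h.loc w))
    have e1 := e τ (Ine_le w hτ)
    have e2 := e φ hφ
    rw [ea, eb, (k _ _).1, (k _ _).1, (k _ _).1, a1] at e1
    simp only [Pi.one_apply, mul_one, mul_zero, zero_add] at e1
    rw [ea, eb, a2, ← e1.1, ← e1.2] at e2
    rw [(k _ _).2, add_right_comm, (k _ _).2, e2.1, e2.2]
    exact ⟨mu1_two _, by
      linear_combination mu1_two (y i * aybEv l f 1 φ) + mu1_two ((x i + y i) * aleg (l i) (-1))⟩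
  have h2 : f 1 * u 0 + f 0 * u 1 + (1 + f 0) * (1 + f 1) * u 0 = 0 ∧
      (1 + f 0) * (1 + f 1) * u 1 + (1 + (1 + f 0) * (1 + f 1)) *
        (L8 l u x + L8 l f 1 * (f 0 * u 0 + (1 + f 0) * u 1)) = 0 ∧
      (1 + f 0) * (1 + f 1) * v 1 = 0 := by
    obtain ⟨w, hw⟩ := exists_plc Nat.prime_two
    obtain ⟨σ, hσ, τ, hτ, a1, k⟩ := ayb_ine2 hl hw
    have p4 := ayb_four hl
    rcases m2 with ⟨b0, b1, b2⟩ | ⟨b0, b1⟩
    · have D4 : (sm f * ∏ i, pstar (l i)) % 4 = 1 := by rw [Int.mul_emod, b2, p4]; rfl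
      have e1 := loc_two_alpha hw D4 (h.loc w) σ hσ
      have e2 := loc_two_alpha hw D4 (h.loc w) τ hτ
      obtain ⟨s, e3⟩ := loc_two_beta hw D4 (h.loc w)
      have e4 := e3 τ hτ
      rw [ea, (k _ _).1] at e1
      rw [ea, (k _ _).2] at e2
      rw [eb, (k _ _).2, a1, mul_zero] at e4
      simp [b0, b1, e1, e2, e4, mu1_two]
    · obtain ⟨t, e⟩ := loc_two_ram hw (by
        rw [Int.mul_emod, p4]
        rcases b1 with b1 | b1 <;> rw [b1] <;> decide) (h.loc w)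
      obtain ⟨φ, hφ, a, b, k'⟩ := ayb_fr2 hl hw
      have e1 := e σ (Ine_le w hσ)
      have e2 := e τ (Ine_le w hτ)
      have e3 := e φ hφ
      rw [ea, xD, (k _ _).1, (k _ _).1] at e1
      rw [ea, xD, (k _ _).2, (k _ _).2] at e2
      rw [ea, xD, k', k'] at e3
      revert b0 e3
      rw [e1, e2]
      clear e k' e1 e2
      generalize f 0 = f0, f 1 = f1, L8 l u x = A, L8 l f 1 = B, v 1 = c
      revert t a b f0 f1 A B c
      decide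
  have h3 : (1 + f 2) * (u 2 + v 2) + f 2 * (L3 l u x + L3 l f 1 * u 2) = 0 ∧
      (1 + f 2) * ((1 + L3 l f 1) * u 2 + L3 l f 1 * (L3 l u x + L3 l v y)) +
        f 2 * (L3 l v y + u 2 + (1 + L3 l f 1) * v 2) = 0 := by
    obtain ⟨w, hw⟩ := exists_plc Nat.prime_three
    obtain ⟨τ, hτ, φ, hφ, a1, a2, c, k⟩ := ayb_at3 hl hw
    rcases m3 with ⟨b0, b1⟩ | ⟨b0, b1⟩
    · have n3 : ∀ m : ℤ, ¬ 3 ∣ m → ¬ (w.p : ℤ) ∣ m * (sm f * ∏ i, pstar (l i)) := fun m hm =>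
        ayb_nd hl (fun i => hw ▸ (ayb_ne (hl i).2).2.1) (by rwa [hw]) (by rwa [hw])
      have e1 := loc_sum (n3 10 (by decide)) (h.loc w) τ hτ
      rw [ea, eb, (k _ _).1, (k _ _).1] at e1
      rcases ayb_jac hφ (n3 2 (by decide)) with ⟨e2, e3⟩ | ⟨e2, e3⟩ <;>
        rw [xD, (k _ _).2, b0, zero_mul, add_zero] at e2
      · have e4 := loc_three_pos hw (hw ▸ e3) (h.loc w) τ hτ
        rw [ea, (k _ _).1] at e4
        rw [e1, b0, e2, e4]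
        simp
      · have e4 := loc_three_neg hw (hw ▸ e3) (h.loc w) φ hφ.1
        rw [ea, eb, (k _ _).2, (k _ _).2, add_add_add_comm, ← add_mul, e1, zero_mul,
          add_zero] at e4
        rw [e1, b0, e2, e4]
        simp [mu1_two]
    · obtain ⟨s, t, e⟩ := ayb_tor hl hi (loc_bad3 hw sD (b1.mul_right _) (h.loc w))
      have e1 := e τ (Ine_le w hτ)
      have e2 := e φ hφ.1
      rw [ea, eb, (k _ _).1, (k _ _).1, (k _ _).1, a1, b0] at e1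
      rw [ea, eb, (k _ _).2, (k _ _).2, (k _ _).2, a2, b0] at e2
      revert e1 e2
      rw [b0]
      clear e k
      generalize u 2 = a, v 2 = b, L3 l u x = A, L3 l f 1 = B, L3 l v y = C
      revert s t c a b A B C
      decide
  have h5 : (1 + f 3) * v 3 + f 3 * (L5 l u x + L5 l f 1 * u 3) = 0 ∧
      (1 + f 3) * ((1 + L5 l f 1) * L5 l v y + L5 l f 1 * u 3) +
        f 3 * (L5 l v y + L5 l f 1 * v 3) = 0 := by
    obtain ⟨w, hw⟩ := exists_plc Nat.prime_five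
    obtain ⟨τ, hτ, φ, hφ, a1, a2, c, k⟩ := ayb_at5 hl hw
    rcases m5 with ⟨b0, b1⟩ | ⟨b0, b1⟩
    · have n5 : ∀ m : ℤ, ¬ 5 ∣ m → ¬ (w.p : ℤ) ∣ m * (sm f * ∏ i, pstar (l i)) := fun m hm =>
        ayb_nd hl (fun i => hw ▸ (ayb_ne (hl i).2).2.2) (by rwa [hw]) (by rwa [hw])
      have e1 := loc_beta (n5 6 (by decide)) (h.loc w) τ hτ
      rw [eb, (k _ _).1] at e1
      rcases ayb_jac hφ (n5 2 (by decide)) with ⟨e2, e3⟩ | ⟨e2, e3⟩ <;>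
        rw [xD, (k _ _).2, b0, zero_mul, add_zero] at e2
      · have e4 := loc_five_pos hw (hw ▸ e3) (h.loc w) φ hφ.1
        rw [eb, (k _ _).2, e1, zero_mul, add_zero] at e4
        rw [e1, b0, e2, e4]
        simp
      · have e4 := loc_five_neg hw (hw ▸ e3) (h.loc w) τ hτ
        rw [ea, (k _ _).1] at e4
        rw [e1, b0, e2, e4]
        simp [mu1_two]
    · obtain ⟨s, t, e⟩ := ayb_tor hl hi (loc_bad5 hw sD (b1.mul_right _) (h.loc w))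
      have e1 := e τ (Ine_le w hτ)
      have e2 := e φ hφ.1
      rw [ea, eb, (k _ _).1, (k _ _).1, (k _ _).1, a1, b0] at e1
      rw [ea, eb, (k _ _).2, (k _ _).2, (k _ _).2, a2, b0] at e2
      revert e1 e2
      rw [b0]
      clear e k
      generalize u 3 = a, v 3 = b, L5 l u x = A, L5 l f 1 = B, L5 l v y = C
      revert s t c a b A B C
      decide
  refine ⟨fun i => (hE i).1, fun i => (hE i).2, ?_, h2.1, h2.2.1, h2.2.2, h3.1, h3.2, h5.1, h5.2⟩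
  have e := loc_inf sD.ne_zero h.inf
  rw [ea, eb, xD, ayb_cc hl, ayb_cc hl, ayb_cc hl] at e
  rw [e, mu1_two]

end Pool.Agent.Lib.MP_696deb_nt.B3
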