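import Pool.Agent.Lib.MP_696deb_nt.B3.AY0

/-! Elimination over the field with two elements, and the finite check. -/

set_option autoImplicit false

open Finset

namespace Pool.Agent.Lib.MP_696deb_nt.B3

/-- The value of the linear form with the binary digits of `r` as coefficients. -/
def ev (w : ℕ → ZMod 2) (n r : ℕ) : ZMod 2 := ∑ i ∈ range n, if r.testBit i then w i else 0

theorem ev_xor (w : ℕ → ZMod 2) (n r s : ℕ) : ev w n (r ^^^ s) = ev w n r + ev w n s := by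
  rw [ev, ev, ev, ← sum_add_distrib]
  refine sum_congr rfl fun i _ => ?_
  rw [Nat.testBit_xor]
  cases r.testBit i <;> cases s.testBit i <;> simp [CharTwo.add_self_eq_zero]

/-- Multiplication by a scalar. -/
def sc (c r : ℕ) : ℕ := c % 2 * r

theorem ev_sc (w : ℕ → ZMod 2) (n c r : ℕ) : ev w n (sc c r) = c * ev w n r := by
  rw [← ZMod.natCast_mod c 2, sc]
  rcases Nat.mod_two_eq_zero_or_one c with h | h <;> simp [h, ev]

theorem ev_pow (w : ℕ → ZMod 2) {n i : ℕ} (h : i < n) : ev w n (2 ^ i) = w i := by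
  simp [ev, Nat.testBit_two_pow, h]

theorem ev_succ (w : ℕ → ZMod 2) (n r : ℕ) :
    ev w (n + 1) r = ev w n r + (r >>> n % 2 : ℕ) * w n := by
  rw [ev, sum_range_succ, Nat.testBit_eq_decide_div_mod_eq, Nat.shiftRight_eq_div_pow]
  rcases Nat.mod_two_eq_zero_or_one (r / 2 ^ n) with h | h <;> simp [h, ev]

/-- The columns without a pivot. -/
def free : ℕ → List ℕ → List ℕ
  | 0, _ => []
  | n + 1, L => match L.find? fun r => ((r.shiftRight n).mod 2).beq 1 with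
    | none => n :: free n L
    | some r => free n (L.map fun s => s.xor (((s.shiftRight n).mod 2).mul r))

theorem free_spec (w : ℕ → ZMod 2) : ∀ (n : ℕ) (L : List ℕ), (∀ r ∈ L, ev w n r = 0) →
    (∀ i ∈ free n L, w i = 0) → ∀ i < n, w i = 0
  | 0, _, _, _, _, h => absurd h (Nat.not_lt_zero _)
  | n + 1, L, h1, h2, i, h => by
    rw [free] at h2
    split at h2
    · have k := h2 n (by simp)
      rcases Nat.lt_succ_iff_lt_or_eq.1 h with h | rfl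
      · exact free_spec w n L (fun r hr => by simpa [ev_succ, k] using h1 r hr)
          (fun i hi => h2 i (by simp [hi])) i h
      · exact k
    · rename_i r e
      have b : r >>> n % 2 = 1 := Nat.eq_of_beq_eq_true
        (List.find?_some (p := fun r : ℕ => ((r.shiftRight n).mod 2).beq 1) e)
      have m := h1 r (List.mem_of_find?_eq_some e)
      rw [ev_succ, b] at m
      have ih := free_spec w n _ (fun t ht => by
        obtain ⟨u, hu, rfl⟩ := List.mem_map.1 ht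
        have := h1 u hu
        rw [ev_succ, ZMod.natCast_mod] at this
        refine (ev_xor w n u (sc (u >>> n) r)).trans ?_
        rw [ev_sc]
        linear_combination this + (u >>> n : ℕ) * m - (u >>> n : ℕ) *
          CharTwo.add_self_eq_zero (w n)) h2
      rcases Nat.lt_succ_iff_lt_or_eq.1 h with h | rfl
      · exact ih i h
      · rw [ev, sum_eq_zero fun j hj => by simp [ih j (mem_range.1 hj)]] at m
        simpa using m

/-- The symbol of a small number at a prime of class `c`. -/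
def dN (f : Fin 4 → ℕ) (c : ℕ) : ℕ := f 0 * b4 c + f 1 * b8 c + f 2 * b3 c + f 3 * b5 c

def dR (U : Fin 4 → ℕ) (c : ℕ) : ℕ :=
  sc (b4 c) (U 0) ^^^ sc (b8 c) (U 1) ^^^ sc (b3 c) (U 2) ^^^ sc (b5 c) (U 3)

def Pat.e0 (T : Pat) : ℕ := 97 - 60 * T.t

def Pat.e1 (T : Pat) : ℕ := 17 + 60 * T.t

def lN (T : Pat) (g : ℕ → ℕ) : ℕ := g T.c0 + g T.c1 + g T.c2 + g T.e0 + g T.e1

def lR (T : Pat) (g : ℕ → ℕ) (A B : Fin 3 → ℕ) : ℕ := sc (g T.c0) (A 0) ^^^ sc (g T.c1) (A 1) ^^^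
  sc (g T.c2) (A 2) ^^^ sc (g T.e0) (B 0) ^^^ sc (g T.e1) (B 1)

def b43 (c : ℕ) : ℕ := b4 c + b3 c

/-- The equation at a prime `q`. -/
def rowq (f U : Fin 4 → ℕ) (e a b : ℕ) : ℕ := dR U e ^^^ sc (dN f e) b ^^^ a

/-- The equation at a prime `r`. -/
def rowr (T : Pat) (f U : Fin 4 → ℕ) (c : ℕ) (A B : Fin 3 → ℕ) (k : Fin 3) : ℕ :=
  dR U c ^^^ sc (dN f c) (A k) ^^^ sc (T.sN k 0) (A 0 ^^^ A k) ^^^ sc (T.sN k 1) (A 1 ^^^ A k) ^^^
    sc (T.sN k 2) (A 2 ^^^ A k) ^^^ B k ^^^ A k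

/-- The equations. -/
def rows (T : Pat) (f U V : Fin 4 → ℕ) (A B C D : Fin 3 → ℕ) : List ℕ :=
  [rowq f U T.e0 (A 0) (B 0), rowq f U T.e1 (A 1) (B 1), rowq f U 1 (A 2) (B 2),
    rowq f V T.e0 (C 0) (D 0), rowq f V T.e1 (C 1) (D 1), rowq f V 1 (C 2) (D 2),
    rowr T f U T.c0 A B 0, rowr T f U T.c1 A B 1, rowr T f U T.c2 A B 2,
    rowr T f V T.c0 C D 0 ^^^ sc (b4 T.c0) (A 0 ^^^ C 0),
    rowr T f V T.c1 C D 1 ^^^ sc (b4 T.c1) (A 1 ^^^ C 1),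
    rowr T f V T.c2 C D 2 ^^^ sc (b4 T.c2) (A 2 ^^^ C 2),
    B 0 ^^^ B 1 ^^^ B 2, D 0 ^^^ D 1 ^^^ D 2,
    U 0 ^^^ U 2 ^^^ lR T b4 A B ^^^ sc (f 0 + f 2 + lN T b4) (V 0 ^^^ V 2 ^^^ lR T b4 C D),
    sc (f 1) (U 0) ^^^ sc (f 0) (U 1) ^^^ sc ((1 + f 0) * (1 + f 1)) (U 0),
    sc ((1 + f 0) * (1 + f 1)) (U 1) ^^^ sc (1 + (1 + f 0) * (1 + f 1)) (U 2 ^^^ U 3 ^^^
      lR T b8 A B ^^^ sc (f 2 + f 3 + lN T b8) (sc (f 0) (U 0) ^^^ sc (1 + f 0) (U 1))),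
    sc ((1 + f 0) * (1 + f 1)) (V 1),
    sc (1 + f 2) (U 2 ^^^ V 2) ^^^ sc (f 2) (U 0 ^^^ U 1 ^^^ U 3 ^^^ lR T b43 A B ^^^
      sc (f 0 + f 1 + f 3 + lN T b43) (U 2)),
    sc (1 + f 2) (sc (1 + (f 0 + f 1 + f 3 + lN T b43)) (U 2) ^^^ sc (f 0 + f 1 + f 3 + lN T b43)
      (U 0 ^^^ U 1 ^^^ U 3 ^^^ lR T b43 A B ^^^ (V 0 ^^^ V 1 ^^^ V 3 ^^^ lR T b43 C D))) ^^^
      sc (f 2) (V 0 ^^^ V 1 ^^^ V 3 ^^^ lR T b43 C D ^^^ U 2 ^^^
        sc (1 + (f 0 + f 1 + f 3 + lN T b43)) (V 2)),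
    sc (1 + f 3) (V 3) ^^^ sc (f 3) (U 1 ^^^ U 2 ^^^ lR T b5 A B ^^^
      sc (f 1 + f 2 + lN T b5) (U 3)),
    sc (1 + f 3) (sc (1 + (f 1 + f 2 + lN T b5)) (V 1 ^^^ V 2 ^^^ lR T b5 C D) ^^^
      sc (f 1 + f 2 + lN T b5) (U 3)) ^^^
      sc (f 3) (V 1 ^^^ V 2 ^^^ lR T b5 C D ^^^ sc (f 1 + f 2 + lN T b5) (V 3))]

/-- The matrix of the equations. -/
def mat (T : Pat) (f : Fin 4 → ℕ) : List ℕ :=
  rows T f (fun i => 2 ^ i.val) (fun i => 2 ^ (4 + i.val)) (fun i => 2 ^ (8 + i.val))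
    (fun i => 2 ^ (11 + i.val)) (fun i => 2 ^ (14 + i.val)) fun i => 2 ^ (17 + i.val)

/-- The patterns that are used. -/
def pats (m : ℕ) : List Pat :=
  [(1, 29, 17, 0, 0, 0), (1, 31, 73, 0, 0, 0), (1, 29, 23, 1, 1, 0), (0, 17, 1, 1, 1, 1),
    (1, 7, 1, 0, 0, 0), (0, 1, 1, 0, 1, 0)].map fun (t, a, b, x, y, z) =>
      ⟨a, b, m * a ^ 3 * b ^ 3 % 120, t, x, y, z⟩

/-- The property of a pattern that is checked. -/
def Pat.Chk (T : Pat) (a b c d m : ℕ) : Prop :=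
  ((T.c0 < 120 ∧ T.c0.Coprime 120) ∧ (T.c1 < 120 ∧ T.c1.Coprime 120) ∧
    (T.c2 < 120 ∧ T.c2.Coprime 120) ∧ T.t ≤ 1 ∧ T.c0 * T.c1 * T.c2 % 120 = m ∧
    (a = 0 ∧ b = 0 ∨ (a + b * (T.t * (b4 T.c0 + b4 T.c1))) % 2 = 1)) ∧
  (free 20 (mat T ![a, b, c, d])).length ≤ 1

instance (T : Pat) (a b c d m : ℕ) : Decidable (T.Chk a b c d m) := by
  unfold Pat.Chk
  infer_instance

theorem ayc_all : ∀ a b c d : Fin 2, ∀ m : Fin 120, m.val.Coprime 120 →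
    ∃ T ∈ pats m, T.Chk a b c d m := by
  decide +kernel

end Pool.Agent.Lib.MP_696deb_nt.B3
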