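import Pool.Agent.Lib.MP_696deb_nt.B2.AXe
import Pool.Agent.Lib.MP_696deb_nt.B2.AXf
import Pool.Agent.Lib.MP_696deb_nt.B3.AYc

/-! The linear equations have at most eight solutions. -/

set_option autoImplicit false

open scoped NNReal Classical
open Finset NumberTheorySymbols

namespace Pool.Agent.Lib.MP_696deb_nt.B3

open B2

theorem SelW.add {ι : Type} [Fintype ι] {l : ι → ℕ} {f u v u' v' : V4} {x y x' y' : ι → ZMod 2}
    (h : SelW l f x y u v) (h' : SelW l f x' y' u' v') :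
    SelW l f (x + x') (y + y') (u + u') (v + v') := by
  have k : ∀ (u v v' : ι → ZMod 2) (i : ι), ∑ k, u k * (v k + v' k + (v i + v' i)) =
      ∑ k, u k * (v k + v i) + ∑ k, u k * (v' k + v' i) := fun u v v' i => by
    rw [← sum_add_distrib]
    exact sum_congr rfl fun k _ => by ring
  have k' : ∀ u v v' : ι → ZMod 2, ∑ k, u k * (v k + v' k) = ∑ k, u k * v k + ∑ k, u k * v' k :=
    fun u v v' => by simp only [mul_add, sum_add_distrib]
  have k0 : ∀ p u u', dt p (u + u') = dt p u + dt p u' := fun p u u' => by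
    simp only [dt, Pi.add_apply]; ring
  have k1 : ∀ u u' x x', Li l (u + u') (x + x') = Li l u x + Li l u' x' ∧
      L8 l (u + u') (x + x') = L8 l u x + L8 l u' x' ∧
      L3 l (u + u') (x + x') = L3 l u x + L3 l u' x' ∧
      L5 l (u + u') (x + x') = L5 l u x + L5 l u' x' := fun u u' x x' => by
    simp only [Li, L8, L3, L5, Pi.add_apply, k']
    exact ⟨by ring, by ring, by ring, by ring⟩
  refine ⟨fun i => ?_, fun i => ?_, ?_, ?_, ?_, ?_, ?_, ?_, ?_, ?_⟩ <;>
    simp only [Pi.add_apply, k, k0, k1]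
  · linear_combination h.e1 i + h'.e1 i
  · linear_combination h.e2 i + h'.e2 i
  · linear_combination h.ei + h'.ei
  · linear_combination h.t1 + h'.t1
  · linear_combination h.t2 + h'.t2
  · linear_combination h.t3 + h'.t3
  · linear_combination h.h1 + h'.h1
  · linear_combination h.h2 + h'.h2
  · linear_combination h.g1 + h'.g1
  · linear_combination h.g2 + h'.g2

theorem ayd_bits {p : ℕ} (hp : p.Prime ∧ ¬ p ∣ 30) : aleg p (-1) = b4 (p % 120) ∧
    aleg p 2 = b8 (p % 120) ∧ aleg p (-3) = b3 (p % 120) ∧ aleg p 5 = b5 (p % 120) := by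
  obtain ⟨n2, n3, n5⟩ := axe_ne hp.2
  have := Fact.mk hp.1
  have h2 := hp.1.eq_two_or_odd.resolve_left n2
  have h3 : ¬ 3 ∣ p := fun h => n3 ((Nat.prime_dvd_prime_iff_eq Nat.prime_three hp.1).1 h).symm
  have h5 : ¬ 5 ∣ p := fun h => n5 ((Nat.prime_dvd_prime_iff_eq Nat.prime_five hp.1).1 h).symm
  have lt : p % 120 < 120 := Nat.mod_lt _ (by norm_num)
  refine ⟨?_, ?_, ?_, ?_⟩
  · rw [axe_neg_one hp.1, b4]
    split_ifs
    · rw [show p % 120 / 2 % 2 = 1 by omega, Nat.cast_one]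
    · rw [show p % 120 / 2 % 2 = 0 by omega, Nat.cast_zero]
  · have k : ∀ c < 120, c % 2 = 1 → (b8 c : ZMod 2) = if c % 8 = 1 ∨ c % 8 = 7 then 0 else 1 := by
      decide
    rw [k _ lt (by omega), aleg, Nat.mod_mod_of_dvd _ (by norm_num)]
    congr 1
    simpa using ZMod.exists_sq_eq_two_iff n2
  · have k : ∀ c < 120, c % 3 ≠ 0 →
        (b3 c : ZMod 2) = if IsSquare (((c : ℕ) : ℤ) : ZMod 3) then 0 else 1 := by decide
    rw [show (-3 : ℤ) = pstar 3 from rfl, aleg_pstar hp.1 Nat.prime_three n2 (by norm_num) n3,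
      axf_congr (b := p % 120) (by rw [Nat.ModEq]; omega), k _ lt (by omega), aleg]
    congr
  · have k : ∀ c < 120, c % 5 ≠ 0 →
        (b5 c : ZMod 2) = if IsSquare (((c : ℕ) : ℤ) : ZMod 5) then 0 else 1 := by decide
    rw [show (5 : ℤ) = pstar 5 from rfl, aleg_pstar hp.1 Nat.prime_five n2 (by norm_num) n5,
      axf_congr (b := p % 120) (by rw [Nat.ModEq]; omega), k _ lt (by omega), aleg]
    congr

section

variable {d : ℤ} {R P : Type} [Fintype R] [Fintype P] {p q : R ⊕ P → ℕ} {c e : R → ℕ}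
  {σ : R → R → ZMod 2}

theorem Fam3.pq_ne' (F : Fam3 d p q c e σ) (i j : R ⊕ P) : p i ≠ q j := fun e => by
  simpa using F.inj (a₁ := .inl i) (a₂ := .inr j) e

theorem Fam3.p_inj' (F : Fam3 d p q c e σ) : Function.Injective p := fun i j e => by
  simpa using F.inj (a₁ := .inl i) (a₂ := .inl j) e

theorem Fam3.q_inj' (F : Fam3 d p q c e σ) : Function.Injective q := fun i j e => by
  simpa using F.inj (a₁ := .inr i) (a₂ := .inr j) e

/-- The sum of symbols at one of the primes `q`. -/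
theorem Fam3.sum_q (F : Fam3 d p q c e σ) {v : R ⊕ (R ⊕ P) → ZMod 2} (hv : ∑ j, v (.inr j) = 0)
    (j : R ⊕ P) : ∑ k, aleg (famL p q (.inr j)) (pstar (famL p q k)) * (v k + v (.inr j)) =
      Sum.elim (fun k => v (.inl k)) (fun i => v (.inr (.inr i))) j := by
  have h4 := F.q4 j
  have e1 : ∑ i, aleg (q j) (pstar (q i)) * (v (.inr i) + v (.inr j)) = v (.inr j) := by
    have : ∀ i, aleg (q j) (pstar (q i)) * (v (.inr i) + v (.inr j)) =
        v (.inr i) + v (.inr j) := fun i => by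
      by_cases e : i = j
      · rw [e, axe_two, mul_zero]
      · rw [axe_pstar (F.qp j).1 h4 (F.qp i).1 fun k => e (F.q_inj' k).symm, F.qq i j e, one_mul]
    obtain ⟨m, hm⟩ := F.odd
    rw [sum_congr rfl fun i _ => this i, sum_add_distrib, hv, sum_const, card_univ, hm,
      nsmul_eq_mul]
    push_cast
    linear_combination m * axe_two (v (.inr j))
  rw [Fintype.sum_sum_type]
  simp only [famL, Sum.elim_inl, Sum.elim_inr, e1]
  simp only [axe_pstar (F.qp j).1 h4 (F.pp _).1 (F.pq_ne' _ j).symm, F.pq]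
  rcases j with k | i
  · simp [add_assoc, axe_two]
  · simp

/-- The sum of symbols at one of the primes `p`. -/
theorem Fam3.sum_p (F : Fam3 d p q c e σ) (v : R ⊕ (R ⊕ P) → ZMod 2) (k : R) :
    ∑ i, aleg (famL p q (.inl k)) (pstar (famL p q i)) * (v i + v (.inl k)) =
      ∑ i, σ k i * (v (.inl i) + v (.inl k)) + (v (.inr (.inl k)) + v (.inl k)) := by
  rw [Fintype.sum_sum_type]
  simp only [famL, Sum.elim_inl, Sum.elim_inr]
  simp only [aleg_pstar (F.pp _).1 (F.qp _).1 (axe_ne (F.pp _).2).1 (axe_ne (F.qp _).2).1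
    (F.pq_ne' _ _), F.pq]
  congr 1
  · refine sum_congr rfl fun i _ => ?_
    by_cases h : k = i
    · rw [h, axe_two, mul_zero, mul_zero]
    · rw [aleg_pstar (F.pp _).1 (F.pp _).1 (axe_ne (F.pp _).2).1 (axe_ne (F.pp _).2).1
        fun e => h (by simpa using F.p_inj' e), F.rr k i h]
  · simp

end

variable {d : ℤ} {E P : Type} [Fintype E] [Fintype P] {p q : (Fin 3 ⊕ E) ⊕ P → ℕ} {T : Pat}

theorem Fam3.sumL (F : Fam3 d p q (T.c E) (T.e E) (T.s E)) (a : ℕ → ZMod 2) (g : ℕ → ℕ)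
    (h : ∀ p : ℕ, p.Prime ∧ ¬ p ∣ 30 → a p = g (p % 120)) (g1 : g 1 = 0)
    (x : (Fin 3 ⊕ E) ⊕ ((Fin 3 ⊕ E) ⊕ P) → ZMod 2) :
    ∑ i, a (famL p q i) * x i = g T.c0 * x (.inl (.inl 0)) + g T.c1 * x (.inl (.inl 1)) +
      g T.c2 * x (.inl (.inl 2)) + g T.e0 * x (.inr (.inl (.inl 0))) +
      g T.e1 * x (.inr (.inl (.inl 1))) := by
  simp only [Fintype.sum_sum_type, famL, Sum.elim_inl, Sum.elim_inr, h _ (F.pp _), h _ (F.qp _),
    F.pc, F.qc, Fin.sum_univ_three]
  simp [Pat.c, Pat.e, Pat.e0, Pat.e1, g1, add_assoc]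

theorem Fam3.rows_zero (F : Fam3 d p q (T.c E) (T.e E) (T.s E)) {f u v : V4}
    {x y : (Fin 3 ⊕ E) ⊕ ((Fin 3 ⊕ E) ⊕ P) → ZMod 2} (h : SelW (famL p q) f x y u v)
    (hx : ∑ j, x (.inr j) = 0) (hy : ∑ j, y (.inr j) = 0) :
    (∀ i, x (.inl (.inr i)) = 0 ∧ x (.inr (.inl (.inr i))) = 0 ∧ y (.inl (.inr i)) = 0 ∧
      y (.inr (.inl (.inr i))) = 0) ∧ (∀ i, x (.inr (.inr i)) = 0 ∧ y (.inr (.inr i)) = 0) ∧
    ∀ (w : ℕ → ZMod 2) (n : ℕ) (g U V : Fin 4 → ℕ) (A B C D : Fin 3 → ℕ), (∀ i, g i = f i) →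
      (∀ i, ev w n (U i) = u i) → (∀ i, ev w n (V i) = v i) →
      (∀ i, ev w n (A i) = x (.inl (.inl i))) → (∀ i, ev w n (B i) = x (.inr (.inl (.inl i)))) →
      (∀ i, ev w n (C i) = y (.inl (.inl i))) → (∀ i, ev w n (D i) = y (.inr (.inl (.inl i)))) →
      ∀ r ∈ rows T g U V A B C D, ev w n r = 0 := by
  have a1 := fun j => h.e1 (.inr j)
  have a2 := fun j => h.e2 (.inr j)
  have b1 := fun k => h.e1 (.inl k)
  have b2 := fun k => h.e2 (.inl k)
  simp only [F.sum_q hx] at a1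
  simp only [F.sum_q hy] at a2
  simp only [F.sum_p] at b1 b2
  simp only [famL, Sum.elim_inl, Sum.elim_inr, dt, ayd_bits (F.pp _), ayd_bits (F.qp _), F.pc, F.qc,
    Fintype.sum_sum_type, Fin.sum_univ_three] at a1 a2 b1 b2
  have o : b4 1 = 0 ∧ b8 1 = 0 ∧ b3 1 = 0 ∧ b5 1 = 0 := by decide
  have z1 : ∀ i, x (.inl (.inr i)) = 0 := fun i => by simpa [Pat.e, o] using a1 (.inl (.inr i))
  have z2 : ∀ i, y (.inl (.inr i)) = 0 := fun i => by simpa [Pat.e, o] using a2 (.inl (.inr i))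
  have z3 : ∀ i, x (.inr (.inl (.inr i))) = 0 := fun i => by
    simpa [Pat.c, Pat.s, o, z1] using b1 (.inr i)
  have z4 : ∀ i, y (.inr (.inl (.inr i))) = 0 := fun i => by
    simpa [Pat.c, Pat.s, o, z2] using b2 (.inr i)
  have z5 : ∀ i, x (.inr (.inr i)) = 0 := fun i => by simpa [o] using a1 (.inr i)
  have z6 : ∀ i, y (.inr (.inr i)) = 0 := fun i => by simpa [o] using a2 (.inr i)
  refine ⟨fun i => ⟨z1 i, z3 i, z2 i, z4 i⟩, fun i => ⟨z5 i, z6 i⟩,
    fun w n g U V A B C D hg hU hV hA hB hC hD => ?_⟩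
  have s4 := F.sumL (aleg · (-1)) b4 (fun _ h => (ayd_bits h).1) o.1
  have s8 := F.sumL (aleg · 2) b8 (fun _ h => (ayd_bits h).2.1) o.2.1
  have s3 := F.sumL (fun p => aleg p (-1) + aleg p (-3)) b43
    (fun _ h => by simp only [ayd_bits h, b43, Nat.cast_add]) (by decide)
  have s5 := F.sumL (aleg · 5) b5 (fun _ h => (ayd_bits h).2.2.2) o.2.2.2
  obtain ⟨-, -, c1, c2, c3, c4, c5, c6, c7, c8⟩ := h
  simp only [Li, L8, L3, L5, s4, s8, s3, s5] at c1 c3 c5 c6 c7 c8
  simp only [Pi.one_apply] at c1 c3 c5 c6 c7 c8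
  have q4 : ∀ k, (x (.inr (.inl (.inl k))) + y (.inr (.inl (.inl k)))) *
      (b4 (T.e E (.inl k)) : ZMod 2) = 0 := fun k => by
    have k1 : q (.inl (.inl k)) % 120 = T.e E (.inl k) := F.qc (.inl _)
    have k2 := F.q4 (.inl (.inl k))
    rw [b4, show T.e E (.inl k) / 2 % 2 = 0 by omega, Nat.cast_zero, mul_zero]
  have q0 := q4 0
  have q1 := q4 1
  have q2 := q4 2
  have p0 := a1 (.inl (.inl 0))
  have p1 := a1 (.inl (.inl 1))
  have p2 := a1 (.inl (.inl 2))
  have p3 := a2 (.inl (.inl 0))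
  have p4 := a2 (.inl (.inl 1))
  have p5 := a2 (.inl (.inl 2))
  have r0 := b1 (.inl 0)
  have r1 := b1 (.inl 1)
  have r2 := b1 (.inl 2)
  have r3 := b2 (.inl 0)
  have r4 := b2 (.inl 1)
  have r5 := b2 (.inl 2)
  have t0 : T.e E (.inl 0) = T.e0 := rfl
  have t1 : T.e E (.inl 1) = T.e1 := rfl
  have t2 : T.e E (.inl 2) = 1 := rfl
  have t3 : T.c E (.inl 0) = T.c0 := rfl
  have t4 : T.c E (.inl 1) = T.c1 := rfl
  have t5 : T.c E (.inl 2) = T.c2 := rfl
  simp only [Sum.elim_inl, t0, t1, t2, t3, t4, t5, Pat.s, Sum.elim_inr, Pi.zero_apply, zero_mul,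
    sum_const_zero] at p0 p1 p2 p3 p4 p5 r0 r1 r2 r3 r4 r5 q0 q1 q2
  simp only [Fintype.sum_sum_type, Fin.sum_univ_three, z3, z4, z5, z6, sum_const_zero] at hx hy
  simp only [rows, rowq, rowr, dR, dN, lR, lN, List.forall_mem_cons, ev_xor, ev_sc, hU, hV, hA, hB,
    hC, hD, Nat.cast_add, Nat.cast_mul, Nat.cast_one, hg, List.not_mem_nil, false_imp_iff,
    implies_true, and_true]
  refine ⟨?_, ?_, ?_, ?_, ?_, ?_, ?_, ?_, ?_, ?_, ?_, ?_, ?_, ?_, ?_, ?_, ?_, ?_, ?_, ?_, ?_, ?_⟩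
  · linear_combination p0
  · linear_combination p1
  · linear_combination p2
  · linear_combination p3 - q0
  · linear_combination p4 - q1
  · linear_combination p5 - q2
  · linear_combination r0
  · linear_combination r1
  · linear_combination r2
  · linear_combination r3
  · linear_combination r4
  · linear_combination r5
  · linear_combination hx
  · linear_combination hy
  · linear_combination c1
  · linear_combination c2
  · linear_combination c3
  · linear_combination c4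
  · linear_combination c5
  · linear_combination c6
  · linear_combination c7
  · linear_combination c8

/-- The coordinates. -/
def crd {E P : Type} (x y : (Fin 3 ⊕ E) ⊕ ((Fin 3 ⊕ E) ⊕ P) → ZMod 2) (u v : V4) (i : ℕ) : ZMod 2 :=
  [u 0, u 1, u 2, u 3, v 0, v 1, v 2, v 3, x (.inl (.inl 0)), x (.inl (.inl 1)), x (.inl (.inl 2)),
    x (.inr (.inl (.inl 0))), x (.inr (.inl (.inl 1))), x (.inr (.inl (.inl 2))),
    y (.inl (.inl 0)), y (.inl (.inl 1)), y (.inl (.inl 2)),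
    y (.inr (.inl (.inl 0))), y (.inr (.inl (.inl 1))), y (.inr (.inl (.inl 2)))].getD i 0

theorem crd_add {E P : Type} (x y x' y' : (Fin 3 ⊕ E) ⊕ ((Fin 3 ⊕ E) ⊕ P) → ZMod 2)
    (u v u' v' : V4) (i : ℕ) :
    crd (x + x') (y + y') (u + u') (v + v') i = crd x y u v i + crd x' y' u' v' i := by
  rcases lt_or_ge i 20 with h | h
  · interval_cases i <;> simp only [crd, List.getD_cons_succ, List.getD_cons_zero, Pi.add_apply]
  · rw [crd, crd, crd, List.getD_eq_default _ _ h, List.getD_eq_default _ _ h,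
      List.getD_eq_default _ _ h, add_zero]

theorem exists_pat (f : V4) {m : ℕ} (h1 : m < 120) (h2 : m.Coprime 120) :
    ∃ T : Pat, T.Ok f m ∧ Small T f := by
  obtain ⟨T, -, ⟨k1, k2, k3, k4, k5, k6⟩, k7⟩ := ayc_all (f 0) (f 1) (f 2) (f 3) ⟨m, h1⟩ h2
  have cv : ∀ a : ZMod 2, ((Fin.val (n := 2) a : ℕ) : ZMod 2) = a := by decide
  refine ⟨T, ⟨k1, k2, k3, k4, k5, k6.imp (fun h => ⟨Fin.ext h.1, Fin.ext h.2⟩) fun h => ?_⟩,
    fun d E P _ _ p q F => ?_⟩
  · have := congrArg (Nat.cast : ℕ → ZMod 2) h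
    rwa [ZMod.natCast_mod, Nat.cast_add, Nat.cast_mul, cv, cv, Nat.cast_one] at this
  obtain ⟨j, hj⟩ : ∃ j, ∀ i ∈ free 20 (mat T ![Fin.val (n := 2) (f 0), Fin.val (n := 2) (f 1),
      Fin.val (n := 2) (f 2), Fin.val (n := 2) (f 3)]), i = j := by
    generalize free 20 _ = L at k7
    rcases L with _ | ⟨j, _ | ⟨_, _⟩⟩ <;> simp at k7 ⊢
  refine (card_le_card_of_injOn (t := (univ : Finset (ZMod 2 × ZMod 2 × ZMod 2)))
    (fun v => (∑ j, v.1 (.inr j), ∑ j, v.2.1 (.inr j), crd v.1 v.2.1 v.2.2.1 v.2.2.2 j))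
    (fun _ _ => mem_univ _) ?_).trans (by simp)
  rintro ⟨x, y, u, v⟩ h ⟨x', y', u', v'⟩ h' e
  simp only [coe_filter, mem_univ, true_and, Set.mem_ofPred_eq, Prod.mk.injEq] at h h' e
  obtain ⟨z1, z2, z3⟩ := F.rows_zero (h.add h')
    (by simp only [Pi.add_apply, sum_add_distrib, e.1, axe_two])
    (by simp only [Pi.add_apply, sum_add_distrib, e.2.1, axe_two])
  have ep : ∀ {i : ℕ}, i < 20 → ev (crd (x + x') (y + y') (u + u') (v + v')) 20 (2 ^ i) = _ :=
    ev_pow _
  have z := free_spec (crd (x + x') (y + y') (u + u') (v + v')) 20 (mat T _)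
    (z3 _ _ ![Fin.val (n := 2) (f 0), Fin.val (n := 2) (f 1), Fin.val (n := 2) (f 2),
      Fin.val (n := 2) (f 3)] (fun i => 2 ^ i.val) (fun i => 2 ^ (4 + i.val))
      (fun i => 2 ^ (8 + i.val)) (fun i => 2 ^ (11 + i.val)) (fun i => 2 ^ (14 + i.val))
      (fun i => 2 ^ (17 + i.val)) (fun i => by fin_cases i <;> exact cv _)
      (fun i => (ep (by omega)).trans (by fin_cases i <;> rfl))
      (fun i => (ep (by omega)).trans (by fin_cases i <;> rfl))
      (fun i => (ep (by omega)).trans (by fin_cases i <;> rfl))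
      (fun i => (ep (by omega)).trans (by fin_cases i <;> rfl))
      (fun i => (ep (by omega)).trans (by fin_cases i <;> rfl))
      fun i => (ep (by omega)).trans (by fin_cases i <;> rfl))
    fun i hi => by rw [hj i hi, crd_add, e.2.2, axe_two]
  have k : ∀ {α : Type} {u v : α → ZMod 2}, (∀ i, (u + v) i = 0) → u = v := fun e =>
    funext fun i => CharTwo.add_eq_zero.1 (e i)
  have e1 : x = x' := k (by
    rintro ((i | i) | (i | i) | i)
    · fin_cases i <;> [exact z 8 (by omega); exact z 9 (by omega); exact z 10 (by omega)]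
    · exact (z1 i).1
    · fin_cases i <;> [exact z 11 (by omega); exact z 12 (by omega); exact z 13 (by omega)]
    · exact (z1 i).2.1
    · exact (z2 i).1)
  have e2 : y = y' := k (by
    rintro ((i | i) | (i | i) | i)
    · fin_cases i <;> [exact z 14 (by omega); exact z 15 (by omega); exact z 16 (by omega)]
    · exact (z1 i).2.2.1
    · fin_cases i <;> [exact z 17 (by omega); exact z 18 (by omega); exact z 19 (by omega)]
    · exact (z1 i).2.2.2
    · exact (z2 i).2)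
  have e3 : u = u' := k fun i => Eq.trans (by fin_cases i <;> rfl) (z i (by omega))
  have e4 : v = v' := k fun i => Eq.trans (by fin_cases i <;> rfl) (z (4 + i) (by omega))
  rw [e1, e2, e3, e4]

end Pool.Agent.Lib.MP_696deb_nt.B3
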