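import Pool.Agent.Lib.MP_696deb_nt.B2.AXf
import Pool.Agent.Lib.MP_696deb_nt.B3.AY0

/-! Primes with prescribed classes and symbols. -/

set_option autoImplicit false

open scoped NNReal Classical
open Finset NumberTheorySymbols

namespace Pool.Agent.Lib.MP_696deb_nt.B3

open B2

theorem aleg_recip {p q : ℕ} (hp : p.Prime ∧ ¬ p ∣ 30) (hq : q.Prime ∧ ¬ q ∣ 30) (h : p ≠ q) :
    aleg q p = aleg p q + (b4 p * b4 q : ℕ) := by
  have p2 : p ≠ 2 := fun e => hp.2 (by rw [e]; norm_num)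
  have q2 : q ≠ 2 := fun e => hq.2 (by rw [e]; norm_num)
  have p3 := hp.1.eq_two_or_odd.resolve_left p2
  have q3 := hq.1.eq_two_or_odd.resolve_left q2
  have := Fact.mk hp.1
  have h1 : aleg p (-1) = 0 ↔ p % 4 ≠ 3 := by
    rw [aleg_eq_zero_iff]
    push_cast
    exact ZMod.exists_sq_eq_neg_one_iff
  rw [← aleg_pstar hp.1 hq.1 p2 q2 h, pstar]
  split_ifs with k
  · rw [show b4 q = 0 by rw [b4]; omega, mul_zero, Nat.cast_zero, add_zero]
  rw [show b4 q = 1 by rw [b4]; omega, mul_one, ← neg_one_mul, aleg_mul hp.1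
    (fun e => hp.1.not_dvd_one (by exact_mod_cast dvd_neg.1 e)) fun e =>
      h ((Nat.prime_dvd_prime_iff_eq hp.1 hq.1).1 (by exact_mod_cast e)), add_comm]
  refine congrArg _ ?_
  by_cases e : p % 4 = 3
  · rw [show b4 p = 1 by rw [b4]; omega, (zmod_two_cases _).resolve_left fun k => h1.1 k e,
      Nat.cast_one]
  · rw [show b4 p = 0 by rw [b4]; omega, h1.2 e, Nat.cast_zero]

theorem aye_b4 {a b : ℕ} (h : a % 120 = b % 120) : b4 a = b4 b := by
  rw [b4, b4]
  omega

theorem exists_primes3 {ι : Type} [Fintype ι] (S : Finset ℕ) (hS : ∀ p ∈ S, p.Prime ∧ ¬ p ∣ 30)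
    (c : ι → ℕ) (hc : ∀ i, (c i).Coprime 120) (E : ι → ℕ → ZMod 2) (M : ι → ι → ZMod 2)
    (hM : ∀ i j, i ≠ j → M j i = M i j + (b4 (c i) * b4 (c j) : ℕ)) (N : ℕ) :
    ∃ l : ι → ℕ, Function.Injective l ∧ (∀ i, N < l i) ∧
      (∀ i, (l i).Prime ∧ ¬ l i ∣ 30 ∧ l i ∉ S ∧ l i % 120 = c i % 120 ∧
        ∀ p ∈ S, aleg p (l i) = E i p) ∧
      ∀ i j, i ≠ j → aleg (l i) (l j) = M i j := by
  have key : ∀ t : Finset ι, ∃ l : ι → ℕ, Set.InjOn l t ∧ (∀ i ∈ t, N < l i) ∧
      (∀ i ∈ t, (l i).Prime ∧ ¬ l i ∣ 30 ∧ l i ∉ S ∧ l i % 120 = c i % 120 ∧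
        ∀ p ∈ S, aleg p (l i) = E i p) ∧
      ∀ i ∈ t, ∀ j ∈ t, i ≠ j → aleg (l i) (l j) = M i j := by
    intro t
    induction t using Finset.induction_on with
    | empty => exact ⟨0, by simp, by simp, by simp, by simp⟩
    | insert a t ha ih =>
      obtain ⟨l, h1, h0, h2, h3⟩ := ih
      obtain ⟨r, r1, r2, r3, r4⟩ := exists_prime_aleg (S ∪ t.image l) (fun p hp => by
          rcases mem_union.1 hp with hp | hp
          · exact hS p hp
          · obtain ⟨i, hi, rfl⟩ := mem_image.1 hp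
            exact ⟨(h2 i hi).1, (h2 i hi).2.1⟩)
        (fun p => if p ∈ S then E a p else ∑ i ∈ t with l i = p, M i a) (hc a)
        ((S ∪ t.image l).sup id + 30 + N)
      have r5 : r ∉ S ∪ t.image l := fun h => by
        have : r ≤ (S ∪ t.image l).sup id := le_sup (f := id) h
        omega
      have r6 : ¬ r ∣ 30 := fun h => by
        have := Nat.le_of_dvd (by norm_num) h
        omega
      have r7 : ∀ i ∈ t, l i ≠ r := fun i hi e => r5 (mem_union_right _ (e ▸ mem_image_of_mem l hi))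
      have r8 : ∀ i ∈ t, aleg (l i) r = M i a := fun i hi => by
        rw [r4 _ (mem_union_right _ (mem_image_of_mem l hi)), if_neg (h2 i hi).2.2.1,
          sum_eq_single_of_mem i (by simp [hi]) fun j hj e => absurd
            (h1 (mem_filter.1 hj).1 hi (mem_filter.1 hj).2) e]
      have u : ∀ i ∈ t, Function.update l a r i = l i := fun i hi =>
        Function.update_of_ne (by rintro rfl; exact ha hi) _ _
      refine ⟨Function.update l a r, ?_, ?_, ?_, ?_⟩
      · intro i hi' j hj' e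
        rcases mem_insert.1 hi' with rfl | hi <;> rcases mem_insert.1 hj' with rfl | hj
        · rfl
        · exact absurd (by rwa [Function.update_self, u j hj, eq_comm] at e) (r7 j hj)
        · exact absurd (by rwa [Function.update_self, u i hi] at e) (r7 i hi)
        · exact h1 hi hj (by rwa [u i hi, u j hj] at e)
      · intro i hi
        rcases mem_insert.1 hi with rfl | hi
        · rw [Function.update_self]
          omega
        · rw [u i hi]
          exact h0 i hi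
      · intro i hi
        rcases mem_insert.1 hi with rfl | hi
        · rw [Function.update_self]
          exact ⟨r2, r6, fun h => r5 (mem_union_left _ h), r3, fun p hp => by
            rw [r4 p (mem_union_left _ hp), if_pos hp]⟩
        · rw [u i hi]
          exact h2 i hi
      · intro i hi' j hj' e
        rcases mem_insert.1 hi' with rfl | hi <;> rcases mem_insert.1 hj' with rfl | hj
        · exact absurd rfl e
        · rw [Function.update_self, u j hj, hM _ _ e.symm, ← r8 j hj, ← aye_b4 r3,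
            ← aye_b4 (h2 j hj).2.2.2.1]
          exact aleg_recip ⟨(h2 j hj).1, (h2 j hj).2.1⟩ ⟨r2, r6⟩ (r7 j hj)
        · rw [Function.update_self, u i hi, r8 i hi]
        · rw [u i hi, u j hj, h3 i hi j hj e]
  obtain ⟨l, h1, h0, h2, h3⟩ := key univ
  exact ⟨l, fun i j e => h1 (by simp) (by simp) e, fun i => h0 i (mem_univ _),
    fun i => h2 i (mem_univ _), fun i j => h3 i (mem_univ _) j (mem_univ _)⟩

theorem aye_fam {R : Type} [Fintype R] (S : Finset ℕ) (hS : ∀ p ∈ S, p.Prime ∧ ¬ p ∣ 30)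
    (c e : R → ℕ) (σ : R → R → ZMod 2) (hc : ∀ k, c k < 120 ∧ (c k).Coprime 120)
    (he : ∀ k, e k < 120 ∧ (e k).Coprime 120 ∧ e k % 4 = 1)
    (hσ : ∀ i k, i ≠ k → σ i k = σ k i + (b4 (c i) * b4 (c k) : ℕ))
    (hp : ((∏ k, c k) * ∏ j : S, (j : ℕ)) % 120 = 19) (ho : Odd (Fintype.card (R ⊕ S))) (N : ℕ) :
    ∃ p q : R ⊕ S → ℕ, Fam3 (∏ j : S, pstar j) p q c e σ ∧ ∀ i, N < famL p q i := by
  have cc : ∀ j : R ⊕ S, Sum.elim e 1 j < 120 ∧ (Sum.elim e 1 j).Coprime 120 ∧
      Sum.elim e 1 j % 4 = 1 := Sum.forall.2 ⟨he, fun _ => by simp⟩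
  have c0 : ∀ j : R ⊕ S, b4 (Sum.elim e 1 j) = 0 := fun j => by
    have := cc j
    rw [b4]
    omega
  obtain ⟨l, h1, h0, h2, h3⟩ := exists_primes3 (ι := R ⊕ R ⊕ S) S hS (Sum.elim c (Sum.elim e 1))
    (Sum.forall.2 ⟨fun k => (hc k).2, fun j => (cc j).2.1⟩)
    (Sum.elim 0 fun j p => if ∃ h, j = .inr ⟨p, h⟩ then 1 else 0)
    (Sum.elim (fun k => Sum.elim (fun i => σ i k) fun j => if .inl k = j then 1 else 0)
      fun j => Sum.elim (fun k => if .inl k = j then 1 else 0) 1)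
    (by
      rintro (k | j) (k' | j') n
      · exact hσ k k' fun e => n (congrArg _ e)
      all_goals simp only [Sum.elim_inl, Sum.elim_inr, c0, mul_zero, zero_mul, Nat.cast_zero,
        add_zero, Pi.one_apply]) N
  have qc : ∀ j, l (.inr j) % 120 = Sum.elim e 1 j % 120 := fun j => (h2 (.inr j)).2.2.2.1
  have rc : ∀ k, l (.inl k) % 120 = c k % 120 := fun k => (h2 (.inl k)).2.2.2.1
  have q4 : ∀ j, l (.inr j) % 4 = 1 := fun j => by have := cc j; have := qc j; omega
  have lp : ∀ i, (l i).Prime ∧ ¬ l i ∣ 30 := fun i => ⟨(h2 i).1, (h2 i).2.1⟩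
  have k : ∀ (i) (p : S), l i ≠ p := fun i p e => (h2 i).2.2.1 (e ▸ p.2)
  refine ⟨Sum.elim (fun k => l (.inl k)) (fun p => p), fun j => l (.inr j), ⟨?_, fun j => lp _, ?_,
    ho, rfl, q4, ?_, fun i j e => h3 (.inr j) (.inr i) (by simpa using e.symm),
    fun k => (rc k).trans (Nat.mod_eq_of_lt (hc k).1),
    fun j => (qc j).trans (Nat.mod_eq_of_lt (cc j).1),
    fun i k e => h3 (.inl k) (.inl i) (by simpa using e.symm), ?_⟩,
    Sum.forall.2 ⟨fun _ => h0 _, fun _ => h0 _⟩⟩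
  · rintro (k | p)
    · exact lp _
    · exact hS p p.2
  · rintro ((a | a) | a) ((b | b) | b) e
    · simpa using h1 e
    · exact absurd e (k _ _)
    · simpa using h1 e
    · exact absurd e.symm (k _ _)
    · rw [Subtype.ext e]
    · exact absurd e.symm (k _ _)
    · simpa using h1 e
    · exact absurd e (k _ _)
    · simpa using h1 e
  · rintro (i | p) j
    · exact (h3 (.inr j) (.inl i) (by simp)).trans (by by_cases e : .inl i = j <;> simp [e])
    · rw [Sum.elim_inr, axf_symm (lp _) (hS p p.2) (k _ _) (.inl (q4 j)), (h2 _).2.2.2.2 p p.2]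
      simp [eq_comm]
  · rw [Fintype.prod_sum_type, ← hp]
    exact (Nat.ModEq.prod fun k _ => rc k).mul_right _

theorem exists_fam3 {d : ℤ} (h : Cls0 d) (N : ℕ) : ∃ m : ℕ, m < 120 ∧ m.Coprime 120 ∧
    ∀ (T : Pat) (f : V4), T.Ok f m → ∃ (E P : Type) (_ : Fintype E) (_ : Fintype P)
      (p q : (Fin 3 ⊕ E) ⊕ P → ℕ), Fam3 d p q (T.c E) (T.e E) (T.s E) ∧ ∀ i, N < famL p q i := by
  have hN : Squarefree d.natAbs := Int.squarefree_natAbs.2 h.sqf
  have h4 := h.m4
  have hS : ∀ p ∈ d.natAbs.primeFactors, p.Prime ∧ ¬ p ∣ 30 := fun p hp => by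
    have hp' := Nat.mem_primeFactors.1 hp
    refine ⟨hp'.1, fun k => ?_⟩
    have k1 := Int.natCast_dvd.2 hp'.2.1
    have k2 : p ∣ 2 * 3 * 5 := k
    simp only [hp'.1.dvd_mul, Nat.prime_dvd_prime_iff_eq hp'.1, Nat.prime_two, Nat.prime_three,
      Nat.prime_five] at k2
    rcases k2 with (rfl | rfl) | rfl
    · omega
    · exact h.m3 k1
    · exact h.m5 k1
  have hP : ∏ j : d.natAbs.primeFactors, (j : ℕ) = d.natAbs := by
    rw [prod_coe_sort _ fun p => p, Nat.prod_primeFactors_of_squarefree hN]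
  have hc : d.natAbs.Coprime 120 := hP ▸ Nat.Coprime.prod_left fun p _ =>
    (((hS p p.2).1.coprime_iff_not_dvd.2 (hS p p.2).2).pow_right 3).coprime_dvd_right (by norm_num)
  obtain ⟨m, m0, hm⟩ := Nat.exists_mul_mod_eq_of_coprime 19 hc (by norm_num)
  refine ⟨m, m0, Nat.Coprime.coprime_mul_left (k := d.natAbs) (by
    rw [Nat.Coprime, Nat.gcd_comm, Nat.gcd_rec, hm]
    norm_num), fun T f o => ?_⟩
  obtain ⟨p, q, F, hF⟩ := aye_fam (R := Fin 3 ⊕ Fin (d.natAbs.primeFactors.card % 2)) _ hS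
    (T.c _) (T.e _) (T.s _)
    (by
      rintro (k | k)
      · fin_cases k
        exacts [o.l0, o.l1, o.l2]
      · exact ⟨(by norm_num : 1 < 120), Nat.coprime_one_left _⟩)
    (by
      rintro (k | k)
      · rcases Nat.le_one_iff_eq_zero_or_eq_one.1 o.t1 with e | e <;> fin_cases k <;>
          simp [Pat.e, e] <;> norm_num
      · simp [Pat.e])
    (by
      rintro (i | i) (k | k) n
      · fin_cases i <;> fin_cases k <;>
          simp [Pat.s, Pat.sN, Pat.c, mul_comm, add_assoc, CharTwo.add_self_eq_zero] at n ⊢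
      all_goals simp [Pat.s, Pat.c, b4])
    (by
      rw [hP, Fintype.prod_sum_type, Fin.prod_univ_three]
      simp only [Pat.c, Sum.elim_inl, Sum.elim_inr, Pi.one_apply, prod_const_one]
      change T.c0 * T.c1 * T.c2 * 1 * d.natAbs % 120 = 19
      rw [mul_one, ← Nat.mod_mul_mod, o.pr, mul_comm, hm])
    (by
      simp only [Fintype.card_sum, Fintype.card_fin, Fintype.card_coe, Nat.odd_iff]
      omega) N
  rw [eq_of_natAbs_eq_of_emod ((natAbs_prod_signed natAbs_pstar _).trans hP)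
    (prod_emod_four _ _ fun p _ => pstar_emod ((hS p p.2).1.eq_two_or_odd.resolve_left fun k =>
      (hS p p.2).2 (by rw [k]; norm_num))) h4] at F
  exact ⟨_, _, _, _, p, q, F, hF⟩

end Pool.Agent.Lib.MP_696deb_nt.B3
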