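import Pool.Agent.Lib.MP_696deb_nt.B2.AXg
import Pool.Agent.Lib.MP_696deb_nt.B3.AY0

/-! The auxiliary field. -/

set_option autoImplicit false

open scoped NNReal Classical
open Finset NumberTheorySymbols

namespace Pool.Agent.Lib.MP_696deb_nt.B3

open B2

theorem ayf_two {r : ℕ} (hp : r.Prime) (h4 : r % 4 = 1) :
    aleg r 2 = if r % 8 = 5 then 1 else 0 := by
  have := Fact.mk hp
  have h : aleg r 2 = 0 ↔ r % 8 = 1 ∨ r % 8 = 7 := by
    rw [aleg_eq_zero_iff]
    push_cast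
    exact ZMod.exists_sq_eq_two_iff (by omega)
  split_ifs with k
  · exact (zmod_two_cases _).resolve_left fun e => by have := h.1 e; omega
  · exact h.2 (by omega)

theorem ayf_three {r : ℕ} (hp : r.Prime) (h4 : r % 4 = 1) (h3 : r % 3 = 2) : aleg r 3 = 1 := by
  have a3 : ¬ IsSquare (2 : ZMod 3) := by decide
  rw [show (3 : ℤ) = (3 : ℕ) from rfl, ← aleg_pstar Nat.prime_three hp (by norm_num)
    (by omega) (by omega), pstar, if_pos h4, aleg, Int.cast_natCast, ← ZMod.natCast_mod, h3]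
  exact if_neg a3

theorem ayf_jac {r : ℕ} (hp : r.Prime) {c : ℤ} (h : aleg r c = 1) : J(c | r) = -1 :=
  have := Fact.mk hp
  ZMod.nonsquare_iff_jacobiSym_eq_neg_one.2 fun k => by simp [aleg_eq_zero_iff.2 k] at h

section

variable {d : ℤ} {R P : Type} [Fintype R] [Fintype P] {p q : R ⊕ P → ℕ} {c e : R → ℕ}
  {σ : R → R → ZMod 2}

theorem ayf_pq_ne (F : Fam3 d p q c e σ) (i j : R ⊕ P) : p i ≠ q j := fun e => by
  simpa using F.inj (a₁ := .inl i) (a₂ := .inr j) e

theorem ayf_p_inj (F : Fam3 d p q c e σ) : Function.Injective p := fun i j e => by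
  simpa using F.inj (a₁ := .inl i) (a₂ := .inl j) e

theorem ayf_qp (F : Fam3 d p q c e σ) (i j : R ⊕ P) :
    aleg (p i) (q j) = if i = j then 1 else 0 := by
  rw [← F.pq, ← aleg_pstar (F.pp i).1 (F.qp j).1 (axe_ne (F.pp _).2).1 (axe_ne (F.qp _).2).1
    (ayf_pq_ne F _ _), pstar, if_pos (F.q4 j)]

theorem ayf_condB (F : Fam3 d p q c e σ) : CondB (((∏ j, p j) * ∏ j, q j : ℕ) : ℤ) := by
  rw [← show ∏ i, Sum.elim p q i = (∏ j, p j) * ∏ j, q j by simp [Fintype.prod_sum_type]]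
  refine axg_condB (by rintro (i | i); exacts [(F.pp i).1, (F.qp i).1]) F.inj fun v hv => ?_
  have h1 : ∀ j, v (.inl j) = ∑ i, v (.inr i) := fun j => by
    have h := hv (.inr j)
    have k : ∀ i, aleg (q j) (q i) * (v (.inr i) + v (.inr j)) = v (.inr i) + v (.inr j) :=
      fun i => by
        by_cases e : i = j
        · rw [e, axe_two, mul_zero]
        · rw [F.qq i j e, one_mul]
    obtain ⟨m, hm⟩ := F.odd
    simp only [Fintype.sum_sum_type (α₁ := R ⊕ P) (α₂ := R ⊕ P), Sum.elim_inl, Sum.elim_inr, F.pq,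
      k, ite_mul, one_mul, zero_mul, sum_ite_eq', mem_univ, if_true, sum_add_distrib, sum_const,
      card_univ, hm, nsmul_eq_mul] at h
    push_cast at h
    linear_combination h - axe_two (∑ i, v (.inr i)) - (m + 1) * axe_two (v (.inr j))
  have h2 : ∀ i, v (.inr i) = ∑ i, v (.inr i) := fun i => by
    have h := hv (.inl i)
    simp only [Fintype.sum_sum_type (α₁ := R ⊕ P) (α₂ := R ⊕ P), Sum.elim_inl, Sum.elim_inr,
      ayf_qp F, h1, axe_two, mul_zero, sum_const_zero, zero_add, ite_mul, one_mul, zero_mul,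
      sum_ite_eq, mem_univ, if_true] at h
    exact CharTwo.add_eq_zero.1 h
  exact ⟨_, by rintro (i | i); exacts [h1 i, h2 i]⟩

theorem ayf_ps (F : Fam3 d p q c e σ) (j : R ⊕ P) : pstar (p j) % 4 = 1 :=
  pstar_emod ((F.pp j).1.eq_two_or_odd.resolve_left (axe_ne (F.pp j).2).1)

/-- A divisor that is one modulo four is a product of signed primes. -/
theorem ayf_div (F : Fam3 d p q c e σ) {x : ℤ} (h : x ∣ -((∏ j, p j : ℕ) : ℤ)) (h4 : x % 4 = 1) :
    ∃ t : Finset (R ⊕ P), x = ∏ j ∈ t, pstar (p j) := by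
  obtain ⟨t, ht⟩ := axg_div (fun j => (F.pp j).1) univ (c := x.natAbs)
    (Int.natCast_dvd_natCast.1 (Int.natAbs_dvd.2 (dvd_neg.1 h)))
  refine ⟨t, eq_of_natAbs_eq_of_emod ?_ h4 (prod_emod_four _ _ fun j _ => ayf_ps F j)⟩
  rw [← ht, ← Int.natAbsHom_apply, map_prod]
  simp only [Int.natAbsHom_apply, natAbs_pstar]

theorem ayf_sym (F : Fam3 d p q c e σ) (t : Finset (R ⊕ P)) (j : R ⊕ P) :
    aleg (q j) (∏ i ∈ t, pstar (p i)) = if j ∈ t then 1 else 0 := by
  rw [aleg_prod (F.qp j).1 _ _ fun i _ =>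
    not_dvd_of_natAbs_eq (F.qp j).1 (F.pp i).1 (ayf_pq_ne F i j).symm (natAbs_pstar _)]
  simp only [axe_pstar (F.qp j).1 (F.q4 j) (F.pp _).1 (ayf_pq_ne F _ j).symm, F.pq]
  simp

theorem ayf_ndvd (F : Fam3 d p q c e σ) (t : Finset (R ⊕ P)) (j : R ⊕ P) :
    ¬ (q j : ℤ) ∣ ∏ i ∈ t, pstar (p i) := fun h => by
  obtain ⟨i, -, k⟩ := (Prime.dvd_finsetProd_iff (Nat.prime_iff_prime_int.1 (F.qp j).1) _).1 h
  exact not_dvd_of_natAbs_eq (F.qp j).1 (F.pp i).1 (ayf_pq_ne F i j).symm (natAbs_pstar _) k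

end

variable {d : ℤ} {E P : Type} [Fintype E] [Fintype P] {p q : (Fin 3 ⊕ E) ⊕ P → ℕ} {T : Pat}
  {f : V4} {m : ℕ}

theorem ayf_qb (F : Fam3 d p q (T.c E) (T.e E) (T.s E)) (hT : T.Ok f m) :
    (∏ j, q j) % 120 = 89 := by
  have h : ∀ j, q j ≡ Sum.elim (T.e E) 1 j [MOD 120] := fun j => by
    rw [← F.qc j]
    exact (Nat.mod_modEq _ _).symm
  refine Eq.trans (Nat.ModEq.prod fun j _ => h j) ?_
  have t1 := hT.t1
  simp only [Fintype.prod_sum_type, Sum.elim_inl, Sum.elim_inr, Pat.e, Pi.one_apply,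
    prod_const_one, mul_one, Fin.prod_univ_three]
  rcases Nat.le_one_iff_eq_zero_or_eq_one.1 t1 with k | k <;> simp [k]

theorem ayf_q0 (F : Fam3 d p q (T.c E) (T.e E) (T.s E)) :
    q (.inl (.inl 0)) % 120 = 97 - 60 * T.t := by
  simpa [Pat.e] using F.qc (.inl (.inl 0))

theorem ayf_q1 (F : Fam3 d p q (T.c E) (T.e E) (T.s E)) :
    q (.inl (.inl 1)) % 120 = 17 + 60 * T.t := by
  simpa [Pat.e] using F.qc (.inl (.inl 1))

theorem ayf_q2 (F : Fam3 d p q (T.c E) (T.e E) (T.s E)) {j : (Fin 3 ⊕ E) ⊕ P}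
    (h0 : j ≠ .inl (.inl 0)) (h1 : j ≠ .inl (.inl 1)) : q j % 120 = 1 := by
  rw [F.qc j]
  rcases j with (i | i) | i
  · fin_cases i
    · exact absurd rfl h0
    · exact absurd rfl h1
    · rfl
  · rfl
  · rfl

theorem Fam3.ctx (F : Fam3 d p q (T.c E) (T.e E) (T.s E)) (hT : T.Ok f m) :
    Ctx d (∏ i, pstar (famL p q i)) ((∏ j, p j) * ∏ j, q j) (-(∏ j, p j : ℕ)) (∏ j, q j : ℕ) := by
  have pa := F.pa
  have qb := ayf_qb F hT
  have q0 := ayf_q0 F
  have q1 := ayf_q1 F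
  have t1 := hT.t1
  have n11 : ((∏ j, p j) * ∏ j, q j) % 120 = 11 := by rw [Nat.mul_mod, pa, qb]
  have ps := ayf_ps F
  have e1 : ∏ j, pstar (p j) = -(∏ j, p j : ℕ) :=
    eq_of_natAbs_eq_of_emod (by
      rw [← Int.natAbsHom_apply, map_prod]
      simp only [Int.natAbsHom_apply, natAbs_pstar, Int.natAbs_neg, Int.natAbs_natCast])
      (prod_emod_four _ _ fun j _ => ps j) (by omega)
  have e2 : ∀ j, pstar (q j) = q j := fun j => if_pos (F.q4 j)
  have dq : ∀ j, (q j : ℤ) ∣ (∏ j, q j : ℕ) := fun j =>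
    Int.natCast_dvd_natCast.2 (dvd_prod_of_mem _ (mem_univ j))
  have n3 : ∀ j, ¬ (q j : ℤ) ∣ 3 := fun j =>
    not_dvd_of_natAbs_eq (F.qp _).1 Nat.prime_three (axe_ne (F.qp _).2).2.1 rfl
  refine ⟨⟨⟨?_, by omega, ?_⟩, by omega, ⟨7, by omega⟩, ayf_condB F⟩, ?_, ?_, by push_cast; ring,
    by omega, fun r hr h => ?_, ?_, ?_, fun c h0 h k => ?_, fun c h0 h k => ?_, ?_⟩
  · simpa [Fintype.prod_sum_type (f := Sum.elim p q)] using
      axg_sqf (by rintro (i | i); exacts [(F.pp i).1, (F.qp i).1]) F.inj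
  · rw [Nat.Coprime, Nat.gcd_comm, Nat.gcd_rec, show _ % 15 = 11 by omega]
    norm_num
  · rw [Fintype.prod_sum_type, F.deq, Nat.cast_mul, ← neg_mul, ← e1,
      Fintype.prod_sum_type (f := fun j => pstar (p j))]
    simp only [famL, Sum.elim_inl, Sum.elim_inr, e2, Nat.cast_prod]
    ring
  · exact F.deq ▸ prod_emod_four _ _ fun j _ => ps _
  · obtain ⟨j, rfl⟩ := axg_mem (fun j => (F.qp j).1) hr (Int.natCast_dvd_natCast.1 h)
    exact F.q4 j
  · rw [jacobiSym.mod_left' (a₂ := 1) (by omega), jacobiSym.one_left]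
  · rw [Int.natAbs_neg, Int.natAbs_natCast, ← prod_image (f := fun x => x) (ayf_p_inj F).injOn,
      Nat.primeFactors_prod (forall_mem_image.2 fun j _ => (F.pp j).1),
      card_image_of_injective _ (ayf_p_inj F)]
    exact F.odd
  · exact axg_one (fun j => (F.pp j).1) h0 (dvd_neg.1 h) q (fun j => (F.qp j).1)
      (fun i j => (ayf_pq_ne F j i).symm) (fun i j => by simp [F.pq, eq_comm])
      fun j => k _ (F.qp j).1 (dq j)
  · exact axg_one (fun j => (F.qp j).1) h0 h p (fun j => (F.pp j).1) (ayf_pq_ne F)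
      (fun i j => by simp [ayf_qp F]) fun j => k _ (F.pp j).1
        (dvd_neg.2 (Int.natCast_dvd_natCast.2 (dvd_prod_of_mem _ (mem_univ j))))
  · have a5 : aleg (q (.inl (.inl 0))) 5 = 1 := axe_five (F.qp _).1 (F.qp _).2 (by omega)
    rintro c (rfl | rfl | rfl)
    · exact ⟨_, (F.qp (.inl (.inl 1))).1, dq _,
        ayf_jac (F.qp _).1 (ayf_three (F.qp _).1 (F.q4 _) (by omega))⟩
    · exact ⟨_, (F.qp _).1, dq _, ayf_jac (F.qp _).1 a5⟩
    · refine ⟨_, (F.qp (.inl (.inl 0))).1, dq _, ayf_jac (F.qp _).1 ?_⟩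
      rw [show (15 : ℤ) = 3 * 5 from rfl, aleg_mul (F.qp _).1 (n3 _)
        (not_dvd_of_natAbs_eq (F.qp _).1 Nat.prime_five (axe_ne (F.qp _).2).2.2 rfl), a5,
        ← axe_neg (F.qp _).1 (F.q4 _) (n3 _), axe_three (F.qp _).1 (F.qp _).2 (by omega), zero_add]

theorem Fam3.mux (F : Fam3 d p q (T.c E) (T.e E) (T.s E)) (hT : T.Ok f m) :
    MuX ((-1) ^ (f 0).val * 2 ^ (f 1).val) (-(∏ j, p j : ℕ)) (∏ j, q j : ℕ) := by
  intro hδ
  have pa := F.pa
  have q0 := ayf_q0 F
  have q1 := ayf_q1 F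
  have t1 := hT.t1
  refine ⟨by omega, fun c hc h4 h0 => ?_⟩
  obtain ⟨t, rfl⟩ := ayf_div F hc h4
  by_contra hn
  have z : ∀ j, aleg (q j) ((-1) ^ (f 0).val * 2 ^ (f 1).val * ∏ i ∈ t, pstar (p i)) = 0 :=
    fun j => (zmod_two_cases _).resolve_right fun k => hn ⟨q j, (F.qp j).1,
      Int.natCast_dvd_natCast.2 (dvd_prod_of_mem _ (mem_univ j)), ayf_jac (F.qp j).1 k⟩
  have n1 : ∀ j, ¬ (q j : ℤ) ∣ -1 := fun j => not_dvd_of_natAbs_eq' (F.qp j).1
  have n2 : ∀ j, ¬ (q j : ℤ) ∣ 2 := fun j =>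
    not_dvd_of_natAbs_eq (F.qp j).1 Nat.prime_two (axe_ne (F.qp j).2).1 rfl
  have v1 : (1 : ZMod 2).val = 1 := rfl
  have nd := ayf_ndvd F t
  have n3 : ∀ j, ¬ (q j : ℤ) ∣ 2 * ∏ i ∈ t, pstar (p i) := fun j k =>
    ((Nat.prime_iff_prime_int.1 (F.qp j).1).dvd_or_dvd k).elim (n2 j) (nd j)
  have key : ∀ j, f 1 * aleg (q j) 2 + (if j ∈ t then 1 else 0) = 0 := fun j => by
    have k := z j
    have s : aleg (q j) (∏ i ∈ t, pstar (p i)) = if j ∈ t then 1 else 0 := by
      by_cases n : j ∈ t <;> simp [ayf_sym F t j, n]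
    rw [← s]
    rcases zmod_two_cases (f 0) with a | a <;> rcases zmod_two_cases (f 1) with b | b <;>
      rw [a, b] at k <;> rw [b] <;>
      simp only [ZMod.val_zero, v1, pow_zero, pow_one, one_mul, mul_one, neg_mul, zero_mul,
        zero_add] at k ⊢
    · exact k
    · rwa [aleg_mul (F.qp j).1 (n2 j) (nd j)] at k
    · rwa [axe_neg (F.qp j).1 (F.q4 j) (nd j)] at k
    · rwa [axe_neg (F.qp j).1 (F.q4 j) (n3 j), aleg_mul (F.qp j).1 (n2 j) (nd j)] at k
  simp only [ayf_two (F.qp _).1 (F.q4 _)] at key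
  by_cases hb : f 1 = 1 ∧ T.t = 1
  · obtain ⟨b, ht⟩ := hb
    have e : t = {.inl (.inl 0), .inl (.inl 1)} := by
      ext j
      have k := key j
      rw [b, one_mul] at k
      simp only [mem_insert, mem_singleton]
      by_cases a0 : j = .inl (.inl 0)
      · subst a0
        rw [if_pos (by omega)] at k
        simpa using by_contra fun n => by simp [n] at k
      by_cases a1 : j = .inl (.inl 1)
      · subst a1
        rw [if_pos (by omega)] at k
        simpa using by_contra fun n => by simp [n] at k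
      have := ayf_q2 F a0 a1
      rw [if_neg (by omega), zero_add] at k
      simp only [a0, a1, or_self, iff_false]
      exact fun n => by simp [n] at k
    have p0 : p (.inl (.inl 0)) % 120 = T.c0 := F.pc (.inl 0)
    have p1 : p (.inl (.inl 1)) % 120 = T.c1 := F.pc (.inl 1)
    have o0 := (F.pp (.inl (.inl 0))).1.eq_two_or_odd.resolve_left (axe_ne (F.pp _).2).1
    have o1 := (F.pp (.inl (.inl 1))).1.eq_two_or_odd.resolve_left (axe_ne (F.pp _).2).1
    have g0 : (0 : ℤ) < p (.inl (.inl 0)) := by exact_mod_cast (F.pp _).1.pos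
    have g1 : (0 : ℤ) < p (.inl (.inl 1)) := by exact_mod_cast (F.pp _).1.pos
    have g := mul_pos g0 g1
    have mu := hT.mu.resolve_left fun k => by simp [b] at k
    rw [b, ht, one_mul, one_mul] at mu
    rw [e, prod_pair (by simp), b, v1, pstar, pstar] at h0
    have u0 : b4 T.c0 = if p (.inl (.inl 0)) % 4 = 1 then 0 else 1 := by
      unfold b4
      split_ifs <;> omega
    have u1 : b4 T.c1 = if p (.inl (.inl 1)) % 4 = 1 then 0 else 1 := by
      unfold b4
      split_ifs <;> omega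
    rw [u0, u1] at mu
    rcases zmod_two_cases (f 0) with a | a <;> rw [a] at h0 mu <;>
      simp only [ZMod.val_zero, v1, pow_zero, pow_one] at h0 <;> split_ifs at h0 mu <;>
      first | exact absurd mu (by decide) | nlinarith
  · have e : t = ∅ := eq_empty_of_forall_notMem fun j n => by
      have k := key j
      rw [if_pos n] at k
      rcases zmod_two_cases (f 1) with b | b
      · simp [b] at k
      · have ht : T.t = 0 := by
          have : T.t ≠ 1 := fun k => hb ⟨b, k⟩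
          omega
        have : q j % 8 = 1 := by
          by_cases a0 : j = .inl (.inl 0)
          · subst a0
            omega
          by_cases a1 : j = .inl (.inl 1)
          · subst a1
            omega
          have := ayf_q2 F a0 a1
          omega
        rw [if_neg (by omega)] at k
        simp at k
    rw [e, prod_empty, mul_one] at h0
    have a : f 0 = 0 := (zmod_two_cases _).resolve_right fun a => by
      rw [a, v1, pow_one] at h0
      have : (0 : ℤ) < 2 ^ (f 1).val := by positivity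
      omega
    rcases hT.mu with k | k
    · exact hδ (by simp [k.1, k.2])
    · rcases zmod_two_cases (f 1) with b | b
      · simp [a, b] at k
      · have ht : T.t = 0 := by
          have : T.t ≠ 1 := fun k => hb ⟨b, k⟩
          omega
        simp [a, ht] at k

end Pool.Agent.Lib.MP_696deb_nt.B3
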