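import Pool.Agent.Lib.MP_696deb_nt.B3.CMa
import Pool.Agent.Lib.MP_696deb_nt.B2.TAa

/-! The two isogenies of degree four between the modular curves of level fifteen. -/

set_option autoImplicit false

open scoped Classical
open Complex

namespace Pool.Agent.Lib.MP_696deb_nt.B3.BI

open B2 B2.CM B3.CM Unif Gal

variable {σ : ℂ ≃+* ℂ} {a b : ℤ}

theorem u1_zero {z : ℂ} : u1 z = 0 ↔ z ∈ L1.lattice := isPer1.unif_eq_zero_iff

theorem u1_surj : Function.Surjective u1 := isPer1.unif_surjective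

theorem four_mem {z : ℂ} (h : z ∈ L15.lattice) : 4 * z ∈ L1.lattice := by
  have := (u1_L15 h).1
  rw [← map_nsmul, u1_zero, nsmul_eq_mul] at this
  exact_mod_cast this

theorem exists_ph : ∃ f : Pt W1 ℂ →+ Pt W15 ℂ, ∀ z, f (u1 z) = u15 z :=
  ⟨u1.liftOfSurjective u1_surj ⟨u15, fun _ h => u15_eq_zero_iff.2 (kl.le (u1_zero.1 h))⟩,
    fun z => u1.liftOfRightInverse_comp_apply _ _ _ z⟩

theorem exists_ps : ∃ f : Pt W15 ℂ →+ Pt W1 ℂ, ∀ z, f (u15 z) = u1 (4 * z) :=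
  ⟨u15.liftOfSurjective u15_surjective ⟨u1.comp (AddMonoidHom.mulLeft 4),
    fun _ h => u1_zero.2 (four_mem (u15_eq_zero_iff.1 h))⟩,
    fun z => u15.liftOfRightInverse_comp_apply _ _ _ z⟩

/-- The covering map. -/
noncomputable def ph : Pt W1 ℂ →+ Pt W15 ℂ := exists_ph.choose

/-- The dual isogeny. -/
noncomputable def ps : Pt W15 ℂ →+ Pt W1 ℂ := exists_ps.choose

theorem ph_u1 (z : ℂ) : ph (u1 z) = u15 z := exists_ph.choose_spec z

theorem ps_u15 (z : ℂ) : ps (u15 z) = u1 (4 * z) := exists_ps.choose_spec z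

theorem ps_pmap (σ : ℂ ≃+* ℂ) (P : Pt W15 ℂ) :
    ps (pmap (σ : ℂ →+* ℂ) P) = pmap (σ : ℂ →+* ℂ) (ps P) := by
  obtain ⟨z, rfl⟩ := u15_surjective P
  obtain ⟨z', h⟩ := u15_surjective (pmap (σ : ℂ →+* ℂ) (u15 z))
  have h1 := ((rel_iff_pmap isPer15).2 h.symm).isog (cj_self isPer15 σ) (cj_self isPer1 σ)
    (α := 4) (by norm_num) fun _ => four_mem
  rw [map_ofNat] at h1
  rw [← h, ps_u15, ps_u15]
  exact ((rel_iff_pmap isPer1).1 h1).symm

theorem dk_mul (ha : IsCoprime a 15) (hb : IsCoprime b 15) : dk (a * b) = dk a + dk b := by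
  obtain ⟨e, -, he⟩ := kl.eq
  have h0 := ord_lat (τ := I) (by simp)
  rw [dk, Int.cast_mul, mul_assoc, (h0.int_mul hb).kpt_mul he ha, h0.kpt_mul he hb]
  abel

theorem dk_congr (h : 15 ∣ a - b) : dk a = dk b := by
  rw [dk, dk, kpt_sc (s := a * I) (t := b * I) (sc_one (L := lat15 I) rfl) (by
    convert (ord_lat (τ := I) (by simp) _).2 h using 1
    push_cast
    ring)]

theorem dk_neg (a : ℤ) : dk (-a) = dk a := by
  rw [dk, dk, kpt_sc (c := -1) (s := (-a : ℤ) * I) (t := a * I) (L := lat15 I) (M := lat15 I)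
    ⟨by norm_num, fun z => by rw [neg_one_mul, neg_mem_iff]⟩ (by simp)]

theorem four_dk' (ha : IsCoprime a 15) : 4 • dk a = 0 := by
  obtain ⟨e, h1, he⟩ := kl.eq
  obtain ⟨b, d, h⟩ := exists_gamma ha
  rw [dk_eq he h]
  exact (u1_L15 (int_mul_mem (ms_mem h) e)).1

theorem ph_dk (ha : IsCoprime a 15) : ph (dk a) = 0 := by
  obtain ⟨e, h1, he⟩ := kl.eq
  obtain ⟨b, d, h⟩ := exists_gamma ha
  rw [dk_eq he h, ph_u1, u15_eq_zero_iff]
  exact int_mul_mem (ms_mem h) e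

theorem u1_wm : 2 • dk 2 ≠ 0 ∧ u1 (wm * I) = 2 • u1 wp := by
  obtain ⟨e, h1, he⟩ := kl.eq
  have k1 := dk_eq he (a := 7) (b := -1) (c := 1) (d := -2) (by norm_num)
  have k2 := dk_eq he (a := 11) (b := -3) (c := 1) (d := -4) (by norm_num)
  have c1 : IsCoprime (7 : ℤ) 15 := by norm_num
  have c2 : IsCoprime (2 : ℤ) 15 := by norm_num
  rw [mul_one, ms_gp] at k1
  rw [mul_one, ms_gm] at k2
  have k3 : dk 4 = 2 • dk 7 := by
    rw [two_nsmul, ← dk_mul c1 c1]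
    exact dk_congr (by norm_num)
  have k4 : dk 11 = dk 4 := by
    rw [← dk_neg 4]
    exact dk_congr (by norm_num)
  have k5 : u1 wp = e • dk 7 := by rw [u1_sign h1, k1]
  refine ⟨fun h => kl.ne ?_, by rw [u1_sign h1, ← k2, k4, k3, k5, smul_comm]⟩
  rw [two_mul, map_add, ← two_nsmul, k5, smul_comm, ← k3, show (4 : ℤ) = 2 * 2 from rfl,
    dk_mul c2 c2, ← two_nsmul, h, smul_zero]

theorem four_dvd {G : Type} [AddCommGroup G] {u : G} (h4 : 4 • u = 0) (h2 : 2 • u ≠ 0) {j : ℤ}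
    (h : j • u = 0) : 4 ∣ j := by
  have h1 : addOrderOf u = 2 ^ (1 + 1) := addOrderOf_eq_prime_pow (by simpa using h2) h4
  have := addOrderOf_dvd_iff_zsmul_eq_zero.2 h
  rwa [h1] at this

theorem jC_T1 : pmap jC B2.T1 = u15 (wm * I / 2) := by
  have h2 : pmap jC B2.T2 = u15 (alC 1) := by
    rw [u15_alC_one]
    exact Pool.Agent.Shared.Weier.IsPer.some_congr (by simp) (by simp)
  have h3 : B2.T1 = 2 • P4 + B2.T2 := by
    rw [two_P4, ← T1_add_T2, add_assoc, ← two_nsmul, two_T2, add_zero]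
  rw [h3, map_add, map_nsmul, jC_P4, h2, ← map_nsmul, ← map_add, u15_eq_iff, alC_one, alC_three]
  convert neg_mem wm_mem using 1
  simp only [nsmul_eq_mul]
  push_cast
  ring

/-- The kernel of the dual isogeny is cyclic. -/
theorem exists_M : ∃ M : EE, 2 • M = B2.T1 ∧ ∀ P : EE, ps (pmap jC P) = 0 → ∃ j : ℤ, P = j • M := by
  have h2 : 2 • u15 ((wm * I - 2 * wp) / 4) = pmap jC B2.T1 := by
    rw [jC_T1, ← map_nsmul, u15_eq_iff]
    convert neg_mem wp_mem using 1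
    simp only [nsmul_eq_mul]
    push_cast
    ring
  obtain ⟨M, hM⟩ := taa_alg 2 (R := u15 ((wm * I - 2 * wp) / 4)) (by
    rw [pow_two, mul_smul, h2, ← map_nsmul, B2.two_T1, map_zero])
  refine ⟨M, pmap_injective jC (by rw [map_nsmul, hM, h2]), fun P h => ?_⟩
  obtain ⟨z, hz⟩ := u15_surjective (pmap jC P)
  rw [← hz, ps_u15] at h
  obtain ⟨m, n, e⟩ := mem_L15.1 (kl.le (u1_zero.1 h))
  obtain ⟨k, hk⟩ := four_dvd (u1_L15 wp_mem).1 (fun k => kl.ne (by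
    rwa [two_mul, map_add, ← two_nsmul])) (j := m + n * 2) (by
    rw [← h, ← e, map_add, ← zsmul_eq_mul, ← zsmul_eq_mul, map_zsmul, map_zsmul, u1_wm.2, add_smul,
      mul_smul, two_zsmul, two_nsmul])
  refine ⟨n, pmap_injective jC ?_⟩
  rw [map_zsmul, hM, ← hz, ← map_zsmul, u15_eq_iff]
  convert int_mul_mem wp_mem k using 1
  have hk' : (m : ℂ) + n * 2 = 4 * k := by exact_mod_cast hk
  simp only [zsmul_eq_mul]
  linear_combination (-1 / 4) * e + (wp / 4 : ℂ) * hk'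

theorem exists_R {Y : Pt W1 ℂ} {Z : EE} (h : ph Y = pmap jC Z) :
    ∃ R : EE, 4 • R = Z ∧ ps (pmap jC R) = Y := by
  obtain ⟨z, rfl⟩ := u1_surj Y
  obtain ⟨Z, rfl⟩ := exists_half Z
  obtain ⟨Z, rfl⟩ := exists_half Z
  have h1 : 4 • u15 (z / 4) = u15 z := by
    rw [← map_nsmul, nsmul_eq_mul]
    congr 1
    push_cast
    ring
  rw [ph_u1, smul_smul, map_nsmul] at h
  obtain ⟨R, hR⟩ := taa_alg 2 (R := u15 (z / 4) - pmap jC Z) (by
    rw [smul_sub, sub_eq_zero]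
    exact h1.trans h)
  have h2 : pmap jC (R + Z) = u15 (z / 4) := by rw [map_add, hR, sub_add_cancel]
  refine ⟨R + Z, pmap_injective jC (by rw [map_nsmul, h2, h1, h, smul_smul, map_nsmul]), ?_⟩
  rw [h2, ps_u15]
  congr 1
  ring

/-- The conclusion, from a lift to the covering curve. -/
theorem bir_of {Y : Pt W1 ℂ} {Z : EE} (h : ph Y = pmap jC Z) {δ : ℤ} {g : Gam} (hg : chi δ g = -1)
    (e : Ex g σ) {k : ℕ} (hk : Odd k) (h1 : pmap (σ : ℂ →+* ℂ) Y + Y = k • dk 2) :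
    ∃ R M : EE, 4 • R = Z ∧ 2 • M = B2.T1 ∧ tw δ g (2 • R) ≠ 2 • R ∧
      ∀ g' : Gam, (∀ σ', Ex g' σ' → pmap (σ' : ℂ →+* ℂ) Y = Y) → ∃ j : ℤ, g' • R - R = j • M := by
  obtain ⟨R, r1, r2⟩ := exists_R h
  obtain ⟨M, m1, m2⟩ := exists_M
  refine ⟨R, M, r1, m1, fun k => u1_wm.1 ?_, fun g' h' => m2 _ ?_⟩
  · have k1 := congrArg (fun P => ps (pmap jC P)) k
    simp only [tw, hg, Units.val_neg, Units.val_one, neg_smul, one_smul, map_neg, e.pmap, map_nsmul,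
      ps_pmap, r2] at k1
    obtain ⟨j, rfl⟩ := hk
    have k2 : 2 • (2 * j + 1) • dk 2 = 0 := by rw [← h1, smul_add, ← k1, add_neg_cancel]
    have k3 := four_dk' (a := 2) (by norm_num)
    rwa [smul_smul, show 2 * (2 * j + 1) = j * 4 + 2 by ring, add_smul, mul_smul, k3, smul_zero,
      zero_add] at k2
  · obtain ⟨σ', e'⟩ := exists_ex g'
    rw [map_sub, map_sub, e'.pmap, ps_pmap, r2, h' σ' e', sub_self]

end Pool.Agent.Lib.MP_696deb_nt.B3.BI
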