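import Pool.Agent.Lib.MP_696deb_nt.B3.BIa
import Pool.Agent.Lib.MP_696deb_nt.B2.CMc

/-! Lifts of Heegner points to the modular curve of points of order fifteen. -/

set_option autoImplicit false

open scoped Classical

namespace Pool.Agent.Lib.MP_696deb_nt.B3.BI

open B2 B2.CM B3.CM Unif Gal

variable {σ : ℂ ≃+* ℂ} {n c : ℕ} {r p : ℤ} {I J : Lt} {a s t t' z : ℂ} {g : Gam}

/-- The point of the modular curve attached to a lattice and a torsion point. -/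
noncomputable def kq (I : Lt) (t : ℂ) : Pt W1 ℂ := if h : IsLat I then kpt h.choose t else 0

/-- Points of order fifteen. -/
def Od (I : Lt) (t : ℂ) : Prop := ∀ k : ℤ, k * t ∈ I ↔ 15 ∣ k

theorem kq_lat (L : PeriodPair) (t : ℂ) : kq L.lattice t = kpt L t := by
  have h : IsLat L.lattice := ⟨L, rfl⟩
  rw [kq, dif_pos h]
  exact kpt_sc (Gal.sc_one h.choose_spec) (by simp)

theorem kq_sc (h : IsLat I) (ha : a ≠ 0) (e : a * s - t ∈ sc a I) : kq (sc a I) t = kq I s := by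
  obtain ⟨L, rfl⟩ := h
  rw [← cmp_sc (sc_scale L ha)] at e ⊢
  rw [kq_lat, kq_lat, kpt_sc (sc_scale L ha) e]

theorem kq_congr (h : IsLat I) (e : s - t ∈ I) : kq I t = kq I s := by
  have := kq_sc (s := s) (t := t) h one_ne_zero (by rwa [CM.sc_one, one_mul])
  rwa [CM.sc_one] at this

theorem Od.kq_mul (h : Od I t) (hI : IsLat I) (hp : IsCoprime p 15) :
    kq I (p * t) = kq I t + dk p := by
  obtain ⟨L, rfl⟩ := hI
  obtain ⟨e, -, he⟩ := kl.eq
  rw [kq_lat, kq_lat, Ord.kpt_mul he h hp]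

theorem Od.exists_tau (h : Od I t) (hI : IsLat I) :
    ∃ τ a : ℂ, 0 < τ.im ∧ a ≠ 0 ∧ I = sc a (sp2 (15 * τ) 1) ∧ a * τ - t ∈ I := by
  obtain ⟨L, rfl⟩ := hI
  obtain ⟨τ, a, h1, h2, h3⟩ := Ord.exists_sc (L := L) h
  exact ⟨τ, a, h1, h2.ne, by rw [cmp_sc h2, lat15_eq h1], h3⟩

theorem kq_tau {e : ℤ} (he : ∀ τ : ℂ, 0 < τ.im → kpt (lat15 τ) τ = u1 (e * Fi τ)) {τ : ℂ}
    (hτ : 0 < τ.im) : kq (sp2 (15 * τ) 1) τ = u1 (e * Fi τ) := by
  rw [← lat15_eq hτ, kq_lat, he _ hτ]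

/-- Level structures. -/
structure Lev (n : ℕ) (r : ℤ) (J : Lt) (t : ℂ) : Prop where
  od : Od J t
  mem : be n 1 r * t ∈ J

theorem Lev.sc (h : Lev n r J t) (ha : a ≠ 0) : Lev n r (sc a J) (a * t) :=
  ⟨fun k => by rw [mul_left_comm, mul_mem_sc ha, h.od k], by
    rw [mul_left_comm, mul_mem_sc ha]; exact h.mem⟩

theorem odd_r (ok : OkS n c r) : 2 ∣ r - 1 := by
  have := ok.root
  have h4 := ok.m4
  rcases Int.even_or_odd' r with ⟨t, rfl | rfl⟩
  · rw [show (2 * t) ^ 2 = 4 * t ^ 2 by ring] at this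
    omega
  · omega

theorem exists_lev (ok : OkS n 1 r) (hJ : IsIv (Oc n 1) J) : ∃ t, Lev n r J t := by
  obtain ⟨Q, h, a, ha, rfl⟩ := ok.exists_hg hJ
  have h1 := h.im_pos ok.neg
  have h2 := (h.mul_mem ok.neg).1
  rw [alp_eq, lat15_eq h1, Nat.cast_one, mul_one] at h2
  exact ⟨_, Lev.sc ⟨fun k => by rw [← lat15_eq h1]; exact ord_lat h1 k, h2⟩ ha⟩

theorem cop15 (h : ∀ l j : ℤ, l * j = 15 → l ∣ p → 15 ∣ j) : IsCoprime p 15 :=
  IsCoprime.mul_right (y := 3) (z := 5)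
    (Int.prime_three.coprime_iff_not_dvd.2 fun k => by simpa using h 3 5 rfl k).symm
    ((Int.prime_iff_natAbs_prime.2 (by norm_num) : Prime (5 : ℤ)).coprime_iff_not_dvd.2
      fun k => by simpa using h 5 3 rfl k).symm

theorem Lev.unique (ok : OkS n 1 r) (hJ : IsIv (Oc n 1) J) (h : Lev n r J t) (h' : Lev n r J t') :
    ∃ p : ℤ, IsCoprime p 15 ∧ p * t - t' ∈ J := by
  obtain ⟨τ, a, -, ha, e, h1⟩ := h.od.exists_tau (hJ.isLat ok.toOk)
  have hβ : be n 1 r ∈ Oc n 1 := be_mem ok.m4 (by simpa using odd_r ok)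
  rw [sc_sp2, mul_one] at e
  obtain ⟨u, v, h2⟩ := mem_sp2.1 (e ▸ (h'.od 15).2 dvd_rfl)
  have h3 : be n 1 r * (a * τ) ∈ J := by
    convert add_mem (hJ.mul_mem hβ h1) h.mem using 1
    ring
  have h4 : a ∈ J := e ▸ right_mem_sp2 _ _
  push_cast at h2
  have key : ∀ (l : ℕ) (j : ℤ), l.Prime → l * j = 15 → (l : ℤ) ∣ v := fun l j hl hj => by
    by_contra hv
    have l0 : (l : ℂ) ≠ 0 := by exact_mod_cast hl.ne_zero
    have hj' : (l : ℂ) * j = 15 := by exact_mod_cast hj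
    have h5 : be n 1 r / l * a ∈ J := cmd_bez hl hv (by
      rw [← mul_assoc, mul_div_cancel₀ _ l0]; exact hJ.mul_mem hβ h4) (by
      convert int_mul_mem (sub_mem h'.mem (int_mul_mem h3 u)) j using 1
      field_simp
      linear_combination (-be n 1 r) * h2 - be n 1 r * (t' - a * u * τ) * hj')
    have h6 : be n 1 r / l * (a * (15 * τ)) ∈ J := by
      convert int_mul_mem h3 j using 1
      field_simp
      linear_combination (-be n 1 r * τ) * hj'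
    obtain ⟨x, y, -, h7⟩ := (mem_Oc ok.m4).1 (hJ.mem_of_mul (e ▸ cmb_mul_sp2 (e ▸ h6) (e ▸ h5)))
    obtain ⟨k, hk⟩ := odd_r ok
    have h8 : el n k 1 = el n (l * x) (l * y) := by
      have := cmc_be_add n 1 1 k
      rw [show 1 + 2 * k = r by omega] at this
      rw [div_eq_iff l0, el] at h7
      simp only [el]
      push_cast
      linear_combination h7 - this
    exact cmd_one hl ⟨y, (el_inj (by have := ok.gt; omega) h8).2⟩
  obtain ⟨v, rfl⟩ : 15 ∣ v := by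
    have k3 := key 3 5 Nat.prime_three rfl
    have k5 := key 5 3 Nat.prime_five rfl
    omega
  have h9 : u * t - t' ∈ J := by
    convert neg_mem (add_mem (int_mul_mem h1 u) (int_mul_mem h4 v)) using 1
    push_cast at h2
    linear_combination (-1 / 15) * h2
  refine ⟨u, cop15 ?_, h9⟩
  rintro l j hl ⟨w, rfl⟩
  have hl' : (l : ℂ) * j = 15 := by exact_mod_cast hl
  rw [← h'.od]
  convert sub_mem (int_mul_mem ((h.od 15).2 dvd_rfl) w) (int_mul_mem h9 j) using 1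
  push_cast
  linear_combination (w * t) * hl'

theorem mul_mem_c (hn : n % 4 = 3) (hI : IsIv (Oc n c) I) (hz : z ∈ I * ot (Oc n 1)) :
    c * z ∈ I := by
  refine Submodule.mul_induction_on hz (fun m hm u hu => ?_) fun x y hx hy => ?_
  · obtain ⟨x, y, -, rfl⟩ := (mem_Oc hn).1 hu
    convert hI.mul_mem ((mem_Oc hn).2 ⟨c * x, c * y, dvd_mul_right _ _, rfl⟩) hm using 1
    simp only [el]
    push_cast
    ring
  · rw [mul_add]
    exact add_mem hx hy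

theorem Od.down (h : Od (I * ot (Oc n 1)) t) (hn : n % 4 = 3) (hc : IsCoprime (c : ℤ) 15)
    (hI : IsIv (Oc n c) I) : Od I (c * t) := fun k => by
  refine ⟨fun hk => hc.symm.dvd_of_dvd_mul_right ((h _).1 ?_), fun hk => ?_⟩
  · rw [Int.cast_mul, mul_assoc]
    exact cmd_le_mul I _ hk
  · rw [mul_left_comm]
    exact mul_mem_c hn hI ((h k).2 hk)

theorem isIv_top (hI : IsIv (Oc n c) I) : IsIv (Oc n 1) (I * ot (Oc n 1)) :=
  hI.ext (Oc_le n (one_dvd c))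

/-- The canonical lift. -/
noncomputable def Kx (n c : ℕ) (r : ℤ) (x : Pc n c) : Pt W1 ℂ :=
  kq (cl_surj x).choose (c * Classical.epsilon (Lev n r ((cl_surj x).choose * ot (Oc n 1)))) +
    3 • kq ((cl_surj x).choose * ot (Oc n 1))
      (Classical.epsilon (Lev n r ((cl_surj x).choose * ot (Oc n 1))))

theorem Kx_cl (ok : OkS n c r) (hc : IsCoprime (c : ℤ) 15) (hI : IsIv (Oc n c) I)
    (h : Lev n r (I * ot (Oc n 1)) t) :
    Kx n c r (cl _ I) = kq I (c * t) + 3 • kq (I * ot (Oc n 1)) t := by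
  have ok1 := ok.of_ne one_ne_zero
  obtain ⟨h1, h2⟩ := (cl_surj (cl (Oc n c) I)).choose_spec
  obtain ⟨a, ha, e⟩ := (cl_eq_iff hI h1).1 h2.symm
  have h3 := Classical.epsilon_spec (exists_lev ok1 (isIv_top h1))
  rw [Kx]
  generalize (cl_surj (cl (Oc n c) I)).choose = I' at h1 h2 h3 e ⊢
  generalize Classical.epsilon (Lev n r (I' * ot (Oc n 1))) = t' at h3 ⊢
  subst e
  obtain ⟨p, hp, h4⟩ := Lev.unique ok1 (isIv_top h1) (by rw [sc_mul]; exact h.sc ha) h3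
  have l1 := hI.isLat ok.toOk
  have l2 := (isIv_top hI).isLat ok1.toOk
  have h5 := mul_mem_c ok.m4 h1 h4
  rw [sc_mul] at h4 ⊢
  rw [kq_sc (s := p * (c * t)) l1 ha (by convert h5 using 1; ring),
    kq_sc (s := p * t) l2 ha (by convert h4 using 1; ring), (h.od.down ok.m4 hc hI).kq_mul l1 hp,
    h.od.kq_mul l2 hp, smul_add, add_add_add_comm, ← succ_nsmul', four_dk' hp, add_zero]

theorem pmap_kq {L L' : PeriodPair} (h : Cj σ L L') (k : Rel σ L L' t t') :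
    pmap (σ : ℂ →+* ℂ) (kq L.lattice t) = kq L'.lattice t' := by
  rw [kq_lat, kq_lat]
  exact Pr.kpt_eq ⟨1, L', Gal.sc_one rfl, h, by rwa [one_mul]⟩

theorem pmap_Kx (ok : OkS n c r) (hc : IsCoprime (c : ℤ) 15) (hg : g ∈ GK n) (e : Ex g σ)
    (x : Pc n c) : pmap (σ : ℂ →+* ℂ) (Kx n c r x) = Kx n c r (rho n c g * x) := by
  have ok1 := ok.of_ne one_ne_zero
  obtain ⟨I, hI, rfl⟩ := cl_surj x
  obtain ⟨I', k⟩ := exists_cjS σ (hI.isLat ok.toOk)
  have hI' := k.isIv ok.toOk (.inl (e.dl hg)) hI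
  have k1 := k.mul (ot (Oc n 1)) (by rw [mul_comm]; exact (isIv_top hI).isLat ok1.toOk)
  rw [mp_Oc ok.m4 (.inl (e.dl hg)), mul_comm, mul_comm (ot _)] at k1
  obtain ⟨t, h⟩ := exists_lev ok1 (isIv_top hI)
  have c0 : (c : ℂ) ≠ 0 := by exact_mod_cast ok.ne
  have b0 : be n 1 r ≠ 0 := fun k =>
    cma_im (n := n) (b := r) (by have := ok.gt; omega) one_ne_zero (by rw [k]; rfl)
  rw [← cl_cj ok.toOk hg e hI k, Kx_cl ok hc hI h]
  obtain ⟨L, L', rfl, rfl, k⟩ := k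
  obtain ⟨M, M', m1, m2, k1⟩ := k1
  obtain ⟨t', k2⟩ := k1.exists_rel t
  have k3 := k2.isog k1 k c0 fun z hz => mul_mem_c ok.m4 hI (m1 ▸ hz)
  have k4 := k2.isog k1 k1 b0 fun z hz => by
    rw [m1] at hz ⊢
    exact (isIv_top hI).mul_mem (be_mem ok.m4 (by simpa using odd_r ok)) hz
  rw [map_natCast] at k3
  rw [cmb_be_pos (e.dl hg)] at k4
  have h' : Lev n r (L'.lattice * ot (Oc n 1)) t' := ⟨fun j => by
    rw [← m2, (k1.int_mul k2 j).mem_iff, m1, h.od j], by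
    rw [← m2, k4.mem_iff, m1]; exact h.mem⟩
  rw [Kx_cl ok hc hI' h', map_add, map_nsmul, pmap_kq k k3, ← m1, ← m2, pmap_kq k1 k2]

theorem ph_kq {e : ℤ} (he : ∀ τ : ℂ, 0 < τ.im → kpt (lat15 τ) τ = u1 (e * Fi τ))
    (ok : OkS n c r) (hc : IsCoprime (c : ℤ) 15) (hI : IsIv (Oc n c) I)
    (h : Lev n r (I * ot (Oc n 1)) t) : ph (kq I (c * t)) = e • yP n c r (cl _ I) := by
  obtain ⟨τ, a, h0, ha, e1, h1⟩ := (h.od.down ok.m4 hc hI).exists_tau (hI.isLat ok.toOk)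
  have hβ : be n c (r * c) ∈ Oc n c := be_mem ok.m4 (by
    simpa [sub_mul] using (odd_r ok).mul_right c)
  have h2 : be n c (r * c) = c * be n 1 r := by simpa using be_mul n 1 c r
  have h3 := add_mem (hI.mul_mem hβ h1)
    (mul_mem_c ok.m4 hI (cmd_le_mul I _ (mul_mem_c ok.m4 hI h.mem)))
  subst e1
  obtain ⟨Q, h4, rfl⟩ := Gal.exists_hg (r := r * c) ok.neg h0 (by
    rw [alp_eq, lat15_eq h0, ← mul_mem_sc ha, mul_comm a]
    simpa using hI.mul_mem hβ ((mul_mem_sc ha).2 (right_mem_sp2 _ _))) (by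
    rw [alp_eq, lat15_eq h0, ← mul_mem_sc ha]
    convert h3 using 1
    rw [h2]
    ring)
  rw [ok.yP_cl hI ⟨h4, a, ha, rfl⟩, kq_sc (isLat_sp2 (by simpa using h0.ne')) ha h1, kq_tau he h0,
    ph_u1, pt_eq_u15 h0, ← zsmul_eq_mul, map_zsmul]

theorem ph_Kx {e : ℤ} (he : ∀ τ : ℂ, 0 < τ.im → kpt (lat15 τ) τ = u1 (e * Fi τ))
    (ok : OkS n c r) (hc : IsCoprime (c : ℤ) 15) (x : Pc n c) :
    ph (Kx n c r x) = e • pmap jC (yQ n c r x + 3 • yQ n 1 r (pj n 1 c x)) := by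
  have ok1 := ok.of_ne one_ne_zero
  obtain ⟨I, hI, rfl⟩ := cl_surj x
  obtain ⟨t, h⟩ := exists_lev ok1 (isIv_top hI)
  have h1 := ph_kq he ok1 (by simpa using isCoprime_one_left) (isIv_top hI)
    (by rwa [(isIv_top hI).1])
  rw [Nat.cast_one, one_mul] at h1
  rw [Kx_cl ok hc hI h, map_add, map_nsmul, ph_kq he ok hc hI h, h1, pj_cl (one_dvd c) hI, map_add,
    map_nsmul, ok.jC_yQ, ok1.jC_yQ, smul_add, smul_comm]

end Pool.Agent.Lib.MP_696deb_nt.B3.BI
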