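import Pool.Agent.Lib.MP_696deb_nt.B3.CMi

/-! The action of complex conjugation on the half points. -/

set_option autoImplicit false

open scoped Classical NumberTheorySymbols

namespace Pool.Agent.Lib.MP_696deb_nt.B3.CM

open B2 B2.CM

variable {n c d : ℕ} {r δ E E' : ℤ} {g : Gam}

theorem exists_ine {w : Plc} (hw : w.p = 2) (h : δ ∣ 2) (h1 : δ ≠ 1) :
    ∃ σ ∈ Ine w, chi δ σ = -1 := by
  obtain ⟨σ, k1, k2, k3⟩ := exists_ine_two hw (-1) 1
  obtain ⟨τ, k4, -, k5⟩ := exists_ine_two hw 1 (-1)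
  rcases dvd_two h with rfl | rfl | rfl | rfl
  · exact absurd rfl h1
  · exact ⟨σ, k1, k2⟩
  · exact ⟨τ, k4, k5⟩
  · exact ⟨σ, k1, by rw [show (-2 : ℤ) = -1 * 2 from rfl, chi_mul (by decide) (by decide), k2, k3,
      mul_one]⟩

/-- The character at two is not trivial on the Hilbert class field. -/
theorem exists_ker (F : CFT) (hn : Nok n) (h : δ ∣ 2) (h1 : δ ≠ 1) :
    ∃ g ∈ GK n, rho n 1 g = 1 ∧ chi δ g = -1 := by
  obtain ⟨w, hw⟩ := exists_plc Nat.prime_two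
  obtain ⟨σ, h2, h3⟩ := exists_ine hw h h1
  have h4 : σ ∈ GK n := B4c_mem.2 (chi_ine_two hw (by have := hn.m8; omega) h2)
  obtain ⟨k, hk, e⟩ := tq_eq_one.1 (psi_unr F hn cmz_one (by rw [hw]; decide) ⟨h4, h2⟩)
  exact ⟨σ ^ k, pow_mem h4 k, by rw [rho_pow (cmz_ok hn cmz_one) h4, e],
    by rw [map_pow, h3, hk.neg_one_pow]⟩

theorem isIv_fifteen (ok : OkR n c r) : ∃ k : ℤ, (r * c) ^ 2 + n * c ^ 2 = 4 * 15 * k ∧
    ∃ x y z : ℤ, x * 15 + y * (r * c) + z * k = 1 := by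
  obtain ⟨k, hk⟩ := ok.root
  obtain ⟨u, v, e⟩ := ok.cop_r
  exact ⟨k * c ^ 2, by linear_combination c ^ 2 * hk, v, u, 0, by linear_combination e⟩

theorem cc_yQ' (ok : OkR n c r) (x : Pc n c) :
    cc • yQ n c r x = P4 - yQ n c r (cl _ (idl n c 15 (r * c)) * x⁻¹) := by
  obtain ⟨I, hI, rfl⟩ := cl_surj x
  obtain ⟨Q, h⟩ := exists_hg ok hI
  obtain ⟨k, hk, hp⟩ := isIv_fifteen ok
  have h1 : IsIv (Oc n c) (idl n c 15 (r * c)) := isIv_idl ok.m4 hk (by norm_num) hp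
  have h2 : (starRingAut : ℂ ≃+* ℂ) (dl n) = -dl n := conj_dl n
  have h3 := hI.mp ok.m4 (.inr h2)
  have h4 := cmp_st ok.neg h.1
  have h5 : Hg n c r (idl n c 15 (r * c) * CM.mp starRingAut I) (Gal.st Q) := by
    obtain ⟨h, a, ha, rfl⟩ := h
    rw [mp_sc, mul_sc, mp_sp2, map_one, map_mul, map_ofNat]
    refine Hg.sc ⟨(Gal.st_spec ok.neg h).1, 15 * starRingEnd ℂ (froot Q),
      mul_ne_zero (by norm_num) (left_ne_zero_of_mul_eq_one h4), ?_⟩ ((map_ne_zero _).2 ha)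
    rw [sc_sp2, mul_assoc, h4, mul_one, mul_one]
    exact cmp_mul ok h
  refine pmap_injective jC ?_
  rw [jC_cc_pt, map_sub, jC_yQ ok, jC_yQ ok, ← cl_mp_neg ok.toOk h2 hI, ← cl_mul h1 h3,
    yP_cl ok hI h, yP_cl ok (h1.mul h3) h5, ← Gal.pt_st ok.neg h.1, ← jC_P4, eq_sub_iff_add_eq,
    add_sub_cancel]

variable [∀ c, Fintype (Pc n c)]

/-- The number of classes in a half fibre. -/
theorem fs_ind (F : CFT) (hn : Nok n) (h : δ ∣ 2) (h1 : δ ≠ 1) (hd : d = 1 * m2 δ) {ε : ℤˣ}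
    (x : Pc n 1) : fs 1 d (fun z => ind (ε * th n d δ z)) x = 4 - ka δ := by
  have ok := cmz_ok hn cmz_one
  have okd : Ok n d := ⟨ok.m4, ok.gt, hd ▸ mul_ne_zero one_ne_zero (Spt.ne (spt_one h)).2.2.1⟩
  obtain ⟨g, hg, e1, e2⟩ := exists_ker F hn h h1
  have k1 := fs_mul (fun z => ind (ε * th n d δ z)) (rho n d g) x
  simp only [map_mul, (gd_two okd h (hd ▸ dvd_mul_left _ _)).th hg, e2, neg_one_mul, mul_neg,
    ind_neg] at k1
  rw [pj_rho okd (one_dvd d), e1, one_mul, fs_sub] at k1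
  have k2 := two_steps (M := ℤ) ok hn.m8 (by decide) rfl rfl rfl (z := x) (A := 4) (B := 4)
    (y₀ := 1) (y₁ := fun _ => 1) (y₂ := fun _ => 1) (y₃ := fun _ => 1)
    (fs_const_inert ok Nat.prime_two rfl (inert_two hn.m8) (by decide) x 1)
    (fun x _ => fs_const_up ok Nat.prime_two rfl rfl x 1)
    fun x _ => fs_const_up (cmd_ok ok Nat.prime_two) Nat.prime_two rfl rfl x 1
  rcases m2_cases h h1 with ⟨k, k'⟩ | ⟨k, k'⟩ <;> rw [k'] <;> rw [k] at hd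
  · obtain rfl : d = 1 * 2 * 2 := hd
    rw [k2.1] at k1
    simp only [nsmul_eq_mul] at k1
    omega
  · obtain rfl : d = 1 * 2 * 2 * 2 := hd
    rw [k2.2] at k1
    simp only [nsmul_eq_mul] at k1
    omega

theorem cc_wt {W : ℤˣ → ℤˣ → ℤ} (ok : OkR n d r) (x : Pc n c) : cc • wt r W E E' c d x =
    fs c d (fun z => W (th n d E z) (th n d E' z)) x • P4 -
      wt r (fun a b => W (th n d E (cl _ (idl n d 15 (r * d))) * a)
        (th n d E' (cl _ (idl n d 15 (r * d))) * b)) E E' c d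
        (pj n c d (cl _ (idl n d 15 (r * d))) * x⁻¹) := by
  rw [wt, wt, smul_fs, ← fs_mul, ← fs_inv, fs, fs, fs, Finset.sum_smul, ← Finset.sum_sub_distrib]
  refine Finset.sum_congr rfl fun z _ => ?_
  simp only [smul_comm cc, cc_yQ' ok, smul_sub, map_mul, map_inv, ← mul_assoc, Int.units_mul_self,
    one_mul, Int.units_inv_eq_self]

omit [∀ c, Fintype (Pc n c)] in
theorem th_fifteen (ok : OkR n d r) (h : δ ∣ 2) (h1 : δ ≠ 1) (hd : m2 δ ∣ d) :
    th n d δ (cl _ (idl n d 15 (r * d))) = chi δ cc := by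
  obtain ⟨k, hk, hp⟩ := isIv_fifteen ok
  have h0 : δ ≠ 0 := by rintro rfl; simp at h
  have := (kc_two h h1 hd).th_idl ok.toOk (θ := th n d δ)
    (fun g hg => by rw [(gd_two ok.toOk h hd).th hg, chi_four h0]) hk (by norm_num) hp (by
      rcases dvd_two h with rfl | rfl | rfl | rfl <;> norm_num [Int.isCoprime_iff_gcd_eq_one])
  rw [← Units.val_inj, this, chi_cc h0]
  rcases dvd_two h with rfl | rfl | rfl | rfl <;> decide

theorem cc_uY (F : CFT) (hn : Nok n) (hr : 60 ∣ r ^ 2 + n) (h : δ ∣ 2) (h1 : δ ≠ 1) (x : Pc n 1) :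
    tw δ cc (uY r δ 1 1 x) = -uY r δ 1 1 (cl _ (idl n 1 15 (r * (1 : ℕ))) * x⁻¹) := by
  have ok := okS_of hn hr one_ne_zero
  have n3 := (Spt.ne (spt_one h)).2.2.1
  have okd : OkR n (1 * m2 δ) r := ⟨(ok.of_ne (mul_ne_zero one_ne_zero n3)).toOk, hr,
    hn.good.cop.mul_left (Nat.Coprime.coprime_dvd_left (by simpa using m2_dvd h)
      (by decide : Nat.Coprime 8 15))⟩
  obtain ⟨k, hk, hp⟩ := isIv_fifteen ok.okR
  obtain ⟨k', hk', hp'⟩ := isIv_fifteen okd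
  have e1 : pj n 1 (1 * m2 δ) (cl _ (idl n (1 * m2 δ) 15 (r * (1 * m2 δ : ℕ)))) =
      cl _ (idl n 1 15 (r * (1 : ℕ))) := by
    rw [pj_cl (one_dvd _) (isIv_idl ok.m4 hk' (by norm_num) hp'), Nat.cast_mul, ← mul_assoc,
      idl_ext ok.m4 hk (IsCoprime.of_isCoprime_of_dvd_right (y := 8)
        (by norm_num [Int.isCoprime_iff_gcd_eq_one]) (by exact_mod_cast m2_dvd h))]
  have e2 := uY_flip ok hn.m8 (by decide) (spt_one h) (ε := chi δ cc) (fun k => absurd k h1) 1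
    (cl _ (idl n 1 15 (r * (1 : ℕ))) * x⁻¹)
  have e3 := fs_ind F hn h h1 rfl (ε := 1) x
  simp only [one_mul (th _ _ _ _)] at e3
  have e4 : ∀ d, d = 1 * m2 δ → ∀ y : Pc n 1,
      wt r (fun a b => ind (chi δ cc * a) * (1 * b : ℤˣ)) δ 1 1 d y =
        wt r (fun a _ => ind (chi δ cc * a)) δ 1 1 (1 * m2 δ) y := by
    rintro _ rfl y
    exact fs_congr fun z _ => by simp only [th_one okd.toOk z, Units.val_one, mul_one]
  have e5 : ∀ d, d = 1 → ∀ y, wt r (fun _ b => (1 * b : ℤˣ)) 1 1 1 d y = yQ n 1 r y := by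
    rintro _ rfl y
    rw [← wt_self (E := 1) (E' := 1) rfl]
    exact fs_congr fun z _ => by simp only [th_one ok.toOk z, Units.val_one, mul_one]
  rw [e4 _ (by simp), e5 _ (by simp), mul_one] at e2
  rw [tw, uY_one ok.toOk h rfl, smul_add, smul_comm cc, cc_wt okd, cc_yQ' ok.okR, e3, e1,
    th_fifteen okd h h1 (dvd_mul_left _ _), smul_sub (ka δ), sub_add_sub_comm, e2, ← add_smul,
    sub_add_cancel, ofNat_zsmul, four_P4, zero_sub, smul_neg, smul_smul, ← Units.val_mul,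
    Int.units_mul_self, Units.val_one, one_smul]

variable [∀ c, Fintype (Tw (Pc n c))] (F : CFT) (hk : KronStmt) (hn : Nok n) (hr : 60 ∣ r ^ 2 + n)

theorem esZ_conj (h : δ ∣ 2) (h1 : δ ≠ 1) : (esZ F hk hn hr h).Conj := by
  refine ⟨tq _ (cl _ (idl n 1 15 (r * (1 : ℕ)))), 0, smul_zero _, fun a => ?_⟩
  refine (tw_tr δ cc (uY r δ 1 1) a).trans ?_
  simp only [cc_uY F hn hr h h1]
  rw [zero_sub]
  exact (Finset.sum_neg_distrib _).trans (congrArg _ (sum_tq_inv (uY r δ 1 1) _ a))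

end Pool.Agent.Lib.MP_696deb_nt.B3.CM
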