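import Pool.Agent.Lib.MP_696deb_nt.B3.BIb
import Pool.Agent.Lib.MP_696deb_nt.B3.CMj

/-! The half points are divisible by four, with a controlled field of definition. -/

set_option autoImplicit false

open scoped Classical

namespace Pool.Agent.Lib.MP_696deb_nt.B3.BI

open B2 B2.CM B3.CM Unif Gal

variable {σ : ℂ ≃+* ℂ} {n c d e : ℕ} {r δ : ℤ} {I J : Lt} {a s t τ : ℂ} {g : Gam}

theorem kq_nb {ε : ℤ} (he : ∀ τ : ℂ, 0 < τ.im → kpt (lat15 τ) τ = u1 (ε * Fi τ)) (hτ : 0 < τ.im)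
    (i : Option (Fin 2)) : IsLat (CM.nb 2 15 (15 * τ) i) ∧ kq (CM.nb 2 15 (15 * τ) i) (2 * τ) =
      u1 (ε * Fi (hk 2 τ i)) + i.elim 0 fun _ => dk 2 := by
  have h1 := hk_im two_pos hτ i
  have h2 : IsLat (sp2 (15 * hk 2 τ i) 1) := isLat_sp2 (by simpa using h1.ne')
  rw [← kq_tau he h1]
  rcases i with _ | k
  · have h3 : CM.nb 2 15 (15 * τ) none = sp2 (15 * hk 2 τ none) 1 := by
      rw [CM.nb, hk, mul_left_comm]
    rw [h3]
    exact ⟨h2, by simp [hk]⟩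
  · have h3 : CM.nb 2 15 (15 * τ) (some k) = sc 2 (sp2 (15 * hk 2 τ (some k)) 1) := by
      rw [sc_sp2, CM.nb, hk]
      congr 1 <;> push_cast <;> ring
    have h4 : Od (sp2 (15 * hk 2 τ (some k)) 1) (hk 2 τ (some k)) := fun j => by
      rw [← lat15_eq h1]
      exact ord_lat h1 j
    rw [h3, kq_sc (s := (2 : ℤ) * hk 2 τ (some k)) h2 two_ne_zero (by
      convert (mul_mem_sc two_ne_zero).2 (int_mul_mem (right_mem_sp2 _ _) (k : ℕ)) using 1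
      simp only [hk]
      push_cast
      ring), h4.kq_mul h2 (by norm_num)]
    exact ⟨h2.sc two_ne_zero, rfl⟩

/-- The Hecke relation at two on the covering curve. -/
theorem sum_kq (hτ : 0 < τ.im) (ha : a ≠ 0) (h : a * τ - s ∈ sc a (sp2 (15 * τ) 1)) :
    ∑ i, kq (sc a (CM.nb 2 15 (15 * τ) i)) (2 * s) =
      2 • dk 2 - kq (sc a (sp2 (15 * τ) 1)) s := by
  obtain ⟨ε, -, he⟩ := kl.eq
  have h0 : (15 * τ).im ≠ 0 := by simpa using hτ.ne'
  have h1 : ∀ i, kq (sc a (CM.nb 2 15 (15 * τ) i)) (2 * s) =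
      u1 (ε * Fi (hk 2 τ i)) + i.elim 0 fun _ => dk 2 := fun i => by
    rw [← (kq_nb he hτ i).2]
    refine kq_sc (kq_nb he hτ i).1 ha ?_
    convert (nb_mid_sc (s := 15) Nat.prime_two h0 ha i).1.le
      ((mul_mem_sc (by norm_num)).2 h) using 1
    push_cast
    ring
  have h2 := Fi_hecke Nat.prime_two (by decide) hτ
  rw [a15_two, Finset.sum_range_succ, Finset.sum_range_one] at h2
  rw [kq_sc (isLat_sp2 h0) ha h, kq_tau he hτ, Finset.sum_congr rfl fun i _ => h1 i,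
    Finset.sum_add_distrib, ← map_sum, ← Finset.mul_sum, add_comm, sub_eq_add_neg, ← map_neg]
  congr 1
  · simp [two_nsmul]
  · congr 1
    simp only [Fintype.sum_option, Fin.sum_univ_two, hk, Fin.val_zero, Fin.val_one]
    linear_combination (exp := 1) ε * h2

theorem exists_top (hJ : IsIv (Oc n 1) J) {x : Pc n d} (hx : pj n 1 d x = cl _ J) :
    ∃ I, IsIv (Oc n d) I ∧ cl _ I = x ∧ I * ot (Oc n 1) = J := by
  obtain ⟨I, hI, rfl⟩ := cl_surj x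
  rw [pj_cl (one_dvd d) hI] at hx
  obtain ⟨a, ha, rfl⟩ := (cl_eq_iff (isIv_top hI) hJ).1 hx
  exact ⟨_, hI.sc ha, cl_sc hI ha, sc_mul _ _ _⟩

theorem top_top (I : Lt) : I * ot (Oc n c) * ot (Oc n 1) = I * ot (Oc n 1) := by
  rw [mul_assoc, ot_mul_ot (Oc_le n (one_dvd c))]

theorem cop_two (hd : IsCoprime (d : ℤ) 15) : IsCoprime ((d * 2 : ℕ) : ℤ) 15 := by
  rw [Nat.cast_mul]
  exact hd.mul_left (by norm_num)

theorem Kx_one (ok : OkS n 1 r) (hJ : IsIv (Oc n 1) J) (h : Lev n r J t) :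
    Kx n 1 r (cl _ J) = 4 • kq J t := by
  rw [Kx_cl ok (by simpa using isCoprime_one_left) hJ (by rwa [hJ.1]), hJ.1, Nat.cast_one, one_mul,
    ← succ_nsmul']

variable [∀ c, Fintype (Pc n c)]

theorem fs_nb (ok : OkS n d r) (hd : IsCoprime (d : ℤ) 15) (hτ : 0 < τ.im) (ha : a ≠ 0)
    (hI : IsIv (Oc n d) (sc a (sp2 (15 * τ) 1))) (hJ : sc a (sp2 (15 * τ) 1) * ot (Oc n 1) = J)
    (h : Lev n r J t) :
    fs d (d * 2) (fun x => Kx n (d * 2) r x - 3 • kq J t) (cl _ (sc a (sp2 (15 * τ) 1))) =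
      ∑ i with ¬ St n d (CM.nb 2 15 (15 * τ) i),
        kq (sc a (CM.nb 2 15 (15 * τ) i)) (2 * (d * t)) := by
  have h0 : (15 * τ).im ≠ 0 := by simpa using hτ.ne'
  rw [fs, sum_nb (s := 15) ok.toOk Nat.prime_two (by decide) h0 ha hI]
  refine Finset.sum_congr rfl fun i hi => ?_
  obtain ⟨h1, h2⟩ := nb_isIv_of ok.toOk Nat.prime_two h0 ha hI (Finset.mem_filter.1 hi).2
  have h3 : sc a (CM.nb 2 15 (15 * τ) i) * ot (Oc n 1) = J := by rw [← hJ, ← h2, top_top]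
  rw [Kx_cl (ok.of_ne (mul_ne_zero ok.ne two_ne_zero)) (cop_two hd) h1 (h3 ▸ h), h3,
    add_sub_cancel_right]
  congr 1
  push_cast
  ring

theorem step_one (ok : OkS n 1 r) (h8 : n % 8 = 3) (hJ : IsIv (Oc n 1) J) (h : Lev n r J t) :
    fs 1 (1 * 2) (fun x => Kx n (1 * 2) r x - 3 • kq J t) (cl _ J) = 2 • dk 2 - kq J t := by
  obtain ⟨τ, a, hτ, ha, rfl, h1⟩ := h.od.exists_tau (hJ.isLat ok.toOk)
  have h0 : (15 * τ).im ≠ 0 := by simpa using hτ.ne'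
  rw [fs_nb ok (by simpa using isCoprime_one_left) hτ ha hJ hJ.1 h, Nat.cast_one, one_mul,
    Finset.filter_true_of_mem fun i _ => mt (st_sc ha).2
      (not_st_inert ok.toOk Nat.prime_two (inert_two h8) (by decide) hJ
        (nb_mid_sc Nat.prime_two h0 ha i).1 (nb_mid_sc Nat.prime_two h0 ha i).2), sum_kq hτ ha h1]

theorem step_up (ok : OkS n c r) (hc : IsCoprime (c : ℤ) 15) (hJ : IsIv (Oc n 1) J)
    (h : Lev n r J t) {x : Pc n (c * 2)} (hx : pj n 1 (c * 2) x = cl _ J) :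
    fs (c * 2) (c * 2 * 2) (fun x => Kx n (c * 2 * 2) r x - 3 • kq J t) x =
      dk 2 - (Kx n (c * 2) r x - 3 • kq J t) -
        (Kx n c r (pj n c (c * 2) x) - 3 • kq J t) := by
  have ok' := ok.of_ne (mul_ne_zero ok.ne two_ne_zero)
  obtain ⟨I, hI, rfl, rfl⟩ := exists_top hJ hx
  obtain ⟨τ, a, hτ, ha, rfl, h1⟩ :=
    (h.od.down ok.m4 (cop_two hc) hI).exists_tau (hI.isLat ok'.toOk)
  have h0 : (15 * τ).im ≠ 0 := by simpa using hτ.ne'
  obtain ⟨j, e1, hj⟩ := exists_up (s := 15) ok.toOk Nat.prime_two (by decide) h0 ha hI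
  have hO := hI.ext (Oc_le n (dvd_mul_right c 2))
  have h2 := top_top (n := n) (c := c) (sc a (sp2 (15 * τ) 1))
  have l1 := hO.isLat ok.toOk
  rw [fs_nb ok' (cop_two hc) hτ ha hI rfl h, Finset.filter_congr fun i _ => hj i, Finset.filter_ne',
    Finset.sum_erase_eq_sub (Finset.mem_univ _), sum_kq hτ ha h1, e1, pj_cl (dvd_mul_right c 2) hI,
    Kx_cl ok' (cop_two hc) hI h, Kx_cl ok hc hO (h2 ▸ h), h2,
    kq_sc (s := (2 : ℤ) * (c * t)) l1 (by norm_num) (by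
      convert Submodule.zero_mem _ using 1
      push_cast
      ring), (Od.down (h2 ▸ h.od) ok.m4 hc hO).kq_mul l1 (by norm_num)]
  abel

theorem fs_Kx (ok : OkS n 1 r) (h8 : n % 8 = 3) (h : δ ∣ 2) (h1 : δ ≠ 1) (hd : d = 1 * m2 δ)
    (z : Pc n 1) : fs 1 d (Kx n d r) z = dk 2 - (2 * (ka δ - 3)) • Kx n 1 r z := by
  obtain ⟨J, hJ, rfl⟩ := cl_surj z
  obtain ⟨t, ht⟩ := exists_lev ok hJ
  have c1 : IsCoprime ((1 : ℕ) : ℤ) 15 := by simpa using isCoprime_one_left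
  have ok2 := cmd_ok ok.toOk Nat.prime_two
  have k1 := two_steps ok.toOk h8 (by decide) rfl rfl rfl (step_one ok h8 hJ ht) (B := dk 2)
    (y₂ := fun x => Kx n (1 * 2 * 2) r x - 3 • kq J t)
    (y₃ := fun x => Kx n (1 * 2 * 2 * 2) r x - 3 • kq J t)
    (fun x hx => by rw [step_up ok c1 hJ ht hx, hx, Kx_one ok hJ ht]; abel)
    fun x hx => step_up (ok.of_ne (by decide)) (cop_two c1) hJ ht hx
  have k2 := two_steps ok.toOk h8 (by decide) rfl rfl rfl (z := cl _ J) (A := 12 • kq J t)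
    (B := 12 • kq J t) (y₀ := 3 • kq J t) (y₁ := fun _ => 3 • kq J t) (y₂ := fun _ => 3 • kq J t)
    (y₃ := fun _ => 3 • kq J t)
    (by rw [fs_const_inert ok.toOk Nat.prime_two rfl (inert_two h8) (by decide)]; abel)
    (fun x _ => by rw [fs_const_up ok.toOk Nat.prime_two rfl rfl]; abel)
    fun x _ => by rw [fs_const_up ok2 Nat.prime_two rfl rfl]; abel
  rw [fs_sub, fs_sub, k2.1, k2.2, sub_eq_iff_eq_add, sub_eq_iff_eq_add] at k1
  rw [Kx_one ok hJ ht]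
  rcases m2_cases h h1 with ⟨k, k'⟩ | ⟨k, k'⟩ <;> rw [k'] <;> rw [k] at hd
  · obtain rfl : d = 1 * 2 * 2 := hd
    exact k1.1.trans (by abel)
  · obtain rfl : d = 1 * 2 * 2 * 2 := hd
    exact k1.2.trans (by abel)

/-- The lift of the half point. -/
noncomputable def Yp (r δ : ℤ) (ε : ℤˣ) (x : Pc n 1) : Pt W1 ℂ :=
  fs 1 (1 * m2 δ) (fun z => CM.ind (ε * CM.th n (1 * m2 δ) δ z) • Kx n (1 * m2 δ) r z) x +
    (ka δ - 3) • Kx n 1 r x

omit [∀ c, Fintype (Pc n c)] in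
theorem cop_m2 (h : δ ∣ 2) : IsCoprime ((1 * m2 δ : ℕ) : ℤ) 15 :=
  IsCoprime.of_isCoprime_of_dvd_left (y := 8) (by norm_num [Int.isCoprime_iff_gcd_eq_one])
    (by rw [one_mul]; exact_mod_cast m2_dvd h)

theorem Yp_add (ok : OkS n 1 r) (h8 : n % 8 = 3) (h : δ ∣ 2) (h1 : δ ≠ 1) (x : Pc n 1) :
    Yp r δ (-1) x + Yp r δ 1 x = dk 2 := by
  simp only [Yp, neg_one_mul, one_mul (CM.th _ _ _ _), ind_neg, sub_smul _ (CM.ind _), one_smul]
  rw [fs_sub, fs_Kx ok h8 h h1 rfl, two_mul, add_smul]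
  abel

theorem pmap_Yp (ok : OkS n 1 r) (h : δ ∣ 2) (hg : g ∈ GK n) (e : Ex g σ) (x : Pc n 1) :
    pmap (σ : ℂ →+* ℂ) (Yp r δ 1 x) =
      Yp r δ (CM.th n (1 * m2 δ) δ (rho n (1 * m2 δ) g)) (rho n 1 g * x) := by
  have okd := ok.of_ne (mul_ne_zero one_ne_zero (Spt.ne (spt_one h)).2.2.1)
  rw [Yp, Yp, map_add, map_zsmul, pmap_Kx ok (by simpa using isCoprime_one_left) hg e, map_fs,
    ← pj_rho okd.toOk (one_dvd _), ← fs_mul]
  congr 1
  refine fs_congr fun z _ => ?_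
  rw [map_zsmul, pmap_Kx okd (cop_m2 h) hg e, map_mul, ← mul_assoc, Int.units_mul_self]

theorem ph_Yp {ε : ℤ} (he : ∀ τ : ℂ, 0 < τ.im → kpt (lat15 τ) τ = u1 (ε * Fi τ)) (F : CFT)
    (hn : Nok n) (ok : OkS n 1 r) (h : δ ∣ 2) (h1 : δ ≠ 1) (x : Pc n 1) :
    ph (Yp r δ 1 x) = ε • pmap jC (uY r δ 1 1 x) := by
  have okd := ok.of_ne (mul_ne_zero one_ne_zero (Spt.ne (spt_one h)).2.2.1)
  have e3 := fs_ind F hn h h1 rfl (ε := 1) x
  have e4 : ph (fs 1 (1 * m2 δ)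
      (fun z => CM.ind (1 * CM.th n (1 * m2 δ) δ z) • Kx n (1 * m2 δ) r z) x) =
      ε • pmap jC (wt r (fun a _ => CM.ind a) δ 1 1 (1 * m2 δ) x + (4 - ka δ) • 3 • yQ n 1 r x) := by
    rw [← e3, wt, fs, fs, fs, Finset.sum_smul, ← Finset.sum_add_distrib, map_sum, map_sum,
      Finset.smul_sum]
    refine Finset.sum_congr rfl fun z hz => ?_
    rw [map_zsmul, ph_Kx he okd (cop_m2 h), (Finset.mem_filter.1 hz).2, one_mul, ← smul_add,
      map_zsmul, smul_comm]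
  rw [Yp, map_add, e4, map_zsmul, ph_Kx he ok (by simpa using isCoprime_one_left), pj_self,
    smul_comm _ ε, ← smul_add, ← map_zsmul, ← map_add, uY_one ok.toOk h rfl]
  congr 2
  module

variable [∀ c, Fintype (Tw (Pc n c))] (F : CFT) (hk : KronStmt) (hn : Nok n) (hr : 60 ∣ r ^ 2 + n)

theorem esZ_bir (h : δ ∣ 2) (h1 : δ ≠ 1) : (esZ F hk hn hr h).Bir := by
  obtain ⟨ε, hε, he⟩ := kl.eq
  have ok := okS_of hn hr one_ne_zero
  have okd := ok.of_ne (mul_ne_zero one_ne_zero (Spt.ne (spt_one h)).2.2.1)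
  have gd := gd_two okd.toOk h (dvd_mul_left _ _)
  obtain ⟨g, hg, e1, e2⟩ := exists_ker F hn h h1
  obtain ⟨σ, e⟩ := exists_ex g
  have k1 : ph (ε • CM.tr (Yp r δ 1) (1 : Tw (Pc n 1))) =
      pmap jC (CM.tr (uY r δ 1 1) (1 : Tw (Pc n 1))) := by
    rw [map_zsmul, map_tr, map_tr, CM.tr, CM.tr, Finset.smul_sum]
    refine Finset.sum_congr rfl fun x _ => ?_
    rw [ph_Yp he F hn ok h h1]
    rcases hε with rfl | rfl <;> simp
  have k2 : pmap (σ : ℂ →+* ℂ) (CM.tr (Yp r δ 1) (1 : Tw (Pc n 1))) +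
      CM.tr (Yp r δ 1) (1 : Tw (Pc n 1)) = Nat.card (oddP (Pc n 1)) • dk 2 := by
    rw [map_tr, CM.tr, CM.tr, ← Finset.sum_add_distrib, ← card_tq_fib 1, ← Finset.sum_const]
    refine Finset.sum_congr rfl fun x _ => ?_
    rw [pmap_Yp ok h hg e, gd.th hg, e1, e2, one_mul, Yp_add ok hn.m8 h h1]
  have k3 : Odd (Nat.card (oddP (Pc n 1))) := by
    refine Nat.not_even_iff_odd.1 fun k => ?_
    obtain ⟨⟨x, j, hj, hx⟩, h2⟩ := exists_prime_orderOf_dvd_card' 2 (even_iff_two_dvd.1 k)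
    exact hj.not_two_dvd_nat (h2 ▸ orderOf_dvd_of_pow_eq_one (Subtype.ext hx))
  have k4 : ∃ k : ℕ, Odd k ∧ pmap (σ : ℂ →+* ℂ) (ε • CM.tr (Yp r δ 1) (1 : Tw (Pc n 1))) +
      ε • CM.tr (Yp r δ 1) (1 : Tw (Pc n 1)) = k • dk 2 := by
    rw [map_zsmul, ← smul_add, k2]
    rcases hε with rfl | rfl
    · exact ⟨_, k3, one_smul _ _⟩
    · refine ⟨_ * 3, k3.mul (by decide), ?_⟩
      rw [mul_smul, neg_one_smul, neg_eq_iff_add_eq_zero, ← smul_add, ← succ_nsmul',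
        four_dk' (by norm_num), smul_zero]
  obtain ⟨k, k5, k6⟩ := k4
  obtain ⟨R, M, r1, r2, r3, r4⟩ := bir_of k1 e2 e k5 k6
  refine ⟨R, M, r1, r2, ⟨g, hg, ?_, r3⟩, fun w hw g' hg' => r4 g' fun σ' e' => ?_⟩
  · exact (congrArg (tq _) e1).trans (map_one _)
  · have h15 : w.p ∣ 15 := by rcases hw with k | k <;> rw [k] <;> decide
    have h2 : ¬ w.p ∣ 1 * m2 δ := fun k => by
      have := (w.prime.dvd_of_dvd_pow (((one_mul (m2 δ)) ▸ k).trans (m2_dvd h) : w.p ∣ 2 ^ 3))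
      rcases hw with k | k <;> rw [k] at this <;> omega
    obtain ⟨⟨a, a1⟩, a2⟩ := okd.root_bad w.prime h15 h2
    obtain ⟨⟨b, b1⟩, b2⟩ := ok.root_bad w.prime h15 w.prime.not_dvd_one
    have h3 : g' ∈ GK n := B4c_mem.2 (chi_ine (B4c_not_dvd (by rcases hw with k | k <;> omega) (by
      rw [jac_of_root w.prime b1 b2]; decide)) hg')
    rw [map_zsmul, map_tr]
    simp only [pmap_Yp ok h h3 e', rho_ine_split okd.toOk a1 a2 hg', rho_ine_split ok.toOk b1 b2 hg',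
      map_one, one_mul]

end Pool.Agent.Lib.MP_696deb_nt.B3.BI
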