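import Pool.Agent.Lib.MP_696deb_nt.B2.CMn
import Pool.Agent.Lib.MP_696deb_nt.B2.CMl

/-! Heegner points of ring class groups of arbitrary conductor. -/

set_option autoImplicit false

open scoped Classical

namespace Pool.Agent.Lib.MP_696deb_nt.B3.CM

open B2 B2.CM

variable {n c d : ℕ} {r : ℤ} {I : Lt} {Q Q' : Fm} {g : Gam}

/-- The standing hypotheses for Heegner points of arbitrary conductor. -/
structure OkS (n c : ℕ) (r : ℤ) : Prop extends Ok n c where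
  root : 60 ∣ r ^ 2 + n
  cop : n.Coprime 15

theorem OkS.neg (ok : OkS n c r) : -((n : ℤ) * c ^ 2) < 0 := by
  have h1 : (0 : ℤ) < n := by have := ok.gt; omega
  have h2 : (c : ℤ) ≠ 0 := by exact_mod_cast ok.ne
  exact neg_lt_zero.2 (by positivity)

theorem OkS.of_ne (ok : OkS n c r) (h : d ≠ 0) : OkS n d r := ⟨⟨ok.m4, ok.gt, h⟩, ok.root, ok.cop⟩

theorem OkS.of_dvd (ok : OkS n d r) (h : c ∣ d) : OkS n c r :=
  ok.of_ne (ne_zero_of_dvd_ne_zero ok.ne h)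

theorem OkS.okR (ok : OkS n c r) : OkR n 1 r :=
  ⟨⟨ok.m4, ok.gt, one_ne_zero⟩, ok.root, by simpa using ok.cop⟩

theorem OkS.cop_r (ok : OkS n c r) : IsCoprime r 15 := by simpa using ok.okR.cop_r

theorem OkS.exists_hg (ok : OkS n c r) (h : IsIv (Oc n c) I) : ∃ Q, Hg n c r I Q := by
  obtain ⟨a, m, b, k, ha, hm, e, -, rfl⟩ := h.exists_idl ok.toOk
  have hF : fdisc (m, b, k) = -(n * c ^ 2) := by simp only [fdisc]; linear_combination e
  obtain ⟨x, w, y, z, e1, hP⟩ := Gal.exists_hg_fmap (r := r * c) ok.neg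
    (by simpa [mul_pow, add_mul] using ok.root.mul_right ((c : ℤ) ^ 2)) hF hm
  have h1 := mob_froot (Q := (m, b, k)) e1 (hF ▸ ok.neg) hm
  have h2 := cmp_st ok.neg hP
  have h3 := den_ne (a := x) (b := w) (c := y) (d := z) (by omega) (hP.im_pos ok.neg)
  refine ⟨_, Hg.sc ⟨(Gal.st_spec ok.neg hP).1, ?_⟩ ha⟩
  generalize froot (Gal.st (fmap (m, b, k) x w y z)) = s at h2
  generalize froot (fmap (m, b, k) x w y z) = t at h1 h2 h3
  have m0 : (m : ℂ) ≠ 0 := by exact_mod_cast hm.ne'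
  have h4 : 2 * m * (x * t + w) = (-b + c * dl n) * (y * t + z) := by
    rw [mob, froot, hF, div_eq_div_iff h3 (by simpa using m0)] at h1
    rw [← del_eq, Gal.del]
    linear_combination h1
  replace h4 := congr_arg (starRingEnd ℂ) h4
  replace h3 := (map_ne_zero (starRingEnd ℂ)).2 h3
  simp only [map_add, map_mul, map_neg, map_intCast, map_natCast, map_ofNat, conj_dl] at h3 h4
  generalize starRingEnd ℂ t = u at h2 h3 h4
  refine ⟨m / (y * u + z) * u, mul_ne_zero (div_ne_zero m0 h3) (left_ne_zero_of_mul_eq_one h2), ?_⟩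
  rw [sc_sp2, mul_assoc, h2, mul_one, mul_one, ← cmp_sp2 e1, idl, be]
  congr 1 <;> field_simp
  linear_combination h4

/-- The lattice of the root of a form is the ideal of the form. -/
theorem sc_root {A B C : ℤ} {τ : ℂ} (hn : 0 < n) (hc : c ≠ 0) (e : B ^ 2 + n * c ^ 2 = 4 * A * C)
    (hA : 0 < A) (hτ : 0 < τ.im) (h : A * τ ^ 2 + B * τ + C = 0) :
    sc A (sp2 τ 1) = idl n c A (-B) := by
  have hD : fdisc (A, B, C) = -(n * c ^ 2) := by simp only [fdisc]; linear_combination e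
  have h0 : fdisc (A, B, C) < 0 := by
    rw [hD]
    have h1 : (0 : ℤ) < n := by exact_mod_cast hn
    have h2 : (c : ℤ) ≠ 0 := by exact_mod_cast hc
    exact neg_lt_zero.2 (by positivity)
  have h1 := eq_froot (Q := (A, B, C)) h0 hA hτ h
  have A0 : (A : ℂ) ≠ 0 := by exact_mod_cast hA.ne'
  have h2 : be n c (-B) = A * τ := by
    rw [h1, froot, hD, be, ← del_eq, Gal.del]
    push_cast
    field_simp
  rw [sc_sp2, idl, h2, mul_one, sp2, sp2, Set.pair_comm]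

/-- The form of an invertible lattice is primitive. -/
theorem prim_root {A B C : ℤ} {τ a : ℂ} (ok : Ok n c) (e : B ^ 2 + n * c ^ 2 = 4 * A * C)
    (hA : 0 < A) (hτ : 0 < τ.im) (h : A * τ ^ 2 + B * τ + C = 0) (ha : a ≠ 0)
    (hI : IsIv (Oc n c) (sc a (sp2 τ 1))) : ∃ x y z : ℤ, x * A + y * B + z * C = 1 := by
  have A0 : (A : ℂ) ≠ 0 := by exact_mod_cast hA.ne'
  have h4 := hI.sc (mul_ne_zero A0 (inv_ne_zero ha))
  rw [sc_sc, mul_assoc, inv_mul_cancel₀ ha, mul_one,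
    sc_root (by have := ok.gt; omega) ok.ne e hA hτ h] at h4
  obtain ⟨x, y, z, hx⟩ := prim_of_mult ok (k := C) (by rw [neg_sq, e]) fun u hu => h4.mem_of_mul hu
  exact ⟨x, -y, z, by linear_combination hx⟩

theorem isIv_root {A B C : ℤ} {τ : ℂ} (ok : Ok n c) (e : B ^ 2 + n * c ^ 2 = 4 * A * C)
    (hA : 0 < A) (hτ : 0 < τ.im) (h : A * τ ^ 2 + B * τ + C = 0)
    (hp : ∃ x y z : ℤ, x * A + y * B + z * C = 1) : IsIv (Oc n c) (sp2 τ 1) := by
  have A0 : (A : ℂ) ≠ 0 := by exact_mod_cast hA.ne'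
  obtain ⟨x, y, z, hp⟩ := hp
  have h1 := (isIv_idl ok.m4 (b := -B) (k := C) (by rw [neg_sq, e]) hA.ne'
    ⟨x, -y, z, by linear_combination hp⟩).sc (inv_ne_zero A0)
  rwa [← sc_root (by have := ok.gt; omega) ok.ne e hA hτ h, sc_inv_sc A0] at h1

theorem OkS.unique (ok : OkS n c r) (hI : IsIv (Oc n c) I) (h : Hg n c r I Q) (h' : Hg n c r I Q') :
    pt (froot Q) = pt (froot Q') := by
  have i1 := h.1.im_pos ok.neg
  have i2 := h'.1.im_pos ok.neg
  obtain ⟨h, a, ha, rfl⟩ := h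
  obtain ⟨h', a', ha', e⟩ := h'
  have s : Gal.Sc (a⁻¹ * a') (lat15 (froot Q')) (lat15 (froot Q)) :=
    ⟨mul_ne_zero (inv_ne_zero ha) ha', fun z => by
      rw [lat15_eq i1, lat15_eq i2, ← mul_mem_sc ha, e, mul_assoc, mul_inv_cancel_left₀ ha,
        mul_mem_sc ha']⟩
  generalize a⁻¹ * a' = u at s
  obtain ⟨p, q, e1⟩ := (mem_lat15 i1).1 ((s.mem _).2 ((mem_lat15 i2).2 ⟨1, 0, rfl⟩))
  obtain ⟨p', q', e2⟩ := (mem_lat15 i1).1 ((s.mem _).2 (h'.mul_mem ok.neg).1)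
  obtain ⟨A, k, a1, a2, a3, a4⟩ := h.alp ok.neg
  obtain ⟨e0, e3⟩ := tau_indep i1.ne' (x := 15 * (q * A - 15 * p * k - 15 * p'))
    (y := q * (r * c + 15 * k) - 15 * p * Q.2.2 - 15 * q') (by
      push_cast at e1 a3 a4 ⊢
      linear_combination 15 * e2 - Gal.alp (-(n * c ^ 2)) (r * c) * e1 - q * a3 - 15 * p * a4)
  have hr := froot_root (h.disc ▸ ok.neg) h.pos
  have hd := h.disc
  rw [fdisc, a1] at hd
  rw [a1] at hr
  obtain ⟨x, y, z, hx⟩ := prim_root (A := A) (B := Q.2.1) (C := 15 * Q.2.2) ok.toOk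
    (by linear_combination hd) (by have := h.pos; omega) (by simpa using i1)
    (by push_cast at hr ⊢; linear_combination 15 * hr) ha hI
  obtain ⟨q, rfl⟩ : 15 ∣ q := ⟨x * (p * k + p') + y * (p * Q.2.2 + q' + q * k) + z * q * Q.2.2, by
    have e4 : q * A - 15 * p * k - 15 * p' = 0 := by omega
    linear_combination -q * hx + x * e4 + y * e3 + y * q * a2⟩
  have e4 : u * froot Q' = p * froot Q + q := by
    push_cast at e1
    linear_combination e1 / 15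
  have key : ∀ l j : ℤ, l * j = 15 → l ∣ p → 15 ∣ j := by
    rintro l j hl ⟨v, rfl⟩
    have hl' : (l : ℂ) * j = 15 := by exact_mod_cast hl
    rw [← Gal.ord_lat i2, ← s.mem, mem_lat15 i1]
    exact ⟨v, j * q, by push_cast at e4 ⊢; linear_combination j * e4 + v * froot Q * hl'⟩
  have hp : IsCoprime p 15 := IsCoprime.mul_right (y := 3) (z := 5)
    (Int.prime_three.coprime_iff_not_dvd.2 fun k => by simpa using key 3 5 rfl k).symm
    ((Int.prime_iff_natAbs_prime.2 (by norm_num) : Prime (5 : ℤ)).coprime_iff_not_dvd.2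
      fun k => by simpa using key 5 3 rfl k).symm
  rw [← Gal.Pr.pt_eq i1 i2 hp ((Gal.pr_refl _ _).of_sc s ((mem_lat15 i1).2 ⟨0, q, by
    rw [e4]; simp⟩)), Gal.pmap_refl]

theorem OkS.yP_cl (ok : OkS n c r) (hI : IsIv (Oc n c) I) (h : Hg n c r I Q) :
    yP n c r (cl _ I) = pt (froot Q) := by
  obtain ⟨h1, h2⟩ := (cl_surj (cl (Oc n c) I)).choose_spec
  obtain ⟨a, ha, e⟩ := (cl_eq_iff hI h1).1 h2.symm
  have h3 : Hg n c r (cl_surj (cl (Oc n c) I)).choose Q := e ▸ h.sc ha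
  rw [yP, dif_pos ⟨Q, h3⟩]
  exact ok.unique h1 (Exists.choose_spec ⟨Q, h3⟩) h3

theorem OkS.jC_yQ (ok : OkS n c r) (x : Pc n c) : pmap jC (yQ n c r x) = yP n c r x := by
  obtain ⟨I, hI, rfl⟩ := cl_surj x
  obtain ⟨Q, h⟩ := ok.exists_hg hI
  refine Function.invFun_eq (exists_pt_of_alg ?_)
  rw [ok.yP_cl hI h]
  exact (Gal.alg_pt ok.neg h.1).1

theorem OkS.smul_yQ (ok : OkS n c r) (hg : g ∈ GK n) (x : Pc n c) :
    g • yQ n c r x = yQ n c r (rho n c g * x) := by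
  obtain ⟨I, hI, rfl⟩ := cl_surj x
  obtain ⟨Q, h⟩ := ok.exists_hg hI
  obtain ⟨σ, e⟩ := exists_ex g
  have y1 := ok.yP_cl hI h
  have i1 := h.1.im_pos ok.neg
  obtain ⟨h, a, ha, rfl⟩ := h
  obtain ⟨Q', h1, h2⟩ := Gal.gal_form (σ := σ) (ε := 1) ok.neg h (.inl rfl) (by
    rw [del_eq, map_mul, map_natCast, e.dl hg, Int.cast_one, one_mul])
  rw [one_mul] at h1
  have i2 := h1.im_pos ok.neg
  obtain ⟨-, -, u, M, k1, k2, -⟩ := Gal.exists_pr_of_pt i1 i2 h2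
  have k3 : CjS σ (sc a (sp2 (15 * froot Q) 1)) (sc (σ a) (sc u (sp2 (15 * froot Q') 1))) :=
    CjS.sc ⟨_, _, lat15_eq i1, by rw [cmp_sc k1, lat15_eq i2], k2⟩ ha
  refine pmap_injective jC ?_
  rw [e.pmap, ok.jC_yQ, ok.jC_yQ, ← cl_cj ok.toOk hg e hI k3, y1, h2,
    ok.yP_cl (k3.isIv ok.toOk (.inl (e.dl hg)) hI) (Hg.sc ⟨h1, u, k1.ne, rfl⟩ ((map_ne_zero σ).2 ha))]

/-- The form `Q` describes the lattice `I` directly. -/
def Hd (n c : ℕ) (r : ℤ) (I : Lt) (Q : Fm) : Prop :=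
  IsHg (-(n * c ^ 2)) (-(r * c)) Q ∧ ∃ a : ℂ, a ≠ 0 ∧ I = sc a (sp2 (froot Q) 1)

theorem Hd.sc (h : Hd n c r I Q) {a : ℂ} (ha : a ≠ 0) : Hd n c r (sc a I) Q := by
  obtain ⟨h1, b, hb, rfl⟩ := h
  exact ⟨h1, a * b, mul_ne_zero ha hb, sc_sc _ _ _⟩

/-- The image of a form under the Fricke involution. -/
def fl (Q : Fm) : Fm := (15 * Q.2.2, -Q.2.1, Q.1 / 15)

theorem fl_spec {D s : ℤ} (hD : D < 0) (h : IsHg D s Q) :
    IsHg D (-s) (fl Q) ∧ froot (fl Q) = Unif.al 3 (froot Q) ∧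
      froot Q * (15 * froot (fl Q)) = -1 := by
  obtain ⟨a, ha⟩ := h.lev
  have e : Q.1 / 15 = a := by omega
  have h0 := h.im_pos hD
  have h1 : IsHg D (-s) (fl Q) := ⟨by rw [← h.disc]; simp only [fdisc, fl, e]; rw [ha]; ring,
    mul_pos (by norm_num) (pos_c (h.disc ▸ hD) h.pos), dvd_mul_right _ _, by
      have := h.res.neg_right
      simp only [fl]
      rwa [neg_sub'] at this⟩
  have h3 := froot_root (h.disc ▸ hD) h.pos
  have h4 : froot Q ≠ 0 := fun k => by simp [k] at h0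
  rw [ha] at h3
  have h5 : Unif.al 3 (froot Q) = -1 / (15 * froot Q) := by simp [Unif.al, Unif.alM, mob]
  have h6 : froot (fl Q) = Unif.al 3 (froot Q) := by
    refine (eq_froot (h1.disc ▸ hD) h1.pos (Unif.al_im_pos 3 h0) ?_).symm
    simp only [fl, e, h5]
    push_cast at h3 ⊢
    field_simp
    linear_combination h3
  exact ⟨h1, h6, by rw [h6, h5]; field_simp⟩

theorem sp2_inv {s t : ℂ} (h : s * t = -1) : sc s (sp2 t 1) = sp2 s 1 := by
  rw [sc_sp2, h, mul_one]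
  exact le_antisymm (sp2_le.2 ⟨neg_mem (right_mem_sp2 _ _), left_mem_sp2 _ _⟩)
    (sp2_le.2 ⟨right_mem_sp2 _ _, neg_mem_iff.1 (left_mem_sp2 _ _)⟩)

theorem OkS.hg_fl (ok : OkS n c r) (h : Hd n c r I Q) : Hg n c r I (fl Q) := by
  obtain ⟨h, a, ha, rfl⟩ := h
  obtain ⟨h1, -, h3⟩ := fl_spec ok.neg h
  rw [neg_neg] at h1
  exact Hg.sc ⟨h1, froot Q, left_ne_zero_of_mul (h3.trans_ne (by norm_num)), (sp2_inv h3).symm⟩ ha

theorem OkS.exists_hd (ok : OkS n c r) (hI : IsIv (Oc n c) I) : ∃ Q, Hd n c r I Q := by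
  obtain ⟨Q, h, a, ha, rfl⟩ := ok.exists_hg hI
  obtain ⟨h1, -, h3⟩ := fl_spec ok.neg h
  rw [mul_left_comm, ← mul_assoc] at h3
  exact ⟨_, Hd.sc ⟨h1, _, left_ne_zero_of_mul (h3.trans_ne (by norm_num)), (sp2_inv h3).symm⟩ ha⟩

theorem jC_P4 : pmap jC P4 = Unif.u15 (Unif.alC 3) := by
  rw [Unif.u15_alC_three]
  exact Pool.Agent.Shared.Weier.IsPer.some_congr (by simp [map_ofNat]) (by simp [map_ofNat])

/-- The direct description of the Heegner point of a class. -/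
theorem OkS.yP_hd (ok : OkS n c r) (hI : IsIv (Oc n c) I) (h : Hd n c r I Q) :
    yP n c r (cl _ I) = pmap jC P4 - pt (froot Q) := by
  rw [ok.yP_cl hI (ok.hg_fl h), (fl_spec ok.neg h.1).2.1, Unif.pt_al 3 (h.1.im_pos ok.neg), jC_P4,
    show Unif.alS 3 = -1 from rfl, neg_one_zsmul, neg_add_eq_sub]

end Pool.Agent.Lib.MP_696deb_nt.B3.CM
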