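import Pool.Agent.Lib.MP_696deb_nt.B3.CMb

/-! Norm relations for Heegner points of arbitrary conductor. -/

set_option autoImplicit false

open scoped Classical NumberTheorySymbols

namespace Pool.Agent.Lib.MP_696deb_nt.B3.CM

open B2 B2.CM

variable {n c d l : ℕ} {r : ℤ} {I : Lt} {Q : Fm}

theorem hk_im {τ : ℂ} (hl : 0 < l) (ht : 0 < τ.im) (i : Option (Fin l)) : 0 < (hk l τ i).im := by
  have l1 : (0 : ℝ) < l := by exact_mod_cast hl
  cases i with
  | none => simpa [hk] using mul_pos l1 ht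
  | some k => simpa [hk] using div_pos ht l1

theorem nb_hk (hl : 0 < l) (s : ℤ) (τ : ℂ) (i : Option (Fin l)) :
    ∃ u : ℂ, u ≠ 0 ∧ CM.nb l s (s * τ) i = sc u (sp2 (s * hk l τ i) 1) := by
  have l2 : (l : ℂ) ≠ 0 := by exact_mod_cast hl.ne'
  cases i with
  | none => exact ⟨1, one_ne_zero, by rw [sc_one, CM.nb, hk, mul_left_comm]⟩
  | some k =>
    exact ⟨l, l2, by rw [sc_sp2, CM.nb, hk, mul_one, mul_left_comm, mul_div_cancel₀ _ l2, mul_add]⟩

theorem isHg_hk {D s : ℤ} (hD : D < 0) (hl : 0 < l) (h : IsHg D s Q) (i : Option (Fin l)) :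
    ∃ Q', IsHg (D * l ^ 2) (s * l) Q' ∧ froot Q' = hk l (froot Q) i := by
  have l0 : (0 : ℤ) < l := by exact_mod_cast hl
  have l2 : (l : ℂ) ≠ 0 := by exact_mod_cast hl.ne'
  have hD' : D * l ^ 2 < 0 := mul_neg_of_neg_of_pos hD (pow_pos l0 2)
  have ht := hk_im hl (h.im_pos hD) i
  have hr := froot_root (h.disc ▸ hD) h.pos
  have hd := h.disc
  obtain ⟨u, hu⟩ := h.lev
  obtain ⟨v, hv⟩ := h.res
  rw [fdisc] at hd
  rcases i with _ | k
  · have k1 : IsHg (D * l ^ 2) (s * l) (Q.1, l * Q.2.1, l ^ 2 * Q.2.2) :=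
      ⟨by rw [fdisc]; linear_combination (l : ℤ) ^ 2 * hd, h.pos, h.lev,
        l * v, by linear_combination (l : ℤ) * hv⟩
    exact ⟨_, k1, (eq_froot (k1.disc ▸ hD') k1.pos ht
      (by simp only [hk]; push_cast; linear_combination (l : ℂ) ^ 2 * hr)).symm⟩
  · have k1 : IsHg (D * l ^ 2) (s * l) (Q.1 * l ^ 2, l * (Q.2.1 - 2 * Q.1 * (k : ℕ)),
          Q.1 * (k : ℕ) ^ 2 - Q.2.1 * (k : ℕ) + Q.2.2) :=
      ⟨by rw [fdisc]; linear_combination (l : ℤ) ^ 2 * hd,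
        mul_pos h.pos (pow_pos l0 2), h.lev.mul_right _,
        l * (v - u * (k : ℕ)), by
          linear_combination (l : ℤ) * hv - 2 * (l : ℤ) * ((k : ℕ) : ℤ) * hu⟩
    exact ⟨_, k1, (eq_froot (k1.disc ▸ hD') k1.pos ht
      (by simp only [hk]; push_cast; field_simp; linear_combination hr)).symm⟩

theorem OkS.hg_nb (ok : OkS n c r) (hl : 0 < l) (h : IsHg (-(n * c ^ 2)) (r * c) Q)
    (i : Option (Fin l)) :
    ∃ Q', Hg n (c * l) r (CM.nb l 15 (15 * froot Q) i) Q' ∧ froot Q' = hk l (froot Q) i := by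
  obtain ⟨Q', h1, h2⟩ := isHg_hk ok.neg hl h i
  refine ⟨Q', ⟨by convert h1 using 1 <;> (push_cast; ring), ?_⟩, h2⟩
  simpa only [h2, Int.cast_ofNat] using nb_hk hl 15 (froot Q) i

theorem OkS.hd_nb (ok : OkS n c r) (hl : 0 < l) (h : IsHg (-(n * c ^ 2)) (-(r * c)) Q)
    (i : Option (Fin l)) :
    ∃ Q', Hd n (c * l) r (CM.nb l 1 (froot Q) i) Q' ∧ froot Q' = hk l (froot Q) i := by
  obtain ⟨Q', h1, h2⟩ := isHg_hk ok.neg hl h i
  refine ⟨Q', ⟨by convert h1 using 1 <;> (push_cast; ring), ?_⟩, h2⟩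
  simpa only [h2, Int.cast_one, one_mul] using nb_hk hl 1 (froot Q) i

theorem sum_hk (hl : l.Prime) (h15 : ¬ l ∣ 15) {τ : ℂ} (ht : 0 < τ.im) :
    ∑ i, pt (hk l τ i) = a15 l • pt τ := by
  rw [← Unif.pt_hecke hl h15 ht, Fintype.sum_option,
    ← Fin.sum_univ_eq_sum_range fun j => pt ((τ + j) / l)]
  rfl

/-- The Hecke relation for the primitive at a bad prime. -/
theorem Fi_bad (hl : l.Prime) (h15 : l ∣ 15) {z : ℂ} (hz : 0 < z.im) :
    ∑ j ∈ Finset.range l, Fi ((z + j) / l) = a15 l * Fi z := by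
  have : Fact l.Prime := ⟨hl⟩
  have := Unif.Fi_sum (Finset.univ : Finset (ZMod l)) (fun _ => 1) (fun j => j.val) (fun _ => 0)
    (fun _ => l) (fun _ _ => by simpa using hl.pos) (a15 l) (fun z hz => by
      rw [← Tp_f15 l hz, Tp, Fintype.sum_option]
      simp [hT, h15]) hz
  simp only [ms_zero, Finset.sum_const_zero, add_zero] at this
  rw [← this]
  exact (Finset.sum_nbij' (fun j : ZMod l => j.val) (fun j : ℕ => (j : ZMod l)) (by
    simp [ZMod.val_lt]) (by simp) (by simp) (fun j hj => ZMod.val_cast_of_lt (by simpa using hj))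
    (by simp [mob])).symm

theorem sum_hk_bad (hl : l.Prime) (h15 : l ∣ 15) {τ : ℂ} (ht : 0 < τ.im) :
    ∑ j : Fin l, pt (hk l τ (some j)) = a15 l • pt τ := by
  rw [Unif.pt_eq_u15 ht, ← map_zsmul, zsmul_eq_mul, ← Fi_bad hl h15 ht, map_sum,
    ← Fin.sum_univ_eq_sum_range fun j => Unif.u15 (Fi ((τ + j) / l))]
  exact Finset.sum_congr rfl fun j _ => Unif.pt_eq_u15 (hk_im hl.pos ht (some j))

variable [∀ c, Fintype (Pc n c)]

/-- Sums over the fibres of the projection. -/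
noncomputable def fs {M : Type} [AddCommMonoid M] (c d : ℕ) (F : Pc n d → M) (z : Pc n c) : M :=
  ∑ x with pj n c d x = z, F x

theorem fs_fs {M : Type} [AddCommMonoid M] {e : ℕ} (h : c ∣ d) (h' : d ∣ e) (F : Pc n e → M)
    (z : Pc n c) : fs c d (fs d e F) z = fs c e F z := by
  rw [fs, fs, ← Finset.sum_fiberwise_of_maps_to (s := Finset.univ.filter fun x => pj n c e x = z)
    (t := Finset.univ.filter fun x => pj n c d x = z) (g := pj n d e)
    fun x hx => by simpa [pj_pj h h'] using hx]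
  refine Finset.sum_congr rfl fun y hy => Finset.sum_congr ?_ fun _ _ => rfl
  ext x
  simp only [Finset.mem_filter, Finset.mem_univ, true_and] at hy ⊢
  exact ⟨fun k => ⟨by rw [← pj_pj h h', k, hy], k⟩, fun k => k.2⟩

omit [∀ c, Fintype (Pc n c)] in
theorem pj_self (x : Pc n c) : pj n c c x = x := by
  obtain ⟨I, hI, rfl⟩ := cl_surj x
  rw [pj_cl dvd_rfl hI, hI.1]

theorem fs_self {M : Type} [AddCommMonoid M] (F : Pc n c → M) (z : Pc n c) : fs c c F z = F z := by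
  rw [fs]
  exact Finset.sum_eq_single z (fun x hx h => absurd ((pj_self x).symm.trans
    (Finset.mem_filter.1 hx).2) h) fun h => absurd (by simp [pj_self]) h

theorem fs_congr {M : Type} [AddCommMonoid M] {F G : Pc n d → M} {z : Pc n c}
    (h : ∀ x, pj n c d x = z → F x = G x) : fs c d F z = fs c d G z :=
  Finset.sum_congr rfl fun x hx => h x (Finset.mem_filter.1 hx).2

theorem map_fs {M M' : Type} [AddCommMonoid M] [AddCommMonoid M'] (f : M →+ M') (F : Pc n d → M)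
    (z : Pc n c) : f (fs c d F z) = fs c d (fun x => f (F x)) z := map_sum f _ _

/-- The points above a given point, as neighbours in the upper half plane. -/
theorem OkS.fs_hg (ok : OkS n c r) (hl : l.Prime) (h15 : ¬ l ∣ 15) {a : ℂ} (ha : a ≠ 0)
    (h : IsHg (-(n * c ^ 2)) (r * c) Q) (hI : IsIv (Oc n c) (sc a (sp2 (15 * froot Q) 1))) :
    pmap jC (fs c (c * l) (yQ n (c * l) r) (cl _ (sc a (sp2 (15 * froot Q) 1)))) =
      ∑ i with ¬ St n c (CM.nb l 15 (15 * froot Q) i), pt (hk l (froot Q) i) := by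
  have ok' := ok.of_ne (mul_ne_zero ok.ne hl.ne_zero)
  have hτ : (15 * froot Q).im ≠ 0 := by simpa using (h.im_pos ok.neg).ne'
  rw [fs, sum_nb (s := 15) ok.toOk hl (by exact_mod_cast h15) hτ ha hI, map_sum]
  refine Finset.sum_congr rfl fun i hi => ?_
  obtain ⟨Q', h1, h3⟩ := ok.hg_nb hl.pos h i
  rw [ok'.jC_yQ, ← h3,
    ok'.yP_cl (nb_isIv_of ok.toOk hl hτ ha hI (Finset.mem_filter.1 hi).2).1 (h1.sc ha)]

theorem fs_const {M : Type} [AddCommMonoid M] (ok : Ok n c) (hl : l.Prime) {τ a : ℂ}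
    (hτ : τ.im ≠ 0) (ha : a ≠ 0) (hI : IsIv (Oc n c) (sc a (sp2 τ 1))) (v : M) :
    fs c (c * l) (fun _ => v) (cl (Oc n c) (sc a (sp2 τ 1))) =
      (Finset.univ.filter fun i => ¬ St n c (CM.nb l 1 τ i)).card • v := by
  rw [fs, sum_nb (s := 1) ok hl (cmd_one hl) hτ ha hI, Finset.sum_const]

theorem fs_const_inert {M : Type} [AddCommMonoid M] (ok : Ok n c) (hl : l.Prime) (hd : d = c * l)
    (hi : Inert n l) (hc : ¬ l ∣ c) (z : Pc n c) (v : M) :
    fs c d (fun _ => v) z = (l + 1) • v := by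
  subst hd
  obtain ⟨τ, a, hτ, ha, hI, rfl, -⟩ := cmf_tau ok z
  rw [fs_const ok hl hτ.ne' ha hI, Finset.filter_true_of_mem fun i _ => mt (st_sc ha).2
    (not_st_inert ok hl hi hc hI (nb_mid_sc hl hτ.ne' ha i).1 (nb_mid_sc hl hτ.ne' ha i).2)]
  simp

theorem OkS.trace_inert (ok : OkS n c r) (hl : l.Prime) (hd : d = c * l) (h15 : ¬ l ∣ 15)
    (hi : Inert n l) (hc : ¬ l ∣ c) (z : Pc n c) :
    fs c d (yQ n d r) z = a15 l • yQ n c r z := by
  subst hd
  obtain ⟨I, hI, rfl⟩ := cl_surj z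
  obtain ⟨Q, hQ⟩ := ok.exists_hg hI
  have e0 := ok.yP_cl hI hQ
  obtain ⟨h, a, ha, rfl⟩ := hQ
  have hτ : (15 * froot Q).im ≠ 0 := by simpa using (h.im_pos ok.neg).ne'
  refine pmap_injective jC ?_
  rw [ok.fs_hg hl h15 ha h hI, map_zsmul, ok.jC_yQ, e0, ← sum_hk hl h15 (h.im_pos ok.neg),
    Finset.filter_true_of_mem fun i _ => mt (st_sc ha).2
      (not_st_inert ok.toOk hl hi hc hI (nb_mid_sc hl hτ ha i).1 (nb_mid_sc hl hτ ha i).2)]

omit [∀ c, Fintype (Pc n c)] in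
theorem exists_up (ok : Ok n c) (hl : l.Prime) {s : ℤ} (hs : ¬ (l : ℤ) ∣ s) {τ a : ℂ}
    (hτ : τ.im ≠ 0) (ha : a ≠ 0) (hI : IsIv (Oc n (c * l)) (sc a (sp2 τ 1))) :
    ∃ j, sc a (CM.nb l s τ j) = sc l (sc a (sp2 τ 1) * ot (Oc n c)) ∧
      ∀ i, ¬ St n (c * l) (CM.nb l s τ i) ↔ i ≠ j := by
  obtain ⟨h1, h2⟩ := mid_up ok hl hI
  obtain ⟨K, hK⟩ := cmd_sc_surj ha (sc l (sc a (sp2 τ 1) * ot (Oc n c)))
  rw [← hK] at h1 h2
  rw [cmd_sc_comm, cmd_sc_lt ha] at h1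
  obtain ⟨j, rfl⟩ := cmd_mid hl hs hτ h1 ((cmd_sc_lt ha).1 h2)
  refine ⟨j, hK, fun i => not_congr ?_⟩
  rw [← st_sc ha, st_iff_up ok hl hI (nb_mid_sc hl hτ ha i).1 (nb_mid_sc hl hτ ha i).2, ← hK]
  exact ⟨fun e => cmd_nb_eq hl hs hτ ((cmd_sc_le ha).1 e.le), fun e => by rw [e]⟩

theorem fs_const_up {M : Type} [AddCommMonoid M] {e : ℕ} (ok : Ok n c) (hl : l.Prime)
    (hd : d = c * l) (he : e = d * l) (z : Pc n d) (v : M) : fs d e (fun _ => v) z = l • v := by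
  subst hd he
  obtain ⟨τ, a, hτ, ha, hI, rfl, -⟩ := cmf_tau (cmd_ok ok hl) z
  obtain ⟨j, -, hj⟩ := exists_up ok hl (cmd_one hl) hτ.ne' ha hI
  rw [fs_const (cmd_ok ok hl) hl hτ.ne' ha hI, Finset.filter_congr fun i _ => hj i,
    Finset.filter_ne', Finset.card_erase_of_mem (Finset.mem_univ _)]
  simp

theorem OkS.trace_up {e : ℕ} (ok : OkS n c r) (hl : l.Prime) (hd : d = c * l) (he : e = d * l)
    (h15 : ¬ l ∣ 15) (z : Pc n d) :
    fs d e (yQ n e r) z = a15 l • yQ n d r z - yQ n c r (pj n c d z) := by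
  subst hd he
  have l2 : (l : ℂ) ≠ 0 := by exact_mod_cast hl.ne_zero
  have ok' := ok.of_ne (mul_ne_zero ok.ne hl.ne_zero)
  obtain ⟨I, hI, rfl⟩ := cl_surj z
  obtain ⟨Q, hQ⟩ := ok'.exists_hg hI
  have e0 := ok'.yP_cl hI hQ
  obtain ⟨h, a, ha, rfl⟩ := hQ
  have ht := h.im_pos ok'.neg
  have hτ : (15 * froot Q).im ≠ 0 := by simpa using ht.ne'
  have hs : ¬ (l : ℤ) ∣ 15 := by exact_mod_cast h15
  obtain ⟨j, e1, hj⟩ := exists_up ok.toOk hl hs hτ ha hI
  have hO := (hI.ext (Oc_le n (dvd_mul_right c l))).sc l2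
  obtain ⟨u, hu, e2⟩ := nb_hk hl.pos 15 (froot Q) j
  rw [Int.cast_ofNat] at e2
  have i2 := hk_im hl.pos ht j
  have hα : be n c (r * c) ∈ Oc n c := be_mem ok.m4 (by
    have := ok.root
    have h4 := ok.m4
    have : 2 ∣ r - 1 := by
      rcases Int.even_or_odd' r with ⟨t, rfl | rfl⟩
      · rw [show (2 * t) ^ 2 = 4 * t ^ 2 by ring] at this
        omega
      · omega
    simpa [sub_mul] using this.mul_right c)
  have k0 : ∀ z ∈ sp2 (15 * hk l (froot Q) j) 1, be n c (r * c) * z ∈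
      sp2 (15 * hk l (froot Q) j) 1 := fun z hz => by
    have := hO.mul_mem hα (e1 ▸ e2 ▸ (mul_mem_sc ha).2 ((mul_mem_sc hu).2 hz))
    rwa [← e1, e2, mul_left_comm, mul_mem_sc ha, mul_left_comm, mul_mem_sc hu] at this
  obtain ⟨Q', h1, h2⟩ := Gal.exists_hg (r := r * c) ok.neg i2
    (by simpa [lat15_eq i2, alp_eq] using k0 1 (right_mem_sp2 _ _)) (by
      rw [lat15_eq i2, alp_eq]
      obtain ⟨A, k, -, -, a3, a4⟩ := h.alp ok'.neg
      rw [alp_eq, Nat.cast_mul, ← mul_assoc, be_mul] at a3 a4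
      refine cmd_bez hl hs (cmd_bez hl hs ?_ ?_) ?_
      · cases j with
        | none =>
          exact mem_sp2.2 ⟨-k * l, -Q.2.2 * l ^ 2, by
            simp only [hk]; push_cast at a4 ⊢; linear_combination (l : ℂ) ^ 2 * a4⟩
        | some i =>
          exact mem_sp2.2 ⟨(-k + A * (i : ℕ)) * l, -Q.2.2 + (i : ℕ) * (r * c * l + 15 * k) -
              15 * (i : ℕ) * (-k + A * (i : ℕ)), by
            simp only [hk]; push_cast at a3 a4 ⊢; field_simp
            linear_combination a4 + ((i : ℕ) : ℂ) * a3⟩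
      · have := int_mul_mem (k0 _ (left_mem_sp2 _ _)) l
        convert this using 1
        push_cast
        ring
      · convert k0 _ (left_mem_sp2 _ _) using 1
        push_cast
        ring)
  have e3 := ok.yP_cl hO ⟨h1, a * u, mul_ne_zero ha hu, by rw [← e1, e2, sc_sc, h2]⟩
  refine pmap_injective jC ?_
  rw [ok'.fs_hg hl h15 ha h hI, map_sub, map_zsmul, ok'.jC_yQ, ok.jC_yQ, e0,
    ← sum_hk hl h15 ht, Finset.filter_congr fun i _ => hj i, Finset.filter_ne',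
    pj_cl (dvd_mul_right c l) hI, ← cl_sc (hI.ext (Oc_le n (dvd_mul_right c l))) l2, e3, ← h2,
    Finset.sum_erase_eq_sub (Finset.mem_univ _)]

end Pool.Agent.Lib.MP_696deb_nt.B3.CM
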