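import Pool.Agent.Lib.MP_696deb_nt.B3.CMf
import Pool.Agent.Lib.MP_696deb_nt.B3.E1
import Pool.Agent.Lib.MP_696deb_nt.B2.D1b

/-! The system of Heegner points as a definition, and Euler systems from raw systems. -/

set_option autoImplicit false

open scoped Classical NumberTheorySymbols

namespace Pool.Agent.Lib.MP_696deb_nt.B3.CM

open B2 B2.CM

variable {n c l : ℕ} {r f : ℤ} {g : Gam}

/-- A class on which all genus characters are trivial has odd order. -/
theorem tq_sep (ok : OkR n 1 r) (hn : Good n) (hB : CondB n) (hg : g ∈ GK n)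
    (h : ∀ p ∈ n.primeFactors, chi (pst p) g = 1) : tq _ (rho n 1 g) = 1 := by
  obtain ⟨R, hR⟩ := Gal.exists_hreps (-n) r hn.neg
  obtain ⟨e, he, hy⟩ := exists_bij ok hn.sqf hR
  let H : Subgroup (Pc n 1) :=
    { carrier := {x | ∃ g ∈ GK n, (∀ p ∈ n.primeFactors, chi (pst p) g = 1) ∧ rho n 1 g = x}
      one_mem' := ⟨1, one_mem _, fun _ _ => map_one _, rho_one ok.toOk⟩
      mul_mem' := by
        rintro _ _ ⟨g, hg, h1, rfl⟩ ⟨h, hh, h2, rfl⟩
        exact ⟨g * h, mul_mem hg hh, fun p hp => by rw [map_mul, h1 p hp, h2 p hp, one_mul],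
          rho_mul ok.toOk hg h⟩
      inv_mem' := by
        rintro _ ⟨g, hg, h1, rfl⟩
        exact ⟨g⁻¹, inv_mem hg, fun p hp => by rw [map_inv, h1 p hp, inv_one],
          rho_inv ok.toOk hg⟩ }
  have hQ : ∀ x, IsHg (-n) r (e x) := fun x => hR.mem _ (he.1 trivial)
  have hQ' : ∀ x, IsHg (-(n * (1 : ℕ) ^ 2)) (r * (1 : ℕ)) (e x) := fun x => by simpa using hQ x
  have key : ∀ g ∈ GK n, ∀ p ∈ n.primeFactors,
      hil n p (e (rho n 1 g)).2.2 = chi (pst p) g * hil n p (e 1).2.2 := fun g hg p hp => by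
    have h1 := Nat.prime_of_mem_primeFactors hp
    have h2 := Nat.dvd_of_mem_primeFactors hp
    rw [← Gal.gp_eq_hil hn.sqf hp (hQ _).disc (hQ _).pos,
      ← Gal.gp_eq_hil hn.sqf hp (hQ _).disc (hQ _).pos]
    exact gp_gal ok hg h1 (cml_30 hn h1 h2) (h2.mul_right _) (hQ' 1) (hQ' _) (hy 1)
      (by rw [mul_one, hy])
  have hε := Gal.sgn_hil hn (hQ 1).disc (hQ 1).pos
  have hb : Set.BijOn e H (gen n R fun p => hil n p (e 1).2.2) := by
    refine ⟨?_, he.injOn.mono (Set.subset_univ _), fun Q h => ?_⟩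
    · rintro _ ⟨g, hg, h1, rfl⟩
      exact Finset.mem_filter.2 ⟨he.1 trivial, fun p hp => by
        rw [key g hg p hp, h1 p hp, Units.val_one, one_mul]⟩
    · obtain ⟨h1, h2⟩ := Finset.mem_filter.1 h
      obtain ⟨y, -, rfl⟩ := he.2.2 h1
      obtain ⟨g, hg, rfl⟩ := rho_surj ok.toOk y
      refine ⟨_, ⟨g, hg, fun p hp => ?_, rfl⟩, rfl⟩
      have h3 := (key g hg p hp).symm.trans (h2 p hp)
      have h4 := hε.1 p hp
      refine (Int.units_eq_one_or _).resolve_right fun h5 => ?_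
      rw [h5, Units.val_neg, Units.val_one] at h3
      beta_reduce at h3 h4
      omega
  have hc : Odd (Nat.card H) := by
    have := Gal.odd_card_gen hn hB ok.root hR hε
    rw [← Nat.card_eq_finsetCard] at this
    exact (Nat.card_congr (hb.equiv e)).symm ▸ this
  have h2 : rho n 1 g ∈ H := ⟨g, hg, h, rfl⟩
  rw [tq_eq_one]
  exact ⟨_, hc, congrArg Subtype.val (pow_card_eq_one' (x := (⟨_, h2⟩ : H)))⟩

variable [∀ c, Fintype (Pc n c)]

/-- The trace to the two-primary part. -/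
noncomputable def tr {M : Type} [AddCommMonoid M] (u : Pc n c → M) (a : Tw (Pc n c)) : M :=
  ∑ x with tq _ x = a, u x

theorem map_tr {M M' : Type} [AddCommMonoid M] [AddCommMonoid M'] (T : M →+ M') (u : Pc n c → M)
    (a : Tw (Pc n c)) : T (tr u a) = tr (fun x => T (u x)) a := map_sum T _ _

theorem tr_mul {M : Type} [AddCommMonoid M] (u : Pc n c → M) (g : Gam) (a : Tw (Pc n c)) :
    tr (fun x => u (rho n c g * x)) a = tr u (psi n c g * a) := sum_tq_mul u _ a

theorem smul_tr (g : Gam) (u : Pc n c → EE) (a : Tw (Pc n c)) :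
    g • tr u a = tr (fun x => g • u x) a := Finset.smul_sum

theorem tw_tr (f : ℤ) (g : Gam) (u : Pc n c → EE) (a : Tw (Pc n c)) :
    tw f g (tr u a) = tr (fun x => tw f g (u x)) a := by
  simp only [tw, tr, Finset.smul_sum]

/-- Systems of points indexed by the full ring class groups. -/
structure Raw (n : ℕ) [∀ c, Fintype (Pc n c)] (f : ℤ) where
  u : ∀ c, Pc n c → EE
  gal : ∀ c, Adm n c → ∀ g ∈ GK n, ∀ x, tw f g (u c x) = u c (rho n c g * x)
  trace : ∀ c l, l.Prime → Adm n (c * l) → ∀ x, fs c (c * l) (u (c * l)) x = a15 l • u c x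
  kron : ∀ c (w : Plc) (φ : Gam), Adm n (c * w.p) → IsFrob w w.p φ → ∀ x,
    u (c * w.p) x - φ • u c (pj n c (c * w.p) x) ∈ K1 w

theorem Raw.gal_tr (U : Raw n f) (c : ℕ) (h : Adm n c) (g : Gam) (hg : g ∈ GK n)
    (a : Tw (Pc n c)) : tw f g (tr (U.u c) a) = tr (U.u c) (psi n c g * a) := by
  rw [tw_tr]
  simp only [U.gal c h g hg]
  exact tr_mul _ g a

theorem Raw.kron_tr (U : Raw n f) (hn : Nok n) {w : Plc} {φ : Gam} (ha : Adm n (c * w.p))
    (hφ : IsFrob w w.p φ) (a : Tw (Pc n (c * w.p))) : tr (U.u (c * w.p)) a -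
      ordCompl[2] (w.p + 1) • φ • tr (U.u c) (twm (pj n c (c * w.p)) a) ∈ K1 w := by
  obtain ⟨h2, hJ, hc⟩ := cmz_mul ha w.prime
  have ok := cmz_ok hn (cmz_dvd ha (dvd_mul_right c w.p))
  have h := sum_fib (pj_surj ok w.prime h2 hJ hc) (fun z => φ • U.u c z) a
  rw [card_ker_pj ok w.prime h2 hJ hc] at h
  rw [tr, tr, Finset.smul_sum, ← h, ← Finset.sum_sub_distrib]
  exact sum_mem fun x _ => U.kron c w φ ha hφ x

variable [∀ c, Fintype (Tw (Pc n c))]

theorem Raw.trace_tr (U : Raw n f) (hl : l.Prime) (h : Adm n (c * l)) (a : Tw (Pc n c)) :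
    ∑ a' with twm (pj n c (c * l)) a' = a, tr (U.u (c * l)) a' = a15 l • tr (U.u c) a := by
  rw [tr, Finset.smul_sum, ← Finset.sum_congr rfl fun z _ => U.trace c l hl h z]
  exact sum_tq_twm (U.u (c * l)) a

/-- The system of Heegner points. -/
noncomputable def hsOf (F : CFT) (hk : KronStmt) (hn : Nok n) (hr : 60 ∣ r ^ 2 + n) : HS n where
  C c := Tw (Pc n c)
  pr c c' := twm (pj n c c')
  ψ := psi n
  y c := yT n c r
  ν l s := (exists_nu_psi F hn hr l s).choose
  gen e := (exists_gen_psi hn hr e).choose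
  two c := haveI := cmz_fin hn c; tw_two
  sm c _ := (sm_rho _ n c).comp (tq _)
  mul _ h := psi_mul (cmz_ok hn h)
  surj _ h := psi_surj (cmz_ok hn h)
  pr_ψ _ _ h k g _ := pr_psi (cmz_ok hn h) k g
  dih _ h _ hg := by rw [psi, rho_sq (cmz_ok hn h) hg, map_one]
  unr _ _ h k _ hg := psi_unr F hn h k hg
  gal _ h _ hg := smul_yT (cmz_okR hn hr h) hg
  conj _ h := cc_yT (cmz_okR hn hr h)
  trace _ _ hl h a := (Finset.sum_congr (Finset.filter_congr_decidable _ _ _) fun _ _ => rfl).trans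
    (trace_yT hn hr hl h a)
  kron _ _ _ h hg := kron_yT hk hn hr h hg
  ν_gen w s τ h k hτ := ((exists_nu_psi F hn hr _ s).choose_spec w.prime h k).2 w τ rfl hτ
  ν_ram l s _ hl h k hw _ hg := ((exists_nu_psi F hn hr l s).choose_spec hl h k).1 _
    (tq_rho_ram_sq (cmz_ok hn h) hn.good.sqf hw hg)
  ν_fib c l s hl h k a x :=
    (congrArg (fun t : Finset _ => t.card * 2 ^ s) (Finset.filter_congr_decidable _ _ _)).trans
      (nu_fib F hn hl h _ ((exists_nu_psi F hn hr l s).choose_spec hl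
        (cmz_dvd h (dvd_mul_left l c)) k).2 a x)
  gen_ψ e := (exists_gen_psi hn hr e).choose_spec

variable (F : CFT) (hk : KronStmt) (hn : Nok n) (hr : 60 ∣ r ^ 2 + n)

theorem hsOf_link : (hsOf F hk hn hr).Link r := fun _ e hT he h4 =>
  link_yT hn hr hT he h4 _ ((exists_gen_psi hn hr e).choose_spec he h4)

theorem hsOf_sep : Sep (hsOf F hk hn hr) := fun a h => by
  obtain ⟨g, hg, rfl⟩ := psi_surj (cmz_ok hn cmz_one) a
  refine tq_sep (cmz_okR hn hr cmz_one) hn.good hn.condB hg fun p hp => ?_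
  have h1 := Int.natCast_dvd_natCast.2 (Nat.dvd_of_mem_primeFactors hp)
  have h2 : pst p ∣ n := by
    unfold pst
    split_ifs
    exacts [h1, h1.neg_left]
  have h3 : pst p % 4 = 1 := by
    have := hn.good.mod4
    have : ¬ (2 : ℤ) ∣ p := fun k => by have := k.trans h1; omega
    unfold pst
    split_ifs <;> omega
  rw [← (hsOf F hk hn hr).gen_ψ _ h2 h3 g hg]
  exact h _ h2 h3

/-- The Euler system of a raw system. -/
noncomputable def Raw.es (U : Raw n f) : ES (hsOf F hk hn hr) f where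
  y c := tr (U.u c)
  gal := U.gal_tr
  trace _ _ hl h a := (Finset.sum_congr (Finset.filter_congr_decidable _ _ _).symm
    fun _ _ => rfl).trans (U.trace_tr hl h a)
  kron _ _ _ := U.kron_tr hn

end Pool.Agent.Lib.MP_696deb_nt.B3.CM
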