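import Pool.Agent.Lib.MP_696deb_nt.B3.CMh

/-! The congruence between the twisted systems, and the action of complex conjugation. -/

set_option autoImplicit false

open scoped Classical NumberTheorySymbols

namespace Pool.Agent.Lib.MP_696deb_nt.B3.CM

open B2 B2.CM

variable {n c d e l : ℕ} {r δ m f : ℤ} {g φ : Gam}

/-- The Euler factor at three or five. -/
noncomputable def Tb (m : ℤ) (l : ℕ) (φ : Gam) : EE →+ EE :=
  if (l : ℤ) ∣ m then zsmulAddGroupHom (a15 l) - DistribSMul.toAddMonoidHom EE φ else .id _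

/-- The points that are fixed by the common kernel of all characters. -/
noncomputable def Fix (S : HS n) (l : ℕ) : AddSubgroup EE where
  carrier := {u | ∀ g ∈ GK n, S.ψ l g = 1 → (∀ x : ℤ, x ∣ 30 → chi x g = 1) → g • u = u}
  zero_mem' _ _ _ _ := smul_zero _
  add_mem' h h' g h1 h2 h3 := by rw [smul_add, h g h1 h2 h3, h' g h1 h2 h3]
  neg_mem' h g h1 h2 h3 := by rw [smul_neg, h g h1 h2 h3]

theorem smul_mem_fix {S : HS n} (hc : Adm n c) (hφ : φ ∈ GK n) {u : EE} (h : u ∈ Fix S c) :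
    φ • u ∈ Fix S c := fun g h1 h2 h3 => by
  have k := S.mul c hc
  have k1 : S.ψ c 1 = 1 := mul_left_cancel (a := S.ψ c 1) (by
    rw [← k 1 (one_mem _) 1 (one_mem _), mul_one, mul_one])
  rw [smul_smul, show g * φ = φ * (φ⁻¹ * (g * φ)) by group, mul_smul,
    h _ (mul_mem (inv_mem hφ) (mul_mem h1 hφ)) (by
      rw [k _ (inv_mem hφ) _ (mul_mem h1 hφ), k _ h1 _ hφ, h2, one_mul, ← k _ (inv_mem hφ) _ hφ,
        inv_mul_cancel, k1]) fun x hx => by
      rw [map_mul, map_mul, h3 x hx, one_mul, ← map_mul, inv_mul_cancel, map_one]]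

theorem cong_step {S : HS n} (hc : Adm n c) (hφ : φ ∈ GK n) (hl : l = 3 ∨ l = 5)
    (hf : (l : ℤ) ∣ f ↔ (l : ℤ) ∣ m) {V : S.C c → EE} (hV : ∀ a, V a ∈ Fix S c) {ε : ℤˣ}
    (h : ∀ a, φ • V a = (ε : ℤ) • V (S.ψ c φ * a)) {u : EE} (hu : u ∈ Fix S c) (a : S.C c) :
    ∃ v ∈ Fix S c, Tb m l φ (V a + 2 • u) = shf S f c l φ V a + 2 • v := by
  rw [Tb, shf]
  by_cases k : (l : ℤ) ∣ m
  · rw [if_pos k, if_pos (hf.2 k)]
    refine ⟨(if l = 3 then -1 else 0 : ℤ) • V a - ind ε • V (S.ψ c φ * a) + (a15 l • u - φ • u),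
      add_mem (sub_mem (zsmul_mem (hV _) _) (zsmul_mem (hV _) _))
        (sub_mem (zsmul_mem hu _) (smul_mem_fix hc hφ hu)), ?_⟩
    have k1 : (ε : ℤ) = 2 * ind ε - 1 := by rw [two_ind]; ring
    simp only [AddMonoidHom.sub_apply, zsmulAddGroupHom_apply, DistribSMul.toAddMonoidHom_apply,
      smul_add, h, smul_comm φ 2]
    rw [k1]
    generalize φ • u = w
    rcases hl with rfl | rfl
    · rw [a15_three, if_pos rfl]
      module
    · rw [a15_five, if_neg (by decide)]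
      module
  · rw [if_neg k, if_neg (mt hf.1 k)]
    exact ⟨u, hu, rfl⟩

theorem ES.mem_fix {S : HS n} (Z : ES S δ) (h : δ ∣ 30) (hc : Adm n c) (a : S.C c) :
    Z.y c a ∈ Fix S c := fun g h1 h2 h3 => by
  have := Z.gal c hc g h1 a
  rwa [tw, h3 δ h, h2, one_mul, Units.val_one, one_smul] at this

theorem ES.smul_y {S : HS n} (Z : ES S δ) (hc : Adm n c) (hφ : φ ∈ GK n) (a : S.C c) :
    φ • Z.y c a = (chi δ φ : ℤ) • Z.y c (S.ψ c φ * a) := by
  rw [← Z.gal c hc φ hφ, tw, smul_smul (chi δ φ : ℤ), ← Units.val_mul, Int.units_mul_self,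
    Units.val_one, one_smul]

theorem cong_two {S : HS n} (Z : ES S δ) (hs : Spt δ m) (hc : Adm n c) {φ₃ φ₅ : Gam}
    (h3 : φ₃ ∈ GK n) (h5 : φ₅ ∈ GK n) (a : S.C c) : ∃ v ∈ Fix S c, Tb m 3 φ₃ (Tb m 5 φ₅ (Z.y c a)) =
      shf S (δ * m) c 3 φ₃ (shf S (δ * m) c 5 φ₅ (Z.y c)) a + 2 • v := by
  have k0 := ES.mem_fix Z (hs.d2.trans (by norm_num)) hc
  have k : ∀ l : ℕ, l = 3 ∨ l = 5 → ((l : ℤ) ∣ δ * m ↔ (l : ℤ) ∣ m) := fun l hl => by
    rcases dvd_two hs.d2 with rfl | rfl | rfl | rfl <;> rcases hl with rfl | rfl <;> omega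
  obtain ⟨u, hu, e⟩ := cong_step hc h5 (.inr rfl) (k 5 (.inr rfl)) k0 (ES.smul_y Z hc h5)
    (zero_mem _) a
  rw [smul_zero, add_zero] at e
  rw [e]
  refine cong_step hc h3 (.inl rfl) (k 3 (.inl rfl)) (ε := chi δ φ₃) (fun a => ?_) (fun a => ?_) hu a
  · unfold shf
    split_ifs
    exacts [add_mem (k0 _) (k0 _), k0 _]
  · unfold shf
    split_ifs
    · rw [smul_add, smul_add, ES.smul_y Z hc h3, ES.smul_y Z hc h3, mul_left_comm]
    · exact ES.smul_y Z hc h3 a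

theorem natAbs_eq (h : m ∣ 15) :
    m.natAbs = (if ((5 : ℕ) : ℤ) ∣ m then 5 else 1) * if ((3 : ℕ) : ℤ) ∣ m then 3 else 1 := by
  have h1 : m.natAbs ∈ Nat.divisors 15 := Nat.mem_divisors.2 ⟨Int.natAbs_dvd_natAbs.2 h, by decide⟩
  rw [show Nat.divisors 15 = {1, 3, 5, 15} by decide] at h1
  simp only [Finset.mem_insert, Finset.mem_singleton] at h1
  split_ifs <;> omega

variable [∀ c, Fintype (Pc n c)]

theorem OkS.bad_step (ok : OkS n d r) (hl : l.Prime) (h15 : l ∣ 15) (hd : ¬ l ∣ d) (hφ : φ ∈ GK n)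
    (hρ : rho n d φ = cl _ (idl n d l (r * d))) (he : e = d * if (l : ℤ) ∣ m then l else 1)
    (z : Pc n d) : fs d e (yQ n e r) z = Tb m l φ (yQ n d r z) := by
  rw [Tb]
  split_ifs at he ⊢
  · rw [ok.trace_bad hl he h15 hd, ← hρ, ← ok.smul_yQ hφ]
    rfl
  · rw [mul_one] at he
    subst he
    exact fs_self _ z

theorem OkS.bad_rel (ok : OkS n c r) (hm : m ∣ 15) : ∃ φ₃ ∈ GK n, ∃ φ₅ ∈ GK n,
    (∃ w : Plc, w.p = 3 ∧ IsFrob w 3 φ₃) ∧ (∃ w : Plc, w.p = 5 ∧ IsFrob w 5 φ₅) ∧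
    ∀ d e, d ≠ 0 → ¬ 3 ∣ d → ¬ 5 ∣ d → e = d * m.natAbs → ∀ z,
      fs d e (yQ n e r) z = ((Tb m 3 φ₃).comp (Tb m 5 φ₅)) (yQ n d r z) := by
  obtain ⟨φ₃, a1, a2, a3⟩ := ok.exists_frob Nat.prime_three (by decide)
  obtain ⟨φ₅, b1, b2, b3⟩ := ok.exists_frob Nat.prime_five (by decide)
  refine ⟨φ₃, a1, φ₅, b1, a2, b2, fun d e d0 d3 d5 he z => ?_⟩
  rw [natAbs_eq hm, ← mul_assoc] at he
  have k0 : (d * if ((5 : ℕ) : ℤ) ∣ m then 5 else 1) ≠ 0 := by split_ifs <;> omega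
  have k3 : ¬ 3 ∣ d * if ((5 : ℕ) : ℤ) ∣ m then 5 else 1 := by split_ifs <;> omega
  rw [← fs_fs (dvd_mul_right d _) (he ▸ dvd_mul_right _ _), fs_congr fun x _ =>
    (ok.of_ne k0).bad_step Nat.prime_three (by decide) k3 a1 (a3 _ k0 k3) he x, ← map_fs,
    (ok.of_ne d0).bad_step Nat.prime_five (by decide) d5 b1 (b3 _ d0 d5) rfl]
  rfl

theorem spt_one (h : δ ∣ 2) : Spt δ 1 := ⟨h, one_dvd _, rfl⟩

theorem uY_one (ok : Ok n c) (h : δ ∣ 2) (hd : d = c * m2 δ) (x : Pc n c) : uY r δ 1 c x =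
    wt r (fun a _ => ind a) δ 1 c d x + ka δ • yQ n c r x := by
  have k : ∀ d, d ≠ 0 → ∀ z, th n d 1 z = 1 := fun d hd => th_one ⟨ok.m4, ok.gt, hd⟩
  have n3 := (Spt.ne (spt_one h)).2.2.1
  replace hd : d = c * (m2 δ * Int.natAbs 1) := by simp [hd]
  subst hd
  rw [← wt_self (E := 1) (E' := 1) (d := c * Int.natAbs 1) (mul_one c) x, uY]
  congr 1
  · exact fs_congr fun z _ => by
      simp only [k (c * (m2 δ * Int.natAbs 1)) (by simp [ok.ne, n3]) z, Units.val_one, mul_one]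
  · exact congrArg _ (fs_congr fun z _ => by
      simp only [k (c * Int.natAbs 1) (by simp [ok.ne]) z, Units.val_one])

/-- The part of the twisted point that is divisible by two. -/
noncomputable def vY (r δ m : ℤ) (c : ℕ) (x : Pc n c) : EE :=
  wt r (fun a b => ind a * ind (-b)) δ m c (c * (m2 δ * m.natAbs)) x +
    ka δ • wt r (fun _ b => ind (-b)) 1 m c (c * m.natAbs) x

theorem smul_vY (ok : OkS n c r) (hs : Spt δ m) (hg : g ∈ GK n) (h1 : chi δ g = 1)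
    (h2 : chi m g = 1) (x : Pc n c) : g • vY r δ m c x = vY r δ m c (rho n c g * x) := by
  obtain ⟨n1, n2, n3, n4⟩ := Spt.ne hs
  have ok1 := ok.of_ne (mul_ne_zero ok.ne n4)
  have ok2 := ok.of_ne (mul_ne_zero ok.ne (mul_ne_zero n3 n4))
  rw [vY, vY, smul_add, smul_comm g, smul_wt ok2 (dvd_mul_right _ _)
      (gd_two ok2.toOk hs.d2 ((dvd_mul_right _ _).mul_left _))
      (gd_odd ok2.toOk hs.m4 ((dvd_mul_left _ _).mul_left _)) hg,
    smul_wt ok1 (dvd_mul_right _ _) (gd_one n _) (gd_odd ok1.toOk hs.m4 (dvd_mul_left _ _)) hg]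
  simp only [h1, h2, one_mul]

theorem uY_cong (ok : OkS n c r) (hs : Spt δ m) (h3 : ¬ 3 ∣ c) (h5 : ¬ 5 ∣ c) (T : EE →+ EE)
    (hT : ∀ d e, d ≠ 0 → ¬ 3 ∣ d → ¬ 5 ∣ d → e = d * m.natAbs → ∀ z,
      fs d e (yQ n e r) z = T (yQ n d r z)) (x : Pc n c) :
    uY r δ m c x = T (uY r δ 1 c x) - 2 • vY r δ m c x := by
  obtain ⟨n1, n2, n3, n4⟩ := Spt.ne hs
  have ok1 := ok.of_ne (mul_ne_zero ok.ne n4)
  have ok2 := ok.of_ne (mul_ne_zero ok.ne (mul_ne_zero n3 n4))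
  have ok3 := ok.of_ne (mul_ne_zero ok.ne n3)
  have k0 := m2_dvd hs.d2
  have k1 := wt_down (r := r) (W := fun a _ => ind a) ok2.toOk (dvd_mul_right c (m2 δ))
    (mul_dvd_mul_left c (dvd_mul_right _ _)) (gd_two ok3.toOk hs.d2 (dvd_mul_left _ _))
    (gd_one n _) T (hT _ _ ok3.ne
      (fun k => (Nat.prime_three.dvd_mul.1 k).elim h3 fun k => absurd (k.trans k0) (by decide))
      (fun k => (Nat.prime_five.dvd_mul.1 k).elim h5 fun k => absurd (k.trans k0) (by decide))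
      (mul_assoc _ _ _).symm) x
  have k2 := wt_down (r := r) (W := fun _ _ => 1) ok1.toOk dvd_rfl (dvd_mul_right _ _) (gd_one n _)
    (gd_one n _) T (hT _ _ ok.ne h3 h5 rfl) x
  have k3 : ∀ b : ℤˣ, (b : ℤ) = 1 + -2 * ind (-b) := fun b => by
    rw [neg_mul, two_ind, Units.val_neg]
    ring
  rw [wt_self rfl] at k2
  have k4 : wt r (fun a b => ind a * b) δ m c (c * (m2 δ * m.natAbs)) x =
      wt r (fun a _ => ind a) δ 1 c (c * (m2 δ * m.natAbs)) x +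
        (-2 : ℤ) • wt r (fun a b => ind a * ind (-b)) δ m c (c * (m2 δ * m.natAbs)) x := by
    rw [← wt_smul]
    refine Eq.trans (congrArg (wt r · δ m c _ x) ?_) (wt_add (E' := m) (fun a _ => ind a) _ x)
    ext a b
    rw [k3 b, ← k3 b]
    linear_combination ind a * k3 b
  have k5 : wt r (fun _ b => b) 1 m c (c * m.natAbs) x =
      wt r (fun _ _ => 1) 1 1 c (c * m.natAbs) x +
        (-2 : ℤ) • wt r (fun _ b => ind (-b)) 1 m c (c * m.natAbs) x := by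
    rw [← wt_smul]
    refine Eq.trans (congrArg (wt r · 1 m c _ x) ?_) (wt_add (E' := m) (fun _ _ => 1) _ x)
    ext a b
    exact k3 b
  rw [uY_one ok.toOk hs.d2 rfl, uY, vY, k4, k5, k1, k2, map_add, map_zsmul]
  module

variable [∀ c, Fintype (Tw (Pc n c))] (F : CFT) (hk : KronStmt) (hn : Nok n) (hr : 60 ∣ r ^ 2 + n)

/-- The Euler system of the twist by `δ m`. -/
noncomputable def esY (hs : Spt δ m) : ES (hsOf F hk hn hr) (δ * m) := (rawY hk hn hr hs).es F hk hn hr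

/-- The Euler system of the twist by `δ`. -/
noncomputable def esZ (h : δ ∣ 2) : ES (hsOf F hk hn hr) δ where
  y := (esY F hk hn hr (spt_one h)).y
  gal := by simpa only [mul_one] using (esY F hk hn hr (spt_one h)).gal
  trace := (esY F hk hn hr (spt_one h)).trace
  kron := (esY F hk hn hr (spt_one h)).kron

theorem esY_cong (hs : Spt δ m) : (esY F hk hn hr hs).Cong (esZ F hk hn hr hs.d2) := by
  obtain ⟨φ₃, a1, φ₅, b1, a2, b2, h⟩ := (okS_of hn hr one_ne_zero).bad_rel hs.d15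
  refine ⟨φ₃, φ₅, a2, b2, fun c hc a => ?_⟩
  have ok := okS_of hn hr hc.1.ne_zero
  obtain ⟨v, hv, e⟩ := cong_two (esZ F hk hn hr hs.d2) hs hc a1 b1 a
  have k : tr (vY r δ m c) a ∈ Fix (hsOf F hk hn hr) c := fun g h1 h2 h3 => by
    refine (smul_tr g _ a).trans ?_
    simp only [smul_vY ok hs h1 (h3 _ (hs.d2.trans (by norm_num)))
      (h3 _ (hs.d15.trans (by norm_num)))]
    exact (tr_mul _ g a).trans (congrArg _ ((congrArg (· * a) h2).trans (one_mul a)))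
  refine ⟨v - tr (vY r δ m c) a, sub_mem hv k, ?_⟩
  rw [smul_sub, ← add_sub_assoc, ← e]
  change tr (uY r δ m c) a = ((Tb m 3 φ₃).comp (Tb m 5 φ₅)) (tr (uY r δ 1 c) a) - _
  revert a
  intro (a : Tw (Pc n c)) _ _
  rw [map_tr, tr, tr, tr, Finset.smul_sum, ← Finset.sum_sub_distrib]
  exact Finset.sum_congr rfl fun x _ => uY_cong ok hs (adm_not hc Nat.prime_three (by norm_num))
    (adm_not hc Nat.prime_five (by norm_num)) _ h x

theorem esZ_one (h : (1 : ℤ) ∣ 2) : (esZ F hk hn hr h).y = (hsOf F hk hn hr).y := by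
  funext c a
  refine Finset.sum_congr rfl fun x _ => ?_
  change uY r 1 1 c x = _
  rcases eq_or_ne c 0 with rfl | hc
  · simp only [uY, wt, ka, if_pos, zero_smul, add_zero]
    have := subsingleton_Pc_zero n
    refine (fs_self _ x).trans ?_
    have k : th n (0 * (m2 1 * Int.natAbs 1)) 1 x = 1 := by
      rw [Subsingleton.elim x 1]
      exact map_one _
    simp only [k, ind, if_pos, Units.val_one, mul_one]
    exact one_smul _ _
  · have ok := (okS_of hn hr hc).toOk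
    rw [uY_one ok h rfl, ← wt_self (E := 1) (E' := 1) (mul_one c) x]
    have k : ∀ z, th n (c * m2 1) 1 z = 1 := th_one ⟨ok.m4, ok.gt, mul_ne_zero hc one_ne_zero⟩
    simp only [wt, ka, if_pos, zero_smul, add_zero, k]
    rfl

end Pool.Agent.Lib.MP_696deb_nt.B3.CM
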