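import Pool.Agent.Lib.MP_696deb_nt.B2.LOK0
import Pool.Agent.Lib.MP_696deb_nt.B3.E1

/-! The twisted Kummer condition with coefficients in an arbitrary finite group. -/

set_option autoImplicit false

open scoped NNReal Classical

namespace Pool.Agent.Lib.MP_696deb_nt.B3

open B2

/-- Cochains that are coboundaries in the group of all points. -/
def KumP (T : Tate) (m : ℕ) (D : Subgroup Gam) (x : Gam → Fin 2 → ZMod (2 ^ m)) : Prop :=
  ∃ S : EE, ∀ g ∈ D, T.emb m (x g) = tw T.f g S - S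

/-- The twisted Kummer condition with coefficients in `B`. -/
def KumC (T : Tate) (D : Subgroup Gam) {B : Type} [AddCommGroup B] (c : Gam → Fin 2 → B) : Prop :=
  ∀ (m : ℕ) (f : B →+ ZMod (2 ^ m)), KumP T m D fun g i => f (c g i)

theorem tw_add (d : ℤ) (g : Gam) (P Q : EE) : tw d g (P + Q) = tw d g P + tw d g Q := by
  simp only [tw, smul_add]

theorem tw_neg (d : ℤ) (g : Gam) (P : EE) : tw d g (-P) = -tw d g P := by
  simp only [tw, smul_neg]

theorem tw_zero (d : ℤ) (g : Gam) : tw d g 0 = 0 := by simp only [tw, smul_zero]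

variable {T : Tate} {D : Subgroup Gam} {m : ℕ}

theorem KumP.zero : KumP T m D 0 := ⟨0, fun g _ => by simp [tw_zero]⟩

theorem KumP.add {x y : Gam → Fin 2 → ZMod (2 ^ m)} (h : KumP T m D x) (k : KumP T m D y) :
    KumP T m D (x + y) := by
  obtain ⟨S, h⟩ := h
  obtain ⟨S', k⟩ := k
  refine ⟨S + S', fun g hg => ?_⟩
  rw [Pi.add_apply, map_add, h g hg, k g hg, tw_add]
  abel

theorem KumP.neg {x : Gam → Fin 2 → ZMod (2 ^ m)} (h : KumP T m D x) : KumP T m D (-x) := by
  obtain ⟨S, h⟩ := h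
  refine ⟨-S, fun g hg => ?_⟩
  rw [Pi.neg_apply, map_neg, h g hg, tw_neg]
  abel

theorem KumP.congr {x y : Gam → Fin 2 → ZMod (2 ^ m)} (h : KumP T m D x)
    (k : ∀ g ∈ D, y g = x g) : KumP T m D y :=
  h.imp fun _ h g hg => (k g hg).symm ▸ h g hg

variable {B : Type} [AddCommGroup B]

theorem KumC.zero : KumC T D (0 : Gam → Fin 2 → B) := fun _ f =>
  KumP.zero.congr fun _ _ => funext fun _ => map_zero f

theorem KumC.add {c c' : Gam → Fin 2 → B} (h : KumC T D c) (k : KumC T D c') :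
    KumC T D (c + c') := fun m f =>
  ((h m f).add (k m f)).congr fun _ _ => funext fun _ => map_add f _ _

theorem KumC.neg {c : Gam → Fin 2 → B} (h : KumC T D c) : KumC T D (-c) := fun m f =>
  (h m f).neg.congr fun _ _ => funext fun _ => map_neg f _

theorem KumC.congr {c c' : Gam → Fin 2 → B} (h : KumC T D c) (k : ∀ g ∈ D, c' g = c g) :
    KumC T D c' := fun m f => (h m f).congr fun g hg => by rw [k g hg]

theorem KumC.map {B' : Type} [AddCommGroup B'] {c : Gam → Fin 2 → B} (h : KumC T D c)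
    (φ : B →+ B') : KumC T D fun g i => φ (c g i) := fun m f => h m (f.comp φ)

/-- The local condition at two. -/
def LK (T : Tate) (D : Subgroup Gam) (B : Type) [AddCommGroup B] :
    AddSubgroup (Gam → Fin 2 → B) where
  carrier := {c | KumC T D c ∧ ∀ g ∉ D, c g = 0}
  zero_mem' := ⟨KumC.zero, fun _ _ => rfl⟩
  add_mem' h k := ⟨h.1.add k.1, fun g hg => by rw [Pi.add_apply, h.2 g hg, k.2 g hg, add_zero]⟩
  neg_mem' h := ⟨h.1.neg, fun g hg => by rw [Pi.neg_apply, h.2 g hg, neg_zero]⟩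

theorem mem_LK {c : Gam → Fin 2 → B} : c ∈ LK T D B ↔ KumC T D c ∧ ∀ g ∉ D, c g = 0 := Iff.rfl

/-- On `D` the action `a` is the one of the twisted Tate module. -/
def TAct (T : Tate) (D : Subgroup Gam) (a : Gam → (Fin 2 → B) →+ Fin 2 → B) : Prop :=
  ∀ (m : ℕ) (f : B →+ ZMod (2 ^ m)), ∀ g ∈ D, ∀ x,
    (fun i => f (a g x i)) = (chi T.f g : ℤ) • (mred m (T.ρ g)).mulVec fun i => f (x i)

end Pool.Agent.Lib.MP_696deb_nt.B3
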