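import Pool.Agent.Lib.MP_696deb_nt.B2.D2b
import Pool.Agent.Lib.MP_696deb_nt.B3.LOK0

/-! Selmer structures for the twisted Tate module. -/

set_option autoImplicit false

open scoped NNReal Classical
open Finset Matrix NumberTheorySymbols PowerSeries

namespace Pool.Agent.Lib.MP_696deb_nt.B3

open B2

/-- The twist is ramified at three or five. -/
def Tate.Rm (T : Tate) (v : Fin 2) : Prop := (![3, 5] : Fin 2 → ℤ) v ∣ T.f

/-- The projection to the unramified quotient, or zero if the twist is ramified. -/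
noncomputable def nlf (T : Tate) (v : Fin 2) (b : Bool) : Fin 2 → Lam :=
  if T.Rm v then 0 else B2.nlf T v b

/-- The singular part of a cochain above three or five. -/
noncomputable def nu (T : Tate) {B : Type} [AddCommGroup B] [Module Lam B] (v : Fin 2) (b : Bool)
    (c : Gam → Fin 2 → B) : B := ∑ i, nlf T v b i • c (nsg v b) i

/-- The Euler factors above three and five. -/
noncomputable def QQ (T : Tate) (ψ : Gam → Lam) (v : Fin 2) (b : Bool) : Lam :=
  if T.Rm v then 1 else B2.QQ ψ v b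

/-- The product of the Euler factors. -/
noncomputable def QP (T : Tate) (ψ : Gam → Lam) : Lam :=
  QQ T ψ 0 true * QQ T ψ 0 false * (QQ T ψ 1 true * QQ T ψ 1 false)

/-- Characters of level `k` that are dihedral and ramify outside `lam` like the character of `f`. -/
structure Chr0 (f : ℤ) (n k : ℕ) (lam : Plc) (ψ : Gam → Lam) : Prop where
  sm : Sm (GK n) ψ
  one : ψ 1 - 1 ∈ aa k k
  mul : ∀ g ∈ GK n, ∀ h ∈ GK n, ψ (g * h) - ψ g * ψ h ∈ aa k k
  res : ∀ g, ψ g - 1 ∈ aa 1 1
  dih : ∀ g ∉ GK n, ψ (g * g) - 1 ∈ aa k k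
  unr : ∀ w : Plc, w.p ≠ lam.p → ∀ σ ∈ GK n ⊓ Ine w, ψ σ - ((chi f σ : ℤ) : Lam) ∈ aa k k
  dec : ∀ w : Plc, w.p = 2 → ∀ g ∈ GK n ⊓ Dec w, ψ g - ((chi f g : ℤ) : Lam) ∈ aa k k

/-- The same, with a generator of the tower. -/
structure Chr (f : ℤ) (n k : ℕ) (lam : Plc) (ψ : Gam → Lam) : Prop extends Chr0 f n k lam ψ where
  gen : ∃ z, Gen lam z ∧ ψ z - (1 + X) ∈ aa k k

section

variable (B : Type) [AddCommGroup B] [Module Lam B]

/-- The local conditions. -/
noncomputable def Lc (T : Tate) (n : ℕ) (ψ : Gam → Lam) (ty : Plc → Ty) (w : Plc) :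
    AddSubgroup (Gam → Fin 2 → B) :=
  if w = w2 then LK T (GK n ⊓ Dec w) B
  else Ldp (GK n ⊓ Dec w) (act T ψ B) (fq w) (gn w) ((ty w).cond B).toAddSubgroup

end

section

variable (T : Tate) (n : ℕ) (lam : Plc) (ψ : Gam → Lam)

/-- The Selmer group of a structure. -/
noncomputable def SelB (s : Str) (B : Type) [AddCommGroup B] [Module Lam B] : AddSubgroup (Co B) :=
  Sel (GK n) (act T ψ B) (univ.image (sp lam) ∪ insert w2 s.Q) (s.R.image (sp lam))
    (insert w2 s.Q) (Lc B T n ψ s.ty)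

theorem SelB_smul {s : Str} {B : Type} [AddCommGroup B] [Module Lam B] {z : Co B}
    (h : z ∈ SelB T n lam ψ s B) (a : Lam) : a • z ∈ SelB T n lam ψ s B := by
  obtain ⟨h1, h2, h3, h4, h5⟩ := h
  refine ⟨Z1_smul T ψ h1 a, fun w hw σ hσ => by simp [h2 w hw σ hσ], fun w hw g hg => ?_,
    fun w hw => by simp [h4 w hw], fun w hw => ?_⟩
  · simp only [Prod.smul_fst, Prod.smul_snd, Pi.smul_apply, h3 w hw g hg, cob, act_apply, map_smul,
      smul_sub]
  have e : rs (GK n ⊓ Dec w) (a • z).1 = a • rs (GK n ⊓ Dec w) z.1 := funext fun g => by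
    by_cases k : g ∈ GK n ⊓ Dec w
    · rw [rs_of_mem k, Pi.smul_apply, rs_of_mem k]
      rfl
    · rw [rs_of_notMem k, Pi.smul_apply, rs_of_notMem k, smul_zero]
  have k := h5 w hw
  rw [e]
  unfold Lc at k ⊢
  split_ifs at k ⊢
  · exact ⟨k.1.map (DistribSMul.toAddMonoidHom B a), fun g hg => by
      rw [Pi.smul_apply, k.2 g hg, smul_zero]⟩
  · exact ⟨Z1_smul T ψ k.1 a, Submodule.smul_mem _ a k.2⟩

/-- The cocycles of a structure whose rigid vectors vanish. -/
noncomputable def SR0 (s : Str) (B : Type) [AddCommGroup B] [Module Lam B] :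
    Submodule Lam (Gam → Fin 2 → B) where
  carrier := {c | (c, 0) ∈ SelB T n lam ψ s B}
  zero_mem' := (SelB T n lam ψ s B).zero_mem
  add_mem' h h' := by simpa using (SelB T n lam ψ s B).add_mem h h'
  smul_mem' a c h := by simpa using SelB_smul T n lam ψ h a

theorem mem_SR0 {s : Str} {B : Type} [AddCommGroup B] [Module Lam B] {c : Gam → Fin 2 → B} :
    c ∈ SR0 T n lam ψ s B ↔ (c, 0) ∈ SelB T n lam ψ s B := Iff.rfl

/-- The cocycles that vanish at the prime of the tower. -/
noncomputable def SM (Q : Finset Plc) (ty : Plc → Ty) (B : Type) [AddCommGroup B] [Module Lam B] :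
    Submodule Lam (Gam → Fin 2 → B) := SR0 T n lam ψ ⟨{4}, Q, ty⟩ B

/-- The cocycles without conditions above fifteen and at the prime of the tower. -/
noncomputable def SU (Q : Finset Plc) (ty : Plc → Ty) (B : Type) [AddCommGroup B] [Module Lam B] :
    Submodule Lam (Gam → Fin 2 → B) := SR0 T n lam ψ ⟨∅, Q, ty⟩ B

/-- The orientation conditions of the patching argument. -/
noncomputable def OriK (k : ℕ) (o : Fin 2 → Bool) : Submodule Lam (GK n → Fin 2 → Ak k) :=
  Ori k (fun v b => toK n (nsg v b)) (nlf T) o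

/-- The modules of the patching argument. -/
noncomputable def SS (k : ℕ) (Q : Finset Plc) (ty : Plc → Ty) :
    Submodule Lam (GK n → Fin 2 → Ak k) := (SM T n lam ψ Q ty (Ak k)).map (resK n _)

end

/-- The hypotheses under which Selmer groups are studied. -/
structure SOk (T : Tate) (n k : ℕ) (lam : Plc) (ψ : Gam → Lam) (Q : Finset Plc) : Prop where
  nok : Nok n
  adm : Adm n lam.p
  dvd : 2 ^ (2 * k + 4) ∣ lam.p + 1
  j5 : J(5 | lam.p) = -1
  chr : Chr T.f n k lam ψ
  deep : ∀ w ∈ Q, DpL n k T lam ψ w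
  inj : ∀ w ∈ Q, ∀ v ∈ Q, w.p = v.p → w = v

/-- The hypotheses on the places, which are stable under conjugation of the character. -/
structure SOk0 (T : Tate) (n k : ℕ) (lam : Plc) (ψ : Gam → Lam) (Q : Finset Plc) : Prop where
  nok : Nok n
  adm : Adm n lam.p
  chr : Chr0 T.f n k lam ψ
  deep : ∀ w ∈ Q, DpL n k T lam ψ w
  inj : ∀ w ∈ Q, ∀ v ∈ Q, w.p = v.p → w = v

section

variable {n : ℕ} (T : Tate) (S : HS n) (k : ℕ) (lam : Plc)

/-- The character of the branch `f e` on the Galois group. -/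
noncomputable def Tate.psi (e : ℤ) (g : Gam) : Lam := ((chi T.f g : ℤ) : Lam) * S.psi k lam e g

/-- On elements that act trivially the cochain `κ` is the Kummer class of the points `y`. -/
def KZ (y : S.C lam.p → EE) (e : ℤ) (κ : Gam → Fin 2 → Ak k) : Prop :=
  ∀ g ∈ S.N T k lam, ∀ (R : S.C lam.p → EE) (v : S.C lam.p → Fin 2 → ZMod (2 ^ k)),
    (∀ x, 2 ^ k • R x = y x) → (∀ x, T.emb k (v x) = g • R x - R x) → ∀ i,
      κ g i = ∑ x, (v x i).val • Ideal.Quotient.mk (aa k k) (S.Psi k lam e x)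

end

end Pool.Agent.Lib.MP_696deb_nt.B3
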