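import Pool.Agent.Lib.MP_696deb_nt.B3.GWs

/-! The two genus characters that belong to a factorization of the discriminant agree. -/

set_option autoImplicit false

open scoped Classical
open Finset NumberTheorySymbols

namespace Pool.Agent.Lib.MP_696deb_nt.B3

open B2

variable {e d d' δ m r : ℤ} {n : ℕ} {R : Fm}

theorem gch_full3 (hn : Good n) (hd : fdisc R = -(n * e ^ 2)) (h0 : e ≠ 0) (hR : 0 < R.1)
    (hp : ∀ p : ℕ, p.Prime → (p : ℤ) ∣ e →
      ¬ ((p : ℤ) ∣ R.1 ∧ (p : ℤ) ∣ R.2.1 ∧ (p : ℤ) ∣ R.2.2)) : gch n R = 1 := by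
  have n4 := hn.mod4
  have ho : Odd n := Nat.odd_iff.2 (by omega)
  have n0 : 0 < n := by omega
  obtain ⟨x, y, ⟨z, w, k⟩, hv⟩ := exists_val_coprime (m := 2 * (n * e.natAbs)) (R := R)
    (by positivity) fun p h1 hm ⟨h2, h3, h4⟩ => by
      have h6 := Nat.prime_iff_prime_int.1 h1
      by_cases h7 : (p : ℤ) ∣ e
      · exact hp p h1 h7 ⟨h2, h3, h4⟩
      have h5 : (p : ℤ) * p ∣ n * e ^ 2 := by
        rw [← dvd_neg, ← hd]
        exact dvd_sub (by rw [sq]; exact mul_dvd_mul h3 h3)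
          (by rw [mul_assoc]; exact (mul_dvd_mul h2 h4).mul_left _)
      have h8 : IsCoprime ((p : ℤ) * p) (e ^ 2) :=
        ((h6.coprime_iff_not_dvd.2 h7).mul_left (h6.coprime_iff_not_dvd.2 h7)).pow_right
      exact h1.not_isUnit (hn.sqf p (by exact_mod_cast h8.dvd_of_dvd_mul_right h5))
  have k' : x * z - -w * y = 1 := by linear_combination k
  have h3 := fdisc_fmap k' R
  have hD : fdisc R < 0 := by
    rw [hd, neg_lt_zero]
    positivity
  have h4 := fmap_pos k' hD hR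
  change ∀ p : ℕ, _ → _ → ¬ _ ∣ (fmap R x (-w) y z).1 at hv
  rw [← gch_fmap ho (hd ▸ (dvd_mul_right _ _).neg_right) k', gch, prod_congr rfl fun p hp =>
    if_neg (hv p (Nat.prime_of_mem_primeFactors hp)
      (((Nat.dvd_of_mem_primeFactors hp).mul_right _).mul_left 2)), ← jac_eq_prod _ hn.sqf]
  generalize fmap R x (-w) y z = P at *
  have h5 : Odd P.1.natAbs := by have := hv 2 Nat.prime_two (by simp); rw [Nat.odd_iff]; omega
  have key : ∀ u : ℤ, (∀ p : ℕ, p.Prime → (p : ℤ) ∣ u → (p : ℤ) ∣ P.1 → p ∣ n * e.natAbs) →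
      J(u ^ 2 | P.1.natAbs) = 1 := fun u hu =>
    jacobiSym.sq_one' (Nat.eq_one_iff_not_exists_prime_dvd.mpr fun p hp k => by
      replace k := Int.natCast_dvd_natCast.mpr k
      have k1 := (k.trans (Int.gcd_dvd_right _ _)).trans (Int.natAbs_dvd.mpr dvd_rfl)
      exact hv p hp ((hu p hp (k.trans (Int.gcd_dvd_left _ _)) k1).mul_left 2) k1)
  have h6 : J(fdisc R | P.1.natAbs) = 1 := by
    rw [← h3, jacobiSym.mod_left' (a₂ := P.2.1 ^ 2) (Int.modEq_iff_dvd.mpr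
      (Int.natAbs_dvd.mpr ⟨4 * P.2.2, by rw [fdisc]; ring⟩))]
    refine key _ fun p hp k1 k2 => ?_
    have k3 : (p : ℤ) ∣ n * e ^ 2 := by
      rw [← dvd_neg, ← hd, ← h3]
      exact dvd_sub (dvd_pow k1 two_ne_zero) ((k2.mul_left _).mul_right _)
    rcases (Nat.prime_iff_prime_int.1 hp).dvd_or_dvd k3 with k4 | k4
    exacts [(Int.natCast_dvd_natCast.1 k4).mul_right _,
      (Int.natCast_dvd.1 ((Nat.prime_iff_prime_int.1 hp).dvd_of_dvd_pow k4)).mul_left _]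
  rwa [hd, ← neg_mul, jacobiSym.mul_left, key e fun p _ k _ => (Int.natCast_dvd.1 k).mul_left _,
    mul_one, Tern.jacobi_neg_swap n4 h5, Int.natAbs_of_nonneg h4.le] at h6

theorem Spt.dsc (hs : Spt δ m) (he : e = if δ = 1 then m else 4 * δ * m) :
    e ≠ 0 ∧ e ∣ 120 ∧ (2 ∣ e → 4 ∣ e) ∧ δ * m ∣ e ∧ e.natAbs.gcd 15 = m.natAbs ∧
      e = if δ * m % 4 = 1 then δ * m else 4 * (δ * m) := by
  obtain ⟨h1, h2⟩ := hs.cases
  rcases h1 with rfl | rfl | rfl | rfl <;> rcases h2 with rfl | rfl | rfl | rfl <;> subst he <;>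
    decide

theorem gw_zero (hs : Spt δ m) (he : e = if δ = 1 then m else 4 * δ * m) (d : ℤ) {p : ℕ}
    (hp : p.Prime) (h : (p : ℤ) ∣ e) (h1 : (p : ℤ) ∣ R.1) (h3 : (p : ℤ) ∣ R.2.2) (h0 : d ≠ 0) :
    gw e d R = 0 := by
  obtain ⟨e0, e1, e2, -⟩ := hs.dsc he
  rcases eq_or_ne p 2 with rfl | h2
  · rw [gw, g2, if_pos (by exact_mod_cast h1), k2_even (e2 h) h3, zero_mul]
  have h4 : p ∣ 2 ^ 3 * 15 := Int.natCast_dvd_natCast.1 (h.trans e1)
  have h5 : p ∣ 15 := (hp.dvd_mul.1 h4).resolve_left fun k =>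
    h2 ((Nat.prime_dvd_prime_iff_eq hp Nat.prime_two).1 (hp.dvd_of_dvd_pow k))
  rw [gw, gch, prod_eq_zero (i := p) (Nat.mem_primeFactors.2 ⟨hp,
    (Nat.dvd_gcd (Int.natCast_dvd.1 h) h5).mul_right _, by positivity⟩), mul_zero]
  rw [if_pos h1, jac_zero_of_dvd hp h3]

theorem gw_swap (hs : Spt δ m) (he : e = if δ = 1 then m else 4 * δ * m) (hn : Good n)
    (hm : d * d' = -n) (hd : fdisc R = -(n * e ^ 2)) (hR : 0 < R.1) : gw e d R = gw e d' R := by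
  have e0 := (hs.dsc he).1
  have n4 := hn.mod4
  have k : d.natAbs * d'.natAbs = n := by rw [← Int.natAbs_mul, hm]; simp
  by_cases hp : ∀ p : ℕ, p.Prime → (p : ℤ) ∣ e →
    ¬ ((p : ℤ) ∣ R.1 ∧ (p : ℤ) ∣ R.2.1 ∧ (p : ℤ) ∣ R.2.2)
  swap
  · push Not at hp
    obtain ⟨p, h1, h2, h3, -, h4⟩ := hp
    rw [gw_zero hs he d h1 h2 h3 h4 (by rintro rfl; omega),
      gw_zero hs he d' h1 h2 h3 h4 (by rintro rfl; omega)]
  have h1 := gch_full3 hn hd e0 hR hp
  have h2 : (e.natAbs.gcd 15).Coprime n := hn.cop.symm.coprime_dvd_left (Nat.gcd_dvd_right _ _)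
  rw [← k, gch_mul (Nat.coprime_of_squarefree_mul (k ▸ hn.sqf))] at h1
  rw [gw, gw, gch_mul (h2.coprime_dvd_right ⟨_, k.symm⟩),
    gch_mul (h2.coprime_dvd_right ⟨_, k.symm.trans (mul_comm _ _)⟩)]
  rcases Int.eq_one_or_neg_one_of_mul_eq_one' h1 with j | j <;> rw [j.1, j.2]

theorem hW_swap (hs : Spt δ m) (he : e = if δ = 1 then m else 4 * δ * m) (hn : Good n)
    (hm : d * d' = -n) {T : Finset Fm} {ρ : ℤ} (hT : FReps (-(n * e ^ 2)) ρ T) :
    hW e d T = hW e d' T := sum_congr rfl fun Q hQ => by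
  rw [gw_swap hs he hn hm (hT.fam Q hQ).2.1 (hT.pos Q hQ)]

theorem rootNo_swap {f : ℤ} (hf : f ≠ 0) (hn : Good n) (hr : 60 ∣ r ^ 2 + n) (hm : d * d' = -n) :
    rootNo (f * d) * rootNo (f * d') = -1 := by
  have n4 := hn.mod4
  have c15 : IsCoprime (15 : ℤ) (d * d') := hm ▸ (Nat.isCoprime_iff_coprime.2 hn.cop.symm).neg_right
  have key : ∀ (p : ℕ) (s : ℤ), p.Prime → (p : ℤ) ∣ 15 → s * s = 1 →
      (if (p : ℤ) ∣ f * d then s else J(f * d | p)) *
        (if (p : ℤ) ∣ f * d' then s else J(f * d' | p)) = 1 := fun p s hp h15 hs => by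
    have hP := Nat.prime_iff_prime_int.1 hp
    have h1 : ¬ (p : ℤ) ∣ d * d' := fun k => hP.not_isUnit (c15.isUnit_of_dvd' h15 k)
    have h2 : (p : ℤ) ∣ r ^ 2 + n := (h15.mul_left 4).trans hr
    by_cases k : (p : ℤ) ∣ f
    · rw [if_pos (k.mul_right _), if_pos (k.mul_right _), hs]
    rw [if_neg fun j => (hP.dvd_or_dvd j).elim k fun j => h1 (j.mul_right _),
      if_neg fun j => (hP.dvd_or_dvd j).elim k fun j => h1 (j.mul_left _), ← jacobiSym.mul_left,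
      jac_congr (v := (f * r) ^ 2) (h2.trans ⟨-f ^ 2, by linear_combination f ^ 2 * hm⟩),
      jacobiSym.pow_left]
    exact jac_sq hp fun j => (hP.dvd_or_dvd j).elim k fun j => h1 (by
      rw [hm, dvd_neg]
      exact (dvd_add_right (dvd_pow j two_ne_zero)).1 h2)
  have h3 := key 3 1 Nat.prime_three (by norm_num) rfl
  have h5 := key 5 (-1) Nat.prime_five (by norm_num) rfl
  have h7 : (f * d).sign * (f * d').sign = -1 := by
    rw [← Int.sign_mul, show f * d * (f * d') = -(f ^ 2 * n) by linear_combination f ^ 2 * hm]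
    have : 0 < n := by omega
    exact Int.sign_eq_neg_one_of_neg (neg_lt_zero.2 (by positivity))
  simp only [Nat.cast_ofNat] at h3 h5
  rw [rootNo, rootNo, rt0, rt0, mul_mul_mul_comm, h7, mul_mul_mul_comm, h3, h5]
  rfl

theorem exists_spt {D : ℤ} (hD : Squarefree D) : ∃ δ m d, Spt δ m ∧ Cls0 d ∧ D = δ * m * d := by
  have st : ∀ (p q : ℤ) (x : ℤ), Prime p → q = p ∨ q = -p → Squarefree x →
      ∃ u y, (u = 1 ∨ u = q) ∧ x = u * y ∧ ¬ p ∣ y := fun p q x hp hq hx => by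
    by_cases k : p ∣ x
    · obtain ⟨y, rfl⟩ := k
      have h1 : ¬ p ∣ y := fun j => hp.not_isUnit (hx p (mul_dvd_mul_left p j))
      rcases hq with rfl | rfl
      exacts [⟨_, y, .inr rfl, rfl, h1⟩, ⟨_, -y, .inr rfl, by ring, by rwa [dvd_neg]⟩]
    · exact ⟨1, x, .inl rfl, (one_mul x).symm, k⟩
  obtain ⟨u, x, hu, rfl, h2⟩ := st 2 2 D Int.prime_two (.inl rfl) hD
  obtain ⟨v, y, hv, rfl, h3⟩ := st 3 (-3) x Int.prime_three (.inr rfl) hD.of_mul_right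
  obtain ⟨w, z, hw, rfl, h5⟩ := st 5 5 y (Nat.prime_iff_prime_int.1 Nat.prime_five) (.inl rfl)
    hD.of_mul_right.of_mul_right
  have hz := hD.of_mul_right.of_mul_right.of_mul_right
  have k2 : ¬ 2 ∣ z := fun k => h2 ((k.mul_left _).mul_left _)
  have k3 : ¬ 3 ∣ z := fun k => h3 (k.mul_left _)
  have k4 : u ∣ 2 := by rcases hu with rfl | rfl <;> norm_num
  have k5 : v * w ∣ 15 ∧ v * w % 4 = 1 := by
    rcases hv with rfl | rfl <;> rcases hw with rfl | rfl <;> norm_num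
  by_cases k : z % 4 = 1
  · exact ⟨u, v * w, z, ⟨k4, k5.1, k5.2⟩, ⟨hz, k, k3, h5⟩, by ring⟩
  · exact ⟨-u, v * w, -z, ⟨neg_dvd.2 k4, k5.1, k5.2⟩, ⟨hz.squarefree_of_dvd (neg_dvd.2 dvd_rfl),
      by omega, by rwa [dvd_neg], by rwa [dvd_neg]⟩, by ring⟩

end Pool.Agent.Lib.MP_696deb_nt.B3
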