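import Pool.Agent.Lib.MP_696deb_nt.B3.A0

/-! The Galois action on the genus characters of orders of arbitrary conductor. -/

set_option autoImplicit false

open Complex PeriodPair Finset NumberTheorySymbols
open Pool.Agent.Shared.Weier
open scoped Real

namespace Pool.Agent.Lib.MP_696deb_nt.B3

open Gal Unif

section
variable {L L' : PeriodPair} {s : ℂ ≃+* ℂ}

/-- The determinant of two torsion points changes by the cyclotomic character. -/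
theorem weilN (h : Cj s L L') (hL : 0 < (L.ω₁ / L.ω₂).im) (hL' : 0 < (L'.ω₁ / L'.ω₂).im) {p : ℕ}
    (hp : p ≠ 0) {k : ℤ} (hk : ∀ z : ℂ, z ^ p = 1 → s z = z ^ k) {a b c d a' b' c' d' : ℤ}
    (h1 : Gal.Rel s L L' ((a * L.ω₁ + b * L.ω₂) / p) ((a' * L'.ω₁ + b' * L'.ω₂) / p))
    (h2 : Gal.Rel s L L' ((c * L.ω₁ + d * L.ω₂) / p) ((c' * L'.ω₁ + d' * L'.ω₂) / p)) :
    (p : ℤ) ∣ a' * d' - b' * c' - k * (a * d - b * c) := by
  have h0 : (p : ℂ) ≠ 0 := by exact_mod_cast hp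
  have e1 := eta_det hL hp a b c d
  have e2 := eta_det hL' hp a' b' c' d'
  have m : ∀ (L : PeriodPair) (a b : ℤ), p * ((a * L.ω₁ + b * L.ω₂) / p) ∈ L.lattice :=
    fun L a b => by rw [mul_div_cancel₀ _ h0]; exact mem_lattice.mpr ⟨a, b, rfl⟩
  by_cases hu : (a * L.ω₁ + b * L.ω₂) / p ∈ L.lattice
  · obtain ⟨⟨_, rfl⟩, _, rfl⟩ := Gal.dvd_of_mem hp hu
    obtain ⟨⟨_, rfl⟩, _, rfl⟩ := Gal.dvd_of_mem hp (h1.mem_iff.mpr hu)
    exact ((((dvd_mul_right _ _).mul_right _).sub ((dvd_mul_right _ _).mul_right _)).sub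
      ((((dvd_mul_right _ _).mul_right _).sub ((dvd_mul_right _ _).mul_right _)).mul_left _))
  by_cases hv : (c * L.ω₁ + d * L.ω₂) / p ∈ L.lattice
  · obtain ⟨⟨_, rfl⟩, _, rfl⟩ := Gal.dvd_of_mem hp hv
    obtain ⟨⟨_, rfl⟩, _, rfl⟩ := Gal.dvd_of_mem hp (h2.mem_iff.mpr hv)
    exact ((((dvd_mul_right _ _).mul_left _).sub ((dvd_mul_right _ _).mul_left _)).sub
      ((((dvd_mul_right _ _).mul_left _).sub ((dvd_mul_right _ _).mul_left _)).mul_left _))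
  have ml := m L a b
  have mm := m L c d
  have ml' := m L' a' b'
  have mm' := m L' c' d'
  generalize (a * L.ω₁ + b * L.ω₂) / p = u at *
  generalize (c * L.ω₁ + d * L.ω₂) / p = v at *
  generalize (a' * L'.ω₁ + b' * L'.ω₂) / p = u' at *
  generalize (c' * L'.ω₁ + d' * L'.ω₂) / p = v' at *
  obtain ⟨t, ht⟩ : ∃ t : ℂ, ∀ i j : ℕ, t + i * v + j * u ∉ L.lattice := by
    refine ⟨L.ω₁ / 2 / p, fun i j hij => L.ω₁_div_two_notMem_lattice ?_⟩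
    convert sub_mem (sub_mem (L.lattice.smul_mem p hij) (L.lattice.smul_mem i mm))
      (L.lattice.smul_mem j ml) using 1
    simp only [zsmul_eq_mul]
    push_cast
    field_simp
    ring
  obtain ⟨t', h3⟩ := h.exists_rel t
  have t0 : t ∉ L.lattice := by simpa using ht 0 0
  have t1 : t + u ∉ L.lattice := by simpa using ht 0 1
  have t2 : t + v ∉ L.lattice := by simpa using ht 1 0
  have t3 : t + v + u ∉ L.lattice := by simpa using ht 1 1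
  have w := sq_weil (mt h1.mem_iff.mp hu) (mt h2.mem_iff.mp hv) ml' mm' (mt h3.mem_iff.mp t0)
    (mt (h.add h3 h1).mem_iff.mp t1) (mt (h.add h3 h2).mem_iff.mp t2)
    (mt (h.add (h.add h3 h2) h1).mem_iff.mp t3)
  rw [sq_rel h h1 (h.add h3 h2) hu fun j => by simpa using ht 1 j,
    sq_rel h h2 h3 hv fun j => by simpa using ht j 0,
    sq_rel h h1 h3 hu fun j => by simpa using ht 0 j,
    sq_rel h h2 (h.add h3 h1) hv fun j => by simpa [add_right_comm] using ht j 1,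
    ← map_mul, ← map_mul, ← map_div₀, sq_weil hu hv ml mm t0 t1 t2 t3, e1, e2,
    hk _ (by
      rw [← exp_nat_mul, mul_div_cancel₀ _ h0, exp_eq_one_iff]
      exact ⟨-(a * d - b * c), by push_cast; ring⟩), ← exp_int_mul, exp_eq_exp_iff_exists_int] at w
  obtain ⟨n, w⟩ := w
  refine ⟨n, Int.cast_injective (α := ℂ) (mul_left_cancel₀ two_pi_I_ne_zero ?_)⟩
  field_simp at w
  push_cast at w ⊢
  linear_combination (2 * π * I) * w

end

variable {σ : ℂ ≃+* ℂ} {D r ε κ e a : ℤ} {Q Q' : Fm} {T T' : Finset Fm}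

/-- All values of the conjugate form. -/
theorem gal_valN (hD : D < 0) (hQ : IsHg D r Q) (hε : ε = 1 ∨ ε = -1)
    (hσ : σ (del D) = ε * del D) (hQ' : IsHg D (ε * r) Q')
    (h : pmap (σ : ℂ →+* ℂ) (pt (froot Q)) = pt (froot Q')) {N : ℕ} (hN : N ≠ 0)
    (hκ : ∀ ζ : ℂ, ζ ^ (15 * N) = 1 → σ ζ = ζ ^ κ) (x y : ℤ) :
    ∃ x' y', (N : ℤ) ∣ fval Q' x' y' - ε * κ * fval Q x y := by
  have i1 := hQ.im_pos hD
  have i2 := hQ'.im_pos hD
  obtain ⟨j, hj, c, M, h1, h2, h3⟩ := exists_pr_of_pt i1 i2 h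
  replace h3 := h3.congr_lat (h1.lattice_eq (sc_scale _ h1.ne))
  replace h2 := h2.congr (h1.lattice_eq (sc_scale _ h1.ne))
  have hN' : 15 * N ≠ 0 := by omega
  have p0 : ((15 * N : ℕ) : ℂ) ≠ 0 := by exact_mod_cast hN'
  have p1 : (N : ℂ) ≠ 0 := by exact_mod_cast hN
  obtain ⟨u, hu⟩ := h2.exists_rel (((-y : ℤ) * (lat15 (froot Q)).ω₁ +
    (15 * x : ℤ) * (lat15 (froot Q)).ω₂) / (15 * N : ℕ))
  obtain ⟨m, n, e⟩ := mem_lattice.mp ((h2.nat_mul hu (15 * N)).mem_iff.mpr (by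
    rw [mul_div_cancel₀ _ p0]; exact mem_lattice.mpr ⟨_, _, rfl⟩))
  obtain rfl := (eq_div_iff p0).mpr ((mul_comm _ _).trans e.symm)
  obtain ⟨n, rfl⟩ : 15 ∣ n := by
    have h4 := (h2.add (h2.int_mul hu (j * N)) (h2.int_mul h3 y)).mem_iff.mpr
      ((mem_lat15 i1).mpr ⟨0, j * x, by
        rw [lat15_ω₁ i1, lat15_ω₂]
        push_cast
        field_simp
        ring⟩)
    refine hj.symm.dvd_of_dvd_mul_left (Gal.dvd_of_mem (L := scale (lat15 (froot Q')) h1.ne) (p := 15)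
      (a := j * m + y) (by norm_num) ?_).2
    convert h4 using 1
    simp only [scale, lat15_ω₁ i2, lat15_ω₂]
    push_cast
    field_simp
    ring
  obtain ⟨a, k, a1, a2, a3, a4⟩ := hQ.alp hD
  obtain ⟨a', k', b1, b2, b3, b4⟩ := hQ'.alp hD
  have := weilN h2 (by simpa [lat15_ω₁ i1, lat15_ω₂] using i1)
    (by simpa [scale, lat15_ω₁ i2, lat15_ω₂, mul_div_cancel_left₀ _ h1.ne] using i2) hN' hκ hu
    (c := 15 * k * y + a * (15 * x)) (d := 15 * Q.2.2 * y + (r + 15 * k) * (15 * x))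
    (c' := ε * (-15 * k' * m + a' * (15 * n)))
    (d' := ε * (-15 * Q'.2.2 * m + (ε * r + 15 * k') * (15 * n))) (by
      convert hu.isog h2 h2 (alp_ne hD) (hQ.mul_mem hD).2 using 1
      · rw [← mul_div_assoc, lat15_ω₁ i1, lat15_ω₂]
        push_cast at a3 a4 ⊢
        linear_combination (15 * y * a4 - 15 * x * a3) / (15 * N)
      · rw [← mul_div_assoc, map_alp hε hσ]
        simp only [scale, lat15_ω₁ i2, lat15_ω₂]
        push_cast at b3 b4 ⊢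
        linear_combination -(ε * c * (15 * m * b4 + 15 * n * b3)) / (15 * N))
  obtain ⟨w, hw⟩ := this
  refine ⟨n, -m, -ε * w, mul_left_cancel₀ (by norm_num : (15 : ℤ) ≠ 0) ?_⟩
  simp only [fval, a1, a2, b1, b2]
  push_cast at hw
  rcases hε with rfl | rfl
  · linear_combination -hw
  · linear_combination hw

theorem cop_of_zeta {N : ℕ} (hN : N ≠ 0) (hκ : ∀ ζ : ℂ, ζ ^ N = 1 → σ ζ = ζ ^ κ) :
    IsCoprime κ N := by
  obtain ⟨k, h1, h2⟩ := exists_pow_zeta σ (Nat.pos_of_ne_zero hN)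
  have h3 := Complex.isPrimitiveRoot_exp N hN
  have h4 := (hκ _ h3.pow_eq_one).symm.trans (h2 _ h3.pow_eq_one)
  rw [← div_eq_one_iff_eq (zpow_ne_zero _ (h3.ne_zero hN)), ← zpow_sub₀ (h3.ne_zero hN),
    h3.zpow_eq_one_iff_dvd] at h4
  obtain ⟨c, hc⟩ := h4
  rw [show κ = k + N * c by linear_combination hc]
  exact h1.add_mul_left_left c

theorem k2_mod8 (e : ℤ) {u v : ℤ} (h : 8 ∣ u - v) : k2 e u = k2 e v := by
  unfold k2
  split_ifs
  · rw [(ZMod.intCast_eq_intCast_iff_dvd_sub v u 8).2 h]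
  · rw [(ZMod.intCast_eq_intCast_iff_dvd_sub v u 8).2 h]
  · rw [(ZMod.intCast_eq_intCast_iff_dvd_sub v u 4).2 (Dvd.dvd.trans (by norm_num) h)]
  · rfl

theorem gw_of_vals (ok : GOk e a (fdisc Q)) (ok' : GOk e a (fdisc Q')) {k k' : ℤ}
    (hk : IsCoprime k (8 * oc e a : ℕ)) (hk' : IsCoprime k' (8 * oc e a : ℕ))
    (h : ∀ x y, ∃ x' y', ((8 * oc e a : ℕ) : ℤ) ∣ fval Q' x' y' - k * fval Q x y)
    (h' : ∀ x y, ∃ x' y', ((8 * oc e a : ℕ) : ℤ) ∣ fval Q x' y' - k' * fval Q' x y) :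
    gw e a Q' = kap e a k * gw e a Q := by
  have nd : ∀ {p k : ℤ}, Prime p → p ∣ (8 * oc e a : ℕ) → IsCoprime k (8 * oc e a : ℕ) → ¬ p ∣ k :=
    fun hp h1 h2 h3 => hp.not_isUnit (h2.isUnit_of_dvd' h3 h1)
  have h0 : ∀ {p : ℤ}, Prime p → p ∣ (8 * oc e a : ℕ) → (∀ x y, p ∣ fval Q x y) →
      ∀ x y, p ∣ fval Q' x y := fun hp h1 h2 x y => by
    obtain ⟨x', y', h3⟩ := h' x y
    exact (hp.dvd_or_dvd ((dvd_sub_right (h2 _ _)).mp (h1.trans h3))).resolve_left (nd hp h1 hk')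
  have h8 : (8 : ℤ) ∣ (8 * oc e a : ℕ) := by push_cast; exact dvd_mul_right _ _
  have h2 : (2 : ℤ) ∣ (8 * oc e a : ℕ) := Dvd.dvd.trans (by norm_num) h8
  have e1 : g2 e Q' = k2 e k * g2 e Q := by
    by_cases h4 : 4 ∣ e
    swap
    · simp only [g2, k2_of_not h4, mul_one]
    by_cases h1 : ∀ x y, 2 ∣ fval Q x y
    · rw [g2_zero h4 h1, g2_zero h4 (h0 Int.prime_two h2 h1), mul_zero]
    push Not at h1
    obtain ⟨x, y, h1⟩ := h1
    obtain ⟨x', y', h3⟩ := h x y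
    rw [g2_fval ok.sq h1, g2_fval ok'.sq (x := x') (y := y') fun j =>
      (Int.prime_two.dvd_or_dvd ((dvd_sub_right j).mp (h2.trans h3))).elim
        (nd Int.prime_two h2 hk) h1, k2_mod8 e (h8.trans h3), k2_mul]
  have e2 : gch (oc e a) Q' = J(k | oc e a) * gch (oc e a) Q := by
    rw [MP_696deb_nt.gch_eq, MP_696deb_nt.gch_eq, jac_eq_prod _ ok.sqf, ← prod_mul_distrib]
    refine prod_congr rfl fun p hp => ?_
    have h1 := Nat.prime_of_mem_primeFactors hp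
    have h3 := Nat.prime_iff_prime_int.mp h1
    have h4 : (p : ℤ) ∣ (8 * oc e a : ℕ) :=
      Int.natCast_dvd_natCast.mpr ((Nat.dvd_of_mem_primeFactors hp).mul_left _)
    exact gl_of_vals h1 (prime_ne_two ok.odd hp) (MP_696deb_nt.dvd_of_mem ok.dvd hp)
      (MP_696deb_nt.dvd_of_mem ok'.dvd hp) (nd h3 h4 hk)
      (fun x y => (h x y).imp fun x' j => j.imp fun y' j => h4.trans j) (h0 h3 h4)
  rw [oc] at e2
  rw [gw, gw, e1, e2, kap, oc]
  ring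

theorem GOk.ne (ok : GOk e a D) : 8 * oc e a ≠ 0 := mul_ne_zero (by norm_num) ok.sqf.ne_zero

/-- The action on the genus characters. -/
theorem gal_gw (hD : D < 0) (hQ : IsHg D r Q) (hε : ε = 1 ∨ ε = -1)
    (hσ : σ (del D) = ε * del D) (hQ' : IsHg D (ε * r) Q')
    (h : pmap (σ : ℂ →+* ℂ) (pt (froot Q)) = pt (froot Q')) (ok : GOk e a D)
    (hκ : ∀ ζ : ℂ, ζ ^ (120 * oc e a) = 1 → σ ζ = ζ ^ κ) :
    gw e a Q' = kap e a (ε * κ) * gw e a Q := by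
  rw [show 120 * oc e a = 15 * (8 * oc e a) by ring] at hκ
  have h0 : 15 * (8 * oc e a) ≠ 0 := mul_ne_zero (by norm_num) ok.ne
  obtain ⟨κ', h2, h3⟩ := exists_pow_zeta σ.symm (Nat.pos_of_ne_zero h0)
  have c : ∀ {k : ℤ}, IsCoprime k (15 * (8 * oc e a) : ℕ) → IsCoprime (ε * k) (8 * oc e a : ℕ) :=
    fun h => by
      rw [Nat.cast_mul] at h
      rcases hε with rfl | rfl
      · simpa using h.of_mul_right_right
      · simpa [IsCoprime.neg_left_iff] using h.of_mul_right_right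
  exact gw_of_vals (hQ.disc ▸ ok) (hQ'.disc ▸ ok) (c (cop_of_zeta h0 hκ)) (c h2)
    (gal_valN hD hQ hε hσ hQ' h ok.ne hκ) (gal_valN hD hQ' hε (symm_del hε hσ) (by
      rwa [show ε * (ε * r) = r by rcases hε with rfl | rfl <;> ring]) (pmap_symm h) ok.ne h3)

theorem isHg_fV (hD : D < 0) (hQ : IsHg D r Q) : IsHg D (-r) (fV Q) :=
  have h := fam_fV (R := Q) ⟨hQ.lev, hQ.disc, hQ.res⟩
  ⟨h.2.1, mul_pos (by norm_num) (pos_last (hQ.disc ▸ hD) hQ.pos), h.1, h.2.2⟩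

theorem al_froot_fV (hD : D < 0) (hQ : IsHg D r Q) : al 3 (froot (fV Q)) = froot Q :=
  (scl_fV hQ.lev).froot (hQ.disc ▸ hD) hQ.pos (isHg_fV hD hQ).pos

theorem pt_fV (hD : D < 0) (hQ : IsHg D r Q) :
    pt (froot (fV Q)) = u15 (alC 3) - pt (froot Q) := by
  rw [← al_froot_fV hD hQ, pt_al 3 ((isHg_fV hD hQ).im_pos hD), show alS 3 = -1 from rfl]
  simp

theorem gal_uw (hD : D < 0) (hQ : IsHg D r Q) (hε : ε = 1 ∨ ε = -1)
    (hσ : σ (del D) = ε * del D) (hQ' : IsHg D (ε * r) Q')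
    (h : pmap (σ : ℂ →+* ℂ) (pt (froot Q)) = pt (froot Q')) (ok : GOk e a D)
    (hκ : ∀ ζ : ℂ, ζ ^ (120 * oc e a) = 1 → σ ζ = ζ ^ κ) :
    uw e a Q' = kap e a (ε * κ) * uw e a Q := by
  refine gal_gw hD (isHg_fV hD hQ) hε hσ (by simpa using isHg_fV hD hQ') ?_ ok hκ
  rw [pt_fV hD hQ, pt_fV hD hQ', map_sub, h, u15_alC_three]
  congr 1
  exact IsPer.some_congr (map_ofNat (σ : ℂ →+* ℂ) 9) (by simp [map_ofNat])

/-- Weights that change by the character `χ` of modulus `N` under the Galois action. -/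
def GalW (D : ℤ) (w : Fm → ℤ) (N : ℕ) (χ : ℤ → ℤ) : Prop :=
  ∀ (σ : ℂ ≃+* ℂ) (r ε κ : ℤ) (Q Q' : Fm), IsHg D r Q → (ε = 1 ∨ ε = -1) →
    σ (del D) = ε * del D → IsHg D (ε * r) Q' →
    pmap (σ : ℂ →+* ℂ) (pt (froot Q)) = pt (froot Q') → (∀ ζ : ℂ, ζ ^ N = 1 → σ ζ = ζ ^ κ) →
    w Q' = χ (ε * κ) * w Q

theorem galW_gw (hD : D < 0) (ok : GOk e a D) : GalW D (gw e a) (120 * oc e a) (kap e a) :=
  fun _ _ _ _ _ _ h1 h2 h3 h4 h5 h6 => gal_gw hD h1 h2 h3 h4 h5 ok h6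

theorem galW_uw (hD : D < 0) (ok : GOk e a D) : GalW D (uw e a) (120 * oc e a) (kap e a) :=
  fun _ _ _ _ _ _ h1 h2 h3 h4 h5 h6 => gal_uw hD h1 h2 h3 h4 h5 ok h6

theorem GalW.sum {M : Type} [AddCommGroup M] {w : Fm → ℤ} {N : ℕ} {χ : ℤ → ℤ} (g : GalW D w N χ)
    (h : FReps D r T) (h' : FReps D (ε * r) T') (hD : D < 0) (hε : ε = 1 ∨ ε = -1)
    (hσ : σ (del D) = ε * del D) (hκ : ∀ ζ : ℂ, ζ ^ N = 1 → σ ζ = ζ ^ κ) (f : Pt W15 ℂ → M) :
    ∑ Q ∈ T', w Q • f (pt (froot Q)) =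
      χ (ε * κ) • ∑ Q ∈ T, w Q • f (pmap (σ : ℂ →+* ℂ) (pt (froot Q))) := by
  obtain ⟨β, f1, f2⟩ := gal_perm hD hε hσ h.hreps h'.hreps
  rw [smul_sum]
  refine (sum_nbij β f1.mapsTo f1.injOn f1.surjOn fun Q hQ => ?_).symm
  rw [g σ r ε κ Q _ (h.hreps.mem Q hQ) hε hσ (h'.hreps.mem _ (f1.mapsTo hQ)) (f2 Q hQ) hκ, f2 Q hQ,
    mul_smul]

end Pool.Agent.Lib.MP_696deb_nt.B3
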