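import Pool.Agent.Lib.MP_696deb_nt.B3.HGa
import Pool.Agent.Lib.MP_696deb_nt.Gz

/-! Special points whose conductor shares primes with the level lie on one component. -/

set_option autoImplicit false

open Finset

namespace Pool.Agent.Lib.MP_696deb_nt.B3

open Unif

section
variable {Γ : Type*} [LinearOrderedCommGroupWithZero Γ] {V : Valuation ℂ Γ} {p : ℕ}

theorem prop_of_root {τ : ℂ} (hτ : 0 < τ.im) {a b c a' b' c' : ℤ}
    (h : a * τ ^ 2 + b * τ + c = 0) (h' : a' * τ ^ 2 + b' * τ + c' = 0) :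
    a * c' = a' * c ∧ b * c' = b' * c := by
  have h0 : τ ≠ 0 := fun e => by simp [e] at hτ
  have h1 : ((a * c' - a' * c : ℤ) : ℂ) * τ = (b' * c - b * c' : ℤ) := mul_left_cancel₀ h0 (by
    push_cast; linear_combination c' * h - c * h')
  generalize hu : a * c' - a' * c = u at h1
  generalize hw : b' * c - b * c' = w at h1
  obtain rfl : u = 0 := by simpa [hτ.ne'] using congr_arg Complex.im h1
  obtain rfl : w = 0 := by simpa [eq_comm] using h1
  exact ⟨by omega, by omega⟩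

theorem val_dn (hp : p.Prime) (hV : V p < 1) (h15 : p ∣ 15) {a b c : ℤ}
    (hD : b ^ 2 - 4 * a * c < 0) {τ : ℂ} (hτ : 0 < τ.im)
    (h : a * (p * τ) ^ 2 + b * (p * τ) + c = 0) (hc : ¬ (p : ℤ) ∣ c)
    (hs : SplitAt p (b ^ 2 - 4 * a * c)) : V (Dl τ / Dl (15 * τ)) = 1 := by
  have hP := Nat.prime_iff_prime_int.mp hp
  have h1 : 0 < (p * τ).im := by simpa using mul_pos (Nat.cast_pos.mpr hp.pos) hτ
  have p0 : (p : ℂ) ≠ 0 := by exact_mod_cast hp.ne_zero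
  have cm := isCM_of_form h1 hD h
  obtain ⟨i, hi⟩ := cm.ord hp hV hs
  have e0 : act (rP p (some ⟨0, hp.pos⟩)) (p * τ) = τ := by rw [act_some hp]; simp
  have h2 : V (Dl τ / Dl (p * τ)) = 1 := by
    have := hi.unit (some ⟨0, hp.pos⟩) ?_
    · rw [ph_some hp] at this
      simpa [div_eq_mul_inv] using this
    rintro rfl
    obtain ⟨x, hx⟩ : ∃ x : ℤ, ¬ (p : ℤ) ∣ x ^ 2 + x * 1 * b + 1 ^ 2 * (a * c) := by
      by_contra! k
      have k1 := dvd_sub (dvd_add (k 1) (k (-1))) ((k 0).mul_left 2)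
      ring_nf at k1
      obtain rfl := (Nat.prime_dvd_prime_iff_eq hp Nat.prime_two).mp (by exact_mod_cast k1)
      omega
    have h3 : 0 < x ^ 2 + x * 1 * b + 1 ^ 2 * (a * c) := by nlinarith [sq_nonneg (2 * x + b)]
    have h4 : a * c ≠ 0 := by intro e; nlinarith [sq_nonneg b]
    have h5 : Fix (a * c) b (p * τ) := by
      refine ⟨!![0, -c; a, b], by simp [mul_comm], by simp, ?_⟩
      rw [act_eq_iff (by simpa [mul_comm] using h4) h1]
      simpa using h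
    obtain ⟨M, m1, m2, m3⟩ := hi.fix hp hV h3 hx (h5.add h1 h4 x 1 h3.ne')
    rw [e0, act_eq_iff (m1 ▸ h3.ne') hτ] at m3
    obtain ⟨k1, k2⟩ := prop_of_root hτ (a := M 1 0) (b := M 1 1 - M 0 0) (c := -M 0 1)
      (a' := a * p ^ 2) (b' := b * p) (c' := c) (by push_cast; linear_combination m3)
      (by push_cast; linear_combination h)
    rw [Matrix.det_fin_two] at m1
    rw [Matrix.trace_fin_two] at m2
    refine hc (hP.dvd_of_dvd_pow (n := 2) ⟨p * M 0 1 ^ 2, mul_left_cancel₀ hD.ne ?_⟩)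
    linear_combination 4 * c ^ 2 * m1 - c ^ 2 * (M 0 0 + M 1 1 + 2 * x + b) * m2 +
      ((M 1 1 - M 0 0) * c - b * p * M 0 1) * k2 + 4 * M 0 1 * c * k1
  obtain ⟨d, hd⟩ := h15
  have h3 := (val_Dl_div (V := V) (d := d) (by rintro rfl; omega) h1 (cm.val_jf V)).2.2 (by
    simpa using val_int_eq_one hp hV (n := d) fun k => by
      obtain ⟨j, rfl⟩ := Int.natCast_dvd_natCast.mp k
      have h4 : p ≤ 15 := Nat.le_of_dvd (by norm_num) ⟨_, hd⟩
      have h5 := hp.two_le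
      interval_cases p <;> omega)
  rw [← mul_assoc, ← Nat.cast_mul, mul_comm d, ← hd, Nat.cast_ofNat] at h3
  rw [← div_mul_div_cancel₀ (Dl_ne h1), map_mul, h2, h3, one_mul]

end

/-- At every place above `p` the support of the divisor lies on one component. -/
def OneC (p : ℕ) (S : Finset Fm) (m : Fm → ℤ) : Prop :=
  ∀ A : ValuationSubring ℂ, A.valuation p < 1 →
    (∀ Q ∈ S, m Q ≠ 0 → A.valuation (Dl (froot Q) / Dl (15 * froot Q)) = 1) ∨
    ∀ Q ∈ S, m Q ≠ 0 → A.valuation (Dl (al 3 (froot Q)) / Dl (15 * al 3 (froot Q))) = 1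

variable {p : ℕ} {D D' r κ : ℤ} {T S S' T' : Finset Fm} {m w : Fm → ℤ}

theorem oneC_unram (h : FReps D r T) (hD : D < 0) (hp : p.Prime) (h15 : p ∣ 15)
    (hd : ¬ (p : ℤ) ∣ D) (m : Fm → ℤ) : OneC p T m := fun A hA => by
  have k := fun Q hQ => val_froot hp hA h15 ((h.fam Q hQ).2.1 ▸ hD) (h.pos Q hQ) (h.fam Q hQ).1
    ((h.fam Q hQ).2.1 ▸ hd)
  have h1 : ∀ {b r : ℤ}, (p : ℤ) ∣ b - r → A.valuation (r + √(-D : ℝ) * Complex.I) = 1 →
      A.valuation (b + √(-D : ℝ) * Complex.I) = 1 := fun {b r} ⟨k, hk⟩ e => by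
    rw [← e, show (b : ℂ) = p * k + r by exact_mod_cast eq_add_of_sub_eq hk, add_assoc]
    refine A.valuation.map_add_eq_of_lt_right ?_
    rw [e, map_mul]
    exact mul_lt_one_of_nonneg_of_lt_one_left zero_le hA (val_int _ k)
  have h2 : ∀ Q ∈ T, (p : ℤ) ∣ Q.2.1 - r := fun Q hQ =>
    ((Int.natCast_dvd_natCast.mpr h15).trans (by norm_num)).trans (h.fam Q hQ).2.2
  by_cases e : A.valuation (r + √(-D : ℝ) * Complex.I) = 1
  · exact .inl fun Q hQ _ => (k Q hQ).1 ((h.fam Q hQ).2.1 ▸ h1 (h2 Q hQ) e)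
  · exact .inr fun Q hQ _ => (k Q hQ).2 fun e' =>
      e (h1 (dvd_sub_comm.mp (h2 Q hQ)) ((h.fam Q hQ).2.1 ▸ e'))

theorem oneC_down (h : FReps (D * p ^ 2) r T) (hD : D < 0) (hp : p.Prime) (h15 : p ∣ 15)
    (hs : SplitAt p D) (hm : ∀ Q, m Q ≠ 0 → (p : ℤ) ∣ Q.1 → ¬ (p : ℤ) ∣ Q.2.2) : OneC p T m :=
  fun A hA => .inl fun Q hQ h0 => by
    have hP := Nat.prime_iff_prime_int.mp hp
    obtain ⟨k1, k2, -⟩ := h.fam Q hQ
    have k3 : fdisc Q < 0 := k2 ▸ mul_neg_of_neg_of_pos hD (pow_pos (by exact_mod_cast hp.pos) 2)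
    have k4 := froot_root k3 (h.pos Q hQ)
    have k5 := im_froot_pos k3 (h.pos Q hQ)
    have k6 : (p : ℤ) ∣ Q.1 := (Int.natCast_dvd_natCast.mpr h15).trans k1
    have k7 := hm Q h0 k6
    generalize froot Q = τ at k4 k5
    obtain ⟨a, b, c⟩ := Q
    simp only [fdisc] at k2 k4 k6 k7
    obtain ⟨a, rfl⟩ := k6
    obtain ⟨b, rfl⟩ : (p : ℤ) ∣ b :=
      hP.dvd_of_dvd_pow (n := 2) ⟨D * p + 4 * a * c, by linear_combination k2⟩
    obtain ⟨a, rfl⟩ : (p : ℤ) ∣ a := by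
      have k8 : (p : ℤ) ∣ 2 * (2 * (a * c)) := ⟨b ^ 2 - D, mul_left_cancel₀ hP.ne_zero (by
        linear_combination -k2)⟩
      have k9 : ¬ (p : ℤ) ∣ 2 := fun e => by
        obtain rfl := (Nat.prime_dvd_prime_iff_eq hp Nat.prime_two).mp (by exact_mod_cast e)
        omega
      simpa only [hP.dvd_mul, k9, k7, false_or, or_false] using k8
    obtain rfl : D = b ^ 2 - 4 * a * c := mul_right_cancel₀ (pow_ne_zero 2 hP.ne_zero) (by
      linear_combination -k2)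
    exact val_dn hp hA h15 hD k5 (by push_cast at k4; linear_combination k4) k7 hs

/-- The archimedean pairing of two divisors. -/
noncomputable def arP (S : Finset Fm) (m : Fm → ℤ) (T : Finset Fm) (w : Fm → ℤ) : ℝ :=
  ∑ Q ∈ S, ∑ R ∈ T, m Q * w R * lam15 (Fi (froot Q) - Fi (froot R))

/-- The index set of a divisor with two parts. -/
abbrev Ix (S S' : Finset Fm) (m : Fm → ℤ) := S.filter (m · ≠ 0) ⊕ S'.filter (m · ≠ 0)

/-- The form with a given index. -/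
def Ix.fm (i : Ix S S' m) : Fm := i.elim (·.1) (·.1)

/-- The multiplicity of an index. -/
def Ix.mu (κ : ℤ) (i : Ix S S' m) : ℤ := i.elim (m ·.1) (κ * m ·.1)

theorem Ix.sum {M : Type} [AddCommGroup M] (κ : ℤ) (f : Fm → M) :
    ∑ i : Ix S S' m, i.mu κ • f i.fm = ∑ Q ∈ S, m Q • f Q + κ • ∑ Q ∈ S', m Q • f Q := by
  simp only [Fintype.sum_sum_type, Ix.mu, Ix.fm, Sum.elim_inl, Sum.elim_inr, mul_smul, ← smul_sum]
  rw [sum_coe_sort _ fun Q => m Q • f Q, sum_coe_sort _ fun Q => m Q • f Q,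
    sum_filter_of_ne fun _ _ => left_ne_zero_of_smul,
    sum_filter_of_ne fun _ _ => left_ne_zero_of_smul]

theorem Ix.mem (i : Ix S S' m) : i.fm ∈ S ∨ i.fm ∈ S' :=
  i.rec (fun Q => .inl (mem_filter.mp Q.2).1) fun Q => .inr (mem_filter.mp Q.2).1

theorem Ix.blk (hS : Pts S m D) (hS' : Pts S' m D) (h : OneC p S m) (h' : OneC p S' m) (κ : ℤ) :
    Blk p (fun i : Ix S S' m => froot i.fm) (Ix.mu κ) := fun A hA => by
  have d : ∀ {S : Finset Fm}, Pts S m D → ∑ Q : S.filter (m · ≠ 0), m Q.1 = 0 := fun hS => by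
    rw [sum_coe_sort _ m, sum_filter_ne_zero, hS.deg]
  have k : ∀ {S : Finset Fm}, Pts S m D → OneC p S m → ∃ s : Finset (S.filter (m · ≠ 0)),
      (∀ Q ∈ s, A.valuation (Dl (froot Q.1) / Dl (15 * froot Q.1)) = 1) ∧
      (∀ Q ∉ s, A.valuation (Dl (al 3 (froot Q.1)) / Dl (15 * al 3 (froot Q.1))) = 1) ∧
      ∑ Q ∈ s, m Q.1 = 0 := fun hS h => (h A hA).elim
    (fun h => ⟨univ, fun Q _ => h _ (mem_filter.mp Q.2).1 (mem_filter.mp Q.2).2,
      fun Q hQ => absurd (mem_univ Q) hQ, d hS⟩)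
    fun h => ⟨∅, by simp, fun Q _ => h _ (mem_filter.mp Q.2).1 (mem_filter.mp Q.2).2, rfl⟩
  obtain ⟨s, s1, s2, s3⟩ := k hS h
  obtain ⟨t, t1, t2, t3⟩ := k hS' h'
  refine ⟨s.disjSum t, ?_, ?_, ?_⟩
  · rintro (Q | Q) hQ
    exacts [s1 Q (inl_mem_disjSum.mp hQ), t1 Q (inr_mem_disjSum.mp hQ)]
  · rintro (Q | Q) hQ
    exacts [s2 Q (mt inl_mem_disjSum.mpr hQ), t2 Q (mt inr_mem_disjSum.mpr hQ)]
  · simp only [sum_disjSum, Ix.mu, Sum.elim_inl, Sum.elim_inr, ← mul_sum, s3, t3, mul_zero,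
      add_zero]

/-- The divisor with two parts is multiplied by a sign under every automorphism. -/
def GalTwo (S S' : Finset Fm) (m : Fm → ℤ) (κ : ℤ) (e : (ℂ ≃+* ℂ) → ℤ) : Prop :=
  ∀ (s : ℂ ≃+* ℂ) (g : Pt W15 ℂ → ℝ), ∑ Q ∈ S, m Q • g (pmap (s : ℂ →+* ℂ) (pt (froot Q))) +
    κ • ∑ Q ∈ S', m Q • g (pmap (s : ℂ →+* ℂ) (pt (froot Q))) =
    e s • (∑ Q ∈ S, m Q • g (pt (froot Q)) + κ • ∑ Q ∈ S', m Q • g (pt (froot Q)))

theorem height_two (hS : Pts S m D) (hS' : Pts S' m D) (hT : Pts T w D') (hT' : Pts T' w D')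
    (hD : ¬ IsSquare (D * D')) (ha : ∀ Q, Q ∈ S ∨ Q ∈ S' → pt (froot Q) ∈ Alg W15)
    (ha' : ∀ Q, Q ∈ T ∨ Q ∈ T' → pt (froot Q) ∈ Alg W15) {e : (ℂ ≃+* ℂ) → ℤ}
    (hG : GalTwo S S' m κ e) (hG' : GalTwo T T' w κ e) (he : ∀ s, e s * e s = 1)
    (hs : (¬ p ∣ 15 ∧ SplitAt p D') ∨ (p ∣ 15 ∧ OneC p S m ∧ OneC p S' m)) :
    hpair (u15 (∑ Q ∈ S, m Q • Fi (froot Q) + κ • ∑ Q ∈ S', m Q • Fi (froot Q)))
      (u15 (∑ Q ∈ T, w Q • Fi (froot Q) + κ • ∑ Q ∈ T', w Q • Fi (froot Q))) -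
      2 * (arP S m T w + κ * arP S m T' w + κ * (arP S' m T w + κ * arP S' m T' w)) ∈ LogS p := by
  have c : ∀ {S S' : Finset Fm} {m : Fm → ℤ} {D : ℤ}, Pts S m D → Pts S' m D → ∀ i : Ix S S' m,
      IsCM D (froot i.fm) := fun hS hS' i => i.mem.elim
    (fun h => hS.disc _ h ▸ isCM_froot ((hS.disc _ h).trans_lt hS.neg) (hS.pos _ h))
    fun h => hS'.disc _ h ▸ isCM_froot ((hS'.disc _ h).trans_lt hS'.neg) (hS'.pos _ h)
  have c' : ∀ {S S' : Finset Fm} {m : Fm → ℤ} {D : ℤ}, Pts S m D → Pts S' m D →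
      u15 (∑ Q ∈ S, m Q • Fi (froot Q) + κ • ∑ Q ∈ S', m Q • Fi (froot Q)) =
        ∑ i : Ix S S' m, i.mu κ • pt (froot i.fm) := fun hS hS' => by
    rw [← Ix.sum, map_sum]
    exact sum_congr rfl fun i _ => by rw [pt_eq_u15 (c hS hS' i).1, map_zsmul]
  have d : ∀ {S S' : Finset Fm} {m : Fm → ℤ} {D : ℤ}, Pts S m D → Pts S' m D →
      ∑ i : Ix S S' m, i.mu κ = 0 := fun {S S' m D} hS hS' => by
    simpa [hS.deg, hS'.deg] using Ix.sum (S := S) (S' := S') (m := m) κ fun _ => (1 : ℤ)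
  have h1 : ∀ F : Fm → Fm → ℝ, ∑ i : Ix S S' m, ∑ j : Ix T T' w, (i.mu κ * j.mu κ : ℝ) *
      F i.fm j.fm = ∑ i : Ix S S' m, i.mu κ • ∑ j : Ix T T' w, j.mu κ • F i.fm j.fm := fun F => by
    simp only [zsmul_eq_mul, mul_sum, mul_assoc]
  have h := height_main (m := Ix.mu κ) (n := Ix.mu κ) (c hS hS') (c hT hT') (fun _ _ => hD)
    (d hS hS') (d hT hT') (fun i => ha _ i.mem) (fun i => ha' _ i.mem) (fun s => ?_) (p := p)
    (hs.imp (fun h => ⟨h.1, fun _ _ => .inr h.2⟩) fun h =>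
      ⟨h.1, .inl (Ix.blk hS hS' h.2.1 h.2.2 κ)⟩)
  · rw [c' hS hS', c' hT hT']
    rw [h1 fun Q R => lam15 (Fi (froot Q) - Fi (froot R))] at h
    simp only [fun Q => Ix.sum (S := T) (S' := T') (m := w) κ
      fun R => lam15 (Fi (froot Q) - Fi (froot R))] at h
    rw [Ix.sum κ fun Q => ∑ R ∈ T, w R • lam15 (Fi (froot Q) - Fi (froot R)) +
      κ • ∑ R ∈ T', w R • lam15 (Fi (froot Q) - Fi (froot R))] at h
    simpa only [arP, zsmul_eq_mul, mul_add, sum_add_distrib, mul_sum, mul_assoc,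
      mul_left_comm _ (κ : ℝ)] using h
  · rw [h1 fun Q R => lamArch (pmap (s : ℂ →+* ℂ) (pt (froot Q) - pt (froot R))),
      h1 fun Q R => lamArch (pt (froot Q) - pt (froot R))]
    have k : ∀ P, ∑ j : Ix T T' w, j.mu κ • lamArch (P - pmap (s : ℂ →+* ℂ) (pt (froot j.fm))) =
        e s • ∑ j : Ix T T' w, j.mu κ • lamArch (P - pt (froot j.fm)) := fun P => by
      rw [Ix.sum κ fun R => lamArch (P - pmap (s : ℂ →+* ℂ) (pt (froot R))),
        Ix.sum κ fun R => lamArch (P - pt (froot R))]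
      exact hG' s fun R => lamArch (P - R)
    simp only [map_sub, k]
    have k' := hG s fun P => e s • ∑ j : Ix T T' w, j.mu κ • lamArch (P - pt (froot j.fm))
    rw [← Ix.sum κ, ← Ix.sum κ] at k'
    rw [k']
    rw [smul_sum]
    exact sum_congr rfl fun i _ => by rw [smul_comm _ (e s), smul_smul, smul_smul, he, one_mul]

theorem GalW.two {N : ℕ} {χ : ℤ → ℤ} (g : GalW D m N χ) (hN : 0 < N) (h : FReps D r T)
    (hD : D < 0) (hm : ∀ a b, χ (a * b) = χ a * χ b)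
    (hu : ∀ a : ℤ, IsCoprime a N → χ a * χ a = 1) :
    GalTwo T (T.image cj) m (χ (-1)) fun s => χ (Gal.exists_pow_zeta s hN).choose := fun σ f => by
  obtain ⟨hc, hκ⟩ := (Gal.exists_pow_zeta σ hN).choose_spec
  beta_reduce
  generalize (Gal.exists_pow_zeta σ hN).choose = κ at hc hκ
  obtain ⟨ε, hε, hσ⟩ := Gal.map_del σ hD
  have h1 := h.cj.1
  have h2 := hu κ hc
  have h3 := hu (-1) isCoprime_one_left.neg_left
  rcases id hε with rfl | rfl
  · rw [g.sum h (T' := T) (by simpa using h) hD hε hσ hκ,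
      g.sum h1 (T' := T.image cj) (by simpa using h1) hD hε hσ hκ]
    simp only [one_mul, smul_add, smul_smul, h2, mul_left_comm (χ κ), one_smul, mul_one]
  · rw [g.sum h1 (T' := T) (by simpa using h) hD hε hσ hκ,
      g.sum h (T' := T.image cj) (by simpa using h1) hD hε hσ hκ]
    simp only [hm, smul_add, smul_smul, h2, mul_left_comm (χ κ), one_smul, mul_one,
      ← mul_assoc (χ (-1)), h3]
    exact add_comm _ _

end Pool.Agent.Lib.MP_696deb_nt.B3
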