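import Pool.Agent.Lib.MP_696deb_nt.B2.XKC
import Pool.Agent.Lib.MP_696deb_nt.B3.LO3

/-! Weighted sums of the points of a twisted Euler system, and the cocycles of Kolyvagin. -/

set_option autoImplicit false

open scoped NNReal Classical
open Finset Matrix NumberTheorySymbols PowerSeries

namespace Pool.Agent.Lib.MP_696deb_nt.B3

open B2

variable {n k l c c' q : ℕ} {S : HS n} {f : ℤ} {Y : ES S f} {g h : Gam} {w : Plc} {P : EE}

theorem kd_tw_zsmul (f : ℤ) (g : Gam) (j : ℤ) (P : EE) : tw f g (j • P) = j • tw f g P := by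
  rw [tw, tw, smul_comm g j P, smul_comm j (chi f g : ℤ)]

theorem kd_tw_sum {ι : Type} (f : ℤ) (g : Gam) (s : Finset ι) (P : ι → EE) :
    tw f g (∑ i ∈ s, P i) = ∑ i ∈ s, tw f g (P i) := by
  simp only [tw, smul_sum]

theorem kd_tw_of (e : chi f g = 1) (P : EE) : tw f g P = g • P := by
  rw [tw, e, Units.val_one, one_smul]

theorem kd_tw_one (f : ℤ) (P : EE) : tw f 1 P = P := by rw [kd_tw_of (map_one _), one_smul]

theorem kd_tw_ine (hf : f ∣ 30) (hw : ¬ w.p ∣ 30) (hg : g ∈ Ine w) (P : EE) : tw f g P = g • P := by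
  refine kd_tw_of (chi_ine (fun e => hw ?_) hg) P
  have h1 : (w.p : ℤ) ∣ ((2 * 30 : ℕ) : ℤ) := e.trans (mul_dvd_mul_left 2 hf)
  rcases (Nat.Prime.dvd_mul w.prime).1 (Int.natCast_dvd_natCast.1 h1) with h2 | h2
  · exact h2.trans (by norm_num)
  · exact h2

theorem kd_tw_fq (f : ℤ) (w : Plc) (P : EE) : tw f (fq w) P = fq w • P :=
  kd_tw_of (by rw [fq, map_mul, Int.units_mul_self]) P

/-- The points of the twist that are defined over the ring class field. -/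
noncomputable def FxT (S : HS n) (f : ℤ) (c : ℕ) : AddSubgroup EE where
  carrier := {P | ∀ g ∈ GK n, S.ψ c g = 1 → tw f g P = P}
  zero_mem' g _ _ := tw_zero f g
  add_mem' h k g hg e := by rw [tw_add, h g hg e, k g hg e]
  neg_mem' h g hg e := by rw [tw_neg, h g hg e]

theorem kd_fx_le (h : Adm n c') (h1 : c ∣ c') : FxT S f c ≤ FxT S f c' :=
  fun _ hP g hg e => hP g hg (kd_ker h h1 hg e)

theorem kd_y (h : Adm n c) (a : S.C c) : Y.y c a ∈ FxT S f c := fun g hg e => by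
  rw [Y.gal c h g hg, e, one_mul]

theorem kd_fx_smul (h : Adm n c) (hg : g ∈ GK n) (hP : P ∈ FxT S f c) : tw f g P ∈ FxT S f c := by
  intro s hs e
  have h1 : g⁻¹ * s * g ∈ GK n := mul_mem (mul_mem (inv_mem hg) hs) hg
  have h2 := hP _ h1 (by
    rw [S.mul _ h _ (mul_mem (inv_mem hg) hs) _ hg, S.mul _ h _ (inv_mem hg) _ hs, e, kd_inv h hg,
      mul_one, inv_mul_cancel])
  rw [← tw_mul, show s * g = g * (g⁻¹ * s * g) by group, tw_mul, h2]

/-- The torsion of the twist over fields that are unramified above thirty. -/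
def Fo (f : ℤ) : Prop :=
  ∀ (m : ℕ) (P : EE), 2 ^ m • P = 0 → (∀ g ∈ I30, tw f g P = P) → 4 • P = 0

/-- Torsion points over ring class fields are killed by four. -/
theorem kd_four (H : Fo f) (hn : Nok n) (h : Adm n c) (hP : P ∈ FxT S f c) (e : 2 ^ k • P = 0) :
    4 • P = 0 := H k P e fun g hg => hP g (hn.I30_le hg) (S.ψ_I30 hn h hg)

theorem kd_uniq (H : Fo f) (hn : Nok n) (h : Adm n c) {P' : EE} (hP : P ∈ FxT S f c)
    (hP' : P' ∈ FxT S f c) (e : 2 ^ k • P = 2 ^ k • P') : 4 • P = 4 • P' := by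
  rw [← sub_eq_zero, ← smul_sub]
  exact kd_four H hn h (sub_mem hP hP') (by rw [smul_sub, e, sub_self])

/-- Weighted traces. -/
noncomputable def ES.F (Y : ES S f) (l c : ℕ) (W : S.C c → ℤ) (x : S.C l) : EE :=
  ∑ a with S.pr l c a = x, W a • Y.y c a

theorem kd_F_fx (h : Adm n c) (W : S.C c → ℤ) (x : S.C l) : Y.F l c W x ∈ FxT S f c :=
  sum_mem fun a _ => zsmul_mem (kd_y h a) _

theorem kd_F_add (W W' : S.C c → ℤ) (x : S.C l) :
    Y.F l c (fun a => W a + W' a) x = Y.F l c W x + Y.F l c W' x := by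
  simp only [ES.F, add_smul, sum_add_distrib]

theorem kd_F_sub (W W' : S.C c → ℤ) (x : S.C l) :
    Y.F l c (fun a => W a - W' a) x = Y.F l c W x - Y.F l c W' x := by
  simp only [ES.F, sub_smul, sum_sub_distrib]

theorem kd_F_mul (m : ℤ) (W : S.C c → ℤ) (x : S.C l) :
    Y.F l c (fun a => m * W a) x = m • Y.F l c W x := by
  simp only [ES.F, mul_smul, smul_sum]

theorem kd_F_smul (h : Adm n c) (hl : l ∣ c) (hg : g ∈ GK n) (W : S.C c → ℤ) (x : S.C l) :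
    tw f g (Y.F l c W ((S.ψ l g)⁻¹ * x)) = Y.F l c (fun a => W ((S.ψ c g)⁻¹ * a)) x := by
  unfold ES.F
  rw [kd_tw_sum]
  refine sum_bijective (fun a => S.ψ c g * a) (Group.mulLeft_bijective _) (fun a => ?_)
    fun a _ => ?_
  · simp only [mem_filter, mem_univ, true_and, map_mul, S.pr_ψ _ _ h hl g hg]
    exact eq_inv_mul_iff_mul_eq
  · simp only [kd_tw_zsmul, Y.gal c h g hg, inv_mul_cancel_left]

theorem kd_F_pr (hq : q.Prime) (h : Adm n (c * q)) (hl : l ∣ c) (W : S.C c → ℤ) (x : S.C l) :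
    Y.F l (c * q) (fun a => W (S.pr c (c * q) a)) x = a15 q • Y.F l c W x := by
  unfold ES.F
  rw [kd_fib h hl (dvd_mul_right c q), smul_sum]
  refine sum_congr rfl fun b _ => ?_
  rw [smul_comm, ← Y.trace c q hq h b, smul_sum]
  exact sum_congr rfl fun a ha => by simp only [(mem_filter.1 ha).2]

/-- Weights whose traces are divisible over the ring class field. -/
def ES.Dv (Y : ES S f) (k l c : ℕ) (W : S.C c → ℤ) : Prop :=
  ∀ x, ∃ P ∈ FxT S f c, 2 ^ k • P = Y.F l c W x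

theorem ES.Dv.add {W W' : S.C c → ℤ} (h : Y.Dv k l c W) (h' : Y.Dv k l c W') :
    Y.Dv k l c fun a => W a + W' a := fun x => by
  obtain ⟨P, h1, h2⟩ := h x
  obtain ⟨P', h3, h4⟩ := h' x
  exact ⟨P + P', add_mem h1 h3, by rw [smul_add, h2, h4, kd_F_add]⟩

theorem kd_dv_two (h : Adm n c) {W : S.C c → ℤ} (e : ∀ a, (2 : ℤ) ^ k ∣ W a) : Y.Dv k l c W := by
  choose V hV using e
  intro x
  refine ⟨_, kd_F_fx (Y := Y) h V x, ?_⟩
  rw [show W = fun a => 2 ^ k * V a from funext hV, kd_F_mul, ← natCast_zsmul, Nat.cast_pow,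
    Nat.cast_ofNat]

theorem kd_dv_sum (h : Adm n c) {ι : Type} (s : Finset ι) {W : ι → S.C c → ℤ}
    (e : ∀ i ∈ s, Y.Dv k l c (W i)) : Y.Dv k l c fun a => ∑ i ∈ s, W i a := by
  induction s using Finset.induction_on with
  | empty => exact kd_dv_two h fun _ => by simp
  | insert i s hi ih =>
    simp only [sum_insert hi]
    exact (e i (mem_insert_self _ _)).add (ih fun j hj => e j (mem_insert_of_mem hj))

theorem kd_dv_pr (hq : q.Prime) (h : Adm n c') (e : c' = c * q) (hl : l ∣ c)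
    (ha : (2 : ℤ) ^ k ∣ a15 q) (W : S.C c → ℤ) : Y.Dv k l c' fun a => W (S.pr c c' a) := by
  subst e
  obtain ⟨m, hm⟩ := ha
  intro x
  refine ⟨m • Y.F l c W x, zsmul_mem (kd_fx_le h (dvd_mul_right c q)
    (kd_F_fx (h.of_dvd (dvd_mul_right c q)) W x)) m, ?_⟩
  rw [kd_F_pr hq h hl, hm, mul_smul, ← natCast_zsmul, Nat.cast_pow, Nat.cast_ofNat]

/-- Roots of a weighted trace and of its derivatives. -/
structure KD (Y : ES S f) (k l c : ℕ) (W : S.C c → ℤ) (R : S.C l → EE)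
    (D : S.C c → S.C l → EE) : Prop where
  nok : Nok n
  adm : Adm n c
  dvd : l ∣ c
  d30 : f ∣ 30
  fo : Fo f
  hR : ∀ x, 2 ^ k • R x = Y.F l c W x
  hD : ∀ b x, 2 ^ k • D b x = Y.F l c (fun a => W (b⁻¹ * a) - W a) x
  fx : ∀ b x, D b x ∈ FxT S f c

/-- The cocycle. -/
noncomputable def ttT (S : HS n) (f : ℤ) (l c : ℕ) (R : S.C l → EE) (D : S.C c → S.C l → EE)
    (g : Gam) (x : S.C l) : EE := 4 • (tw f g (R ((S.ψ l g)⁻¹ * x)) - R x - D (S.ψ c g) x)

variable {W : S.C c → ℤ} {R : S.C l → EE} {D : S.C c → S.C l → EE}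

theorem exists_KD (hn : Nok n) (h : Adm n c) (hl : l ∣ c) (hf : f ∣ 30) (H : Fo f)
    (e : ∀ b, Y.Dv k l c fun a => W (b⁻¹ * a) - W a) : ∃ R D, KD Y k l c W R D := by
  choose D h1 h2 using e
  choose R hR using fun x => lo3_half k (Y.F l c W x)
  exact ⟨R, D, hn, h, hl, hf, H, hR, h2, h1⟩

theorem KD.tors (K : KD Y k l c W R D) (hg : g ∈ GK n) (x : S.C l) :
    2 ^ k • ttT S f l c R D g x = 0 := by
  rw [ttT, smul_comm, smul_sub (2 ^ k), smul_sub (2 ^ k), ← tw_nsmul, K.hR, K.hR, K.hD,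
    kd_F_smul K.adm K.dvd hg, kd_F_sub, sub_self, smul_zero]

theorem KD.one (K : KD Y k l c W R D) (x : S.C l) : 4 • D 1 x = 0 :=
  kd_four K.fo K.nok K.adm (K.fx 1 x) (k := k) (by simp [K.hD, ES.F])

theorem KD.of_ker (K : KD Y k l c W R D) (hg : g ∈ GK n) (e : S.ψ c g = 1)
    (x : S.C l) : ttT S f l c R D g x = tw f g (4 • R x) - 4 • R x := by
  rw [ttT, kd_ker K.adm K.dvd hg e, e, smul_sub, K.one, inv_one, one_mul, sub_zero, smul_sub,
    tw_nsmul]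

theorem KD.coc (K : KD Y k l c W R D) (hg : g ∈ GK n) (hh : h ∈ GK n) (x : S.C l) :
    ttT S f l c R D (g * h) x =
      ttT S f l c R D g x + tw f g (ttT S f l c R D h ((S.ψ l g)⁻¹ * x)) := by
  have e : 4 • D (S.ψ c (g * h)) x =
      4 • (D (S.ψ c g) x + tw f g (D (S.ψ c h) ((S.ψ l g)⁻¹ * x))) := by
    refine kd_uniq K.fo K.nok K.adm (K.fx _ _)
      (add_mem (K.fx _ _) (kd_fx_smul K.adm hg (K.fx _ _))) (k := k) ?_
    rw [smul_add, ← tw_nsmul, K.hD, K.hD, K.hD, kd_F_smul K.adm K.dvd hg, ← kd_F_add,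
      S.mul _ K.adm g hg h hh]
    congr 1
    funext a
    rw [_root_.mul_inv_rev, mul_assoc]
    ring
  unfold ttT
  rw [smul_sub, e, S.mul _ (K.adm.of_dvd K.dvd) g hg h hh, _root_.mul_inv_rev, mul_assoc, tw_mul,
    tw_nsmul, ← smul_sub, ← smul_add, tw_sub, tw_sub]
  congr 1
  abel

theorem KD.sm (K : KD Y k l c W R D) : Sm (GK n) (ttT S f l c R D) := by
  have h1 : Sm (GK n) fun (g : Gam) (x : S.C l) => tw f g (R x) := Sm.pi fun x => sm_tw _ _ _
  obtain ⟨U, u1, u2, u3⟩ := Sm.comp₂ h1 (S.sm c K.adm) Prod.mk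
  refine ⟨U, u1, u2, fun g hg h hh e => funext fun x => ?_⟩
  have e1 := u3 g hg h hh e
  have e2 : S.ψ c g = S.ψ c h := congrArg Prod.snd e1
  have e3 : ∀ x, tw f g (R x) = tw f h (R x) := congrFun (congrArg Prod.fst e1)
  unfold ttT
  rw [e3, ← S.pr_ψ _ _ K.adm K.dvd g hg, ← S.pr_ψ _ _ K.adm K.dvd h hh, e2]

theorem KD.unr (K : KD Y k l c W R D) (h30 : ¬ w.p ∣ 30) (hc : ¬ w.p ∣ c)
    (hg : g ∈ GK n ⊓ Ine w) (x : S.C l) : ttT S f l c R D g x = 0 := by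
  refine K1_tors (w := w) (fun e => h30 (e ▸ by norm_num)) ?_ (K.tors hg.1 x)
  rw [K.of_ker hg.1 (S.unr c w K.adm hc g hg), kd_tw_ine K.d30 h30 hg.2]
  exact K1_ine (fun e => h30 (e.trans (by norm_num))) hg.2 _

variable {Q : Finset Plc}

theorem kd_dv_Wt (h : Adm n c') (e : ∀ w ∈ Q, ∃ c, c' = c * w.p ∧ l ∣ c ∧
      (∀ v ∈ Q, v ≠ w → v.p ∣ c) ∧ (2 : ℤ) ^ k ∣ a15 w.p) (b : S.C c') :
    Y.Dv k l c' fun a => S.Wt k Q c' (b⁻¹ * a) - S.Wt k Q c' a := by
  let m : Plc → ℤ := fun w => (S.th k w (S.pr w.p c' b⁻¹)).val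
  have h1 : Y.Dv k l c' fun a => S.Wt k Q c' (b⁻¹ * a) -
      ∏ w ∈ Q, (((S.th k w (S.pr w.p c' a)).val : ℤ) + m w) := kd_dv_two h fun a => by
    have := (ZMod.intCast_zmod_eq_zero_iff_dvd (S.Wt k Q c' (b⁻¹ * a) -
      ∏ w ∈ Q, (((S.th k w (S.pr w.p c' a)).val : ℤ) + m w)) (2 ^ k)).1 (by
        simp only [HS.Wt, m, map_mul, kd_th_mul, Int.cast_sub, Int.cast_prod, Int.cast_add,
          Int.cast_natCast, ZMod.natCast_zmod_val, add_comm, sub_self])
    exact_mod_cast this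
  have h2 : Y.Dv k l c' fun a => ∑ t ∈ Q.powerset.erase Q, S.Wt k t c' a * ∏ w ∈ Q \ t, m w := by
    refine kd_dv_sum h _ fun t ht => ?_
    obtain ⟨t1, t2⟩ := mem_erase.1 ht
    obtain ⟨w, w1, w2⟩ := exists_of_ssubset (ssubset_of_subset_of_ne (mem_powerset.1 t2) t1)
    obtain ⟨c, e1, e2, e3, e4⟩ := e w w1
    have := kd_dv_pr (Y := Y) w.prime h e1 e2 e4 fun a => S.Wt k t c a * ∏ w ∈ Q \ t, m w
    simpa only [kd_Wt_pr h (Dvd.intro _ e1.symm) fun v hv =>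
      e3 v (mem_powerset.1 t2 hv) fun e => w2 (e ▸ hv)] using this
  convert h1.add h2 using 2 with a
  rw [prod_add, ← add_sum_erase _ _ (mem_powerset_self Q), Finset.sdiff_self, prod_empty, mul_one]
  simp only [HS.Wt]
  ring

end Pool.Agent.Lib.MP_696deb_nt.B3
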