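import Pool.Agent.Lib.MP_696deb_nt.B3.KDa

/-! The classes of Kolyvagin of a twisted system at the primes that divide the conductor. -/

set_option autoImplicit false

open scoped NNReal Classical
open Finset Matrix NumberTheorySymbols PowerSeries

namespace Pool.Agent.Lib.MP_696deb_nt.B3

open B2

variable {n k l c c' M : ℕ} {S : HS n} {f : ℤ} {Y : ES S f} {w : Plc} {m : ℤ}

/-- The congruence relation for weighted traces. -/
theorem kd_cong (h : Adm n (c * w.p)) (hl : l ∣ c) (e : 2 ^ (k + 1) ∣ w.p + 1)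
    (hM : w.p + 1 = 2 ^ k * M) (V : ZMod (2 ^ k) → ℤ) (W : S.C c → ℤ) (x : S.C l) :
    Y.F l (c * w.p) (fun a => V (S.th k w (S.pr w.p (c * w.p) a)) * W (S.pr c (c * w.p) a)) x -
      ((∑ j, V j) * M) • fr w • Y.F l c W x ∈ K1 w := by
  unfold ES.F
  rw [kd_fib h hl (dvd_mul_right _ _), smul_sum, smul_sum, ← sum_sub_distrib]
  refine sum_mem fun b _ => ?_
  have h1 : ∑ a with S.pr c (c * w.p) a = b, V (S.th k w (S.pr w.p (c * w.p) a)) *
      (ordCompl[2] (w.p + 1) : ℕ) = (∑ j, V j) * M := by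
    rw [← sum_fiberwise_of_maps_to (t := univ) (g := fun a => S.th k w (S.pr w.p (c * w.p) a))
      (fun _ _ => mem_univ _), sum_mul]
    refine sum_congr rfl fun j _ => ?_
    rw [sum_congr rfl (g := fun _ => V j * (ordCompl[2] (w.p + 1) : ℕ)) fun a ha => by
      rw [(mem_filter.1 ha).2], sum_const, filter_filter, ← kd_card h e hM b j, nsmul_eq_mul,
      Nat.cast_mul]
    ring
  rw [← h1, sum_smul, ← sum_sub_distrib]
  refine sum_mem fun a ha => ?_
  have h2 := zsmul_mem (Y.kron c w _ h (fr_spec w) a) (V (S.th k w (S.pr w.p (c * w.p) a)) * W b)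
  simp only [(mem_filter.1 ha).2] at h2 ⊢
  convert h2 using 1
  rw [smul_comm (fr w), ← natCast_zsmul]
  generalize fr w • Y.y c b = P
  module

theorem kd_F_fq (hc : Adm n c) (hw : Adm n w.p) (W : S.C c → ℤ) (x : S.C l) :
    fq w • Y.F l c W x = Y.F l c W x :=
  (kd_tw_fq f w _).symm.trans (kd_F_fx hc W x _ (kd_fq (S := S) hc hw).1 (kd_fq hc hw).2)

variable {W : S.C c → ℤ} {W' : S.C c' → ℤ} {R R' : S.C l → EE} {D : S.C c → S.C l → EE}
  {D' : S.C c' → S.C l → EE}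

/-- The classes vanish at the square of Frobenius at the primes that divide the conductor. -/
theorem KD.tr (K : KD Y k l c' W' R' D') (T : B2.Tate) (e : c' = c * w.p) (hl : l ∣ c)
    (h1 : 2 ^ (k + 1) ∣ w.p + 1) (h2 : (2 : ℤ) ^ k ∣ a15 w.p)
    (hW : ∀ a, W' a = (S.th k w (S.pr w.p c' a)).val * W (S.pr c c' a)) (x : S.C l) :
    ttT S f l c' R' D' (fq w) x = 0 := by
  subst e
  have hw : Adm n w.p := K.adm.of_dvd (dvd_mul_left _ _)
  have hc : Adm n c := K.adm.of_dvd (dvd_mul_right _ _)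
  have hq := kd_fq (S := S) K.adm hw
  obtain ⟨M, hM⟩ := id h1
  obtain ⟨m, hm⟩ := h2
  obtain ⟨s, hs⟩ := kd_gauss k
  rw [pow_succ, mul_assoc] at hM
  refine K1_tors hw.ne.1 ?_ (K.tors hq.1 x)
  have h3 := kd_cong (Y := Y) K.adm hl h1 hM (fun j => (j.val : ℤ)) W x
  rw [← funext hW, ← K.hR, Nat.cast_mul, Nat.cast_ofNat, ← mul_assoc, hs] at h3
  obtain ⟨U, hU⟩ : ∃ U, U = (s * M) • fr w • Y.F l c W x := ⟨_, rfl⟩
  have h4 : 2 ^ k • (R' x - U) ∈ K1 w := by
    convert h3 using 1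
    rw [hU, ← natCast_zsmul _ (2 ^ k), ← natCast_zsmul _ (2 ^ k), Nat.cast_pow, Nat.cast_ofNat]
    generalize fr w • Y.F l c W x = P
    module
  have h5 : fq w • U = U := by
    rw [hU, smul_comm, kd_fq_fr, kd_F_fq hc hw]
  have h6 := add_mem (kd_es T hw.nd30 hM hm (R' x - U))
    (sub_mem (zsmul_mem ((K1_smul (fr_spec w).1).2 h4) m) (nsmul_mem h4 (2 * M)))
  rw [sub_add_cancel, smul_sub, h5, sub_sub_sub_cancel_right] at h6
  rw [K.of_ker hq.1 hq.2, kd_tw_fq, smul_comm, ← smul_sub]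
  exact nsmul_mem h6 4

/-- The relation between the singular part and the finite part. -/
theorem KD.step (K : KD Y k l c W R D) (K' : KD Y k l c' W' R' D') (T : B2.Tate)
    (e : c' = c * w.p) (hc : ¬ w.p ∣ c) (h1 : 2 ^ (k + 1) ∣ w.p + 1) (h2 : (2 : ℤ) ^ k ∣ a15 w.p)
    (hW : ∀ a, W' a = (S.th k w (S.pr w.p c' a)).val * W (S.pr c c' a)) (x : S.C l) :
    fr w • ttT S f l c' R' D' (gn w) x = ttT S f l c R D (fq w) x := by
  subst e
  have hw : Adm n w.p := K'.adm.of_dvd (dvd_mul_left _ _)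
  have hq := kd_fq (S := S) K.adm hw
  have hs := (gn_spec hw.ne.1).1
  have hs' := hw.ine hs
  obtain ⟨M, hM⟩ := (pow_dvd_pow 2 k.le_succ).trans h1
  obtain ⟨m, hm⟩ := h2
  have p1 : S.ψ c (gn w) = 1 := S.unr c w K.adm hc _ ⟨hs', hs⟩
  have p2 : S.th k w (S.ψ w.p (gn w)) = 1 := Ring.inverse_mul_cancel _ (kd_unit hw h1)
  obtain ⟨Z, hZ⟩ : ∃ Z, Z = Y.F l (c * w.p) (fun a =>
    (if S.th k w (S.pr w.p (c * w.p) a) = 0 then 1 else 0) * W (S.pr c (c * w.p) a)) x := ⟨_, rfl⟩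
  have h3 : Z - M • fr w • 2 ^ k • R x ∈ K1 w := by
    have := kd_cong (Y := Y) K'.adm K.dvd h1 hM (fun j => if j = 0 then 1 else 0) W x
    rwa [← hZ, ← K.hR, sum_ite_eq', if_pos (mem_univ _), one_mul, natCast_zsmul] at this
  have h4 : 4 • D' (S.ψ _ (gn w)) x = 4 • (Z - m • 2 ^ k • R x) := by
    refine kd_uniq K.fo K.nok K'.adm (K'.fx _ _) (sub_mem (hZ ▸ kd_F_fx K'.adm _ _) (zsmul_mem
      (K.hR x ▸ kd_fx_le K'.adm (dvd_mul_right _ _) (kd_F_fx K.adm _ _)) _)) (k := k) ?_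
    have h5 : 2 ^ k • (Z - m • 2 ^ k • R x) = (2 : ℤ) ^ k • Z - a15 w.p • Y.F l c W x := by
      rw [hm, K.hR, ← natCast_zsmul _ (2 ^ k), Nat.cast_pow, Nat.cast_ofNat]
      module
    rw [h5, K'.hD, hZ, ← kd_F_mul, ← kd_F_pr w.prime K'.adm K.dvd, ← kd_F_sub]
    congr 1
    funext a
    rw [hW, hW, map_mul, map_mul, map_inv, map_inv, S.pr_ψ _ _ K'.adm (dvd_mul_left _ _) _ hs',
      S.pr_ψ _ _ K'.adm (dvd_mul_right _ _) _ hs', p1, kd_th_mul, kd_th_inv, p2, inv_one, one_mul,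
      ← sub_mul, kd_val]
    push_cast
    ring
  have h5 : ttT S f l _ R' D' (gn w) x - 4 • (m • 2 ^ k • R x - M • fr w • 2 ^ k • R x) ∈ K1 w := by
    have := sub_mem (nsmul_mem (K1_ine (fun e => hw.nd30 (e.trans (by norm_num))) hs (R' x)) 4)
      (nsmul_mem h3 4)
    convert this using 1
    rw [ttT, kd_tw_ine K.d30 hw.nd30 hs, kd_ker K.adm K.dvd hs' p1, inv_one, one_mul, smul_sub, h4]
    generalize fr w • 2 ^ k • R x = P
    generalize gn w • R' x = P'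
    module
  have h6 : fr w • fr w • 2 ^ k • R x = 2 ^ k • R x := by
    rw [K.hR, ← mul_smul]
    exact kd_F_fq K.adm hw W x
  have h7 := sub_mem ((K1_smul (fr_spec w).1).2 h5) (nsmul_mem (kd_es T hw.nd30 hM hm (R x)) 4)
  rw [← sub_eq_zero]
  refine K1_tors hw.ne.1 ?_ (m := k) (by
    rw [smul_sub, smul_comm, K'.tors hs', K.tors hq.1, smul_zero, sub_zero])
  convert h7 using 1
  rw [K.of_ker hq.1 hq.2, kd_tw_fq, smul_sub (fr w), smul_comm (fr w) 4, smul_sub (fr w),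
    smul_comm (fr w) m, smul_comm (fr w) M, h6, smul_comm (fq w) 4]
  generalize fr w • 2 ^ k • R x = P
  generalize fq w • R x = P'
  generalize fr w • ttT S f l _ R' D' (gn w) x = P''
  module

end Pool.Agent.Lib.MP_696deb_nt.B3
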