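import Pool.Agent.Lib.MP_696deb_nt.B2.TAa
import Pool.Agent.Lib.MP_696deb_nt.B2.TAc
import Pool.Agent.Lib.MP_696deb_nt.B2.MDE

/-! Kummer cocycles of a quadratic twist are orthogonal for the Weil pairing. -/

set_option autoImplicit false

open scoped NNReal Classical
open Matrix NumberTheorySymbols

namespace Pool.Agent.Lib.MP_696deb_nt.B3

open B2

section
variable (d : ℤ) (g h : Gam) (P Q : EE)

theorem l2_add : tw d g (P + Q) = tw d g P + tw d g Q := by rw [tw, tw, tw, smul_add, smul_add]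

theorem l2_neg : tw d g (-P) = -tw d g P := by rw [tw, tw, smul_neg, smul_neg]

theorem l2_sub : tw d g (P - Q) = tw d g P - tw d g Q := by rw [tw, tw, tw, smul_sub, smul_sub]

theorem l2_zero : tw d g 0 = 0 := by rw [tw, smul_zero, smul_zero]

theorem l2_nsmul (k : ℕ) : tw d g (k • P) = k • tw d g P := by
  rw [tw, tw, smul_comm g, smul_comm]

theorem l2_zsmul (k : ℤ) : tw d g (k • P) = k • tw d g P := by
  rw [tw, tw, smul_comm g, smul_comm]

theorem l2_mul : tw d (g * h) P = tw d g (tw d h P) := by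
  rw [tw, tw, tw, map_mul, Units.val_mul, mul_smul, mul_smul, smul_comm g (_ : ℤ)]

theorem l2_or : tw d g P = g • P ∨ tw d g P = -(g • P) := by
  rcases Int.units_eq_one_or (chi d g) with k | k <;> simp [tw, k]

theorem l2_xco : xco (tw d g P) = g (xco P) := by
  rcases l2_or d g P with k | k <;> rw [k]
  · exact xco_smul g P
  · rw [xco_neg, xco_smul]

theorem l2_sm (H : Subgroup Gam) : Sm H fun g => tw d g P :=
  (sm_chi d).comp₂ (sm_pt H P) fun a R => (a : ℤ) • R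

theorem l2_wneg (m : ℕ) : wpsi m (-P) (-Q) = wpsi m P Q := by
  induction m generalizing P with
  | zero => rfl
  | succ m ih =>
    rw [wpsi, wpsi, smul_neg, ih, smul_neg, ps2, ps2, ← neg_add, xco_neg, xco_neg, xco_neg]

theorem l2_wpsi (m : ℕ) : g (wpsi m P Q) = wpsi m (tw d g P) (tw d g Q) := by
  rw [wpsi_smul]
  rcases Int.units_eq_one_or (chi d g) with k | k <;> simp [tw, k, l2_wneg]

end

theorem l2_mat {m : ℕ} (e e' : (Fin 2 → ZMod (2 ^ m)) →+ EE) (h : ∀ x, ∃ y, e' y = e x) :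
    ∃ A : Matrix (Fin 2) (Fin 2) (ZMod (2 ^ m)), ∀ x, e x = e' (A *ᵥ x) := by
  choose f hf using h
  refine ⟨of fun i j => f (Pi.single j 1) i, fun x => ?_⟩
  have k : x = (x 0).val • Pi.single 0 1 + (x 1).val • Pi.single 1 1 := by
    funext i
    rw [Pi.add_apply, Pi.smul_apply, Pi.smul_apply]
    fin_cases i <;> simp
  have k' : ∀ j, (of fun i j => f (Pi.single j 1) i) *ᵥ Pi.single j 1 = f (Pi.single j 1) :=
    fun j => funext fun i => by rw [mulVec_single_one, col_apply, of_apply]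
  rw [k, mulVec_add, mulVec_smul, mulVec_smul, k', k', map_add, map_add, map_nsmul, map_nsmul,
    map_nsmul, map_nsmul, hf, hf]

/-- A basis of the points of order `2 ^ m` with the matrices of the twisted action. -/
structure Lv (d : ℤ) (m : ℕ) where
  e : (Fin 2 → ZMod (2 ^ m)) →+ EE
  r : Gam → Matrix (Fin 2) (Fin 2) (ZMod (2 ^ m))
  inj : Function.Injective e
  surj : ∀ P, 2 ^ m • P = 0 → ∃ x, e x = P
  smul : ∀ g x, tw d g (e x) = e (r g *ᵥ x)

variable {d : ℤ} {m : ℕ} (T : Lv d m) {D : Subgroup Gam} {x y z : Gam → Fin 2 → ZMod (2 ^ m)}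
  {S S' R : EE}

theorem Lv.tors (x : Fin 2 → ZMod (2 ^ m)) : 2 ^ m • T.e x = 0 := by
  rw [← map_nsmul, show 2 ^ m • x = 0 from funext fun i => by
    rw [Pi.smul_apply, nsmul_eq_mul, ZMod.natCast_self, zero_mul, Pi.zero_apply], map_zero]

theorem Lv.weil : ∃ u : (ZMod (2 ^ m))ˣ, ∀ A B x y, Gn (2 ^ m • A) (2 ^ m • B) →
    wpsi m (A + T.e x) (B + T.e y) * wpsi m A B =
      zeta m ^ (u * det2 x y).val * (wpsi m A (B + T.e y) * wpsi m (A + T.e x) B) := by
  obtain ⟨E⟩ := exists_emb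
  obtain ⟨A, hA⟩ := l2_mat T.e (E.emb m) fun x => E.surj m _ (T.tors x)
  obtain ⟨B, hB⟩ := l2_mat (E.emb m) T.e fun x => T.surj _ (E.tors m x)
  have h : B * A = 1 := Matrix.ext_of_mulVec_single fun _ => T.inj (by
    rw [← mulVec_mulVec, ← hB, ← hA, one_mulVec])
  have h1 : IsUnit A.det := isUnit_det_of_left_inverse h
  obtain ⟨u, hu⟩ := E.weil m
  refine ⟨u * h1.unit, fun P Q x y k => ?_⟩
  rw [hA, hA, hu P Q _ _ k, Units.val_mul, IsUnit.unit_spec, mul_assoc, ← det2_mulVec]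

theorem Lv.sm : Sm D T.r :=
  ((Sm.pi fun j : Fin 2 => l2_sm d (T.e (Pi.single j 1)) D).comp fun P =>
    of fun i j => Function.invFun T.e (P j) i).congr fun g _ => Matrix.ext fun i j => by
      rw [of_apply, T.smul, Function.leftInverse_invFun T.inj, mulVec_single_one, col_apply]

theorem Lv.det (g : Gam) : (T.r g).det = cy m g := by
  obtain ⟨u, hu⟩ := T.weil
  obtain ⟨A, hA⟩ := tab_half m T1
  obtain ⟨B, hB⟩ := tab_half m T2
  have k : Gn T1 T2 :=
    ⟨tab_not two_T2 T_ne.1 T_ne.2.2.2.1, tab_not two_T1 T_ne.2.1 T_ne.2.2.2.1.symm⟩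
  have hA' : 2 ^ m • tw d g A = T1 := by rw [← l2_nsmul, hA, mde_tw_tors d g two_T1]
  have hB' : 2 ^ m • tw d g B = T2 := by rw [← l2_nsmul, hB, mde_tw_tors d g two_T2]
  have e := congrArg g (hu A B ![1, 0] ![0, 1] (by rwa [hA, hB]))
  simp only [map_mul, l2_wpsi d, l2_add, T.smul, smul_zeta_val] at e
  rw [hu _ _ _ _ (by rwa [hA', hB']), det2_mulVec] at e
  have e' := zeta_val_inj (mul_right_cancel₀ (mul_ne_zero
    (wpsi_ne (Gn.gw (by rwa [smul_add, T.tors, add_zero, hA', hB'])))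
    (wpsi_ne (Gn.gw (by rwa [smul_add, T.tors, add_zero, hA', hB'])))) e)
  simpa [det2, mul_comm] using e'

/-- `x` is the Kummer cocycle of `S`. -/
def Lv.K (D : Subgroup Gam) (x : Gam → Fin 2 → ZMod (2 ^ m)) (S : EE) : Prop :=
  ∀ g ∈ D, T.e (x g) = tw d g S - S

/-- The cup product. -/
noncomputable def Lv.U (x y : Gam → Fin 2 → ZMod (2 ^ m)) (g h : Gam) : ZMod (2 ^ m) :=
  det2 (x g) (T.r g *ᵥ y h)

theorem Lv.det2 (g : Gam) (a b : Fin 2 → ZMod (2 ^ m)) :
    det2 (T.r g *ᵥ a) (T.r g *ᵥ b) = cy m g * det2 a b := by rw [det2_mulVec, T.det]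

theorem Lv.mul (g h : Gam) (a : Fin 2 → ZMod (2 ^ m)) :
    T.r (g * h) *ᵥ a = T.r g *ᵥ T.r h *ᵥ a :=
  T.inj (by rw [← T.smul, ← T.smul, ← T.smul, l2_mul])

variable {T}

theorem Lv.K.coc (hx : T.K D x S) {g h : Gam} (hg : g ∈ D) (hh : h ∈ D) :
    x (g * h) = x g + T.r g *ᵥ x h := T.inj (by
  rw [map_add, ← T.smul, hx _ hg, hx _ hh, hx _ (mul_mem hg hh), l2_sub, l2_mul]
  abel)

theorem Lv.K.sm (hx : T.K D x S) : Sm D x :=
  ((l2_sm d S D).comp fun P => Function.invFun T.e (P - S)).congr fun g hg => by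
    rw [← hx g hg, Function.leftInverse_invFun T.inj]

theorem Lv.K.fix (hx : T.K D x S) {g : Gam} (hg : g ∈ D) : tw d g (2 ^ m • S) = 2 ^ m • S := by
  rw [l2_nsmul, ← sub_eq_zero, ← smul_sub, ← hx g hg, T.tors]

theorem Lv.K.add (hx : T.K D x S) (hy : T.K D y S') : T.K D (x + y) (S + S') :=
  fun g hg => by
    rw [Pi.add_apply, map_add, hx g hg, hy g hg, l2_add]
    abel

theorem l2_ex (h : ∀ g : Gam, tw d g (2 ^ m • R) = 2 ^ m • R) :
    ∃ z : Gam → Fin 2 → ZMod (2 ^ m), T.K D z R := by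
  choose z hz using fun g : Gam => T.surj (tw d g R - R) (by
    rw [smul_sub, ← l2_nsmul, h, sub_self])
  exact ⟨z, fun g _ => hz g⟩

theorem l2_c2 (hx : T.K D x S) (hy : T.K D y S') : C2 m D (T.U x y) := by
  refine ⟨((hx.sm.comp₂ T.sm Prod.mk).left.comp₂ hy.sm.right
    fun a b => det2 a.1 (a.2 *ᵥ b)), fun g hg h hh k hk => ?_⟩
  simp only [Lv.U]
  rw [← T.det2, hx.coc hg hh, hy.coc hh hk, T.mul, mulVec_add]
  simp only [det2, Pi.add_apply]
  ring

theorem l2_swap (hx : T.K D x S) (hy : T.K D y S') (h : Spl m D (T.U y x)) :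
    Spl m D (T.U x y) := by
  refine tac_lin h (c' := fun g k => T.U x y g k - T.U y x g k)
    ⟨fun g => det2 (y g) (x g), hy.sm.comp₂ hx.sm det2, fun g hg k hk => ?_⟩ 1 1
    fun _ _ _ _ => by ring
  simp only [Lv.U]
  rw [← T.det2, hx.coc hg hk, hy.coc hg hk]
  simp only [det2, Pi.add_apply]
  ring

theorem l2_cob (hx : T.K D x S) (hy : T.K D y S') (h1 : ∀ g ∈ D, tw d g R = R)
    (h2 : 2 ^ m • (S' - R) = 0) : Spl m D (T.U x y) := by
  obtain ⟨s, hs⟩ := T.surj _ h2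
  have e : ∀ g ∈ D, y g = T.r g *ᵥ s - s := fun g hg => T.inj (by
    rw [map_sub, ← T.smul, hs, hy g hg, l2_sub, h1 g hg]
    abel)
  refine ⟨fun g => -det2 (x g) (T.r g *ᵥ s),
    hx.sm.comp₂ T.sm fun a b => -det2 a (b *ᵥ s), fun g hg k hk => ?_⟩
  simp only [Lv.U]
  rw [mul_neg, ← T.det2, hx.coc hg hk, e k hk, T.mul, mulVec_sub]
  simp only [det2, Pi.add_apply, Pi.sub_apply]
  ring

theorem l2_gen (hD : IsClosed (D : Set Gam)) (hx : T.K D x S) (hy : T.K D y S')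
    (h : Gn (2 ^ m • S) (2 ^ m • S')) : Spl m D (T.U x y) := by
  obtain ⟨u, hu⟩ := T.weil
  have k1 : ∀ g ∈ D, Gn (2 ^ m • S) (2 ^ m • tw d g S') := fun g hg => by
    rwa [← l2_nsmul, hy.fix hg]
  have k0 := wpsi_ne h.gw
  have key : Spl m D fun g k => u * T.U x y g k := by
    refine (spl_iff hD ((l2_c2 hx hy).smul u)).2
      ⟨fun g => if g ∈ D then wpsi m S (tw d g S') / wpsi m S S' else 1,
        ((l2_sm d S' D).comp fun P => wpsi m S P / wpsi m S S').congr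
          fun g hg => (if_pos hg).symm, fun g => ?_, fun g hg k hk => ?_⟩
    · dsimp only
      split_ifs with hg
      exacts [div_ne_zero (wpsi_ne (k1 g hg).gw) k0, one_ne_zero]
    · have e := hu S (tw d g S') (x g) (T.r g *ᵥ y k) (k1 g hg)
      have k2 : wpsi m (tw d g S) (tw d g S') ≠ 0 := by
        rw [← l2_wpsi]
        exact (map_ne_zero g).2 k0
      rw [← T.smul, hx g hg, hy k hk, l2_sub, add_sub_cancel, add_sub_cancel] at e
      simp only [if_pos hg, if_pos hk, if_pos (mul_mem hg hk), Lv.U]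
      rw [map_div₀, l2_wpsi d, l2_wpsi d, l2_mul]
      field_simp
      linear_combination -e
  exact tac_lin key key ↑u⁻¹ 0 fun g _ k _ => by simp

theorem l2_mem (hD : IsClosed (D : Set Gam)) (hx : T.K D x S) (hy : T.K D y S')
    (h : 2 ^ m • S ∈ AddSubgroup.zmultiples (2 ^ m • S')) : Spl m D (T.U x y) := by
  by_cases ho : ∃ k : ℤ, (2 * k + 1) • 2 ^ m • S' = 0
  · obtain ⟨k, hk⟩ := ho
    obtain ⟨a, b, e⟩ : IsCoprime ((2 : ℤ) ^ m) (2 * k + 1) :=
      IsCoprime.pow_left ⟨-k, 1, by ring⟩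
    refine l2_cob hx hy (R := a • 2 ^ m • S') (fun g hg => by rw [l2_zsmul, hy.fix hg]) ?_
    rw [smul_sub, ← natCast_zsmul (a • _), ← mul_smul, Nat.cast_pow, Nat.cast_ofNat, mul_comm,
      eq_sub_of_add_eq e, sub_smul, mul_smul b, hk, one_smul, smul_zero, sub_zero, sub_self]
  obtain ⟨t, -, t2, t3⟩ := tac_two (2 ^ m • S')
  obtain ⟨R, hR⟩ := tac_half m t
  obtain ⟨z, hz⟩ := l2_ex (T := T) (D := D) (hR ▸ fun g => mde_tw_tors d g t2)
  have k : ∀ P ∈ AddSubgroup.zmultiples (2 ^ m • S'), Gn (P + t) (2 ^ m • S') := fun P hP => by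
    refine ⟨fun e => t3 (by simpa using sub_mem e hP), fun e => ?_⟩
    obtain ⟨a, rfl⟩ := AddSubgroup.mem_zmultiples_iff.1 hP
    obtain ⟨c, e⟩ := AddSubgroup.mem_zmultiples_iff.1 e
    have t4 : ∀ k : ℤ, (2 * k) • t = 0 := fun k => by
      rw [mul_comm, mul_smul, two_zsmul, ← two_nsmul, t2, smul_zero]
    obtain ⟨k, rfl | rfl⟩ := Int.even_or_odd' c
    · refine ho ⟨-(k * a), ?_⟩
      rw [smul_add, t4, add_zero, ← mul_smul] at e
      rw [add_smul, one_smul, mul_neg, neg_smul, ← mul_assoc, e, neg_add_cancel]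
    · rw [smul_add, add_smul _ _ t, t4, zero_add, one_smul] at e
      rw [eq_sub_of_add_eq' e] at t3
      exact t3 (sub_mem (AddSubgroup.mem_zmultiples _) (zsmul_mem hP _))
  refine tac_lin (l2_gen hD (hx.add hz) hy (by rw [smul_add, hR]; exact k _ h))
    (l2_gen hD hz hy (by simpa [hR] using k 0 (zero_mem _))) 1 (-1) fun g _ k _ => ?_
  simp only [Lv.U, det2, Pi.add_apply]
  ring

theorem Lv.iso (T : Lv d m) (hD : IsClosed (D : Set Gam))
    (hx : ∀ g ∈ D, T.e (x g) = tw d g S - S) (hy : ∀ g ∈ D, T.e (y g) = tw d g S' - S') :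
    Spl m D fun g h => B2.det2 (x g) (T.r g *ᵥ y h) := by
  by_cases h1 : 2 ^ m • S ∈ AddSubgroup.zmultiples (2 ^ m • S')
  · exact l2_mem hD hx hy h1
  by_cases h2 : 2 ^ m • S' ∈ AddSubgroup.zmultiples (2 ^ m • S)
  · exact l2_swap hx hy (l2_mem hD hy hx h2)
  · exact l2_gen hD hx hy ⟨h1, h2⟩

/-- The basis given by the Tate module. -/
noncomputable def lvOf (T : Tate) (d : ℤ) (m : ℕ) : Lv d m where
  e := T.emb m
  r g := (chi d g : ℤ) • mred m (T.ρ g)
  inj := T.inj m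
  surj := T.surj m
  smul g x := by rw [tw, T.smul, smul_mulVec, map_zsmul]

theorem iso_tw (T : Tate) (hD : IsClosed (D : Set Gam))
    (hx : ∀ g ∈ D, T.emb m (x g) = tw d g S - S) (hy : ∀ g ∈ D, T.emb m (y g) = tw d g S' - S') :
    Spl m D fun g h => det2 (x g) (((chi d g : ℤ) • mred m (T.ρ g)) *ᵥ y h) :=
  (lvOf T d m).iso hD hx hy

end Pool.Agent.Lib.MP_696deb_nt.B3
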