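import Pool.Agent.Lib.MP_696deb_nt.B3.L2a
import Pool.Agent.Lib.MP_696deb_nt.B2.TAi
import Pool.Agent.Lib.MP_696deb_nt.B2.TAk
import Pool.Agent.Lib.MP_696deb_nt.B2.TAl

/-! Local points at two on the ramified quadratic twists. -/

set_option autoImplicit false

open scoped NNReal Classical
open Matrix NumberTheorySymbols

namespace Pool.Agent.Lib.MP_696deb_nt.B3

open B2

/-- Kummer cocycles of the twist with values in the points of order two. -/
def KLd (d : ℤ) (D : Subgroup Gam) (α β : Gam → ZMod (2 ^ 1)) : Prop :=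
  ∃ S : EE, ∀ g ∈ D, tw d g S - S = (α g).val • T2 + (β g).val • T1

variable {d : ℤ} {n : ℕ} {w : Plc} {D : Subgroup Gam} {α β α' β' : Gam → ZMod (2 ^ 1)}

theorem KLd.congr (h : KLd d D α β) (h1 : ∀ g ∈ D, α g = α' g) (h2 : ∀ g ∈ D, β g = β' g) :
    KLd d D α' β' :=
  h.imp fun S hS g hg => by rw [← h1 g hg, ← h2 g hg, hS g hg]

theorem KLd.add (h : KLd d D α β) (h' : KLd d D α' β') : KLd d D (α + α') (β + β') := by
  obtain ⟨S, hS⟩ := h
  obtain ⟨S', hS'⟩ := h'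
  refine ⟨S + S', fun g hg => ?_⟩
  rw [Pi.add_apply, Pi.add_apply, taj_val two_T2, taj_val two_T1, l2_add, add_sub_add_comm,
    hS g hg, hS' g hg]
  abel

theorem KLd.smul (h : KLd d D α β) (c : ZMod (2 ^ 1)) : KLd d D (c • α) (c • β) := by
  rcases b3b_two c with rfl | rfl
  · exact ⟨0, fun g _ => by simp [l2_zero]⟩
  · rwa [one_smul, one_smul]

theorem KLd.twist {d' : ℤ} (h : KLd d D α β) (e : ∀ g ∈ D, chi d g = chi d' g) : KLd d' D α β :=
  h.imp fun S k g hg => by rw [← k g hg, tw, tw, e g hg]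

theorem l2_pt (d0 : d ≠ 0) {x s : Qbar} (hx : Fx D x) (hs : Fx D s) (x0 : x ≠ 0)
    (e : d * s ^ 2 = x * (4 * x + 9) * (x - 4)) : ∃ (a : Qbar) (α β : Gam → ZMod (2 ^ 1)),
      (a = 1 ∧ 4 * x + 9 = 0 ∨ a = d * (4 * x + 9)) ∧ Kum 1 D a α ∧ Kum 1 D (d * x) β ∧
        KLd d D α β := by
  let P : EE := .some x ((rt d * s - x) / 2) ((W15_nonsingular _ _).mpr (by
    linear_combination e / 4 + s ^ 2 / 4 * rt_sq d))
  have P0 : P ≠ 0 := WeierstrassCurve.Affine.Point.some_ne_zero _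
  have hP : ∀ g ∈ D, tw d g P = P := fun g hg => by
    have k := chi_spec (rt_sq d) g
    have ky : yco (g • P) = ((chi d g : ℤ) * rt d * s - x) / 2 := by
      rw [yco_smul]
      change g ((rt d * s - x) / 2) = _
      rw [map_div₀, map_sub, map_mul, hx g hg, hs g hg, k, map_ofNat]
    have kx : xco (g • P) = x := by
      rw [xco_smul]
      exact hx g hg
    have g0 : g • P ≠ 0 := mt (smul_eq_zero_iff_eq g).1 P0
    rcases Int.units_eq_one_or (chi d g) with c | c <;> rw [c] at ky <;> rw [tw, c]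
    · rw [Units.val_one, one_smul]
      exact r0_ext g0 P0 kx (ky.trans (by simp [P]))
    · rw [Units.val_neg, Units.val_one, neg_smul, one_smul]
      refine r0_ext (neg_ne_zero.2 g0) P0 ((xco_neg _).trans kx) ?_
      rw [r0_neg, ky, kx]
      change _ = (rt d * s - x) / 2
      push_cast
      ring
  obtain ⟨S, hS⟩ := exists_half P
  obtain ⟨α, β, h1, h2, h3⟩ := m_desc d D S d0 fun g hg => by rw [hS, hP g hg]
  rw [hS] at h1 h2
  have P2 : P ≠ T2 := fun k => x0 (congrArg xco k)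
  refine ⟨kA d P, α, β, ?_, h1, ?_, S, h3⟩
  · rw [kA]
    by_cases k : P = 0 ∨ P = T1
    · refine .inl ⟨if_pos k, ?_⟩
      have k1 : x = -9 / 4 := congrArg xco (k.resolve_left P0)
      rw [k1]
      norm_num
    · exact .inr (by rw [if_neg k]; rfl)
  · rwa [kB, if_neg P0, if_neg P2] at h2

/-- Norms from the quadratic extension give local points. -/
theorem l2_norm (d0 : d ≠ 0) (hD : D ≤ Dec w) {s : Qbar} (hs : Fx D s)
    (hv : w.V (4 * d) < w.V (s ^ 2 - d)) (h : Kum 1 D (s ^ 2 - d) β) : KLd d D 0 β := by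
  obtain ⟨u, hu⟩ : ∃ u, u = s ^ 2 - d := ⟨_, rfl⟩
  rw [← hu] at hv h
  obtain ⟨u0, uf⟩ := h.fx
  have dq : (d : Qbar) ≠ 0 := Int.cast_ne_zero.2 d0
  have u4 : u + 4 * d ≠ 0 := fun k => by
    rw [eq_neg_of_add_eq_zero_left k, w.V.map_neg] at hv
    exact hv.false
  obtain ⟨r, rf, r1, -⟩ := exists_sqrt hD (a := 1 + 16 * d / u)
    (fun g hg => by simp only [map_add, map_div₀, map_mul, map_one, map_ofNat, map_intCast,
      uf g hg]) (by
      rw [add_sub_cancel_left, show (16 * d / u : Qbar) = 4 * (4 * d / u) by ring, map_mul]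
      refine mul_lt_of_lt_one_right (b3a_pos w (by norm_num)) ?_
      rw [map_div₀]
      exact (div_lt_one (b3a_pos w u0)).2 hv)
  have r2 : u * r ^ 2 = u + 16 * d := by
    rw [r1]
    field_simp
  have s2 : s ^ 2 = u + d := by rw [hu]; ring
  have e1 : d * (4 * ((u + 4 * d) ^ 2 / (4 * d * u)) + 9) = (s * r) ^ 2 := by
    rw [mul_pow, s2, r1]
    field_simp
    ring
  have sf : Fx D (s * r) := fun g hg => by rw [map_mul, hs g hg, rf g hg]
  obtain ⟨a, α', β', ha, h2, h3, h4⟩ := l2_pt d0 (x := (u + 4 * d) ^ 2 / (4 * d * u))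
    (s := (u + 4 * d) * (u - 4 * d) * (s * r) / (4 * d ^ 2 * u))
    (fun g hg => by simp only [map_add, map_div₀, map_mul, map_pow, map_ofNat, map_intCast,
      uf g hg])
    (fun g hg => by simp only [map_add, map_sub, map_div₀, map_mul, map_pow, map_ofNat,
      map_intCast, uf g hg, hs g hg, rf g hg])
    (div_ne_zero (pow_ne_zero _ u4) (mul_ne_zero (mul_ne_zero (by norm_num) dq) u0)) (by
      rw [div_pow, mul_pow, ← e1]
      field_simp
      ring)
  refine h4.congr (fun g hg => ?_) fun g hg => ?_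
  · rcases ha with ⟨rfl, -⟩ | rfl
    · exact taj_uniq h2 taj_one (z := 1) (fun g _ => map_one g) (by ring) g hg
    · exact (taj_uniq taj_one h2 sf (by rw [one_mul, e1]) g hg).symm
  · refine (taj_uniq h h3 (z := (u + 4 * d) / (2 * u)) (fun g hg => by
      simp only [map_add, map_div₀, map_mul, map_ofNat, map_intCast, uf g hg]) ?_ g hg).symm
    field_simp
    ring

theorem l2_T2 (d0 : d ≠ 0) : KLd d D (B2.xi d) (B2.xi (-1)) := by
  obtain ⟨S, hS⟩ := exists_half T2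
  obtain ⟨α, β, h1, h2, h3⟩ := m_desc d D S d0 fun g _ => by rw [hS, mde_tw_tors d g two_T2]
  rw [hS] at h1 h2
  obtain ⟨-, n2, -, n3, -⟩ := T_ne
  rw [kA, if_neg (not_or.2 ⟨n2, n3.symm⟩)] at h1
  rw [kB, if_neg n2, if_pos rfl] at h2
  refine KLd.congr ⟨S, h3⟩ (fun g hg => ?_) fun g hg => ?_
  · exact (taj_uniq (kum_xi d0) h1 (z := 3) (fun g _ => map_ofNat g 3) (by norm_num [T2]) g
      hg).symm
  · exact (taj_uniq (kum_xi (a := -1) (by norm_num)) h2 (z := 1) (fun g _ => map_one g)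
      (by norm_num) g hg).symm

theorem l2_chi (hn : n % 8 = 3) (hw : w.p = 2) (h4 : d % 4 = 1) {g : Gam}
    (hg : g ∈ GK n ⊓ Dec w) : chi d g = 1 := by
  by_cases h : d % 8 = 1
  · exact chi_dec_two hw h hg.2
  · have := chi_dec_two (a := d * -n) hw (by
      rw [Int.mul_emod, show d % 8 = 5 by omega, show -(n : ℤ) % 8 = 5 by omega]; rfl) hg.2
    rwa [chi_mul (by omega) (by omega), B4c_mem.1 hg.1, mul_one] at this

/-- Over the unramified quadratic extension there are four classes of rational numbers. -/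
theorem l2_four (hn : n % 8 = 3) (hw : w.p = 2) (d0 : d ≠ 0) :
    ∃ δ : ℤ, (δ = 1 ∨ δ = -1 ∨ δ = 2 ∨ δ = -2) ∧ ∀ g ∈ GK n ⊓ Dec w, chi d g = chi δ g := by
  induction h : d.natAbs using Nat.strong_induction_on generalizing d with
  | _ k ih =>
    by_cases h4 : 4 ∣ d
    · obtain ⟨e, rfl⟩ := h4
      obtain ⟨δ, h1, h2⟩ := ih e.natAbs (by omega) (d := e) (by omega) rfl
      refine ⟨δ, h1, fun g hg => ?_⟩
      rw [← h2 g hg, chi_mul (by norm_num) (by omega), show (4 : ℤ) = 2 ^ 2 by norm_num, chi_sq,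
        one_mul]
    have key : ∀ δ e : ℤ, δ ≠ 0 → e % 4 = 1 → d = δ * e → ∀ g ∈ GK n ⊓ Dec w,
        chi d g = chi δ g := fun δ e h1 h2 h3 g hg => by
      rw [h3, chi_mul h1 (by omega), l2_chi hn hw h2 hg, mul_one]
    have : d % 4 = 1 ∨ d % 4 = 3 ∨ d % 8 = 2 ∨ d % 8 = 6 := by omega
    rcases this with c | c | c | c
    · exact ⟨1, by simp, key 1 d (by norm_num) c (by omega)⟩
    · exact ⟨-1, by simp, key (-1) (-d) (by norm_num) (by omega) (by omega)⟩
    · exact ⟨2, by simp, key 2 (d / 2) (by norm_num) (by omega) (by omega)⟩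
    · exact ⟨-2, by simp, key (-2) (-(d / 2)) (by norm_num) (by omega) (by omega)⟩

theorem l2_xi {a b : ℤ} {g : Gam} (h : chi a g = chi b g) : B2.xi a g = B2.xi b g := by
  rcases Int.units_eq_one_or (chi b g) with k | k
  · rw [xi_eq_zero.2 k, xi_eq_zero.2 (h.trans k)]
  · rw [xi_eq_one.2 k, xi_eq_one.2 (h.trans k)]

theorem l2_zeta (hn : n % 8 = 3) (hw : w.p = 2) : ∃ z : Qbar, z ^ 2 + z + 1 = 0 ∧
    Fx (GK n ⊓ Dec w) z ∧ w.V z = 1 := by
  obtain ⟨z, hz⟩ : ∃ z, z = (-1 + rt (-3)) / 2 := ⟨_, rfl⟩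
  have z1 : z ^ 2 + z + 1 = 0 := by
    have := rt_sq (-3)
    push_cast at this
    rw [hz]
    linear_combination this / 4
  refine ⟨z, z1, fun g hg => ?_, w.V_root_of_unity (n := 3) (by norm_num)
    (by linear_combination (z - 1) * z1)⟩
  rw [hz, map_div₀, map_add, chi_eq_one.1 (l2_chi hn hw (d := -3) rfl hg), map_neg, map_one,
    map_ofNat]

theorem l2_lt (hw : w.p = 2) {a b : Qbar} (ha : w.V a ≤ 1) (hb : b ≠ 0) :
    w.V (2 * a * b) < w.V b := by
  rw [map_mul]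
  refine mul_lt_of_lt_one_left (b3a_pos w hb) ?_
  rw [mul_comm]
  exact b2a_mul_lt w ha (taj_two hw)

theorem l2_int (d0 : d ≠ 0) (hD : D ≤ Dec w) (s c : ℤ) (c0 : c ≠ 0) (e : s ^ 2 - d = c)
    (hv : w.V (4 * d) < w.V c) : KLd d D 0 (B2.xi c) := by
  have e' : (s : Qbar) ^ 2 - d = c := by exact_mod_cast e
  exact l2_norm d0 hD (s := s) (fun g _ => map_intCast g s) (e' ▸ hv) (e' ▸ kum_xi c0)

/-- The classes of minus one and two are Kummer classes. -/
theorem l2_rat (hn : n % 8 = 3) (hw : w.p = 2) (hd : d = -1 ∨ d = 2 ∨ d = -2) :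
    KLd d (GK n ⊓ Dec w) 0 (B2.xi (-1)) ∧ KLd d (GK n ⊓ Dec w) 0 (B2.xi 2) := by
  have hD : GK n ⊓ Dec w ≤ Dec w := inf_le_right
  have lt : ∀ a b c : ℤ, b ≠ 0 → c = 2 * a * b → w.V (c : ℤ) < w.V (b : ℤ) := by
    rintro a b _ hb rfl
    push_cast
    exact l2_lt hw (w.V_int_le a) (Int.cast_ne_zero.2 hb)
  have sum : ∀ {d : ℤ}, KLd d (GK n ⊓ Dec w) 0 (B2.xi 2) → KLd d (GK n ⊓ Dec w) 0 (B2.xi (-2)) →
      KLd d (GK n ⊓ Dec w) 0 (B2.xi (-1)) := fun k1 k2 =>
    (k1.add k2).congr (fun _ _ => by simp) fun g _ => by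
      rw [Pi.add_apply, show (-2 : ℤ) = 2 * -1 by norm_num, B2.xi_mul (by norm_num) (by norm_num),
        ← add_assoc]
      exact (congrArg (· + _) (b3b_self _)).trans (zero_add _)
  rcases hd with rfl | rfl | rfl
  · obtain ⟨z, z1, zf, zv⟩ := l2_zeta hn hw
    have z0 : z ≠ 0 := fun k => by simp [k] at zv
    have e : z ^ 2 - ((-1 : ℤ) : Qbar) = ((-1 : ℤ) : Qbar) * (z ^ 2) ^ 2 := by
      push_cast
      linear_combination (z ^ 2 - z + 1) * z1
    refine ⟨l2_norm (by norm_num) hD zf ?_ (e ▸ tai_sq (kum_xi (by norm_num))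
      (fun g hg => by rw [map_pow, zf g hg]) (pow_ne_zero _ z0)),
      l2_int (by norm_num) hD 1 2 (by norm_num) (by norm_num) ?_⟩
    · have := lt 2 (-1) (-4) (by norm_num) (by norm_num)
      rw [e, map_mul _ _ (_ ^ 2), map_pow, map_pow, zv, one_pow, one_pow, mul_one]
      exact_mod_cast this
    · exact_mod_cast lt (-1) 2 (-4) (by norm_num) (by norm_num)
  · have k1 := l2_int (d := 2) (by norm_num) hD 2 2 (by norm_num) (by norm_num)
      (by exact_mod_cast lt 2 2 8 (by norm_num) (by norm_num))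
    exact ⟨sum k1 (l2_int (by norm_num) hD 0 (-2) (by norm_num) (by norm_num)
      (by exact_mod_cast lt (-2) (-2) 8 (by norm_num) (by norm_num))), k1⟩
  · have k1 := l2_int (d := -2) (by norm_num) hD 0 2 (by norm_num) (by norm_num)
      (by exact_mod_cast lt (-2) 2 (-8) (by norm_num) (by norm_num))
    have k2 := l2_int (d := -2) (by norm_num) hD 2 6 (by norm_num) (by norm_num) (by
      have h1 := lt (-2) 2 (-8) (by norm_num) (by norm_num)
      have h2 : w.V ((6 : ℤ) : Qbar) = w.V ((2 : ℤ) : Qbar) := by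
        rw [show ((6 : ℤ) : Qbar) = (2 : ℤ) * 3 by norm_num, map_mul, taj_three hw, mul_one]
      rw [h2]
      exact_mod_cast h1)
    refine ⟨sum k1 (k2.congr (fun _ _ => rfl) fun g hg => l2_xi ?_), k1⟩
    rw [show (6 : ℤ) = -2 * -3 by norm_num, chi_mul (by norm_num) (by norm_num),
      l2_chi hn hw (d := -3) rfl hg, mul_one]

theorem l2_kumr (hn : n % 8 = 3) (hw : w.p = 2) (hd : d = -1 ∨ d = 2 ∨ d = -2) {c : ℤ}
    (c0 : c ≠ 0) : KLd d (GK n ⊓ Dec w) 0 (B2.xi c) := by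
  obtain ⟨k1, k2⟩ := l2_rat hn hw hd
  obtain ⟨δ, h1, h2⟩ := l2_four hn hw c0
  refine KLd.congr (α := 0) (β := B2.xi δ) ?_ (fun _ _ => rfl) fun g hg => (l2_xi (h2 g hg)).symm
  rcases h1 with rfl | rfl | rfl | rfl
  · exact (k1.smul 0).congr (fun _ _ => by simp) fun g _ => by
      rw [xi_eq_zero.2 (by simpa using chi_sq 1 g), zero_smul, Pi.zero_apply]
  · exact k1
  · exact k2
  · exact (k1.add k2).congr (fun _ _ => by simp) fun g _ =>
      (B2.xi_mul (a := -1) (b := 2) (by norm_num) (by norm_num) g).symm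

end Pool.Agent.Lib.MP_696deb_nt.B3
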