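import Pool.Agent.Lib.MP_696deb_nt.B3.L2b

/-! Sixteen local classes at two for every quadratic twist. -/

set_option autoImplicit false

open scoped NNReal Classical
open Matrix NumberTheorySymbols

namespace Pool.Agent.Lib.MP_696deb_nt.B3

open B2

variable {d : ℤ} {n : ℕ} {w : Plc} {D : Subgroup Gam}

/-- Sixteen different Kummer classes. -/
def Six (d : ℤ) (D : Subgroup Gam) : Prop := ∃ α β : Fin 16 → Gam → ZMod (2 ^ 1),
  (∀ i, KLd d D (α i) (β i)) ∧ ∀ i j, (∀ g ∈ D, α i g = α j g ∧ β i g = β j g) → i = j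

theorem l2_six {t t' x y z : Gam → ZMod (2 ^ 1)} (k1 : KLd d D t t') (k2 : KLd d D 0 x)
    (k3 : KLd d D 0 y) (k4 : KLd d D 0 z) (h1 : ∃ g ∈ D, t g = 1)
    (h2 : ∀ a b c : ZMod (2 ^ 1), (∀ g ∈ D, a * x g + b * y g + c * z g = 0) →
      a = 0 ∧ b = 0 ∧ c = 0) : Six d D := by
  let E : Fin 16 ≃ ZMod (2 ^ 1) × ZMod (2 ^ 1) × ZMod (2 ^ 1) × ZMod (2 ^ 1) :=
    (Fintype.equivFinOfCardEq (by simp)).symm
  refine ⟨fun i => (E i).1 • t,
    fun i => (E i).1 • t' + ((E i).2.1 • x + (E i).2.2.1 • y + (E i).2.2.2 • z),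
    fun i => ?_, fun i j h => E.injective ?_⟩
  · have k := (k1.smul (E i).1).add (((k2.smul (E i).2.1).add (k3.smul (E i).2.2.1)).add
      (k4.smul (E i).2.2.2))
    simpa only [smul_zero, add_zero] using k
  · dsimp only at h
    generalize E i = p at h
    generalize E j = q at h
    obtain ⟨a, b, c, e⟩ := p
    obtain ⟨a', b', c', e'⟩ := q
    obtain ⟨g, hg, h1⟩ := h1
    obtain rfl : a = a' := by simpa [h1] using (h g hg).1
    obtain ⟨p, q, r⟩ := h2 (b - b') (c - c') (e - e') fun g hg => by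
      have := (h g hg).2
      simp only [Pi.add_apply, Pi.smul_apply, smul_eq_mul] at this
      linear_combination this
    rw [sub_eq_zero.1 p, sub_eq_zero.1 q, sub_eq_zero.1 r]

theorem l2_ine (hn : n % 8 = 3) (hw : w.p = 2) : Ine w ≤ GK n ⊓ Dec w := fun _ hσ =>
  ⟨taj_ine hn hw hσ, Ine_le w hσ⟩

theorem l2_ab (hw : w.p = 2) {a b : ZMod (2 ^ 1)} {x y : Gam → ZMod (2 ^ 1)}
    (hx : x = B2.xi (-1)) (hy : y = B2.xi 2) (h : ∀ σ ∈ Ine w, a * x σ + b * y σ = 0) :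
    a = 0 ∧ b = 0 := by
  obtain ⟨σ, hσ, p, q⟩ := exists_ine_two hw (-1) 1
  obtain ⟨τ, hτ, p', q'⟩ := exists_ine_two hw 1 (-1)
  have h1 := h σ hσ
  have h2 := h τ hτ
  rw [show x σ = 1 from hx ▸ xi_eq_one.2 p, show y σ = 0 from hy ▸ xi_eq_zero.2 q] at h1
  rw [show x τ = 0 from hx ▸ xi_eq_zero.2 p', show y τ = 1 from hy ▸ xi_eq_one.2 q'] at h2
  exact ⟨by simpa using h1, by simpa using h2⟩

theorem l2_odd (hI : Ine w ≤ D) {a : Qbar} {κ : Gam → ZMod (2 ^ 1)} (h : Kum 1 D a κ)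
    (hv : w.V a = (w.p : ℝ≥0)⁻¹) : ∃ σ ∈ Ine w, κ σ = 1 := by
  by_contra hc
  push Not at hc
  obtain ⟨r, r0, e, k⟩ := h
  obtain ⟨j, hj⟩ := V_of_fx_ine (w := w) (x := r) (fun σ hσ => by
    rw [k σ (hI hσ), (b3b_two _).resolve_right (hc σ hσ), ZMod.val_zero, pow_zero, mul_one]) r0
  rw [← e, map_pow, hj, inv_pow, _root_.inv_inj, ← _root_.zpow_natCast,
    ← _root_.zpow_mul] at hv
  have := zpow_right_injective₀ (zero_lt_one.trans (b2a_one_lt w)) (b2a_one_lt w).ne'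
    (hv.trans (_root_.zpow_one _).symm)
  omega

theorem l2_six_one (hn : n % 8 = 3) (hw : w.p = 2) : Six (-1) (GK n ⊓ Dec w) := by
  have hI := l2_ine hn hw
  obtain ⟨z, z1, zf, zv⟩ := l2_zeta hn hw
  obtain ⟨k2, k3⟩ := l2_rat hn hw (d := -1) (by simp)
  have t2 := taj_two hw
  have zi : z ∈ w.V.integer := zv.le
  have e : (2 * z ^ 2) ^ 2 - ((-1 : ℤ) : Qbar) = 1 + 4 * z := by
    push_cast
    linear_combination 4 * (z ^ 2 - z) * z1
  have u1 : w.V (1 + 4 * z) = 1 := by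
    rw [show 1 + 4 * z = 1 + 2 * (2 * z) by ring]
    exact r0_one w (r0_mul w t2 (mul_mem (ofNat_mem _ 2) zi))
  obtain ⟨η, hη⟩ := exists_kum 1 (a := 1 + 4 * z) (fun k => by simp [k] at u1)
    (H := GK n ⊓ Dec w) fun g hg => by rw [map_add, map_mul, zf g hg, map_one, map_ofNat]
  have k4 : KLd (-1) (GK n ⊓ Dec w) 0 η := l2_norm (by norm_num) inf_le_right (s := 2 * z ^ 2)
    (fun g hg => by rw [map_mul, map_pow, zf g hg, map_ofNat]) (by
      rw [e, u1, show (4 : Qbar) * (-1 : ℤ) = 2 * (-2 : ℤ) by norm_num]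
      exact r0_mul w t2 (intCast_mem _ _)) (e ▸ hη)
  have η0 := tai_unr hw hI hη rfl zv.le
  obtain ⟨φ, hφ⟩ := exists_frob w
  rw [hw] at hφ
  have h5 : φ * φ ∈ GK n ⊓ Dec w :=
    ⟨B4c_mem.2 (by rw [map_mul, Int.units_mul_self]), mul_mem hφ.1 hφ.1⟩
  have η1 : η (φ * φ) = 1 := by
    obtain ⟨q, -, q1, q2⟩ := hη
    rw [pow_one] at q1
    obtain ⟨s, hs⟩ : ∃ s, s = (q - 1) / 2 := ⟨_, rfl⟩
    have s1 : s ^ 2 + 1 * s = z := by
      rw [hs]
      linear_combination q1 / 4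
    have si : s ∈ w.V.integer := r0_quad w (one_mem _) (s1 ▸ zi)
    refine (b3b_two _).resolve_left fun k => ?_
    have h6 := q2 _ h5
    rw [k, ZMod.val_zero, pow_zero, mul_one] at h6
    have h7 := (hφ.mul hφ).2 s si
    rw [show (φ * φ) s = s by rw [hs, map_div₀, map_sub, h6, map_one, map_ofNat],
      show s - s ^ (2 * 2) = 1 + 2 * ((z + 1) * s) by
        linear_combination -(s ^ 2 - s + z + 1) * s1 - z1, r0_one w (r0_mul w t2 ?_)] at h7
    · exact h7.false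
    · exact mul_mem (add_mem zi (one_mem _)) si
  obtain ⟨σ, hσ, p, -⟩ := exists_ine_two hw (-1) 1
  refine l2_six (l2_T2 (by norm_num)) k2 k3 k4 ⟨σ, hI hσ, xi_eq_one.2 p⟩ fun a b c h => ?_
  obtain ⟨rfl, rfl⟩ := l2_ab hw (a := a) (b := b) rfl rfl fun σ hσ => by
    simpa [η0 σ hσ] using h σ (hI hσ)
  exact ⟨rfl, rfl, by simpa [η1] using h _ h5⟩

theorem l2_six_two (hn : n % 8 = 3) (hw : w.p = 2) (hd : d = 2 ∨ d = -2) :
    Six d (GK n ⊓ Dec w) := by
  have hI := l2_ine hn hw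
  have d0 : d ≠ 0 := by omega
  obtain ⟨z, z1, zf, zv⟩ := l2_zeta hn hw
  obtain ⟨k2, k3⟩ := l2_rat hn hw (d := d) (.inr hd)
  have t2 := taj_two hw
  have zi : z ∈ w.V.integer := zv.le
  have z0 : z ≠ 0 := fun k => by simp [k] at zv
  have e : z ^ 2 - d = (1 - d * z) * z ^ 2 := by linear_combination d * (z - 1) * z1
  have dv : w.V d < 1 := b2c_lt.2 (by rw [hw]; omega)
  have u1 : w.V (1 - d * z) = 1 := by
    rw [sub_eq_add_neg]
    exact r0_one w (by rw [w.V.map_neg]; exact r0_mul w dv zi)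
  obtain ⟨η, hη⟩ := exists_kum 1 (a := 1 - d * z) (fun k => by simp [k] at u1)
    (H := GK n ⊓ Dec w) fun g hg => by rw [map_sub, map_mul, zf g hg, map_one, map_intCast]
  have k4 : KLd d (GK n ⊓ Dec w) 0 η := l2_norm d0 inf_le_right zf (by
      rw [e, map_mul _ (1 - _), u1, map_pow, zv, one_pow, one_mul, mul_comm]
      exact r0_mul w dv (ofNat_mem _ 4)) (e ▸ tai_sq hη zf z0)
  have e3 : (1 + 2 * z) ^ 2 = ((-3 : ℤ) : Qbar) := by
    push_cast
    linear_combination 4 * z1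
  have v3 : w.V (1 + 2 * z) = 1 := r0_one w (r0_mul w t2 zi)
  obtain ⟨y, hy⟩ := exists_kum 1 (a := 1 + 2 * z) (fun k => by simp [k] at v3)
    (H := GK n ⊓ Dec w) fun g hg => by rw [map_add, map_mul, zf g hg, map_one, map_ofNat]
  have ηy : ∀ σ ∈ Ine w, η σ = y σ := fun σ hσ => by
    rcases hd with rfl | rfl
    · have := tai_unr hw hI (hη.mul hy) (t := -z ^ 2) (by push_cast; ring) (by simp [zv]) σ hσ
      rw [Pi.add_apply] at this
      linear_combination this - b3b_self (y σ)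
    · exact taj_uniq hη hy (z := 1) (fun g _ => map_one g) (by push_cast; ring) σ (hI hσ)
  obtain ⟨σ, hσ, p, q⟩ := exists_ine_two hw 1 (-1)
  have hx : Kum 1 (GK n ⊓ Dec w) ((-1 : ℤ) : Qbar) (B2.xi (-1)) := kum_xi (by norm_num)
  have hx2 : Kum 1 (GK n ⊓ Dec w) ((2 : ℤ) : Qbar) (B2.xi 2) := kum_xi (by norm_num)
  have v2 : w.V ((2 : ℤ) : Qbar) = (w.p : ℝ≥0)⁻¹ := by
    rw [← w.hV, hw]
    norm_num
  refine l2_six (l2_T2 d0) k2 k3 k4 ⟨σ, hI hσ, xi_eq_one.2 ?_⟩ fun a b c h => ?_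
  · rcases hd with rfl | rfl
    · exact q
    · rw [show (-2 : ℤ) = -1 * 2 by norm_num, chi_mul (by norm_num) (by norm_num), p, q, one_mul]
  obtain rfl : c = 0 := (b3b_two c).resolve_right fun c1 => by
    have h' := fun σ hσ => ηy σ hσ ▸ h σ (hI hσ)
    rcases b3b_two a with rfl | rfl <;> rcases b3b_two b with rfl | rfl <;>
      simp only [c1, zero_mul, one_mul, zero_add, add_zero] at h'
    · obtain ⟨τ, hτ, k⟩ := tak_one hw hI e3 hy
      exact b3b_one (k.symm.trans (h' τ hτ))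
    · obtain ⟨τ, hτ, k⟩ := l2_odd hI (hx2.mul hy) (by rw [map_mul, v2, v3, mul_one])
      exact b3b_one (k.symm.trans (h' τ hτ))
    · obtain ⟨τ, hτ, k⟩ := tak_one hw hI (by rw [mul_pow, e3]; norm_num) (hx.mul hy)
      exact b3b_one (k.symm.trans (h' τ hτ))
    · obtain ⟨τ, hτ, k⟩ := l2_odd hI ((hx.mul hx2).mul hy) (by
        rw [map_mul, map_mul, v2, v3, mul_one, Int.cast_neg, w.V.map_neg, Int.cast_one, map_one,
          one_mul])
      exact b3b_one (k.symm.trans (h' τ hτ))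
  obtain ⟨rfl, rfl⟩ := l2_ab hw (a := a) (b := b) rfl rfl fun σ hσ => by
    simpa using h σ (hI hσ)
  exact ⟨rfl, rfl, rfl⟩

theorem l2_sixteen (hn : n % 8 = 3) (hw : w.p = 2) (d0 : d ≠ 0) : Six d (GK n ⊓ Dec w) := by
  obtain ⟨δ, h1, h2⟩ := l2_four hn hw d0
  have : Six δ (GK n ⊓ Dec w) := by
    rcases h1 with rfl | rfl | h1
    · obtain ⟨α, β, a, b⟩ := exists_sixteen m_desc hn hw
      exact ⟨α, β, fun i => (a i).imp fun S k g hg => by rw [tw_one, k g hg], b⟩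
    · exact l2_six_one hn hw
    · exact l2_six_two hn hw h1
  obtain ⟨α, β, a, b⟩ := this
  exact ⟨α, β, fun i => (a i).twist fun g hg => (h2 g hg).symm, b⟩

theorem l2_pair (T : B2.Tate) (α β : ZMod (2 ^ 1)) :
    α.val • T2 + β.val • T1 = T.emb 1 ![α, α + β] := by
  have e : ![α, α + β] = α.val • ![1, 0] + (α + β).val • ![0, 1] := by
    ext i
    fin_cases i <;> simp
  rw [e, map_add, map_nsmul, map_nsmul, T.e0, T.e1, taj_val two_T1, ← T1_add_T2, smul_add]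
  have := two_T1
  linear_combination (norm := module) -(α.val • this)

/-- The number of Kummer classes of the twist. -/
theorem kumc_tw (T : B2.Tate) (hn : n % 8 = 3) (hw : w.p = 2) (d0 : d ≠ 0) : (16 : ℕ∞) ≤
    Set.encard {c : Gam → Fin 2 → ZMod (2 ^ 1) | (∀ g ∉ GK n ⊓ Dec w, c g = 0) ∧
      ∃ S : EE, ∀ g ∈ GK n ⊓ Dec w, T.emb 1 (c g) = tw d g S - S} := by
  obtain ⟨α, β, a, b⟩ := l2_sixteen hn hw d0
  have e : (16 : ℕ∞) = (Set.univ : Set (Fin 16)).encard := by simp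
  rw [e]
  refine Set.encard_le_encard_of_injOn
    (f := fun i g => if g ∈ GK n ⊓ Dec w then ![α i g, α i g + β i g] else 0) (fun i _ => ?_)
    fun i _ j _ k => b i j fun g hg => ?_
  · obtain ⟨S, hS⟩ := a i
    exact ⟨fun g hg => if_neg hg, S, fun g hg => by
      rw [hS g hg, l2_pair T]
      exact congrArg _ (if_pos hg)⟩
  · have k1 := congrFun k g
    simp only [if_pos hg] at k1
    have k2 : α i g = α j g := congrFun k1 0
    have k3 : α i g + β i g = α j g + β j g := congrFun k1 1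
    exact ⟨k2, add_left_cancel (k2 ▸ k3)⟩

end Pool.Agent.Lib.MP_696deb_nt.B3
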