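import Pool.Agent.Lib.MP_696deb_nt.B3.L2c
import Pool.Agent.Lib.MP_696deb_nt.B3.E1
import Pool.Agent.Lib.MP_696deb_nt.B2.TAd
import Pool.Agent.Lib.MP_696deb_nt.B2.TAe
import Pool.Agent.Lib.MP_696deb_nt.B2.XLd

/-! The local image of descent at two on a ramified twist, and the twisted Tate module. -/

set_option autoImplicit false

open scoped NNReal Classical
open Matrix NumberTheorySymbols

namespace Pool.Agent.Lib.MP_696deb_nt.B3

open B2

variable {d : ℤ} {n : ℕ} {w : Plc} {D : Subgroup Gam} {α β : Gam → ZMod (2 ^ 1)}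

theorem l2_alpha (d0 : d ≠ 0) (hw : w.p = 2) (hI : Ine w ≤ D) (hD : D ≤ Dec w)
    (hr : ∃ σ ∈ Ine w, chi d σ = -1) (h : KLd d D α β) :
    ∃ s : ZMod (2 ^ 1), ∀ g ∈ D, α g = s * B2.xi d g := by
  obtain ⟨S, hS⟩ := h
  have fx : ∀ g ∈ D, tw d g (2 • S) = 2 • S := fun g hg => by
    rw [l2_nsmul, ← sub_eq_zero, ← smul_sub, hS g hg, smul_add, smul_comm, two_T2,
      smul_comm 2, two_T1, smul_zero, smul_zero, add_zero]
  obtain ⟨α', β', ⟨r, r0, e, k⟩, -, h3⟩ := m_desc d D S d0 fx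
  have h1 : Kum 1 D (kA d (2 • S)) α := ⟨r, r0, e, fun g hg => by
    rw [(tai_pair ((hS g hg).symm.trans (h3 g hg))).1, k g hg]⟩
  clear e k h3 hS
  generalize 2 • S = P at fx h1
  have sq : ∀ {a z : Qbar}, Kum 1 D a α → Fx D z → a = z ^ 2 →
      ∃ s : ZMod (2 ^ 1), ∀ g ∈ D, α g = s * B2.xi d g := fun k1 k2 k3 =>
    ⟨0, fun g hg => (taj_uniq taj_one k1 k2 (by rw [k3, one_mul]) g hg).symm.trans
      (zero_mul _).symm⟩
  unfold kA at h1
  split_ifs at h1 with p0
  · exact sq h1 (z := 1) (fun g _ => map_one g) (by ring)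
  obtain ⟨x, hx⟩ : ∃ x, x = xco P := ⟨_, rfl⟩
  obtain ⟨u, hu⟩ : ∃ u, u = rt d * (2 * yco P + x) := ⟨_, rfl⟩
  rw [← hx] at h1
  have xf : Fx D x := fun g hg => by rw [hx, ← l2_xco d, fx g hg]
  have uf : Fx D u := fun g hg => by
    have k := chi_spec (rt_sq d) g
    have k2 := congrArg yco (fx g hg)
    rw [hu, map_mul, map_add, map_mul, xf g hg, k, map_ofNat, ← yco_smul]
    rcases Int.units_eq_one_or (chi d g) with c | c <;> rw [tw, c] at k2 <;> rw [c]
    · rw [Units.val_one, one_smul] at k2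
      simp [k2]
    · rw [Units.val_neg, Units.val_one, neg_smul, one_smul, r0_neg, xco_smul, ← hx,
        xf g hg] at k2
      push_cast
      linear_combination 2 * rt d * k2
  have u2 : u ^ 2 = d * (4 * x + 9) * (x * (x - 4)) := by
    have := r0_eqn P
    rw [← hx] at this
    rw [hu, mul_pow, rt_sq]
    linear_combination 4 * d * this
  have v9 : w.V 9 = 1 := by simpa using (w.V_int_eq_one (a := 9)).2 (by rw [hw]; decide)
  have v4 : 0 < w.V 4 := b3a_pos w (by norm_num)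
  have dq : (d : Qbar) ≠ 0 := Int.cast_ne_zero.2 d0
  rcases lt_trichotomy (w.V x) 1 with k | k | k
  · obtain ⟨r, rf, r1, -⟩ := exists_sqrt hD (a := 1 + 4 * x / 9)
      (fun g hg => by simp only [map_add, map_div₀, map_mul, map_one, map_ofNat, xf g hg]) (by
        rw [add_sub_cancel_left, map_div₀, v9, div_one, map_mul]
        exact mul_lt_of_lt_one_right v4 k)
    refine ⟨1, fun g hg => (taj_uniq (kum_xi d0) h1 (z := 3 * r)
      (fun g hg => by rw [map_mul, rf g hg, map_ofNat]) ?_ g hg).symm.trans (one_mul _).symm⟩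
    rw [mul_pow, r1]
    ring
  · exfalso
    have x0 : x ≠ 0 := fun e => by simp [e] at k
    have v2 := taj_two hw
    have x4 : 1 - 4 / x ≠ 0 := fun e => by
      rw [sub_eq_zero, eq_div_iff x0, one_mul] at e
      rw [e, show (4 : Qbar) = 2 * 2 by norm_num] at k
      exact (r0_mul w v2 (ofNat_mem _ 2)).ne k
    obtain ⟨κ, hκ⟩ := exists_kum 1 (H := D) (right_ne_zero_of_mul h1.fx.1) fun g hg => by
      rw [map_add, map_mul, xf g hg, map_ofNat, map_ofNat]
    obtain ⟨κ', hκ'⟩ := exists_kum 1 (H := D) x4 fun g hg => by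
      rw [map_sub, map_div₀, xf g hg, map_one, map_ofNat]
    obtain ⟨σ, hσ, c⟩ := hr
    have a1 := tai_unr hw hI hκ (t := x + 2) (by ring) (w.V.map_add_le k.le v2.le) σ hσ
    have a2 := tai_unr hw hI hκ' (t := -x⁻¹) (by ring) (by simp [k]) σ hσ
    have a3 := taj_uniq (kum_xi d0) (hκ.mul hκ') (z := u / (d * x))
      (fun g hg => by rw [map_div₀, map_mul, uf g hg, xf g hg, map_intCast]) (by
        rw [div_pow, u2]
        field_simp) σ (hI hσ)
    rw [Pi.add_apply, a1, a2, xi_eq_one.2 c, add_zero] at a3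
    exact b3b_one a3
  · have x0 : x ≠ 0 := fun e => by simp [e] at k
    obtain ⟨r, rf, r1, -⟩ := exists_sqrt hD (a := 1 - 4 / x)
      (fun g hg => by rw [map_sub, map_div₀, xf g hg, map_one, map_ofNat]) (by
        rw [sub_sub_cancel_left, w.V.map_neg, map_div₀]
        exact div_lt_self v4 k)
    have r0 : r ≠ 0 := fun e => by
      rw [e, zero_pow two_ne_zero, eq_comm, sub_eq_zero, eq_div_iff x0, one_mul] at r1
      rw [r1] at k
      exact k.not_ge (by simpa using w.V_int_le 4)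
    refine sq h1 (z := u / (x * r))
      (fun g hg => by rw [map_div₀, map_mul, uf g hg, xf g hg, rf g hg]) ?_
    rw [div_pow, eq_div_iff (pow_ne_zero _ (mul_ne_zero x0 r0)), mul_pow, r1, u2]
    field_simp

theorem l2_three (hn : n % 8 = 3) (hw : w.p = 2) (h : d % 4 = 2 ∨ d % 4 = 3) :
    ∃ δ : ℤ, (δ = -1 ∨ δ = 2 ∨ δ = -2) ∧ ∀ g ∈ GK n ⊓ Dec w, chi d g = chi δ g := by
  have key : ∀ δ e : ℤ, δ ≠ 0 → e % 4 = 1 → d = δ * e → ∀ g ∈ GK n ⊓ Dec w,
      chi d g = chi δ g := fun δ e h1 h2 h3 g hg => by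
    rw [h3, chi_mul h1 (by omega), l2_chi hn hw h2 hg, mul_one]
  have : d % 4 = 3 ∨ d % 8 = 2 ∨ d % 8 = 6 := by omega
  rcases this with c | c | c
  · exact ⟨-1, by simp, key (-1) (-d) (by norm_num) (by omega) (by omega)⟩
  · exact ⟨2, by simp, key 2 (d / 2) (by norm_num) (by omega) (by omega)⟩
  · exact ⟨-2, by simp, key (-2) (-(d / 2)) (by norm_num) (by omega) (by omega)⟩

/-- Rational classes in the second coordinate are Kummer classes. -/
theorem kumr_tw (hn : n % 8 = 3) (hw : w.p = 2) (h : d % 4 = 2 ∨ d % 4 = 3) {c : ℤ} (c0 : c ≠ 0) :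
    KLd d (GK n ⊓ Dec w) 0 (B2.xi c) := by
  obtain ⟨δ, h1, h2⟩ := l2_three hn hw h
  exact (l2_kumr hn hw h1 c0).twist fun g hg => (h2 g hg).symm

theorem l2_ram (hn : n % 8 = 3) (hw : w.p = 2) (h : d % 4 = 2 ∨ d % 4 = 3) :
    ∃ σ ∈ Ine w, chi d σ = -1 := by
  obtain ⟨δ, h1, h2⟩ := l2_three hn hw h
  obtain ⟨σ, hσ, p, q⟩ := exists_ine_two hw (if δ = -1 then -1 else 1) (-1)
  refine ⟨σ, hσ, (h2 σ (l2_ine hn hw hσ)).trans ?_⟩
  rcases h1 with rfl | rfl | rfl
  · exact p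
  · exact q
  · rw [show (-2 : ℤ) = -1 * 2 by norm_num, chi_mul (by norm_num) (by norm_num), p, q]
    rfl

/-- The class of `d` in the first coordinate is a Kummer class. -/
theorem kumd_tw (hn : n % 8 = 3) (hw : w.p = 2) (h : d % 4 = 2 ∨ d % 4 = 3) :
    KLd d (GK n ⊓ Dec w) (B2.xi d) 0 :=
  ((l2_T2 (by omega)).add (kumr_tw hn hw h (c := -1) (by norm_num))).congr
    (fun _ _ => add_zero (M := ZMod (2 ^ 1)) _) fun _ _ => b3b_self _

theorem l2_orth (T : B2.Tate) (hD : IsClosed (D : Set Gam)) {α' β' : Gam → ZMod (2 ^ 1)}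
    (h : KLd d D α β) (h' : KLd d D α' β') : Spl 1 D fun g k => α g * β' k - β g * α' k := by
  obtain ⟨S, hS⟩ := h
  obtain ⟨S', hS'⟩ := h'
  have key := iso_tw T hD (d := d) (x := fun g => ![α g, α g + β g])
    (y := fun g => ![α' g, α' g + β' g]) (fun g hg => by rw [← l2_pair, hS g hg])
    fun g hg => by rw [← l2_pair, hS' g hg]
  refine tac_lin key key 1 0 fun g _ k _ => ?_
  have e : ∀ t : ZMod (2 ^ 1), -t = t := by decide
  rcases Int.units_eq_one_or (chi d g) with c | c <;> simp [c, T.mod2, det2, neg_mulVec, e] <;>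
    ring

theorem kum2_tw (T : B2.Tate) (hn : n % 8 = 3) (hw : w.p = 2) (h : d % 4 = 2 ∨ d % 4 = 3)
    (k : KLd d (GK n ⊓ Dec w) α β) :
    (∃ s : ZMod (2 ^ 1), ∀ g ∈ GK n ⊓ Dec w, α g = s * B2.xi d g) ∧
      Spl 1 (GK n ⊓ Dec w) fun g h => B2.xi d g * β h := by
  refine ⟨l2_alpha (by omega) hw (l2_ine hn hw) inf_le_right (l2_ram hn hw h) k, ?_⟩
  have key := l2_orth T ((op_GK n).closed.inter (closed_Dec w)) (kumd_tw hn hw h) k
  exact tac_lin key key 1 0 fun g _ k _ => by simp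

theorem ker8_tw (T : B2.Tate) {x : ℤ} {g : Gam} (hx : x ∣ 30) (h : mred 3 (T.ρ g) = 1) :
    chi x g = 1 := by
  have c3 : cy 3 g = 1 := by rw [cy, ← T.det, ← mred_det, h, det_one]
  have c2 : chi 2 g = 1 := (chi_two_iff g).2 (.inl c3)
  have c1 : chi (-1) g = 1 := by
    have e := cy_two g
    rw [show cy 2 g = 1 by
      rw [cy, ← PadicInt.cast_toZModPow 2 3 (by norm_num), ← cy, c3]; rfl] at e
    refine (Int.units_eq_one_or _).resolve_right fun k => ?_
    rw [k] at e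
    exact absurd e (by decide)
  obtain ⟨T₀, hc⟩ := B2.exists_conj
  obtain ⟨h0, h1⟩ := T₀.e01 m_desc hc
  obtain ⟨a, b, c, e, e0, e1, e2, -⟩ := T₀.mod8 m_desc h0 h1 g c1
  obtain ⟨C, hC⟩ := mred_eq_iff.1 ((T₀.mred_eq_one (m := 3) (g := g) fun P hP => by
    obtain ⟨y, rfl⟩ := T.surj 3 P hP
    rw [T.smul, h, one_mulVec]).trans (mred_one 3).symm)
  rw [e0] at hC
  have ev : ∀ {s t : ℤ_[2]}, 4 * s = 2 ^ 3 * t → PadicInt.toZMod s = 0 := fun {s t} k =>
    (red_two_iff.2 ⟨t, mul_left_cancel₀ (a := 4) (by norm_num) (by linear_combination k)⟩).trans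
      (map_zero _)
  have hs : ∀ t : ℤ_[2], 8 • t = 2 ^ 3 * t := fun t => by ring
  have c5 : chi 5 g = 1 := xi_eq_zero.1 (e1.symm.trans (ev (t := C 0 0) (by
    simpa [-nsmul_eq_mul, ← hs] using congrFun (congrFun hC 0) 0)))
  have c15 : chi 15 g = 1 := xi_eq_zero.1 (e2.symm.trans (ev (t := C 0 1) (by
    simpa [-nsmul_eq_mul, ← hs] using congrFun (congrFun hC 0) 1)))
  have c3' : chi 3 g = 1 := by
    rwa [show (15 : ℤ) = 3 * 5 by norm_num, chi_mul (by norm_num) (by norm_num), c5,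
      mul_one] at c15
  have key : ∀ y ∈ Finset.Icc (-30 : ℤ) 30, y ∣ 30 → ∃ i j k l : Fin 2,
      y = (-1) ^ i.1 * 2 ^ j.1 * 3 ^ k.1 * 5 ^ l.1 := by decide +kernel
  have b1 := Int.le_of_dvd (by norm_num) hx
  have b2 := Int.le_of_dvd (by norm_num) (Int.neg_dvd.2 hx)
  obtain ⟨i, j, k, l, rfl⟩ := key x (Finset.mem_Icc.2 ⟨by omega, b1⟩) hx
  have pw : ∀ {a : ℤ} (i : Fin 2), chi a g = 1 → chi (a ^ i.1) g = 1 := fun {a} i e => by
    fin_cases i
    · simpa using chi_sq 1 g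
    · simpa using e
  rw [chi_mul (by positivity) (by positivity), chi_mul (by positivity) (by positivity),
    chi_mul (by positivity) (by positivity), pw i c1, pw j c2, pw k c3', pw l c5]
  rfl

theorem fix_tw (T : B2.Tate) {m : ℕ} {P : EE} (hP : 2 ^ m • P = 0)
    (h : ∀ g ∈ I30, tw d g P = P) : 4 • P = 0 := by
  have k := fun v => h _ (xld_ine_le (by rcases bp_or v with e | e <;> simp [e])
    (gn_spec (w := bp v) (by rcases bp_or v with h | h <;> omega)).1)
  by_cases c : ∀ v, gn (bp v) • P = P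
  · exact T.fix_gn hP c
  obtain ⟨v, c⟩ := not_forall.1 c
  have e : gn (bp v) • P = -P := neg_eq_iff_eq_neg.1
    (((l2_or d _ P).resolve_left fun e => c (e.symm.trans (k v))).symm.trans (k v))
  obtain ⟨x, rfl⟩ := T.surj m P hP
  rw [T.smul, ← map_neg] at e
  have e1 := T.inj m e
  have e2 : (mred m (T.ρ (gn (bp v))) - 1) * (mred m (T.ρ (gn (bp v))) - 1) = 0 := by
    have := congrArg (PadicInt.toZModPow m).mapMatrix (un_sq T v)
    rwa [map_mul, map_sub, map_one, map_zero] at this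
  have e3 := congrArg (· *ᵥ x) e2
  simp only [← mulVec_mulVec, sub_mulVec, mulVec_sub, mulVec_neg, one_mulVec, e1,
    zero_mulVec] at e3
  rw [← map_nsmul, show 4 • x = 0 by linear_combination (norm := module) e3, map_zero]

/-- The twisted Tate module has all properties that are used. -/
theorem twf (T : B2.Tate) {f : ℤ} (hf : f ∣ 30) : Twf T f := by
  have f0 : f ≠ 0 := by
    rintro rfl
    simp at hf
  have f4 : f % 4 ≠ 1 → f % 4 = 2 ∨ f % 4 = 3 := fun h => by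
    have : ¬ 4 ∣ f := fun k => absurd (k.trans hf) (by norm_num)
    omega
  refine ⟨hf, fun x g => ker8_tw T, fun m P => fix_tw T, fun n m w x y S S' _ _ hx hy => ?_,
    fun n w hn hw => kumc_tw T hn hw f0, fun n w α β S hn hw h k => kum2_tw T hn hw (f4 h) ⟨S, k⟩,
    fun n w c hn hw h c0 => (kumr_tw hn hw (f4 h) c0).imp fun S k g hg => by simpa using k g hg⟩
  simpa only [smul_mulVec] using iso_tw T ((op_GK n).closed.inter (closed_Dec w)) hx hy

theorem exists_tate (T : B2.Tate) {f : ℤ} (hf : f ∣ 30) : ∃ T' : Tate, T'.toTate = T ∧ T'.f = f :=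
  ⟨⟨T, f, twf T hf⟩, rfl, rfl⟩

end Pool.Agent.Lib.MP_696deb_nt.B3
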