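import Pool.Agent.Lib.MP_696deb_nt.B3.LO3
import Pool.Agent.Lib.MP_696deb_nt.B3.E2
import Pool.Agent.Lib.MP_696deb_nt.B2.XLe

/-! The twisted action and the places of a Selmer structure. -/

set_option autoImplicit false

open scoped NNReal Classical
open Finset Matrix NumberTheorySymbols PowerSeries

namespace Pool.Agent.Lib.MP_696deb_nt.B3

open B2

export Pool.Agent.Lib.MP_696deb_nt.B2 (rep act act_apply act_smul sp Adm ori Gen Spl Sel xi xi_mul
  xi_one T1 T3 two_T1 ev)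

/-- The quadratic character with values in the ring of power series. -/
noncomputable abbrev chL (f : ℤ) (g : Gam) : Lam := ((chi f g : ℤ) : Lam)

variable {T : Tate} {f : ℤ} {n k m : ℕ} {lam w : Plc} {ψ ψ' : Gam → Lam} {Q : Finset Plc}
  {B B' : Type} [AddCommGroup B] [Module Lam B] [AddCommGroup B'] [Module Lam B'] {g h : Gam}
  {c : Gam → Fin 2 → B}

theorem chL_mul (f : ℤ) (g h : Gam) : chL f (g * h) = chL f g * chL f h := by
  rw [chL, chL, chL, map_mul, Units.val_mul, Int.cast_mul]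

theorem chL_one (f : ℤ) : chL f 1 = 1 := by simp [chL]

theorem chL_or (f : ℤ) (g : Gam) : chL f g = 1 ∨ chL f g = -1 := by
  rw [chL]
  rcases Int.units_eq_one_or (chi f g) with e | e <;> simp [e]

theorem chL_sq (f : ℤ) (g : Gam) : chL f g * chL f g = 1 := by
  rcases chL_or f g with e | e <;> simp [e]

theorem chL_of (e : chi f g = 1) : chL f g = 1 := by simp [chL, e]

theorem chL_res (f : ℤ) (g : Gam) : chL f g - 1 ∈ aa 1 1 := by
  rcases chL_or f g with e | e <;> rw [e]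
  · simp
  · convert neg_mem (two_mem_aa 1 1) using 1
    norm_num

theorem chi_cj (f : ℤ) (g : Gam) : chi f (cc * g * cc) = chi f g := by
  rw [map_mul, map_mul, mul_right_comm, ← map_mul, cc_mul_cc, map_one, one_mul]

theorem chL_cj (f : ℤ) (g : Gam) : chL f (cc * g * cc) = chL f g := by rw [chL, chi_cj]

theorem sm_chL (f : ℤ) (H : Subgroup Gam) : Sm H (chL f) :=
  (sm_chi f).comp fun a : ℤˣ => ((a : ℤ) : Lam)

theorem chi_ine30 (hf : f ∣ 30) (hw : ¬ w.p ∣ 30) (hg : g ∈ Ine w) : chi f g = 1 :=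
  chi_ine (fun e => hw (by
    have h1 : (w.p : ℤ) ∣ 30 ^ 2 := e.trans ((mul_dvd_mul_left 2 hf).trans (by norm_num))
    exact w.prime.dvd_of_dvd_pow (n := 2) (by exact_mod_cast h1))) hg

/-- The untwisted character. -/
theorem Chr0.old (h : Chr0 f n k lam ψ) : B2.Chr0 n k lam fun g => chL f g * ψ g where
  sm := (sm_chL f _).comp₂ h.sm (· * ·)
  one := by rw [chL_one, one_mul]; exact h.one
  mul g hg u hu := by
    convert Ideal.mul_mem_left _ (chL f g * chL f u) (h.mul g hg u hu) using 1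
    rw [chL_mul]
    ring
  res g := by
    convert add_mem (Ideal.mul_mem_right (ψ g) _ (chL_res f g)) (h.res g) using 1
    ring
  dih g hg := by rw [chL_mul, chL_sq, one_mul]; exact h.dih g hg
  unr w hw σ hσ := by
    convert Ideal.mul_mem_left _ (chL f σ) (h.unr w hw σ hσ) using 1
    rw [mul_sub, chL_sq]

/-- The twist of an unramified character. -/
theorem Chr0.ofOld (h : B2.Chr0 n k lam ψ) (hn : Nok n) (hl : lam.p ≠ 2) (f : ℤ) :
    Chr0 f n k lam fun g => chL f g * ψ g where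
  sm := (sm_chL f _).comp₂ h.sm (· * ·)
  one := by rw [chL_one, one_mul]; exact h.one
  mul g hg u hu := by
    convert Ideal.mul_mem_left _ (chL f g * chL f u) (h.mul g hg u hu) using 1
    rw [chL_mul]
    ring
  res g := by
    convert add_mem (Ideal.mul_mem_right (ψ g) _ (chL_res f g)) (h.res g) using 1
    ring
  dih g hg := by rw [chL_mul, chL_sq, one_mul]; exact h.dih g hg
  unr w hw σ hσ := by
    convert Ideal.mul_mem_left _ (chL f σ) (h.unr w hw σ hσ) using 1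
    rw [mul_sub, mul_one]
  dec w hw g hg := by
    convert Ideal.mul_mem_left _ (chL f g)
      (h.dec (by omega) (hn.ine_two hw) (fr_spec w) (hn.out_two hw) hg) using 1
    rw [mul_sub, mul_one]

theorem Chr.chr0 (h : Chr f n k lam ψ) : Chr0 f n k lam ψ := h.toChr0

theorem Chr.ofOld (h : B2.Chr n k lam ψ) (hn : Nok n) (hf : f ∣ 30) (hl : ¬ lam.p ∣ 30) :
    Chr f n k lam fun g => chL f g * ψ g :=
  ⟨Chr0.ofOld h.chr0 hn (fun e => hl (by rw [e]; norm_num)) f, h.gen.imp fun z hz => ⟨hz.1, by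
    rw [chL_of (chi_ine30 hf hl hz.1.1), one_mul]; exact hz.2⟩⟩

theorem Chr0.act_mul {T : B2.Tate} (hψ : Chr0 f n k lam ψ) (hB : Kil k B) (hg : g ∈ GK n) (hh : h ∈ GK n)
    (x : Fin 2 → B) : act T ψ B (g * h) x = act T ψ B g (act T ψ B h x) := by
  rw [act_eq, act_eq, act_eq, hB.pi.congr (hψ.mul g hg h hh), map_mul, Matrix.map_mul, mact_mul,
    map_smul, mul_smul]

theorem Chr0.act (hψ : Chr0 f n k lam ψ) (T : B2.Tate) (hB : Kil k B) : Act (GK n) (act T ψ B) := by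
  have h1 : ∀ x, B2.act T ψ B 1 x = x :=
    act_id hB hψ.one (by rw [map_one, la_mred_one])
  refine ⟨?_, h1, fun g hg h hh => hψ.act_mul hB hg hh, fun g hg => ⟨k + k, fun x => ?_⟩⟩
  · obtain ⟨U, u1, u2, u3⟩ := hψ.sm.comp₂ ((T.sm k).mono le_top) Prod.mk
    refine ⟨U, u1, u2, fun g hg h hh e => AddMonoidHom.ext fun x => ?_⟩
    have := Prod.mk.inj (u3 g hg h hh e)
    exact act_congr' hB (by rw [this.1, sub_self]; exact zero_mem _) this.2 x
  have e : ∀ (r : ℕ) (x : Fin 2 → B), B2.act T ψ B (g ^ r) x = mact B (rep T ψ g ^ r) x :=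
    fun r => by
      induction r with
      | zero => intro x; rw [pow_zero, pow_zero, h1, mact_one]
      | succ r ih =>
        intro x
        rw [pow_succ, hψ.act_mul hB (pow_mem hg r) hg, ih, pow_succ, mact_mul, act_apply]
  rw [e, mact_congr' hB (A' := 1) (fun i j => la_pow_le k (Ideal.pow_le_pow_right (Nat.le_succ _)
    (la_pow_mem (fun i j => ?_) _ i j))), mact_one]
  have e1 := la_C_mem (k := 1) (z := T.ρ g i j) (z' := (1 : Matrix (Fin 2) (Fin 2) ℤ_[2]) i j)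
    (congrFun (congrFun ((T.mod2 g).trans (la_mred_one 1).symm) i) j) 1
  have e2 : (rep T ψ g - 1) i j = (ψ g - 1) * C (T.ρ g i j) +
      (C (T.ρ g i j) - C ((1 : Matrix (Fin 2) (Fin 2) ℤ_[2]) i j)) := by
    simp only [rep, Matrix.sub_apply, Matrix.smul_apply, Matrix.map_apply, smul_eq_mul, one_apply,
      apply_ite (C : ℤ_[2] → Lam), map_one, map_zero]
    ring
  exact e2 ▸ add_mem (Ideal.mul_mem_right _ _ (hψ.res g)) e1

theorem Chr0.inv_mul (hψ : Chr0 f n k lam ψ) (hg : g ∈ GK n) : ψ g⁻¹ * ψ g - 1 ∈ aa k k := by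
  have := sub_mem hψ.one (hψ.mul _ (inv_mem hg) _ hg)
  rw [inv_mul_cancel] at this
  convert this using 1
  ring

theorem Chr0.mul_one (hψ : Chr0 f n k lam ψ) (hg : g ∈ GK n) (hh : h ∈ GK n)
    (e : ψ g - 1 ∈ aa k k) (e' : ψ h - 1 ∈ aa k k) : ψ (g * h) - 1 ∈ aa k k := by
  have := add_mem (add_mem (hψ.mul g hg h hh) (Ideal.mul_mem_right (ψ h) _ e)) e'
  convert this using 1
  ring

theorem Chr0.mul_cj (hψ : Chr0 f n k lam ψ) (hn : 0 < n) (hg : g ∈ GK n) :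
    ψ g * ψ (cc * g * cc) - 1 ∈ aa k k := by
  have h1 := hψ.dih (g * cc) fun e => cc_notMem hn ((mul_mem_cancel_left hg).1 e)
  have := sub_mem h1 (hψ.mul g hg _ (conj_cc_mem hg))
  rw [show g * cc * (g * cc) = g * (cc * g * cc) by group] at this
  convert this using 1
  ring

theorem Chr0.unit (hψ : Chr0 f n k lam ψ) (g : Gam) : IsUnit (ψ g) := by
  obtain ⟨a, b, e⟩ := Ideal.mem_span_pair.1 (hψ.res g)
  rw [isUnit_iff_constantCoeff, ← sub_add_cancel (ψ g) 1, ← e]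
  refine xld_unit' ?_
  simp only [map_add, map_mul, pow_one, map_ofNat, constantCoeff_X, map_one, mul_zero, add_zero]
  rw [show (2 : ZMod (2 ^ 1)) = 0 from rfl, mul_zero, zero_add]

/-- On the decomposition group of an inert place the character is the quadratic character. -/
theorem Chr0.dec_inert (hψ : Chr0 f n k lam ψ) (hw : w.p ≠ lam.p) (hI : Ine w ≤ GK n) {φ : Gam}
    (hφ : IsFrob w w.p φ) (h' : φ ∉ GK n) (hg : g ∈ GK n ⊓ Dec w) : ψ g - chL f g ∈ aa k k := by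
  convert Ideal.mul_mem_left _ (chL f g) (hψ.old.dec hw hI hφ h' hg) using 1
  rw [mul_sub, ← mul_assoc, chL_sq, one_mul, _root_.mul_one]

theorem Chr0.unr30 (hψ : Chr0 f n k lam ψ) (hf : f ∣ 30) (h1 : ¬ w.p ∣ 30) (h2 : w.p ≠ lam.p)
    (hg : g ∈ GK n ⊓ Ine w) : ψ g - 1 ∈ aa k k :=
  chL_of (chi_ine30 hf h1 hg.2) ▸ hψ.unr w h2 g hg

theorem tAct_of {D : Subgroup Gam} (hB : Kil k B) (e : ∀ g ∈ D, ψ g - chL T.f g ∈ aa k k) :
    TAct T D (act T ψ B) := fun m u g hg x => funext fun i => by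
  rw [act_eq, hB.pi.congr (e g hg), chL, Int.cast_smul_eq_zsmul, Pi.smul_apply, map_zsmul,
    mact_apply, map_add, Matrix.map_apply, Matrix.map_apply, la_hom_C u (hB.two _),
    la_hom_C u (hB.two _), Pi.smul_apply]
  simp only [mred, mulVec, dotProduct, Fin.sum_univ_two, Matrix.map_apply]

theorem Chr0.tAct (hψ : Chr0 T.f n k lam ψ) (hB : Kil k B) (hw : w.p = 2) :
    TAct T (GK n ⊓ Dec w) (B2.act T ψ B) := tAct_of hB (hψ.dec w hw)

theorem Chr.act (h : Chr f n k lam ψ) (T : B2.Tate) (hB : Kil k B) : Act (GK n) (act T ψ B) :=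
  h.chr0.act T hB

theorem Chr.conj (h : Chr f n k lam ψ) (hn : 0 < n) (hg : g ∈ GK n) :
    ψ (cc * g * cc) * ψ g - 1 ∈ aa k k := mul_comm (ψ g) _ ▸ h.chr0.mul_cj hn hg

/-- The decomposition group of a deep place acts trivially. -/
theorem Chr0.triv {T : B2.Tate} (hψ : Chr0 f n k lam ψ) (hf : f ∣ 30) (h : DpL n k T lam ψ w) (hB : Kil k B)
    (hg : g ∈ GK n ⊓ Dec w) (x : Fin 2 → B) : B2.act T ψ B g x = x := by
  have t := h.adm.tm'
  refine t.fix hB.two' ((hψ.act T hB).lo_mono inf_le_left) (act_id hB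
    (hψ.unr30 hf h.adm.nd30 h.ne ⟨t.τ_mem.1, t.gen.1⟩) ?_ x)
    (act_id hB (hψ.dih _ (h.adm.out (fr_spec w))) ?_ x) hg
  · rw [T.unr w h.adm.nd30 _ t.gen.1, la_mred_one]
  · exact (la_mred_le (Nat.le_add_right k 2) (h.rho_fq.trans (la_mred_one _).symm)).trans
      (la_mred_one k)

theorem SOk.sok0 (h : SOk T n k lam ψ Q) : SOk0 T n k lam ψ Q :=
  ⟨h.nok, h.adm, h.chr.chr0, h.deep, h.inj⟩

theorem SOk0.mono (h : SOk0 T n k lam ψ Q) {Q' : Finset Plc} (e : Q' ⊆ Q) :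
    SOk0 T n k lam ψ Q' :=
  ⟨h.nok, h.adm, h.chr, fun w hw => h.deep w (e hw),
    fun w hw v hv => h.inj w (e hw) v (e hv)⟩

theorem SOk.mono (h : SOk T n k lam ψ Q) {Q' : Finset Plc} (hQ : Q' ⊆ Q) :
    SOk T n k lam ψ Q' :=
  ⟨h.nok, h.adm, h.dvd, h.j5, h.chr, fun w hw => h.deep w (hQ hw),
    fun w hw v hv => h.inj w (hQ hw) v (hQ hv)⟩

theorem s2_chr0 (n k : ℕ) (lam : Plc) : B2.Chr0 n k lam fun _ => 1 :=
  ⟨Sm.const _, by simp, by simp, by simp, by simp, by simp⟩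

/-- The places do not depend on the character. -/
theorem SOk0.plc (h : SOk0 T n k lam ψ Q) : B2.SOk0 T n k lam (fun _ => 1) Q :=
  ⟨h.nok, h.adm, s2_chr0 n k lam, fun w hw =>
    ⟨(h.deep w hw).adm, (h.deep w hw).ne, (h.deep w hw).rho, by simp⟩, h.inj⟩

theorem SOk0.triv (h : SOk0 T n k lam ψ Q) (hB : Kil k B) (hw : w ∈ Q) (hg : g ∈ GK n ⊓ Dec w)
    (x : Fin 2 → B) : act T ψ B g x = x := h.chr.triv T.ok.dvd (h.deep w hw) hB hg x

theorem SOk0.w2_notMem (h : SOk0 T n k lam ψ Q) : w2 ∉ Q := h.plc.w2_notMem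

theorem SOk0.sp_notMem (h : SOk0 T n k lam ψ Q) (i : Fin 5) : sp lam i ∉ insert w2 Q :=
  h.plc.sp_notMem i

theorem SOk0.apart (h : SOk0 T n k lam ψ Q) : Apart (GK n) (pls lam Q) := h.plc.apart

theorem SOk0.away_iff (h : SOk0 T n k lam ψ Q) : Away (GK n) (pls lam Q) w ↔
    ¬ w.p ∣ 30 ∧ w.p ≠ lam.p ∧ ∀ v ∈ Q, w.p ≠ v.p := h.plc.away_iff

theorem SOk0.away_cc (h : SOk0 T n k lam ψ Q) (a : Away (GK n) (pls lam Q) w) (g : Gam) :
    Away (GK n) (pls lam Q) (g • w) := h.plc.away_cc a g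

/-- Away from the places of a structure the action is unramified. -/
theorem SOk0.good (h : SOk0 T n k lam ψ Q) (hB : Kil k B) (a : Away (GK n) (pls lam Q) w) :
    w.p ≠ 2 ∧ ∀ σ ∈ GK n ⊓ Ine w, ∀ x, act T ψ B σ x = x := by
  obtain ⟨h1, h2, -⟩ := h.away_iff.1 a
  exact ⟨fun e => h1 (by rw [e]; norm_num), fun σ hσ => act_id hB (h.chr.unr30 T.ok.dvd h1 h2 hσ)
    (by rw [T.unr w h1 σ hσ.2, la_mred_one])⟩

/-- The conditions that define a Selmer group. -/
theorem SOk0.mem_SelB {s : Str} (h : SOk0 T n k lam ψ s.Q) {z : Co B} :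
    z ∈ SelB T n lam ψ s B ↔ z.1 ∈ Z1 (GK n) (act T ψ B) ∧
      (∀ w, Away (GK n) (pls lam s.Q) w → ∀ σ ∈ GK n ⊓ Ine w, z.1 σ = 0) ∧
      (∀ i ∈ s.R, ∀ g ∈ GK n ⊓ Dec (sp lam i), z.1 g = cob (act T ψ B) (z.2 (sp lam i)) g) ∧
      (∀ w ∉ s.R.image (sp lam), z.2 w = 0) ∧ KumC T (GK n ⊓ Dec w2) z.1 ∧
      ∀ w ∈ s.Q, (z.1 (fq w), z.1 (gn w)) ∈ (s.ty w).cond B := by
  refine and_congr_right fun h1 => and_congr Iff.rfl (and_congr forall_mem_image
    (and_congr Iff.rfl ?_))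
  rw [forall_mem_insert, Lc, if_pos rfl, rs_mem_LK]
  refine and_congr Iff.rfl (forall₂_congr fun w hw => ?_)
  have t := (h.deep w hw).adm.tm'
  rw [Lc, if_neg (h.deep w hw).ne_w2, mem_Ldp, rs_of_mem t.φ_mem, rs_of_mem t.τ_mem]
  exact and_iff_right (h1.1.lo_mono inf_le_left).lo_rs

/-- At a deep place the action is trivial. -/
theorem SOk.triv (h : SOk T n k lam ψ Q) (hB : Kil k B) (hw : w ∈ Q) (hg : g ∈ GK n ⊓ Dec w)
    (x : Fin 2 → B) : act T ψ B g x = x := h.sok0.triv hB hw hg x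

/-- At two the character is the quadratic character. -/
theorem SOk.psi_w2 (h : SOk T n k lam ψ Q) (hg : g ∈ GK n ⊓ Dec w2) :
    ψ g - chL T.f g ∈ aa k k := h.chr.dec w2 w2_p g hg

theorem SOk.tact (h : SOk T n k lam ψ Q) (hB : Kil k B) :
    TAct T (GK n ⊓ Dec w2) (act T ψ B) := tAct_of hB fun _ hg => h.psi_w2 hg

theorem SOk0.conj_deep (h : SOk0 T n k lam ψ Q) (hB : Kil k B) (hw : w ∈ Q)
    (hc : Coc (GK n) (act T ψ B) c) :
    c (cc * fq w * cc) = c (fq w) ∧ c (cc * gn w * cc) = -c (gn w) := by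
  have d := h.deep w hw
  have t := d.adm.tm'
  have ha := h.chr.act T hB
  have h1 := d.adm.cc_fr h.nok.pos
  have tv := fun g hg => h.triv hB hw (g := g) hg
  have key : ∀ g ∈ GK n ⊓ Dec w, c (cc * fr w * g * (cc * fr w)⁻¹) = c g := fun g hg => by
    rw [hc.2 _ (mul_mem h1 hg.1) _ (inv_mem h1), hc.2 _ h1 _ hg.1, d.act_fr hB,
      ha.mul _ h1 _ hg.1, tv g hg, hc.lo_inv ha h1, map_neg, ha.lo_inv' h1]
    abel
  refine ⟨?_, ?_⟩
  · rw [← key _ t.φ_mem, _root_.mul_inv_rev, cc_inv, fq]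
    congr 1
    group
  · have h2 : (fr w)⁻¹ * gn w * fr w ∈ Ine w := by
      simpa using conj_mem_Ine (inv_mem (fr_spec w).1) t.gen.1
    have e := key _ (t.ine_le h2)
    have e2 := (t.conj' hB.two' (ha.lo_mono inf_le_left) (hc.lo_mono inf_le_left) (fr_spec w) h2).1
    obtain ⟨j, hj⟩ := (pow_dvd_pow 2 (Nat.le_add_right k 2)).trans d.dvd1
    rw [hc.lo_pow_fix ha (t.ine h2) (tv _ (t.ine_le h2) _), show fr w * ((fr w)⁻¹ * gn w * fr w) *
      (fr w)⁻¹ = gn w by group] at e2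
    rw [e2, eq_neg_iff_add_eq_zero, ← e, _root_.mul_inv_rev, cc_inv, show cc * fr w *
      ((fr w)⁻¹ * gn w * fr w) * ((fr w)⁻¹ * cc) = cc * gn w * cc by group, ← succ_nsmul', hj,
      mul_nsmul, hB.two', nsmul_zero]

/-- Complex conjugation at a deep place. -/
theorem SOk.conj_deep (h : SOk T n k lam ψ Q) (hB : Kil k B) (hw : w ∈ Q)
    (hc : Coc (GK n) (act T ψ B) c) :
    c (cc * fq w * cc) = c (fq w) ∧ c (cc * gn w * cc) = -c (gn w) := h.sok0.conj_deep hB hw hc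

theorem SOk.sp_inj (h : SOk T n k lam ψ Q) : Function.Injective (sp lam) :=
  B2.sp_inj h.nok h.adm

theorem SOk.sp_notMem (h : SOk T n k lam ψ Q) (i : Fin 5) : sp lam i ∉ insert w2 Q :=
  h.sok0.sp_notMem i

theorem SOk.w2_notMem (h : SOk T n k lam ψ Q) : w2 ∉ Q := h.sok0.w2_notMem

theorem SOk.apart (h : SOk T n k lam ψ Q) :
    Apart (GK n) (univ.image (sp lam) ∪ insert w2 Q) := h.sok0.apart

/-- The places that are away are those above the other primes. -/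
theorem SOk.away (h : SOk T n k lam ψ Q) : Away (GK n) (univ.image (sp lam) ∪ insert w2 Q) w ↔
    ¬ w.p ∣ 30 ∧ w.p ≠ lam.p ∧ ∀ v ∈ Q, w.p ≠ v.p := h.sok0.away_iff

theorem SOk.good (h : SOk T n k lam ψ Q) (hB : Kil k B)
    (hw : Away (GK n) (univ.image (sp lam) ∪ insert w2 Q) w) :
    w.p ≠ 2 ∧ ∀ σ ∈ GK n ⊓ Ine w, ∀ x, act T ψ B σ x = x := h.sok0.good hB hw

end Pool.Agent.Lib.MP_696deb_nt.B3
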