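import Pool.Agent.Lib.MP_696deb_nt.B3.A0

/-! Pairs of a vertical line and a form whose conductor shares primes with thirty: local part. -/

set_option autoImplicit false

open scoped Classical
open Finset NumberTheorySymbols

namespace Pool.Agent.Lib.MP_696deb_nt.B3

open B2

variable {e t u v k b c D β N M g' n2 r s : ℤ} {g B E : ℕ}

/-- The form with the given invariants relative to the line through `k / N`. -/
def lnF (N t k : ℤ) (x : ℤ × ℤ) : Fm :=
  (15 * x.1, (t - 30 * x.1 * k) / N, (15 * x.1 * k ^ 2 - t * k + x.2) / N ^ 2)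

theorem lnF_eq (hN : N ≠ 0) (hb : t - 30 * u * k = N * b)
    (hc : 15 * u * k ^ 2 - t * k + v = N ^ 2 * c) : lnF N t k (u, v) = (15 * u, b, c) := by
  simp only [lnF, hb, hc, Int.mul_ediv_cancel_left _ hN,
    Int.mul_ediv_cancel_left _ (pow_ne_zero 2 hN)]

theorem ln_disc (hN : N ≠ 0) (hb : t - 30 * u * k = N * b)
    (hc : 15 * u * k ^ 2 - t * k + v = N ^ 2 * c) (hM : 60 * (u * v) = t ^ 2 - N ^ 2 * D) :
    b ^ 2 - 60 * u * c = D := mul_left_cancel₀ (pow_ne_zero 2 hN) (by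
  linear_combination -(N * b + t - 30 * u * k) * hb + 60 * u * hc - hM)

/-- The forms that pair with a line are given by factorizations. -/
theorem line_par {K : Type*} [CommRing K] (hN : N ≠ 0) {w : Fm → ℤ}
    (hw : ∀ R, w R ≠ 0 → 15 ∣ R.1 ∧ fdisc R = D) (hM : 60 * M = t ^ 2 - N ^ 2 * D) (h0 : M ≠ 0)
    (φ : ℤ → ℤ → K) (k : ℤ) :
    ∑ᶠ R : Fm, (if fbil (0, N, -k) R = t then (w R : K) * φ (R.1 / 15) (fval R k N) else 0) =
      ∑ x ∈ M.divisorsAntidiag,
        if N ∣ t - 30 * x.1 * k ∧ N ^ 2 ∣ 15 * x.1 * k ^ 2 - t * k + x.2 then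
          (w (lnF N t k x) : K) * φ x.1 x.2 else 0 := by
  rw [← sum_filter]
  set s := M.divisorsAntidiag.filter fun x =>
    N ∣ t - 30 * x.1 * k ∧ N ^ 2 ∣ 15 * x.1 * k ^ 2 - t * k + x.2 with hs
  rw [finsum_eq_sum_of_support_subset _ (s := s.image (lnF N t k)) fun R hR => ?_,
    sum_image fun x hx y hy h => ?_]
  · refine sum_congr rfl ?_
    rintro ⟨a, e⟩ hx
    obtain ⟨-, ⟨b, hb⟩, c, hc⟩ := mem_filter.mp hx
    simp only at hb hc
    have h4 : fval (15 * a, b, c) k N = e := by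
      simp only [fval]; linear_combination -k * hb - hc
    rw [lnF_eq hN hb hc, h4, if_pos (by simp only [fbil]; linear_combination -hb),
      Int.mul_ediv_cancel_left _ (by norm_num)]
  · simp only [lnF, Prod.mk.injEq, mul_right_inj' (show (15 : ℤ) ≠ 0 by norm_num)] at h
    have h1 := (Int.mem_divisorsAntidiag.mp (mem_filter.mp hx).1).1
    have h2 := (Int.mem_divisorsAntidiag.mp (mem_filter.mp hy).1).1
    exact Prod.ext h.1 (mul_left_cancel₀ (left_ne_zero_of_mul (h1 ▸ h0)) (by rw [h1, h.1, h2]))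
  · obtain ⟨_, b, c⟩ := R
    simp only [Function.mem_support, ne_eq, ite_eq_right_iff, Classical.not_imp] at hR
    obtain ⟨h1, h2⟩ := hR
    obtain ⟨⟨a, rfl⟩, h4⟩ := hw _ fun h => h2 (by rw [h]; simp)
    simp only [fbil, fdisc] at h1 h4
    have e1 : t - 30 * a * k = N * b := by linear_combination -h1
    have e2 : 15 * a * k ^ 2 - t * k + fval (15 * a, b, c) k N = N ^ 2 * c := by
      simp only [fval]; linear_combination k * h1
    refine mem_coe.mpr (mem_image.mpr ⟨(a, fval (15 * a, b, c) k N), mem_filter.mpr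
      ⟨Int.mem_divisorsAntidiag.mpr ⟨mul_left_cancel₀ (show (60 : ℤ) ≠ 0 by norm_num) ?_, h0⟩,
        ⟨b, e1⟩, c, e2⟩, lnF_eq hN e1 e2⟩)
    linear_combination 60 * a * e2 - hM - N ^ 2 * h4 - (t - 30 * a * k + N * b) * e1

/-- The product of the characters at the primes of the conductor. -/
def lnV (e : ℤ) (g : ℕ) (u k c : ℤ) : ℤ :=
  k2 e k * k2 e (if 2 ∣ 15 * c then u else 15 * c) * J(u * k | g)

/-- The contribution of the line through `k / N` at the primes of the conductor. -/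
def lnT (e : ℤ) (g : ℕ) (N β t u v k : ℤ) : ℤ :=
  if (N ∣ t - 30 * u * k ∧ N ^ 2 ∣ 15 * u * k ^ 2 - t * k + v) ∧ 30 ∣ (t - 30 * u * k) / N - β then
    lnV e g u k ((15 * u * k ^ 2 - t * k + v) / N ^ 2) else 0

theorem lnT_eq (hN : N ≠ 0) (hb : t - 30 * u * k = N * b)
    (hc : 15 * u * k ^ 2 - t * k + v = N ^ 2 * c) :
    lnT e g N β t u v k = if 30 ∣ b - β then lnV e g u k c else 0 := by
  simp only [lnT, hb, hc, Int.mul_ediv_cancel_left _ hN,
    Int.mul_ediv_cancel_left _ (pow_ne_zero 2 hN), dvd_mul_right, true_and]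

theorem lnT_ne (hN : N ≠ 0) (h : lnT e g N β t u v k ≠ 0) : ∃ b c, t - 30 * u * k = N * b ∧
    15 * u * k ^ 2 - t * k + v = N ^ 2 * c ∧ 30 ∣ b - β ∧ lnV e g u k c ≠ 0 := by
  obtain ⟨⟨b, hb⟩, c, hc⟩ : N ∣ t - 30 * u * k ∧ N ^ 2 ∣ 15 * u * k ^ 2 - t * k + v :=
    by_contra fun j => h (if_neg fun i => j i.1)
  rw [lnT_eq hN hb hc] at h
  have h1 : 30 ∣ b - β := by_contra fun j => h (if_neg j)
  exact ⟨b, c, hb, hc, h1, by rwa [if_pos h1] at h⟩

theorem lnV_cop (hg : g ≠ 0) (h : lnV e g u k c ≠ 0) : IsCoprime u g := by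
  have : NeZero g := ⟨hg⟩
  have h1 : J(u | g) ≠ 0 := left_ne_zero_of_mul (jacobiSym.mul_left u k g ▸ right_ne_zero_of_mul h)
  exact Int.isCoprime_iff_gcd_eq_one.2 (not_not.1 (mt jacobiSym.eq_zero_iff_not_coprime.2 h1))

theorem sum_cong (hE : 0 < E) (h : IsCoprime r E) (s : ℤ) :
    ∑ k ∈ range E, (if (E : ℤ) ∣ s - r * k then 1 else 0 : ℤ) = 1 := by
  obtain ⟨x, y, h1⟩ := id h
  have h0 : (0 : ℤ) < E := by exact_mod_cast hE
  have h2 := Int.emod_nonneg (s * x) h0.ne'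
  have h3 := Int.emod_lt_of_pos (s * x) h0
  have h4 : (E : ℤ) ∣ s - r * (s * x % E) :=
    ⟨s * y + r * (s * x / E), by rw [Int.emod_def]; linear_combination -s * h1⟩
  rw [sum_eq_single_of_mem (s * x % E).toNat (mem_range.2 (by omega)) fun j hj hne => if_neg
    fun h5 => hne ?_, if_pos (by rwa [Int.toNat_of_nonneg h2])]
  have h6 : (E : ℤ) ∣ j - s * x % E := h.symm.dvd_of_dvd_mul_left (by
    convert dvd_sub h4 h5 using 1; ring)
  have h7 := mem_range.1 hj
  have := Int.eq_zero_of_abs_lt_dvd h6 (abs_lt.2 ⟨by omega, by omega⟩)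
  omega

/-- The sum over the lines, if the local conditions single out one class. -/
theorem ln_count (hE : 0 < E) (hB : Squarefree B) (h30 : B.Coprime 30) (hEB : E.Coprime B)
    (hM : 60 * (u * v) = t ^ 2 - (E * B) ^ 2 * D) {P : Prop} [Decidable P] {L : ℤ}
    (hr : P → IsCoprime r E)
    (h1 : ∀ k b c, t - 30 * u * k = E * B * b → b ^ 2 - 60 * u * c = D → 30 ∣ b - β →
      lnV e g u k c ≠ 0 → P ∧ (E : ℤ) ∣ s - r * k)
    (h2 : ∀ k, P → (E : ℤ) ∣ s - r * k → (B : ℤ) ∣ t - 30 * u * k → ∃ b,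
      t - 30 * u * k = E * B * b ∧ (E : ℤ) ^ 2 ∣ 15 * u * k ^ 2 - t * k + v ∧ 30 ∣ b - β ∧
        ∀ c, b ^ 2 - 60 * u * c = D → lnV e g u k c = L) :
    ∑ k ∈ range (E * B), lnT e g (E * B) β t u v k * J((k : ℤ) | B) =
      if P then L * ∏ p ∈ B.primeFactors, muP p t u v else 0 := by
  have B0 := Nat.pos_of_ne_zero hB.ne_zero
  have hN : (E : ℤ) * B ≠ 0 := by positivity
  have key : ∀ k : ℤ, lnT e g (E * B) β t u v k * J(k | B) =
      (if P then L else 0) * ((if (E : ℤ) ∣ s - r * k then 1 else 0) *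
        if (B : ℤ) ∣ t - 30 * u * k ∧ (B : ℤ) ^ 2 ∣ 15 * u * k ^ 2 - t * k + v then J(k | B)
        else 0) := fun k => by
    by_cases j : P ∧ (E : ℤ) ∣ s - r * k ∧ (B : ℤ) ∣ t - 30 * u * k ∧
      (B : ℤ) ^ 2 ∣ 15 * u * k ^ 2 - t * k + v
    · obtain ⟨j1, j2, j3, j4⟩ := j
      obtain ⟨b, hb, i1, i2, i3⟩ := h2 k j1 j2 j3
      obtain ⟨c, hc⟩ := (Nat.isCoprime_iff_coprime.2 hEB).pow.mul_dvd i1 j4
      rw [← mul_pow] at hc
      rw [lnT_eq hN hb hc, if_pos i2, i3 c (ln_disc hN hb hc hM), if_pos j1, if_pos j2,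
        if_pos ⟨j3, j4⟩, one_mul]
    · rw [of_not_not (a := lnT e g (E * B) β t u v k = 0) fun i => j ?_, zero_mul]
      · split_ifs with j1 j2 j3
        · exact absurd ⟨j1, j2, j3⟩ j
        all_goals simp
      obtain ⟨b, c, hb, hc, i1, i2⟩ := lnT_ne hN i
      obtain ⟨i3, i4⟩ := h1 k b c hb (ln_disc hN hb hc hM) i1 i2
      exact ⟨i3, i4, ⟨E * b, by rw [hb]; ring⟩, E ^ 2 * c, by rw [hc]; ring⟩
  simp only [key, ← mul_sum]
  split_ifs with j
  swap
  · rw [zero_mul]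
  rw [Tern.crt_sum hE B0 hEB (fun k : ℕ => if (E : ℤ) ∣ s - r * k then (1 : ℤ) else 0) _
    (fun x => ?_) fun x => ?_, sum_cong hE (hr j), one_mul,
    sum_line hB h30 ⟨E ^ 2 * D, by rw [hM]; ring⟩]
  · refine if_congr ?_ rfl rfl
    rw [Int.natCast_mod, Int.emod_def, show s - r * (x - E * (x / E)) =
      s - r * x + E * (r * (x / E)) by ring, dvd_add_left (dvd_mul_right _ _)]
  · have e1 : (x : ℤ) = (x % B : ℕ) + B * (x / B : ℕ) := by
      exact_mod_cast (Nat.mod_add_div x B).symm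
    rw [e1, jacobiSym.mod_left (_ + _), Int.add_mul_emod_self_left, ← jacobiSym.mod_left]
    generalize ((x % B : ℕ) : ℤ) = y
    generalize ((x / B : ℕ) : ℤ) = j
    refine if_congr ?_ rfl rfl
    rw [show t - 30 * u * (y + B * j) = t - 30 * u * y - B * (30 * u * j) by ring,
      dvd_sub_left (dvd_mul_right _ _)]
    refine and_congr_right fun ⟨c, hc⟩ => ?_
    rw [show 15 * u * (y + B * j) ^ 2 - t * (y + B * j) + v =
      15 * u * y ^ 2 - t * y + v + B ^ 2 * (15 * u * j ^ 2 - j * c) by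
        linear_combination -B * j * hc, dvd_add_left (dvd_mul_right _ _)]

end Pool.Agent.Lib.MP_696deb_nt.B3
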