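import Pool.Agent.Lib.MP_696deb_nt.B3.LNa

/-! Pairs of a vertical line and a form: the local sums in each case. -/

set_option autoImplicit false

open scoped Classical
open Finset NumberTheorySymbols

namespace Pool.Agent.Lib.MP_696deb_nt.B3

open B2

variable {e t u v k b c D β N M g' n2 n3 r s w : ℤ} {g B E : ℕ}

theorem ln_ori {c1 c2 : ℤ} (h : c1 * c2 = 30) (h1 : IsCoprime c1 c2) (h2 : IsCoprime c2 N)
    (hb : t - 30 * u * k = N * b) (hβ : 30 ∣ t - N * β) (h3 : c1 ∣ b - β) : 30 ∣ b - β := by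
  refine h ▸ h1.mul_dvd h3 (h2.dvd_of_dvd_mul_left (Dvd.dvd.trans (Dvd.intro_left _ h) ?_))
  rw [show N * (b - β) = t - N * β - 30 * (u * k) by linear_combination -hb]
  exact hβ.sub (dvd_mul_right _ _)

theorem ln_jac (hr : IsCoprime r g) (h : (g : ℤ) ∣ s - r * w) : J(w | g) = J(r * s | g) := by
  rw [jac_congr (u := r * s) (v := r ^ 2 * w) ((h.mul_left r).trans (dvd_of_eq (by ring))),
    jacobiSym.mul_left, jacobiSym.sq_one' (Int.isCoprime_iff_gcd_eq_one.1 hr), one_mul]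

theorem ln_two (hg : (g : ℤ) * g' = 15) : IsCoprime (2 : ℤ) g ∧ IsCoprime (2 : ℤ) g' :=
  ⟨⟨-7, g', by linear_combination hg⟩, -7, g, by linear_combination hg⟩

theorem ln_B (hg : (g : ℤ) * g' = 15) (h30 : B.Coprime 30) :
    IsCoprime (2 : ℤ) B ∧ IsCoprime (g : ℤ) B ∧ IsCoprime g' B := by
  have h : IsCoprime (2 * (g * g') : ℤ) B := by
    rw [hg]
    exact (Nat.isCoprime_iff_coprime.2 h30).symm
  exact ⟨h.of_mul_left_left, h.of_mul_left_right.of_mul_left_left,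
    h.of_mul_left_right.of_mul_left_right⟩

/-- The case of an odd conductor. -/
theorem ln_odd (he : ¬ 4 ∣ e) (hg : (g : ℤ) * g' = 15) (hc : IsCoprime (g : ℤ) g')
    (hB : Squarefree B) (h30 : B.Coprime 30)
    (hM : 60 * (u * v) = t ^ 2 - (g * B) ^ 2 * (D * g ^ 2)) (hβ : 30 ∣ t - g * B * (β * g)) :
    ∑ k ∈ range (g * B), lnT e g (g * B) (β * g) t u v k * J((k : ℤ) | B) =
      if IsCoprime u g then J(2 * g' * (t / g) | g) * ∏ p ∈ B.primeFactors, muP p t u v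
      else 0 := by
  have g0 : (g : ℤ) ≠ 0 := fun j => by simp [j] at hg
  have g30 : (g : ℤ) ∣ 30 := ⟨2 * g', by linear_combination -2 * hg⟩
  obtain ⟨c1, c2⟩ := ln_two hg
  obtain ⟨d1, d2, d3⟩ := ln_B hg h30
  obtain ⟨s, rfl⟩ : (g : ℤ) ∣ t :=
    (dvd_sub_left ((dvd_mul_right _ _).mul_right _)).1 (g30.trans hβ)
  rw [Int.mul_ediv_cancel_left _ g0]
  have hr : IsCoprime u g → IsCoprime (2 * g' * u) g := (c1.mul_left hc.symm).mul_left
  refine ln_count (r := 2 * g' * u) (s := s) (by omega) hB h30 (Nat.isCoprime_iff_coprime.1 d2) hM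
    hr (fun k b c hb _ h1 h2 => ⟨lnV_cop (by omega) h2, ?_⟩) fun k hu ⟨y, hy⟩ h1 => ?_
  · obtain ⟨b, rfl⟩ := (dvd_sub_left (dvd_mul_left _ _)).1 (g30.trans h1)
    exact ⟨B * b, mul_left_cancel₀ g0 (by linear_combination hb - 2 * u * k * hg)⟩
  have h2 : g * s - 30 * u * k = g ^ 2 * y := by linear_combination g * hy + 2 * u * k * hg
  obtain ⟨y, rfl⟩ := d2.symm.pow_right.dvd_of_dvd_mul_left (h2 ▸ h1)
  have h3 : g * s - 30 * u * k = g * B * (g * y) := by rw [h2]; ring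
  refine ⟨g * y, h3, (c1.mul_left (hr hu)).symm.pow_left.dvd_of_dvd_mul_left
    ⟨g * B ^ 2 * (y ^ 2 - D), mul_left_cancel₀ g0 ?_⟩,
    ln_ori (c1 := g) (c2 := 2 * g') (by linear_combination 2 * hg) (c1.symm.mul_right hc)
      ((c1.mul_left hc.symm).mul_right (d1.mul_left d3)) h3 hβ ⟨y - β, by ring⟩, fun c _ => ?_⟩
  · linear_combination (g * s - 30 * u * k + g * B * (g * y)) * h3 + hM +
      4 * u * (15 * u * k ^ 2 - g * s * k + v) * hg
  · rw [lnV, k2_of_not he, k2_of_not he, one_mul, one_mul]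
    exact ln_jac (c1.mul_left hc.symm) ⟨B * y, by linear_combination hy⟩

/-- The data for an even conductor. -/
structure Ev (e : ℤ) (E g : ℕ) (g' n2 n3 : ℤ) : Prop where
  g15 : (g : ℤ) * g' = 15
  cop : IsCoprime (g : ℤ) g'
  two : n2 * n3 = 2
  eq : (E : ℤ) = 4 * n2 * g
  sq : e ^ 2 = E ^ 2
  four : 4 ∣ e
  per : ∀ x y, 4 * n2 ∣ x - y → k2 e x = k2 e y
  half : ∀ x w, ¬ 2 ∣ w → k2 e (x + 2 * n2 * w) = -k2 e x

theorem Ev.cop_E (h : Ev e E g g' n2 n3) (h1 : IsCoprime w 2) (h2 : IsCoprime w g) :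
    IsCoprime w E := by
  rw [h.eq]
  exact ((h1.pow_right (n := 2)).mul_right (h1.of_isCoprime_of_dvd_right ⟨_, h.two.symm⟩)).mul_right
    h2

theorem Ev.g0 (h : Ev e E g g' n2 n3) : (g : ℤ) ≠ 0 := fun j => by simpa [j] using h.g15

theorem Ev.pos (h : Ev e E g g' n2 n3) : 0 < E := Nat.pos_of_ne_zero fun k => by
  have h1 := h.eq
  rw [k, Nat.cast_zero, eq_comm, mul_eq_zero, mul_eq_zero] at h1
  have h2 := h.two
  rcases h1 with (j | j) | j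
  exacts [by norm_num at j, by simp [j] at h2, h.g0 j]

theorem Ev.dvd (h : Ev e E g g' n2 n3) (h1 : 30 ∣ b - β * (2 * E)) : 2 * (g : ℤ) ∣ b :=
  (dvd_sub_left ⟨β * 4 * n2, by rw [h.eq]; ring⟩).1
    (Dvd.dvd.trans ⟨g', by linear_combination -2 * h.g15⟩ h1)

theorem Ev.ori (h : Ev e E g g' n2 n3) (h30 : B.Coprime 30) (hb : t - 30 * u * k = E * B * b)
    (hβ : 30 ∣ t - E * B * (β * (2 * E))) (h3 : 2 * (g : ℤ) ∣ b) : 30 ∣ b - β * (2 * E) := by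
  obtain ⟨c1, c2⟩ := ln_two h.g15
  exact ln_ori (c1 := 2 * g) (c2 := g') (by linear_combination 2 * h.g15) (c2.mul_left h.cop)
    ((h.cop_E c2.symm h.cop.symm).mul_right (ln_B h.g15 h30).2.2) hb hβ
    (h3.sub ⟨β * 4 * n2, by rw [h.eq]; ring⟩)

theorem cop_two (h : ¬ 2 ∣ u) : IsCoprime u 2 := (Int.prime_two.coprime_iff_not_dvd.2 h).symm

/-- The case of an even conductor in which the pairing is twice an odd number. -/
theorem Ev.one (h : Ev e E g g' n2 n3) (hB : Squarefree B) (h30 : B.Coprime 30)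
    (hM : 60 * (u * v) = t ^ 2 - (E * B) ^ 2 * (D * (2 * E) ^ 2))
    (hβ : 30 ∣ t - E * B * (β * (2 * E))) (ht : t % 4 = 2) :
    ∑ k ∈ range (E * B), lnT e g (E * B) (β * (2 * E)) t u v k * J((k : ℤ) | B) =
      if IsCoprime u g then k2 e (-(t / 2)) * J(2 * g' * (t / g) | g) *
        ∏ p ∈ B.primeFactors, muP p t u v else 0 := by
  have g0 := h.g0
  have hg := h.g15
  have hE := h.eq
  obtain ⟨c1, c2⟩ := ln_two hg
  obtain ⟨d1, d2, d3⟩ := ln_B hg h30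
  have hEB := h.cop_E d1.symm d2.symm
  obtain ⟨s, rfl⟩ : 2 * (g : ℤ) ∣ t := h.dvd (β := E * B * β) (by convert hβ using 2; ring)
  have hu : ¬ 2 ∣ u := by
    rintro ⟨u, rfl⟩
    have h1 : 2 ∣ (g * s) ^ 2 := ⟨15 * u * v + 2 * n2 * g * E ^ 3 * B ^ 2 * D,
      mul_left_cancel₀ four_ne_zero (by linear_combination -hM + 4 * E ^ 3 * B ^ 2 * D * hE)⟩
    have := Int.prime_two.dvd_of_dvd_pow h1
    rw [mul_assoc] at ht
    omega
  rw [show 2 * (g : ℤ) * s / 2 = g * s by rw [mul_assoc, Int.mul_ediv_cancel_left _ two_ne_zero],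
    show 2 * (g : ℤ) * s / g = 2 * s by rw [mul_comm 2, mul_assoc, Int.mul_ediv_cancel_left _ g0]]
  have hr : IsCoprime u g → IsCoprime (g' * u) E := fun j =>
    (h.cop_E c2.symm h.cop.symm).mul_left (h.cop_E (cop_two hu) j)
  refine ln_count (r := g' * u) (s := s) h.pos hB h30 (Nat.isCoprime_iff_coprime.1 hEB.symm) hM
    hr (fun k b c hb _ h1 h2 => ⟨lnV_cop (by omega) h2, ?_⟩) fun k hu' ⟨y, hy⟩ h1 => ?_
  · obtain ⟨b, rfl⟩ := h.dvd h1
    exact ⟨B * b, mul_left_cancel₀ (mul_ne_zero two_ne_zero g0)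
      (by linear_combination hb - 2 * u * k * hg)⟩
  have h2 : 2 * g * s - 30 * u * k = 2 * g * E * y := by
    linear_combination 2 * g * hy + 2 * u * k * hg
  obtain ⟨y, rfl⟩ := ((d1.mul_left d2).symm.mul_right hEB).dvd_of_dvd_mul_left (h2 ▸ h1)
  have h3 : 2 * g * s - 30 * u * k = E * B * (2 * g * y) := by rw [h2]; ring
  refine ⟨2 * g * y, h3, (hr hu').symm.pow_left.dvd_of_dvd_mul_left
    ⟨g * B ^ 2 * (y ^ 2 - 16 * n2 ^ 2 * D), mul_left_cancel₀ (mul_ne_zero four_ne_zero g0) ?_⟩,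
    h.ori h30 h3 hβ (dvd_mul_right _ _), fun c hd => ?_⟩
  · linear_combination (2 * g * s - 30 * u * k + E * B * (2 * g * y)) * h3 + hM +
      4 * u * (15 * u * k ^ 2 - 2 * g * s * k + v) * hg -
      4 * E ^ 2 * B ^ 2 * D * (E + 4 * n2 * g) * hE
  have h4 : k2 e (if 2 ∣ 15 * c then u else 15 * c) = k2 e u := by
    split_ifs with j
    · rfl
    · exact k2_eq j hu (l := 2 * g * y) ⟨-4 * D, by rw [h.sq]; linear_combination -hd⟩
  rw [lnV, h4, ← k2_mul, ln_jac (r := 2 * g') (s := 2 * s) (c1.mul_left h.cop.symm)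
    ⟨8 * n2 * B * y, by rw [hE] at hy; linear_combination 2 * hy⟩,
    h.per (k * u) (-(g * s)) ⟨2 * n3 * u * k + g ^ 2 * B * y, ?_⟩]
  rw [hE] at hy
  linear_combination g * hy + u * k * hg - 8 * u * k * h.two

theorem Ev.odd (h : Ev e E g g' n2 n3) (hu : 2 ∣ u) (h1 : lnV e g u k c ≠ 0) : ¬ 2 ∣ c :=
  fun j => h1 (by rw [lnV, if_pos (j.mul_left _), k2_even h.four hu, mul_zero, zero_mul])

theorem odd_mul_of (h1 : ¬ 2 ∣ u) (h2 : ¬ 2 ∣ v) : ¬ 2 ∣ u * v := fun j =>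
  (Int.prime_two.dvd_or_dvd j).elim h1 h2

/-- The case of an even conductor in which the pairing is eight times an odd number. -/
theorem Ev.three (h : Ev e E g g' n2 n3) (hB : Squarefree B) (h30 : B.Coprime 30)
    (hM : 60 * (u * v) = t ^ 2 - (E * B) ^ 2 * (D * (2 * E) ^ 2))
    (hβ : 30 ∣ t - E * B * (β * (2 * E))) (ht : t % 16 = 8) (hu : u % 8 = 4) :
    ∑ k ∈ range (E * B), lnT e g (E * B) (β * (2 * E)) t u v k * J((k : ℤ) | B) =
      if IsCoprime u g then -k2 e (-(t / 8)) * J(2 * g' * (t / g) | g) *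
        ∏ p ∈ B.primeFactors, muP p t u v else 0 := by
  have g0 := h.g0
  have hg := h.g15
  have hE := h.eq
  obtain ⟨c1, c2⟩ := ln_two hg
  obtain ⟨d1, d2, d3⟩ := ln_B hg h30
  have hEB := h.cop_E d1.symm d2.symm
  have g2 : ¬ 2 ∣ (g : ℤ) := Int.prime_two.coprime_iff_not_dvd.1 c1
  obtain ⟨s, rfl⟩ : 8 * (g : ℤ) ∣ t := (c1.pow_left (m := 3)).mul_dvd (show 8 ∣ t by omega)
    ((dvd_mul_left _ _).trans (h.dvd (β := E * B * β) (by convert hβ using 2; ring)))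
  obtain ⟨u, rfl⟩ : 4 ∣ u := by omega
  replace hu : ¬ 2 ∣ u := by omega
  rw [show 8 * (g : ℤ) * s / 8 = g * s by rw [mul_assoc, Int.mul_ediv_cancel_left _ (by norm_num)],
    show 8 * (g : ℤ) * s / g = 8 * s by rw [mul_comm 8, mul_assoc, Int.mul_ediv_cancel_left _ g0]]
  have hr : IsCoprime (4 * u) g → IsCoprime (g' * u) E := fun j =>
    (h.cop_E c2.symm h.cop.symm).mul_left (h.cop_E (cop_two hu) j.of_mul_left_right)
  refine ln_count (r := g' * u) (s := s - 2 * n2 * g) h.pos hB h30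
    (Nat.isCoprime_iff_coprime.1 hEB.symm) hM hr
    (fun k b c hb hd h1 h2 => ⟨lnV_cop (by omega) h2, ?_⟩) fun k hu' ⟨y, hy⟩ h1 => ?_
  · obtain ⟨b, rfl⟩ := h.dvd h1
    have h3 := odd_mul_of hu (h.odd (by omega) h2)
    rw [hE] at hd
    obtain ⟨b, rfl⟩ : 2 ∣ b := (Int.prime_two.dvd_or_dvd (Int.prime_two.dvd_of_dvd_pow (n := 2)
      (a := g * b) ⟨30 * u * c + 8 * n2 ^ 2 * g ^ 2 * D, by linarith⟩)).resolve_left g2
    have h4 : ¬ 2 ∣ b := by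
      rintro ⟨b, rfl⟩
      exact h3 ⟨2 * (g * b) ^ 2 - 2 * n2 ^ 2 * g ^ 2 * D - 7 * u * c, by linarith⟩
    obtain ⟨j, hj⟩ : 2 ∣ B * b - 1 := by
      have := odd_mul_of (Int.prime_two.coprime_iff_not_dvd.1 d1) h4
      omega
    refine ⟨j, mul_left_cancel₀ (mul_ne_zero (by norm_num : (8 : ℤ) ≠ 0) g0) ?_⟩
    rw [hE] at hb ⊢
    linear_combination hb - 8 * u * k * hg + 16 * n2 * g ^ 2 * hj
  have h2 : 8 * g * s - 30 * (4 * u) * k = 4 * g * E * (2 * y + 1) := by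
    linear_combination 8 * g * hy + 8 * u * k * hg - 4 * g * hE
  obtain ⟨z, hz⟩ := (((d1.pow_left (m := 2)).mul_left d2).symm.mul_right hEB).dvd_of_dvd_mul_left
    (show (B : ℤ) ∣ 2 ^ 2 * g * E * (2 * y + 1) from h1.trans (dvd_of_eq (by rw [h2]; ring)))
  have h3 : 8 * g * s - 30 * (4 * u) * k = E * B * (4 * g * z) := by rw [h2, hz]; ring
  refine ⟨4 * g * z, h3, (hr hu').symm.pow_left.dvd_of_dvd_mul_left
    ⟨g * B ^ 2 * (z ^ 2 - 4 * n2 ^ 2 * D),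
      mul_left_cancel₀ (mul_ne_zero (by norm_num : (16 : ℤ) ≠ 0) g0) ?_⟩,
    h.ori h30 h3 hβ ⟨2 * z, by ring⟩, fun c hd => ?_⟩
  · linear_combination (8 * g * s - 30 * (4 * u) * k + E * B * (4 * g * z)) * h3 + hM +
      16 * u * (15 * (4 * u) * k ^ 2 - 8 * g * s * k + v) * hg -
      4 * E ^ 2 * B ^ 2 * D * (E + 4 * n2 * g) * hE
  have h5 : ¬ 2 ∣ z := fun j => by
    have := hz ▸ j.mul_left (B : ℤ)
    omega
  have h6 : ¬ 2 ∣ 15 * c := fun ⟨j, hj⟩ => odd_mul_of g2 h5 (Int.prime_two.dvd_of_dvd_pow (n := 2)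
    ⟨u * j + 2 * n2 ^ 2 * g ^ 2 * D, by rw [hE] at hd; linarith [congr_arg (u * ·) hj]⟩)
  rw [hE] at hy
  rw [lnV, if_neg h6, k2_eq h6 hu (l := 2 * g * z) ⟨-D, by rw [h.sq]; linarith⟩, ← k2_mul,
    ln_jac (r := 2 * g') (s := 8 * s) (c1.mul_left h.cop.symm)
      ⟨16 * n2 * (2 * y + 1), by linear_combination 8 * hy⟩,
    ← h.half (-(g * s)) (g * (g * (2 * y + 1))) (odd_mul_of g2 (odd_mul_of g2 (by omega))),
    h.per (k * u) _ ⟨2 * n3 * u * k, ?_⟩]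
  linear_combination g * hy + u * k * hg - 8 * u * k * h.two

theorem Ev.flip (h : Ev e E g g' n2 n3) (hB : ¬ 2 ∣ (B : ℤ)) {σ : ℤ} (hσ : σ * σ = 1)
    (hM : 60 * (16 * u * v) = t ^ 2 - (E * B) ^ 2 * (D * (2 * E) ^ 2))
    (h0 : lnT e g (E * B) (β * (2 * E)) t (16 * u) v k ≠ 0) :
    lnT e g (E * B) (β * (2 * E)) t (16 * u) v (k + 2 * n2 * (σ * (g * B))) =
      -lnT e g (E * B) (β * (2 * E)) t (16 * u) v k := by
  have hE := h.eq
  have g2 : ¬ 2 ∣ (g : ℤ) := Int.prime_two.coprime_iff_not_dvd.1 (ln_two h.g15).1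
  have s2 : ¬ 2 ∣ σ := fun j => by have := hσ ▸ j.mul_right σ; omega
  have hN : (E : ℤ) * B ≠ 0 := mul_ne_zero (by have := h.pos; omega) (by omega)
  obtain ⟨b, c, hb, hc, h1, h2⟩ := lnT_ne hN h0
  have hd := ln_disc hN hb hc hM
  have h3 := h.odd (by omega) h2
  obtain ⟨b, rfl⟩ : 2 ∣ b := (dvd_mul_right _ _).trans (h.dvd h1)
  rw [hE] at hd
  obtain ⟨b, rfl⟩ : 4 ∣ b := (Int.pow_dvd_pow_iff two_ne_zero).1
    ⟨15 * u * c + n2 ^ 2 * g ^ 2 * D, by linarith⟩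
  have h4 : n2 ∣ 15 * u - σ * b := by
    rcases (show n2 = 1 ∨ n2 = -1 ∨ n2 = 2 ∨ n2 = -2 by
      have := Int.le_of_dvd two_pos ⟨_, h.two.symm⟩
      have := Int.le_of_dvd two_pos (neg_dvd.2 ⟨_, h.two.symm⟩)
      have : n2 ≠ 0 := fun j => by simpa [j] using h.two
      omega) with j | j | j | j
    · simp [j]
    · simp [j]
    all_goals
      obtain ⟨i, hi⟩ := Int.even_mul_pred_self b
      obtain ⟨c, rfl⟩ : ∃ y, c = 2 * y + 1 := ⟨c / 2, by omega⟩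
      obtain ⟨σ, rfl⟩ : ∃ y, σ = 2 * y + 1 := ⟨σ / 2, by omega⟩
      have : 2 ∣ 15 * u - (2 * σ + 1) * b := ⟨i - 15 * u * c - 2 * g ^ 2 * D - σ * b, by
        rw [j] at hd; linarith⟩
      simpa [j] using this
  obtain ⟨j, hj⟩ := h4
  rw [lnT_eq hN hb hc, lnT_eq hN (b := 2 * (4 * b) - 240 * σ * u) (c := c - 4 * σ * b + 60 * u)
    (by rw [hE] at hb ⊢; linear_combination hb) (by
      rw [hE] at hb hc ⊢
      linear_combination hc - 2 * n2 * σ * g * B * hb + 960 * u * n2 ^ 2 * g ^ 2 * B ^ 2 * hσ),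
    if_pos h1, if_pos ((h1.sub ⟨8 * σ * u, rfl⟩).trans (dvd_of_eq (by ring))), lnV, lnV,
    if_neg (by rw [mul_assoc 4]; omega), if_neg (by omega), h.half _ _ (odd_mul_of s2 (odd_mul_of g2 hB)),
    h.per (15 * (c - 4 * σ * b + 60 * u)) (15 * c) ⟨15 * j, by linear_combination 60 * hj⟩,
    jac_congr (u := 16 * u * (k + _)) (v := 16 * u * k) ⟨32 * u * n2 * σ * B, by ring⟩]
  ring

/-- The case of an even conductor in which the lines cancel in pairs. -/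
theorem Ev.five (h : Ev e E g g' n2 n3) (hB : ¬ 2 ∣ (B : ℤ))
    (hM : 60 * (u * v) = t ^ 2 - (E * B) ^ 2 * (D * (2 * E) ^ 2)) (hu : 16 ∣ u) :
    ∑ k ∈ range (E * B), lnT e g (E * B) (β * (2 * E)) t u v k * J((k : ℤ) | B) = 0 := by
  obtain ⟨u, rfl⟩ := hu
  have hE := h.eq
  obtain ⟨H, hH⟩ : ∃ H : ℕ, (H : ℤ) = 2 * n2 * g := ⟨E / 2, by
    rw [mul_assoc] at hE ⊢; omega⟩
  rw [show E * B = H * B + H * B by rw [← add_mul]; congr 1; rw [mul_assoc] at hE hH; omega,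
    sum_range_add, ← sum_add_distrib]
  refine sum_eq_zero fun k _ => ?_
  have e1 : ((H * B + k : ℕ) : ℤ) = k + 2 * n2 * (1 * (g * B)) := by
    push_cast; rw [hH]; ring
  rw [e1, jac_congr (u := k + _) (v := k) ⟨2 * n2 * g, by ring⟩, ← add_mul]
  refine mul_eq_zero_of_left ?_ _
  by_cases j : lnT e g (E * B) (β * (2 * E)) t (16 * u) v k = 0
  · by_contra i
    rw [j, zero_add] at i
    have := h.flip hB (σ := -1) (by norm_num) hM i
    rw [show (k : ℤ) + 2 * n2 * (1 * (g * B)) + 2 * n2 * (-1 * (g * B)) = k by ring, j] at this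
    exact i (neg_eq_zero.1 this.symm)
  · rw [h.flip hB (σ := 1) (by norm_num) hM j, add_neg_cancel]

/-- The remaining cases do not occur. -/
theorem Ev.rest (h : Ev e E g g' n2 n3) (hB : (B : ℤ) ≠ 0)
    (hM : 60 * (u * v) = t ^ 2 - (E * B) ^ 2 * (D * (2 * E) ^ 2))
    (h0 : lnT e g (E * B) (β * (2 * E)) t u v k ≠ 0) :
    t % 4 = 2 ∨ (t % 16 = 8 ∧ u % 8 = 4) ∨ 16 ∣ u := by
  have hE := h.eq
  have hN : (E : ℤ) * B ≠ 0 := mul_ne_zero (by have := h.pos; omega) hB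
  obtain ⟨b, c, hb, hc, h1, h2⟩ := lnT_ne hN h0
  have hd := ln_disc hN hb hc hM
  have hk : ¬ 2 ∣ k := fun j => h2 (by rw [lnV, k2_even h.four j, zero_mul, zero_mul])
  obtain ⟨b, rfl⟩ : 2 ∣ b := (dvd_mul_right _ _).trans (h.dvd h1)
  rw [hE] at hd hb
  by_cases hu : 2 ∣ u
  swap
  · have h3 := odd_mul_of hu hk
    have : t = 8 * (n2 * g * B * b) + 30 * (u * k) := by linear_combination hb
    omega
  have h3 := cop_two (h.odd hu h2)
  obtain ⟨u, rfl⟩ := hu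
  obtain ⟨b, rfl⟩ : 2 ∣ b := Int.prime_two.dvd_of_dvd_pow (n := 2)
    ⟨15 * u * c + 8 * n2 ^ 2 * g ^ 2 * D, by linarith⟩
  obtain ⟨u, rfl⟩ : 2 ∣ u := h3.symm.dvd_of_dvd_mul_right
    ⟨b ^ 2 - 4 * n2 ^ 2 * g ^ 2 * D - 7 * u * c, by linarith⟩
  by_cases hu : 2 ∣ u
  swap
  · have h3 := odd_mul_of hu hk
    have : t = 16 * (n2 * g * B * b) + 120 * (u * k) := by linear_combination hb
    omega
  obtain ⟨u, rfl⟩ := hu
  obtain ⟨b, rfl⟩ : 2 ∣ b := Int.prime_two.dvd_of_dvd_pow (n := 2)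
    ⟨15 * u * c + 2 * n2 ^ 2 * g ^ 2 * D, by linarith⟩
  obtain ⟨u, rfl⟩ : 2 ∣ u := h3.symm.dvd_of_dvd_mul_right
    ⟨b ^ 2 - n2 ^ 2 * g ^ 2 * D - 7 * u * c, by linarith⟩
  omega

end Pool.Agent.Lib.MP_696deb_nt.B3
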