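import Pool.Agent.Lib.MP_696deb_nt.B3.LNb

/-! The normal form of the count of pairs of a line and a form. -/

set_option autoImplicit false

open scoped Classical
open Finset NumberTheorySymbols

namespace Pool.Agent.Lib.MP_696deb_nt.B3

open B2

variable {δ m e a b t u v k D β M g' n2 : ℤ} {g : ℕ}

theorem ev_of (hg : (g : ℤ) * g' = 15) (hc : IsCoprime (g : ℤ) g') (hn : n2 = 1 ∨ n2 = 2)
    (hE : (e.natAbs : ℤ) = 4 * n2 * g) : ∃ n3, Ev e e.natAbs g g' n2 n3 := by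
  have g2 : ¬ 2 ∣ (g : ℤ) := Int.prime_two.coprime_iff_not_dvd.1 (ln_two hg).1
  have k4 : ∀ x : ZMod 4, ZMod.χ₄ (x + 2) = -ZMod.χ₄ x := by decide
  have k8 : ∀ x : ZMod 8, ZMod.χ₈ (x + 4) = -ZMod.χ₈ x ∧ ZMod.χ₈' (x + 4) = -ZMod.χ₈' x := by decide
  rcases hn with rfl | rfl
  · have e1 : ∀ x, k2 e x = ZMod.χ₄ x := fun x => by
      rw [k2, if_neg (by omega), if_pos (by omega)]
    refine ⟨2, hg, hc, rfl, hE, (Int.natAbs_sq e).symm, by omega, fun x y j => ?_, fun x w j => ?_⟩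
    · rw [e1, e1, (ZMod.intCast_eq_intCast_iff_dvd_sub y x 4).2 j]
    · rw [e1, e1, ← k4, (ZMod.intCast_eq_intCast_iff_dvd_sub _ (x + 2) 4).2 (by omega)]
      simp
  · have e8 : 8 ∣ e := by omega
    refine ⟨1, hg, hc, rfl, hE, (Int.natAbs_sq e).symm, by omega, fun x y j => ?_, fun x w j => ?_⟩
    · rw [k2, k2, if_pos e8, if_pos e8, (ZMod.intCast_eq_intCast_iff_dvd_sub y x 8).2 j]
    · rw [k2, k2, if_pos e8, if_pos e8,
        (ZMod.intCast_eq_intCast_iff_dvd_sub _ (x + 4) 8).2 (by omega)]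
      split_ifs
      exacts [by simpa using (k8 x).1, by simpa using (k8 x).2]

theorem Dsc.shape (h : Dsc δ m e) : ∃ g' : ℤ, (e.natAbs.gcd 15 : ℕ) * g' = 15 ∧
    IsCoprime ((e.natAbs.gcd 15 : ℕ) : ℤ) g' ∧ (30 : ℤ) / (e.natAbs.gcd 15 : ℕ) = 2 * g' ∧
    (¬ 2 ∣ e ∧ e.natAbs.gcd 15 = e.natAbs ∨
      2 ∣ e ∧ ∃ n2 n3, Ev e e.natAbs (e.natAbs.gcd 15) g' n2 n3) := by
  have key : ∃ g' : ℤ, ((e.natAbs.gcd 15 : ℕ) * g' = 15 ∧
      Int.gcd (e.natAbs.gcd 15 : ℕ) g' = 1 ∧ (30 : ℤ) / (e.natAbs.gcd 15 : ℕ) = 2 * g') ∧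
      (¬ 2 ∣ e ∧ e.natAbs.gcd 15 = e.natAbs ∨
        2 ∣ e ∧ ((e.natAbs : ℤ) = 4 * 1 * (e.natAbs.gcd 15 : ℕ) ∨
          (e.natAbs : ℤ) = 4 * 2 * (e.natAbs.gcd 15 : ℕ))) := by
    refine ⟨15 / m.natAbs, ?_⟩
    obtain ⟨h1, h2⟩ := h.spt.cases
    have he := h.eq
    rcases h1 with rfl | rfl | rfl | rfl <;> rcases h2 with rfl | rfl | rfl | rfl <;> subst he <;>
      decide
  obtain ⟨g', ⟨h1, h2, h3⟩, h4⟩ := key
  have h5 := Int.isCoprime_iff_gcd_eq_one.2 h2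
  exact ⟨g', h1, h5, h3, h4.imp_right fun j => ⟨j.1, j.2.elim
    (fun i => ⟨1, ev_of h1 h5 (.inl rfl) i⟩) fun i => ⟨2, ev_of h1 h5 (.inr rfl) i⟩⟩⟩

/-- The common value of the characters at the primes of the conductor. -/
def lnL (e t : ℤ) : ℤ :=
  (if 2 ∣ e then if t % 4 = 2 then k2 e (-(t / 2)) else -k2 e (-(t / 8)) else 1) *
    J(30 / (e.natAbs.gcd 15 : ℕ) * (t / (e.natAbs.gcd 15 : ℕ)) | e.natAbs.gcd 15)

/-- The factorizations that occur. -/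
def lnH (e t u : ℤ) : Prop :=
  IsCoprime u (e.natAbs.gcd 15 : ℕ) ∧ (2 ∣ e → t % 4 = 2 ∨ t % 16 = 8 ∧ u % 8 = 4)

theorem ln_sum (h : Dsc δ m e) {B : ℕ} (hB : Squarefree B) (h30 : B.Coprime 30)
    (hM : 60 * (u * v) = t ^ 2 - (e.natAbs * B) ^ 2 * (D * lv e ^ 2))
    (hβ : 30 ∣ t - e.natAbs * B * (β * lv e)) :
    ∑ k ∈ range (e.natAbs * B), lnT e (e.natAbs.gcd 15) (e.natAbs * B) (β * lv e) t u v k *
      J((k : ℤ) | B) = if lnH e t u then lnL e t * ∏ p ∈ B.primeFactors, muP p t u v else 0 := by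
  obtain ⟨g', h1, h2, h3, ⟨h4, h5⟩ | ⟨h4, n2, n3, h5⟩⟩ := h.shape
  · rw [lv, if_neg h4] at hM hβ ⊢
    rw [lnL, h3, if_neg h4, one_mul]
    simp only [lnH, h4, false_imp_iff, and_true]
    rw [h5] at h1 h2 ⊢
    convert ln_odd (e := e) (by omega) h1 h2 hB h30 hM hβ
  rw [lv, if_pos h4] at hM hβ ⊢
  rw [lnL, h3, if_pos h4]
  simp only [lnH, h4, true_imp_iff]
  by_cases j1 : t % 4 = 2
  · simp only [j1, true_or, and_true, if_true]
    convert h5.one hB h30 hM hβ j1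
  by_cases j2 : t % 16 = 8 ∧ u % 8 = 4
  · simp only [j1, j2, and_self, or_true, and_true, if_false]
    convert h5.three hB h30 hM hβ j2.1 j2.2
  rw [if_neg fun j => j.2.elim j1 j2]
  have B2 : ¬ 2 ∣ (B : ℤ) := Int.prime_two.coprime_iff_not_dvd.1 (ln_B h1 h30).1
  by_cases j3 : 16 ∣ u
  · exact h5.five B2 hM j3
  · exact sum_eq_zero fun k _ => mul_eq_zero_of_left (by_contra fun j =>
      (h5.rest (by omega) hM j).elim j1 fun i => i.elim j2 j3) _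

theorem ln_gch {A : ℕ} {N c : ℤ} (hA : ∀ p ∈ A.primeFactors, ¬ (p : ℤ) ∣ 15 ∧ ¬ (p : ℤ) ∣ N)
    (hd : (A : ℤ) ∣ b ^ 2 - 60 * u * c) (hb : t - 30 * u * k = N * b)
    (hc : 15 * u * k ^ 2 - t * k + v = N ^ 2 * c) : gch A (15 * u, b, c) =
      ∏ p ∈ A.primeFactors, if (p : ℤ) ∣ u then J(v | p) else J(15 * u | p) := by
  refine prod_congr rfl fun p hp => ?_
  have hp' := Nat.prime_of_mem_primeFactors hp
  have hp2 := Nat.prime_iff_prime_int.mp hp'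
  have h8 : (p : ℤ) ∣ 15 * u ↔ (p : ℤ) ∣ u := by rw [hp2.dvd_mul, or_iff_right (hA p hp).1]
  simp only [h8]
  split_ifs with ha
  · obtain ⟨a, rfl⟩ := ha
    obtain ⟨d, hd⟩ := dvd_of_mem hd hp
    obtain ⟨b, rfl⟩ := hp2.dvd_of_dvd_pow (n := 2) (show (p : ℤ) ∣ b ^ 2 from
      ⟨d + 60 * a * c, by linear_combination hd⟩)
    rw [← jac_mul_sq hp' (hA p hp).2]
    exact jac_congr ⟨-(15 * a * k ^ 2 + b * k * N), by linear_combination -k * hb - hc⟩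
  · rfl

/-- The normal form of the count of pairs of a line and a form. -/
theorem sum_lines3 {K : Type*} [CommRing K] (h : Dsc δ m e) (hn : Good (b.natAbs * a.natAbs))
    (hD : a ∣ D) (hM : 60 * M = t ^ 2 - (cn e b : ℤ) ^ 2 * (D * lv e ^ 2)) (h0 : M ≠ 0)
    (hβ : 30 ∣ t - cn e b * (β * lv e)) (φ : ℤ → ℤ → K) :
    ∑ k ∈ Ico (0 : ℤ) (cn e b), (kap e b k : K) * ∑ᶠ R : Fm, (if fbil (0, cn e b, -k) R = t then
        (wU e a (D * lv e ^ 2) (β * lv e) R : K) * φ (R.1 / 15) (fval R k (cn e b)) else 0) =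
      ∑ x ∈ M.divisorsAntidiag, ((if lnH e t x.1 then
        lnL e t * J(15 | a.natAbs) * muW b.natAbs a.natAbs t x.1 x.2 else 0 : ℤ) : K) *
          φ x.1 x.2 := by
  have e0 := h.ne_zero
  have hN : cn e b = e.natAbs * b.natAbs := Int.natAbs_mul e b
  replace hD : (a.natAbs : ℤ) ∣ D * lv e ^ 2 := (Int.natAbs_dvd.2 hD).mul_right _
  have ho : oc e b = e.natAbs.gcd 15 * b.natAbs := rfl
  have hw : ∀ c d f : ℤ, uw e a (15 * c, d, f) = k2 e (if 2 ∣ 15 * f then c else 15 * f) *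
      gch (e.natAbs.gcd 15 * a.natAbs) (fV (15 * c, d, f)) := fun c d f => by
    simp only [uw, gw, g2, fV, Int.mul_ediv_cancel_left _ (by norm_num : (15 : ℤ) ≠ 0)]
  generalize a.natAbs = A at hn hD hw
  generalize b.natAbs = B at hn hN ho
  have kB := hn.sqf.of_mul_left
  have kA := hn.sqf.of_mul_right
  have h30 := Tern.Good.coprime30 hn
  have N0 : (cn e b : ℤ) ≠ 0 := by
    rw [hN]; exact_mod_cast mul_ne_zero (Int.natAbs_ne_zero.2 e0) kB.ne_zero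
  have g15 := Nat.gcd_dvd_right e.natAbs 15
  have g0 := ne_zero_of_dvd_ne_zero (by norm_num) g15
  have c15 : A.Coprime 15 := hn.cop.coprime_mul_left
  rw [sum_Ico_zero]
  simp only [line_par N0 (fun R (j : wU e a (D * lv e ^ 2) (β * lv e) R ≠ 0) =>
    ⟨(fam_of_wU j).1, (fam_of_wU j).2.1⟩) hM h0, mul_sum]
  rw [sum_comm]
  refine sum_congr rfl ?_
  rintro ⟨u, v⟩ hx
  obtain ⟨rfl, -⟩ := Int.mem_divisorsAntidiag.mp hx
  have h1 := ln_sum h kB h30.coprime_mul_right (u := u) (v := v) (D := D) (β := β)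
    (by rw [hM, hN]; push_cast; rfl) (by rwa [hN, Nat.cast_mul] at hβ)
  rw [← Nat.cast_mul, ← hN] at h1
  have h2 := congr_arg (fun z : ℤ => ((z * (J(15 | A) * ∏ p ∈ A.primeFactors,
    if (p : ℤ) ∣ u then J(v | p) else J(15 * u | p)) : ℤ) : K) * φ u v) h1
  simp only [sum_mul, Int.cast_sum] at h2
  refine (sum_congr rfl fun k _ => ?_).trans (h2.trans ?_)
  swap
  · congr 2
    split_ifs
    · rw [muW]; ring
    · rw [zero_mul]
  split_ifs with j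
  swap
  · rw [lnT, if_neg fun i => j i.1]
    simp
  obtain ⟨⟨c, hc⟩, d, hd⟩ := j
  have h3 := ln_disc N0 hc hd hM
  have h4 : fdisc (15 * u, c, d) = D * lv e ^ 2 := by rw [← h3, fdisc]; ring
  rw [← mul_assoc, ← Int.cast_mul, lnF_eq N0 hc hd, lnT_eq N0 hc hd, wU]
  congr 2
  by_cases i : 30 ∣ c - β * lv e
  swap
  · rw [if_neg i, if_neg fun j => i j.2.2]
    simp
  have h5 : gch (e.natAbs.gcd 15) (fV (15 * u, c, d)) = J(u | e.natAbs.gcd 15) := by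
    rw [jac_eq_prod _ (Squarefree.squarefree_of_dvd g15 (by decide +kernel))]
    refine prod_congr rfl fun p hp => ?_
    simp only [fV, Int.mul_ediv_cancel_left _ (by norm_num : (15 : ℤ) ≠ 0)]
    exact if_pos ((dvd_of_mem (Int.natCast_dvd_natCast.2 g15) hp).mul_right _)
  rw [if_pos i, if_pos ⟨dvd_mul_right _ _, h4, i⟩, hw, gch_mul (c15.symm.coprime_dvd_left g15), h5,
    (scl_fV (dvd_mul_right _ _)).gch kA
      (h30.coprime_mul_left.coprime_dvd_right (show 2 ∣ 30 by norm_num)).odd_of_right (h4 ▸ hD)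
      (Nat.isCoprime_iff_coprime.2 c15.symm),
    ln_gch (fun p hp => ?_) (h3 ▸ hD) hc hd, kap, ho, lnV, jacobiSym.mul_right' _ g0 kB.ne_zero,
    jacobiSym.mul_left u]
  · ring
  have hp' := Nat.prime_of_mem_primeFactors hp
  have hpA := Nat.dvd_of_mem_primeFactors hp
  have h6 : ¬ p ∣ 30 := fun j =>
    hp'.one_lt.ne' (Nat.eq_one_of_dvd_coprimes h30 (hpA.mul_left _) j)
  refine ⟨fun j => h6 ((Int.natCast_dvd_natCast.1 j).mul_left 2), fun j => ?_⟩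
  rw [Int.natCast_dvd_natCast, hN] at j
  rcases hp'.dvd_mul.1 j with j | j
  · exact h6 (hp'.dvd_of_dvd_pow (n := 3) (j.trans ((Int.natAbs_dvd_natAbs.2
      (h.spt.dsc h.eq).2.1).trans (by norm_num))))
  · exact hp'.one_lt.ne' (Nat.eq_one_of_dvd_coprimes (Nat.coprime_of_squarefree_mul hn.sqf) j hpA)

end Pool.Agent.Lib.MP_696deb_nt.B3
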