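import Pool.Agent.Lib.MP_696deb_nt.B3.LNc
import Pool.Agent.Lib.MP_696deb_nt.B2.GZb

/-! Cancellation in the sums over factorizations. -/

set_option autoImplicit false

open scoped Classical
open Finset NumberTheorySymbols

namespace Pool.Agent.Lib.MP_696deb_nt.B3

open B2 Tern

variable {δ m e a b x t u v D M y N : ℤ} {l n A B X : ℕ}

theorem ln_split (hl : l.Prime) {μ : ℤ → ℤ → ℤ} (hμ : ∀ a e, μ (l * a) e = μ a (l * e)) (M : ℤ) :
    ∑ x ∈ M.divisorsAntidiag, μ x.1 x.2 * x.1.sign *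
      (padicValInt l x.2 - padicValInt l x.1) = 0 := by
  have h0 : (0 : ℤ) < l := mod_cast hl.pos
  let g : ℤ × ℤ → ℤ × ℤ := fun x => (l ^ padicValInt l x.2 * (x.1 / l ^ padicValInt l x.1),
    l ^ padicValInt l x.1 * (x.2 / l ^ padicValInt l x.2))
  have hg : ∀ {a e : ℤ} (i j : ℕ), ¬ (l : ℤ) ∣ a → ¬ (l : ℤ) ∣ e →
      g (l ^ i * a, l ^ j * e) = (l ^ j * a, l ^ i * e) := fun i j ha he => by
    simp only [g, padicValInt_pow_mul hl ha, padicValInt_pow_mul hl he,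
      Int.mul_ediv_cancel_left _ (pow_ne_zero _ h0.ne')]
  have ex : ∀ x ∈ M.divisorsAntidiag, ∃ (i j : ℕ) (a e : ℤ), ¬ (l : ℤ) ∣ a ∧ ¬ (l : ℤ) ∣ e ∧
      x = (l ^ i * a, l ^ j * e) := by
    rintro ⟨a, e⟩ hx
    obtain ⟨rfl, h⟩ := Int.mem_divisorsAntidiag.mp hx
    obtain ⟨i, a, ha, rfl⟩ := exists_pow_mul hl (left_ne_zero_of_mul h)
    obtain ⟨j, e, he, rfl⟩ := exists_pow_mul hl (right_ne_zero_of_mul h)
    exact ⟨i, j, a, e, ha, he, rfl⟩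
  have h1 : ∀ (i : ℕ) (a e : ℤ), μ (l ^ i * a) e = μ a (l ^ i * e) := fun i => by
    induction i with
    | zero => simp
    | succ i ih => intro a e; rw [pow_succ', mul_assoc, hμ, ih, mul_left_comm, mul_assoc]
  have key : ∀ x ∈ M.divisorsAntidiag, μ x.1 x.2 * x.1.sign *
      (padicValInt l x.2 - padicValInt l x.1) + μ (g x).1 (g x).2 * (g x).1.sign *
      (padicValInt l (g x).2 - padicValInt l (g x).1) = 0 := fun x hx => by
    obtain ⟨i, j, a, e, ha, he, rfl⟩ := ex x hx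
    simp only [hg i j ha he, padicValInt_pow_mul hl ha, padicValInt_pow_mul hl he,
      h1, Int.sign_mul, Int.sign_eq_one_of_pos (pow_pos h0 _), mul_left_comm ((l : ℤ) ^ j)]
    ring
  refine sum_involution (fun x _ => g x) key (fun x hx h1 h2 => h1 (by
    simpa only [h2, add_self_eq_zero] using key x hx)) (fun x hx => ?_) fun x hx => ?_ <;>
    obtain ⟨i, j, a, e, ha, he, rfl⟩ := ex x hx
  · rw [hg i j ha he]
    rw [Int.mem_divisorsAntidiag] at hx ⊢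
    exact ⟨by rw [← hx.1]; ring, hx.2⟩
  · rw [hg i j ha he, hg j i ha he]

theorem ln_ram (hl : l.Prime) (h30 : l.Coprime 30) {c : ℤ} (hc : ¬ (l : ℤ) ∣ c)
    (h : 60 * (a * e) = t ^ 2 - l ^ 3 * c) (h0 : muP l t a e ≠ 0) :
    padicValInt l e = padicValInt l a := by
  have := Fact.mk hl
  have hP := Nat.prime_iff_prime_int.mp hl
  have hl0 : (l : ℤ) ≠ 0 := mod_cast hl.ne_zero
  have key : ∀ {t a e k : ℤ}, 60 * (a * e) = t ^ 2 - l * k → ¬ (l : ℤ) ∣ t →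
      ¬ (l : ℤ) ∣ a ∧ ¬ (l : ℤ) ∣ e := fun {t a e k} h ht => by
    rw [← not_or, ← hP.dvd_mul]
    exact fun h1 => ht (hP.dvd_of_dvd_pow ((dvd_sub_left (dvd_mul_right _ k)).mp (h ▸ h1.mul_left 60)))
  by_cases ht : (l : ℤ) ∣ t
  swap
  · obtain ⟨h1, h2⟩ := key (k := l ^ 2 * c) (by rw [h]; ring) ht
    rw [padicValInt.eq_zero_of_not_dvd h1, padicValInt.eq_zero_of_not_dvd h2]
  obtain ⟨⟨a, rfl⟩, e, rfl⟩ : (l : ℤ) ∣ a ∧ (l : ℤ) ∣ e := by
    by_contra h1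
    exact h0 (by rw [muP, if_pos ht, if_neg h1])
  obtain ⟨t, rfl⟩ := ht
  replace h : 60 * (a * e) = t ^ 2 - l * c :=
    mul_left_cancel₀ (pow_ne_zero 2 hl0) (by linear_combination h)
  by_cases ht : (l : ℤ) ∣ t
  swap
  · obtain ⟨h1, h2⟩ := key h ht
    simpa using (padicValInt_pow_mul hl h2 1).trans (padicValInt_pow_mul hl h1 1).symm
  refine (h0 ?_).elim
  have h3 : ¬ ((l : ℤ) ∣ a ∧ (l : ℤ) ∣ e) := by
    rintro ⟨⟨a, rfl⟩, e, rfl⟩
    obtain ⟨t, rfl⟩ := ht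
    exact hc ⟨t ^ 2 - 60 * (a * e), mul_left_cancel₀ hl0 (by linear_combination h)⟩
  obtain ⟨h2, k3, k5⟩ := small_ne_zero h30 hl dvd_rfl
  have h4 := congr_arg (Int.cast : ℤ → ZMod l) h
  simp only [← ZMod.intCast_zmod_eq_zero_iff_dvd] at ht h3
  simp only [Int.cast_mul, Int.cast_sub, Int.cast_pow, ht, Int.cast_natCast, ZMod.natCast_self,
    zero_mul, show ((60 : ℤ) : ZMod l) = 2 * 2 * 3 * 5 by norm_num, ne_eq, OfNat.ofNat_ne_zero,
    not_false_eq_true, zero_pow, sub_zero, mul_eq_zero, h2, k3, k5, false_or] at h4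
  rw [muP_mul]
  refine sum_eq_zero fun k _ => ite_eq_right_iff.mpr fun hk => ?_
  rw [show (15 : ZMod l) = 3 * 5 by norm_num] at hk
  rcases h4 with h4 | h4
  · exact (h3 ⟨h4, by simpa [h4, ht] using hk⟩).elim
  · have : (a : ZMod l) ≠ 0 := fun h5 => h3 ⟨h5, h4⟩
    obtain rfl : k = 0 := by simpa [h4, ht, k3, k5, this] using hk
    simp

theorem ln_inert (hn : Good n) (hab : a * b = -n) (hl : l.Prime) (h1 : ¬ (l : ℤ) ∣ n)
    (h2 : ¬ (l : ℤ) ∣ N * x) (hy : 4 * (l : ℤ) ∣ y ^ 2 - b * x) (hc : J((l : ℤ) | n) ≠ 1)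
    (hM : 60 * M = t ^ 2 - N ^ 2 * (a * x)) : ¬ (l : ℤ) ∣ M := by
  rintro ⟨M, rfl⟩
  obtain ⟨k, hk⟩ := hy
  have h3 : 4 * (l : ℤ) ∣ (t * y) ^ 2 + n * (N * x) ^ 2 := ⟨t ^ 2 * k + 15 * M * b * x, by
    linear_combination t ^ 2 * hk - b * x * hM + (N * x) ^ 2 * hab⟩
  rcases hl.eq_two_or_odd' with rfl | ho
  · obtain ⟨z, hz⟩ : ∃ z, N * x = 2 * z + 1 := ⟨N * x / 2, by omega⟩
    obtain ⟨j, hj⟩ := Int.even_mul_succ_self z
    refine hc (jac_of_split hn hl (by omega) (x := t * y) ?_)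
    rw [show (t * y) ^ 2 + n = (t * y) ^ 2 + n * (N * x) ^ 2 - 8 * (n * j) by
      rw [hz]; linear_combination -4 * n * hj]
    exact h3.sub (dvd_mul_right _ _)
  · refine hc ?_
    rw [← jacobi_neg_swap hn.mod4 ho, jac_eq_of_sq hl (v := 1) (k := N * x) (l := t * y)
      (by rwa [dvd_neg]) (by exact_mod_cast hl.not_dvd_one) h2
      (((dvd_mul_left _ _).trans h3).neg_right.trans (dvd_of_eq (by ring))), jacobiSym.one_left]

theorem lnH_mul {c : ℤ} (hc : IsCoprime c e) : lnH e t (c * u) ↔ lnH e t u := by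
  refine and_congr ⟨fun j => j.of_mul_left_right, fun j => IsCoprime.mul_left
    (hc.of_isCoprime_of_dvd_right (Int.natCast_dvd.2 (Nat.gcd_dvd_left _ _))) j⟩
    (forall_congr' fun j => or_congr_right (and_congr_right' ?_))
  have h1 := Int.prime_two.coprime_iff_not_dvd.1 (hc.of_isCoprime_of_dvd_right j).symm
  obtain ⟨c, rfl⟩ : ∃ z, c = 2 * z + 1 := ⟨c / 2, by omega⟩
  constructor <;> intro i
  · obtain ⟨u, rfl⟩ : 4 ∣ u := ((cop_two h1).pow_right (n := 2)).symm.dvd_of_dvd_mul_left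
      (show 4 ∣ _ by omega)
    have : (2 * c + 1) * (4 * u) = 8 * (c * u) + 4 * u := by ring
    omega
  · obtain ⟨u, rfl⟩ : 4 ∣ u := by omega
    have : (2 * c + 1) * (4 * u) = 8 * (c * u) + 4 * u := by ring
    omega

/-- The shape of the complementary factor. -/
theorem lnH_other (h : Dsc δ m e) (hM : 60 * (u * v) = t ^ 2 - (e * lv e) ^ 2 * D)
    (hg : ((e.natAbs.gcd 15 : ℕ) : ℤ) ∣ t) (h0 : lnL e t ≠ 0) (hu : lnH e t u) :
    ∃ w, v = (e.natAbs.gcd 15 : ℕ) * w ∧ lnH e t w ∧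
      (2 ∣ e → ∃ c y z, c ≠ 0 ∧ u = c * y ∧ w = c * z ∧ ¬ 2 ∣ y ∧ ¬ 2 ∣ z) := by
  obtain ⟨g', h1, h2, h3, h4⟩ := h.shape
  obtain ⟨i, hi⟩ : ((e.natAbs.gcd 15 : ℕ) : ℤ) ∣ e := Int.natCast_dvd.2 (Nat.gcd_dvd_left _ _)
  obtain ⟨j, hj⟩ := dvd_lv e
  have h5 := right_ne_zero_of_mul h0
  have h6 : 2 ∣ e → 32 ∣ e * lv e := fun k => by
    obtain ⟨f, hf⟩ := (h.spt.dsc h.eq).2.2.1 k
    rw [lv, if_pos k]
    exact ⟨f * f.natAbs, by rw [hf, Int.natAbs_mul]; push_cast; ring⟩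
  unfold lnH at hu ⊢
  generalize e.natAbs.gcd 15 = g at *
  obtain ⟨s, rfl⟩ := hg
  have g0 : (g : ℤ) ≠ 0 := fun j => by simp [j] at h1
  have : NeZero g := ⟨by omega⟩
  rw [Int.mul_ediv_cancel_left _ g0, jacobiSym.mul_left] at h5
  have h7 : IsCoprime s g := Int.isCoprime_iff_gcd_eq_one.2
    (not_not.1 (mt jacobiSym.eq_zero_iff_not_coprime.2 (right_ne_zero_of_mul h5)))
  obtain ⟨c1, c2⟩ := ln_two h1
  have h8 : e * lv e = g ^ 2 * (i ^ 2 * j) := by rw [hj]; nth_rw 1 2 [hi]; ring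
  obtain ⟨w, rfl⟩ := (((c1.pow_left (m := 2)).mul_left h2.symm).mul_left hu.1).symm.dvd_of_dvd_mul_left
    (z := v) ⟨s ^ 2 - g ^ 2 * (i ^ 2 * j) ^ 2 * D, mul_left_cancel₀ g0 (by
      rw [h8] at hM; linear_combination hM + 4 * u * v * h1)⟩
  have h9 : 4 * g' * u * w = s ^ 2 + g * (-g * (i ^ 2 * j) ^ 2 * D) :=
    mul_left_cancel₀ (pow_ne_zero 2 g0) (by
      rw [h8] at hM; linear_combination hM + 4 * u * g * w * h1)
  have g2 : ¬ 2 ∣ (g : ℤ) := Int.prime_two.coprime_iff_not_dvd.1 c1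
  have key : 2 ∣ e → (g * s % 4 = 2 ∨ g * s % 16 = 8 ∧ w % 8 = 4) ∧
      ∃ c y z, c ≠ 0 ∧ u = c * y ∧ w = c * z ∧ ¬ 2 ∣ y ∧ ¬ 2 ∣ z := fun k => by
    obtain ⟨f, hf⟩ := h6 k
    rw [hf] at hM
    generalize g * s = t at *
    rcases hu.2 k with k1 | ⟨k1, k2⟩
    · obtain ⟨t, rfl⟩ : ∃ z, t = 4 * z + 2 := ⟨t / 4, by omega⟩
      have k3 : ¬ 2 ∣ u * (g * w) := by
        have : 15 * (u * (g * w)) = 2 * (2 * t ^ 2 + 2 * t - 128 * f ^ 2 * D) + 1 := by linarith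
        omega
      exact ⟨.inl k1, 1, u, w, one_ne_zero, (one_mul _).symm, (one_mul _).symm,
        fun j => k3 (j.mul_right _), fun j => k3 ((j.mul_left _).mul_left _)⟩
    obtain ⟨t, rfl⟩ : ∃ z, t = 16 * z + 8 := ⟨t / 16, by omega⟩
    obtain ⟨u, rfl⟩ : 4 ∣ u := by omega
    have k3 : 15 * (u * g * w) = 4 * (2 * (2 * t ^ 2 + 2 * t - 8 * f ^ 2 * D) + 1) := by linarith
    obtain ⟨w, rfl⟩ : 4 ∣ w := ((cop_two (odd_mul_of (u := u) (by omega) g2)).pow_right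
      (n := 2)).symm.dvd_of_dvd_mul_left (show 4 ∣ _ by omega)
    have k4 : ¬ 2 ∣ w := by
      rintro ⟨w, rfl⟩
      have : u * g * (4 * (2 * w)) = 8 * (u * g * w) := by ring
      omega
    exact ⟨.inr ⟨k1, by omega⟩, 4, u, w, four_ne_zero, rfl, rfl, by omega, k4⟩
  exact ⟨w, rfl, ⟨(h9 ▸ h7.pow_left.add_mul_left_left _).of_mul_left_right,
    fun k => (key k).1⟩, fun k => (key k).2⟩

end Pool.Agent.Lib.MP_696deb_nt.B3
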