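import Pool.Agent.Lib.MP_696deb_nt.B2.AXa
import Pool.Agent.Lib.MP_696deb_nt.B3.AYb
import Pool.Agent.Lib.MP_696deb_nt.B3.AYd
import Pool.Agent.Lib.MP_696deb_nt.B3.AYe
import Pool.Agent.Lib.MP_696deb_nt.B3.AYf

set_option autoImplicit false

open scoped Classical
open NumberTheorySymbols

namespace Pool.Agent.Lib.MP_696deb_nt.B3

open B2

theorem Spt.exists_sm {δ m : ℤ} (h : Spt δ m) :
    ∃ f : V4, δ = (-1) ^ (f 0).val * 2 ^ (f 1).val ∧ δ * m = sm f := by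
  have h1 := Int.le_of_dvd two_pos h.d2
  have h2 := Int.le_of_dvd two_pos (neg_dvd.2 h.d2)
  have h3 := Int.le_of_dvd (by norm_num) h.d15
  have h4 := Int.le_of_dvd (by norm_num) (neg_dvd.2 h.d15)
  obtain ⟨k1, k2, k3⟩ := h
  have h5 : -2 ≤ δ := by omega
  have h6 : -15 ≤ m := by omega
  interval_cases δ <;> interval_cases m <;> first | omega | exact absurd k2 (by decide) | decide

theorem m_aux3 (hd : DescStmt) {δ m d : ℤ} (hs : Spt δ m) (h : Cls0 d) {M : ℕ} (hM : M ≠ 0) :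
    ∃ (d' : ℤ) (n : ℕ) (a b : ℤ), Ctx d d' n a b ∧ MuX δ a b ∧ Cork (δ * m * d') ∧
      d'.natAbs.Coprime M := by
  obtain ⟨f, rfl, e⟩ := hs.exists_sm
  obtain ⟨c, c1, c2, hc⟩ := exists_fam3 h M
  obtain ⟨T, hT, hS⟩ := exists_pat f c1 c2
  obtain ⟨E, P, _, _, p, q, F, hN⟩ := hc T f hT
  have hl : ∀ i, (famL p q i).Prime ∧ ¬ famL p q i ∣ 30 := by
    rintro (k | j)
    · exact F.pp _
    · exact F.qp _
  refine ⟨_, _, _, _, F.ctx hT, F.mux hT, e ▸ cork_of_card fun s hs => le_trans ?_ (hS _ _ _ p q F),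
    by
      rw [← Int.natAbsHom_apply, map_prod]
      refine Nat.Coprime.prod_left fun i _ => ?_
      rw [Int.natAbsHom_apply, natAbs_pstar]
      exact (hl i).1.coprime_iff_not_dvd.2 (Nat.not_dvd_of_pos_of_lt hM.bot_lt (hN i))⟩
  have hi : Function.Injective (famL p q) := by
    rintro (k | j) (k' | j') e
    · simpa using F.inj (a₁ := .inl (.inl k)) (a₂ := .inl (.inl k')) e
    · simpa using F.inj (a₁ := .inl (.inl k)) (a₂ := .inr j') e
    · simpa using F.inj (a₁ := .inr j) (a₂ := .inl (.inl k')) e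
    · simpa using F.inj (a₁ := .inr j) (a₂ := .inr j') e
  have D0 : sm f * ∏ i, pstar (famL p q i) ≠ 0 := mul_ne_zero (by unfold sm; positivity)
    (Finset.prod_ne_zero_iff.2 fun i _ =>
      Int.natAbs_ne_zero.1 (by rw [natAbs_pstar]; exact (hl i).1.ne_zero))
  refine Finset.card_le_card_of_surjOn (fun v g =>
    (xs v.2.2.1 g + ∑ i, v.1 i * xi (pstar (famL p q i)) g).val • T2 +
    (xs v.2.2.2 g + ∑ i, v.2.1 i * xi (pstar (famL p q i)) g).val • T1) fun ξ hξ => ?_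
  obtain ⟨α, β, h1, h2⟩ := ax_pair hd D0 (hs ξ hξ).1 (hs ξ hξ).2
  obtain ⟨x, y, u, v, h3, h4⟩ := ay_expand hl hi f h1
  refine ⟨(x, y, u, v), by simpa using h3, funext fun g => ?_⟩
  rw [h2, (h4 g).1, (h4 g).2]

end Pool.Agent.Lib.MP_696deb_nt.B3
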