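import Pool.Agent.Lib.MP_696deb_nt.B3.XKC

/-! The congruence modulo two between the target branch and the reference branch. -/

set_option autoImplicit false

open scoped NNReal Classical
open Finset Matrix NumberTheorySymbols PowerSeries

namespace Pool.Agent.Lib.MP_696deb_nt.B3

open B2

variable {n k c : ℕ} {S : HS n} {lam w : Plc} {a b e : ℤ} {g z φ : Gam}

theorem xcg_dih (h : Adm n c) (hg : g ∉ GK n) (hz : z ∈ GK n) :
    S.ψ c (g * z * g⁻¹) = (S.ψ c z)⁻¹ := by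
  have h1 := (normal_GK n).conj_mem z hz g
  have h2 := mul_mem_GK hg hg
  have := S.dih _ h (g * z) (mt (mul_mem_cancel_right hz).1 hg)
  rw [show g * z * (g * z) = g * z * g⁻¹ * (g * g * z) by group,
    S.mul _ h _ h1 _ (mul_mem h2 hz), S.mul _ h _ h2 _ hz, S.dih _ h g hg, one_mul] at this
  exact eq_inv_of_mul_eq_one_left this

/-- The classes of the Frobenius elements above three and five. -/
theorem xcg_frob (hn : Nok n) (h : Adm n c) (v : Fin 2) (hw : w.p = (bp v).p)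
    (hφ : IsFrob w (bp v).p φ) : ∃ b, S.ψ c (ori b (fr (bp v))) = S.ψ c φ ∧
      S.ψ c (ori (!b) (fr (bp v))) = (S.ψ c φ)⁻¹ := by
  obtain ⟨g, hg⟩ := plc_conj hw
  have h0 : φ ∈ GK n := hn.split (hw ▸ bp_or v) hφ.1
  have h1 := hφ.smul g
  rw [hg] at h1
  have h2 := hn.split (bp_or v)
  have h3 := h1.inv_mul_mem (fr_spec _)
  have h4 : S.ψ c (fr (bp v)) = S.ψ c (g * φ * g⁻¹) := by
    have := S.mul c h _ (h2 h1.1) _ (h2 (Ine_le _ h3))
    rwa [mul_inv_cancel_left, S.unr c (bp v) h (fun e => (h.2 _ (bp v).prime e).1 (by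
      rcases bp_or v with e | e <;> rw [e] <;> norm_num)) _ ⟨h2 (Ine_le _ h3), h3⟩, mul_one] at this
  have h5 : S.ψ c (cc * fr (bp v) * cc) = (S.ψ c (fr (bp v)))⁻¹ := by
    simpa only [cc_inv] using xcg_dih h (cc_notMem hn.pos) (h2 (fr_spec _).1)
  by_cases k : g ∈ GK n
  · rw [S.mul c h _ (mul_mem k h0) _ (inv_mem k), S.mul c h _ k _ h0, kd_inv h k,
      mul_inv_cancel_comm] at h4
    exact ⟨true, h4, h4 ▸ h5⟩
  · rw [xcg_dih h k h0] at h4
    exact ⟨false, by rw [← inv_inv (S.ψ c φ), ← h4]; exact h5, h4⟩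

/-- The reduction modulo two. -/
noncomputable abbrev rd (k : ℕ) : Lam →+* Lam ⧸ aa 1 k := Ideal.Quotient.mk (aa 1 k)

theorem rd_two : (2 : Lam ⧸ aa 1 k) = 0 := by
  rw [← map_ofNat (rd k) 2, Ideal.Quotient.eq_zero_iff_mem]
  simpa using two_mem_aa 1 k

theorem rd_sign (u : ℤˣ) : rd k ((u : ℤ) : Lam) = 1 := by
  rcases Int.units_eq_one_or u with rfl | rfl
  · simp
  · rw [Units.val_neg, Units.val_one, Int.cast_neg, Int.cast_one, map_neg, map_one]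
    linear_combination -rd_two (k := k)

/-- The common reduction of the characters of all branches. -/
noncomputable def Ps (S : HS n) (k : ℕ) (lam : Plc) (x : S.C lam.p) : Lam :=
  (1 + X) ^ (S.ν lam.p (2 * k + 3) x).toAdd.val

theorem Ps_unit (x : S.C lam.p) : IsUnit (Ps S k lam x) :=
  (isUnit_iff_constantCoeff.2 (by simp)).pow _

theorem rd_Psi (x : S.C lam.p) : rd k (S.Psi k lam e x) = rd k (Ps S k lam x) := by
  rw [HS.Psi, map_mul, rd_sign, one_mul, Ps]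

theorem rd_psi (T : Tate) : rd k (T.psi S k lam e g) = rd k (Ps S k lam (S.ψ lam.p g)) := by
  rw [Tate.psi, map_mul, rd_sign, one_mul, HS.psi, rd_Psi]

theorem rd_mul (hk : 1 ≤ k) (x y : S.C lam.p) :
    rd k (Ps S k lam (x * y)) = rd k (Ps S k lam x) * rd k (Ps S k lam y) := by
  rw [← rd_Psi (e := 1), ← rd_Psi (e := 1), ← rd_Psi (e := 1), ← map_mul, Ideal.Quotient.eq]
  exact PA.aa_anti hk le_rfl (S.Psi_mul 1 x y)

theorem rd_QQ (T : Tate) (hn : Nok n) (hl : Adm n lam.p) (v : Fin 2) (hw : w.p = (bp v).p)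
    (hφ : IsFrob w (bp v).p φ) :
    rd k (QQ T (T.psi S k lam e) v true * QQ T (T.psi S k lam e) v false) = if T.Rm v then 1 else
      (rd k (Ps S k lam (S.ψ lam.p φ)) + 1) * (rd k (Ps S k lam (S.ψ lam.p φ)⁻¹) + 1) := by
  unfold QQ
  split_ifs
  · simp
  have h1 : ∀ b, rd k (B2.QQ (T.psi S k lam e) v b) =
      rd k (Ps S k lam (S.ψ lam.p (ori b (fr (bp v))))) + 1 := fun b => by
    rw [B2.QQ, map_sub, map_mul, rd_psi]
    generalize rd k (Ps S k lam (S.ψ lam.p (ori b (fr (bp v))))) = t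
    fin_cases v
    · simp only [Fin.zero_eta, cons_val_zero, map_neg, map_one, map_ofNat]
      linear_combination (-t - 2) * rd_two (k := k)
    · simp only [Fin.mk_one, cons_val_one, cons_val_zero, map_one, map_ofNat]
      linear_combination (-3) * rd_two (k := k)
  obtain ⟨b, b1, b2⟩ := xcg_frob (S := S) hn hl v hw hφ
  rw [map_mul, h1, h1]
  cases b
  · rw [b1, show true = !false from rfl, b2, mul_comm]
  · rw [b1, show false = !true from rfl, b2]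

/-- The structure map of the reduction. -/
noncomputable def rdI (hk : 1 ≤ k) : Ak k →+* Lam ⧸ aa 1 k :=
  Ideal.Quotient.factor (PA.aa_anti hk le_rfl)

theorem rdI_mk (hk : 1 ≤ k) (x : Lam) : rdI hk (Ideal.Quotient.mk _ x) = rd k x := rfl

/-- The reduction `t` of the Kummer class of the points `y` at the element `g`. -/
def Rp (T : B2.Tate) (hk : 1 ≤ k) (g : Gam) (y : S.C lam.p → EE) (t : Lam ⧸ aa 1 k) : Prop :=
  ∃ (R : S.C lam.p → EE) (v : S.C lam.p → Fin 2 → ZMod (2 ^ k)), (∀ x, 2 ^ k • R x = y x) ∧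
    (∀ x, T.emb k (v x) = g • R x - R x) ∧
    t = ∑ x, rdI hk (kdI k (v x 1 - v x 0)) * rd k (Ps S k lam x)

variable {T : B2.Tate} {hk : 1 ≤ k} {y u : S.C lam.p → EE} {t : Lam ⧸ aa 1 k}

theorem xcg_root (T : B2.Tate) (k : ℕ) (h : ∀ x, g • y x = y x) :
    ∃ (R : S.C lam.p → EE) (v : S.C lam.p → Fin 2 → ZMod (2 ^ k)), (∀ x, 2 ^ k • R x = y x) ∧
      ∀ x, T.emb k (v x) = g • R x - R x := by
  choose R hR using fun x => lo3_half k (y x)
  choose v hv using fun x => T.surj k (g • R x - R x) (by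
    rw [smul_sub, smul_comm, hR, h, sub_self])
  exact ⟨R, v, hR, hv⟩

theorem Rp.ex (T : B2.Tate) (hk : 1 ≤ k) (h : ∀ x, g • y x = y x) : ∃ t, Rp T hk g y t := by
  obtain ⟨R, v, h1, h2⟩ := xcg_root T k h
  exact ⟨_, R, v, h1, h2, rfl⟩

theorem Rp.two (h : Rp T hk g y t) (hu : ∀ x, g • u x = u x) :
    Rp T hk g (fun x => y x + 2 • u x) t := by
  obtain ⟨R, v, h1, h2, rfl⟩ := h
  obtain ⟨U, s, h3, h4⟩ := xcg_root T k hu
  refine ⟨fun x => R x + 2 • U x, fun x => v x + 2 • s x, fun x => ?_, fun x => ?_,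
    sum_congr rfl fun x _ => ?_⟩
  · rw [smul_add, smul_comm, h1, h3]
  · simp only [map_add, map_nsmul, h2, h4, smul_add, smul_comm g, smul_sub]
    abel
  · simp only [Pi.add_apply, two_nsmul, map_sub, map_add]
    linear_combination (rdI hk (kdI k (s x 0)) - rdI hk (kdI k (s x 1))) * rd k (Ps S k lam x) *
      rd_two (k := k)

theorem Rp.shf (h : Rp T hk g y t) (f : ℤ) (p : ℕ) (φ : Gam) :
    ∃ t', Rp T hk g (shf S f lam.p p φ y) t' ∧
      t' * (if (p : ℤ) ∣ f then rd k (Ps S k lam (S.ψ lam.p φ)) else 1) =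
        (if (p : ℤ) ∣ f then rd k (Ps S k lam (S.ψ lam.p φ)) + 1 else 1) * t := by
  by_cases hp : (p : ℤ) ∣ f
  swap
  · exact ⟨t, by rwa [show B3.shf S f lam.p p φ y = y from funext fun _ => if_neg hp], by
      rw [if_neg hp, if_neg hp, mul_comm]⟩
  obtain ⟨R, v, h1, h2, rfl⟩ := h
  generalize hs : S.ψ lam.p φ = s
  refine ⟨_, ⟨fun x => R x + R (s * x), fun x => v x + v (s * x), fun x => ?_, fun x => ?_, rfl⟩, ?_⟩
  · rw [smul_add, h1, h1, B3.shf, if_pos hp, hs]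
  · simp only [map_add, h2, smul_add]
    abel
  · have h3 := Equiv.sum_comp (Equiv.mulLeft s) fun x =>
      rdI hk (kdI k (v x 1 - v x 0)) * rd k (Ps S k lam x)
    rw [if_pos hp, if_pos hp, add_mul, one_mul]
    nth_rw 2 [← h3]
    rw [sum_mul, mul_sum, ← sum_add_distrib]
    refine sum_congr rfl fun x _ => ?_
    simp only [Equiv.coe_mulLeft, rd_mul hk, Pi.add_apply, map_sub, map_add]
    ring

theorem Rp.val {T' : Tate} (hT : T'.toTate = T) {κ : Gam → Fin 2 → Ak k}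
    (hκ : KZ T' S k lam y e κ) (hg : g ∈ S.N T k lam) (h : Rp T hk g y t) {x : Lam}
    (hx : Ideal.Quotient.mk _ x = κ g 1 - κ g 0) : rd k x = t := by
  subst hT
  obtain ⟨R, v, h1, h2, rfl⟩ := h
  rw [← rdI_mk hk, hx, hκ g hg R v h1 h2, hκ g hg R v h1 h2, ← sum_sub_distrib, map_sum]
  refine sum_congr rfl fun y _ => ?_
  rw [← kdI_mul, ← kdI_mul, ← sub_mul, map_mul, rdI_mk, rd_Psi, map_sub (kdI k)]

/-- The analytic sides of the target and of the reference agree modulo two up to a unit. -/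
theorem kc_cong {T T' : Tate} (hT : T'.toTate = T.toTate) (h2 : T'.f ∣ 2) {Y : ES S T.f}
    {Z : ES S T'.f} (hc : Y.Cong Z) (hn : Nok n) (hk : 1 ≤ k) (hl : Adm n lam.p) {e e' : ℤ}
    {κ κ' : Gam → Fin 2 → Ak k} (hκ : KZ T S k lam (Y.y lam.p) e κ)
    (hκ' : KZ T' S k lam (Z.y lam.p) e' κ') : ∃ u : Lam, IsUnit u ∧ ∀ g ∈ S.N T k lam, ∀ x x' : Lam,
      Ideal.Quotient.mk _ x = κ g 1 - κ g 0 → Ideal.Quotient.mk _ x' = κ' g 1 - κ' g 0 →
      u * x ^ 2 * QP T (T.psi S k lam e) - x' ^ 2 * QP T' (T'.psi S k lam e') ∈ aa 1 k := by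
  obtain ⟨φ₃, φ₅, ⟨w₃, a1, a2⟩, ⟨w₅, b1, b2⟩, hc⟩ := hc
  choose u u1 u2 using hc lam.p hl
  have p3 : (bp 0).p = 3 := pl_p 3 Nat.prime_three
  have p5 : (bp 1).p = 5 := pl_p 5 Nat.prime_five
  have nr : ∀ v, ¬ T'.Rm v := fun v h => by
    have := Int.le_of_dvd two_pos (dvd_trans h h2)
    fin_cases v <;> simp at this
  refine ⟨(if ((3 : ℕ) : ℤ) ∣ T.f then Ps S k lam (S.ψ lam.p φ₃) else 1) *
    if ((5 : ℕ) : ℤ) ∣ T.f then Ps S k lam (S.ψ lam.p φ₅) else 1, IsUnit.mul ?_ ?_,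
    fun g hg x x' hx hx' => ?_⟩
  · split_ifs
    exacts [Ps_unit _, isUnit_one]
  · split_ifs
    exacts [Ps_unit _, isUnit_one]
  obtain ⟨t, h0⟩ := Rp.ex (y := Z.y lam.p) T hk (g := g) fun x => by
    rw [← kd_tw_of (T.chi_N hk hg T'.ok.dvd), Z.gal _ hl g hg.1, hg.2.2 hl, one_mul]
  obtain ⟨t5, h5, e5⟩ := h0.shf T.f 5 φ₅
  obtain ⟨t3, h3, e3⟩ := h5.shf T.f 3 φ₃
  have h4 := h3.two (u := u) fun x => u1 x g hg.1 (hg.2.2 hl) fun y hy => T.chi_N hk hg hy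
  rw [← funext u2] at h4
  have i3 : rd k (Ps S k lam (S.ψ lam.p φ₃)) * rd k (Ps S k lam (S.ψ lam.p φ₃)⁻¹) = 1 := by
    rw [← rd_mul hk, mul_inv_cancel]
    simp [Ps]
  have i5 : rd k (Ps S k lam (S.ψ lam.p φ₅)) * rd k (Ps S k lam (S.ψ lam.p φ₅)⁻¹) = 1 := by
    rw [← rd_mul hk, mul_inv_cancel]
    simp [Ps]
  rw [← Ideal.Quotient.eq, QP, QP, map_mul _ _ (_ * _), map_mul _ (_ ^ 2), map_mul _ (_ * _) (_ * _),
    map_mul _ (_ * _) (_ * _), rd_QQ T hn hl 0 (a1.trans p3.symm) (p3 ▸ a2),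
    rd_QQ T hn hl 1 (b1.trans p5.symm) (p5 ▸ b2), rd_QQ T' hn hl 0 (a1.trans p3.symm) (p3 ▸ a2),
    rd_QQ T' hn hl 1 (b1.trans p5.symm) (p5 ▸ b2), if_neg (nr 0), if_neg (nr 1), map_mul, map_mul,
    map_pow, map_pow, Rp.val rfl hκ hg h4 hx, Rp.val hT hκ' hg h0 hx', apply_ite (rd k),
    apply_ite (rd k), map_one]
  have r3 : T.Rm 0 ↔ ((3 : ℕ) : ℤ) ∣ T.f := Iff.rfl
  have r5 : T.Rm 1 ↔ ((5 : ℕ) : ℤ) ∣ T.f := Iff.rfl
  simp only [r3, r5]
  generalize rd k (Ps S k lam (S.ψ lam.p φ₃)) = s3, rd k (Ps S k lam (S.ψ lam.p φ₃)⁻¹) = s3',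
    rd k (Ps S k lam (S.ψ lam.p φ₅)) = s5, rd k (Ps S k lam (S.ψ lam.p φ₅)⁻¹) = s5' at *
  have q3 : (if ((3 : ℕ) : ℤ) ∣ T.f then s3 else 1) * t3 ^ 2 *
      (if ((3 : ℕ) : ℤ) ∣ T.f then 1 else (s3 + 1) * (s3' + 1)) = t5 ^ 2 * ((s3 + 1) * (s3' + 1)) := by
    split_ifs at e3 ⊢
    · linear_combination (s3' * (t3 * s3 + (s3 + 1) * t5)) * e3 +
        (-(s3 * t3 ^ 2) + (s3 + 1) * t5 ^ 2) * i3
    · rw [mul_one, one_mul] at e3
      rw [e3, one_mul]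
  have q5 : (if ((5 : ℕ) : ℤ) ∣ T.f then s5 else 1) * t5 ^ 2 *
      (if ((5 : ℕ) : ℤ) ∣ T.f then 1 else (s5 + 1) * (s5' + 1)) = t ^ 2 * ((s5 + 1) * (s5' + 1)) := by
    split_ifs at e5 ⊢
    · linear_combination (s5' * (t5 * s5 + (s5 + 1) * t)) * e5 +
        (-(s5 * t5 ^ 2) + (s5 + 1) * t ^ 2) * i5
    · rw [mul_one, one_mul] at e5
      rw [e5, one_mul]
  generalize (if ((3 : ℕ) : ℤ) ∣ T.f then s3 else 1) = A3,
    (if ((3 : ℕ) : ℤ) ∣ T.f then 1 else (s3 + 1) * (s3' + 1)) = B3,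
    (if ((5 : ℕ) : ℤ) ∣ T.f then s5 else 1) = A5,
    (if ((5 : ℕ) : ℤ) ∣ T.f then 1 else (s5 + 1) * (s5' + 1)) = B5 at q3 q5 ⊢
  linear_combination (A5 * B5) * q3 + ((s3 + 1) * (s3' + 1)) * q5

end Pool.Agent.Lib.MP_696deb_nt.B3
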