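import Pool.Agent.Lib.MP_696deb_nt.B3.MUc

/-! Uniform bounds for the Selmer groups of the two isogeny characters of a twist that is ramified
at two. -/

set_option autoImplicit false

open scoped Classical
open Finset

namespace Pool.Agent.Lib.MP_696deb_nt.B3

open B2

variable {A A' : Type} [CommRing A] [CommRing A'] {t s : A} {t' : A'} {j i n : ℕ} {a b δ : ℤ}
  {ξ : Gam → ZMod 2} {e : Gam → ℕ} {lam w v : Plc} {Y : Finset Plc} {z : Gam} {N : Subgroup Gam}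

theorem coc_conj_zero {M : Type} [AddCommGroup M] {H : Subgroup Gam} {α : Gam → M →+ M}
    {c : Gam → M} (ha : Act H α) (h : Coc H α c) {g τ : Gam} (hg : g ∈ H) (hτ : τ ∈ H)
    (k : ∀ x, α τ x = x) (h0 : c τ = 0) : c (g * τ * g⁻¹) = 0 := by
  have e := h.2 g hg _ (inv_mem hg)
  rw [mul_inv_cancel, h.one ha] at e
  rw [mul_assoc, h.2 g hg _ (mul_mem hτ (inv_mem hg)), h.2 τ hτ _ (inv_mem hg), h0, zero_add, k,
    ← e]

/-- Cocycles that are ramified only at two, along the character of `δ`. -/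
def Sur (n : ℕ) (δ : ℤ) (t : A) (e : Gam → ℕ) (lam : Plc) : AddSubgroup (Gam → A) where
  carrier := {c | c ∈ Z1 (GK n) (aT t e) ∧ (∀ σ, Zs n δ lam σ → c σ = 0) ∧ ∀ σ ∈ Ine lam, c σ = 0}
  zero_mem' := ⟨zero_mem _, fun _ _ => rfl, fun _ _ => rfl⟩
  add_mem' h k := ⟨add_mem h.1 k.1, fun σ hσ => by
    rw [Pi.add_apply, h.2.1 σ hσ, k.2.1 σ hσ, add_zero], fun σ hσ => by
    rw [Pi.add_apply, h.2.2 σ hσ, k.2.2 σ hσ, add_zero]⟩
  neg_mem' h := ⟨neg_mem h.1, fun σ hσ => by rw [Pi.neg_apply, h.2.1 σ hσ, neg_zero],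
    fun σ hσ => by rw [Pi.neg_apply, h.2.2 σ hσ, neg_zero]⟩

/-- The number of quadratic characters that are unramified away from `v`. -/
noncomputable def muC (n : ℕ) (v : Plc) : ℕ := Nat.card (Zu (GK n) B2.tr {v})

theorem muC_pos (hn : 0 < n) : 0 < muC n v :=
  have := finH_GK hn {v}
  Nat.card_pos

/-- The places where conditions are imposed. -/
structure MuQ (n : ℕ) (δ : ℤ) (ξ : Gam → ZMod 2) (lam : Plc) (z : Gam) (v : Plc) (Y : Finset Plc) :
    Prop extends MuP n ξ lam z v Y where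
  ex : ∃ φ ∈ GK n ⊓ Dec v, om δ φ = 1

theorem MuQ.conj (P : MuQ n δ ξ lam z v Y) (hw : w.p = 2) : ∃ g ∈ GK n, g • v = w := by
  obtain ⟨φ, hφ⟩ := exists_frob v
  exact conj_of_inert (hw.trans P.two.symm) hφ.1 (lo3_inert P.m8 P.two (P.two ▸ hφ))

theorem MuQ.away (P : MuQ n δ ξ lam z v Y) {S : Finset Plc} (h : v ∈ S) (k : Away (GK n) S w) :
    w.p ≠ 2 := fun l => by
  obtain ⟨g, h1, h2⟩ := P.conj l
  exact k v h g h1 h2

theorem card_Sur (h : Trunc t j) (D : MuW n a b δ ξ) (E : MuA t n ξ e lam)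
    (P : MuQ n δ ξ lam z v Y) :
    Finite (Sur n δ t e lam) ∧ Nat.card (Sur n δ t e lam) ≤ muC n v ^ 4 := by
  have := E.finite h P.pos {lam, v}
  have le : Sur n δ t e lam ≤ Zu (GK n) (aT t e) {lam, v} :=
    fun c hc => ⟨hc.1, fun w hw σ hσ => hc.2.1 σ ⟨hσ.1, w, .inl
      ⟨E.away (mem_insert_self _ _) hw, P.away (by simp) hw, hσ.2⟩⟩⟩
  have fin : Finite (Sur n δ t e lam) := Finite.Set.subset (Zu (GK n) (aT t e) {lam, v} : Set _) le
  refine ⟨fin, card_le_pow (f := mT t) (fun c hc => ⟨⟨mT_coc hc.1.1 t, fun g hg => by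
    rw [mT_apply, hc.1.2 g hg, mul_zero]⟩, fun σ hσ => by
    rw [mT_apply, hc.2.1 σ hσ, mul_zero], fun σ hσ => by
    rw [mT_apply, hc.2.2 σ hσ, mul_zero]⟩) (fun c hc => funext fun g => ?_) ?_⟩
  · rw [mT_iter, mT_apply, Pi.zero_apply]
    by_cases hg : g ∈ GK n
    · exact mu_core h D E (P.odd _ P.mem).1 hc.1.1 hc.2.1 hc.2.2 g hg
    · rw [hc.1.2 g hg, mul_zero]
  rcases Nat.eq_zero_or_pos j with rfl | hj
  · have := h.sub0
    exact Nat.card_unique.le.trans (muC_pos P.pos)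
  obtain ⟨ι, r, h1, h2, h3⟩ := h.exists_emb trunc_one hj
  have := finH_GK P.pos {v}
  have k : ∀ c ∈ Sur n δ t e lam ⊓ (mT t).ker, ∀ g, ι (r (c g)) = c g := fun c hc g =>
    h3 _ (by rw [pow_one]; exact congrFun hc.2 g)
  have m : ∀ c ∈ Sur n δ t e lam ⊓ (mT t).ker, (fun g => r (c g)) ∈ Zu (GK n) B2.tr {v} :=
      fun c hc => by
    have l : Coc (GK n) B2.tr fun g => r (c g) := hc.1.1.1.of_map ι
      (Function.LeftInverse.injective h1)
      (fun g _ x => by rw [aT_apply, ← mu4_pow h2]; simp) fun g _ => k c hc g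
    refine ⟨⟨l, fun g hg => by simp only [hc.1.1.2 g hg, map_zero]⟩, fun w h2 σ hσ => ?_⟩
    by_cases hw : w.p = lam.p
    · obtain ⟨φ, p1, p2⟩ := E.inert
      obtain ⟨g, p3, rfl⟩ := conj_of_inert hw p1 p2
      exact l.unr_smul (act_tr _) (fun _ _ _ => rfl)
        (fun σ hσ => by rw [hc.1.2.2 σ hσ.2, map_zero]) p3 σ hσ
    · simp only [hc.1.2.1 σ ⟨hσ.1, w, .inl ⟨hw, P.away (mem_singleton_self v) h2, hσ.2⟩⟩, map_zero]
  exact Nat.card_le_card_of_injective (fun c : (Sur n δ t e lam ⊓ (mT t).ker : AddSubgroup _) =>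
    (⟨_, m c c.2⟩ : Zu (GK n) B2.tr {v})) fun c c' l => Subtype.ext (funext fun g => by
      rw [← k c c.2 g, ← k c' c'.2 g]
      exact congrArg ι (congrFun (congrArg Subtype.val l) g))

theorem MuQ.le_Sur (P : MuQ n δ ξ lam z v Y) (h : Trunc t j) (E : MuA t n ξ e lam) :
    ZZ (GK n) (aT t e) (insert v Y) Y v (Lw (GK n) v δ (aT t e)) {z} ≤ Sur n δ t e lam := by
  intro c hc
  obtain ⟨⟨h1, h2⟩, h3, h4, h5⟩ := mem_ZZ.1 hc
  refine ⟨h1, ?_, fun σ hσ => ?_⟩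
  · rintro σ ⟨s1, w, ⟨hw, w2, s2⟩ | ⟨hw, s2, s3⟩⟩
    · by_cases k : Away (GK n) (insert v Y) w
      · exact h2 w k σ ⟨s1, s2⟩
      simp only [Away, not_forall, not_not] at k
      obtain ⟨u, hu, g, hg, rfl⟩ := k
      have l : ∀ σ ∈ GK n ⊓ Ine u, ∀ x, aT t e σ x = x := fun σ hσ x => by
        rw [aT_apply, E.ine u hw σ hσ, one_mul]
      refine h1.1.unr_smul (E.act h) l ?_ hg σ ⟨s1, s2⟩
      rcases mem_insert.1 hu with rfl | hu
      · exact absurd P.two w2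
      · obtain ⟨x, hx⟩ := h3 u hu
        exact fun σ hσ => by rw [hx σ (mu5_ine _ _ hσ), cob, l σ hσ, sub_self]
    · obtain ⟨g, hg, rfl⟩ := P.conj hw
      have m : g⁻¹ * σ * g ∈ GK n ⊓ Dec v := Subgroup.mem_inf.2
        ⟨mul_mem (mul_mem (inv_mem hg) s1) hg, mem_Dec_smul.1 s2⟩
      have := coc_conj_zero (E.act h) h1.1 hg m.1 (P.triv h E _ m) ((rs_mem_Lw h1.1).1 h4 _ m (by
        change xi δ _ = 0
        rw [xi_hom, xi_hom, xi_inv, s3]
        linear_combination mu1_two (xi δ g)))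
      rwa [show g * (g⁻¹ * σ * g) * g⁻¹ = σ by group] at this
  · obtain ⟨k, l, -⟩ := P.gen.lo_pow h.smul_zero (P.odd _ P.mem).1 ((E.act h).mono (P.ine E))
      (h1.1.mono (P.ine E)) hσ
    rw [l, h1.1.lo_pow_fix (E.act h) (P.ine E P.gen.1) (by rw [h5 z rfl, map_zero]), h5 z rfl,
      smul_zero]

/-- The classes of norms that vanish on `Φ`. -/
noncomputable abbrev SB (F : CFT) (n : ℕ) (δ : ℤ) (t : A) (e : Gam → ℕ) (v : Plc)
    (Y : Finset Plc) (Φ : Set Gam) : AddSubgroup (Gam → A) :=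
  ZZ (GK n) (aT t e) (insert v Y) ∅ v (Ln F (op_GK n) v δ (aT t e)) Φ

variable (F : CFT) (su : SUStmt) (ch : ChebStmt)

theorem SB_map {Φ : Set Gam} {c : Gam → A} (hc : c ∈ SB F n δ t e v Y Φ) (φ : A →+ A')
    (k : Coc (GK n) (aT t' e) fun g => φ (c g)) : (fun g => φ (c g)) ∈ SB F n δ t' e v Y Φ := by
  obtain ⟨⟨h1, h2⟩, -, h4, h5⟩ := mem_ZZ.1 hc
  exact mem_ZZ.2 ⟨⟨⟨k, fun g hg => by simp only [h1.2 g hg, map_zero]⟩, fun w hw σ hσ => by
    simp only [h2 w hw σ hσ, map_zero]⟩, by simp, (rs_mem_Ln k).2 (((rs_mem_Ln h1.1).1 h4).map φ),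
    fun g hg => by simp only [h5 g hg, map_zero]⟩

theorem SB_mT {Φ : Set Gam} {c : Gam → A} (hc : c ∈ SB F n δ t e v Y Φ) (x : A) :
    mT x c ∈ SB F n δ t e v Y Φ :=
  SB_map F hc (AddMonoidHom.mulLeft x) (mT_coc (mem_ZZ.1 hc).1.1.1 x)

theorem card_SB_le (h : Trunc t j) (h' : Trunc t' i) (l : i ≤ j) (E : MuA t n ξ e lam)
    (hn : 0 < n) (Φ : Set Gam) {S : AddSubgroup (Gam → A)} (h1 : S ≤ SB F n δ t e v Y Φ)
    (h2 : ∀ c ∈ S, ∀ g, t ^ i * c g = 0) : Nat.card S ≤ Nat.card (SB F n δ t' e v Y Φ) := by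
  obtain ⟨ι, r, p1, p2, p3⟩ := h.exists_emb h' l
  have : Finite (SB F n δ t' e v Y Φ) := finite_ZZ ((E.of_le h h' l).finite h' hn _)
  have k : ∀ c ∈ S, ∀ g, ι (r (c g)) = c g := fun c hc g => p3 _ (h2 c hc g)
  exact Nat.card_le_card_of_injective (fun c : S => (⟨_, SB_map F (h1 c.2) r
    ((mem_ZZ.1 (h1 c.2)).1.1.1.of_map ι (Function.LeftInverse.injective p1)
      (fun g _ x => mu4_pow p2 _ x) fun g _ => k c c.2 g)⟩ : SB F n δ t' e v Y Φ))
    fun c c' l => Subtype.ext (funext fun g => by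
      rw [← k c c.2 g, ← k c' c'.2 g]
      exact congrArg ι (congrFun (congrArg Subtype.val l) g))

include su ch

/-- The classes of norms have rank at most one. -/
theorem card_SB (h : Trunc t j) (D : MuW n a b δ ξ) (E : MuA t n ξ e lam) (P : MuQ n δ ξ lam z v Y) :
    Nat.card (SB F n δ t e v Y {z}) ≤ 2 ^ (Y.card + 1) * muC n v ^ 4 * 2 ^ j := by
  obtain ⟨s, h', k⟩ := h.exists_inv
  have E' := E.of_le h h' le_rfl
  obtain ⟨β, hb⟩ := E'.dual h' h ((mul_comm _ _).trans k)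
  have := h.finite
  have h1 := mu_gw F su ch P.pos hb (R := Y) (X := ∅) P.apart (by simp)
    (disjoint_empty_right _) P.two (fun w hw => (P.odd w (by simpa using hw)).1)
    (P.good E' Subset.rfl) (P.triv h' E') (P.triv h E) P.ex
  have : Finite (SB F n δ t e v Y ∅) := finite_ZZ (E.finite h P.pos _)
  have h2 := E.card_norm h (B1_le_ZZ (E.act h) (P.good E Subset.rfl) (P.triv h E)
    (Ln F (op_GK n) v δ (aT t e))) (P.ine E P.gen.1) P.par
  obtain ⟨_, h3⟩ := card_Sur h' D E' P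
  have h4 := card_ZZ_le (H := GK n) (a := aT s e) (s := insert v Y) (R := Y) (v := v)
    (L := Lw (GK n) v δ (aT s e)) ∅ z
  rw [ZZ_insert, insert_empty_eq] at h2
  rw [insert_empty_eq] at h4
  rw [prod_empty, mul_one] at h1
  rw [← h1, ← mul_assoc] at h2
  refine (Nat.le_of_mul_le_mul_right h2 Nat.card_pos).trans ?_
  rw [pow_succ', ← h.card, mul_assoc 2, mul_assoc 2, mul_assoc, mul_comm (2 ^ _)]
  exact Nat.mul_le_mul_left _ (Nat.mul_le_mul (h4.trans (Nat.mul_le_mul_right _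
    ((AddSubgroup.card_le_of_le (P.le_Sur h' E')).trans h3))) (P.prod h' E'))

/-- The dual bound. -/
theorem card_SA (h : Trunc t j) (E : MuA t n ξ e lam) (P : MuQ n δ ξ lam z v Y)
    (hs : Apart (GK n) (insert v (insert w Y))) (w1 : w.p ≠ 2) (w2 : w.p ≠ lam.p) (w3 : w ∉ Y)
    (hI : Ine w ≤ GK n) {φ : Gam} (hφ : IsFrob w w.p φ) (h0 : φ ∉ GK n) :
    Nat.card (ZZ (GK n) (aT t e) (insert v (insert w Y)) ∅ v (Lw (GK n) v δ (aT t e)) {z}) ≤
      2 ^ (Y.card + 1) * Nat.card (SB F n δ t e v Y {φ * φ, z}) := by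
  obtain ⟨s, h', k⟩ := h.exists_inv
  have E' := E.of_le h h' le_rfl
  obtain ⟨β, hb⟩ := E.dual h h' k
  have := h.finite
  have sub : insert v Y ⊆ insert v (insert w Y) := insert_subset_insert _ (subset_insert _ _)
  have h1 := mu_gw F su ch P.pos hb (R := ∅) (X := insert w Y) hs
    (by rw [empty_union, union_singleton]) (disjoint_empty_left _) P.two (fun u hu => by
      rcases mem_insert.1 (by simpa using hu : u ∈ insert w Y) with rfl | hu
      exacts [w1, (P.odd u hu).1]) (P.good E sub) (P.triv h E) (P.triv h' E') P.ex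
  have : Finite (ZZ (GK n) (aT t e) (insert v (insert w Y)) ∅ v (Lw (GK n) v δ (aT t e)) ∅) :=
    finite_ZZ (E.finite h P.pos _)
  have h2 := E.card_norm h (B1_le_ZZ (E.act h) (P.good E sub) (P.triv h E)
    (Lw (GK n) v δ (aT t e))) (P.ine E P.gen.1) P.par
  have h4 := card_ZZ_le (H := GK n) (a := aT s e) (s := insert v (insert w Y)) (R := insert w Y)
    (v := v) (L := Ln F (op_GK n) v δ (aT s e)) ∅ z
  have tv := E'.triv h' P.pos w2 hI hφ h0
  have h5 : Nat.card (ZZ (GK n) (aT s e) (insert v (insert w Y)) (insert w Y) v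
      (Ln F (op_GK n) v δ (aT s e)) {z}) ≤ Nat.card (SB F n δ t e v Y {φ * φ, z}) := by
    refine card_SB_le F h' h le_rfl E' P.pos _ (fun c hc => ?_) fun c _ g => by
      rw [h'.nil, zero_mul]
    obtain ⟨⟨p1, p2⟩, p3, p4, p5⟩ := mem_ZZ.1 hc
    obtain ⟨x, hx⟩ := p3 w (mem_insert_self _ _)
    have p6 : ∀ g ∈ GK n ⊓ Dec w, c g = 0 := fun g hg => by rw [hx g hg, cob, tv g hg, sub_self]
    refine mem_ZZ.2 ⟨⟨p1, fun u hu => ?_⟩, by simp, p4, ?_⟩
    · by_cases l : ∃ g ∈ GK n, g • w = u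
      · obtain ⟨g, hg, rfl⟩ := l
        exact p1.1.unr_smul (E'.act h') (fun σ hσ => tv σ (mu5_ine _ _ hσ))
          (fun σ hσ => p6 σ (mu5_ine _ _ hσ)) hg
      refine p2 u fun y hy g hg l' => ?_
      rw [insert_comm] at hy
      rcases mem_insert.1 hy with rfl | hy
      exacts [l ⟨g, hg, l'⟩, hu y hy g hg l']
    · rintro g (rfl | rfl)
      exacts [p6 _ ⟨mul_mem_GK h0 h0, mul_mem hφ.1 hφ.1⟩, p5 _ rfl]
  rw [ZZ_insert, insert_empty_eq] at h2
  rw [insert_empty_eq] at h4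
  rw [prod_empty, mul_one, prod_insert w3] at h1
  have h6 := h1.le.trans (Nat.mul_le_mul (h4.trans (Nat.mul_le_mul_right _ h5)) (Nat.mul_le_mul
    (Nat.card_le_card_of_injective _ (AddSubgroup.subtype_injective _)) (P.prod h' E')))
  rw [← mul_assoc, mul_right_comm] at h6
  refine Nat.le_of_mul_le_mul_right (h2.trans ?_) (Nat.card_pos (α := A))
  refine (Nat.mul_le_mul_left 2 (Nat.le_of_mul_le_mul_right h6 Nat.card_pos)).trans (le_of_eq ?_)
  ring

/-- One more condition makes the classes of norms uniformly bounded. -/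
theorem mu_choice (h : Trunc t j) (D : MuW n a b δ ξ)
    (E : MuA t n ξ e lam) (P : MuQ n δ ξ lam z v Y) (Q : MuN t n e z N) :
    (∀ φ, Nat.card (SB F n δ t e v Y {φ, z}) ≤ 2 ^ (Y.card + 1) * muC n v ^ 4 * 2 ^ 3) ∨
    ∃ c : Gam → ZMod (2 ^ 1), Sm (GK n) c ∧ IsHom N c ∧ (∃ σ ∈ N, c σ + c (cc * σ * cc) ≠ 0) ∧
      ∀ φ, c φ ≠ 0 → Nat.card (SB F n δ t e v Y {φ, z}) ≤ 2 ^ (Y.card + 1) * muC n v ^ 4 * 2 ^ 3 := by
  have fin : Finite (SB F n δ t e v Y {z}) := finite_ZZ (E.finite h P.pos _)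
  have := h.finite
  have ex : ∃ r, ∀ c ∈ SB F n δ t e v Y {z}, ∀ g, t ^ r * c g = 0 :=
    ⟨j, fun _ _ _ => by rw [h.nil, zero_mul]⟩
  have le : Nat.find ex ≤ j := Nat.find_min' ex fun _ _ _ => by rw [h.nil, zero_mul]
  obtain ⟨A', _, t', h'⟩ := exists_trunc (Nat.find ex)
  have h1 := (card_SB_le F h h' le E P.pos {z} le_rfl (Nat.find_spec ex)).trans
    (card_SB F su ch h' D (E.of_le h h' le) P)
  rcases le_or_gt (Nat.find ex) 3 with l | l
  · refine .inl fun φ => le_trans ?_ (h1.trans (by gcongr; norm_num))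
    exact AddSubgroup.card_le_of_le ((ZZ_insert {z} φ).ge.trans inf_le_left)
  obtain ⟨r, hr⟩ : ∃ r, Nat.find ex = r + 4 := ⟨Nat.find ex - 4, by omega⟩
  have h2 := Nat.find_min ex (m := r + 3) (by omega)
  simp only [not_forall] at h2
  obtain ⟨c, hc, g, hg⟩ := h2
  have m := SB_mT F hc (t ^ r)
  obtain ⟨⟨p1, -⟩, -, -, p2⟩ := mem_ZZ.1 m
  obtain ⟨σ, s1, s2⟩ : ∃ σ ∈ N, mT (t ^ r) c σ + mT (t ^ r) c (cc * σ * cc) ≠ 0 := by
    by_contra k
    push Not at k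
    by_cases l : g ∈ GK n
    · have := Q.sah h E (P.ine E P.gen.1) P.par p1.1 (p2 z rfl) k g l
      rw [mT_apply, ← mul_assoc, ← pow_add, add_comm] at this
      exact hg this
    · exact hg (by rw [(mem_ZZ.1 hc).1.1.2 g l, mul_zero])
  obtain ⟨f, hf⟩ := not_forall.1 (mt h.sep s2)
  refine .inr ⟨fun g => f (mT (t ^ r) c g), p1.1.1.comp f, fun x hx y hy => by
    simp only [p1.1.2 x (Q.le hx) y (Q.le hy), aT_apply, Q.triv x hx, one_mul, map_add],
    ⟨σ, s1, by rwa [← map_add]⟩, fun φ hφ => ?_⟩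
  have h3 : 2 ^ (r + 1) ≤ Nat.card ((SB F n δ t e v Y {z}).map
      (Pi.evalAddMonoidHom (fun _ => A) φ)) := by
    have it : ∀ (k : ℕ) (x : A), (AddMonoidHom.mulLeft t)^[k] x = t ^ k * x := fun k x => by
      induction k with
      | zero => simp
      | succ k ih => rw [Function.iterate_succ_apply', ih, pow_succ', mul_assoc]; rfl
    refine pow_le_card (f := AddMonoidHom.mulLeft t) (k := j) ?_ ⟨c, hc, rfl⟩
      (by rw [it, h.nil, zero_mul]) fun k => hφ ?_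
    · rintro _ ⟨x, hx, rfl⟩
      exact ⟨_, SB_mT F hx t, rfl⟩
    · rw [it] at k
      exact (congrArg f k).trans (map_zero f)
  rw [card_map_inf (Pi.evalAddMonoidHom (fun _ => A) φ), ZZ_insert, hr,
    show r + 4 = 3 + (r + 1) by omega, pow_add 2 3, ← mul_assoc] at h1
  exact Nat.le_of_mul_le_mul_right ((Nat.mul_le_mul_left _ h3).trans h1) (by positivity)

end Pool.Agent.Lib.MP_696deb_nt.B3
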