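import Pool.Agent.Lib.MP_696deb_nt.B2.XTW
import Pool.Agent.Lib.MP_696deb_nt.B3.E2

/-! The characters of the twisted branches. -/

set_option autoImplicit false

open scoped NNReal Classical
open Finset Matrix NumberTheorySymbols PowerSeries

namespace Pool.Agent.Lib.MP_696deb_nt.B3

open B2

variable {n k : ℕ} {S : HS n} {lam w : Plc} {a b : ℤ} {Q : Finset Plc} {z g : Gam}

theorem Tate.f_ne (T : Tate) : T.f ≠ 0 := ne_zero_of_dvd_ne_zero (by norm_num) T.ok.dvd

theorem Tate.dvd30 (T : Tate) {p : ℕ} (h : (p : ℤ) ∣ T.f) : p ∣ 30 := by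
  exact_mod_cast h.trans T.ok.dvd

/-- The twist is unramified away from thirty. -/
theorem Tate.chi_ine (T : Tate) (hw : ¬ w.p ∣ 30) (hg : g ∈ Ine w) : chi T.f g = 1 :=
  B2.chi_ine (mu0_ndvd (ne_two_of hw) fun k => hw (T.dvd30 k)) hg

theorem xtw_top (x : Lam) : x ∈ aa 0 0 :=
  (Ideal.eq_top_iff_one _).2 (by simpa using two_mem_aa 0 0) ▸ Submodule.mem_top

theorem xtw_sign (u v : ℤˣ) : ((u : ℤ) : Lam) - ((v : ℤ) : Lam) ∈ Ideal.span {(2 : Lam)} := by
  rw [Ideal.mem_span_singleton]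
  rcases Int.units_eq_one_or u with rfl | rfl <;> rcases Int.units_eq_one_or v with rfl | rfl
  exacts [⟨0, by simp⟩, ⟨1, by norm_num⟩, ⟨-1, by norm_num⟩, ⟨0, by simp⟩]

theorem xtw_mul {I : Ideal Lam} {x : Lam} (u : Lam) (h : x - 1 ∈ I) : u * x - u ∈ I :=
  mul_sub_one u x ▸ I.mul_mem_left u h

theorem Tate.psi_chr (T : Tate) (h : S.Tw k lam a b) (hn : Nok n) (e : ℤ) :
    Chr T.f n k lam (T.psi S k lam e) := by
  have c := h.chr e
  have l := h.adm
  obtain ⟨z, z1, z2⟩ := c.gen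
  refine ⟨⟨(sm_chi T.f).comp₂ c.sm fun u x => ((u : ℤ) : Lam) * x, ?_, fun g hg u hu => ?_,
    fun g => ?_, fun g hg => ?_, fun w hw σ hσ => xtw_mul _ (c.unr w hw σ hσ),
    fun w hw g hg => xtw_mul _ (c.chr0.dec (hw ▸ l.ne.1.symm) (hn.ine_two hw) (fr_spec w)
      (hn.out_two hw) hg)⟩, z, z1, ?_⟩
  · simpa only [Tate.psi, map_one, Units.val_one, Int.cast_one, one_mul] using c.one
  · rw [Tate.psi, Tate.psi, Tate.psi, map_mul, Units.val_mul, Int.cast_mul, mul_mul_mul_comm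
      _ (S.psi k lam e g), ← mul_sub]
    exact Ideal.mul_mem_left _ _ (c.mul g hg u hu)
  · have t : Ideal.span {(2 : Lam)} ≤ aa 1 1 :=
      (Ideal.span_singleton_le_iff_mem _).2 (by simpa using two_mem_aa 1 1)
    simpa only [Tate.psi, Units.val_one, Int.cast_one, sub_add_sub_cancel] using
      add_mem (xtw_mul ((chi T.f g : ℤ) : Lam) (c.res g)) (t (xtw_sign (chi T.f g) 1))
  · simpa only [Tate.psi, map_mul, Int.units_mul_self, Units.val_one, Int.cast_one, one_mul]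
      using c.dih g hg
  · simpa only [Tate.psi, T.chi_ine l.nd30 z1.1, Units.val_one, Int.cast_one, one_mul] using z2

/-- The elements of `N` are in the kernels of the characters of the divisors of thirty. -/
theorem Tate.chi_N (T : Tate) (hk : 1 ≤ k) (hz : z ∈ S.N T k lam) {x : ℤ} (hx : x ∣ 30) :
    chi x z = 1 :=
  T.ok.ker8 x z hx ((la_mred_le (by omega) (hz.2.1.trans (mred_one _).symm)).trans (mred_one 3))

theorem Tate.psi_N (T : Tate) (hk : 1 ≤ k) (hl : Adm n lam.p) (hz : z ∈ S.N T k lam) (e : ℤ) :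
    T.psi S k lam e z = 1 := by
  rw [Tate.psi, T.chi_N hk hz T.ok.dvd, HS.psi_N hl hz, Units.val_one, Int.cast_one, one_mul]

theorem Tate.psi_N' (T : Tate) (hl : Adm n lam.p) (hz : z ∈ S.N T k lam) (e : ℤ) :
    T.psi S k lam e z - 1 ∈ aa k k := by
  rcases Nat.eq_zero_or_pos k with rfl | hk
  · exact xtw_top _
  · rw [T.psi_N hk hl hz, sub_self]
    exact zero_mem _

/-- The elements of `N` act trivially. -/
theorem Tate.act_N (T : Tate) (hl : Adm n lam.p) (hz : z ∈ S.N T k lam) (e : ℤ) {B : Type}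
    [AddCommGroup B] [Module Lam B] (hB : Kil k B) (x : Fin 2 → B) :
    act T (T.psi S k lam e) B z x = x :=
  act_id hB (T.psi_N' hl hz e)
    ((la_mred_le (Nat.le_add_right k 2) (hz.2.1.trans (mred_one _).symm)).trans (mred_one k)) x

theorem Tate.deep (T : Tate) (h : S.Dp T k lam w) (hl : Adm n lam.p) (e : ℤ) :
    DpL n k T lam (T.psi S k lam e) w := ⟨h.adm, h.ne, h.mem.2.1, T.psi_N' hl h.mem e⟩

theorem Tate.sok (T : Tate) (h : S.Tw k lam a b) (hn : Nok n) (hQ : S.DpS T k lam Q) (e : ℤ) :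
    SOk T n k lam (T.psi S k lam e) Q :=
  ⟨hn, h.adm, h.choose_spec.choose_spec.dvd, h.choose_spec.choose_spec.five, T.psi_chr h hn e,
    fun w hw => T.deep (hQ.dp w hw) h.adm e, hQ.inj⟩

theorem Tate.sok_empty (T : Tate) (h : S.Tw k lam a b) (hn : Nok n) (e : ℤ) :
    SOk T n k lam (T.psi S k lam e) ∅ :=
  T.sok h hn ⟨fun _ h => absurd h (notMem_empty _), fun _ h => absurd h (notMem_empty _)⟩ e

theorem Tate.sok_single (T : Tate) (h : S.Tw k lam a b) (hn : Nok n) (hw : S.Dp T k lam w)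
    (e : ℤ) : SOk T n k lam (T.psi S k lam e) {w} := T.sok h hn ⟨by simpa using hw, by simp⟩ e

/-- All branches of all twists agree modulo two. -/
theorem Tate.psi_two (T T' : Tate) (e e' : ℤ) (g : Gam) :
    T.psi S k lam e g - T'.psi S k lam e' g ∈ Ideal.span {(2 : Lam)} := by
  rw [Tate.psi, Tate.psi, HS.psi, HS.psi, HS.Psi, HS.Psi, ← mul_assoc, ← mul_assoc, ← sub_mul,
    ← Int.cast_mul, ← Int.cast_mul, ← Units.val_mul, ← Units.val_mul]
  exact Ideal.mul_mem_right _ _ (xtw_sign _ _)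

/-- The value at zero is the character of the branch. -/
theorem Tate.psi_X (T : Tate) (hl : Adm n lam.p) {e : ℤ} (he : e ∣ n) (h4 : e % 4 = 1)
    (hg : g ∈ GK n) :
    T.psi S k lam e g - ((chi (T.f * e) g : ℤ) : Lam) ∈ Ideal.span {(X : Lam)} := by
  rw [Tate.psi, chi_mul T.f_ne (by omega), Units.val_mul, Int.cast_mul, ← mul_sub]
  exact Ideal.mul_mem_left _ _ (HS.psi_X hl he h4 hg)

/-- An element that acts as a scalar. -/
theorem Tate.exists_scalar (T : Tate) (hn : Nok n) (hl : Adm n lam.p) (e : ℤ) : ∃ z ∈ GK n,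
    mred (k + 2) (T.ρ z) = mred (k + 2) ((33 : ℤ_[2]) • 1) ∧ T.psi S k lam e z - 1 ∈ aa k k ∧
      ∀ g ∈ GK n, z * g * z⁻¹ * g⁻¹ ∈ S.N T k lam := by
  obtain ⟨z, h1, h2, h3, h4⟩ := S.exists_scalar (T := T) (k := k) hn hl
  refine ⟨z, h1, h2, ?_, h4⟩
  rcases Nat.eq_zero_or_pos k with rfl | hk
  · exact xtw_top _
  rw [Tate.psi, HS.psi_of h3, T.ok.ker8 _ z T.ok.dvd ((la_mred_le (by omega) h2).trans ?_)]
  · simp
  · ext i j
    fin_cases i <;> fin_cases j <;> simp [mred, map_ofNat] <;> rfl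

end Pool.Agent.Lib.MP_696deb_nt.B3
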