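import Pool.Agent.Lib.MP_696deb_nt.B3.XLc
import Pool.Agent.Lib.MP_696deb_nt.B3.XTW

/-! The trivial twist. -/

set_option autoImplicit false

open scoped NNReal Classical
open Finset Matrix NumberTheorySymbols PowerSeries

namespace Pool.Agent.Lib.MP_696deb_nt.B3

open B2

variable {T : Tate} {n k : ℕ} {lam : Plc} {ψ : Gam → Lam} {B : Type} [AddCommGroup B]

theorem chi_one (g : Gam) : chi 1 g = 1 := by simpa using chi_sq 1 g

theorem tw_one (g : Gam) (P : EE) : tw 1 g P = g • P := by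
  rw [tw, chi_one, Units.val_one, one_smul]

theorem LK_one (h : T.f = 1) (D : Subgroup Gam) : LK T D B = B2.LK T D B := by
  ext c
  simp only [mem_LK, B2.mem_LK, KumC, B2.KumC, KumP, B2.KumP, h, tw_one]

variable [Module Lam B]

theorem SelB_one (h : T.f = 1) (s : Str) : SelB T n lam ψ s B = B2.SelB T n lam ψ s B := by
  have : Lc B T n ψ s.ty = B2.Lc B T n ψ s.ty := funext fun w => by rw [Lc, B2.Lc, LK_one h]
  rw [SelB, B2.SelB, this]

theorem SM_one (h : T.f = 1) (Q : Finset Plc) (ty : Plc → Ty) :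
    SM T n lam ψ Q ty B = B2.SM T n lam ψ Q ty B :=
  Submodule.ext fun c => by rw [SM, B2.SM, mem_SR0, B2.mem_SR0, SelB_one h]

theorem psi_one (h : T.f = 1) (S : HS n) (e : ℤ) : T.psi S k lam e = S.psi k lam e :=
  funext fun g => by rw [Tate.psi, h, chi_one, Units.val_one, Int.cast_one, one_mul]

theorem dvd_two {δ : ℤ} (h : δ ∣ 2) : δ = 1 ∨ δ = -1 ∨ δ = 2 ∨ δ = -2 := by
  have h1 := Int.le_of_dvd two_pos h
  have h2 := Int.le_of_dvd two_pos (neg_dvd.2 h)
  have h3 : δ ≠ 0 := ne_zero_of_dvd_ne_zero two_ne_zero h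
  omega

end Pool.Agent.Lib.MP_696deb_nt.B3
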