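import Pool.Agent.Lib.MP_696deb_nt.B2.XMU
import Pool.Agent.Lib.MP_696deb_nt.B3.MUd
import Pool.Agent.Lib.MP_696deb_nt.B3.One

/-! The vanishing of the invariant mu on the branches of the reference. -/

set_option autoImplicit false

open scoped NNReal Classical
open Finset Matrix NumberTheorySymbols PowerSeries

namespace Pool.Agent.Lib.MP_696deb_nt.B3

open B2

variable {n k : ℕ} {d d' a b δ : ℤ} {S : HS n} {T : Tate} {lam w : Plc} {φ z : Gam}

/-- The Kummer condition at two in terms of the two isogeny characters. -/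
theorem KumC.two (F : CFT) {M : Type} [AddCommGroup M] (hn : n % 8 = 3) (hw : w.p = 2)
    (hf : T.f % 4 ≠ 1) {c : Gam → Fin 2 → M} (h : KumC T (GK n ⊓ Dec w) c)
    (sep : ∀ x : M, (∀ f : M →+ Z2, f x = 0) → x = 0) :
    (∀ σ ∈ GK n ⊓ Dec w, om T.f σ = 0 → c σ 0 = 0) ∧
      UnW F (GK n) w T.f fun g => c g 0 + c g 1 := by
  have key : ∀ f : M →+ Z2, (∃ s : Z2, ∀ g ∈ GK n ⊓ Dec w, f (c g 0) = s * om T.f g) ∧
      Spl 1 (GK n ⊓ Dec w) fun g h => om T.f g * f (c h 0 + c h 1) := fun f => by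
    obtain ⟨S, hS⟩ := h 1 f
    refine T.ok.kum2 n w (fun g => f (c g 0)) (fun g => f (c g 0 + c g 1)) S hn hw hf
      fun g hg => ?_
    have e : (fun i => f (c g i)) = (f (c g 0)).val • ![1, 0] + (f (c g 1)).val • ![0, 1] := by
      ext i
      fin_cases i <;> simp
    rw [← hS g hg]
    beta_reduce
    rw [e, map_add, map_nsmul, map_nsmul, T.e0, T.e1, map_add,
      mu5_val T1 (by simpa using two_T1), ← T1_add_T2, smul_add]
    abel
  refine ⟨fun σ hσ l => sep _ fun f => ?_, fun f => ⟨?_, (F.zero_iff (op_GK n) (key f).2.c2).2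
    (key f).2⟩⟩
  · obtain ⟨s, hs⟩ := (key f).1
    rw [hs σ hσ, l, mul_zero]
  · obtain ⟨h1, h2⟩ := (h 1 f).coc
    refine coc_tr.2 ⟨(h1.comp fun x => x 0 + x 1).congr fun g _ => (map_add f _ _).symm,
      fun g hg u hu => ?_⟩
    have e : ∀ i, f (c (g * u) i) = f (c g i) + f (c u i) := fun i => by
      have := congrFun (h2 g hg u hu) i
      rw [T.mod2, one_mulVec] at this
      rcases Int.units_eq_one_or (chi T.f g) with l | l <;> rw [l] at this
      · simpa using this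
      · simpa [neg_eq_of_add_eq_zero_left (Z2.add_self (f (c u i)))] using this
    simp only [map_add, e]
    ring

theorem muW {s : ℕ} (h : TwP S a b (s + 2) lam φ z) (hc : Ctx d d' n a b) (h2 : δ ∣ 2)
    (h1 : δ ≠ 1) (hx : MuX δ a b) : MuW n a b δ (B2.xi (-(a * lam.p))) := by
  have h8 := hc.nok.m8
  have ha := (hx h1).1
  have hl : (8 : ℤ) ∣ lam.p + 1 := by
    exact_mod_cast (pow_dvd_pow 2 (by omega : 3 ≤ s + 2 + 1)).trans h.dvd
  have p0 : 0 < -(a * lam.p) :=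
    neg_pos.2 (mul_neg_of_neg_of_pos hc.neg (by exact_mod_cast lam.prime.pos))
  have key : ∀ w : Plc, w.p = 2 → ∀ g ∈ Dec w, B2.xi (-(a * lam.p)) g = B2.xi (-n) g :=
      fun w hw g hg => by
    have := xi_eq_zero.2 (chi_dec_two (a := -(a * lam.p) * -n) hw (by
      obtain ⟨l, hl⟩ := hl
      obtain ⟨u, hu⟩ : ∃ u, a = 8 * u + 5 := ⟨a / 8, by omega⟩
      obtain ⟨v, hv⟩ : ∃ v, (n : ℤ) = 8 * v + 3 := ⟨n / 8, by omega⟩
      rw [eq_sub_of_add_eq hl, hu, hv]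
      have : -((8 * u + 5) * (8 * l - 1)) * -(8 * v + 3) =
        1 + 8 * (64 * u * l * v + 24 * u * l - 8 * u * v - 3 * u + 40 * l * v + 15 * l - 5 * v - 2) := by
        ring
      rw [this, Int.add_mul_emod_self_left]
      rfl) hg)
    rw [xi_mul p0.ne' (by omega)] at this
    linear_combination this - mu1_two (B2.xi (-n) g)
  refine ⟨h.mud, h8, h2.trans (by norm_num), fun w hw g hg => ⟨fun l => ?_, fun l => ?_⟩,
    fun c c1 c2 c3 l => ?_⟩
  · rw [key w hw g l, mem_GK.1 hg]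
  · have := key w hw _ l
    rwa [xi_hom, xi_hom, xi_cc p0, mem_GK.1 hg, xi_cc_neg (by omega), add_zero, zero_add] at this
  · obtain ⟨q, q1, q2, q3⟩ := (hx h1).2 c c1 c2 c3
    exact absurd ((l q q1 q2).symm.trans q3) (by decide)

theorem exists_om (h8 : n % 8 = 3) (hw : w.p = 2) (h2 : δ ∣ 2) (h1 : δ ≠ 1) :
    ∃ σ ∈ GK n ⊓ Ine w, B2.xi δ σ = 1 := by
  have le : Ine w ≤ GK n := ine_le_GK' (by omega) (by rw [hw]; omega)
  obtain ⟨σ, s1, s2, s3⟩ := exists_ine_two hw (-1) 1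
  obtain ⟨τ, t1, -, t3⟩ := exists_ine_two hw 1 (-1)
  rcases (dvd_two h2).resolve_left h1 with rfl | rfl | rfl
  · exact ⟨σ, ⟨le s1, s1⟩, xi_eq_one.2 s2⟩
  · exact ⟨τ, ⟨le t1, t1⟩, xi_eq_one.2 t3⟩
  · refine ⟨σ, ⟨le s1, s1⟩, ?_⟩
    rw [show (-2 : ℤ) = -1 * 2 from rfl, xi_mul (by decide) (by decide), xi_eq_one.2 s2,
      xi_eq_zero.2 s3, add_zero]

theorem muQ (h : TwP S a b (2 * k + 3) lam φ z) (hn : Nok n) (T : B2.Tate) (h2 : δ ∣ 2)
    (h1 : δ ≠ 1) : MuQ n δ (B2.xi (-(a * lam.p))) lam z w2 (univ.image (sp lam)) :=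
  ⟨h.muP hn T, (exists_om hn.m8 w2_p h2 h1).imp fun _ l => ⟨mu5_ine _ _ l.1, l.2⟩⟩

theorem xmu_two (j : ℕ) {x : Lam} (h : x ∈ Ideal.span {(2 : Lam)}) (y : Lam ⧸ aa 1 j) :
    x • y = 0 := by
  obtain ⟨u, rfl⟩ := Ideal.mem_span_singleton'.1 h
  rw [mul_smul, two_smul, (trunc_aa j).add_self, smul_zero]

theorem xmu_psi (e : ℤ) (g : Gam) :
    T.psi S k lam e g - S.psi k lam 1 g ∈ Ideal.span {(2 : Lam)} := by
  have := add_mem (Ideal.mul_mem_right (S.psi k lam e g) _ (xtw_sign (chi T.f g) 1))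
    (HS.psi_two (S := S) (k := k) (lam := lam) e g)
  rwa [Units.val_one, Int.cast_one, sub_mul, one_mul, sub_add_sub_cancel] at this

theorem xmu_act (S : HS n) (T : Tate) (k : ℕ) (lam : Plc) (e : ℤ) (j : ℕ) (g : Gam)
    (x : Fin 2 → Lam ⧸ aa 1 j) (i : Fin 2) : act T (T.psi S k lam e) _ g x i =
      aT (Ideal.Quotient.mk (aa 1 j) X) (fun g => (S.ex lam.p (2 * k + 3) g).val) g (x i) := by
  rw [← B2.xmu_act S T, act_eq, act_eq, Pi.smul_apply, Pi.smul_apply, ← sub_eq_zero, ← sub_smul]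
  exact xmu_two j (xmu_psi e g) _

theorem xmu_card (F : CFT) (su : SUStmt) (ch : ChebStmt) (hn : Nok n) (h2 : T.f ∣ 2)
    (h0 : T.f ≠ 1) (e₀ : ℤ)
    (h : TwP S a b (2 * k + 3) lam φ z) (hw : S.Dp T k lam w) (hk : 1 ≤ k) {j : ℕ} (hj : j ≤ k) :
    Nat.card (SM T n lam (T.psi S k lam e₀) {w} (fun _ => .lag) (Lam ⧸ aa 1 j)) ≤
      2 ^ ((univ.image (sp lam)).card + 1) * Nat.card (SB F n T.f (Ideal.Quotient.mk (aa 1 j) X)
        (fun g => (S.ex lam.p (2 * k + 3) g).val) w2 (univ.image (sp lam)) {fq w, z}) ^ 2 := by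
  have ok : SOk T n k lam (T.psi S k lam e₀) {w} :=
    T.sok_single ⟨φ, z, h⟩ hn hw e₀
  have ht := trunc_aa j
  have E := h.muA hn.pos ht (s := 2 * k + 3) (hj.trans (Nat.lt_two_pow_self.le.trans
    (Nat.pow_le_pow_right two_pos (by omega)))) (by omega)
  have P := muQ h hn T h2 h0
  have ha := xmu_act S T k lam e₀ j
  generalize Ideal.Quotient.mk (aa 1 j) X = t at ht E ha ⊢
  generalize (fun g => (S.ex lam.p (2 * k + 3) g).val) = e at E ha ⊢
  have hB : Kil k (Lam ⧸ aa 1 j) := kil_quot (aa_le hk (.inl hj))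
  have es : univ.image (sp lam) ∪ insert w2 {w} = insert w2 (insert w (univ.image (sp lam))) := by
    ext x
    simp only [mem_union, mem_insert, mem_singleton]
    tauto
  have h1 := card_SA F su ch ht E P (es ▸ ok.apart) hw.adm.ne.1 hw.ne (fun e => by
    obtain ⟨i, -, e⟩ := mem_image.1 e
    exact ok.sp_notMem i (by simp [e])) hw.adm.ine (fr_spec w) hw.adm.fr_notMem
  rw [sq, ← mul_assoc]
  refine le_trans ?_ (Nat.mul_le_mul_right _ h1)
  rw [← Nat.card_prod]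
  have := finite_ZZ (R := ∅) (v := w2) (L := Lw (GK n) w2 T.f (aT t e)) (Φ := {z})
    (E.finite ht hn.pos (insert w2 (insert w (univ.image (sp lam)))))
  have := finite_ZZ (R := ∅) (v := w2) (L := Ln F (op_GK n) w2 T.f (aT t e)) (Φ := {fq w, z})
    (E.finite ht hn.pos (insert w2 (univ.image (sp lam))))
  have key : ∀ c ∈ SM T n lam (T.psi S k lam e₀) {w} (fun _ => .lag) (Lam ⧸ aa 1 j), _ ∧ _ :=
      fun c hc => by
    obtain ⟨p0, p5⟩ := (ok.mem_SM hB).1 hc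
    obtain ⟨p1, p2, p3, p4⟩ := (ok.mem_SU hB).1 p0
    obtain ⟨q1, q2⟩ := p3.two F hn.m8 w2_p (by have := dvd_two h2; omega) fun _ => ht.sep
    obtain ⟨q3, q4⟩ := p4 w (mem_singleton_self w)
    have q5 := p5 z ⟨h.ine h.gen.1, Ine_le _ h.gen.1⟩
    have c0 : ∀ i, Coc (GK n) (aT t e) fun g => c g i := fun i =>
      p1.1.map (Pi.evalAddMonoidHom _ i) fun g _ x => ha g x i
    have c1 : Coc (GK n) (aT t e) fun g => c g 0 + c g 1 := (c0 0).add (c0 1)
    refine And.intro (a := (fun g => c g 0) ∈ ZZ (GK n) (aT t e) (insert w2 (insert w (univ.image (sp lam)))) ∅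
      w2 (Lw (GK n) w2 T.f (aT t e)) {z}) (b := (fun g => c g 0 + c g 1) ∈ SB F n T.f t e w2
      (univ.image (sp lam)) {fq w, z}) (mem_ZZ.2 ⟨⟨⟨c0 0, fun g hg => congrFun (p1.2 g hg) 0⟩,
        fun v hv σ hσ => ?_⟩, by simp, (rs_mem_Lw (c0 0)).2 q1, fun g hg => by
          rw [hg]; exact congrFun q5 0⟩) (mem_ZZ.2 ⟨⟨⟨c1, fun g hg => by simp [p1.2 g hg]⟩,
        fun v hv σ hσ => ?_⟩, by simp, (rs_mem_Ln c1).2 q2, ?_⟩)
    · obtain ⟨r1, r2, r3⟩ := ok.away.1 (es ▸ hv)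
      exact congrFun (p2 v r1 r2 r3 σ hσ) 0
    · obtain ⟨r1, r2, -⟩ := (ok.mono (empty_subset _)).away.1 (show Away _ _ v by simpa using hv)
      by_cases r3 : v.p = w.p
      · obtain ⟨g, r4, rfl⟩ := conj_of_inert r3 (fr_spec w).1 hw.adm.fr_notMem
        exact c1.unr_smul (E.act ht) (fun σ hσ => E.triv ht hn.pos hw.ne hw.adm.ine (fr_spec w)
          hw.adm.fr_notMem σ (mu5_ine _ _ hσ)) (fun σ hσ => (hw.adm.tm_gn hn).zero_ine ht.smul_zero
            ((E.act ht).mono inf_le_left) (c1.mono inf_le_left) q4 hσ.2) r4 σ hσ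
      · simp [p2 v r1 r2 (by simpa using r3) σ hσ]
    · rintro g (rfl | rfl)
      · exact (congrArg _ q3).trans (ht.add_self _)
      · simp [q5]
  exact Nat.card_le_card_of_injective (fun c => (⟨_, (key c.1 c.2).1⟩, ⟨_, (key c.1 c.2).2⟩))
    fun c c' e => Subtype.ext (funext fun g => by
      have e0 : c.1 g 0 = c'.1 g 0 := congrFun (congrArg (·.1.1) e) g
      have e1 : c.1 g 0 + c.1 g 1 = c'.1 g 0 + c'.1 g 1 := congrFun (congrArg (·.2.1) e) g
      rw [e0, add_right_inj] at e1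
      exact funext (Fin.forall_fin_two.2 ⟨e0, e1⟩))

theorem card_SB_mono (F : CFT) {A A' : Type} [CommRing A] [CommRing A'] {t : A} {t' : A'}
    {j i : ℕ} {ξ : Gam → ZMod 2} {e : Gam → ℕ} {v : Plc} {Y : Finset Plc} (h : Trunc t j)
    (h' : Trunc t' i) (l : i ≤ j) (E : MuA t n ξ e lam) (hn : 0 < n) (Φ : Set Gam) :
    Nat.card (SB F n δ t' e v Y Φ) ≤ Nat.card (SB F n δ t e v Y Φ) := by
  obtain ⟨ι, r, p1, p2, -⟩ := h.exists_emb h' l
  have : Finite (SB F n δ t e v Y Φ) := finite_ZZ (E.finite h hn _)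
  exact Nat.card_le_card_of_injective (fun c => ⟨_, SB_map F c.2 ι
    ((mem_ZZ.1 c.2).1.1.1.map ι fun g _ x => mu4_pow p2 _ x)⟩) fun c c' l => Subtype.ext
      (funext fun g => Function.LeftInverse.injective p1 (congrFun (congrArg Subtype.val l) g))

/-- The vanishing of the invariant mu. -/
theorem mu_bound (F : CFT) (su : SUStmt) (ch : ChebStmt) (T : Tate) (h2 : T.f ∣ 2)
    (hc : Ctx d d' n a b) (hx : MuX T.f a b) (S : HS n) (e : ℤ) :
    ∃ C k₀ : ℕ, ∀ k, k₀ ≤ k → ∀ lam, S.Tw k lam a b → S.Often T k lam fun w => ∀ j ≤ k,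
      Nat.card (SM T n lam (T.psi S k lam e) {w} (fun _ => .lag) (Lam ⧸ aa 1 j)) ≤ C := by
  by_cases h0 : T.f = 1
  · obtain ⟨C, k₀, h⟩ := B2.mu_bound F su ch T hc S
    refine ⟨C, k₀, fun k hk lam hl => ?_⟩
    obtain ⟨m, c, c1, c2, c3, c4⟩ := h k hk lam hl
    refine ⟨m, c, c1, c2, c3, fun w hw l j hj => le_of_eq_of_le ?_ (c4 w hw l j hj)⟩
    rw [SM_one h0, show B2.SM T n lam (T.psi S k lam e) {w} (fun _ => .lag) (Lam ⧸ aa 1 j) =
      B2.SM T n lam (S.psi k lam 1) {w} (fun _ => .lag) (Lam ⧸ aa 1 j) from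
      Submodule.ext fun c => by
        rw [B2.SM, B2.SM, B2.mem_SR0, B2.mem_SR0,
          B2.SelB_congr fun g _ => xmu_two j (xmu_psi e g)]]
  refine ⟨2 ^ (5 + 1) * (2 ^ (5 + 1) * muC n w2 ^ 4 * 2 ^ 3) ^ 2, 3,
    fun k hk lam ⟨φ, z, h⟩ => ?_⟩
  have ht := trunc_aa k
  have E := h.muA hc.pos ht (s := 2 * k + 3) (Nat.lt_two_pow_self.le.trans
    (Nat.pow_le_pow_right two_pos (by omega))) (by omega)
  have c5 : (univ.image (sp lam)).card ≤ 5 := card_image_le.trans (by simp)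
  have key : ∀ w, S.Dp T k lam w → Nat.card (SB F n T.f (Ideal.Quotient.mk (aa 1 k) X)
      (fun g => (S.ex lam.p (2 * k + 3) g).val) w2 (univ.image (sp lam)) {fq w, z}) ≤
      2 ^ ((univ.image (sp lam)).card + 1) * muC n w2 ^ 4 * 2 ^ 3 → ∀ j ≤ k,
      Nat.card (SM T n lam (T.psi S k lam e) {w} (fun _ => .lag) (Lam ⧸ aa 1 j)) ≤
        2 ^ (5 + 1) * (2 ^ (5 + 1) * muC n w2 ^ 4 * 2 ^ 3) ^ 2 := fun w hw l j hj => by
    refine (xmu_card F su ch hc.nok h2 h0 e h hw (by omega) hj).trans ?_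
    have := (card_SB_mono F ht (trunc_aa j) hj E hc.pos _).trans l
    gcongr
    · norm_num
    · refine this.trans ?_
      gcongr
      norm_num
  rcases mu_choice F su ch ht (muW (s := 2 * k + 1) h hc h2 h0 hx) E (muQ h hc.nok T h2 h0)
    (h.muN T k _) with l | ⟨c, c1, c2, c3, c4⟩
  · exact HS.often_of_forall hc.nok h.adm hk fun w hw => key w hw (l _)
  · exact ⟨1, c, c1, c2, c3, fun w hw l => key w hw (c4 _ l)⟩

end Pool.Agent.Lib.MP_696deb_nt.B3
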