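import Pool.Agent.Lib.MP_696deb_nt.B3.LA

/-! The places above three and five. -/

set_option autoImplicit false

open scoped NNReal Classical
open Finset Matrix NumberTheorySymbols PowerSeries

namespace Pool.Agent.Lib.MP_696deb_nt.B3

open B2

variable {T : Tate} {n k : ℕ} {lam w : Plc} {ψ : Gam → Lam} {Q : Finset Plc} {ty : Plc → Ty}
  {R : Finset (Fin 5)} {B B' : Type} [AddCommGroup B] [Module Lam B] [AddCommGroup B']
  [Module Lam B'] {c : Gam → Fin 2 → B} {g : Gam}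

theorem Tate.chi_nrm {v : Fin 2} (hv : ¬ T.Rm v) {b : Bool} (hg : g ∈ Ine (bq v b)) :
    chi T.f g = 1 := by
  refine chi_ine (fun e => hv ?_) hg
  rw [bq_p] at e
  unfold Tate.Rm
  fin_cases v <;> simp at e ⊢ <;> omega

theorem Tate.chi_rm {v : Fin 2} (hv : T.Rm v) {b : Bool} (hg : Gen (bq v b) g) :
    chi T.f g = -1 := by
  obtain ⟨y, hy⟩ := hv
  have hd := T.ok.dvd
  have h1 := hg.2
  have h0 : y ≠ 0 := by
    rintro rfl
    rw [hy, mul_zero] at hd
    exact absurd (zero_dvd_iff.1 hd) (by norm_num)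
  have h2 : chi y g = 1 := by
    refine chi_ine (fun e => ?_) hg.1
    rw [bq_p] at e
    rw [hy] at hd
    fin_cases v <;> simp at e hd
    · obtain ⟨z, rfl⟩ : (3 : ℤ) ∣ y := by omega
      exact absurd ((Dvd.intro z (by ring) : (9 : ℤ) ∣ 3 * (3 * z)).trans hd) (by norm_num)
    · obtain ⟨z, rfl⟩ : (5 : ℤ) ∣ y := by omega
      exact absurd ((Dvd.intro z (by ring) : (25 : ℤ) ∣ 5 * (5 * z)).trans hd) (by norm_num)
  rw [bq_p] at h1
  rw [hy, chi_mul (by fin_cases v <;> simp) h0, h2, mul_one, ← h1]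
  fin_cases v <;> rfl

theorem nu_rm {v : Fin 2} (hv : T.Rm v) (b : Bool) (c : Gam → Fin 2 → B) : nu T v b c = 0 := by
  simp [nu, nlf, hv]

theorem nu_nrm {v : Fin 2} (hv : ¬ T.Rm v) (b : Bool) (c : Gam → Fin 2 → B) :
    nu T v b c = B2.nu T v b c := by
  simp only [nu, nlf, if_neg hv, B2.nu]

theorem QQ_rm {v : Fin 2} (hv : T.Rm v) (b : Bool) : QQ T ψ v b = 1 := if_pos hv

theorem QQ_nrm {v : Fin 2} (hv : ¬ T.Rm v) (b : Bool) : QQ T ψ v b = B2.QQ ψ v b := if_neg hv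

theorem SOk0.psi_ns (h : SOk0 T n k lam ψ Q) (v : Fin 2) (b : Bool) :
    ψ (nsg v b) - chL T.f (nsg v b) ∈ aa k k := by
  have t := h.nok.tm_bq v b
  refine h.chr.unr _ ?_ _ ⟨t.τ_mem.1, t.gen.1⟩
  have := h.adm.ne
  rcases bq_or v b with e | e <;> omega

/-- Coordinates that are adapted to a place above three or five. -/
theorem SOk0.coord0 (h : SOk0 T n k lam ψ Q) (hB : Kil k B) (v : Fin 2) (b : Bool) :
    ∃ (μ ν : (Fin 2 → B) →ₗ[Lam] B) (u u' β α : Lam), u' * u = 1 ∧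
      α = (![-1, 1] : Fin 2 → Lam) v * ψ (ori b (fr (bp v))) ∧
      (∀ x, μ x = 0 → ν x = 0 → x = 0) ∧ (∀ s t, ∃ x, μ x = s ∧ ν x = t) ∧
      (∀ x, μ (act T ψ B (nsg v b) x) = chL T.f (nsg v b) • (μ x + (4 * u) • ν x)) ∧
      (∀ x, ν (act T ψ B (nsg v b) x) = chL T.f (nsg v b) • ν x) ∧
      (∀ x, μ (act T ψ B (ori b (fr (bp v))) x) = ((bp v).p * α) • μ x + β • ν x) ∧
      (∀ x, ν (act T ψ B (ori b (fr (bp v))) x) = α • ν x) ∧
      ∀ z : Gam → Fin 2 → B, B2.nu T v b z = ν (z (nsg v b)) := by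
  obtain ⟨P, P', c, β, p1, p2, p3, p4, p5⟩ := xld_basis T.toTate v b
  have t := h.nok.tm_bq v b
  have hψ := h.psi_ns v b
  have mm : ∀ (A A' : Matrix (Fin 2) (Fin 2) ℤ_[2]) (x : Fin 2 → B),
      mact B (A.map C) (mact B (A'.map C) x) = mact B ((A * A').map C) x := fun A A' x => by
    rw [Matrix.map_mul, mact_mul]
  have m1 : ∀ x : Fin 2 → B, mact B ((1 : Matrix (Fin 2) (Fin 2) ℤ_[2]).map C) x = x := fun x => by
    rw [Matrix.map_one _ (map_zero _) (map_one _), mact_one]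
  have k1 : ∀ x, mact B (P'.map C) (act T ψ B (nsg v b) x) = chL T.f (nsg v b) •
      mact B ((!![1, 4 * (c : ℤ_[2]); 0, 1]).map C) (mact B (P'.map C) x) := fun x => by
    rw [act_eq, hB.pi.congr hψ, map_smul, mm, mm, p3]
  have k2 : ∀ x, mact B (P'.map C) (act T ψ B (ori b (fr (bp v))) x) = ψ (ori b (fr (bp v))) •
      mact B ((!![![3, 5] v * ![-1, 1] v, β; 0, ![-1, 1] v]).map C) (mact B (P'.map C) x) :=
    fun x => by rw [act_eq, map_smul, mm, mm, p4]
  refine ⟨.proj 0 ∘ₗ mact B (P'.map C), .proj 1 ∘ₗ mact B (P'.map C), C (c : ℤ_[2]),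
    C ((c⁻¹ : ℤ_[2]ˣ) : ℤ_[2]), ψ (ori b (fr (bp v))) * C β, _, by rw [← map_mul]; simp, rfl,
    fun x e0 e1 => ?_, fun s t => ⟨mact B (P.map C) ![s, t], ?_, ?_⟩, fun x => ?_, fun x => ?_,
    fun x => ?_, fun x => ?_, fun z => ?_⟩
  · have : mact B (P'.map C) x = 0 := funext (Fin.forall_fin_two.2 ⟨e0, e1⟩)
    rw [← m1 x, ← p1, ← mm, this, map_zero]
  · exact congrFun ((mm P' P _).trans (p2 ▸ m1 _)) 0
  · exact congrFun ((mm P' P _).trans (p2 ▸ m1 _)) 1
  · refine (congrFun (k1 x) 0).trans ?_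
    rw [Pi.smul_apply, mact_apply]
    simp [map_ofNat]
  · refine (congrFun (k1 x) 1).trans ?_
    rw [Pi.smul_apply, mact_apply]
    simp
  · refine (congrFun (k2 x) 0).trans ?_
    rw [Pi.smul_apply, mact_apply, smul_add, smul_smul, smul_smul, bp_p]
    congr 2
    fin_cases v <;> simp [map_ofNat] <;> ring
  · refine (congrFun (k2 x) 1).trans ?_
    rw [Pi.smul_apply, mact_apply, smul_add, smul_smul, smul_smul]
    fin_cases v <;> simp
  · simp [B2.nu, p5, mact_apply]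

/-- The same at a place where the twist is unramified. -/
theorem SOk0.coord (h : SOk0 T n k lam ψ Q) (hB : Kil k B) {v : Fin 2} (hv : ¬ T.Rm v) (b : Bool) :
    ∃ (μ ν : (Fin 2 → B) →ₗ[Lam] B) (u u' β α : Lam), u' * u = 1 ∧
      α = (![-1, 1] : Fin 2 → Lam) v * ψ (ori b (fr (bp v))) ∧
      (∀ x, μ x = 0 → ν x = 0 → x = 0) ∧ (∀ s t, ∃ x, μ x = s ∧ ν x = t) ∧
      (∀ x, μ (act T ψ B (nsg v b) x) = μ x + (4 * u) • ν x) ∧
      (∀ x, ν (act T ψ B (nsg v b) x) = ν x) ∧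
      (∀ x, μ (act T ψ B (ori b (fr (bp v))) x) = ((bp v).p * α) • μ x + β • ν x) ∧
      (∀ x, ν (act T ψ B (ori b (fr (bp v))) x) = α • ν x) ∧
      ∀ z : Gam → Fin 2 → B, nu T v b z = ν (z (nsg v b)) := by
  have := h.coord0 hB v b
  simp only [chL_of (Tate.chi_nrm hv (gen_bq v b).1), one_smul, ← nu_nrm hv] at this
  exact this

/-- At a ramified place the local cohomology is killed by four. -/
theorem SOk0.rm_cob (h : SOk0 T n k lam ψ Q) (hB : Kil k B) {v : Fin 2} (hv : T.Rm v) (b : Bool)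
    (hc : Coc (GK n ⊓ Dec (bq v b)) (act T ψ B) c) :
    ∃ x, ∀ g ∈ GK n ⊓ Dec (bq v b), (4 : Lam) • c g = cob (act T ψ B) x g := by
  obtain ⟨μ, ν, u, u', β, α, -, -, inj, sur, m1, n1, -⟩ := h.coord0 hB v b
  have t := h.nok.tm_bq v b
  have ha := (h.chr.act T hB).lo_mono (inf_le_left (b := Dec (bq v b)))
  have e0 : chL T.f (nsg v b) = -1 := by simp [chL, Tate.chi_rm hv (gen_bq v b)]
  simp only [e0, neg_smul, one_smul] at m1 n1
  have ext : ∀ x y, μ x = μ y → ν x = ν y → x = y := fun x y e e' =>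
    sub_eq_zero.1 (inj _ (by rw [map_sub, e, sub_self]) (by rw [map_sub, e', sub_self]))
  have e : ∀ (j : ℕ) x, μ (act T ψ B (nsg v b ^ (2 * j + 1)) x) =
      -(μ x + ((2 * j + 1) * (4 * u)) • ν x) ∧ ν (act T ψ B (nsg v b ^ (2 * j + 1)) x) = -ν x :=
    fun j => by
    induction j with
    | zero => intro x; simp [m1, n1]
    | succ j ih =>
      intro x
      rw [show 2 * (j + 1) + 1 = 2 * j + 1 + 1 + 1 by ring, pow_succ, pow_succ,
        ha.mul _ (mul_mem (pow_mem t.τ_mem _) t.τ_mem) _ t.τ_mem,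
        ha.mul _ (pow_mem t.τ_mem _) _ t.τ_mem, (ih _).1, (ih _).2]
      simp only [m1, n1]
      push_cast
      exact ⟨by module, by module⟩
  obtain ⟨x, x1, x2⟩ := sur ((2 * u) • ν (c (nsg v b)) - μ (c (nsg v b))) (-ν (c (nsg v b)))
  have h1 : Coc (GK n ⊓ Dec (bq v b)) (act T ψ B) ((2 : Lam) • c + -cob (act T ψ B) x) :=
    (hc.lam_smul 2).add (lo_coc_cob ha x).neg
  have h2 : ((2 : Lam) • c + -cob (act T ψ B) x) (nsg v b) = 0 := by
    refine inj _ ?_ ?_ <;>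
      simp only [Pi.add_apply, Pi.neg_apply, Pi.smul_apply, cob, map_add, map_neg, map_sub,
        map_smul, m1, n1, x1, x2] <;> module
  have r := t.rel hB.two' ha h1 t.gen.1
  obtain ⟨j, hj⟩ := t.odd_q
  rw [h2, map_zero, add_zero, t.zero_ine hB.two' ha h1 h2 (pow_mem t.gen.1 _), zero_add, hj] at r
  generalize hy : ((2 : Lam) • c + -cob (act T ψ B) x) (ori b (fr (bp v))) = y at r
  have r1 := (congrArg μ r).trans (e j y).1
  have r2 := (congrArg ν r).trans (e j y).2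
  have h3 : (2 : Lam) • y = 0 := by
    refine inj _ ?_ ?_ <;> rw [map_smul]
    · linear_combination (norm := module) r1 - ((2 * j + 1) * (2 * u)) • r2
    · linear_combination (norm := module) r2
  refine ⟨(2 : Lam) • x, fun g hg => ?_⟩
  have h4 := t.eq_zero hB.two' ha (h1.lam_smul 2) (by rw [Pi.smul_apply, h2, smul_zero])
    (by rw [Pi.smul_apply, hy, h3]) hg
  rw [cob_smul]
  simp only [Pi.add_apply, Pi.neg_apply, Pi.smul_apply] at h4
  linear_combination (norm := module) h4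

theorem SOk0.nu_Q (h : SOk0 T n k lam ψ Q) (hB : Kil k B) (v : Fin 2) (b : Bool)
    (hc : Coc (GK n ⊓ Dec (bq v b)) (act T ψ B) c) : QQ T ψ v b • nu T v b c = 0 := by
  by_cases hv : T.Rm v
  · rw [nu_rm hv, smul_zero]
  obtain ⟨μ, ν, u, u', β, α, -, hα, -, -, -, n1, -, n2, n3⟩ := h.coord hB hv b
  have t := h.nok.tm_bq v b
  have ha := (h.chr.act T hB).lo_mono (inf_le_left (b := Dec (bq v b)))
  have e : ∀ (j : ℕ) x, ν (act T ψ B (nsg v b ^ j) x) = ν x := fun j => by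
    induction j with
    | zero => intro x; rw [pow_zero, ha.one]
    | succ j ih => intro x; rw [pow_succ, ha.mul _ (pow_mem t.τ_mem j) _ t.τ_mem, ih, n1]
  have := congrArg ν (t.rel hB.two' ha hc t.gen.1)
  rw [map_add, map_add, n2, e, hc.lo_pow ha t.τ_mem, map_sum, add_comm, add_left_inj] at this
  simp only [e, sum_const, card_range] at this
  rw [n3, QQ_nrm hv, B2.QQ, ← hα, sub_smul, this, ← Nat.cast_smul_eq_nsmul Lam, bp_p, sub_eq_zero]
  fin_cases v <;> simp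

theorem SOk0.nu_cob (h : SOk0 T n k lam ψ Q) (hB : Kil k B) (v : Fin 2) (b : Bool)
    (hc : Coc (GK n ⊓ Dec (bq v b)) (act T ψ B) c) (h0 : nu T v b c = 0) :
    ∃ x, ∀ g ∈ GK n ⊓ Dec (bq v b), (4 * QQ T ψ v (!b)) • c g = cob (act T ψ B) x g := by
  by_cases hv : T.Rm v
  · rw [QQ_rm hv, mul_one]
    exact h.rm_cob hB hv b hc
  obtain ⟨μ, ν, u, u', β, α, hu, hα, inj, sur, m1, n1, m2, n2, n3⟩ := h.coord hB hv b
  have t := h.nok.tm_bq v b
  have ha := (h.chr.act T hB).lo_mono (inf_le_left (b := Dec (bq v b)))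
  have ext : ∀ x y, μ x = μ y → ν x = ν y → x = y := fun x y e e' =>
    sub_eq_zero.1 (inj _ (by rw [map_sub, e, sub_self]) (by rw [map_sub, e', sub_self]))
  rw [n3] at h0
  have e : ∀ (j : ℕ) x, μ (act T ψ B (nsg v b ^ j) x) = μ x + (j * (4 * u)) • ν x := fun j => by
    induction j with
    | zero => intro x; simp [ha.one]
    | succ j ih =>
      intro x
      rw [pow_succ, ha.mul _ (pow_mem t.τ_mem j) _ t.τ_mem, ih, n1, m1]
      push_cast
      module
  have r := congrArg μ (t.rel hB.two' ha hc t.gen.1)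
  rw [map_add, map_add, m2, e, h0, hc.lo_pow_fix ha t.τ_mem
    (ext _ _ (by rw [m1, h0, smul_zero, add_zero]) (n1 _)), map_nsmul,
    ← Nat.cast_smul_eq_nsmul Lam] at r
  have r' : (α - 1) • μ (c (nsg v b)) = (4 * u) • ν (c (ori b (fr (bp v)))) := by
    refine (xld_unit t.odd_q).smul_left_cancel.1 ?_
    linear_combination (norm := module) r
  set p : Lam := Nat.cast (bp v).p with hp
  set α' := (![-1, 1] : Fin 2 → Lam) v * ψ (cc * ori b (fr (bp v)) * cc) with hα'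
  have q1 : α * α' - 1 ∈ aa k k := by
    convert h.chr.mul_cj h.nok.pos t.mem using 1
    rw [hα, hα']
    fin_cases v <;> simp
  have q2 : 4 * QQ T ψ v (!b) - -(α' * u') * (4 * u * (p * α - 1)) ∈ aa k k := by
    have : QQ T ψ v (!b) = α' - p := by
      rw [QQ_nrm hv, B2.QQ, ori_not, hp, bp_p]
      fin_cases v <;> simp [hα']
    convert Ideal.mul_mem_left _ (4 * p) q1 using 1
    rw [this]
    linear_combination (4 * α' * (p * α - 1)) * hu
  obtain ⟨x, x1, x2⟩ := sur ((4 * u) • μ (c (ori b (fr (bp v)))) - β • μ (c (nsg v b)))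
    ((p * α - 1) • μ (c (nsg v b)))
  refine ⟨-(α' * u') • x, fun g hg => ?_⟩
  rw [hB.pi.congr q2, mul_smul, cob_smul]
  congr 1
  refine t.eq_cob hB.two' ha (hc.lam_smul _) (ext _ _ ?_ ?_) (ext _ _ ?_ ?_) hg <;>
    simp only [Pi.smul_apply, map_smul, map_sub, m1, n1, m2, n2, x1, x2, h0]
  · module
  · module
  · module
  · linear_combination (norm := module) -(p * α - 1) • r'

theorem SOk0.nu_of_cob (h : SOk0 T n k lam ψ Q) (hB : Kil k B) (v : Fin 2) (b : Bool)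
    {x : Fin 2 → B} (hc : c (nsg v b) = cob (act T ψ B) x (nsg v b)) : nu T v b c = 0 := by
  by_cases hv : T.Rm v
  · exact nu_rm hv b c
  obtain ⟨μ, ν, u, u', β, α, -, -, -, -, -, n1, -, -, n3⟩ := h.coord hB hv b
  rw [n3, hc, cob, map_sub, n1, sub_self]

/-- The singular part is killed by the Euler factor. -/
theorem SOk.nu_Q (h : SOk T n k lam ψ Q) (hB : Kil k B) (v : Fin 2) (b : Bool)
    (hc : Coc (GK n ⊓ Dec (bq v b)) (act T ψ B) c) : QQ T ψ v b • nu T v b c = 0 :=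
  h.sok0.nu_Q hB v b hc

/-- If the singular part vanishes, a multiple is a coboundary. -/
theorem SOk.nu_cob (h : SOk T n k lam ψ Q) (hB : Kil k B) (v : Fin 2) (b : Bool)
    (hc : Coc (GK n ⊓ Dec (bq v b)) (act T ψ B) c) (h0 : nu T v b c = 0) :
    ∃ x, ∀ g ∈ GK n ⊓ Dec (bq v b), (4 * QQ T ψ v (!b)) • c g = cob (act T ψ B) x g :=
  h.sok0.nu_cob hB v b hc h0

theorem SOk.nu_of_cob (h : SOk T n k lam ψ Q) (hB : Kil k B) (v : Fin 2) (b : Bool)
    {x : Fin 2 → B} (hc : c (nsg v b) = cob (act T ψ B) x (nsg v b)) : nu T v b c = 0 :=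
  h.sok0.nu_of_cob hB v b hc

theorem SOk.Q_cop (h : SOk T n k lam ψ Q) (v : Fin 2) :
    (2 : Lam) ^ 8 ∈ Ideal.span {QQ T ψ v true, QQ T ψ v false} ⊔ aa k k := by
  by_cases hv : T.Rm v
  · rw [QQ_rm hv]
    exact Ideal.mem_sup_left (Ideal.mem_span_pair.2 ⟨2 ^ 8, 0, by ring⟩)
  rw [QQ_nrm hv, QQ_nrm hv]
  have h1 := Ideal.mem_sup_right (S := Ideal.span {B2.QQ ψ v true, B2.QQ ψ v false})
    (h.chr.conj h.nok.pos (h.nok.tm_bq v true).mem)
  have h2 : B2.QQ ψ v true ∈ Ideal.span {B2.QQ ψ v true, B2.QQ ψ v false} ⊔ aa k k :=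
    Ideal.mem_sup_left (Ideal.subset_span (by simp))
  have h3 : B2.QQ ψ v false ∈ Ideal.span {B2.QQ ψ v true, B2.QQ ψ v false} ⊔ aa k k :=
    Ideal.mem_sup_left (Ideal.subset_span (by simp))
  have h4 := sub_mem (sub_mem h1 (Ideal.mul_mem_left _ (B2.QQ ψ v false + ![3, 5] v) h2))
    (Ideal.mul_mem_left _ (![3, 5] v) h3)
  obtain ⟨u, hu⟩ := (xld_unit (p := 3) (by decide)).exists_left_inv
  convert Ideal.mul_mem_left _ (32 * ![1, u] v) h4 using 1
  fin_cases v <;> simp [B2.QQ, ori]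
  · ring
  · linear_combination (-256) * hu

end Pool.Agent.Lib.MP_696deb_nt.B3
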