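import Pool.Agent.Lib.MP_696deb_nt.B3.XLc
import Pool.Agent.Lib.MP_696deb_nt.B3.XLd

/-! The prime of the tower. -/

set_option autoImplicit false

open scoped NNReal Classical
open Finset Matrix NumberTheorySymbols PowerSeries

namespace Pool.Agent.Lib.MP_696deb_nt.B3

open B2

variable {T : Tate} {n k : ℕ} {lam w : Plc} {ψ : Gam → Lam} {Q : Finset Plc} {ty : Plc → Ty}
  {R : Finset (Fin 5)} {B B' : Type} [AddCommGroup B] [Module Lam B] [AddCommGroup B']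
  [Module Lam B'] {c : Gam → Fin 2 → B} {g : Gam}

theorem SOk.a15_lam (h : SOk T n k lam ψ Q) : ∃ u : ℤ, Odd u ∧ a15 lam.p = 8 * u := by
  have h1 : 2 ^ 4 ∣ lam.p + 1 := (pow_dvd_pow 2 (Nat.le_add_left 4 _)).trans h.dvd
  have h2 := T.eight _ lam.prime h.adm.nd30
  have h3 := T.sixteen _ lam.prime h.adm.nd30 (by omega) h.j5
  exact ⟨a15 lam.p / 8, Int.odd_iff.2 (by omega), by omega⟩

/-- The determinant at the prime of the tower. -/
theorem SOk.det_lam (h : SOk T n k lam ψ Q) :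
    ∃ u : ℤ_[2]ˣ, (T.ρ (fq lam) - 1).det = 64 * u ∧ ψ (fq lam) - 1 ∈ aa k k := by
  obtain ⟨u, hu, e⟩ := h.a15_lam
  obtain ⟨t, ht⟩ : 2 ^ 4 ∣ lam.p + 1 := (pow_dvd_pow 2 (Nat.le_add_left 4 _)).trans h.dvd
  have h1 := T.tr lam _ h.adm.nd30 (fr_spec lam)
  have h2 := (T.det (fr lam)).trans (cyc_frob h.adm.ne.1 (fr_spec lam))
  have h3 := xle_unit (u := (2 * t - u) * (2 * t + u))
    (((even_two_mul _).sub_odd hu).mul ((even_two_mul _).add_odd hu))
  refine ⟨h3.unit, ?_, h.chr.dih _ h.adm.fr_notMem⟩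
  have h4 : (lam.p : ℤ_[2]) + 1 = 16 * t := by exact_mod_cast ht
  rw [e, trace_fin_two] at h1
  rw [det_fin_two] at h2
  rw [IsUnit.unit_spec, fq, map_mul, det_fin_two]
  simp only [Matrix.sub_apply, mul_apply, Fin.sum_univ_two, one_apply_eq, ne_eq, zero_ne_one,
    not_false_eq_true, one_apply_ne, one_ne_zero]
  push_cast at h1 ⊢
  generalize T.ρ (fr lam) = A at h1 h2
  linear_combination (A 0 0 * A 1 1 - A 0 1 * A 1 0 + 1 + 16 * t) * (h2 + h4) -
    (A 0 0 + A 1 1 + 8 * u) * h1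

theorem SOk.act_fq (h : SOk T n k lam ψ Q) (hB : Kil k B) (x : Fin 2 → B) :
    act T ψ B (fq lam) x - x = mact B ((T.ρ (fq lam) - 1).map C) x := by
  rw [act_eq, hB.pi.congr (a := ψ (fq lam)) (h.chr.dih _ h.adm.fr_notMem), one_smul, Matrix.map_sub _ (map_sub _),
    mact_sub, Matrix.map_one _ (map_zero _) (map_one _), mact_one]

/-- The tame relation at the prime of the tower. -/
theorem SOk.lam_rel (h : SOk T n k lam ψ Q) (hB : Kil k B) {z : Gam} (hz : Gen lam z)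
    (e : ψ z - (1 + X) ∈ aa k k) : (∀ x, act T ψ B z x = (1 + X : Lam) • x) ∧
      ∀ c, Coc (GK n ⊓ Dec lam) (act T ψ B) c →
        act T ψ B (fq lam) (c z) - c z = (X : Lam) • c (fq lam) := by
  have t := h.adm.tm0 hz
  have ha := (h.chr.act T hB).lo_mono (inf_le_left (b := Dec lam))
  have h1 : ∀ x, act T ψ B z x = (1 + X : Lam) • x := fun x => by
    rw [act_scalar hB (by rw [T.unr lam h.adm.nd30 z hz.1, la_mred_one]), hB.pi.congr e]
  have h2 : ∀ (j : ℕ) x, act T ψ B (z ^ j) x = (1 + X : Lam) ^ j • x := fun j => by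
    induction j with
    | zero => intro x; rw [pow_zero, pow_zero, ha.one, one_smul]
    | succ j ih =>
      intro x
      rw [pow_succ, ha.mul _ (pow_mem t.τ_mem j) _ t.τ_mem, ih, h1, pow_succ, mul_smul]
  refine ⟨h1, fun c hc => ?_⟩
  obtain ⟨l, hl⟩ := Nat.exists_eq_succ_of_ne_zero lam.prime.ne_zero
  have h3 := geom_mem_aa (k := k) (N := (lam.p + 1) * l)
    (((pow_dvd_pow 2 (Nat.le_add_right _ 4)).trans h.dvd).mul_right l)
  have r := t.rel hB.two' ha hc hz.1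
  rw [hc.lo_pow ha t.τ_mem, show lam.p ^ 2 = (lam.p + 1) * l + 1 by rw [hl]; simp; ring] at r
  simp only [h2] at r
  simp only [← sum_smul, sum_range_succ, add_smul, hB.pi _ h3, pow_succ, mul_smul] at r
  have h4 : (1 + X : Lam) ^ ((lam.p + 1) * l) - 1 ∈ aa k k := by
    rw [← geom_sum_mul]
    exact Ideal.mul_mem_right _ _ h3
  simp only [hB.pi.congr h4, one_smul] at r
  linear_combination (norm := module) r

theorem SOk.lam_cob (h : SOk T n k lam ψ Q) (hB : Kil k B)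
    (hc : Coc (GK n ⊓ Dec lam) (act T ψ B) c) :
    ∃ x, ∀ g ∈ GK n ⊓ Dec lam, (64 : Lam) • c g = cob (act T ψ B) x g := by
  obtain ⟨z, hz, e⟩ := h.chr.gen
  obtain ⟨h1, h2⟩ := h.lam_rel hB hz e
  obtain ⟨u, hu, -⟩ := h.det_lam
  refine ⟨(C ((u⁻¹ : ℤ_[2]ˣ) : ℤ_[2]) : Lam) •
    mact B ((T.ρ (fq lam) - 1).adjugate.map C) (c (fq lam)), fun g hg => ?_⟩
  have e2 : (64 : Lam) = C ((u⁻¹ : ℤ_[2]ˣ) : ℤ_[2]) * C (T.ρ (fq lam) - 1).det := by
    rw [← map_mul, hu, mul_left_comm, u.inv_mul, mul_one, map_ofNat]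
  rw [cob_smul, e2, mul_smul]
  congr 1
  refine (h.adm.tm0 hz).eq_cob hB.two' ((h.chr.act T hB).lo_mono inf_le_left) (hc.lam_smul _)
    ?_ ?_ hg
  · rw [h1, add_smul, one_smul, add_sub_cancel_left, ← map_smul, ← h2 c hc, h.act_fq hB,
      (xle_adj _ _).1, Pi.smul_apply]
  · rw [h.act_fq hB, (xle_adj _ _).2, Pi.smul_apply]

theorem SOk.lam_fix (h : SOk T n k lam ψ Q) (hB : Kil k B) {x : Fin 2 → B}
    (hx : act T ψ B (fq lam) x = x) : (64 : Lam) • x = 0 := by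
  obtain ⟨u, hu, -⟩ := h.det_lam
  have e := (xle_adj (T.ρ (fq lam) - 1) x).1
  rw [← h.act_fq hB, hx, sub_self, map_zero, hu, mul_comm, map_mul, mul_smul, map_ofNat] at e
  exact (u.isUnit.map (C : ℤ_[2] →+* Lam)).smul_eq_zero.1 e.symm

/-- Normalisation at the prime of the tower. -/
theorem SOk.norm (h : SOk T n k lam ψ Q) (hB : Kil k B) (hc : c ∈ SU T n lam ψ Q ty B) :
    ∃ x, (64 : Lam) • c - rs (GK n) (cob (act T ψ B) x) ∈ SM T n lam ψ Q ty B := by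
  obtain ⟨x, hx⟩ := h.lam_cob hB (((h.mem_SU hB).1 hc).1.1.lo_mono inf_le_left)
  exact ⟨x, (h.mem_SM hB).2 ⟨sub_mem (Submodule.smul_mem _ _ hc) (h.cob_mem hB x), fun g hg => by
    rw [Pi.sub_apply, Pi.smul_apply, rs_of_mem hg.1, hx g hg, sub_self]⟩⟩

end Pool.Agent.Lib.MP_696deb_nt.B3
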