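import Pool.Agent.Lib.MP_696deb_nt.B2.TW5

/-! The Selmer group over the quadratic field is bounded by those of the two twists, for twists
that may be ramified at two, three and five. -/

set_option autoImplicit false

open scoped NNReal Classical
open Finset Matrix

namespace Pool.Agent.Lib.MP_696deb_nt.B3

open Pool.Agent.Lib.MP_696deb_nt.B2

/-- If the generator of tame inertia acts as minus a unipotent element, all local cocycles are
coboundaries up to the factor sixteen. -/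
theorem tame_neg {M : Type} [AddCommGroup M] {a : Gam → M →+ M} {c : Gam → M} {H : Subgroup Gam}
    {w : Plc} {q k : ℕ} {φ τ : Gam} (hM : ∀ x : M, 2 ^ k • x = 0) (t : Tm H w q φ τ) (hq : Odd q)
    (ha : Act (H ⊓ Dec w) a) (h : Coc (H ⊓ Dec w) a c)
    (hA : ∀ v, a τ (a τ v) = -(2 • a τ v + v)) :
    ∃ y, ∀ g ∈ H ⊓ Dec w, 16 • c g = cob a y g := by
  have p1 : ∀ (j : ℕ) v, a (τ ^ j) v = (-1 : ℤ) ^ j • (v - j • (a τ v + v)) := fun j v => by
    induction j with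
    | zero => simp [ha.one]
    | succ j ih =>
      rw [pow_succ', ha.mul _ t.τ_mem _ (pow_mem t.τ_mem j), ih, map_zsmul, map_sub, map_nsmul,
        map_add, hA, pow_succ]
      module
  obtain ⟨y, hy⟩ : ∃ y, 4 • c τ = a τ y - y :=
    ⟨-(a τ (c τ) + 3 • c τ), by rw [map_neg, map_add, map_nsmul, hA]; module⟩
  have h1 : Coc (H ⊓ Dec w) a (4 • c - cob a y) := (Coc.nsmul h 4).lo_sub (lo_coc_cob ha y)
  obtain ⟨c', hc'⟩ : ∃ c', 4 • c - cob a y = c' := ⟨_, rfl⟩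
  have h2 : c' τ = 0 := by rw [← hc', Pi.sub_apply, Pi.smul_apply, hy, cob, sub_self]
  rw [hc'] at h1
  have h3 := t.rel hM ha h1 t.gen.1
  rw [h2, map_zero, add_zero, t.zero_ine hM ha h1 h2 (pow_mem t.gen.1 q), zero_add, p1,
    hq.neg_one_pow] at h3
  have h4 := congrArg (a τ) h3
  rw [map_zsmul, map_sub, map_nsmul, map_add, hA] at h4
  have h5 : 4 • c' φ = 0 := by
    linear_combination (norm := module) (2 + (q : ℤ)) • h3 + (q : ℤ) • h4
  refine ⟨4 • y, fun g hg => ?_⟩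
  have h6 := t.eq_zero hM ha (Coc.nsmul h1 4) (by rw [Pi.smul_apply, h2, smul_zero]) h5 hg
  rw [Pi.smul_apply, ← hc', Pi.sub_apply, Pi.smul_apply, smul_sub, sub_eq_zero, smul_smul] at h6
  rw [cob, map_nsmul, ← smul_sub]
  exact h6

variable {T : Tate} {d d' e : ℤ} {m n : ℕ} {w : Plc} {g τ : Gam} {x : Gam → Vm m}

/-- At three and five all cocycles are coboundaries up to a bounded factor. -/
theorem lt_bad (hw : w.p = 3 ∨ w.p = 5) (h : Coc ⊤ (tv T d m) x) :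
    LTv T d m (Dec w) (64 • x) := by
  obtain ⟨B, hB, -, h1, h2⟩ := T.mult w hw
  have w2 : w.p ≠ 2 := by omega
  obtain ⟨σ, hσ⟩ := exists_gen w2
  obtain ⟨φ, hφ⟩ := exists_frob w
  obtain ⟨c, e1, c1⟩ := h1 σ hσ.1
  obtain ⟨β, e2⟩ := h2 φ hφ
  have t := tm_split (H := ⊤) isOpen_univ w2 le_top hφ hσ
  obtain ⟨ε, e3, hε⟩ : ∃ ε : ℤ, T.ρ φ * B = B * !![(ε : ℤ_[2]) * w.p, β; 0, ε] ∧
      (ε = 1 ∨ ε = -1) := by
    rcases hw with k | k
    · exact ⟨-1, by rw [e2, if_pos k, k]; norm_num, .inr rfl⟩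
    · exact ⟨1, by rw [e2, if_neg (by omega), k]; norm_num, .inl rfl⟩
  obtain ⟨f, hf⟩ : ∃ f : Vm m →+ Vm m, ∀ v, f v = mred m B *ᵥ v :=
    ⟨(mulVecLin (mred m B)).toAddMonoidHom, fun _ => rfl⟩
  have fl : ∀ v, mred m B.adjugate *ᵥ f v = v := fun v => by
    rw [hf, mulVec_mulVec, ← mred_mul, adjugate_mul, hB, one_smul, mred_one, one_mulVec]
  have fi : Function.Injective f := Function.LeftInverse.injective fl
  have fs : Function.Surjective f := Finite.surjective_of_injective fi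
  obtain ⟨c', hc'⟩ : ∃ c', PadicInt.toZModPow m c = c' := ⟨_, rfl⟩
  obtain ⟨β', hβ'⟩ : ∃ β', (chi d φ : ℤ) * PadicInt.toZModPow m β = β' := ⟨_, rfl⟩
  obtain ⟨α, hα⟩ : ∃ α : ZMod (2 ^ m), (((chi d φ : ℤ) * ε : ℤ) : ZMod _) = α := ⟨_, rfl⟩
  have ha := act_tv T d m
  have a0 : ∀ v, mred m (T.ρ σ) *ᵥ f v = f ![v 0 + 4 * c' * v 1, v 1] := fun v => by
    rw [hf, hf, mulVec_mulVec, ← mred_mul, e1, mred_mul, ← mulVec_mulVec]
    refine congrArg _ (funext fun i => ?_)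
    fin_cases i <;> simp [mred, mulVec, dotProduct, map_ofNat, hc']
  rcases Int.units_eq_one_or (chi d σ) with hχ | hχ
  swap
  · have aσ : ∀ v, tv T d m σ (f v) = -f ![v 0 + 4 * c' * v 1, v 1] := fun v => by
      rw [tv_apply, hχ, a0, Units.val_neg, Units.val_one, neg_one_smul]
    obtain ⟨y, hy⟩ := tame_neg Vm_kill t (w.prime.odd_of_ne_two w2) (ha _) (h.lo_mono le_top)
      fun v => by
        obtain ⟨v, rfl⟩ := fs v
        rw [aσ, map_neg, aσ, neg_neg, smul_neg, ← map_nsmul, neg_add_eq_sub, neg_sub, ← map_sub]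
        exact congrArg _ (funext fun i => by fin_cases i <;> simp <;> ring)
    refine ⟨T.emb m (4 • y), fun g hg => ?_⟩
    rw [← emb_tv, ← map_sub, map_nsmul (tv T d m g), ← smul_sub, ← cob, ← hy g ⟨trivial, hg⟩,
      smul_smul]
    rfl
  have aσ : ∀ v, tv T d m σ (f v) = f ![v 0 + 4 * c' * v 1, v 1] := fun v => by
    rw [tv_apply, hχ, a0, Units.val_one, one_smul]
  have aφ : ∀ v, tv T d m φ (f v) = f ![α * w.p * v 0 + β' * v 1, α * v 1] := fun v => by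
    rw [tv_apply, hf, mulVec_mulVec, ← mred_mul, e3, mred_mul, ← mulVec_mulVec, ← hf, ← map_zsmul]
    refine congrArg _ (funext fun i => ?_)
    fin_cases i <;> simp [mred, ← hα, ← hβ'] <;> ring
  obtain ⟨y, hy⟩ := fs (x φ)
  obtain ⟨z, hz⟩ := fs (x σ)
  have p1 : ∀ (k : ℕ) v, tv T d m (σ ^ k) (f v) = f ![v 0 + 4 * c' * k * v 1, v 1] := fun k v => by
    induction k with
    | zero =>
      rw [pow_zero, (ha ⊤).one]
      exact congrArg _ (funext fun i => by fin_cases i <;> simp)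
    | succ k ih =>
      rw [pow_succ', (ha ⊤).mul _ trivial _ trivial, ih, aσ]
      exact congrArg _ (funext fun i => by fin_cases i <;> simp; ring)
  have p2 : ∀ k : ℕ, ∃ r, x (σ ^ k) = f ![k * z 0 + r * z 1, k * z 1] := fun k => by
    induction k with
    | zero =>
      refine ⟨0, ?_⟩
      rw [pow_zero, h.lo_one (ha ⊤), ← map_zero f]
      exact congrArg _ (funext fun i => by fin_cases i <;> simp)
    | succ k ih =>
      obtain ⟨r, ih⟩ := ih
      refine ⟨r + 4 * c' * k, ?_⟩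
      rw [pow_succ', h.2 _ trivial _ trivial, ih, aσ, ← hz, ← map_add]
      exact congrArg _ (funext fun i => by fin_cases i <;> simp <;> ring)
  obtain ⟨r, hr⟩ := p2 w.p
  have rel := t.rel Vm_kill (ha _) (h.lo_mono le_top) hσ.1
  rw [hr, ← hy, ← hz, aφ, p1, ← map_add, ← map_add] at rel
  obtain ⟨q, hq⟩ := exists_inv_odd m (w.prime.odd_of_ne_two w2)
  obtain ⟨ci, hci⟩ := (hc' ▸ (c1 hσ).map (PadicInt.toZModPow m)).exists_left_inv
  obtain ⟨k, hk⟩ : ∃ k, k * ((α - w.p) * (α * w.p - 1)) = 16 := by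
    obtain ⟨s, hs⟩ := exists_inv_odd m (p := 9) (by decide)
    have : α = 1 ∨ α = -1 := by
      rcases Int.units_eq_one_or (chi d φ) with k | k <;> rcases hε with k' | k' <;>
        simp [← hα, k, k']
    rcases hw with k | k <;> rcases this with rfl | rfl <;> rw [k] <;> push_cast at hs ⊢
    exacts [⟨-4, by ring⟩, ⟨1, by ring⟩, ⟨-1, by ring⟩, ⟨4 * s, by linear_combination 16 * hs⟩]
  obtain ⟨m0, m1, k1, k2, k3, k4⟩ := tw_alg (congrFun (fi rel) 1) (congrFun (fi rel) 0) hq hci hk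
  refine ⟨T.emb m (f ![m0, m1]), fun g hg => ?_⟩
  rw [t.eq_cob Vm_kill (ha _) ((h.lo_mono le_top).nsmul 64) (x := f ![m0, m1]) ?_ ?_ ⟨trivial, hg⟩,
    cob, map_sub, emb_tv]
  · rw [Pi.smul_apply, ← hz, aσ, ← map_nsmul, ← map_sub]
    exact congrArg _ (funext fun i => by fin_cases i <;> simp [k1, k2])
  · rw [Pi.smul_apply, ← hy, aφ, ← map_nsmul, ← map_sub]
    exact congrArg _ (funext fun i => by fin_cases i <;> simp [k3, k4])

/-- Two twists that become isomorphic over the quadratic field and are unramified there away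
from thirty. -/
structure TwPr (n : ℕ) (d d' : ℤ) : Prop where
  pos : 0 < n
  eq : ∀ g ∈ GK n, chi d' g = chi d g
  ne : ∀ g ∉ GK n, chi d' g = -chi d g
  ine : ∀ w : Plc, ¬ w.p ∣ 30 → ∀ g ∈ GK n ⊓ Ine w, chi d g = 1

theorem TwPr.of_ctx {a b f : ℤ} (hc : Ctx d d' n a b) (h0 : f ≠ 0)
    (hf : ∀ p : ℕ, p.Prime → (p : ℤ) ∣ f → p ∣ 30) : TwPr n (f * d) (f * d') := by
  have h1 := hc.d4
  have h2 := hc.d'_mod
  have e1 := chi_mul h0 (show d ≠ 0 by omega)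
  have e2 := chi_mul h0 (show d' ≠ 0 by omega)
  refine ⟨hc.pos, fun g hg => by rw [e1, e2, hc.chi_eq hg],
    fun g hg => by rw [e1, e2, hc.chi_ne hg, mul_neg], fun w hw g hg => ?_⟩
  rw [e1, hc.chi_ine hg, chi_ine (mu0_ndvd (ne_two_of hw) fun k => hw (hf _ w.prime k)) hg.2,
    mul_one]

theorem TwPr.tv_ine (hc : TwPr n d d') (hw : ¬ w.p ∣ 30) (hg : g ∈ GK n ⊓ Ine w) (v : Vm m) :
    tv T d m g v = v := by
  rw [tv_apply, hc.ine w hw g hg, T.unr w hw g hg.2, mred_one, one_mulVec, Units.val_one, one_smul]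

/-- Unramified cocycles are locally trivial at the good places. -/
theorem TwPr.lt_unr (hc : TwPr n d d') (hw : ¬ w.p ∣ 30) (h : Coc (GK n ⊓ Dec w) (tv T d m) x)
    (h0 : ∀ σ ∈ GK n ⊓ Ine w, x σ = 0) : LTv T d m (GK n ⊓ Dec w) x := by
  obtain ⟨L⟩ := exists_LD (op_GK n) w
  obtain ⟨k, y, e⟩ := exists_pre T (det_LD T hw L (chi d L.φ)) (x L.φ)
  refine lt_of_LD L h (S := T.emb k y) ?_ fun σ hσ => ?_
  · rw [← e, mred_smul_sub, map_sub, ← tv_apply, emb_tv]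
  · rw [h0 σ hσ, map_zero, ← emb_tv, hc.tv_ine hw hσ, sub_self]

theorem TwPr.sel (hc : TwPr n d d') (h : KS T n d m x) (he : ∀ g ∈ GK n, chi e g = chi d g)
    (hτ : τ ∉ GK n) : hSel e fun g => T.emb m ((2 • 64 • cor n τ (tv T e m) x) g) := by
  have h1 := coc_cor (act_tv T e m ⊤) (c := x)
    ⟨h.z.1.1, fun g hg u hu => by rw [tv_congr (he g hg), h.z.1.2 g hg u hu]⟩ hτ
  refine hSel_of (Coc.nsmul h1 64) fun w => ?_
  by_cases hw : w.p = 3 ∨ w.p = 5
  · exact (lt_bad hw h1).nsmul 2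
  refine lt_double ((Coc.nsmul h1 64).lo_mono le_top)
    ((lt_cor he (fun v hv => ?_) rfl τ).nsmul 64)
  by_cases h2 : w.p = 2
  · exact h.two v (hv.trans h2)
  · have := hv ▸ not_dvd30_of h2 hw
    exact hc.lt_unr this (h.z.1.lo_mono inf_le_left) (h.unr v this)

theorem TwPr.cor_add (hc : TwPr n d d') (hτ : τ ∉ GK n) (hg : g ∈ GK n) :
    cor n τ (tv T d m) x g + cor n τ (tv T d' m) x g = 2 • x g := by
  rw [cor_of_mem hg, cor_of_mem hg, tv_apply, tv_apply, hc.ne τ hτ, Units.val_neg, neg_smul,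
    two_nsmul]
  abel

/-- The bound for the Selmer group over the quadratic field. -/
theorem TwPr.cork_link (hc : TwPr n d d') (T : Tate) (h : Cork d) (h' : Cork d') (r : ℕ) :
    ∃ C : ℕ, ∀ (j : ℕ) (τ : Gam), τ ∉ GK n →
      (∀ v : Vm j, tv T d j (τ * τ) v = v → 2 ^ r • v = 0) → ∀ s : Finset (Gam → Vm j),
      (∀ x ∈ s, KS T n d j x ∧ x (τ * τ) = 0) → s.card ≤ C * 4 ^ j := by
  obtain ⟨C, hC⟩ := cork_zero T h
  obtain ⟨C', hC'⟩ := cork_zero T h'
  obtain ⟨t, -, -, ht⟩ := exists_reps (op_GK n) {2, 3, 5}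
  refine ⟨(Nat.card (Zu (GK n) B2.tr t) ^ 2) ^ 8 * (4 ^ r * C * (4 ^ r * C')),
    fun j τ hτ hv s hs => ?_⟩
  obtain ⟨F, hF⟩ : ∃ F : ℤ → (Gam → Vm j) → Gam → EE,
    ∀ e x, F e x = fun g => T.emb j ((2 • 64 • cor n τ (tv T e j) x) g) := ⟨_, fun _ _ => rfl⟩
  have k1 : ∀ e, (∀ g ∈ GK n, chi e g = chi d g) → ∀ ξ ∈ s.image (F e),
      hSel e ξ ∧ (∀ g, 2 ^ j • ξ g = 0) ∧ ξ (τ * τ) = 0 := fun e h1 ξ hξ => by
    obtain ⟨x, hx, rfl⟩ := mem_image.1 hξ
    rw [hF]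
    refine ⟨hc.sel (hs x hx).1 h1 hτ, fun g => emb_kill T _, ?_⟩
    simp only [Pi.smul_apply, cor_sq hτ (hs x hx).2, smul_zero, map_zero]
  have k2 := hC j r _ hv _ (k1 d fun _ _ => rfl)
  have k3 := hC' j r (τ * τ) (by rwa [tv_congr (hc.eq _ (mul_mem_GK hτ hτ))]) _
    (k1 d' hc.eq)
  have k4 : ∀ x ∈ s, x ∈ Zu (GK n) (tv T d j) t := fun x hx =>
    ⟨(hs x hx).1.z, fun w hw => (hs x hx).1.unr w (not_dvd30_of
      (fun k => ht w (by simp [k]) hw) fun k => ht w (by simp [k]) hw)⟩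
  have k5 : ∀ x g, g ∈ GK n → F d x g + F d' x g = T.emb j (2 ^ 8 • x g) := fun x g hg => by
    simp only [hF, Pi.smul_apply]
    rw [← map_add, ← smul_add, ← smul_add, hc.cor_add hτ hg, smul_smul, smul_smul]
    rfl
  have k6 := card_fib (card_tors _ (card_two T hc.pos t) 8) s (fun x => (F d x, F d' x))
    fun x hx y hy e => ⟨sub_mem (k4 x hx) (k4 y hy), funext fun g => by
      rw [Pi.smul_apply, Pi.sub_apply, smul_sub, Pi.zero_apply, sub_eq_zero]
      by_cases hg : g ∈ GK n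
      · refine T.inj j ?_
        rw [← k5 x g hg, ← k5 y g hg, (Prod.mk.inj e).1, (Prod.mk.inj e).2]
      · rw [(hs x hx).1.z.2 g hg, (hs y hy).1.z.2 g hg]⟩
  refine k6.trans ?_
  rw [mul_assoc]
  refine Nat.mul_le_mul_left _ ((card_le_card (t := s.image (F d) ×ˢ s.image (F d'))
    fun z hz => ?_).trans ?_)
  · simp only [mem_image] at hz
    obtain ⟨x, hx, rfl⟩ := hz
    exact mem_product.2 ⟨mem_image_of_mem _ hx, mem_image_of_mem _ hx⟩
  rw [card_product]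
  refine (Nat.mul_le_mul k2 k3).trans (le_of_eq ?_)
  rw [show 4 ^ j = 2 ^ j * 2 ^ j from mul_pow 2 2 j]
  ring

theorem TwPr.unr_conj (hc : TwPr n d d') (h : Coc (GK n) (tv T d m) x) (hw : ¬ w.p ∣ 30) {u : Gam}
    (hu : u ∈ GK n) (h0 : ∀ σ ∈ GK n ⊓ Ine w, x σ = 0) {σ : Gam}
    (hσ : σ ∈ GK n ⊓ Ine (u • w)) : x σ = 0 := by
  have h1 := conj_GK hσ.1 u
  have h2 := (h.2 σ hσ.1 u hu).symm.trans ((congrArg x (by group)).trans (h.2 u hu _ h1))
  rwa [h0 _ ⟨h1, mem_Ine_smul.1 hσ.2⟩, map_zero, add_zero, hc.tv_ine (w := u • w) hw hσ,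
    add_eq_right] at h2

end Pool.Agent.Lib.MP_696deb_nt.B3
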