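import Pool.Agent.Lib.MP_696deb_nt.B3.LA

/-! Bookkeeping for Selmer structures. -/

set_option autoImplicit false

open scoped NNReal Classical
open Finset Matrix NumberTheorySymbols PowerSeries

namespace Pool.Agent.Lib.MP_696deb_nt.B3

open B2

variable {T : Tate} {n k : ℕ} {lam w : Plc} {ψ : Gam → Lam} {Q : Finset Plc} {ty : Plc → Ty}
  {R : Finset (Fin 5)} {B B' : Type} [AddCommGroup B] [Module Lam B] [AddCommGroup B']
  [Module Lam B'] {c : Gam → Fin 2 → B} {g : Gam}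

/-- The members of a Selmer group. -/
theorem SOk.mem_SelB (h : SOk T n k lam ψ Q) (hB : Kil k B) {z : Co B} :
    z ∈ SelB T n lam ψ ⟨R, Q, ty⟩ B ↔ z.1 ∈ Z1 (GK n) (act T ψ B) ∧
      (∀ w : Plc, ¬ w.p ∣ 30 → w.p ≠ lam.p → (∀ v ∈ Q, w.p ≠ v.p) → ∀ σ ∈ GK n ⊓ Ine w, z.1 σ = 0) ∧
      (∀ i ∈ R, ∀ g ∈ GK n ⊓ Dec (sp lam i), z.1 g = cob (act T ψ B) (z.2 (sp lam i)) g) ∧
      (∀ w ∉ R.image (sp lam), z.2 w = 0) ∧ KumC T (GK n ⊓ Dec w2) z.1 ∧
      ∀ w ∈ Q, (z.1 (fq w), z.1 (gn w)) ∈ (ty w).cond B := by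
  refine and_congr_right fun h1 => and_congr
    (forall_congr' fun w => by rw [h.away, and_imp, and_imp]) (and_congr forall_mem_image
      (and_congr_right fun _ => (forall_mem_insert _ _ _).trans (and_congr ?_ ?_)))
  · rw [Lc, if_pos rfl, rs_mem_LK]
  · refine forall₂_congr fun w hw => ?_
    have t := (h.deep w hw).adm.tm_gn h.nok
    rw [Lc, if_neg fun e : w = w2 => h.w2_notMem (e ▸ hw), mem_Ldp, rs_of_mem t.φ_mem,
      rs_of_mem t.τ_mem]
    exact and_iff_right (h1.1.lo_mono inf_le_left).lo_rs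

theorem SOk.mem_SU (h : SOk T n k lam ψ Q) (hB : Kil k B) :
    c ∈ SU T n lam ψ Q ty B ↔ c ∈ Z1 (GK n) (act T ψ B) ∧
      (∀ w : Plc, ¬ w.p ∣ 30 → w.p ≠ lam.p → (∀ v ∈ Q, w.p ≠ v.p) → ∀ σ ∈ GK n ⊓ Ine w, c σ = 0) ∧
      KumC T (GK n ⊓ Dec w2) c ∧ ∀ w ∈ Q, (c (fq w), c (gn w)) ∈ (ty w).cond B := by
  rw [SU, mem_SR0, h.mem_SelB hB]
  exact ⟨fun ⟨a1, a2, _, _, a5⟩ => ⟨a1, a2, a5⟩,
    fun ⟨a1, a2, a5⟩ => ⟨a1, a2, fun i hi => absurd hi (notMem_empty i), fun _ _ => rfl, a5⟩⟩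

theorem SOk.mem_SM (h : SOk T n k lam ψ Q) (hB : Kil k B) :
    c ∈ SM T n lam ψ Q ty B ↔ c ∈ SU T n lam ψ Q ty B ∧ ∀ g ∈ GK n ⊓ Dec lam, c g = 0 := by
  rw [SM, mem_SR0, h.mem_SelB hB, h.mem_SU hB]
  refine ⟨fun ⟨a1, a2, a3, _, a5⟩ => ⟨⟨a1, a2, a5⟩, fun g hg => ?_⟩,
    fun ⟨⟨a1, a2, a5⟩, a3⟩ => ⟨a1, a2, fun i hi g hg => ?_, fun _ _ => rfl, a5⟩⟩
  · exact (a3 4 (mem_singleton_self _) g hg).trans (xlc_cob_zero _ g)
  · obtain rfl := mem_singleton.1 hi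
    exact (a3 g hg).trans (xlc_cob_zero _ g).symm

/-- An unramified condition can be dropped. -/
theorem SOk.insert_ur (h : SOk T n k lam ψ (insert w Q)) (hB : Kil k B) (hw : w ∉ Q)
    {ty' : Plc → Ty} (h1 : ty' w = .ur) (h2 : ∀ v ∈ Q, ty' v = ty v) :
    SelB T n lam ψ ⟨R, insert w Q, ty'⟩ B = SelB T n lam ψ ⟨R, Q, ty⟩ B := by
  have hw' := mem_insert_self w Q
  have d := h.deep w hw'
  have t := d.adm.tm_gn h.nok
  have ha := h.chr.act T hB
  ext z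
  rw [h.mem_SelB hB, (h.mono (subset_insert w Q)).mem_SelB hB]
  refine and_congr_right fun a1 => ⟨fun ⟨a2, a3, a4, a5, a6⟩ => ⟨fun v b1 b2 b3 σ hσ => ?_, a3, a4,
    a5, fun v hv => h2 v hv ▸ a6 v (mem_insert_of_mem hv)⟩,
    fun ⟨a2, a3, a4, a5, a6⟩ => ⟨fun v b1 b2 b3 => a2 v b1 b2 fun u hu =>
      b3 u (mem_insert_of_mem hu), a3, a4, a5, fun v hv => ?_⟩⟩
  · by_cases e : v.p = w.p
    · have b4 := a6 w hw'
      rw [h1] at b4
      obtain ⟨g, hg, rfl⟩ := conj_of_inert e (fr_spec w).1 d.adm.fr_notMem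
      have b5 : g⁻¹ * σ * g ∈ Ine w := mem_Ine_smul.1 hσ.2
      have b6 := t.ine_le b5
      have b7 : z.1 (g⁻¹ * σ * g) = 0 :=
        t.zero_ine hB.two' (ha.lo_mono inf_le_left) (a1.1.lo_mono inf_le_left) b4.2 b5
      have b8 : σ = g * ((g⁻¹ * σ * g) * g⁻¹) := by group
      rw [b8, a1.1.2 g hg _ (mul_mem b6.1 (inv_mem hg)), a1.1.2 _ b6.1 _ (inv_mem hg), b7, zero_add,
        h.triv hB hw' b6, ← a1.1.2 g hg _ (inv_mem hg), mul_inv_cancel, a1.1.lo_one ha]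
    · refine a2 v b1 b2 (fun u hu => ?_) σ hσ
      rcases mem_insert.1 hu with rfl | hu
      · exact e
      · exact b3 u hu
  · rcases mem_insert.1 hv with rfl | hv
    · rw [h1]
      refine ⟨trivial, a2 v (d.adm.2 _ v.prime dvd_rfl).1 d.ne (fun u hu e => hw ?_) _
        ⟨t.τ_mem.1, t.gen.1⟩⟩
      rw [h.inj v hw' u (mem_insert_of_mem hu) e]
      exact hu
    · rw [h2 v hv]
      exact a6 v hv

/-- Coboundaries satisfy all conditions. -/
theorem SOk.cob_mem (h : SOk T n k lam ψ Q) (hB : Kil k B) (x : Fin 2 → B) :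
    rs (GK n) (cob (act T ψ B) x) ∈ SU T n lam ψ Q ty B := by
  rw [h.mem_SU hB]
  refine ⟨(lo_coc_cob (h.chr.act T hB) x).lo_rs, fun w b1 b2 b3 σ hσ => ?_,
    (KumC.cob (h.tact hB) x).congr fun g hg => rs_of_mem hg.1 _, fun w hw => ?_⟩
  · rw [rs_of_mem hσ.1, cob, (h.good hB (h.away.2 ⟨b1, b2, b3⟩)).2 σ hσ, sub_self]
  · have t := (h.deep w hw).adm.tm_gn h.nok
    rw [rs_of_mem t.φ_mem.1, rs_of_mem t.τ_mem.1, cob, cob, h.triv hB hw t.φ_mem,
      h.triv hB hw t.τ_mem, sub_self]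
    exact zero_mem _

theorem SOk.diag_mem (h : SOk T n k lam ψ Q) (hB : Kil k B) (x : Fin 2 → B) :
    ((rs (GK n) (cob (act T ψ B) x), fun w => if w ∈ R.image (sp lam) then x else 0) : Co B) ∈
      SelB T n lam ψ ⟨R, Q, ty⟩ B := by
  obtain ⟨a1, a2, a5⟩ := (h.mem_SU hB).1 (h.cob_mem (ty := ty) hB x)
  rw [h.mem_SelB hB]
  refine ⟨a1, a2, fun i hi g hg => ?_, fun w hw => if_neg hw, a5⟩
  change rs (GK n) _ g = cob _ (if sp lam i ∈ R.image (sp lam) then x else 0) g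
  rw [if_pos (mem_image_of_mem _ hi), rs_of_mem hg.1]

/-- Functoriality. -/
theorem SelB_map (f : B →ₗ[Lam] B') {s : Str} {z : Co B} (hz : z ∈ SelB T n lam ψ s B) :
    ((fun g i => f (z.1 g i), fun w i => f (z.2 w i)) : Co B') ∈ SelB T n lam ψ s B' := by
  obtain ⟨h1, h2, h3, h4, h5⟩ := hz
  refine ⟨xlc_Z1_map f h1, fun w hw σ hσ => funext fun i => ?_, fun w hw g hg => ?_,
    fun w hw => funext fun i => ?_, fun w hw => ?_⟩
  · change f (z.1 σ i) = 0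
    rw [h2 w hw σ hσ]; exact map_zero f
  · change (fun i => f (z.1 g i)) = act T ψ B' g (fun i => f (z.2 w i)) - fun i => f (z.2 w i)
    rw [← act_map, h3 w hw g hg]
    exact funext fun i => map_sub f _ _
  · change f (z.2 w i) = 0
    rw [h4 w hw]; exact map_zero f
  have e : rs (GK n ⊓ Dec w) (fun g i => f (z.1 g i)) = fun g i => f (rs (GK n ⊓ Dec w) z.1 g i) :=
    funext fun g => by
      by_cases k : g ∈ GK n ⊓ Dec w
      · rw [rs_of_mem k, rs_of_mem k]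
      · rw [rs_of_notMem k, rs_of_notMem k]
        exact funext fun i => (map_zero f).symm
  have k := h5 w hw
  change rs (GK n ⊓ Dec w) (fun g i => f (z.1 g i)) ∈ _
  rw [e]
  unfold Lc at k ⊢
  split_ifs at k ⊢
  · exact ⟨k.1.map f.toAddMonoidHom, fun g hg => funext fun i =>
      (congrArg f (congrFun (k.2 g hg) i)).trans (map_zero f)⟩
  · exact ⟨xlc_Z1_map f k.1, xlc_cond_map f _ k.2⟩

theorem SR0_map (f : B →ₗ[Lam] B') {s : Str} (hc : c ∈ SR0 T n lam ψ s B) :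
    (fun g i => f (c g i)) ∈ SR0 T n lam ψ s B' := by
  have h := SelB_map f (mem_SR0 T n lam ψ |>.1 hc)
  have e : (fun (w : Plc) (i : Fin 2) => f ((0 : Plc → Fin 2 → B) w i)) = 0 :=
    funext fun _ => funext fun _ => map_zero f
  rw [mem_SR0, ← e]
  exact h

/-- The Selmer group only depends on the character modulo the annihilator. -/
theorem SelB_congr' {T' : Tate} (hT : T'.toTate = T.toTate)
    (h2 : ∀ g ∈ GK n ⊓ Dec w2, chi T.f g = chi T'.f g) {ψ' : Gam → Lam}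
    (h : ∀ g ∈ GK n, ∀ y : B, (ψ g - ψ' g) • y = 0) (s : Str) :
    SelB T n lam ψ s B = SelB T' n lam ψ' s B := by
  have e : ∀ g ∈ GK n, act T ψ B g = act T' ψ' B g := fun g hg => hT ▸ act_congr (h g hg)
  have e2 : Lc B T n ψ s.ty = Lc B T' n ψ' s.ty := funext fun w => by
    rw [Lc, Lc, Ldp, Ldp, xlc_Z1_congr (D := GK n ⊓ Dec w) fun g hg => e g hg.1]
    split_ifs with hw
    · rw [hw, LK_twist hT h2]
    · rfl
  rw [SelB, SelB, e2]
  refine AddSubgroup.ext fun z => and_congr (by rw [xlc_Z1_congr e]) (and_congr_right fun _ =>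
    and_congr_left fun _ => forall₂_congr fun w _ => forall₂_congr fun g hg => ?_)
  rw [cob, cob, e g hg.1]

theorem SelB_congr {ψ' : Gam → Lam} (h : ∀ g ∈ GK n, ∀ y : B, (ψ g - ψ' g) • y = 0) (s : Str) :
    SelB T n lam ψ s B = SelB T n lam ψ' s B := SelB_congr' rfl (fun _ _ => rfl) h s

/-- The diagonal classes. -/
noncomputable def xlc_dg (h : SOk T n k lam ψ Q) (hB : Kil k B) (R : Finset (Fin 5))
    (ty : Plc → Ty) : (Fin 2 → B) →+ SelB T n lam ψ ⟨R, Q, ty⟩ B :=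
  AddMonoidHom.mk' (fun x => ⟨_, h.diag_mem hB x⟩) fun x y => Subtype.ext (Prod.ext
    (by
      change rs (GK n) (cob _ (x + y)) = rs (GK n) (cob _ x) + rs (GK n) (cob _ y)
      rw [← map_add]
      refine congrArg _ (funext fun g => ?_)
      rw [Pi.add_apply, cob, cob, cob, map_add, add_sub_add_comm])
    (funext fun w => by
      change (if w ∈ R.image (sp lam) then x + y else 0) =
        (if w ∈ R.image (sp lam) then x else 0) + if w ∈ R.image (sp lam) then y else 0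
      split_ifs
      · rfl
      · rw [add_zero]))

theorem xlc_dg_snd (h : SOk T n k lam ψ Q) (hB : Kil k B) {i : Fin 5} (hi : i ∈ R)
    (x : Fin 2 → B) : (xlc_dg h hB R ty x).1.2 (sp lam i) = x := if_pos (mem_image_of_mem _ hi)

theorem SOk.card_SM (h : SOk T n k lam ψ Q) (hB : Kil k B) :
    Nat.card (SelB T n lam ψ ⟨{4}, Q, ty⟩ B) =
      Nat.card (SM T n lam ψ Q ty B) * Nat.card B ^ 2 := by
  have h4 : (4 : Fin 5) ∈ ({4} : Finset (Fin 5)) := mem_singleton_self _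
  have e : ∀ z : SelB T n lam ψ ⟨{4}, Q, ty⟩ B,
      (z - xlc_dg h hB {4} ty (z.1.2 (sp lam 4))).1.2 = 0 := fun z => funext fun w => by
    change z.1.2 w - (xlc_dg h hB {4} ty (z.1.2 (sp lam 4))).1.2 w = 0
    by_cases hw : w ∈ ({4} : Finset (Fin 5)).image (sp lam)
    · obtain ⟨i, hi, rfl⟩ := mem_image.1 hw
      obtain rfl := mem_singleton.1 hi
      rw [xlc_dg_snd h hB h4, sub_self]
    · rw [z.2.2.2.2.1 w hw, (xlc_dg h hB {4} ty _).2.2.2.2.1 w hw, sub_self]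
  rw [← xlc_card2, ← Nat.card_prod]
  refine Nat.card_congr (Equiv.ofBijective (fun p : SM T n lam ψ Q ty B × (Fin 2 → B) =>
    (⟨(p.1.1, 0), p.1.2⟩ : SelB T n lam ψ ⟨{4}, Q, ty⟩ B) + xlc_dg h hB {4} ty p.2)
      ⟨fun p q hpq => ?_, fun z => ?_⟩).symm
  · have e1 : p.2 = q.2 := by
      have e2 := congrArg (fun z : SelB T n lam ψ ⟨{4}, Q, ty⟩ B => z.1.2 (sp lam 4)) hpq
      change 0 + (xlc_dg h hB {4} ty p.2).1.2 (sp lam 4) =
        0 + (xlc_dg h hB {4} ty q.2).1.2 (sp lam 4) at e2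
      rwa [xlc_dg_snd h hB h4, xlc_dg_snd h hB h4, zero_add, zero_add] at e2
    simp only [e1, add_left_inj] at hpq
    exact Prod.ext (Subtype.ext (congrArg (fun z => z.1.1) hpq)) e1
  · have e1 : ((z - xlc_dg h hB {4} ty (z.1.2 (sp lam 4))).1.1, 0) =
        (z - xlc_dg h hB {4} ty (z.1.2 (sp lam 4))).1 := Prod.ext rfl (e z).symm
    refine ⟨(⟨(z - xlc_dg h hB {4} ty (z.1.2 (sp lam 4))).1.1, ?_⟩, z.1.2 (sp lam 4)), ?_⟩
    · rw [SM, mem_SR0, e1]
      exact (z - xlc_dg h hB {4} ty (z.1.2 (sp lam 4))).2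
    · exact eq_sub_iff_add_eq.1 (Subtype.ext e1)

/-- Rigid Selmer groups are left exact. -/
theorem SOk.card_mono (h : SOk T n k lam ψ Q) (hB : Kil k B') (hR : R.Nonempty)
    {f : B →ₗ[Lam] B'} (hf : Function.Injective f) [Finite (SelB T n lam ψ ⟨R, Q, ty⟩ B')] :
    Nat.card (SelB T n lam ψ ⟨R, Q, ty⟩ B) * Nat.card B' ^ 2 ≤
      Nat.card (SelB T n lam ψ ⟨R, Q, ty⟩ B') * Nat.card B ^ 2 := by
  obtain ⟨i, hi⟩ := hR
  have f1 : Finite (Fin 2 → B') := Finite.of_injective (xlc_dg h hB R ty) fun x y e => by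
    rw [← xlc_dg_snd (ty := ty) h hB hi x, e, xlc_dg_snd h hB hi]
  have f2 : Finite (Fin 2 → B) := Finite.of_injective (fun (x : Fin 2 → B) j => f (x j))
    fun x y e => funext fun j => hf (congrFun e j)
  let F : SelB T n lam ψ ⟨R, Q, ty⟩ B →+ SelB T n lam ψ ⟨R, Q, ty⟩ B' :=
    AddMonoidHom.mk' (fun z => ⟨_, SelB_map f z.2⟩) fun z z' => Subtype.ext (Prod.ext
      (funext fun _ => funext fun _ => map_add f _ _)
      (funext fun _ => funext fun _ => map_add f _ _))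
  have hF : Function.Injective F := fun z z' e => Subtype.ext (Prod.ext
    (funext fun g => funext fun j => hf (congrArg (fun u => u.1.1 g j) e))
    (funext fun g => funext fun j => hf (congrArg (fun u => u.1.2 g j) e)))
  let Φ := F.coprod (xlc_dg h hB R ty)
  have h1 : Nat.card Φ.ker ≤ Nat.card (Fin 2 → B) := by
    refine Nat.card_le_card_of_injective (fun p => p.1.1.1.2 (sp lam i)) fun p q e => ?_
    have key : ∀ p : Φ.ker, p.1.2 = fun j => -f (p.1.1.1.2 (sp lam i) j) := fun p => by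
      have e1 := congrArg (fun u => u.1.2 (sp lam i)) (AddMonoidHom.mem_ker.1 p.2)
      change (fun j => f (p.1.1.1.2 (sp lam i) j)) + (xlc_dg h hB R ty p.1.2).1.2 (sp lam i) =
        0 at e1
      rw [xlc_dg_snd h hB hi] at e1
      exact eq_neg_of_add_eq_zero_right e1
    have e2 : p.1.2 = q.1.2 := by
      rw [key p, key q]
      exact funext fun j => congrArg (fun x : Fin 2 → B => -f (x j)) e
    refine Subtype.ext (Prod.ext (hF ?_) e2)
    have e3 : F p.1.1 + xlc_dg h hB R ty p.1.2 = 0 := AddMonoidHom.mem_ker.1 p.2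
    have e4 : F q.1.1 + xlc_dg h hB R ty q.1.2 = 0 := AddMonoidHom.mem_ker.1 q.2
    rw [e2, ← e4] at e3
    exact add_right_cancel e3
  have h2 : Nat.card Φ.range ≤ Nat.card (SelB T n lam ψ ⟨R, Q, ty⟩ B') :=
    Nat.card_le_card_of_injective _ Subtype.val_injective
  rw [← xlc_card2, ← xlc_card2, ← Nat.card_prod,
    AddSubgroup.card_eq_card_quotient_mul_card_addSubgroup Φ.ker,
    Nat.card_congr (QuotientAddGroup.quotientKerEquivRange Φ).toEquiv]
  exact Nat.mul_le_mul h2 h1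

end Pool.Agent.Lib.MP_696deb_nt.B3
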