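import Pool.Agent.Lib.MP_696deb_nt.B2.XTG
import Pool.Agent.Lib.MP_696deb_nt.B3.XTW
import Pool.Agent.Lib.MP_696deb_nt.B3.XLc
import Pool.Agent.Lib.MP_696deb_nt.B3.TW6

/-! The upper bound on the target branch. -/

set_option autoImplicit false

open scoped NNReal Classical
open Finset Matrix NumberTheorySymbols PowerSeries

namespace Pool.Agent.Lib.MP_696deb_nt.B3

open B2

variable {n : ℕ} {d d' a b : ℤ}

theorem Tate.twPr (T : Tate) (hc : Ctx d d' n a b) : TwPr n (T.f * d) (T.f * d') :=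
  .of_ctx hc T.f_ne fun _ _ => T.dvd30

/-- Above two the branches of one twist have the same Kummer condition. -/
theorem kum_iff {T : Tate} {m : ℕ} {w : Plc} {x : Gam → Vm m} (h4 : d % 4 = 1) (h8 : n % 8 = 3)
    (hw : w.p = 2) : KumP T m (GK n ⊓ Dec w) x ↔ LTv T (T.f * d) m (GK n ⊓ Dec w) x :=
  exists_congr fun S => forall₂_congr fun g hg => by
    rw [tw, tw, chi_mul T.f_ne (by omega), chi_GK_two h4 h8 hw hg, mul_one]

/-- The upper bound on the target branch. -/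
theorem tg_bound (T : Tate) (hc : Ctx d d' n a b) (S : HS n) (h : Cork (T.f * d))
    (h' : Cork (T.f * d')) : ∃ C : ℕ, ∀ k lam, S.Tw k lam a b → ∀ j ≤ k,
      Nat.card (SM T n lam (T.psi S k lam d) ∅ (fun _ => .tr) (Lam ⧸ aa j 1)) ≤ C * 4 ^ j := by
  have hp := T.twPr hc
  obtain ⟨C, hC⟩ := hp.cork_link T h h' 6
  refine ⟨C, fun k lam hl j hj => ?_⟩
  have ok := T.sok_empty hl hc.nok d
  have hB : Kil k (Lam ⧸ aa j 1) := kil_quot (aa_le hj (by omega))
  have out := hl.adm.fr_notMem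
  obtain ⟨u, hu, -⟩ := (hl.sok (T := T) (Q := ∅) hc.nok ⟨by simp, by simp⟩ d).det_lam
  refine natCard_le (hC j (fr lam) out fun v hv => fix_of_det (u := u) (hu.trans (by norm_num)) ?_)
    (f := fun c g i => B2.ev j 1 (.inr one_ne_zero) (c.1 g i))
    (fun c c' e => Subtype.ext (funext fun g => funext fun i => ev_inj j
      (congrFun (congrFun e g) i))) fun c => ?_
  · have := mred_smul_sub j 1 (T.ρ (fq lam)) v
    rw [tv_apply, map_mul, Int.units_mul_self] at hv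
    rw [Int.cast_one, one_smul] at this
    exact this.trans (sub_eq_zero.2 hv)
  obtain ⟨h1, h2⟩ := (ok.mem_SM hB).1 c.2
  obtain ⟨⟨⟨a1, a2⟩, a3⟩, a4, a5, -⟩ := (ok.mem_SU hB).1 h1
  have k1 : Coc (GK n) (tv T (T.f * d) j) fun g i => B2.ev j 1 (.inr one_ne_zero) (c.1 g i) :=
    ⟨a1.comp fun v i => B2.ev j 1 (.inr one_ne_zero) (v i), fun g hg u hu => by
      rw [← ev_act (T.psi_X (S := S) (k := k) hl.adm (dvd_neg.1 ⟨d', hc.mul.symm⟩) hc.d4 hg)]
      exact funext fun i => (congrArg (fun v => B2.ev j 1 _ (v i)) (a2 g hg u hu)).trans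
        (map_add _ _ _)⟩
  have k2 : ∀ g, c.1 g = 0 → (fun i => B2.ev j 1 (.inr one_ne_zero) (c.1 g i)) = 0 := fun g hg =>
    funext fun i => by rw [hg, Pi.zero_apply, map_zero, Pi.zero_apply]
  refine ⟨⟨⟨k1, fun g hg => k2 g (a3 g hg)⟩, fun w hw σ hσ => ?_, fun w hw => ?_⟩,
    k2 _ (h2 _ hl.adm.tm'.φ_mem)⟩
  · by_cases e : w.p = lam.p
    · obtain ⟨u, hu, rfl⟩ := conj_of_inert e (fr_spec lam).1 out
      exact hp.unr_conj (w := lam) k1 hw hu (fun s hs => k2 s (h2 s ⟨hs.1, Ine_le _ hs.2⟩)) hσ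
    · exact k2 σ (a4 w hw e (fun _ h => absurd h (notMem_empty _)) σ hσ)
  · obtain ⟨u, hu, rfl⟩ := conj_of_inert (hw.trans w2_p.symm) (fr_spec w2).1 hc.nok.fr_w2.1
    exact lt_conj k1 (normal_GK n) ((kum_iff hc.d4 hc.nok.m8 w2_p).1
      (a5 j (B2.ev j 1 (.inr one_ne_zero)).toAddMonoidHom)) hu

end Pool.Agent.Lib.MP_696deb_nt.B3
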