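import Pool.Agent.Lib.MP_696deb_nt.B2.XNZ
import Pool.Agent.Lib.MP_696deb_nt.B3.XTG
import Pool.Agent.Lib.MP_696deb_nt.B3.XSb
import Pool.Agent.Lib.MP_696deb_nt.B3.XLe

/-! Points on both twists give a lower bound on the target branch. -/

set_option autoImplicit false

open scoped NNReal Classical
open Finset Matrix NumberTheorySymbols PowerSeries

namespace Pool.Agent.Lib.MP_696deb_nt.B3

open B2

variable {n : ℕ} {d d' a b : ℤ}

/-- The Kummer cocycle of a point that is defined over the quadratic field. -/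
theorem xnz_kum {T : Tate} {k j : ℕ} {lam : Plc} {ψ : Gam → Lam} (hc : Ctx d d' n a b)
    (h : SOk T n k lam ψ ∅) (hj : j ≤ k)
    (hψ : ∀ g ∈ GK n, ψ g - ((chi (T.f * d) g : ℤ) : Lam) ∈ Ideal.span {(X : Lam)})
    {R : EE} (hR : ∀ g ∈ GK n, tw (T.f * d) g R = R) :
    ∃ c ∈ SM T n lam ψ ∅ (fun _ => .tr) (Lam ⧸ aa j 1), ∃ W : EE, 2 ^ j • W = 64 • R ∧
      ∀ g ∈ GK n, xnzE T j (c g) = tw (T.f * d) g W - W := by
  have hB : Kil k (Lam ⧸ aa j 1) := kil_quot (aa_le hj (by omega))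
  obtain ⟨Y, rfl⟩ := lo3_half j R
  have e0 : ∀ g ∈ GK n, 2 ^ j • (tw (T.f * d) g Y - Y) = 0 := fun g hg => by
    rw [smul_sub, ← lkT_apply, ← map_nsmul, lkT_apply, hR g hg, sub_self]
  have : ∀ g, ∃ x, (g ∈ GK n → xnzE T j x = tw (T.f * d) g Y - Y) ∧ (g ∉ GK n → x = 0) := fun g => by
    by_cases hg : g ∈ GK n
    · exact (xnzE_surj T j (e0 g hg)).imp fun _ h => ⟨fun _ => h, fun k => absurd hg k⟩
    · exact ⟨0, fun k => absurd k hg, fun _ => rfl⟩
  choose c c1 c2 using this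
  have hcU : c ∈ SU T n lam ψ ∅ (fun _ => .tr) (Lam ⧸ aa j 1) := by
    refine (h.mem_SU hB).2 ⟨⟨⟨?_, fun g hg u hu => xnzE_inj T j ?_⟩, c2⟩,
      fun w hw _ _ σ hσ => xnzE_inj T j ?_, ?_, fun w hw => absurd hw (notMem_empty w)⟩
    · obtain ⟨U, u1, u2, u3⟩ := (sm_chi (H := GK n) (T.f * d)).comp₂ (sm_pt (GK n) Y)
        fun e P => (e : ℤ) • P - Y
      exact ⟨U, u1, u2, fun g hg u hu e => xnzE_inj T j
        ((c1 g hg).trans ((u3 g hg u hu e).trans (c1 u hu).symm))⟩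
    · rw [map_add, xnzE_act T j (hψ g hg), c1 _ (mul_mem hg hu), c1 g hg, c1 u hu, lk_tw_mul,
        ← lkT_apply g (_ - _), map_sub]
      exact (sub_add_sub_cancel' _ _ _).symm
    · have e1 := e0 σ hσ.1
      rw [map_zero, c1 σ hσ.1]
      rw [tw, (T.twPr hc).ine w hw σ hσ, Units.val_one, one_smul] at e1 ⊢
      exact K1_tors (ne_two_of hw) (K1_ine (fun e => hw (e.trans (by norm_num))) hσ.2 Y) e1
    · have e1 : KumP T j (GK n ⊓ Dec w2) fun g i => B2.ev j 1 (.inr one_ne_zero) (c g i) :=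
        (kum_iff hc.d4 hc.nok.m8 w2_p).2 ⟨Y, fun g hg => c1 g hg.1⟩
      refine (KumC.of_smul e1 (e := (1 : Lam ⧸ aa j 1)) ((xnz_bij j).1 ?_)).congr
        fun g _ => funext fun i => (xnz_bij j).1 ?_
      · rw [map_nsmul, map_one, map_zero, nsmul_eq_mul, ZMod.natCast_self, zero_mul]
      · rw [map_nsmul, map_one, nsmul_eq_mul, mul_one, ZMod.natCast_zmod_val]
  obtain ⟨x, hx⟩ := h.norm hB hcU
  refine ⟨_, hx, 64 • Y - xnzE T j x, ?_, fun g hg => ?_⟩
  · rw [smul_sub, xnzE_apply, emb_kill, sub_zero, smul_comm]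
  · rw [Pi.sub_apply, Pi.smul_apply, rs_of_mem hg, cob, ofNat_smul_eq_nsmul, map_sub, map_sub,
      map_nsmul, xnzE_act T j (hψ g hg), c1 g hg, ← lkT_apply g (_ - _), map_sub, map_nsmul,
      lkT_apply, lkT_apply]
    abel

/-- Points on both twists give rank two. -/
theorem nz_bound (F : CFT) (su : SUStmt) (ch : ChebStmt) (T : Tate) (hc : Ctx d d' n a b)
    (S : HS n) (h : Nz (T.f * d)) (h' : Nz (T.f * d')) : ∃ C : ℕ, ∀ k lam, S.Tw k lam a b →
      ∀ j ≤ k, 4 ^ j ≤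
        C * Nat.card (SM T n lam (T.psi S k lam d) ∅ (fun _ => .tr) (Lam ⧸ aa j 1)) := by
  obtain ⟨P, hP, h⟩ := h
  obtain ⟨P', hP', h'⟩ := h'
  refine ⟨4 ^ 7, fun k lam hT j hj => ?_⟩
  have ok := T.sok_empty hT hc.nok d
  have hp := T.twPr hc
  have fin := (sel_finite (R := ∅) (ty := fun _ => .tr) F su ch ok
    (kil_quot (I := aa j 1) (aa_le hj (by omega)))).2.1
  have e1 : ∀ g ∈ GK n, ∀ Q, tw (T.f * d') g Q = tw (T.f * d) g Q := fun g hg Q => by
    rw [tw, tw, hp.eq g hg]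
  have e2 : ∀ Q, tw (T.f * d') cc Q = -tw (T.f * d) cc Q := fun Q => by
    rw [tw, tw, hp.ne _ (cc_notMem hc.nok.pos), Units.val_neg, neg_smul]
  have key := fun z : Fin (2 ^ (j - 7)) × Fin (2 ^ (j - 7)) =>
    xnz_kum hc ok hj (R := (z.1 : ℤ) • P + (z.2 : ℤ) • P')
      (fun g hg => T.psi_X hT.adm (dvd_neg.1 ⟨d', hc.mul.symm⟩) hc.d4 hg) fun g hg => by
        rw [← lkT_apply, map_add, map_zsmul, map_zsmul, lkT_apply, lkT_apply, hP, ← e1 g hg, hP']
  choose c hc1 W hW1 hW2 using key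
  have inj : Function.Injective fun z => (⟨c z, hc1 z⟩ :
      SM T n lam (T.psi S k lam d) ∅ (fun _ => .tr) (Lam ⧸ aa j 1)) := fun z y e => by
    have e3 : c z = c y := congrArg Subtype.val e
    have e4 : ∀ g ∈ GK n, tw (T.f * d) g (W z - W y) = W z - W y := fun g hg => by
      have := (hW2 z g hg).symm.trans (e3 ▸ hW2 y g hg)
      rw [← lkT_apply, map_sub, lkT_apply, lkT_apply]
      linear_combination (norm := abel1) this
    have e5 : 2 ^ j • (W z - W y) =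
        (64 * ((z.1 : ℤ) - y.1)) • P + (64 * ((z.2 : ℤ) - y.2)) • P' := by
      rw [smul_sub, hW1, hW1]
      module
    refine Prod.ext (xnz_eq (xnz_plus hc.nok.pos hP h ?_ e4 e5))
      (xnz_eq (xnz_plus (P' := P) hc.nok.pos hP' h' ?_ (fun g hg => (e1 g hg _).trans (e4 g hg))
        (e5.trans (add_comm _ _))))
    · rw [← neg_neg (tw (T.f * d) cc P'), ← e2, hP']
    · rw [e2, hP]
  have le := Nat.card_le_card_of_injective _ inj
  rw [Nat.card_prod, Nat.card_fin, ← mul_pow] at le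
  refine le_trans ?_ (Nat.mul_le_mul_left _ le)
  rw [show 2 * 2 = 4 from rfl, ← pow_add]
  exact Nat.pow_le_pow_right (by norm_num) (by omega)

end Pool.Agent.Lib.MP_696deb_nt.B3
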