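import Pool.Agent.Lib.MP_696deb_nt.B3.XAb
import Pool.Agent.Lib.MP_696deb_nt.B3.XCG
import Pool.Agent.Lib.MP_696deb_nt.B3.XMU
import Pool.Agent.Lib.MP_696deb_nt.B3.XTG
import Pool.Agent.Lib.MP_696deb_nt.B3.XNZ
import Pool.Agent.Lib.MP_696deb_nt.B2.MCO

/-! The core of the converse theorem for twists that ramify at two, three or five. -/

set_option autoImplicit false

open scoped Classical
open Finset Matrix NumberTheorySymbols PowerSeries

namespace Pool.Agent.Lib.MP_696deb_nt.B3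

open B2

/-- The lower bound for the Selmer group on the branch of reference. -/
def RefB {n : ℕ} (T : Tate) (S : HS n) (Z : ES S T.f) (a b : ℤ) : Prop :=
  ∃ e : ℤ, e ∣ n ∧ e % 4 = 1 ∧ ∃ j k₀ : ℕ, ∀ k, k₀ ≤ k → ∀ lam, S.Tw k lam a b →
    S.Often T k lam fun w => ∀ (R : EE) (x : Fin 2 → ZMod (2 ^ k)),
      2 ^ k • R = a15 lam.p • Z.ychi e → T.emb k x = fq w • R - R → ∃ m < j,
        ¬ (2 : ZMod (2 ^ k)) ^ (m + 1) ∣ (cq (T.f * e) : ZMod (2 ^ k)) * (x 1 - x 0) ^ 2 ∧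
        2 ^ m ≤ Nat.card (SM T n lam (T.psi S k lam e) {w} (fun _ => .lag) (Lam ⧸ aa j 1))

theorem mco_cq {n k : ℕ} {S : HS n} {lam : Plc} {T : Tate} (h2 : T.f ∣ 2) (hn : Nok n)
    (hl : Adm n lam.p) {e : ℤ} (he : e ∣ n) (h4 : e % 4 = 1) :
    constantCoeff (QP T (T.psi S k lam e)) = (cq (T.f * e) : ℤ_[2]) := by
  have nr : ∀ v, ¬ T.Rm v := fun v h => by
    have := Int.le_of_dvd two_pos (dvd_trans h h2)
    fin_cases v <;> simp at this
  have e1 : ∀ v b, constantCoeff (T.psi S k lam e (ori b (fr (bp v)))) =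
      (J(T.f * e | (bp v).p) : ℤ_[2]) := fun v b => by
    have h1 := X_dvd_iff.1 (Ideal.mem_span_singleton.1 (T.psi_X (k := k) (S := S) hl he h4
      (hn.tm_bq v b).mem))
    have h3 : chi (T.f * e) (ori b (fr (bp v))) = chi (T.f * e) (fr (bp v)) := by
      cases b
      · exact chi_cj _ _
      · rfl
    have h5 : ¬ ((bp v).p : ℤ) ∣ 2 * (T.f * e) := fun k => by
      have k1 : ((bp v).p : ℤ) ∣ 2 ^ 2 * n :=
        k.trans (by rw [sq, mul_assoc]; exact mul_dvd_mul_left _ (mul_dvd_mul h2 he))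
      have k2 : (bp v).p ∣ 2 ^ 2 * n := by exact_mod_cast k1
      have k3 := bp_or v
      rcases ((bp v).prime.dvd_mul).1 k2 with k4 | k4
      · rcases k3 with k3 | k3 <;> rw [k3] at k4 <;> omega
      · exact (bp v).prime.ne_one (Nat.eq_one_of_dvd_coprimes hn.good.cop k4 (by
          rcases k3 with k3 | k3 <;> rw [k3] <;> norm_num))
    rw [map_sub, sub_eq_zero, h3, chi_frob h5 (fr_spec _), map_intCast] at h1
    exact h1
  simp only [QP, QQ_nrm (nr _), B2.QQ, map_mul, map_sub, e1, bp_p, cq]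
  simp [map_ofNat]
  ring

theorem m_core_of (F : CFT) (su : SUStmt) (ch : ChebStmt) (hq : QuadStmt) {T T' : Tate}
    (hT : T'.toTate = T.toTate) {m : ℤ} (hs : Spt T'.f m) (hf : T.f = T'.f * m) {d d' a b : ℤ}
    {n : ℕ} (hc : Ctx d d' n a b) (hx : MuX T'.f a b) {S : HS n} (Y : ES S T.f) (Z : ES S T'.f)
    (hYZ : Y.Cong Z) (hr : RefB T' S Z a b) (h : Cork (T.f * d)) (h' : Cork (T.f * d')) :
    ¬ IsOfFinAddOrder (Y.ychi d) ∧ ¬ (Nz (T.f * d) ∧ Nz (T.f * d')) := by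
  have hn := hc.nok
  obtain ⟨e, he, h4, j0, k2, hrf⟩ := hr
  obtain ⟨C1, k1, hmu⟩ := mu_bound F su ch T' hs.d2 hc hx S e
  obtain ⟨C2, htg⟩ := tg_bound T hc S h h'
  obtain ⟨lv, l0, l1, l2⟩ : ∃ lv : ℕ → ℕ, (∀ k, k < lv k) ∧ (∀ k, k1 ≤ lv k) ∧ ∀ k, k2 ≤ lv k :=
    ⟨fun k => k + k1 + k2 + 1, by simp only; omega, by simp only; omega, by simp only; omega⟩
  have l3 : ∀ k, 1 ≤ lv k := fun k => (Nat.zero_le k).trans_lt (l0 k)
  choose lam hl using fun k => exists_Tw hq hc S (lv k)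
  choose w w0 w1 w2' using fun k =>
    HS.Often.exists ch hn (hl k).adm (hmu _ (l1 k) _ (hl k)) (hrf _ (l2 k) _ (hl k))
  have w0' : ∀ k, S.Dp T (lv k) (lam k) (w k) := fun k => hT ▸ w0 k
  choose κ κ₀ R c1 c2 c3 c4 c5 using fun k => kc T Y hn (l3 k) (hl k)
  choose κ' κ₀' R' c1' c2' c3' c4' c5' using fun k => kc T' Z hn (l3 k) (hl k)
  choose f hf1 using fun k => Ideal.Quotient.mk_surjective (I := aa (lv k) (lv k))
    (κ₀ k d (fq (w k)) 1 - κ₀ k d (fq (w k)) 0)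
  choose f' hf2 using fun k => Ideal.Quotient.mk_surjective (I := aa (lv k) (lv k))
    (κ₀' k e (fq (w k)) 1 - κ₀' k e (fq (w k)) 0)
  choose u hu hu' using fun k => kc_cong hT hs.d2 hYZ hn (l3 k) (hl k).adm (c4 k d) (c4' k e)
  choose L a1 a2 a3 a4 using fun k =>
    exists_lev F su ch hn (hl k) d (w0' k) (c1 k d) (c2 k d) (c3 k d) (hf1 k) (hu k)
  choose L' b1 b2 b3 b4 using fun k =>
    exists_lev F su ch hn (hl k) e (w0 k) (c1' k e) (c2' k e) (c3' k e) (hf2 k) isUnit_one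
  have o1 := fun k => T.sok_single (hl k) hn (w0' k) d
  have o1' := fun k => T'.sok_single (hl k) hn (w0 k) e
  have o0 := fun k => T.sok_empty (hl k) hn d
  have t2 : ∀ j, Ideal.span {(2 : Lam)} ≤ aa 1 j := fun j =>
    (Ideal.span_singleton_le_iff_mem _).2 (by simpa using two_mem_aa 1 j)
  obtain ⟨p1, C3, p2⟩ := PA.pa (GK n) (thK n) 8 lv L L' l0
    ⟨C1, fun k j hj => by
      rw [b1, (o1' k).card_wk (aa_le (l3 k) (.inl hj))]
      exact w1 k j hj⟩
    (fun k j hj => by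
      rw [a1, b1, (o1' k).card_wk (aa_le (l3 k) (.inl hj)),
        (o1 k).card_wk (aa_le (l3 k) (.inl hj))]
      refine congrArg (fun W : Submodule Lam _ => Nat.card W) (Submodule.ext fun c => ?_)
      rw [SM, SM, mem_SR0, mem_SR0, SelB_congr' hT (fun g hg => ?_) fun g _ y => ?_]
      · rw [hf, chi_mul T'.f_ne (by have := hs.m4; omega), chi_GK_two hs.m4 hn.m8 w2_p hg, mul_one]
      obtain ⟨y, rfl⟩ := Ideal.Quotient.mk_surjective y
      exact Ideal.Quotient.eq_zero_iff_mem.2 (Ideal.mul_mem_right _ _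
        (t2 j (Tate.psi_two T T' d e g))))
    (fun k => by
      rw [a3, b3, one_mul, ← mul_assoc]
      exact hu' k _ (w0' k).fq_mem _ _ (hf1 k) (hf2 k))
    ⟨j0, fun k hj => by
      obtain ⟨m, m1, m2, m3⟩ := w2' k _ _ (c5' k e).1 ((c5' k e).2 _ (w0 k).fq_mem)
      refine ⟨m, m1, fun hg => m2 ?_, by
        rwa [b1, (o1' k).card_wk (aa_le hj (.inl (l3 k)))]⟩
      have e2 := map_dvd (PadicInt.toZModPow (lv k)) (PA.mem_aa.1 hg 0 one_pos)
      rw [coeff_zero_eq_constantCoeff, b3, one_mul, map_mul, mco_cq hs.d2 hn (hl k).adm he h4] at e2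
      simp only [map_mul, map_pow, map_intCast, map_ofNat, ← mco_ev, hf2, map_sub] at e2
      rwa [mul_comm] at e2⟩
    ⟨C2, fun k j hj => by
      rw [a2, (o0 k).card_wk (aa_le hj (.inl (l3 k)))]
      exact htg _ _ (hl k) j hj⟩
  refine ⟨fun ht => p1 ?_, fun ⟨z, z'⟩ => ?_⟩
  · obtain ⟨N, N0, hN⟩ := isOfFinAddOrder_iff_nsmul_eq_zero.1 ht
    obtain ⟨r, M, hM, rfl⟩ := Nat.exists_eq_two_pow_mul_odd N0.ne'
    refine ⟨r, fun k σ hσ i => mco_ker ?_⟩
    obtain ⟨s1, s2⟩ := a4 k σ hσ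
    have e1 : (σ : Gam) • (2 ^ r * M) • R k d = (2 ^ r * M) • R k d := mco_fix s1 (by
      rw [smul_comm, (c5 k d).1, smul_comm, hN, smul_zero])
    have e2 := T.inj (lv k) (a₁ := (2 ^ r * M) • fun i => evk _ (κ₀ k d σ i)) (a₂ := 0) (by
      rw [map_nsmul, (c5 k d).2 _ s1, smul_sub, smul_comm, e1, sub_self, map_zero])
    have e3 : (M : ZMod (2 ^ lv k)) * (2 ^ r * evk _ (κ₀ k d σ i)) = 0 := by
      have := congrFun e2 i
      simp only [Pi.smul_apply, nsmul_eq_mul, Pi.zero_apply] at this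
      push_cast at this
      linear_combination this
    have e4 := ((ZMod.isUnit_iff_coprime M _).2
      ((Nat.coprime_two_right.2 hM).pow_right _)).mul_right_eq_zero.1 e3
    rw [s2, Pi.smul_apply, nsmul_eq_mul, map_mul, map_mul, map_pow, map_ofNat, mul_left_comm, e4,
      mul_zero]
  · obtain ⟨C4, hz⟩ := nz_bound F su ch T hc S z z'
    obtain ⟨j, hj⟩ := mco_pow (C4 * C3)
    obtain ⟨k, q1, q2⟩ := p2 j
    rw [a2, (o0 k).card_wk (aa_le q1 (.inl (l3 k)))] at q2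
    exact hj ((hz _ _ (hl k) j q1).trans (mul_assoc C4 _ _ ▸ Nat.mul_le_mul_left _ q2))

end Pool.Agent.Lib.MP_696deb_nt.B3
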