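import Pool.Agent.Lib.MP_696deb_nt.B3.CMk
import Pool.Agent.Lib.MP_696deb_nt.B3.BIc

set_option autoImplicit false

open scoped Classical

namespace Pool.Agent.Lib.MP_696deb_nt.B3

open B2

/-- The fundamental discriminant attached to a squarefree number. -/
def fund (f : ℤ) : ℤ := if f % 4 = 1 then f else 4 * f

/-- The points of the system are those of the complex theory, up to the factor two. -/
def ES.Link {n : ℕ} {S : HS n} {f : ℤ} (Y : ES S f) (r : ℤ) : Prop :=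
  ∀ (T : Finset Fm) (e : ℤ), FReps (-(n * fund f ^ 2)) (-(r * (fund f).natAbs)) T → e ∣ n →
    e % 4 = 1 → f ≠ 1 →
    pmap jC ((if f % 4 = 1 then 1 else 2) • Y.ychi e) = -Unif.u15 (hW (fund f) e T)

section

open B2.CM CM

variable {n : ℕ} {r δ m : ℤ}

theorem Spt.mod_iff (hs : Spt δ m) : δ * m % 4 = 1 ↔ δ = 1 := by
  have := hs.m4
  rcases dvd_two hs.d2 with rfl | rfl | rfl | rfl <;> omega

theorem Spt.fund (hs : Spt δ m) : fund (δ * m) = dsc δ m := by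
  rw [B3.fund, dsc]
  by_cases h : δ = 1
  · rw [if_pos (hs.mod_iff.2 h), if_pos h, h, one_mul]
  · rw [if_neg (mt hs.mod_iff.1 h), if_neg h, mul_assoc]

end

open B2.CM CM in
/-- The Euler systems of the target and of the reference. -/
theorem m_es_both (F : CFT) (hk : KronStmt) {n : ℕ} (hn : Nok n) {r : ℤ} (hr : 60 ∣ r ^ 2 + n)
    {δ m : ℤ} (hs : Spt δ m) : ∃ (S : HS n) (Y : ES S (δ * m)) (Z : ES S δ), S.Link r ∧ Sep S ∧
      Y.Link r ∧ Y.Cong Z ∧ (δ = 1 → Z.y = S.y) ∧ (δ ≠ 1 → Z.Conj ∧ Z.Bir) ∧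
      ∀ (T : Finset Fm) (e : ℤ), FReps (-(n * dsc δ m ^ 2)) (-(r * (dsc δ m).natAbs)) T → e ∣ n →
        e % 4 = 1 → ∃ N : ℤ, N ≠ 0 ∧
          IsOfFinAddOrder (N • pmap jC (Y.ychi e) - Unif.u15 (hW (dsc δ m) e T)) := by
  have i0 := cmz_fin hn
  let i1 : ∀ c, Fintype (Pc n c) := fun c => Fintype.ofFinite _
  let i2 : ∀ c, Fintype (Tw (Pc n c)) := fun c => Fintype.ofFinite _
  refine ⟨hsOf F hk hn hr, esY F hk hn hr hs, esZ F hk hn hr hs.d2, hsOf_link F hk hn hr,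
    hsOf_sep F hk hn hr, fun T e hT he h4 h => ?_, esY_cong F hk hn hr hs, ?_,
    fun h => ⟨esZ_conj F hk hn hr _ h, BI.esZ_bir F hk hn hr _ h⟩, fun T e hT he h4 => ?_⟩
  · rw [hs.fund] at hT ⊢
    obtain ⟨N, h1, h2⟩ := esY_link F hk hn hr hs hT he h4
    rw [h1 h, zero_smul, zero_sub] at h2
    simpa only [hs.mod_iff] using h2
  · rintro rfl
    exact esZ_one F hk hn hr _
  · obtain ⟨N, -, h2⟩ := esY_link F hk hn hr hs hT he h4
    refine ⟨-(if δ = 1 then 1 else 2 : ℕ), by split_ifs <;> decide,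
      isOfFinAddOrder_iff_nsmul_eq_zero.2 ⟨4, by decide, ?_⟩⟩
    rw [neg_smul, natCast_zsmul, ← map_nsmul, h2, neg_sub, sub_sub_cancel_left, smul_neg, smul_comm,
      ← map_nsmul, four_P4, map_zero, smul_zero, neg_zero]

theorem m_es (F : CFT) (hk : KronStmt) {n : ℕ} (hn : Nok n) {r : ℤ} (hr : 60 ∣ r ^ 2 + n)
    {δ m : ℤ} (hs : Spt δ m) : ∃ (S : HS n) (Y : ES S (δ * m)) (Z : ES S δ), S.Link r ∧ Sep S ∧
      Y.Link r ∧ Y.Cong Z ∧ (δ = 1 → Z.y = S.y) ∧ (δ ≠ 1 → Z.Conj ∧ Z.Bir) :=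
  let ⟨S, Y, Z, h1, h2, h3, h4, h5, h6, _⟩ := m_es_both F hk hn hr hs
  ⟨S, Y, Z, h1, h2, h3, h4, h5, h6⟩

/-- The form that is used by the arithmetic half. -/
theorem m_es' (F : CFT) (hk : KronStmt) (n : ℕ) (r δ m e : ℤ) (hn : Nok n) (hr : 60 ∣ r ^ 2 + n)
    (hs : Spt δ m) (he : e = if δ = 1 then m else 4 * δ * m) :
    ∃ (S : HS n) (Y : ES S (δ * m)) (Z : ES S δ), S.Link r ∧ Sep S ∧ Y.Cong Z ∧
      (δ = 1 → Z.y = S.y) ∧ (δ ≠ 1 → Z.Conj ∧ Z.Bir) ∧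
      ∀ (T : Finset Fm) (e' : ℤ), FReps (-(n * e ^ 2)) (-(r * e.natAbs)) T → e' ∣ n → e' % 4 = 1 →
        ∃ N : ℤ, N ≠ 0 ∧ IsOfFinAddOrder (N • pmap jC (Y.ychi e') - Unif.u15 (hW e e' T)) := by
  obtain ⟨S, Y, Z, h1, h2, -, h4, h5, h6, h7⟩ := m_es_both F hk hn hr hs
  exact ⟨S, Y, Z, h1, h2, h4, h5, h6, he ▸ h7⟩

end Pool.Agent.Lib.MP_696deb_nt.B3
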