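import Pool.Agent.Lib.MP_696deb_nt.B3.RLd

/-! The lower bound for the Selmer group on the branch of reference. -/

set_option autoImplicit false

open scoped NNReal Classical
open Finset Matrix NumberTheorySymbols PowerSeries

namespace Pool.Agent.Lib.MP_696deb_nt.B3

open B2

variable {T : Tate} {n : ℕ} {d d' a b e : ℤ}

theorem Br.exists_cq (h : Br T n e) {I t : ℕ}
    (hI : I < t + if J(T.f * e | 3) = 1 ∧ J(T.f * e | 5) = -1 then 0 else 1) :
    ∃ c o : ℕ, Odd o ∧ c ≤ 4 ∧ cq (T.f * e) = (2 ^ c * o) ^ 2 ∧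
      I + c + (if J(T.f * e | 3) = -1 ∧ J(T.f * e | 5) = 1 then 3 else 2) ≤
        t + 2 + 2 * if J(T.f * e | 5) = 1 then 2 else 1 := by
  have h3 := h.jac (v := bp 0) (bp_or 0)
  have h5 := h.jac (v := bp 1) (bp_or 1)
  simp only [bp_p, cons_val_zero, cons_val_one] at h3 h5
  rw [cq]
  rcases h3 with h3 | h3 <;> rcases h5 with h5 | h5 <;> rw [h3, h5] at hI ⊢ <;> norm_num at hI ⊢
  exacts [⟨4, 1, by decide, by omega, by norm_num, by omega⟩,
    ⟨3, 3, by decide, by omega, by norm_num, by omega⟩,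
    ⟨3, 1, by decide, by omega, by norm_num, by omega⟩,
    ⟨2, 3, by decide, by omega, by norm_num, by omega⟩]

/-- The lower bound on the branch of reference. -/
theorem ref_bound (F : CFT) (su : SUStmt) (ch : ChebStmt) (T : Tate) (h2 : T.f ∣ 2)
    (hc : Ctx d d' n a b) (S : HS n) (Z : ES S T.f) (hr : Z.Ref) :
    ∃ e : ℤ, e ∣ n ∧ e % 4 = 1 ∧ ∃ j k₀ : ℕ, ∀ k, k₀ ≤ k → ∀ lam, S.Tw k lam a b →
      S.Often T k lam fun w => ∀ (R : EE) (x : Fin 2 → ZMod (2 ^ k)),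
        2 ^ k • R = a15 lam.p • Z.ychi e → T.emb k x = fq w • R - R → ∃ m < j,
          ¬ (2 : ZMod (2 ^ k)) ^ (m + 1) ∣ (cq (T.f * e) : ZMod (2 ^ k)) * (x 1 - x 0) ^ 2 ∧
          2 ^ m ≤ Nat.card (SM T n lam (T.psi S k lam e) {w} (fun _ => .lag) (Lam ⧸ aa j 1)) := by
  by_cases f1 : T.f = 1
  · rw [ES.Ref, if_pos f1] at hr
    obtain ⟨j, k₀, h⟩ := B2.ref_bound F su ch T hc S hr.2
    have y : Z.ychi 1 = S.ychi 1 := by rw [ES.ychi, hr.1, HS.ychi]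
    have c : cq (T.f * 1) = 256 := by rw [f1, cq]; norm_num
    refine ⟨1, one_dvd _, rfl, j, k₀, fun k hk lam l => ?_⟩
    simpa only [SM_one f1, psi_one f1, y, c, Int.cast_ofNat] using h k hk lam l
  rw [ES.Ref, if_neg f1] at hr
  obtain ⟨cj, e, e1, e2, hr⟩ := hr
  have hb : Br T n e := ⟨hc.nok, h2, f1, e1, e2⟩
  obtain ⟨P, u, I, hI, hp⟩ := exists_prim hb (fun g hg => hb.ychi_fix Z hg) (ychi_conj Z cj e) hr
  obtain ⟨a', o, o1, o2, o3, o4⟩ := hb.exists_cq hI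
  obtain ⟨i, hi⟩ : ∃ i, i = 2 * I + 44 := ⟨_, rfl⟩
  obtain ⟨Q, δ, hd⟩ := exists_del T i hp.fix
  refine ⟨e, e1, e2, i + i, i + i, fun k hk lam h => ?_⟩
  have hi' : i ≤ k := by omega
  obtain ⟨m, c, c1, c2, c3, c4⟩ := hd.often hp S hb h.adm (by omega) hi'
  refine ⟨m, c, c1, c2, c3, fun w hw l R x h1 h3 => ?_⟩
  replace l := c4 w hw l
  have ok : ROk T n k e lam (T.psi S k lam e) w :=
    ⟨hb, T.sok_single h hc.nok hw e, fun g hg => T.psi_X h.adm e1 e2 hg, by omega⟩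
  obtain ⟨r, v, v1, v2⟩ := Zi_unit (x := δ (fq w) 1 - δ (fq w) 0) fun k => l (by rw [k, smul_zero])
  have he : r < 12 := not_le.1 fun k => l (v2 ▸ Zi_pow (by omega) v)
  obtain ⟨M, hM⟩ : ∃ M, M = 2 * I + 2 * r + 6 + 2 * a' := ⟨_, rfl⟩
  refine ⟨M, by omega, fun ⟨z, hz⟩ => ?_,
    ok.bound F su ch hd hp hk (by omega) (by omega) (by omega) v2⟩
  obtain ⟨s, s1, s2⟩ := ok.ok.a15_lam
  have p := hd.value hp hi' hw.fq_mem.1 (hb.chi_N h.adm (by omega) hw.fq_mem) hw.fq_mem.2.1 h1 h3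
  replace hz := congrArg (ZMod.castHom (pow_dvd_pow 2 hi') (Zi i)) hz
  rw [o3] at hz
  push_cast at hz
  simp only [map_mul, map_pow, map_sub, map_ofNat, map_natCast] at hz
  have p0 := p 0
  have p1 := p 1
  rw [s2] at p0 p1
  push_cast at p0 p1
  generalize ZMod.castHom (pow_dvd_pow 2 hi') (Zi i) = π at hz p0 p1
  have q : (u : Zi i) * (π (x 1) - π (x 0)) = 8 * s * 2 ^ I * (2 ^ r * v) := by
    rw [← v2]
    linear_combination p1 - p0
  have s3 : IsUnit (s : Zi i) := by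
    obtain ⟨m, rfl | rfl⟩ := Int.eq_nat_or_neg s
    · exact_mod_cast Zi_odd (i := i) (v := m) (by exact_mod_cast s1)
    · rw [Int.cast_neg, Int.cast_natCast]
      exact (Zi_odd (by exact_mod_cast odd_neg.1 s1)).neg
  have q2 : (2 : Zi i) ^ M * (s * v * o) ^ 2 = 2 ^ (M + 1) * (u ^ 2 * π z) := by
    rw [hM] at hz ⊢
    linear_combination (u : Zi i) ^ 2 * hz -
      (2 ^ a' * o) ^ 2 * (u * (π (x 1) - π (x 0)) + 8 * s * 2 ^ I * (2 ^ r * v)) * q
  have q3 := Zi_pow (i := i) (r := i - 1 - M) (e := M + 1) (by omega) (u ^ 2 * π z)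
  rw [← q2, nsmul_eq_mul, ← mul_assoc, (((s3.mul v1).mul (Zi_odd o1)).pow 2).mul_left_eq_zero] at q3
  have q4 : ((2 ^ (i - 1) : ℕ) : Zi i) = 0 := by
    rw [← q3, show i - 1 = i - 1 - M + M by omega]
    simp only [Nat.add_sub_cancel, pow_add _ (i - 1 - _), Nat.cast_mul, Nat.cast_pow, Nat.cast_ofNat]
  exact absurd (Nat.le_of_dvd (by positivity) ((ZMod.natCast_eq_zero_iff _ _).1 q4))
    (not_le.2 (Nat.pow_lt_pow_right one_lt_two (by omega)))

end Pool.Agent.Lib.MP_696deb_nt.B3
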