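import Pool.Agent.Lib.MP_696deb_nt.B3.MCO
import Pool.Agent.Lib.MP_696deb_nt.B3.XRF

set_option autoImplicit false

namespace Pool.Agent.Lib.MP_696deb_nt.B3

open B2

/-- The lower bound on the branch of reference. -/
theorem m_ref (F : CFT) (su : SUStmt) (ch : ChebStmt) (T : Tate) (h2 : T.f ∣ 2) {d d' a b : ℤ}
    {n : ℕ} (hc : Ctx d d' n a b) (S : HS n) (Z : ES S T.f) (hr : Z.Ref) : RefB T S Z a b :=
  ref_bound F su ch T h2 hc S Z hr

end Pool.Agent.Lib.MP_696deb_nt.B3
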