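import Pool.Agent.Lib.MP_696deb_nt.B2.MU8

/-! Invariant classes with values in the dual numbers over the field with two elements that may be
ramified at two along a fixed quadratic character have trivial top character. -/

set_option autoImplicit false

open scoped NNReal Classical
open Finset NumberTheorySymbols

namespace Pool.Agent.Lib.MP_696deb_nt.B3

open B2

/-- The data of the tower together with the character `δ` at two. -/
structure MuW (n : ℕ) (a b δ : ℤ) (ξ : Gam → ZMod 2) : Prop where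
  mud : MuD n a b ξ
  m8 : n % 8 = 3
  del : δ ∣ 8
  two : ∀ w : Plc, w.p = 2 → ∀ g ∈ GK n, (g ∈ Dec w → ξ g = 0) ∧ (g * cc ∈ Dec w → ξ g = 1)
  ndd : ∀ c : ℤ, c ∣ a → c % 4 = 1 → 0 < δ * c →
    ¬ ∀ q : ℕ, q.Prime → (q : ℤ) ∣ b → J(δ * c | q) = 1

variable {n : ℕ} {a b δ : ℤ} {ξ x y : Gam → ZMod 2} {ε m : ZMod 2}

theorem mu_rel (h : MuD n a b ξ) (hx : IsHom (GK n) x)
    (hy : ∀ g ∈ GK n, ∀ k ∈ GK n, y (g * k) = y g + y k + ξ g * x k)
    (ix : ∀ g ∈ GK n, x (cc * g * cc) = x g)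
    (iy : ∀ g ∈ GK n, y (cc * g * cc) + ε * x g = y g + ξ g * m) {g k : Gam} (hg : g ∈ GK n)
    (hk : k ∈ GK n) (h0 : ξ k = 0) (h1 : y (g * cc * k * (g * cc)⁻¹ * k⁻¹) = 0)
    (h2 : ξ (g * cc * k * (g * cc)⁻¹ * k⁻¹) = 0) : (ε + ξ g) * x k = 0 := by
  have y1 : y 1 = 0 := by simpa [hx.one] using hy 1 (one_mem _) 1 (one_mem _)
  have k2 := hy _ (mul_mem ((normal_GK n).conj_mem k hk (g * cc)) ((GK n).inv_mem hk)) k hk
  have k3 := conj_cc_mem hk
  rw [h1, h2, inv_mul_cancel_right,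
    show g * cc * k * (g * cc)⁻¹ = g * (cc * k * cc * g⁻¹) by simp [mul_assoc, cc_inv],
    hy g hg _ (mul_mem k3 (inv_mem hg)), hy _ k3 _ (inv_mem hg), hx _ k3 _ (inv_mem hg),
    h.dih k hk, h0, ix k hk] at k2
  have k4 := hy g hg _ (inv_mem hg)
  rw [mul_inv_cancel, y1] at k4
  have k5 := iy k hk
  rw [h0] at k5
  linear_combination k2 + k4 - k5 + mu1_two (ε * x k)

theorem mu_two (h : MuW n a b δ ξ) (sx : Sm (GK n) x) (hx : IsHom (GK n) x)
    (hy : ∀ g ∈ GK n, ∀ k ∈ GK n, y (g * k) = y g + y k + ξ g * x k)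
    (ix : ∀ g ∈ GK n, x (cc * g * cc) = x g)
    (iy : ∀ g ∈ GK n, y (cc * g * cc) + ε * x g = y g + ξ g * m) (em : ε * m = 0)
    (ux : ∀ w : Plc, w.p ≠ 2 → ∀ σ ∈ GK n ⊓ Ine w, x σ = 0)
    (uy : ∀ w : Plc, (w.p : ℤ) ∣ n → ∀ σ ∈ GK n ⊓ Ine w, y σ = 0)
    (vx : ∀ w : Plc, w.p = 2 → ∀ σ ∈ GK n ⊓ Dec w, xi δ σ = 0 → x σ = 0)
    (vy : ∀ w : Plc, w.p = 2 → ∀ σ ∈ GK n ⊓ Dec w, xi δ σ = 0 → y σ = 0) :
    ∀ g ∈ GK n, x g = 0 := by
  have D := h.mud
  have h4 := D.mod4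
  have h8 := h.m8
  have hn : 0 < n := by omega
  have c0 := cc_notMem hn
  by_cases hu : ∀ w : Plc, w.p = 2 → ∀ σ ∈ GK n ⊓ Ine w, x σ = 0
  · exact B2.mu_two D sx hx hy ix iy em (fun w => (em' (w.p = 2)).elim (ux w) (hu w)) uy
  exfalso
  simp only [not_forall] at hu
  obtain ⟨v, hv, σ, hσ, x0⟩ := hu
  replace x0 := (mu1_or _).resolve_left x0
  have σD : σ ∈ GK n ⊓ Dec v := ⟨hσ.1, Ine_le v hσ.2⟩
  have d0 : δ ≠ 0 := fun e => by simpa [e] using h.del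
  have e1 : ε = 1 := by
    obtain ⟨φ, hφ⟩ := exists_frob v
    have k0 := lo3_inert h8 hv (hv ▸ hφ)
    obtain ⟨g, rfl⟩ : ∃ g, φ = g * cc := ⟨φ * cc, by rw [mul_assoc, cc_mul_cc, mul_one]⟩
    have hg : g ∈ GK n := by simpa [mul_assoc, cc_mul_cc] using mul_mem_GK k0 c0
    have k1 : g * cc * σ * (g * cc)⁻¹ * σ⁻¹ ∈ GK n ⊓ Dec v := Subgroup.mem_inf.2
      ⟨mul_mem ((normal_GK n).conj_mem σ hσ.1 _) ((GK n).inv_mem hσ.1),
        mul_mem (mul_mem (mul_mem hφ.1 σD.2) (inv_mem hφ.1)) (inv_mem σD.2)⟩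
    have k2 := mu_rel D hx hy ix iy hg hσ.1 ((h.two v hv σ hσ.1).1 σD.2) (vy v hv _ k1 (by
      rw [xi_hom, xi_hom, xi_hom, xi_inv, xi_inv]
      linear_combination mu1_two (xi δ (g * cc)) + mu1_two (xi δ σ))) ((h.two v hv _ k1.1).1 k1.2)
    rw [x0, (h.two v hv g hg).2 hφ.1] at k2
    linear_combination k2 - mu1_two 1
  subst e1
  rw [one_mul] at em
  subst em
  obtain ⟨χ, s1, s2, s3, s4⟩ := exists_ext hn 0 sx hx ix
  have sq : Squarefree (a * b) := Int.squarefree_natAbs.1 (by simpa [D.mul] using D.sqf)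
  have od : Odd (a * b) := by rw [D.mul, Int.odd_iff]; omega
  have free : ∀ w : Plc, (w.p : ℤ) ∣ b → ∀ g ∈ Dec w, χ g = 0 := by
    intro w hb
    have hw : (w.p : ℤ) ∣ n := dvd_neg.1 (D.mul ▸ hb.mul_left a)
    have ha : ¬ (w.p : ℤ) ∣ a := fun k =>
      (Nat.prime_iff_prime_int.1 w.prime).not_isUnit (sq _ (mul_dvd_mul k hb))
    obtain ⟨-, s, hs, k0⟩ := exists_ine_notMem D.sqf h4 hw
    obtain ⟨g, rfl⟩ : ∃ g, s = g * cc := ⟨s * cc, by rw [mul_assoc, cc_mul_cc, mul_one]⟩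
    have hg : g ∈ GK n := by simpa [mul_assoc, cc_mul_cc] using mul_mem_GK k0 c0
    have e1 : ξ g = 0 := (mu1_or _).resolve_right fun k => ha ((D.ram w hw g hg hs).1 k)
    have f1 : χ (g * cc) = 0 := by
      have k1 := uy w hw _ ⟨mul_mem_GK k0 k0, mul_mem hs hs⟩
      rw [show g * cc * (g * cc) = g * (cc * g * cc) by simp only [mul_assoc],
        hy g hg _ (conj_cc_mem hg), e1] at k1
      have k2 := iy g hg
      rw [s2 _ trivial _ trivial, s3 g hg, s4]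
      linear_combination k2 - k1 + mu1_two (y g)
    have f2 : ∀ k ∈ GK n ⊓ Dec w, χ k = 0 := fun k hk => by
      have k1 : g * cc * k * (g * cc)⁻¹ * k⁻¹ ∈ GK n ⊓ Ine w := Subgroup.mem_inf.2
        ⟨mul_mem ((normal_GK n).conj_mem k hk.1 _) ((GK n).inv_mem hk.1), by
          have := mul_mem hs (conj_mem_Ine hk.2 (inv_mem hs))
          simpa only [mul_assoc] using this⟩
      have k2 := mu_rel D hx hy ix iy hg hk.1 (D.dec w hw k hk) (uy w hw _ k1)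
        (D.dec w hw _ ⟨k1.1, Ine_le w k1.2⟩)
      rwa [e1, add_zero, one_mul, ← s3 k hk.1] at k2
    intro k hk
    by_cases k1 : k ∈ GK n
    · exact f2 k ⟨k1, hk⟩
    · have k2 : (g * cc)⁻¹ ∉ GK n := fun h => k0 (by simpa using inv_mem h)
      have := s2 (k * (g * cc)⁻¹) trivial (g * cc) trivial
      rwa [inv_mul_cancel_right, f1,
        f2 _ (Subgroup.mem_inf.2 ⟨mul_mem_GK k1 k2, mul_mem hk (inv_mem (Ine_le w hs))⟩),
        add_zero] at this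
  have nd : ∀ w : Plc, w.p ≠ 2 → ¬ (w.p : ℤ) ∣ δ := fun w hw k =>
    hw ((Nat.prime_dvd_prime_iff_eq w.prime Nat.prime_two).1 (w.prime.dvd_of_dvd_pow (n := 3)
      (by exact_mod_cast k.trans h.del)))
  have i1 : xi δ σ = 1 := (mu1_or _).resolve_left fun k => by
    rw [vx v hv σ σD k] at x0
    exact zero_ne_one x0
  have eq : ∀ k ∈ GK n ⊓ Dec v, χ k + xi δ k = 0 := fun k hk => by
    rw [s3 k hk.1]
    rcases mu1_or (xi δ k) with l | l
    · rw [l, vx v hv k hk l, add_zero]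
    · have := vx v hv _ (mul_mem hk σD) (by rw [xi_hom, l, i1]; rfl)
      rwa [hx k hk.1 σ hσ.1, x0, ← l] at this
  obtain ⟨c, c1, c2, -, c4⟩ := quad_class (χ := fun g => χ g + xi δ g) (Int.odd_mul.1 od).1
    (s1.comp₂ (sm_xi δ) (· + ·)) (fun g _ k _ => by
      simp only [s2 g trivial k trivial, xi_hom]; ring) fun w hw τ hτ => by
    by_cases k0 : w.p = 2
    · obtain ⟨u, rfl⟩ := plc_conj (hv.trans k0.symm)
      have k1 := mem_Ine_smul.1 hτ
      have k2 := eq _ ⟨ine_le_GK' h4 (by rw [hv]; omega) k1, Ine_le v k1⟩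
      rw [s2 _ trivial _ trivial, s2 _ trivial _ trivial, s2.inv trivial, xi_hom, xi_hom,
        xi_inv] at k2
      linear_combination k2 - mu1_two (xi δ u)
    rw [xi_eq_zero.2 (chi_ine (mu0_ndvd k0 (nd w k0)) hτ), add_zero]
    by_cases k1 : (w.p : ℤ) ∣ b
    · exact free w k1 τ (Ine_le w hτ)
    · have k2 : ¬ (w.p : ℤ) ∣ n := fun k2 =>
        ((Nat.prime_iff_prime_int.1 w.prime).dvd_or_dvd (D.mul ▸ dvd_neg.2 k2)).elim hw k1
      have k3 := ine_le_GK' h4 k2 hτ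
      rw [s3 τ k3, ux w k0 τ ⟨k3, hτ⟩]
  have c5 : ∀ g, χ g = xi (δ * c) g := fun g => by
    rw [xi_mul d0 (by omega), ← c4 g]
    linear_combination -mu1_two (xi δ g)
  refine h.ndd c c1 c2 (lt_of_le_of_ne (not_lt.1 fun k => ?_) (mul_ne_zero d0 (by omega)).symm)
    fun q hq hb => ?_
  · have := c5 cc
    rw [s4, xi_cc_neg k] at this
    exact zero_ne_one this
  · obtain ⟨w, rfl⟩ := exists_plc hq
    have k0 : w.p ≠ 2 := fun k2 => by
      rw [k2] at hb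
      have := Int.odd_iff.1 (Int.odd_mul.1 od).2
      omega
    refine jac_of_dec k0 (fun k2 => ?_) fun g hg => (c5 g).symm.trans (free w hb g hg)
    rcases (Nat.prime_iff_prime_int.1 hq).dvd_or_dvd k2 with k2 | k2
    · exact nd w k0 k2
    · exact (Nat.prime_iff_prime_int.1 hq).not_isUnit (sq _ (mul_dvd_mul (k2.trans c1) hb))

end Pool.Agent.Lib.MP_696deb_nt.B3
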