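import Pool.Agent.Lib.MP_696deb_nt.B3.MUa

/-! Classes along a dihedral tower in characteristic two that are ramified at two only along a fixed
quadratic character are killed by a fixed power of the variable. -/

set_option autoImplicit false

open scoped NNReal Classical
open Finset LaurentPolynomial

namespace Pool.Agent.Lib.MP_696deb_nt.B3

open B2

variable {n : ℕ} {a b δ : ℤ} {ξ : Gam → ZMod 2} {e : Gam → ℤ} {w₀ : Plc} {z : Gam}

/-- The elements on which the classes vanish. -/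
def Zs (n : ℕ) (δ : ℤ) (w₀ : Plc) (σ : Gam) : Prop := σ ∈ GK n ∧ ∃ w : Plc,
  w.p ≠ w₀.p ∧ w.p ≠ 2 ∧ σ ∈ Ine w ∨ w.p = 2 ∧ σ ∈ Dec w ∧ xi δ σ = 0

theorem Zs.cc {σ : Gam} (h : Zs n δ w₀ σ) : Zs n δ w₀ (cc * σ * cc) := by
  obtain ⟨h1, w, h2⟩ := h
  refine ⟨conj_cc_mem h1, B2.cc • w, h2.imp (fun k => ⟨k.1, k.2.1, cc_conj_ine k.2.2⟩)
    fun k => ⟨k.1, ?_, ?_⟩⟩
  · rw [mem_Dec_smul, cc_inv]
    simpa [mul_assoc, cc_mul_cc, ← mul_assoc B2.cc B2.cc] using k.2.1
  · rw [xi_hom, xi_hom, k.2.2]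
    linear_combination mu1_two (xi δ B2.cc)

/-- Cocycles modulo `t ^ k` that vanish on these elements and on the inertia group of `w₀`. -/
structure MuS (n : ℕ) (δ : ℤ) (e : Gam → ℤ) (w₀ : Plc) (k : ℕ) (f : Gam → LP) : Prop where
  sm : Sm (GK n) f
  coc : ∀ g ∈ GK n, ∀ h ∈ GK n, tL ^ k ∣ f (g * h) - (f g + T (e g) * f h)
  ine : ∀ σ, Zs n δ w₀ σ → tL ^ k ∣ f σ
  lam : ∀ σ ∈ Ine w₀, tL ^ k ∣ f σ

/-- The exponents of the dihedral tower modulo `t ^ k`. -/
structure MuF (n : ℕ) (δ : ℤ) (ξ : Gam → ZMod 2) (e : Gam → ℤ) (w₀ : Plc) (z : Gam) (k : ℕ) :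
    Prop extends MuE n ξ e w₀ z k where
  zs : ∀ σ, Zs n δ w₀ σ → tL ^ k ∣ T (e σ) - 1

theorem MuS.mono {k k' : ℕ} {f : Gam → LP} (h : MuS n δ e w₀ k f) (l : k' ≤ k) :
    MuS n δ e w₀ k' f :=
  ⟨h.sm, fun g hg u hu => (pow_dvd_pow _ l).trans (h.coc g hg u hu),
    fun σ hσ => (pow_dvd_pow _ l).trans (h.ine σ hσ),
    fun σ hσ => (pow_dvd_pow _ l).trans (h.lam σ hσ)⟩

theorem MuF.mono {k k' : ℕ} (h : MuF n δ ξ e w₀ z k) (l : k' ≤ k) : MuF n δ ξ e w₀ z k' :=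
  ⟨h.toMuE.mono l, fun σ hσ => (pow_dvd_pow _ l).trans (h.zs σ hσ)⟩

theorem MuS.div {k i : ℕ} {f : Gam → LP} (h : MuS n δ e w₀ (i + k) f) (hI : Ine w₀ ≤ GK n)
    (d : ∀ g ∈ GK n, tL ^ i ∣ f g) :
    ∃ f', MuS n δ e w₀ k f' ∧ ∀ g ∈ GK n, f g = tL ^ i * f' g := by
  let q : LP → LP := fun x => if h : tL ^ i ∣ x then h.choose else 0
  have hq : ∀ g ∈ GK n, f g = tL ^ i * q (f g) := fun g hg => by
    simp only [q, dif_pos (d g hg)]
    exact (d g hg).choose_spec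
  have c : ∀ x, tL ^ (i + k) ∣ tL ^ i * x → tL ^ k ∣ x := fun x hx => by
    rwa [pow_add, mul_dvd_mul_iff_left (pow_ne_zero _ mu2_ne)] at hx
  refine ⟨fun g => q (f g), ⟨h.sm.comp q, fun g hg u hu => c _ ?_, fun σ hσ => c _ ?_,
    fun σ hσ => c _ ?_⟩, hq⟩
  · convert h.coc g hg u hu using 1
    linear_combination hq g hg + T (e g) * hq u hu - hq _ (mul_mem hg hu)
  · exact hq σ hσ.1 ▸ h.ine σ hσ
  · exact hq σ (hI hσ) ▸ h.lam σ hσ

theorem MuS.conj {k : ℕ} {f : Gam → LP} (h : MuS n δ e w₀ k f)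
    (hI : Ine w₀ ≤ GK n) {u σ : Gam} (hu : u ∈ GK n) (hσ : σ ∈ Ine w₀) :
    tL ^ k ∣ f (u * σ * u⁻¹) - (1 - T (e (u * σ * u⁻¹))) * f u := by
  have h0 : u * σ * u⁻¹ ∈ GK n := (normal_GK n).conj_mem σ (hI hσ) u
  have h1 := h.coc _ h0 u hu
  rw [inv_mul_cancel_right] at h1
  convert dvd_add (dvd_sub (h.coc u hu σ (hI hσ)) h1) ((h.lam σ hσ).mul_left (T (e u))) using 1
  ring

theorem MuS.top {k : ℕ} {f : Gam → LP} (h : MuS n δ e w₀ (k + 1) f)
    (E : MuF n δ ξ e w₀ z (k + 1)) (hI : Ine w₀ ≤ GK n) (w : Plc) (h2 : w.p = w₀.p ∨ w.p ≠ 2)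
    {σ : Gam} (hσ : σ ∈ GK n ⊓ Ine w) : tL ∣ f σ := by
  by_cases hw : w.p = w₀.p
  · obtain ⟨u, hu, k1⟩ := exists_conj_ine E.inert hw
    have k2 := (dvd_pow_self tL k.succ_ne_zero).trans (h.conj hI hu (k1 σ hσ.2))
    rw [show u * (u⁻¹ * σ * u) * u⁻¹ = σ by group] at k2
    obtain ⟨v, hv⟩ := mu2_T (e σ)
    refine (dvd_sub_left ?_).1 k2
    exact Dvd.dvd.mul_right ⟨-e σ - tL * v, by rw [hv]; ring⟩ _
  · exact (dvd_pow_self tL k.succ_ne_zero).trans
      (h.ine σ ⟨hσ.1, w, .inl ⟨hw, h2.resolve_left hw, hσ.2⟩⟩)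

theorem mu_three (D : MuW n a b δ ξ) (E : MuF n δ ξ e w₀ z 3) {f : Gam → LP}
    (h : MuS n δ e w₀ 3 f) {ε : ℤ} {m : LP}
    (hi : ∀ g ∈ GK n, tL ^ 3 ∣ T ε * invert (f (cc * g * cc)) - (f g + (T (e g) - 1) * m)) :
    ∀ g ∈ GK n, tL ∣ f g := by
  have hI := ine_le_GK' D.mud.mod4 E.nd
  have h2 := mu2_two
  have l : tL ^ 2 ∣ tL ^ 3 := pow_dvd_pow _ (by norm_num)
  obtain ⟨x, y, c1, c2⟩ := mu2_coef
  have hz := hI E.zI
  have km : tL ^ 2 ∣ T ε * invert m + m := by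
    refine mu2_cancel (e := -e z) (by rw [Int.cast_neg, E.par z hz, E.zo]; rfl) ?_
    have k1 := hi _ (conj_cc_mem hz)
    rw [show cc * (cc * z * cc) * cc = z by simp [mul_assoc, cc_mul_cc, ← mul_assoc cc cc]] at k1
    have k2 := (mu2_inv_dvd (hi z hz)).mul_left (T ε)
    simp only [map_sub, map_mul, map_add, invert_T, map_one, involutive_invert _] at k2
    have k3 : (T ε : LP) * T (-ε) = 1 := by rw [← T_add, add_neg_cancel, T_zero]
    convert dvd_add (dvd_add k1 k2) ((E.dih z hz).mul_right m) using 1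
    linear_combination (T (-e z) - 1) * (T ε * invert m + m) * h2 - f (cc * z * cc) * k3
  have t1 : ∀ i : ℤ, tL ^ 2 ∣ (T i : LP) - (1 + C (i : ZMod 2) * tL) := fun i => by
    obtain ⟨v, hv⟩ := mu2_T i
    exact ⟨v, by rw [hv, mu2_C_cast]; ring⟩
  have a1 : ∀ g ∈ GK n, ∀ u ∈ GK n, x (f (g * u)) = x (f g) + x (f u) ∧
      y (f (g * u)) = y (f g) + y (f u) + ξ g * x (f u) := fun g hg u hu => c2 _ _ _ (by
    have k1 := t1 (e g)
    rw [E.par g hg] at k1
    convert dvd_add (dvd_add (dvd_add (dvd_add (l.trans (h.coc g hg u hu)) (c1 (f g)))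
      ((c1 (f u)).mul_left (T (e g)))) (k1.mul_right (C (x (f u)) + C (y (f u)) * tL)))
      (dvd_mul_right _ (C (ξ g) * C (y (f u)))) using 1
    simp only [map_add, map_mul]
    ring)
  have a2 : ∀ g ∈ GK n, x (f (cc * g * cc)) = x (f g) ∧
      y (f (cc * g * cc)) + ε * x (f g) = y (f g) + ξ g * x m := fun g hg => by
    have k1 := t1 (e g)
    rw [E.par g hg] at k1
    set F := f (cc * g * cc)
    have k2 := c2 (T ε * invert F) (x F) (y F + ε * x F) (by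
      convert dvd_add (dvd_add (dvd_add ((mu2_inv_sub F).mul_left (T ε)) ((c1 F).mul_left (T ε)))
        ((t1 ε).mul_right (C (x F) + C (y F) * tL))) (dvd_mul_right _ (C (ε : ZMod 2) * C (y F)))
        using 1
      simp only [map_add, map_mul]
      ring)
    have k3 := c2 (T ε * invert F) (x (f g)) (y (f g) + ξ g * x m) (by
      convert dvd_add (dvd_add (dvd_add (dvd_add (l.trans (hi g hg)) (c1 (f g))) (k1.mul_right m))
        ((c1 m).mul_left (C (ξ g) * tL))) (dvd_mul_right _ (C (ξ g) * C (y m))) using 1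
      simp only [map_add, map_mul]
      ring)
    have k4 := k2.1.symm.trans k3.1
    exact ⟨k4, k4 ▸ k2.2.symm.trans k3.2⟩
  have a3 : (ε : ZMod 2) * x m = 0 := by
    have k2 := c2 (T ε * invert m + m) 0 (ε * x m) (by
      convert dvd_add (dvd_add (dvd_add (dvd_add ((mu2_inv_sub m).mul_left (T ε))
        ((c1 m).mul_left (T ε))) ((t1 ε).mul_right (C (x m) + C (y m) * tL)))
        (dvd_mul_right _ (C (ε : ZMod 2) * C (y m)))) (c1 m) using 1
      simp only [map_mul, map_zero]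
      linear_combination (C (x m) + C (y m) * tL) * h2)
    exact k2.2.symm.trans (c2 _ 0 0 (by simpa using km)).2
  have a4 : ∀ F, tL ∣ F → x F = 0 := fun F ⟨G, hG⟩ => (c2 F 0 (x G) (by
    convert dvd_add ((c1 G).mul_left tL) (dvd_mul_right _ (C (y G))) using 1
    rw [hG, map_zero]
    ring)).1
  have a5 : ∀ σ, Zs n δ w₀ σ → x (f σ) = 0 ∧ y (f σ) = 0 := fun σ hσ =>
    c2 _ 0 0 (by simpa using l.trans (h.ine σ hσ))
  have := mu_two D (x := fun g => x (f g)) (y := fun g => y (f g)) (h.sm.comp x)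
    (fun g hg u hu => (a1 g hg u hu).1) (fun g hg u hu => (a1 g hg u hu).2)
    (fun g hg => (a2 g hg).1) (fun g hg => (a2 g hg).2) a3
    (fun w hw σ hσ => a4 _ (h.top E hI w (.inr hw) hσ)) (fun w hw σ hσ =>
      (a5 σ ⟨hσ.1, w, .inl ⟨fun k => E.nd (k ▸ hw), fun k => by
        have := D.m8
        rw [k] at hw
        omega, hσ.2⟩⟩).2) (fun w hw σ hσ k => (a5 σ ⟨hσ.1, w, .inr ⟨hw, hσ.2, k⟩⟩).1)
    fun w hw σ hσ k => (a5 σ ⟨hσ.1, w, .inr ⟨hw, hσ.2, k⟩⟩).2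
  intro g hg
  have k1 := (dvd_pow_self tL two_ne_zero).trans (c1 (f g))
  rw [show x (f g) = 0 from this g hg, map_zero, zero_add] at k1
  exact (dvd_sub_left (dvd_mul_left _ _)).1 k1

theorem mu_five (D : MuW n a b δ ξ) (E : MuF n δ ξ e w₀ z 5) {f : Gam → LP}
    (h : MuS n δ e w₀ 5 f) : ∀ g ∈ GK n, tL ∣ f g := by
  have hI := ine_le_GK' D.mud.mod4 E.nd
  have h2 := mu2_two
  have hz := hI E.zI
  obtain ⟨u, hu, ku⟩ := exists_conj_ine (w := cc • w₀) E.inert rfl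
  let d : Gam → LP := fun g => f g + invert (f (cc * g * cc)) + (T (e g) - 1) * invert (f u)
  have hd : MuS n δ e w₀ 5 d := by
    refine ⟨(h.sm.comp₂ (h.sm.conj cc cc fun g hg => conj_cc_mem hg)
      fun p q => p + invert q).comp₂ E.sm fun p q => p + (T q - 1) * invert (f u),
      fun g hg k hk => ?_, fun σ hσ => ?_, fun σ hσ => ?_⟩
    · have k1 := mu2_inv_dvd (h.coc _ (conj_cc_mem hg) _ (conj_cc_mem hk))
      rw [show cc * g * cc * (cc * k * cc) = cc * (g * k) * cc by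
        simp [mul_assoc, cc_mul_cc, ← mul_assoc cc cc]] at k1
      have k2 := mu2_inv_dvd (E.dih g hg)
      simp only [map_sub, map_mul, map_add, invert_T, neg_neg] at k1 k2
      convert dvd_add (dvd_add (dvd_add (h.coc g hg k hk) k1)
        (k2.mul_right (invert (f (cc * k * cc))))) ((E.mul g hg k hk).mul_right (invert (f u)))
        using 1
      simp only [d]
      ring
    · exact dvd_add (dvd_add (h.ine σ hσ) (mu2_inv_dvd (h.ine _ hσ.cc))) ((E.zs σ hσ).mul_right _)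
    · have k1 := mu2_inv_dvd (h.conj hI hu (ku _ (cc_conj_ine hσ)))
      rw [show u * (u⁻¹ * (cc * σ * cc) * u) * u⁻¹ = cc * σ * cc by group] at k1
      have k2 := mu2_inv_dvd (E.dih σ (hI hσ))
      simp only [map_sub, map_mul, map_one, invert_T, neg_neg] at k1 k2
      convert dvd_sub (dvd_add (h.lam σ hσ) k1) (k2.mul_right (invert (f u))) using 1
      simp only [d]
      ring
  have hi : ∀ g ∈ GK n, tL ^ 5 ∣
      invert (d (cc * g * cc)) - (d g + (T (e g) - 1) * (f u + invert (f u))) := fun g hg => by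
    have k2 := mu2_inv_dvd (E.dih g hg)
    simp only [map_sub, invert_T, neg_neg] at k2
    convert k2.mul_right (f u) using 1
    simp only [d, map_add, map_mul, map_sub, map_one, invert_T, involutive_invert _]
    rw [show cc * (cc * g * cc) * cc = g by simp [mul_assoc, cc_mul_cc, ← mul_assoc cc cc]]
    linear_combination (-(T (e g) - 1) * invert (f u)) * h2
  have step : ∀ i ≤ 2, (∀ g ∈ GK n, tL ^ i ∣ d g) → ∀ g ∈ GK n, tL ^ (i + 1) ∣ d g := by
    intro i l k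
    obtain ⟨d', s', e'⟩ := (hd.mono (show i + 3 ≤ 5 by omega)).div hI k
    have k0 : ∀ g ∈ GK n, tL ^ (i + 3) ∣ tL ^ i * (T (-i) * invert (d' (cc * g * cc)) - d' g) -
        (T (e g) - 1) * (f u + invert (f u)) := fun g hg => by
      convert (pow_dvd_pow _ (show i + 3 ≤ 5 by omega)).trans (hi g hg) using 1
      rw [e' g hg, e' _ (conj_cc_mem hg), map_mul, map_pow, mu2_inv_t, mul_pow, T_pow]
      simp only [mul_neg, mul_one]
      ring
    obtain ⟨m, hm⟩ : tL ^ i ∣ f u + invert (f u) := by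
      refine mu2_cancel (e := e z) (by rw [E.par z hz, E.zo]) ((dvd_sub_right ?_).1
        ((pow_dvd_pow _ (by omega)).trans (k0 z hz)))
      rw [pow_succ]
      refine mul_dvd_mul_left _ (dvd_sub (Dvd.dvd.mul_left ?_ _)
        (s'.top (E.mono (by norm_num)) hI w₀ (.inl rfl) ⟨hz, E.zI⟩))
      simpa using mu2_inv_dvd (k := 1) (by simpa using (s'.top (E.mono (by norm_num)) hI (cc • w₀)
        (.inl rfl) ⟨conj_cc_mem hz, cc_conj_ine E.zI⟩))
    intro g hg
    rw [e' g hg, pow_succ]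
    refine mul_dvd_mul_left _ (mu_three D (E.mono (by norm_num)) s' (ε := -i) (m := m)
      (fun g hg => ?_) g hg)
    have := k0 g hg
    rw [hm, pow_add] at this
    refine (mul_dvd_mul_iff_left (pow_ne_zero i mu2_ne)).1 ?_
    convert this using 1
    ring
  have k3 := step 2 le_rfl (step 1 one_le_two (step 0 (by norm_num) fun g _ => by simp))
  refine mu_three D (E.mono (by norm_num)) (h.mono (by norm_num)) (ε := 0) (m := invert (f u))
    fun g hg => ?_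
  convert k3 g hg using 1
  simp only [d, T_zero]
  linear_combination (-f g - (T (e g) - 1) * invert (f u)) * h2

theorem mu_lp (D : MuW n a b δ ξ) {k : ℕ} (E : MuF n δ ξ e w₀ z (k + 4)) {f : Gam → LP}
    (h : MuS n δ e w₀ (k + 4) f) : ∀ g ∈ GK n, tL ^ k ∣ f g := by
  have hI := ine_le_GK' D.mud.mod4 E.nd
  have : ∀ i ≤ k, ∀ g ∈ GK n, tL ^ i ∣ f g := fun i => by
    induction i with
    | zero => exact fun _ g _ => by simp
    | succ i ih =>
      intro l g hg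
      obtain ⟨f', s', e'⟩ := (h.mono (show i + 5 ≤ k + 4 by omega)).div hI (ih (by omega))
      rw [e' g hg, pow_succ]
      exact mul_dvd_mul_left _ (mu_five D (E.mono (by omega)) s' g hg)
  exact this k le_rfl

/-- The same bound for coefficients in a truncated polynomial ring. -/
theorem mu_core {A : Type} [CommRing A] {t : A} {j : ℕ} {e : Gam → ℕ} (h : Trunc t j)
    (D : MuW n a b δ ξ) (E : MuA t n ξ e w₀) (h2 : w₀.p ≠ 2) {c : Gam → A}
    (hc : Coc (GK n) (aT t e) c) (ine : ∀ σ, Zs n δ w₀ σ → c σ = 0)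
    (lam : ∀ σ ∈ Ine w₀, c σ = 0) : ∀ g ∈ GK n, t ^ 4 * c g = 0 := by
  intro g hg
  rcases le_or_gt j 4 with l | l
  · rw [pow_eq_zero_of_le l h.nil, zero_mul]
  obtain ⟨k, rfl⟩ : ∃ k, j = k + 4 := ⟨j - 4, by omega⟩
  obtain ⟨π, p0, p1, p2, p3⟩ := h.exists_hom (by omega)
  choose s hs using p2
  obtain ⟨z, z1, z2⟩ := E.ram
  have h8 := D.m8
  have E' : MuF n δ ξ (fun g => e g) w₀ z (k + 4) := by
    refine ⟨⟨E.sm.comp _, fun g hg => by simpa using E.par g hg, fun g hg u hu => p3 _ ?_,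
      fun g hg => ?_, fun w hw σ hσ => p3 _ ?_, E.nd, E.inert, z1, z2⟩, fun σ hσ => p3 _ ?_⟩
    · simp only [map_sub, map_mul, p1, E.mul g hg u hu, sub_self]
    · have := p3 (T (e (cc * g * cc)) * T (e g) - 1) (by
        simp only [map_sub, map_mul, p1, E.dih g hg, map_one, sub_self])
      convert this.mul_right (T (-e g)) using 1
      rw [sub_mul, mul_T_assoc, add_neg_cancel, T_zero, mul_one, one_mul]
    · simp only [map_sub, p1, E.ine w hw σ hσ, map_one, sub_self]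
    · obtain ⟨k1, w, ⟨k2, -, k3⟩ | ⟨k2, k3, -⟩⟩ := hσ
      · simp only [map_sub, p1, E.ine w k2 σ ⟨k1, k3⟩, map_one, sub_self]
      · obtain ⟨φ, hφ⟩ := exists_frob w
        have := E.triv h (by omega) (k2 ▸ h2.symm) (ine_le_GK' (by omega) (by rw [k2]; omega))
          hφ (lo3_inert h8 k2 (k2 ▸ hφ)) σ ⟨k1, k3⟩ 1
        rw [aT_apply, mul_one] at this
        simp only [map_sub, p1, this, map_one, sub_self]
  obtain ⟨y, hy⟩ := mu_lp D E' (f := fun g => s (c g)) ⟨hc.1.comp s, fun g hg u hu => p3 _ (by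
      simp only [map_sub, map_add, map_mul, p1, hs, hc.2 g hg u hu, aT_apply, sub_self]),
    fun σ hσ => p3 _ (by rw [hs, ine σ hσ]), fun σ hσ => p3 _ (by rw [hs, lam σ hσ])⟩ g hg
  rw [← hs (c g), hy, map_mul, map_pow, p0, ← mul_assoc, ← pow_add, add_comm, h.nil, zero_mul]

end Pool.Agent.Lib.MP_696deb_nt.B3
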