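import Pool.Agent.Lib.MP_696deb_nt.B3.MUb

/-! Local classes along a quadratic character and their annihilator, with coefficients in a group
of exponent two. -/

set_option autoImplicit false

open scoped Classical
open Finset

namespace Pool.Agent.Lib.MP_696deb_nt.B3

open B2

variable {M M' : Type} [AddCommGroup M] [AddCommGroup M'] {H : Subgroup Gam} {w : Plc} {δ : ℤ}
  {a : Gam → M →+ M} {a' : Gam → M' →+ M'} {b : M →+ M' →+ ZMod (2 ^ 1)} {F : CFT}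

/-- The character of `δ` with values in the standard group of order two. -/
noncomputable def om (δ : ℤ) : Gam → Z2 := xi δ

theorem om_hom (δ : ℤ) (g h : Gam) : om δ (g * h) = om δ g + om δ h := xi_hom δ g h

theorem coc_om (δ : ℤ) (D : Subgroup Gam) : Coc D B2.tr (om δ) :=
  coc_tr.2 ⟨sm_xi δ, fun g _ h _ => om_hom δ g h⟩

/-- Local cocycles that vanish on the kernel of the character. -/
def Lw (H : Subgroup Gam) (w : Plc) (δ : ℤ) (a : Gam → M →+ M) : AddSubgroup (Gam → M) where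
  carrier := {c | c ∈ Z1 (H ⊓ Dec w) a ∧ ∀ σ ∈ H ⊓ Dec w, om δ σ = 0 → c σ = 0}
  zero_mem' := ⟨zero_mem _, fun _ _ _ => rfl⟩
  add_mem' h k := ⟨add_mem h.1 k.1, fun σ hσ l => by
    rw [Pi.add_apply, h.2 σ hσ l, k.2 σ hσ l, add_zero]⟩
  neg_mem' h := ⟨neg_mem h.1, fun σ hσ l => by rw [Pi.neg_apply, h.2 σ hσ l, neg_zero]⟩

/-- Cochains whose coordinates are characters that are orthogonal to the character. -/
def UnW (F : CFT) (H : Subgroup Gam) (w : Plc) (δ : ℤ) (c : Gam → M) : Prop :=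
  ∀ f : M →+ Z2, Coc (H ⊓ Dec w) B2.tr (fun g => f (c g)) ∧
    F.inv 1 H w (cupb mu2 B2.tr (om δ) fun g => f (c g)) = 0

theorem UnW.map {c : Gam → M} (h : UnW F H w δ c) (φ : M →+ M') :
    UnW F H w δ fun g => φ (c g) := fun f => h (f.comp φ)

theorem UnW.congr {c c' : Gam → M} (h : UnW F H w δ c) (k : ∀ g ∈ H ⊓ Dec w, c g = c' g) :
    UnW F H w δ c' := fun f =>
  ⟨(h f).1.congr fun g hg => by rw [k g hg], by
    rw [← (h f).2]
    exact inv_cupb_congr F (fun _ _ => rfl) fun g hg => by rw [k g hg]⟩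

theorem UnW.zero (hH : Op H) : UnW F H w δ (0 : Gam → M) := fun f =>
  ⟨(Coc.zero _ _).congr fun _ _ => (map_zero f).symm,
    inv_cupb_right F hH (dual_tr _) (coc_om δ _) (y := 0) fun _ _ => by simp [cob]⟩

theorem UnW.add (hH : Op H) {c c' : Gam → M} (h : UnW F H w δ c) (k : UnW F H w δ c') :
    UnW F H w δ (c + c') := fun f => by
  have e : (fun g => f ((c + c') g)) = (fun g => f (c g)) + fun g => f (c' g) :=
    funext fun g => map_add f _ _
  rw [e]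
  exact ⟨(h f).1.add (k f).1, by
    rw [inv_cupb_add_right F hH (dual_tr _) (coc_om δ _) (h f).1 (k f).1, (h f).2, (k f).2,
      add_zero]⟩

/-- The dual local condition. -/
def Ln (F : CFT) (hH : Op H) (w : Plc) (δ : ℤ) (a : Gam → M →+ M) : AddSubgroup (Gam → M) where
  carrier := {c | c ∈ Z1 (H ⊓ Dec w) a ∧ UnW F H w δ c}
  zero_mem' := ⟨zero_mem _, UnW.zero hH⟩
  add_mem' h k := ⟨add_mem h.1 k.1, h.2.add hH k.2⟩
  neg_mem' h := ⟨neg_mem h.1, h.2.map (negAddMonoidHom)⟩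

theorem rs_mem_Lw {c : Gam → M} (h : Coc H a c) :
    rs (H ⊓ Dec w) c ∈ Lw H w δ a ↔ ∀ σ ∈ H ⊓ Dec w, om δ σ = 0 → c σ = 0 :=
  ⟨fun k σ hσ l => rs_of_mem hσ c ▸ k.2 σ hσ l, fun k =>
    ⟨rs_mem_Z1 (h.mono inf_le_left), fun σ hσ l => (rs_of_mem hσ c).trans (k σ hσ l)⟩⟩

theorem rs_mem_Ln {hH : Op H} {c : Gam → M} (h : Coc H a c) :
    rs (H ⊓ Dec w) c ∈ Ln F hH w δ a ↔ UnW F H w δ c :=
  ⟨fun k => k.2.congr fun _ hg => rs_of_mem hg c, fun k =>
    ⟨rs_mem_Z1 (h.mono inf_le_left), k.congr fun _ hg => (rs_of_mem hg c).symm⟩⟩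

theorem muc_mem (ha : ∀ g ∈ H ⊓ Dec w, ∀ x, a g x = x) {x : M} (hx : 2 ^ 1 • x = 0) :
    rs (H ⊓ Dec w) (fun g => (om δ g).val • x) ∈ Lw H w δ a :=
  ⟨rs_mem_Z1 ⟨(coc_om δ _).1.comp fun s => s.val • x, fun g hg k hk => by
    simp only [om_hom, mu5_val x hx, ha g hg]⟩, fun σ hσ l => by
    rw [rs_of_mem hσ, l, ZMod.val_zero, zero_smul]⟩

theorem muc_eq {φ : Gam} (hφ : φ ∈ H ⊓ Dec w) (h1 : om δ φ = 1)
    {c : Gam → M} (h : c ∈ Lw H w δ a) :
    c = rs (H ⊓ Dec w) fun g => (om δ g).val • c φ := funext fun g => by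
  by_cases hg : g ∈ H ⊓ Dec w
  · rw [rs_of_mem hg]
    rcases Z2.cases (om δ g) with k | k
    · rw [k, h.2 g hg k, ZMod.val_zero, zero_smul]
    · have m := mul_mem (inv_mem hφ) hg
      have e := h.1.1.2 φ hφ _ m
      have e' := om_hom δ φ (φ⁻¹ * g)
      rw [mul_inv_cancel_left] at e e'
      rw [k, h1, left_eq_add] at e'
      rw [e, h.2 _ m e', map_zero, add_zero, k, show (1 : Z2).val = 1 from rfl, one_smul]
  · rw [rs_of_notMem hg, h.1.2 g hg]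

theorem card_Lw (ha : ∀ g ∈ H ⊓ Dec w, ∀ x, a g x = x) {φ : Gam} (hφ : φ ∈ H ⊓ Dec w)
    (h1 : om δ φ = 1) (hM : ∀ x : M, 2 ^ 1 • x = 0) : Nat.card (Lw H w δ a) = Nat.card M := by
  refine Nat.card_eq_of_bijective (fun c => c.1 φ) ⟨fun c c' e => Subtype.ext ?_, fun x =>
    ⟨⟨_, muc_mem ha (hM x)⟩, ?_⟩⟩
  · rw [muc_eq hφ h1 c.2, muc_eq hφ h1 c'.2, show c.1 φ = c'.1 φ from e]
  · simp only [rs_of_mem hφ, h1, show (1 : Z2).val = 1 from rfl, one_smul]

theorem maxIso_w (F : CFT) (hH : Op H) [Finite M] [Finite M'] (hd : Dual 1 (H ⊓ Dec w) a a' b)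
    (ha : ∀ g ∈ H ⊓ Dec w, ∀ x, a g x = x) (ha' : ∀ g ∈ H ⊓ Dec w, ∀ x, a' g x = x) {φ : Gam}
    (hφ : φ ∈ H ⊓ Dec w) (h1 : om δ φ = 1) :
    MaxIso F 1 H w a a' b (Lw H w δ a) (Ln F hH w δ a') := by
  have z : ∀ x, rs (H ⊓ Dec w) (cob a x) = 0 := fun x => funext fun g => by
    by_cases hg : g ∈ H ⊓ Dec w
    · rw [rs_of_mem hg, cob, ha g hg, sub_self, Pi.zero_apply]
    · exact rs_of_notMem hg _
  have z' : ∀ x, rs (H ⊓ Dec w) (cob a' x) = 0 := fun x => funext fun g => by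
    by_cases hg : g ∈ H ⊓ Dec w
    · rw [rs_of_mem hg, cob, ha' g hg, sub_self, Pi.zero_apply]
    · exact rs_of_notMem hg _
  have l : LocC H w a (Lw H w δ a) := ⟨fun _ h => h.1, fun x => z x ▸ zero_mem _⟩
  have l' : LocC H w a' (Ln F hH w δ a') := ⟨fun _ h => h.1, fun x => z' x ▸ zero_mem _⟩
  refine ⟨l, l', fun c hc c' hc' => ?_, ?_⟩
  · rw [muc_eq hφ h1 hc, mu5_cup ha']
    exact (hc'.2 _).2
  · have := (ld F 1 H w M' M a' a b.flip _ hH hd.flip l').1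
    have fin : (Ln F hH w δ a' : Set (Gam → M')).Finite :=
      Finite.Set.subset (Z1 (H ⊓ Dec w) a' : Set _) l'.1
    rw [← (ld F 1 H w M M' a a' b _ hH hd l).2]
    refine Nat.mul_le_mul_left _ (Nat.card_mono fin
      fun c' hc' => ⟨hc'.1, fun f => ⟨hc'.1.1.map f fun g hg x => by rw [ha' g hg, tr_apply], ?_⟩⟩)
    have : Finite (M' →+ ZMod (2 ^ 1)) := finite_hom
    obtain ⟨x, rfl⟩ := ((Nat.bijective_iff_injective_and_card b).2
      ⟨(injective_iff_map_eq_zero b).2 fun x hx => hd.left x fun y => by rw [hx]; rfl,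
        le_antisymm (Nat.card_le_card_of_injective b ((injective_iff_map_eq_zero b).2 fun x hx =>
          hd.left x fun y => by rw [hx]; rfl)) (hd.card_eq ▸ card_hom_le)⟩).2 f
    rw [← mu5_cup ha']
    exact hc'.2 _ (muc_mem ha (hd.pow_smul x))

/-- The formula of Greenberg and Wiles for characters. -/
theorem mu_gw (F : CFT) (su : SUStmt) (ch : ChebStmt) {n : ℕ} (hn : 0 < n) [Finite M] [Finite M']
    (hd : Dual 1 (GK n) a a' b) {s R X : Finset Plc} {v : Plc}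
    (hs : Apart (GK n) s) (e : s = R ∪ X ∪ {v}) (d : Disjoint R X) (hv : v.p = 2)
    (ho : ∀ w ∈ R ∪ X, w.p ≠ 2) (hg : GoodA (GK n) a s) (ha : ∀ g ∈ GK n ⊓ Dec v, ∀ x, a g x = x)
    (ha' : ∀ g ∈ GK n ⊓ Dec v, ∀ x, a' g x = x) (ex : ∃ φ ∈ GK n ⊓ Dec v, om δ φ = 1) :
    Nat.card (ZZ (GK n) a s R v (Lw (GK n) v δ a) ∅) * (∏ w ∈ R, Nat.card (H0 (GK n ⊓ Dec w) a)) *
      Nat.card M = Nat.card (ZZ (GK n) a' s X v (Ln F (op_GK n) v δ a') ∅) *
        ∏ w ∈ X, Nat.card (H0 (GK n ⊓ Dec w) a') := by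
  obtain ⟨φ, hφ, h1⟩ := ex
  have v1 : v ∉ R := fun k => ho v (mem_union_left _ k) hv
  have v2 : v ∉ X := fun k => ho v (mem_union_right _ k) hv
  have k := (gw F su ch 1 (GK n) M M' a a' b s R X {v} (fun w => Lw (GK n) w δ a)
    (fun w => Ln F (op_GK n) w δ a') (op_GK n) (tc_of_le hn le_rfl) (index_GK hn) hd hs e d
    (disjoint_singleton_right.2 v1) (disjoint_singleton_right.2 v2) ho hg fun w hw => by
      rw [mem_singleton.1 hw]
      exact maxIso_w F (op_GK n) (hd.mono inf_le_left) ha ha' hφ h1).2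
  have m : v ∈ s := e ▸ mem_union_right _ (mem_singleton_self v)
  rw [card_Sel_ZZ (e ▸ subset_union_left.trans subset_union_left) m v1,
    card_Sel_ZZ (e ▸ subset_union_right.trans subset_union_left) m v2, index_GK hn,
    prod_singleton, card_Lw ha hφ h1 hd.pow_smul, card_singleton,
    pow_succ, ← mul_assoc] at k
  simpa using Nat.eq_of_mul_eq_mul_right Nat.card_pos k

end Pool.Agent.Lib.MP_696deb_nt.B3
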