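import Pool.Agent.Lib.MP_696deb_nt.B3.A0

/-! Sums over the classes of pairs of forms. -/

set_option autoImplicit false

open scoped Classical
open Finset NumberTheorySymbols

namespace Pool.Agent.Lib.MP_696deb_nt.B3

open B2

/-- The sum over the classes of pairs of forms. -/
noncomputable def orb (F : Fm × Fm → ℤ) : ℤ := ∑ᶠ x : Quot PEq, F x.out

/-- Only finitely many classes contribute. -/
def OFin (F : Fm × Fm → ℤ) : Prop := {x : Quot PEq | F x.out ≠ 0}.Finite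

/-- Functions on the classes of pairs. -/
def PInv (F : Fm × Fm → ℤ) : Prop := ∀ p q, PEq p q → F q = F p

/-- The weight `W` on the pairs of two families with given bilinear form. -/
def ptm (D ρ E β t : ℤ) (W : Fm → Fm → ℤ) (p : Fm × Fm) : ℤ :=
  if Fam D ρ p.1 ∧ Fam E β p.2 ∧ fbil p.1 p.2 = t then W p.1 p.2 else 0

/-- The weighted number of classes of pairs. -/
noncomputable def pcn (D ρ E β t : ℤ) (W : Fm → Fm → ℤ) : ℤ := orb (ptm D ρ E β t W)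

/-- Weights that do not change if the conductor at a prime factor of `N` is moved. -/
structure Cm (N : ℤ) (Φ : Fm → Fm → ℤ) : Prop where
  inv : ∀ (Q R : Fm) (a b c d : ℤ), a * d - b * (15 * c) = 1 → 15 ∣ Q.1 → 15 ∣ R.1 →
    Φ (fmap Q a b (15 * c) d) (fmap R a b (15 * c) d) = Φ Q R
  tr : ∀ p : ℕ, p.Prime → (p : ℤ) ∣ N → ∀ a b c α β γ : ℤ, 15 ∣ a → 15 ∣ α →
    Φ (p ^ 2 * a, p * b, c) (α, β, γ) = Φ (a, b, c) (α, p * β, p ^ 2 * γ)
  sc : 2 ∣ N → ∀ (Q : Fm) (α β γ : ℤ), 15 ∣ α → Φ Q (4 * α, 4 * β, 4 * γ) = Φ Q (α, β, γ)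
  w3 : 3 ∣ N → ∀ Q R : Fm, 15 ∣ Q.1 → 15 ∣ R.1 → Φ (fW Q) (fW R) = Φ Q R
  w5 : 5 ∣ N → ∀ Q R : Fm, 15 ∣ Q.1 → 15 ∣ R.1 → Φ (fV (fW Q)) (fV (fW R)) = Φ Q R

/-- Forms with even middle coefficient that are primitive at two. -/
def Pr2 (Q : Fm) : Prop := ¬ (2 ∣ Q.1 ∧ 2 ∣ Q.2.2)

/-- The indicator of the positive definite forms. -/
def ipos (Q : Fm) : ℤ := if fdisc Q < 0 ∧ 0 < Q.1 then 1 else 0

/-- The product of two genus characters. -/
def gg (A B : ℕ) (Q R : Fm) : ℤ :=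
  if (A : ℤ) ∣ fdisc Q ∧ (B : ℤ) ∣ fdisc R then gch A Q * gch B R else 0

/-- The indicator of the forms whose isogeny of degree `p` lowers the conductor. -/
def idn (p : ℤ) (Q : Fm) : ℤ := if p ∣ Q.2.1 ∧ ¬ p ∣ Q.2.2 then 1 else 0

/-- The primitive vector `v` is the root of orientation `σ` of the split form `Q`. -/
def Rt (σ : ℤ) (Q : Fm) (v : ℤ × ℤ) : Prop := IsCoprime v.1 v.2 ∧ ∃ s : ℤ, 0 < s ∧
  fdisc Q = s ^ 2 ∧ 2 * Q.1 * v.1 + (Q.2.1 + σ * s) * v.2 = 0 ∧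
    (Q.2.1 - σ * s) * v.1 + 2 * Q.2.2 * v.2 = 0

/-- The value of `R` at a root of `Q`. -/
noncomputable def rv (σ : ℤ) (Q R : Fm) : ℤ :=
  if h : ∃ v, Rt σ Q v then fval R h.choose.1 h.choose.2 else 0

/-- The sign at the first root. -/
noncomputable def rsg (Q R : Fm) : ℤ := (rv 1 Q R).sign

/-- The difference of the valuations at the two roots, with the sign at the first. -/
noncomputable def rvl (l : ℕ) (Q R : Fm) : ℤ :=
  (rv 1 Q R).sign * (padicValInt l (rv (-1) Q R) - padicValInt l (rv 1 Q R))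

variable {N N' D ρ ρ' E β β' t : ℤ} {Φ Ψ W W' : Fm → Fm → ℤ}

theorem Cm.mono (h : Cm N Φ) (k : N' ∣ N) : Cm N' Φ :=
  ⟨h.inv, fun p hp l => h.tr p hp (l.trans k), fun l => h.sc (l.trans k),
    fun l => h.w3 (l.trans k), fun l => h.w5 (l.trans k)⟩

theorem Cm.mul (h : Cm N Φ) (k : Cm N Ψ) : Cm N fun Q R => Φ Q R * Ψ Q R where
  inv Q R a b c d e h1 h2 := by rw [h.inv Q R a b c d e h1 h2, k.inv Q R a b c d e h1 h2]
  tr p hp l a b c α β γ h1 h2 := by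
    rw [h.tr p hp l a b c α β γ h1 h2, k.tr p hp l a b c α β γ h1 h2]
  sc l Q α β γ h1 := by rw [h.sc l Q α β γ h1, k.sc l Q α β γ h1]
  w3 l Q R h1 h2 := by rw [h.w3 l Q R h1 h2, k.w3 l Q R h1 h2]
  w5 l Q R h1 h2 := by rw [h.w5 l Q R h1 h2, k.w5 l Q R h1 h2]

theorem fam_congr (h : 30 ∣ ρ - ρ') {Q : Fm} : Fam D ρ Q ↔ Fam D ρ' Q :=
  and_congr_right' (and_congr_right' (by omega))

theorem pcn_mod (h : 30 ∣ ρ - ρ') (k : 30 ∣ β - β') : pcn D ρ E β t W = pcn D ρ' E β' t W := by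
  unfold pcn ptm
  simp only [fam_congr h, fam_congr k]

theorem pcn_congr (h : ∀ Q R, Fam D ρ Q → Fam E β R → fbil Q R = t → W Q R = W' Q R) :
    pcn D ρ E β t W = pcn D ρ E β t W' :=
  congrArg orb (funext fun _ => if_ctx_congr Iff.rfl (fun k => h _ _ k.1 k.2.1 k.2.2) fun _ => rfl)

theorem pcn_mul (c : ℤ) : pcn D ρ E β t (fun Q R => c * W Q R) = c * pcn D ρ E β t W := by
  unfold pcn orb ptm
  rw [mul_finsum]
  exact finsum_congr fun x => by split_ifs <;> simp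

theorem pcn_zero (h : ∀ Q R, Fam D ρ Q → Fam E β R → fbil Q R = t → W Q R = 0) :
    pcn D ρ E β t W = 0 := by
  rw [pcn_congr (W' := fun Q R => 0 * W Q R) fun Q R a b c => by rw [h Q R a b c, mul_zero],
    pcn_mul, zero_mul]

theorem pinv_ptm (h : ∀ (Q R : Fm) (a b c d : ℤ), a * d - b * (15 * c) = 1 → Fam D ρ Q →
    Fam E β R → W (fmap Q a b (15 * c) d) (fmap R a b (15 * c) d) = W Q R) :
    PInv (ptm D ρ E β t W) := by
  rintro ⟨Q, R⟩ ⟨_, _⟩ ⟨a, b, c, d, e, rfl, rfl⟩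
  have h1 : FEq Q (fmap Q a b (15 * c) d) := ⟨a, b, c, d, e, rfl⟩
  have h2 : FEq R (fmap R a b (15 * c) d) := ⟨a, b, c, d, e, rfl⟩
  refine if_ctx_congr (and_congr ⟨h1.symm.fam, h1.fam⟩ (and_congr ⟨h2.symm.fam, h2.fam⟩ ?_))
    (fun k => h Q R a b c d e k.1 k.2.1) fun _ => rfl
  rw [fbil_fmap e]

theorem Cm.pinv (h : Cm N Φ) : PInv (ptm D ρ E β t Φ) :=
  pinv_ptm fun Q R a b c d e h1 h2 => h.inv Q R a b c d e h1.1 h2.1

end Pool.Agent.Lib.MP_696deb_nt.B3
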