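import Pool.Agent.Lib.MP_696deb_nt.B3.P0

/-! Correspondences between classes of pairs of forms. -/

set_option autoImplicit false

open scoped Classical
open Finset NumberTheorySymbols

namespace Pool.Agent.Lib.MP_696deb_nt.B3

open B2

variable {F G : Fm × Fm → ℤ} {S : Finset Fm} {m : Fm → ℤ}

theorem peq_refl (p : Fm × Fm) : PEq p p :=
  ⟨1, 0, 0, 1, by norm_num, by simp [fmap, fval], by simp [fmap, fval]⟩

theorem mk_eq {p q : Fm × Fm} : Quot.mk PEq p = Quot.mk PEq q ↔ PEq p q := by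
  rw [Quot.eq]
  exact Equivalence.eqvGen_iff ⟨peq_refl, PEq.symm, PEq.trans⟩

theorem out_mk (p : Fm × Fm) : PEq (Quot.mk PEq p).out p := mk_eq.1 (Quot.out_eq _)

theorem eq_of_out {x : Quot PEq} {p : Fm × Fm} (h : PEq p x.out) : Quot.mk PEq p = x :=
  (mk_eq.2 h).trans (Quot.out_eq x)

/-- Two sums agree if their supports have normal forms with the same parameters. -/
theorem corr {I : Type} (u v : I → Fm × Fm) (hF : PInv F) (hG : PInv G)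
    (h1 : ∀ p, F p ≠ 0 → ∃ i, PEq (u i) p) (h2 : ∀ q, G q ≠ 0 → ∃ i, PEq (v i) q)
    (h3 : ∀ i j, F (u i) ≠ 0 → F (u j) ≠ 0 → (PEq (u i) (u j) ↔ PEq (v i) (v j)))
    (h4 : ∀ i, F (u i) = G (v i)) : orb F = orb G := by
  choose c hc using fun (x : Quot PEq) => h1 x.out
  have k1 : ∀ x h, F (u (c x h)) = F x.out := fun x h => (hF _ _ (hc x h)).symm
  have k2 : ∀ i, G (Quot.mk PEq (v i)).out = G (v i) := fun i => (hG _ _ (out_mk _)).symm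
  rw [orb, orb, ← finsum_mem_support, ← finsum_mem_support fun y : Quot PEq => G y.out]
  refine finsum_mem_eq_of_bijOn
    (fun x => if h : F x.out ≠ 0 then Quot.mk PEq (v (c x h)) else x) ⟨fun x hx => ?_,
    fun x hx y hy e => ?_, fun y hy => ?_⟩ fun x hx => ?_
  · rw [Function.mem_support] at hx ⊢
    beta_reduce
    rwa [dif_pos hx, k2, ← h4, k1]
  · rw [Function.mem_support] at hx hy
    simp only [dif_pos hx, dif_pos hy, mk_eq] at e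
    rw [← h3 _ _ (k1 x hx ▸ hx) (k1 y hy ▸ hy)] at e
    exact (eq_of_out (hc x hx)).symm.trans (eq_of_out (e.trans (hc y hy)))
  · rw [Function.mem_support] at hy
    obtain ⟨j, hj⟩ := h2 _ hy
    have h5 : F (u j) ≠ 0 := by rwa [h4, ← hG _ _ hj]
    have h6 : F (Quot.mk PEq (u j)).out ≠ 0 := by rwa [hF _ _ (out_mk _)] at h5
    refine ⟨_, h6, (dif_pos h6).trans (eq_of_out (PEq.trans ?_ hj))⟩
    exact (h3 _ _ (k1 _ h6 ▸ h6) h5).1 ((hc _ h6).trans (out_mk _))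
  · rw [Function.mem_support] at hx
    rw [dif_pos hx, k2, ← h4, k1]

theorem orb_neg (F : Fm × Fm → ℤ) : orb (fun p => -F p) = -orb F := finsum_neg_distrib _

theorem orb_add (hF : OFin F) (hG : OFin G) : orb (fun p => F p + G p) = orb F + orb G :=
  finsum_add_distrib hF hG

theorem OFin.mono (hG : OFin G) (h : ∀ p, F p ≠ 0 → G p ≠ 0) : OFin F :=
  hG.subset fun _ k => h _ k

theorem orb_eq_sum (hS : Sys S m) (hF : PInv F) (hm : ∀ p, F p ≠ 0 → m p.1 ≠ 0)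
    (hf : ∀ Q ∈ S, {R | F (Q, R) ≠ 0}.Finite) : orb F = ∑ Q ∈ S, ∑ᶠ R, F (Q, R) := by
  have h1 : {p : Fm × Fm | p.1 ∈ S ∧ F p ≠ 0}.Finite :=
    (S.finite_toSet.biUnion fun Q hQ => (hf Q hQ).image (Prod.mk Q)).subset fun p hp =>
      Set.mem_biUnion hp.1 ⟨p.2, hp.2, rfl⟩
  rw [sum_finsum_eq (F := fun Q R => F (Q, R)) (X := h1.toFinset)
    (fun p hp => (h1.mem_toFinset.1 hp).1) fun Q hQ R hR => h1.mem_toFinset.2 ⟨hQ, hR⟩, orb,
    finsum_eq_sum_of_support_subset (s := h1.toFinset.image (Quot.mk PEq)) _ fun x hx => ?_,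
    sum_image fun p hp q hq e => ?_]
  · exact sum_congr rfl fun p _ => (hF _ _ (out_mk p)).symm
  · rw [mem_coe, h1.mem_toFinset] at hp hq
    exact hS.uniq_pair (hm _ hp.2) hp.1 hq.1 (mk_eq.1 e)
  · obtain ⟨q, h2, h3⟩ := hS.ex_pair (hm _ hx)
    exact mem_coe.2 (mem_image.2 ⟨q, h1.mem_toFinset.2 ⟨h2, hF _ _ h3 ▸ hx⟩, eq_of_out h3⟩)

variable {D ρ E β t : ℤ} {W : Fm → Fm → ℤ} {T : Finset Fm}

theorem pcn_swap (h : PInv (ptm D ρ E β t W)) :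
    pcn E β D ρ t (fun R Q => W Q R) = pcn D ρ E β t W := by
  have k : ∀ p : Fm × Fm, ptm E β D ρ t (fun R Q => W Q R) p = ptm D ρ E β t W p.swap := fun p =>
    if_congr (by
      rw [show fbil p.1 p.2 = fbil p.swap.1 p.swap.2 by simp only [fbil, Prod.swap]; ring]
      exact and_left_comm) rfl rfl
  exact corr id Prod.swap (fun p q e => by rw [k, k, h _ _ e.swap]) h
    (fun p _ => ⟨p, peq_refl p⟩) (fun q _ => ⟨q.swap, peq_refl q⟩)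
    (fun i j _ _ => ⟨PEq.swap, PEq.swap⟩) k

theorem fbil_fV {Q R : Fm} (hQ : 15 ∣ Q.1) (hR : 15 ∣ R.1) : fbil (fV Q) (fV R) = fbil Q R := by
  obtain ⟨_, b, c⟩ := Q
  obtain ⟨_, β, γ⟩ := R
  obtain ⟨a, rfl⟩ := hQ
  obtain ⟨α, rfl⟩ := hR
  simp [fbil, fV]
  ring

theorem fV_fmap {Q : Fm} (h : 15 ∣ Q.1) (x y z u : ℤ) :
    fV (fmap Q x y (15 * z) u) = fmap (fV Q) u (-z) (15 * -y) x := by
  obtain ⟨_, b, c⟩ := Q
  obtain ⟨a, rfl⟩ := h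
  simp only [fV, fmap, fval, Prod.mk.injEq, ne_eq, OfNat.ofNat_ne_zero,
    not_false_eq_true, mul_div_cancel_left₀]
  refine ⟨by ring, by ring, ?_⟩
  rw [Int.ediv_eq_iff_eq_mul_right (by norm_num) ⟨a * x ^ 2 + b * x * z + 15 * c * z ^ 2, by ring⟩]
  ring

theorem peq_fV {p q : Fm × Fm} (h1 : 15 ∣ p.1.1) (h2 : 15 ∣ p.2.1) (h : PEq p q) :
    PEq (fV p.1, fV p.2) (fV q.1, fV q.2) := by
  obtain ⟨x, y, z, u, e, k1, k2⟩ := h
  exact ⟨u, -z, -y, x, by linear_combination e, by rw [k1, fV_fmap h1], by rw [k2, fV_fmap h2]⟩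

theorem peq_lev {p q : Fm × Fm} (h : PEq p q) (k : 15 ∣ p.1.1 ∧ 15 ∣ p.2.1) :
    15 ∣ q.1.1 ∧ 15 ∣ q.2.1 := by
  obtain ⟨x, y, z, u, e, k1, k2⟩ := h
  exact ⟨(FEq.fam (e := fdisc _) ⟨x, y, z, u, e, k1⟩ ⟨k.1, rfl, 0, sub_self _⟩).1,
    (FEq.fam (e := fdisc _) ⟨x, y, z, u, e, k2⟩ ⟨k.2, rfl, 0, sub_self _⟩).1⟩

theorem fam_fV_iff {Q : Fm} (h : 15 ∣ Q.1) : Fam D ρ (fV Q) ↔ Fam D (-ρ) Q :=
  ⟨fun k => fV_fV h ▸ fam_fV k, fun k => neg_neg ρ ▸ fam_fV k⟩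

theorem ptm_fam {p : Fm × Fm} (h : ptm D ρ E β t W p ≠ 0) :
    Fam D ρ p.1 ∧ Fam E β p.2 ∧ fbil p.1 p.2 = t := by_contra fun k => h (if_neg k)

theorem ptm_ne {p : Fm × Fm} (h : ptm D ρ E β t W p ≠ 0) : W p.1 p.2 ≠ 0 := fun k =>
  h ((if_pos (ptm_fam h)).trans k)

theorem pcn_fV (h : PInv (ptm D ρ E β t W)) :
    pcn D (-ρ) E (-β) t (fun Q R => W (fV Q) (fV R)) = pcn D ρ E β t W := by
  have k : ∀ p : Fm × Fm, 15 ∣ p.1.1 → 15 ∣ p.2.1 →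
      ptm D (-ρ) E (-β) t (fun Q R => W (fV Q) (fV R)) p = ptm D ρ E β t W (fV p.1, fV p.2) :=
    fun p h1 h2 => if_congr (by rw [fam_fV_iff h1, fam_fV_iff h2, fbil_fV h1 h2]) rfl rfl
  have l : ∀ Q : Fm, 15 ∣ (fV Q).1 := fun Q => dvd_mul_right _ _
  refine corr (I := {p : Fm × Fm // 15 ∣ p.1.1 ∧ 15 ∣ p.2.1}) Subtype.val
    (fun p => (fV p.1.1, fV p.1.2)) (fun p q e => ?_) h
    (fun p hp => ⟨⟨p, (ptm_fam hp).1.1, (ptm_fam hp).2.1.1⟩, peq_refl p⟩)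
    (fun q hq => ⟨⟨(fV q.1, fV q.2), l _, l _⟩, ?_⟩)
    (fun i j _ _ => ⟨peq_fV i.2.1 i.2.2, fun e => ?_⟩) fun i => k i.1 i.2.1 i.2.2
  · by_cases h1 : 15 ∣ p.1.1 ∧ 15 ∣ p.2.1
    · rw [k p h1.1 h1.2, k q (peq_lev e h1).1 (peq_lev e h1).2, h _ _ (peq_fV h1.1 h1.2 e)]
    · exact (if_neg fun h2 => h1 (peq_lev e.symm ⟨h2.1.1, h2.2.1.1⟩)).trans
        (if_neg fun h2 => h1 ⟨h2.1.1, h2.2.1.1⟩).symm
  · simp only [fV_fV (ptm_fam hq).1.1, fV_fV (ptm_fam hq).2.1.1]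
    exact peq_refl q
  · simpa only [fV_fV i.2.1, fV_fV i.2.2, fV_fV j.2.1, fV_fV j.2.2] using peq_fV (l _) (l _) e

/-- The count of pairs of a point and a form. -/
theorem pcn_cntP (hD : D < 0) (hT : FReps D ρ T) {u w : Fm → ℤ}
    (hu : ∀ Q R, Fam D ρ Q → FEq Q R → u R = u Q) (hw : ∀ Q R, Fam E β Q → FEq Q R → w R = w Q) :
    pcn D ρ E β t (fun Q R => ipos Q * (u Q * w R)) =
      cntP T u (fun R => if Fam E β R then w R else 0) t := by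
  have k : ∀ Q R, Fam D ρ Q → FEq Q R → ipos R = ipos Q := fun Q R h e =>
    if_congr (by
      rw [(e.fam h).2.1, h.2.1]
      exact and_congr_right fun _ => ⟨e.symm.pos ((e.fam h).2.1 ▸ hD), e.pos (h.2.1 ▸ hD)⟩) rfl rfl
  have hS : Sys T fun Q => if Fam D ρ Q then ipos Q else 0 := by
    refine ⟨fun Q R e => if_ctx_congr ⟨e.symm.fam, e.fam⟩ (fun h => k Q R h e) fun _ => rfl,
      fun R hR => ?_, hT.uniq, fun Q hQ _ a b c d => free_of_neg ((hT.fam Q hQ).2.1 ▸ hD)⟩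
    have h1 : Fam D ρ R := by_contra fun h => hR (if_neg h)
    exact hT.ex R h1 (by_contra fun h => hR ((if_pos h1).trans (if_neg fun h' => h h'.2)))
  rw [pcn, orb_eq_sum hS (pinv_ptm fun Q R a b c d e h1 h2 => ?_) (fun p hp => ?_) fun Q hQ => ?_,
    cntP]
  · refine sum_congr rfl fun Q hQ => ?_
    rw [mul_finsum]
    refine finsum_congr fun R => ?_
    simp only [ptm, hT.fam Q hQ, true_and, ipos, (hT.fam Q hQ).2.1, hD, hT.pos Q hQ, if_true,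
      one_mul]
    by_cases h1 : Fam E β R <;> by_cases h2 : fbil Q R = t <;> simp [h1, h2]
  · rw [k Q _ h1 ⟨a, b, c, d, e, rfl⟩, hu Q _ h1 ⟨a, b, c, d, e, rfl⟩,
      hw R _ h2 ⟨a, b, c, d, e, rfl⟩]
  · rw [if_pos (ptm_fam hp).1]
    exact left_ne_zero_of_mul (ptm_ne hp)
  · exact (M1.finite_def ((hT.fam Q hQ).2.1 ▸ hD) (hT.pos Q hQ) E t).subset fun R hR =>
      ⟨(ptm_fam hR).2.1.2.1, (ptm_fam hR).2.2⟩

end Pool.Agent.Lib.MP_696deb_nt.B3
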