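import Pool.Agent.Lib.MP_696deb_nt.B3.P1

/-! Finiteness of the number of classes of pairs, and the classes of split forms. -/

set_option autoImplicit false

open scoped Classical
open Finset NumberTheorySymbols

namespace Pool.Agent.Lib.MP_696deb_nt.B3

open B2

variable {D ρ E β t : ℤ}

theorem p1f_def {Q : Fm} (hD : fdisc Q < 0) (E t : ℤ) :
    {R : Fm | fdisc R = E ∧ fbil Q R = t}.Finite := by
  obtain ⟨a, b, c⟩ := Q
  have ha : a ≠ 0 := fun k => by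
    simp only [fdisc, k] at hD
    nlinarith [sq_nonneg b]
  refine Set.Finite.of_injOn (f := fun R : Fm => (R.1 + a * t, a * R.2.1 - b * R.1))
    (fun R ⟨h1, h2⟩ => ?_) (fun R hR S hS e => ?_)
    ((Set.finite_Icc (-(a ^ 2 * (E + t ^ 2))) (a ^ 2 * (E + t ^ 2))).prod
      (Set.finite_Icc (-(a ^ 2 * (E + t ^ 2))) (a ^ 2 * (E + t ^ 2))))
  · have h3 : (R.1 + a * t) ^ 2 + (a * R.2.1 - b * R.1) ^ 2 =
        a ^ 2 * (E + t ^ 2) + R.1 ^ 2 * (fdisc (a, b, c) + 1) := by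
      simp only [fdisc, fbil] at h1 h2 ⊢
      linear_combination a ^ 2 * h1 - 2 * a * R.1 * h2
    have h4 : R.1 ^ 2 * (fdisc (a, b, c) + 1) ≤ 0 :=
      mul_nonpos_of_nonneg_of_nonpos (sq_nonneg _) (by omega)
    have k : ∀ x : ℤ, |x| ≤ x ^ 2 := fun x => sq_abs x ▸ Int.le_self_sq |x|
    exact ⟨abs_le.1 ((k _).trans (by linarith [sq_nonneg (a * R.2.1 - b * R.1)])),
      abs_le.1 ((k _).trans (by linarith [sq_nonneg (R.1 + a * t)]))⟩
  · obtain ⟨e1, e2⟩ := Prod.ext_iff.1 e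
    have h1 : R.1 = S.1 := add_right_cancel e1
    have h2 : R.2.1 = S.2.1 := mul_left_cancel₀ ha (by linear_combination e2 + b * h1)
    have h3 := hR.2.trans hS.2.symm
    simp only [fbil, h1, h2] at h3
    exact Prod.ext h1 (Prod.ext h2 (mul_left_cancel₀ ha (by linarith)))

theorem p1f_lin {A : ℤ} (hA : A ≠ 0) (ht : t ^ 2 ≠ A ^ 2 * E) (k : ℤ) :
    {R : Fm | fdisc R = E ∧ fbil (0, A, -k) R = t}.Finite := by
  refine (finite_line E hA k |t|).subset fun R ⟨h1, h2⟩ => ?_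
  have h3 := fbil_line A k R
  rw [h1, h2] at h3
  exact ⟨h1, fun e => ht (by simpa [e, sub_eq_zero] using h3),
    fun e => ht (by simpa [e, sub_eq_zero] using h3), h2 ▸ le_rfl⟩

/-- finiteness for the full modular group is enough -/
theorem p1f_fin {S : Set Fm} (hS : S.Finite)
    (h1 : ∀ Q ∈ S, {R : Fm | fdisc R = E ∧ fbil Q R = t}.Finite)
    (h2 : ∀ Q, Fam D ρ Q → ∃ a b c d, a * d - b * c = 1 ∧ fmap Q a b c d ∈ S) (W : Fm → Fm → ℤ) :
    OFin (ptm D ρ E β t W) := by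
  have hX : {p : Fm × Fm | p.1 ∈ S ∧ fdisc p.2 = E ∧ fbil p.1 p.2 = t}.Finite :=
    (hS.biUnion fun Q hQ => (h1 Q hQ).image (Prod.mk Q)).subset fun p hp =>
      Set.mem_biUnion (x := p.1) hp.1 ⟨p.2, hp.2, rfl⟩
  have h3 : ∀ p, ptm D ρ E β t W p ≠ 0 → Fam D ρ p.1 ∧ Fam E β p.2 ∧ fbil p.1 p.2 = t :=
    fun p h => by_contra fun k => h (if_neg k)
  choose! a b c d e hm using h2
  refine Set.Finite.of_injOn (f := fun x : Quot PEq =>
    ((fmap x.out.1 (a x.out.1) (b x.out.1) (c x.out.1) (d x.out.1),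
      fmap x.out.2 (a x.out.1) (b x.out.1) (c x.out.1) (d x.out.1)),
      ((c x.out.1 : ZMod 15), (d x.out.1 : ZMod 15))))
    (fun x hx => ?_) (fun x hx y hy k => ?_) (hX.prod Set.finite_univ)
  · obtain ⟨k1, k2, k3⟩ := h3 _ hx
    exact ⟨⟨hm _ k1, (fdisc_fmap (e _ k1) _).trans k2.2.1, (fbil_fmap (e _ k1) _ _).trans k3⟩,
      trivial⟩
  · have e1 := e _ (h3 _ hx).1
    have e2 := e _ (h3 _ hy).1
    simp only [Prod.mk.injEq] at k
    obtain ⟨⟨k1, k2⟩, k3, k4⟩ := k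
    obtain ⟨z, hz⟩ : (15 : ℤ) ∣ c x.out.1 * d y.out.1 + d x.out.1 * -c y.out.1 :=
      (ZMod.intCast_zmod_eq_zero_iff_dvd _ 15).1 (by
        push_cast
        rw [k3, k4]
        ring)
    rw [← x.out_eq, ← y.out_eq]
    refine Quot.sound ⟨a x.out.1 * d y.out.1 + b x.out.1 * -c y.out.1,
      a x.out.1 * -b y.out.1 + b x.out.1 * a y.out.1, z,
      c x.out.1 * -b y.out.1 + d x.out.1 * a y.out.1, ?_, ?_, ?_⟩
    · rw [← hz]
      linear_combination (a y.out.1 * d y.out.1 - b y.out.1 * c y.out.1) * e1 + e2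
    · rw [← hz, ← fmap_fmap, k1, fmap_inv e2]
    · rw [← hz, ← fmap_fmap, k2, fmap_inv e2]

theorem p1f_root {R : Fm} {A : ℤ} (hA : A ≠ 0) (h : fdisc R = A ^ 2) : ∃ x y : ℤ, IsCoprime x y ∧
    2 * R.1 * x + (R.2.1 + A) * y = 0 ∧ (R.2.1 - A) * x + 2 * R.2.2 * y = 0 := by
  rw [fdisc] at h
  obtain ⟨u, v, h0, h1, h2⟩ : ∃ u v : ℤ, 0 < u.gcd v ∧ 2 * R.1 * u + (R.2.1 + A) * v = 0 ∧
      (R.2.1 - A) * u + 2 * R.2.2 * v = 0 := by
    by_cases k : R.2.1 + A = 0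
    · exact ⟨2 * R.2.2, A - R.2.1, Int.gcd_pos_of_ne_zero_right _ (by omega),
        by linear_combination -h, by ring⟩
    · exact ⟨R.2.1 + A, -(2 * R.1), Int.gcd_pos_of_ne_zero_left _ k, by ring,
        by linear_combination h⟩
  obtain ⟨g, x, y, g0, hxy, rfl, rfl⟩ := Int.exists_gcd_one' h0
  have g0' : (g : ℤ) ≠ 0 := by exact_mod_cast g0.ne'
  exact ⟨x, y, Int.isCoprime_iff_gcd_eq_one.2 hxy, mul_right_cancel₀ g0' (by linear_combination h1),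
    mul_right_cancel₀ g0' (by linear_combination h2)⟩

/-- reduction of a split form -/
theorem p1f_red {R : Fm} {A : ℤ} (hA : 0 < A) (h : fdisc R = A ^ 2) : ∃ k ∈ Ico 0 A, ∃ x w y z : ℤ,
    x * z - w * y = 1 ∧ fmap R x w y z = (0, A, -k) ∧ 2 * R.1 * x + (R.2.1 + A) * y = 0 ∧
      (R.2.1 - A) * x + 2 * R.2.2 * y = 0 := by
  obtain ⟨x, y, ⟨z, w, e⟩, k1, k2⟩ := p1f_root hA.ne' h
  obtain ⟨C, hC⟩ : ∃ C, C = fval R (-w) z := ⟨_, rfl⟩
  refine ⟨-C % A, mem_Ico.2 ⟨Int.emod_nonneg _ hA.ne', Int.emod_lt_of_pos _ hA⟩, x,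
    -w + -C / A * x, y, z + -C / A * y, by linear_combination e, ?_, k1, k2⟩
  rw [Int.emod_def]
  generalize -C / A = j
  refine Prod.ext (mul_left_cancel₀ two_ne_zero ?_) (Prod.ext ?_
    (mul_left_cancel₀ two_ne_zero ?_)) <;> simp only [fmap, fval] at hC ⊢
  · linear_combination x * k1 + y * k2
  · linear_combination (-w + j * x) * k1 + (z + j * y) * k2 + A * e
  · linear_combination (j ^ 2 * x - 2 * j * w) * k1 + (j ^ 2 * y + 2 * j * z) * k2 +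
      2 * j * A * e - 2 * hC

theorem ofin (hD : D < 0 ∨ D ≠ 0 ∧ IsSquare D) (ht : t ^ 2 ≠ D * E) (W : Fm → Fm → ℤ) :
    OFin (ptm D ρ E β t W) := by
  rcases hD with hD | ⟨h0, r, hr⟩
  · obtain ⟨T, hT⟩ := exists_freps hD ρ
    obtain ⟨T', hT'⟩ := exists_freps hD (-ρ)
    have hn : ∀ Q : Fm, fdisc (-Q) = fdisc Q := fun Q => by simp [fdisc]
    refine p1f_fin (S := T ∪ (fun Q => -Q) '' T') (T.finite_toSet.union (T'.finite_toSet.image _))
      ?_ (fun Q hQ => ?_) W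
    · rintro _ (hQ | ⟨Q, hQ, rfl⟩)
      · exact p1f_def ((hT.fam _ hQ).2.1 ▸ hD) _ _
      · exact p1f_def ((hn Q).trans_lt ((hT'.fam _ hQ).2.1 ▸ hD)) _ _
    · rcases lt_trichotomy 0 Q.1 with k | k | k
      · obtain ⟨R, hR, e⟩ := hT.ex Q hQ k
        obtain ⟨a, b, c, d, e', rfl⟩ := e.symm
        exact ⟨a, b, _, d, e', .inl hR⟩
      · have h1 := hQ.2.1
        rw [fdisc, ← k] at h1
        nlinarith [sq_nonneg Q.2.1]
      · obtain ⟨R, hR, e⟩ := hT'.ex (-Q) ⟨hQ.1.neg_right, (hn Q).trans hQ.2.1, by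
          have := hQ.2.2
          simp only [Prod.snd_neg, Prod.fst_neg]
          omega⟩ (neg_pos.2 k)
        obtain ⟨a, b, c, d, e', rfl⟩ := e.symm
        refine ⟨a, b, _, d, e', .inr ⟨_, hR, ?_⟩⟩
        simp only [fmap, fval, Prod.neg_mk, Prod.snd_neg, Prod.fst_neg, Prod.mk.injEq]
        refine ⟨?_, ?_, ?_⟩ <;> ring
  · have h1 : D = |r| ^ 2 := by rw [sq_abs, hr, sq]
    have h2 : 0 < |r| := abs_pos.2 fun k => h0 (by simp [hr, k])
    refine p1f_fin (S := (fun k => ((0, |r|, -k) : Fm)) '' Ico (0 : ℤ) |r|)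
      ((finite_toSet _).image _) ?_ (fun Q hQ => ?_) W
    · rintro _ ⟨k, -, rfl⟩
      exact p1f_lin h2.ne' (h1 ▸ ht) k
    · obtain ⟨k, hk, x, w, y, z, e, h3, -⟩ := p1f_red h2 (hQ.2.1.trans h1)
      exact ⟨x, w, y, z, e, k, hk, h3.symm⟩

theorem sys_lines3 {A : ℕ} (hA : 0 < A) {m : Fm → ℤ} (hm : ∀ Q R, FEq Q R → m R = m Q)
    (hs : ∀ R, m R ≠ 0 → Fam (A ^ 2) A R ∧ IsCoprime R.2.2 (A.gcd 15 : ℕ)) :
    Sys ((Ico (0 : ℤ) A).image fun k => ((0, A, -k) : Fm)) m := by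
  have A0 : (0 : ℤ) < A := by exact_mod_cast hA
  refine ⟨hm, fun R hR => ?_, ?_, fun Q hQ h a b c d e k => ?_⟩
  · obtain ⟨⟨⟨a, ha⟩, h2, l, hl⟩, u, v, huv⟩ := hs R hR
    obtain ⟨k, hk, x, w, y, z, e, h3, k1, k2⟩ := p1f_red A0 h2
    rw [Nat.gcd_eq_gcd_ab] at huv
    obtain ⟨y, rfl⟩ : 15 ∣ y := ⟨v * A.gcdB 15 * y - u * l * x - v * A.gcdA 15 * (a * x + l * y),
      mul_left_cancel₀ two_ne_zero (by
        push_cast at huv
        linear_combination -2 * y * huv + u * k2 - u * x * hl +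
          v * A.gcdA 15 * (k1 - 2 * x * ha - y * hl))⟩
    exact ⟨_, mem_image_of_mem _ hk, FEq.symm ⟨x, w, y, z, e, h3.symm⟩⟩
  · simp only [forall_mem_image, mem_Ico]
    rintro k hk k' hk' ⟨x, w, y, z, e, h⟩
    simp only [fmap, fval, Prod.mk.injEq] at h
    obtain ⟨h1, h2, h3⟩ := h
    obtain rfl : y = 0 := by
      by_contra hy
      have k1 : A * x = k * (15 * y) := mul_left_cancel₀ hy (by linarith)
      have k2 : A * w = k * z := mul_left_cancel₀ hy (by nlinarith)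
      exact A0.ne' (by linear_combination -A * e + z * k1 - 15 * y * k2)
    have h4 : z ^ 2 = 1 := by
      rcases Int.eq_one_or_neg_one_of_mul_eq_one' (show x * z = 1 by simpa using e) with k | k <;>
        simp [k.2]
    have h5 : (A : ℤ) ∣ k - k' := ⟨w * z, by linear_combination h3 - k * h4⟩
    rw [sub_eq_zero.mp (Int.eq_zero_of_abs_lt_dvd h5 (abs_lt.mpr ⟨by omega, by omega⟩))]
  · have := free_of_sq A0.ne' (hs Q h).1.2.1 e k
    omega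

theorem p1f_cop {A : ℕ} {Q R : Fm} (h : FEq Q R)
    (hQ : Fam (A ^ 2) A Q ∧ IsCoprime Q.2.2 (A.gcd 15 : ℕ)) :
    Fam (A ^ 2) A R ∧ IsCoprime R.2.2 (A.gcd 15 : ℕ) := by
  refine ⟨h.fam hQ.1, ?_⟩
  obtain ⟨a, b, c, d, e, rfl⟩ := h
  obtain ⟨⟨⟨i, hi⟩, -, j, hj⟩, h1⟩ := hQ
  obtain ⟨r, hr⟩ : ((A.gcd 15 : ℕ) : ℤ) ∣ A := Int.natCast_dvd_natCast.2 (Nat.gcd_dvd_left _ _)
  obtain ⟨s, hs⟩ : ((A.gcd 15 : ℕ) : ℤ) ∣ (15 : ℕ) :=
    Int.natCast_dvd_natCast.2 (Nat.gcd_dvd_right _ _)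
  generalize ((A.gcd 15 : ℕ) : ℤ) = g at h1 hr hs ⊢
  push_cast at hs
  have h2 : IsCoprime d g := ⟨a, -(b * s * c), by linear_combination e + b * c * hs⟩
  have h3 : (fmap Q a b (15 * c) d).2.2 =
      Q.2.2 * d ^ 2 + g * (s * i * b ^ 2 + (r + 2 * s * j) * b * d) := by
    simp only [fmap, fval]
    linear_combination b ^ 2 * hi + b * d * (hj + hr) + (i * b ^ 2 + 2 * j * b * d) * hs
  rw [h3]
  exact (h1.mul_left h2.pow_left).add_mul_left_left _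

/-- The count of pairs of a vertical line and a form. -/
theorem pcn_lines {A : ℕ} (hA : 0 < A) (ht : t ^ 2 ≠ A ^ 2 * E) {W : Fm → Fm → ℤ}
    (h : PInv (ptm (A ^ 2) A E β t W))
    (hs : ∀ Q R, Fam (A ^ 2) A Q → W Q R ≠ 0 → IsCoprime Q.2.2 (A.gcd 15 : ℕ)) :
    pcn (A ^ 2) A E β t W = ∑ k ∈ Ico (0 : ℤ) A, ∑ᶠ R : Fm,
      if fbil (0, A, -k) R = t ∧ Fam E β R then W (0, A, -k) R else 0 := by
  have h1 : ∀ p, ptm (A ^ 2) A E β t W p ≠ 0 →
      Fam (A ^ 2) A p.1 ∧ Fam E β p.2 ∧ fbil p.1 p.2 = t :=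
    fun p h => by_contra fun k => h (if_neg k)
  have hS := sys_lines3 hA
    (m := fun Q => if Fam (A ^ 2) A Q ∧ IsCoprime Q.2.2 (A.gcd 15 : ℕ) then 1 else 0)
    (fun Q R e => if_congr ⟨p1f_cop e.symm, p1f_cop e⟩ rfl rfl)
    fun R k => by_contra fun j => k (if_neg j)
  rw [pcn, orb_eq_sum hS h (fun p k => ?_) (forall_mem_image.2 fun k _ => ?_),
    sum_image fun k _ l _ h => by simpa using h]
  · refine sum_congr rfl fun k _ => finsum_congr fun R => if_congr ?_ rfl rfl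
    exact ⟨fun j => ⟨j.2.2, j.2.1⟩, fun j => ⟨⟨dvd_zero _, by simp [fdisc], by simp⟩, j.2, j.1⟩⟩
  · exact (if_pos ⟨(h1 p k).1, hs _ p.2 (h1 p k).1 fun j => k ((if_pos (h1 p k)).trans j)⟩).trans_ne
      one_ne_zero
  · exact (p1f_lin (Nat.cast_ne_zero.2 hA.ne') ht k).subset fun R j =>
      ⟨(h1 _ j).2.1.2.1, (h1 _ j).2.2⟩

end Pool.Agent.Lib.MP_696deb_nt.B3
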