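import Pool.Agent.Lib.MP_696deb_nt.B3.P1

/-! The conductor at two is moved from one form to the other. -/

set_option autoImplicit false

open scoped Classical
open Finset NumberTheorySymbols

namespace Pool.Agent.Lib.MP_696deb_nt.B3

open B2

variable {D ρ E β t p : ℤ} {Φ : Fm → Fm → ℤ} {Q R : Fm}

/-- The form `Q (p x, y)`. -/
def dnf (p : ℤ) (Q : Fm) : Fm := (p ^ 2 * Q.1, p * Q.2.1, Q.2.2)

/-- The form `Q (x, p y)`. -/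
def upf (p : ℤ) (Q : Fm) : Fm := (Q.1, p * Q.2.1, p ^ 2 * Q.2.2)

theorem fmap_dnf (p : ℤ) (Q : Fm) (a b c d : ℤ) :
    fmap (dnf p Q) a b (p * c) d = dnf p (fmap Q a (p * b) c d) := by
  simp only [dnf, fmap, fval, Prod.mk.injEq]
  refine ⟨?_, ?_, ?_⟩ <;> ring

theorem fmap_upf (p : ℤ) (Q : Fm) (a b c d : ℤ) :
    fmap (upf p Q) a (p * b) c d = upf p (fmap Q a b (p * c) d) := by
  simp only [upf, fmap, fval, Prod.mk.injEq]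
  refine ⟨?_, ?_, ?_⟩ <;> ring

theorem dnf_inj (hp : p ≠ 0) (h : dnf p Q = dnf p R) : Q = R := by
  simp only [dnf, Prod.mk.injEq] at h
  exact Prod.ext (mul_left_cancel₀ (pow_ne_zero 2 hp) h.1)
    (Prod.ext (mul_left_cancel₀ hp h.2.1) h.2.2)

theorem upf_inj (hp : p ≠ 0) (h : upf p Q = upf p R) : Q = R := by
  simp only [upf, Prod.mk.injEq] at h
  exact Prod.ext h.1 (Prod.ext (mul_left_cancel₀ hp h.2.1)
    (mul_left_cancel₀ (pow_ne_zero 2 hp) h.2.2))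

theorem fdisc_dnf (p : ℤ) (Q : Fm) : fdisc (dnf p Q) = p ^ 2 * fdisc Q := by
  simp only [dnf, fdisc]
  ring

theorem fdisc_upf (p : ℤ) (Q : Fm) : fdisc (upf p Q) = p ^ 2 * fdisc Q := by
  simp only [upf, fdisc]
  ring

theorem fbil_dnf (p : ℤ) (Q R : Fm) : fbil (dnf p Q) R = fbil Q (upf p R) := by
  simp only [dnf, upf, fbil]
  ring

theorem fbil_dnf2 (p : ℤ) (Q R : Fm) : fbil (dnf p Q) (dnf p R) = p ^ 2 * fbil Q R := by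
  simp only [dnf, fbil]
  ring

theorem par_mid (Q : Fm) : 2 ∣ fdisc Q - Q.2.1 := by
  obtain ⟨k, hk⟩ := (Int.even_mul_pred_self Q.2.1).two_dvd
  exact ⟨k - 2 * Q.1 * Q.2.2, by simp only [fdisc]; linear_combination hk⟩

theorem fam_dnf (hρ : 2 ∣ D - ρ) : Fam (4 * D) (2 * ρ) (dnf 2 Q) ↔ Fam D ρ Q := by
  have := par_mid Q
  simp only [Fam, fdisc_dnf]
  simp only [dnf]
  omega

theorem fam_upf (hρ : 2 ∣ D - ρ) : Fam (4 * D) (2 * ρ) (upf 2 Q) ↔ Fam D ρ Q := by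
  have := par_mid Q
  simp only [Fam, fdisc_upf]
  simp only [upf]
  omega

theorem Cm.dnf (h : Cm 2 Φ) (h1 : 15 ∣ Q.1) (h2 : 15 ∣ R.1) : Φ (dnf 2 Q) R = Φ Q (upf 2 R) :=
  h.tr 2 Nat.prime_two dvd_rfl _ _ _ _ _ _ h1 h2

theorem sq_mod4 (x : ℤ) : ∃ k, x ^ 2 = 4 * k + x % 2 := by
  obtain ⟨k, rfl | rfl⟩ := Int.even_or_odd' x
  · exact ⟨k ^ 2, by rw [Int.mul_emod_right]; ring⟩
  · exact ⟨k ^ 2 + k, by rw [show (2 * k + 1) % 2 = 1 by omega]; ring⟩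

theorem odd_mul' {x y : ℤ} (h : ¬ 2 ∣ x * y) : ¬ 2 ∣ x ∧ ¬ 2 ∣ y :=
  ⟨fun k => h (k.mul_right _), fun k => h (k.mul_left _)⟩

theorem four_dvd {x y : ℤ} (h : ¬ 2 ∣ x) (k : 4 ∣ x * y) : 4 ∣ y :=
  (IsCoprime.pow_left (m := 2) ((Int.prime_two.irreducible.coprime_iff_not_dvd).2
    h)).dvd_of_dvd_mul_left k

/-- The normal form of a form that is primitive at two. -/
theorem nf_dn (hD : D % 4 = 0 ∨ D % 4 = 1) (hQ : fdisc Q = 4 * D) (h : Pr2 Q) :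
    ∃ a b c d Q', a * d - b * (15 * c) = 1 ∧ fmap Q a b (15 * c) d = dnf 2 Q' ∧ ¬ 2 ∣ Q'.2.2 := by
  have key : ∀ Q : Fm, fdisc Q = 4 * D → ¬ 2 ∣ Q.2.2 →
      ∃ c Q', fmap Q 1 0 (15 * c) 1 = dnf 2 Q' ∧ ¬ 2 ∣ Q'.2.2 := fun ⟨A, B, C⟩ hQ h => by
    obtain ⟨B, rfl⟩ : 2 ∣ B := by have := par_mid (A, B, C); simp only at this; omega
    obtain ⟨k, hk⟩ := sq_mod4 (15 * C * (B + D) + B)
    obtain ⟨C, rfl⟩ : ∃ c, C = 2 * c + 1 := ⟨C / 2, by simp only at h; omega⟩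
    have h2 : (15 * (2 * C + 1) * (B + D) + B) % 2 = D % 2 := by
      rw [show 15 * (2 * C + 1) * (B + D) + B = D + 2 * (15 * C * (B + D) + 8 * B + 7 * D) by ring,
        Int.add_mul_emod_self_left]
    obtain ⟨a, ha⟩ := four_dvd (y := fval (A, 2 * B, 2 * C + 1) 1 (15 * (B + D))) h (by
      have : (2 * C + 1) * fval (A, 2 * B, 2 * C + 1) 1 (15 * (B + D)) =
          (15 * (2 * C + 1) * (B + D) + B) ^ 2 - D := by
        simp only [fval, fdisc] at hQ ⊢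
        linarith
      simp only
      omega)
    refine ⟨B + D, (a, B + (2 * C + 1) * (15 * (B + D)), 2 * C + 1), ?_, h⟩
    simp only [fmap, dnf, ha, Prod.mk.injEq]
    refine ⟨by ring, by ring, by simp [fval]⟩
  by_cases k : 2 ∣ Q.2.2
  · obtain ⟨c, Q', h1, h2⟩ := key (fmap Q 1 1 0 1) (by rw [fdisc_fmap (by norm_num), hQ]) (by
      have := par_mid Q
      simp only [Pr2, fmap, fval] at h ⊢
      omega)
    exact ⟨1 + 15 * c, 1, c, 1, Q', by ring, by rw [← h1, fmap_fmap]; congr 1 <;> ring, h2⟩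
  · obtain ⟨c, Q', h1, h2⟩ := key Q hQ k
    exact ⟨1, 0, c, 1, Q', by ring, h1, h2⟩

theorem nf_up (hD : 4 ∣ D) (hQ : fdisc Q = 4 * D) (h : Pr2 Q) :
    ∃ a b c d Q', a * d - b * (15 * c) = 1 ∧ fmap Q a b (15 * c) d = upf 2 Q' := by
  have key : ∀ Q : Fm, fdisc Q = 4 * D → ¬ 2 ∣ Q.1 →
      ∃ b Q', fmap Q 1 b 0 1 = upf 2 Q' := fun ⟨A, B, C⟩ hQ h => by
    obtain ⟨B, rfl⟩ : 2 ∣ B := by have := par_mid (A, B, C); simp only at this; omega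
    obtain ⟨A, rfl⟩ : ∃ c, A = 2 * c + 1 := ⟨A / 2, by simp only at h; omega⟩
    obtain ⟨D, rfl⟩ := hD
    obtain ⟨a, ha⟩ := four_dvd (y := fval (2 * A + 1, 2 * B, C) B 1) h
      ⟨((A + 1) * B) ^ 2 - D, by
        simp only [fval, fdisc] at hQ ⊢
        linarith⟩
    refine ⟨B, (2 * A + 1, (2 * A + 1) * B + B, a), ?_⟩
    simp only [fmap, upf, ha, Prod.mk.injEq]
    refine ⟨by simp [fval], by ring, by ring⟩
  by_cases k : 2 ∣ Q.1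
  · obtain ⟨b, Q', h1⟩ := key (fmap Q 1 0 15 1) (by rw [fdisc_fmap (by norm_num), hQ]) (by
      have := par_mid Q
      simp only [Pr2, fmap, fval] at h ⊢
      omega)
    exact ⟨1, b, 1, 15 * b + 1, Q', by ring, by rw [← h1, fmap_fmap]; congr 1; ring⟩
  · obtain ⟨b, Q', h1⟩ := key Q hQ k
    exact ⟨1, b, 0, 1, Q', by ring, h1⟩

/-- A matrix between two normal forms. -/
theorem dnf_even {Q' : Fm} {a b c d : ℤ} (h : ¬ 2 ∣ Q.2.2)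
    (e : dnf 2 Q' = fmap (dnf 2 Q) a b (15 * c) d) : 2 ∣ c := by
  have h1 := congrArg Prod.fst e
  simp only [dnf, fmap, fval] at h1
  refine Int.prime_two.dvd_of_dvd_pow (n := 2) ((Int.prime_two.dvd_or_dvd (a := Q.2.2)
    ⟨2 * Q'.1 - 2 * Q.1 * a ^ 2 - Q.2.1 * a * (15 * c) - 112 * Q.2.2 * c ^ 2, ?_⟩).resolve_left h)
  linear_combination -h1

theorem upf_even {Q' : Fm} {a b c d : ℤ} (h : ¬ 2 ∣ Q.1)
    (e : upf 2 Q' = fmap (upf 2 Q) a b c d) : 2 ∣ b := by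
  have h1 := congrArg (·.2.2) e
  simp only [upf, fmap, fval] at h1
  refine Int.prime_two.dvd_of_dvd_pow (n := 2) ((Int.prime_two.dvd_or_dvd (a := Q.1)
    ⟨2 * Q'.2.2 - 2 * Q.2.2 * d ^ 2 - Q.2.1 * b * d, ?_⟩).resolve_left h)
  linear_combination -h1

theorem ptm_ne4 {W : Fm → Fm → ℤ} {x : Fm × Fm} (h : ptm D ρ E β t W x ≠ 0) :
    Fam D ρ x.1 ∧ Fam E β x.2 ∧ fbil x.1 x.2 = t ∧ W x.1 x.2 ≠ 0 := by
  unfold ptm at h
  split_ifs at h with k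
  exacts [⟨k.1, k.2.1, k.2.2, h⟩, absurd rfl h]

theorem odd_bil (h1 : 4 ∣ Q.2.1 * R.2.1) (ht : fbil Q R % 4 = 2) :
    ¬ 2 ∣ Q.1 * R.2.2 + Q.2.2 * R.1 := by
  simp only [fbil, mul_assoc] at ht
  omega

theorem step_a (h : Cm 2 Φ) (hD : D % 4 = 0 ∨ D % 4 = 1) (hρ : 2 ∣ D - ρ) (hE : 4 ∣ E)
    (hβ : 2 ∣ β) (ht : t % 4 = 2) :
    pcn (4 * D) (2 * ρ) E β t Φ = pcn D ρ (4 * E) (2 * β) t Φ := by
  have o : ∀ {Q R : Fm}, Fam (4 * D) (2 * ρ) Q → Fam E β R → fbil Q R = t →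
      ¬ 2 ∣ Q.1 * R.2.2 + Q.2.2 * R.1 := fun {Q R} a b c => odd_bil
    (mul_dvd_mul (show (2 : ℤ) ∣ Q.2.1 by have := a.2.2; omega)
      (show (2 : ℤ) ∣ R.2.1 by have := b.2.2; omega)) (c ▸ ht)
  have o2 : ∀ i : Fm × Fm, ptm (4 * D) (2 * ρ) E β t Φ (dnf 2 i.1, i.2) ≠ 0 →
      ¬ 2 ∣ i.1.2.2 * i.2.1 := fun i k l => by
    obtain ⟨a, b, c, -⟩ := ptm_ne4 k
    exact o a b c (dvd_add (((dvd_pow_self 2 two_ne_zero).mul_right _).mul_right _) l)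
  refine corr (fun i : Fm × Fm => (dnf 2 i.1, i.2)) (fun i => (i.1, upf 2 i.2)) h.pinv h.pinv
    (fun x hx => ?_) (fun x hx => ?_) (fun i j hi _ => ⟨?_, ?_⟩) fun i => ?_
  · obtain ⟨h1, h2, h3, -⟩ := ptm_ne4 hx
    obtain ⟨a, b, c, d, Q', e, k, -⟩ := nf_dn hD h1.2.1 fun k =>
      o h1 h2 h3 (dvd_add (k.1.mul_right _) (k.2.mul_right _))
    exact ⟨(Q', fmap x.2 a b (15 * c) d), PEq.symm ⟨a, b, c, d, e, k.symm, rfl⟩⟩
  · obtain ⟨h1, h2, h3, -⟩ := ptm_ne4 hx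
    obtain ⟨a, b, c, d, Q', e, k⟩ := nf_up hE h2.2.1 fun ⟨⟨y, hy⟩, z, hz⟩ => by
      obtain ⟨s, hs⟩ : 2 ∣ x.2.2.1 := by have := h2.2.2; omega
      obtain ⟨E, rfl⟩ := hE
      have h4 := h2.2.1
      obtain ⟨s, rfl⟩ := Int.prime_two.dvd_of_dvd_pow (a := s) (n := 2) ⟨2 * (E + y * z), by
        simp only [fdisc, hy, hz, hs] at h4
        linarith⟩
      exact odd_bil (Dvd.dvd.mul_left ⟨s, by rw [hs]; ring⟩ _) (h3 ▸ ht)
        (dvd_add (Dvd.dvd.mul_left ⟨z, hz⟩ _) (Dvd.dvd.mul_left ⟨y, hy⟩ _))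
    exact ⟨(fmap x.1 a b (15 * c) d, Q'), PEq.symm ⟨a, b, c, d, e, rfl, k.symm⟩⟩
  · rintro ⟨a, b, c, d, e, k1, k2⟩
    obtain ⟨c, rfl⟩ := dnf_even (odd_mul' (o2 i hi)).1 k1
    rw [mul_left_comm] at k1 k2
    exact ⟨a, 2 * b, c, d, by linear_combination e, dnf_inj two_ne_zero (k1.trans (fmap_dnf ..)),
      (congrArg (upf 2) k2).trans (fmap_upf ..).symm⟩
  · rintro ⟨a, b, c, d, e, k1, k2⟩
    obtain ⟨b, rfl⟩ := upf_even (odd_mul' (o2 i hi)).2 k2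
    refine ⟨a, b, 2 * c, d, by linear_combination e, ?_, ?_⟩ <;> rw [mul_left_comm]
    exacts [(congrArg (dnf 2) k1).trans (fmap_dnf ..).symm,
      upf_inj two_ne_zero (k2.trans (fmap_upf ..))]
  · exact if_ctx_congr (and_congr (fam_dnf hρ) (and_congr (fam_upf (by omega)).symm
      (by rw [fbil_dnf]))) (fun k => h.dnf k.1.1 k.2.1.1) fun _ => rfl

theorem pr2_fmap {a b c d : ℤ} (e : a * d - b * c = 1) (h2 : 2 ∣ Q.2.1) (h : Pr2 Q) :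
    Pr2 (fmap Q a b c d) := fun k => h (by
  have h3 : 2 ∣ (fmap Q a b c d).2.1 := by
    have h4 := par_mid Q
    have h5 := par_mid (fmap Q a b c d)
    rw [fdisc_fmap e] at h5
    omega
  rw [← fmap_inv e Q]
  generalize fmap Q a b c d = R at k h3
  exact ⟨((k.1.mul_right _).add ((h3.mul_right _).mul_right _)).add (k.2.mul_right _),
    ((k.1.mul_right _).add ((h3.mul_right _).mul_right _)).add (k.2.mul_right _)⟩)

theorem pr2_iff {a b c d : ℤ} (e : a * d - b * c = 1) (h2 : 2 ∣ Q.2.1) :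
    Pr2 (fmap Q a b c d) ↔ Pr2 Q := ⟨fun h => by
  have h4 := par_mid Q
  have h5 := par_mid (fmap Q a b c d)
  rw [fdisc_fmap e] at h5
  exact fmap_inv e Q ▸ pr2_fmap (by linear_combination e) (by omega) h, pr2_fmap e h2⟩

theorem step_b (h : Cm 2 Φ) (hD : 4 ∣ D) (hρ : 2 ∣ ρ) (hE : 4 ∣ E) (hβ : 2 ∣ β) (ht : t % 4 = 2) :
    pcn (4 * D) (2 * ρ) (4 * E) (2 * β) (4 * t) (fun Q R => if Pr2 Q ∧ Pr2 R then Φ Q R else 0) =
      pcn D ρ E β t Φ := by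
  have o : ∀ {Q R : Fm}, Fam D ρ Q → Fam E β R → fbil Q R = t →
      ¬ 2 ∣ Q.1 * R.2.2 + Q.2.2 * R.1 := fun {Q R} a b c => odd_bil
    (mul_dvd_mul (show (2 : ℤ) ∣ Q.2.1 by have := a.2.2; omega)
      (show (2 : ℤ) ∣ R.2.1 by have := b.2.2; omega)) (c ▸ ht)
  have h4 : ∀ i : {i : Fm × Fm // ¬ 2 ∣ i.1.2.2 ∧ ¬ 2 ∣ i.2.2.2},
      ptm (4 * D) (2 * ρ) (4 * E) (2 * β) (4 * t) (fun Q R => if Pr2 Q ∧ Pr2 R then Φ Q R else 0)
        (dnf 2 i.1.1, dnf 2 i.1.2) = ptm D ρ E β t Φ i.1 := fun i =>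
    if_ctx_congr (and_congr (fam_dnf (by omega)) (and_congr (fam_dnf (by omega))
      (by rw [fbil_dnf2]; omega))) (fun k => by
        dsimp only
        rw [if_pos ⟨fun l => i.2.1 l.2, fun l => i.2.2 l.2⟩, h.dnf k.1.1 (k.2.1.1.mul_left _),
          ← h.sc dvd_rfl _ _ _ _ k.2.1.1]
        simp only [upf, dnf]
        congr 3; ring) fun _ => rfl
  refine corr (fun i : {i : Fm × Fm // ¬ 2 ∣ i.1.2.2 ∧ ¬ 2 ∣ i.2.2.2} =>
    (dnf 2 i.1.1, dnf 2 i.1.2)) (fun i => i.1) (pinv_ptm fun Q R a b c d e h1 h2 => ?_) h.pinv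
    (fun x hx => ?_) (fun x hx => ?_) (fun i j hi _ => ⟨?_, ?_⟩) h4
  · rw [h.inv Q R a b c d e h1.1 h2.1]
    simp only [pr2_iff e (show 2 ∣ Q.2.1 by have := h1.2.2; omega),
      pr2_iff e (show 2 ∣ R.2.1 by have := h2.2.2; omega)]
  · obtain ⟨h1, h2, h3, h5⟩ := ptm_ne4 hx
    have h6 : Pr2 x.1 ∧ Pr2 x.2 := by_contra fun k => h5 (if_neg k)
    obtain ⟨a, b, c, d, Q', e, k, k'⟩ := nf_dn (by omega) h1.2.1 h6.1
    have h7 := k ▸ FEq.fam ⟨a, b, c, d, e, rfl⟩ h1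
    have h8 := FEq.fam ⟨a, b, c, d, e, rfl⟩ h2
    have h9 := pr2_fmap e (by have := h2.2.2; omega) h6.2
    rw [← fbil_fmap e, k] at h3
    obtain ⟨⟨A, B, C⟩, hR⟩ : ∃ R, R = fmap x.2 a b (15 * c) d := ⟨_, rfl⟩
    rw [← hR] at h3 h8 h9
    obtain ⟨B, rfl⟩ : 2 ∣ B := by have := h8.2.2; simp only at this; omega
    obtain ⟨s, hs⟩ : 2 ∣ Q'.2.1 := by have := ((fam_dnf (by omega)).1 h7).2.2; omega
    obtain ⟨A, rfl⟩ := four_dvd (y := A) k' ⟨s * B - Q'.1 * C - 2 * (t / 4) - 1, by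
      simp only [fbil, dnf, hs] at h3
      have : t = 4 * (t / 4) + 2 := by omega
      linarith⟩
    exact ⟨⟨(Q', (A, B, C)), k', fun l => h9 ⟨⟨2 * A, by ring⟩, l⟩⟩,
      PEq.symm ⟨a, b, c, d, e, k.symm, hR⟩⟩
  · obtain ⟨h1, h2, h3, -⟩ := ptm_ne4 hx
    have h5 := o h1 h2 h3
    have h6 : 2 ∣ x.1.2.1 := by have := h1.2.2; omega
    have h7 : 2 ∣ x.2.2.1 := by have := h2.2.2; omega
    by_cases k1 : ¬ 2 ∣ x.1.2.2 ∧ ¬ 2 ∣ x.2.2.2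
    · exact ⟨⟨x, k1⟩, 1, 0, 0, 1, by ring, by simp [fmap_one], by simp [fmap_one]⟩
    by_cases k2 : ¬ 2 ∣ x.1.1 ∧ ¬ 2 ∣ x.2.1
    · exact ⟨⟨(fmap x.1 8 1 (15 * 1) 2, fmap x.2 8 1 (15 * 1) 2), by
        simp only [fmap, fval]; omega⟩, PEq.symm ⟨8, 1, 1, 2, by ring, rfl, rfl⟩⟩
    refine ⟨⟨(fmap x.1 1 1 (15 * 0) 1, fmap x.2 1 1 (15 * 0) 1), ?_⟩,
      PEq.symm ⟨1, 1, 0, 1, by ring, rfl, rfl⟩⟩
    simp only [← even_iff_two_dvd, fmap, fval, parity_simps] at h5 h6 h7 k1 k2 ⊢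
    tauto
  · rintro ⟨a, b, c, d, e, k1, k2⟩
    obtain ⟨c, rfl⟩ := dnf_even i.2.1 k1
    rw [mul_left_comm] at k1 k2
    exact ⟨a, 2 * b, c, d, by linear_combination e, dnf_inj two_ne_zero (k1.trans (fmap_dnf ..)),
      dnf_inj two_ne_zero (k2.trans (fmap_dnf ..))⟩
  · rintro ⟨a, b, c, d, e, k1, k2⟩
    obtain ⟨h1, h2, h3, -⟩ := ptm_ne4 (h4 i ▸ hi)
    obtain ⟨b, rfl⟩ : 2 ∣ b := by
      have h5 := o h1 h2 h3
      have h6 : 2 ∣ i.1.1.2.1 := by have := h1.2.2; omega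
      have h7 : 2 ∣ i.1.2.2.1 := by have := h2.2.2; omega
      obtain ⟨a1, a2⟩ := i.2
      obtain ⟨a3, a4⟩ := j.2
      rw [k1] at a3
      rw [k2] at a4
      simp only [← even_iff_two_dvd, fmap, fval, parity_simps] at h5 h6 h7 a1 a2 a3 a4 ⊢
      tauto
    refine ⟨a, b, 2 * c, d, by linear_combination e, ?_, ?_⟩ <;> rw [mul_left_comm]
    exacts [(congrArg (dnf 2) k1).trans (fmap_dnf ..).symm,
      (congrArg (dnf 2) k2).trans (fmap_dnf ..).symm]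

end Pool.Agent.Lib.MP_696deb_nt.B3
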