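import Pool.Agent.Lib.MP_696deb_nt.B3.P0

/-! The product of two local weights as a function of the bilinear form. -/

set_option autoImplicit false

open Finset NumberTheorySymbols

namespace Pool.Agent.Lib.MP_696deb_nt.B3

variable {e D t u v : ℤ} {Q R : Fm}

theorem k2_sq (e : ℤ) (hv : ¬ 2 ∣ v) : k2 e v * k2 e v = 1 := by
  rw [← k2_mul, k2_eq (u := v * v) (v := 1) (l := 2 * v)
    (fun k => (Int.prime_two.dvd_or_dvd k).elim hv hv) (by norm_num) ⟨0, by ring⟩, k2_one]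

theorem k2_ne (e : ℤ) (hv : ¬ 2 ∣ v) : k2 e v ≠ 0 := left_ne_zero_of_mul_eq_one (k2_sq e hv)

theorem k2_four (h4 : 4 ∣ e) (h8 : ¬ 8 ∣ e) (hv : v % 4 = 3) : k2 e v = -1 := by
  rw [k2, if_neg h8, if_pos h4, ZMod.χ₄_int_three_mod_four hv]

theorem k2_eight (h8 : 8 ∣ e) (hv : v % 8 = 5) : k2 e v = -1 := by
  rw [k2, if_pos h8]
  split_ifs
  · rw [ZMod.χ₈_int_eq_if_mod_eight, if_neg (by omega), if_neg (by omega)]
  · rw [ZMod.χ₈'_int_eq_if_mod_eight, if_neg (by omega), if_neg (by omega)]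

theorem pw_even (h4 : 4 ∣ e) (hQ : e ^ 2 ∣ fdisc Q) : 2 ∣ Q.2.1 :=
  Int.prime_two.dvd_of_dvd_pow (n := 2) (by
    have := ((dvd_pow (Dvd.dvd.trans (by norm_num) h4 : 2 ∣ e) two_ne_zero).trans hQ).add
      (Dvd.intro (2 * Q.1 * Q.2.2) (by ring) : 2 ∣ 4 * Q.1 * Q.2.2)
    simpa [fdisc] using this)

theorem g2_fst (hQ : e ^ 2 ∣ fdisc Q) (h : ¬ 2 ∣ Q.1) : g2 e Q = k2 e Q.1 := by
  rw [g2, if_neg h]

theorem g2_snd (hQ : e ^ 2 ∣ fdisc Q) (h : ¬ 2 ∣ Q.2.2) : g2 e Q = k2 e Q.2.2 := by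
  simpa [fval] using g2_fval hQ (x := 0) (y := 1) (by simpa [fval] using h)

theorem g2_odd (h4 : 4 ∣ e) (h : g2 e Q ≠ 0) : ¬ 2 ∣ Q.1 ∨ ¬ 2 ∣ Q.2.2 := by
  by_contra k
  push Not at k
  exact h (by rw [g2, if_pos k.1, k2_even h4 k.2])

theorem pw_one (h4 : 4 ∣ e) (hQ : e ^ 2 ∣ fdisc Q) (hR : e ^ 2 ∣ fdisc R)
    (ht : fbil Q R % 4 = 2) (h : ¬ 2 ∣ Q.1 * R.2.2) :
    g2 e Q * g2 e R = k2 e (-fbil Q R / 2) := by
  obtain ⟨β, h1⟩ := pw_even h4 hQ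
  obtain ⟨γ, h2⟩ := pw_even h4 hR
  obtain ⟨τ, h3⟩ : ∃ τ, -fbil Q R = 2 * τ := ⟨-fbil Q R / 2, by omega⟩
  rw [g2_fst hQ fun k => h (k.mul_right _), g2_snd hR fun k => h (k.mul_left _), ← k2_mul, h3,
    Int.mul_ediv_cancel_left _ two_ne_zero]
  obtain ⟨D, hD⟩ := hQ
  obtain ⟨E, hE⟩ := hR
  obtain ⟨s, rfl⟩ := h4
  refine k2_eq h (by omega) (l := 2 * (Q.1 * R.2.2 - β * γ))
    ⟨4 * s ^ 2 * D * E - D * γ ^ 2 - E * β ^ 2, mul_left_cancel₀ (four_ne_zero) ?_⟩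
  simp only [fdisc, fbil, h1, h2] at hD hE h3
  linear_combination -8 * Q.1 * R.2.2 * h3 + (4 * R.1 * R.2.2) * -hD +
    (4 * β ^ 2 - (4 * s) ^ 2 * D) * -hE

/-- The case in which the two paths to the centres are disjoint. -/
theorem pw_g1 (h4 : 4 ∣ e) (hQ : e ^ 2 ∣ fdisc Q) (hR : e ^ 2 ∣ fdisc R)
    (ht : fbil Q R % 4 = 2) : g2 e Q * g2 e R = k2 e (-fbil Q R / 2) := by
  by_cases h : 2 ∣ Q.1 * R.2.2
  swap
  · exact pw_one h4 hQ hR ht h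
  have c : fbil R Q = fbil Q R := by simp only [fbil]; ring
  rw [mul_comm, ← c]
  refine pw_one h4 hR hQ (c ▸ ht) fun k => ?_
  obtain ⟨β, h1⟩ := pw_even h4 hQ
  obtain ⟨γ, h2⟩ := pw_even h4 hR
  obtain ⟨x, hx⟩ := h
  obtain ⟨y, hy⟩ := k
  have : fbil Q R = 4 * (β * γ - x - y) := by
    simp only [fbil, h1, h2]
    linear_combination -2 * hx - 2 * hy
  omega

/-- A common odd value. -/
theorem pw_common (h4 : 4 ∣ e) (hQ : e ^ 2 ∣ fdisc Q) (hR : e ^ 2 ∣ fdisc R) (h1 : g2 e Q ≠ 0)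
    (h2 : g2 e R ≠ 0) (ht : fbil Q R % 4 ≠ 2) : ∃ a a' s : ℤ, ¬ 2 ∣ a ∧ ¬ 2 ∣ a' ∧
      g2 e Q = k2 e a ∧ g2 e R = k2 e a' ∧ 4 ∣ fbil Q R ∧
      -2 * a * a' * fbil Q R = s ^ 2 - a ^ 2 * fdisc R - a' ^ 2 * fdisc Q := by
  obtain ⟨β, b1⟩ := pw_even h4 hQ
  obtain ⟨γ, b2⟩ := pw_even h4 hR
  have b3 : fbil Q R = 4 * (β * γ) - 2 * (Q.1 * R.2.2) - 2 * (Q.2.2 * R.1) := by
    simp only [fbil, b1, b2]
    ring
  have b4 : 4 ∣ fbil Q R := by omega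
  have o : ∀ {x y : ℤ}, ¬ 2 ∣ x → ¬ 2 ∣ y → ¬ 2 ∣ x * y := fun hx hy k =>
    (Int.prime_two.dvd_or_dvd k).elim hx hy
  have k : (¬ 2 ∣ Q.1 ∧ ¬ 2 ∣ R.1) ∨ (¬ 2 ∣ Q.2.2 ∧ ¬ 2 ∣ R.2.2) := by
    rcases g2_odd h4 h1 with p | p <;> rcases g2_odd h4 h2 with q | q
    · exact .inl ⟨p, q⟩
    · refine .inl ⟨p, fun k => ?_⟩
      have := o p q
      have := k.mul_left Q.2.2
      omega
    · refine .inr ⟨p, fun k => ?_⟩
      have := o p q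
      have := k.mul_left Q.1
      omega
    · exact .inr ⟨p, q⟩
  rcases k with ⟨p, q⟩ | ⟨p, q⟩
  · exact ⟨_, _, Q.1 * R.2.1 - R.1 * Q.2.1, p, q, g2_fst hQ p, g2_fst hR q, b4, by
      simp only [fbil, fdisc]; ring⟩
  · exact ⟨_, _, Q.2.2 * R.2.1 - R.2.2 * Q.2.1, p, q, g2_snd hQ p, g2_snd hR q, b4, by
      simp only [fbil, fdisc]; ring⟩

theorem pw_sq (x : ℤ) : (∃ j, x = 2 * j ∧ x ^ 2 = 4 * j ^ 2) ∨ (¬ 2 ∣ x ∧ ∃ j, x ^ 2 = 8 * j + 1) := by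
  rcases Int.even_or_odd' x with ⟨y, rfl | rfl⟩
  · exact .inl ⟨y, rfl, by ring⟩
  · obtain ⟨j, hj⟩ := Int.even_mul_succ_self y
    exact .inr ⟨by omega, j, by linear_combination 4 * hj⟩

theorem pw_deep (h4 : 4 ∣ e) (h16 : ¬ 16 ∣ e) (hQ : fdisc Q = e ^ 2 * D) (hD : D % 4 = 1)
    (hR : 4 * e ^ 2 ∣ fdisc R) (h1 : g2 e Q ≠ 0) (h2 : g2 e R ≠ 0) (ht : fbil Q R % 4 ≠ 2) :
    32 ∣ fbil Q R ∨ (fbil Q R % 16 = 8 ∧ g2 e Q * g2 e R = -k2 e (-fbil Q R / 8)) := by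
  obtain ⟨a, a', s, p, q, e1, e2, ⟨τ, hτ⟩, k⟩ :=
    pw_common h4 ⟨D, hQ⟩ ((dvd_mul_left _ _).trans hR) h1 h2 ht
  obtain ⟨E, hE⟩ := hR
  obtain ⟨f, rfl⟩ := h4
  have o : ¬ 2 ∣ a * a' := fun k => (Int.prime_two.dvd_or_dvd k).elim p q
  rw [hQ, hE, hτ] at k
  obtain ⟨s, rfl⟩ : 2 ∣ s := Int.prime_two.dvd_of_dvd_pow (n := 2)
    ⟨-4 * a * a' * τ + 32 * a ^ 2 * f ^ 2 * E + 8 * a' ^ 2 * f ^ 2 * D, by linear_combination -k⟩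
  obtain ⟨s, rfl⟩ : 2 ∣ s := Int.prime_two.dvd_of_dvd_pow (n := 2)
    ⟨-a * a' * τ + 8 * a ^ 2 * f ^ 2 * E + 2 * a' ^ 2 * f ^ 2 * D, by linarith⟩
  obtain ⟨τ, rfl⟩ : 2 ∣ τ := (Int.prime_two.dvd_or_dvd (a := a * a') (b := τ)
    ⟨-s ^ 2 + 4 * a ^ 2 * f ^ 2 * E + a' ^ 2 * f ^ 2 * D, by linarith⟩).resolve_left o
  have k1 : a * a' * -τ = s ^ 2 - 4 * ((a * f) ^ 2 * E) - (a' * f) ^ 2 * D := by linarith
  have k2' : -fbil Q R / 8 = -τ := by omega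
  rw [k2', e1, e2, ← k2_mul]
  by_cases hτ2 : 2 ∣ τ
  · left
    suffices 4 ∣ a * a' * -τ by
      obtain ⟨z, hz⟩ := (IsCoprime.pow_left (m := 2)
        (Int.prime_two.irreducible.coprime_iff_not_dvd.2 o)).dvd_of_dvd_mul_left this
      omega
    have h5 : 2 ∣ a * a' * -τ := (dvd_neg.2 hτ2).mul_left _
    rw [k1] at h5 ⊢
    obtain ⟨d, rfl⟩ : ∃ d, D = 4 * d + 1 := ⟨D / 4, by omega⟩
    rw [mul_add, mul_one, mul_left_comm _ 4] at h5 ⊢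
    rcases pw_sq s with ⟨i, -, hi⟩ | ⟨-, i, hi⟩ <;> rcases pw_sq (a' * f) with ⟨j, -, hj⟩ | ⟨-, j, hj⟩ <;>
      rw [hi] at h5 ⊢ <;> generalize (a' * f) ^ 2 * d = z at h5 ⊢ <;> omega
  refine .inr ⟨by omega, ?_⟩
  have o' : ¬ 2 ∣ -τ := by omega
  have o2 : ¬ 2 ∣ a * a' * -τ := fun k => (Int.prime_two.dvd_or_dvd k).elim o o'
  have k3 : k2 (4 * f) (a * a' * -τ) = -1 := by
    obtain ⟨d, rfl⟩ : ∃ d, D = 4 * d + 1 := ⟨D / 4, by omega⟩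
    rw [k1, mul_add, mul_one, mul_left_comm _ 4] at o2 ⊢
    by_cases hf : 2 ∣ f
    · obtain ⟨f, rfl⟩ := hf
      refine k2_eight ⟨f, by ring⟩ ?_
      have h6 : ¬ 2 ∣ a' * f := fun k => (Int.prime_two.dvd_or_dvd k).elim q (by omega)
      obtain ⟨j, hj⟩ := ((pw_sq (a' * f)).resolve_left fun ⟨j, hj, _⟩ => h6 ⟨j, hj⟩).2
      rw [show (a * (2 * f)) ^ 2 * E = 4 * ((a * f) ^ 2 * E) by ring,
        show (a' * (2 * f)) ^ 2 = 4 * (a' * f) ^ 2 by ring, mul_assoc 4, hj] at o2 ⊢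
      generalize (8 * j + 1) * d = z at o2 ⊢
      rcases pw_sq s with ⟨i, -, hi⟩ | ⟨-, i, hi⟩ <;> omega
    · refine k2_four ⟨f, rfl⟩ (by omega) ?_
      have h6 : ¬ 2 ∣ a' * f := fun k => (Int.prime_two.dvd_or_dvd k).elim q hf
      obtain ⟨j, hj⟩ := ((pw_sq (a' * f)).resolve_left fun ⟨j, hj, _⟩ => h6 ⟨j, hj⟩).2
      rw [hj] at o2 ⊢
      generalize (8 * j + 1) * d = z at o2 ⊢
      rcases pw_sq s with ⟨i, -, hi⟩ | ⟨-, i, hi⟩ <;> omega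
  rw [k2_mul] at k3
  linear_combination k2 (4 * f) (-τ) * k3 - k2 (4 * f) (a * a') * k2_sq (4 * f) o'

/-- The case in which the two paths have exactly one edge in common. -/
theorem pw_g3 (h4 : 4 ∣ e) (h16 : ¬ 16 ∣ e) (hQ : fdisc Q = e ^ 2 * D) (hD : D % 4 = 1)
    (hR : 4 * e ^ 2 ∣ fdisc R) (h1 : g2 e Q ≠ 0) (h2 : g2 e R ≠ 0) (ht : fbil Q R % 16 = 8) :
    g2 e Q * g2 e R = -k2 e (-fbil Q R / 8) :=
  ((pw_deep h4 h16 hQ hD hR h1 h2 (by omega)).resolve_left (by omega)).2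

theorem g2_cases (h4 : 4 ∣ e) (h16 : ¬ 16 ∣ e) (hQ : fdisc Q = e ^ 2 * D) (hD : D % 4 = 1)
    (hR : 4 * e ^ 2 ∣ fdisc R) (h1 : g2 e Q ≠ 0) (h2 : g2 e R ≠ 0) :
    fbil Q R % 4 = 2 ∨ fbil Q R % 16 = 8 ∨ 32 ∣ fbil Q R :=
  or_iff_not_imp_left.2 fun ht => ((pw_deep h4 h16 hQ hD hR h1 h2 ht).imp_right And.left).symm

section

variable {g : ℕ}

theorem pw_sqf (hg : g ∣ 15) : Squarefree g :=
  (show Squarefree 15 by decide +kernel).squarefree_of_dvd hg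

theorem gch_dn (hg : Squarefree g) (h : (g : ℤ) ∣ Q.1) : gch g Q = J(Q.2.2 | g) := by
  rw [gch, jac_eq_prod _ hg]
  exact prod_congr rfl fun p hp => if_pos (dvd_of_mem h hp)

theorem gch_up (hg : g ∣ 15) (R : Fm) : gch g (fV R) = J(R.1 / 15 | g) :=
  gch_dn (pw_sqf hg) ((Int.natCast_dvd_natCast.2 hg).mul_right _)

theorem pw_mid (hg : g ∣ 15) (q1 : 15 ∣ Q.1) (hQ : (g : ℤ) ^ 2 ∣ fdisc Q) :
    (g : ℤ) ∣ Q.2.1 ∧ (g : ℤ) ^ 2 ∣ Q.1 * Q.2.2 := by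
  have h1 : (g : ℤ) ∣ Q.1 := (Int.natCast_dvd_natCast.2 hg).trans q1
  have h2 : (g : ℤ) ∣ Q.2.1 := (Int.squarefree_natCast.2 (pw_sqf hg)).isRadical 2 _ (by
    simpa [fdisc] using ((dvd_pow_self _ two_ne_zero).trans hQ).add
      ((h1.mul_left 4).mul_right Q.2.2))
  refine ⟨h2, IsCoprime.dvd_of_dvd_mul_left (y := 4) (IsCoprime.pow_left (Nat.isCoprime_iff_coprime.2
    (Nat.Coprime.coprime_dvd_left hg (show Nat.Coprime 15 4 by decide)))) ?_⟩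
  simpa [fdisc, mul_assoc] using (pow_dvd_pow_of_dvd h2 2).sub hQ

/-- A form whose isogeny lowers the conductor against a form whose isogeny raises it. -/
theorem pw_dnup (hg : g ∣ 15) (q1 : 15 ∣ Q.1) (r1 : 15 ∣ R.1) (hQ : (g : ℤ) ^ 2 ∣ fdisc Q)
    (hR : (g : ℤ) ^ 2 ∣ fdisc R) (h : gch g Q ≠ 0 ∨ gch g (fV R) ≠ 0) : (g : ℤ) ∣ fbil Q R ∧
      gch g Q * gch g (fV R) = J(-2 * (15 / g : ℕ) * (fbil Q R / g) | g) := by
  obtain ⟨⟨β, b1⟩, c1⟩ := pw_mid hg q1 hQ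
  obtain ⟨⟨γ, b2⟩, c2⟩ := pw_mid hg r1 hR
  have g0 : g ≠ 0 := (pw_sqf hg).ne_zero
  have : NeZero g := ⟨g0⟩
  have g1 : (g : ℤ) ≠ 0 := Int.natCast_ne_zero.2 g0
  have g2 : Nat.Coprime (2 * (15 / g)) g := by
    have := Nat.le_of_dvd (by norm_num) hg
    interval_cases g <;> first | decide | exact absurd hg (by decide)
  rw [gch_dn (pw_sqf hg) ((Int.natCast_dvd_natCast.2 hg).trans q1), gch_up hg] at h ⊢
  obtain ⟨f, hf⟩ := hg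
  rw [show 15 / g = f by rw [hf, Nat.mul_div_cancel_left _ (Nat.pos_of_ne_zero g0)]] at g2 ⊢
  have hf' : (15 : ℤ) = g * f := by exact_mod_cast hf
  obtain ⟨a, ha⟩ := r1
  rw [ha, Int.mul_ediv_cancel_left _ (by norm_num)] at h ⊢
  obtain ⟨z, hz⟩ : (g : ℤ) ^ 2 ∣ Q.1 * R.2.2 := by
    rcases h with h | h
    · exact ((IsCoprime.pow_left (Int.isCoprime_iff_gcd_eq_one.2
        (not_not.1 (jacobiSym.eq_zero_iff_not_coprime.not.1 h))).symm).dvd_of_dvd_mul_right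
          c1).mul_right _
    · rw [ha, hf', sq, mul_assoc, mul_assoc, mul_dvd_mul_iff_left g1] at c2
      rw [sq]
      refine mul_dvd_mul (Dvd.dvd.trans ⟨_, hf'⟩ q1) ?_
      exact (Int.isCoprime_iff_gcd_eq_one.2 (not_not.1
        (jacobiSym.eq_zero_iff_not_coprime.not.1 h))).symm.dvd_of_dvd_mul_left
        ((Nat.isCoprime_iff_coprime.2 g2.coprime_mul_left.symm).dvd_of_dvd_mul_left c2)
  have k : fbil Q R = g * (g * (β * γ - 2 * z) - 2 * f * (Q.2.2 * a)) := by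
    simp only [fbil, b1, b2, ha, hf']
    linear_combination -2 * hz
  refine ⟨⟨_, k⟩, ?_⟩
  rw [k, Int.mul_ediv_cancel_left _ g1, ← jacobiSym.mul_left,
    jacobiSym.mod_left' (a₁ := -2 * f * (g * (β * γ - 2 * z) - 2 * f * (Q.2.2 * a)))
      (a₂ := ((2 * f : ℕ) : ℤ) ^ 2 * (Q.2.2 * a)) (b := g)
      (Int.modEq_iff_dvd.2 ⟨2 * f * (β * γ - 2 * z), by push_cast; ring⟩),
    jacobiSym.mul_left (((2 * f : ℕ) : ℤ) ^ 2), jacobiSym.sq_one' (by exact_mod_cast g2), one_mul]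

theorem pw_dn_up (hp : g = 3 ∨ g = 5) (hQ : 15 ∣ Q.1) (hR : 15 ∣ R.1)
    (hQ' : (g : ℤ) ^ 2 ∣ fdisc Q) (hR' : (g : ℤ) ^ 2 ∣ fdisc R) : (g : ℤ) ∣ fbil Q R ∧
      gch g Q * gch g (fV R) = J(-(30 / g) * (fbil Q R / g) | g) * idn g Q := by
  have hg : g ∣ 15 := by rcases hp with rfl | rfl <;> decide
  have h1 : (g : ℤ) ∣ Q.1 := (Int.natCast_dvd_natCast.2 hg).trans hQ
  have h2 := (pw_mid hg hQ hQ').1
  have h3 := gch_dn (pw_sqf hg) h1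
  have h4 : g.Prime := by rcases hp with rfl | rfl <;> norm_num
  have : NeZero g := ⟨h4.ne_zero⟩
  refine ⟨((h2.mul_right _).sub ((h1.mul_left _).mul_right _)).sub
    (((Int.natCast_dvd_natCast.2 hg).trans hR).mul_left _), ?_⟩
  by_cases h : (g : ℤ) ∣ Q.2.2
  · rw [idn, if_neg fun k => k.2 h, mul_zero, h3, jacobiSym.eq_zero_iff_not_coprime.2 fun k =>
      (Nat.prime_iff_prime_int.1 h4).not_unit ((Int.isCoprime_iff_gcd_eq_one.2 k).symm.isUnit_of_dvd h),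
      zero_mul]
  · rw [idn, if_pos ⟨h2, h⟩, mul_one, (pw_dnup hg hQ hR hQ' hR' (.inl ?_)).2]
    · rcases hp with rfl | rfl <;> rfl
    · rw [h3]
      exact jacobiSym.eq_zero_iff_not_coprime.not.2 (not_not.2 (Int.isCoprime_iff_gcd_eq_one.1
        (((Nat.prime_iff_prime_int.1 h4).coprime_iff_not_dvd.2 h).symm)))

end

end Pool.Agent.Lib.MP_696deb_nt.B3
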