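import Pool.Agent.Lib.MP_696deb_nt.B3.P1
import Pool.Agent.Lib.MP_696deb_nt.B3.PW

/-! The characters at two. -/

set_option autoImplicit false

open scoped Classical
open Finset NumberTheorySymbols

namespace Pool.Agent.Lib.MP_696deb_nt.B3

open B2

variable {ε D ρ E β t : ℤ} {Φ : Fm → Fm → ℤ} {Q R : Fm}

theorem p3_four (hε : ε = -4 ∨ ε = 8 ∨ ε = -8) : 4 ∣ ε := by omega

theorem g2_npr (hε : ε = -4 ∨ ε = 8 ∨ ε = -8) (h : ¬ Pr2 Q) : g2 ε Q = 0 := by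
  rw [g2, if_pos (not_not.1 h).1, k2_even (p3_four hε) (not_not.1 h).2]

theorem g2_pr (h : Pr2 Q) : g2 ε Q ≠ 0 := by
  refine k2_ne ε ?_
  split_ifs with k
  exacts [fun l => h ⟨k, l⟩, k]

theorem g2_one (hε : ε = -4 ∨ ε = 8 ∨ ε = -8) (hQ : ε ^ 2 ∣ fdisc Q) (hR : ε ^ 2 ∣ fdisc R)
    (ht : fbil Q R % 4 = 2) : g2 ε Q * g2 ε R = k2 ε (-(fbil Q R / 2)) := by
  rw [pw_g1 (p3_four hε) hQ hR ht, show -fbil Q R / 2 = -(fbil Q R / 2) by omega]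

theorem g2_three (hε : ε = -4 ∨ ε = 8 ∨ ε = -8) (hD : D % 4 = 1) (hQ : fdisc Q = ε ^ 2 * D)
    (hR : 4 * ε ^ 2 ∣ fdisc R) (ht : fbil Q R % 16 = 8) (h1 : Pr2 Q) (h2 : Pr2 R) :
    g2 ε Q * g2 ε R = -k2 ε (-(fbil Q R / 8)) := by
  rw [pw_g3 (p3_four hε) (by omega) hQ hD hR (g2_pr h1) (g2_pr h2) ht,
    show -fbil Q R / 8 = -(fbil Q R / 8) by omega]

/-- The normal forms of the pairs whose paths have two edges in common. -/
def p3d (i : Fm) : Fm := (120 * i.1, 4 * i.2.1, 2 * i.2.2 + 1)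

/-- The passage to the other neighbour. -/
def p3t (i : Fm) : Fm := (i.1, 30 * i.1 + i.2.1, 15 * i.1 + i.2.1 + i.2.2)

theorem p3_map {i j : Fm} {w y z s : ℤ} (h : p3d j = fmap (p3d i) (w + 2 * s) y (15 * (4 * z)) w) :
    p3d (p3t j) =
      fmap (p3d (p3t i)) (w + 2 * s - 30 * z) (y + s - 15 * z) (15 * (4 * z)) (30 * z + w) := by
  simp only [p3d, p3t, fmap, fval, Prod.mk.injEq] at h ⊢
  obtain ⟨h1, h2, h3⟩ := h
  exact ⟨by linear_combination h1, by linear_combination h1 + h2,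
    mul_left_cancel₀ four_ne_zero (by linear_combination h1 + 2 * h2 + 4 * h3)⟩

theorem p3_peq {i j : Fm × Fm} (h : PEq (p3d i.1, p3d i.2) (p3d j.1, p3d j.2)) :
    PEq (p3d (p3t i.1), p3d (p3t i.2)) (p3d (p3t j.1), p3d (p3t j.2)) := by
  obtain ⟨x, y, z, w, e, h1, h2⟩ := h
  have k := congrArg Prod.fst h1
  simp only [p3d, fmap, fval] at k
  obtain ⟨z, rfl⟩ : 2 ∣ z := Int.prime_two.dvd_of_dvd_pow (n := 2)
    ⟨60 * j.1.1 - 60 * (i.1.1 * x ^ 2) - 30 * (i.1.2.1 * x * z) - 225 * (i.1.2.2 * z ^ 2) -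
      112 * z ^ 2, by linear_combination -k⟩
  obtain ⟨z, rfl⟩ : 2 ∣ z := Int.prime_two.dvd_of_dvd_pow (n := 2)
    ⟨15 * j.1.1 - 15 * (i.1.1 * x ^ 2) - 15 * (i.1.2.1 * x * z) - 225 * (i.1.2.2 * z ^ 2) -
      112 * z ^ 2, mul_left_cancel₀ four_ne_zero (by linear_combination -k)⟩
  have o : ¬ 2 ∣ x * w := by
    rw [show x * w = 2 * (30 * (y * z)) + 1 by linear_combination e]
    omega
  obtain ⟨s, rfl⟩ : ∃ s, x = w + 2 * s := ⟨(x - w) / 2, by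
    have := mt (Dvd.dvd.mul_right · w) o
    have := mt (Dvd.dvd.mul_left · x) o
    omega⟩
  rw [show 2 * (2 * z) = 4 * z by ring] at e h1 h2
  exact ⟨_, _, _, _, by linear_combination e, p3_map h1, p3_map h2⟩

theorem p3_two (i : Fm × Fm) :
    PEq (p3d i.1, p3d i.2) (p3d (p3t (p3t i.1)), p3d (p3t (p3t i.2))) := by
  refine ⟨1, 1, 0, 1, by norm_num, ?_, ?_⟩ <;>
  simp only [p3d, p3t, fmap, fval, Prod.mk.injEq] <;>
  exact ⟨by ring, by ring, by ring⟩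

theorem p3_nf2 (h1 : 15 ∣ Q.1) (h2 : 15 ∣ R.1) (d1 : 16 ∣ fdisc Q) (d2 : 16 ∣ fdisc R)
    (p1 : Pr2 Q) (p2 : Pr2 R) (ht : 16 ∣ fbil Q R) (h : 2 ∣ Q.1) :
    ∃ i : Fm × Fm, PEq (p3d i.1, p3d i.2) (Q, R) := by
  obtain ⟨b, b1⟩ := pw_even (e := 4) dvd_rfl d1
  obtain ⟨β, b2⟩ := pw_even (e := 4) dvd_rfl d2
  obtain ⟨A, B, C⟩ := Q
  obtain ⟨A', B', C'⟩ := R
  simp only [Pr2, fdisc, fbil] at *
  subst b1 b2
  have ev : ∀ {a b c : ℤ}, 15 ∣ a → 2 ∣ a → 16 ∣ (2 * b) ^ 2 - 4 * a * (2 * c + 1) →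
      ∃ a' b', a = 60 * a' ∧ b = 2 * b' := fun {a b c} k1 k2 k3 => by
    obtain ⟨a, rfl⟩ : 30 ∣ a := by omega
    rw [show (2 * b) ^ 2 - 4 * (30 * a) * (2 * c + 1) = 4 * b ^ 2 - 120 * a - 240 * (a * c) by
      ring] at k3
    exact ⟨a / 2, b / 2, by rcases pw_sq b with ⟨j, k4, k5⟩ | ⟨k4, j, k5⟩ <;> omega⟩
  obtain ⟨c, rfl⟩ : ∃ c, C = 2 * c + 1 := ⟨C / 2, by omega⟩
  obtain ⟨a, b, rfl, rfl⟩ := ev h1 h d1
  have h3 : 2 ∣ A' := by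
    rw [show 2 * (2 * b) * (2 * β) - 2 * (60 * a) * C' - 2 * (2 * c + 1) * A' =
      4 * (2 * b * β - 30 * a * C' - c * A') - 2 * A' by ring] at ht
    omega
  obtain ⟨γ, rfl⟩ : ∃ c, C' = 2 * c + 1 := ⟨C' / 2, by omega⟩
  obtain ⟨α, β, rfl, rfl⟩ := ev h2 h3 d2
  rw [show 2 * (2 * b) * (2 * (2 * β)) - 2 * (60 * a) * (2 * γ + 1) - 2 * (2 * c + 1) * (60 * α) =
    16 * (b * β - 15 * a * γ - 15 * c * α) - 120 * (a + α) by ring] at ht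
  rcases Int.even_or_odd' a with ⟨a, rfl | rfl⟩
  · obtain ⟨α, rfl⟩ : 2 ∣ α := by omega
    refine ⟨((a, b, c), (α, β, γ)), 1, 0, 0, 1, by norm_num, ?_, ?_⟩ <;>
    simp only [p3d, fmap, fval, Prod.mk.injEq] <;>
    exact ⟨by ring, by ring, by ring⟩
  · obtain ⟨α, rfl⟩ : ∃ k, α = 2 * k + 1 := ⟨α / 2, by omega⟩
    refine ⟨((a + b + 15 * c + 8, b + 30 * c + 15, c), (α + β + 15 * γ + 8, β + 30 * γ + 15, γ)),
      1, 0, -2, 1, by norm_num, ?_, ?_⟩ <;>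
    simp only [p3d, fmap, fval, Prod.mk.injEq] <;>
    exact ⟨by ring, by ring, by ring⟩

theorem p3_sh {a b c D : ℤ} (h : b ^ 2 - 30 * a * (2 * c + 1) = 4 * D) :
    ∃ k, 15 * a + b = 2 * k ∧ 2 ∣ k - D := by
  rw [show 30 * a * (2 * c + 1) = 30 * a + 60 * (a * c) by ring] at h
  obtain ⟨b, rfl, hb⟩ := (pw_sq b).resolve_right fun ⟨_, _, _⟩ => by omega
  obtain ⟨a, rfl⟩ : 2 ∣ a := by omega
  rw [mul_assoc] at h
  exact ⟨15 * a + b, by ring, by rcases pw_sq b with ⟨j, k4, k5⟩ | ⟨k4, j, k5⟩ <;> omega⟩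

theorem p3_gR (hε : ε = -4 ∨ ε = 8 ∨ ε = -8) {i : Fm} (h : fdisc (p3d i) = 4 * ε ^ 2 * E) :
    g2 ε (p3d (p3t i)) = g2 ε (p3d i) := by
  obtain ⟨a, b, c⟩ := i
  simp only [g2, p3d, p3t, fdisc, show ∀ a : ℤ, 2 ∣ 120 * a from fun a => by omega, if_true] at h ⊢
  have k : ε ∣ 2 * (15 * a + b) := by
    rcases hε with rfl | hε
    · obtain ⟨k, h1, -⟩ := p3_sh (a := a) (b := b) (c := c) (D := E) (by linarith)
      exact ⟨-k, by omega⟩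
    · obtain ⟨k, h1, h2⟩ := p3_sh (a := a) (b := b) (c := c) (D := 4 * E)
        (by rcases hε with rfl | rfl <;> linarith)
      have : 8 ∣ 2 * (15 * a + b) := by omega
      rcases hε with rfl | rfl
      exacts [this, this.neg_left]
  exact k2_eq (l := 2 * (2 * c + 1) + 2 * (15 * a + b)) (by omega) (by omega)
    ((pow_dvd_pow_of_dvd k 2).trans ⟨-1, by ring⟩)

theorem p3_gQ (hε : ε = -4 ∨ ε = 8 ∨ ε = -8) (hD : D % 4 = 1) {i : Fm}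
    (h : fdisc (p3d i) = ε ^ 2 * D) : g2 ε (p3d (p3t i)) = -g2 ε (p3d i) := by
  obtain ⟨a, b, c⟩ := i
  simp only [g2, p3d, p3t, fdisc, show ∀ a : ℤ, 2 ∣ 120 * a from fun a => by omega, if_true] at h ⊢
  have k : k2 ε ((2 * (15 * a + b + c) + 1) * (2 * c + 1)) = -1 := by
    obtain ⟨j, hj⟩ := ((pw_sq (2 * c + 1)).resolve_left fun ⟨_, _, _⟩ => by omega).2
    rcases hε with rfl | hε
    · refine k2_four (by decide) (by decide) ?_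
      have h1 : b ^ 2 - 30 * a - 60 * (a * c) = D := by linarith
      rw [show (2 * (15 * a + b + c) + 1) * (2 * c + 1) =
        (2 * c + 1) ^ 2 + 2 * (15 * a + b) + 4 * ((15 * a + b) * c) by ring]
      rcases pw_sq b with ⟨j, k4, k5⟩ | ⟨k4, j, k5⟩ <;> omega
    · refine k2_eight (by omega) ?_
      obtain ⟨k, h1, h2⟩ := p3_sh (a := a) (b := b) (c := c) (D := D)
        (by rcases hε with rfl | rfl <;> linarith)
      rw [h1, show (2 * (2 * k + c) + 1) * (2 * c + 1) = (2 * c + 1) ^ 2 + 4 * k + 8 * (k * c) by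
        ring]
      omega
  rw [k2_mul] at k
  linear_combination k2 ε (2 * c + 1) * k -
    k2 ε (2 * (15 * a + b + c) + 1) * k2_sq ε (show ¬ 2 ∣ 2 * c + 1 by omega)

theorem p3_cm (h : Cm 2 Φ) (i j : Fm) : Φ (p3d (p3t i)) (p3d (p3t j)) = Φ (p3d i) (p3d j) := by
  have k : ∀ i j : Fm, Φ (p3d i) (p3d j) =
      Φ (30 * i.1, 2 * i.2.1, 2 * i.2.2 + 1) (30 * j.1, 2 * j.2.1, 2 * j.2.2 + 1) := fun i j => by
    have h1 := h.tr 2 Nat.prime_two dvd_rfl (30 * i.1) (2 * i.2.1) (2 * i.2.2 + 1) (120 * j.1)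
      (4 * j.2.1) (2 * j.2.2 + 1) (by omega) (by omega)
    rw [← h.sc dvd_rfl _ (30 * j.1) _ _ (by omega)]
    refine (congrArg₂ Φ ?_ rfl).trans (h1.trans (congrArg₂ Φ rfl ?_)) <;>
    simp only [p3d, Prod.mk.injEq, Nat.cast_ofNat, and_true] <;>
    omega
  rw [k, k i, ← h.inv (30 * i.1, _, _) (30 * j.1, _, _) 1 1 0 1 (by norm_num) (by dsimp only; omega)
    (by dsimp only; omega)]
  refine congrArg₂ Φ ?_ ?_ <;>
  simp only [p3t, fmap, fval, Prod.mk.injEq] <;>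
  exact ⟨by ring, by ring, by ring⟩

theorem p3_fam (i : Fm) : Fam D ρ (p3d (p3t i)) ↔ Fam D ρ (p3d i) := by
  rw [Fam, Fam, show fdisc (p3d (p3t i)) = fdisc (p3d i) by simp only [fdisc, p3d, p3t]; ring]
  simp only [p3d, p3t]
  exact and_congr_right' (and_congr_right' (by omega))

theorem g2_fmap {a b c d : ℤ} (h : ε ^ 2 ∣ fdisc Q) (e : a * d - b * c = 1) :
    g2 ε (fmap Q a b c d) = g2 ε Q := by
  rw [(scl_fmap e Q).g2 h (by decide), k2_one, one_mul]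

/-- The two neighbours of a pair cancel. -/
theorem step_s (hε : ε = -4 ∨ ε = 8 ∨ ε = -8) (h : Cm 2 Φ) (hD : D % 4 = 1) (ht : t % 4 ≠ 2)
    (ht' : t % 16 ≠ 8) :
    pcn (ε ^ 2 * D) ρ (4 * ε ^ 2 * E) β t (fun Q R => g2 ε Q * g2 ε R * Φ Q R) = 0 := by
  rw [pcn]
  set F := ptm (ε ^ 2 * D) ρ (4 * ε ^ 2 * E) β t fun Q R => g2 ε Q * g2 ε R * Φ Q R with hF
  have h1 : PInv F := pinv_ptm fun Q R a b c d e k1 k2 => by
    rw [h.inv Q R a b c d e k1.1 k2.1, g2_fmap ⟨D, k1.2.1⟩ e,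
      g2_fmap ⟨4 * E, by rw [k2.2.1]; ring⟩ e]
  have h16 : 16 ∣ ε ^ 2 := pow_dvd_pow_of_dvd (p3_four hε) 2
  have h2 : ∀ p, F p ≠ 0 → 15 ∣ p.1.1 ∧ 16 ∣ fdisc p.1 ∧ (2 ∣ p.1.1 →
      ∃ i : Fm × Fm, PEq (p3d i.1, p3d i.2) p) := fun p hp => by
    obtain ⟨k1, k2, k3⟩ := ptm_fam hp
    have k4 := left_ne_zero_of_mul (ptm_ne hp)
    have k5 : 16 ∣ fdisc p.1 := k1.2.1 ▸ h16.mul_right _
    refine ⟨k1.1, k5, p3_nf2 k1.1 k2.1 k5 (k2.2.1 ▸ (h16.mul_left _).mul_right _)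
      (by_contra fun k => left_ne_zero_of_mul k4 (g2_npr hε k))
      (by_contra fun k => right_ne_zero_of_mul k4 (g2_npr hε k)) ?_⟩
    have := g2_cases (p3_four hε) (by omega) k1.2.1 hD ⟨E, k2.2.1⟩ (left_ne_zero_of_mul k4)
      (right_ne_zero_of_mul k4)
    omega
  have h3 : ∀ p, F p ≠ 0 → ∃ i : Fm × Fm, PEq (p3d i.1, p3d i.2) p := fun p hp => by
    obtain ⟨b, hb⟩ := pw_even (e := 4) dvd_rfl (h2 p hp).2.1
    have k : ∀ x y z w : ℤ, x * w - y * (15 * z) = 1 → 2 ∣ fval p.1 x (15 * z) →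
        ∃ i : Fm × Fm, PEq (p3d i.1, p3d i.2) p := fun x y z w e k => by
      have k1 : PEq p (fmap p.1 x y (15 * z) w, fmap p.2 x y (15 * z) w) := ⟨x, y, z, w, e, rfl, rfl⟩
      exact ((h2 _ (h1 _ _ k1 ▸ hp)).2.2 k).imp fun i hi => hi.trans k1.symm
    by_cases k1 : 2 ∣ p.1.1
    · exact (h2 p hp).2.2 k1
    by_cases k2 : 2 ∣ p.1.2.2
    · exact k 2 1 1 8 (by norm_num) (by rw [fval, hb]; omega)
    · exact k 1 0 1 1 (by norm_num) (by rw [fval, hb]; omega)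
  have h4 := corr (F := F) (G := fun p => -F p) (fun i : Fm × Fm => (p3d i.1, p3d i.2))
    (fun i => (p3d (p3t i.1), p3d (p3t i.2))) h1 (fun p q e => congrArg Neg.neg (h1 p q e)) h3
    (fun q hq => (h3 q (neg_ne_zero.1 hq)).elim fun i hi =>
      ⟨(p3t i.1, p3t i.2), (p3_two i).symm.trans hi⟩)
    (fun i j _ _ => ⟨p3_peq, fun e => (p3_two i).trans
      ((p3_peq (i := (p3t i.1, p3t i.2)) (j := (p3t j.1, p3t j.2)) e).trans (p3_two j).symm)⟩)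
    fun i => by
      simp only [hF, ptm, p3_fam, p3_cm h, show fbil (p3d (p3t i.1)) (p3d (p3t i.2)) =
        fbil (p3d i.1) (p3d i.2) by simp only [fbil, p3d, p3t]; ring]
      split_ifs with k
      · rw [p3_gQ hε hD k.1.2.1, p3_gR hε k.2.1.2.1]
        ring
      · rfl
  rw [orb_neg] at h4
  omega

end Pool.Agent.Lib.MP_696deb_nt.B3
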