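import Pool.Agent.Lib.MP_696deb_nt.B3.P1f

/-! The Atkin-Lehner involutions on classes of pairs. -/

set_option autoImplicit false

open scoped Classical
open Finset NumberTheorySymbols

namespace Pool.Agent.Lib.MP_696deb_nt.B3

open B2

variable {D ρ E β t : ℤ} {Φ W : Fm → Fm → ℤ} {Q R : Fm} {p : ℕ}

theorem p4a_dvd (hp : p = 3 ∨ p = 5) {a b c : ℤ} (h : (p : ℤ) ^ 2 ∣ fdisc (15 * a, b, c)) :
    (p : ℤ) ∣ b ∧ ((p : ℤ) ∣ a ∨ (p : ℤ) ∣ c) := by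
  have hP : Prime (p : ℤ) := Nat.prime_iff_prime_int.1 (by rcases hp with rfl | rfl <;> norm_num)
  obtain ⟨s, hs, h1⟩ : ∃ s : ℤ, 60 = p * s ∧ ¬ (p : ℤ) ∣ s := by
    rcases hp with rfl | rfl
    exacts [⟨20, rfl, by decide⟩, ⟨12, rfl, by decide⟩]
  rw [show fdisc (15 * a, b, c) = b ^ 2 - p * (s * (a * c)) by
    simp only [fdisc]; linear_combination -(a * c) * hs] at h
  have h2 : (p : ℤ) ∣ b := hP.dvd_of_dvd_pow (n := 2)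
    ((dvd_sub_left (dvd_mul_right _ _)).1 ((dvd_pow_self _ two_ne_zero).trans h))
  have h3 := (dvd_sub_right (pow_dvd_pow_of_dvd h2 2)).1 h
  rw [sq, mul_dvd_mul_iff_left hP.ne_zero] at h3
  exact ⟨h2, hP.dvd_or_dvd ((hP.dvd_or_dvd h3).resolve_left h1)⟩

theorem dn_up0 (hp : p = 3 ∨ p = 5) (hQ : 15 ∣ Q.1) (hR : 15 ∣ R.1) (hQ' : (p : ℤ) ^ 2 ∣ fdisc Q)
    (hR' : (p : ℤ) ^ 2 ∣ fdisc R) : (p : ℤ) ∣ fbil Q R ∧
      gch p Q * gch p (fV R) = J(-(30 / p) * (fbil Q R / p) | p) * idn p Q := by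
  obtain ⟨_, b, c⟩ := Q
  obtain ⟨_, y, z⟩ := R
  obtain ⟨a, rfl⟩ := hQ
  obtain ⟨x, rfl⟩ := hR
  have pp : p.Prime := by rcases hp with rfl | rfl <;> norm_num
  have p0 : (p : ℤ) ≠ 0 := by exact_mod_cast pp.ne_zero
  obtain ⟨⟨b, rfl⟩, h1⟩ := p4a_dvd hp hQ'
  obtain ⟨⟨y, rfl⟩, -⟩ := p4a_dvd hp hR'
  obtain ⟨s, hs, h2⟩ : ∃ s : ℤ, 30 = p * s ∧ ¬ (p : ℤ) ∣ s := by
    rcases hp with rfl | rfl
    exacts [⟨10, rfl, by decide⟩, ⟨6, rfl, by decide⟩]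
  have h15 : (p : ℤ) ∣ 15 := by rcases hp with rfl | rfl <;> norm_num
  have e : fbil (15 * a, p * b, c) (15 * x, p * y, z) = p * (p * b * y - s * (a * z + c * x)) := by
    simp only [fbil]
    linear_combination -(a * z + c * x) * hs
  refine ⟨⟨_, e⟩, ?_⟩
  rw [e, Int.mul_ediv_cancel_left _ p0, hs, Int.mul_ediv_cancel_left _ p0, gch_prime pp,
    gch_prime pp, gl, gl, if_pos (h15.mul_right _), if_pos (show _ ∣ (fV _).1 from h15.mul_right _),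
    idn]
  simp only [fV, dvd_mul_right, true_and, Int.mul_ediv_cancel_left _ (by norm_num : (15 : ℤ) ≠ 0)]
  split_ifs with k
  · rw [jac_zero_of_dvd pp k, zero_mul, mul_zero]
  · obtain ⟨a, rfl⟩ := h1.resolve_right k
    rw [mul_one, jac_congr (u := -s * _) (v := s ^ 2 * (c * x)) ⟨s * (s * a * z - b * y), by ring⟩,
      jacobiSym.mul_left, jacobiSym.mul_left, jacobiSym.pow_left, jac_sq pp h2, one_mul]

theorem peq_fW {p q : Fm × Fm} (h1 : 15 ∣ p.1.1) (h2 : 15 ∣ p.2.1) (h : PEq p q) :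
    PEq (fW p.1, fW p.2) (fW q.1, fW q.2) := by
  obtain ⟨x, y, z, u, e, k1, k2⟩ := h
  refine ⟨6 * x + 15 * y - 30 * z - 5 * u, x + 3 * y - 5 * z - u, -2 * x - 5 * y + 12 * z + 2 * u,
    -5 * x - 15 * y + 30 * z + 6 * u, by linear_combination e, ?_, ?_⟩
  · show fW q.1 = fmap (fW p.1) _ _ _ _
    rw [k1, fW_fmap h1 e]
  · show fW q.2 = fmap (fW p.2) _ _ _ _
    rw [k2, fW_fmap h2 e]

theorem peq_fW_fW {p : Fm × Fm} (h1 : 15 ∣ p.1.1) (h2 : 15 ∣ p.2.1) :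
    PEq p (fW (fW p.1), fW (fW p.2)) := ⟨17, 3, 3, 8, rfl, fW_fW h1, fW_fW h2⟩

theorem fam_fW_iff (h : 15 ∣ Q.1) : Fam D (11 * ρ) (fW Q) ↔ Fam D ρ Q :=
  ⟨fun k => (fam_congr ⟨4 * ρ, by ring⟩).1 ((feq_fW_fW h).symm.fam (fW_fam k)), fW_fam⟩

theorem pcn_fW (h : PInv (ptm D (11 * ρ) E (11 * β) t W)) :
    pcn D ρ E β t (fun Q R => W (fW Q) (fW R)) = pcn D (11 * ρ) E (11 * β) t W := by
  have k : ∀ p : Fm × Fm, 15 ∣ p.1.1 → 15 ∣ p.2.1 →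
      ptm D ρ E β t (fun Q R => W (fW Q) (fW R)) p =
        ptm D (11 * ρ) E (11 * β) t W (fW p.1, fW p.2) :=
    fun p h1 h2 => if_congr (by rw [fam_fW_iff h1, fam_fW_iff h2, fW_fbil h1 h2]) rfl rfl
  refine corr (I := {p : Fm × Fm // 15 ∣ p.1.1 ∧ 15 ∣ p.2.1}) Subtype.val
    (fun p => (fW p.1.1, fW p.1.2)) (fun p q e => ?_) h
    (fun p hp => ⟨⟨p, (ptm_fam hp).1.1, (ptm_fam hp).2.1.1⟩, peq_refl p⟩)
    (fun q hq => ⟨⟨(fW q.1, fW q.2), fW_lev (ptm_fam hq).1.1, fW_lev (ptm_fam hq).2.1.1⟩,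
      (peq_fW_fW (ptm_fam hq).1.1 (ptm_fam hq).2.1.1).symm⟩)
    (fun i j _ _ => ⟨peq_fW i.2.1 i.2.2, fun e => ?_⟩) fun i => k i.1 i.2.1 i.2.2
  · by_cases h1 : 15 ∣ p.1.1 ∧ 15 ∣ p.2.1
    · rw [k p h1.1 h1.2, k q (peq_lev e h1).1 (peq_lev e h1).2, h _ _ (peq_fW h1.1 h1.2 e)]
    · exact (if_neg fun h2 => h1 (peq_lev e.symm ⟨h2.1.1, h2.2.1.1⟩)).trans
        (if_neg fun h2 => h1 ⟨h2.1.1, h2.2.1.1⟩).symm
  · have e' := peq_fW (p := (fW i.1.1, fW i.1.2)) (q := (fW j.1.1, fW j.1.2)) (fW_lev i.2.1)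
      (fW_lev i.2.2) e
    exact ((peq_fW_fW i.2.1 i.2.2).trans e').trans (peq_fW_fW j.2.1 j.2.2).symm

theorem p4a_last (hp : p = 3 ∨ p = 5) (hR : Fam (p ^ 4 * E) β R) {a b c d : ℤ}
    (e : a * d - b * (15 * c) = 1) : (p : ℤ) ∣ (fmap R a b (15 * c) d).2.2 ↔ (p : ℤ) ∣ R.2.2 := by
  obtain ⟨_, y, z⟩ := R
  obtain ⟨⟨x, rfl⟩, h1, -⟩ := hR
  have hP : Prime (p : ℤ) := Nat.prime_iff_prime_int.1 (by rcases hp with rfl | rfl <;> norm_num)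
  have h15 : (p : ℤ) ∣ 15 := by rcases hp with rfl | rfl <;> norm_num
  have h2 := (p4a_dvd hp (a := x) (b := y) (c := z) ⟨p ^ 2 * E, by rw [h1]; ring⟩).1
  have hd : ¬ (p : ℤ) ∣ d := fun k => hP.not_dvd_one
    (e ▸ dvd_sub (k.mul_left a) ((h15.mul_right c).mul_left b))
  rw [show (fmap (15 * x, y, z) a b (15 * c) d).2.2 = z * d ^ 2 + (15 * (x * b ^ 2) + y * (b * d))
    by simp only [fmap, fval]; ring, dvd_add_left ((h15.mul_right _).add (h2.mul_right _)),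
    hP.dvd_mul, or_iff_left fun j => hd (hP.dvd_of_dvd_pow j)]

theorem p4a_pinv (hp : p = 3 ∨ p = 5) (h : Cm p Φ) :
    PInv (ptm D ρ (p ^ 4 * E) β t fun Q R => if (p : ℤ) ∣ R.2.2 then Φ Q R else 0) :=
  pinv_ptm fun Q R a b c d e h1 h2 =>
    if_congr (p4a_last hp h2 e) (h.inv Q R a b c d e h1.1 h2.1) rfl

theorem p4a_xor (hp : p = 3 ∨ p = 5) {x y z : ℤ} (hQ : 15 ∣ Q.1)
    (hR : fdisc (15 * x, y, z) = p ^ 4 * E) (ht : ¬ (p : ℤ) ^ 2 ∣ fbil Q (15 * x, y, z)) :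
    (p : ℤ) ∣ y ∧ ((p : ℤ) ∣ x ↔ ¬ (p : ℤ) ∣ z) := by
  have hP : Prime (p : ℤ) := Nat.prime_iff_prime_int.1 (by rcases hp with rfl | rfl <;> norm_num)
  obtain ⟨s, hs⟩ : (p : ℤ) ∣ 15 := by rcases hp with rfl | rfl <;> norm_num
  obtain ⟨h1, h2⟩ := p4a_dvd hp (a := x) (b := y) (c := z) ⟨p ^ 2 * E, by rw [hR]; ring⟩
  refine ⟨h1, ⟨?_, h2.resolve_right⟩⟩
  rintro ⟨x, rfl⟩ ⟨z, rfl⟩
  obtain ⟨y, rfl⟩ := h1
  obtain ⟨a, ha⟩ := hQ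
  obtain ⟨y, rfl⟩ : (p : ℤ) ∣ y := hP.dvd_of_dvd_pow (n := 2) ⟨p * E + 4 * s * x * z,
    mul_left_cancel₀ (pow_ne_zero 2 hP.ne_zero) (by
      simp only [fdisc] at hR
      linear_combination hR + 4 * p ^ 2 * x * z * hs)⟩
  exact ht ⟨Q.2.1 * y - 2 * s * a * z - 2 * Q.2.2 * s * x, by
    simp only [fbil]
    rw [ha]
    linear_combination -(2 * p * a * z + 2 * Q.2.2 * p * x) * hs⟩

theorem step_p_of (hp : p = 3 ∨ p = 5) (h : Cm p Φ) (hρ : (p : ℤ) ∣ ρ ^ 2 - D) (hD : ¬ (p : ℤ) ∣ D)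
    (ht : ¬ (p : ℤ) ^ 2 ∣ t) (h0 : D < 0 ∨ IsSquare D) (h1 : t ^ 2 ≠ D * (p ^ 4 * E))
    (half : ∀ ρ : ℤ, (p : ℤ) ∣ ρ ^ 2 - D →
      pcn (p ^ 2 * D) (p * ρ) (p ^ 2 * E) (p * β) t (fun Q R => idn p Q * Φ Q R) =
        pcn D ρ (p ^ 4 * E) (p ^ 2 * β) t fun Q R => if (p : ℤ) ∣ R.2.2 then Φ Q R else 0) :
    2 * pcn (p ^ 2 * D) (p * ρ) (p ^ 2 * E) (p * β) t (fun Q R => idn p Q * Φ Q R) =
      pcn D ρ (p ^ 4 * E) (p ^ 2 * β) t Φ := by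
  have fin := ofin (ρ := ρ) (β := p ^ 2 * β) (h0.imp_right fun k =>
    ⟨fun j => hD (by rw [j]; exact dvd_zero _), k⟩) h1
  have e1 : pcn D ρ (p ^ 4 * E) (p ^ 2 * β) t Φ =
      (pcn D ρ (p ^ 4 * E) (p ^ 2 * β) t fun Q R => if (p : ℤ) ∣ R.2.2 then Φ Q R else 0) +
      pcn D ρ (p ^ 4 * E) (p ^ 2 * β) t fun Q R => if ¬ (p : ℤ) ∣ R.2.2 then Φ Q R else 0 := by
    rw [pcn, pcn, pcn, ← orb_add (fin _) (fin _)]
    refine congrArg orb (funext fun q => ?_)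
    simp only [ptm]
    split_ifs <;> simp
  rw [e1, ← half ρ hρ, two_mul, add_right_inj]
  rcases id hp with rfl | rfl
  · rw [pcn_mod (ρ' := (3 : ℕ) * (11 * ρ)) (β' := (3 : ℕ) * β) ⟨-ρ, by push_cast; ring⟩ (by simp),
      half _ (Gal.dvd_eq (hρ.add (dvd_mul_right _ (40 * ρ ^ 2))) (by push_cast; ring)),
      pcn_mod (ρ' := 11 * ρ) (β' := 11 * ((3 : ℕ) ^ 2 * β)) (by simp) ⟨-3 * β, by push_cast; ring⟩,
      ← pcn_fW (p4a_pinv hp h)]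
    refine pcn_congr ?_
    rintro Q ⟨_, y, z⟩ k1 ⟨⟨x, rfl⟩, k2, k3⟩ k4
    obtain ⟨k5, k6⟩ := p4a_xor hp k1.1 k2 (k4 ▸ ht)
    refine if_congr ?_ (h.w3 dvd_rfl _ _ k1.1 (dvd_mul_right _ _)) rfl
    simp only [fW_eq, Nat.cast_ofNat] at k5 k6 ⊢
    omega
  · rw [pcn_mod (ρ' := (5 : ℕ) * -(11 * ρ)) (β' := (5 : ℕ) * β) ⟨2 * ρ, by push_cast; ring⟩
      (by simp), half _ (Gal.dvd_eq (hρ.add (dvd_mul_right _ (24 * ρ ^ 2))) (by push_cast; ring)),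
      pcn_mod (ρ' := -(11 * ρ)) (β' := -(11 * ((5 : ℕ) ^ 2 * β))) (by simp)
        ⟨10 * β, by push_cast; ring⟩, ← pcn_fV (p4a_pinv hp h), neg_neg, neg_neg,
      ← pcn_fW (pinv_ptm fun Q R a b c d e k1 k2 => ?_)]
    · refine pcn_congr ?_
      rintro Q ⟨_, y, z⟩ k1 ⟨⟨x, rfl⟩, k2, k3⟩ k4
      obtain ⟨k5, k6⟩ := p4a_xor hp k1.1 k2 (k4 ▸ ht)
      refine if_congr ?_ (h.w5 dvd_rfl _ _ k1.1 (dvd_mul_right _ _)) rfl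
      simp only [fW_eq, fV, Nat.cast_ofNat] at k5 k6 ⊢
      omega
    · rw [fV_fmap k1.1, fV_fmap k2.1]
      have e' : d * a - -c * (15 * -b) = 1 := by linear_combination e
      exact if_congr (p4a_last hp (fam_fV k2) e')
        (h.inv _ _ _ _ _ _ e' (dvd_mul_right _ _) (dvd_mul_right _ _)) rfl

end Pool.Agent.Lib.MP_696deb_nt.B3
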