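import Pool.Agent.Lib.MP_696deb_nt.B3.P2

/-! One half of the transfer of the conductor at three or five. -/

set_option autoImplicit false

open scoped Classical
open Finset NumberTheorySymbols

namespace Pool.Agent.Lib.MP_696deb_nt.B3

open B2

variable {D ρ E β t : ℤ} {Φ : Fm → Fm → ℤ} {Q R : Fm} {p : ℕ}

theorem snd_iff {p a b c d : ℤ} (hp : p ∣ 15) (e : a * d - b * (15 * c) = 1) (h1 : p ∣ Q.1)
    (h2 : p ∣ Q.2.1) : p ∣ (fmap Q a b (15 * c) d).2.2 ↔ p ∣ Q.2.2 := by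
  obtain ⟨q, hq⟩ := hp
  have h3 : IsCoprime p (d ^ 2) :=
    IsCoprime.pow_right ⟨-(b * q * c), a, by rw [hq] at e; linear_combination e⟩
  simp only [fmap, fval]
  rw [dvd_add_right ((h1.mul_right _).add ((h2.mul_right _).mul_right _))]
  exact ⟨h3.dvd_of_dvd_mul_right, fun h => h.mul_right _⟩

theorem step_half0 (hp : p = 3 ∨ p = 5) (h : Cm p Φ) (hρ : (p : ℤ) ∣ ρ ^ 2 - D)
    (ht : ¬ (p : ℤ) ^ 2 ∣ t) :
    pcn (p ^ 2 * D) (p * ρ) (p ^ 2 * E) (p * β) t (fun Q R => idn p Q * Φ Q R) =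
      pcn D ρ (p ^ 4 * E) (p ^ 2 * β) t fun Q R => if (p : ℤ) ∣ R.2.2 then Φ Q R else 0 := by
  obtain ⟨q, hq, hc, pp, c1, c2⟩ : ∃ q : ℤ, 15 = p * q ∧ IsCoprime (p : ℤ) (2 * q) ∧ p.Prime ∧
      (∀ y : ℤ, (p : ℤ) ∣ y → 15 ∣ p ^ 2 * y → 15 ∣ y) ∧
      ∀ y : ℤ, (p : ℤ) ∣ y → 30 ∣ p * y → 30 ∣ y := by
    rcases hp with rfl | rfl
    · exact ⟨5, by norm_num, by norm_num, by norm_num, fun y => by push_cast; omega,
        fun y => by push_cast; omega⟩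
    · exact ⟨3, by norm_num, by norm_num, by norm_num, fun y => by push_cast; omega,
        fun y => by push_cast; omega⟩
  have p0 : (p : ℤ) ≠ 0 := Nat.cast_ne_zero.2 pp.ne_zero
  have pi : Prime (p : ℤ) := Nat.prime_iff_prime_int.1 pp
  have cp : ∀ {y : ℤ}, ¬ (p : ℤ) ∣ y → IsCoprime (p : ℤ) y := pi.irreducible.coprime_iff_not_dvd.2
  have c4 : IsCoprime (p : ℤ) 4 := hc.of_mul_right_left.mul_right hc.of_mul_right_left
  have d1 : (p : ℤ) ∣ 15 := ⟨q, hq⟩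
  have d2 : (p : ℤ) ∣ 30 := d1.trans (by norm_num)
  have m : ∀ {D ρ : ℤ} {Q : Fm}, Fam D (p * ρ) Q → (p : ℤ) ∣ Q.2.1 := fun k =>
    (dvd_sub_left (dvd_mul_right _ _)).1 (d2.trans k.2.2)
  have m' : ∀ {Q : Fm}, Fam (p ^ 4 * E) (p ^ 2 * β) Q → (p : ℤ) ∣ Q.2.1 := fun k =>
    m (ρ := p * β) (by rwa [← mul_assoc, ← sq])
  refine corr (fun i : {i : Fm × Fm // (15 ∣ i.1.1 ∧ 30 ∣ i.1.2.1 - ρ) ∧ ¬ (p : ℤ) ∣ i.1.2.2 ∧
    (p : ℤ) ∣ i.2.2.1} => (dnf p i.1.1, i.1.2)) (fun i => (i.1.1, upf p i.1.2))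
    (pinv_ptm fun Q R a b c d e h1 h2 => ?_) (pinv_ptm fun Q R a b c d e h1 h2 => ?_)
    (fun x hx => ?_) (fun x hx => ?_) (fun i j hi _ => ⟨?_, ?_⟩) fun i => ?_
  · rw [h.inv Q R a b c d e h1.1 h2.1, idn, idn]
    simp only [m h1, m (FEq.fam ⟨a, b, c, d, e, rfl⟩ h1), snd_iff d1 e (d1.trans h1.1) (m h1)]
  · rw [h.inv Q R a b c d e h1.1 h2.1]
    simp only [snd_iff d1 e (d1.trans h2.1) (m' h2)]
  · obtain ⟨⟨A, B, C⟩, R⟩ := x
    obtain ⟨h1, h2, -, h3⟩ := ptm_ne4 hx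
    have h4 : ¬ (p : ℤ) ∣ C := fun k => h3 (by simp [idn, k])
    obtain ⟨B, rfl⟩ := m h1
    obtain ⟨A, rfl⟩ := (c4.mul_right (cp h4)).pow_left (m := 2).dvd_of_dvd_mul_left (z := A)
      ⟨B ^ 2 - D, by have := h1.2.1; simp only [fdisc] at this; linear_combination -this⟩
    obtain ⟨u, v, huv⟩ := hc.mul_right (cp h4)
    have e : 1 * 1 - 0 * (15 * (v * (ρ - B))) = 1 := by ring
    have k : fmap (p ^ 2 * A, p * B, C) 1 0 (15 * (v * (ρ - B))) 1 =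
        dnf p (fmap (A, B, C) 1 (p * 0) (q * (v * (ρ - B))) 1) := by
      rw [hq, mul_assoc]
      exact fmap_dnf p (A, B, C) ..
    have h5 := FEq.fam ⟨_, _, _, _, e, k.symm⟩ h1
    have h6 : (p : ℤ) ∣ (fmap (A, B, C) 1 (p * 0) (q * (v * (ρ - B))) 1).2.1 - ρ :=
      ⟨u * (B - ρ), by simp only [fmap]; linear_combination (ρ - B) * huv⟩
    have h7 : (fmap (A, B, C) 1 (p * 0) (q * (v * (ρ - B))) 1).2.2 = C := by simp [fmap, fval]
    have h8 := mul_left_cancel₀ (pow_ne_zero 2 p0) ((fdisc_dnf ..).symm.trans h5.2.1)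
    generalize fmap (A, B, C) 1 (p * 0) (q * (v * (ρ - B))) 1 = Q at h5 h6 h7 h8 k
    refine ⟨⟨(Q, fmap R 1 0 (15 * (v * (ρ - B))) 1), ⟨c1 Q.1 ?_ h5.1, c2 _ h6
      (by rw [mul_sub]; exact h5.2.2)⟩, fun l => h4 (h7 ▸ l), m (FEq.fam ⟨_, _, _, _, e, rfl⟩ h2)⟩,
      PEq.symm ⟨_, _, _, _, e, k.symm, rfl⟩⟩
    refine (c4.mul_right (cp h4)).dvd_of_dvd_mul_left ?_
    rw [show 4 * C * Q.1 = (Q.2.1 - ρ) * (Q.2.1 + ρ) + (ρ ^ 2 - D) by
      rw [← h8, ← h7, fdisc]; ring]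
    exact (h6.mul_right _).add hρ
  · obtain ⟨Q, A, B, C⟩ := x
    obtain ⟨h1, h2, h3, h4⟩ := ptm_ne4 hx
    obtain ⟨C, rfl⟩ : (p : ℤ) ∣ C := by_contra fun k => h4 (if_neg k)
    obtain ⟨B, rfl⟩ := m' h2
    obtain ⟨A, rfl⟩ := d1.trans h2.1
    have h5 : B ^ 2 - 4 * A * C = p ^ 2 * E := mul_left_cancel₀ (pow_ne_zero 2 p0) (by
      have := h2.2.1; simp only [fdisc] at this; linear_combination this)
    have h6 : ¬ (p : ℤ) ∣ A := fun ⟨A, hA⟩ => by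
      obtain ⟨B, rfl⟩ := pi.dvd_of_dvd_pow (a := B) (n := 2)
        ⟨p * E + 4 * A * C, by rw [hA] at h5; linear_combination h5⟩
      obtain ⟨a, ha⟩ := d1.trans h1.1
      exact ht ⟨Q.2.1 * B - 2 * a * C - 2 * Q.2.2 * A, by rw [← h3, fbil, ha, hA]; ring⟩
    obtain ⟨u, v, huv⟩ := hc.of_mul_right_left.mul_right (cp h6)
    obtain ⟨γ, hγ⟩ := (c4.mul_right (cp h6)).dvd_of_dvd_mul_left (z := fval (A, B, C) (-(v * B)) 1)
      ⟨p * ((u * B) ^ 2 - E), by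
        simp only [fval]
        linear_combination -h5 - B * (B + 2 * A * (-(v * B)) + p * u * B) * huv⟩
    have e : 1 * 1 - -(v * B) * (15 * 0) = 1 := by ring
    have k : upf p (p * A, p * (u * B), γ) = fmap (p * A, p * B, p * C) 1 (-(v * B)) (15 * 0) 1 := by
      simp only [fval] at hγ
      simp only [upf, fmap, fval, Prod.mk.injEq]
      exact ⟨by ring, by linear_combination p * B * huv, by linear_combination -p * hγ⟩
    have h7 := FEq.fam ⟨_, _, _, _, e, rfl⟩ h1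
    refine ⟨⟨(fmap Q 1 (-(v * B)) (15 * 0) 1, p * A, p * (u * B), γ), ⟨h7.1, h7.2.2⟩,
      fun ⟨c, l⟩ => ht ?_, dvd_mul_right _ _⟩, PEq.symm ⟨_, _, _, _, e, rfl, k⟩⟩
    rw [← h3, ← fbil_fmap e, ← k]
    generalize fmap Q 1 (-(v * B)) (15 * 0) 1 = Q at l
    dsimp only at l
    exact ⟨Q.2.1 * (u * B) - 2 * Q.1 * γ - 2 * c * A, by simp only [fbil, upf, l]; ring⟩
  · rintro ⟨a, b, c, d, e, k1, k2⟩
    obtain ⟨c, rfl⟩ : (p : ℤ) ∣ c := by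
      have k := congrArg (·.2.1) k1
      obtain ⟨s, hs⟩ := (d2.trans j.2.1.2).sub (d2.trans i.2.1.2)
      simp only [dnf, fmap, hq] at k e
      refine ((hc.mul_right (cp i.2.2.1)).mul_right (z := d) ⟨-(b * q * c), a, by
        linear_combination e⟩).dvd_of_dvd_mul_left
        ⟨s - 2 * i.1.1.1 * a * b - 2 * i.1.1.2.1 * b * q * c, mul_left_cancel₀ p0 ?_⟩
      linear_combination -k + p * hs - p * i.1.1.2.1 * e
    rw [mul_left_comm] at k1 k2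
    exact ⟨a, p * b, c, d, by linear_combination e, dnf_inj p0 (k1.trans (fmap_dnf ..)),
      (congrArg (upf p) k2).trans (fmap_upf ..).symm⟩
  · rintro ⟨a, b, c, d, e, k1, k2⟩
    obtain ⟨b, rfl⟩ : (p : ℤ) ∣ b := by
      obtain ⟨-, h2, h3, -⟩ := ptm_ne4 hi
      have k := congrArg (·.2.1) k2
      obtain ⟨A, hA⟩ := d1.trans h2.1
      obtain ⟨r, hr⟩ := i.2.2.2
      obtain ⟨s, hs⟩ := j.2.2.2
      simp only [upf, fmap, fbil, dnf] at k hA h3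
      rw [hA, hr] at h3 k
      rw [hs] at k
      refine ((hc.of_mul_right_left.mul_right (cp (y := A) fun ⟨z, hz⟩ => ht ⟨i.1.1.2.1 * r -
        2 * i.1.1.1 * i.1.2.2.2 - 2 * i.1.1.2.2 * z, by rw [← h3, hz]; ring⟩)).mul_right (z := a)
        ⟨-(b * q * c), d, by rw [hq] at e; linear_combination e⟩).dvd_of_dvd_mul_left
        ⟨s - r * (a * d + b * (15 * c)) - 2 * i.1.2.2.2 * (15 * c) * d, mul_left_cancel₀ p0 ?_⟩
      linear_combination -k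
    refine ⟨a, b, p * c, d, by linear_combination e, ?_, ?_⟩ <;> rw [mul_left_comm]
    exacts [(congrArg (dnf p) k1).trans (fmap_dnf ..).symm, upf_inj p0 (k2.trans (fmap_upf ..))]
  · obtain ⟨⟨Q, R⟩, ⟨h1, h2⟩, h3, h4⟩ := i
    refine if_ctx_congr (and_congr ⟨fun k => ⟨h1, ?_, h2⟩, fun k => ⟨h1.mul_left _, ?_, ?_⟩⟩
      (and_congr (and_congr_right' (and_congr ?_ ?_)) (by rw [fbil_dnf]))) (fun k => ?_) fun _ => rfl
    · exact mul_left_cancel₀ (pow_ne_zero 2 p0) ((fdisc_dnf ..).symm.trans k.2.1)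
    · rw [fdisc_dnf, k.2.1]
    · exact mul_sub (p : ℤ) _ _ ▸ h2.mul_left _
    · rw [fdisc_upf, show (p : ℤ) ^ 4 * E = p ^ 2 * (p ^ 2 * E) by ring,
        mul_right_inj' (pow_ne_zero 2 p0)]
    · rw [show (upf p R).2.1 - p ^ 2 * β = p * (R.2.1 - p * β) by simp only [upf]; ring]
      exact ⟨fun k => k.mul_left _, c2 _ (h4.sub (dvd_mul_right _ _))⟩
    · dsimp only
      rw [idn, if_pos ⟨dvd_mul_right _ _, h3⟩, one_mul,
        if_pos (c := (p : ℤ) ∣ (upf p R).2.2) ((dvd_pow_self _ two_ne_zero).mul_right _)]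
      exact h.tr p pp dvd_rfl _ _ _ _ _ _ h1 k.2.1.1

end Pool.Agent.Lib.MP_696deb_nt.B3
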