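import Pool.Agent.Lib.MP_696deb_nt.B3.P1f
import Pool.Agent.Lib.MP_696deb_nt.B3.P4a
import Pool.Agent.Lib.MP_696deb_nt.B3.P4b

/-! The conductor at three or five is moved from one form to the other. -/

set_option autoImplicit false

open scoped Classical
open Finset NumberTheorySymbols

namespace Pool.Agent.Lib.MP_696deb_nt.B3

open B2

variable {D ρ E β t : ℤ} {Φ : Fm → Fm → ℤ} {Q R : Fm} {p : ℕ}

theorem dn_up (hp : p = 3 ∨ p = 5) (hQ : 15 ∣ Q.1) (hR : 15 ∣ R.1) (hQ' : (p : ℤ) ^ 2 ∣ fdisc Q)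
    (hR' : (p : ℤ) ^ 2 ∣ fdisc R) : (p : ℤ) ∣ fbil Q R ∧
      gch p Q * gch p (fV R) = J(-(30 / p) * (fbil Q R / p) | p) * idn p Q :=
  dn_up0 hp hQ hR hQ' hR'

theorem step_half (hp : p = 3 ∨ p = 5) (h : Cm p Φ) (hρ : (p : ℤ) ∣ ρ ^ 2 - D) (hD : ¬ (p : ℤ) ∣ D)
    (ht : ¬ (p : ℤ) ^ 2 ∣ t) :
    pcn (p ^ 2 * D) (p * ρ) (p ^ 2 * E) (p * β) t (fun Q R => idn p Q * Φ Q R) =
      pcn D ρ (p ^ 4 * E) (p ^ 2 * β) t fun Q R => if (p : ℤ) ∣ R.2.2 then Φ Q R else 0 :=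
  step_half0 hp h hρ ht

theorem step_p (hp : p = 3 ∨ p = 5) (h : Cm p Φ) (hρ : (p : ℤ) ∣ ρ ^ 2 - D) (hD : ¬ (p : ℤ) ∣ D)
    (ht : ¬ (p : ℤ) ^ 2 ∣ t) (h0 : D < 0 ∨ IsSquare D) (h1 : t ^ 2 ≠ D * (p ^ 4 * E)) :
    2 * pcn (p ^ 2 * D) (p * ρ) (p ^ 2 * E) (p * β) t (fun Q R => idn p Q * Φ Q R) =
      pcn D ρ (p ^ 4 * E) (p ^ 2 * β) t Φ :=
  step_p_of hp h hρ hD ht h0 h1 fun _ k => step_half0 hp h k ht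

end Pool.Agent.Lib.MP_696deb_nt.B3
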