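import Pool.Agent.Lib.MP_696deb_nt.B3.P0

/-! Weights that do not see the conductor. -/

set_option autoImplicit false

open scoped Classical
open Finset NumberTheorySymbols

namespace Pool.Agent.Lib.MP_696deb_nt.B3

open B2

variable {N : ℤ} {A B : ℕ}

section aux

variable {k l a b c d a' b' c' d' : ℤ} {Q R Q' R' : Fm}

theorem p6_ipos (h : Scl k a b c d Q R) : ipos R = ipos Q := by
  refine if_congr ?_ rfl rfl
  rw [h.disc]
  refine and_congr_right fun hD => ?_
  have h0 : Q.1 ≠ 0 := fun e => by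
    rw [fdisc, e] at hD
    nlinarith [sq_nonneg Q.2.1]
  have h1 := four_mul_fval Q a c
  have h2 : k * R.1 = fval Q a c := h.coef.1
  have h3 : 0 < 4 * Q.1 * fval Q a c := by
    rw [h1]
    rcases eq_or_ne c 0 with rfl | hc
    · have ha : a ≠ 0 := by
        rintro rfl
        have := h.det
        have := h.pos
        omega
      have : 0 < (2 * Q.1 * a) ^ 2 := by positivity
      simpa using this
    · nlinarith [sq_nonneg (2 * Q.1 * a + Q.2.1 * c), mul_pos (sq_pos_of_ne_zero hc) (neg_pos.2 hD)]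
  have h4 : 0 < R.1 * Q.1 := by
    rw [← h2] at h3
    have h5 : 0 < 4 * k := by have := h.pos; omega
    exact (mul_pos_iff_of_pos_left h5).1 (by linarith)
  exact pos_iff_pos_of_mul_pos h4

theorem p6_ipos' (hk : 0 < k) (hl : 0 < l) (h1 : fdisc R = k * fdisc Q) (h2 : R.1 = l * Q.1) :
    ipos R = ipos Q := by
  refine if_congr (and_congr ?_ ?_) rfl rfl
  · rw [h1, ← neg_pos, ← mul_neg, mul_pos_iff_of_pos_left hk, neg_pos]
  · rw [h2, mul_pos_iff_of_pos_left hl]

theorem p6_cop (hA : MP_696deb_nt.Adm A) (p : ℕ) (h : (p : ℤ) ∣ 120) : IsCoprime (p : ℤ) A := by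
  have h1 : A.Coprime (2 ^ 3 * 15) :=
    Nat.Coprime.mul_right (Nat.Coprime.pow_right 3 (Nat.coprime_two_right.2 hA.odd)) hA.cop
  exact Nat.isCoprime_iff_coprime.2
    (h1.symm.coprime_dvd_left (Int.natCast_dvd_natCast.1 (by exact_mod_cast h)))

theorem p6_dvd (h : IsCoprime k A) (x : ℤ) : (A : ℤ) ∣ k ^ 2 * x ↔ (A : ℤ) ∣ x :=
  ⟨h.symm.pow_right.dvd_of_dvd_mul_left, fun j => j.mul_left _⟩

theorem p6_gch (hk : IsCoprime k A) (hl : IsCoprime l A) (x y y' z : ℤ) :
    gch A (k ^ 2 * x, y, l ^ 2 * z) = gch A (x, y', z) := by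
  refine prod_congr rfl fun p hp => ?_
  have h1 : IsCoprime k p := hk.of_isCoprime_of_dvd_right (dvd_of_mem dvd_rfl hp)
  have h2 : IsCoprime l p := hl.of_isCoprime_of_dvd_right (dvd_of_mem dvd_rfl hp)
  simp only [p6_dvd h1, jacobiSym.mul_left, jacobiSym.sq_one' (Int.isCoprime_iff_gcd_eq_one.1 h1),
    jacobiSym.sq_one' (Int.isCoprime_iff_gcd_eq_one.1 h2), one_mul]

theorem p6_gg (hA : MP_696deb_nt.Adm A) (hB : MP_696deb_nt.Adm B) (h : Scl k a b c d Q Q')
    (h' : Scl k a' b' c' d' R R') (c1 : IsCoprime k A) (c2 : IsCoprime k B)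
    (j : J(k | A) * J(k | B) = 1) : gg A B Q' R' = gg A B Q R := by
  rw [gg, gg, h.disc, h'.disc]
  split_ifs with e
  · rw [h.gch hA.sqf hA.odd e.1 c1, h'.gch hB.sqf hB.odd e.2 c2, mul_mul_mul_comm, j, one_mul]
  · rfl

theorem p6_cls (ha : Cls0 a) : a.natAbs.Coprime 15 :=
  Nat.Coprime.mul_right (m := 3) (n := 5)
    (Nat.coprime_comm.1 ((Nat.Prime.coprime_iff_not_dvd Nat.prime_three).2 fun k =>
      ha.m3 (Int.natCast_dvd.2 k)))
    (Nat.coprime_comm.1 ((Nat.Prime.coprime_iff_not_dvd Nat.prime_five).2 fun k =>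
      ha.m5 (Int.natCast_dvd.2 k)))

end aux

theorem cm_pos1 (N : ℤ) : Cm N fun Q _ => ipos Q := by
  refine ⟨fun Q _ a b c d e _ _ => p6_ipos (scl_fmap e Q), fun p hp _ a b c _ _ _ _ _ => ?_,
    fun _ _ _ _ _ _ => rfl, fun _ Q _ h _ => p6_ipos (scl_fW h),
    fun _ Q _ h _ => p6_ipos (scl_fVW h)⟩
  have h0 : (0 : ℤ) < p ^ 2 := by have := hp.pos; positivity
  exact p6_ipos' h0 h0 (by simp only [fdisc]; ring) rfl

theorem cm_pos2 (N : ℤ) : Cm N fun _ R => ipos R := by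
  refine ⟨fun _ R a b c d e _ _ => p6_ipos (scl_fmap e R), fun p hp _ _ _ _ α β γ _ _ => ?_,
    fun _ _ α β γ _ => ?_, fun _ _ R _ h => p6_ipos (scl_fW h),
    fun _ _ R _ h => p6_ipos (scl_fVW h)⟩
  · have h0 : (0 : ℤ) < p ^ 2 := by have := hp.pos; positivity
    exact (p6_ipos' (Q := (α, β, γ)) (R := (α, p * β, p ^ 2 * γ)) h0 one_pos
      (by simp only [fdisc]; ring) (one_mul _).symm).symm
  · exact p6_ipos' (k := 16) (l := 4) (by norm_num) (by norm_num) (by simp only [fdisc]; ring) rfl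

theorem cm_gg (hA : MP_696deb_nt.Adm A) (hB : MP_696deb_nt.Adm B) (hN : N ∣ 120)
    (h3 : J(3 | A) * J(3 | B) = 1) (h5 : J(5 | A) * J(5 | B) = 1) : Cm N (gg A B) := by
  refine ⟨fun Q R a b c d e _ _ => p6_gg hA hB (scl_fmap e Q) (scl_fmap e R) isCoprime_one_left
      isCoprime_one_left (by simp), fun p _ l a b c α β γ _ _ => ?_, fun _ Q α β γ _ => ?_,
    fun _ Q R h k => p6_gg hA hB (scl_fW h) (scl_fW k) (p6_cop hA 3 (by norm_num))
      (p6_cop hB 3 (by norm_num)) h3,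
    fun _ Q R h k => p6_gg hA hB (scl_fVW h) (scl_fVW k) (p6_cop hA 5 (by norm_num))
      (p6_cop hB 5 (by norm_num)) h5⟩
  · have c1 := p6_cop hA p (l.trans hN)
    have c2 := p6_cop hB p (l.trans hN)
    have e1 := p6_gch c1 isCoprime_one_left a (p * b) b c
    have e2 := p6_gch isCoprime_one_left c2 α (p * β) β γ
    rw [one_pow, one_mul] at e1 e2
    rw [gg, gg, e1, e2, show fdisc (p ^ 2 * a, p * b, c) = p ^ 2 * fdisc (a, b, c) by
      simp only [fdisc]; ring, show fdisc (α, p * β, p ^ 2 * γ) = p ^ 2 * fdisc (α, β, γ) by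
      simp only [fdisc]; ring]
    simp only [p6_dvd c1, p6_dvd c2]
  · have c2 : IsCoprime (2 : ℤ) B := p6_cop hB 2 (by norm_num)
    have e2 := p6_gch c2 c2 α (4 * β) β γ
    rw [show (2 : ℤ) ^ 2 = 4 from rfl] at e2
    rw [gg, gg, e2, show fdisc (4 * α, 4 * β, 4 * γ) = 2 ^ 2 * (2 ^ 2 * fdisc (α, β, γ)) by
      simp only [fdisc]; ring]
    simp only [p6_dvd c2]

theorem cm_idn {q : ℤ} (hq : q = 3 ∨ q = 5) (hN : ¬ q ∣ N) : Cm N fun Q _ => idn q Q := by
  have hp : Prime q := by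
    rcases hq with rfl | rfl
    exacts [Int.prime_three, Nat.prime_iff_prime_int.1 Nat.prime_five]
  have h15 : q ∣ 15 := by rcases hq with rfl | rfl <;> norm_num
  refine ⟨?_, fun p _ l a b c _ _ _ _ _ => ?_, fun _ _ _ _ _ _ => rfl, ?_, ?_⟩
  · rintro ⟨_, y, z⟩ _ a b c d e ⟨x, rfl⟩ -
    have hd : ¬ q ∣ d := fun k => hp.not_dvd_one
      (e ▸ dvd_sub (k.mul_left a) ((h15.mul_right c).mul_left b))
    have e1 : (fmap (15 * x, y, z) a b (15 * c) d).2.1 =
        y + 15 * (2 * (x * a * b + y * b * c + z * c * d)) := by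
      simp only [fmap]
      linear_combination y * e
    have e2 : (fmap (15 * x, y, z) a b (15 * c) d).2.2 =
        z * d ^ 2 + (15 * (x * b ^ 2) + y * (b * d)) := by
      simp only [fmap, fval]
      ring
    refine if_congr ?_ rfl rfl
    rw [e1, e2, dvd_add_left (h15.mul_right _)]
    refine and_congr_right fun k => not_congr ?_
    rw [dvd_add_left ((h15.mul_right _).add (k.mul_right _)), hp.dvd_mul,
      or_iff_left fun j => hd (hp.dvd_of_dvd_pow j)]
  · refine if_congr (and_congr_left' ?_) rfl rfl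
    rw [hp.dvd_mul, or_iff_right fun j => hN (j.trans l)]
  · rintro l ⟨_, y, z⟩ _ ⟨x, rfl⟩ -
    obtain rfl : q = 5 := hq.resolve_left fun j => hN (j ▸ l)
    refine if_congr ?_ rfl rfl
    simp only [fW_eq]
    omega
  · rintro l ⟨_, y, z⟩ _ ⟨x, rfl⟩ -
    obtain rfl : q = 3 := hq.resolve_right fun j => hN (j ▸ l)
    refine if_congr ?_ rfl rfl
    simp only [fW_eq, fV]
    omega

/-- The character of `e a` is the product of the characters of `e` and of `a`. -/
theorem gw_split {e a : ℤ} (ha : Cls0 a) (Q : Fm) : gw e a Q = gw e 1 Q * gch a.natAbs Q := by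
  rw [gw, gw, gch_mul ((p6_cls ha).symm.coprime_dvd_left (Nat.gcd_dvd_right _ _)), Int.natAbs_one,
    mul_one, mul_assoc]

theorem uw_split {e a : ℤ} (ha : Cls0 a) {R : Fm} (h : 15 ∣ R.1) (hd : a ∣ fdisc R) :
    uw e a R = J(15 | a.natAbs) * (uw e 1 R * gch a.natAbs R) := by
  have h4 := ha.m4
  rw [uw, uw, gw_split ha, gch_fV (Int.squarefree_natAbs.2 ha.sqf) (Nat.odd_iff.2 (by omega))
    (p6_cls ha) (Int.natAbs_dvd.2 hd) h]
  ring

end Pool.Agent.Lib.MP_696deb_nt.B3
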