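import Pool.Agent.Lib.MP_696deb_nt.B3.P2
import Pool.Agent.Lib.MP_696deb_nt.B3.P3
import Pool.Agent.Lib.MP_696deb_nt.B3.P4
import Pool.Agent.Lib.MP_696deb_nt.B3.P6

/-! The whole conductor is moved from one form to the other. -/

set_option autoImplicit false

open scoped Classical
open Finset NumberTheorySymbols

namespace Pool.Agent.Lib.MP_696deb_nt.B3

open B2

variable {ε D ρ E β t : ℤ} {Φ : Fm → Fm → ℤ}

theorem iter_a (h : Cm 2 Φ) (hD : D % 4 = 1) (hρ : ρ % 2 = 1) (ht : t % 4 = 2) (k : ℕ) :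
    ∀ {E β : ℤ}, 4 ∣ E → 2 ∣ β →
      pcn (4 ^ k * D) (2 ^ k * ρ) E β t Φ = pcn D ρ (4 ^ k * E) (2 ^ k * β) t Φ := by
  induction k with
  | zero => simp
  | succ k ih =>
    intro E β hE hβ
    have h1 : (4 ^ k * D % 4 = 0 ∨ 4 ^ k * D % 4 = 1) ∧ 2 ∣ 4 ^ k * D - 2 ^ k * ρ := by
      rcases k with _ | k
      · omega
      · rw [pow_succ', pow_succ', mul_assoc, mul_assoc]
        omega
    rw [pow_succ' 4, pow_succ' 2, mul_assoc, mul_assoc, step_a h h1.1 h1.2 hE hβ ht,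
      ih (dvd_mul_right _ _) (dvd_mul_right _ _)]
    congr 1 <;> ring

theorem step_two (hε : ε = 1 ∨ ε = -4 ∨ ε = 8 ∨ ε = -8) (t : ℤ) : ∃ lam u t' : ℤ, 0 < u ∧
    (∀ l : ℕ, l.Prime → (l : ℤ) ∣ u → (l : ℤ) ∣ ε) ∧
    (lam ≠ 0 → t' * (lv ε * ε.natAbs) = t * u) ∧
    ∀ {D ρ E β : ℤ} {Φ : Fm → Fm → ℤ}, Cm ε Φ → D % 4 = 1 → ρ % 2 = 1 →
      pcn (ε ^ 2 * D) (ε.natAbs * ρ) (lv ε ^ 2 * E) (lv ε * β) t
          (fun Q R => g2 ε Q * g2 ε R * Φ Q R) =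
        lam * pcn D ρ (u ^ 2 * E) (u * β) t' Φ := by
  rcases hε with rfl | hε
  · exact ⟨1, 1, t, one_pos, fun _ _ h => h, fun _ => by simp [lv],
      fun _ _ _ => by simp [lv, g2, k2]⟩
  obtain ⟨k, h1, h2, h3, h4⟩ : ∃ k : ℕ, ε ^ 2 = 4 ^ (k + 2) ∧ (ε.natAbs : ℤ) = 2 ^ (k + 2) ∧
      lv ε = 2 ^ (k + 3) ∧ 2 ∣ ε := by
    rcases hε with rfl | rfl | rfl
    exacts [⟨0, by decide⟩, ⟨1, by decide⟩, ⟨1, by decide⟩]
  have h5 : ∀ (j l : ℕ), l.Prime → (l : ℤ) ∣ 2 ^ j → (l : ℤ) ∣ ε := fun j l hl h =>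
    ((Nat.prime_iff_prime_int.1 hl).dvd_of_dvd_pow h).trans h4
  have h6 : lv ε ^ 2 = 4 * ε ^ 2 := by
    rw [h1, h3, ← pow_mul, show (4 : ℤ) = 2 ^ 2 from rfl, ← pow_mul]
    ring
  have h7 : ∀ j : ℕ, (4 : ℤ) ^ j = (2 ^ j) ^ 2 := fun j => by
    rw [← pow_mul, mul_comm, pow_mul]; rfl
  by_cases ht : t % 4 = 2
  · refine ⟨k2 ε (-(t / 2)), 2 ^ (2 * k + 5), t, by positivity, h5 _, fun _ => by rw [h2, h3]; ring,
      fun {D ρ E β Φ} h hD hρ => ?_⟩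
    rw [pcn_congr (W' := fun Q R => k2 ε (-(t / 2)) * Φ Q R) fun Q R a b c => by
      rw [g2_one hε (a.2.1 ▸ dvd_mul_right _ _) (b.2.1 ▸ ⟨4 * E, by rw [h6]; ring⟩) (c ▸ ht), c],
      pcn_mul, h1, h2, iter_a (h.mono h4) hD hρ ht _ ⟨ε ^ 2 * E, by rw [h6]; ring⟩
        ⟨2 ^ (k + 2) * β, by rw [h3]; ring⟩, h3, h7]
    congr 2 <;> ring
  by_cases ht' : t % 16 = 8
  · refine ⟨-k2 ε (-(t / 8)), 2 ^ (2 * k + 3), t / 4, by positivity, h5 _, fun _ => ?_,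
      fun {D ρ E β Φ} h hD hρ => ?_⟩
    · obtain ⟨s, rfl⟩ : 4 ∣ t := by omega
      rw [h2, h3, Int.mul_ediv_cancel_left _ four_ne_zero]
      ring
    have h8 := step_b (D := 4 ^ (k + 1) * D) (ρ := 2 ^ (k + 1) * ρ) (E := ε ^ 2 * E)
      (β := 2 ^ (k + 2) * β) (t := t / 4) (h.mono h4) ⟨4 ^ k * D, by ring⟩ ⟨2 ^ k * ρ, by ring⟩
      ⟨4 ^ (k + 1) * E, by rw [h1]; ring⟩ ⟨2 ^ (k + 1) * β, by ring⟩ (by omega)
    rw [iter_a (h.mono h4) hD hρ (by omega) _ ⟨4 ^ (k + 1) * E, by rw [h1]; ring⟩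
      ⟨2 ^ (k + 1) * β, by ring⟩] at h8
    rw [pcn_congr (W' := fun Q R => -k2 ε (-(t / 8)) * if Pr2 Q ∧ Pr2 R then Φ Q R else 0)
      fun Q R a b c => ?_, pcn_mul]
    · congr 1
      convert h8 using 2
      · rw [h1]; ring
      · rw [h2]; ring
      · rw [h6]; ring
      · rw [h3]; ring
      · omega
      · rw [h1, h7, h7]; ring
      · ring
    · split_ifs with h9
      · rw [g2_three hε hD a.2.1 (b.2.1 ▸ ⟨E, by rw [h6]⟩) (c ▸ ht') h9.1 h9.2, c]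
      · rcases not_and_or.1 h9 with h9 | h9 <;> simp [g2_npr hε h9]
  · exact ⟨0, 1, t, one_pos, fun l hl h => h.trans (one_dvd _), fun h => absurd rfl h,
      fun h hD _ => by rw [h6, step_s hε (h.mono h4) hD ht ht', zero_mul]⟩

/-- The indicator `idn`, with the trivial case. -/
def jdn (q : ℕ) (Q : Fm) : ℤ := if q = 1 then 1 else idn q Q

/-- The local weight at a divisor of fifteen. -/
def lq (q : ℕ) (t : ℤ) : ℤ :=
  if q = 1 then 1 else if (q : ℤ) ∣ t then J(-(30 / q) * (t / q) | q) else 0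

variable {q : ℕ}

theorem cm_jdn {N : ℤ} (hq : q = 1 ∨ (q = 3 ∨ q = 5) ∧ ¬ (q : ℤ) ∣ N) :
    Cm N fun Q _ => jdn q Q := by
  rcases hq with rfl | ⟨hq, h⟩
  · exact ⟨by simp [jdn], by simp [jdn], by simp [jdn], by simp [jdn], by simp [jdn]⟩
  · simp only [jdn, if_neg (show q ≠ 1 by omega)]
    exact cm_idn (by omega) h

theorem dn_up' (hq : q = 1 ∨ q = 3 ∨ q = 5) {Q R : Fm} (hQ : 15 ∣ Q.1) (hR : 15 ∣ R.1)
    (hQ' : (q : ℤ) ^ 2 ∣ fdisc Q) (hR' : (q : ℤ) ^ 2 ∣ fdisc R) :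
    gch q Q * gch q (fV R) = lq q (fbil Q R) * jdn q Q := by
  rcases hq with rfl | hq
  · simp [gch, lq, jdn]
  · obtain ⟨h1, h2⟩ := dn_up hq hQ hR hQ' hR'
    have h3 : q ≠ 1 := by omega
    simp only [h2, lq, jdn, if_neg h3, if_pos h1]

theorem lq_ne (hq : q = 3 ∨ q = 5) (h : lq q t ≠ 0) : ¬ (q : ℤ) ^ 2 ∣ t := by
  rintro ⟨s, rfl⟩
  refine h ?_
  have hp : q.Prime := by rcases hq with rfl | rfl <;> norm_num
  rw [lq, if_neg (by omega), if_pos ⟨q * s, by ring⟩, sq, mul_assoc,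
    Int.mul_ediv_cancel_left _ (by omega)]
  exact jac_zero_of_dvd hp ((dvd_mul_right _ _).mul_left _)

theorem step_q (hq : q = 1 ∨ q = 3 ∨ q = 5) (h : Cm q Φ) (hρ : 15 ∣ ρ ^ 2 - D)
    (hD : IsCoprime D q) (ht : q ≠ 1 → ¬ (q : ℤ) ^ 2 ∣ t) (h0 : D < 0 ∨ IsSquare D)
    (h1 : t ^ 2 ≠ D * (q ^ 4 * E)) : (if q = 1 then 1 else 2) *
      pcn (q ^ 2 * D) (q * ρ) (q ^ 2 * E) (q * β) t (fun Q R => jdn q Q * Φ Q R) =
      pcn D ρ (q ^ 4 * E) (q ^ 2 * β) t Φ := by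
  rcases hq with rfl | hq
  · simp [jdn]
  · have h2 : q ≠ 1 := by omega
    simp only [jdn, if_neg h2]
    refine step_p hq h (Dvd.dvd.trans (by rcases hq with rfl | rfl <;> norm_num) hρ)
      (fun k => ?_) (ht h2) h0 h1
    have := Int.isUnit_iff.1 (hD.isUnit_of_dvd' k dvd_rfl)
    omega

variable {δ m e : ℤ}

theorem Dsc.parts (h : Dsc δ m e) : ∃ (ε : ℤ) (q r : ℕ), (ε = 1 ∨ ε = -4 ∨ ε = 8 ∨ ε = -8) ∧
    (q = 1 ∨ q = 3) ∧ (r = 1 ∨ r = 5) ∧ e ^ 2 = (ε * (q * r)) ^ 2 ∧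
    (e.natAbs : ℤ) = ε.natAbs * (q * r) ∧ lv e = lv ε * (q * r) ∧ e.natAbs.gcd 15 = q * r ∧
    ε ∣ e ∧ (q : ℤ) ∣ e ∧ (r : ℤ) ∣ e ∧ k2 e = k2 ε := by
  obtain ⟨h1, h2⟩ := h.spt.cases
  have he := h.eq
  refine ⟨if δ = 1 then 1 else 4 * δ, if 3 ∣ m then 3 else 1, if 5 ∣ m then 5 else 1, ?_⟩
  rcases h1 with rfl | rfl | rfl | rfl <;> rcases h2 with rfl | rfl | rfl | rfl <;> subst he <;>
    exact ⟨by decide, by decide, by decide, by decide, by decide, by decide, by decide, by decide,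
      by decide, by decide, rfl⟩

theorem transfer (h : Dsc δ m e) (t : ℤ) : ∃ N lam u t' : ℤ, 0 < N ∧ 0 < u ∧
    (∀ l : ℕ, l.Prime → (l : ℤ) ∣ u → (l : ℤ) ∣ e) ∧
    (lam ≠ 0 → t' * (lv e * e.natAbs) = t * u) ∧
    ∀ {D ρ E β : ℤ} {Φ : Fm → Fm → ℤ}, Cm e Φ → D % 4 = 1 → IsCoprime D 15 → 60 ∣ ρ ^ 2 - D →
      (D < 0 ∨ IsSquare D) → t ^ 2 ≠ D * e ^ 2 * (E * lv e ^ 2) →
      N * pcn (D * e ^ 2) (ρ * e.natAbs) (E * lv e ^ 2) (β * lv e) t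
          (fun Q R => gw e 1 Q * uw e 1 R * Φ Q R) =
        lam * pcn D ρ (E * u ^ 2) (β * u) t' Φ := by
  obtain ⟨ε, q, r, hε, hq, hr, e1, e2, e3, e4, e5, e6, e7, e8⟩ := h.parts
  obtain ⟨lam, u, t', u0, u1, u2, H⟩ := step_two hε t
  have hq' : q = 1 ∨ q = 3 ∨ q = 5 := by omega
  have hr' : r = 1 ∨ r = 3 ∨ r = 5 := by omega
  have c2 : ∀ {p : ℤ}, p = 3 ∨ p = 5 → ¬ p ∣ ε := fun hp => by
    rcases hp with rfl | rfl <;> omega
  have cq : Cm ε fun Q _ => jdn q Q :=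
    cm_jdn (hq.imp_right fun k => ⟨.inl k, c2 (.inl (by omega))⟩)
  have cr : ∀ N : ℤ, ¬ 5 ∣ N → Cm N fun Q _ => jdn r Q := fun N hN =>
    cm_jdn (hr.imp_right fun k => ⟨.inr k, by rwa [k]⟩)
  have K : ∀ {D ρ E β : ℤ} {Φ : Fm → Fm → ℤ}, Cm e Φ → D % 4 = 1 → 60 ∣ ρ ^ 2 - D →
      pcn (D * e ^ 2) (ρ * e.natAbs) (E * lv e ^ 2) (β * lv e) t
          (fun Q R => gw e 1 Q * uw e 1 R * Φ Q R) = k2 ε 15 * lq q t * lq r t * lam *
        pcn (q ^ 2 * (r ^ 2 * D)) (q * (r * ρ)) (q ^ 2 * (r ^ 2 * (u ^ 2 * E))) (q * (r * (u * β)))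
          t' fun Q R => jdn q Q * (jdn r Q * Φ Q R) := by
    intro D ρ E β Φ hΦ hD hρ
    have h1 : ρ % 2 = 1 := by
      rcases Int.emod_two_eq_zero_or_one ρ with k | k
      · obtain ⟨c, rfl⟩ := Int.dvd_of_emod_eq_zero k
        rw [show (2 * c) ^ 2 = 4 * c ^ 2 by ring] at hρ
        omega
      · exact k
    have h2 := H (D := q ^ 2 * (r ^ 2 * D)) (ρ := q * (r * ρ)) (E := q ^ 2 * (r ^ 2 * E))
      (β := q * (r * β)) (cq.mul ((cr ε (c2 (.inr rfl))).mul (hΦ.mono e5)))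
      (by rcases hq with rfl | rfl <;> rcases hr with rfl | rfl <;> omega)
      (by rcases hq with rfl | rfl <;> rcases hr with rfl | rfl <;> omega)
    rw [pcn_congr (W' := fun Q R => k2 ε 15 * lq q t * lq r t *
      (g2 ε Q * g2 ε R * (jdn q Q * (jdn r Q * Φ Q R)))) fun Q R a b c => ?_, pcn_mul,
      mul_assoc _ lam]
    · congr 1
      convert h2 using 2
      · rw [e1]; ring
      · rw [e2]; ring
      · rw [e3]; ring
      · rw [e3]; ring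
      · congr 1 <;> ring
    have h3 : e ^ 2 ∣ fdisc Q := a.2.1 ▸ dvd_mul_left _ _
    have h4 : e ^ 2 ∣ fdisc R := b.2.1 ▸ (pow_dvd_pow_of_dvd (dvd_lv e) 2).mul_left _
    have h5 := dn_up' hq' a.1 b.1 ((pow_dvd_pow_of_dvd e6 2).trans h3)
      ((pow_dvd_pow_of_dvd e6 2).trans h4)
    have h6 := dn_up' hr' a.1 b.1 ((pow_dvd_pow_of_dvd e7 2).trans h3)
      ((pow_dvd_pow_of_dvd e7 2).trans h4)
    have h7 : q.Coprime r := by rcases hq with rfl | rfl <;> rcases hr with rfl | rfl <;> decide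
    have h8 : ∀ S, g2 e S = g2 ε S := fun S => by rw [g2, g2, e8]
    rw [uw, gw, gw, (scl_fV b.1).g2 h4 (by norm_num), e4, Int.natAbs_one, mul_one, gch_mul h7,
      gch_mul h7, e8, h8, h8, ← c]
    calc _ = k2 ε 15 * (g2 ε Q * g2 ε R) * (gch q Q * gch q (fV R)) * (gch r Q * gch r (fV R)) *
          Φ Q R := by ring
      _ = _ := by rw [h5, h6]; ring
  by_cases h0 : k2 ε 15 * lq q t * lq r t * lam = 0
  · exact ⟨1, 0, 1, 0, one_pos, one_pos, fun l _ k => k.trans (one_dvd _), fun k => absurd rfl k,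
      fun hΦ hD _ hρ _ _ => by rw [K hΦ hD hρ, h0]; simp⟩
  have u3 := u2 (right_ne_zero_of_mul h0)
  have c3 : ∀ {p : ℕ}, p = 1 ∨ p = 3 ∨ p = 5 → lq p t ≠ 0 → p ≠ 1 → ¬ (p : ℤ) ^ 2 ∣ t' := by
    intro p hp k1 k2 k3
    have hp' : p.Prime := by rcases hp with rfl | rfl | rfl <;> first | omega | norm_num
    refine lq_ne (by omega) k1 (IsCoprime.dvd_of_dvd_mul_right (z := u) (IsCoprime.pow_left ?_)
      (u3 ▸ k3.mul_right _))
    exact (Nat.prime_iff_prime_int.1 hp').irreducible.coprime_iff_not_dvd.2 fun k =>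
      c2 (by omega) (u1 p hp' k)
  have r0 : (0 : ℤ) < r := by omega
  have q0 : (0 : ℤ) < q := by omega
  refine ⟨(if r = 1 then 1 else 2) * (if q = 1 then 1 else 2), _, u * (q * r) ^ 2, t',
    by split_ifs <;> norm_num, by positivity, fun l hl k => ?_, fun _ : k2 ε 15 * lq q t * lq r t *
      lam ≠ 0 => by rw [e2, e3]; linear_combination (q * r) ^ 2 * u3,
    fun {D ρ E β Φ} hΦ hD hc hρ hs ht => ?_⟩
  · have hl' := Nat.prime_iff_prime_int.1 hl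
    exact (hl'.dvd_or_dvd k).elim (fun k => (u1 l hl k).trans e5) fun k =>
      (hl'.dvd_or_dvd (hl'.dvd_of_dvd_pow k)).elim (·.trans e6) (·.trans e7)
  have h1 : t' ^ 2 ≠ D * (r ^ 4 * (q ^ 4 * (u ^ 2 * E))) := fun k => ht
    (mul_right_cancel₀ (pow_ne_zero 2 u0.ne') (by
      rw [e1, e3, ← mul_pow t, ← u3, mul_pow t', k, mul_pow (lv ε), Int.natAbs_sq]; ring))
  have h15 : (15 : ℤ) ∣ ρ ^ 2 - D := by omega
  have h2 := step_q (D := r ^ 2 * D) (ρ := r * ρ) (E := r ^ 2 * (u ^ 2 * E)) (β := r * (u * β))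
    (t := t') hq' ((cr q (by omega)).mul (hΦ.mono e6))
    (by rw [mul_pow, ← mul_sub]; exact h15.mul_left _)
    (IsCoprime.mul_left (IsCoprime.pow_left (by
      rcases hq with rfl | rfl <;> rcases hr with rfl | rfl <;> norm_num))
      (hc.of_isCoprime_of_dvd_right (by rcases hq with rfl | rfl <;> decide)))
    (c3 hq' (right_ne_zero_of_mul (left_ne_zero_of_mul (left_ne_zero_of_mul h0))))
    (hs.imp (mul_neg_of_pos_of_neg (by positivity)) ((IsSquare.sq _).mul ·))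
    (by convert h1 using 1; ring)
  have h3 := step_q (D := D) (ρ := ρ) (E := q ^ 4 * (u ^ 2 * E)) (β := q ^ 2 * (u * β))
    (t := t') hr' (hΦ.mono e7) h15
    (hc.of_isCoprime_of_dvd_right (by rcases hr with rfl | rfl <;> decide))
    (c3 hr' (right_ne_zero_of_mul (left_ne_zero_of_mul h0))) hs h1
  rw [K hΦ hD hρ, mul_left_comm, mul_assoc (ite _ _ _), h2]
  congr 1
  convert h3 using 2
  · congr 1 <;> ring
  all_goals ring

end Pool.Agent.Lib.MP_696deb_nt.B3
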