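import Pool.Agent.Lib.MP_696deb_nt.B3.P0

/-! The values of a form at the roots of a split form. -/

set_option autoImplicit false

open scoped Classical
open Finset NumberTheorySymbols

namespace Pool.Agent.Lib.MP_696deb_nt.B3

open B2

variable {σ A k : ℤ} {Q R : Fm}

theorem rv_eq (hσ : σ = 1 ∨ σ = -1) {v : ℤ × ℤ} (h : Rt σ Q v) (R : Fm) :
    rv σ Q R = fval R v.1 v.2 := by
  rw [rv, dif_pos ⟨v, h⟩]
  obtain ⟨⟨a, b, h1⟩, s, h2, h3, h4, h5⟩ := (⟨v, h⟩ : ∃ v, Rt σ Q v).choose_spec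
  generalize (⟨v, h⟩ : ∃ v, Rt σ Q v).choose = w at h1 h4 h5
  obtain ⟨⟨c, d, k1⟩, s', k2, k3, k4, k5⟩ := h
  obtain rfl : s = s' := (pow_left_inj₀ h2.le k2.le two_ne_zero).1 (h3.symm.trans k3)
  have e : v.1 * w.2 = v.2 * w.1 := by
    refine mul_left_cancel₀ (mul_ne_zero (show 2 * σ ≠ 0 by omega) h2.ne') ?_
    linear_combination v.1 * h4 - w.1 * k4 + v.2 * h5 - w.2 * k5
  have e1 : w.1 = (c * w.1 + d * w.2) * v.1 := by linear_combination -w.1 * k1 - d * e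
  have e2 : w.2 = (c * w.1 + d * w.2) * v.2 := by linear_combination -w.2 * k1 + c * e
  generalize c * w.1 + d * w.2 = t at e1 e2
  have e3 : t * (a * v.1 + b * v.2) = 1 := by linear_combination h1 - a * e1 - b * e2
  rw [e1, e2]
  rcases Int.eq_one_or_neg_one_of_mul_eq_one e3 with rfl | rfl <;> simp [fval]

theorem rv_one (hA : 0 < A) (k : ℤ) (R : Fm) : rv 1 (0, A, -k) R = R.1 := by
  rw [rv_eq (Or.inl rfl) (v := (1, 0)) ⟨isCoprime_one_left, A, hA, by simp [fdisc], by simp, by simp⟩]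
  simp [fval]

theorem rv_two (hA : 0 < A) (hk : IsCoprime k A) (R : Fm) : rv (-1) (0, A, -k) R = fval R k A :=
  rv_eq (Or.inr rfl) (v := (k, A)) ⟨hk, A, hA, by simp [fdisc], by simp, by simp only; ring⟩ R

theorem p7_root {Q' : Fm} {a b c d k k' : ℤ} (hk : 0 < k) (hk' : 0 < k') (hd : 0 < a * d - b * c)
    (h : ∀ x y, k * fval Q' x y = k' * fval Q (a * x + b * y) (c * x + d * y)) {v : ℤ × ℤ}
    (hv : Rt σ Q' v) : ∃ (w : ℤ × ℤ) (κ : ℤ), Rt σ Q w ∧ κ ∣ a * d - b * c ∧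
      a * v.1 + b * v.2 = κ * w.1 ∧ c * v.1 + d * v.2 = κ * w.2 := by
  obtain ⟨⟨e, f, h1⟩, s', h2, h3, h4, h5⟩ := hv
  have q1 := h 1 0
  have q2 := h 0 1
  have q3 := h 1 1
  simp only [fval, fdisc] at q1 q2 q3 h3
  have q4 : k * Q'.1 = k' * (Q.1 * a ^ 2 + Q.2.1 * a * c + Q.2.2 * c ^ 2) := by
    linear_combination q1
  have q5 : k * Q'.2.2 = k' * (Q.1 * b ^ 2 + Q.2.1 * b * d + Q.2.2 * d ^ 2) := by
    linear_combination q2
  have q6 : k * Q'.2.1 = k' * (2 * Q.1 * a * b + Q.2.1 * (a * d + b * c) + 2 * Q.2.2 * c * d) := by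
    linear_combination q3 - q1 - q2
  have q7 : (k * s') ^ 2 = (k' * (a * d - b * c)) ^ 2 * fdisc Q := by
    have : (k * s') ^ 2 = (k * Q'.2.1) ^ 2 - 4 * (k * Q'.1) * (k * Q'.2.2) := by
      linear_combination -k ^ 2 * h3
    rw [this, q4, q5, q6, fdisc]
    ring
  have hp := mul_pos hk' hd
  obtain ⟨s, hs⟩ := (Int.pow_dvd_pow_iff two_ne_zero).1 (Dvd.intro _ q7.symm)
  have s0 : 0 < s := (mul_pos_iff_of_pos_left hp).1 (hs ▸ mul_pos hk h2)
  have s1 : fdisc Q = s ^ 2 := by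
    refine mul_left_cancel₀ (pow_ne_zero 2 hp.ne') ?_
    rw [← q7, hs, mul_pow]
  have r1 : 2 * Q.1 * (a * v.1 + b * v.2) + (Q.2.1 + σ * s) * (c * v.1 + d * v.2) = 0 := by
    refine mul_left_cancel₀ hp.ne' ?_
    linear_combination d * k * h4 - c * k * h5 - 2 * d * v.1 * q4 + 2 * c * v.2 * q5 -
      (d * v.2 - c * v.1) * q6 - σ * (d * v.2 + c * v.1) * hs
  have r2 : (Q.2.1 - σ * s) * (a * v.1 + b * v.2) + 2 * Q.2.2 * (c * v.1 + d * v.2) = 0 := by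
    refine mul_left_cancel₀ hp.ne' ?_
    linear_combination a * k * h5 - b * k * h4 + 2 * b * v.1 * q4 - 2 * a * v.2 * q5 -
      (a * v.1 - b * v.2) * q6 + σ * (a * v.1 + b * v.2) * hs
  have r3 : a * d - b * c = (e * d - f * c) * (a * v.1 + b * v.2) +
      (f * a - e * b) * (c * v.1 + d * v.2) := by linear_combination -(a * d - b * c) * h1
  generalize a * v.1 + b * v.2 = x at r1 r2 r3
  generalize c * v.1 + d * v.2 = y at r1 r2 r3
  have g0 : 0 < Int.gcd x y := Int.gcd_pos_iff.2 (by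
    by_contra hn
    push Not at hn
    rw [hn.1, hn.2] at r3
    omega)
  obtain ⟨x', y', g1, g2, g3⟩ := Int.exists_gcd_one g0
  generalize Int.gcd x y = g at g0 g2 g3
  have g4 : (g : ℤ) ≠ 0 := by omega
  subst g2 g3
  refine ⟨(x', y'), g, ⟨Int.isCoprime_iff_gcd_eq_one.2 g1, s, s0, s1, ?_, ?_⟩,
    ⟨(e * d - f * c) * x' + (f * a - e * b) * y', by linear_combination r3⟩, mul_comm _ _,
    mul_comm _ _⟩
  · exact mul_left_cancel₀ g4 (by linear_combination r1)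
  · exact mul_left_cancel₀ g4 (by linear_combination r2)

theorem p7_rv (hσ : σ = 1 ∨ σ = -1) {Q' R' : Fm} {a b c d k k' m m' : ℤ} (hk : 0 < k)
    (hk' : 0 < k') (hd : 0 < a * d - b * c)
    (h : ∀ x y, k * fval Q' x y = k' * fval Q (a * x + b * y) (c * x + d * y))
    (h' : ∀ x y, m * fval R' x y = m' * fval R (a * x + b * y) (c * x + d * y)) :
    ∃ κ, κ ∣ a * d - b * c ∧ m * rv σ Q' R' = m' * κ ^ 2 * rv σ Q R := by
  by_cases hv : ∃ v, Rt σ Q' v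
  · obtain ⟨v, hv⟩ := hv
    obtain ⟨w, κ, h1, h2, h3, h4⟩ := p7_root hk hk' hd h hv
    refine ⟨κ, h2, ?_⟩
    rw [rv_eq hσ hv, rv_eq hσ h1, h', h3, h4, fval, fval]
    ring
  refine ⟨1, one_dvd _, ?_⟩
  rw [rv, rv, dif_neg hv, dif_neg, mul_zero, mul_zero]
  rintro ⟨w, hw⟩
  obtain ⟨v, -, h1, -⟩ := p7_root (Q := Q') (a := d) (b := -b) (c := -c) (d := a)
    (mul_pos hk' (pow_pos hd 2)) hk (by linarith) (fun x y => by rw [h, fval, fval]; ring) hw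
  exact hv ⟨v, h1⟩

theorem p7_sgn {m m' κ x x' : ℤ} (hm : 0 < m) (hm' : 0 < m') (hκ : κ ≠ 0)
    (h : m * x' = m' * κ ^ 2 * x) : x'.sign = x.sign := by
  have e := congrArg Int.sign h
  rwa [Int.sign_mul, Int.sign_mul, Int.sign_eq_one_of_pos hm,
    Int.sign_eq_one_of_pos (mul_pos hm' (pow_pos (abs_pos.2 hκ) 2 |>.trans_eq (sq_abs κ))),
    one_mul, one_mul] at e

theorem p7_val {l : ℕ} (hl : l.Prime) {m m' x x' : ℤ} (hm : ¬ (l : ℤ) ∣ m) (hm' : ¬ (l : ℤ) ∣ m')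
    (h : m * x' = m' * x) : padicValInt l x' = padicValInt l x := by
  have := Fact.mk hl
  have h0 : m ≠ 0 := fun e => hm (e ▸ dvd_zero _)
  have h1 : m' ≠ 0 := fun e => hm' (e ▸ dvd_zero _)
  by_cases hx : x = 0
  · rw [hx, mul_zero, mul_eq_zero] at h
    rw [hx, h.resolve_left h0]
  have hx' : x' ≠ 0 := fun e => mul_ne_zero h1 hx (by rw [← h, e, mul_zero])
  have e := congrArg (padicValInt l) h
  rwa [padicValInt.mul h0 hx', padicValInt.mul h1 hx, padicValInt.eq_zero_of_not_dvd hm,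
    padicValInt.eq_zero_of_not_dvd hm', zero_add, zero_add] at e

/-- Weights which only see the roots up to factors dividing a power of a divisor of `N`. -/
theorem p7_cm {N : ℤ} {Φ : Fm → Fm → ℤ} (H : ∀ (Q R Q' R' : Fm) (a b c d k k' m m' p : ℤ),
    0 < k → 0 < k' → 0 < m → 0 < m' → 0 < a * d - b * c → p ∣ N → m * m' * (a * d - b * c) ∣ p ^ 3 →
    (∀ x y, k * fval Q' x y = k' * fval Q (a * x + b * y) (c * x + d * y)) →
    (∀ x y, m * fval R' x y = m' * fval R (a * x + b * y) (c * x + d * y)) → Φ Q' R' = Φ Q R) :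
    Cm N Φ where
  inv Q R a b c d e _ _ := H _ _ _ _ a b (15 * c) d 1 1 1 1 1 one_pos one_pos one_pos one_pos
    (by omega) (one_dvd _) (by simp [e]) (fun x y => by rw [fval_fmap]) fun x y => by rw [fval_fmap]
  tr p hp l a b c α β γ _ _ := by
    have h0 : (0 : ℤ) < p := by exact_mod_cast hp.pos
    exact H _ _ _ _ p 0 0 1 1 1 (p ^ 2) 1 p one_pos one_pos (pow_pos h0 2) one_pos (by omega) l
      ⟨1, by ring⟩ (fun x y => by simp only [fval]; ring) fun x y => by simp only [fval]; ring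
  sc l Q α β γ _ := H _ _ _ _ 1 0 0 1 1 1 1 4 2 one_pos one_pos one_pos (by norm_num) (by norm_num)
    l (by norm_num) (fun x y => by simp) fun x y => by simp only [fval]; ring
  w3 l Q R h1 h2 := by
    have key : ∀ S : Fm, 15 ∣ S.1 → ∀ x y,
        3 * fval (fW S) x y = 1 * fval S (6 * x + 1 * y) (15 * x + 3 * y) := by
      rintro ⟨_, b, c⟩ ⟨a, rfl⟩ x y
      simp only [fW_eq, fval]
      ring
    exact H _ _ _ _ 6 1 15 3 3 1 3 1 3 (by norm_num) one_pos (by norm_num) one_pos (by norm_num) l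
      (by norm_num) (key Q h1) (key R h2)
  w5 l Q R h1 h2 := by
    have key : ∀ S : Fm, 15 ∣ S.1 → ∀ x y,
        5 * fval (fV (fW S)) x y = 1 * fval S (5 * x + -2 * y) (15 * x + -5 * y) := by
      rintro ⟨_, b, c⟩ ⟨a, rfl⟩ x y
      simp only [fW_eq, fV, fval, Int.mul_ediv_cancel_left _ (show (15 : ℤ) ≠ 0 by norm_num)]
      ring
    exact H _ _ _ _ 5 (-2) 15 (-5) 5 1 5 1 5 (by norm_num) one_pos (by norm_num) one_pos
      (by norm_num) l (by norm_num) (key Q h1) (key R h2)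

theorem cm_rsg (N : ℤ) : Cm N rsg :=
  p7_cm fun Q R Q' R' a b c d k k' m m' p h1 h2 h3 h4 h5 _ _ h6 h7 => by
    obtain ⟨κ, e1, e2⟩ := p7_rv (Or.inl rfl) h1 h2 h5 h6 h7
    exact p7_sgn h3 h4 (ne_zero_of_dvd_ne_zero h5.ne' e1) e2

theorem cm_rvl {N : ℤ} {l : ℕ} (hl : l.Prime) (h : ¬ (l : ℤ) ∣ N) : Cm N (rvl l) :=
  p7_cm fun Q R Q' R' a b c d k k' m m' p h1 h2 h3 h4 h5 h8 h9 h6 h7 => by
    have hp := Nat.prime_iff_prime_int.1 hl
    have n0 : ¬ (l : ℤ) ∣ m * m' * (a * d - b * c) := fun e =>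
      h ((hp.dvd_of_dvd_pow (e.trans h9)).trans h8)
    have n1 : ¬ (l : ℤ) ∣ m := fun e => n0 ((e.mul_right _).mul_right _)
    have n2 : ∀ κ, κ ∣ a * d - b * c → ¬ (l : ℤ) ∣ m' * κ ^ 2 := fun κ e1 e =>
      (hp.dvd_or_dvd e).elim (fun e => n0 ((e.mul_left _).mul_right _))
        fun e => n0 (((hp.dvd_of_dvd_pow e).trans e1).mul_left _)
    obtain ⟨κ, e1, e2⟩ := p7_rv (Or.inl rfl) h1 h2 h5 h6 h7
    obtain ⟨κ', e3, e4⟩ := p7_rv (Or.inr rfl) h1 h2 h5 h6 h7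
    rw [rvl, rvl, p7_sgn h3 h4 (ne_zero_of_dvd_ne_zero h5.ne' e1) e2, p7_val hl n1 (n2 κ e1) e2,
      p7_val hl n1 (n2 κ' e3) e4]

end Pool.Agent.Lib.MP_696deb_nt.B3
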