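import Pool.Agent.Lib.MP_696deb_nt.B3.P0
import Pool.Agent.Lib.MP_696deb_nt.B2.GZa

/-! The counts of conductor one, orientation by orientation. -/

set_option autoImplicit false

open scoped Classical
open Finset NumberTheorySymbols

namespace Pool.Agent.Lib.MP_696deb_nt.B3

open B2

theorem jac35 {A B : ℕ} (hn : Good (A * B)) {ρ : ℤ} (hρ : 60 ∣ ρ ^ 2 + (A * B : ℕ)) :
    J(3 | A) * J(3 | B) = 1 ∧ J(5 | A) * J(5 | B) = 1 := by
  have h : J(3 | A * B) = 1 ∧ J(5 | A * B) = 1 :=
    ⟨jac_of_split hn Nat.prime_three (fun l => by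
      simpa using Nat.eq_one_of_dvd_coprimes hn.cop l (by norm_num))
      (Dvd.dvd.trans (by norm_num) hρ), jac_of_split hn Nat.prime_five (fun l => by
      simpa using Nat.eq_one_of_dvd_coprimes hn.cop l (by norm_num))
      (Dvd.dvd.trans (by norm_num) hρ)⟩
  simpa only [jacobiSym.mul_right' _ hn.sqf.of_mul_left.ne_zero hn.sqf.of_mul_right.ne_zero]
    using h

end Pool.Agent.Lib.MP_696deb_nt.B3
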