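import Pool.Agent.Lib.MP_696deb_nt.B2.XRF
import Pool.Agent.Lib.MP_696deb_nt.B2.TW4
import Pool.Agent.Lib.MP_696deb_nt.B3.XMU
import Pool.Agent.Lib.MP_696deb_nt.B3.XSb
import Pool.Agent.Lib.MP_696deb_nt.B3.XLe

/-! Cyclic coefficients on the branches of a twist that is ramified at two: local computations. -/

set_option autoImplicit false

open scoped NNReal Classical
open Finset Matrix PowerSeries NumberTheorySymbols

namespace Pool.Agent.Lib.MP_696deb_nt.B3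

open B2

/-- The branch `e` of a twist that is ramified exactly at two. -/
structure Br (T : Tate) (n : ℕ) (e : ℤ) : Prop where
  nok : Nok n
  two : T.f ∣ 2
  ne : T.f ≠ 1
  dvd : e ∣ n
  m4 : e % 4 = 1

/-- The hypotheses on a branch at one deep place. -/
structure ROk (T : Tate) (n k : ℕ) (e : ℤ) (lam : Plc) (ψ : Gam → Lam) (w : Plc) : Prop where
  br : Br T n e
  ok : SOk T n k lam ψ {w}
  triv : ∀ g ∈ GK n, ψ g - chL (T.f * e) g ∈ Ideal.span {(X : Lam)}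
  pos : 1 ≤ k

variable {T : Tate} {n k i : ℕ} {e : ℤ} {lam w v : Plc} {ψ : Gam → Lam} {g : Gam}
  {D : Subgroup Gam}

theorem Br.e_ne (h : Br T n e) : e ≠ 0 := by
  have := h.m4
  omega

theorem Br.chi_mul (h : Br T n e) (g : Gam) : chi (T.f * e) g = chi T.f g * chi e g :=
  B2.chi_mul T.f_ne h.e_ne g

theorem Br.nd_e (h : Br T n e) (hv : v.p ∣ 30) : ¬ (v.p : ℤ) ∣ e := fun l => by
  have l' : v.p ∣ n := by exact_mod_cast l.trans h.dvd
  exact (rl5_nd h.nok (Nat.mem_primeFactors.2 ⟨v.prime, l', h.nok.pos.ne'⟩)).2 hv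

theorem Br.nd (h : Br T n e) (h2 : v.p ≠ 2) (he : ¬ (v.p : ℤ) ∣ e) :
    ¬ (v.p : ℤ) ∣ 2 * (T.f * e) := mu0_ndvd h2 fun l => by
  refine ((Nat.prime_iff_prime_int.1 v.prime).dvd_or_dvd l).elim (fun l => h2 ?_) he
  exact (Nat.prime_dvd_prime_iff_eq v.prime Nat.prime_two).1 (by exact_mod_cast l.trans h.two)

theorem Br.nd15 (h : Br T n e) (hv : v.p = 3 ∨ v.p = 5) : ¬ (v.p : ℤ) ∣ 2 * (T.f * e) :=
  h.nd (by omega) (h.nd_e (by rcases hv with l | l <;> simp [l]))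

theorem Br.nd_adm (h : Br T n e) (hv : Adm n v.p) : ¬ (v.p : ℤ) ∣ 2 * (T.f * e) :=
  h.nd hv.ne.1 fun l => hv.nd ((dvd_neg.2 (l.trans h.dvd)).mul_left 2)

theorem Br.chi_two (h : Br T n e) (hv : v.p = 2) (hg : g ∈ GK n ⊓ Dec v) :
    chi (T.f * e) g = chi T.f g := by rw [h.chi_mul, chi_GK_two h.m4 h.nok.m8 hv hg, mul_one]

theorem Br.chi_I30 (h : Br T n e) (hg : g ∈ I30) : chi (T.f * e) g = chi T.f g := by
  have : I30 ≤ (chi e).ker := iSup_le fun w σ hσ => xi_eq_zero.1 (xi_ine h.m4 (h.nd_e w.2) hσ)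
  rw [h.chi_mul, this hg, mul_one]

theorem Br.nrm (h : Br T n e) (v : Fin 2) : ¬ T.Rm v := fun l => by
  have := l.trans h.two
  fin_cases v <;> simp at this

theorem Br.fix (h : Br T n e) {P : EE} {m : ℕ} (hP : 2 ^ m • P = 0)
    (k : ∀ g ∈ GK n, tw (T.f * e) g P = P) : 4 • P = 0 :=
  T.ok.fix m P hP fun g hg => by
    rw [tw, ← h.chi_I30 hg]
    exact k g (h.nok.I30_le hg)

theorem rl_evL {D : ℤ} (h : ψ g - chL D g ∈ Ideal.span {(X : Lam)}) (i : ℕ) :
    evL i (ψ g) = (chi D g : ℤ) := by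
  obtain ⟨y, hy⟩ := Ideal.mem_span_singleton.1 h
  rw [eq_add_of_sub_eq hy, map_add, map_mul, evL_X, zero_mul, zero_add, map_intCast]

theorem ROk.act (h : ROk T n k e lam ψ w) (hg : g ∈ GK n) (x : Fin 2 → Zi i) :
    act T ψ (Zi i) g x = (chi (T.f * e) g : ℤ) • mred i (T.ρ g) *ᵥ x := by
  have := rl_act (ψ := fun _ => 1) (g := g) T (by simp) x
  rw [act_eq, one_smul] at this
  rw [act_eq, this]
  exact funext fun r => by
    rw [Pi.smul_apply, zL_smul, rl_evL (h.triv g hg), Pi.smul_apply, zsmul_eq_mul]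

theorem ROk.emb (h : ROk T n k e lam ψ w) (hg : g ∈ GK n) (x : Fin 2 → Zi i) :
    T.emb i (B2.act T ψ (Zi i) g x) = tw (T.f * e) g (T.emb i x) := by rw [h.act hg, tw_emb]

theorem ROk.kil (h : ROk T n k e lam ψ w) (hi : i ≤ k) : Kil k (Zi i) := kil_Zi hi h.pos

theorem ROk.isAct (h : ROk T n k e lam ψ w) (hi : i ≤ k) : Act (GK n) (B2.act T ψ (Zi i)) :=
  h.ok.chr.act T (h.kil hi)

theorem ROk.dual (h : ROk T n k e lam ψ w) (hi : i ≤ k) :
    Dual i (GK n) (B2.act T ψ (Zi i)) (B2.act T ψ (Zi i)) (bd i) := by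
  refine ⟨h.isAct hi, h.isAct hi, fun g hg x y => ?_, fun x hx => ?_, fun x hx => ?_⟩
  · rw [h.act hg, h.act hg, map_zsmul, map_zsmul, AddMonoidHom.zsmul_apply, smul_smul,
      ← Units.val_mul, Int.units_mul_self, Units.val_one, one_smul, cy, ← T.det, RingHom.map_det,
      det_fin_two]
    simp only [bd_apply, mred, mulVec, dotProduct, Fin.sum_univ_two, RingHom.mapMatrix_apply]
    ring
  · exact funext (Fin.forall_fin_two.2 ⟨by simpa [bd_apply] using hx ![0, 1],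
      by simpa [bd_apply] using hx ![1, 0]⟩)
  · exact funext (Fin.forall_fin_two.2 ⟨by simpa [bd_apply] using hx ![0, 1],
      by simpa [bd_apply] using hx ![1, 0]⟩)

/-- The local classes that survive at the double level. -/
theorem ROk.idx (F : CFT) (h : ROk T n k e lam ψ w) (hi : i + i ≤ k) (hv : v.p ≠ 2)
    {u : Zi i →+ Zi (i + i)} (hu : ∀ x, T.emb (i + i) (fun r => u (x r)) = T.emb i x)
    (Z : AddSubgroup (Gam → Fin 2 → Zi i)) [Finite Z]
    (hZ : ∀ c ∈ Z, Coc (GK n) (B2.act T ψ (Zi i)) c) :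
    Nat.card Z ≤ Nat.card (Z ⊓ Kc (GK n ⊓ Dec v) (B2.act T ψ (Zi (i + i))) (u.compLeft (Fin 2)) :
      AddSubgroup _) * Nat.card (H0 (GK n ⊓ Dec v) (B2.act T ψ (Zi (i + i)))) := by
  obtain ⟨fin, h1, -⟩ := ld_core F (w := v) (op_GK n) ((h.dual (by omega : i ≤ k)).mono inf_le_left)
  rw [ldeg, if_neg hv, add_zero, pow_one] at h1
  let π := (ZMod.castHom (pow_dvd_pow 2 (Nat.le_add_right i i)) (Zi i)).toAddMonoidHom
  have e : ∀ x, T.emb i (π.compLeft (Fin 2) x) = 2 ^ i • T.emb (i + i) x := fun x =>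
    (T.two i i x).symm
  have h2 := rl_conn (D := GK n ⊓ Dec v) (aN := B2.act T ψ (Zi i)) (a' := B2.act T ψ (Zi i))
    ((h.isAct hi).mono inf_le_left) (ι := u.compLeft (Fin 2)) (π := π.compLeft (Fin 2))
    (fun x y l => T.inj i (by rw [← hu, ← hu]; exact congrArg _ l))
    (Function.Surjective.comp_left (ZMod.castHom_surjective (pow_dvd_pow 2 (Nat.le_add_right i i))))
    (fun x => ⟨fun l => ?_, ?_⟩) (fun g _ x => act_map (zLin u X_Zi) x)
    fun g _ x => act_map (zLin π X_Zi) x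
  · have : Finite (Z ⊓ Kc (GK n ⊓ Dec v) (B2.act T ψ (Zi (i + i))) (u.compLeft (Fin 2)) :
      AddSubgroup _) := rl_fin inf_le_left
    refine (rl_idx (rs (GK n ⊓ Dec v)) Z ?_ inf_le_left (h1.le.trans h2)).trans
      (Nat.mul_le_mul_right _ (AddSubgroup.card_le_of_le fun c hc => ⟨hc.1, ?_⟩))
    · rintro _ ⟨c, hc, rfl⟩
      exact rs_mem_Z1 ((hZ c hc).mono inf_le_left)
    · obtain ⟨x, hx⟩ := mem_Kc.1 hc.2.2
      exact mem_Kc.2 ⟨x, fun g hg => rs_of_mem hg c ▸ hx g hg⟩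
  · obtain ⟨y, hy⟩ := T.surj i _ ((e x).symm.trans ((congrArg _ l).trans (map_zero _)))
    exact ⟨y, T.inj _ ((hu y).trans hy)⟩
  · rintro ⟨y, rfl⟩
    exact T.inj i ((e _).trans (((congrArg _ (hu y)).trans (T.emb_pow y)).trans (map_zero _).symm))

/-- The action on the points of order four. -/
theorem rl_four (T : B2.Tate) (g : Gam) (x : Fin 2 → Zi 2) :
    mred 2 (T.ρ g) *ᵥ x = ![x 0, (chi (-1) g : ℤ) • x 1] := by
  rcases Int.units_eq_one_or (chi (-1) g) with l | l <;> rw [l]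
  · rw [T.mod4 g l, one_mulVec]
    ext r
    fin_cases r <;> simp
  · have := T.mod4 (cc * g) (by rw [map_mul, l, chi_cc (by decide)]; rfl)
    rw [deep_rho T this]
    ext r
    fin_cases r <;> simp [mulVec, dotProduct]

theorem rl_mono {r : ℕ} (hr : r ≤ i) :
    Nat.card (H0 D (B2.act T ψ (Zi r))) ≤ Nat.card (H0 D (B2.act T ψ (Zi i))) := by
  obtain ⟨u, u1, -⟩ := T.exists_up hr
  exact Nat.card_le_card_of_injective (fun x => ⟨fun s => u (x.1 s), fun g hg =>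
    (act_map (zLin u X_Zi) x.1).symm.trans (by rw [x.2 g hg]; rfl)⟩)
    fun x y l => Subtype.ext (funext fun s => u1 (congrFun (congrArg Subtype.val l) s))

theorem rl_eight (f : Fin 2 → Zi 2) (hf : f = ![2, 1] ∨ f = ![1, 2]) {U : AddSubgroup (Fin 2 → Zi 2)}
    (h : ∀ x : Fin 2 → Zi 2, f * x ∈ U) : 8 ≤ Nat.card U := by
  have : 8 ≤ (univ.image fun x => f * x).card := by rcases hf with rfl | rfl <;> decide
  refine this.trans ?_
  rw [← Nat.card_eq_finsetCard]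
  refine Nat.card_le_card_of_injective (fun x => ⟨x.1, ?_⟩) fun x y l =>
    Subtype.ext (congrArg Subtype.val l :)
  obtain ⟨y, -, hy⟩ := mem_image.1 x.2
  exact hy ▸ h y

theorem ROk.act4 (h : ROk T n k e lam ψ w) (hg : g ∈ GK n) (x : Fin 2 → Zi 2) :
    B2.act T ψ (Zi 2) g x = ![(chi (T.f * e) g : ℤ) • x 0, (chi (-(T.f * e)) g : ℤ) • x 1] := by
  rw [h.act hg, rl_four, ← neg_one_mul (T.f * e), B2.chi_mul (by decide) (mul_ne_zero T.f_ne h.br.e_ne),
    mul_comm (chi (-1) g), Units.val_mul, mul_smul]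
  ext r
  fin_cases r <;> rfl

theorem rl_two (s : ℤˣ) (x : Zi 2) : (s : ℤ) • (2 * x) = 2 * x := by
  revert s x
  decide

theorem Br.jac (h : Br T n e) (hv : v.p = 3 ∨ v.p = 5) :
    J(T.f * e | v.p) = 1 ∨ J(T.f * e | v.p) = -1 := by
  rw [← chi_frob (h.nd15 hv) (fr_spec v)]
  rcases Int.units_eq_one_or (chi (T.f * e) (fr v)) with l | l <;> simp [l]

theorem ROk.three (h : ROk T n k e lam ψ w) (hi : 2 ≤ i) (hv : v.p = 3) :
    8 ≤ Nat.card (H0 (GK n ⊓ Dec v) (B2.act T ψ (Zi i))) := by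
  refine le_trans ?_ (rl_mono hi)
  have nd := h.br.nd15 (.inl hv)
  rcases h.br.jac (.inl hv) with l | l
  · refine rl_eight _ (.inr rfl) fun x g hg => ?_
    rw [h.act4 hg.1, chi_dec nd l hg.2]
    ext r
    fin_cases r
    exacts [one_smul _ _, rl_two _ _]
  · refine rl_eight _ (.inl rfl) fun x g hg => ?_
    rw [h.act4 hg.1, chi_dec (a := -(T.f * e)) (by rwa [mul_neg, dvd_neg]) (by
      rw [jacobiSym.neg _ (by rw [hv]; decide), l, hv]; rfl) hg.2]
    ext r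
    fin_cases r
    exacts [rl_two _ _, one_smul _ _]

theorem ROk.five (h : ROk T n k e lam ψ w) (hi : 2 ≤ i) (hv : v.p = 5) :
    4 ^ (if J(T.f * e | 5) = 1 then 2 else 1) ≤
      Nat.card (H0 (GK n ⊓ Dec v) (B2.act T ψ (Zi i))) := by
  split_ifs with l
  · exact rl_card_H0 hi fun g hg x => by
      rw [h.act hg.1, T.mod4 g (chi_dec (by rw [hv]; norm_num) (by rw [hv]; norm_num) hg.2),
        one_mulVec, chi_dec (h.br.nd15 (.inr hv)) (hv ▸ l) hg.2, Units.val_one, one_smul]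
  · exact rl_card_H0 (by omega) fun g hg x => T.inj 1 (by
      rw [h.emb hg.1, tv_two T _ _ (T.emb_pow x)])

theorem ROk.tower (h : ROk T n k e lam ψ w) (hi : 3 ≤ i) (hk : i ≤ k) :
    4 ^ 3 ≤ Nat.card (H0 (GK n ⊓ Dec lam) (B2.act T ψ (Zi i))) := by
  have t := h.ok.adm.tm_gn h.ok.nok
  have nd := h.br.nd_adm h.ok.adm
  refine rl_card_H0 hi fun g hg x => t.fix Zi_kill'
    ((h.isAct (hi.trans hk)).mono inf_le_left) ?_ ?_ hg
  · rw [h.act t.τ_mem.1, T.unr lam h.ok.adm.nd30 _ t.gen.1, la_mred_one, one_mulVec,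
      B2.chi_ine nd t.gen.1, Units.val_one, one_smul]
  obtain ⟨u, -, hu⟩ := h.ok.a15_lam
  obtain ⟨y, hy⟩ := (pow_dvd_pow 2 (by omega : 3 ≤ 2 * k + 4)).trans h.ok.dvd
  have h1 := T.tr lam _ h.ok.adm.nd30 (fr_spec lam)
  have h2 := (T.det _).trans (cyc_frob h.ok.adm.ne.1 (fr_spec lam))
  have h3 : (lam.p : ℤ_[2]) + 1 = 2 ^ 3 * y := by exact_mod_cast hy
  rw [hu, trace_fin_two] at h1
  rw [det_fin_two] at h2
  push_cast at h1
  have : mred 3 (T.ρ (fq lam)) = mred 3 1 := by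
    ext r s
    refine (cle_eq_iff 3 _ _).2 ?_
    rw [fq, map_mul, mul_apply, Fin.sum_univ_two]
    revert r s
    simp only [Fin.forall_fin_two, one_apply_eq, one_apply_ne zero_ne_one, one_apply_ne one_ne_zero]
    exact ⟨⟨⟨u * T.ρ (fr lam) 0 0 - y, by linear_combination T.ρ (fr lam) 0 0 * h1 - h2 - h3⟩,
      u * T.ρ (fr lam) 0 1, by linear_combination T.ρ (fr lam) 0 1 * h1⟩,
      ⟨u * T.ρ (fr lam) 1 0, by linear_combination T.ρ (fr lam) 1 0 * h1⟩,
      u * T.ρ (fr lam) 1 1 - y, by linear_combination T.ρ (fr lam) 1 1 * h1 - h2 - h3⟩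
  rw [h.act t.mem, this, la_mred_one, one_mulVec, fq, map_mul, Int.units_mul_self, Units.val_one,
    one_smul]

theorem Br.exists_neg (h : Br T n e) (l : ¬ (J(T.f * e | 3) = -1 ∧ J(T.f * e | 5) = 1)) :
    ∃ g ∈ GK n, chi (-1) g = 1 ∧ chi (T.f * e) g = -1 := by
  have le := h.nok.fr_w2.2
  have c2 : ∀ σ ∈ Ine w2, chi (T.f * e) σ = chi T.f σ := fun σ hσ =>
    h.chi_two w2_p ⟨le hσ, Ine_le _ hσ⟩
  obtain ⟨σ, s1, s2, -⟩ := exists_ine_two w2_p (-1) 1
  obtain ⟨τ, t1, t2, t3⟩ := exists_ine_two w2_p 1 (-1)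
  rcases (dvd_two h.two).resolve_left h.ne with f | f | f
  · rcases h.jac (v := bp 0) (bp_or 0) with a | a
    · refine ⟨σ * fr (bp 0), mul_mem (le s1) (h.nok.split (bp_or 0) (fr_spec _).1), ?_, ?_⟩
      · have := chi_frob (a := -1) (by rw [bp_p]; decide) (fr_spec (bp 0))
        rw [bp_p, show J(-1 | ![3, 5] 0) = ((-1 : ℤˣ) : ℤ) by norm_num] at this
        rw [map_mul, s2, Units.ext this]
        rfl
      · rw [map_mul, c2 σ s1, chi_dec (h.nd15 (bp_or 0)) a (fr_spec _).1, f, s2, mul_one]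
    rcases h.jac (v := bp 1) (bp_or 1) with b | b
    · exact absurd ⟨by simpa [bp_p] using a, by simpa [bp_p] using b⟩ l
    · exact ⟨fr (bp 1), h.nok.split (bp_or 1) (fr_spec _).1,
        chi_dec (by rw [bp_p]; decide) (by rw [bp_p]; norm_num) (fr_spec _).1,
        Units.ext ((chi_frob (h.nd15 (bp_or 1)) (fr_spec _)).trans b)⟩
  · exact ⟨τ, le t1, t2, by rw [c2 τ t1, f, t3]⟩
  · refine ⟨τ, le t1, t2, ?_⟩
    rw [c2 τ t1, f, show (-2 : ℤ) = -1 * 2 from rfl, B2.chi_mul (by decide) (by decide), t2, t3,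
      one_mul]

theorem rl_card_le {U : AddSubgroup (Fin 2 → Zi 2)} {p : (Fin 2 → Zi 2) → Prop} [DecidablePred p]
    (h : ∀ x ∈ U, p x) : Nat.card U ≤ (univ.filter p).card := by
  rw [← Nat.card_eq_finsetCard]
  exact Nat.card_le_card_of_injective (fun x => ⟨x.1, mem_filter.2 ⟨mem_univ _, h x x.2⟩⟩)
    fun x y l => Subtype.ext (congrArg Subtype.val l :)

/-- The global invariants. -/
theorem ROk.glob (h : ROk T n k e lam ψ w) : Nat.card (H0 (GK n) (B2.act T ψ (Zi i))) ≤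
    2 ^ if J(T.f * e | 3) = -1 ∧ J(T.f * e | 5) = 1 then 3 else 2 := by
  have ex : ∀ x : H0 (GK n) (B2.act T ψ (Zi i)), ∃ y : H0 (GK n) (B2.act T ψ (Zi 2)),
      T.emb 2 y = T.emb i x := fun x => by
    have fx : ∀ g ∈ GK n, tw (T.f * e) g (T.emb i x) = T.emb i x := fun g hg => by
      rw [← h.emb hg, x.2 g hg]
    obtain ⟨y, hy⟩ := T.surj 2 _ (h.br.fix (T.emb_pow _) fx)
    exact ⟨⟨y, fun g hg => T.inj 2 (by rw [h.emb hg, hy, fx g hg])⟩, hy⟩
  choose f hf using ex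
  refine (Nat.card_le_card_of_injective f fun x y l =>
    Subtype.ext (T.inj i (by rw [← hf, ← hf, l]))).trans ?_
  split_ifs with l
  · obtain ⟨σ, s1, s2⟩ := exists_om h.br.nok.m8 w2_p h.br.two h.br.ne
    refine (rl_card_le (p := fun x => -x 0 = x 0) fun x hx => ?_).trans (by decide)
    have := congrFun ((h.act4 s1.1 x).symm.trans (hx σ s1.1)) 0
    rw [h.br.chi_two w2_p (mu5_ine _ _ s1), xi_eq_one.1 s2] at this
    simpa using this
  · obtain ⟨g, g1, g2, g3⟩ := h.br.exists_neg l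
    refine (rl_card_le (p := fun x => -x = x) fun x hx => ?_).trans (by decide)
    have := (h.act g1 x).symm.trans (hx g g1)
    rwa [g3, T.mod4 g g2, one_mulVec, Units.val_neg, Units.val_one, neg_one_smul] at this

/-- Local classes at the five special places are killed by a fixed power of two. -/
theorem ROk.kill (h : ROk T n k e lam ψ w) (hi : i ≤ k) (r : Fin 5) {c : Gam → Fin 2 → Zi i}
    (hc : Coc (GK n) (B2.act T ψ (Zi i)) c) :
    ∃ x, ∀ g ∈ GK n ⊓ Dec (sp lam r), 2 ^ 6 • c g = cob (B2.act T ψ (Zi i)) x g := by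
  rcases sp_cases lam r with ⟨v, b, l, -⟩ | rfl
  · obtain ⟨q, q1, q2⟩ : ∃ q : ℤ, (q = -2 ∨ q = -4 ∨ q = -6) ∧
        ∀ b, evL i (QQ T ψ v b) = q := by
      have : ∀ b, chi (T.f * e) (ori b (fr (bp v))) = chi (T.f * e) (fr (bp v)) := fun b => by
        cases b
        exacts [chi_cj _ _, rfl]
      refine ⟨![-1, 1] v * chi (T.f * e) (fr (bp v)) - ![3, 5] v, ?_, fun b => ?_⟩
      · rcases Int.units_eq_one_or (chi (T.f * e) (fr (bp v))) with a | a <;> rw [a] <;>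
          fin_cases v <;> simp
      · rw [QQ_nrm (h.br.nrm v), B2.QQ, map_sub, map_mul,
          rl_evL (h.triv _ (h.ok.nok.tm_bq v b).mem), this]
        fin_cases v <;> simp [map_ofNat]
    obtain ⟨s, hs⟩ : ∃ s : Zi i, s * (4 * q * q) = 64 := by
      obtain ⟨t, ht⟩ := (Zi_odd (i := i) (v := 9) (by decide)).exists_left_inv
      rcases q1 with rfl | rfl | rfl
      exacts [⟨4, by norm_num⟩, ⟨1, by norm_num⟩,
        ⟨4 * t, by push_cast at ht ⊢; linear_combination 64 * ht⟩]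
    have h1 := h.ok.nu_Q (h.kil hi) v b (hc.mono inf_le_left)
    have h2 : Coc (GK n ⊓ Dec (bq v b)) (B2.act T ψ (Zi i)) fun g => (QQ T ψ v b) • c g :=
      (hc.mono inf_le_left).map (DistribSMul.toAddMonoidHom _ (QQ T ψ v b)) fun g _ x =>
        (act_smul _ x).symm
    obtain ⟨x, hx⟩ := h.ok.nu_cob (h.kil hi) v b h2 (by
      rw [← h1]
      simp only [nu, Pi.smul_apply, smul_sum, smul_comm (QQ T ψ v b)])
    refine l ▸ ⟨s.val • x, fun g hg => ?_⟩
    rw [rf_cob, ← hx g hg]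
    funext t
    simp only [Pi.smul_apply, zL_smul, map_mul, q2, map_ofNat, nsmul_eq_mul, ZMod.natCast_zmod_val]
    push_cast
    linear_combination (-c g t) * hs
  · obtain ⟨x, hx⟩ := h.ok.lam_cob (h.kil hi) (hc.mono inf_le_left)
    refine ⟨x, fun g hg => ?_⟩
    rw [← hx g hg, ← Nat.cast_smul_eq_nsmul Lam]
    norm_num

end Pool.Agent.Lib.MP_696deb_nt.B3
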