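import Pool.Agent.Lib.MP_696deb_nt.B3.RLa

/-! The Kummer cocycle of a primitive point of a twist. -/

set_option autoImplicit false

open scoped NNReal Classical
open Finset Matrix PowerSeries NumberTheorySymbols

namespace Pool.Agent.Lib.MP_696deb_nt.B3

open B2

/-- A point of the twist by `D` that is not divisible by two modulo torsion, and the point `y`. -/
structure Prim (n : ℕ) (D : ℤ) (y P : EE) (u I : ℕ) : Prop where
  fix : ∀ g ∈ GK n, tw D g P = P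
  prim : ∀ P' : EE, (∀ g ∈ GK n, tw D g P' = P') → ¬ IsOfFinAddOrder (P - 2 • P')
  odd : Odd u
  eq : 4 • (u • y - 2 ^ I • P) = 0
  conj : ∃ s : ℤˣ, 4 • (cc • P - (s : ℤ) • P) = 0

/-- The Kummer cocycle of a point. -/
structure Del (T : B2.Tate) (n : ℕ) (D : ℤ) (i : ℕ) (P Q : EE) (δ : Gam → Fin 2 → Zi i) :
    Prop where
  eq : 2 ^ i • Q = P
  emb : ∀ g ∈ GK n, T.emb i (δ g) = tw D g Q - Q
  out : ∀ g ∉ GK n, δ g = 0

variable {T : Tate} {n k i u I : ℕ} {e D : ℤ} {lam w : Plc} {ψ : Gam → Lam} {y P Q : EE}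
  {δ : Gam → Fin 2 → Zi i} {S : HS n} {g : Gam}

theorem tw_zsmul (f : ℤ) (g : Gam) (j : ℤ) (P : EE) : tw f g (j • P) = j • tw f g P := by
  rw [tw, tw, smul_comm g j P, smul_comm j (chi f g : ℤ)]

theorem tw_sum {ι : Type} (f : ℤ) (g : Gam) (s : Finset ι) (P : ι → EE) :
    tw f g (∑ a ∈ s, P a) = ∑ a ∈ s, tw f g (P a) := by simp only [tw, smul_sum]

theorem tw_of (h : chi D g = 1) (P : EE) : tw D g P = g • P := by
  rw [tw, h, Units.val_one, one_smul]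

theorem rlb_cc (hP : ∀ g ∈ GK n, tw D g P = P) : ∀ g ∈ GK n, tw D g (cc • P) = cc • P :=
  fun g hg => calc
    tw D g (cc • P) = cc • tw D (cc * g * cc) P := by
      rw [tw, tw, chi_cj, smul_comm cc, smul_smul g, smul_smul cc, ← mul_assoc, ← mul_assoc,
        cc_mul_cc, one_mul]
    _ = _ := by rw [hP _ (conj_cc_mem hg)]

theorem Br.ychi_fix (h : Br T n e) (Z : ES S T.f) (hg : g ∈ GK n) :
    tw (T.f * e) g (Z.ychi e) = Z.ychi e := by
  have : tw (T.f * e) g (Z.ychi e) = (chi e g : ℤ) • tw T.f g (Z.ychi e) := by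
    rw [tw, tw, h.chi_mul, mul_comm, Units.val_mul, mul_smul]
  rw [this, ES.ychi, tw_sum, smul_sum, ← Equiv.sum_comp (Equiv.mulLeft (S.ψ 1 g))
    fun a => (S.gen e a : ℤ) • Z.y 1 a]
  refine sum_congr rfl fun a _ => ?_
  rw [tw_zsmul, Z.gal 1 (adm_one n) g hg, smul_smul, Equiv.coe_mulLeft, map_mul,
    S.gen_ψ e h.dvd h.m4 g hg, Units.val_mul]

theorem ychi_conj (Z : ES S D) (h : Z.Conj) (e : ℤ) :
    ∃ s : ℤˣ, 4 • (cc • Z.ychi e - (s : ℤ) • Z.ychi e) = 0 := by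
  obtain ⟨b, t, h1, h2⟩ := h
  have : 4 • (tw D cc (Z.ychi e) + (S.gen e b : ℤ) • Z.ychi e) = 0 := by
    rw [ES.ychi, tw_sum, smul_sum, ← Equiv.sum_comp ((Equiv.inv _).trans (Equiv.mulLeft b))
      fun a => (S.gen e b : ℤ) • (S.gen e a : ℤ) • Z.y 1 a, ← sum_add_distrib, smul_sum]
    refine sum_eq_zero fun a _ => ?_
    rw [tw_zsmul, h2, Equiv.trans_apply, Equiv.inv_apply, Equiv.coe_mulLeft, smul_smul, map_mul,
      map_inv, Int.units_inv_eq_self, ← Units.val_mul, ← mul_assoc, Int.units_mul_self, one_mul,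
      ← smul_add, sub_add_cancel, smul_comm, h1, smul_zero]
  refine ⟨-(chi D cc * S.gen e b), ?_⟩
  rw [tw] at this
  generalize cc • Z.ychi e = A at this ⊢
  rcases Int.units_eq_one_or (chi D cc) with l | l <;> rw [l] at this ⊢ <;>
    simp only [Units.val_neg, Units.val_mul, Units.val_one] at this ⊢
  · linear_combination (norm := module) this
  · linear_combination (norm := module) -this

theorem exists_prim (h : Br T n e) (f1 : ∀ g ∈ GK n, tw (T.f * e) g y = y)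
    (f2 : ∃ s : ℤˣ, 4 • (cc • y - (s : ℤ) • y) = 0) {N : ℕ}
    (hr : ∀ P : EE, (∀ g ∈ GK n, tw (T.f * e) g P = P) → ¬ IsOfFinAddOrder (y - 2 ^ N • P)) :
    ∃ (P : EE) (u I : ℕ), I < N ∧ Prim n (T.f * e) y P u I := by
  obtain ⟨s, f2⟩ := f2
  have f3 : ∀ I, (∃ P : EE, (∀ g ∈ GK n, tw (T.f * e) g P = P) ∧
      IsOfFinAddOrder (y - 2 ^ I • P)) → I < N := fun I ⟨P, h1, h2⟩ => not_le.1 fun l => by
    obtain ⟨d, rfl⟩ := Nat.exists_eq_add_of_le l
    refine hr (2 ^ d • P) (fun g hg => by rw [tw_nsmul, h1 g hg]) ?_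
    rwa [smul_smul, ← pow_add]
  obtain ⟨I, h1, h2⟩ := Nat.exists_not_and_succ_of_not_zero_of_exists (p := fun I =>
    ¬ ∃ P : EE, (∀ g ∈ GK n, tw (T.f * e) g P = P) ∧ IsOfFinAddOrder (y - 2 ^ I • P))
    (not_not.2 ⟨y, f1, by simp⟩) ⟨_, fun l => absurd (f3 N l) (lt_irrefl _)⟩
  obtain ⟨P, h3, h4⟩ := not_not.1 h1
  obtain ⟨m, hm, h5⟩ := isOfFinAddOrder_iff_nsmul_eq_zero.1 h4
  obtain ⟨r, u, hu, rfl⟩ := Nat.exists_eq_two_pow_mul_odd hm.ne'
  have h6 : ∀ g ∈ GK n, tw (T.f * e) g (u • P) = u • P := fun g hg => by rw [tw_nsmul, h3 g hg]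
  refine ⟨u • P, u, I, f3 I ⟨P, h3, h4⟩, h6, fun P' k1 k2 => ?_, hu, h.fix (m := r) ?_
    fun g hg => ?_, s, h.fix (m := r + 2 + I) ?_ fun g hg => ?_⟩
  · obtain ⟨v, rfl⟩ := hu
    refine h2 ⟨P' - v • P, fun g hg => by rw [tw_sub, tw_nsmul, k1 g hg, h3 g hg], ?_⟩
    rw [show y - 2 ^ (I + 1) • (P' - v • P) =
      y - 2 ^ I • P + 2 ^ I • ((2 * v + 1) • P - 2 • P') by module]
    exact h4.add k2.nsmul
  · linear_combination (norm := module) h5
  · rw [tw_sub, tw_nsmul, tw_nsmul, f1 g hg, h6 g hg]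
  · have h7 := congrArg (cc • ·) h5
    simp only [smul_comm cc, smul_sub cc, smul_zero] at h7
    rw [smul_comm cc]
    generalize cc • y = A, cc • P = B, (s : ℤ) = t at f2 h7 ⊢
    linear_combination (norm := module) (2 ^ r * u) • f2 + (4 * t) • h5 - 4 • h7
  · rw [tw_sub, tw_zsmul, rlb_cc h6 g hg, h6 g hg]

theorem exists_del (T : B2.Tate) (i : ℕ) (hP : ∀ g ∈ GK n, tw D g P = P) :
    ∃ (Q : EE) (δ : Gam → Fin 2 → Zi i), Del T n D i P Q δ := by
  obtain ⟨Q, rfl⟩ := lo3_half i P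
  have : ∀ g, ∃ x, (g ∈ GK n → T.emb i x = tw D g Q - Q) ∧ (g ∉ GK n → x = 0) := fun g => by
    by_cases hg : g ∈ GK n
    · exact (T.surj i (tw D g Q - Q) (by rw [smul_sub, ← tw_nsmul, hP g hg, sub_self])).imp
        fun _ h => ⟨fun _ => h, fun e => absurd hg e⟩
    · exact ⟨0, fun h => absurd h hg, fun _ => rfl⟩
  choose δ h1 h2 using this
  exact ⟨Q, δ, rfl, h1, h2⟩

theorem Del.coc (hd : Del T n D i P Q δ) : Sm (GK n) δ ∧ ∀ g ∈ GK n, ∀ s ∈ GK n,
    δ (g * s) = δ g + (chi D g : ℤ) • mred i (T.ρ g) *ᵥ δ s := by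
  refine ⟨?_, fun g hg s hs => T.inj i ?_⟩
  · obtain ⟨U, u1, u2, u3⟩ := sm_tw D (GK n) Q
    exact ⟨U, u1, u2, fun g hg s hs l => T.inj i (by
      rw [hd.emb g hg, hd.emb s hs, show tw D g Q = tw D s Q from u3 g hg s hs l])⟩
  · rw [map_add, ← tw_emb, hd.emb _ (mul_mem hg hs), hd.emb g hg, hd.emb s hs, tw_sub, tw_mul]
    abel

theorem Br.chi_ine (h : Br T n e) (hg : g ∈ GK n ⊓ Ine w) : chi e g = 1 := by
  by_cases l : (w.p : ℤ) ∣ e
  swap
  · exact xi_eq_zero.1 (xi_ine h.m4 l hg.2)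
  obtain ⟨c, hc⟩ := dvd_neg.2 h.dvd
  have h5 : c % 4 = 1 := by
    have h6 : (-(n : ℤ)) % 4 = 1 := by have := h.nok.m8; omega
    rwa [hc, Int.mul_emod, h.m4, one_mul, Int.emod_emod] at h6
  have h6 : ¬ (w.p : ℤ) ∣ c := fun k => by
    have h7 := mul_dvd_mul l k
    rw [← hc, dvd_neg, ← Nat.cast_mul, Int.natCast_dvd_natCast] at h7
    exact w.prime.not_isUnit (h.nok.good.sqf _ h7)
  have h7 := mem_GK.1 hg.1
  rwa [hc, B2.xi_mul h.e_ne (by omega), xi_ine h5 h6 hg.2, add_zero, xi_eq_zero] at h7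

theorem Del.mem_SU (hd : Del T n (T.f * e) i P Q δ) (h : ROk T n k e lam ψ w) (hi : i ≤ k) :
    δ ∈ SU T n lam ψ {w} (fun _ => .ur) (Zi i) := by
  obtain ⟨c1, c2⟩ := hd.coc
  have ur : ∀ v : Plc, ¬ v.p ∣ 30 → ∀ σ ∈ GK n ⊓ Ine v, δ σ = 0 := fun v hv σ hσ => by
    have e1 : chi (T.f * e) σ = 1 := by
      rw [h.br.chi_mul, T.chi_ine hv hσ.2, h.br.chi_ine hσ, one_mul]
    exact T.inj i ((K1_tors (w := v) (fun e => hv (by rw [e]; norm_num))
      (by rw [hd.emb σ hσ.1, tw_of e1]; exact K1_ine (fun e => hv (e.trans (by norm_num))) hσ.2 Q)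
      (T.emb_pow _)).trans (map_zero _).symm)
  refine (h.ok.mem_SU (h.kil hi)).2 ⟨⟨⟨c1, fun g hg s hs => by rw [c2 g hg s hs, h.act hg]⟩, hd.out⟩,
    fun v hv _ _ => ur v hv, KumP.kumC ⟨Q, fun g hg => by
      rw [hd.emb g hg.1, tw, tw, h.br.chi_two w2_p hg]⟩, fun v hv => ?_⟩
  have a := (h.ok.deep v hv).adm
  exact ⟨trivial, ur v a.nd30 _ ⟨a.ine (gn_spec a.ne.1).1, (gn_spec a.ne.1).1⟩⟩

theorem Del.not_cob (hd : Del T n D i P Q δ) (hp : Prim n D y P u I) (hi : 1 ≤ i)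
    (x : Fin 2 → Zi i) :
    ¬ ∀ g ∈ GK n, 2 ^ (i - 1) • δ g = (chi D g : ℤ) • mred i (T.ρ g) *ᵥ x - x := by
  intro h
  obtain ⟨j, rfl⟩ := Nat.exists_eq_add_of_le' hi
  refine hp.prim (2 ^ j • Q - T.emb _ x) (fun g hg => ?_)
    (isOfFinAddOrder_iff_nsmul_eq_zero.2 ⟨2 ^ (j + 1), by positivity, ?_⟩)
  · have e := congrArg (T.emb _) (h g hg)
    rw [map_nsmul, map_sub, ← tw_emb, hd.emb g hg, Nat.add_sub_cancel] at e
    rw [tw_sub, tw_nsmul]
    generalize tw D g Q = A, tw D g (T.emb _ x) = B at e ⊢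
    linear_combination (norm := module) e
  · rw [← hd.eq]
    linear_combination (norm := module) 2 • T.emb_pow x

theorem Br.chi_of (h : Br T n e) {l : ℕ} (hl : Adm n l) (hg : g ∈ GK n)
    (h1 : mred 3 (T.ρ g) = 1) (h2 : S.ψ l g = 1) : chi (T.f * e) g = 1 := by
  rw [h.chi_mul, T.ok.ker8 _ g T.ok.dvd h1, ← S.gen_ψ e h.dvd h.m4 g hg,
    ← S.pr_ψ 1 l hl (one_dvd _) g hg, h2, map_one, map_one, one_mul]

theorem Br.chi_N (h : Br T n e) (hl : Adm n lam.p) (hk : 1 ≤ k) (hg : g ∈ S.N T k lam) :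
    chi (T.f * e) g = 1 := h.chi_of hl hg.1 (rl4_red (by omega) hg.2.1) (hg.2.2 hl)

theorem Del.often (hd : Del T n (T.f * e) i P Q δ) (hp : Prim n (T.f * e) y P u I) (S : HS n)
    (hb : Br T n e) (hl : Adm n lam.p) (h12 : 12 ≤ i) (hi : i ≤ k) :
    S.Often T k lam fun w => 2 ^ (i - 12) • (δ (fq w) 1 - δ (fq w) 0) ≠ 0 := by
  obtain ⟨c1, c2⟩ := hd.coc
  have hn := hb.nok
  have cN : ∀ z ∈ S.N T k lam, chi (T.f * e) z = 1 := fun z hz => hb.chi_N hl (by omega) hz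
  have a1 : ∀ z ∈ S.N T k lam, ∀ g ∈ GK n, δ (z * g) = δ z + δ g := fun z hz g hg => by
    rw [c2 z hz.1 g hg, rl4_red (by omega) hz.2.1, one_mulVec, cN z hz, Units.val_one, one_smul]
  have a2 : ∀ z ∈ S.N T k lam, ∀ g ∈ GK n, chi (T.f * e) g = 1 →
      δ (g * z * g⁻¹) = mred i (T.ρ g) *ᵥ δ z := fun z hz g hg l => by
    have e := a1 _ (HS.N_conj hz g) g hg
    rw [inv_mul_cancel_right, c2 g hg z hz.1, add_comm, l, Units.val_one, one_smul] at e
    exact (add_right_cancel e).symm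
  obtain ⟨s, hs⟩ := hp.conj
  have a3 : ∀ z ∈ S.N T k lam, δ (cc * z * cc) = (s : ℤ) • !![1, 0; 0, -1] *ᵥ δ z := fun z hz => by
    have e : z • (cc • Q - (s : ℤ) • Q) = cc • Q - (s : ℤ) • Q :=
      rl4_fix (m := i + 2) (by omega) hz.2.1 (by
        rw [← hs, ← hd.eq, smul_comm cc, smul_comm (s : ℤ), ← smul_sub, smul_smul, pow_add,
          mul_comm]
        rfl)
    have e' := congrArg (cc • ·) e
    simp only [smul_sub, smul_smul cc cc, cc_mul_cc, one_smul, smul_comm _ (s : ℤ)] at e'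
    refine T.inj i ?_
    rw [map_zsmul, ← T.mred_cc, ← T.smul, hd.emb _ (conj_cc_mem hz.1), hd.emb z hz.1,
      tw_of (cN z hz), tw_of (cN _ (HS.N_cc hz)), mul_smul, mul_smul, smul_sub, smul_sub,
      eq_add_of_sub_eq e']
    abel
  obtain ⟨j, hj, hj'⟩ : ∃ j, i - 12 = j ∧ i - 1 = j + 11 := ⟨_, rfl, by omega⟩
  rw [hj]
  refine ⟨i, fun g => 2 ^ j • (δ g 1 - δ g 0), c1.comp fun x => 2 ^ j • (x 1 - x 0),
    fun x hx z hz => ?_, by_contra fun h => ?_, fun w _ h => h⟩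
  · simp only [a1 x hx z hz.1, Pi.add_apply]
    module
  have img : ∀ A, mred 5 A = 1 → ∀ z ∈ S.N T k lam, ∃ z' ∈ S.N T k lam,
      δ z' = mred i A *ᵥ δ z := fun A hA z hz => by
    obtain ⟨g, g1, g2, g3⟩ := S.exists_img T hn hl hA i
    exact ⟨_, HS.N_conj hz g, by rw [a2 z hz g g1 (hb.chi_of hl g1 ((la_mred_le (by omega) g3).trans
      ((la_mred_le (by omega) (hA.trans (la_mred_one 5).symm)).trans (la_mred_one 3))) g2), g3]⟩
  have b2 : ∀ z ∈ S.N T k lam, 2 ^ (j + 6) • δ z = 0 := by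
    rcases Int.units_eq_one_or s with rfl | rfl
    · have b1 : ∀ z ∈ S.N T k lam, 2 ^ (j + 1) * δ z 0 = 0 := fun z hz => by
        have e := not_not.1 fun e => h ⟨z, hz, e⟩
        simp [a3 z hz, dotProduct] at e
        linear_combination -e
      intro z hz
      obtain ⟨z', z1, z2⟩ := img !![1, 32; 0, 1] (by
        ext r s
        fin_cases r <;> fin_cases s <;> simp [mred, map_ofNat]
        rfl) z hz
      have e := b1 z' z1
      have e' := b1 z hz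
      rw [z2] at e
      simp [mred, mulVec, dotProduct, map_ofNat, -mul_eq_zero] at e
      ext r
      fin_cases r <;> simp
      · linear_combination 32 * e'
      · linear_combination e - e'
    · have b1 : ∀ z ∈ S.N T k lam, 2 ^ (j + 1) * δ z 1 = 0 := fun z hz => by
        have e := not_not.1 fun e => h ⟨z, hz, e⟩
        simp [a3 z hz, dotProduct] at e
        linear_combination e
      intro z hz
      obtain ⟨z', z1, z2⟩ := img !![1, 0; 32, 1] (by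
        ext r s
        fin_cases r <;> fin_cases s <;> simp [mred, map_ofNat]
        rfl) z hz
      have e := b1 z' z1
      have e' := b1 z hz
      rw [z2] at e
      simp [mred, mulVec, dotProduct, map_ofNat, -mul_eq_zero] at e
      ext r
      fin_cases r <;> simp
      · linear_combination e - e'
      · linear_combination 32 * e'
  obtain ⟨z, z1, z2, z4, z3⟩ := S.exists_scalar (T := T) (k := k) hn hl
  have z5 : chi (T.f * e) z = 1 := hb.chi_of hl z1 ((la_mred_le (by omega) z2).trans (by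
    ext r s
    fin_cases r <;> fin_cases s <;> simp [mred, map_ofNat]
    all_goals rfl)) z4
  refine hd.not_cob hp (by omega) (2 ^ (j + 6) • δ z) fun s hs => ?_
  have e := a1 _ (z3 s hs) _ (mul_mem hs z1)
  have e0 : mred i ((33 : ℤ_[2]) • 1) *ᵥ δ s = 33 • δ s := by
    ext r
    fin_cases r <;> simp [mred, mulVec, dotProduct, map_ofNat]
  rw [show z * s * z⁻¹ * s⁻¹ * (s * z) = z * s by group, c2 z z1 s hs, c2 s hs z z1,
    la_mred_le (by omega) z2, e0, z5, Units.val_one, one_smul] at e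
  have e1 := b2 _ (z3 s hs)
  rw [mulVec_smul, hj', smul_comm]
  generalize (chi (T.f * _) s : ℤ) • mred i (T.ρ s) *ᵥ δ z = A, δ (z * s * z⁻¹ * s⁻¹) = B,
    δ s = D, δ z = E at e e1 ⊢
  linear_combination (norm := module) 2 ^ (j + 6) • e + e1

theorem Del.value (hd : Del T n D i P Q δ) (hp : Prim n D y P u I) (hi : i ≤ k) {φ : Gam}
    (hφ : φ ∈ GK n) (hχ : chi D φ = 1) (hρ : mred (k + 2) (T.ρ φ) = 1) {a : ℤ} {R : EE}
    {x : Fin 2 → Zi k} (h1 : 2 ^ k • R = a • y) (h2 : T.emb k x = φ • R - R) (r : Fin 2) :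
    (u : Zi i) * ZMod.castHom (pow_dvd_pow 2 hi) (Zi i) (x r) = a * 2 ^ I * δ φ r := by
  obtain ⟨d, rfl⟩ := Nat.exists_eq_add_of_le hi
  have e1 := T.two i d x
  have e2 : φ • (u • 2 ^ d • R - (a * 2 ^ I) • Q) = u • 2 ^ d • R - (a * 2 ^ I) • Q :=
    rl4_fix (m := i + 2) (by omega) hρ (by
      have e := hp.eq
      rw [← hd.eq] at e
      linear_combination (norm := module) (4 * u) • h1 + a • e)
  rw [smul_sub, smul_comm φ, smul_comm φ, smul_comm φ] at e2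
  have e3 := congrFun (T.inj i (show T.emb i (u • fun r => ZMod.castHom (pow_dvd_pow 2 hi) (Zi i)
      (x r)) = T.emb i ((a * 2 ^ I) • δ φ) by
    rw [map_nsmul, map_zsmul, ← e1, h2, hd.emb φ hφ, tw_of hχ]
    generalize φ • R = A, φ • Q = B at e2 ⊢
    linear_combination (norm := module) e2)) r
  simpa only [Pi.smul_apply, nsmul_eq_mul, zsmul_eq_mul, Int.cast_mul, Int.cast_pow,
    Int.cast_ofNat] using e3

end Pool.Agent.Lib.MP_696deb_nt.B3
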