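import Pool.Agent.Lib.MP_696deb_nt.B3.RLa

/-! Explicit classes of order two on the branches of a twist that is ramified at two. -/

set_option autoImplicit false

open scoped NNReal Classical
open Finset Matrix PowerSeries NumberTheorySymbols

namespace Pool.Agent.Lib.MP_696deb_nt.B3

open B2

variable {T : Tate} {n k i : ℕ} {e : ℤ} {lam w v : Plc} {ψ : Gam → Lam} {g : Gam}

/-- The classes of order two that are locally trivial above three and five. -/
theorem rl_bad (T : B2.Tate) (hi : 5 ≤ i) (hv : v.p = 3 ∨ v.p = 5) {φ τ : Gam}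
    (hφ : IsFrob v v.p φ) (hτ : Gen v τ) (s : ℤˣ) {y z : Fin 2 → Zi i} (hy : 2 • y = 0)
    (hz : 2 • z = 0) (h : if s = (if v.p = 3 then -1 else 1) then
      (y 1 = if v.p = 3 then 0 else y 0) ∧ (z 1 = if v.p = 3 then 0 else z 0) else z = 0) :
    ∃ x, mred i (T.ρ τ) *ᵥ x - x = z ∧ (s : ℤ) • mred i (T.ρ φ) *ᵥ x - x = y := by
  obtain ⟨j, rfl⟩ := Nat.exists_eq_add_of_le' hi
  obtain ⟨B, b1, b2, b3, b4⟩ := T.mult v hv
  obtain ⟨c, hc, cu⟩ := b3 τ hτ.1
  obtain ⟨b, hb⟩ := b4 φ hφ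
  have z0 : (2 : Zi (j + 5)) ^ (j + 5) = 0 := Zi_two _
  have e : ∀ y : Fin 2 → Zi (j + 5), mred _ B *ᵥ (mred _ B.adjugate *ᵥ y) = y := fun y => by
    rw [mulVec_mulVec, ← la_mred_mul, mul_adjugate, b1, one_smul, la_mred_one, one_mulVec]
  suffices ∃ x, mred _ !![1, 4 * c; 0, 1] *ᵥ x - x = mred (j + 5) B.adjugate *ᵥ z ∧
      (s : ℤ) • mred _ (if v.p = 3 then !![-3, b; 0, -1] else !![5, b; 0, 1]) *ᵥ x - x =
        mred (j + 5) B.adjugate *ᵥ y by
    obtain ⟨x, h2, h3⟩ := this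
    refine ⟨_, by rw [rl5_conj hc x, h2, e], ?_⟩
    rw [mulVec_mulVec, ← la_mred_mul, hb, la_mred_mul, ← mulVec_mulVec, ← mulVec_smul,
      ← mulVec_sub, h3, e]
  set f := PadicInt.toZModPow (p := 2) (j + 5) with hf
  obtain ⟨c', hc'⟩ := ((cu hτ).map f).exists_right_inv
  have h1 : ∀ r, ∃ a, f (B r 0) = (if v.p = 3 then ![1, 0] else ![1, 1]) r + 2 * a := fun r => by
    have h2 : PadicInt.toZModPow 1 (B r 0 - (if v.p = 3 then ![1, 0] else ![1, 1]) r) = 0 := by
      have := congrFun b2 r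
      split_ifs at this ⊢ <;> fin_cases r <;>
        simpa [mred, mulVec, dotProduct, sub_eq_zero] using this
    rw [← RingHom.mem_ker, PadicInt.ker_toZModPow, Ideal.mem_span_singleton] at h2
    obtain ⟨a, ha⟩ := h2
    refine ⟨f a, ?_⟩
    rw [eq_add_of_sub_eq' ha]
    split_ifs <;> fin_cases r <;> simp [map_ofNat]
  have line : ∀ y : Fin 2 → Zi (j + 5), 2 • y = 0 → (y 1 = if v.p = 3 then 0 else y 0) →
      (mred (j + 5) B.adjugate *ᵥ y) 1 = 0 := fun y h2 h3 => by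
    obtain ⟨a, ha⟩ := h1 0
    obtain ⟨a', ha'⟩ := h1 1
    have h4 : 2 * y 0 = 0 := by simpa using congrFun h2 0
    simp only [mred, adjugate_fin_two, mulVec, dotProduct, Fin.sum_univ_two, map_apply, ← hf,
      of_apply, cons_val', cons_val_zero, cons_val_one, cons_val_fin_one, map_neg, ha, ha', h3]
    split_ifs
    · simp only [cons_val_zero, cons_val_one]
      linear_combination (-a') * h4
    · simp only [cons_val_zero, cons_val_one]
      linear_combination (a - a') * h4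
  have hy' : 2 • mred (j + 5) B.adjugate *ᵥ y = 0 := by rw [← mulVec_smul, hy, mulVec_zero]
  have hz' : 2 • mred (j + 5) B.adjugate *ᵥ z = 0 := by rw [← mulVec_smul, hz, mulVec_zero]
  obtain ⟨y0, hy0⟩ := rl5_half (j := j + 4) (congrFun hy' 0)
  obtain ⟨y1, hy1⟩ := rl5_half (j := j + 4) (congrFun hy' 1)
  obtain ⟨r, hr⟩ := rl5_half (j := j + 4) (congrFun hz' 0)
  have vec : ∀ {x x' : Fin 2 → Zi (j + 5)}, x 0 = x' 0 → x 1 = x' 1 → x = x' := fun a b =>
    funext (Fin.forall_fin_two.2 ⟨a, b⟩)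
  by_cases h3 : v.p = 3
  · rw [if_pos h3] at h ⊢
    rcases Int.units_eq_one_or s with rfl | rfl
    · rw [if_neg (by decide)] at h
      rw [h, mulVec_zero]
      refine ⟨![2 ^ (j + 1) * (f b * y1 - 2 * y0), 2 ^ (j + 3) * y1], vec ?_ ?_,
        vec (.trans ?_ hy0.symm) (.trans ?_ hy1.symm)⟩ <;>
        simp [mred, map_ofNat, ← hf]
      · linear_combination (f c * y1) * z0
      · ring
      · linear_combination (-y1) * z0
    · rw [if_pos rfl] at h
      refine ⟨![2 ^ (j + 3) * y0 + 2 ^ (j + 1) * f b * c' * r, 2 ^ (j + 2) * c' * r],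
        vec (.trans ?_ hr.symm) (.trans ?_ (line z hz h.2).symm),
        vec (.trans ?_ hy0.symm) (.trans ?_ (line y hy h.1).symm)⟩ <;>
        simp [mred, map_ofNat, ← hf]
      · linear_combination 2 ^ (j + 4) * r * hc'
      · ring
  · rw [if_neg h3] at h ⊢
    rcases Int.units_eq_one_or s with rfl | rfl
    · rw [if_pos rfl] at h
      refine ⟨![2 ^ (j + 2) * y0 - 2 ^ j * f b * c' * r, 2 ^ (j + 2) * c' * r],
        vec (.trans ?_ hr.symm) (.trans ?_ (line z hz h.2).symm),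
        vec (.trans ?_ hy0.symm) (.trans ?_ (line y hy h.1).symm)⟩ <;>
        simp [mred, map_ofNat, ← hf]
      · linear_combination 2 ^ (j + 4) * r * hc'
      · ring
    · rw [if_neg (by decide)] at h
      rw [h, mulVec_zero]
      refine ⟨![2 ^ (j + 2) * (f b * y1 + 2 * y0), 2 ^ (j + 3) * y1], vec ?_ ?_,
        vec (.trans ?_ hy0.symm) (.trans ?_ hy1.symm)⟩ <;>
        simp [mred, map_ofNat, ← hf]
      · linear_combination (f c * y1) * z0
      · linear_combination (-f b * y1 - 2 * y0) * z0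
      · linear_combination (-y1) * z0

theorem KumP.sc {D : Subgroup Gam} {x : Gam → Fin 2 → Zi 1} (h : KumP T 1 D x) (a : Zi 1) :
    KumP T 1 D (a • x) := by
  rcases Z2.cases a with rfl | rfl
  · rw [zero_smul]
    exact KumP.zero
  · rwa [one_smul]

theorem kum_left (T : Tate) (D : Subgroup Gam) : KumP T 1 D fun g => ![om T.f g, 0] := by
  refine ⟨T.emb 2 ![1, 0], fun g _ => ?_⟩
  have e := T.two 1 1 ![1, 0]
  beta_reduce
  rw [tw_emb, rl_four, ← map_sub]
  rcases Int.units_eq_one_or (chi T.f g) with l | l <;> rw [l]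
  · rw [show om T.f g = 0 from xi_eq_zero.2 l, show (![0, 0] : Fin 2 → Zi 1) = 0 by simp, map_zero,
      ← (T.emb 2).map_zero]
    congr 1
    ext r
    fin_cases r <;> simp
  · rw [show om T.f g = 1 from xi_eq_one.2 l]
    refine (congrArg _ ?_).trans (e.symm.trans ((map_nsmul _ _ _).symm.trans (congrArg _ ?_)))
    · ext r
      fin_cases r <;> simp
    · ext r
      fin_cases r
      · exact (by decide : (2 ^ 1 • 1 : Zi 2) = ((-1 : ℤˣ) : ℤ) • 1 - 1)
      · simp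

theorem kum_right (h : Br T n e) {c : ℤ} (hc : c ≠ 0) :
    KumP T 1 (GK n ⊓ Dec w2) fun g => ![0, om c g] := by
  obtain ⟨S, hS⟩ := T.ok.kumr n w2 c h.nok.m8 w2_p (by have := dvd_two h.two; have := h.ne; omega) hc
  refine ⟨S, fun g hg => ?_⟩
  rw [hS g hg, ← T.e1, ← map_nsmul]
  congr 1
  ext r
  fin_cases r <;> simp [om]

theorem om_ine {c : ℤ} (h : ¬ (v.p : ℤ) ∣ 2 * c) (hg : g ∈ Ine v) : om c g = 0 :=
  xi_eq_zero.2 (B2.chi_ine h hg)

theorem om_30 {c : ℤ} (hc : c ∣ 30) (h : ¬ v.p ∣ 30) (hg : g ∈ Ine v) : om c g = 0 :=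
  xi_eq_zero.2 (chi_ine30 hc h hg)

/-- A family of pairs of quadratic characters. -/
theorem Br.family (h : Br T n e) : ∃ (P : Type) (_ : AddCommGroup P)
    (A : P →+ Gam → Fin 2 → Zi 1) (l3 l5 : P →+ Zi 1),
    Nat.card P = 2 ^ (2 * n.primeFactors.card + 3) ∧
    (∀ z r, Sm ⊤ (fun s => A z s r) ∧ IsHom ⊤ fun s => A z s r) ∧
    (∀ z (v : Plc), ¬ v.p ∣ 30 → ∀ σ ∈ GK n ⊓ Ine v, A z σ = 0) ∧
    (∀ z, KumP T 1 (GK n ⊓ Dec w2) (A z)) ∧
    (∀ z (v : Plc), v.p = 3 → ∀ σ ∈ Ine v, A z σ = ![l3 z * om (-3) σ, 0]) ∧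
    (∀ z (v : Plc), v.p = 5 → ∀ σ ∈ Ine v, A z σ = ![l5 z * om 5 σ, l5 z * om 5 σ]) ∧
    ∀ z, (∀ s ∈ GK n, A z s = 0) → z = 0 := by
  have hn := h.nok
  obtain ⟨ι, _, L, g, l1, l2, l3, l4⟩ := rl5_span T hn
  let A : (ι → Zi 1) × (ι → Zi 1) × (Fin 5 → Zi 1) →+ Gam → Fin 2 → Zi 1 := AddMonoidHom.mk'
    (fun z s => ![L z.1 s + (z.2.2 0 * om T.f s + z.2.2 1 * om (-3) s + z.2.2 2 * om 5 s),
      L z.2.1 s + (z.2.2 3 * om (-1) s + z.2.2 4 * om 2 s + z.2.2 2 * om 5 s)])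
    fun z z' => funext fun s => funext fun r => by
      fin_cases r <;> simp <;> ring
  have hA : ∀ z s, A z s =
      ![L z.1 s + (z.2.2 0 * om T.f s + z.2.2 1 * om (-3) s + z.2.2 2 * om 5 s),
        L z.2.1 s + (z.2.2 3 * om (-1) s + z.2.2 4 * om 2 s + z.2.2 2 * om 5 s)] := fun _ _ => rfl
  let ev : Fin 5 → (ι → Zi 1) × (ι → Zi 1) × (Fin 5 → Zi 1) →+ Zi 1 := fun j =>
    (Pi.evalAddMonoidHom _ j).comp ((AddMonoidHom.snd _ _).comp (AddMonoidHom.snd _ _))
  have hom : ∀ (p : ι → Zi 1) (a b c : Zi 1) (x y z : ℤ),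
      Coc ⊤ B2.tr fun s => L p s + (a * om x s + b * om y s + c * om z s) := fun p a b c x y z => by
    have m : ∀ (a : Zi 1) x, Coc ⊤ B2.tr fun s => a * om x s := fun a x =>
      (coc_om x ⊤).map (AddMonoidHom.mulLeft a) fun _ _ _ => rfl
    exact (coc_tr.2 ⟨(l2 p).1, (l2 p).2.1⟩).add (((m a x).add (m b y)).add (m c z))
  have odd : ∀ v : Plc, v.p = 3 ∨ v.p = 5 → ∀ σ ∈ Ine v, (∀ p, L p σ = 0) ∧ om T.f σ = 0 ∧
      om (-1) σ = 0 ∧ om 2 σ = 0 := fun v hv σ hσ =>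
    ⟨fun p => (l2 p).2.2 v σ ⟨hn.split hv (Ine_le v hσ), hσ⟩, om_ine (fun l => by
      have := l.trans (mul_dvd_mul_left 2 h.two)
      rcases hv with a | a <;> rw [a] at this <;> omega) hσ,
      om_ine (by rcases hv with a | a <;> rw [a] <;> omega) hσ,
      om_ine (by rcases hv with a | a <;> rw [a] <;> omega) hσ⟩
  have three : ∀ z (v : Plc), v.p = 3 → ∀ σ ∈ Ine v, A z σ = ![z.2.2 1 * om (-3) σ, 0] :=
      fun z v hv σ hσ => by
    obtain ⟨a, b, c, d⟩ := odd v (.inl hv) σ hσ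
    simp only [hA, a, b, c, d, om_ine (c := 5) (by rw [hv]; omega) hσ, mul_zero, zero_add, add_zero]
  have five : ∀ z (v : Plc), v.p = 5 → ∀ σ ∈ Ine v,
      A z σ = ![z.2.2 2 * om 5 σ, z.2.2 2 * om 5 σ] := fun z v hv σ hσ => by
    obtain ⟨a, b, c, d⟩ := odd v (.inr hv) σ hσ
    simp only [hA, a, b, c, d, om_ine (c := -3) (by rw [hv]; omega) hσ, mul_zero, zero_add,
      add_zero]
  have two : ∀ z, ∀ s ∈ GK n ⊓ Dec w2, A z s =
      ![z.2.2 0 * om T.f s, z.2.2 3 * om (-1) s + z.2.2 4 * om 2 s] := fun z s hs => by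
    have a : ∀ p, L p s = 0 := fun p =>
      rl5_inert (l2 p).1 (l2 p).2.1 ((l2 p).2.2 w2) hn.fr_w2.2 hn.fr_w2.1 hs
    have b : om (-3) s = 0 := xi_eq_zero.2 (chi_GK_two rfl hn.m8 w2_p hs)
    have c : om 5 s = 0 := xi_eq_zero.2 (chi_GK_two rfl hn.m8 w2_p hs)
    simp only [hA, a, b, c, mul_zero, zero_add, add_zero]
  refine ⟨_, inferInstance, A, ev 1, ev 2, ?_, fun z r => ?_, fun z v hv σ hσ => ?_, fun z => ?_,
    three, five, fun z hz => ?_⟩
  · have : n.primeFactors.card ≠ 0 :=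
      card_ne_zero.2 (Nat.nonempty_primeFactors.2 (by have := hn.m8; omega))
    simp only [Nat.card_prod, Nat.card_fun, card_Zi, Nat.card_eq_fintype_card (α := ι), l1,
      Nat.card_fin, pow_one, ← pow_add]
    congr 1
    omega
  · fin_cases r
    exacts [coc_tr.1 (hom _ _ _ _ _ _ _), coc_tr.1 (hom _ _ _ _ _ _ _)]
  · simp only [hA, (l2 _).2.2 v σ hσ, om_30 T.ok.dvd hv hσ.2, om_30 (c := -3) (by decide) hv hσ.2,
      om_30 (c := 5) (by decide) hv hσ.2, om_30 (c := -1) (by decide) hv hσ.2,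
      om_30 (c := 2) (by decide) hv hσ.2, mul_zero, add_zero]
    simp
  · refine ((((kum_left T _).sc (z.2.2 0)).add ((kum_right h (c := -1) (by decide)).sc (z.2.2 3))).add
      ((kum_right h (c := 2) (by decide)).sc (z.2.2 4))).congr fun s hs => ?_
    rw [two z s hs]
    ext r
    fin_cases r <;> simp
  · have gq : ∀ q (x : ℤ), x ∣ 30 → om x (g q) = 0 := fun q x hx =>
      xi_eq_zero.2 (T.ok.ker8 x _ hx (by rw [(l3 q).2, la_mred_one]))
    have a : ∀ q, z.1 q = 0 ∧ z.2.1 q = 0 := fun q => by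
      have := hz _ (l3 q).1
      simp only [hA, l4, gq q _ T.ok.dvd, gq q (-3) (by decide), gq q 5 (by decide),
        gq q (-1) (by decide), gq q 2 (by decide), mul_zero, add_zero] at this
      exact ⟨congrFun this 0, congrFun this 1⟩
    have gen : ∀ (v : Fin 2) (x : ℤ), Squarefree x → ![3, 5] v ∣ x → om x (nsg v true) = 1 :=
      fun v x h1 h2 => xi_gen (by rcases bq_or v true with a | a <;> omega) h1
        (by rw [bq_p]; fin_cases v <;> exact h2) (gen_bq v true)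
    have b1 := congrFun ((three z _ (bq_p 0 true) _ (gen_bq 0 true).1).symm.trans
      (hz _ (hn.nsg_mem 0 true))) 0
    have b2 := congrFun ((five z _ (bq_p 1 true) _ (gen_bq 1 true).1).symm.trans
      (hz _ (hn.nsg_mem 1 true))) 0
    rw [gen 0 _ (Int.prime_three.neg.squarefree) (by decide)] at b1
    rw [gen 1 5 (Int.squarefree_natAbs.1 Nat.prime_five.squarefree) (by decide)] at b2
    obtain ⟨σ, s1, s2⟩ := exists_om hn.m8 w2_p h.two h.ne
    have b0 := congrFun ((two z σ (mu5_ine _ _ s1)).symm.trans (hz σ s1.1)) 0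
    rw [show om T.f σ = 1 from s2] at b0
    have b3 : ∀ x y : ℤˣ, ∃ σ, chi (-1) σ = x ∧ chi 2 σ = y ∧
        z.2.2 3 * om (-1) σ + z.2.2 4 * om 2 σ = 0 := fun x y => by
      obtain ⟨σ, s1, s2, s3⟩ := exists_ine_two w2_p x y
      exact ⟨σ, s2, s3, congrFun ((two z σ ⟨hn.fr_w2.2 s1, Ine_le _ s1⟩).symm.trans
        (hz σ (hn.fr_w2.2 s1))) 1⟩
    obtain ⟨σ, s1, s2, b4⟩ := b3 1 (-1)
    rw [show om (-1) σ = 0 from xi_eq_zero.2 s1, show om 2 σ = 1 from xi_eq_one.2 s2] at b4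
    obtain ⟨σ, s1, s2, b3⟩ := b3 (-1) 1
    rw [show om (-1) σ = 1 from xi_eq_one.2 s1, show om 2 σ = 0 from xi_eq_zero.2 s2] at b3
    refine Prod.ext (funext fun q => (a q).1) (Prod.ext (funext fun q => (a q).2) (funext fun j => ?_))
    fin_cases j
    exacts [by simpa using b0, by simpa using b1, by simpa using b2, by simpa using b3,
      by simpa using b4]

/-- The cocycles that are locally trivial at the places in `R`. -/
noncomputable def St (T : Tate) (n : ℕ) (lam : Plc) (ψ : Gam → Lam) (w : Plc) (R : Finset (Fin 5))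
    (ty : Ty) (i : ℕ) : AddSubgroup (Gam → Fin 2 → Zi i) :=
  (SU T n lam ψ {w} (fun _ => ty) (Zi i)).toAddSubgroup ⊓
    ⨅ r ∈ R, (B1 (GK n ⊓ Dec (sp lam r)) (act T ψ (Zi i))).comap (rs (GK n ⊓ Dec (sp lam r)))

theorem mem_St {R : Finset (Fin 5)} {ty : Ty} {c : Gam → Fin 2 → Zi i} :
    c ∈ St T n lam ψ w R ty i ↔ c ∈ SU T n lam ψ {w} (fun _ => ty) (Zi i) ∧
      ∀ r ∈ R, ∃ x, ∀ g ∈ GK n ⊓ Dec (sp lam r), c g = cob (act T ψ (Zi i)) x g := by
  simp only [St, AddSubgroup.mem_inf, AddSubgroup.mem_iInf, AddSubgroup.mem_comap, rs_mem_B1,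
    Submodule.mem_toAddSubgroup]

theorem rl_ori {χ : Gam → Zi 1} (h : IsHom ⊤ χ) (b : Bool) (g : Gam) : χ (ori b g) = χ g := by
  cases b
  · change χ (cc * g * cc) = _
    rw [h _ trivial _ trivial, h _ trivial _ trivial, add_right_comm, Z2.add_self, zero_add]
  · rfl

theorem ROk.exists_gen (h : ROk T n k e lam ψ w) (h5 : 5 ≤ i) (hi : i ≤ k) :
    ∃ G : AddSubgroup (Gam → Fin 2 → Zi i), G ≤ St T n lam ψ w univ .fl i ∧ (∀ c ∈ G, 2 • c = 0) ∧
      2 ^ (2 * n.primeFactors.card + 1) ≤ Nat.card G := by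
  obtain ⟨P, _, A, l3, l5, p1, p2, p3, p4, p5, p6, p7⟩ := h.br.family
  obtain ⟨u, u1, u2⟩ := T.exists_up (k := 1) (m := i) (by omega)
  have hn := h.ok.nok
  have ha := h.isAct hi
  let c : P →+ Gam → Fin 2 → Zi i := ((u.compLeft (Fin 2)).compLeft Gam).comp A
  have hc : ∀ z s, c z s = fun r => u (A z s r) := fun _ _ => rfl
  have c0 : ∀ z s, A z s = 0 → c z s = 0 := fun z s l => funext fun r => by
    rw [hc, l]
    exact map_zero u
  have c2 : ∀ z s, 2 • c z s = 0 := fun z s => funext fun r =>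
    (map_nsmul u _ _).symm.trans ((congrArg u (Zi_kill (i := 1) _)).trans (map_zero u))
  have cc : ∀ z, Coc (GK n) (B2.act T ψ (Zi i)) (c z) := fun z =>
    ⟨((Sm.pi fun r => (p2 z r).1).comp fun x r => u (x r)).mono le_top, fun s hs t _ => by
      rw [T.inj i ((h.emb hs (c z t)).trans (tv_two T _ s (by rw [← map_nsmul, c2, map_zero])))]
      exact funext fun r => (congrArg u ((p2 z r).2 s trivial t trivial)).trans (map_add u _ _)⟩
  have ci : ∀ z (v : Plc), Adm n v.p → ∀ s ∈ GK n ⊓ Dec v, c z s = 0 := fun z v a s hs =>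
    c0 z s (funext fun r => rl5_inert (p2 z r).1 (p2 z r).2
      (fun σ hσ => congrFun (p3 z v a.nd30 σ hσ) r) a.ine a.fr_notMem hs)
  let ev : Gam → Fin 2 → P →+ Zi 1 := fun s r =>
    (Pi.evalAddMonoidHom _ r).comp ((Pi.evalAddMonoidHom _ s).comp A)
  let f : P →+ Zi 1 × Zi 1 :=
    (if chi (T.f * e) (fr (bp 0)) = -1 then ev (fr (bp 0)) 1 else l3).prod
      (if chi (T.f * e) (fr (bp 1)) = 1 then ev (fr (bp 1)) 1 - ev (fr (bp 1)) 0 else l5)
  refine ⟨f.ker.map ((rs (GK n)).comp c), ?_, ?_, ?_⟩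
  · rintro _ ⟨z, hz, rfl⟩
    change rs (GK n) (c z) ∈ _
    refine mem_St.2 ⟨(h.ok.mem_SU (h.kil hi)).2 ⟨(cc z).lo_rs, fun v hv _ _ σ hσ => ?_,
      ((p4 z).kumC.map u).congr fun s hs => rs_of_mem hs.1 _, fun v hv => ?_⟩, fun r _ => ?_⟩
    · rw [rs_of_mem hσ.1, c0 z σ (p3 z v hv σ hσ)]
    · have d := (h.ok.deep v hv).adm
      rw [rs_of_mem d.tm'.φ_mem.1, rs_of_mem d.tm'.τ_mem.1, ci z v d _ d.tm'.φ_mem,
        ci z v d _ d.tm'.τ_mem]
      exact zero_mem _
    rcases sp_cases lam r with ⟨v, b, l, -⟩ | rfl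
    · have t := hn.tm_bq' v b
      have o : chi (T.f * e) (ori b (fr (bp v))) = chi (T.f * e) (fr (bp v)) := by
        cases b
        exacts [chi_cj _ _, rfl]
      have o' : ∀ r, A z (ori b (fr (bp v))) r = A z (fr (bp v)) r := fun r => rl_ori (p2 z r).2 b _
      obtain ⟨x, x1, x2⟩ := rl_bad T h5 (bq_or v b) t.frob t.gen (chi (T.f * e) (fr (bp v)))
        (c2 z (ori b (fr (bp v)))) (c2 z (nsg v b)) (by
          have z1 := congrArg Prod.fst (show f z = 0 from hz)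
          have z2 := congrArg Prod.snd (show f z = 0 from hz)
          simp only [f, AddMonoidHom.prod_apply, Prod.fst_zero, Prod.snd_zero] at z1 z2
          simp only [hc, o']
          fin_cases v
          · have q : (bq 0 b).p = 3 := bq_p 0 b
            simp only [Fin.zero_eta, if_pos q, p5 z _ q _ (gen_bq 0 b).1]
            split_ifs at z1 ⊢
            · exact ⟨(congrArg u z1).trans (map_zero u), map_zero u⟩
            · funext r
              fin_cases r <;> simp [z1]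
          · have q : (bq 1 b).p = 5 := bq_p 1 b
            simp only [Fin.mk_one, if_neg (show ¬ (bq 1 b).p = 3 by omega),
              p6 z _ q _ (gen_bq 1 b).1]
            split_ifs at z2 ⊢
            · exact ⟨congrArg u (sub_eq_zero.1 z2), rfl⟩
            · funext r
              fin_cases r <;> simp [z2])
      rw [l]
      refine ⟨x, fun s hs => (rs_of_mem hs.1 _).trans (t.eq_cob (m := i) Zi_kill'
        (ha.lo_mono inf_le_left) ((cc z).lo_mono inf_le_left) ?_ ?_ hs)⟩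
      · rw [h.act t.τ_mem.1, B2.chi_ine (h.br.nd15 (bq_or v b)) t.gen.1, Units.val_one, one_smul,
          x1]
      · rw [h.act t.mem, o, x2]
    · refine ⟨0, fun s hs => ?_⟩
      rw [rs_of_mem hs.1, ci z lam h.ok.adm s hs, xlc_cob_zero]
  · rintro _ ⟨z, -, rfl⟩
    change 2 • rs (GK n) (c z) = 0
    rw [← map_nsmul, show 2 • c z = 0 from funext (c2 z), map_zero]
  · rw [AddSubgroup.card_map_of_injective ((injective_iff_map_eq_zero _).2 fun z l =>
      p7 z fun s hs => funext fun r => u1 ((congrFun ((rs_of_mem hs (c z)).symm.trans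
        (congrFun l s)) r).trans (map_zero u).symm))]
    have a := card_ker_range f
    have b := AddSubgroup.card_le_card_addGroup f.range
    rw [Nat.card_prod, card_Zi] at b
    refine Nat.le_of_mul_le_mul_right (c := 2 ^ 1 * 2 ^ 1) ?_ (by norm_num)
    refine le_trans (le_of_eq ?_) (a.le.trans (Nat.mul_le_mul_left _ b))
    rw [p1]
    ring

end Pool.Agent.Lib.MP_696deb_nt.B3
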