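import Pool.Agent.Lib.MP_696deb_nt.B3.RLb
import Pool.Agent.Lib.MP_696deb_nt.B3.RLc

/-! Global counts on the branches of a twist that is ramified at two. -/

set_option autoImplicit false

open scoped NNReal Classical
open Finset Matrix PowerSeries NumberTheorySymbols

namespace Pool.Agent.Lib.MP_696deb_nt.B3

open B2

variable {T : Tate} {n k i u I : ℕ} {e : ℤ} {lam w : Plc} {ψ : Gam → Lam} {R : Finset (Fin 5)}
  {ty : Ty} {y P Q : EE} {δ c : Gam → Fin 2 → Zi i}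

/-- Torsion in a quotient. -/
theorem rl_tors {M N : Type} [AddCommGroup M] [AddCommGroup N] [Finite M] (f : M →+ N) (m : ℕ) :
    Nat.card (f.range ⊓ (nsmulAddMonoidHom m).ker : AddSubgroup N) ≤
      Nat.card (nsmulAddMonoidHom (α := M) m).ker := by
  have h1 := card_map_inf (nsmulAddMonoidHom m) f.range
  have h2 : f.range.map (nsmulAddMonoidHom m) = (nsmulAddMonoidHom (α := M) m).range.map f := by
    rw [AddMonoidHom.map_range, AddMonoidHom.map_range]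
    exact congrArg _ (AddMonoidHom.ext fun x => (map_nsmul f m x).symm)
  have h3 := card_map_inf f (nsmulAddMonoidHom (α := M) m).range
  have h4 := (card_ker_range f).symm.trans (card_ker_range (nsmulAddMonoidHom (α := M) m))
  have : Finite ((nsmulAddMonoidHom (α := M) m).range.map f) :=
    ((_ : Set M).toFinite.image _).to_subtype
  rw [h1, h2, h3, mul_left_comm, ← mul_assoc, ← mul_assoc] at h4
  exact Nat.le_of_mul_le_mul_right ((Nat.eq_of_mul_eq_mul_right Nat.card_pos h4).le.trans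
    (Nat.mul_le_mul_left _ (AddSubgroup.card_le_of_le inf_le_right))) Nat.card_pos

theorem rl_B1 (T : B2.Tate) (m : ℕ) {H : Subgroup Gam} {α : Gam → (Fin 2 → Zi i) →+ Fin 2 → Zi i}
    (W : AddSubgroup (Gam → Fin 2 → Zi i)) (h : ∀ c ∈ W, 2 ^ m • c = 0) :
    Nat.card W * 4 ^ i ≤
      Nat.card (W ⊔ B1 H α : AddSubgroup _) * (Nat.card (H0 H α) * 4 ^ m) := by
  have : Finite (cobH H α).range := (Set.finite_range _).to_subtype
  have : Finite ((cobH H α).range ⊓ (nsmulAddMonoidHom (2 ^ m)).ker : AddSubgroup _) :=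
    rl_fin inf_le_left
  have ex : ∀ x : (nsmulAddMonoidHom (α := Fin 2 → Zi i) (2 ^ m)).ker, ∃ y : Fin 2 → Zi m,
      T.emb m y = T.emb i x := fun x => T.surj m _ (by
    rw [← map_nsmul, show 2 ^ m • x.1 = 0 from x.2, map_zero])
  choose f hf using ex
  have h1 := ((AddSubgroup.card_le_of_le (H := W ⊓ B1 H α)
    (K := (cobH H α).range ⊓ (nsmulAddMonoidHom (2 ^ m)).ker) fun c hc =>
      AddSubgroup.mem_inf.2 ⟨hc.2, AddMonoidHom.mem_ker.2 (h c hc.1)⟩).trans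
    (rl_tors (cobH H α) (2 ^ m))).trans (Nat.card_le_card_of_injective f fun x y l =>
      Subtype.ext (T.inj i (by rw [← hf, ← hf, l])))
  rw [card_Zi2] at h1
  rw [← card_Zi2 i, ← card_H0_B1 H α, mul_left_comm, ← card_inf_sup, mul_left_comm _ _ (4 ^ m),
    mul_comm _ (4 ^ m)]
  exact Nat.mul_le_mul_left _ (Nat.mul_le_mul_right _ h1)

/-- The order of a Selmer group. -/
noncomputable abbrev GG (T : Tate) (n : ℕ) (lam : Plc) (ψ : Gam → Lam) (w : Plc)
    (R : Finset (Fin 5)) (ty : Ty) (i : ℕ) : ℕ :=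
  Nat.card (SelB T n lam ψ ⟨R, {w}, fun _ => ty⟩ (Zi i))

theorem ROk.finite_Zu (h : ROk T n k e lam ψ w) (hi : i ≤ k) (s : Finset Plc) :
    Finite (Zu (GK n) (B2.act T ψ (Zi i)) s) :=
  B2.finite_Zu (finH_two (op_GK n) (tc_of_le h.ok.nok.pos le_rfl) (index_GK h.ok.nok.pos))
    (h.dual hi) s

theorem ROk.finite_St (h : ROk T n k e lam ψ w) (hi : i ≤ k) : Finite (St T n lam ψ w R ty i) :=
  have := h.finite_Zu hi (univ.image (sp lam) ∪ insert w2 {w})
  rl_fin (S' := Zu (GK n) (B2.act T ψ (Zi i)) (univ.image (sp lam) ∪ insert w2 {w}))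
    fun _ hc => ⟨hc.1.1, hc.1.2.1⟩

theorem ROk.St_le (h : ROk T n k e lam ψ w) (hi : i ≤ k) :
    Nat.card (St T n lam ψ w R ty i) * ∏ r ∈ R, hh T n lam ψ i r ≤ GG T n lam ψ w R ty i := by
  have := h.finite_Zu hi (univ.image (sp lam) ∪ insert w2 {w})
  rw [GG, SelB, card_Sel _ _ ((image_subset_image (subset_univ _)).trans subset_union_left)
    subset_union_right (disjoint_left.2 fun v hv => by
      obtain ⟨r, -, rfl⟩ := mem_image.1 hv
      exact h.ok.sp_notMem r), prod_image h.ok.sp_inj.injOn]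
  refine Nat.mul_le_mul_right _ (@AddSubgroup.card_le_of_le _ _ _ _ (rl_fin inf_le_left)
    fun c hc => mem_Zc.2 ⟨⟨hc.1.1, hc.1.2.1⟩, fun v _ => ?_⟩)
  split_ifs with k1 k2
  · obtain ⟨r, hr, rfl⟩ := mem_image.1 k1
    exact rs_mem_B1.2 ((mem_St.1 hc).2 r hr)
  · exact hc.1.2.2.2.2 v k2
  · trivial

theorem mem_St0 : c ∈ St T n lam ψ w ∅ ty i ↔ c ∈ SU T n lam ψ {w} (fun _ => ty) (Zi i) :=
  mem_St.trans (and_iff_left fun _ h => absurd h (notMem_empty _))

theorem ROk.G0_le (h : ROk T n k e lam ψ w) (hi : i ≤ k) :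
    GG T n lam ψ w ∅ ty i ≤ Nat.card (St T n lam ψ w ∅ ty i) := by
  have := h.finite_St (R := ∅) (ty := ty) hi
  have z : ∀ z ∈ SelB T n lam ψ ⟨∅, {w}, fun _ => ty⟩ (Zi i), z.2 = 0 :=
    fun z hz => funext fun v => hz.2.2.2.1 v (by simp)
  exact Nat.card_le_card_of_injective (fun x => ⟨x.1.1, mem_St0.2
    ((mem_SR0 T n lam ψ).2 (z _ x.2 ▸ x.2))⟩)
    fun x y e => Subtype.ext (Prod.ext (congrArg Subtype.val e :) ((z _ x.2).trans (z _ y.2).symm))

theorem ROk.B1_le (h : ROk T n k e lam ψ w) (hi : i ≤ k) :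
    B1 (GK n) (B2.act T ψ (Zi i)) ≤ St T n lam ψ w R ty i := by
  rintro _ ⟨x, rfl⟩
  exact mem_St.2 ⟨h.ok.cob_mem (h.kil hi) x, fun r _ => ⟨x, fun g hg => rs_of_mem hg.1 _⟩⟩

/-- The passage to the double level. -/
theorem ROk.mono (F : CFT) (h : ROk T n k e lam ψ w) (hi : i + i ≤ k) :
    Nat.card (St T n lam ψ w ∅ ty i) * 4 ^ (i + i) ≤ GG T n lam ψ w {0, 1, 2, 3} ty (i + i) *
      (Nat.card (H0 (GK n) (B2.act T ψ (Zi (i + i)))) * 4 ^ i) := by
  obtain ⟨u, u1, u2⟩ := T.exists_up (Nat.le_add_right i i)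
  have := h.finite_St (R := ∅) (ty := ty) (by omega : i ≤ k)
  let K := fun r => Kc (GK n ⊓ Dec (sp lam r)) (B2.act T ψ (Zi (i + i))) (u.compLeft (Fin 2))
  have step : ∀ (r) (Z : AddSubgroup (Gam → Fin 2 → Zi i)), Z ≤ St T n lam ψ w ∅ ty i →
      Nat.card Z ≤ Nat.card (Z ⊓ K r : AddSubgroup _) * hh T n lam ψ (i + i) r := fun r Z hZ =>
    have := rl_fin hZ
    h.idx F hi (sp_ne_two h.ok.adm r) u2 Z fun c hc => (hZ hc).1.1.1
  have h1 := (step 3 _ le_rfl).trans (Nat.mul_le_mul_right _ ((step 2 _ inf_le_left).trans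
    (Nat.mul_le_mul_right _ ((step 1 _ (inf_le_left.trans inf_le_left)).trans
      (Nat.mul_le_mul_right _ (step 0 _ (inf_le_left.trans (inf_le_left.trans inf_le_left))))))))
  have inj : Function.Injective ((u.compLeft (Fin 2)).compLeft Gam) := u1.comp_left.comp_left
  have h2 := rl_B1 T i (H := GK n) (α := B2.act T ψ (Zi (i + i)))
    ((St T n lam ψ w ∅ ty i ⊓ K 3 ⊓ K 2 ⊓ K 1 ⊓ K 0).map ((u.compLeft (Fin 2)).compLeft Gam)) (by
      rintro _ ⟨c, -, rfl⟩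
      rw [← map_nsmul, show 2 ^ i • c = 0 from funext fun g => Zi_kill' _, map_zero])
  have := h.finite_St (R := {0, 1, 2, 3}) (ty := ty) hi
  rw [AddSubgroup.card_map_of_injective inj] at h2
  replace h2 := h2.trans (Nat.mul_le_mul_right _ (AddSubgroup.card_le_of_le
    (K := St T n lam ψ w {0, 1, 2, 3} ty (i + i)) (sup_le ?_ (h.B1_le hi))))
  · refine le_trans ?_ (Nat.mul_le_mul_right _ (h.St_le hi))
    rw [prod_insert (by decide), prod_insert (by decide), prod_pair (by decide), mul_right_comm]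
    refine (Nat.mul_le_mul_right _ h1).trans (le_trans (le_of_eq ?_) (Nat.mul_le_mul_right _ h2))
    ring
  · rintro _ ⟨c, ⟨⟨⟨⟨p, p3⟩, p2⟩, p1⟩, p0⟩, rfl⟩
    refine mem_St.2 ⟨SR0_map (zLin u X_Zi) (mem_St0.1 p), fun r hr => ?_⟩
    simp only [mem_insert, mem_singleton] at hr
    rcases hr with rfl | rfl | rfl | rfl
    exacts [mem_Kc.1 p0, mem_Kc.1 p1, mem_Kc.1 p2, mem_Kc.1 p3]

theorem ROk.mem_SU (h : ROk T n k e lam ψ w) (hi : i ≤ k) :
    c ∈ SU T n lam ψ {w} (fun _ => ty) (Zi i) ↔ c ∈ SU T n lam ψ {w} (fun _ => .rel) (Zi i) ∧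
      (c (fq w), c (gn w)) ∈ ty.cond (Zi i) := by
  simp only [h.ok.mem_SU (h.kil hi), mem_singleton, forall_eq, Ty.cond, Submodule.mem_top, and_true,
    and_assoc]

theorem Del.not_B1 (hd : Del T n (T.f * e) i P Q δ) (hp : Prim n (T.f * e) y P u I)
    (h : ROk T n k e lam ψ w) (hi : 1 ≤ i) : 2 ^ (i - 1) • δ ∉ B1 (GK n) (act T ψ (Zi i)) := by
  rintro ⟨x, hx⟩
  exact hd.not_cob hp hi x fun g hg => by
    rw [← h.act hg, ← Pi.smul_apply, ← hx, cobH_apply, rs_of_mem hg, cob]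

theorem ROk.explicit (h : ROk T n k e lam ψ w) (hd : Del T n (T.f * e) i P Q δ)
    (hp : Prim n (T.f * e) y P u I) (hi : i ≤ k) {r : ℕ} (he : r + 6 ≤ i)
    (h0 : 2 ^ (i - r) • (δ (fq w) 1 - δ (fq w) 0) = 0) :
    4 ^ i * 2 ^ (2 * n.primeFactors.card + r + 10 + 4 * if J(T.f * e | 5) = 1 then 2 else 1) ≤
      GG T n lam ψ w univ .fl i * Nat.card (H0 (GK n) (B2.act T ψ (Zi i))) := by
  obtain ⟨G, g1, g3, g4⟩ := h.exists_gen (by omega) hi
  have := h.finite_St (R := univ) (ty := .fl) hi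
  have m := hd.mem_SU h hi
  have h1 := rl_B1 T 1 (H := GK n) (α := B2.act T ψ (Zi i)) G g3
  have le : G ⊔ B1 (GK n) (B2.act T ψ (Zi i)) ≤ St T n lam ψ w univ .fl i :=
    sup_le g1 (h.B1_le hi)
  have h2 : Nat.card (G ⊔ B1 (GK n) (B2.act T ψ (Zi i)) : AddSubgroup _) * 2 ^ r ≤
      Nat.card (St T n lam ψ w univ .fl i) * 2 := by
    rcases le_or_gt r 1 with l | l
    · exact Nat.mul_le_mul (AddSubgroup.card_le_of_le le) (Nat.pow_le_pow_right two_pos l)
    obtain ⟨r, rfl⟩ : ∃ s, r = s + 2 := ⟨r - 2, by omega⟩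
    rw [pow_succ, ← mul_assoc]
    refine Nat.mul_le_mul_right _ (rl1_ord le (x := 2 ^ (i - (r + 2)) • δ) (N := i)
      (mem_St.2 ⟨?_, fun s _ => ?_⟩) (funext fun g => Zi_kill' _) fun l => ?_)
    · obtain ⟨p1, -, p2⟩ := (h.mem_SU hi).1 (nsmul_mem m (2 ^ (i - (r + 2))))
      exact (h.mem_SU hi).2 ⟨p1, sub_eq_zero.1 ((smul_sub _ _ _).symm.trans h0), p2⟩
    · obtain ⟨x, hx⟩ := h.kill hi s m.1.1
      exact ⟨2 ^ (i - (r + 2) - 6) • x, fun g hg => by
        rw [rf_cob, ← hx g hg, smul_smul, ← pow_add, Nat.sub_add_cancel (by omega), Pi.smul_apply]⟩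
    · obtain ⟨s, s1, t, t1, l⟩ := AddSubgroup.mem_sup.1 l
      refine hd.not_B1 hp h (by omega) ?_
      rw [show i - 1 = 1 + (r + (i - (r + 2))) by omega, pow_add, pow_add, mul_smul, mul_smul, ← l,
        pow_one, smul_add, g3 s s1, zero_add]
      exact nsmul_mem t1 2
  have h4 := h.St_le (R := univ) (ty := .fl) hi
  rw [Fin.prod_univ_five] at h4
  have h6 := Nat.mul_le_mul (Nat.mul_le_mul (Nat.mul_le_mul (Nat.mul_le_mul
    (h.three (i := i) (by omega) (sp_p lam 0)) (h.three (i := i) (by omega) (sp_p lam 1)))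
    (h.five (i := i) (by omega) (sp_p lam 2))) (h.five (i := i) (by omega) (sp_p lam 3)))
    (h.tower (i := i) (by omega) hi)
  generalize (if J(T.f * e | 5) = 1 then 2 else 1) = a at h6 ⊢
  refine Nat.le_of_mul_le_mul_left (le_trans ?_ (Nat.mul_le_mul_left 8
    (Nat.mul_le_mul_right _ h4))) (by norm_num)
  calc _ = 2 ^ (2 * n.primeFactors.card + 1) * 4 ^ i * 2 ^ r *
        (8 * 8 * 4 ^ a * 4 ^ a * 4 ^ 3) := by
        rw [show (4 : ℕ) ^ a = 2 ^ (2 * a) by rw [pow_mul]; rfl]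
        ring
    _ ≤ _ := Nat.mul_le_mul (Nat.mul_le_mul_right _ ((Nat.mul_le_mul_right _ g4).trans h1)) h6
    _ = _ * 2 ^ r * (Nat.card (H0 (GK n) (B2.act T ψ (Zi i))) * 4 ^ 1) * _ := by
        rw [mul_right_comm _ _ (2 ^ r)]
    _ ≤ _ := Nat.mul_le_mul_right _ (Nat.mul_le_mul_right _ h2)
    _ = _ := by
        change _ * (hh T n lam ψ i 0 * hh T n lam ψ i 1 * hh T n lam ψ i 2 * hh T n lam ψ i 3 *
          hh T n lam ψ i 4) = _
        ring

theorem ROk.dich (h : ROk T n k e lam ψ w) (hd : Del T n (T.f * e) i P Q δ)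
    (hp : Prim n (T.f * e) y P u I) (hi : i ≤ k) (h1 : 1 ≤ i) {r : ℕ} (he : r ≤ i) {v : Zi i}
    (h0 : δ (fq w) 1 - δ (fq w) 0 = 2 ^ r * v) :
    Nat.card (St T n lam ψ w ∅ .sh i) ≤ Nat.card (St T n lam ψ w ∅ .lag i) * 2 ^ (i - r) ∨
      4 ^ i * 2 ^ i ≤
        Nat.card (St T n lam ψ w ∅ .lag i) * Nat.card (H0 (GK n) (B2.act T ψ (Zi i))) := by
  have := h.finite_St (R := ∅) (ty := .lag) hi
  let f : (Gam → Fin 2 → Zi i) →+ Zi i := AddMonoidHom.mk' (fun c => c (fq w) 1 - c (fq w) 0)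
    fun x y => by simp only [Pi.add_apply]; ring
  by_cases l : (St T n lam ψ w ∅ .sh i).map f ≤ AddSubgroup.zmultiples (2 ^ r)
  · left
    rw [card_map_inf f]
    refine Nat.mul_le_mul (AddSubgroup.card_le_of_le fun c hc => ?_)
      ((AddSubgroup.card_le_of_le l).trans ?_)
    · obtain ⟨p1, -, p2⟩ := (h.mem_SU hi).1 (mem_St0.1 hc.1)
      exact mem_St0.2 ((h.mem_SU hi).2 ⟨p1, sub_eq_zero.1 hc.2, p2⟩)
    · rw [Nat.card_zmultiples]
      exact addOrderOf_le_of_nsmul_eq_zero (by positivity)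
        (by simpa using Zi_pow (r := i - r) (e := r) (by omega) 1)
  right
  obtain ⟨_, ⟨c, hc, rfl⟩, l⟩ := SetLike.not_le_iff_exists.1 l
  obtain ⟨t, s, s1, s2⟩ := Zi_unit fun k : f c = 0 => l (k ▸ zero_mem _)
  have lt : t < r := not_le.1 fun k => l (by
    rw [s2, ← Nat.add_sub_cancel' k, pow_add, mul_assoc, mul_comm,
      ← ZMod.natCast_zmod_val (_ * s), ← nsmul_eq_mul]
    exact AddSubgroup.nsmul_mem_zmultiples _ _)
  obtain ⟨s', s3⟩ := s1.exists_right_inv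
  obtain ⟨p1, -, p2⟩ := (h.mem_SU hi).1 (mem_St0.1 hc)
  obtain ⟨q1, -, q2⟩ := (h.mem_SU hi).1 (hd.mem_SU h hi)
  obtain ⟨q, rfl⟩ : ∃ q, r = q + t + 1 := ⟨r - t - 1, by omega⟩
  obtain ⟨m, hm⟩ : ∃ m : ℕ, (2 * m) • f c = δ (fq w) 1 - δ (fq w) 0 :=
    ⟨(2 ^ q * s' * v).val, by
      rw [nsmul_eq_mul, Nat.cast_mul, ZMod.natCast_zmod_val, s2, h0]
      push_cast
      linear_combination 2 ^ (q + t + 1) * v * s3⟩
  have z : (2 * m) • c - δ ∈ SU T n lam ψ {w} (fun _ => .lag) (Zi i) :=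
    (h.mem_SU hi).2 ⟨sub_mem (nsmul_mem p1 _) q1, ?_, ?_⟩
  rotate_left
  · change (2 * m) • c (fq w) 1 - δ (fq w) 1 = (2 * m) • c (fq w) 0 - δ (fq w) 0
    rw [sub_eq_sub_iff_sub_eq_sub, ← hm, ← smul_sub]
    rfl
  · change (2 * m) • c (gn w) - δ (gn w) ∈ dgM (Zi i)
    rw [show δ (gn w) = 0 from q2, sub_zero]
    exact nsmul_mem p2 _
  have := rl1_ord (h.B1_le hi) (r := i - 1) (N := i) (mem_St0.2 z) (funext fun g => Zi_kill' _)
    fun k => hd.not_B1 hp h h1 (by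
      rwa [smul_sub, smul_smul, ← mul_assoc, ← pow_succ, Nat.sub_add_cancel h1, mul_smul,
        show 2 ^ i • m • c = 0 from funext fun g => Zi_kill' _, zero_sub, neg_mem_iff] at k)
  rw [Nat.sub_add_cancel h1] at this
  rw [← card_Zi2, ← card_H0_B1 (GK n) (B2.act T ψ (Zi i)), mul_assoc, mul_comm]
  exact Nat.mul_le_mul_right _ this

variable (F : CFT) (su : SUStmt) (ch : ChebStmt)
include F su ch

theorem ROk.gw_lag (h : ROk T n k e lam ψ w) (hi : i ≤ k) : GG T n lam ψ w {0, 1, 2, 3} .lag i =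
    Nat.card (SM T n lam ψ {w} (fun _ => .lag) (Zi i)) * 4 ^ i := by
  have h1 := (sel_count (R := {4}) (ty := fun _ => .lag) F su ch h.ok (h.kil hi) (h.kil hi) hi
    (perf_Zi i)).2
  rw [h.ok.card_SM (h.kil hi), prod_singleton, Ty.cond, xsb_card_prod, card_dgP, card_dgM,
    card_singleton, mul_one, ← sq, Str.dual, show dualR {4} = {0, 1, 2, 3} by decide] at h1
  rw [← card_Zi2, Nat.card_fun, Nat.card_fin]
  exact (Nat.eq_of_mul_eq_mul_right (pow_pos Nat.card_pos 2) h1).symm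

theorem ROk.gw_fl (h : ROk T n k e lam ψ w) (hi : i ≤ k) :
    GG T n lam ψ w ∅ .sh i = GG T n lam ψ w univ .fl i * 2 ^ i := by
  have h1 := (sel_count (R := univ) (ty := fun _ => .fl) F su ch h.ok (h.kil hi) (h.kil hi)
    hi (perf_Zi i)).2
  rw [prod_singleton, card_cond, pow_one, card_singleton, mul_one, sq, ← mul_assoc,
    Str.dual, show dualR univ = ∅ by decide, card_Zi] at h1
  exact (Nat.eq_of_mul_eq_mul_right (by positivity) h1).symm

theorem ROk.bound (h : ROk T n k e lam ψ w) (hd : Del T n (T.f * e) i P Q δ)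
    (hp : Prim n (T.f * e) y P u I) (hi : i + i ≤ k) {r m : ℕ} (he : r + 6 ≤ i) (hm : m + 6 ≤ i)
    (hb : m + 2 * (if J(T.f * e | 3) = -1 ∧ J(T.f * e | 5) = 1 then 3 else 2) ≤
      2 * n.primeFactors.card + 2 * r + 10 + 4 * if J(T.f * e | 5) = 1 then 2 else 1)
    {v : Zi i} (h0 : δ (fq w) 1 - δ (fq w) 0 = 2 ^ r * v) :
    2 ^ m ≤ Nat.card (SM T n lam ψ {w} (fun _ => .lag) (Lam ⧸ aa (i + i) 1)) := by
  have hi' : i ≤ k := by omega
  have g1 := h.glob (i := i)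
  have g2 := h.glob (i := i + i)
  have b3 : (if J(T.f * e | 3) = -1 ∧ J(T.f * e | 5) = 1 then 3 else 2) ≤ 3 := by
    split_ifs <;> omega
  have h2 := h.explicit hd hp hi' he (h0 ▸ Zi_pow (by omega) v)
  generalize (if J(T.f * e | 3) = -1 ∧ J(T.f * e | 5) = 1 then 3 else 2) = b at g1 g2 b3 hb
  generalize (if J(T.f * e | 5) = 1 then 2 else 1) = a at h2 hb
  have h1 : 4 ^ i * 2 ^ (m + b) * 2 ^ b ≤ Nat.card (St T n lam ψ w ∅ .lag i) * 2 ^ b := by
    rw [mul_assoc, ← pow_add]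
    refine (h.dich hd hp hi' (by omega) (by omega) h0).elim (fun l => ?_) fun l =>
      (Nat.mul_le_mul_left _ (Nat.pow_le_pow_right two_pos (by omega))).trans
        (l.trans (Nat.mul_le_mul_left _ g1))
    replace h2 := Nat.mul_le_mul_right (2 ^ i) (h2.trans (Nat.mul_le_mul_left _ g1))
    rw [mul_right_comm _ (2 ^ b), ← h.gw_fl F su ch hi'] at h2
    replace h2 := h2.trans (Nat.mul_le_mul_right _ ((h.G0_le hi').trans l))
    rw [mul_right_comm _ _ (2 ^ b)] at h2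
    refine Nat.le_of_mul_le_mul_right (le_trans ?_ h2) (by positivity)
    rw [mul_assoc, mul_assoc, ← pow_add, ← pow_add]
    exact Nat.mul_le_mul_left _ (Nat.pow_le_pow_right two_pos (by omega))
  have h3 := h.mono (ty := .lag) F hi
  rw [h.gw_lag F su ch hi, mul_right_comm] at h3
  replace h3 := (Nat.le_of_mul_le_mul_right h1 (by positivity)).trans
    ((Nat.le_of_mul_le_mul_right h3 (by positivity)).trans
      (Nat.mul_le_mul_left _ (Nat.mul_le_mul_right _ g2)))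
  rw [pow_add, mul_comm, mul_assoc] at h3
  obtain ⟨f, hf⟩ := exists_lin_aa (i + i)
  have := (sel_finite (R := ∅) (ty := fun _ => .lag) F su ch h.ok
    (kil_quot (aa_le hi (.inl h.pos)))).2.1
  exact (Nat.le_of_mul_le_mul_right h3 (by positivity)).trans
    (Nat.card_le_card_of_injective (fun c => ⟨_, SR0_map f c.2⟩) fun c c' l =>
      Subtype.ext (hf.comp_left.comp_left (congrArg Subtype.val l)))

end Pool.Agent.Lib.MP_696deb_nt.B3
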