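import Pool.Agent.Lib.MP_696deb_nt.B3.SHd
import Pool.Agent.Lib.MP_696deb_nt.B3.HGb

/-! The height pairing of two twisted Heegner points. -/

set_option autoImplicit false

open scoped Classical
open Finset NumberTheorySymbols Filter Topology

namespace Pool.Agent.Lib.MP_696deb_nt.B3

open B2

variable {δ m e a b x β ρ ρ' D D' : ℤ} {n : ℕ} {S T T' : Finset Fm} {R : Fm} {u w : Fm → ℤ}

theorem ht_point (hS : Pts S w D) (hT : FReps D' β T) (hD : D' < 0)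
    (hw : Wt (fun R => if Fam D' β R then u R else 0) D') (h0 : ∑ R ∈ T, u R = 0)
    (hn : ¬ IsSquare (D * D')) :
    (∀ ε : ℝ, 0 < ε → Summable fun t : ℕ => (cntP S w (fun R => if Fam D' β R then u R else 0)
      (-t) : ℝ) * kerK ε (t / √(D * D' : ℝ))) ∧
    Tendsto (fun ε : ℝ => ∑' t : ℕ, (cntP S w (fun R => if Fam D' β R then u R else 0) (-t) : ℝ) *
      kerK ε (t / √(D * D' : ℝ))) (𝓝[>] 0) (𝓝 (-arP S w T u)) := by
  let v : Fm → ℤ := fun R => if Fam D' β R ∧ 0 < R.1 then u R else 0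
  have h1 : ∀ R ∈ T, v R = u R := fun R hR => if_pos ⟨hT.fam R hR, hT.pos R hR⟩
  have h2 : ∀ R, v R ≠ 0 → Fam D' β R ∧ 0 < R.1 := fun R h => by_contra fun k => h (if_neg k)
  have h3 : ∀ t : ℕ, cntP S w v (-t) = cntP S w (fun R => if Fam D' β R then u R else 0) (-t) :=
    fun t => sum_congr rfl fun Q hQ => congr_arg _ (finsum_congr fun R =>
      if_ctx_congr Iff.rfl (fun h => if_congr (and_iff_left_of_imp fun k => pos_of_fbil
        (hS.disc Q hQ ▸ hS.neg) (hS.pos Q hQ) (k.2.1 ▸ hD) (by omega)) rfl rfl) fun _ => rfl)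
  have h4 := point_point Unif.nerData15 hS (T := T) (w := v) ⟨hD, fun R h => (hT.fam R h).2.1, hT.pos,
    by rw [sum_congr rfl h1, h0]⟩ ⟨fun R h => (h2 R h).1.2.1, fun Q R h => if_ctx_congr
      ⟨fun k => ⟨h.symm.fam k.1, h.symm.pos (k.1.2.1 ▸ hD) k.2⟩,
        fun k => ⟨h.fam k.1, h.pos (k.1.2.1 ▸ hD) k.2⟩⟩
      (fun k => by simpa only [if_pos k.1, if_pos (h.fam k.1)] using hw.inv Q R h) fun _ => rfl,
      hw.bdd.imp fun C hC R => by
        by_cases k : Fam D' β R ∧ 0 < R.1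
        · simpa only [v, if_pos k, if_pos k.1] using hC R
        · simpa only [v, if_neg k, abs_zero] using (abs_nonneg _).trans (hC R)⟩
    (fun R h => hT.ex R (h2 R h).1 (h2 R h).2) hT.uniq
    fun Q _ R _ e => hn ⟨_, e.symm.trans (pow_two _)⟩
  simp only [h3] at h4
  rwa [arP, sum_congr rfl fun Q _ => sum_congr rfl fun R hR => by rw [← h1 R hR]]

theorem ht_cj (hT : FReps D ρ T) (e b β t : ℤ) : cntP (T.image cj) (gw e b) (wU e b D' β) t =
    cntP T (gw e b) (wU e b D' (-β)) t := by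
  rw [cntP, cntP, hT.cj.2]
  refine sum_congr rfl fun Q _ => congr_arg _ ?_
  rw [← finsum_comp cj (Function.Involutive.bijective cj_cj)]
  refine finsum_congr fun R => if_congr ?_ (if_congr ⟨fun k => ?_, fun k => ?_⟩ rfl rfl) rfl
  · simp [fbil, cj]
  · simpa only [cj_cj] using k.cj
  · simpa only [neg_neg] using k.cj

theorem ht_neg (ok : GOk e b D') (β t : ℤ) : cntP T w (wU e b D' β) t =
    kap e b (-1) * cntP T w (wU e b D' (-β)) (-t) := by
  rw [cntP, cntP, mul_sum]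
  refine sum_congr rfl fun Q _ => ?_
  rw [mul_left_comm, mul_finsum _ (kap e b (-1))]
  refine congr_arg _ ((finsum_comp (M := ℤ) (fun R : Fm => -R)
    neg_involutive.bijective).symm.trans (finsum_congr fun R => ?_))
  have k : ∀ {β : ℤ} {R : Fm}, Fam D' β R → Fam D' (-β) (-R) := fun h =>
    ⟨h.1.neg_right, by simpa [fdisc] using h.2.1, by
      simpa [← sub_eq_neg_add] using dvd_sub_comm.mp h.2.2⟩
  rw [mul_ite, mul_zero, wU, wU, mul_ite, mul_zero]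
  refine if_congr ?_ (if_ctx_congr ⟨fun j => ?_, fun j => ?_⟩ (fun j => ?_) fun _ => rfl) rfl
  · simp only [fbil, Prod.fst_neg, Prod.snd_neg]
    constructor <;> intro j <;> linear_combination -j
  · simpa only [neg_neg] using k j
  · simpa only [neg_neg] using k j
  have e1 : fV (-R) = -fV R := by
    obtain ⟨c, hc⟩ := j.1
    simp [fV, hc, Int.neg_ediv_of_dvd]
  have e2 : ∀ (R : Fm) x y, fval (-R) x y = -1 * fval R x y := fun R x y => by simp [fval]; ring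
  have e3 : GOk e b (fdisc (fV R)) := (fam_fV j).2.1 ▸ ok
  rw [uw, uw, e1]
  exact gw_of_vals e3 (by simpa [fdisc] using e3) isCoprime_one_left.neg_left
    isCoprime_one_left.neg_left (fun x y => ⟨x, y, by simp [e2]⟩) fun x y => ⟨x, y, by simp [e2]⟩

theorem ht_sy (hT : FReps D ρ T) (hD : D < 0) (hw : ∀ Q, w (cj Q) = w Q) (e b : ℤ) :
    sy e b (∑ Q ∈ T, (w Q : ℂ) * Fi (froot Q)) = ∑ Q ∈ T, w Q • Fi (froot Q) +
      kap e b (-1) • ∑ Q ∈ T.image cj, w Q • Fi (froot Q) := by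
  rw [sy, hT.cj.2, map_sum]
  simp only [zsmul_eq_mul]
  congr 2
  exact sum_congr rfl fun Q hQ => by
    rw [map_mul, map_intCast, hw, Fi_froot_cj ((hT.fam Q hQ).2.1 ▸ hD) (hT.pos Q hQ)]

theorem ht_one (h : Dsc δ m e) (t : Tri a b x n ρ) (hT : FReps (-(n * e ^ 2)) β T) {l : ℕ}
    (hl : l.Prime) (h15 : l ∣ 15) : OneC l T (gw e b) := by
  have hP := Nat.prime_iff_prime_int.mp hl
  have h1 : ¬ (l : ℤ) ∣ -n := fun k => hl.one_lt.ne' (Nat.eq_one_of_dvd_coprimes t.good.cop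
    (Int.natCast_dvd_natCast.mp (dvd_neg.mp k)) h15)
  have h2 : ∀ {c : ℤ}, c ≠ 0 → -(n * c ^ 2) < 0 := fun k =>
    neg_neg_of_pos (mul_pos (neg_neg_iff_pos.mp t.good.neg) (sq_pos_of_ne_zero k))
  by_cases h3 : (l : ℤ) ∣ e
  · have h4 := fun R => gw_zero (R := R) h.spt h.eq b hl h3
    have h5 := h.ne_zero
    obtain ⟨c, rfl⟩ := h3
    exact oneC_down (D := -(n * c ^ 2)) (by convert hT using 1; ring)
      (h2 (right_ne_zero_of_mul h5)) hl h15 ⟨c, -n, ρ, by ring, h1, by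
        rw [sub_neg_eq_add]
        exact (mul_dvd_mul_left 4 (Int.natCast_dvd_natCast.mpr h15)).trans t.root⟩
      fun Q k1 k2 k3 => k1 (h4 Q k2 k3 t.cls.2.1.sqf.ne_zero)
  · refine oneC_unram hT (h2 h.ne_zero) hl h15 (fun k => ?_) _
    rw [← neg_mul] at k
    exact (hP.dvd_or_dvd k).elim h1 fun j => h3 (hP.dvd_of_dvd_pow j)

theorem height3 (h : Dsc δ m e) (t : Tri a b x n ρ) (_hr : rootNo (δ * m * b) = -1)
    (hs : ¬ IsSquare (a * x)) (hT : FReps (-(n * e ^ 2)) (ρ * e.natAbs) T)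
    (hT' : FReps (b * x * lv e ^ 2) (ρ' * lv e) T') : ∃ X : ℝ,
    Tendsto (fun ε : ℝ => ∑' s : ℕ,
      ((2 * cntP T (gw e b) (wU e b (b * x * lv e ^ 2) (ρ' * lv e)) (-s) +
        2 * cntP T (gw e b) (wU e b (b * x * lv e ^ 2) (ρ' * lv e)) s : ℤ) : ℝ) *
        kerK ε (s / √((-(n * e ^ 2) * (b * x * lv e ^ 2) : ℤ) : ℝ))) (𝓝[>] 0) (𝓝 X) ∧
    ∀ l : ℕ, l.Prime → l ∣ 15 ∨ SplitAt l (b * x * lv e ^ 2) →
      hpair (Unif.u15 (sy e b (hW e b T))) (Unif.u15 (sy e b (hU e b T'))) + 2 * X ∈ LogS l := by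
  obtain ⟨ha, hb, h1, -⟩ := t.cls
  have e0 := h.ne_zero
  have l0 := (lv_pos e0).ne'
  have e1 : -(n * e ^ 2) = b * a * e ^ 2 := by linear_combination -e ^ 2 * t.mul
  have h2 : b * a < 0 := by rw [mul_comm, t.mul]; exact t.good.neg
  have hD : -(n * e ^ 2) < 0 := e1 ▸ mul_neg_of_neg_of_pos h2 (sq_pos_of_ne_zero e0)
  have hD' : b * x * lv e ^ 2 < 0 := mul_neg_of_neg_of_pos h1 (sq_pos_of_ne_zero l0)
  have hn : ¬ IsSquare (-(n * e ^ 2) * (b * x * lv e ^ 2)) := fun k =>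
    hs (isSquare_of_mul_sq (d := b * e * lv e) (mul_ne_zero (mul_ne_zero hb.sqf.ne_zero e0) l0)
      (by convert k using 1; rw [e1]; ring))
  have ok : GOk e b (-(n * e ^ 2)) := h.gOk hb ⟨a, by rw [e1]; ring⟩
  have ok' : GOk e b (b * x * lv e ^ 2) :=
    h.gOk hb (mul_dvd_mul (dvd_mul_right _ _) (pow_dvd_pow_of_dvd (dvd_lv e) 2))
  have p1 : ∀ {β T}, FReps (-(n * e ^ 2)) β T → Pts T (gw e b) (-(n * e ^ 2)) := fun k =>
    ⟨hD, fun Q j => (k.fam Q j).2.1, k.pos, deg_gw h hb ha h2 dvd_rfl e0 (e1 ▸ k)⟩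
  have p2 : ∀ {β T}, FReps (b * x * lv e ^ 2) β T → Pts T (uw e b) (b * x * lv e ^ 2) := fun k =>
    ⟨hD', fun Q j => (k.fam Q j).2.1, k.pos,
      ((k.fV hD').2 _).symm.trans (deg_gw h hb t.cx h1 (dvd_lv e) l0 (k.fV hD').1)⟩
  have hN : 0 < 120 * oc e b := Nat.mul_pos (by norm_num) ok.odd.pos
  have hm : ∀ u v, kap e b (u * v) = kap e b u * kap e b v := (h.pchr hb).mul
  have hu : ∀ u : ℤ, IsCoprime u (120 * oc e b : ℕ) → kap e b u * kap e b u = 1 := fun u k => by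
    rw [← sq]
    refine (h.pchr hb).sq (k.of_isCoprime_of_dvd_right ?_)
    rw [cn, oc, Int.natAbs_dvd, Nat.cast_mul, Nat.cast_mul]
    exact mul_dvd_mul (h.spt.dsc h.eq).2.1 ((Int.dvd_natAbs.mpr dvd_rfl).mul_left _)
  have hk := hu (-1) isCoprime_one_left.neg_left
  have al : ∀ {D β T}, D < 0 → FReps D β T → ∀ Q, Q ∈ T ∨ Q ∈ T.image cj →
      pt (froot Q) ∈ Alg W15 := fun k j Q hQ => j.alg k (mem_union.mpr hQ)
  have q := fun {β β' S T} (k : FReps (-(n * e ^ 2)) β S) (j : FReps (b * x * lv e ^ 2) β' T) =>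
    ht_point (p1 k) j hD' (wt_wU ok' β') (p2 j).deg hn
  obtain ⟨s1, t1⟩ := q hT hT'
  obtain ⟨s2, t2⟩ := q hT hT'.cj.1
  obtain ⟨s3, t3⟩ := q hT.cj.1 hT'
  obtain ⟨s4, t4⟩ := q hT.cj.1 hT'.cj.1
  refine ⟨_, ((t1.add (t2.const_mul (kap e b (-1) : ℝ))).add ((t3.add
    (t4.const_mul (kap e b (-1) : ℝ))).const_mul (kap e b (-1) : ℝ))).congr' ?_, fun l hl k => ?_⟩
  · filter_upwards [self_mem_nhdsWithin] with ε hε
    refine (((s1 ε hε).hasSum.add ((s2 ε hε).hasSum.mul_left _)).add (((s3 ε hε).hasSum.add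
      ((s4 ε hε).hasSum.mul_left _)).mul_left _)).tsum_eq.symm.trans (tsum_congr fun s => ?_)
    have k3 := ht_cj (D' := b * x * lv e ^ 2) hT e b (ρ' * lv e) (-s)
    have k4 := ht_cj (D' := b * x * lv e ^ 2) hT e b (-(ρ' * lv e)) (-s)
    rw [neg_neg] at k4
    rw [ht_neg ok' _ (s : ℤ), Int.cast_mul (-(n * e ^ 2))]
    unfold wU at k3 k4 ⊢
    rw [k3, k4, ← mul_assoc, ← mul_assoc, ← add_mul, ← add_mul, ← mul_assoc, ← add_mul]
    congr 1
    generalize kap e b (-1) = κ at hk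
    norm_cast
    linear_combination cntP T (gw e b) (fun R => if Fam (b * x * lv e ^ 2) (ρ' * lv e) R then
      uw e b R else 0) (-s) * hk
  · have := height_two (p1 hT) (p1 hT.cj.1) (p2 hT') (p2 hT'.cj.1) hn (al hD hT) (al hD' hT')
      ((galW_gw hD ok).two hN hT hD hm hu) ((galW_uw hD' ok').two hN hT' hD' hm hu)
      (fun s => hu _ (Gal.exists_pow_zeta s hN).choose_spec.1) (p := l) (by
        by_cases j : l ∣ 15
        · exact .inr ⟨j, ht_one h t hT hl j, ht_one h t hT.cj.1 hl j⟩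
        · exact .inl ⟨j, k.resolve_left j⟩)
    rw [hW, hU, ht_sy hT hD (gw_cj e b), ht_sy hT' hD' (uw_cj e b)]
    convert this using 1
    ring

end Pool.Agent.Lib.MP_696deb_nt.B3
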