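import Pool.Agent.Lib.MP_696deb_nt.B3.LNd

/-! The logarithmic terms that come from the crossings of lines and geodesics. -/

set_option autoImplicit false

open scoped Classical
open Finset NumberTheorySymbols

namespace Pool.Agent.Lib.MP_696deb_nt.B3

open B2

variable {δ m e a b x β ρ ρ' s M : ℤ} {n A B X l : ℕ} {T T' : Finset Fm}

theorem jac_div15 (hn : Good n) (hρ : 60 ∣ ρ ^ 2 + n) {g : ℕ} (hg : g ∣ 15) :
    J((g : ℤ) | n) = 1 := by
  rw [← Nat.prod_primeFactors_of_squarefree (Squarefree.squarefree_of_dvd hg (by decide +kernel)),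
    Nat.cast_prod]
  refine prod_induction _ (fun z : ℤ => J(z | n) = 1) (fun u v h1 h2 => by
    rw [jacobiSym.mul_left, h1, h2, mul_one]) (jacobiSym.one_left n) fun p hp => ?_
  have h1 := Nat.prime_of_mem_primeFactors hp
  have h2 := (Nat.dvd_of_mem_primeFactors hp).trans hg
  exact jac_of_split hn h1 (fun j => h1.one_lt.ne' (Nat.eq_one_of_dvd_coprimes hn.cop j h2))
    ((mul_dvd_mul_left 4 (Int.natCast_dvd_natCast.2 h2)).trans hρ)

theorem ln_sign (h : Dsc δ m e) (hn : Good (A * B)) (hρ : 60 ∣ ρ ^ 2 + (A * B : ℕ))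
    (hA : A.Coprime X) {D : ℤ} (hM : 60 * M = s ^ 2 - (e * lv e) ^ 2 * D)
    (hM' : 60 * M = s ^ 2 - B ^ 2 * (A * X)) (h0 : M < 0)
    (hg : ((e.natAbs.gcd 15 : ℕ) : ℤ) ∣ s) (h1 : lnL e s ≠ 0) :
    ∑ z ∈ M.divisorsAntidiag, (if lnH e s z.1 then muW B A s z.1 z.2 else 0) * z.1.sign = 0 := by
  have g15 := Nat.gcd_dvd_right e.natAbs 15
  have g0 : (0 : ℤ) < (e.natAbs.gcd 15 : ℕ) :=
    Int.natCast_pos.2 (Nat.pos_of_dvd_of_pos g15 (by norm_num))
  have h2 := jac_div15 hn hρ g15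
  have h3 : J(15 | A * B) = 1 := jac_div15 hn hρ dvd_rfl
  simp only [ite_mul, zero_mul, ← sum_filter]
  have ex : ∀ z ∈ M.divisorsAntidiag.filter fun z => lnH e s z.1, ∃ u w, lnH e s u ∧ lnH e s w ∧
      u * ((e.natAbs.gcd 15 : ℕ) * w) = M ∧ z = (u, (e.natAbs.gcd 15 : ℕ) * w) := by
    rintro ⟨u, v⟩ hz
    obtain ⟨k1, k2⟩ := mem_filter.1 hz
    obtain ⟨rfl, -⟩ := Int.mem_divisorsAntidiag.mp k1
    obtain ⟨w, rfl, k3, -⟩ := lnH_other h hM hg h1 k2
    exact ⟨u, w, k2, k3, rfl, rfl⟩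
  generalize ((e.natAbs.gcd 15 : ℕ) : ℤ) = g at ex g0 h2
  have key : ∀ z ∈ M.divisorsAntidiag.filter fun z => lnH e s z.1, muW B A s z.1 z.2 * z.1.sign +
      muW B A s (z.2 / g) (g * z.1) * (z.2 / g).sign = 0 := fun z hz => by
    obtain ⟨u, w, -, -, rfl, rfl⟩ := ex z hz
    simp only [Int.mul_ediv_cancel_left _ g0.ne']
    rw [← gzb_scale hn h2 s w u, gzb_swap hn h3 hA hM', ← mul_add]
    rw [mul_left_comm] at h0
    rcases mul_neg_iff.mp (neg_of_mul_neg_right h0 g0.le) with ⟨k1, k2⟩ | ⟨k1, k2⟩ <;>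
      simp [Int.sign_eq_one_of_pos, Int.sign_eq_neg_one_of_neg, k1, k2]
  refine sum_involution (fun z _ => (z.2 / g, g * z.1)) key (fun z hz k1 k2 => k1 ?_)
    (fun z hz => ?_) fun z hz => ?_
  · have := key z hz
    rwa [show z.2 / g = z.1 from congr_arg Prod.fst k2, show g * z.1 = z.2 from congr_arg Prod.snd k2,
      add_self_eq_zero] at this
  all_goals obtain ⟨u, w, k1, k2, k3, rfl⟩ := ex z hz
  · simp only [Int.mul_ediv_cancel_left _ g0.ne']
    exact mem_filter.2 ⟨Int.mem_divisorsAntidiag.2 ⟨by rw [← k3]; ring, h0.ne⟩, k2⟩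
  · simp only [Int.mul_ediv_cancel_left _ g0.ne']

theorem val_eq_of (hl : l.Prime) {c y z : ℤ} (hc : c ≠ 0) (hy : ¬ (l : ℤ) ∣ y)
    (hz : ¬ (l : ℤ) ∣ z) : padicValInt l (c * y) = padicValInt l (c * z) := by
  have := Fact.mk hl
  rw [padicValInt.mul hc (by rintro rfl; simp at hy), padicValInt.mul hc (by rintro rfl; simp at hz),
    padicValInt.eq_zero_of_not_dvd hy, padicValInt.eq_zero_of_not_dvd hz]

theorem ln_val (h : Dsc δ m e) (hl : l.Prime) (hle : (l : ℤ) ∣ e) {u v D : ℤ}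
    (hM : 60 * (u * v) = s ^ 2 - (e * lv e) ^ 2 * D) (hg : ((e.natAbs.gcd 15 : ℕ) : ℤ) ∣ s)
    (h1 : lnL e s ≠ 0) (hu : lnH e s u) : padicValInt l v = padicValInt l (15 * u) := by
  obtain ⟨w, rfl, k1, k2⟩ := lnH_other h hM hg h1 hu
  obtain ⟨g', k3, k4, -⟩ := h.shape
  have hP := Nat.prime_iff_prime_int.1 hl
  have g0 : ((e.natAbs.gcd 15 : ℕ) : ℤ) ≠ 0 := left_ne_zero_of_mul (k3.trans_ne (by norm_num))
  rw [← k3, mul_assoc]
  rcases eq_or_ne l 2 with rfl | l2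
  · obtain ⟨c, y, z, c0, rfl, rfl, k5, k6⟩ := k2 hle
    rw [mul_left_comm g', ← mul_assoc, ← mul_assoc _ c]
    exact val_eq_of hl (mul_ne_zero g0 c0) k6
      (odd_mul_of (Int.prime_two.coprime_iff_not_dvd.1 (ln_two k3).2) k5)
  have h4 : l ∣ 2 ^ 3 * 15 := Int.natCast_dvd_natCast.1 (hle.trans (h.spt.dsc h.eq).2.1)
  have h5 : (l : ℤ) ∣ (e.natAbs.gcd 15 : ℕ) := Int.natCast_dvd_natCast.2 (Nat.dvd_gcd
    (Int.natCast_dvd.1 hle) ((hl.dvd_mul.1 h4).resolve_left fun k =>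
      l2 ((Nat.prime_dvd_prime_iff_eq hl Nat.prime_two).1 (hl.dvd_of_dvd_pow k))))
  exact val_eq_of hl g0 (fun j => hP.not_isUnit (k1.1.isUnit_of_dvd' j h5))
    fun j => hP.not_isUnit ((k4.symm.mul_left hu.1).isUnit_of_dvd' j h5)

theorem ln_vals (h : Dsc δ m e) (t : Tri a b x n ρ) (hx : IsCoprime a x) (hl : l.Prime)
    (hc : (l : ℤ) ∣ e ∨ J((l : ℤ) | n) = 1 ∨ ((l : ℤ) ∣ b ∧ (l : ℤ) ∣ x) ∨
      (¬ (l : ℤ) ∣ n * x ∧ ∃ y : ℤ, 4 * (l : ℤ) ∣ y ^ 2 - b * x))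
    (hM : 60 * M = s ^ 2 - (cn e b : ℤ) ^ 2 * (a * x * lv e ^ 2)) (h0 : M < 0)
    (hg : ((e.natAbs.gcd 15 : ℕ) : ℤ) ∣ s) (h1 : lnL e s ≠ 0) :
    ∑ z ∈ M.divisorsAntidiag, (if lnH e s z.1 then muW b.natAbs a.natAbs s z.1 z.2 else 0) *
      z.1.sign * (padicValInt l z.2 - padicValInt l (15 * z.1)) = 0 := by
  have := Fact.mk hl
  have hP := Nat.prime_iff_prime_int.1 hl
  obtain ⟨ca, cb, -, hn⟩ := t.cls
  have gn : Good (a.natAbs * b.natAbs) := hn ▸ t.good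
  rw [cn, Int.natAbs_sq] at hM
  have hM1 : 60 * M = s ^ 2 - (e * lv e) ^ 2 * (b ^ 2 * (a * x)) := by rw [hM]; ring
  by_cases hle : (l : ℤ) ∣ e
  · refine sum_eq_zero fun z hz => ?_
    split_ifs with j
    · rw [ln_val h hl hle ((Int.mem_divisorsAntidiag.mp hz).1 ▸ hM1) hg h1 j, sub_self, mul_zero]
    · rw [zero_mul, zero_mul]
  have hlv : ∀ {c : ℤ}, IsCoprime c e → IsCoprime c (e * lv e) := fun {c} j => by
    have i : IsCoprime c e.natAbs := j.of_isCoprime_of_dvd_right (Int.natAbs_dvd.2 dvd_rfl)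
    rw [lv]
    split_ifs with k
    exacts [j.mul_right ((j.of_isCoprime_of_dvd_right k).mul_right i), j.mul_right i]
  have hl1 := hP.coprime_iff_not_dvd.2 hle
  have hl2 := hP.coprime_iff_not_dvd.1 (hlv hl1)
  have h30 := Tern.Good.coprime30 gn
  have ae : IsCoprime a e := by
    have i : IsCoprime a 30 := Int.isCoprime_iff_gcd_eq_one.2 h30.coprime_mul_right
    exact (i.pow_right (n := 3)).of_isCoprime_of_dvd_right
      ((h.spt.dsc h.eq).2.1.trans (by norm_num))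
  have h2 := ln_sign h gn (hn ▸ t.root) (X := (x * (e * lv e) ^ 2).natAbs)
    (Int.isCoprime_iff_gcd_eq_one.1 (hx.mul_right (hlv ae).pow_right)) hM1 (by
      rw [← Nat.cast_mul, ← Int.natAbs_mul, Int.natAbs_sq, ← mul_assoc a,
        Int.natAbs_of_nonneg (mul_nonneg t.pos.le (sq_nonneg _)), hM1]
      ring) h0 hg h1
  have h3 : ∑ z ∈ M.divisorsAntidiag, (if lnH e s z.1 then muW b.natAbs a.natAbs s z.1 z.2 else 0) *
      z.1.sign * (padicValInt l z.2 - padicValInt l z.1) = 0 := by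
    by_cases h5 : J((l : ℤ) | n) = 1
    · exact ln_split hl (μ := fun u v => if lnH e s u then muW b.natAbs a.natAbs s u v else 0)
        (fun u v => if_congr (lnH_mul hl1) (gzb_scale gn (hn ▸ h5) s u v) rfl) M
    refine sum_eq_zero fun z hz => ?_
    obtain ⟨h6, -⟩ := Int.mem_divisorsAntidiag.mp hz
    rcases (hc.resolve_left hle).resolve_left h5 with ⟨k1, k2⟩ | ⟨k1, y, k2⟩
    · have k3 : l ∣ b.natAbs := Int.natCast_dvd.1 k1
      by_cases h7 : muP l s z.1 z.2 = 0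
      · rw [muW, prod_eq_zero (Nat.mem_primeFactors.mpr ⟨hl, k3, gn.sqf.of_mul_right.ne_zero⟩) h7,
          zero_mul, ite_self, zero_mul, zero_mul]
      obtain ⟨b, rfl⟩ := k1
      obtain ⟨x, rfl⟩ := k2
      rw [ln_ram hl (h30.coprime_mul_left.coprime_dvd_left k3)
        (c := (e * lv e) ^ 2 * (b ^ 2 * (a * x))) (fun j => ?_) (by rw [h6, hM1]; ring) h7,
        sub_self, mul_zero]
      rcases hP.dvd_or_dvd j with j | j
      · exact hl2 (hP.dvd_of_dvd_pow j)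
      rcases hP.dvd_or_dvd j with j | j
      · exact hP.not_isUnit (cb.sqf l (mul_dvd_mul_left _ (hP.dvd_of_dvd_pow j)))
      rcases hP.dvd_or_dvd j with j | j
      · exact hP.not_isUnit (hx.isUnit_of_dvd' j (dvd_mul_right _ _))
      · exact hP.not_isUnit (t.cx.sqf l (mul_dvd_mul_left _ j))
    · have h7 := ln_inert t.good t.mul hl (fun j => k1 (j.mul_right _)) (N := e * lv e * b)
        (fun j => ?_) k2 h5 (M := M) (t := s) (by rw [hM1]; ring)
      · rw [padicValInt.eq_zero_of_not_dvd fun j => h7 (h6 ▸ j.mul_left _),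
          padicValInt.eq_zero_of_not_dvd fun j => h7 (h6 ▸ j.mul_right _), sub_self, mul_zero]
      rcases hP.dvd_or_dvd j with j | j
      · rcases hP.dvd_or_dvd j with j | j
        · exact hl2 j
        · exact k1 (Dvd.dvd.mul_right (dvd_neg.1 (t.mul ▸ j.mul_left a)) _)
      · exact k1 (j.mul_left _)
  have h4 := congr_arg₂ (fun u v : ℤ => u - v * padicValInt l 15) h3 h2
  simp only [sum_mul, ← sum_sub_distrib, zero_mul, sub_zero] at h4
  refine (sum_congr rfl fun z hz => ?_).trans h4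
  obtain ⟨h6, h7⟩ := Int.mem_divisorsAntidiag.mp hz
  rw [padicValInt.mul (by norm_num) (left_ne_zero_of_mul (h6 ▸ h7))]
  push_cast
  ring

theorem log_terms3 (h : Dsc δ m e) (t : Tri a b x n ρ) (hx : IsCoprime a x) (β : ℤ) {l : ℕ}
    (hl : l.Prime) (hc : (l : ℤ) ∣ e ∨ J((l : ℤ) | n) = 1 ∨ ((l : ℤ) ∣ b ∧ (l : ℤ) ∣ x) ∨
      (¬ (l : ℤ) ∣ n * x ∧ ∃ y : ℤ, 4 * (l : ℤ) ∣ y ^ 2 - b * x)) :
    (∑ k ∈ Ico (0 : ℤ) (cn e b), (kap e b k : ℝ) * ∑ᶠ R : Fm, if R.1 * fval R k (cn e b) < 0 then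
      (wX e a x β R * R.1.sign : ℝ) *
        (Real.log |(fval R k (cn e b) : ℝ)| - Real.log |(R.1 : ℝ)|) / 2 else 0) ∈ LogS l := by
  obtain ⟨ca, cb, -, hn⟩ := t.cls
  have hw : Wt (wX e a x β) (a * x * lv e ^ 2) := wt_wU (h.gOk ca
    (mul_dvd_mul (dvd_mul_right _ _) (pow_dvd_pow_of_dvd (dvd_lv e) 2))) _
  let φ : ℤ → ℤ → ℝ := fun u v => u.sign * (Real.log v - Real.log (15 * u : ℤ)) / 2
  obtain ⟨N, hN⟩ : ∃ N : ℤ, N = cn e b := ⟨_, rfl⟩
  obtain ⟨D, hD⟩ : ∃ D : ℤ, D = a * x * lv e ^ 2 := ⟨_, rfl⟩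
  rw [← hN]
  rw [← hD] at hw
  set S : Finset ℤ := (Icc (-(N ^ 2 * D)) (N ^ 2 * D)).filter fun s => s ^ 2 < N ^ 2 * D with hS
  have hTm : ∀ s, s ∈ S ↔ s ^ 2 < N ^ 2 * D := fun s => by
    rw [hS, mem_filter, mem_Icc, and_iff_right_iff_imp, ← abs_le]
    intro h
    have := Int.le_self_sq |s|
    rw [sq_abs] at this
    linarith
  have h1 : ∀ k : ℤ, (∑ᶠ R : Fm, if R.1 * fval R k N < 0 then (wX e a x β R * R.1.sign : ℝ) *
      (Real.log |(fval R k N : ℝ)| - Real.log |(R.1 : ℝ)|) / 2 else 0) = ∑ s ∈ S, ∑ᶠ R : Fm,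
      if fbil (0, N, -k) R = s then (wX e a x β R : ℝ) * φ (R.1 / 15) (fval R k N) else 0 := by
    intro k
    have h2 : ∀ R, wX e a x β R ≠ 0 → (fbil (0, N, -k) R ∈ S ↔ R.1 * fval R k N < 0) :=
      fun R hR => by
        have := fbil_line N k R
        rw [hw.disc R hR] at this
        rw [hTm]
        constructor <;> intro h <;> linarith
    rw [← finsum_sum_comm _ _ fun s hs => (finite_cross (x := k) (y := N) hw).subset fun R hR => by
      have h3 : fbil (0, N, -k) R = s := by_contra fun h => hR (if_neg h)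
      have h4 : wX e a x β R ≠ 0 := fun h => hR (by simp [h])
      exact ⟨h4, (h2 R h4).mp (h3 ▸ hs)⟩]
    refine finsum_congr fun R => ?_
    rw [sum_ite_eq]
    by_cases h3 : wX e a x β R = 0
    · simp [h3]
    refine if_ctx_congr (h2 R h3).symm (fun h4 => ?_) fun _ => rfl
    obtain ⟨c, ha⟩ := (fam_of_wU h3).1
    simp only [φ, ha, Int.mul_ediv_cancel_left _ (by norm_num : (15 : ℤ) ≠ 0), Real.log_abs,
      Int.sign_mul]
    rw [show Int.sign 15 = 1 from rfl, one_mul]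
    ring
  simp only [h1, mul_sum]
  rw [sum_comm]
  refine Submodule.sum_mem _ fun s hs => ?_
  by_cases h2 : 30 ∣ s - N * (β * lv e) ∧ 60 ∣ s ^ 2 - N ^ 2 * D
  swap
  · convert (LogS l).zero_mem
    refine sum_eq_zero fun k _ => mul_eq_zero_of_right _ (finsum_eq_zero_of_forall_eq_zero fun R =>
      ite_eq_right_iff.mpr fun h3 => mul_eq_zero_of_left (Int.cast_eq_zero.mpr (by_contra fun h4 =>
        h2 ?_)) _)
    obtain ⟨⟨c, ha⟩, h5, j, hj⟩ := fam_of_wU h4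
    refine ⟨⟨N * j + k * c, ?_⟩, c * fval R k N, by rw [← h3, hD, ← h5, fbil_line, ha]; ring⟩
    simp only [fbil] at h3
    linear_combination -h3 + N * hj + 2 * k * ha
  obtain ⟨h2, M, hM⟩ := h2
  have h3 : M < 0 := by have := (hTm s).mp hs; omega
  subst hN hD
  rw [wX, sum_lines3 h (mul_comm a.natAbs _ ▸ hn ▸ t.good) (dvd_mul_right a x) hM.symm h3.ne h2]
  by_cases h4 : lnL e s = 0
  · simp [h4]
  have h5 := ln_vals h t hx hl hc hM.symm h3 ((dvd_sub_left (Dvd.dvd.mul_right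
    (Int.natCast_dvd_natCast.2 ((Nat.gcd_dvd_left _ _).trans ⟨_, Int.natAbs_mul e b⟩)) _)).1
      ((Int.natCast_dvd_natCast.2 ((Nat.gcd_dvd_right _ 15).mul_left 2)).trans h2)) h4
  convert Submodule.sum_mem _ (t := M.divisorsAntidiag) fun z _ => LogS.rat_mul
    ((lnL e s * J(15 | a.natAbs) * ((if lnH e s z.1 then muW b.natAbs a.natAbs s z.1 z.2 else 0) *
      z.1.sign) : ℤ) / 2) (sub_mem (log_int_sub_mem hl z.2) (log_int_sub_mem hl (15 * z.1))) using 1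
  replace h5 := congr_arg
    (fun z : ℤ => (z : ℝ) * ((lnL e s * J(15 | a.natAbs) : ℤ) * Real.log l / 2)) h5
  simp only [Int.cast_sum, sum_mul, Int.cast_zero, zero_mul] at h5
  rw [← add_zero (∑ _ ∈ _, ((_ : ℚ) : ℝ) * _), ← h5, ← sum_add_distrib]
  refine sum_congr rfl fun z _ => ?_
  simp only [φ]
  split_ifs
  · push_cast
    ring
  · simp

end Pool.Agent.Lib.MP_696deb_nt.B3
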