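import Pool.Agent.Lib.MP_696deb_nt.B3.P5
import Pool.Agent.Lib.MP_696deb_nt.B3.P7
import Pool.Agent.Lib.MP_696deb_nt.B2.GZa

/-! Equal counts of pairs of points and of pairs of lines and geodesics. -/

set_option autoImplicit false

open scoped Classical
open Finset NumberTheorySymbols

namespace Pool.Agent.Lib.MP_696deb_nt.B3

open B2

variable {δ m e a b x β ρ ρ' D E t : ℤ} {n A B : ℕ} {T T' : Finset Fm} {Q R : Fm}

theorem smb_cntL (hn : Good (A * B)) {M : ℕ} (h0 : 0 < M) (hD : (A : ℤ) ∣ D)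
    (hM : t ^ 2 - B ^ 2 * D = 60 * M) :
    cntL B (Ico (0 : ℤ) B) (fun k => J(k | B)) (wG A D β) t =
      if 30 ∣ t - B * β then 2 * (J(-15 | B) * J(15 | A)) * CF (A * B) B t M else 0 := by
  split_ifs with h
  swap
  · exact sum_eq_zero fun k _ => mul_eq_zero_of_right _ (finsum_eq_zero_of_forall_eq_zero fun R =>
      ite_eq_right_iff.mpr fun h3 => by rw [wG_eq_zero h h3, zero_mul])
  have h1 := sum_lines (K := ℤ) (A := B) (B := A) (mul_comm A B ▸ hn) hD hM.symm (by omega)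
    h fun a _ => a.sign
  have h2 := sum_muW (A := B) (B := A) (t := t) (M := M) (mul_comm A B ▸ hn) ⟨D, by linarith⟩
  rw [Int.divisorsAntidiag_natCast, sum_disjUnion, sum_map, sum_map, ← sum_add_distrib,
    sum_congr rfl (g := fun z : ℕ × ℕ => 2 * muW B A t z.1 z.2) fun z hz => by
      have : (0 : ℤ) < z.1 := mod_cast Nat.pos_of_mem_divisors
        (Nat.fst_mem_divisors_of_mem_antidiagonal hz)
      simp [gza_neg_neg hn, Int.sign_eq_one_of_pos this, two_mul], ← mul_sum, h2,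
    mul_comm B A] at h1
  rw [cntL, sum_Ico_zero]
  refine Eq.trans (sum_congr rfl fun k _ => congr_arg _ (finsum_congr fun R => ?_))
    (h1.trans (by ring))
  by_cases h3 : wG A D β R = 0
  · simp [h3]
  obtain ⟨a, ha⟩ := (fam_of_wG h3).1
  simp [ha, Int.sign_mul, show Int.sign 15 = 1 from rfl]

/-- The counts for trivial conductor. -/
theorem smb_old (hn : Good (A * B)) (hρ : 60 ∣ ρ ^ 2 + (A * B : ℕ)) (h : 30 ∣ B * β - ρ * ρ')
    (hT : FReps (-(A * B : ℕ)) ρ T) (hD : (A : ℤ) ∣ D) (hE : (B : ℤ) ∣ E)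
    (he : -(A * B : ℕ) * E = B ^ 2 * D) (ht : B ^ 2 * D < t ^ 2) :
    cntL B (Ico (0 : ℤ) B) (fun k => J(k | B)) (wG A D β) t =
      J(-15 | B) * J(15 | A) * (2 * cntP T (gch B) (wG B E ρ') t) := by
  by_cases h2 : 60 ∣ t ^ 2 - B ^ 2 * D
  swap
  · have k1 : cntP T (gch B) (wG B E ρ') t = 0 := sum_eq_zero fun Q hQ =>
      mul_eq_zero_of_right _ (finsum_eq_zero_of_forall_eq_zero fun R => ite_eq_right_iff.mpr
        fun h3 => if_neg fun h4 => h2 (by rw [← he, ← h3]; exact ((hT.fam Q hQ).fbil h4).2))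
    rw [k1, mul_zero, mul_zero]
    exact sum_eq_zero fun k _ => mul_eq_zero_of_right _ (finsum_eq_zero_of_forall_eq_zero fun R =>
      ite_eq_right_iff.mpr fun h3 => mul_eq_zero_of_left (if_neg fun ⟨⟨a, ha⟩, h5, _⟩ =>
        h2 ⟨a * fval R k B, by rw [← h3, ← h5, fbil_line, ha]; ring⟩) _)
  obtain ⟨M, hM⟩ := h2
  lift M to ℕ using by omega
  have h3 : 0 < M := by omega
  rw [smb_cntL hn h3 hD hM, cntP_eq hn (dvd_mul_left B A) hρ hT hE h3 (by linarith),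
    if_congr (Q := 30 ∣ t - ρ * ρ') (by omega) rfl rfl]
  split_ifs <;> ring

theorem gw_neg' (ho : Squarefree (oc e a)) (Q : Fm) : gw e a (-Q) = kap e a (-1) * gw e a Q := by
  have h1 : g2 e (-Q) = k2 e (-1) * g2 e Q := by
    rw [g2, g2, ← k2_mul]
    simp only [Prod.fst_neg, Prod.snd_neg, dvd_neg]
    split_ifs <;> rw [neg_one_mul]
  have h2 : gch (oc e a) (-Q) = J(-1 | oc e a) * gch (oc e a) Q := by
    rw [gch, gch, jac_eq_prod _ ho, ← prod_mul_distrib]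
    refine prod_congr rfl fun p _ => ?_
    simp only [Prod.fst_neg, Prod.snd_neg, dvd_neg]
    split_ifs <;> rw [← jacobiSym.mul_left, neg_one_mul]
  rw [oc] at h2
  rw [gw, gw, h1, h2, kap, oc]
  ring

theorem smb_neg (ho : Squarefree (oc e a)) (u : Fm → ℤ) :
    cntP T u (wU e a E β) (-t) = kap e a (-1) * cntP T u (wU e a E (-β)) t := by
  rw [cntP, cntP, mul_sum]
  refine sum_congr rfl fun Q _ => ?_
  rw [mul_left_comm, mul_finsum, mul_finsum, mul_finsum, ← finsum_comp_equiv (Equiv.neg Fm)]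
  refine finsum_congr fun R => congrArg _ ?_
  rw [mul_ite, mul_zero, wU, wU, mul_ite, mul_zero]
  refine if_congr ?_ (if_ctx_congr ?_ (fun k => ?_) fun _ => rfl) rfl
  · rw [show fbil Q (Equiv.neg Fm R) = -fbil Q R by simp [fbil]; ring, neg_inj]
  · simp only [Fam, fdisc, Equiv.neg_apply, Prod.fst_neg, Prod.snd_neg]
    exact and_congr dvd_neg (and_congr (by rw [neg_sq, mul_neg 4, neg_mul_neg]) (by omega))
  · rw [uw, uw, ← gw_neg' ho]
    obtain ⟨_, y, z⟩ := R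
    obtain ⟨x, rfl⟩ := k.1
    congr 1
    simp [fV, ← mul_neg]

theorem smb_line (ho : Squarefree (oc e b)) (D k : ℤ) :
    gw e b (0, D, -k) = kap e b (-1) * kap e b k := by
  have : gw e b (0, -D, k) = kap e b k := by
    rw [gw, g2, if_pos (dvd_zero _), kap, jac_eq_prod _ ho]
    exact congrArg _ (prod_congr rfl fun p _ => if_pos (dvd_zero _))
  rw [← this, ← gw_neg' ho]
  simp

theorem smb_jac (hn : Good (A * B)) (hρ : 60 ∣ ρ ^ 2 + (A * B : ℕ)) :
    J(3 | B) * J(3 | A) = 1 ∧ J(5 | B) * J(5 | A) = 1 := by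
  obtain ⟨r3, r5⟩ := Gal.not_dvd_r hn hρ
  have k : ∀ p : ℕ, p.Prime → p ∣ 15 → ¬ (p : ℤ) ∣ ρ → J(p | B) * J(p | A) = 1 := fun p hp h1 h2 => by
    rw [← jacobiSym.mul_right' _ hn.sqf.of_mul_right.ne_zero hn.sqf.of_mul_left.ne_zero, mul_comm B,
      ← Tern.jacobi_neg_swap hn.mod4 (Odd.of_dvd_nat (by decide) h1),
      jac_congr (v := ρ ^ 2) (dvd_sub_comm.1 (by
        rw [sub_neg_eq_add]
        exact Dvd.dvd.trans (by exact_mod_cast h1.trans (by norm_num : 15 ∣ 60)) hρ)),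
      jacobiSym.pow_left, jac_sq hp h2]
  exact ⟨k 3 Nat.prime_three (by norm_num) r3, k 5 Nat.prime_five (by norm_num) r5⟩

theorem smb_pcn (hA : 0 < A) (ht : t ^ 2 ≠ A ^ 2 * E) {u w : Fm → ℤ} {χ : ℤ → ℤ} {η : ℤ}
    (hu : ∀ Q R, Fam (A ^ 2) A Q → FEq Q R → u R = u Q)
    (hw : ∀ Q R, Fam E β Q → FEq Q R → w R = w Q)
    (hs : ∀ Q, Fam (A ^ 2) A Q → u Q ≠ 0 → IsCoprime Q.2.2 (A.gcd 15 : ℕ))
    (hχ : ∀ k, u (0, A, -k) = η * χ k) :
    pcn (A ^ 2) A E β t (fun Q R => u Q * w R * rsg Q R) =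
      η * cntL A (Ico (0 : ℤ) A) χ (fun R => if Fam E β R then w R else 0) t := by
  rw [pcn_lines hA ht (pinv_ptm fun Q R a b c d e h1 h2 => by
    rw [hu Q _ h1 ⟨a, b, c, d, e, rfl⟩, hw R _ h2 ⟨a, b, c, d, e, rfl⟩,
      (cm_rsg 1).inv Q R a b c d e h1.1 h2.1])
    fun Q R h1 h2 => hs Q h1 (left_ne_zero_of_mul (left_ne_zero_of_mul h2)), cntL, mul_sum]
  refine sum_congr rfl fun k _ => ?_
  rw [mul_finsum, mul_finsum]
  refine finsum_congr fun R => ?_
  rw [hχ, rsg, rv_one (by exact_mod_cast hA)]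
  by_cases h1 : fbil (0, A, -k) R = t <;> by_cases h2 : Fam E β R <;> simp [h1, h2, mul_assoc]

theorem match_B3 (h : Dsc δ m e) (t : Tri a b x n ρ) (hβ : 30 ∣ b.natAbs * β + ρ * ρ')
    (hT : FReps (-(n * e ^ 2)) (ρ * e.natAbs) T) :
    ∃ c : ℤ, (c = 1 ∨ c = -1) ∧ ∀ s : ℤ, (cn e b : ℤ) ^ 2 * (a * x * lv e ^ 2) < s ^ 2 →
      2 * cntP T (gw e b) (wU e b (b * x * lv e ^ 2) (ρ' * lv e)) (-s) =
        c * cntL (cn e b) (Ico (0 : ℤ) (cn e b)) (kap e b) (wX e a x β) s := by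
  obtain ⟨ha, hb, hx, hn⟩ := t.cls
  have g := t.good
  have root := t.root
  have ab := t.mul
  have e0 := h.ne_zero
  have d120 := (h.spt.dsc h.eq).2.1
  have okb : ∀ {D}, b * e ^ 2 ∣ D → GOk e b D := h.gOk hb
  have oka : GOk e a (a * x * lv e ^ 2) :=
    h.gOk ha (mul_dvd_mul (dvd_mul_right _ _) (pow_dvd_pow_of_dvd (dvd_lv e) 2))
  have okx : GOk e b (b * x * lv e ^ 2) :=
    okb (mul_dvd_mul (dvd_mul_right _ _) (pow_dvd_pow_of_dvd (dvd_lv e) 2))
  have sf := okx.sqf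
  have ec : (cn e b : ℤ) = b.natAbs * e.natAbs := by rw [cn, Int.natAbs_mul, mul_comm, Nat.cast_mul]
  have ec2 : (cn e b : ℤ) ^ 2 = b.natAbs ^ 2 * e ^ 2 := by rw [ec, mul_pow, Int.natAbs_pow_two e]
  have bb := Int.natAbs_pow_two b
  have ad : ∀ y, (a.natAbs : ℤ) ∣ a * y := fun y => (Int.natAbs_dvd.2 dvd_rfl).mul_right y
  have bd : ∀ y, (b.natAbs : ℤ) ∣ b * y := fun y => (Int.natAbs_dvd.2 dvd_rfl).mul_right y
  subst hn
  generalize hA : a.natAbs = A at *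
  generalize hB : b.natAbs = B at *
  have B0 : 0 < B := g.sqf.of_mul_right.ne_zero.bot_lt
  have c0 : 0 < cn e b := Int.natAbs_pos.2 (mul_ne_zero e0 hb.sqf.ne_zero)
  have j0 := fun p k => jacobiSym.sq_one (Int.isCoprime_iff_gcd_eq_one.1 (p6_cop g.adm_right p k))
  have j1 := gza_sq g.adm_right
  have A0 : 0 < A := g.sqf.of_mul_left.ne_zero.bot_lt
  have j2 : J(-1 | B) ^ 2 = 1 := jacobiSym.sq_one (by simp)
  have j3 := gza_sq g.adm_left
  have j4 : kap e b (-1) ^ 2 = 1 := (h.pchr hb).sq isCoprime_one_left.neg_left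
  have j5 : J(-15 | B) = J(-1 | B) * J(15 | B) := by rw [← jacobiSym.mul_left]; rfl
  obtain ⟨T₀, h₀⟩ := exists_freps g.neg ρ
  refine ⟨1, .inl rfl, fun s hs => ?_⟩
  obtain ⟨N, lam, u, s', N0, u0, -, k1, k2⟩ := transfer h s
  have hs' : s ^ 2 ≠ B ^ 2 * e ^ 2 * (a * x * lv e ^ 2) := by rw [← ec2]; exact hs.ne'
  have l1 := k2 (D := -(A * B : ℕ)) (ρ := ρ) (E := b * x) (β := -ρ')
    ((cm_pos1 e).mul (cm_gg g.adm_right g.adm_right d120
      ((pow_two _).symm.trans (j0 3 (by norm_num)))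
      ((pow_two _).symm.trans (j0 5 (by norm_num)))))
    (by have := g.mod4; omega) (Nat.isCoprime_iff_coprime.2 g.cop).neg_left (by rwa [sub_neg_eq_add])
    (.inl g.neg) (by rw [← ab]; convert hs' using 1; rw [bb]; ring)
  have l2 := k2 (D := B ^ 2) (ρ := B) (E := a * x) (β := β)
    ((cm_gg g.adm_right g.adm_left d120 (smb_jac g root).1 (smb_jac g root).2).mul (cm_rsg e))
    (by rw [bb, sq, Int.mul_emod, hb.m4]; rfl)
    (Nat.isCoprime_iff_coprime.2 g.adm_right.cop).pow_left (by simp) (.inr ⟨B, pow_two _⟩) hs'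
  rw [neg_mul, neg_mul, pcn_congr (W' := fun Q R => J(15 | B) * (ipos Q * (gw e b Q * uw e b R)))
    fun Q R hQ hR _ => ?_, pcn_mul, pcn_cntP (neg_neg_of_pos (by positivity)) hT
      (fun Q R k => gw_feq (k.2.1 ▸ okb ⟨a, by linear_combination -e ^ 2 * ab⟩))
      fun Q R k => uw_feq (k.2.1 ▸ okx) k.1,
    pcn_congr (W' := fun Q R => ipos Q * (gch B Q * gch B R)) fun Q R hQ hR _ => ?_,
    pcn_cntP g.neg h₀ (fun Q R k l => l.gch g.adm_right.odd (by rw [k.2.1]; simp))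
      fun Q R k l => l.gch g.adm_right.odd (by rw [k.2.1, mul_assoc]; exact bd _)] at l1
  rotate_left
  · rw [gg, if_pos ⟨by rw [hQ.2.1]; simp, by rw [hR.2.1, mul_assoc]; exact bd _⟩]
  · rw [gg, if_pos ⟨by rw [hQ.2.1]; simp [dvd_mul_of_dvd_left], by
      rw [hR.2.1, mul_assoc]; exact bd _⟩, gw_split hb, uw_split hb hR.1
      (by rw [hR.2.1, mul_assoc]; exact dvd_mul_right _ _), hB]
    linear_combination -(gw e 1 Q * uw e 1 R * ipos Q * gch B Q * gch B R) * j1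
  rw [← ec2, ← ec, pcn_congr (W' := fun Q R => J(15 | A) * (gw e b Q * uw e a R * rsg Q R))
    fun Q R hQ hR _ => ?_, pcn_mul, smb_pcn c0 hs.ne'
      (fun Q R k => gw_feq (k.2.1 ▸ okb ⟨b, by rw [ec2, bb]; ring⟩))
      (fun Q R k => uw_feq (k.2.1 ▸ oka) k.1) (fun Q k l => ?_) (smb_line sf _),
    pcn_congr (W' := fun Q R => gch B Q * gch A R * rsg Q R) fun Q R hQ hR _ => ?_] at l2
  rotate_left
  · rw [gg, if_pos ⟨by rw [hQ.2.1]; simp, by rw [hR.2.1, mul_assoc]; exact ad _⟩]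
  · rw [show (cn e b).gcd 15 = e.natAbs.gcd 15 by
      rw [cn, Int.natAbs_mul, hB, g.adm_right.cop.gcd_mul_right_cancel]]
    refine Int.isCoprime_iff_gcd_eq_one.2 (Nat.eq_one_iff_not_exists_prime_dvd.2 fun p hp j => ?_)
    replace j := Int.natCast_dvd_natCast.2 j
    have j' := Int.natCast_dvd_natCast.1 (j.trans (Int.gcd_dvd_right _ _))
    refine right_ne_zero_of_mul l (prod_eq_zero (Nat.mem_primeFactors.2
      ⟨hp, j'.mul_right _, sf.ne_zero⟩) ?_)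
    rw [if_pos (Dvd.dvd.trans (by exact_mod_cast j'.trans (Nat.gcd_dvd_right _ _)) k.1),
      jac_zero_of_dvd hp (j.trans (Int.gcd_dvd_left _ _))]
  · rw [gg, if_pos ⟨by rw [hQ.2.1, ec2]; simp [dvd_mul_of_dvd_left], by
      rw [hR.2.1, mul_assoc]; exact ad _⟩, gw_split hb, uw_split ha hR.1
      (by rw [hR.2.1, mul_assoc]; exact dvd_mul_right _ _), hA, hB]
    linear_combination -(gw e 1 Q * uw e 1 R * rsg Q R * gch B Q * gch A R) * j3
  rw [smb_neg sf, one_mul]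
  refine mul_left_cancel₀ N0.ne' ?_
  change N * (_ * cntP T _ (wU e b _ _) s) = lam * cntP T₀ _ (wG B _ _) s' at l1
  change N * (_ * (_ * cntL _ _ _ (wX e a x β) s)) = _ at l2
  generalize cntP T _ _ s = X at l1 ⊢
  generalize cntL _ _ _ (wX e a x β) s = Y at l2 ⊢
  by_cases l0 : lam = 0
  · rw [l0, zero_mul] at l1 l2
    linear_combination 2 * kap e b (-1) * J(15 | B) * l1 - kap e b (-1) * J(15 | A) * l2 -
      2 * N * kap e b (-1) * X * j1 + N * Y * kap e b (-1) ^ 2 * j3 + N * Y * j4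
  have lt : B ^ 2 * (a * x * u ^ 2) < s' ^ 2 := by
    have p : 0 < (lv e * e.natAbs) ^ 2 := pow_pos (mul_pos (lv_pos e0) (by positivity)) 2
    refine lt_of_mul_lt_mul_right ?_ p.le
    rw [← mul_pow, k1 l0, mul_pow s, mul_pow, Int.natAbs_pow_two]
    rw [ec2] at hs
    convert mul_lt_mul_of_pos_right hs (pow_pos u0 2) using 1
    ring
  rw [smb_pcn B0 lt.ne' (χ := fun k => J(k | B)) (η := J(-1 | B))
    (fun Q R k l => l.gch g.adm_right.odd (by rw [k.2.1]; simp))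
    (fun Q R k l => l.gch g.adm_left.odd (by rw [k.2.1, mul_assoc]; exact ad _))
    (fun Q _ _ => by rw [g.adm_right.cop]; exact isCoprime_one_right) fun k => by
      rw [← jacobiSym.mul_left, neg_one_mul, jac_eq_prod _ g.adm_right.sqf]
      exact prod_congr rfl fun p _ => if_pos (dvd_zero _)] at l2
  change _ = lam * (_ * cntL _ _ _ (wG A _ _) s') at l2
  rw [smb_old g root (ρ' := -ρ' * u) (E := b * x * u ^ 2)
    (Dvd.dvd.trans (hβ.mul_right u) ⟨1, by ring⟩) h₀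
    (mul_assoc a x _ ▸ ad _) (mul_assoc b x _ ▸ bd _) (by rw [← ab, bb]; ring) lt, j5] at l2
  generalize cntP T₀ _ _ s' = Z at l1 l2
  linear_combination 2 * kap e b (-1) * J(15 | B) * l1 - kap e b (-1) * J(15 | A) * l2 -
    2 * N * kap e b (-1) * X * j1 + N * Y * kap e b (-1) ^ 2 * j3 + N * Y * j4 -
    2 * lam * Z * kap e b (-1) * J(15 | B) * (J(15 | A) ^ 2 * j2 + j3)

end Pool.Agent.Lib.MP_696deb_nt.B3
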