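import Pool.Agent.Lib.MP_696deb_nt.B3.AX3
import Pool.Agent.Lib.MP_696deb_nt.B3.SHt
import Pool.Agent.Lib.MP_696deb_nt.B3.SMb
import Pool.Agent.Lib.MP_696deb_nt.B3.SLg
import Pool.Agent.Lib.MP_696deb_nt.B3.AL1
import Pool.Agent.Lib.MP_696deb_nt.B2.GZc

/-! The central derivative does not vanish. -/

set_option autoImplicit false

open scoped Classical ComplexConjugate
open Finset NumberTheorySymbols Filter Topology

namespace Pool.Agent.Lib.MP_696deb_nt.B3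

open B2

variable {δ m e a b d x D ρ ρ' : ℤ} {n : ℕ} {T T' : Finset Fm}

/-- The height pairing of two twisted points, when the derivative vanishes. -/
theorem gz3_log (h : Dsc δ m e) (t : Tri a b x n ρ) (hr : rootNo (δ * m * b) = -1)
    (hc : IsCoprime a x) (hs : ¬ IsSquare (a * x)) (hT : FReps (-(n * e ^ 2)) (ρ * e.natAbs) T)
    (hT' : FReps (b * x * lv e ^ 2) (ρ' * lv e) T') {l : ℕ} (hl : l.Prime)
    (h1 : l ∣ 15 ∨ SplitAt l (b * x * lv e ^ 2))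
    (h2 : (l : ℤ) ∣ e ∨ J((l : ℤ) | n) = 1 ∨ ((l : ℤ) ∣ b ∧ (l : ℤ) ∣ x) ∨
      (¬ (l : ℤ) ∣ n * x ∧ ∃ y : ℤ, 4 * (l : ℤ) ∣ y ^ 2 - b * x))
    (h0 : deriv (LD (δ * m * b)) 1 = 0) :
    hpair (Unif.u15 (sy e b (hW e b T))) (Unif.u15 (sy e b (hU e b T'))) ∈ LogS l := by
  obtain ⟨ha, hb, -, -⟩ := t.cls
  obtain ⟨β, hβ⟩ : ∃ β : ℤ, 30 ∣ b.natAbs * β + ρ * ρ' := by
    have b4 := hb.m4
    obtain ⟨u, v, k⟩ : IsCoprime (b.natAbs : ℤ) (2 * 15) := IsCoprime.mul_right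
      (Int.prime_two.coprime_iff_not_dvd.2 (by omega)).symm
      (Nat.isCoprime_iff_coprime.2 (cls_cop hb))
    exact ⟨-(u * (ρ * ρ')), v * (ρ * ρ'), by linear_combination -(ρ * ρ') * k⟩
  obtain ⟨X, hx, hh⟩ := height3 h t hr hs hT hT'
  obtain ⟨κ, hκ⟩ := geo_X h ha t.pos hs β
  obtain ⟨c, -, hm⟩ := match_B3 h t hβ hT
  have pc := h.pchr hb
  have A0 : (0 : ℤ) < cn e b := by exact_mod_cast Nat.pos_of_ne_zero pc.ne
  have l0 := lv_pos h.ne_zero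
  have hg := (geo_line3 hκ A0 (S := Ico (0 : ℤ) (cn e b)) (χ := kap e b)
    (by rw [sum_Ico_zero, pc.sum_zero (h.one_lt hb)]) (fun k _ hk => pc.cop hk)
    (fun k _ _ R hR => fval_ne (fun j => hs (isSquare_of_mul_sq l0.ne' j)) (hκ.disc R hR)
      (.inr A0.ne'))
    (by rw [sum_Ico_zero, h.cn hb, h.kap hb.m4]; exact perD_eq_zero (h.sqf hb) hr)).2
  have h3 : deriv (fun s => ∑ k ∈ Ico (0 : ℤ) (cn e b), (kap e b k : ℂ) * Ladd k (cn e b) s) 1 =
      0 := by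
    simp only [sum_Ico_zero]
    rw [h.cn hb, h.kap hb.m4]
    exact h0
  rw [h3, mul_zero, Complex.zero_re, zero_sub] at hg
  have e1 : -((n : ℤ) * e ^ 2) * (b * x * lv e ^ 2) = (cn e b : ℤ) ^ 2 * (a * x * lv e ^ 2) := by
    rw [(t.neg h.ne_zero).2.2, cn, Int.natAbs_sq]
    ring
  have e2 : √((-(n * e ^ 2) * (b * x * lv e ^ 2) : ℤ) : ℝ) =
      ((cn e b : ℤ) : ℝ) * √((a * x * lv e ^ 2 : ℤ) : ℝ) := by
    rw [e1, Int.cast_mul, Int.cast_pow, Real.sqrt_mul (sq_nonneg _), Real.sqrt_sq (by positivity)]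
  obtain rfl := tendsto_nhds_unique hx ((hg.const_mul (c : ℝ)).congr fun ε => by
    rw [← tsum_mul_left]
    refine tsum_congr fun s => ?_
    rw [e2]
    by_cases k : (cn e b : ℤ) ^ 2 * (a * x * lv e ^ 2) < (s : ℤ) ^ 2
    · have k1 := hm (-s) (by rwa [neg_sq])
      rw [neg_neg] at k1
      rw [hm s k, k1, ← mul_add, Int.cast_mul c, mul_assoc (c : ℝ)]
    · rw [kerK, if_neg, mul_zero, mul_zero, mul_zero]
      rw [← e2, not_lt]
      refine div_le_one_of_le₀ (Real.le_sqrt_of_sq_le ?_) (Real.sqrt_nonneg _)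
      exact_mod_cast (not_lt.mp k).trans_eq e1.symm)
  have k := add_mem (hh l hl h1) (LogS.int_mul (2 * c) (log_terms3 h t hc β hl h2))
  convert k using 1
  push_cast
  ring

theorem tq_conj {z w : ℂ} (h : tq z = tq w) : tq (conj z) = tq (conj w) := by
  rw [tq_eq] at h ⊢
  obtain ⟨N, u, v, h0, k⟩ := h
  refine ⟨N, u, -v, h0, ?_⟩
  have := congrArg conj k
  simp only [map_mul, map_add, map_natCast, map_intCast, Complex.conj_ofReal, Complex.conj_I,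
    map_sub] at this
  rw [this]
  push_cast
  ring

theorem tq_sy (h : Dsc δ m e) (hb : Cls0 b) (hr : rootNo (δ * m * b) = -1) (ok : GOk e b D)
    (hD : D < 0) (hρ : m ∣ ρ) (hT : FReps D ρ T) {z : ℂ} {c : ℤ}
    (hz : tq z = c • tq (hW e b T)) : tq (sy e b z) = (2 * c) • tq (hW e b T) := by
  have h1 := tq_conj (hz.trans (tq_mul _ _).symm)
  rw [map_mul, map_intCast, tq_mul, conj_hW3 h hb ok hD hρ hT] at h1
  rw [sy, map_add, tq_mul, h1, hz, h.kap_neg hb, smul_smul, smul_smul, ← add_smul]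
  congr 1
  rw [rootNo] at hr
  linear_combination -c * hr

theorem tq_hU (hD : D < 0) (hT : FReps D ρ T) (e b : ℤ) :
    tq (hU e b T) = (-1 : ℤ) • tq (hW e b (T.image fV)) := by
  rw [tq_hW, (FReps.fV hD hT).2, hU, map_sum, smul_sum]
  refine sum_congr rfl fun Q hQ => ?_
  rw [tq_mul, tq_froot_fV ((hT.fam Q hQ).2.1 ▸ hD) (hT.pos Q hQ) (hT.fam Q hQ).1, uw]
  simp

theorem exists_big (hs : Spt δ m) (hd : Cls0 d) {L : ℕ} (hL : L ≠ 0)
    (h15 : IsCoprime (L : ℤ) 15) : ∃ a : ℤ, Cls0 a ∧ ¬ IsUnit a ∧ 0 < a * d ∧ 60 ∣ a - d ∧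
      IsCoprime a L ∧ Cork (δ * m * a) := by
  obtain ⟨p, p1, p2, p3⟩ := Nat.exists_prime_gt_modEq_one (k := 4) (L + 30) (by norm_num)
  have p4 := Nat.prime_iff_prime_int.1 p1
  have p5 : p % 4 = 1 := p3
  have d4 := hd.m4
  have c30 : IsCoprime (p : ℤ) 30 :=
    Nat.isCoprime_iff_coprime.2 (Nat.coprime_of_lt_prime (n := 30) (by norm_num) (by omega) p1)
  obtain ⟨y, y1, y2, y3, ⟨j, hj⟩, y5⟩ := exists_cork2 hs hd p4.squarefree c30 (L := p * L) (u := 1)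
    (mul_ne_zero p1.ne_zero hL)
    (by push_cast; exact (c30.of_isCoprime_of_dvd_right (by norm_num)).mul_left h15)
    (by push_cast; exact dvd_mul_right _ _) isCoprime_one_left (by omega)
  refine ⟨_, y1, fun k => p4.not_isUnit (isUnit_of_mul_isUnit_left k), y2, y3, IsCoprime.mul_left
    (Nat.isCoprime_iff_coprime.2 (Nat.coprime_of_lt_prime hL (by omega) p1))
    ⟨1, -(4 * p * j), ?_⟩, y5⟩
  push_cast at hj
  linear_combination hj

theorem an1 : An1 := fun δ m d hs h1 hd hk hr h0 => by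
  obtain ⟨e, h⟩ : ∃ e, Dsc δ m e := ⟨_, hs, rfl, h1⟩
  have e0 := h.ne_zero
  have f0 : δ * m ≠ 0 := left_ne_zero_of_mul (h.sqf hd).ne_zero
  obtain ⟨d0, n, r, _, _, ct, hr', -, -, hy, -⟩ := core3 hs h.eq h1 hd hk one_ne_zero
  have hn := ct.nok.good
  have t0 : Tri d d0 d n r :=
    ⟨hn, ct.mul, hd.m4, hd, mul_self_pos.2 hd.sqf.ne_zero, hr'⟩
  have c0 := t0.cls.2.1
  have r0 : rootNo (δ * m * d0) = 1 := by
    have := rootNo_swap f0 hn hr' ct.mul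
    rw [hr] at this
    omega
  obtain ⟨n0, -, n3⟩ := t0.neg e0
  obtain ⟨T0, hT0⟩ := exists_freps n0 (-r * e.natAbs)
  have a0 := alg_sy_hW n0 hT0 e d
  have me : ∀ u : ℤ, m ∣ u * e.natAbs := fun u =>
    (h.dvd.trans (Int.dvd_natAbs.2 dvd_rfl)).mul_left _
  have s0 := tq_sy h hd hr (gOk_of hs h.eq hn ⟨-d0, by linear_combination ct.mul⟩ hd.m4) n0 (me _)
    hT0 (one_smul ℤ _).symm
  refine hy T0 (by rwa [← neg_mul r]) (tq_eq_zero.mp (tq_cancel (k := 2 * 1) (by norm_num) ?_))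
  rw [← s0, tq_eq_zero, tors_iff_u15]
  refine isOfFinAddOrder_of_hpair a0 (eq_zero_of_mem_LogS fun l hl => ?_)
  obtain ⟨x, x1, x2, x3, x4, x5, x6⟩ := aux3 hs c0 hd hl (lv e)
  have lp := Nat.prime_iff_prime_int.1 hl
  obtain ⟨l', l0, l1, l2⟩ : ∃ l' : ℕ, l' ≠ 0 ∧ IsCoprime (l' : ℤ) 15 ∧ (l ∣ 15 ∨ l' = l) := by
    by_cases k : l ∣ 15
    · exact ⟨1, one_ne_zero, isCoprime_one_left, .inl k⟩
    · exact ⟨l, hl.ne_zero, lp.coprime_iff_not_dvd.2 (by exact_mod_cast k), .inr rfl⟩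
  obtain ⟨a, ha, a1, a2, a3, a4, a5⟩ := exists_big hs c0 (L := l' * (d * x * d0).natAbs)
    (mul_ne_zero l0 (Int.natAbs_ne_zero.2 (mul_ne_zero (mul_ne_zero hd.sqf.ne_zero x1.sqf.ne_zero)
      c0.sqf.ne_zero))) (by
      rw [Nat.cast_mul, Int.natCast_natAbs]
      exact l1.mul_left (((Cls0.cop15 hd).mul_left (Cls0.cop15 x1)).mul_left
        (Cls0.cop15 c0)).abs_left)
  rw [Nat.cast_mul, Int.natCast_natAbs, IsCoprime.mul_right_iff, IsCoprime.abs_right_iff,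
    IsCoprime.mul_right_iff, IsCoprime.mul_right_iff] at a4
  obtain ⟨a6, ⟨a7, a8⟩, a9⟩ := a4
  have ne : ∀ {y : ℤ}, IsCoprime a y → a ≠ y := fun k j => a1 (isCoprime_self.1 (j ▸ k))
  have k0 : 60 ∣ d0 ^ 2 - a * d0 := by
    rw [sq, ← sub_mul]
    exact (dvd_sub_comm.1 a3).mul_right _
  have kx : 60 ∣ d0 ^ 2 - a * x := by
    rw [show d0 ^ 2 - a * x = d0 ^ 2 - a * d0 - a * (x - d0) by ring]
    exact k0.sub (x3.mul_left _)
  have ax : 0 < a * x := by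
    have := mul_pos a2 x2
    rw [show a * d0 * (x * d0) = a * x * (d0 * d0) by ring] at this
    exact (pos_iff_pos_of_mul_pos this).2 (mul_self_pos.2 c0.sqf.ne_zero)
  obtain ⟨t1, -, k3, -⟩ := an0_tri ha c0 a2 hn (b := d) (mul_comm d d0 ▸ ct.mul) (r := -r)
    (by rwa [neg_sq]) a7 k0 (an0_inv ha c0 k0)
  generalize (a * d).natAbs = n' at t1
  generalize 11 * (a.natAbs : ℤ) * -r * d0 ^ 3 = ρ at t1 k3
  have t2 : Tri a d x n' ρ := ⟨t1.good, t1.mul, t1.a4, x1, ax, t1.root⟩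
  obtain ⟨n1, n2, n4⟩ := t2.neg e0
  have pa : perD (δ * m * a) ≠ 0 := an0 δ m a hs h1 ha a5 ((rootNo_congr a2 a3).trans r0)
  have c1 := (th_V h ha).2 pa
  have c2 := (th_ne h ha x1 a8 ax (ne a8) kx x4 ((rootNo_congr x2 x3).trans r0) pa).1
  have ns := an0_nsq ha x1 a8 (ne a8)
  obtain ⟨T1, hT1⟩ := exists_freps n1 (ρ * e.natAbs)
  obtain ⟨T2, hT2⟩ := exists_freps n2 (r * lv e)
  have hT3 := (FReps.fV n2 hT2).1
  rw [← neg_mul] at hT3
  obtain ⟨s1, hs1, e1⟩ := gkz3 h t1 hr (an0_nsq ha c0 a9 (ne a9)) k3 hT1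
    (by rwa [ct.mul, neg_mul])
  obtain ⟨s3, hs3, e3⟩ := gkz3' h t2 hr ns k3 hT1 hT3
  have a1 := alg_sy_hW n1 hT1 e d
  have a2 := alg_sy_hU n2 hT2 e d
  have s1' := tq_sy h hd hr (h.gOk hd (n4 ▸ mul_dvd_mul_right (dvd_mul_right d a) _)) n1 (me _)
    hT1 (one_smul ℤ _).symm
  have s2' := tq_sy h hd hr
    (h.gOk hd (mul_dvd_mul (dvd_mul_right d x) (pow_dvd_pow_of_dvd (dvd_lv e) 2))) n2
    ((h.dvd.trans (dvd_lv e)).mul_left _) hT3 (tq_hU n2 hT2 e d)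
  have hL := gz3_log h t2 hr a8 ns hT1 hT2 hl x5 (by
    have j : l ∣ 15 → J((l : ℤ) | n') = 1 := fun k => jac_of_split t1.good hl
      (fun j => hl.one_lt.ne' (Nat.eq_one_of_dvd_coprimes t1.good.cop j k))
      ((mul_dvd_mul_left 4 (Int.natCast_dvd_natCast.mpr k)).trans t1.root)
    rcases x6 with k | k | k
    · exact .inr (.inl (j k))
    · exact .inr (.inr (.inl k))
    rcases l2 with i | rfl
    · exact .inr (.inl (j i))
    refine .inr (.inr (.inr ⟨fun i => ?_, k.2⟩))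
    rw [show (n' : ℤ) * x = -(a * (d * x)) by linear_combination x * t1.mul, dvd_neg] at i
    exact (lp.dvd_or_dvd i).elim (lp.coprime_iff_not_dvd.1 a6.symm) k.1) h0
  have b0 : s1 * thS (δ * m * a) (wV3 e a) ≠ 0 := mul_ne_zero (by omega) c1
  generalize thS (δ * m * a) (wX e a d0 d0) = u at e1
  generalize thS (δ * m * a) (wX e a x d0) = c at e3 c2
  generalize s1 * thS (δ * m * a) (wV3 e a) = v at e1 b0
  generalize s3 * thS (δ * m * a) (wV3 e a) = v' at e3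
  have f1 : u • tq (sy e d (hW e d T1)) = v • tq (sy e d (hW e d T0)) := by
    rw [s1', s0, smul_comm, e1, smul_comm]
  have f3 : c • tq (sy e d (hW e d T1)) = (-v') • tq (sy e d (hU e d T2)) := by
    rw [s1', s2', smul_comm, e3, smul_smul, smul_smul]
    congr 1
    ring
  have p1 := gzc_pair a1 a0 a0 f1
  have p2 := gzc_pair a1 a0 a1 f1
  have p3 := gzc_pair a1 a2 a1 f3
  rw [hpair_comm] at hL
  rw [hpair_comm (Unif.u15 (sy e d (hW e d T0)))] at p2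
  refine LogS.of_mul (r := (c * v ^ 2 : ℤ)) (by exact_mod_cast mul_ne_zero c2 (pow_ne_zero 2 b0)) ?_
  convert LogS.int_mul (u ^ 2 * -v') hL using 1
  push_cast at p3 ⊢
  linear_combination u ^ 2 * p3 - c * u * p2 - c * v * p1

/-- The converse theorem for every squarefree twist. -/
theorem conv3 (D : ℤ) (hD : Squarefree D) : Conv D := conv_all an0 an1 D hD

end Pool.Agent.Lib.MP_696deb_nt.B3
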