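import Pool.Agent.Lib.MP_696deb_nt.B3.A0

/-! Symmetries of the twisted families. -/

set_option autoImplicit false

open scoped Classical ComplexConjugate
open Finset NumberTheorySymbols

namespace Pool.Agent.Lib.MP_696deb_nt.B3

open B2

variable {δ m e a b x c D β ρ : ℤ} {n : ℕ} {T : Finset Fm} {R : Fm}

theorem gch_pos (hn : Squarefree n) (n4 : n % 4 = 1) (hd : fdisc R = n * c ^ 2) (h0 : c ≠ 0)
    (hp : ∀ p : ℕ, p.Prime → (p : ℤ) ∣ c →
      ¬ ((p : ℤ) ∣ R.1 ∧ (p : ℤ) ∣ R.2.1 ∧ (p : ℤ) ∣ R.2.2)) : gch n R = 1 := by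
  have ho : Odd n := Nat.odd_iff.2 (by omega)
  have n0 : 0 < n := by omega
  obtain ⟨x, y, ⟨z, w, k⟩, hv⟩ := exists_val_coprime (m := 2 * (n * c.natAbs)) (R := R)
    (by positivity) fun p h1 hm ⟨h2, h3, h4⟩ => by
      have h6 := Nat.prime_iff_prime_int.1 h1
      by_cases h7 : (p : ℤ) ∣ c
      · exact hp p h1 h7 ⟨h2, h3, h4⟩
      have h5 : (p : ℤ) * p ∣ n * c ^ 2 := by
        rw [← hd]
        exact dvd_sub (by rw [sq]; exact mul_dvd_mul h3 h3)
          (by rw [mul_assoc]; exact (mul_dvd_mul h2 h4).mul_left _)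
      have h8 : IsCoprime ((p : ℤ) * p) (c ^ 2) :=
        ((h6.coprime_iff_not_dvd.2 h7).mul_left (h6.coprime_iff_not_dvd.2 h7)).pow_right
      exact h1.not_isUnit (hn p (by exact_mod_cast h8.dvd_of_dvd_mul_right h5))
  have k' : x * z - -w * y = 1 := by linear_combination k
  have h3 := fdisc_fmap k' R
  change ∀ p : ℕ, _ → _ → ¬ _ ∣ (fmap R x (-w) y z).1 at hv
  rw [← gch_fmap ho (hd ▸ dvd_mul_right _ _) k', gch, prod_congr rfl fun p hp =>
    if_neg (hv p (Nat.prime_of_mem_primeFactors hp)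
      (((Nat.dvd_of_mem_primeFactors hp).mul_right _).mul_left 2)), ← jac_eq_prod _ hn]
  generalize fmap R x (-w) y z = P at *
  have h5 : Odd P.1.natAbs := by have := hv 2 Nat.prime_two (by simp); rw [Nat.odd_iff]; omega
  have key : ∀ u : ℤ, (∀ p : ℕ, p.Prime → (p : ℤ) ∣ u → (p : ℤ) ∣ P.1 → p ∣ n * c.natAbs) →
      J(u ^ 2 | P.1.natAbs) = 1 := fun u hu =>
    jacobiSym.sq_one' (Nat.eq_one_iff_not_exists_prime_dvd.mpr fun p hp k => by
      replace k := Int.natCast_dvd_natCast.mpr k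
      have k1 := (k.trans (Int.gcd_dvd_right _ _)).trans (Int.natAbs_dvd.mpr dvd_rfl)
      exact hv p hp ((hu p hp (k.trans (Int.gcd_dvd_left _ _)) k1).mul_left 2) k1)
  have h6 : J(fdisc R | P.1.natAbs) = 1 := by
    rw [← h3, jacobiSym.mod_left' (a₂ := P.2.1 ^ 2) (Int.modEq_iff_dvd.mpr
      (Int.natAbs_dvd.mpr ⟨4 * P.2.2, by rw [fdisc]; ring⟩))]
    refine key _ fun p hp k1 k2 => ?_
    have k3 : (p : ℤ) ∣ n * c ^ 2 := by
      rw [← hd, ← h3]
      exact dvd_sub (dvd_pow k1 two_ne_zero) ((k2.mul_left _).mul_right _)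
    rcases (Nat.prime_iff_prime_int.1 hp).dvd_or_dvd k3 with k4 | k4
    exacts [(Int.natCast_dvd_natCast.1 k4).mul_right _,
      (Int.natCast_dvd.1 ((Nat.prime_iff_prime_int.1 hp).dvd_of_dvd_pow k4)).mul_left _]
  rw [hd, jacobiSym.mul_left, key c fun p _ k _ => (Int.natCast_dvd.1 k).mul_left _,
    mul_one, jacobiSym.quadratic_reciprocity_one_mod_four n4 h5] at h6
  rcases Int.natAbs_eq P.1 with k | k
  · rwa [k]
  · rw [k, jacobiSym.neg _ ho, ZMod.χ₄_nat_one_mod_four n4, one_mul, h6]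

theorem cls_cop (ha : Cls0 a) : a.natAbs.Coprime 15 :=
  Nat.Coprime.mul_right (m := 3) (n := 5)
    (Nat.coprime_comm.1 ((Nat.Prime.coprime_iff_not_dvd Nat.prime_three).2 fun k =>
      ha.m3 (Int.natCast_dvd.2 k)))
    (Nat.coprime_comm.1 ((Nat.Prime.coprime_iff_not_dvd Nat.prime_five).2 fun k =>
      ha.m5 (Int.natCast_dvd.2 k)))

theorem wX_swap (h : Dsc δ m e) (ha : Cls0 a) (hx : Cls0 x) (hc : IsCoprime a x) (h0 : 0 < a * x)
    (β : ℤ) : wX e a x β = wX e x a β := by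
  funext R
  rw [wX, wX, mul_comm x a]
  refine if_ctx_congr Iff.rfl (fun k => ?_) fun _ => rfl
  have hd : fdisc (fV R) = (a * x).natAbs * lv e ^ 2 := by
    rw [(fam_fV k).2.1, Int.natAbs_of_nonneg h0.le]
  rw [uw, uw]
  generalize fV R = P at hd
  by_cases hp : ∀ p : ℕ, p.Prime → (p : ℤ) ∣ lv e →
    ¬ ((p : ℤ) ∣ P.1 ∧ (p : ℤ) ∣ P.2.1 ∧ (p : ℤ) ∣ P.2.2)
  swap
  · push Not at hp
    obtain ⟨p, h1, h2, h3, -, h4⟩ := hp
    have h5 : (p : ℤ) ∣ e := by
      unfold lv at h2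
      split_ifs at h2 with k
      · rcases (Nat.prime_iff_prime_int.1 h1).dvd_or_dvd h2 with j | j
        exacts [j.trans k, Int.dvd_natAbs.1 j]
      · exact Int.dvd_natAbs.1 h2
    rw [gw_zero h.spt h.eq a h1 h5 h3 h4 ha.sqf.ne_zero,
      gw_zero h.spt h.eq x h1 h5 h3 h4 hx.sqf.ne_zero]
  have k1 : a.natAbs.Coprime x.natAbs := Int.isCoprime_iff_gcd_eq_one.1 hc
  have h1 := gch_pos (n := (a * x).natAbs) (by
    rw [Int.natAbs_mul, Nat.squarefree_mul k1]
    exact ⟨Int.squarefree_natAbs.2 ha.sqf, Int.squarefree_natAbs.2 hx.sqf⟩) (by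
      have : a * x % 4 = 1 := by rw [Int.mul_emod, ha.m4, hx.m4]; rfl
      omega) hd (lv_pos h.ne_zero).ne' hp
  rw [Int.natAbs_mul, gch_mul k1] at h1
  rw [gw, gw, gch_mul ((cls_cop ha).symm.coprime_dvd_left (Nat.gcd_dvd_right _ _)),
    gch_mul ((cls_cop hx).symm.coprime_dvd_left (Nat.gcd_dvd_right _ _))]
  rcases Int.eq_one_or_neg_one_of_mul_eq_one' h1 with j | j <;> rw [j.1, j.2]

theorem gw_neg (hs : Squarefree (oc e a)) (R : Fm) :
    gw e a (-R.1, R.2.1, -R.2.2) = kap e a (-1) * gw e a R := by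
  have h1 : gch (oc e a) (-R.1, R.2.1, -R.2.2) = J(-1 | oc e a) * gch (oc e a) R := by
    simp only [gch, dvd_neg]
    rw [jac_eq_prod _ hs, ← prod_mul_distrib]
    refine prod_congr rfl fun p _ => ?_
    split_ifs <;> rw [← jacobiSym.mul_left, neg_one_mul]
  have h2 : g2 e (-R.1, R.2.1, -R.2.2) = k2 e (-1) * g2 e R := by
    simp only [g2, dvd_neg]
    split_ifs <;> rw [← k2_mul, neg_one_mul]
  rw [gw, gw, kap, h2, ← oc, h1]
  ring

theorem wU_neg (hs : Squarefree (oc e a)) (R : Fm) :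
    wU e a D β (-R.1, R.2.1, -R.2.2) = kap e a (-1) * wU e a D β R := by
  rw [wU, wU, mul_ite, mul_zero]
  refine if_ctx_congr fam_neg (fun k => ?_) fun _ => rfl
  rw [uw, uw, ← gw_neg hs]
  obtain ⟨_, b, c⟩ := R
  obtain ⟨a, rfl⟩ := k.1
  simp [fV, ← mul_neg]

/-- The action of complex conjugation on the twisted Heegner point. -/
theorem conj_hW3 (h : Dsc δ m e) (hb : Cls0 b) (ok : GOk e b D) (hD : D < 0) (hρ : m ∣ ρ)
    (hT : FReps D ρ T) : tq (conj (hW e b T)) = -rt0 (δ * m * b) • tq (hW e b T) := by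
  have h8 := cls_cop hb
  have h7 := h.sqf hb
  obtain ⟨j, hj⟩ := hρ
  have nd : ∀ p : ℤ, Prime p → p ∣ 15 → ¬ p ∣ δ ∧ ¬ p ∣ b := fun p hp k =>
    ⟨fun l => hp.not_isUnit ((show IsCoprime (2 : ℤ) 15 by norm_num).isUnit_of_dvd'
      (l.trans h.spt.d2) k), fun l => hp.not_isUnit ((show IsCoprime b 15 by
        rwa [Int.isCoprime_iff_gcd_eq_one]).isUnit_of_dvd' l k)⟩
  have p3 : Prime (3 : ℤ) := Int.prime_three
  have p5 : Prime (5 : ℤ) := Nat.prime_iff_prime_int.1 Nat.prime_five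
  have dv : ∀ p : ℤ, Prime p → p ∣ 15 → (p ∣ δ * m * b ↔ p ∣ m) := fun p hp k => by
    rw [hp.dvd_mul, hp.dvd_mul, or_iff_left (nd p hp k).2, or_iff_right (nd p hp k).1]
  have co : ∀ p : ℤ, Prime p → p ∣ 15 → ¬ p ∣ m → IsCoprime p (oc e b) := fun p hp k l => by
    rw [oc_eq h.spt h.eq, hp.coprime_iff_not_dvd, Int.dvd_natAbs, hp.dvd_mul]
    exact not_or.2 ⟨l, (nd p hp k).2⟩
  have kp : ∀ p : ℕ, Odd p → kap e b p = J(δ * m * b | p) := fun p hp => by
    rw [kap_eq h.spt h.eq hb.m4, kro_odd h7 hp]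
  rw [rt0]
  simp only [dv 3 p3 (by norm_num), dv 5 p5 (by norm_num)]
  rcases h.spt.cases.2 with k | k | k | k
  · rw [conj_hW_of hT hD ok 3 fV (FReps.fV hD hT).1 (k := 15) (by norm_num)
      ((co 3 p3 (by norm_num) (by omega)).mul_left (co 5 p5 (by norm_num) (by omega)))
      fun _ => scl_fV, if_neg (by omega), if_neg (by omega), ← jacobiSym.mul_right,
      ← kp _ (by decide)]
    exact congrArg (· • _) (neg_one_mul _)
  · rw [conj_hW_of hT hD ok 2 (fun Q => fV (fW Q)) (k := 5) ?_ (by norm_num)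
      (co 5 p5 (by norm_num) (by omega)) fun _ => scl_fVW, if_pos (by omega), if_neg (by omega),
      one_mul, ← kp _ (by decide)]
    · exact congrArg (· • _) (neg_one_mul _)
    · have := (FReps.fV hD (fW_freps hD hT)).1
      rw [image_image] at this
      exact FReps.congr3 this ⟨j, by rw [hj, k]; ring⟩
  · rw [conj_hW_of hT hD ok 1 fW (k := 3) ?_ (by norm_num)
      (co 3 p3 (by norm_num) (by omega)) fun _ => scl_fW, if_neg (by omega), if_pos (by omega),
      ← kp _ (by decide)]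
    · exact congrArg (· • _) (by rw [mul_neg_one, neg_neg]; exact one_mul _)
    · exact FReps.congr3 (fW_freps hD hT) ⟨2 * j, by rw [hj, k]; ring⟩
  · rw [conj_hW_of hT hD ok 0 id (k := 1) ?_ (by norm_num) isCoprime_one_left
      fun Q _ => ⟨rfl, one_pos, fun x y => by simp [Unif.alM]⟩, if_pos (by omega),
      if_pos (by omega), kap, k2_one, jacobiSym.one_left]
    · rfl
    · rw [image_id]
      exact FReps.congr3 hT ⟨-j, by rw [hj, k]; ring⟩

/-- Equal counts of pairs give a relation between special points. -/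
theorem gkz_core3 {S S' : Finset Fm} {u u' w w' : Fm → ℤ} {D D' E E' s c : ℤ} {κ κ' : ℂ}
    (hS : Pts S u D) (hS' : Pts S' u' D') (hw : Geo w E κ) (hw' : Geo w' E' κ')
    (hr : D * E = D' * E') (hc : ∀ t, cntP S u w t = c * cntP S' u' w' t) (hs : s ≠ 0)
    (h1 : ∀ R : Fm, w (-R.1, R.2.1, -R.2.2) = s.sign * w R)
    (h1' : ∀ R : Fm, w' (-R.1, R.2.1, -R.2.2) = s.sign * w' R) {P P' : ℂ}
    (hP : P = ∑ Q ∈ S, u Q * Fi (froot Q)) (hP' : P' = ∑ Q ∈ S', u' Q * Fi (froot Q))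
    (h2 : tq (conj P) = -s.sign • tq P) (h2' : tq (conj P') = -s.sign • tq P') :
    thS s w • tq P = (c * thS s w') • tq P' := by
  obtain ⟨k, hk⟩ := geo_compare hw hw' hS hS' hr (.inl rfl) (s := c) fun t => by rw [hc, one_mul]
  rw [← hP, ← hP', hw.eq_thw, hw'.eq_thw] at hk
  have w1 := wp_neg.ne
  have w2 := wm_ne
  have k1 : ∀ (y : ℤ) (z : ℂ), (((y : ℂ) / (2 * wp) + (0 : ℤ) * Complex.I / (2 * wm)) * z).re =
      y / (2 * wp) * z.re := fun y z => by
    rw [← Complex.re_ofReal_mul]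
    simp
  have k2 : ∀ (y : ℤ) (z : ℂ), ((((0 : ℤ) : ℂ) / (2 * wp) + y * Complex.I / (2 * wm)) * z).re =
      -(y / (2 * wm) * z.im) := fun y z => by
    rw [← Complex.im_ofReal_mul, ← Complex.I_mul_re]
    congr 1
    push_cast
    ring
  refine tq_cancel two_ne_zero (k := 2) (x := _ - _) ?_ |> sub_eq_zero.1
  unfold thS
  rcases hs.lt_or_gt with j | j
  · rw [Int.sign_eq_neg_one_of_neg j] at h1 h1' h2 h2'
    rw [(hw.shape h1).2 rfl, (hw'.shape h1').2 rfl] at hk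
    rw [if_neg j.not_gt, if_neg j.not_gt]
    have h3 : tq (thw w 7 15 * (P + conj P) - (c * thw w' 7 15 : ℤ) * (P' + conj P')) = 0 := by
      refine tq_eq_zero.2 ⟨1, 2 * k, 0, one_pos, ?_⟩
      rw [k1, k1] at hk
      rw [Complex.add_conj, Complex.add_conj]
      have h4 : thw w 7 15 * (2 * P.re) - c * thw w' 7 15 * (2 * P'.re) = 2 * k * wp := by
        rw [← hk]
        field_simp
        simp
      simpa using congrArg Complex.ofReal h4
    rw [map_sub, tq_mul, tq_mul, map_add, map_add, h2, h2'] at h3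
    rw [← h3]
    module
  · rw [Int.sign_eq_one_of_pos j] at h1 h1' h2 h2'
    rw [(hw.shape h1).1 rfl, (hw'.shape h1').1 rfl] at hk
    rw [if_pos j, if_pos j]
    have h3 : tq (thw w 4 15 * (P - conj P) - (c * thw w' 4 15 : ℤ) * (P' - conj P')) = 0 := by
      refine tq_eq_zero.2 ⟨1, 0, -2 * k, one_pos, ?_⟩
      rw [k2, k2] at hk
      rw [Complex.sub_conj, Complex.sub_conj]
      have h4 : thw w 4 15 * (2 * P.im) - c * thw w' 4 15 * (2 * P'.im) = -2 * k * wm := by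
        rw [← hk]
        field_simp
        simp
        ring
      have h5 := congrArg Complex.ofReal h4
      push_cast at h5 ⊢
      linear_combination Complex.I * h5
    rw [map_sub, tq_mul, tq_mul, map_sub, map_sub, h2, h2'] at h3
    rw [← h3]
    module

end Pool.Agent.Lib.MP_696deb_nt.B3
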