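import Pool.Agent.Lib.MP_696deb_nt.B3.A0

/-! The twisted divisors have degree zero and are algebraic. -/

set_option autoImplicit false

open scoped Classical
open Finset NumberTheorySymbols

namespace Pool.Agent.Lib.MP_696deb_nt.B3

open B2

variable {δ m e a b x β ρ ρ' : ℤ} {n : ℕ} {T T' : Finset Fm}

/-- A split prime outside the principal genus. -/
theorem hd_prime (h : Dsc δ m e) (hb : Cls0 b) (hx : Cls0 x) (N : ℕ) :
    ∃ l : ℕ, N < l ∧ l.Prime ∧ kap e b l = -1 ∧ ∃ r : ℤ, (l : ℤ) ∣ r ^ 2 - b * x := by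
  have h1 := h.pchr (a := 1) ⟨squarefree_one, rfl, by decide, by decide⟩
  obtain ⟨p, hp, N', hN⟩ := Nat.exists_prime_and_dvd (n := cn e 1) (by
    obtain ⟨k1, k2⟩ := h.spt.cases
    have k3 := h.ne
    rw [h.eq]
    revert k3
    rcases k1 with rfl | rfl | rfl | rfl <;> rcases k2 with rfl | rfl | rfl | rfl <;> decide)
  obtain ⟨u, -, hu⟩ := h1.prim p N' hp hN
  have h4 : b * x % 4 = 1 := by rw [Int.mul_emod, hb.m4, hx.m4]; rfl
  have c : ∀ {d : ℤ}, Cls0 d → IsCoprime (120 : ℤ) d := fun {d} hd => by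
    have := hd.m4
    exact IsCoprime.mul_left (x := 2 ^ 3) (y := 3 * 5)
      (Int.prime_two.coprime_iff_not_dvd.2 (by omega)).pow_left
      ((Int.prime_three.coprime_iff_not_dvd.2 hd.m3).mul_left
        ((Nat.prime_iff_prime_int.1 Nat.prime_five).coprime_iff_not_dvd.2 hd.m5))
  obtain ⟨α, γ, h2⟩ : IsCoprime (cn e 1 : ℤ) (b * x).natAbs :=
    (((c hb).mul_right (c hx)).of_isCoprime_of_dvd_left (Int.natAbs_dvd.2 (by
      rw [mul_one]; exact (h.spt.dsc h.eq).2.1))).of_isCoprime_of_dvd_right (Int.natAbs_dvd.2 dvd_rfl)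
  obtain ⟨s, t, h3⟩ := h1.cop (a := u) (by omega)
  obtain ⟨l, l1, l2, l3⟩ := Nat.forall_exists_prime_gt_and_zmodEq (N + 2)
    (q := cn e 1 * (b * x).natAbs) (a := u * γ * (b * x).natAbs + α * cn e 1)
    (mul_ne_zero h1.ne (by omega)) (by
      rw [Nat.cast_mul]
      exact IsCoprime.mul_right ⟨s, t + s * u * α - s * α, by linear_combination h3 + s * u * h2⟩
        ⟨1, γ - u * γ, by linear_combination h2⟩)
  obtain ⟨k, hk⟩ := l3.symm.dvd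
  rw [Nat.cast_mul] at hk
  have h5 : ∀ d : ℤ, d ∣ b * x → J(l | d.natAbs) = 1 := fun d hd => by
    rw [jacobiSym.mod_left' (a₂ := 1) (Int.modEq_iff_dvd.2 ((Int.natAbs_dvd.2
      (Int.dvd_natAbs.2 hd)).trans ⟨γ - u * γ - cn e 1 * k, by linear_combination -hk - h2⟩)),
      jacobiSym.one_left]
  have : Fact l.Prime := ⟨l2⟩
  refine ⟨l, by omega, l2, ?_, ?_⟩
  · rw [← hu, ← h1.per l u ⟨α - u * α + (b * x).natAbs * k, by linear_combination hk + u * h2⟩]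
    have h6 : e.natAbs.gcd 15 ≠ 0 := by simp
    rw [kap, kap, oc, oc, jacobiSym.mul_right' _ h6 (by have := hb.m4; omega),
      h5 b (dvd_mul_right _ _), Int.natAbs_one, mul_one, mul_one]
  · obtain ⟨r, hr⟩ := ZMod.isSquare_of_jacobiSym_eq_one ((jac_star h4 (l2.odd_of_ne_two
      (by omega))).symm.trans (h5 _ dvd_rfl))
    obtain ⟨r, rfl⟩ := ZMod.intCast_surjective r
    exact ⟨r, (ZMod.intCast_eq_intCast_iff_dvd_sub _ _ l).1 (by rw [hr]; push_cast; ring)⟩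

section

variable {l r : ℤ} {Q : Fm}

theorem hd_solve (hl : Prime l) {u : ℤ} (hu : ¬ l ∣ u) (v : ℤ) : ∃ k, l ∣ u * k + v := by
  obtain ⟨s, t, h⟩ := hl.coprime_iff_not_dvd.2 hu
  exact ⟨-(t * v), s * v, by linear_combination -v * h⟩

/-- Every form has an equivalent form adapted to a split prime. -/
theorem hd_nf (hl : Prime l) (h30 : ¬ l ∣ 30) (hr : ¬ l ∣ r) (h : l ∣ r ^ 2 - fdisc Q) :
    ∃ R, FEq Q R ∧ l ∣ R.1 ∧ l ∣ R.2.1 - r := by
  have h2 : ¬ l ∣ 2 := fun k => h30 (k.mul_right 15)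
  have k : ∀ k, l ∣ 30 * Q.1 * k + (2 * Q.1 + 15 * (Q.2.1 + r)) →
      l ∣ 15 * (Q.2.1 - r) * k + (Q.2.1 - r + 30 * Q.2.2) →
      ∃ R, FEq Q R ∧ l ∣ R.1 ∧ l ∣ R.2.1 - r := fun k ⟨s, hs⟩ ⟨t, ht⟩ =>
    ⟨_, ⟨1 + 15 * k, k, 1, 1, by ring, rfl⟩, (hl.dvd_or_dvd ⟨(1 + 15 * k) * s + 15 * t, by
      simp only [fmap, fval]
      linear_combination (1 + 15 * k) * hs + 15 * ht⟩).resolve_left h2, ⟨k * s + t, by
      simp only [fmap]
      linear_combination k * hs + ht⟩⟩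
  by_cases ha : l ∣ Q.1
  · rcases hl.dvd_or_dvd (show l ∣ (Q.2.1 - r) * (Q.2.1 + r) from
      Gal.dvd_eq ((ha.mul_left (4 * Q.2.2)).sub h) (by simp only [fdisc]; ring)) with h1 | h1
    · exact ⟨Q, ⟨1, 0, 0, 1, by norm_num, by simp [fmap, fval]⟩, ha, h1⟩
    · obtain ⟨j, hj⟩ := hd_solve hl (u := 15 * (Q.2.1 - r)) (fun k => (hl.dvd_or_dvd k).elim
        (fun k => h30 (k.trans (by norm_num))) fun k => (hl.dvd_or_dvd (show l ∣ 2 * r from
          Gal.dvd_eq (h1.sub k) (by ring))).elim h2 hr) (Q.2.1 - r + 30 * Q.2.2)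
      exact k j (((ha.mul_left _).mul_right _).add ((ha.mul_left _).add (h1.mul_left _))) hj
  · obtain ⟨j, hj⟩ := hd_solve hl (u := 30 * Q.1) (fun k => (hl.dvd_or_dvd k).elim h30 ha)
      (2 * Q.1 + 15 * (Q.2.1 + r))
    refine k j hj ((hl.dvd_or_dvd (a := 2 * Q.1) (Gal.dvd_eq ((hj.mul_left (Q.2.1 - r)).add
      (h.mul_left 15)) (by simp only [fdisc]; ring))).resolve_left
      fun k => (hl.dvd_or_dvd k).elim h2 ha)

theorem hd_inj (hl : Prime l) (h2 : ¬ l ∣ 2) (hr : ¬ l ∣ r) {a b c a' b' c' : ℤ} (h : l ∣ b - r)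
    (h' : l ∣ b' - r) (k : FEq (a, b, l * c) (a', b', l * c')) :
    FEq (l * a, b, c) (l * a', b', c') := by
  obtain ⟨x, y, z, w, e, k⟩ := k
  simp only [fmap, fval, Prod.mk.injEq] at k
  obtain ⟨k1, k2, k3⟩ := k
  obtain ⟨y, rfl⟩ : l ∣ y := by_contra fun hy => by
    have h1 : l ∣ a * y + b * w := (hl.dvd_or_dvd (a := y) ⟨c' - c * w ^ 2, by
      linear_combination -k3⟩).resolve_left hy
    have h3 : l ∣ a * x + 15 * b * z := (hl.dvd_or_dvd (a := 2 * y) (Gal.dvd_eq ((h'.sub h).sub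
      (dvd_mul_right l (30 * c * z * w))) (by linear_combination -k2 - b * e))).resolve_left
        fun k => (hl.dvd_or_dvd k).elim h2 hy
    exact hr (Gal.dvd_eq (((h1.mul_left x).sub (h3.mul_left y)).sub h) (by linear_combination -b * e))
  refine ⟨x, y, l * z, w, by linear_combination e, ?_⟩
  simp only [fmap, fval, Prod.mk.injEq]
  exact ⟨by linear_combination l * k1, by linear_combination k2,
    mul_left_cancel₀ hl.ne_zero (by linear_combination k3)⟩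

end

theorem deg_gw (h : Dsc δ m e) (hb : Cls0 b) (hx : Cls0 x) (h0 : b * x < 0) {c : ℤ} (hc : e ∣ c)
    (c0 : c ≠ 0) (hT : FReps (b * x * c ^ 2) ρ T) : ∑ Q ∈ T, gw e b Q = 0 := by
  have ok := h.gOk hb (D := b * x * c ^ 2)
    (mul_dvd_mul (dvd_mul_right _ _) (pow_dvd_pow_of_dvd hc 2))
  have hD : b * x * c ^ 2 < 0 := mul_neg_of_neg_of_pos h0 (by positivity)
  obtain ⟨l, l1, l2, l3, r, hr⟩ := hd_prime h hb hx (30 + (b * x * c ^ 2).natAbs)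
  replace hr : (l : ℤ) ∣ (r * c) ^ 2 - b * x * c ^ 2 := Gal.dvd_eq (hr.mul_right (c ^ 2)) (by ring)
  generalize b * x * c ^ 2 = D at *
  generalize r * c = r at hr
  have hl := Nat.prime_iff_prime_int.1 l2
  have h1 : ¬ (l : ℤ) ∣ D := fun k => by
    have := Int.le_of_dvd (by omega) (Int.dvd_natAbs.2 k)
    omega
  have h30 : ¬ (l : ℤ) ∣ 30 := fun k => by
    have := Int.le_of_dvd (by norm_num) k
    omega
  have h2 : ¬ (l : ℤ) ∣ r := fun k => h1 (Gal.dvd_eq ((dvd_pow k two_ne_zero).sub hr) (by ring))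
  have key : ∀ Q ∈ T, ∃ Q' ∈ T, gw e b Q' = -gw e b Q ∧ ∃ i : Fm, FEq Q (l * i.1, i.2.1, i.2.2) ∧
      (l : ℤ) ∣ i.2.1 - r ∧ FEq Q' (i.1, i.2.1, l * i.2.2) := fun Q hQ => by
    have f1 := hT.fam Q hQ
    obtain ⟨⟨_, B, C⟩, k1, ⟨A, rfl⟩, k2⟩ := hd_nf hl h30 h2 (f1.2.1 ▸ hr)
    have f2 := k1.fam f1
    have s : Scl l 1 0 0 l (l * A, B, C) (A, B, l * C) :=
      ⟨by ring, by omega, fun x y => by simp only [fval]; ring⟩
    obtain ⟨Q', h3, h4⟩ := hT.ex (A, B, l * C) ⟨(hl.coprime_iff_not_dvd.2 fun k =>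
      h30 (k.trans (by norm_num))).symm.dvd_of_dvd_mul_left f2.1, s.disc.trans f2.2.1, f2.2.2⟩
      ((mul_pos_iff_of_pos_left s.pos).1 (k1.pos (f1.2.1 ▸ hD) (hT.pos Q hQ)))
    refine ⟨Q', h3, ?_, (A, B, C), k1, k2, h4⟩
    rw [← gw_feq ((hT.fam Q' h3).2.1 ▸ ok) h4, s.gw (f2.2.1 ▸ ok) (fun k => by
      have := l2.eq_two_or_odd
      omega) (hl.coprime_iff_not_dvd.2 fun k => h1 (k.trans ok.dvd)), l3,
      gw_feq (f1.2.1 ▸ ok) k1, neg_one_mul]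
  choose! f f1 f2 i f3 f4 f5 using key
  have inj : Set.InjOn f T := fun Q hQ R hR k => hT.uniq Q hQ R hR ((f3 Q hQ).trans
    ((hd_inj hl (fun k => h30 (k.mul_right 15)) h2 (f4 Q hQ) (f4 R hR)
      ((f5 Q hQ).symm.trans (k ▸ f5 R hR))).trans (f3 R hR).symm))
  have := sum_nbij (f := fun Q => -gw e b Q) (g := gw e b) f f1 inj
    (surjOn_of_injOn_of_card_le f f1 inj le_rfl) fun Q hQ => (f2 Q hQ).symm
  rw [sum_neg_distrib] at this
  omega

theorem alg_sy {D : ℤ} (hD : D < 0) (hT : FReps D ρ T) (e b : ℤ) (w : Fm → ℤ) :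
    Unif.u15 (sy e b (∑ Q ∈ T, (w Q : ℂ) * Fi (froot Q))) ∈ Alg W15 := by
  have k : ∀ Q, Fam D ρ Q ∨ Fam D (-ρ) Q → 0 < Q.1 → Unif.u15 (Fi (froot Q)) ∈ Alg W15 :=
    fun Q h1 h2 => by
      rcases h1 with h1 | h1 <;>
      exact Unif.pt_eq_u15 (im_froot_pos (h1.2.1 ▸ hD) h2) ▸
        Gal.alg_pt hD ⟨h1.2.1, h2, h1.1, h1.2.2⟩
  rw [sy, map_add, map_sum, ← zsmul_eq_mul, map_zsmul, map_sum, map_sum]
  refine add_mem (sum_mem fun Q hQ => ?_) (zsmul_mem (sum_mem fun Q hQ => ?_) _)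
  · rw [← zsmul_eq_mul, map_zsmul]
    exact zsmul_mem (k Q (.inl (hT.fam Q hQ)) (hT.pos Q hQ)) _
  · rw [map_mul, map_intCast, ← zsmul_eq_mul, map_zsmul,
      ← Fi_froot_cj ((hT.fam Q hQ).2.1 ▸ hD) (hT.pos Q hQ)]
    exact zsmul_mem (k _ (.inr (hT.fam Q hQ).cj) (hT.pos Q hQ)) _

theorem alg_sy_hW {D : ℤ} (hD : D < 0) (hT : FReps D ρ T) (e b : ℤ) :
    Unif.u15 (sy e b (hW e b T)) ∈ Alg W15 := alg_sy hD hT e b _

theorem alg_sy_hU {D : ℤ} (hD : D < 0) (hT : FReps D ρ T) (e b : ℤ) :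
    Unif.u15 (sy e b (hU e b T)) ∈ Alg W15 := alg_sy hD hT e b _

end Pool.Agent.Lib.MP_696deb_nt.B3
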