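import Pool.Agent.Lib.MP_696deb_nt.B3.STa

/-! The Heegner point does not change, up to sign, under a change of the conductor at two. -/

set_option autoImplicit false

open scoped Classical
open Finset NumberTheorySymbols

namespace Pool.Agent.Lib.MP_696deb_nt.B3

open B2

variable {δ m e a b x β ρ ρ' : ℤ} {n : ℕ} {T T' : Finset Fm} {P Q : Fm} {i : Fin 3}

/-- The value that decides whether a neighbour is primitive at two. -/
def nv (i : Fin 3) (Q : Fm) : ℤ := fval Q (![1, 0, -1] i) (![0, 1, 1] i)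

theorem stw_root (hD : fdisc Q < 0) (hQ : 0 < Q.1) {a b d : ℤ} (ha : 0 < a) (hd : 0 < d) :
    froot (fmap Q a b 0 d) = (d * froot Q - b) / a := by
  have h1 := froot_root hD hQ
  have h2 := im_froot_pos hD hQ
  have h3 : (a : ℂ) ≠ 0 := by exact_mod_cast ha.ne'
  refine (eq_froot ?_ ?_ ?_ ?_).symm
  · rw [show fdisc (fmap Q a b 0 d) = (a * d) ^ 2 * fdisc Q by simp only [fdisc, fmap, fval]; ring]
    exact mul_neg_of_pos_of_neg (by positivity) hD
  · simpa [fmap, fval] using mul_pos hQ (pow_pos ha 2)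
  · rw [← Complex.ofReal_intCast a, Complex.div_ofReal_im]
    simp only [Complex.sub_im, Complex.mul_im, Complex.intCast_re, Complex.intCast_im, zero_mul,
      add_zero, sub_zero]
    positivity
  · simp only [fmap, fval]
    push_cast
    field_simp
    linear_combination (a * d : ℂ) ^ 2 * h1

theorem stw_hecke (hD : fdisc Q < 0) (hQ : 0 < Q.1) :
    ∑ i, Fi (froot (nb i Q)) = -Fi (froot Q) := by
  have := Unif.Fi_hecke Nat.prime_two (by norm_num) (im_froot_pos hD hQ)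
  rw [Fin.sum_univ_three, nb, nb, nb, stw_root hD hQ (by simp) (by simp),
    stw_root hD hQ (by simp) (by simp), stw_root hD hQ (by simp) (by simp)]
  simpa [sum_range_succ, a15_two, add_assoc] using this

theorem gw_nb (h4 : 4 ∣ e) (ho : Odd (oc e b)) (hd : (oc e b : ℤ) ∣ fdisc Q) (i : Fin 3) :
    gw e b (nb i Q) = k2 e (nv i Q) * gch (oc e b) Q := by
  refine congrArg₂ _ ?_ (prod_congr rfl fun p hp => ?_)
  · fin_cases i
    · simp only [g2, nb, nv, fmap, fval]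
      split_ifs with l
      · rw [k2_even h4 (by simp; omega), k2_even h4 (by simpa using l)]
      · rfl
    all_goals exact congrArg _ (if_pos (by simp [nb, fmap, fval]; omega))
  have h1 := Nat.prime_of_mem_primeFactors hp
  have h2 := prime_ne_two ho hp
  have h3 := dvd_of_mem hd hp
  refine (gl_of_vals h1 h2 h3 (by rw [nb_disc]; exact h3.mul_left _) (k := 2 ^ 2)
    (fun l => not_dvd_of_prime_ne h1 Nat.prime_two h2
      ((Nat.prime_iff_prime_int.1 h1).dvd_of_dvd_pow l))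
    (fun x y => ⟨![2, 1, 1] i * x - ![0, 0, -1] i * y, ![1, 2, 2] i * y, 0, ?_⟩)
    fun h0 x y => by rw [nb, fval_fmap]; exact h0 _ _).trans ?_
  · fin_cases i <;> simp [nb, fmap, fval] <;> ring
  · rw [jacobiSym.sq_one', one_mul, gl]
    exact (Nat.coprime_primes Nat.prime_two h1).2 h2.symm

theorem stw_key (h4 : 4 ∣ e) (ok : GOk e b (fdisc Q)) (hD : fdisc Q < 0) (hQ : 0 < Q.1)
    (h : Ev2 (nb i Q)) : ∑ j, gw e b (nb j Q) • tq (Fi (froot (nb j Q))) +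
      gw e b Q • tq (Fi (froot Q)) = -gw e b Q • tq (Fi (froot (nb i Q))) := by
  have h1 : ∀ j, gw e b (nb j Q) = if 2 ∣ nv j Q then 0 else gw e b Q := fun j => by
    rw [gw_nb h4 ok.odd ok.dvd]
    split_ifs with l
    · rw [k2_even h4 l, zero_mul]
    · rw [gw, g2_fval ok.sq l, nv, oc]
  have hb : 2 ∣ Q.2.1 := Int.prime_two.dvd_of_dvd_pow (n := 2) (by
    have := ((dvd_pow (Dvd.dvd.trans (by norm_num) h4 : 2 ∣ e) two_ne_zero).trans ok.sq).add
      (Dvd.intro (2 * Q.1 * Q.2.2) rfl)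
    rwa [show fdisc Q + 2 * (2 * Q.1 * Q.2.2) = Q.2.1 ^ 2 by rw [fdisc]; ring] at this)
  by_cases l : 2 ∣ Q.1 ∧ 2 ∣ Q.2.2
  · have : gw e b Q = 0 := by rw [gw, g2, if_pos l.1, k2_even h4 l.2, zero_mul]
    simp [h1, this]
  have h2 : ∀ j, 2 ∣ nv j Q ↔ j = i := fun j => by
    fin_cases i <;> fin_cases j <;> simp [nb, nv, fmap, fval, Ev2] at h ⊢ <;> omega
  have h3 := congrArg tq (stw_hecke hD hQ)
  rw [map_sum, map_neg, ← neg_eq_iff_eq_neg] at h3
  simp only [h1, h2, ← h3, Fin.sum_univ_three]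
  fin_cases i <;> simp <;> module

theorem stw_sib {y c : ℤ} (h : 4 * c ∣ 120) (hy : y % 4 = 1) (hd : fdisc P = 4 * (y * c ^ 2)) :
    ∑ i, k2 (4 * c) (nv i P) = 0 := by
  obtain ⟨A, B, C⟩ := P
  obtain ⟨B, rfl⟩ : 2 ∣ B := Int.prime_two.dvd_of_dvd_pow (n := 2)
    ⟨2 * (y * c ^ 2 + A * C), by simp only [fdisc] at hd; linear_combination hd⟩
  have h1 : B ^ 2 - A * C = y * c ^ 2 := by simp only [fdisc] at hd; linarith
  simp only [Fin.sum_univ_three, nv, fval, k2]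
  by_cases h8 : 8 ∣ 4 * c
  · have k : ∀ A B C : ZMod 8, B ^ 2 - A * C = 4 →
        ZMod.χ₈ A + ZMod.χ₈ C + ZMod.χ₈ (A - 2 * B + C) = 0 ∧
        ZMod.χ₈' A + ZMod.χ₈' C + ZMod.χ₈' (A - 2 * B + C) = 0 := by decide
    obtain ⟨u, rfl⟩ : ∃ u, c = 4 * u + 2 := ⟨c / 4, by
      have : ¬ 16 ∣ 4 * c := fun l => absurd (l.trans h) (by norm_num)
      omega⟩
    obtain ⟨v, rfl⟩ : ∃ v, y = 4 * v + 1 := ⟨y / 4, by omega⟩
    have := k A B C (sub_eq_zero.1 (by
      exact_mod_cast (sta_dvd 8 (B ^ (2 : ℕ) - A * C - 4)).1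
        ⟨2 * ((4 * v + 1) * (u ^ 2 + u) + v), by rw [h1]; push_cast; ring⟩))
    simp only [if_pos h8]
    split_ifs
    · simpa [sub_eq_add_neg] using this.1
    · simpa [sub_eq_add_neg] using this.2
  · have k : ∀ A B C : ZMod 4, B ^ 2 - A * C = 1 →
        ZMod.χ₄ A + ZMod.χ₄ C + ZMod.χ₄ (A - 2 * B + C) = 0 := by decide
    obtain ⟨u, rfl⟩ : ∃ u, c = 2 * u + 1 := ⟨c / 2, by omega⟩
    obtain ⟨v, rfl⟩ : ∃ v, y = 4 * v + 1 := ⟨y / 4, by omega⟩
    have := k A B C (sub_eq_zero.1 (by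
      exact_mod_cast (sta_dvd 4 (B ^ (2 : ℕ) - A * C - 1)).1
        ⟨(4 * v + 1) * (u ^ 2 + u) + v, by rw [h1]; push_cast; ring⟩))
    simp only [if_neg h8]
    simpa [sub_eq_add_neg] using this

theorem hW_lv (h : Dsc δ m e) (hb : Cls0 b) (hx : x % 4 = 1) (h0 : b * x < 0)
    (hT : FReps (b * x * e ^ 2) (ρ * e.natAbs) T) (hT' : FReps (b * x * lv e ^ 2) (ρ * lv e) T') :
    ∃ c : ℤ, (c = 1 ∨ c = -1) ∧ tq (hW e b T') = c • tq (hW e b T) := by
  have ok : GOk e b (b * x * e ^ 2) := h.gOk hb ⟨x, by ring⟩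
  have e0 := h.ne_zero
  have neg : b * x * e ^ 2 < 0 := mul_neg_of_neg_of_pos h0 (by positivity)
  rw [tq_hW, tq_hW]
  by_cases h2 : 2 ∣ e
  swap
  · rw [lv, if_neg h2, Int.natAbs_pow_two] at hT'
    exact ⟨1, .inl rfl, by
      rw [one_smul]
      exact hT'.sum_eq hT _ fun Q R h1 h3 h4 => by
        rw [gw_feq (h1.2.1 ▸ ok) h4, FReps.tq_froot neg h1.2.1 h3 h4]⟩
  obtain ⟨-, d120, d4, -⟩ := h.spt.dsc h.eq
  obtain ⟨c, rfl⟩ := d4 h2
  have h4 := dvd_mul_right 4 c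
  have y4 : b * x % 4 = 1 := by rw [Int.mul_emod, hb.m4, hx]; rfl
  have n1 : b * x * c ^ 2 < 0 := by nlinarith
  have m1 : b * x * c ^ 2 % 4 = 0 ∨ b * x * c ^ 2 % 4 = 1 := by
    rw [Int.mul_emod, y4, one_mul, Int.emod_emod, sq, Int.mul_emod]
    have : c % 4 = 0 ∨ c % 4 = 1 ∨ c % 4 = 2 ∨ c % 4 = 3 := by omega
    rcases this with k | k | k | k <;> simp [k]
  have e1 : b * x * (4 * c) ^ 2 = 4 * (4 * (b * x * c ^ 2)) := by ring
  have e2 : ρ * (4 * c).natAbs = 2 * (2 * (ρ * c.natAbs)) := by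
    rw [Int.natAbs_mul, Nat.cast_mul]
    simp only [Int.reduceAbs, Nat.cast_ofNat]
    ring
  rw [lv, if_pos h2, mul_pow, Int.natAbs_pow_two, mul_left_comm, e1, mul_left_comm ρ, e2] at hT'
  rw [e1] at ok neg
  rw [e1, e2] at hT
  have ok' : GOk (4 * c) b (4 * (4 * (4 * (b * x * c ^ 2)))) :=
    ⟨ok.sqf, ok.odd, ok.sq.mul_left _, ok.dvd.mul_left _⟩
  have z : ∀ Q, Ev2 Q → gw (4 * c) b Q = 0 := fun Q l => by
    rw [gw, g2, if_pos l.1, k2_even h4 l.2.2, zero_mul]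
  obtain ⟨T0, hT0⟩ := exists_freps (D := 4 * (b * x * c ^ 2)) (by omega) (2 * (ρ * c.natAbs))
  refine ⟨-1, .inr rfl, ?_⟩
  rw [sum_nb (by omega) (.inl (by omega)) (dvd_mul_right _ _) hT hT' _
    (fun P i => gw (4 * c) b (nb i P) • tq (Fi (froot (nb i P))))
    (fun Q _ l => by rw [z Q l, zero_smul]) fun P hP i Q _ l => by
      have k := (nb_Nb i P).fam (hT.fam P hP)
      rw [gw_feq (k.2.1 ▸ ok') l, FReps.tq_froot (by omega) k.2.1 (nb_pos i (hT.pos P hP)) l],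
    neg_one_smul, eq_neg_iff_add_eq_zero, ← sum_add_distrib,
    sum_nb n1 m1 (dvd_mul_right _ _) hT0 hT _
      (fun P i => -gw (4 * c) b (nb i P) • tq (Fi (froot P))) (fun Q hQ l => ?_)
      fun P hP i Q hQ l => ?_]
  · refine sum_eq_zero fun P hP => ?_
    have k := (hT0.fam P hP).2.1
    have o : IsCoprime (oc (4 * c) b : ℤ) (2 ^ 2) :=
      (Int.isCoprime_two_right.2 (by exact_mod_cast ok.odd)).pow_right
    simp only [gw_nb h4 ok.odd (k ▸ o.dvd_of_dvd_mul_left ok.dvd), ← sum_smul, sum_neg_distrib,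
      ← sum_mul, stw_sib d120 y4 k, zero_mul, neg_zero, zero_smul]
  · have k := (hT.fam Q hQ).2.1
    rw [stw_key (i := 0) h4 (k ▸ ok) (k ▸ neg) (hT.pos Q hQ) (sta_ev l _ _ _ _), z Q l, neg_zero,
      zero_smul]
  · have k := (hT.fam Q hQ).2.1
    have k' := (hT0.fam P hP).2.1
    obtain ⟨j, hj⟩ := ((nb_Nb i P).right l).back.dec
    rw [stw_key h4 (k ▸ ok) (k ▸ neg) (hT.pos Q hQ)
      (sta_feq hj.symm (by simp [Ev2, fmap, fval]; omega)),
      gw_feq (by rw [nb_disc, k']; exact ok) l, ← FReps.tq_froot (by rw [nb_disc, k]; omega) rfl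
        (nb_pos j (hT.pos Q hQ)) hj, stw_root (by omega) (hT0.pos P hP) two_pos two_pos]
    simp

end Pool.Agent.Lib.MP_696deb_nt.B3
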