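import Pool.Agent.Lib.MP_696deb_nt.B3.AV2

/-! The split family and its class. -/

set_option autoImplicit false

open scoped Classical
open Finset NumberTheorySymbols

namespace Pool.Agent.Lib.MP_696deb_nt.B3

open B2

variable {δ m e a b x β ρ ρ' : ℤ} {n : ℕ} {T T' : Finset Fm}

theorem PChr.sum_zero {N : ℕ} {χ : ℤ → ℤ} (h : PChr N χ) (h1 : 1 < N) :
    ∑ k ∈ range N, χ k = 0 := by
  have : NeZero N := ⟨h.ne⟩
  have h2 := h.gs_eq 0
  rw [h.zero 0 (by rw [isCoprime_zero_left, Int.isUnit_iff]; omega), Int.cast_zero, Int.cast_zero,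
    zero_mul, gsC] at h2
  rw [← Int.cast_inj (α := ℂ), Int.cast_sum, Int.cast_zero, ← h2]
  refine (sum_nbij' (fun j : ZMod N => j.val) (fun j : ℕ => (j : ZMod N)) (by
    simp [ZMod.val_lt]) (by simp) (by simp)
    (fun j hj => ZMod.val_cast_of_lt (by simpa using hj)) fun k _ => ?_).symm
  simp

theorem PChr.conj {N : ℕ} {χ : ℤ → ℤ} (h : PChr N χ) :
    (starRingEnd ℂ) (∑ k ∈ range N, (χ k : ℂ) * ms k N) =
      χ (-1) * ∑ k ∈ range N, (χ k : ℂ) * ms k N := by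
  have h1 : ∀ k : ℤ, (χ (k + N) : ℂ) * ms (k + N) N = χ k * ms k N := fun k => by
    rw [h.per (k + N) k (by simp), ← ms_add_mul k N 1, one_mul]
  have h2 := (sum_range_succ (fun k => (χ k : ℂ) * ms k N) N).symm.trans
    (sum_range_succ' (fun k => (χ k : ℂ) * ms k N) N)
  rw [← zero_add (N : ℤ), zero_add (N : ℤ), show ((χ N : ℂ) * ms N N) = χ (0 : ℕ) * ms (0 : ℕ) N by
    simpa using h1 0, add_left_inj] at h2
  rw [map_sum, h2, ← sum_range_reflect (fun k => (χ (k + 1 : ℕ) : ℂ) * ms (k + 1 : ℕ) N), mul_sum]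
  refine sum_congr rfl fun k hk => ?_
  have h3 : ((N - 1 - k + 1 : ℕ) : ℤ) = -k + N := by have := mem_range.1 hk; omega
  rw [h3, h1, map_mul, map_intCast, ms_conj, ← mul_assoc, ← Int.cast_mul, ← h.mul, neg_mul_neg,
    one_mul]

theorem gw_line (h : Squarefree (oc e a)) (b c : ℤ) : gw e a (0, b, c) = kap e a c := by
  rw [gw, g2, if_pos (dvd_zero _), gch, prod_congr rfl fun p _ => if_pos (dvd_zero _), kap,
    jac_eq_prod _ h, oc]

theorem exists_root2 {p q r s : ℤ} (h : p * s = q * r) (h0 : q ≠ 0 ∨ r ≠ 0) :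
    ∃ x y, IsCoprime x y ∧ p * x + q * y = 0 ∧ r * x + s * y = 0 := by
  have key : ∀ u v : ℤ, u ≠ 0 ∨ v ≠ 0 → p * u + q * v = 0 → r * u + s * v = 0 →
      ∃ x y, IsCoprime x y ∧ p * x + q * y = 0 ∧ r * x + s * y = 0 := fun u v j k l => by
    obtain ⟨g, x, y, g0, hxy, rfl, rfl⟩ := Int.exists_gcd_one' (m := u) (n := v)
      (Int.gcd_pos_iff.2 j)
    have g1 : (g : ℤ) ≠ 0 := by exact_mod_cast g0.ne'
    exact ⟨x, y, Int.isCoprime_iff_gcd_eq_one.2 hxy, mul_right_cancel₀ g1 (by linear_combination k),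
      mul_right_cancel₀ g1 (by linear_combination l)⟩
  rcases h0 with j | j
  · exact key q (-p) (.inl j) (by ring) (by linear_combination -h)
  · exact key s (-r) (.inr (neg_ne_zero.2 j)) (by linear_combination h) (by ring)

theorem exists_vline {A : ℤ} {R : Fm} (hA : 0 < A) (h : Fam (A ^ 2) A R)
    (hu : ∀ p : ℕ, p.Prime → (p : ℤ) ∣ 15 → (p : ℤ) ∣ A → ¬ (p : ℤ) ∣ R.2.2) :
    ∃ k, FEq (0, A, -k) R := by
  obtain ⟨h1, h2, h3⟩ := h
  rw [fdisc] at h2
  obtain ⟨x, y, ⟨z, w, e⟩, k1, k2⟩ := exists_root2 (p := 2 * R.1) (q := R.2.1 + A) (r := R.2.1 - A)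
    (s := 2 * R.2.2) (by linear_combination -h2) (by omega)
  have key : ∀ p : ℕ, p.Prime → (p : ℤ) ∣ 15 → (p : ℤ) ∣ y := fun p hp h15 => by
    have hP := Nat.prime_iff_prime_int.1 hp
    have h4 : (p : ℤ) ∣ R.2.1 - A := (h15.mul_left 2).trans h3
    have h5 : ¬ (p : ℤ) ∣ 2 := fun j => hP.not_dvd_one (by
      simpa using dvd_sub h15 (j.mul_left 7))
    by_cases j : (p : ℤ) ∣ A
    · have h6 : (p : ℤ) ∣ 2 * R.2.2 * y := by
        rw [eq_neg_of_add_eq_zero_right k2, dvd_neg]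
        exact h4.mul_right _
      exact (hP.dvd_or_dvd h6).resolve_left fun i => (hP.dvd_or_dvd i).elim h5 (hu p hp h15 j)
    · have h6 : (p : ℤ) ∣ 2 * A * y := by
        rw [show 2 * A * y = -(2 * R.1 * x + (R.2.1 - A) * y) by linear_combination k1, dvd_neg]
        exact dvd_add (((h15.trans h1).mul_left _).mul_right _) (h4.mul_right _)
      exact (hP.dvd_or_dvd h6).resolve_left fun i => (hP.dvd_or_dvd i).elim h5 j
  have k3 := key 3 Nat.prime_three (by norm_num)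
  have k5 := key 5 Nat.prime_five (by norm_num)
  obtain ⟨y, rfl⟩ : 15 ∣ y := by omega
  have e' : x * z - -w * (15 * y) = 1 := by linear_combination e
  refine ⟨-fval R (-w) z, FEq.symm ⟨x, -w, y, z, e', ?_⟩⟩
  refine Prod.ext (mul_left_cancel₀ two_ne_zero ?_) (Prod.ext ?_ (neg_neg _)) <;>
    simp only [fmap, fval]
  · linear_combination -x * k1 - 15 * y * k2
  · linear_combination w * k1 - z * k2 - A * e'

theorem Dsc.one_lt (h : Dsc δ m e) (ha : Cls0 a) : 1 < B3.cn e a := by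
  have h1 : 1 < e.natAbs := by
    have h2 := h.ne
    obtain ⟨h3, h4⟩ := h.spt.cases
    rw [h.eq]
    rcases h3 with rfl | rfl | rfl | rfl <;> rcases h4 with rfl | rfl | rfl | rfl <;> simp at h2 ⊢
  have h2 : 0 < a.natAbs := Int.natAbs_pos.2 ha.sqf.ne_zero
  rw [B3.cn, Int.natAbs_mul]
  nlinarith

theorem Dsc.okV (h : Dsc δ m e) (ha : Cls0 a) : GOk e a (B3.cn e a ^ 2) :=
  h.gOk ha ⟨a, by rw [B3.cn, Int.natAbs_sq]; ring⟩

theorem cn_dvd (ha : Cls0 a) {p : ℕ} (hp : p.Prime) (h15 : (p : ℤ) ∣ 15) :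
    (p : ℤ) ∣ cn e a ↔ (p : ℤ) ∣ e := by
  rw [cn, Int.dvd_natAbs]
  refine ⟨fun j => ((Nat.prime_iff_prime_int.1 hp).dvd_or_dvd j).resolve_right fun i => ?_,
    fun j => j.mul_right _⟩
  have h1 : p ∣ 3 * 5 := Int.natCast_dvd_natCast.1 h15
  rcases hp.dvd_mul.1 h1 with k | k
  · obtain rfl := (Nat.prime_dvd_prime_iff_eq hp Nat.prime_three).1 k
    exact ha.m3 i
  · obtain rfl := (Nat.prime_dvd_prime_iff_eq hp Nat.prime_five).1 k
    exact ha.m5 i

theorem Dsc.gw_VW (h : Dsc δ m e) (ha : Cls0 a) (h5 : ¬ (5 : ℤ) ∣ B3.cn e a) {R : Fm}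
    (hR : 15 ∣ R.1) (hd : fdisc R = B3.cn e a ^ 2) :
    gw e a (fV (fW R)) = B3.kap e a 5 * gw e a R := by
  refine (scl_fVW hR).gw (hd ▸ h.okV ha) (by norm_num)
    ((Int.prime_iff_natAbs_prime.2 (by norm_num)).coprime_iff_not_dvd.2 fun j => h5 (j.trans ?_))
  rw [B3.cn, Int.natAbs_mul, oc]
  exact Int.natCast_dvd_natCast.2 (Nat.mul_dvd_mul_right (Nat.gcd_dvd_left _ _) _)

theorem geo_V (h : Dsc δ m e) (ha : Cls0 a) : ∃ κ, Geo (wV3 e a) (cn e a ^ 2) κ := by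
  have h0 := ha.sqf.ne_zero
  have h1 := (h.pchr ha).sum_zero (h.one_lt ha)
  have ok := h.okV ha
  have c3 := cn_dvd (e := e) ha Nat.prime_three (by norm_num)
  have c5 := cn_dvd (e := e) ha Nat.prime_five (by norm_num)
  refine exists_geo3 (wt_wU ok _) (by have := h.one_lt ha; omega) (fun R k => (fam_of_wU k).1)
    ?_ fun b hb => ⟨?_, ?_⟩
  · rintro ⟨_, b, c⟩ k rfl
    obtain ⟨-, h2, h3⟩ := fam_of_wU k
    have h4 : ∀ p : ℕ, p.Prime → (p : ℤ) ∣ 15 → ¬ (p : ℤ) ∣ e := fun p hp h15 j => k (by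
      rw [wV3, wU, uw, gw_zero h.spt h.eq a hp j (h15.mul_right _) (by simp [fV]) h0, ite_self])
    have h5 := h4 3 Nat.prime_three (by norm_num)
    have h6 := h4 5 Nat.prime_five (by norm_num)
    rw [← c3] at h5
    rw [← c5] at h6
    rcases sq_eq_sq_iff_eq_or_eq_neg.1 (show b ^ 2 = (cn e a : ℤ) ^ 2 by simpa [fdisc] using h2)
      with rfl | rfl <;> simp only at h3 <;> omega
  · by_cases j : 30 ∣ -b - 11 * cn e a
    · refine (sum_congr rfl fun k _ => ?_).trans h1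
      rw [wV3, wU, if_pos ⟨dvd_mul_right _ _, by rcases hb with rfl | rfl <;> simp [fV, fdisc], j⟩,
        uw, fV_fV (dvd_zero _), gw_line ok.sqf]
    · exact sum_eq_zero fun k _ => if_neg fun i => j i.2.2
  · have hd : ∀ k, fdisc (0, b, k) = cn e a ^ 2 := fun k => by
      rcases hb with rfl | rfl <;> simp [fdisc]
    by_cases j : 30 ∣ b - 11 * (11 * cn e a)
    swap
    · exact sum_eq_zero fun k _ => if_neg fun i => j ((fam_fW_iff (dvd_zero _)).1 i).2.2
    by_cases i : (5 : ℤ) ∣ cn e a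
    · refine sum_eq_zero fun k _ => ?_
      rw [wV3, wU, uw, gw_zero h.spt h.eq a Nat.prime_five (c5.1 i) (by simp only [fV]; omega)
        (by simp only [fV, fW]; omega) h0, ite_self]
    refine (sum_congr rfl (g := fun k : ℕ => kap e a 5 * kap e a k) fun k _ => ?_).trans
      (by rw [← mul_sum, h1, mul_zero])
    rw [wV3, wU, if_pos ((fam_fW_iff (dvd_zero _)).2 ⟨dvd_zero _, hd k, j⟩), uw,
      h.gw_VW ha i (dvd_zero _) (hd k), gw_line ok.sqf]

theorem spl_V (h : Dsc δ m e) (ha : Cls0 a) {φ : Fm → Fm} {s : ℤ} {κ : ℂ}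
    (g : Geo (wV3 e a) (cn e a ^ 2) κ)
    (hφ : ∀ R, 15 ∣ R.1 → wV3 e a (φ R) = s * wD e a (cn e a ^ 2) (cn e a) R) :
    Spl3 φ (cn e a) (wV3 e a) κ ∧
      prd φ (cn e a) (wV3 e a) = (s * kap e a (-1) : ℤ) * perD (δ * m * a) := by
  have h1 := h.one_lt ha
  have χ := h.pchr ha
  have h2 : ∀ k, wV3 e a (φ (0, cn e a, -k)) = s * kap e a (-1) * kap e a k := fun k => by
    rw [hφ _ (dvd_zero _), wD, if_pos ⟨dvd_zero _, by simp [fdisc], by simp⟩,
      gw_line (h.okV ha).sqf, mul_assoc, ← χ.mul, neg_one_mul]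
  refine ⟨⟨by omega, g, fun R k => (fam_of_wU k).1, fun R k j => ?_,
    fun k j => χ.cop (right_ne_zero_of_mul (h2 k ▸ j)), ?_⟩, ?_⟩
  · have h3 := right_ne_zero_of_mul (hφ R k ▸ j)
    refine exists_vline (by omega) (fam_of_wD h3) fun p hp h15 i l => h3 ?_
    rw [wD, gw_zero h.spt h.eq a hp ((cn_dvd ha hp h15).1 i) (h15.trans k) l ha.sqf.ne_zero,
      ite_self]
  · simp only [h2, ← mul_sum]
    rw [sum_Ico_zero, χ.sum_zero h1, mul_zero]
  · simp only [prd, h2]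
    rw [sum_Ico_zero _ fun k => ((s * kap e a (-1) * kap e a k : ℤ) : ℂ) * ms k (cn e a), perD,
      ← h.cn ha, ← h.kap ha.m4, mul_sum]
    exact sum_congr rfl fun k _ => by push_cast; ring

theorem th_V (h : Dsc δ m e) (ha : Cls0 a) :
    thS (δ * m * a) (wV3 e a) ≠ 0 ↔ perD (δ * m * a) ≠ 0 := by
  obtain ⟨κ, g⟩ := geo_V h ha
  have χ := h.pchr ha
  obtain ⟨c, hc, h1, h2⟩ : ∃ c : ℝ, c ≠ 0 ∧ wm * thw (wV3 e a) 7 15 = c * (perD (δ * m * a)).im ∧
      wp * thw (wV3 e a) 4 15 = c * (perD (δ * m * a)).re := by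
    have u : kap e a (-1) ≠ 0 := by
      rcases χ.unit (isCoprime_one_left.neg_left) with j | j <;> simp [j]
    by_cases i : (5 : ℤ) ∣ cn e a
    · obtain ⟨s, p⟩ := spl_V h ha (φ := fV) (s := 1) g fun R k => by
        rw [one_mul, wV3, wU, wD, uw, fV_fV k]
        refine if_congr ⟨fun j => ?_, fun j => ?_⟩ rfl rfl
        · have h3 := fam_fV j
          rw [fV_fV k] at h3
          exact ⟨k, h3.2.1, by have := h3.2.2; omega⟩
        · have h3 := fam_fV j
          exact ⟨h3.1, h3.2.1, by have := h3.2.2; omega⟩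
      have h3 := s.cls al_fV (fun _ => geo_vvV) (avd_V i)
      rw [p, ← Complex.ofReal_intCast, Complex.re_ofReal_mul, Complex.im_ofReal_mul, ← mul_assoc,
        ← mul_assoc] at h3
      exact ⟨_, mul_ne_zero (Int.cast_ne_zero.2 tt_V) (Int.cast_ne_zero.2 (by simpa using u)), h3⟩
    · obtain ⟨s, p⟩ := spl_V h ha (φ := fW) (s := kap e a 5) g fun R k => by
        rw [wV3, wU, wD, uw]
        by_cases j : Fam (cn e a ^ 2) (cn e a) R
        · rw [if_pos j, if_pos (fW_fam j), h.gw_VW ha i k j.2.1]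
        · rw [if_neg j, mul_zero, if_neg fun l => j ?_]
          have h3 := (fam_fW_iff k).1 l
          exact ⟨k, h3.2.1, by have := h3.2.2; omega⟩
      have h3 := s.cls al_fW (fun _ => geo_vvW) (avd_W i)
      have v : kap e a 5 ≠ 0 := by
        rcases χ.unit ((Int.prime_iff_natAbs_prime.2 (by norm_num)).coprime_iff_not_dvd.2 i)
          with j | j <;> simp [j]
      rw [p, ← Complex.ofReal_intCast, Complex.re_ofReal_mul, Complex.im_ofReal_mul, ← mul_assoc,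
        ← mul_assoc] at h3
      exact ⟨_, mul_ne_zero (Int.cast_ne_zero.2 tt_W) (Int.cast_ne_zero.2 (mul_ne_zero v u)), h3⟩
  have h3 := χ.conj
  rw [h.kap_neg ha, h.cn ha, h.kap ha.m4, ← perD] at h3
  have h4 := congrArg Complex.re h3
  have h5 := congrArg Complex.im h3
  rw [thS, not_iff_not, Complex.ext_iff]
  split_ifs with j
  · rw [Int.sign_eq_one_of_pos j, Int.cast_one, one_mul, Complex.conj_im] at h5
    rw [← Int.cast_eq_zero (α := ℝ), ← mul_eq_zero_iff_left wp_neg.ne, h2, mul_eq_zero_iff_left hc]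
    exact ⟨fun k => ⟨k, by simp; linarith⟩, fun k => k.1⟩
  · rw [Int.sign_eq_neg_one_of_neg ((not_lt.1 j).lt_of_ne (h.sqf ha).ne_zero), Int.cast_neg,
      Int.cast_one, neg_one_mul, Complex.conj_re, Complex.neg_re] at h4
    rw [← Int.cast_eq_zero (α := ℝ), ← mul_eq_zero_iff_left wm_ne, h1, mul_eq_zero_iff_left hc]
    exact ⟨fun k => ⟨by simp; linarith, k⟩, fun k => k.2⟩

end Pool.Agent.Lib.MP_696deb_nt.B3
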