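import Pool.Agent.Lib.MP_696deb_nt.B3.SMa
import Pool.Agent.Lib.MP_696deb_nt.B3.SVv
import Pool.Agent.Lib.MP_696deb_nt.B3.STw
import Pool.Agent.Lib.MP_696deb_nt.B3.SHd
import Pool.Agent.Lib.MP_696deb_nt.B3.SGa

/-! Proportionality of twisted Heegner points. -/

set_option autoImplicit false

open scoped Classical
open Finset NumberTheorySymbols

namespace Pool.Agent.Lib.MP_696deb_nt.B3

open B2

variable {δ m e a b x β ρ ρ' : ℤ} {n : ℕ} {T T' : Finset Fm}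

theorem Dsc.sign (h : Dsc δ m e) (t : Tri a b x n ρ) (hr : rootNo (δ * m * b) = -1) :
    rt0 (δ * m * b) = (δ * m * a).sign ∧ (δ * m * b).sign = -(δ * m * a).sign := by
  have h0 : δ * m ≠ 0 := left_ne_zero_of_mul (h.sqf t.cls.1).ne_zero
  have h1 : (δ * m * a).sign * (δ * m * b).sign = -1 := by
    rw [← Int.sign_mul, show δ * m * a * (δ * m * b) = -((δ * m) ^ 2 * n) by
      linear_combination (δ * m) ^ 2 * t.mul]
    have := t.good.mod4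
    have : 0 < n := by omega
    exact Int.sign_eq_neg_one_of_neg (neg_lt_zero.2 (by positivity))
  rw [rootNo] at hr
  rcases Int.eq_one_or_neg_one_of_mul_eq_neg_one' h1 with k | k <;> rw [k.1, k.2] <;>
    rw [k.2] at hr <;> omega

theorem Dsc.dvd (h : Dsc δ m e) : m ∣ e := (dvd_mul_left m δ).trans (h.spt.dsc h.eq).2.2.2.1

theorem Tri.neg (t : Tri a b x n ρ) (h : e ≠ 0) :
    -((n : ℤ) * e ^ 2) < 0 ∧ b * x * lv e ^ 2 < 0 ∧ -((n : ℤ) * e ^ 2) = b * a * e ^ 2 := by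
  have := t.good.mod4
  have : 0 < n := by omega
  exact ⟨neg_lt_zero.2 (by positivity),
    mul_neg_of_neg_of_pos t.cls.2.2.1 (pow_pos (lv_pos h) 2), by linear_combination -e ^ 2 * t.mul⟩

theorem geo_X (h : Dsc δ m e) (ha : Cls0 a) (h0 : 0 < a * x) (hs : ¬ IsSquare (a * x)) (β : ℤ) :
    ∃ κ, Geo (wX e a x β) (a * x * lv e ^ 2) κ :=
  (wt_wU (h.gOk ha (mul_dvd_mul (dvd_mul_right a x) (pow_dvd_pow_of_dvd (dvd_lv e) 2))) _).exists_geo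
    (mul_pos h0 (pow_pos (lv_pos h.ne_zero) 2))
    fun k => hs (isSquare_of_mul_sq (lv_pos h.ne_zero).ne' k)

theorem gkz3' (h : Dsc δ m e) (t : Tri a b x n ρ) (hr : rootNo (δ * m * b) = -1)
    (hs : ¬ IsSquare (a * x)) (hβ : 30 ∣ ρ * β - 11 * a.natAbs * ρ')
    (hT : FReps (-(n * e ^ 2)) (ρ * e.natAbs) T) (hT' : FReps (b * x * lv e ^ 2) (ρ' * lv e) T') :
    ∃ c : ℤ, (c = 1 ∨ c = -1) ∧ thS (δ * m * a) (wX e a x β) • tq (hW e b T) =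
      (c * thS (δ * m * a) (wV3 e a)) • tq (hW e b T') := by
  obtain ⟨ha, hb, h0, -⟩ := t.cls
  obtain ⟨n1, n2, n3⟩ := t.neg h.ne_zero
  obtain ⟨c, hc, k⟩ := match_A3 h t hβ hT hT'
  obtain ⟨κ, g⟩ := geo_X h ha t.pos hs β
  obtain ⟨κ', g'⟩ := geo_V h ha
  have o := (h.gOk ha dvd_rfl).sqf
  have ok : GOk e b (-(n * e ^ 2)) := h.gOk hb (n3 ▸ mul_dvd_mul_right (dvd_mul_right b a) _)
  have ok' : GOk e b (b * x * lv e ^ 2) :=
    h.gOk hb (mul_dvd_mul (dvd_mul_right b x) (pow_dvd_pow_of_dvd (dvd_lv e) 2))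
  refine ⟨c, hc, gkz_core3 (u := gw e b) (u' := gw e b)
    ⟨n1, fun Q hQ => (hT.fam Q hQ).2.1, hT.pos, deg_gw h hb ha (by linarith [t.mul, n1, mul_comm a b,
      t.good.neg]) dvd_rfl h.ne_zero (n3 ▸ hT)⟩
    ⟨n2, fun Q hQ => (hT'.fam Q hQ).2.1, hT'.pos,
      deg_gw h hb t.cx h0 (dvd_lv e) (lv_pos h.ne_zero).ne' hT'⟩ g g' ?_ (fun s => ?_)
    (h.sqf ha).ne_zero (fun R => ?_) (fun R => ?_) rfl rfl ?_ ?_⟩
  · rw [n3, cn, Int.natAbs_sq]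
    ring
  · rw [← k]
    exact cntP_congr (fun Q hQ => gw_swap h.spt h.eq t.good (mul_comm a b ▸ t.mul)
      (hT.fam Q hQ).2.1 (hT.pos Q hQ)) _ _
  · rw [wX, wU_neg o, h.kap_neg ha]
  · rw [wV3, wU_neg o, h.kap_neg ha]
  · rw [← (h.sign t hr).1]
    exact conj_hW3 h hb ok n1 ((h.dvd.trans (Int.dvd_natAbs.2 dvd_rfl)).mul_left _) hT
  · rw [← (h.sign t hr).1]
    exact conj_hW3 h hb ok' n2 ((h.dvd.trans (dvd_lv e)).mul_left _) hT'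

theorem gkz3 (h : Dsc δ m e) (t : Tri a b x n ρ) (hr : rootNo (δ * m * b) = -1)
    (hs : ¬ IsSquare (a * x)) (hβ : 30 ∣ ρ * β - 11 * a.natAbs * ρ')
    (hT : FReps (-(n * e ^ 2)) (ρ * e.natAbs) T) (hT' : FReps (b * x * e ^ 2) (ρ' * e.natAbs) T') :
    ∃ c : ℤ, (c = 1 ∨ c = -1) ∧ thS (δ * m * a) (wX e a x β) • tq (hW e b T) =
      (c * thS (δ * m * a) (wV3 e a)) • tq (hW e b T') := by
  obtain ⟨-, hb, h0, -⟩ := t.cls
  obtain ⟨T2, h2⟩ := exists_freps (mul_neg_of_neg_of_pos h0 (pow_pos (lv_pos h.ne_zero) 2))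
    (ρ' * lv e)
  obtain ⟨c, hc, k⟩ := gkz3' h t hr hs hβ hT h2
  obtain ⟨c', hc', k'⟩ := hW_lv h hb t.cx.m4 h0 hT' h2
  refine ⟨c * c', by rcases hc with rfl | rfl <;> omega, ?_⟩
  rw [k, k', smul_smul, mul_right_comm]

end Pool.Agent.Lib.MP_696deb_nt.B3
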