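import Pool.Agent.Lib.MP_696deb_nt.B3.P5
import Pool.Agent.Lib.MP_696deb_nt.B3.P8

/-! Equal counts of pairs of points and geodesics. -/

set_option autoImplicit false

open scoped Classical
open Finset NumberTheorySymbols

namespace Pool.Agent.Lib.MP_696deb_nt.B3

open B2

variable {δ m e a b x β ρ ρ' : ℤ} {n : ℕ} {T T' : Finset Fm}

theorem sma_turn {D E t : ℤ} (hD : D < 0) (hT : FReps D ρ T) {u w : Fm → ℤ}
    (hu : ∀ Q R, Fam D ρ Q → FEq Q R → u R = u Q) (hw : ∀ Q R, Fam E β Q → FEq Q R → w R = w Q) :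
    pcn E (-β) D (-ρ) t (fun R Q => ipos Q * (u (fV Q) * w (fV R))) =
      cntP T u (fun R => if Fam E β R then w R else 0) t := by
  have h1 : PInv (ptm D ρ E β t fun Q R => ipos Q * (u Q * w R)) :=
    pinv_ptm fun Q R a b c d e h1 h2 => by
      rw [hu Q _ h1 ⟨a, b, c, d, e, rfl⟩, hw R _ h2 ⟨a, b, c, d, e, rfl⟩, p6_ipos (scl_fmap e Q)]
  rw [← pcn_cntP hD hT hu hw, ← pcn_fV h1, pcn_swap (pinv_ptm fun Q R a b c d e h1 h2 => by
    rw [hu _ _ (neg_neg ρ ▸ fam_fV h1) (feq_fV h1.1 ⟨a, b, c, d, e, rfl⟩),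
      hw _ _ (neg_neg β ▸ fam_fV h2) (feq_fV h2.1 ⟨a, b, c, d, e, rfl⟩), p6_ipos (scl_fmap e Q)])]
  exact pcn_congr fun Q R h _ _ => by rw [p6_ipos (scl_fV h.1)]

theorem match_A3 (h : Dsc δ m e) (t : Tri a b x n ρ) (hβ : 30 ∣ ρ * β - 11 * a.natAbs * ρ')
    (hT : FReps (-(n * e ^ 2)) (ρ * e.natAbs) T) (hT' : FReps (b * x * lv e ^ 2) (ρ' * lv e) T') :
    ∃ c : ℤ, (c = 1 ∨ c = -1) ∧
      ∀ s, cntP T (gw e a) (wX e a x β) s = c * cntP T' (gw e b) (wV3 e a) s := by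
  obtain ⟨ha, hb, hx, hn⟩ := t.cls
  have g := t.good
  have root := t.root
  have ab := t.mul
  have ax := t.pos
  have e0 := h.ne_zero
  have l0 := pow_pos (lv_pos e0) 2
  have d120 := (h.spt.dsc h.eq).2.1
  have ok : ∀ {a D}, Cls0 a → a * e ^ 2 ∣ D → GOk e a D := h.gOk
  have okl : ∀ {a}, Cls0 a → GOk e a (a * x * lv e ^ 2) := fun ha =>
    ok ha (mul_dvd_mul (dvd_mul_right _ _) (pow_dvd_pow_of_dvd (dvd_lv e) 2))
  have ec : (cn e a : ℤ) = a.natAbs * e.natAbs := by rw [cn, Int.natAbs_mul, mul_comm, Nat.cast_mul]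
  have ec2 : (cn e a : ℤ) ^ 2 = a.natAbs ^ 2 * e ^ 2 := by rw [ec, mul_pow, Int.natAbs_pow_two e]
  have aa := Int.natAbs_pow_two a
  have ad : ∀ y, (a.natAbs : ℤ) ∣ a * y := fun y => (Int.natAbs_dvd.2 dvd_rfl).mul_right y
  have bd : ∀ y, (b.natAbs : ℤ) ∣ b * y := fun y => (Int.natAbs_dvd.2 dvd_rfl).mul_right y
  have x1 : (a.natAbs : ℤ) * |x| = a * x := by rw [Int.natCast_natAbs, ← abs_mul, abs_of_pos ax]
  have x2 : -((b.natAbs : ℤ) * |x|) = b * x := by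
    rw [Int.natCast_natAbs, ← abs_mul, abs_of_neg hx, neg_neg]
  subst hn
  generalize hA : a.natAbs = A at *
  generalize hB : b.natAbs = B at *
  have A0 : 0 < A := g.sqf.of_mul_left.ne_zero.bot_lt
  have B0 : 0 < B := g.sqf.of_mul_right.ne_zero.bot_lt
  have j0 := fun p k => jacobiSym.sq_one (Int.isCoprime_iff_gcd_eq_one.1 (p6_cop g.adm_left p k))
  have j1 := gza_sq g.adm_right
  have j3 := gza_sq g.adm_left
  obtain ⟨j4, j5⟩ := jac35 g root
  obtain ⟨T₀, h₀⟩ := exists_freps g.neg ρ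
  refine ⟨1, .inl rfl, fun s => ?_⟩
  obtain ⟨N, lam, u, s', N0, u0, -, -, k2⟩ := transfer h s
  have n1 : b * x * u ^ 2 < 0 := mul_neg_of_neg_of_pos hx (pow_pos u0 2)
  obtain ⟨T₁, h₁⟩ := exists_freps n1 (ρ' * u)
  have hs : s ^ 2 ≠ A ^ 2 * e ^ 2 * (b * x * lv e ^ 2) :=
    ((mul_neg_of_pos_of_neg (by positivity) (mul_neg_of_neg_of_pos hx l0)).trans_le
      (sq_nonneg s)).ne'
  have l1 := k2 (D := -(A * B : ℕ)) (ρ := ρ) (E := a * x) (β := β)
    ((cm_pos1 e).mul (cm_gg g.adm_left g.adm_left d120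
      ((pow_two _).symm.trans (j0 3 (by norm_num))) ((pow_two _).symm.trans (j0 5 (by norm_num)))))
    (by have := g.mod4; omega) (Nat.isCoprime_iff_coprime.2 g.cop).neg_left (by rwa [sub_neg_eq_add])
    (.inl g.neg) (by rw [← ab]; convert hs using 1; rw [aa]; ring)
  have l2 := k2 (D := A ^ 2) (ρ := -(11 * A)) (E := b * x) (β := -ρ')
    ((cm_pos2 e).mul (cm_gg g.adm_left g.adm_right d120 j4 j5))
    (by rw [aa, sq, Int.mul_emod, ha.m4]; rfl)
    (Nat.isCoprime_iff_coprime.2 g.adm_left.cop).pow_left ⟨2 * A ^ 2, by ring⟩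
    (.inr ⟨A, pow_two _⟩) hs
  rw [neg_mul, pcn_congr (W' := fun Q R => J(15 | A) * (ipos Q * (gw e a Q * uw e a R)))
    fun Q R hQ hR _ => ?_, pcn_mul, pcn_cntP (neg_neg_of_pos (by positivity)) hT
      (fun Q R k => gw_feq (k.2.1 ▸ ok ha ⟨b, by linear_combination -e ^ 2 * ab⟩))
      fun Q R k => uw_feq (k.2.1 ▸ okl ha) k.1,
    pcn_congr (W' := fun Q R => ipos Q * (gch A Q * gch A R)) fun Q R hQ hR _ => ?_,
    pcn_cntP g.neg h₀ (fun Q R k l => l.gch g.adm_left.odd (by rw [k.2.1]; simp))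
      fun Q R k l => l.gch g.adm_left.odd (by rw [k.2.1, mul_assoc]; exact ad _)] at l1
  rotate_left
  · rw [gg, if_pos ⟨by rw [hQ.2.1]; simp, by rw [hR.2.1, mul_assoc]; exact ad _⟩]
  · rw [gg, if_pos ⟨by rw [hQ.2.1]; simp [dvd_mul_of_dvd_left], by
      rw [hR.2.1, mul_assoc]; exact ad _⟩, gw_split ha, uw_split ha hR.1
      (by rw [hR.2.1, mul_assoc]; exact dvd_mul_right _ _), hA]
    linear_combination -(gw e 1 Q * uw e 1 R * ipos Q * gch A Q * gch A R) * j3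
  rw [neg_mul, neg_mul, neg_mul, mul_assoc 11, ← ec2, ← ec,
    pcn_congr (W' := fun R Q => J(15 | B) * (ipos Q * (gw e b (fV Q) * uw e a (fV R))))
      fun R Q hR hQ _ => ?_, pcn_mul, sma_turn (mul_neg_of_neg_of_pos hx l0) hT'
      (fun Q R k => gw_feq (k.2.1 ▸ okl hb))
      fun Q R k => uw_feq (k.2.1 ▸ ok ha ⟨a, by rw [ec2, aa]; ring⟩) k.1,
    pcn_congr (W' := fun R Q => J(15 | A) * J(15 | B) * (ipos Q * (gch B (fV Q) * gch A (fV R))))
      fun R Q hR hQ _ => ?_, pcn_mul,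
    sma_turn n1 h₁ (fun Q R k l => l.gch g.adm_right.odd (by rw [k.2.1, mul_assoc]; exact bd _))
      fun Q R k l => l.gch g.adm_left.odd (by rw [k.2.1]; simp)] at l2
  rotate_left
  · have k1 : (A : ℤ) ∣ fdisc R := by rw [hR.2.1]; simp
    have k2 : (B : ℤ) ∣ fdisc Q := by rw [hQ.2.1, mul_assoc]; exact bd _
    rw [gg, if_pos ⟨k1, k2⟩, gch_fV g.adm_left.sqf g.adm_left.odd g.adm_left.cop k1 hR.1,
      gch_fV g.adm_right.sqf g.adm_right.odd g.adm_right.cop k2 hQ.1]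
    linear_combination -(ipos Q * gch A R * gch B Q) * (J(15 | A) ^ 2 * j1 + j3)
  · rw [gg, if_pos ⟨by rw [hR.2.1, ec2]; simp [dvd_mul_of_dvd_left], by
      rw [hQ.2.1, mul_assoc]; exact bd _⟩, uw, uw, fV_fV hR.1, gw_split ha, ← uw, ← uw,
      uw_split hb hQ.1 (by rw [hQ.2.1, mul_assoc]; exact dvd_mul_right _ _), hA, hB]
    linear_combination -(gw e 1 R * uw e 1 Q * ipos Q * gch A R * gch B Q) * j1
  have l3 := match_A g (x := |x| * u ^ 2) (β := β * u) (ρ' := ρ' * u)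
    (mul_pos (abs_pos.2 (right_ne_zero_of_mul ax.ne')) (pow_pos u0 2)) root
    (Dvd.dvd.trans (hβ.mul_right u) ⟨1, by ring⟩) h₀ (by rwa [← mul_assoc, ← neg_mul, x2]) s'
  rw [← mul_assoc, x1, jacobiSym.mul_right' _ A0.ne' B0.ne', j5, one_mul] at l3
  change N * (_ * cntP T _ (wX e a x β) s) = lam * cntP T₀ (gch A) (wG A _ _) s' at l1
  change N * (_ * cntP T' _ (wV3 e a) s) = lam * (_ * cntP T₁ (gch B) (wV A) s') at l2
  rw [l3] at l1
  refine mul_left_cancel₀ N0.ne' ?_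
  generalize cntP T _ _ s = X at l1 ⊢
  generalize cntP T' _ _ s = Y at l2 ⊢
  generalize cntP T₁ _ _ s' = Z at l1 l2
  linear_combination J(15 | A) * l1 - J(15 | B) * l2 - N * X * j3 + N * Y * j1 -
    lam * Z * J(15 | A) * j1

end Pool.Agent.Lib.MP_696deb_nt.B3
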