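import Pool.Agent.Lib.MP_696deb_nt.B3.A0

/-! Representatives of forms whose conductor is multiplied by two. -/

set_option autoImplicit false

open scoped Classical
open Finset NumberTheorySymbols

namespace Pool.Agent.Lib.MP_696deb_nt.B3

variable {a b c d a' b' c' d' y β D : ℤ} {P P' Q Q' : Fm} {T T' : Finset Fm} {i j : Fin 3}

/-- The three neighbours of a form. -/
def nb (i : Fin 3) (Q : Fm) : Fm := fmap Q (![1, 2, 2] i) (![0, 0, -1] i) 0 (![2, 1, 1] i)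

/-- The form `Q` is a neighbour of `P`. -/
def Nb (P Q : Fm) : Prop := ∃ a b c d : ℤ, a * d - b * (15 * c) = 2 ∧ Q = fmap P a b (15 * c) d

theorem nb_Nb (i : Fin 3) (P : Fm) : Nb P (nb i P) :=
  ⟨_, _, 0, _, by fin_cases i <;> rfl, rfl⟩

theorem Nb.right (h : Nb P Q) (k : FEq Q Q') : Nb P Q' := by
  obtain ⟨a, b, c, d, h, rfl⟩ := h
  obtain ⟨a', b', c', d', h', rfl⟩ := k
  refine ⟨a * a' + b * (15 * c'), a * b' + b * d', c * a' + d * c', 15 * c * b' + d * d', ?_, ?_⟩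
  · linear_combination (a' * d' - b' * (15 * c')) * h + 2 * h'
  · rw [fmap_fmap]
    congr 1
    ring

theorem Nb.left (h : Nb P Q) (k : FEq P' P) : Nb P' Q := by
  obtain ⟨a, b, c, d, h', rfl⟩ := k
  obtain ⟨a', b', c', d', h, rfl⟩ := h
  refine ⟨a * a' + b * (15 * c'), a * b' + b * d', c * a' + d * c', 15 * c * b' + d * d', ?_, ?_⟩
  · linear_combination (a' * d' - b' * (15 * c')) * h' + h
  · rw [fmap_fmap]
    congr 1
    ring

theorem Nb.back (h : Nb P Q) : Nb Q (fmap P 2 0 0 2) := by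
  obtain ⟨a, b, c, d, h, rfl⟩ := h
  refine ⟨d, -b, -c, a, by linear_combination h, ?_⟩
  rw [fmap_fmap]
  congr 1
  exacts [by linear_combination -h, by ring, by ring, by linear_combination -h]

theorem sta_dvd (n : ℕ) (x : ℤ) : (n : ℤ) ∣ x ↔ (x : ZMod n) = 0 :=
  (ZMod.intCast_zmod_eq_zero_iff_dvd x n).symm

theorem Nb.dec (h : Nb P Q) : ∃ i, FEq (nb i P) Q := by
  obtain ⟨a, b, c, d, h, rfl⟩ := h
  have k : ∀ a b c d : ZMod 2, a * d - b * c = 0 →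
      (c = 0 ∧ d = 0) ∨ (a = 0 ∧ b = 0) ∨ (a + c = 0 ∧ b + d = 0) := by decide
  have k1 := k a b (15 * c : ℤ) d (by exact_mod_cast (sta_dvd 2 _).1 ⟨1, h⟩)
  norm_cast at k1
  simp only [← sta_dvd 2, Nat.cast_ofNat] at k1
  rcases k1 with ⟨k1, d, rfl⟩ | ⟨⟨a, rfl⟩, b, rfl⟩ | ⟨⟨u, k1⟩, v, k2⟩
  · obtain ⟨c, rfl⟩ : 2 ∣ c := by omega
    refine ⟨0, a, b, c, d, by linarith, ?_⟩
    rw [nb, fmap_fmap]
    congr 1 <;> simp <;> ring
  · refine ⟨1, a, b, c, d, by linarith, ?_⟩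
    rw [nb, fmap_fmap]
    congr 1 <;> simp
  · refine ⟨2, u, v, c, d, ?_, ?_⟩
    · refine mul_left_cancel₀ two_ne_zero ?_
      linear_combination h - d * k1 + 15 * c * k2
    · rw [nb, fmap_fmap]
      congr 1 <;> simp <;> linarith

theorem Nb.fam (h : Nb P Q) (k : Fam D β P) : Fam (4 * D) (2 * β) Q := by
  obtain ⟨i, h⟩ := h.dec
  obtain ⟨k1, k2, k3⟩ := k
  refine h.fam ?_
  rw [← k2]
  fin_cases i <;> simp [nb, Fam, fmap, fval, fdisc] <;> refine ⟨by omega, by ring, by omega⟩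

theorem nb_pos (i : Fin 3) (h : 0 < P.1) : 0 < (nb i P).1 := by
  fin_cases i <;> simpa [nb, fmap, fval] using h

theorem nb_disc (i : Fin 3) (P : Fm) : fdisc (nb i P) = 4 * fdisc P := by
  fin_cases i <;> simp [nb, fmap, fval, fdisc] <;> ring

theorem sta_ev (h : Ev2 P) (a b c d : ℤ) : Ev2 (fmap P a b c d) := by
  obtain ⟨⟨x, hx⟩, ⟨y, hy⟩, z, hz⟩ := h
  simp only [Ev2, fmap, fval, hx, hy, hz]
  exact ⟨⟨x * a ^ 2 + y * a * c + z * c ^ 2, by ring⟩,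
    ⟨2 * x * a * b + y * (a * d + b * c) + 2 * z * c * d, by ring⟩,
    x * b ^ 2 + y * b * d + z * d ^ 2, by ring⟩

theorem sta_feq (h : FEq P Q) (k : Ev2 P) : Ev2 Q := by
  obtain ⟨a, b, c, d, -, rfl⟩ := h
  exact sta_ev k _ _ _ _

theorem sta_two (h : a * d - b * c = 2) (h' : a' * d' - b' * c' = 2)
    (e : fmap P a b c d = fmap P' a' b' c' d') (hp : ¬ Ev2 (fmap P a b c d)) :
    ∃ p q r s : ℤ, p * s - q * r = 1 ∧ P' = fmap P p q r s ∧ 2 * r = c * d' - d * c' ∧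
      a = p * a' + q * c' ∧ b = p * b' + q * d' ∧ d = r * b' + s * d' := by
  have k : ∀ A B C x y u v : ZMod 2, B = 0 → ¬ (A = 0 ∧ B = 0 ∧ C = 0) →
      A * x ^ 2 + B * x * y + C * y ^ 2 = 0 → A * u ^ 2 + B * u * v + C * v ^ 2 = 0 →
      x * v - y * u = 0 := by decide
  have hb : 2 ∣ (fmap P a b c d).2.1 :=
    ⟨P.1 * a * b + P.2.1 * (1 + b * c) + P.2.2 * c * d, by
      simp only [fmap]; linear_combination P.2.1 * h⟩
  have v : ∀ {P : Fm} {a b c d : ℤ}, a * d - b * c = 2 →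
      2 ∣ fval (fmap P a b c d) d (-c) ∧ 2 ∣ fval (fmap P a b c d) (-b) a := fun {P a b c d} h => by
    rw [fval_fmap, fval_fmap, show a * d + b * -c = 2 by linear_combination h,
      show c * -b + d * a = 2 by linear_combination h, show c * d + d * -c = 0 by ring,
      show a * -b + b * a = 0 by ring]
    exact ⟨⟨2 * P.1, by simp only [fval]; ring⟩, 2 * P.2.2, by simp only [fval]; ring⟩
  obtain ⟨v1, v2⟩ := v (P := P) h
  obtain ⟨v3, v4⟩ := v (P := P') h'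
  rw [← e] at v3 v4
  have key : ∀ {x y u v : ℤ}, 2 ∣ fval (fmap P a b c d) x y → 2 ∣ fval (fmap P a b c d) u v →
      2 ∣ x * v - y * u := fun {x y u v} h1 h2 => by
    generalize fmap P a b c d = Q at *
    refine (sta_dvd 2 _).2 ?_
    push_cast
    refine k Q.1 Q.2.1 Q.2.2 _ _ _ _ ((sta_dvd 2 _).1 hb)
      (by simp only [← sta_dvd 2]; exact hp) ?_ ?_
    · exact_mod_cast (sta_dvd 2 _).1 h1
    · exact_mod_cast (sta_dvd 2 _).1 h2
  obtain ⟨p, hp⟩ := key v3 v2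
  obtain ⟨q, hq⟩ := key v4 v2
  obtain ⟨r, hr⟩ := key v1 v3
  obtain ⟨s, hs⟩ := key v1 v4
  have e1 : a = p * a' + q * c' := mul_left_cancel₀ two_ne_zero (by
    linear_combination a' * hp + c' * hq - a * h')
  have e2 : b = p * b' + q * d' := mul_left_cancel₀ two_ne_zero (by
    linear_combination b' * hp + d' * hq - b * h')
  have e3 : c = r * a' + s * c' := mul_left_cancel₀ two_ne_zero (by
    linear_combination a' * hr + c' * hs - c * h')
  have e4 : d = r * b' + s * d' := mul_left_cancel₀ two_ne_zero (by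
    linear_combination b' * hr + d' * hs - d * h')
  refine ⟨p, q, r, s, mul_left_cancel₀ two_ne_zero ?_, ?_, by linear_combination -hr, e1, e2, e4⟩
  · rw [e1, e2, e3, e4] at h
    linear_combination h - (p * s - q * r) * h'
  · rw [e1, e2, e3, e4, ← fmap_fmap] at e
    replace e := congrArg (fmap · d' (-b') (-c') a') e
    simp only [fmap_fmap _ a' b' c' d', show a' * d' + b' * -c' = 2 by linear_combination h',
      show c' * -b' + d' * a' = 2 by linear_combination h', show c' * d' + d' * -c' = 0 by ring,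
      show a' * -b' + b' * a' = 0 by ring] at e
    generalize fmap P p q r s = R at e
    simp only [fmap, fval, Prod.ext_iff] at e ⊢
    omega

theorem sta_free (hy : y < 0) (h4 : y % 4 = 0 ∨ y % 4 = 1) (hd : fdisc P = 4 * y) (hp : ¬ Ev2 P)
    (h : a * d - b * c = 1) (e : fmap P a b c d = P) : b = 0 ∧ c = 0 := by
  have k : ∀ {A c : ℤ}, ¬ 2 ∣ A → A ^ 2 * ((a + d) ^ 2 - 4) = 4 * y * c ^ 2 → c = 0 :=
    fun {A c} h1 h2 => by_contra fun h3 => by
      obtain ⟨t, ht⟩ : 2 ∣ a + d := Int.prime_two.dvd_of_dvd_pow (n := 2)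
        ((Int.prime_two.dvd_or_dvd (a := A ^ 2) ⟨2 * (y * c ^ 2 + A ^ 2), by
          linear_combination h2⟩).resolve_left fun l => h1 (Int.prime_two.dvd_of_dvd_pow l))
      have h5 : A ^ 2 * (t ^ 2 - 1) = y * c ^ 2 := by
        rw [ht] at h2
        linarith
      have h6 : t = 0 := by_contra fun l => by
        nlinarith [mul_neg_of_neg_of_pos hy (sq_pos_of_ne_zero h3), sq_pos_of_ne_zero l,
          sq_nonneg A]
      have z : ∀ A y c : ZMod 4, y = 0 ∨ y = 1 → A ^ 2 * (0 ^ 2 - 1) = y * c ^ 2 → 2 * A = 0 := by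
        decide
      have := z A y c (h4.imp (fun l => (sta_dvd 4 _).1 (by omega)) fun l =>
        sub_eq_zero.1 (by exact_mod_cast (sta_dvd 4 (y - 1)).1 (by omega)))
        (by rw [h6] at h5; exact_mod_cast congrArg (Int.cast (R := ZMod 4)) h5)
      have := (sta_dvd 4 (2 * A)).2 (by exact_mod_cast this)
      omega
  obtain ⟨e1, e2, e3, e4⟩ := aut_eqs h e
  by_cases h1 : 2 ∣ P.1
  · have hb : 2 ∣ P.2.1 := Int.prime_two.dvd_of_dvd_pow (n := 2)
      ⟨2 * (y + P.1 * P.2.2), by simp only [fdisc] at hd; linear_combination hd⟩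
    have h2 : ¬ 2 ∣ P.2.2 := fun l => hp ⟨h1, hb, l⟩
    obtain rfl : b = 0 := k h2 (by
      simp only [fdisc] at hd
      linear_combination b ^ 2 * hd + (P.2.2 * (a - d) + P.2.1 * b) * e3 + 4 * P.2.2 ^ 2 * h +
        4 * P.2.2 * b * e2)
    exact ⟨rfl, by simpa [show P.2.2 ≠ 0 by omega] using e2⟩
  · obtain rfl : c = 0 := k h1 (hd ▸ e4)
    exact ⟨by simpa [show P.1 ≠ 0 by omega] using e2, rfl⟩

theorem exists_Nb (h : Fam (4 * (4 * y)) (2 * β) Q) (hβ : 2 ∣ β) (h0 : 0 < Q.1) (hp : ¬ Ev2 Q) :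
    ∃ P, Fam (4 * y) β P ∧ 0 < P.1 ∧ Nb P Q := by
  obtain ⟨A, B, C⟩ := Q
  obtain ⟨h1, h2, h3⟩ := h
  obtain ⟨B, rfl⟩ : 2 ∣ B := by simp only at h3; omega
  simp only [fdisc, Ev2] at h0 h1 h2 h3 hp
  have h4 : B ^ 2 - A * C = 4 * y := by linarith
  have k : ∀ A B C : ZMod 4, B ^ 2 - A * C = 0 → ¬ (2 * A = 0 ∧ 2 * C = 0) →
      (C = 0 ∧ 2 * B = 0) ∨ (A = 0 ∧ 2 * B = 0) ∨ (A - 2 * B + C = 0 ∧ 2 * (B - A) = 0) := by decide
  have k1 := k A B C (by exact_mod_cast (sta_dvd 4 _).1 ⟨y, h4⟩) fun l => by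
    norm_cast at l
    simp only [← sta_dvd 4, Nat.cast_ofNat] at l
    omega
  norm_cast at k1
  simp only [← sta_dvd 4, Nat.cast_ofNat] at k1
  rcases k1 with ⟨⟨C, rfl⟩, k2⟩ | ⟨⟨A, rfl⟩, k2⟩ | ⟨⟨u, k1⟩, k2⟩
  · exact ⟨(A, B, C), ⟨h1, by simp only [fdisc]; linarith, by simp only; omega⟩, h0, 1, 0, 0, 2, rfl,
      by simp [fmap, fval, mul_comm]⟩
  · exact ⟨(A, B, C), ⟨by simp only; omega, by simp only [fdisc]; linarith, by simp only; omega⟩,
      by simp only; omega, 2, 0, 0, 1, rfl, by simp [fmap, fval, mul_comm]⟩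
  · refine ⟨(A, B - A, u), ⟨h1, ?_, by simp only; omega⟩, h0, 1, 1, 0, 2, rfl, ?_⟩
    · simp only [fdisc]
      linear_combination h4 + A * k1
    · simp only [fmap, fval, Prod.mk.injEq]
      omega

/-- The transfer of sums over representatives to the neighbours. -/
theorem sum_nb {M : Type} [AddCommMonoid M] (hy : y < 0) (h4 : y % 4 = 0 ∨ y % 4 = 1) (hβ : 2 ∣ β)
    (hT : FReps (4 * y) β T) (hT' : FReps (4 * (4 * y)) (2 * β) T') (f : Fm → M)
    (f' : Fm → Fin 3 → M) (h0 : ∀ Q ∈ T', Ev2 Q → f Q = 0)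
    (h : ∀ P ∈ T, ∀ i, ∀ Q ∈ T', FEq (nb i P) Q → f Q = f' P i) :
    ∑ Q ∈ T', f Q = ∑ P ∈ T, ∑ i, f' P i := by
  have ex : ∀ x ∈ T ×ˢ (univ : Finset (Fin 3)), ∃ Q ∈ T', FEq Q (nb x.2 x.1) := fun x hx =>
    hT'.ex _ ((nb_Nb _ _).fam (hT.fam _ (mem_product.1 hx).1))
      (nb_pos _ (hT.pos _ (mem_product.1 hx).1))
  choose g g1 g2 using ex
  have g3 := fun x hx => h _ (mem_product.1 hx).1 _ _ (g1 x hx) (g2 x hx).symm
  rw [← sum_product']
  refine (sum_bij_ne_zero (fun x hx _ => g x hx) (fun x hx _ => g1 x hx) ?_ ?_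
    fun x hx _ => (g3 x hx).symm).symm
  · rintro ⟨P, i⟩ hx l ⟨P', j⟩ hx' - e
    have hP := (mem_product.1 hx).1
    have o : ¬ Ev2 (nb i P) := fun k =>
      l ((g3 _ hx).symm.trans (h0 _ (g1 _ hx) (sta_feq (g2 _ hx).symm k)))
    obtain ⟨a, b, c, d, k1, k2⟩ := (g2 _ hx).symm.trans (e ▸ g2 _ hx')
    have p' : ¬ Ev2 (fmap (nb i P) a b (15 * c) d) := fun k =>
      o (sta_feq (FEq.symm ⟨a, b, c, d, k1, rfl⟩) k)
    simp only [nb, fmap_fmap] at k2 p'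
    obtain ⟨p, q, r, s, e1, e2, e3, e4, e5, e6⟩ := sta_two (by
      fin_cases i <;> simp <;> linear_combination 2 * k1) (by fin_cases j <;> rfl) k2.symm p'
    obtain ⟨r, rfl⟩ : 15 ∣ r := by
      have : (15 : ℤ) ∣ 2 * r := ⟨![2, 1, 1] i * c * ![2, 1, 1] j, by rw [e3]; ring⟩
      omega
    obtain rfl : P = P' := hT.uniq _ hP _ (mem_product.1 hx').1 ⟨p, q, r, s, e1, e2⟩
    obtain ⟨rfl, l⟩ := sta_free hy h4 (hT.fam _ hP).2.1 (fun k => o (sta_ev k _ _ _ _)) e1 e2.symm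
    rw [l] at e1 e3 e6
    refine congrArg _ ?_
    rcases Int.eq_one_or_neg_one_of_mul_eq_one' (show p * s = 1 by linarith) with
      ⟨rfl, rfl⟩ | ⟨rfl, rfl⟩ <;> fin_cases i <;> fin_cases j <;> simp at e3 e4 e5 e6 ⊢ <;> omega
  · intro Q hQ l
    obtain ⟨P, p1, p2, p3⟩ := exists_Nb (hT'.fam Q hQ) hβ (hT'.pos Q hQ) fun k => l (h0 Q hQ k)
    obtain ⟨P', q1, q2⟩ := hT.ex P p1 p2
    obtain ⟨i, hi⟩ := (p3.left q2).dec
    have m : (P', i) ∈ T ×ˢ univ := mem_product.2 ⟨q1, mem_univ i⟩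
    exact ⟨(P', i), m, h P' q1 i Q hQ hi ▸ l, hT'.uniq _ (g1 _ m) _ hQ ((g2 _ m).trans hi)⟩

end Pool.Agent.Lib.MP_696deb_nt.B3
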