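import Pool.Agent.Lib.MP_696deb_nt.B3.L2a
import Pool.Agent.Lib.MP_696deb_nt.B3.E1
import Pool.Agent.Lib.MP_696deb_nt.B2.CMl
import Pool.Agent.Lib.MP_696deb_nt.B2.TW2
import Pool.Agent.Lib.MP_696deb_nt.B2.XLd

/-! The lemma of Birch bounds the divisibility by two on some branch. -/

set_option autoImplicit false

open scoped NNReal Classical
open Finset Matrix NumberTheorySymbols

namespace Pool.Agent.Lib.MP_696deb_nt.B3

open B2 B2.CM

variable {n : ℕ} {S : HS n} {δ : ℤ} {g : Gam}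

theorem xbi_abs (p : ℕ) : (pst p).natAbs = p := by
  unfold pst
  split_ifs <;> simp

theorem xbi_prod (s : Finset ℕ) (h : ∀ p ∈ s, p % 2 = 1) : (∏ p ∈ s, pst p) % 4 = 1 ∧
    ∀ g, chi (∏ p ∈ s, pst p) g = ∏ p ∈ s, chi (pst p) g := by
  induction s using Finset.induction_on with
  | empty => exact ⟨rfl, fun g => by simpa using chi_sq 1 g⟩
  | insert p s hp ih =>
    obtain ⟨h1, h2⟩ := ih fun q hq => h q (mem_insert_of_mem hq)
    have h3 : pst p % 4 = 1 := by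
      have := h p (mem_insert_self _ _)
      unfold pst
      split_ifs <;> omega
    simp only [prod_insert hp]
    exact ⟨by rw [Int.mul_emod, h1, h3]; rfl, fun g => by rw [chi_mul (by omega) (by omega), h2]⟩

theorem xbi_odd (hn : Nok n) {p : ℕ} (hp : p ∈ n.primeFactors) : p % 2 = 1 :=
  (Nat.prime_of_mem_primeFactors hp).eq_two_or_odd.resolve_left fun e => by
    have := Nat.dvd_of_mem_primeFactors hp
    have := hn.m8
    subst e
    omega

theorem xbi_dvd {s : Finset ℕ} (h : s ⊆ n.primeFactors) : ∏ p ∈ s, pst p ∣ n := by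
  rw [← Int.natAbs_dvd_natAbs, Int.natAbs_natCast,
    show (∏ p ∈ s, pst p).natAbs = ∏ p ∈ s, p from
      (map_prod Int.natAbsHom _ _).trans (prod_congr rfl fun p _ => xbi_abs p)]
  exact (prod_dvd_prod_of_subset _ _ _ h).trans (Nat.prod_primeFactors_dvd n)

theorem xbi_sum (hn : Nok n) (sep : Sep S) (Z : ES S δ) {p₀ : ℕ} (h : p₀ ∈ n.primeFactors) :
    ∑ s ∈ (n.primeFactors.erase p₀).powerset, Z.ychi (∏ p ∈ s, pst p) =
      2 ^ (n.primeFactors.card - 1) • Z.y 1 1 := by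
  have sub : ∀ s ∈ (n.primeFactors.erase p₀).powerset, s ⊆ n.primeFactors := fun s hs =>
    (mem_powerset.1 hs).trans (erase_subset _ _)
  simp only [ES.ychi]
  rw [sum_comm, sum_eq_single 1 (fun a _ ha => ?_) (by simp)]
  · simp [card_erase_of_mem h]
  obtain ⟨g, hg, rfl⟩ := S.surj 1 (adm_one n) a
  have e : ∀ s ∈ (n.primeFactors.erase p₀).powerset,
      (S.gen (∏ p ∈ s, pst p) (S.ψ 1 g) : ℤ) = ∏ p ∈ s, (chi (pst p) g : ℤ) := fun s hs => by
    obtain ⟨h1, h2⟩ := xbi_prod s fun p hp => xbi_odd hn (sub s hs hp)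
    rw [S.gen_ψ _ (xbi_dvd (sub s hs)) h1 g hg, h2, Units.coe_prod]
  rw [← sum_smul, sum_congr rfl e, ← prod_one_add]
  obtain ⟨p, hp, k⟩ : ∃ p ∈ n.primeFactors.erase p₀, chi (pst p) g = -1 := by
    by_contra hc
    have h1 : ∀ p ∈ n.primeFactors.erase p₀, chi (pst p) g = 1 := fun p hp =>
      (Int.units_eq_one_or _).resolve_right fun k => hc ⟨p, hp, k⟩
    have h2 := chi_eq_prod (e := -n) ((Int.squarefree_natCast.2 hn.good.sqf).squarefree_of_dvd (neg_dvd.2 dvd_rfl))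
      (by have := hn.m8; omega) g
    rw [B4c_mem.1 hg, Int.natAbs_neg, Int.natAbs_natCast, ← mul_prod_erase _ _ h,
      prod_eq_one h1, mul_one] at h2
    refine ha (sep _ fun e he h4 => ?_)
    rw [S.gen_ψ e he h4 g hg, chi_eq_prod
      ((Int.squarefree_natCast.2 hn.good.sqf).squarefree_of_dvd he) h4]
    refine prod_eq_one fun p hp => ?_
    by_cases k : p = p₀
    · rw [k, ← h2]
    · exact h1 p (mem_erase.2 ⟨k, Nat.primeFactors_mono (Int.natAbs_dvd_natAbs.2 he)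
        hn.good.sqf.ne_zero hp⟩)
  rw [prod_eq_zero hp (by simp [k]), zero_smul]

theorem xbi_p (v : Fin 2) : (bp v).p ≠ 2 := by rcases bp_or v with h | h <;> omega

theorem xbi_chi (hn : Nok n) (h2 : δ ∣ 2) {e : ℤ} (he : e ∣ n) (v : Fin 2) :
    ¬ ((bp v).p : ℤ) ∣ 2 * (δ * e) := fun k => by
  have hp := Nat.prime_iff_prime_int.1 (bp v).prime
  have h0 : ¬ ((bp v).p : ℤ) ∣ 2 := by rcases bp_or v with h | h <;> rw [h] <;> decide
  rcases hp.dvd_mul.1 k with k | k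
  · exact h0 k
  rcases hp.dvd_mul.1 k with k | k
  · exact h0 (k.trans h2)
  refine (bp v).prime.one_lt.ne' (Nat.eq_one_of_dvd_coprimes hn.good.cop
    (Int.natCast_dvd_natCast.1 (k.trans he)) ?_)
  rcases bp_or v with h | h <;> rw [h] <;> decide

theorem xbi_four (T : B2.Tate) (v : Fin 2) {σ : Gam} (hσ : σ ∈ Ine (bp v)) {P : EE}
    (h : 4 • P = 0) : σ • P = P :=
  T.fix_four h (chi_ine (by rcases bp_or v with h | h <;> rw [h] <;> decide) hσ)

/-- The tame relation for the component of a point. -/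
theorem xbi_tame (T : B2.Tate) (v : Fin 2) {D : ℤ} (hD : ¬ ((bp v).p : ℤ) ∣ 2 * D) {R : EE}
    (h : ∀ g ∈ Dec (bp v), tw D g (4 • R) = 4 • R) {φ σ : Gam} (hφ : IsFrob (bp v) (bp v).p φ)
    (hσ : σ ∈ Ine (bp v)) : 4 • (σ • R - R) = 0 ∧
      tw D φ (σ • R - R) = (bp v).p • (σ • R - R) := by
  have t : ∀ σ ∈ Ine (bp v), ∀ P : EE, tw D σ P = σ • P := fun σ hσ P => by
    rw [tw, chi_ine hD hσ, Units.val_one, one_smul]
  have f : ∀ g ∈ Dec (bp v), 4 • (tw D g R - R) = 0 := fun g hg => by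
    rw [smul_sub, ← l2_nsmul, h g hg, sub_self]
  have f' : ∀ σ ∈ Ine (bp v), 4 • (σ • R - R) = 0 := fun σ hσ => t σ hσ R ▸ f σ hσ.1
  have e : ∀ σ ∈ Ine (bp v), T.emb 2 (Function.invFun (T.emb 2) (σ • R - R)) = σ • R - R :=
    fun σ hσ => Function.invFun_eq (T.surj 2 _ (f' σ hσ))
  refine ⟨f' σ hσ, ?_⟩
  have k := congrArg (T.emb 2) (hom_tame (N := ⊤) (k := 2) isOpen_univ (xbi_p v)
    (fun y => funext fun i => by
      rw [Pi.smul_apply, nsmul_eq_mul, ZMod.natCast_self, zero_mul, Pi.zero_apply])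
    ((sm_pt _ R).comp fun P => Function.invFun (T.emb 2) (P - R))
    (fun a ha b hb => T.inj 2 (by
      rw [map_add, e a ha.2, e b hb.2, e _ (mul_mem ha.2 hb.2), ← xbi_four T v ha.2 (f' b hb.2),
        smul_sub, mul_smul]
      abel)) hφ ⟨trivial, hσ⟩ trivial)
  have hc := conj_mem_Ine hφ.1 hσ
  rw [map_nsmul, e _ hσ, e _ hc, ← t _ hc, l2_mul, l2_mul, t _ hσ,
    ← sub_add_cancel (tw D φ⁻¹ R) R, smul_add, xbi_four T v hσ (f _ (inv_mem hφ.1)), l2_add,
    l2_sub, ← l2_mul, mul_inv_cancel] at k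
  rw [← k, l2_sub, tw, tw, tw, map_one, Units.val_one, one_smul, one_smul]
  abel

theorem xbi_non (T : B2.Tate) (v : Fin 2) {D : ℤ} (hD : ¬ ((bp v).p : ℤ) ∣ 2 * D)
    (hJ : J(D | 3) = 1 ∧ J(D | 5) = -1) {R : EE} (h : ∀ g ∈ Dec (bp v), tw D g (4 • R) = 4 • R)
    {σ : Gam} (hσ : σ ∈ Ine (bp v)) : 2 • (σ • R - R) ∈ AddSubgroup.zmultiples B2.T1 := by
  obtain ⟨φ, hφ⟩ := exists_frob (bp v)
  obtain ⟨h1, h2⟩ := xbi_tame T v hD h hφ hσ
  have c := chi_frob hD hφ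
  have c1 := chi_frob (a := -1) (by rcases bp_or v with h | h <;> rw [h] <;> decide) hφ
  generalize σ • R - R = x at h1 h2
  rcases bp_or v with e | e <;> rw [e] at c c1 h2 <;> rw [tw, c] at h2
  · have c2 : chi (-1) (φ * cc⁻¹) = 1 := by
      rw [map_mul, map_inv, chi_cc (by norm_num), Units.ext_iff, Units.val_mul, c1]
      norm_num
    obtain ⟨y, rfl⟩ := T.surj 2 x h1
    rw [hJ.1, one_smul, ← inv_mul_cancel_right φ cc, mul_smul,
      T.fix_four (by rw [smul_comm, h1, smul_zero]) c2, T.smul, T.mred_cc, ← map_nsmul] at h2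
    have h3 := congrFun (T.inj 2 h2) 0
    have h4 : T.emb 2 (2 • ![0, 1]) = B2.T1 := by
      rw [map_nsmul, ← T.e1]
      refine (T.two 1 1 _).trans (congrArg _ (funext fun i => ?_))
      fin_cases i <;> simp
    refine ⟨(y 1).val, ?_⟩
    dsimp only
    rw [← h4, ← map_nsmul, ← map_zsmul]
    congr 1
    ext i
    simp only [mulVec, dotProduct, Fin.sum_univ_two] at h3
    fin_cases i
    · simp at h3 ⊢
      revert h3
      generalize y 0 = a
      revert a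
      decide
    · simp [mul_comm]
  · rw [hJ.2, T.fix_four h1 (Units.ext (by rw [c1]; norm_num))] at h2
    rw [show 2 • x = 0 by linear_combination (norm := module) -h2 - h1]
    exact zero_mem _

theorem xbi_line (T : B2.Tate) (v : Fin 2) {m : ℕ} {R M : EE} (hR : 2 ^ m • R = 0)
    (hM : 2 • M = B2.T1) (h : gn (bp v) • R - R ∈ AddSubgroup.zmultiples M) : gn (bp v) • R = R := by
  obtain ⟨x, hx⟩ := T.surj (1 + m) R (by rw [pow_add, mul_smul, hR, smul_zero])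
  obtain ⟨c, hc⟩ := xld_N T v
  set f : ℤ_[2] →+* ZMod (2 ^ (1 + m)) := PadicInt.toZModPow (1 + m) with hf
  have e : gn (bp v) • R - R = T.emb (1 + m) ((4 * f c * (f (mB T v 0 0) * x 1 -
      f (mB T v 1 0) * x 0)) • ![f (mB T v 0 0), f (mB T v 1 0)]) := by
    rw [← hx, T.smul, ← map_sub, eq_add_of_sub_eq hc]
    congr 1
    ext i
    fin_cases i <;> simp [mred, map_ofNat, ← hf] <;> ring
  have k : ∀ (j : ℤ), j • (gn (bp v) • R - R) ≠ B2.T1 := fun j k => by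
    have h4 : T.emb (1 + m) (2 ^ m • ![0, 1]) = B2.T1 := by
      rw [map_nsmul, ← T.e1]
      refine (T.two 1 m _).trans (congrArg _ (funext fun i => ?_))
      fin_cases i <;> simp
    rw [e, ← map_zsmul, ← smul_assoc] at k
    have k1 := congrFun (T.inj _ (k.trans h4.symm)) 0
    simp only [Pi.smul_apply, cons_val_zero, smul_zero, smul_eq_mul] at k1
    rw [(((xld_units T).1 v).map f).mul_left_eq_zero.1 k1, zero_smul, map_zero] at k
    exact T_ne.1 k.symm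
  obtain ⟨j, hj⟩ := AddSubgroup.mem_zmultiples_iff.1 h
  have t2 : ∀ i : ℤ, (2 * i) • B2.T1 = 0 := fun i => by
    rw [mul_comm, mul_smul, two_zsmul, ← two_nsmul, B2.two_T1, smul_zero]
  have m2 : ∀ i : ℤ, (2 * i) • M = i • B2.T1 := fun i => by
    rw [mul_comm, mul_smul, two_zsmul, ← two_nsmul, hM]
  rw [← hj] at k
  obtain ⟨i, rfl | rfl⟩ := Int.even_or_odd' j
  · obtain ⟨l, rfl | rfl⟩ := Int.even_or_odd' i
    · rw [← sub_eq_zero, ← hj, m2, t2]
    · exact absurd (by rw [one_smul, m2, add_smul, t2, zero_add, one_smul]) (k 1)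
  · exact absurd (by rw [← mul_smul, m2, add_smul, t2, zero_add, one_smul]) (k 2)

theorem ES.refDiv (T : B2.Tate) (hn : Nok n) (h2 : δ ∣ 2) (sep : Sep S) (Z : ES S δ)
    (h : Z.Bir) : Z.RefDiv := by
  by_contra hc
  unfold ES.RefDiv at hc
  push Not at hc
  choose! P hP hT using hc
  obtain ⟨R, M, hR, hM, ⟨g, hg, g1, g2⟩, hI⟩ := h
  obtain ⟨p₀, h0⟩ : n.primeFactors.Nonempty :=
    Nat.nonempty_primeFactors.2 (by have := hn.m8; omega)
  set U := (n.primeFactors.erase p₀).powerset with hU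
  set E : Finset ℕ → ℤ := fun s => ∏ p ∈ s, pst p with hE
  set ε : Finset ℕ → ℕ := fun s => if J(δ * E s | 3) = 1 ∧ J(δ * E s | 5) = -1 then 0 else 1
    with hε
  have sub : ∀ s ∈ U, s ⊆ n.primeFactors := fun s hs =>
    (mem_powerset.1 hs).trans (erase_subset _ _)
  have e1 : ∀ s ∈ U, E s ∣ n := fun s hs => xbi_dvd (sub s hs)
  have e2 : ∀ s ∈ U, E s % 4 = 1 := fun s hs => (xbi_prod s fun p hp => xbi_odd hn (sub s hs hp)).1
  have δ0 : δ ≠ 0 := ne_zero_of_dvd_ne_zero two_ne_zero h2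
  obtain ⟨N, N0, hN⟩ : ∃ N : ℕ, 0 < N ∧
      N • (Z.y 1 1 - ∑ s ∈ U, 2 • 2 ^ ε s • P (E s)) = 0 := by
    have k : ∑ s ∈ U, (Z.ychi (E s) - 2 ^ (n.primeFactors.card + ε s) • P (E s)) ∈
        AddCommGroup.torsion EE := sum_mem fun s hs => hT _ (e1 s hs) (e2 s hs)
    obtain ⟨N, N0, hN⟩ := isOfFinAddOrder_iff_nsmul_eq_zero.1 k
    refine ⟨N * 2 ^ (n.primeFactors.card - 1), by positivity, ?_⟩
    rw [← hN, mul_smul, sum_sub_distrib, xbi_sum hn sep Z h0, smul_sub, smul_sum]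
    congr 2
    refine sum_congr rfl fun s _ => ?_
    rw [← mul_smul, ← mul_smul, ← pow_succ, Nat.sub_add_cancel (card_pos.2 ⟨p₀, h0⟩), pow_add]
  obtain ⟨k, u, hu, rfl⟩ := Nat.exists_eq_two_pow_mul_odd N0.ne'
  choose Q hQ using fun s => tac_half 2 (P (E s))
  have key : 4 • u • (R - ∑ s ∈ U, 2 • 2 ^ ε s • Q s) =
      u • (Z.y 1 1 - ∑ s ∈ U, 2 • 2 ^ ε s • P (E s)) := by
    rw [smul_comm, smul_sub, hR, smul_sum]
    congr 2
    exact sum_congr rfl fun s _ => by rw [← hQ]; module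
  have t0 : 2 ^ (k + 2) • u • (R - ∑ s ∈ U, 2 • 2 ^ ε s • Q s) = 0 := by
    rw [pow_add, mul_smul, show 2 ^ 2 = 4 from rfl, key, ← mul_smul, hN]
  have t1 := T.fix_gn t0 fun v => xbi_line T v t0 hM (by
    have hσ := (gn_spec (xbi_p v)).1
    have e : gn (bp v) • u • (R - ∑ s ∈ U, 2 • 2 ^ ε s • Q s) -
        u • (R - ∑ s ∈ U, 2 • 2 ^ ε s • Q s) = u • (gn (bp v) • R - R -
          ∑ s ∈ U, 2 • 2 ^ ε s • (gn (bp v) • Q s - Q s)) := by
      simp only [smul_comm (gn (bp v)), smul_sub, smul_sum, sum_sub_distrib]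
      abel
    rw [e]
    refine nsmul_mem (sub_mem ?_ (sum_mem fun s hs => ?_)) u
    · obtain ⟨j, hj⟩ := hI _ (bp_or v) _ hσ
      exact ⟨j, hj.symm⟩
    have hD := xbi_chi hn h2 (e1 s hs) v
    have f : ∀ g ∈ Dec (bp v), tw (δ * E s) g (4 • Q s) = 4 • Q s := fun g hg => by
      rw [show 4 • Q s = P (E s) from hQ s]
      exact hP _ (e1 s hs) (e2 s hs) g (hn.split (bp_or v) hg)
    by_cases c : J(δ * E s | 3) = 1 ∧ J(δ * E s | 5) = -1
    · rw [show ε s = 0 from if_pos c, pow_zero, one_smul]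
      exact AddSubgroup.zmultiples_le_of_mem (hM ▸ nsmul_mem (AddSubgroup.mem_zmultiples M) 2)
        (xbi_non T v hD c f hσ)
    · obtain ⟨φ, hφ⟩ := exists_frob (bp v)
      rw [show ε s = 1 from if_neg c, ← mul_smul, show 2 * 2 ^ 1 = 4 from rfl,
        (xbi_tame T v hD f hφ hσ).1]
      exact zero_mem _)
  rw [key] at t1
  have f1 : tw δ g (∑ s ∈ U, 2 ^ ε s • P (E s)) = ∑ s ∈ U, 2 ^ ε s • P (E s) := by
    rw [tw, smul_sum, smul_sum]
    refine sum_congr rfl fun s hs => ?_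
    have := hP _ (e1 s hs) (e2 s hs) g hg
    rw [tw, chi_mul δ0 (by have := e2 s hs; omega), ← S.gen_ψ _ (e1 s hs) (e2 s hs) g hg, g1,
      map_one, mul_one] at this
    rw [smul_comm g, smul_comm, this]
  have f2 := mde_tw_tors δ g (T := u • (2 • R - ∑ s ∈ U, 2 ^ ε s • P (E s))) (by
    rw [← t1, ← hR, ← smul_sum]
    module)
  have f3 := Z.gal 1 (adm_one n) g hg 1
  rw [g1, mul_one, ← hR, show 4 • R = 2 • 2 • R by module, l2_nsmul] at f3
  rw [l2_nsmul, l2_sub, f1] at f2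
  obtain ⟨j, rfl⟩ := hu
  exact g2 (by linear_combination (norm := module) f2 - j • f3)

end Pool.Agent.Lib.MP_696deb_nt.B3
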