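import Pool.Agent.Lib.MP_696deb_nt.B3.MCO
import Pool.Agent.Lib.MP_696deb_nt.B3.MAY
import Pool.Agent.Lib.MP_696deb_nt.B3.L2d
import Pool.Agent.Lib.MP_696deb_nt.B3.XBI
import Pool.Agent.Lib.MP_696deb_nt.B3.GWs
import Pool.Agent.Lib.MP_696deb_nt.B2.Top

/-! The arithmetic half of the converse theorem for all squarefree twists. -/

set_option autoImplicit false

open scoped Classical
open Finset NumberTheorySymbols

namespace Pool.Agent.Lib.MP_696deb_nt.B3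

open B2

/-- The existence of the Euler systems. -/
def EsStmt : Prop := ∀ (n : ℕ) (r δ m e : ℤ), Nok n → 60 ∣ r ^ 2 + n → Spt δ m →
  (e = if δ = 1 then m else 4 * δ * m) → δ * m ≠ 1 →
  ∃ (S : HS n) (Y : ES S (δ * m)) (Z : ES S δ), S.Link r ∧ Sep S ∧ Y.Cong Z ∧
    (δ = 1 → Z.y = S.y) ∧ (δ ≠ 1 → Z.Conj ∧ Z.Bir) ∧
    ∀ (T : Finset Fm) (e' : ℤ), FReps (-(n * e ^ 2)) (-(r * e.natAbs)) T → e' ∣ n → e' % 4 = 1 →
      ∃ N : ℤ, N ≠ 0 ∧ IsOfFinAddOrder (N • pmap jC (Y.ychi e') - Unif.u15 (hW e e' T))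

/-- The lower bound on the branch of reference. -/
def RefStmt : Prop := ∀ (T : Tate) (d d' : ℤ) (n : ℕ) (a b : ℤ) (S : HS n) (Z : ES S T.f),
  T.f ∣ 2 → Ctx d d' n a b → Z.Ref → RefB T S Z a b

/-- What the arithmetic half gives for the twist by `f d`, where `e` is the discriminant of `f`. -/
def Out (f e d : ℤ) (M : ℕ) : Prop := ∃ (d' : ℤ) (n : ℕ) (r a b : ℤ), Ctx d d' n a b ∧
  60 ∣ r ^ 2 + n ∧ d'.natAbs.Coprime M ∧ Cork (f * d') ∧
  (∀ T, FReps (-(n * e ^ 2)) (-(r * e.natAbs)) T → ¬ Tors (hW e d T)) ∧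
  Module.Finite ℤ (twist15 (f * d)).toAffine.Point ∧
  Module.finrank ℤ (twist15 (f * d)).toAffine.Point = if rootNo (f * d) = 1 then 0 else 1

variable {n : ℕ} {S : HS n} {f e d d' : ℤ}

theorem ES.tw_ychi (Y : ES S f) (hf : f ≠ 0) (he : e ∣ n) (h4 : e % 4 = 1) {g : Gam}
    (hg : g ∈ GK n) : tw (f * e) g (Y.ychi e) = Y.ychi e := by
  rw [tw, chi_mul hf (by omega), ES.ychi, smul_sum, smul_sum,
    ← Equiv.sum_comp (Equiv.mulLeft (S.ψ 1 g)) fun a => (S.gen e a : ℤ) • Y.y 1 a]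
  refine sum_congr rfl fun a _ => ?_
  rw [smul_comm g, Equiv.coe_mulLeft, ← Y.gal 1 (fi_adm n) g hg, tw, map_mul,
    S.gen_ψ e he h4 g hg, smul_smul, smul_smul, Units.val_mul, Units.val_mul]
  congr 1
  ring

theorem top_pt (hn : 0 < n) {y : EE} (hy : ¬ IsOfFinAddOrder y) (h1 : ∀ g ∈ GK n, tw d g y = y)
    (h2 : IsOfFinAddOrder (tw d cc y - y)) :
    ∃ P : EE, ¬ IsOfFinAddOrder P ∧ ∀ g, tw d g P = P := by
  obtain ⟨m, m0, hm⟩ := isOfFinAddOrder_iff_nsmul_eq_zero.mp h2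
  rw [smul_sub, sub_eq_zero, ← fi_tw_nsmul] at hm
  refine ⟨m • y, fun k => hy (k.of_nsmul m0.ne'), fun g => ?_⟩
  by_cases hg : g ∈ GK n
  · rw [fi_tw_nsmul, h1 g hg]
  · rw [← mul_one g, ← cc_mul_cc, ← mul_assoc, fi_tw_mul, hm, fi_tw_nsmul,
      h1 _ (mul_mem_GK hg (cc_notMem hn))]

theorem top_int {A : Type} [AddCommGroup A] {x : A} {N : ℤ} (hN : N ≠ 0)
    (h : IsOfFinAddOrder (N • x)) : IsOfFinAddOrder x := by
  refine IsOfFinAddOrder.of_nsmul (n := N.natAbs) ?_ (Int.natAbs_ne_zero.2 hN)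
  rw [← natCast_zsmul, ← Int.sign_mul_self_eq_natAbs, mul_smul]
  exact h.zsmul

theorem top_cc {y : EE} {z : ℂ} {N s : ℤ} (hN : N ≠ 0)
    (h : IsOfFinAddOrder (N • pmap jC y - Unif.u15 z))
    (hz : tq ((starRingEnd ℂ) z) = s • tq z) : IsOfFinAddOrder (cc • y - s • y) := by
  have h1 : IsOfFinAddOrder (Unif.u15 ((starRingEnd ℂ) z) - s • Unif.u15 z) := by
    rw [← map_zsmul, ← map_sub, fi_tors, ← tq_eq, map_zsmul, hz]
  have h2 := (pmap (W := W15) (starRingEnd ℂ)).isOfFinAddOrder h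
  rw [map_sub, map_zsmul, ← jC_cc_pt, ← Unif.u15_conj] at h2
  have h3 := (h2.add h1).add (h.zsmul (i := -s))
  rw [← fi_jC, map_sub, map_zsmul]
  refine top_int hN (Eq.mp (congrArg _ ?_) h3)
  module

theorem core3_of (hE : EsStmt) (hR : RefStmt) {δ m : ℤ} (hs : Spt δ m)
    (he : e = if δ = 1 then m else 4 * δ * m) (h1 : δ * m ≠ 1) (h0 : Cls0 d)
    (h : Cork (δ * m * d)) {M : ℕ} (hM : M ≠ 0) : Out (δ * m) e d M := by
  obtain ⟨F⟩ := m_cft
  obtain ⟨T₀⟩ := m_tate m_kron m_desc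
  obtain ⟨d', n, a, b, hc, hx, h', hd⟩ := m_aux3 m_desc hs h0 hM
  obtain ⟨r, hr⟩ := hc.nok.root
  obtain ⟨S, Y, Z, hL, sep, hYZ, z1, z2, hl⟩ := hE n r δ m e hc.nok hr hs he h1
  have f30 : δ * m ∣ 30 := mul_dvd_mul hs.d2 hs.d15
  have f0 : δ * m ≠ 0 := ne_zero_of_dvd_ne_zero (by norm_num) f30
  obtain ⟨T', t1, rfl⟩ := exists_tate T₀ (hs.d2.trans (by norm_num : (2 : ℤ) ∣ 30))
  have hZ : Z.Ref := by
    unfold ES.Ref
    split_ifs with k
    exacts [⟨z1 k, m_refDiv m_desc hc hr S hL⟩,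
      ⟨(z2 k).1, ES.refDiv T₀ hc.nok hs.d2 sep Z (z2 k).2⟩]
  obtain ⟨hy, hz⟩ := m_core_of F m_su m_cheb m_quad (T := ⟨T₀, T'.f * m, twf T₀ f30⟩) t1 hs rfl hc
    hx Y Z hYZ (hR T' d d' n a b S Z hs.d2 hc hZ) h h'
  change ¬ (Nz (T'.f * m * d) ∧ Nz (T'.f * m * d')) at hz
  have hn := hc.nok.good
  have n0 : 0 < n := by have := hn.mod4; omega
  have hm := hc.mul
  have d4 := hc.d4
  have dn : d ∣ n := ⟨-d', by rw [mul_neg, hm, neg_neg]⟩
  have d0 : d ≠ 0 := by omega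
  have d0' : d' ≠ 0 := by rintro rfl; omega
  have D0 := mul_ne_zero f0 d0
  have D0' := mul_ne_zero f0 d0'
  obtain ⟨hf, hle⟩ := m_rank D0 h
  refine ⟨d', n, r, a, b, hc, hr, hd, h', fun T hT k => ?_, hf, ?_⟩
  · obtain ⟨N, N0, hN⟩ := hl T d hT dn d4
    exact hy (fi_jC.1 (top_int N0 (by simpa using hN.add (fi_tors.2 k))))
  have e0 : e ≠ 0 := by
    rw [he]
    split_ifs
    exacts [right_ne_zero_of_mul f0, mul_assoc 4 T'.f m ▸ mul_ne_zero (by norm_num) f0]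
  obtain ⟨T, hT⟩ := exists_freps (D := -(n * e ^ 2)) (by rw [neg_lt_zero]; positivity)
    (-(r * e.natAbs))
  obtain ⟨N, N0, hN⟩ := hl T d hT dn d4
  have h1 := top_cc N0 hN (conj_hW hs he hn dn d4 hT)
  have h2 := fun g => Y.tw_ychi f0 dn d4 (g := g)
  have h3 : ∀ g, chi (T'.f * m * d') g = chi (T'.f * m * d) g * chi (-n) g := fun g => by
    rw [← hm, ← chi_mul D0 (mul_ne_zero d0 d0'), show T'.f * m * d * (d * d') =
      T'.f * m * d' * d ^ 2 by ring, chi_mul D0' (pow_ne_zero 2 d0), chi_sq, mul_one]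
  have h4 : (chi (T'.f * m * d) cc : ℤ) = (T'.f * m * d).sign := by
    rw [chi_cc D0]
    split_ifs with k
    exacts [(Int.sign_eq_one_of_pos k).symm, (Int.sign_eq_neg_one_of_neg (by omega)).symm]
  have h5 : IsOfFinAddOrder
      (tw (T'.f * m * d) cc (Y.ychi d) + rootNo (T'.f * m * d) • Y.ychi d) := by
    convert h1.zsmul (i := (T'.f * m * d).sign) using 1
    rw [tw, h4, rootNo]
    generalize cc • Y.ychi d = x
    module
  split_ifs with k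
  · refine fi_finrank D0 h fun j => hz ⟨j, (m_nz D0' h').2 (top_pt n0 hy (fun g hg => ?_) ?_)⟩
    · rw [tw, h3, B4c_mem.1 hg, mul_one]
      exact h2 g hg
    · convert h5.neg using 1
      rw [k, tw, tw, h3, chi_cc (a := -n) (by omega), if_neg (by omega)]
      simp only [Units.val_mul, Units.val_neg, Units.val_one]
      generalize cc • Y.ychi d = x
      module
  · obtain ⟨P, p1, p2⟩ := top_pt n0 hy h2 (by
      rwa [(rootNo_cases D0).resolve_left k, neg_one_smul, ← sub_eq_add_neg] at h5)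
    obtain ⟨φ, -, hφ⟩ := m_pts D0
    obtain ⟨Q, rfl⟩ := (hφ P).2 p2
    exact le_antisymm hle (RankOne.one_le_finrank fun j => p1 (φ.isOfFinAddOrder j))

end Pool.Agent.Lib.MP_696deb_nt.B3
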