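import Pool.Agent.Lib.MP_696deb_nt.B3.Top1
import Pool.Agent.Lib.MP_696deb_nt.B3.GWt
import Pool.Agent.Lib.MP_696deb_nt.B3.MES
import Pool.Agent.Lib.MP_696deb_nt.B3.MRF

/-! The arithmetic half, unconditionally. -/

set_option autoImplicit false

open scoped Classical
open Finset NumberTheorySymbols

namespace Pool.Agent.Lib.MP_696deb_nt.B3

open B2

theorem esStmt : EsStmt := fun n r δ m e hn hr hs he h1 => by
  obtain ⟨F⟩ := m_cft
  obtain ⟨S, Y, Z, l1, l2, l3, l4, l5, l6⟩ := m_es F m_kron hn hr hs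
  obtain rfl : e = fund (δ * m) := (hs.dsc he).2.2.2.2.2
  refine ⟨S, Y, Z, l1, l2, l4, l5, l6, fun T e' hT h2 h3 =>
    ⟨-(if δ * m % 4 = 1 then 1 else 2 : ℕ), by split_ifs <;> norm_num, ?_⟩⟩
  rw [neg_smul, natCast_zsmul, ← map_nsmul, l3 T e' hT h2 h3 h1, neg_neg, sub_self]
  exact IsOfFinAddOrder.zero

theorem refStmt : RefStmt := fun T _ _ _ _ _ S Z h2 hc hr =>
  m_cft.elim fun F => m_ref F m_su m_cheb T h2 hc S Z hr

theorem core3 {δ m e d : ℤ} (hs : Spt δ m) (he : e = if δ = 1 then m else 4 * δ * m)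
    (h1 : δ * m ≠ 1) (h0 : Cls0 d) (h : Cork (δ * m * d)) {M : ℕ} (hM : M ≠ 0) :
    Out (δ * m) e d M := core3_of esStmt refStmt hs he h1 h0 h hM

end Pool.Agent.Lib.MP_696deb_nt.B3
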