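import Pool.Agent.Lib.MP_696deb_nt.B3.XTW
import Pool.Agent.Lib.MP_696deb_nt.B3.XLe
import Pool.Agent.Lib.MP_696deb_nt.B2.XAa

/-! The matrix action on the group of the quadratic field. -/

set_option autoImplicit false

open scoped NNReal Classical
open Finset Matrix NumberTheorySymbols PowerSeries

namespace Pool.Agent.Lib.MP_696deb_nt.B3

open B2

variable {T : Tate} {n k : ℕ} {lam w : Plc} {ψ : Gam → Lam} {Q : Finset Plc} {g : Gam}

/-- The action as a homomorphism. -/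
noncomputable def actK (T : Tate) (h : Chr T.f n k lam ψ) : GK n →* Matrix (Fin 2) (Fin 2) (Ak k) where
  toFun g := mA T ψ k g
  map_one' := xa_ext fun x => by
    rw [mA_mulVec, one_mulVec]
    exact (h.act T (kil_Ak k)).one x
  map_mul' g g' := xa_ext fun x => by
    rw [← mulVec_mulVec, mA_mulVec, mA_mulVec, mA_mulVec]
    exact (h.act T (kil_Ak k)).mul g g.2 g' g'.2 x

theorem actK_apply (h : Chr T.f n k lam ψ) (g : GK n) : actK T h g = mA T ψ k g := rfl

theorem SOk.xa_z1 (h : SOk T n k lam ψ Q) : ∃ z : GK n, actK T h.chr z = (1 + X : Lam) • 1 ∧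
    (1 + X : Lam) • actK T h.chr (thK n z) = 1 := by
  obtain ⟨z, hz, e⟩ := h.chr.gen
  have m := h.adm.ine hz.1
  have r := T.unr lam h.adm.nd30 z hz.1
  refine ⟨⟨z, m⟩, by rw [actK_apply, mA_of e, r, Matrix.map_one _ (map_zero _) (map_one _)], ?_⟩
  rw [actK_apply, thK_coe, mA_eq, map_mul, map_mul, r, mul_one, ← map_mul, cc_mul_cc, map_one,
    Matrix.map_one _ (map_zero _) (map_one _), smul_smul]
  have e2 : (1 + X) * ψ (cc * z * cc) - 1 ∈ aa k k := by
    have := sub_mem (h.chr.conj h.nok.pos m) (Ideal.mul_mem_left _ (ψ (cc * z * cc)) e)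
    rwa [show ψ (cc * z * cc) * ψ z - 1 - ψ (cc * z * cc) * (ψ z - (1 + X)) =
      (1 + X) * ψ (cc * z * cc) - 1 by ring] at this
  ext i j
  exact ((kil_Ak k).congr e2 _).trans (one_smul _ _)

theorem SOk.xa_fl (h : SOk T n k lam ψ Q) : (actK T h.chr (toK n (fq lam)) - 1).det ∣ 2 ^ 8 := by
  obtain ⟨u, e1, e2⟩ := h.det_lam
  rw [actK_apply, toK_coe n h.adm.tm'.mem, mA_one e2, ← map_one (cA k).mapMatrix, ← map_sub,
    ← RingHom.map_det, e1, show (64 : ℤ_[2]) = 2 ^ 6 by norm_num]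
  exact xa_dvd (by norm_num) u

/-- The squares of the generators of inertia above three and five. -/
noncomputable def nsq (v : Fin 2) (b : Bool) : Gam := nsg v b * nsg v b

theorem nsq_mem (h : Nok n) (v : Fin 2) (b : Bool) : nsq v b ∈ GK n :=
  mul_mem (h.nsg_mem v b) (h.nsg_mem v b)

theorem SOk.xa_ns (h : SOk T n k lam ψ Q) (v : Fin 2) (b : Bool) :
    mA T ψ k (nsq v b) = (cA k).mapMatrix (T.ρ (nsq v b)) := by
  refine mA_one ?_
  have e := h.chr.unr (bq v b) (fun e => h.adm.nd30 (by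
    rcases bq_or v b with e' | e' <;> rw [← e, e'] <;> norm_num)) _
    ⟨nsq_mem h.nok v b, mul_mem (gen_bq v b).1 (gen_bq v b).1⟩
  rwa [show chi T.f (nsq v b) = 1 by rw [nsq, map_mul, Int.units_mul_self], Units.val_one,
    Int.cast_one] at e

theorem xa_two (T : B2.Tate) (v : Fin 2) :
    T.ρ (nsq v true) - 1 = (2 : ℤ_[2]) • (T.ρ (gn (bp v)) - 1) := by
  have e := un_sq T v
  rw [nsq, map_mul, two_smul, ← sub_eq_zero, ← e]
  change T.ρ (gn (bp v)) * T.ρ (gn (bp v)) - 1 - _ = _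
  noncomm_ring

theorem SOk.xa_un (h : SOk T n k lam ψ Q) (v : Fin 2) :
    actK T h.chr (toK n (nsq v true)) = (cA k).mapMatrix (T.ρ (nsq v true)) := by
  rw [actK_apply, toK_coe n (nsq_mem h.nok v true)]
  exact h.xa_ns v true

theorem SOk.xa_sq (h : SOk T n k lam ψ Q) (v : Fin 2) :
    (actK T h.chr (toK n (nsq v true)) - 1) * (actK T h.chr (toK n (nsq v true)) - 1) = 0 := by
  rw [h.xa_un, ← map_one (cA k).mapMatrix, ← map_sub, ← map_mul, xa_two, smul_mul_smul_comm, un_sq,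
    smul_zero, map_zero]

theorem SOk.xa_tr (h : SOk T n k lam ψ Q) : ((actK T h.chr (toK n (nsq 0 true)) - 1) *
    (actK T h.chr (toK n (nsq 1 true)) - 1)).trace ∣ 2 ^ 8 := by
  obtain ⟨u, e⟩ := un_tr T.toTate
  rw [h.xa_un, h.xa_un, ← map_one (cA k).mapMatrix, ← map_sub, ← map_sub, ← map_mul,
    RingHom.mapMatrix_apply, ← AddMonoidHom.map_trace (cA k), xa_two, xa_two, smul_mul_smul_comm,
    trace_smul, e, smul_eq_mul, ← mul_assoc, show (2 * 2 * 16 : ℤ_[2]) = 2 ^ 6 by norm_num]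
  exact xa_dvd (by norm_num) u

theorem SOk.xa_th (h : SOk T n k lam ψ Q) (v : Fin 2) :
    actK T h.chr (thK n (toK n (nsq v true))) =
      tauM _ * actK T h.chr (toK n (nsq v true)) * tauM _ := by
  rw [h.xa_un, actK_apply, thK_coe, toK_coe n (nsq_mem h.nok v true), ← cA_tau T, ← map_mul,
    ← map_mul, ← map_mul, ← map_mul, nsq, cc_mul]
  exact h.xa_ns v false

variable {S : HS n}

theorem xa_QT (T : Tate) (S : HS n) (e : ℤ) (v : Fin 2) (b : Bool) :
    (2 : Lam) ^ 8 ∈ Ideal.span {QQ T (T.psi S k lam e) v b, X} ⊔ aa k k := by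
  refine Ideal.mem_sup_left ?_
  by_cases hv : T.Rm v
  · rw [QQ_rm hv]
    exact Ideal.mem_span_pair.2 ⟨2 ^ 8, 0, by ring⟩
  have key : ∀ (s : Lam) (r : ℕ) (p : Lam) (u y : Lam), IsUnit u → (s - p) * y = 2 ^ 8 * u →
      (2 : Lam) ^ 8 ∈ Ideal.span {s * (1 + X) ^ r - p, X} := fun s r p u y hu e => by
    obtain ⟨u, rfl⟩ := hu
    obtain ⟨t, ht⟩ := sub_dvd_pow_sub_pow (1 + X : Lam) 1 r
    refine Ideal.mem_span_pair.2 ⟨y * ↑u⁻¹, -(s * t * y * ↑u⁻¹), ?_⟩
    have := u.mul_inv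
    rw [one_pow] at ht
    linear_combination (s * y * ↑u⁻¹) * ht + (↑u⁻¹ : Lam) * e + 2 ^ 8 * this
  have u3 : IsUnit (3 : Lam) := xld_unit (p := 3) (by decide)
  rw [QQ_nrm hv, B2.QQ, Tate.psi, HS.psi, HS.Psi, ← mul_assoc (chi T.f _ : Lam), ← Int.cast_mul,
    ← Units.val_mul, ← mul_assoc]
  generalize chi T.f _ * S.gen e _ = s
  rcases Int.units_eq_one_or s with h | h <;> rw [h] <;> fin_cases v
  · exact key _ _ _ 1 (-64) isUnit_one (by simp; norm_num)
  · exact key _ _ _ 1 (-64) isUnit_one (by simp; norm_num)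
  · exact key _ _ _ 1 (-128) isUnit_one (by simp; norm_num)
  · exact key _ _ _ 3 (-128) u3 (by simp; norm_num)

theorem xa_scalar (hn : Nok n) (hl : Adm n lam.p) {e : ℤ}
    (h : Chr T.f n k lam (T.psi S k lam e)) : ∃ z : GK n, actK T h z = (33 : Ak k) • 1 ∧
      ∀ g : GK n, z * g * z⁻¹ * g⁻¹ ∈ (S.N T k lam).subgroupOf (GK n) := by
  obtain ⟨z, h1, h2, h3, h4⟩ := T.exists_scalar (S := S) (k := k) hn hl e
  refine ⟨⟨z, h1⟩, ?_, fun g => h4 g g.2⟩
  rw [actK_apply, mA_one h3, RingHom.mapMatrix_apply, cA_mred h2]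
  ext i j
  fin_cases i <;> fin_cases j <;> simp [map_ofNat]

end Pool.Agent.Lib.MP_696deb_nt.B3
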