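import Pool.Agent.Lib.MP_696deb_nt.B3.XLc
import Pool.Agent.Lib.MP_696deb_nt.B2.XSc

/-! The Selmer modules of the patching argument are cartesian. -/

set_option autoImplicit false

open scoped NNReal Classical
open Finset Matrix NumberTheorySymbols PowerSeries

namespace Pool.Agent.Lib.MP_696deb_nt.B3

open B2

variable {T : Tate} {n k : ℕ} {lam w : Plc} {ψ : Gam → Lam} {Q : Finset Plc} {ty : Plc → Ty}
  {R : Finset (Fin 5)} {B B' : Type} [AddCommGroup B] [Module Lam B] [AddCommGroup B']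
  [Module Lam B'] {c : Gam → Fin 2 → B} {g : Gam}

/-- Membership can be tested on all maps to the ring of level `k`. -/
theorem xsc_SM [Finite B] (h : SOk T n k lam ψ Q) (hB : Kil k B)
    (hc : ∀ ι : B →ₗ[Lam] Ak k, (fun g i => ι (c g i)) ∈ SM T n lam ψ Q ty (Ak k)) :
    c ∈ SM T n lam ψ Q ty B := by
  have hA : Kil k (Ak k) := kil_quot le_rfl
  have h1 := fun ι => (h.mem_SM hA).1 (hc ι)
  have h2 := fun ι => (h.mem_SU hA).1 (h1 ι).1
  refine (h.mem_SM hB).2 ⟨(h.mem_SU hB).2 ⟨xsc_Z1 hB fun ι => (h2 ι).1,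
    fun w a1 a2 a3 σ hσ => xsc_sep hB fun ι => (h2 ι).2.1 w a1 a2 a3 σ hσ, ?_,
    fun w hw => xsc_cond hB fun ι => (h2 ι).2.2.2 w hw⟩,
    fun g hg => xsc_sep hB fun ι => (h1 ι).2 g hg⟩
  exact KumC.of_sep hA.two (fun ι : B →ₗ[Lam] Ak k => ι.toAddMonoidHom)
    (fun x hx => PA.frob_cog hB hx) fun ι => (h2 ι).2.2.1

theorem xsc_out {s : Str} (hc : c ∈ SR0 T n lam ψ s B) (hg : g ∉ GK n) : c g = 0 := hc.1.2 g hg

theorem xsc_injOn (s : Str) :
    Set.InjOn (resK n (Fin 2 → B)) (SR0 T n lam ψ s B : Set (Gam → Fin 2 → B)) :=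
  fun c hc c' hc' e => funext fun g => by
    by_cases hg : g ∈ GK n
    · exact congrFun e ⟨g, hg⟩
    · rw [xsc_out hc hg, xsc_out hc' hg]

theorem SOk.wk_SS (h : SOk T n k lam ψ Q) {I : Ideal Lam} (hI : aa k k ≤ I) :
    Wk (SS T n lam ψ k Q ty) I = resK n _ '' SM T n lam ψ Q ty (Lam ⧸ I) := by
  have := finite_quot hI
  ext c
  constructor
  · intro hc
    refine ⟨fun g => if hg : g ∈ GK n then c ⟨g, hg⟩ else 0,
      xsc_SM h (kil_quot hI) fun ι => ?_, funext fun g => dif_pos g.2⟩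
    obtain ⟨d, hd, e⟩ := hc ι
    refine (congrArg (· ∈ SM T n lam ψ Q ty (Ak k)) (funext fun g => ?_)).mpr hd
    by_cases hg : g ∈ GK n
    · rw [dif_pos hg]
      exact (congrFun e ⟨g, hg⟩).symm
    · rw [dif_neg hg, xsc_out hd hg]
      exact funext fun i => map_zero ι
  · rintro ⟨d, hd, rfl⟩ ι
    exact ⟨_, SR0_map ι hd, rfl⟩

theorem SOk.card_wk (h : SOk T n k lam ψ Q) {I : Ideal Lam} (hI : aa k k ≤ I) :
    Nat.card (Wk (SS T n lam ψ k Q ty) I) = Nat.card (SM T n lam ψ Q ty (Lam ⧸ I)) := by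
  rw [h.wk_SS hI]
  exact Nat.card_image_of_injOn (xsc_injOn _)

theorem card_SS : Nat.card (SS T n lam ψ k Q ty) = Nat.card (SM T n lam ψ Q ty (Ak k)) := by
  exact Nat.card_image_of_injOn (xsc_injOn (T := T) (n := n) (lam := lam) (ψ := ψ) (B := Ak k)
    ⟨{4}, Q, ty⟩)

theorem SOk.wk_ori (h : SOk T n k lam ψ Q) {I : Ideal Lam} (hI : aa k k ≤ I) (o : Fin 2 → Bool) :
    Wk (SS T n lam ψ k Q ty ⊓ OriK T n k o) I =
      resK n _ '' {c | c ∈ SM T n lam ψ Q ty (Lam ⧸ I) ∧ ∀ v, nu T v (o v) c = 0} := by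
  have key : ∀ (d : Gam → Fin 2 → Lam ⧸ I) (ι : (Lam ⧸ I) →ₗ[Lam] Ak k) (v : Fin 2),
      ∑ i, nlf T v (o v) i • ι (resK n _ d (toK n (nsg v (o v))) i) = ι (nu T v (o v) d) := by
    intro d ι v
    rw [nu, map_sum]
    refine sum_congr rfl fun i _ => ?_
    rw [map_smul]
    exact congrArg (fun g => nlf T v (o v) i • ι (d g i)) (toK_coe n (h.nok.nsg_mem v (o v)))
  ext c
  constructor
  · intro hc
    have h1 : c ∈ Wk (SS T n lam ψ k Q ty) I := fun ι => (hc ι).1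
    rw [h.wk_SS hI] at h1
    obtain ⟨d, hd, rfl⟩ := h1
    exact ⟨d, ⟨hd, fun v => PA.cog hI fun ι => (key d ι v).symm.trans ((hc ι).2 v)⟩, rfl⟩
  · rintro ⟨d, ⟨hd, h2⟩, rfl⟩ ι
    exact ⟨⟨_, SR0_map ι hd, rfl⟩, fun v => (key d ι v).trans (by rw [h2 v, map_zero])⟩

end Pool.Agent.Lib.MP_696deb_nt.B3
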