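import Pool.Agent.Lib.MP_696deb_nt.B3.XAa
import Pool.Agent.Lib.MP_696deb_nt.B3.XSd
import Pool.Agent.Lib.MP_696deb_nt.B2.XAb

/-! The data of the patching argument at one level. -/

set_option autoImplicit false

open scoped NNReal Classical
open Finset Matrix NumberTheorySymbols PowerSeries

namespace Pool.Agent.Lib.MP_696deb_nt.B3

open B2

variable {T : Tate} {n k : ℕ} {lam w : Plc} {ψ : Gam → Lam} {Q : Finset Plc} {g : Gam}
  {ty ty' : Plc → Ty}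

theorem SOk.fq_mem (h : SOk T n k lam ψ Q) (hw : w ∈ Q) : fq w ∈ GK n := (h.deep w hw).adm.tm'.mem

theorem SOk.gn_mem (h : SOk T n k lam ψ Q) (hw : w ∈ Q) : gn w ∈ GK n :=
  (h.deep w hw).adm.tm'.τ_mem.1

theorem SOk.xb_set (h : SOk T n k lam ψ Q) (hw : w ∈ Q) (h1 : ty' w = .rel)
    (h2 : ∀ v ∈ Q, v ≠ w → ty' v = ty v) {c : Gam → Fin 2 → Ak k} :
    c ∈ SM T n lam ψ Q ty (Ak k) ↔
      c ∈ SM T n lam ψ Q ty' (Ak k) ∧ (c (fq w), c (gn w)) ∈ (ty w).cond (Ak k) := by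
  simp only [h.mem_SM (kil_Ak k), h.mem_SU (kil_Ak k)]
  refine ⟨fun ⟨⟨a1, a2, a3, a4⟩, a5⟩ => ⟨⟨⟨a1, a2, a3, fun v hv => ?_⟩, a5⟩, a4 w hw⟩,
    fun ⟨⟨⟨a1, a2, a3, a4⟩, a5⟩, a6⟩ => ⟨⟨a1, a2, a3, fun v hv => ?_⟩, a5⟩⟩
  · by_cases e : v = w
    · rw [e, h1]
      trivial
    · exact h2 v hv e ▸ a4 v hv
  · by_cases e : v = w
    · exact e ▸ a6
    · exact h2 v hv e ▸ a4 v hv

theorem SOk.xb_inf (h : SOk T n k lam ψ Q) (hw : w ∈ Q) (h1 : ty' w = .rel)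
    (h2 : ∀ v ∈ Q, v ≠ w → ty' v = ty v) {W : Submodule Lam (GK n → Fin 2 → Ak k)}
    (hW : ∀ c, c ∈ W ↔ (c (toK n (fq w)), c (toK n (gn w))) ∈ (ty w).cond (Ak k)) :
    SS T n lam ψ k Q ty = SS T n lam ψ k Q ty' ⊓ W := by
  ext c
  rw [Submodule.mem_inf, hW]
  refine ⟨?_, ?_⟩
  · rintro ⟨c, hc, rfl⟩
    rw [resK_toK c (h.fq_mem hw), resK_toK c (h.gn_mem hw)]
    exact ⟨⟨c, ((h.xb_set hw h1 h2).1 hc).1, rfl⟩, ((h.xb_set hw h1 h2).1 hc).2⟩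
  · rintro ⟨⟨c, hc, rfl⟩, k2⟩
    rw [resK_toK c (h.fq_mem hw), resK_toK c (h.gn_mem hw)] at k2
    exact ⟨c, (h.xb_set hw h1 h2).2 ⟨hc, k2⟩, rfl⟩

theorem SOk.xb_ur (h : SOk T n k lam ψ (insert w Q)) (hw : w ∉ Q) (h1 : ty' w = .rel)
    (h2 : ∀ v ∈ Q, ty' v = ty v) :
    SS T n lam ψ k Q ty = SS T n lam ψ k (insert w Q) ty' ⊓ Van k (toK n (gn w)) := by
  rw [← h.xb_inf (ty := Function.update ty w .ur) (mem_insert_self w Q) h1
    (fun v hv e => by rw [Function.update_of_ne e, h2 v ((mem_insert.1 hv).resolve_left e)])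
    fun c => by simp [mem_Van, Ty.cond]]
  refine congrArg (Submodule.map _) (Submodule.ext fun c => ?_)
  rw [SM, SM, mem_SR0, mem_SR0, h.insert_ur (kil_Ak k) hw (Function.update_self ..)
    fun v hv => Function.update_of_ne (ne_of_mem_of_not_mem hv hw) ..]

theorem SOk.xb_lag (h : SOk T n k lam ψ {w}) : SS T n lam ψ k {w} (fun _ => .lag) =
    SS T n lam ψ k {w} (fun _ => .rel) ⊓ Lag k (toK n (fq w)) (toK n (gn w)) :=
  h.xb_inf (mem_singleton_self w) rfl (fun _ hv e => absurd (mem_singleton.1 hv) e) fun _ => Iff.rfl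

theorem SOk.xb_coc (h : SOk T n k lam ψ Q) {c : Gam → Fin 2 → Ak k}
    (hc : c ∈ SM T n lam ψ Q ty (Ak k)) : Coc (GK n) (act T ψ (Ak k)) c :=
  ((h.mem_SU (kil_Ak k)).1 ((h.mem_SM (kil_Ak k)).1 hc).1).1.1

theorem SOk.xb_nu (h : SOk T n k lam ψ Q) {c : GK n → Fin 2 → Ak k}
    (hc : c ∈ SS T n lam ψ k Q ty) (v : Fin 2) (b : Bool) :
    QQ T ψ v b • ∑ i, nlf T v b i • c (toK n (nsg v b)) i = 0 := by
  obtain ⟨c, hc, rfl⟩ := hc
  rw [resK_toK c (h.nok.nsg_mem v b)]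
  exact h.nu_Q (kil_Ak k) v b ((h.xb_coc hc).lo_mono inf_le_left)

theorem xb_iso {G : Type} {W : Submodule Lam (G → Fin 2 → Ak k)} {φ σ : G} {a a' : Lam}
    (h : IsoW a W φ σ) (e : a ∣ a') : IsoW a' W φ σ := fun I hI c hc c' hc' => by
  obtain ⟨u, rfl⟩ := e
  rw [mul_comm, mul_smul, h I hI c hc c' hc', smul_zero]

theorem xb_span {a a' b b' : Lam} (h : a ∣ a') (h' : b ∣ b') :
    Ideal.span {a', b'} ≤ Ideal.span {a, b} := by
  obtain ⟨u, rfl⟩ := h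
  obtain ⟨v, rfl⟩ := h'
  rw [Ideal.span_le, Set.insert_subset_iff, Set.singleton_subset_iff]
  exact ⟨Ideal.mem_span_pair.2 ⟨u, 0, by ring⟩, Ideal.mem_span_pair.2 ⟨0, v, by ring⟩⟩

variable {S : HS n} {a b : ℤ}

theorem exists_lev' (F : CFT) (su : SUStmt) (ch : ChebStmt) (hn : Nok n) (h : S.Tw k lam a b)
    (e : ℤ) {w₀ : Plc} (h0 : S.Dp T k lam w₀) {κ : Finset Plc → Gam → Fin 2 → Ak k}
    {κ₀ : Gam → Fin 2 → Ak k} {f : Lam}
    (k1 : ∀ Q, S.DpS T k lam Q → κ Q ∈ SU T n lam (T.psi S k lam e) Q (fun _ => .tr) (Ak k))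
    (k2 : ∀ Q w, w ∉ Q → S.DpS T k lam (insert w Q) → κ (insert w Q) (gn w) = tauM _ *ᵥ κ Q (fq w))
    (k3 : ∀ g ∈ GK n, κ ∅ g = 4 • κ₀ g)
    (hf : Ideal.Quotient.mk _ f = κ₀ (fq w₀) 1 - κ₀ (fq w₀) 0) (q : Fin 2 → Bool → Lam)
    (hq : ∀ v b, Associated (QQ T (T.psi S k lam e) v b) (q v b)) :
    ∃ L : Lev (GK n) (thK n) 8 k,
      L.SF = SS T n lam (T.psi S k lam e) k {w₀} (fun _ => .lag) ∧
      L.S L.n0 = SS T n lam (T.psi S k lam e) k ∅ (fun _ => .tr) ∧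
      L.g = f ^ 2 * (q 0 true * q 0 false * (q 1 true * q 1 false)) ∧
      ∀ σ ∈ L.N, ↑σ ∈ S.N T k lam ∧ L.kap L.n0 σ = 256 • κ₀ σ := by
  have hA := kil_Ak k
  have ok : ∀ {Q}, S.DpS T k lam Q → SOk T n k lam (T.psi S k lam e) Q := fun hQ => T.sok h hn hQ e
  have d0 : S.DpS T k lam ∅ := ⟨by simp, by simp⟩
  have d1 : S.DpS T k lam {w₀} := ⟨by simpa using h0, by simp⟩
  have o0 := ok d0
  have o1 := ok d1
  obtain ⟨z1, z1a, z1b⟩ := o0.xa_z1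
  obtain ⟨z2, z2a, z2b⟩ := xa_scalar (T := T) hn h.adm o0.chr
  choose x hx using fun Q : {Q // S.DpS T k lam Q} => (ok Q.2).norm hA (k1 Q Q.2)
  have kN : ∀ Q, ∀ g ∈ S.N T k lam, ((64 : Lam) • κ Q.1 -
      rs (GK n) (cob (act T (T.psi S k lam e) (Ak k)) (x Q))) g = 64 • κ Q.1 g := fun Q g hg => by
    rw [Pi.sub_apply, rs_of_mem (HS.N_le hg), cob, T.act_N h.adm hg e hA, sub_self, sub_zero,
      Pi.smul_apply, ← Nat.cast_smul_eq_nsmul Lam, Nat.cast_ofNat]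
  have qn : ∀ {Q ty}, SOk T n k lam (T.psi S k lam e) Q → ∀ c ∈ SS T n lam (T.psi S k lam e) k Q ty,
      ∀ v b, q v b • ∑ i, nlf T v b i • c (toK n (nsg v b)) i = 0 := fun o c hc v b => by
    obtain ⟨u, hu⟩ := (hq v b).dvd
    rw [hu, mul_comm, mul_smul, o.xb_nu hc, smul_zero]
  have qd : ∀ o : Fin 2 → Bool, 2 ^ 8 * QQ T (T.psi S k lam e) 0 (!o 0) *
      QQ T (T.psi S k lam e) 1 (!o 1) ∣ 2 ^ 8 * q 0 (!o 0) * q 1 (!o 1) := fun o =>
    mul_dvd_mul (mul_dvd_mul_left _ (hq _ _).dvd) (hq _ _).dvd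
  refine ⟨{
    act := actK T o0.chr
    N := (S.N T k lam).subgroupOf (GK n)
    normal := ⟨fun σ hσ g => HS.N_conj hσ g⟩
    θN := fun σ hσ => HS.N_cc hσ
    actN := fun σ hσ => xa_ext fun y => by
      rw [actK_apply, mA_mulVec, one_mulVec]
      exact T.act_N h.adm hσ e hA y
    z1 := z1, act_z1 := z1a, act_θz1 := z1b, z2 := z2, d := 33, act_z2 := z2a
    d_dvd := ⟨8, by norm_num⟩
    z2_comm := z2b
    fl := toK n (fq lam), fl_det := o0.xa_fl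
    un := fun v => toK n (nsq v true), un_sq := o0.xa_sq, un_tr := o0.xa_tr, un_θ := o0.xa_th
    ns := fun v b => toK n (nsg v b), nl := nlf T, Q := q
    Q_cop := fun v => sup_le_sup_right (xb_span (hq v _).symm.dvd (hq v _).symm.dvd) _ (o0.Q_cop v)
    Q_T := fun v b => sup_le_sup_right (xb_span (hq v b).symm.dvd dvd_rfl) _ (xa_QT T S e v b)
    St := {Q // S.DpS T k lam Q}
    S := fun Q => SS T n lam (T.psi S k lam e) k Q fun _ => .tr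
    kap := fun Q => resK n _ ((64 : Lam) • κ Q.1 -
      rs (GK n) (cob (act T (T.psi S k lam e) (Ak k)) (x Q)))
    kap_mem := fun Q => ⟨_, hx Q, rfl⟩
    coc := ?_, van := ?_, Q_nu := fun Q => qn (ok Q.2), step := ?_
    n0 := ⟨∅, d0⟩
    S0 := SS T n lam (T.psi S k lam e) k {w₀} fun _ => .rel
    φ0 := toK n (fq w₀), s0 := toK n (gn w₀)
    fin0 := ?_
    S_n0 := SOk.xb_ur (Q := ∅) o1 (notMem_empty _) rfl (by simp)
    Q_nu0 := qn o1
    iso0 := fun o => xb_iso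
      (o1.isoW F (mem_singleton_self _) (fun _ hv e => absurd (mem_singleton.1 hv) e) o) (qd o)
    h := f, kap_h := ⟨2 ^ 8, dvd_rfl, ?_⟩, sq := ?_ }, o1.xb_lag.symm, rfl, rfl, fun σ hσ =>
      ⟨hσ, (kN ⟨∅, d0⟩ _ hσ).trans ((congrArg (64 • ·) (k3 _ σ.2)).trans (smul_smul ..))⟩⟩
  · rintro Q _ ⟨c, hc, rfl⟩ g g'
    rw [actK_apply, mA_mulVec]
    exact ((ok Q.2).xb_coc hc).2 g g.2 g' g'.2
  · rintro Q _ ⟨c, hc, rfl⟩
    rw [resK_toK c h.adm.tm'.mem]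
    exact (((ok Q.2).mem_SM hA).1 hc).2 _ h.adm.tm'.φ_mem
  · intro Q σ hσ
    have oQ := ok Q.2
    have := (sel_finite F su ch oQ hA (R := ∅) (ty := fun _ => .tr)).2.1
    obtain ⟨w, u, w1, w2, w3, w4⟩ := HS.exists_dp ch hn h.adm (m := k)
      (A := SM T n lam (T.psi S k lam e) Q (fun _ => .tr) (Ak k) → Fin 2 → Ak k)
      (fun y => funext fun c => hA.two' _) (c := fun g c => c.1 g)
      (Sm.pi fun c => (oQ.xb_coc c.2).1) (fun g hg g' hg' => funext fun c =>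
        ((oQ.xb_coc c.2).2 g (HS.N_le hg) g' (HS.N_le hg')).trans
          (by rw [T.act_N h.adm hg e hA]; rfl)) hσ (Q.1.image Plc.p)
    have nq : ∀ v ∈ Q.1, v.p ≠ w.p := fun v hv e => w1 (mem_image.2 ⟨v, hv, e⟩)
    have nw : w ∉ Q.1 := fun hw => nq w hw rfl
    have dq : S.DpS T k lam (insert w Q.1) := ⟨forall_mem_insert .. |>.2 ⟨w3, Q.2.dp⟩, by
      intro v hv v' hv' e
      rcases mem_insert.1 hv with e1 | e1 <;> rcases mem_insert.1 hv' with e2 | e2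
      exacts [e1.trans e2.symm, absurd (e1 ▸ e.symm) (nq _ e2), absurd (e2 ▸ e) (nq _ e1),
        Q.2.inj _ e1 _ e2 e]⟩
    have oq := ok dq
    have mw := mem_insert_self w Q.1
    have ht : ∀ v ∈ insert w Q.1, v ≠ w → Function.update (fun _ => Ty.tr) w .rel v = .tr :=
      fun v _ e => Function.update_of_ne e ..
    refine ⟨⟨_, dq⟩, SS T n lam (T.psi S k lam e) k (insert w Q.1)
      (Function.update (fun _ => .tr) w .rel), toK n (fq w), toK n (gn w), u, 1, 1,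
      by rw [Subgroup.mem_subgroupOf, toK_coe n (oq.gn_mem mw)]; exact w3.gn_mem hn,
      oq.xb_ur nw (Function.update_self ..) fun v hv => ht v (mem_insert_of_mem hv)
        (ne_of_mem_of_not_mem hv nw),
      oq.xb_inf mw (Function.update_self ..) ht fun c => by simp [mem_Van, Ty.cond], ?_,
      one_dvd _, one_dvd _, ?_, ?_, ?_, fun o => ⟨xb_iso (oq.isoW F mw ht o) (qd o),
        oq.coW F su ch mw (Function.update_self ..) ht o⟩⟩
    · have : IsUnit (u : ℤ_[2]) := by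
        rw [PadicInt.isUnit_iff, PadicInt.norm_natCast_eq_one_iff]
        exact Nat.coprime_two_left.2 w2
      exact (map_natCast (cA k) u ▸ this.map (cA k)).dvd
    · rintro _ ⟨c, hc, rfl⟩
      rw [resK_toK c (oq.fq_mem mw), Nat.cast_smul_eq_nsmul]
      exact congrFun w4 ⟨c, hc⟩
    · rintro _ ⟨c, hc, rfl⟩
      rw [resK_toK c (oq.gn_mem mw)]
      exact (congrArg (fun g => c (cc * g * cc)) (toK_coe n (oq.gn_mem mw))).trans
        (oq.conj_deep hA mw (oq.xb_coc hc)).2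
    · rw [one_smul, one_smul, resK_toK _ (oq.gn_mem mw), resK_toK _ (oq.fq_mem mw),
        kN _ _ (w3.gn_mem hn), kN _ _ w3.fq_mem, k2 _ _ nw dq, mulVec_smul]
  · have := (sel_finite F su ch o1 hA (R := ∅) (ty := fun _ => .rel)).2.1
    exact Finite.of_surjective _ (LinearMap.submoduleMap_surjective _ _)
  · rw [resK_toK _ (o1.fq_mem (mem_singleton_self _)), kN _ _ h0.fq_mem, hf,
      k3 _ (HS.N_le h0.fq_mem)]
    simp only [Pi.smul_apply, smul_smul]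
    simp only [nsmul_eq_mul]
    push_cast
    ring
  · rw [← o1.xb_lag, o1.card_wk le_sup_left, card_SS]
    exact o1.sq_lag F su ch

/-- The data at one level.  The analytic side can be changed by a unit. -/
theorem exists_lev (F : CFT) (su : SUStmt) (ch : ChebStmt) (hn : Nok n) (h : S.Tw k lam a b)
    (e : ℤ) {w₀ : Plc} (h0 : S.Dp T k lam w₀) {κ : Finset Plc → Gam → Fin 2 → Ak k}
    {κ₀ : Gam → Fin 2 → Ak k} {f : Lam}
    (k1 : ∀ Q, S.DpS T k lam Q → κ Q ∈ SU T n lam (T.psi S k lam e) Q (fun _ => .tr) (Ak k))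
    (k2 : ∀ Q w, w ∉ Q → S.DpS T k lam (insert w Q) → κ (insert w Q) (gn w) = tauM _ *ᵥ κ Q (fq w))
    (k3 : ∀ g ∈ GK n, κ ∅ g = 4 • κ₀ g)
    (hf : Ideal.Quotient.mk _ f = κ₀ (fq w₀) 1 - κ₀ (fq w₀) 0) {u : Lam} (hu : IsUnit u) :
    ∃ L : Lev (GK n) (thK n) 8 k,
      L.SF = SS T n lam (T.psi S k lam e) k {w₀} (fun _ => .lag) ∧
      L.S L.n0 = SS T n lam (T.psi S k lam e) k ∅ (fun _ => .tr) ∧
      L.g = u * (f ^ 2 * QP T (T.psi S k lam e)) ∧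
      ∀ σ ∈ L.N, ↑σ ∈ S.N T k lam ∧ L.kap L.n0 σ = 256 • κ₀ σ := by
  obtain ⟨L, h1, h2, h3, h4⟩ := exists_lev' F su ch hn h e h0 k1 k2 k3 hf
    (fun v b => QQ T (T.psi S k lam e) v b * if v = 0 ∧ b = true then u else 1) fun v b =>
      associated_mul_unit_right _ _ (by split_ifs; exacts [hu, isUnit_one])
  refine ⟨L, h1, h2, h3.trans ?_, h4⟩
  simp [QP]
  ring

end Pool.Agent.Lib.MP_696deb_nt.B3
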