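import Pool.Agent.Lib.MP_696deb_nt.B3.KDc
import Pool.Agent.Lib.MP_696deb_nt.B3.XTW
import Pool.Agent.Lib.MP_696deb_nt.B3.XLc

/-! The classes of Kolyvagin of a twisted Euler system. -/

set_option autoImplicit false

open scoped NNReal Classical
open Finset Matrix NumberTheorySymbols PowerSeries

namespace Pool.Agent.Lib.MP_696deb_nt.B3

open B2

section

variable {n k c : ℕ} {S : HS n} {T : Tate} {Y : ES S T.f} {lam w : Plc} {a b e : ℤ} {g : Gam}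
  {P : EE} {Q : Finset Plc}

theorem kd_crd_tw (f : ℤ) (hP : 2 ^ k • P = 0) (g : Gam) :
    T.crd k (tw f g P) = (chi f g : ℤ) • mred k (T.ρ g) *ᵥ T.crd k P :=
  T.inj k (by rw [kd_emb (by rw [← tw_nsmul, hP, tw_zero]), ← tw_emb, kd_emb hP])

theorem kd_cmb_tw (h : S.Tw k lam a b) (v : S.C lam.p → Fin 2 → ZMod (2 ^ k)) :
    S.cmb k lam e (fun x => (chi T.f g : ℤ) • mred k (T.ρ g) *ᵥ v ((S.ψ lam.p g)⁻¹ * x)) =
      act T (T.psi S k lam e) (Ak k) g (S.cmb k lam e v) := by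
  have h1 := kd_cmb_act (T := T.toTate) (e := e) (g := g) h v
  rw [act_eq] at h1 ⊢
  rw [Tate.psi, mul_smul, ← h1, Int.cast_smul_eq_zsmul]
  funext i
  simp only [HS.cmb, Pi.smul_apply, map_zsmul, smul_sum, smul_mul_assoc]

variable {W : S.C c → ℤ} {R : S.C lam.p → EE} {D : S.C c → S.C lam.p → EE}

theorem KD.z1 (K : KD Y k lam.p c W R D) (h : S.Tw k lam a b) :
    S.kap T k lam e (ttT S T.f lam.p c R D) ∈ Z1 (GK n) (act T (T.psi S k lam e) (Ak k)) := by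
  refine ⟨⟨(K.sm.comp fun t => S.cmb k lam e fun x => T.crd k (t x)).congr fun g hg =>
    (kd_kap hg _).symm, fun g hg g' hg' => ?_⟩, fun g hg => if_neg hg⟩
  rw [kd_kap hg, kd_kap hg', kd_kap (mul_mem hg hg'), ← kd_cmb_tw h]
  funext i
  simp only [HS.cmb, Pi.add_apply, ← sum_add_distrib]
  refine sum_congr rfl fun x _ => ?_
  rw [K.coc hg hg', kd_crd_add (K.tors hg x) (by rw [← tw_nsmul, K.tors hg', tw_zero]),
    kd_crd_tw _ (K.tors hg' _), Pi.add_apply, map_add, add_mul]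

theorem KD.kum (K : KD Y k lam.p c W R D) :
    KumC T (GK n ⊓ Dec w2) (S.kap T k lam e (ttT S T.f lam.p c R D)) := by
  refine (KumC.sum univ fun x _ => KumC.of_smul (m := k)
    (x := fun g => T.crd k (ttT S T.f _ c R D g x))
    ⟨4 • R x, fun g hg => ?_⟩ ((kil_Ak k).two (Ideal.Quotient.mk (aa k k) (S.Psi k lam e x)))).congr
    fun g hg => ?_
  · rw [kd_emb (K.tors hg.1 x)]
    exact K.of_ker hg.1 (kd_dec K.adm (fun e => (K.adm.2 _ w2.prime e).1 (w2_p ▸ by norm_num))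
      K.nok.fr_w2.2 K.nok.fr_w2.1 hg) x
  · funext i
    simp only [kd_kap hg.1, HS.cmb, kdI_mul]

theorem kd_ex (Y : ES S T.f) (h : S.DpS T k lam Q) (hn : Nok n) (hl : Adm n lam.p) :
    ∃ R D, KD Y k lam.p (cQ lam Q) (S.Wt k Q _) R D := by
  refine exists_KD hn (h.kd_adm hl) (dvd_mul_right _ _) T.ok.dvd T.ok.fix
    (kd_dv_Wt (h.kd_adm hl) fun w hw =>
    ⟨cQ lam (Q.erase w), ?_, dvd_mul_right _ _, fun v hv e => dvd_cQ (mem_erase.2 ⟨e, hv⟩),
      ((h.dp w hw).kd_dvd hl).2⟩)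
  rw [← cQ_insert (notMem_erase w Q), insert_erase hw]

theorem xkc_tors (K : KD Y k lam.p c (S.Wt k ∅ c) R D) (hg : g ∈ GK n) (x : S.C lam.p) :
    2 ^ k • (tw T.f g (R ((S.ψ lam.p g)⁻¹ * x)) - R x) = 0 := by
  rw [smul_sub, ← tw_nsmul, K.hR, K.hR, kd_F_smul K.adm K.dvd hg]
  exact sub_self _

theorem xkc_four (K : KD Y k lam.p c (S.Wt k ∅ c) R D) (g : Gam) (x : S.C lam.p) :
    ttT S T.f lam.p c R D g x = 4 • (tw T.f g (R ((S.ψ lam.p g)⁻¹ * x)) - R x) := by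
  rw [ttT, smul_sub, kd_four K.fo K.nok K.adm (K.fx _ x) (k := k) (by simp [K.hD, ES.F, HS.Wt]),
    sub_zero]

theorem xkc_root {l : ℕ} {R : S.C l → EE} {D : S.C c → S.C l → EE}
    (K : KD Y k l c (S.Wt k ∅ c) R D) (hc : c = l) (x : S.C l) : 2 ^ k • R x = Y.y l x := by
  subst hc
  have e : (univ.filter fun y => S.pr c c y = x) = {x} := by
    ext y
    simp [kd_pr_self K.adm]
  rw [K.hR, ES.F, e, sum_singleton, HS.Wt, prod_empty, one_smul]

theorem xkc_tr {l : ℕ} {R : S.C l → EE} {D : S.C c → S.C l → EE} (hl : l.Prime)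
    (K : KD Y k l c (S.Wt k ∅ c) R D) (hc : c = 1 * l) (e : ℤ) :
    2 ^ k • ∑ x, (S.gen e (S.pr 1 l x) : ℤ) • R x = a15 l • Y.ychi e := by
  subst hc
  have h1 : ∀ x, 2 ^ k • (S.gen e (S.pr 1 l x) : ℤ) • R x =
      ∑ a with S.pr l (1 * l) a = x, (S.gen e (S.pr 1 (1 * l) a) : ℤ) • Y.y (1 * l) a := fun x => by
    rw [smul_comm, K.hR, ES.F, smul_sum]
    refine sum_congr rfl fun a ha => ?_
    rw [← (mem_filter.1 ha).2, kd_pr K.adm (one_dvd _) K.dvd, HS.Wt, prod_empty, one_smul]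
  rw [smul_sum, sum_congr rfl fun x _ => h1 x,
    sum_fiberwise_of_maps_to (g := S.pr l (1 * l)) (fun _ _ => mem_univ _),
    ← sum_fiberwise_of_maps_to (t := univ) (g := S.pr 1 (1 * l)) (fun _ _ => mem_univ _),
    ES.ychi, smul_sum]
  refine sum_congr rfl fun b _ => ?_
  rw [smul_comm, ← Y.trace 1 l hl K.adm b, smul_sum]
  exact sum_congr rfl fun a ha => by rw [(mem_filter.1 ha).2]

theorem xkc_fix {T : B2.Tate} (hg : g ∈ S.N T k lam) (hP : 2 ^ k • P = 0) : g • P = P := by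
  obtain ⟨x, rfl⟩ := T.surj k P hP
  rw [T.smul, la_mred_le (Nat.le_add_right k 2) (hg.2.1.trans (la_mred_one _).symm), la_mred_one,
    one_mulVec]

/-- On elements that act trivially Kummer classes do not depend on the root. -/
theorem xkc_indep {T : B2.Tate} (hg : g ∈ S.N T k lam) {R R' : EE} (h : 2 ^ k • R = 2 ^ k • R') :
    g • R - R = g • R' - R' := by
  have := xkc_fix hg (P := R - R') (by rw [smul_sub, h, sub_self])
  rw [smul_sub] at this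
  exact sub_eq_sub_iff_sub_eq_sub.1 this

end

/-- The classes of Kolyvagin. -/
theorem kc {n k : ℕ} {S : HS n} (T : Tate) (Y : ES S T.f) (hn : Nok n) (hk : 1 ≤ k) {lam : Plc}
    {a b : ℤ} (h : S.Tw k lam a b) : ∃ (κ : ℤ → Finset Plc → Gam → Fin 2 → Ak k)
      (κ₀ : ℤ → Gam → Fin 2 → Ak k) (R : ℤ → EE),
    (∀ e Q, S.DpS T k lam Q → κ e Q ∈ SU T n lam (T.psi S k lam e) Q (fun _ => .tr) (Ak k)) ∧
    (∀ e Q w, w ∉ Q → S.DpS T k lam (insert w Q) →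
      κ e (insert w Q) (gn w) = tauM _ *ᵥ κ e Q (fq w)) ∧
    (∀ e, ∀ g ∈ GK n, κ e ∅ g = 4 • κ₀ e g) ∧
    (∀ e, KZ T S k lam (Y.y lam.p) e (κ₀ e)) ∧
    ∀ e, 2 ^ k • R e = a15 lam.p • Y.ychi e ∧
      ∀ g ∈ S.N T k lam, T.emb k (fun i => evk k (κ₀ e g i)) = g • R e - R e := by
  have hl := h.adm
  have ex : ∀ Q, ∃ R D, S.DpS T k lam Q → KD Y k lam.p (cQ lam Q) (S.Wt k Q _) R D := fun Q => by
    by_cases hQ : S.DpS T k lam Q
    · obtain ⟨R, D, K⟩ := kd_ex Y hQ hn hl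
      exact ⟨R, D, fun _ => K⟩
    · exact ⟨0, 0, fun k => absurd k hQ⟩
  choose R D K using ex
  have K0 := K ∅ ⟨by simp, by simp⟩
  have hN : ∀ g ∈ S.N T k lam, ∀ x, tw T.f g (R ∅ ((S.ψ lam.p g)⁻¹ * x)) = g • R ∅ x :=
    fun g hg x => by rw [kd_tw_of (T.chi_N hk hg T.ok.dvd), hg.2.2 hl, inv_one, one_mul]
  refine ⟨fun e Q => S.kap T k lam e (ttT S T.f _ _ (R Q) (D Q)),
    fun e => S.kap T k lam e fun g x => tw T.f g (R ∅ ((S.ψ lam.p g)⁻¹ * x)) - R ∅ x,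
    fun e => ∑ x, (S.gen e (S.pr 1 lam.p x) : ℤ) • R ∅ x, fun e Q hQ => ?_,
    fun e Q w hw hQ => ?_, fun e g hg => ?_, fun e g hg R' v h1 h2 i => ?_,
    fun e => ⟨xkc_tr lam.prime K0 (by simp [cQ]) e, fun g hg => ?_⟩⟩
  · refine ((T.sok h hn hQ e).mem_SU (kil_Ak k)).2 ⟨(K Q hQ).z1 h, fun w h1 h2 h3 σ hσ =>
      kd_kap_zero ((K Q hQ).unr h1 (not_dvd_cQ h2 h3) hσ), (K Q hQ).kum, fun w hw =>
        ⟨(Submodule.mem_bot _).2 (kd_kap_zero ?_), trivial⟩⟩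
    have e1 := (insert_erase hw).symm
    have h1 := (hQ.dp w hw).kd_dvd hl
    exact (K Q hQ).tr T (c := cQ lam (Q.erase w)) (by rw [← cQ_insert (notMem_erase w Q), ← e1])
      (dvd_mul_right _ _) h1.1 h1.2 (kd_Wt_insert (K Q hQ).adm (notMem_erase w Q) e1)
  · have hd := hQ.dp w (mem_insert_self _ _)
    have K1 := K Q (hQ.kd_mono (subset_insert _ _))
    have h1 := hd.kd_dvd hl
    have h2 := hd.adm.ine (gn_spec hd.adm.ne.1).1
    have h3 := K1.step (K _ hQ) T (cQ_insert hw) (hQ.kd_nd hw) h1.1 h1.2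
      (kd_Wt_insert (K _ hQ).adm hw rfl)
    have h4 : mred k (T.ρ (fr w)) = !![1, 0; 0, -1] :=
      (la_mred_le (by omega) (hd.deep hl 1).rho_fr).trans (T.mred_cc k)
    simp only [kd_kap h2, kd_kap (kd_fq (S := S) hl hd.adm).1, ← h3,
      kd_crd_smul ((K _ hQ).tors h2 _), kd_cmb_mul, h4, mulVec_mulVec]
    rw [show tauM (Ak k) * (!![1, 0; 0, -1] : Matrix (Fin 2) (Fin 2) _).map (kdI k) = 1 by
      ext i j
      fin_cases i <;> fin_cases j <;> simp [tauM, Matrix.mul_apply], one_mulVec]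
  · funext i
    simp only [kd_kap hg, xkc_four K0, kd_crd_nsmul (xkc_tors K0 hg _), HS.cmb, Pi.smul_apply,
      smul_sum, map_nsmul, smul_mul_assoc]
  · simp only [kd_kap hg.1, HS.cmb, kdI_mul]
    refine sum_congr rfl fun x _ => ?_
    rw [show T.crd k (tw T.f g (R ∅ ((S.ψ lam.p g)⁻¹ * x)) - R ∅ x) = v x from T.inj k (by
      rw [kd_emb (xkc_tors K0 hg.1 x), hN g hg, h2]
      exact xkc_indep hg ((xkc_root K0 (by simp [cQ]) x).trans (h1 x).symm))]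
  · simp only [kd_kap hg.1]
    rw [xkc_ev, smul_sum, ← sum_sub_distrib]
    refine sum_congr rfl fun x _ => ?_
    rw [kd_emb (xkc_tors K0 hg.1 x), hN g hg, smul_sub, smul_comm g]

end Pool.Agent.Lib.MP_696deb_nt.B3
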